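import Pool.Agent.P.MP_46a8f8_ag.GU.AdBase

/-!
Statements for the adjoint groups.
-/

namespace Pool.Agent.P.MP_46a8f8_ag.GU

open TensorProduct Function Matrix IsLocalRing Polynomial

universe u

section defs

variable (R A C : Type u) [CommRing R] [Ring A] [Algebra R A] [StarRing A] [SA R A] [CommRing C]
  [Algebra R C]

/-- the involution is hyperbolic over `C` -/
def Hy : Prop := ∃ j : C ⊗[R] A, cj R A C j = -j ∧ j * j = 1

/-- the involution is hyperbolic over the fraction field of `C ⧸ π` -/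
def HP (π : C) : Prop :=
  ∃ (s a a' : C ⊗[R] A) (δ : C), ¬ π ∣ δ ∧ cj R A C s + s = π • a ∧
    s * s = algebraMap C (C ⊗[R] A) (δ * δ) + π • a'

/-- the hermitian norm statement over `C` -/
def HN : Prop :=
  letI := bcStar R A C
  HermN C (C ⊗[R] A)

/-- first kind, or every similitude is proper -/
def Ty : Prop :=
  Az R A ∨ ∀ (T : Type u) [CommRing T] [Algebra R T] (g : (T ⊗[R] A)ˣ) (w : T),
    Sml R A T g w → dI R A T g = 1

/-- a homomorphism of rings with involution over `j` -/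
def SH {R₀ A₀ : Type u} [CommRing R₀] [Ring A₀] [Algebra R₀ A₀] [StarRing A₀] (j : R₀ →+* C)
    (φ : A₀ →+* C ⊗[R] A) : Prop :=
  (∀ r, φ (algebraMap R₀ A₀ r) = algebraMap C (C ⊗[R] A) (j r)) ∧
    ∀ a, φ (star a) = cj R A C (φ a)

variable (K : Type u) [Field K] [Algebra R K] [Algebra C K]

/-- up to a unit, `π` is a norm from an extension over which the involution is hyperbolic -/
def NH (π : C) : Prop :=
  ∃ (L : Type u) (_ : Field L) (_ : Algebra R L) (_ : Algebra K L) (_ : IsScalarTower R K L),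
    Module.Finite K L ∧ Hy R A L ∧
      ∃ (f : L) (v : Cˣ), f ≠ 0 ∧ Algebra.norm K f = algebraMap C K (v * π)

/-- purity for multipliers -/
def Pur : Prop :=
  ∀ (h : (C ⊗[R] A)ˣ) (c : C ⊗[R] A) (F : C), cj R A C h = h → F ≠ 0 →
    c * cj R A C c = F • (h : C ⊗[R] A) → ∃ v : Cˣ, GP R A K (algebraMap C K (v * F))

/-- a similitude over the fraction field with a unit multiplier comes from the ring -/
def GD : Prop :=
  ∀ (w : C) (g : (K ⊗[R] A)ˣ), IsUnit w → Sml R A K g (algebraMap C K w) →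
    ∃ a : (C ⊗[R] A)ˣ, Sml R A C a w ∧ algebraMap C K (dI R A C a) = dI R A K g

end defs

/-- domains stay domains -/
def Dm (R C : Type u) [CommRing R] [CommRing C] [Algebra R C] : Prop :=
  ∀ (S : Type u) [CommRing S] [IsDomain S] [Algebra R S] [Module.Free R S], IsDomain (C ⊗[R] S)

/-- an isomorphism over `K` gives one over `R` -/
def IsoP (R S A K : Type u) [CommRing R] [CommRing S] [Algebra R S] [Ring A] [Algebra S A]
    [Algebra R A] [StarRing A] [SA R A] [CommRing K] [Algebra R K] : Prop :=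
  ∀ (A' : Type u) [Ring A'] [Algebra S A'] [Algebra R A'] [StarRing A'] [SA R A']
    (φ : K ⊗[R] A' ≃ₐ[K] K ⊗[R] A), AzI R S A' →
    (∀ s : S, φ ((1 : K) ⊗ₜ[R] algebraMap S A' s) = (1 : K) ⊗ₜ[R] algebraMap S A s) →
    (∀ x, φ (cj R A' K x) = cj R A K (φ x)) →
    ∃ α : A' ≃ₐ[S] A, ∀ x, α (star x) = star (α x)

/-- an automorphism over `K` can be made proper by a similitude over `R` -/
def AdP (R S A K : Type u) [CommRing R] [CommRing S] [Ring A] [Algebra S A]
    [Algebra R A] [StarRing A] [SA R A] [CommRing K] [Algebra R K] : Prop :=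
  ∀ φ : K ⊗[R] A ≃ₐ[K] K ⊗[R] A,
    (∀ s : S, φ ((1 : K) ⊗ₜ[R] algebraMap S A s) = (1 : K) ⊗ₜ[R] algebraMap S A s) →
    (∀ x, φ (cj R A K x) = cj R A K (φ x)) →
    ∃ (a : (R ⊗[R] A)ˣ) (w : R), Sml R A R a w ∧
      algebraMap R K (dI R A R a) * skd (cj R A K) φ.toLinearMap = 1

/-! ### the hermitian statement in dimension two -/

def S_Step2 : Prop :=
  ∀ (R A : Type u) [CommRing R] [IsRegularLocalRing R] [Ring A] [Algebra R A] [StarRing A]
    [SA R A], ringKrullDim R = 2 → ∀ (E : FM R A R R) (ε : ℤˣ), E.Sp ε → E.HasLag →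
    ∃ (D : Dat E) (N : ℕ), ∀ r ∈ maximalIdeal R ^ N, D.Kil r

def S_Up : Prop :=
  ∀ (R A O : Type u) [CommRing R] [Ring A] [Algebra R A] [StarRing A] [SA R A] [CommRing O]
    [Algebra R O] [Module.Flat R O], letI := bcStar R A O
    ∀ [SA O (O ⊗[R] A)] (ε : ℤˣ) (E : FM R A R R) (D : Dat E), E.Sp ε →
      ∃ (E' : FM O (O ⊗[R] A) O O) (D' : Dat E'), E'.Sp ε ∧
        (∀ r, D.Kil r → D'.Kil (algebraMap R O r)) ∧ ∀ _ : O →ₐ[R] R, E'.WNull ε → E.WNull ε

def S_HR : Prop :=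
  ∀ (R A B C : Type u) [CommRing R] [Ring A] [Algebra R A] [StarRing A] [SA R A] [CommRing B]
    [IsRegularLocalRing B] [CommRing C] [IsLocalRing C] [Algebra B C]
    [IsLocalHom (algebraMap B C)] [Algebra.FormallySmooth B C] [Algebra.EssFiniteType B C]
    [Algebra R C], ringKrullDim B ≤ 2 → Ok R A → Dm R C → HN R A C

def S_Dm : Prop :=
  ∀ (R O : Type u) [CommRing R] [CommRing O] [Algebra R O], Dm R O → Dm R O[X] ∧
    ∀ (C : Type u) [CommRing C] [Algebra R C] [Algebra O C] [IsScalarTower R O C]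
      (M : Submonoid O) [IsLocalization M C], M ≤ nonZeroDivisors O → Dm R C

/-! ### Azumaya algebras -/

def S_AzT : Prop :=
  ∀ (S A A' : Type u) [CommRing S] [Ring A] [Algebra S A] [Ring A'] [Algebra S A'],
    (Az S A → Az S Aᵐᵒᵖ) ∧ (Az S A → Az S A' → Az S (A ⊗[S] A'))

def S_SN : Prop :=
  ∀ (S A : Type u) [CommRing S] [Finite (MaximalSpectrum S)] [Ring A] [Algebra S A]
    [Module.Free S A] [Module.Finite S A] (φ : A ≃ₐ[S] A), Az S A →
    ∃ g : Aˣ, ∀ x, φ x * g = g * x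

def S_Cen : Prop :=
  ∀ (S A : Type u) [CommRing S] [Ring A] [Algebra S A] [Module.Free S A] (z : A), Az S A →
    (∀ x, z * x = x * z) → ∃ s, algebraMap S A s = z

def S_H9 : Prop :=
  ∀ (R S A : Type u) [CommRing R] [IsLocalRing R] [CommRing S] [Algebra R S] [Ring A]
    [Algebra S A] [Algebra R A] [StarRing A] (s : S), AzI R S A →
    ¬ Surjective (algebraMap R S) → algebraMap S A s * star (algebraMap S A s) = 1 →
    ∃ t : Sˣ, algebraMap S A s * star (algebraMap S A t) = algebraMap S A t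

def S_Prj : Prop :=
  ∀ (R S E M : Type u) [CommRing R] [IsRegularLocalRing R] [CommRing S] [IsDomain S]
    [Algebra R S] [Module.Finite R S] [Algebra.Etale R S] [Ring E] [Algebra S E]
    [Module.Free S E] [Module.Finite S E] [AddCommGroup M] [Module E M] [Module S M]
    [IsScalarTower S E M] [Module.Finite S M], Az S E →
    ∃ (P : Type u) (_ : AddCommGroup P) (_ : Module E P) (_ : Module S P)
      (_ : IsScalarTower S E P), Module.Free S P ∧ Module.Finite S P ∧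
      Module.finrank S P = Module.finrank S M

def S_Br3 : Prop :=
  ∀ (S A A' P : Type u) [CommRing S] [IsDomain S] [Finite (MaximalSpectrum S)] [Ring A]
    [Algebra S A] [Module.Free S A] [Module.Finite S A] [Ring A'] [Algebra S A']
    [Module.Free S A'] [Module.Finite S A'] [AddCommGroup P] [Module (A' ⊗[S] Aᵐᵒᵖ) P]
    [Module S P] [IsScalarTower S (A' ⊗[S] Aᵐᵒᵖ) P] [Module.Free S P] [Module.Finite S P],
    Az S A → Az S A' → Module.finrank S P = Module.finrank S A →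
    Module.finrank S A' = Module.finrank S A → Nonempty (A' ≃ₐ[S] A)

def S_Br : Prop :=
  ∀ (R S A A' K : Type u) [CommRing R] [IsRegularLocalRing R] [CommRing S] [Algebra R S] [Ring A]
    [Algebra S A] [Algebra R A] [StarRing A] [Ring A'] [Algebra S A'] [Algebra R A'] [StarRing A']
    [Field K] [Algebra R K] [IsFractionRing R K] (φ : K ⊗[R] A' ≃ₐ[K] K ⊗[R] A),
    AzI R S A → AzI R S A' →
    (∀ s : S, φ ((1 : K) ⊗ₜ[R] algebraMap S A' s) = (1 : K) ⊗ₜ[R] algebraMap S A s) →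
    Nonempty (A' ≃ₐ[S] A)

def S_Inv : Prop :=
  ∀ (R S A K : Type u) [CommRing R] [IsDomain R] [IsLocalRing R] [CommRing S] [Algebra R S]
    [Ring A] [Algebra S A] [Algebra R A] [StarRing A] [SA R A] [Field K] [Algebra R K]
    [IsFractionRing R K] (σ : A →ₗ[R] A) (φ : K ⊗[R] A ≃ₐ[K] K ⊗[R] A), AzI R S A → IsInvol σ →
    (∀ s : S, φ ((1 : K) ⊗ₜ[R] algebraMap S A s) = (1 : K) ⊗ₜ[R] algebraMap S A s) →
    (∀ x, φ (cj R A K x) = conj σ (φ x)) →
    ∃ (h : Aˣ) (c c' : A) (F d : R), star (h : A) = h ∧ F ≠ 0 ∧ d ≠ 0 ∧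
      (∀ x, σ x * h = h * star x) ∧ c * star c = F • (h : A) ∧ c * c' = algebraMap R A d ∧
      c' * c = algebraMap R A d ∧ ∀ x, φ x * (1 : K) ⊗ₜ[R] c = (1 : K) ⊗ₜ[R] c * x

def S_Iso : Prop :=
  ∀ (R S A K : Type u) [CommRing R] [IsRegularLocalRing R] [CommRing S] [Algebra R S] [Ring A]
    [Algebra S A] [Algebra R A] [StarRing A] [SA R A] [Field K] [Algebra R K]
    [IsFractionRing R K], AzI R S A → HermN R A → Pur R A R K → IsoP R S A K

def S_AdA : Prop :=
  ∀ (R S A K : Type u) [CommRing R] [IsDomain R] [IsLocalRing R] [CommRing S] [Algebra R S]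
    [Ring A] [Algebra S A] [Algebra R A] [StarRing A] [SA R A] [Field K] [Algebra R K]
    [IsFractionRing R K], AzI R S A → Pur R A R K → GD R A R K → AdP R S A K

/-- the twisted form -/
def S_Tw : Prop :=
  ∀ (R S A O : Type u) [CommRing R] [IsLocalRing R] [IsNoetherianRing R] [CommRing S] [Ring A]
    [Algebra S A] [Algebra R A] [StarRing A] [SA R A] [CommRing O] [Algebra R O]
    [Module.FaithfullyFlat R O]
    (c : ∀ (T : Type u) [CommRing T] [Algebra R T], (O →ₐ[R] T) → (O →ₐ[R] T) →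
      T ⊗[R] A ≃ₐ[T] T ⊗[R] A),
    (∀ (T : Type u) [CommRing T] [Algebra R T] (p q : O →ₐ[R] T) (x : T ⊗[R] A),
      c T p q (cj R A T x) = cj R A T (c T p q x)) →
    (∀ (T : Type u) [CommRing T] [Algebra R T] (p q : O →ₐ[R] T) (s : S),
      c T p q ((1 : T) ⊗ₜ[R] algebraMap S A s) = (1 : T) ⊗ₜ[R] algebraMap S A s) →
    (∀ (T T' : Type u) [CommRing T] [Algebra R T] [CommRing T'] [Algebra R T'] (f : T →ₐ[R] T')
      (p q : O →ₐ[R] T) (x : T ⊗[R] A),
      c T' (f.comp p) (f.comp q) (mp A f x) = mp A f (c T p q x)) →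
    (∀ (T : Type u) [CommRing T] [Algebra R T] (p q r : O →ₐ[R] T) (x : T ⊗[R] A),
      c T q r (c T p q x) = c T p r x) →
    ∃ (A' : Type u) (_ : Ring A') (_ : Algebra S A') (_ : Algebra R A') (_ : StarRing A')
      (μ : O ⊗[R] A' ≃ₐ[O] O ⊗[R] A), Module.Finite R A' ∧
      (∀ a, μ ((1 : O) ⊗ₜ[R] star a) = cj R A O (μ ((1 : O) ⊗ₜ[R] a))) ∧
      (∀ s : S, μ ((1 : O) ⊗ₜ[R] algebraMap S A' s) = (1 : O) ⊗ₜ[R] algebraMap S A s) ∧
      ∀ (T : Type u) [CommRing T] [Algebra R T] (p q : O →ₐ[R] T) (a : A'),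
        c T p q (mp A p (μ ((1 : O) ⊗ₜ[R] a))) = mp A q (μ ((1 : O) ⊗ₜ[R] a))

def S_AzD : Prop :=
  ∀ (R S A A' O : Type u) [CommRing R] [IsLocalRing R] [IsNoetherianRing R] [CommRing S]
    [Algebra R S] [Ring A] [Algebra S A] [Algebra R A] [StarRing A] [SA R A] [Ring A']
    [Algebra S A'] [Algebra R A'] [StarRing A'] [Module.Finite R A'] [CommRing O] [Algebra R O]
    [Module.FaithfullyFlat R O] (μ : O ⊗[R] A' ≃ₐ[O] O ⊗[R] A), AzI R S A →
    (∀ a, μ ((1 : O) ⊗ₜ[R] star a) = cj R A O (μ ((1 : O) ⊗ₜ[R] a))) →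
    (∀ s : S, μ ((1 : O) ⊗ₜ[R] algebraMap S A' s) = (1 : O) ⊗ₜ[R] algebraMap S A s) → AzI R S A'

def S_TorA : Prop :=
  ∀ (R S A K : Type u) [CommRing R] [IsDomain R] [IsLocalRing R] [IsNoetherianRing R]
    [CommRing S] [Algebra R S] [Ring A] [Algebra S A] [Algebra R A] [StarRing A] [SA R A]
    [Field K] [Algebra R K] [IsFractionRing R K] (σ : A →ₗ[R] A), (∀ x, σ x = star x) →
    AzI R S A → IsoP R S A K → AdP R S A K → ∀ (O : Type u) [CommRing O] [Algebra R O],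
    IsATorsor S σ O → Nonempty (O →ₐ[R] K) → Nonempty (O →ₐ[R] R)

/-! ### the determinant on skew elements -/

def S_DetC : Prop :=
  ∀ (Ω : Type u) [Field Ω] (n : ℕ) (P : Matrix (Fin n) (Fin n) Ω)
    (ι φ : Matrix (Fin n) (Fin n) Ω →ₗ[Ω] Matrix (Fin n) (Fin n) Ω), (2 : Ω) ≠ 0 → P.det ≠ 0 →
    (∀ M, ι M = Mᵀ) → (∀ M, φ M = Pᵀ * M * P) →
    skd ι φ * P.det = P.det ^ n ∧ skd (-ι) φ = P.det ^ (n + 1)

def S_DA1 : Prop :=
  ∀ (R A Ω : Type u) [CommRing R] [Ring A] [Algebra R A] [StarRing A] [SA R A] [Field Ω]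
    [Algebra R Ω] (n : ℕ) (Ψ : Ω ⊗[R] A ≃ₐ[Ω] Matrix (Fin n) (Fin n) Ω),
    (∀ x, (Ψ (cj R A Ω x)).det = (Ψ x).det) ∧
      ∀ g : (Ω ⊗[R] A)ˣ, Sml R A Ω g 1 → dI R A Ω g = (Ψ g).det ^ (n + 1)

def S_DA2 : Prop :=
  ∀ (R S A : Type u) [CommRing R] [IsLocalRing R] [CommRing S] [Algebra R S] [Ring A]
    [Algebra S A] [Algebra R A] [StarRing A] [SA R A], AzI R S A →
    ¬ Surjective (algebraMap R S) → ∀ (T : Type u) [CommRing T] [Algebra R T]
      (g : (T ⊗[R] A)ˣ) (w : T), Sml R A T g w → dI R A T g = 1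

def S_Sq : Prop :=
  ∀ (R A C : Type u) [CommRing R] [Ring A] [Algebra R A] [StarRing A] [SA R A] [CommRing C]
    [IsDomain C] [Algebra R C] (g : (C ⊗[R] A)ˣ) (w : C), Ty R A → w ≠ 0 → Sml R A C g w →
    dI R A C g = 1 ∨ dI R A C g = -1

def S_Imd : Prop :=
  ∀ (R A O K : Type u) [CommRing R] [Ring A] [Algebra R A] [StarRing A] [SA R A] [CommRing O]
    [IsRegularLocalRing O] [Algebra R O] [Field K] [Algebra R K] [Algebra O K]
    [IsScalarTower R O K] [IsFractionRing O K] (τ : A →ₗ[R] R) (ε : ℤˣ) (g : (K ⊗[R] A)ˣ),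
    Trc τ ε → Ty R A → Sml R A K g 1 →
    ∃ v : (O ⊗[R] A)ˣ, Sml R A O v 1 ∧ algebraMap O K (dI R A O v) = dI R A K g

def S_GD : Prop :=
  ∀ (R A O K : Type u) [CommRing R] [Ring A] [Algebra R A] [StarRing A] [SA R A] [CommRing O]
    [IsRegularLocalRing O] [Algebra R O] [Field K] [Algebra R K] [Algebra O K]
    [IsScalarTower R O K] [IsFractionRing O K], Ok R A → Ty R A → HN R A O → GD R A O K

/-! ### the norm principle -/

def S_SubQ : Prop :=
  ∀ (R A k : Type u) [CommRing R] [Ring A] [Algebra R A] [StarRing A] [SA R A] [Field k]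
    [Algebra R k] (ε : ℤˣ) (Z Y : FM R A k k) (X : RM R A k) (i : X.M →ₗ[k] Z.M)
    (r : X.M →ₗ[k] Y.M), Z.Good ε → Z.Perf → Z.HasLag → Y.Perf → Eqv X Z.toRM i →
    Eqv X Y.toRM r → Surjective r → (∀ x x', Y.b (r x) (r x') = Z.b (i x) (i x')) →
    (∀ z, (∀ x, Z.b z (i x) = 0) → ∃ x, i x = z) → Y.HasLag

/-- the transfer of a hyperbolic involution along a linear form -/
def S_TrL : Prop :=
  ∀ (K A L : Type u) [Field K] [Ring A] [Algebra K A] [StarRing A] [SA K A] [Field L]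
    [Algebra K L] [Module.Finite K L] (τ : A →ₗ[K] K) (ε : ℤˣ) (s : L →ₗ[K] K), Trc τ ε → s ≠ 0 →
    Hy K A L → ∃ (Z : FM K A K K) (t : L →ₗ[K] A →ₗ[K] Z.M), Z.Good ε ∧ Z.Perf ∧ Z.HasLag ∧
      Bijective (TensorProduct.lift t) ∧ (∀ a l x, Z.ρ a (t l x) = t l (a * x)) ∧
      ∀ l l' x x', Z.b (t l x) (t l' x') = s (l * l') * τ (x * star x')

def S_NP1 : Prop :=
  ∀ (K A L : Type u) [Field K] [Ring A] [Algebra K A] [StarRing A] [SA K A] [Field L]
    [Algebra K L] (τ : A →ₗ[K] K) (ε : ℤˣ) (pb : PowerBasis K L), Trc τ ε → Hy K A L →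
    (Odd pb.dim → (HermP.Eh τ (1 : A)).HasLag) ∧ (Even pb.dim →
      ((HermP.Eh τ (1 : A)).sum (HermP.Eh τ (algebraMap K A (Algebra.norm K pb.gen))).neg).HasLag)

def S_NP2 : Prop :=
  ∀ (K A L : Type u) [Field K] [Ring A] [Algebra K A] [StarRing A] [SA K A] [Field L]
    [Algebra K L] [Module.Finite K L] (τ : A →ₗ[K] K) (ε : ℤˣ), Trc τ ε → Hy K A L →
    Odd (Module.finrank K L) → ∃ j : A, star j = -j ∧ j * j = 1

def S_NP : Prop :=
  ∀ (K A L : Type u) [Field K] [Ring A] [Algebra K A] [StarRing A] [SA K A] [Field L]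
    [Algebra K L] [Module.Finite K L] (τ : A →ₗ[K] K) (ε : ℤˣ) (f : L), Trc τ ε → Rk K A →
    Hy K A L → f ≠ 0 → ∃ g : Aˣ, (g : A) * star (g : A) = algebraMap K A (Algebra.norm K f)

/-- the norm principle over a rational function field -/
def S_NPt : Prop :=
  ∀ (R A K L : Type u) [CommRing R] [Ring A] [Algebra R A] [StarRing A] [SA R A] [Field K]
    [Algebra R K] [Field L] [Algebra R L] [Algebra K L] [IsScalarTower R K L]
    [Module.Finite K L] (f : L), Ok R A → Dm R K → Hy R A L → f ≠ 0 →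
    ∃ ν : K[X], ν.eval 0 = 1 ∧ ν.eval 1 = Algebra.norm K f ∧
      ∃ g, Sml R A (FractionRing K[X]) g (algebraMap K[X] (FractionRing K[X]) ν)

def S_NPp : Prop :=
  ∀ (R A K L : Type u) [CommRing R] [Ring A] [Algebra R A] [StarRing A] [SA R A] [Field K]
    [Algebra R K] [Field L] [Algebra R L] [Algebra K L] [IsScalarTower R K L]
    [Module.Finite K L] (f : L), Ok R A → Ty R A → Dm R K → Hy R A L → f ≠ 0 →
    GP R A K (Algebra.norm K f)

/-! ### commutative algebra -/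

def S_Ht1 : Prop :=
  ∀ (O : Type u) [CommRing O] [IsRegularLocalRing O] (p : Ideal O), ringKrullDim O ≤ 2 →
    p.IsPrime → p ≠ maximalIdeal O → p.IsPrincipal

/-- locally principal ideals of semilocal rings are principal -/
def S_LP : Prop :=
  ∀ (T : Type u) [CommRing T] [Finite (MaximalSpectrum T)] (q : Ideal T),
    (∀ 𝔫 : Ideal T, 𝔫.IsMaximal → ∃ g ∈ q, ∀ b ∈ q, ∃ s, s ∉ 𝔫 ∧ g ∣ s * b) → q.IsPrincipal

def S_RegR : Prop :=
  ∀ (B R : Type u) [CommRing B] [IsRegularLocalRing B] [CommRing R] [IsNoetherianRing R]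
    [Algebra B R] (m : ℕ) (φ : MvPolynomial (Fin m) B →ₐ[B] R), ringKrullDim B ≤ 2 →
    EE (φ : MvPolynomial (Fin m) B →+* R) → IsRegularRing R

def S_UFD : Prop :=
  ∀ (R : Type u) [CommRing R] [IsDomain R] [IsLocalRing R] [IsRegularRing R],
    UniqueFactorizationMonoid R

def S_EN : Prop :=
  ∀ (T D Q : Type u) [CommRing T] [IsNoetherianRing T] [CommRing D] [IsDomain D]
    [Finite (MaximalSpectrum D)] [Algebra T D] [CommRing Q] [Algebra T Q]
    [Algebra.FiniteType T Q] [Algebra.FormallySmooth T Q] (y : T) (_ : Q →ₐ[T] D), Quo y D →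
    ∃ (T' : Type u) (_ : CommRing T') (_ : Algebra T T') (_ : Q →ₐ[T] T') (q : T' →ₐ[T] D),
      Algebra.Etale T T' ∧ ∀ t, q t = 0 ↔ algebraMap T T' y ∣ t

def S_ZM : Prop :=
  ∀ (T W : Type u) [CommRing T] [CommRing W] [Finite (MaximalSpectrum W)] [Algebra T W]
    [Algebra.EssFiniteType T W] [Algebra.FormallyUnramified T W],
    ∃ T₁ : Subalgebra T W, Module.Finite T T₁ ∧
      ∀ w : W, ∃ a ∈ T₁, ∃ s ∈ T₁, IsUnit s ∧ s * w = a

def S_Nm : Prop :=
  ∀ (R T K L : Type u) [CommRing R] [IsDomain R] [IsNoetherianRing R]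
    [UniqueFactorizationMonoid R] [CommRing T] [IsDomain T] [Algebra R T] [Module.Finite R T]
    [Field K] [Algebra R K] [IsFractionRing R K] [Field L] [Algebra T L] [IsFractionRing T L]
    [Algebra R L] [Algebra K L] [IsScalarTower R T L] [IsScalarTower R K L] (z : T) (π : R),
    Prime π → z ∣ algebraMap R T π → (∀ r, z ∣ algebraMap R T r → π ∣ r) →
    (∀ t : T, ∃ r r' : R, ¬ π ∣ r' ∧ z ∣ r' • t - algebraMap R T r) →
    Module.Finite K L ∧ ∃ v : Rˣ, Algebra.norm K (algebraMap T L z) = algebraMap R K (v * π)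

def S_Fin1 : Prop :=
  ∀ (R T W D K : Type u) [CommRing R] [IsDomain R] [IsLocalRing R] [IsNoetherianRing R]
    [UniqueFactorizationMonoid R] [CommRing T] [Algebra R T] [Module.Finite R T] [CommRing W]
    [IsDomain W] [Algebra T W] [Algebra R W] [IsScalarTower R T W] [Algebra.EssFiniteType T W]
    [Algebra.FormallyUnramified T W] [CommRing D] [Algebra T D] [Algebra R D]
    [IsScalarTower R T D] [Field K] [Algebra R K] [IsFractionRing R K] (q : W →ₐ[T] D) (y : W)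
    (π : R), Prime π → y ≠ 0 → (∀ w, IsUnit (1 + y * w)) → (∀ w, q w = 0 ↔ y ∣ w) →
    Surjective (algebraMap T D) → Injective (algebraMap R W) →
    (∀ r, algebraMap R D r = 0 ↔ π ∣ r) →
    (∀ d : D, ∃ r r' : R, ¬ π ∣ r' ∧ r' • d = algebraMap R D r) →
    ∃ (L : Type u) (_ : Field L) (_ : Algebra W L) (_ : Algebra K L), Injective (algebraMap W L) ∧
      (∀ r, algebraMap W L (algebraMap R W r) = algebraMap K L (algebraMap R K r)) ∧
      Module.Finite K L ∧ ∃ (f : L) (v : Rˣ), f ≠ 0 ∧ Algebra.norm K f = algebraMap R K (v * π)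

def S_Ch2 : Prop :=
  ∀ (D Dt : Type u) [CommRing D] [IsNoetherianRing D] [CommRing Dt] [IsDomain Dt]
    [IsPrincipalIdealRing Dt] [Algebra D Dt] [Algebra.IsIntegral D Dt]
    [Finite (MaximalSpectrum Dt)] (W : Finset Dt), Injective (algebraMap D Dt) →
    (∀ w : Dt, ∃ a b : D, b ≠ 0 ∧ algebraMap D Dt b * w = algebraMap D Dt a) →
    (∀ 𝔫 : Ideal D, 𝔫.IsMaximal → Infinite (D ⧸ 𝔫)) → Emb D 2 →
    ∃ D' : Subalgebra D Dt, Module.Finite D D' ∧ (∀ w ∈ W, w ∈ D') ∧ Emb D' 2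

def S_Mod2 : Prop :=
  ∀ (O D : Type u) [CommRing O] [IsRegularLocalRing O] [CommRing D] [IsDomain D] [Algebra O D]
    [Module.Finite O D], ringKrullDim O = 2 → ¬ IsField D → ¬ Injective (algebraMap O D) →
    Emb D 2 → ∃ (T : Type u) (_ : CommRing T) (_ : IsDomain T) (_ : Algebra O T)
      (_ : Algebra T D) (_ : IsScalarTower O T D) (z : T), Module.Finite O T ∧
      Injective (algebraMap O T) ∧ z ≠ 0 ∧ Quo z D

/-! ### purity for multipliers -/

def S_Res : Prop :=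
  ∀ (R A O : Type u) [CommRing R] [Ring A] [Algebra R A] [StarRing A] [SA R A] [CommRing O]
    [IsDomain O] [IsNoetherianRing O] [Algebra R O] (π F : O) (k : ℕ) (h : (O ⊗[R] A)ˣ)
    (c : O ⊗[R] A), Prime π → ¬ π ∣ F → cj R A O h = h →
    c * cj R A O c = (π ^ (2 * k + 1) * F) • (h : O ⊗[R] A) → HP R A O π

/-- the residue over a discrete valuation ring -/
def S_ResV : Prop :=
  ∀ (O A : Type u) [CommRing O] [IsDomain O] [IsDiscreteValuationRing O] [Ring A] [Algebra O A]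
    [StarRing A] [SA O A] (π : O) (k : ℕ) (h : Aˣ) (c : A), Irreducible π → star (h : A) = h →
    c * star c = π ^ (2 * k + 1) • (h : A) →
    ∃ s a a' : A, star s + s = π • a ∧ s * s = 1 + π • a'

def S_HypD : Prop :=
  ∀ (R A D : Type u) [CommRing R] [Ring A] [Algebra R A] [StarRing A] [SA R A] [CommRing D]
    [IsDomain D] [IsPrincipalIdealRing D] [Algebra R D] (s : D ⊗[R] A) (δ : D), δ ≠ 0 →
    cj R A D s = -s → s * s = algebraMap D (D ⊗[R] A) (δ * δ) → Hy R A D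

def S_LiftH : Prop :=
  ∀ (R A R₀ A₀ C C' : Type u) [CommRing R] [Ring A] [Algebra R A] [StarRing A] [SA R A]
    [CommRing R₀] [Ring A₀] [Algebra R₀ A₀] [StarRing A₀] [SA R₀ A₀] [CommRing C] [Algebra R C]
    [CommRing C'] [Algebra R C'] (q : C →ₐ[R] C') (j : R₀ →+* C) (φ' : A₀ →+* C' ⊗[R] A),
    Surjective q → (∀ x y, q x = 0 → q y = 0 → x * y = 0) →
    SH R A C' ((q : C →+* C').comp j) φ' → ∃ φ, SH R A C j φ ∧ ∀ a, mp A q (φ a) = φ' a

def S_HomQ : Prop :=
  ∀ (R A R₀ A₀ T : Type u) [CommRing R] [Ring A] [Algebra R A] [StarRing A] [SA R A]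
    [CommRing R₀] [Ring A₀] [Algebra R₀ A₀] [StarRing A₀] [SA R₀ A₀] [CommRing T] [Algebra R T]
    (j : R₀ →+* T), ∃ (Q : Type u) (_ : CommRing Q) (_ : Algebra T Q) (_ : Algebra R Q)
      (_ : IsScalarTower R T Q) (φ : A₀ →+* Q ⊗[R] A), Algebra.FiniteType T Q ∧
      Algebra.FormallySmooth T Q ∧ SH R A Q ((algebraMap T Q).comp j) φ ∧
      ∀ (C : Type u) [CommRing C] [Algebra T C] [Algebra R C] [IsScalarTower R T C]
        (φ' : A₀ →+* C ⊗[R] A), SH R A C ((algebraMap T C).comp j) φ' → Nonempty (Q →ₐ[T] C)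

def S_Nbh : Prop :=
  ∀ (R A R₀ A₀ T D : Type u) [CommRing R] [Ring A] [Algebra R A] [StarRing A] [SA R A]
    [CommRing R₀] [Ring A₀] [Algebra R₀ A₀] [StarRing A₀] [SA R₀ A₀] [CommRing T]
    [IsNoetherianRing T] [Algebra R T] [CommRing D] [IsDomain D] [Finite (MaximalSpectrum D)]
    [Algebra T D] [Algebra R D] [IsScalarTower R T D] (y : T) (j : R₀ →+* T)
    (φ' : A₀ →+* D ⊗[R] A), IsSMulRegular T y → Quo y D →
    SH R A D ((algebraMap T D).comp j) φ' →
    ∃ (W : Type u) (_ : CommRing W) (_ : IsDomain W) (_ : Algebra T W) (_ : Algebra R W)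
      (_ : IsScalarTower R T W) (q : W →ₐ[T] D) (φ : A₀ →+* W ⊗[R] A),
      Algebra.EssFiniteType T W ∧ Algebra.FormallyUnramified T W ∧ Module.Flat T W ∧
      (∀ w, IsUnit (1 + algebraMap T W y * w)) ∧ (∀ w, q w = 0 ↔ algebraMap T W y ∣ w) ∧
      SH R A W ((algebraMap T W).comp j) φ

def S_PPa : Prop :=
  ∀ (R A O K : Type u) [CommRing R] [Ring A] [Algebra R A] [StarRing A] [SA R A] [CommRing O]
    [IsDomain O] [IsLocalRing O] [IsNoetherianRing O] [UniqueFactorizationMonoid O]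
    [Algebra R O] [Field K] [Algebra R K] [Algebra O K] [IsScalarTower R O K]
    [IsFractionRing O K] (π : O), Prime π → Geo π → HP R A O π → NH R A O K π

/-- from a model of the curve -/
def S_PPm : Prop :=
  ∀ (R A O T D K : Type u) [CommRing R] [Ring A] [Algebra R A] [StarRing A] [SA R A] [CommRing O]
    [IsDomain O] [IsLocalRing O] [IsNoetherianRing O] [UniqueFactorizationMonoid O]
    [Algebra R O] [CommRing T] [IsDomain T] [Algebra O T] [Module.Finite O T] [CommRing D]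
    [IsDomain D] [Algebra T D] [Algebra O D] [Algebra R D] [IsScalarTower O T D]
    [IsScalarTower R O D] [Field K] [Algebra R K] [Algebra O K] [IsScalarTower R O K]
    [IsFractionRing O K] (π : O) (z : T), Prime π → Injective (algebraMap O T) → z ≠ 0 →
    Quo z D → (∀ r, algebraMap O D r = 0 ↔ π ∣ r) →
    (∀ d : D, ∃ r r' : O, ¬ π ∣ r' ∧ r' • d = algebraMap O D r) → Hy R A D → NH R A O K π

def S_PPb : Prop :=
  ∀ (R A O K : Type u) [CommRing R] [Ring A] [Algebra R A] [StarRing A] [SA R A] [CommRing O]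
    [IsRegularLocalRing O] [IsDomain O] [UniqueFactorizationMonoid O]
    [Infinite (ResidueField O)] [Algebra R O] [Field K] [Algebra R K] [Algebra O K]
    [IsScalarTower R O K] [IsFractionRing O K] (π : O), ringKrullDim O ≤ 2 → Prime π →
    HP R A O π → NH R A O K π

def S_PurF : Prop :=
  ∀ (R A O K : Type u) [CommRing R] [Ring A] [Algebra R A] [StarRing A] [SA R A] [CommRing O]
    [IsDomain O] [IsNoetherianRing O] [UniqueFactorizationMonoid O] [Algebra R O] [Field K]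
    [Algebra R K] [Algebra O K] [IsScalarTower R O K] [IsFractionRing O K] (h : (O ⊗[R] A)ˣ)
    (c : O ⊗[R] A) (G d : O), cj R A O h = h → G ≠ 0 → d ≠ 0 →
    c * cj R A O c = (G * (d * d)) • (h : O ⊗[R] A) →
    (∀ π : O, Prime π → π ∣ G → HP R A O π → ∃ v : Oˣ, GP R A K (algebraMap O K (v * π))) →
    ∃ v : Oˣ, GP R A K (algebraMap O K (v * G))

def S_PurS : Prop :=
  ∀ (R A B O K : Type u) [CommRing R] [Ring A] [Algebra R A] [StarRing A] [SA R A] [CommRing B]
    [IsRegularLocalRing B] [CommRing O] [IsLocalRing O] [Algebra B O]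
    [IsLocalHom (algebraMap B O)] [Algebra.FormallySmooth B O] [Algebra.EssFiniteType B O]
    [Algebra R O] [Field K] [Algebra R K] [Algebra O K] [IsScalarTower R O K]
    [IsFractionRing O K], ringKrullDim B ≤ 2 → Ok R A → Ty R A → Dm R K →
    Infinite (O ⧸ (maximalIdeal B).map (algebraMap B O)) → Pur R A O K

def S_PurD : Prop :=
  ∀ (R A B K : Type u) [CommRing R] [IsLocalRing R] [Ring A] [Algebra R A] [StarRing A] [SA R A]
    [CommRing B] [IsRegularLocalRing B] [Algebra B R] [IsLocalHom (algebraMap B R)]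
    [Algebra.FormallySmooth B R] [Algebra.EssFiniteType B R] [Field K] [Algebra R K]
    [IsFractionRing R K], ringKrullDim B ≤ 2 → Ok R A → Ty R A → Pur R A R K

end Pool.Agent.P.MP_46a8f8_ag.GU
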