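import Pool.Agent.P.MP_46a8f8_ag.GU.Tor3

/-!
The neutral component of the automorphism group of an algebra with involution, and torsors
under it.
-/

namespace Pool.Agent.P.MP_46a8f8_ag.GU

open TensorProduct

universe u

/-- the `T`-algebra automorphisms of `T ⊗ A` -/
def AutT (R A T : Type u) [CommRing R] [Ring A] [Algebra R A] [CommRing T] [Algebra R T] :
    Type u :=
  T ⊗[R] A ≃ₐ[T] T ⊗[R] A

/-- the `T`-linear endomorphisms of `T ⊗ A` -/
def EndT (R A T : Type u) [CommRing R] [Ring A] [Algebra R A] [CommRing T] [Algebra R T] :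
    Type u :=
  T ⊗[R] A →ₗ[T] T ⊗[R] A

/-- the determinant of a linear endomorphism -/
noncomputable def detOf {T M : Type u} [CommRing T] [AddCommGroup M] [Module T M]
    (ψ : M →ₗ[T] M) : T :=
  LinearMap.det ψ

variable {R A T : Type u} [CommRing R] [Ring A] [Algebra R A] [CommRing T] [Algebra R T]

/-- the value of an automorphism -/
noncomputable def AutT.ap (φ : AutT R A T) (x : T ⊗[R] A) : T ⊗[R] A :=
  (show T ⊗[R] A ≃ₐ[T] T ⊗[R] A from φ) x

/-- the value of an endomorphism -/
noncomputable def EndT.ap (ψ : EndT R A T) (x : T ⊗[R] A) : T ⊗[R] A :=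
  (show T ⊗[R] A →ₗ[T] T ⊗[R] A from ψ) x

/-- the determinant of an endomorphism -/
noncomputable def EndT.det (ψ : EndT R A T) : T :=
  detOf (M := T ⊗[R] A) ψ

/-- `φ` commutes with the involution -/
def AutT.Comm (φ : AutT R A T) (σ : A →ₗ[R] A) : Prop :=
  ∀ x, φ.ap (conj σ x) = conj σ (φ.ap x)

/-- `φ` fixes the elements `1 ⊗ s` for `s` in `S` -/
def AutT.Fix (φ : AutT R A T) (S : Type u) [CommRing S] [Algebra S A] : Prop :=
  ∀ s : S, φ.ap ((1 : T) ⊗ₜ[R] algebraMap S A s) = (1 : T) ⊗ₜ[R] algebraMap S A s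

/-- `φ` has determinant one on the skew elements: the endomorphism which is the identity on the
symmetric elements and `φ` on the skew elements has determinant one -/
def AutT.SkewOne (φ : AutT R A T) (σ : A →ₗ[R] A) : Prop :=
  ∀ ψ : EndT R A T, (∀ x, conj σ x = x → ψ.ap x = x) → (∀ x, conj σ x = -x → ψ.ap x = φ.ap x) →
    ψ.det = 1

/-- The set `Aut⁰(A,σ)(T)`: the automorphisms of `T ⊗ A` which commute with the involution, fix
the centre and have determinant one on the skew elements. -/
def AZero (S : Type u) [CommRing S] [Algebra S A] (σ : A →ₗ[R] A) (T : Type u) [CommRing T]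
    [Algebra R T] : Type u :=
  {φ : AutT R A T // φ.Comm σ ∧ φ.Fix S ∧ φ.SkewOne σ}

/-- For each commutative `R`-algebra `T`, a map `Aut⁰(A,σ)(T) × (Spec O)(T) → (Spec O)(T)`. -/
def AAction (S : Type u) [CommRing S] [Algebra S A] (σ : A →ₗ[R] A) (O : Type u) [CommRing O]
    [Algebra R O] : Type (u + 1) :=
  ∀ (T : Type u) [CommRing T] [Algebra R T], AZero S σ T → (O →ₐ[R] T) → (O →ₐ[R] T)

variable {S : Type u} [CommRing S] [Algebra S A] {σ : A →ₗ[R] A} {O : Type u} [CommRing O]
  [Algebra R O]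

/-- `1 • p = p` -/
def AAction.One (a : AAction S σ O) : Prop :=
  ∀ (T : Type u) [CommRing T] [Algebra R T] (g : AZero S σ T) (p : O →ₐ[R] T),
    (∀ x, g.1.ap x = x) → a T g p = p

/-- `(g h) • p = g • h • p` -/
def AAction.Mul (a : AAction S σ O) : Prop :=
  ∀ (T : Type u) [CommRing T] [Algebra R T] (g h k : AZero S σ T) (p : O →ₐ[R] T),
    (∀ x, k.1.ap x = g.1.ap (h.1.ap x)) → a T k p = a T g (a T h p)

/-- the action is natural in `T` -/
def AAction.Natural (a : AAction S σ O) : Prop :=
  ∀ (T T' : Type u) [CommRing T] [Algebra R T] [CommRing T'] [Algebra R T'] (f : T →ₐ[R] T')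
    (g : AZero S σ T) (g' : AZero S σ T') (p : O →ₐ[R] T),
    (∀ x, g'.1.ap (baseMap A f x) = baseMap A f (g.1.ap x)) →
      f.comp (a T g p) = a T' g' (f.comp p)

/-- the action is simply transitive -/
def AAction.SimplyTransitive (a : AAction S σ O) : Prop :=
  ∀ (T : Type u) [CommRing T] [Algebra R T] (p q : O →ₐ[R] T), ∃! g : AZero S σ T, a T g p = q

variable (S σ O) in
/-- `Spec O` is an `Aut⁰(A,σ)`-torsor over `R`: `O` is faithfully flat over `R`, and for every
commutative `R`-algebra `T` the group `Aut⁰(A,σ)(T)` acts simply transitively on the set of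
`T`-points of `Spec O`, naturally in `T`. -/
def IsATorsor : Prop :=
  Module.FaithfullyFlat R O ∧
    ∃ a : AAction S σ O, a.One ∧ a.Mul ∧ a.Natural ∧ a.SimplyTransitive

end Pool.Agent.P.MP_46a8f8_ag.GU
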