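import Pool.Agent.P.MP_46a8f8_ag.GU.Base2
import Pool.Agent.P.MP_46a8f8_ag.Asm3
import Pool.Agent.P.MP_46a8f8_ag.H90

/-!
From the hermitian norm statement to torsors under the unitary group.
-/

namespace Pool.Agent.P.MP_46a8f8_ag.GU

open TensorProduct Function IsLocalRing

universe u

namespace TorHP

section sg

variable {R A : Type u} [CommRing R] [Ring A] [Algebra R A] {σ : A →ₗ[R] A}
  {S S' : Type u} [CommRing S] [Algebra R S] [CommRing S'] [Algebra R S']

theorem sg_tmul (s : S) (a : A) : σ.lTensor S (s ⊗ₜ[R] a) = s ⊗ₜ[R] σ a := rfl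

theorem mp_sg (f : S →ₐ[R] S') (x : S ⊗[R] A) :
    mp A f (σ.lTensor S x) = σ.lTensor S' (mp A f x) := by
  induction x using TensorProduct.induction_on with
  | zero => simp
  | tmul s a => rfl
  | add x y hx hy => simp only [map_add, hx, hy]

theorem sg_smul (s : S) (x : S ⊗[R] A) : σ.lTensor S (s • x) = s • σ.lTensor S x := by
  induction x using TensorProduct.induction_on with
  | zero => simp
  | tmul t a => rw [smul_tmul', sg_tmul, sg_tmul, smul_tmul']
  | add x y hx hy => simp only [smul_add, map_add, hx, hy]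

variable [StarRing A]

theorem sg_mul (hσ : ∀ x, σ x = star x) (x y : S ⊗[R] A) :
    σ.lTensor S (x * y) = σ.lTensor S y * σ.lTensor S x := by
  induction x using TensorProduct.induction_on with
  | zero => simp
  | tmul s a =>
    induction y using TensorProduct.induction_on with
    | zero => simp
    | tmul t b =>
      rw [Algebra.TensorProduct.tmul_mul_tmul, sg_tmul, sg_tmul, sg_tmul,
        Algebra.TensorProduct.tmul_mul_tmul, hσ, hσ, hσ, star_mul, mul_comm s t]
    | add x y hx hy => simp only [mul_add, add_mul, map_add, hx, hy]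
  | add x x' hx hx' => simp only [mul_add, add_mul, map_add, hx, hx']

theorem sg_sg (hσ : ∀ x, σ x = star x) (x : S ⊗[R] A) : σ.lTensor S (σ.lTensor S x) = x := by
  induction x using TensorProduct.induction_on with
  | zero => simp
  | tmul s a => rw [sg_tmul, sg_tmul, hσ, hσ, star_star]
  | add x y hx hy => simp only [map_add, hx, hy]

theorem sg_one (hσ : ∀ x, σ x = star x) : σ.lTensor S (1 : S ⊗[R] A) = 1 := by
  rw [Algebra.TensorProduct.one_def, sg_tmul, hσ, star_one]

omit [StarRing A] in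
/-- base change of unitary elements -/
noncomputable def umap (f : S →ₐ[R] S') (g : Uni σ S) : Uni σ S' :=
  ⟨mp A f g.1, by rw [← mp_sg, ← map_mul, g.2.1, map_one],
    by rw [← mp_sg, ← map_mul, g.2.2, map_one]⟩

/-- the unit element -/
noncomputable def uone (hσ : ∀ x, σ x = star x) : Uni σ S :=
  ⟨1, by rw [sg_one hσ, one_mul], by rw [sg_one hσ, one_mul]⟩

/-- the product of unitary elements -/
noncomputable def umul (hσ : ∀ x, σ x = star x) (g h : Uni σ S) : Uni σ S :=
  ⟨g.1 * h.1, by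
    rw [sg_mul hσ, mul_assoc, ← mul_assoc h.1, h.2.1, one_mul, g.2.1], by
    rw [sg_mul hσ, mul_assoc, ← mul_assoc _ g.1, g.2.2, one_mul, h.2.2]⟩

end sg

section desc

variable {R A : Type u} [CommRing R] [Ring A] [Algebra R A]

theorem repr_mp {ι : Type} (b : Module.Basis ι R A) {S S' : Type u} [CommRing S] [Algebra R S]
    [CommRing S'] [Algebra R S'] (f : S →ₐ[R] S') (x : S ⊗[R] A) (i : ι) :
    (Algebra.TensorProduct.basis S' b).repr (mp A f x) i =
      f ((Algebra.TensorProduct.basis S b).repr x i) := by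
  induction x using TensorProduct.induction_on with
  | zero => simp
  | tmul s a =>
    rw [H90P.mp_tmul, Algebra.TensorProduct.basis_repr_tmul,
      Algebra.TensorProduct.basis_repr_tmul]
    simp
  | add x y hx hy => simp only [map_add, Finsupp.add_apply, hx, hy]

theorem descend [Nontrivial R] [Module.Free R A] [Module.Finite R A] {O : Type u} [CommRing O]
    [Algebra R O] [Module.FaithfullyFlat R O] (w : O ⊗[R] A)
    (h : mp A (H90P.iL R O O) w = mp A (H90P.iR R O O) w) :
    ∃ a : A, w = (1 : O) ⊗ₜ[R] a := by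
  let b := Module.finBasis R A
  have hr : ∀ i, ∃ r : R, algebraMap R O r = (Algebra.TensorProduct.basis O b).repr w i := by
    intro i
    refine mem_range_of_eq _ ?_
    have h1 := repr_mp b (H90P.iL R O O) w i
    have h2 := repr_mp b (H90P.iR R O O) w i
    rw [h, h2] at h1
    exact h1.symm
  choose r hr using hr
  refine ⟨∑ i, r i • b i, ?_⟩
  rw [tmul_sum]
  conv_lhs => rw [← (Algebra.TensorProduct.basis O b).sum_repr w]
  refine Finset.sum_congr rfl fun i _ => ?_
  rw [← hr, Algebra.TensorProduct.basis_apply, tmul_smul, algebraMap_smul]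

theorem one_tmul_inj [Module.Free R A] {S : Type u} [CommRing S] [Algebra R S]
    (hi : Injective (algebraMap R S)) {a a' : A} (h : (1 : S) ⊗ₜ[R] a = (1 : S) ⊗ₜ[R] a') :
    a = a' :=
  Algebra.TensorProduct.includeRight_injective (R := R) (A := S) (B := A) hi h

theorem one_tmul_mul {S : Type u} [CommRing S] [Algebra R S] (a a' : A) :
    ((1 : S) ⊗ₜ[R] a) * ((1 : S) ⊗ₜ[R] a') = (1 : S) ⊗ₜ[R] (a * a') := by
  rw [Algebra.TensorProduct.tmul_mul_tmul, one_mul]

end desc

open H90P in
/-- Hilbert 90 when modules with an action of `A` are determined by their rank -/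
theorem h90 {R A O : Type u} [CommRing R] [IsLocalRing R] [Ring A] [Algebra R A]
    [Module.Free R A] [Module.Finite R A] [CommRing O] [Algebra R O] [Module.FaithfullyFlat R O]
    (c : ∀ (S : Type u) [CommRing S] [Algebra R S], (O →ₐ[R] S) → (O →ₐ[R] S) → S ⊗[R] A)
    (hA : Rk R A) (hn' : Nat' c)
    (h1 : ∀ (S : Type u) [CommRing S] [Algebra R S] (p : O →ₐ[R] S), c S p p = 1)
    (hc : ∀ (S : Type u) [CommRing S] [Algebra R S] (p q r : O →ₐ[R] S),
      c S q r * c S p q = c S p r) :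
    ∃ z : (O ⊗[R] A)ˣ, ∀ (S : Type u) [CommRing S] [Algebra R S] (p q : O →ₐ[R] S),
      mp A q z * c S p q = mp A p z := by
  let M := LinearMap.ker (del c)
  let e : O ⊗[R] M ≃ₗ[O] O ⊗[R] A :=
    LinearEquiv.ofBijective (mu c) ⟨mu_injective hn', mu_surjective hn' h1 hc⟩
  have : Module.Finite O (O ⊗[R] M) := Module.Finite.equiv e.symm
  have : Module.Flat O (O ⊗[R] M) := Module.Flat.of_linearEquiv e
  have : Module.Finite R M := Module.Finite.of_finite_tensorProduct_of_faithfullyFlat O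
  have : Module.Flat R M := Module.Flat.of_flat_tensorProduct R M O
  have : Module.Free R M := Module.free_of_flat_of_isLocalRing
  have : Nontrivial O := (FaithfulSMul.algebraMap_injective R O).nontrivial
  have hr : Module.finrank R M = Module.finrank R A := by
    have := e.finrank_eq
    rwa [Module.finrank_baseChange, Module.finrank_baseChange] at this
  let := modA c
  have : IsScalarTower R A M := ⟨fun r a z => Subtype.ext (by
    change ((1 : O) ⊗ₜ[R] (r • a)) * (z : O ⊗[R] A) = r • (((1 : O) ⊗ₜ[R] a) * (z : O ⊗[R] A))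
    rw [tmul_smul, smul_mul_assoc])⟩
  have : SMulCommClass A R M := ⟨fun a r z => Subtype.ext (by
    change ((1 : O) ⊗ₜ[R] a) * (r • (z : O ⊗[R] A)) = r • (((1 : O) ⊗ₜ[R] a) * (z : O ⊗[R] A))
    rw [mul_smul_comm])⟩
  let X : RM R A R :=
    { M := M
      ρ := Module.toModuleEnd R M (S := A)
      alg := fun r m => algebraMap_smul A r m }
  obtain ⟨φ, hφ⟩ := hA (RM.reg R A) X ⟨inferInstanceAs (Module.Free R A),
    inferInstanceAs (Module.Finite R A)⟩ ⟨inferInstanceAs (Module.Free R M),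
    inferInstanceAs (Module.Finite R M)⟩ hr.symm
  let m₁ : M := φ (1 : A)
  let z : O ⊗[R] A := m₁
  have hz : ∀ y, ∃ w, mu c y = w * z := by
    intro y
    induction y using TensorProduct.induction_on with
    | zero => exact ⟨0, by simp⟩
    | tmul o m =>
      obtain ⟨a, ha⟩ := φ.surjective m
      refine ⟨o • ((1 : O) ⊗ₜ[R] (a : A)), ?_⟩
      have h2 : φ ((a : A) * 1) = (a : A) • m₁ := hφ a (1 : A)
      rw [mul_one, ha] at h2
      rw [mu_tmul, h2, smul_mul_assoc]
      rfl
    | add x y hx hy =>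
      obtain ⟨v, hv⟩ := hx
      obtain ⟨w, hw⟩ := hy
      exact ⟨v + w, by rw [map_add, hv, hw, add_mul]⟩
  have hs : Surjective (LinearMap.mulRight O z) := fun x => by
    obtain ⟨y, rfl⟩ := mu_surjective hn' h1 hc x
    obtain ⟨w, hw⟩ := hz y
    exact ⟨w, hw.symm⟩
  have hi : Injective (LinearMap.mulRight O z) :=
    OrzechProperty.injective_of_surjective_endomorphism _ hs
  obtain ⟨w, hw⟩ := hs 1
  have hw1 : w * z = 1 := hw
  have hw2 : z * w = 1 := hi (by
    change z * w * z = 1 * z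
    rw [mul_assoc, hw1, mul_one, one_mul])
  refine ⟨⟨z, w, hw2, hw1⟩, fun S _ _ p q => ?_⟩
  have h0 : del c z = 0 := m₁.2
  have h2 := mp_del hn' (pr p q) z
  rw [h0, map_zero, pr_iL, pr_iR, eq_comm, sub_eq_zero] at h2
  exact h2

end TorHP

open TorHP in
theorem pTor : S_Tor.{u} := by
  intro R A _ _ _ _ _ _ _ _ σ hσ hRk hH K _ _ _ O _ _ hT hK
  obtain ⟨hff, act, a1, a2, a3, a4⟩ := hT
  have : Module.Free R A := SA.free
  have : Module.Finite R A := SA.fin
  obtain ⟨p₀⟩ := hK
  choose c hc hc' using a4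
  dsimp only at hc hc'
  obtain ⟨z, hz⟩ := TorHP.h90 (fun S _ _ p q => (c S p q).1) hRk
    (fun S S' _ _ _ _ f p q => by
      have := hc' S' (f.comp p) (f.comp q) (umap f (c S p q))
        (by rw [← a3 S S' f (c S p q) _ p rfl, hc])
      exact congrArg Subtype.val this)
    (fun S _ _ p => by rw [← hc' S p p (uone hσ) (a1 S _ p rfl)]; rfl)
    (fun S _ _ p q r => by
      rw [← hc' S p r (umul hσ (c S q r) (c S p q))
        (by rw [a2 S (c S q r) (c S p q) _ p rfl, hc, hc])]
      rfl)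
  have hinj : Injective (algebraMap R O) := FaithfulSMul.algebraMap_injective R O
  have hiK : Injective (algebraMap R K) := IsFractionRing.injective R K
  let i₁ := H90P.iL R O O
  let i₂ := H90P.iR R O O
  let y : O ⊗[R] A := z
  let y' : O ⊗[R] A := (z⁻¹ : (O ⊗[R] A)ˣ)
  have e1 : y * y' = 1 := z.mul_inv
  have e2 : y' * y = 1 := z.inv_mul
  have f1 : (y * σ.lTensor O y) * (σ.lTensor O y' * y') = 1 := by
    rw [mul_assoc, ← mul_assoc (σ.lTensor O y), ← sg_mul hσ, e2, sg_one hσ, one_mul, e1]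
  have f2 : (σ.lTensor O y' * y') * (y * σ.lTensor O y) = 1 := by
    rw [mul_assoc, ← mul_assoc y', e2, one_mul, ← sg_mul hσ, e1, sg_one hσ]
  have d1 : mp A i₁ (y * σ.lTensor O y) = mp A i₂ (y * σ.lTensor O y) := by
    rw [map_mul, map_mul, mp_sg, mp_sg, ← hz _ i₁ i₂, sg_mul hσ, mul_assoc,
      ← mul_assoc (c _ i₁ i₂).1, (c _ i₁ i₂).2.1, one_mul]
  have d2 : mp A i₁ (σ.lTensor O y' * y') = mp A i₂ (σ.lTensor O y' * y') := by
    have g1 := congrArg (mp A i₁) f2
    have g2 := congrArg (mp A i₂) f1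
    rw [map_mul, map_one] at g1 g2
    rw [d1] at g1
    exact left_inv_eq_right_inv g1 g2
  obtain ⟨h, hh⟩ := descend _ d1
  obtain ⟨h', hh'⟩ := descend _ d2
  have k1 : h * h' = 1 := one_tmul_inj hinj (by
    rw [← one_tmul_mul, ← hh, ← hh', f1, Algebra.TensorProduct.one_def])
  have k2 : h' * h = 1 := one_tmul_inj hinj (by
    rw [← one_tmul_mul, ← hh, ← hh', f2, Algebra.TensorProduct.one_def])
  have k3 : star h = h := one_tmul_inj hinj (by
    rw [← hσ, ← sg_tmul, ← hh, sg_mul hσ, sg_sg hσ])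
  obtain ⟨s, a, hsa⟩ := exists_smul_eq_one_tmul (nonZeroDivisors R) K (mp A p₀ y)
  obtain ⟨s', a', hsa'⟩ := exists_smul_eq_one_tmul (nonZeroDivisors R) K (mp A p₀ y')
  have hs0 : (s : R) ≠ 0 := nonZeroDivisors.coe_ne_zero s
  have hs0' : (s' : R) ≠ 0 := nonZeroDivisors.coe_ne_zero s'
  have hal : ∀ r : R, (1 : K) ⊗ₜ[R] algebraMap R A r = algebraMap R K r • (1 : K ⊗[R] A) := by
    intro r
    rw [Algebra.algebraMap_eq_smul_one, tmul_smul, algebraMap_smul,
      Algebra.TensorProduct.one_def]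
  obtain ⟨b, hb⟩ := hH ⟨h, h', k1, k2⟩ a a' s (s * s') k3 hs0 (mul_ne_zero hs0 hs0')
    (one_tmul_inj hiK (by
      rw [← one_tmul_mul, ← hσ, ← sg_tmul, ← hsa, sg_smul, smul_mul_smul_comm, ← mp_sg,
        ← map_mul (mp A p₀), hh, mp_one_tmul, ← map_mul, tmul_smul, algebraMap_smul]))
    (one_tmul_inj hiK (by
      rw [← one_tmul_mul, ← hsa, ← hsa', smul_mul_smul_comm, ← map_mul (mp A p₀), e2, map_one,
        hal, ← map_mul, mul_comm]))
    (one_tmul_inj hiK (by
      rw [← one_tmul_mul, ← hsa, ← hsa', smul_mul_smul_comm, ← map_mul (mp A p₀), e1, map_one,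
        hal, ← map_mul]))
  have hb' : (b : A) * star (b : A) = h := hb
  let x : O ⊗[R] A := (1 : O) ⊗ₜ[R] ((b⁻¹ : Aˣ) : A) * y
  have u1 : x * σ.lTensor O x = 1 := by
    rw [sg_mul hσ, mul_assoc, ← mul_assoc y, hh, sg_tmul, one_tmul_mul, one_tmul_mul, hσ, ← hb',
      mul_assoc, ← star_mul, Units.inv_mul, star_one, mul_one, Units.inv_mul,
      Algebra.TensorProduct.one_def]
  have u0 : (y' * (1 : O) ⊗ₜ[R] (b : A)) * x = 1 := by
    rw [mul_assoc, ← mul_assoc _ _ y, one_tmul_mul, Units.mul_inv,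
      ← Algebra.TensorProduct.one_def, one_mul, e2]
  have u2 : σ.lTensor O x * x = 1 := by
    rw [← left_inv_eq_right_inv u0 u1, u0]
  let z' : Uni σ O := ⟨x, u1, u2⟩
  let t := act O z' (AlgHom.id R O)
  have key : i₁.comp t = i₂.comp t := by
    rw [a3 O _ i₁ z' (umap i₁ z') _ rfl, a3 O _ i₂ z' (umap i₂ z') _ rfl,
      AlgHom.comp_id, AlgHom.comp_id]
    have h5 : (umap i₁ z').1 = (umap i₂ z').1 * (c _ i₁ i₂).1 := by
      change mp A i₁ ((1 : O) ⊗ₜ[R] ((b⁻¹ : Aˣ) : A) * y) =
        mp A i₂ ((1 : O) ⊗ₜ[R] ((b⁻¹ : Aˣ) : A) * y) * _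
      rw [map_mul, map_mul, mp_one_tmul, mp_one_tmul, mul_assoc]
      congr 1
      exact (hz _ i₁ i₂).symm
    rw [a2 _ _ _ _ i₁ h5, hc]
  choose t' ht' using fun o => mem_range_of_eq (R := R) (t o) (AlgHom.congr_fun key o)
  exact ⟨{
    toFun := t'
    map_one' := hinj (by rw [ht', map_one, map_one])
    map_mul' := fun a b => hinj (by rw [map_mul, ht', ht', ht', map_mul])
    map_zero' := hinj (by rw [ht', map_zero, map_zero])
    map_add' := fun a b => hinj (by rw [map_add, ht', ht', ht', map_add])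
    commutes' := fun r => hinj (by rw [ht', AlgHom.commutes]; rfl) }⟩

end Pool.Agent.P.MP_46a8f8_ag.GU
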