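import Pool.Agent.P.MP_46a8f8_ag.GU.SoTop
import Pool.Agent.P.MP_46a8f8_ag.GU.TorH
import Pool.Agent.P.MP_46a8f8_ag.GU.Tor4

/-!
Definitions and basic facts for the adjoint groups.
-/

namespace Pool.Agent.P.MP_46a8f8_ag.GU

open TensorProduct Function IsLocalRing

universe u

section lin

variable {C M M' : Type u} [CommRing C] [AddCommGroup M] [Module C M] [AddCommGroup M']
  [Module C M']

/-- the identity on symmetric elements and `φ` on skew elements -/
noncomputable def skm (ι φ : M →ₗ[C] M) : M →ₗ[C] M :=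
  Ring.inverse (2 : C) • (LinearMap.id + ι + φ ∘ₗ (LinearMap.id - ι))

/-- the determinant on the skew elements -/
noncomputable def skd (ι φ : M →ₗ[C] M) : C := LinearMap.det (skm ι φ)

variable {ι φ φ' ψ : M →ₗ[C] M}

theorem skm_apply (x : M) :
    skm ι φ x = Ring.inverse (2 : C) • (x + ι x + φ (x - ι x)) := rfl

theorem half_smul (h2 : IsUnit (2 : C)) (x : M) : Ring.inverse (2 : C) • (x + x) = x := by
  rw [← two_smul C, smul_smul, Ring.inverse_mul_cancel _ h2, one_smul]

theorem skm_sym (h2 : IsUnit (2 : C)) {x : M} (hx : ι x = x) : skm ι φ x = x := by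
  rw [skm_apply, hx, sub_self, map_zero, add_zero, half_smul h2]

theorem skm_skew (h2 : IsUnit (2 : C)) {x : M} (hx : ι x = -x) : skm ι φ x = φ x := by
  rw [skm_apply, hx, add_neg_cancel, zero_add, sub_neg_eq_add, map_add, half_smul h2]

theorem eq_skm (h2 : IsUnit (2 : C)) (hι : ∀ x, ι (ι x) = x) (h : ∀ x, ι x = x → ψ x = x)
    (h' : ∀ x, ι x = -x → ψ x = φ x) : ψ = skm ι φ := by
  ext x
  have e : x + x = (x + ι x) + (x - ι x) := by abel
  rw [skm_apply, ← h (x + ι x) (by rw [map_add, hι, add_comm]),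
    ← h' (x - ι x) (by rw [map_sub, hι, neg_sub]), ← map_add, ← e, ← map_smul, half_smul h2]

theorem skd_id (h2 : IsUnit (2 : C)) (hι : ∀ x, ι (ι x) = x) (h : ∀ x, φ x = x) :
    skd ι φ = 1 := by
  rw [skd, ← eq_skm (ψ := LinearMap.id) h2 hι (fun _ _ => rfl) fun x _ => (h x).symm,
    LinearMap.det_id]

theorem skd_comp (h2 : IsUnit (2 : C)) (hι : ∀ x, ι (ι x) = x) (h' : ∀ x, φ' (ι x) = ι (φ' x))
    (h : ∀ x, ψ x = φ (φ' x)) : skd ι ψ = skd ι φ * skd ι φ' := by
  rw [skd, skd, skd, ← LinearMap.det_comp]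
  refine congrArg _ (eq_skm h2 hι (fun x hx => ?_) fun x hx => ?_).symm
  · rw [LinearMap.comp_apply, skm_sym h2 hx, skm_sym h2 hx]
  · rw [LinearMap.comp_apply, skm_skew h2 hx, skm_skew h2 (by rw [← h', hx, map_neg]), h]

theorem skd_conj {ι' φ₁ : M' →ₗ[C] M'} (e : M ≃ₗ[C] M') (h : ∀ x, e (ι x) = ι' (e x))
    (h' : ∀ x, e (φ x) = φ₁ (e x)) : skd ι' φ₁ = skd ι φ := by
  rw [skd, skd, ← LinearMap.det_conj (skm ι φ) e]
  congr 1
  ext y
  obtain ⟨x, rfl⟩ := e.surjective y
  simp [skm_apply, h, h']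

end lin

/-- conjugation by a unit -/
def inn (C : Type u) {E : Type u} [CommRing C] [Ring E] [Algebra C E] (g : Eˣ) : E →ₗ[C] E :=
  LinearMap.mulLeft C (g : E) ∘ₗ LinearMap.mulRight C ((g⁻¹ : Eˣ) : E)

theorem inn_apply {C E : Type u} [CommRing C] [Ring E] [Algebra C E] (g : Eˣ) (x : E) :
    inn C g x = g * (x * (g⁻¹ : Eˣ)) := rfl

section rel

variable (R A C : Type u) [CommRing R] [Ring A] [Algebra R A] [CommRing C] [Algebra R C]

section can

variable (O : Type u) [CommRing O] [Algebra R O] [Algebra O C] [IsScalarTower R O C]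

/-- cancellation of a scalar extension -/
noncomputable def can : C ⊗[O] (O ⊗[R] A) ≃ₐ[C] C ⊗[R] A :=
  AlgEquiv.symm <| AlgEquiv.ofLinearEquiv
    (TensorProduct.AlgebraTensorModule.cancelBaseChange R O C C A).symm
    (by simp [Algebra.TensorProduct.one_def]) <|
      LinearMap.map_mul_of_map_mul_tmul (fun _ _ _ _ => by simp)

theorem can_tmul (c : C) (x : O ⊗[R] A) :
    can R A C O (c ⊗ₜ[O] x) = c • mp A (IsScalarTower.toAlgHom R O C) x := by
  induction x using TensorProduct.induction_on with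
  | zero => simp
  | add x y hx hy => rw [tmul_add, map_add, hx, hy, map_add, smul_add]
  | tmul o a =>
    rw [H90P.mp_tmul, smul_tmul', smul_eq_mul, mul_comm, IsScalarTower.toAlgHom_apply,
      ← Algebra.smul_def]
    exact TensorProduct.AlgebraTensorModule.cancelBaseChange_tmul R O C c a o

end can

variable [StarRing A] [SA R A]

/-- the involution on a scalar extension -/
noncomputable def cj : C ⊗[R] A →ₗ[C] C ⊗[R] A := (HermP.stL R A).baseChange C

/-- `g` is a similitude with multiplier `w` -/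
def Sml (g : (C ⊗[R] A)ˣ) (w : C) : Prop :=
  (g : C ⊗[R] A) * cj R A C g = algebraMap C (C ⊗[R] A) w

/-- the determinant of conjugation by `g` on the skew elements -/
noncomputable def dI (g : (C ⊗[R] A)ˣ) : C := skd (cj R A C) (inn C g)

/-- `w` is the multiplier of a proper similitude -/
def GP (w : C) : Prop := ∃ g, Sml R A C g w ∧ dI R A C g = 1

variable {R A C}

theorem cj_tmul (c : C) (a : A) : cj R A C (c ⊗ₜ[R] a) = c ⊗ₜ[R] star a := rfl

theorem cj_mul (x y : C ⊗[R] A) : cj R A C (x * y) = cj R A C y * cj R A C x :=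
  TorHP.sg_mul (σ := HermP.stL R A) (fun _ => rfl) x y

theorem cj_cj (x : C ⊗[R] A) : cj R A C (cj R A C x) = x :=
  TorHP.sg_sg (σ := HermP.stL R A) (fun _ => rfl) x

theorem cj_one : cj R A C 1 = 1 := TorHP.sg_one (σ := HermP.stL R A) fun _ => rfl

theorem cj_alg (c : C) : cj R A C (algebraMap C _ c) = algebraMap C _ c := by
  rw [Algebra.algebraMap_eq_smul_one, map_smul, cj_one]

theorem cj_eq_conj {σ : A →ₗ[R] A} (hσ : ∀ x, σ x = star x) (x : C ⊗[R] A) :
    conj σ x = cj R A C x := by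
  rw [show σ = HermP.stL R A from LinearMap.ext hσ]
  rfl

variable {C' : Type u} [CommRing C'] [Algebra R C']

theorem mp_cj (f : C →ₐ[R] C') (x : C ⊗[R] A) : mp A f (cj R A C x) = cj R A C' (mp A f x) :=
  TorHP.mp_sg f x

omit [StarRing A] [SA R A] in
theorem mp_smul (f : C →ₐ[R] C') (c : C) (x : C ⊗[R] A) : mp A f (c • x) = f c • mp A f x :=
  H90P.mp_smul A f c x

omit [StarRing A] [SA R A] in
theorem mp_alg (f : C →ₐ[R] C') (c : C) :
    mp A f (algebraMap C (C ⊗[R] A) c) = algebraMap C' (C' ⊗[R] A) (f c) := by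
  rw [Algebra.algebraMap_eq_smul_one, mp_smul, map_one, Algebra.algebraMap_eq_smul_one]

omit [StarRing A] [SA R A] in
theorem det_mp [Module.Free R A] [Module.Finite R A] (f : C →ₐ[R] C')
    {ψ : C ⊗[R] A →ₗ[C] C ⊗[R] A} {ψ' : C' ⊗[R] A →ₗ[C'] C' ⊗[R] A}
    (h : ∀ x, ψ' (mp A f x) = mp A f (ψ x)) : LinearMap.det ψ' = f (LinearMap.det ψ) := by
  classical
  cases subsingleton_or_nontrivial R
  · have := (algebraMap R C').codomain_trivial
    exact Subsingleton.elim _ _
  let b := Module.finBasis R A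
  rw [← LinearMap.det_toMatrix (Algebra.TensorProduct.basis C' b),
    ← LinearMap.det_toMatrix (Algebra.TensorProduct.basis C b), AlgHom.map_det]
  congr 1
  ext i j
  rw [AlgHom.mapMatrix_apply, Matrix.map_apply, LinearMap.toMatrix_apply, LinearMap.toMatrix_apply,
    ← TorHP.repr_mp b f, ← h, Algebra.TensorProduct.basis_apply, Algebra.TensorProduct.basis_apply,
    H90P.mp_tmul, map_one]

theorem skd_mp (f : C →ₐ[R] C') {φ : C ⊗[R] A →ₗ[C] C ⊗[R] A}
    {φ' : C' ⊗[R] A →ₗ[C'] C' ⊗[R] A} (h : ∀ x, φ' (mp A f x) = mp A f (φ x)) :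
    skd (cj R A C') φ' = f (skd (cj R A C) φ) := by
  have := SA.free (R := R) (A := A)
  have := SA.fin (R := R) (A := A)
  refine det_mp f fun x => ?_
  have h2 : f (Ring.inverse 2) = Ring.inverse 2 := by
    refine (two_unit R A C').mul_right_cancel ?_
    rw [Ring.inverse_mul_cancel _ (two_unit R A C'), ← map_ofNat f 2, ← map_mul,
      Ring.inverse_mul_cancel _ (two_unit R A C), map_one]
  rw [skm_apply, skm_apply, mp_smul, h2, map_add, map_add, ← h, map_sub (mp A f), mp_cj]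

/-- base change of units -/
noncomputable def um (f : C →ₐ[R] C') (g : (C ⊗[R] A)ˣ) : (C' ⊗[R] A)ˣ :=
  Units.map (mp A f : C ⊗[R] A →* C' ⊗[R] A) g

variable {g g' : (C ⊗[R] A)ˣ} {w w' : C}

theorem Sml.map (h : Sml R A C g w) (f : C →ₐ[R] C') : Sml R A C' (um f g) (f w) := by
  have := congrArg (mp A f) h
  rwa [map_mul, mp_cj, mp_alg] at this

theorem dI_map (f : C →ₐ[R] C') (g : (C ⊗[R] A)ˣ) : dI R A C' (um f g) = f (dI R A C g) :=
  skd_mp f fun x => by
    rw [inn_apply, inn_apply, map_mul, map_mul]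
    rfl

theorem Sml.comm (h : Sml R A C g w) : cj R A C g * (g : C ⊗[R] A) = algebraMap C _ w :=
  (Units.mul_right_inj g).1 (by rw [← mul_assoc, h, Algebra.commutes])

theorem Sml.mul (h : Sml R A C g w) (h' : Sml R A C g' w') : Sml R A C (g * g') (w * w') := by
  rw [Sml, Units.val_mul, cj_mul, mul_assoc, ← mul_assoc (g' : C ⊗[R] A), h', Algebra.commutes,
    ← mul_assoc, h, map_mul]

theorem Sml.inv (h : Sml R A C g w) (hw : w * w' = 1) : Sml R A C g⁻¹ w' := by
  refine (Units.mul_right_inj g).1 ?_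
  rw [Units.mul_inv_cancel_left]
  have e : cj R A C g * cj R A C (g⁻¹ : (C ⊗[R] A)ˣ) = 1 := by
    rw [← cj_mul, Units.inv_mul, cj_one]
  have e' : ((g : C ⊗[R] A) * algebraMap C _ w') * cj R A C g = 1 := by
    rw [← Algebra.commutes, mul_assoc, h, ← map_mul, mul_comm w', hw, map_one]
  exact (left_inv_eq_right_inv e' e).symm

theorem Sml.inn_cj (h : Sml R A C g w) (x : C ⊗[R] A) :
    inn C g (cj R A C x) = cj R A C (inn C g x) := by
  have e : cj R A C (g⁻¹ : (C ⊗[R] A)ˣ) * cj R A C g = 1 := by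
    rw [← cj_mul, Units.mul_inv, cj_one]
  have e1 : cj R A C g = algebraMap C _ w * (g⁻¹ : (C ⊗[R] A)ˣ) := by
    rw [← h.comm, Units.mul_inv_cancel_right]
  have e2 : cj R A C (g⁻¹ : (C ⊗[R] A)ˣ) * algebraMap C _ w = g := by
    rw [← h.comm, ← mul_assoc, e, one_mul]
  rw [inn_apply, inn_apply, cj_mul, cj_mul, e1, mul_assoc, ← mul_assoc (cj R A C x),
    ← Algebra.commutes, mul_assoc, ← mul_assoc _ (algebraMap C _ w), e2]

theorem dI_mul (g : (C ⊗[R] A)ˣ) (h' : Sml R A C g' w') :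
    dI R A C (g * g') = dI R A C g * dI R A C g' :=
  skd_comp (two_unit R A C) cj_cj h'.inn_cj fun x => by
    simp only [inn_apply, mul_inv_rev, Units.val_mul, mul_assoc]

theorem dI_cen (h : ∀ x, (g : C ⊗[R] A) * x = x * g) : dI R A C g = 1 :=
  skd_id (two_unit R A C) cj_cj fun x => by
    rw [inn_apply, ← mul_assoc, h, Units.mul_inv_cancel_right]

theorem dI_inv (h : Sml R A C g w) : dI R A C g⁻¹ * dI R A C g = 1 := by
  rw [← dI_mul _ h, inv_mul_cancel]
  exact dI_cen fun x => by simp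

theorem GP.mul (h : GP R A C w) (h' : GP R A C w') : GP R A C (w * w') := by
  obtain ⟨g, h1, h2⟩ := h
  obtain ⟨g', h1', h2'⟩ := h'
  exact ⟨g * g', h1.mul h1', by rw [dI_mul _ h1', h2, h2', mul_one]⟩

theorem GP.inv (h : GP R A C w) (hw : w * w' = 1) : GP R A C w' := by
  obtain ⟨g, h1, h2⟩ := h
  exact ⟨g⁻¹, h1.inv hw, by rw [← dI_inv h1, h2, mul_one]⟩

theorem GP.map (h : GP R A C w) (f : C →ₐ[R] C') : GP R A C' (f w) := by
  obtain ⟨g, h1, h2⟩ := h
  exact ⟨um f g, h1.map f, by rw [dI_map, h2, map_one]⟩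

theorem GP.sq (hw : IsUnit w) : GP R A C (w * w) := by
  obtain ⟨v, rfl⟩ := hw
  refine ⟨Units.map (algebraMap C (C ⊗[R] A) : C →* C ⊗[R] A) v, ?_, dI_cen fun x => ?_⟩
  · change algebraMap C _ (v : C) * cj R A C (algebraMap C _ (v : C)) = _
    rw [cj_alg, map_mul]
  · exact Algebra.commutes (v : C) x

theorem GP.of_mul_sq (hw : IsUnit w') (h : GP R A C (w * (w' * w'))) : GP R A C w := by
  obtain ⟨v, rfl⟩ := hw
  have := h.mul (GP.sq (v⁻¹).isUnit)
  rwa [mul_assoc, mul_mul_mul_comm, Units.mul_inv, mul_one, mul_one] at this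

theorem can_cj (O : Type u) [CommRing O] [Algebra R O] [Algebra O C] [IsScalarTower R O C] :
    letI := bcStar R A O
    ∀ [SA O (O ⊗[R] A)] (x : C ⊗[O] (O ⊗[R] A)),
      can R A C O (cj O (O ⊗[R] A) C x) = cj R A C (can R A C O x) := by
  let := bcStar R A O
  intro _ x
  induction x using TensorProduct.induction_on with
  | zero => simp
  | add x y hx hy => simp only [map_add, hx, hy]
  | tmul c x =>
    rw [cj_tmul, can_tmul, can_tmul, map_smul, ← mp_cj]
    rfl

omit [StarRing A] [SA R A] in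
/-- base change of isomorphisms -/
theorem exists_bce {A' : Type u} [Ring A'] [Algebra R A'] (f : C →ₐ[R] C')
    (φ : C ⊗[R] A' ≃ₐ[C] C ⊗[R] A) :
    ∃ φ' : C' ⊗[R] A' ≃ₐ[C'] C' ⊗[R] A, ∀ x, φ' (mp A' f x) = mp A f (φ x) := by
  let := f.toRingHom.toAlgebra
  have : IsScalarTower R C C' := IsScalarTower.of_algebraMap_eq fun r => (f.commutes r).symm
  have e : IsScalarTower.toAlgHom R C C' = f := rfl
  refine ⟨((can R A' C' C).symm.trans
    (Algebra.TensorProduct.congr (AlgEquiv.refl (R := C') (A₁ := C')) φ)).trans (can R A C' C),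
    fun x => ?_⟩
  have h : (can R A' C' C).symm (mp A' f x) = (1 : C') ⊗ₜ[C] x := by
    rw [AlgEquiv.symm_apply_eq, can_tmul, one_smul, e]
  rw [AlgEquiv.trans_apply, AlgEquiv.trans_apply, h, Algebra.TensorProduct.congr_apply,
    Algebra.TensorProduct.map_tmul, can_tmul, map_one, one_smul, e]
  rfl

end rel

end Pool.Agent.P.MP_46a8f8_ag.GU
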