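import Pool.Agent.P.MP_46a8f8_ag.GU.So
import Pool.Agent.P.MP_46a8f8_ag.GU.TorH
import Pool.Agent.P.MP_46a8f8_ag.Nrd
import Pool.Agent.P.MP_46a8f8_ag.Split
import Pool.Agent.P.MP_46a8f8_ag.Wed
import Pool.Agent.P.MP_46a8f8_ag.SS

/-!
A unitary trivialisation can be moved into the neutral component: involutions of the first kind.
-/

namespace Pool.Agent.P.MP_46a8f8_ag.GU

open TensorProduct Function IsLocalRing

universe u

open TorHP in
theorem pAdjO (hI : S_Imp.{u}) (hN : S_NSt.{u}) : S_AdjO.{u} := by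
  intro R A _ _ _ _ _ _ σ τ ε K _ _ _ hσ hA hτ O _ _ _ x c p₀ hx hc
  have : Module.Free R A := SA.free
  have : Module.Finite R A := SA.fin
  have hiK : Injective (algebraMap R K) := IsFractionRing.injective R K
  have : IsDomain R := hiK.isDomain _
  obtain ⟨O₁, _, _, n₁, _, hO₁⟩ := split azBC (wed ss) R A hA
  obtain ⟨N, hN1, hN2, hN3⟩ := nrd ud R A O₁ n₁ hO₁
  have hcu : IsUnit c.1 := ⟨⟨c.1, conj σ c.1, c.2.1.1, c.2.1.2⟩, rfl⟩
  have hc1 : N _ c.1 = 1 := (hN3 _ hcu.unit).1 fun S' _ _ f n Φ => c.2.2 S' f n Φ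
  obtain ⟨v, hv⟩ := mem_range_of_eq (R := R) (N O x) (by
    have := congrArg (N (O ⊗[R] O)) hc
    rw [map_mul, hc1, mul_one, ← hN1, ← hN1] at this
    exact this)
  let Ω := AlgebraicClosure K
  have hi : Injective (algebraMap R Ω) := by
    rw [IsScalarTower.algebraMap_eq R K Ω]
    exact (algebraMap K Ω).injective.comp hiK
  obtain ⟨n, ⟨Ψ⟩⟩ := wed ss Ω (Ω ⊗[R] A) (azBC R A Ω hA)
  have hS := setup_of_equiv hi hA Ψ
  let Φ : A →ₐ[R] Matrix (Fin n) (Fin n) Ω :=
    (Ψ.toAlgHom.restrictScalars R).comp Algebra.TensorProduct.includeRight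
  obtain ⟨s, a, hsa⟩ := exists_smul_eq_one_tmul (nonZeroDivisors R) K (mp A p₀ x)
  have hs0 : (s : R) ≠ 0 := nonZeroDivisors.coe_ne_zero s
  have hal : ∀ r : R, (1 : K) ⊗ₜ[R] algebraMap R A r = algebraMap R K r • (1 : K ⊗[R] A) := by
    intro r
    rw [Algebra.algebraMap_eq_smul_one, tmul_smul, algebraMap_smul,
      Algebra.TensorProduct.one_def]
  have hx1 : x * σ.lTensor O x = 1 := hx.1
  have hx2 : σ.lTensor O x * x = 1 := hx.2
  have h1 : a * star a = algebraMap R A (s * s) := one_tmul_inj hiK (by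
    rw [← one_tmul_mul, ← hσ, ← sg_tmul, ← hsa, sg_smul, smul_mul_smul_comm, ← mp_sg,
      ← map_mul (mp A p₀), hx1, map_one, hal, ← map_mul])
  have h2 : star a * a = algebraMap R A (s * s) := one_tmul_inj hiK (by
    rw [← one_tmul_mul, ← hσ, ← sg_tmul, ← hsa, sg_smul, smul_mul_smul_comm, ← mp_sg,
      ← map_mul (mp A p₀), hx2, map_one, hal, ← map_mul])
  let ι : K →ₐ[R] Ω := IsScalarTower.toAlgHom R K Ω
  have hd : (Φ a).det = algebraMap R Ω v * algebraMap R Ω s ^ n := by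
    change (Ψ ((1 : Ω) ⊗ₜ[R] a)).det = _
    rw [← mp_one_tmul ι, ← hsa, mp_smul, map_smul, Matrix.det_smul, ← hN2, ← hN1, ← hN1, ← hv,
      AlgHom.commutes, AlgHom.commutes, AlgHom.commutes, Fintype.card_fin, mul_comm]
  have hv2 : v * v = 1 := by
    apply hi
    have e := congrArg (fun y => (Φ y).det) h1
    have e2 : (Φ (star a)).det = (Φ a).det := hN R A Ω n Φ hS a
    have e3 : (Φ (algebraMap R A (s * s))).det = algebraMap R Ω (s * s) ^ n := by
      rw [AlgHom.commutes, IsScalarTower.algebraMap_apply R Ω (Matrix (Fin n) (Fin n) Ω),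
        Algebra.algebraMap_eq_smul_one, Matrix.det_smul, Matrix.det_one, mul_one,
        Fintype.card_fin]
    have hs : algebraMap R Ω s ≠ 0 := fun h => hs0 (hi (by rw [h, map_zero]))
    rw [e3, map_mul, Matrix.det_mul, e2, hd, map_mul, mul_pow] at e
    rw [map_mul, map_one]
    refine mul_right_cancel₀ (mul_ne_zero (pow_ne_zero n hs) (pow_ne_zero n hs)) ?_
    linear_combination e
  have fin : ∀ (u : A) (w : R), u * star u = 1 → star u * u = 1 →
      (Φ u).det = algebraMap R Ω w → w * v = 1 →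
      ∃ u : A, u * σ u = 1 ∧ σ u * u = 1 ∧ ∀ (T : Type u) [CommRing T] [Algebra R T]
        (f : O →ₐ[R] T), DetOne A (baseMap A f (((1 : O) ⊗ₜ[R] u) * x)) := by
    intro u w hu1 hu2 hw hwv
    refine ⟨u, by rw [hσ, hu1], by rw [hσ, hu2], fun T _ _ f m Θ => ?_⟩
    have hy' : N R ((1 : R) ⊗ₜ[R] u) = w := by
      apply hi
      have := hN1 R Ω (Algebra.ofId R Ω) ((1 : R) ⊗ₜ[R] u)
      rw [mp_one_tmul, hN2 Ω n Ψ] at this
      exact this.trans hw
    have hy : N O ((1 : O) ⊗ₜ[R] u) = algebraMap R O w := by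
      have := hN1 R O (Algebra.ofId R O) ((1 : R) ⊗ₜ[R] u)
      rw [mp_one_tmul, hy'] at this
      exact this.symm
    change (Θ (mp A f (((1 : O) ⊗ₜ[R] u) * x))).det = 1
    rw [← hN2, ← hN1, map_mul, hy, ← hv, ← map_mul, hwv, map_one, map_one]
  rcases mul_self_eq_one_iff.1 hv2 with h | h
  · exact fin 1 1 (by rw [star_one, mul_one]) (by rw [star_one, mul_one])
      (by rw [map_one, Matrix.det_one, map_one]) (by rw [h, mul_one])
  · obtain ⟨u, hu1, hu2, hu3⟩ := hI R A Ω n Φ τ ε a s hS hτ hs0 h1 h2 (by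
      rw [hd, h, map_neg, map_one, neg_one_mul])
    exact fin u (-1) hu1 hu2 (by rw [hu3, map_neg, map_one]) (by rw [h, neg_mul_neg, mul_one])

end Pool.Agent.P.MP_46a8f8_ag.GU
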