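import Pool.Agent.P.MP_46a8f8_ag.GU.So

/-!
An algebra whose centre is larger than the base ring has no splitting over a nonzero ring.
-/

namespace Pool.Agent.P.MP_46a8f8_ag.GU

open TensorProduct Function Matrix IsLocalRing

universe u

namespace AdjUP

/-- a central element of a split algebra is a scalar -/
theorem scalar_of_central {T B : Type u} [CommRing T] [Ring B] [Algebra T B] {n : ℕ}
    (Φ : B ≃ₐ[T] Matrix (Fin n) (Fin n) T) (z : B) (hz : ∀ y, y * z = z * y) :
    ∃ t : T, algebraMap T B t = z := by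
  obtain ⟨t, ht⟩ : Φ z ∈ Set.range (Matrix.scalar (Fin n)) :=
    Matrix.mem_range_scalar_iff_commute_single'.2 fun i j => by
      obtain ⟨y, hy⟩ := Φ.surjective (Matrix.single i j 1)
      rw [← hy]
      change Φ y * Φ z = Φ z * Φ y
      rw [← map_mul, ← map_mul, hz]
  refine ⟨t, Φ.injective ?_⟩
  rw [AlgEquiv.commutes, ← ht]
  rfl

/-- a finite free algebra whose scalar extension is spanned by one is the base ring -/
theorem surj_of_span {R S T : Type u} [CommRing R] [Nontrivial R] [CommRing S] [Nontrivial S]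
    [Algebra R S] [Module.Free R S] [Module.Finite R S] [CommRing T] [Nontrivial T] [Algebra R T]
    (h : ∀ s : S, ∃ t : T, t ⊗ₜ[R] (1 : S) = (1 : T) ⊗ₜ[R] s) : Surjective (algebraMap R S) := by
  have h1 : Module.finrank T (T ⊗[R] S) ≤ 1 := by
    refine finrank_le_one ((1 : T) ⊗ₜ[R] (1 : S)) fun w => ?_
    induction w using TensorProduct.induction_on with
    | zero => exact ⟨0, zero_smul _ _⟩
    | add x y hx hy =>
      obtain ⟨a, rfl⟩ := hx
      obtain ⟨b, rfl⟩ := hy
      exact ⟨a + b, add_smul _ _ _⟩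
    | tmul t s =>
      obtain ⟨t', ht'⟩ := h s
      refine ⟨t * t', ?_⟩
      have e : t ⊗ₜ[R] s = t • ((1 : T) ⊗ₜ[R] s) := by
        rw [TensorProduct.smul_tmul', smul_eq_mul, mul_one]
      rw [e, ← ht', TensorProduct.smul_tmul', TensorProduct.smul_tmul', smul_eq_mul, smul_eq_mul,
        mul_one]
  rw [Module.finrank_baseChange] at h1
  have h0 : 0 < Module.finrank R S := (Module.finrank_pos_iff_of_free R S).2 inferInstance
  exact (Algebra.finrank_eq_one_iff_bijective_algebraMap.1 (le_antisymm h1 h0)).2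

end AdjUP

theorem pAdjU (hA : S_AzS.{u}) : S_AdjU.{u} := by
  intro R S A _ _ _ _ _ _ _ _ h hs T _ _ x n Φ
  rcases subsingleton_or_nontrivial T with hT | hT
  · exact Subsingleton.elim _ _
  exfalso
  have := h.tower
  have := h.dom
  have := h.fin
  have := h.et
  have := h.az
  have : Module.Free R S := Module.free_of_flat_of_isLocalRing
  obtain ⟨τ, -, -, -, h1, -, -⟩ := hA S A
  refine hs (AdjUP.surj_of_span (T := T) fun s => ?_)
  obtain ⟨t, ht⟩ := AdjUP.scalar_of_central Φ ((1 : T) ⊗ₜ[R] algebraMap S A s) fun y => by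
    induction y using TensorProduct.induction_on with
    | zero => rw [zero_mul, mul_zero]
    | add y y' e e' => rw [add_mul, mul_add, e, e']
    | tmul t a =>
      rw [Algebra.TensorProduct.tmul_mul_tmul, Algebra.TensorProduct.tmul_mul_tmul, mul_one,
        one_mul, Algebra.commutes]
  refine ⟨t, ?_⟩
  have e := congrArg ((τ.restrictScalars R).lTensor T) ht
  rw [Algebra.TensorProduct.algebraMap_apply, LinearMap.lTensor_tmul, LinearMap.lTensor_tmul,
    LinearMap.restrictScalars_apply, LinearMap.restrictScalars_apply, h1,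
    Algebra.algebraMap_eq_smul_one s, map_smul, h1, smul_eq_mul, mul_one] at e
  exact e

end Pool.Agent.P.MP_46a8f8_ag.GU
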