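import Pool.Agent.P.MP_46a8f8_ag.GU.Sm

/-!
Package Bcg: change of the ground ring.
-/

namespace Pool.Agent.P.MP_46a8f8_ag.GU

open TensorProduct Function

universe u

namespace BcgP

variable {R A O : Type u} [CommRing R] [Ring A] [Algebra R A] [CommRing O] [Algebra R O]

theorem sep {k : ℕ} {a b : Fin k → A}
    (hc : ∀ c : A, ∑ i, (c * a i) ⊗ₜ[R] b i = ∑ i, a i ⊗ₜ[R] (b i * c)) (c : O ⊗[R] A) :
    ∑ i, (c * (1 : O) ⊗ₜ[R] a i) ⊗ₜ[O] ((1 : O) ⊗ₜ[R] b i) =
      ∑ i, ((1 : O) ⊗ₜ[R] a i) ⊗ₜ[O] ((1 : O) ⊗ₜ[R] b i * c) := by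
  let T : A ⊗[R] A →ₗ[R] (O ⊗[R] A) ⊗[O] (O ⊗[R] A) :=
    (AlgebraTensorModule.distribBaseChange R O A A).toLinearMap.restrictScalars R ∘ₗ
      TensorProduct.mk R O (A ⊗[R] A) 1
  have hT : ∀ p q : A, T (p ⊗ₜ[R] q) = ((1 : O) ⊗ₜ[R] p) ⊗ₜ[O] ((1 : O) ⊗ₜ[R] q) :=
    fun p q => AlgebraTensorModule.distribBaseChange_tmul ..
  induction c using TensorProduct.induction_on with
  | zero => simp
  | add c c' hc1 hc2 =>
    simp only [add_mul, mul_add, TensorProduct.add_tmul, TensorProduct.tmul_add,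
      Finset.sum_add_distrib, hc1, hc2]
  | tmul r c =>
    have e := congrArg T (hc c)
    simp only [map_sum, hT] at e
    have e1 : ∀ p : A, r ⊗ₜ[R] p = r • ((1 : O) ⊗ₜ[R] p) := fun p => by
      rw [TensorProduct.smul_tmul', smul_eq_mul, mul_one]
    simp only [Algebra.TensorProduct.tmul_mul_tmul, one_mul, mul_one]
    simp only [e1, ← TensorProduct.smul_tmul', TensorProduct.tmul_smul, ← Finset.smul_sum, e]

variable (O) in
/-- the extension of a linear form -/
noncomputable def ex (τ : A →ₗ[R] R) : O ⊗[R] A →ₗ[O] O :=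
  (AlgebraTensorModule.rid R O O).toLinearMap ∘ₗ τ.baseChange O

theorem ex_tmul (τ : A →ₗ[R] R) (o : O) (a : A) :
    ex O τ (o ⊗ₜ[R] a) = o * algebraMap R O (τ a) := by
  change τ a • o = _
  rw [Algebra.smul_def, mul_comm]

theorem ex_perf [Module.Free R A] [Module.Finite R A] {τ : A →ₗ[R] R} (h : PerfTr τ) :
    PerfTr (ex O τ) := by
  have ibc := TensorProduct.isBaseChange R A O
  have e : (LinearMap.mul O (O ⊗[R] A)).compr₂ (ex O τ) =
      (((LinearEquiv.ofBijective _ h).baseChange R O _ _).trans ibc.toDualBaseChange).toLinearMap := by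
    refine ibc.algHom_ext _ _ fun x => ibc.algHom_ext _ _ fun y => ?_
    refine Eq.trans ?_ (ibc.toDualBaseChange_tmul 1 ((LinearMap.mul R A).compr₂ τ x) y).symm
    change ex O τ ((1 : O) ⊗ₜ[R] x * (1 : O) ⊗ₜ[R] y) = _
    rw [Algebra.TensorProduct.tmul_mul_tmul, ex_tmul, one_mul]
    rfl
  rw [PerfTr, e]
  exact LinearEquiv.bijective _

theorem ex_comm {τ : A →ₗ[R] R} (h : ∀ x y, τ (x * y) = τ (y * x)) (x y : O ⊗[R] A) :
    ex O τ (x * y) = ex O τ (y * x) := by
  induction x using TensorProduct.induction_on with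
  | zero => rw [zero_mul, mul_zero]
  | add x x' h1 h2 => simp only [add_mul, mul_add, map_add, h1, h2]
  | tmul o a =>
    induction y using TensorProduct.induction_on with
    | zero => rw [zero_mul, mul_zero]
    | add y y' h1 h2 => simp only [add_mul, mul_add, map_add, h1, h2]
    | tmul o' a' =>
      rw [Algebra.TensorProduct.tmul_mul_tmul, Algebra.TensorProduct.tmul_mul_tmul, ex_tmul,
        ex_tmul, h, mul_comm o]

variable (O) in
/-- the inclusion -/
noncomputable abbrev inc : A →ₐ[R] O ⊗[R] A := Algebra.TensorProduct.includeRight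

theorem inc_alg (r : R) :
    inc O (algebraMap R A r) = algebraMap O (O ⊗[R] A) (algebraMap R O r) := by
  rw [AlgHom.commutes, ← IsScalarTower.algebraMap_apply]

variable [StarRing A] [SA R A]

theorem st_tmul (o : O) (a : A) : letI := bcStar R A O
    star (o ⊗ₜ[R] a) = o ⊗ₜ[R] star a := rfl

theorem star_inc (a : A) : letI := bcStar R A O
    star (inc (R := R) O a) = inc O (star a) := rfl

theorem star_sm (o : O) (x : O ⊗[R] A) : letI := bcStar R A O
    star (o • x) = o • star x := map_smul ((HermP.stL R A).baseChange O) o x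

/-- the hypothesis applied to the image of data over the ground ring -/
theorem up (H : letI := bcStar R A O; HermN O (O ⊗[R] A))
    (hi : ∀ r : R, r ≠ 0 → algebraMap R O r ≠ 0) (h : Aˣ) (c c' : A) (d d' : R)
    (h1 : star (h : A) = h) (hd : d ≠ 0) (hd' : d' ≠ 0) (h2 : c * star c = (d * d) • (h : A))
    (h3 : c' * c = algebraMap R A d') (h4 : c * c' = algebraMap R A d') :
    letI := bcStar R A O
    ∃ a : (O ⊗[R] A)ˣ, (a : O ⊗[R] A) * star (a : O ⊗[R] A) = inc O (h : A) := by
  letI := bcStar R A O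
  refine H (Units.map (inc (R := R) (A := A) O : A →* O ⊗[R] A) h) (inc O c) (inc O c') (algebraMap R O d)
    (algebraMap R O d') ?_ (hi d hd) (hi d' hd') ?_ ?_ ?_
  · exact (star_inc (h : A)).trans (congrArg (inc O) h1)
  · rw [star_inc, ← map_mul, h2, map_smul, ← map_mul, algebraMap_smul]
    rfl
  · rw [← map_mul, h3, inc_alg]
  · rw [← map_mul, h4, inc_alg]

end BcgP

open BcgP

theorem pBcg : S_Bcg.{u} := by
  intro R A O _ _ _ _ hA _ _
  letI := bcStar R A O
  have := hA.free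
  have := hA.fin
  obtain ⟨k, a, b, h1, hc⟩ := hA.sep
  refine ⟨⟨inferInstance, inferInstance,
    ⟨k, fun i => 1 ⊗ₜ[R] a i, fun i => 1 ⊗ₜ[R] b i, ?_, sep hc⟩, fun o => ?_, ?_⟩,
    fun τ ε h => ⟨ex O τ, ex_comm h.comm, ex_perf h.perf, fun x => ?_⟩⟩
  · simp only [Algebra.TensorProduct.tmul_mul_tmul, one_mul]
    rw [← TensorProduct.tmul_sum, h1, Algebra.TensorProduct.one_def]
  · rw [Algebra.algebraMap_eq_smul_one, star_sm, star_one]
  · have := hA.two.map (algebraMap R O)
    rwa [map_ofNat] at this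
  · induction x using TensorProduct.induction_on with
    | zero => rw [star_zero, map_zero, smul_zero]
    | add x x' h1 h2 => rw [star_add, map_add, map_add, h1, h2, smul_add]
    | tmul o x =>
      rw [st_tmul, ex_tmul, ex_tmul, h.st, Units.smul_def, Units.smul_def, map_zsmul,
        mul_smul_comm]

theorem pHDown : S_HDown.{u} := by
  intro R A O _ _ _ _ _ _ _ ev H h c c' d d' h1 hd hd' h2 h3 h4
  letI := bcStar R A O
  obtain ⟨a, ha⟩ := up H (fun r hr e => hr (by
    have := ev.commutes r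
    rwa [e, map_zero, eq_comm] at this)) h c c' d d' h1 hd hd' h2 h3 h4
  let f : O ⊗[R] A →ₐ[R] A := Algebra.TensorProduct.lift ((Algebra.ofId R A).comp ev)
    (AlgHom.id R A) fun x y => Algebra.commute_algebraMap_left _ _
  have hf : ∀ (o : O) (x : A), f (o ⊗ₜ[R] x) = ev o • x := fun o x => (Algebra.smul_def _ _).symm
  have hs : ∀ x, f (star x) = star (f x) := fun x => by
    induction x using TensorProduct.induction_on with
    | zero => rw [star_zero, map_zero, star_zero]
    | add x x' h1 h2 => rw [star_add, map_add, map_add, h1, h2, star_add]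
    | tmul o x => rw [st_tmul, hf, hf, HermP.star_smul']
  refine ⟨Units.map (f : O ⊗[R] A →* A) a, ?_⟩
  change f a * star (f a) = h
  rw [← hs, ← map_mul, ha]
  exact (hf 1 h).trans (by rw [map_one, one_smul])

theorem pHLoc : S_HLoc.{u} := by
  intro R A O _ _ _ _ _ hA p _ _ _ _ H h c c' d d' h1 hd hd' h2 h3 h4
  letI := bcStar R A O
  have := hA.free
  have hi : Injective (algebraMap R O) :=
    IsLocalization.injective O p.primeCompl_le_nonZeroDivisors
  have hj : Injective (inc O : A →ₐ[R] O ⊗[R] A) :=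
    Algebra.TensorProduct.includeRight_injective hi
  obtain ⟨a, ha⟩ := up H (fun r hr => (map_ne_zero_iff _ hi).2 hr) h c c' d d' h1 hd hd' h2 h3 h4
  have key : ∀ y : O ⊗[R] A, ∃ (x : A) (s : R), s ∉ p ∧ inc O x = algebraMap R O s • y :=
    fun y => by
      obtain ⟨⟨x, s⟩, e⟩ := IsLocalizedModule.surj p.primeCompl (TensorProduct.mk R O A 1) y
      exact ⟨x, s, s.2, e.symm.trans (algebraMap_smul O (s : R) y).symm⟩
  obtain ⟨x, s, hs, e⟩ := key a
  obtain ⟨x', s', hs', e'⟩ := key (a⁻¹ : (O ⊗[R] A)ˣ)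
  refine ⟨x, x', s, s * s', hs, p.primeCompl.mul_mem hs hs', hj ?_, hj ?_, hj ?_⟩
  · rw [map_mul, ← star_inc, e, star_sm, smul_mul_smul_comm, ha, map_smul, ← map_mul,
      algebraMap_smul]
  · rw [map_mul, e, e', smul_mul_smul_comm, Units.inv_mul, inc_alg, ← map_mul, mul_comm,
      Algebra.algebraMap_eq_smul_one (A := O ⊗[R] A)]
  · rw [map_mul, e, e', smul_mul_smul_comm, Units.mul_inv, inc_alg, ← map_mul,
      Algebra.algebraMap_eq_smul_one (A := O ⊗[R] A)]

end Pool.Agent.P.MP_46a8f8_ag.GU
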