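import Pool.Agent.P.MP_46a8f8_ag.GU.So

/-!
Specialisation of a form of odd reduced rank from the fraction field of a regular local ring to
its residue field.
-/

namespace Pool.Agent.P.MP_46a8f8_ag.GU

open TensorProduct Function Matrix IsLocalRing

universe u

namespace Chain2P

variable {R A : Type u} [CommRing R] [Ring A] [Algebra R A] [StarRing A]

/-- transport along an isomorphism of fields -/
theorem pf_tr {ε : ℤˣ} {m : ℕ} {k L : Type u} [Field k] [Algebra R k] [Field L] [Algebra R L]
    (e : k ≃ₐ[R] L) (h : PF R A ε m L) : PF R A ε m k := by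
  obtain ⟨W, hg, hp, hm⟩ := h
  let : Algebra k L := (e : k →+* L).toAlgebra
  have : IsScalarTower R k L := IsScalarTower.of_algebraMap_eq fun r => (e.commutes r).symm
  have : Module.Finite k L := Module.Finite.of_surjective (Algebra.linearMap k L) e.surjective
  let κ : L →+ k := (e.symm : L →+* k).toAddMonoidHom
  have hκ : ∀ (c : k) (v : L), κ (algebraMap k L c • v) = c • κ v := fun c v => by
    change e.symm (e c * v) = c * e.symm v
    rw [map_mul, e.symm_apply_apply]
  refine ⟨W.tr k κ hκ, hg.tr k κ hκ, ⟨fun x y hxy => hp.1 (LinearMap.ext fun z => ?_),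
    fun ξ => ?_⟩, ?_⟩
  · exact e.symm.injective (LinearMap.congr_fun hxy z)
  · let ξ' : W.M →ₗ[L] L :=
      { toFun := fun z => e (ξ z)
        map_add' := fun z z' => by
          rw [← map_add]
          exact congrArg e (ξ.map_add z z')
        map_smul' := fun c z => by
          obtain ⟨c, rfl⟩ := e.surjective c
          have := ξ.map_smul c z
          change e (ξ (e c • z)) = e c * e (ξ z)
          rw [← map_mul]
          exact congrArg e this }
    obtain ⟨x, hx⟩ := hp.2 ξ'
    refine ⟨x, LinearMap.ext fun z => ?_⟩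
    change e.symm (W.b x z) = ξ z
    rw [hx]
    exact e.symm_apply_apply _
  · have : Module.finrank k (W.tr k κ hκ).M = Module.finrank L W.M :=
      congrArg Cardinal.toNat (rank_eq_of_equiv_equiv (R := k) (R' := L) (M := (W.tr k κ hκ).M)
        (M₁ := W.M) e (AddEquiv.refl _) e.bijective fun _ _ => rfl)
    rwa [this]

/-- the localisation at a nonzero principal prime is a discrete valuation ring -/
theorem dvr {O : Type u} [CommRing O] [IsDomain O] [IsNoetherianRing O] {x : O} (hx : x ≠ 0)
    [(Ideal.span {x}).IsPrime] :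
    IsDiscreteValuationRing (Localization.AtPrime (Ideal.span {x})) := by
  have h1 : maximalIdeal (Localization.AtPrime (Ideal.span {x})) =
      Ideal.span {algebraMap O (Localization.AtPrime (Ideal.span {x})) x} := by
    rw [← Localization.AtPrime.map_eq_maximalIdeal, Ideal.map_span, Set.image_singleton]
  have h2 : ¬ IsField (Localization.AtPrime (Ideal.span {x})) := fun h => by
    have h3 := isField_iff_maximalIdeal_eq.1 h
    rw [h1, Ideal.span_singleton_eq_bot] at h3
    exact hx (IsLocalization.injective (Localization.AtPrime (Ideal.span {x}))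
      (Ideal.span {x}).primeCompl_le_nonZeroDivisors (h3.trans (map_zero _).symm))
  have h4 : (maximalIdeal (Localization.AtPrime (Ideal.span {x}))).IsPrincipal := ⟨_, h1⟩
  exact ((IsDiscreteValuationRing.TFAE _ h2).out 0 4).2 h4

theorem main [SA R A] (h1 : S_Lat2.{u}) (h2 : S_Res2.{u}) (ε : ℤˣ) (m : ℕ) (k : Type u) [Field k]
    [Algebra R k] (d : ℕ) : ∀ (O L : Type u) [CommRing O] [IsRegularLocalRing O] [Algebra R O]
    [Field L] [Algebra R L] [Algebra O L] [IsScalarTower R O L] [IsFractionRing O L]
    (q : O →ₐ[R] k), ringKrullDim O = d → Surjective q → PF R A ε m L → PF R A ε m k := by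
  induction d with
  | zero =>
    intro O L _ _ _ _ _ _ _ _ q hd hq h
    have := rDom O
    have : Ring.KrullDimLE 0 O := Ring.krullDimLE_iff.2 hd.le
    have hf : IsField O := Ring.KrullDimLE.isField_of_isDomain
    have hq' : Injective q := by
      rw [injective_iff_map_eq_zero]
      intro a ha
      by_contra h0
      obtain ⟨b, hb⟩ := hf.mul_inv_cancel h0
      have := congrArg q hb
      rw [map_mul, ha, zero_mul, map_one] at this
      exact zero_ne_one this
    have hL : Bijective (IsScalarTower.toAlgHom R O L) :=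
      ⟨IsFractionRing.injective O L, IsFractionRing.surjective_iff_isField.2 hf⟩
    exact pf_tr ((AlgEquiv.ofBijective q ⟨hq', hq⟩).symm.trans (AlgEquiv.ofBijective _ hL)) h
  | succ d ih =>
    intro O L _ _ _ _ _ _ _ _ q hd hq h
    have := rDom O
    obtain ⟨x, hx, hx2⟩ := SetLike.not_le_iff_exists.1 (PdP.not_le_sq d hd)
    obtain ⟨h3, h4⟩ := rQuot O x hx hx2
    have hx0 : x ≠ 0 := fun e => hx2 (e ▸ Submodule.zero_mem _)
    have : IsDomain (O ⧸ Ideal.span {x}) := rDom _
    have : (Ideal.span {x}).IsPrime := (Ideal.Quotient.isDomain_iff_prime _).1 inferInstance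
    have := dvr hx0
    let : Algebra (Localization.AtPrime (Ideal.span {x})) L :=
      IsLocalization.localizationAlgebraOfSubmonoidLe _ _ (Ideal.span {x}).primeCompl
        (nonZeroDivisors O) (Ideal.span {x}).primeCompl_le_nonZeroDivisors
    have : IsScalarTower O (Localization.AtPrime (Ideal.span {x})) L :=
      IsLocalization.localization_isScalarTower_of_submonoid_le _ _ (Ideal.span {x}).primeCompl
        (nonZeroDivisors O) (Ideal.span {x}).primeCompl_le_nonZeroDivisors
    have : IsFractionRing (Localization.AtPrime (Ideal.span {x})) L :=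
      IsFractionRing.isFractionRing_of_isDomain_of_isLocalization (Ideal.span {x}).primeCompl _ _
    have : IsScalarTower R (Localization.AtPrime (Ideal.span {x})) L :=
      IsScalarTower.of_algebraMap_eq fun r => by
        rw [IsScalarTower.algebraMap_apply R O (Localization.AtPrime (Ideal.span {x})),
          ← IsScalarTower.algebraMap_apply O _ L, ← IsScalarTower.algebraMap_apply R O L]
    obtain ⟨W, hg, hp, hm⟩ := h
    obtain ⟨W', g1, g2, g3, g4⟩ := h1 R A (Localization.AtPrime (Ideal.span {x})) L ε W hg hp
    have h5 : PF R A ε m (Ideal.span {x}).ResidueField :=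
      h2 R A (Localization.AtPrime (Ideal.span {x})) (Ideal.span {x}).ResidueField
        (IsScalarTower.toAlgHom R _ _) ε m W' IsLocalRing.residue_surjective
        (fun d => IsLocalRing.residue_eq_zero_iff d) g1 g2 g3 (by rwa [g4])
    have h6 : ∀ a ∈ Ideal.span {x}, q a = 0 := fun a ha => by
      have h7 : RingHom.ker (q : O →+* k) = maximalIdeal O :=
        IsLocalRing.eq_maximalIdeal (RingHom.ker_isMaximal_of_surjective (q : O →+* k) hq)
      have h8 : a ∈ RingHom.ker (q : O →+* k) := by
        rw [h7]
        exact (Ideal.span_singleton_le_iff_mem _).2 hx ha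
      exact h8
    refine ih (O ⧸ Ideal.span {x}) (Ideal.span {x}).ResidueField
      (Ideal.Quotient.liftₐ _ q h6) (PdP.dim_eq (h4.trans hd)) (fun y => ?_) h5
    obtain ⟨a, rfl⟩ := hq y
    exact ⟨Ideal.Quotient.mk _ a, rfl⟩

end Chain2P

theorem pChain2 (h1 : S_Lat2.{u}) (h2 : S_Res2.{u}) : S_Chain2.{u} := by
  intro R A _ _ _ _ _ ε m O L k _ _ _ _ _ _ _ _ _ _ q hq h
  exact Chain2P.main h1 h2 ε m k _ O L q
    (IsRegularLocalRing.spanFinrank_maximalIdeal (R := O)).symm hq h

end Pool.Agent.P.MP_46a8f8_ag.GU
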