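import Pool.Agent.P.MP_46a8f8_ag.GU.Sm

/-!
The span of the image of a similitude is a Lagrangian.
-/

namespace Pool.Agent.P.MP_46a8f8_ag.GU

open Function Matrix

universe u

namespace D0P

variable {R T : Type u} [CommRing R] [CommRing T] {ι : Type} [Fintype ι]

theorem hf_vm (j : R →+* T) (δ : ℤˣ) (u v : (ι → R) × (ι → R)) :
    hf δ (vm j u) (vm j v) = j (hf δ u v) := by
  simp only [hf, vm, map_sub, Units.smul_def, map_zsmul, RingHom.map_dotProduct]

omit [Fintype ι] in
theorem vm_add (j : R →+* T) (u v : (ι → R) × (ι → R)) : vm j (u + v) = vm j u + vm j v := by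
  ext i <;> simp [vm]

omit [Fintype ι] in
theorem vm_smul (j : R →+* T) (r : R) (u : (ι → R) × (ι → R)) :
    vm j (r • u) = j r • vm j u := by
  ext i <;> simp [vm]

omit [Fintype ι] in
theorem vm_zero (j : R →+* T) : vm j (0 : (ι → R) × (ι → R)) = 0 := by
  ext i <;> simp [vm]

omit [Fintype ι] in
theorem exists_vm (j : R →+* T) (y : T) (h : ∀ t, ∃ r, y ∣ t - j r) (u : (ι → T) × (ι → T)) :
    ∃ v w, u = vm j v + y • w := by
  choose r c hc using h
  refine ⟨(fun i => r (u.1 i), fun i => r (u.2 i)), (fun i => c (u.1 i), fun i => c (u.2 i)), ?_⟩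
  ext i
  · simpa [vm, sub_eq_iff_eq_add'] using hc (u.1 i)
  · simpa [vm, sub_eq_iff_eq_add'] using hc (u.2 i)

theorem exists_B (δ : ℤˣ) : ∃ B : ((ι → T) × (ι → T)) →ₗ[T] ((ι → T) × (ι → T)) →ₗ[T] T,
    ∀ u v, B u v = hf δ u v :=
  ⟨LinearMap.mk₂ T (fun u v : (ι → T) × (ι → T) => hf δ u v)
    (fun (u u' v : (ι → T) × (ι → T)) => by
      simp only [hf, Prod.fst_add, Prod.snd_add, add_dotProduct, dotProduct_add, smul_add]
      abel)
    (fun c u v => by simp [hf, mul_sub, Units.smul_def, mul_left_comm])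
    (fun (u v v' : (ι → T) × (ι → T)) => by
      simp only [hf, Prod.fst_add, Prod.snd_add, add_dotProduct, dotProduct_add, smul_add]
      abel)
    (fun c u v => by simp [hf, mul_sub, Units.smul_def, mul_left_comm]), fun _ _ => rfl⟩

theorem image {A : Type u} [IsDomain R] [Ring A] [Algebra R A] {ε : ℤˣ} [StarRing A]
    {E H : FM R A R R} {φ : E.M →ₗ[R] H.M} {ψ : H.M →ₗ[R] E.M} {F : R}
    (h : Sim ε E H φ ψ F) (v : H.M) (hv : ∀ x, F ∣ H.b v (φ x)) : ∃ x, φ x = v := by
  choose c hc using hv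
  obtain ⟨x₀, hx⟩ := h.spE.perf.exists
    { toFun := c
      map_add' := fun x x' => mul_left_cancel₀ h.ne (by
        rw [mul_add, ← hc, ← hc, ← hc, map_add, map_add])
      map_smul' := fun r x => mul_left_cancel₀ h.ne (by
        rw [← hc, map_smul, map_smul, hc, smul_eq_mul, smul_eq_mul, RingHom.id_apply]
        ring) }
  have h1 : ∀ x, E.b (ψ v) x = H.b v (φ x) := fun x => mul_left_cancel₀ h.ne (by
    rw [← h.form, h.inv, map_smul, LinearMap.smul_apply, smul_eq_mul])
  have h2 : F • x₀ = ψ v := h.spE.perf.ext fun x => by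
    rw [h1, hc, map_smul, LinearMap.smul_apply, hx, smul_eq_mul]
    rfl
  have h3 : F • φ x₀ = F • v := by rw [← map_smul, h2, h.inv]
  refine ⟨x₀, h.spH.perf.ext fun z => mul_left_cancel₀ h.ne ?_⟩
  have := congrArg (fun w => H.b w z) h3
  simpa only [map_smul, LinearMap.smul_apply, smul_eq_mul] using this

end D0P

open D0P in
theorem pD0 : S_D0.{u} := by
  intro R A T _ _ _ _ _ _ _ _ j y ι _ _ ρ δ E φ ψ F N hs hj hy hu hgen hdvd hN
  obtain ⟨B, hB⟩ := exists_B (T := T) (ι := ι) δ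
  have hg : ∀ x, vm j (φ x) ∈ N := fun x => hN ▸ Submodule.subset_span ⟨x, rfl⟩
  have hiso : ∀ u ∈ N, ∀ v ∈ N, B u v = 0 := by
    have h1 : ∀ x, N ≤ LinearMap.ker (B.flip (vm j (φ x))) := fun x => by
      rw [hN, Submodule.span_le]
      rintro _ ⟨x', rfl⟩
      change B (vm j (φ x')) (vm j (φ x)) = 0
      have := hs.form x' x
      change hf δ (φ x') (φ x) = _ at this
      rw [hB, hf_vm, this, map_mul, hj, zero_mul]
    intro u hu
    change N ≤ LinearMap.ker (B u)
    rw [hN, Submodule.span_le]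
    rintro _ ⟨x, rfl⟩
    exact h1 x hu
  refine ⟨fun u => ⟨fun h v hv => by rw [← hB]; exact hiso u h v hv, fun h => ?_⟩,
    fun a u hu => ?_, fun u hu => ?_⟩
  · obtain ⟨P, hP⟩ : ∃ P : Submodule T ((ι → T) × (ι → T)), ∀ u, u ∈ P ↔ ∀ v ∈ N, B u v = 0 :=
      ⟨{ carrier := {u | ∀ v ∈ N, B u v = 0}
         add_mem' := fun hx hy v h => by
           rw [map_add, LinearMap.add_apply, hx v h, hy v h, add_zero]
         zero_mem' := fun v _ => by rw [map_zero, LinearMap.zero_apply]
         smul_mem' := fun c x hx v h => by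
           rw [map_smul, LinearMap.smul_apply, hx v h, smul_zero] }, fun _ => Iff.rfl⟩
    have hJ : Ideal.span {y} ≤ Ideal.jacobson ⊥ := by
      rw [Ideal.span_le, Set.singleton_subset_iff]
      exact Ideal.mem_jacobson_bot.2 fun t => by rw [add_comm]; exact hu t
    refine Submodule.le_of_le_smul_of_le_jacobson_bot (IsNoetherian.noetherian P) hJ
      (fun v hv => ?_) ((hP u).2 fun v hv => by rw [hB]; exact h v hv)
    obtain ⟨v₀, w, rfl⟩ := exists_vm j y hgen v
    have hv' := (hP _).1 hv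
    obtain ⟨x₀, rfl⟩ := image hs v₀ fun x => hdvd _ (by
      have := hv' _ (hg x)
      rw [map_add, map_smul, LinearMap.add_apply, LinearMap.smul_apply, hB, hf_vm,
        smul_eq_mul, add_eq_zero_iff_eq_neg, ← mul_neg] at this
      exact ⟨_, this⟩)
    refine Submodule.add_mem_sup (hg x₀) (Submodule.smul_mem_smul
      (Ideal.mem_span_singleton_self y) ((hP w).2 fun n hn => hy ?_))
    have := hv' n hn
    rw [map_add, map_smul, LinearMap.add_apply, LinearMap.smul_apply, hiso _ (hg x₀) n hn,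
      zero_add] at this
    simpa using this
  · change ((Matrix.mulVecLin ((ρ.ρ a).map j)).prodMap
      (Matrix.mulVecLin ((ρ.ρ (star a)).map j)ᵀ)) u ∈ N
    have : N ≤ N.comap ((Matrix.mulVecLin ((ρ.ρ a).map j)).prodMap
        (Matrix.mulVecLin ((ρ.ρ (star a)).map j)ᵀ)) := by
      conv_lhs => rw [hN]
      rw [Submodule.span_le]
      rintro _ ⟨x, rfl⟩
      have e := hg (E.ρ a x)
      rw [hs.eqv a x] at e
      change vm j (ρ.ρ a *ᵥ (φ x).1, (ρ.ρ (star a))ᵀ *ᵥ (φ x).2) ∈ N at e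
      change ((ρ.ρ a).map j *ᵥ (j ∘ (φ x).1), ((ρ.ρ (star a))ᵀ).map j *ᵥ (j ∘ (φ x).2)) ∈ N
      convert e using 1
      ext i
      · exact (RingHom.map_mulVec j _ _ i).symm
      · exact (RingHom.map_mulVec j _ _ i).symm
    exact this hu
  · rw [hN] at hu
    induction hu using Submodule.span_induction with
    | mem _ h =>
      obtain ⟨x, rfl⟩ := h
      exact ⟨x, 0, by simp⟩
    | zero => exact ⟨0, 0, by rw [map_zero, smul_zero, add_zero]; exact (vm_zero j).symm⟩
    | add u v _ _ hu hv =>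
      obtain ⟨x, w, rfl⟩ := hu
      obtain ⟨x', w', rfl⟩ := hv
      refine ⟨x + x', w + w', ?_⟩
      rw [map_add, vm_add, smul_add]
      abel
    | smul t u _ hu =>
      obtain ⟨x, w, rfl⟩ := hu
      obtain ⟨r, c, hc⟩ := hgen t
      refine ⟨r • x, c • vm j (φ x) + t • w, ?_⟩
      rw [map_smul, vm_smul, sub_eq_iff_eq_add'.1 hc]
      module

end Pool.Agent.P.MP_46a8f8_ag.GU
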