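import Pool.Agent.P.MP_46a8f8_ag.GU.Sm

/-!
The deformed Lagrangian over the finite free algebra: denominators are cleared.
-/

namespace Pool.Agent.P.MP_46a8f8_ag.GU

open TensorProduct Function Matrix IsLocalRing Polynomial

universe u

namespace D1P

section loc

variable {T O : Type u} [CommRing T] [CommRing O] [Algebra T O] {y : T}
  [IsLocalization (On y) O]

theorem dvd_of_map {t : T} (h : algebraMap T O y ∣ algebraMap T O t) : y ∣ t := by
  obtain ⟨z, hz⟩ := h
  obtain ⟨⟨c, s⟩, hs⟩ := IsLocalization.surj (On y) z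
  have h1 : algebraMap T O (t * s) = algebraMap T O (y * c) := by
    rw [map_mul, map_mul, hz, mul_assoc, hs]
  obtain ⟨m, hm⟩ := (IsLocalization.eq_iff_exists (On y) O).1 h1
  obtain ⟨d, hd⟩ : y ∣ (m : T) * s - 1 := (m * s).2
  exact ⟨m * c - t * d, by linear_combination hm - t * hd⟩

theorem reg_map (h : IsSMulRegular T y) : IsSMulRegular O (algebraMap T O y) := by
  refine IsSMulRegular.of_right_eq_zero_of_smul fun z hz => ?_
  obtain ⟨⟨c, s⟩, hs⟩ := IsLocalization.surj (On y) z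
  have h1 : algebraMap T O (y * c) = 0 := by
    rw [map_mul, ← hs, ← mul_assoc, ← smul_eq_mul _ z, hz, zero_mul]
  obtain ⟨m, hm⟩ := (IsLocalization.map_eq_zero_iff (On y) O _).1 h1
  have h2 : (m : T) * c = 0 := h.right_eq_zero_of_smul (by
    rw [smul_eq_mul]
    linear_combination hm)
  have h3 : algebraMap T O c = 0 := (IsLocalization.map_eq_zero_iff (On y) O _).2 ⟨m, h2⟩
  exact (IsLocalization.map_units O s).mul_left_eq_zero.1 (hs.trans h3)

theorem unit_one_add (z : O) : IsUnit (1 + algebraMap T O y * z) := by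
  obtain ⟨⟨c, s⟩, hs⟩ := IsLocalization.surj (On y) z
  obtain ⟨d, hd⟩ : y ∣ (s : T) - 1 := s.2
  have h1 : (s : T) + y * c ∈ On y := ⟨d + c, by linear_combination hd⟩
  have h2 := IsLocalization.map_units O (⟨_, h1⟩ : On y)
  refine isUnit_of_mul_isUnit_left (y := algebraMap T O s) ?_
  convert h2 using 1
  rw [map_add, map_mul, ← hs]
  ring

theorem near (z : O) : ∃ t : T, algebraMap T O y ∣ z - algebraMap T O t := by
  obtain ⟨⟨c, s⟩, hs⟩ := IsLocalization.surj (On y) z
  obtain ⟨d, hd⟩ : y ∣ (s : T) - 1 := s.2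
  have h1 := congrArg (algebraMap T O) hd
  rw [map_sub, map_one, map_mul] at h1
  exact ⟨c, -(algebraMap T O d * z), by linear_combination hs - z * h1⟩

theorem kill [IsNoetherianRing T] :
    ∃ s : On y, ∀ t : T, algebraMap T O t = 0 → (s : T) * t = 0 := by
  obtain ⟨G, hG⟩ := IsNoetherian.noetherian (RingHom.ker (algebraMap T O))
  have h1 : ∀ g : G, ∃ m : On y, (m : T) * g = 0 := fun g =>
    (IsLocalization.map_eq_zero_iff (On y) O _).1 (by
      have : (g : T) ∈ RingHom.ker (algebraMap T O) := hG ▸ Submodule.subset_span g.2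
      exact this)
  choose m hm using h1
  refine ⟨∏ g, m g, fun t ht => ?_⟩
  have h2 : t ∈ Submodule.span T (G : Set T) := hG ▸ ht
  induction h2 using Submodule.span_induction with
  | mem g hg =>
    obtain ⟨c, hc⟩ := Finset.dvd_prod_of_mem m (Finset.mem_univ ⟨g, hg⟩)
    rw [hc, Submonoid.coe_mul, mul_right_comm, hm ⟨g, hg⟩, zero_mul]
  | zero => exact mul_zero _
  | add a b ha hb iha ihb =>
    rw [mul_add, iha (hG ▸ ha : a ∈ RingHom.ker _), ihb (hG ▸ hb : b ∈ RingHom.ker _), add_zero]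
  | smul c a ha iha =>
    rw [smul_eq_mul, mul_left_comm, iha (hG ▸ ha : a ∈ RingHom.ker _), mul_zero]

theorem clear {κ : Type} [Finite κ] (f : κ → O) :
    ∃ (s : On y) (g : κ → T), ∀ k, algebraMap T O (g k) = algebraMap T O s * f k := by
  obtain ⟨s, hs⟩ := IsLocalization.exist_integer_multiples_of_finite (On y) f
  choose g hg using hs
  exact ⟨s, g, fun k => (hg k).trans (Algebra.smul_def _ _)⟩

theorem clear2 {ι : Type} [Finite ι] (z : (ι → O) × (ι → O)) :
    ∃ (s : On y) (v : (ι → T) × (ι → T)), vm (algebraMap T O) v = algebraMap T O s • z := by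
  obtain ⟨s, g, hg⟩ := clear (y := y) (Sum.elim z.1 z.2)
  exact ⟨s, (g ∘ Sum.inl, g ∘ Sum.inr),
    Prod.ext (funext fun k => hg (Sum.inl k)) (funext fun k => hg (Sum.inr k))⟩

variable {R : Type u} [CommRing R] [Algebra R T] {j : R →+* O}

theorem close (hj : ∀ r, algebraMap T O y ∣ j r - algebraMap T O (algebraMap R T r)) {t : T}
    {r : R} (h : algebraMap T O y ∣ algebraMap T O t - j r) : y ∣ t - algebraMap R T r := by
  refine dvd_of_map (O := O) ?_
  rw [map_sub, ← sub_add_sub_cancel _ (j r)]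
  exact dvd_add h (hj r)

theorem close_mul (hj : ∀ r, algebraMap T O y ∣ j r - algebraMap T O (algebraMap R T r)) {t : T}
    {r : R} {s : On y} (h : algebraMap T O t = algebraMap T O s * j r) :
    y ∣ t - algebraMap R T r := by
  refine close hj ?_
  obtain ⟨d, hd⟩ : y ∣ (s : T) - 1 := s.2
  have h1 := congrArg (algebraMap T O) hd
  rw [map_sub, map_one, map_mul] at h1
  exact ⟨algebraMap T O d * j r, by linear_combination h + j r * h1⟩

end loc

section vec

variable {C C' : Type u} [CommRing C] [CommRing C'] {ι : Type}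

/-- `vm` as a semilinear map -/
def vmL (q : C →+* C') : ((ι → C) × (ι → C)) →ₛₗ[q] ((ι → C') × (ι → C')) where
  toFun := vm q
  map_add' _ _ := Prod.ext (funext fun _ => map_add q _ _) (funext fun _ => map_add q _ _)
  map_smul' _ _ := Prod.ext (funext fun _ => map_mul q _ _) (funext fun _ => map_mul q _ _)

theorem exists_of_dvd {y : C} {u v : (ι → C) × (ι → C)} (h1 : ∀ k, y ∣ u.1 k - v.1 k)
    (h2 : ∀ k, y ∣ u.2 k - v.2 k) : ∃ w, u = v + y • w := by
  choose w1 hw1 using h1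
  choose w2 hw2 using h2
  exact ⟨(w1, w2), Prod.ext (funext fun k => sub_eq_iff_eq_add'.1 (hw1 k))
    (funext fun k => sub_eq_iff_eq_add'.1 (hw2 k))⟩

variable [Fintype ι]

theorem map_hf (q : C →+* C') (δ : ℤˣ) (u v : (ι → C) × (ι → C)) :
    hf δ (vm q u) (vm q v) = q (hf δ u v) := by
  rw [hf, hf, map_sub, Units.smul_def, Units.smul_def, map_zsmul, RingHom.map_dotProduct,
    RingHom.map_dotProduct]
  rfl

theorem comp_mulVec (q : C →+* C') (M : Matrix ι ι C) (v : ι → C) :
    q ∘ (M *ᵥ v) = M.map q *ᵥ (q ∘ v) := funext fun k => RingHom.map_mulVec q M v k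

theorem hf_smul (δ : ℤˣ) (c d : C) (u v : (ι → C) × (ι → C)) :
    hf δ (c • u) (d • v) = c * (d * hf δ u v) := by
  simp only [hf, Prod.smul_fst, Prod.smul_snd, smul_dotProduct, dotProduct_smul, smul_eq_mul,
    Units.smul_def, zsmul_eq_mul]
  ring

theorem hf_adj (δ : ℤˣ) (M M' : Matrix ι ι C) (u v : (ι → C) × (ι → C)) :
    hf δ (M *ᵥ u.1, M' *ᵥ u.2) v = hf δ u (M'ᵀ *ᵥ v.1, Mᵀ *ᵥ v.2) := by
  simp only [hf]
  rw [mulVec_transpose, mulVec_transpose, dotProduct_mulVec v.2, dotProduct_comm (M' *ᵥ u.2),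
    dotProduct_mulVec, dotProduct_comm u.2]

end vec

end D1P

open D1P

theorem pD1 (h0 : S_D0.{u}) : S_D1.{u} := by
  intro R A T _ _ _ _ _ _ _ _ _ τ y y' ι _ _ ρ δ E φ ψ F hS hF hJ
  obtain ⟨j, hjF, hj⟩ := hJ
  have := hF.free
  have := hF.fin
  have : IsNoetherianRing T := Algebra.FiniteType.isNoetherianRing R T
  have : IsNoetherianRing (Localization (On y)) :=
    IsLocalization.isNoetherianRing (On y) _ inferInstance
  have hy : IsSMulRegular T y := IsSMulRegular.of_right_eq_zero_of_smul fun t ht => by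
    have h1 : F • t = 0 := by
      rw [Algebra.smul_def, ← hF.mul, mul_right_comm, ← smul_eq_mul y, ht, zero_mul]
    exact (smul_eq_zero.1 h1).resolve_left hS.ne
  have hd : ∀ r, algebraMap T (Localization (On y)) y ∣ j r → F ∣ r := fun r hr => by
    obtain ⟨c, hc⟩ : y ∣ 0 - algebraMap R T r :=
      close hj (by rwa [map_zero, zero_sub, dvd_neg])
    have h1 : r • y' = F • (-c) := by
      rw [Algebra.smul_def, Algebra.smul_def, ← hF.mul]
      linear_combination (-y') * hc
    have h2 := congrArg τ h1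
    rw [map_smul, map_smul, hF.one, smul_eq_mul, mul_one] at h2
    exact ⟨_, h2⟩
  have hg : ∀ t : Localization (On y), ∃ r, algebraMap T _ y ∣ t - j r := fun t => by
    obtain ⟨t', ht'⟩ := near (y := y) t
    obtain ⟨r, hr⟩ := hF.gen t'
    have h1 := map_dvd (algebraMap T (Localization (On y))) hr
    rw [map_sub] at h1
    refine ⟨r, ?_⟩
    convert dvd_sub (dvd_add ht' h1) (hj r) using 1
    ring
  obtain ⟨hL, hA, hG⟩ := h0 R A _ j _ ι ρ δ E φ ψ F _ hS hjF (reg_map hy) unit_one_add hg hd rfl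
  set N₀ := Submodule.span (Localization (On y)) (Set.range fun x => vm j (φ x)) with hN₀
  obtain ⟨s, hs⟩ := kill (y := y) (O := Localization (On y))
  obtain ⟨d, hsd⟩ : y ∣ (s : T) - 1 := s.2
  let N₁ : Submodule T ((ι → T) × (ι → T)) :=
    N₀.comap (vmL (algebraMap T (Localization (On y))))
  let N : Submodule T ((ι → T) × (ι → T)) := N₁.map (LinearMap.lsmul T _ (s : T))
  have hN : ∀ n, n ∈ N ↔ ∃ v, vm (algebraMap T (Localization (On y))) v ∈ N₀ ∧ (s : T) • v = n :=
    fun n => Iff.rfl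
  have hsv : ∀ v : (ι → T) × (ι → T), (s : T) • v = v + y • d • v := fun v => by
    rw [smul_smul, ← hsd, sub_smul, one_smul, add_sub_cancel]
  have hst : ∀ (a : A) (c : On y) (M M' : Matrix ι ι T),
      M.map (algebraMap T (Localization (On y))) =
        algebraMap T (Localization (On y)) c • (ρ.ρ a).map j →
      M'.map (algebraMap T (Localization (On y))) =
        algebraMap T (Localization (On y)) c • ((ρ.ρ (star a)).map j)ᵀ →
      ∀ n ∈ N, (M *ᵥ n.1, M' *ᵥ n.2) ∈ N := fun a c M M' hM hM' n hn => by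
    obtain ⟨v, hv, rfl⟩ := (hN n).1 hn
    refine (hN _).2 ⟨(M *ᵥ v.1, M' *ᵥ v.2), ?_,
      Prod.ext (mulVec_smul M _ v.1).symm (mulVec_smul M' _ v.2).symm⟩
    convert N₀.smul_mem (algebraMap T _ c) (hA a _ hv) using 1
    refine Prod.ext ((comp_mulVec _ M v.1).trans ?_) ((comp_mulVec _ M' v.2).trans ?_)
    · rw [hM, smul_mulVec]
      rfl
    · rw [hM', smul_mulVec]
      rfl
  refine ⟨LinearMap.id.prodMap 0, (ρ.map (Algebra.ofId R T)).hfm δ, LinearMap.id.prodMap 0,
    vmL (algebraMap R T), N, ⟨fun a m => Prod.ext rfl (map_zero (ρ.dual.rm.ρ a)).symm,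
      fun _ => rfl, fun x y => by simp [hf, sub_eq_neg_add]⟩,
    ⟨MRep.hfm_sp _ _, ⟨fun a m => Prod.ext rfl
      (map_zero ((ρ.map (Algebra.ofId R T)).dual.rm.ρ a)).symm, fun _ => rfl,
      fun x y => by simp [hf, sub_eq_neg_add]⟩,
      fun a m => Prod.ext (comp_mulVec _ _ _) (comp_mulVec _ _ _),
      fun v => Prod.ext rfl (funext fun k => (map_zero (algebraMap R T)).symm),
      fun v v' => map_hf _ δ v v', fun n hn n' hn' => ?_, fun x => ?_⟩,
    fun u => ?_, fun n hn => ?_, ⟨s, s.2, fun v hv => ?_⟩, fun a => ?_⟩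
  · obtain ⟨v, hv, rfl⟩ := (hN n).1 hn
    obtain ⟨v', hv', rfl⟩ := (hN n').1 hn'
    rw [MRep.hfm_b, hf_smul, hs _ ((map_hf _ δ v v').symm.trans ((hL _).1 hv _ hv')), mul_zero]
  · obtain ⟨c, v, hv⟩ := clear2 (y := y) (vm j (φ x))
    have h1 : vm (algebraMap T (Localization (On y))) v ∈ N₀ :=
      hv ▸ N₀.smul_mem _ (Submodule.subset_span ⟨x, rfl⟩)
    obtain ⟨w, hw⟩ := exists_of_dvd (y := y) (u := v) (v := vm (algebraMap R T) (φ x))
      (fun k => close_mul hj (congrFun (congrArg Prod.fst hv) k))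
      (fun k => close_mul hj (congrFun (congrArg Prod.snd hv) k))
    refine ⟨_, (hN _).2 ⟨v, h1, rfl⟩, -(d • v) - w, ?_⟩
    change vm (algebraMap R T) (φ x) = _
    rw [hsv, smul_sub, smul_neg, ← sub_eq_iff_eq_add.2 hw]
    abel
  · choose r1 hr1 using fun k => hF.gen (u.1 k)
    choose r2 hr2 using fun k => hF.gen (u.2 k)
    exact ⟨(r1, r2), exists_of_dvd (v := vm (algebraMap R T) (r1, r2)) hr1 hr2⟩
  · obtain ⟨v, hv, rfl⟩ := (hN n).1 hn
    obtain ⟨x, z, hz⟩ := hG _ hv
    obtain ⟨w, hw⟩ := exists_of_dvd (y := y) (u := v) (v := vm (algebraMap R T) (φ x))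
      (fun k => close hj ⟨z.1 k, sub_eq_iff_eq_add'.2 (congrFun (congrArg Prod.fst hz) k)⟩)
      (fun k => close hj ⟨z.2 k, sub_eq_iff_eq_add'.2 (congrFun (congrArg Prod.snd hz) k)⟩)
    refine ⟨x, w + d • v, ?_⟩
    change _ = vm (algebraMap R T) (φ x) + _
    rw [hsv, smul_add, ← add_assoc, ← hw]
  · refine (hN _).2 ⟨v, (hL _).2 fun z hz => ?_, rfl⟩
    obtain ⟨c, n, hn⟩ := clear2 (y := y) z
    have h1 : hf δ v ((s : T) • n) = 0 := hv _ ((hN _).2 ⟨n, hn ▸ N₀.smul_mem _ hz, rfl⟩)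
    have h2 := congrArg (algebraMap T (Localization (On y))) h1
    rw [← one_smul T v, hf_smul, one_mul, map_mul, ← map_hf, hn, map_zero,
      ← one_smul (Localization (On y)) (vm _ v), hf_smul, one_mul] at h2
    exact (IsLocalization.map_units _ c).mul_right_eq_zero.1
      ((IsLocalization.map_units _ s).mul_right_eq_zero.1 h2)
  · obtain ⟨c, g, hc⟩ := clear (y := y) (Sum.elim (fun p : ι × ι => j (ρ.ρ a p.1 p.2))
      fun p : ι × ι => j (ρ.ρ (star a) p.2 p.1))
    let M : Matrix ι ι T := of fun k l => g (Sum.inl (k, l))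
    let M' : Matrix ι ι T := of fun k l => g (Sum.inr (k, l))
    have hM : M.map (algebraMap T (Localization (On y))) =
        algebraMap T (Localization (On y)) c • (ρ.ρ a).map j :=
      Matrix.ext fun k l => hc (Sum.inl (k, l))
    have hM' : M'.map (algebraMap T (Localization (On y))) =
        algebraMap T (Localization (On y)) c • ((ρ.ρ (star a)).map j)ᵀ :=
      Matrix.ext fun k l => hc (Sum.inr (k, l))
    choose W hW using fun k l => close_mul hj (hc (Sum.inl (k, l)))
    choose W' hW' using fun k l => close_mul hj (hc (Sum.inr (k, l)))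
    have e : M = (ρ.ρ a).map (algebraMap R T) + y • of W :=
      Matrix.ext fun k l => sub_eq_iff_eq_add'.1 (hW k l)
    have e' : M' = ((ρ.ρ (star a)).map (algebraMap R T))ᵀ + y • of W' :=
      Matrix.ext fun k l => sub_eq_iff_eq_add'.1 (hW' k l)
    refine ⟨(mulVecLin M).prodMap (mulVecLin M'), (mulVecLin M'ᵀ).prodMap (mulVecLin Mᵀ),
      fun u v => hf_adj δ M M' u v, hst a c M M' hM hM', hst (star a) c M'ᵀ Mᵀ ?_ ?_,
      fun u => Prod.ext rfl (mulVec_zero M'),
      fun u => ⟨(of W *ᵥ u.1, of W' *ᵥ u.2), Prod.ext ?_ ?_⟩⟩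
    · rw [transpose_map, hM', transpose_smul, transpose_transpose]
    · rw [transpose_map, hM, transpose_smul, star_star]
    · change M *ᵥ u.1 = (ρ.ρ a).map (algebraMap R T) *ᵥ u.1 + y • (of W *ᵥ u.1)
      rw [e, add_mulVec, smul_mulVec]
    · change M' *ᵥ u.2 = ((ρ.ρ (star a)).map (algebraMap R T))ᵀ *ᵥ u.2 + y • (of W' *ᵥ u.2)
      rw [e', add_mulVec, smul_mulVec]

end Pool.Agent.P.MP_46a8f8_ag.GU
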