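import Pool.Agent.P.MP_46a8f8_ag.GU.So

/-!
A form of odd reduced rank forces every perfect form to be non alternating.
-/

namespace Pool.Agent.P.MP_46a8f8_ag.GU

open TensorProduct Function IsLocalRing

universe u

namespace Dg1P

variable {R A k : Type u} [CommRing R] [Ring A] [Algebra R A] [Field k] [Algebra R k]

theorem exMin (X : RM R A k) [Module.Finite k X.M] (N : Submodule k X.M) (hN : X.Stab N)
    (h0 : N ≠ ⊥) : ∃ U, X.Min U ∧ U ≤ N := by
  obtain ⟨U, ⟨h1, h2, h3⟩, h4⟩ := (wellFounded_lt (α := Submodule k X.M)).has_min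
    {U | X.Stab U ∧ U ≠ ⊥ ∧ U ≤ N} ⟨N, hN, h0, le_rfl⟩
  refine ⟨U, ⟨h1, h2, fun U' hU' hle => ?_⟩, h3⟩
  by_contra hc
  push Not at hc
  exact h4 U' ⟨hU', hc.1, hle.trans h3⟩ (lt_of_le_of_ne hle hc.2)

theorem simple {X : RM R A k} {U : Submodule k X.M} (h : X.Min U) (N : Submodule k U)
    (hN : (X.sub U h.1).Stab N) : N = ⊥ ∨ N = ⊤ := by
  have h1 := h.2.2 (N.map U.subtype) ((X.eqv_subtype U h.1).map hN) (U.map_subtype_le N)
  refine h1.imp (fun e => ?_) fun e => ?_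
  · exact Submodule.map_injective_of_injective U.injective_subtype
      (e.trans (Submodule.map_bot _).symm)
  · exact Submodule.map_injective_of_injective U.injective_subtype
      (e.trans (Submodule.map_subtype_top U).symm)

theorem min_range {X Y : RM R A k} {U : Submodule k X.M} (h : X.Min U) (f : U →ₗ[k] Y.M)
    (hf : Eqv (X.sub U h.1) Y f) (h0 : LinearMap.range f ≠ ⊥) : Y.Min (LinearMap.range f) := by
  refine ⟨hf.range, h0, fun U' hU' hle => ?_⟩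
  have e : (U'.comap f).map f = U' := Submodule.map_comap_eq_self hle
  refine (simple h _ (hf.comap hU')).imp (fun e' => ?_) fun e' => ?_
  · rw [← e, e', Submodule.map_bot]
  · rw [← e, e', Submodule.map_top]

/-- the restriction of a form to a stable submodule -/
@[reducible] def subF (V : FM R A k k) (N : Submodule k V.M) (h : V.toRM.Stab N) : FM R A k k where
  toRM := V.toRM.sub N h
  b := V.b.compl₁₂ N.subtype N.subtype

variable [StarRing A] {ε : ℤˣ}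

theorem subF_good {V : FM R A k k} (hV : V.Good ε) (N : Submodule k V.M) (h : V.toRM.Stab N) :
    (subF V N h).Good ε :=
  have := hV.fin
  ⟨inferInstanceAs (Module.Finite k N), fun a x y => hV.adj a x.1 y.1, fun x y => hV.sym x.1 y.1⟩

theorem subF_perf {V : FM R A k k} (hV : V.Good ε) (N : Submodule k V.M) (h : V.toRM.Stab N)
    (hn : ∀ x ∈ N, (∀ y ∈ N, V.b x y = 0) → x = 0) : (subF V N h).Perf := by
  have := hV.fin
  have h1 : Injective (subF V N h).b := (injective_iff_map_eq_zero _).2 fun x hx =>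
    Subtype.ext (hn x.1 x.2 fun y hy => LinearMap.congr_fun hx ⟨y, hy⟩)
  exact ⟨h1, (LinearMap.injective_iff_surjective_of_finrank_eq_finrank
    (Subspace.dual_finrank_eq (K := k) (V := N)).symm).1 h1⟩

variable [SA R A]

theorem even (n : ℕ) (hn : ∀ X : RM R A k, Module.Finite k X.M → n ∣ Module.finrank k X.M)
    (H : ∀ V : FM R A k k, V.Good ε → V.Perf → ∀ U, V.toRM.Min U → V.Isot U) (m : ℕ) :
    ∀ V : FM R A k k, V.Good ε → V.Perf → Module.finrank k V.M = m → 2 * n ∣ m := by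
  induction m using Nat.strong_induction_on with
  | _ m ih =>
  intro V hV hp hm
  have := hV.fin
  by_cases h0 : (⊤ : Submodule k V.M) = ⊥
  · rw [← hm, ← finrank_top, h0, finrank_bot]
    exact dvd_zero _
  obtain ⟨U, hU, -⟩ := exMin V.toRM ⊤ V.stab_top h0
  have hle : U ≤ V.perp U := fun x hx => H V hV hp U hU x hx
  obtain ⟨C, hC, hd, hs⟩ := hU.1.compl_in (hV.stab_perp hU.1) hle
  have hCp := subF_perf hV C hC fun x hx hy => by
    have h1 : x ∈ V.perp (U ⊔ C) := by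
      rw [FM.perp_sup]
      exact ⟨hs ▸ Submodule.mem_sup_right hx, hy⟩
    rw [hs, hV.perp_perp hp] at h1
    exact Submodule.disjoint_def.1 hd x h1 hx
  have e1 := hV.finrank_perp hp U
  have e2 := Submodule.finrank_sup_add_finrank_inf_eq U C
  rw [hs, hd.eq_bot, finrank_bot] at e2
  have e3 : 0 < Module.finrank k U := by
    rw [Nat.pos_iff_ne_zero]
    exact fun h => hU.2.1 (Submodule.finrank_eq_zero.1 h)
  have e4 := ih (Module.finrank k C) (by omega) _ (subF_good hV C hC) hCp rfl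
  have e5 : n ∣ Module.finrank k U :=
    hn (V.toRM.sub U hU.1) (inferInstanceAs (Module.Finite k U))
  have e6 : m = 2 * Module.finrank k U + Module.finrank k C := by omega
  rw [e6]
  exact dvd_add (Nat.mul_dvd_mul_left 2 e5) e4

theorem step {V₀ V : FM R A k k} (hV₀ : V₀.Good ε) {U₀ : Submodule k V₀.M}
    (hU₀ : V₀.toRM.Min U₀) (hn : ¬ V₀.Isot U₀) (hV : V.Good ε) (hp : V.Perf) [Nontrivial V.M]
    (hS : ∀ (U : Submodule k V.M) (h : V.toRM.Min U),
      (V₀.toRM.sub U₀ hU₀.1).Iso (V.toRM.sub U h.1)) :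
    ∃ U, V.toRM.Min U ∧ ¬ V.Isot U := by
  by_contra hc
  push Not at hc
  have := hV.fin
  have := hV₀.fin
  obtain ⟨U₁, hU₁, -⟩ := exMin V.toRM ⊤ V.stab_top top_ne_bot
  obtain ⟨C, hC, hcp⟩ := (hV.stab_perp hU₁.1).compl
  have hC0 : C ≠ ⊥ := by
    rintro rfl
    have h1 : V.perp U₁ = ⊤ := by simpa using hcp.sup_eq_top
    refine hU₁.2.1 ((Submodule.eq_bot_iff _).2 fun x hx => hp.eq_zero fun y => hV.zero ?_)
    exact (h1 ▸ Submodule.mem_top : y ∈ V.perp U₁) x hx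
  obtain ⟨U₂, hU₂, hle⟩ := exMin V.toRM C hC hC0
  obtain ⟨f, hf⟩ := hS U₂ hU₂
  obtain ⟨f', hf'⟩ := hS U₁ hU₁
  have hW := subF_good hV₀ U₀ hU₀.1
  have hWp : (subF V₀ U₀ hU₀.1).Perf := subF_perf hV₀ U₀ hU₀.1 fun x hx hy => by
    rcases hU₀.2.2 (U₀ ⊓ V₀.perp U₀) (hU₀.1.inf (hV₀.stab_perp hU₀.1)) inf_le_left with h | h
    · exact (Submodule.eq_bot_iff _).1 h x ⟨hx, hy⟩
    · exact absurd (fun z hz => (h.ge hz).2) hn
  let F : U₀ →ₗ[k] V.M := U₂.subtype ∘ₗ f.toLinearMap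
  let F' : U₀ →ₗ[k] V.M := U₁.subtype ∘ₗ f'.toLinearMap
  have hF : Eqv (V₀.toRM.sub U₀ hU₀.1) V.toRM F := (V.toRM.eqv_subtype U₂ hU₂.1).comp hf
  have hF' : Eqv (V₀.toRM.sub U₀ hU₀.1) V.toRM F' := (V.toRM.eqv_subtype U₁ hU₁.1).comp hf'
  obtain ⟨d, hd⟩ := hWp.exists_end (V.b.compl₁₂ F F')
  have hd' : ∀ x y : U₀, V₀.b (d x).1 y.1 = V.b (F x) (F' y) := hd
  have hdi : Injective d := (injective_iff_map_eq_zero _).2 fun x hx => by
    have h1 : F x ∈ V.perp U₁ := fun y hy => by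
      obtain ⟨z, hz⟩ := f'.surjective ⟨y, hy⟩
      have h2 : F' z = y := congrArg Subtype.val hz
      rw [← h2, ← hd', hx]
      simp
    have h3 : F x = 0 := Submodule.disjoint_def.1 hcp.disjoint _ h1 (hle (f x).2)
    exact f.injective ((Subtype.ext h3).trans (map_zero f).symm)
  have hde : Eqv (V₀.toRM.sub U₀ hU₀.1) (V₀.toRM.sub U₀ hU₀.1) d := fun a x =>
    hWp.ext fun y => by
      rw [hW.adj, hd, hd]
      change V.b (F _) (F' y) = V.b (F x) (F' _)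
      rw [hF, hF', hV.adj]
  let D : U₀ ≃ₗ[k] U₀ := LinearEquiv.ofInjectiveEndo d hdi
  have hD : Eqv (V₀.toRM.sub U₀ hU₀.1) (V₀.toRM.sub U₀ hU₀.1) D.symm :=
    Eqv.symm (X := V₀.toRM.sub U₀ hU₀.1) (Y := V₀.toRM.sub U₀ hU₀.1) (e := D) hde
  let G : U₀ →ₗ[k] V.M := F ∘ₗ D.symm.toLinearMap
  have hG : Eqv (V₀.toRM.sub U₀ hU₀.1) V.toRM G := hF.comp hD
  have hGb : ∀ x y : U₀, V.b (G x) (F' y) = V₀.b x.1 y.1 := fun x y => by
    change V.b (F (D.symm x)) (F' y) = _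
    rw [← hd']
    exact congrArg (fun z : U₀ => V₀.b z.1 y.1) (D.apply_symm_apply x)
  have hE : Eqv (V₀.toRM.sub U₀ hU₀.1) V.toRM (G + F' : U₀ →ₗ[k] V.M) := fun a x =>
    (congrArg₂ (· + ·) (hG a x) (hF' a x)).trans (map_add _ _ _).symm
  have hI : V.Isot (LinearMap.range (G + F')) := by
    by_cases h0 : LinearMap.range (G + F') = ⊥
    · intro x hx y _
      rw [h0, Submodule.mem_bot] at hx
      rw [hx, map_zero, LinearMap.zero_apply]
    · exact hc _ (min_range hU₀ _ hE h0)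
  refine hn fun x hx y hy => (two_unit R A k).mul_left_cancel ?_
  have h1 := hI _ ⟨⟨x, hx⟩, rfl⟩ _ ⟨⟨y, hy⟩, rfl⟩
  have h2 : V.b (G ⟨x, hx⟩) (G ⟨y, hy⟩) = 0 := hc U₂ hU₂ _ (f _).2 _ (f _).2
  have h3 : V.b (F' ⟨x, hx⟩) (F' ⟨y, hy⟩) = 0 := hc U₁ hU₁ _ (f' _).2 _ (f' _).2
  have h4 : V.b (F' ⟨x, hx⟩) (G ⟨y, hy⟩) = V₀.b x y := by
    rw [hV.sym, hGb, hV₀.sym, usmul_usmul]
  simp only [LinearMap.add_apply, map_add, h2, h3, h4, hGb] at h1
  linear_combination h1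

end Dg1P

theorem pDg1 (h : S_Schur.{u}) : S_Dg1.{u} := by
  intro R A k _ _ _ _ _ _ _ ε n hAz hs hn ⟨W, hW, hWp, hd⟩ V hV hp _
  by_cases H : ∀ V : FM R A k k, V.Good ε → V.Perf → ∀ U, V.toRM.Min U → V.Isot U
  · exact absurd (Dg1P.even n hn H _ W hW hWp rfl) hd
  push Not at H
  obtain ⟨V₀, hV₀, -, U₀, hU₀, hI⟩ := H
  exact Dg1P.step hV₀ hU₀ hI hV hp fun U hU => h R A k _ _ U₀ U hU₀ hU hAz hs

end Pool.Agent.P.MP_46a8f8_ag.GU
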