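import Pool.Agent.P.MP_46a8f8_ag.GU.So

/-!
Nondegenerate embeddings of a module into a perfect form over the residue field.
-/

namespace Pool.Agent.P.MP_46a8f8_ag.GU

open TensorProduct Function Matrix IsLocalRing Module

universe u

namespace Dg2P

variable {R A k : Type u} [CommRing R] [Ring A] [Algebra R A] [Field k] [Algebra R k]

theorem exists_min (X : RM R A k) [Module.Finite k X.M] [Nontrivial X.M] : ∃ U, X.Min U := by
  obtain ⟨U, hU, hm⟩ := (wellFounded_lt (α := Submodule k X.M)).has_min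
    {N | X.Stab N ∧ N ≠ ⊥} ⟨⊤, X.stab_top, top_ne_bot⟩
  refine ⟨U, hU.1, hU.2, fun U' h1 h2 => ?_⟩
  by_contra h
  rw [not_or] at h
  exact hm U' ⟨h1, h.1⟩ (lt_of_le_of_ne h2 h.2)

/-- the restriction of a form to a stable subspace -/
@[reducible] def subF (V : FM R A k k) (N : Submodule k V.M) (h : V.Stab N) : FM R A k k where
  toRM := V.toRM.sub N h
  b := V.b.compl₁₂ N.subtype N.subtype

variable [StarRing A] {ε : ℤˣ} {V : FM R A k k}

theorem subF_good (hV : V.Good ε) (N : Submodule k V.M) (h : V.Stab N) : (subF V N h).Good ε :=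
  have := hV.fin
  ⟨inferInstanceAs (Module.Finite k N), fun a x y => hV.adj a x.1 y.1, fun x y => hV.sym x.1 y.1⟩

theorem subF_perf (hV : V.Good ε) (N : Submodule k V.M) (h : V.Stab N)
    (hN : ∀ x ∈ N, x ∈ V.perp N → x = 0) : (subF V N h).Perf := by
  have := hV.fin
  have h1 : Injective (subF V N h).b := (injective_iff_map_eq_zero _).2 fun x hx =>
    Subtype.ext (hN x.1 x.2 fun y hy => LinearMap.congr_fun hx ⟨y, hy⟩)
  exact ⟨h1, (LinearMap.injective_iff_surjective_of_finrank_eq_finrank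
    (Subspace.dual_finrank_eq (K := k) (V := N)).symm).1 h1⟩

theorem min_perp (hV : V.Good ε) {U : Submodule k V.M} (hU : V.toRM.Min U) (h : ¬ V.Isot U) :
    ∀ x ∈ U, x ∈ V.perp U → x = 0 := by
  intro x hx hx'
  rcases hU.2.2 _ (hU.1.inf (hV.stab_perp hU.1)) inf_le_left with e | e
  · exact (Submodule.eq_bot_iff _).1 e x ⟨hx, hx'⟩
  · exact absurd (fun y hy => (e.ge hy).2) h

end Dg2P

open Dg2P in
theorem pDg2 (hS : S_Schur.{u}) : S_Dg2.{u} := by
  intro R A k _ _ _ _ _ _ _ ε X V hA hk hN hX hV hP hle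
  induction hn : finrank k X.M using Nat.strong_induction_on generalizing X V with
  | _ n ih =>
  rcases subsingleton_or_nontrivial X.M with hs | hs
  · exact ⟨0, fun a m => by simp, fun x _ => Subsingleton.elim _ _⟩
  have := hV.fin
  have hV1 : Nontrivial V.M := finrank_pos_iff.1 ((finrank_pos (R := k) (M := X.M)).trans_le hle)
  obtain ⟨X1, h1⟩ := exists_min X
  obtain ⟨U, hU, hU'⟩ := hN V hV hP hV1
  obtain ⟨g, hg⟩ := hS R A k X V.toRM X1 U h1 hU hA hk
  obtain ⟨e, e1, e2, e3⟩ := h1.1.proj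
  have hr : LinearMap.range e = X1 :=
    le_antisymm (by rintro _ ⟨x, rfl⟩; exact e2 x) fun x hx => ⟨x, e3 x hx⟩
  have d1 := LinearMap.finrank_range_add_finrank_ker e
  rw [hr] at d1
  have d2 : finrank k X1 = finrank k U := g.finrank_eq
  have d3 := hV.finrank_perp hP U
  have d4 : finrank k X1 ≠ 0 := fun h => h1.2.1 (Submodule.finrank_eq_zero.1 h)
  have m1 := min_perp hV hU hU'
  have hQ := hV.stab_perp hU.1
  obtain ⟨f, f1, f2⟩ := ih (finrank k (LinearMap.ker e)) (by omega) (X.sub _ e1.ker)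
    (subF V _ hQ) (inferInstanceAs (Module.Finite k (LinearMap.ker e))) (subF_good hV _ hQ)
    (subF_perf hV _ hQ fun x hx hx' => m1 x (hV.perp_perp hP U ▸ hx') hx)
    (show finrank k (LinearMap.ker e) ≤ finrank k (V.perp U) by omega) rfl
  let p : X.M →ₗ[k] X1 := e.codRestrict X1 e2
  let q : X.M →ₗ[k] LinearMap.ker e := (LinearMap.id - e).codRestrict _ fun x => by
    rw [LinearMap.mem_ker, LinearMap.sub_apply, map_sub, LinearMap.id_apply, e3 _ (e2 x), sub_self]
  have hp : Eqv X (X.sub X1 h1.1) p := fun a x => Subtype.ext (e1 a x)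
  have hq : Eqv X (X.sub _ e1.ker) q := fun a x => Subtype.ext (by
    change X.ρ a x - e (X.ρ a x) = X.ρ a (x - e x)
    rw [e1 a x, map_sub])
  let F : X.M →ₗ[k] V.M := U.subtype ∘ₗ g.toLinearMap ∘ₗ p + (V.perp U).subtype ∘ₗ f ∘ₗ q
  have hF : ∀ x, F x = (g (p x) : U) + (f (q x) : V.perp U) := fun _ => rfl
  refine ⟨F, fun a x => ?_, fun x hx => ?_⟩
  · rw [hF, hF, map_add, hp a x, hq a x, hg a, f1 a]
    rfl
  have k1 : ∀ y : X1, F y = (g y : U) := fun y => by
    have a1 : p y = y := Subtype.ext (e3 _ y.2)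
    have a2 : q y = 0 := Subtype.ext (sub_eq_zero.2 (e3 _ y.2).symm)
    rw [hF, a1, a2, map_zero, ZeroMemClass.coe_zero, add_zero]
  have k2 : ∀ y : LinearMap.ker e, F y = (f y : V.perp U) := fun y => by
    have a1 : p y = 0 := Subtype.ext y.2
    have a2 : q y = y := Subtype.ext (sub_eq_self.2 y.2)
    rw [hF, a1, a2, map_zero, ZeroMemClass.coe_zero, zero_add]
  have k3 : g (p x) = 0 := Subtype.ext (m1 _ (g (p x)).2 fun y hy => by
    obtain ⟨z, hz⟩ := g.surjective ⟨y, hy⟩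
    have a1 := hx z.1
    rw [k1 z, hz, hF, map_add, LinearMap.add_apply, (f (q x)).2 y hy, add_zero] at a1
    exact a1)
  have k4 : x ∈ LinearMap.ker e := congrArg Subtype.val (g.map_eq_zero_iff.1 k3)
  refine congrArg Subtype.val (f2 ⟨x, k4⟩ fun y => ?_)
  have a1 := hx y.1
  rw [k2 y, k2 ⟨x, k4⟩] at a1
  exact a1

end Pool.Agent.P.MP_46a8f8_ag.GU
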