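import Pool.Agent.P.MP_46a8f8_ag.GU.So
import Pool.Agent.P.MP_46a8f8_ag.Wed
import Pool.Agent.P.MP_46a8f8_ag.SS

/-!
Dimensions of modules over an Azumaya algebra, uniqueness of the simple module.
-/

namespace Pool.Agent.P.MP_46a8f8_ag.GU

open TensorProduct Function Matrix IsLocalRing

universe u

namespace DivP

theorem mat {Ω V : Type u} [Field Ω] [AddCommGroup V] [Module Ω V] [Module.Finite Ω V] {n : ℕ}
    (θ : Matrix (Fin n) (Fin n) Ω →+* Module.End Ω V) : n ∣ Module.finrank Ω V := by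
  have h1 : ∀ v : V, ∑ i, θ (single i i 1) v = v := fun v => by
    rw [← LinearMap.sum_apply, ← map_sum, sum_single_one, map_one, Module.End.one_apply]
  rcases n with - | n
  · have : Subsingleton V := subsingleton_of_forall_eq 0 fun v => by simpa using (h1 v).symm
    rw [Module.finrank_zero_of_subsingleton]
  have h2 : ∀ i j l (v : V), θ (single i j 1) (θ (single j l 1) v) = θ (single i l 1) v :=
    fun i j l v => by rw [← Module.End.mul_apply, ← map_mul, single_mul_single_same, mul_one]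
  let Φ : (Fin (n + 1) → LinearMap.range (θ (single 0 0 1))) →ₗ[Ω] V :=
    ∑ i, θ (single i 0 1) ∘ₗ Submodule.subtype _ ∘ₗ LinearMap.proj i
  have hΦ : ∀ w, Φ w = ∑ i, θ (single i 0 1) (w i) := fun w => by simp [Φ]
  have hb : Bijective Φ := by
    refine ⟨(injective_iff_map_eq_zero _).2 fun w hw => funext fun j => Subtype.ext ?_,
      fun v => ⟨fun i => ⟨θ (single 0 i 1) v, _, h2 0 0 i v⟩, by simp only [hΦ, h2, h1]⟩⟩
    have h3 := congrArg (θ (single 0 j 1)) hw
    rw [hΦ, map_sum, map_zero, Finset.sum_eq_single j (fun i _ hi => by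
      rw [← Module.End.mul_apply, ← map_mul, single_mul_single_of_ne _ _ _ _ hi.symm, map_zero,
        LinearMap.zero_apply]) (by simp), h2] at h3
    obtain ⟨v, hv⟩ := (w j).2
    rw [← hv, h2, hv] at h3
    exact h3
  rw [← (LinearEquiv.ofBijective Φ hb).finrank_eq, Module.finrank_pi_fintype]
  simp

variable {R A k : Type u} [CommRing R] [Ring A] [Algebra R A] [Field k] [Algebra R k]

theorem simple {X : RM R A k} {U : Submodule k X.M} (h : X.Min U) (N : Submodule k U)
    (hN : (X.sub U h.1).Stab N) : N = ⊥ ∨ N = ⊤ :=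
  (h.2.2 _ ((X.eqv_subtype U h.1).map hN) (U.map_subtype_le N)).imp
    (fun e => Submodule.map_injective_of_injective U.injective_subtype (by simpa using e))
    fun e => Submodule.map_injective_of_injective U.injective_subtype (by simpa using e)

theorem hom (hA : Az R A) (hs : Surjective (algebraMap R k)) (X Y : RM R A k) [Nontrivial X.M]
    [Nontrivial Y.M] : ∃ f : X.M →ₗ[k] Y.M, Eqv X Y f ∧ f ≠ 0 := by
  let : ∀ Z : RM R A k, Module A Z.M := fun Z => Module.compHom Z.M Z.ρ
  let : ∀ Z : RM R A k, Module R Z.M := fun Z => Module.compHom Z.M (algebraMap R k)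
  have : ∀ Z : RM R A k, IsScalarTower R A Z.M := fun Z => ⟨fun r a m => by
    change Z.ρ (r • a) m = algebraMap R k r • Z.ρ a m
    rw [Algebra.smul_def, map_mul, Module.End.mul_apply, Z.alg]⟩
  obtain ⟨x, hx⟩ := exists_ne (0 : X.M)
  obtain ⟨y, hy⟩ := exists_ne (0 : Y.M)
  obtain ⟨φ, hφ⟩ := Module.Projective.exists_dual_eq_one k hx
  obtain ⟨g, hg⟩ := hA.exists_ne_zero (V := X.M) (W := Y.M) ⟨(φ.smulRight y).toAddHom,
    fun r m => (φ.smulRight y).map_smul (algebraMap R k r) m⟩ fun e => hy (by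
      simpa [hφ] using LinearMap.congr_fun e x)
  refine ⟨⟨g.toAddHom, fun c m => ?_⟩, fun a m => g.map_smul a m,
    fun e => hg (LinearMap.ext fun m => LinearMap.congr_fun e m)⟩
  obtain ⟨r, rfl⟩ := hs c
  rw [RingHom.id_apply, ← X.alg, ← Y.alg]
  exact g.map_smul (algebraMap R A r) m

end DivP

theorem pDiv : S_Div.{u} := by
  intro R A k _ _ _ _ _ _ _ n X hA hn _
  have := (algebraMap R k).domain_nontrivial
  obtain ⟨m, ⟨e⟩⟩ := wed ss (AlgebraicClosure k) _ (azBC R A (AlgebraicClosure k) hA)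
  have h1 := e.toLinearEquiv.finrank_eq
  rw [Module.finrank_baseChange, hn, Module.finrank_matrix, Fintype.card_fin, Module.finrank_self,
    mul_one, sq] at h1
  obtain rfl : n = m := Nat.mul_self_inj.1 h1
  let g : A →ₐ[R] Module.End (AlgebraicClosure k) (AlgebraicClosure k ⊗[k] X.M) :=
    ⟨(Module.End.baseChangeHom k (AlgebraicClosure k) X.M).toRingHom.comp X.ρ, fun r =>
      AlgebraTensorModule.ext fun c x => by
        change c ⊗ₜ[k] X.ρ _ x = r • c ⊗ₜ[k] x
        rw [X.alg, ← smul_tmul, algebraMap_smul, smul_tmul']⟩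
  rw [← Module.finrank_baseChange (R := AlgebraicClosure k)]
  exact DivP.mat (((AlgHom.liftEquiv R (AlgebraicClosure k) A _ g).comp e.symm.toAlgHom).toRingHom)

theorem pSchur : S_Schur.{u} := by
  intro R A k _ _ _ _ _ X Y U U' h h' hA hs
  have : Nontrivial (X.sub U h.1).M := Submodule.nontrivial_iff_ne_bot.2 h.2.1
  have : Nontrivial (Y.sub U' h'.1).M := Submodule.nontrivial_iff_ne_bot.2 h'.2.1
  obtain ⟨f, h1, h2⟩ := DivP.hom hA hs (X.sub U h.1) (Y.sub U' h'.1)
  exact ⟨LinearEquiv.ofBijective f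
    ⟨LinearMap.ker_eq_bot.1 ((DivP.simple h _ h1.ker).resolve_right (mt LinearMap.ker_eq_top.1 h2)),
      LinearMap.range_eq_top.1
        ((DivP.simple h' _ h1.range).resolve_left (mt LinearMap.range_eq_bot.1 h2))⟩, h1⟩

theorem pAzR : S_AzR.{u} := by
  rintro R S A _ _ _ _ _ _ _ hs ⟨k, a, b, h1, hc, l, x, z, w, h2⟩
  have : CompatibleSMul R S A A := .of_algebraMap_surjective _ _ hs
  refine ⟨k, a, b, h1, fun c => ?_, l, x, z, w, ?_⟩
  · simpa only [map_sum, mapOfCompatibleSMul_tmul] using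
      congrArg (mapOfCompatibleSMul R S ℕ A A) (hc c)
  · simpa only [map_sum, mapOfCompatibleSMul_tmul] using congrArg (mapOfCompatibleSMul R S ℕ A A) h2

end Pool.Agent.P.MP_46a8f8_ag.GU
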