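import Pool.Agent.P.MP_46a8f8_ag.GU.Sm

/-!
Localisations of tensor products, and the local ring of the affine line at the origin.
-/

namespace Pool.Agent.P.MP_46a8f8_ag.GU

open TensorProduct Function IsLocalRing Polynomial

universe u

namespace DomLP

theorem loc_dom (R S A O : Type u) [CommRing R] [CommRing S] [Nontrivial S] [Algebra R S]
    [Module.Free R S] [CommRing A] [Algebra R A] [CommRing O] [Algebra R O] [Algebra A O]
    [IsScalarTower R A O] (M : Submonoid A) [IsLocalization M O] (hM : M ≤ nonZeroDivisors A)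
    [IsDomain (S ⊗[R] A)] : IsDomain (O ⊗[R] S) := by
  let f : S ⊗[R] A →ₐ[S] S ⊗[R] O :=
    Algebra.TensorProduct.map (AlgHom.id S S) (IsScalarTower.toAlgHom R A O)
  letI : Algebra (S ⊗[R] A) (S ⊗[R] O) := f.toRingHom.toAlgebra
  haveI : IsScalarTower S (S ⊗[R] A) (S ⊗[R] O) :=
    IsScalarTower.of_algebraMap_eq fun x => (f.commutes x).symm
  haveI := IsLocalization.tensorProduct_tensorProduct_right R S M O (by
    ext a
    change f (1 ⊗ₜ a) = 1 ⊗ₜ algebraMap A O a
    simp [f])
  haveI : Nontrivial A := by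
    rcases subsingleton_or_nontrivial A with h | h
    · exact absurd (inferInstance : Subsingleton (S ⊗[R] A)) (not_subsingleton _)
    · exact h
  have hle : M.map (Algebra.TensorProduct.includeRight (R := R) (A := S)) ≤
      nonZeroDivisors (S ⊗[R] A) := by
    rintro _ ⟨m, hm, rfl⟩
    refine mem_nonZeroDivisors_of_ne_zero fun h0 => ?_
    have h1 : (1 : S) ⊗ₜ[R] m = 0 := h0
    rw [Module.FaithfullyFlat.one_tmul_eq_zero_iff] at h1
    exact nonZeroDivisors.ne_zero (hM hm) h1
  haveI : IsDomain (S ⊗[R] O) := IsLocalization.isDomain_of_le_nonZeroDivisors _ hle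
  exact (Algebra.TensorProduct.comm R O S).toMulEquiv.isDomain _

end DomLP

open DomLP

theorem pDomL : S_DomL.{u} := by
  intro R S O _ _ _ _ _ _ _
  refine ⟨fun M _ hM => ?_, fun M _ hM => ?_⟩
  · haveI : IsDomain (S ⊗[R] R) := (Algebra.TensorProduct.rid R R S).toMulEquiv.isDomain _
    exact loc_dom R S R O M hM
  · haveI : IsDomain (S ⊗[R] R[X]) := (polyEquivTensor R S).symm.toMulEquiv.isDomain _
    exact loc_dom R S R[X] O M hM

theorem pRegUp : S_RegUp.{u} := by
  intro R _ _ e he O _ _ _
  set p : Ideal R[X] := (maximalIdeal R).comap (evalRingHom (0 : R)) with hp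
  have hs : Surjective (evalRingHom (0 : R)) := fun r => ⟨C r, by simp⟩
  haveI : p.IsMaximal := Ideal.comap_isMaximal_of_surjective _ hs
  have hc : p.comap C = maximalIdeal R := by
    ext r
    simp [hp]
  haveI : p.LiesOver (maximalIdeal R) := ⟨hc.symm⟩
  haveI := Polynomial.isRegularLocalRing_localization_atPrime_of_comap_eq_maximalIdeal R p hc
  refine ⟨IsRegularLocalRing.of_ringEquiv
    (IsLocalization.algEquiv p.primeCompl (Localization.AtPrime p) O).toRingEquiv, ?_⟩
  rw [IsLocalization.AtPrime.ringKrullDim_eq_height p O,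
    Polynomial.height_eq_height_add_one (maximalIdeal R) p, WithBot.coe_add,
    maximalIdeal_height_eq_ringKrullDim, he]
  push_cast
  rfl

end Pool.Agent.P.MP_46a8f8_ag.GU
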