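import Pool.Agent.P.MP_46a8f8_ag.GU.So

/-!
The Fitting idempotent of `1 + g` for a unitary element `g`.
-/

namespace Pool.Agent.P.MP_46a8f8_ag.GU

open Polynomial

universe u

theorem pFit : S_Fit.{u} := by
  intro K A _ _ _ _ _ h2 g hg hg'
  obtain ⟨p, hp, hp0⟩ := Algebra.IsIntegral.isIntegral (R := K) (1 + g)
  obtain ⟨q, hq, hX⟩ := exists_eq_pow_rootMultiplicity_mul_and_not_dvd p hp.ne_zero 0
  generalize rootMultiplicity 0 p = N at hq
  rw [C_0, sub_zero] at hq hX
  have hc : IsCoprime X q := irreducible_X.coprime_iff_not_dvd.2 hX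
  obtain ⟨u, v, huv⟩ := hc.pow_left (m := N + 1)
  have hz : ∀ r : K[X], aeval (1 + g) (r * (X ^ (N + 1) * q)) = 0 := fun r => by
    rw [show r * (X ^ (N + 1) * q) = r * X * p by rw [hq]; ring, map_mul, aeval_def _ p, hp0,
      mul_zero]
  have hgX : g = aeval (1 + g) (X - 1 : K[X]) := by simp
  obtain ⟨e, he⟩ : ∃ e, e = aeval (1 + g) (v * q) := ⟨_, rfl⟩
  have h1 : (1 + g) ^ (N + 1) * e = 0 := by
    rw [← hz v, he, show v * (X ^ (N + 1) * q) = X ^ (N + 1) * (v * q) by ring, map_mul _ (X ^ _),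
      map_pow, aeval_X]
  have h3 : (1 + g) ^ (N + 1) * aeval (1 + g) u + e = 1 := by
    have := congrArg (aeval (1 + g)) huv
    rwa [map_one, map_add, mul_comm u, map_mul, map_pow, aeval_X, ← he] at this
  have h4 : star e * (1 + g) ^ (N + 1) = 0 := by
    have hc : Commute (star (1 + g)) g := by
      rw [star_add, star_one]
      exact (Commute.one_left g).add_left (hg'.trans hg.symm)
    have e1 : 1 + g = star (1 + g) * g := by rw [star_add, star_one, add_mul, one_mul, hg', add_comm]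
    rw [e1, hc.mul_pow, ← mul_assoc, ← star_pow, ← star_mul, h1, star_zero, zero_mul]
  have h5 : star e * e = star e := by
    conv_rhs => rw [← mul_one (star e), ← h3, mul_add, ← mul_assoc, h4, zero_mul, zero_add]
  have h6 : star e = e := by
    have := congrArg star h5
    rw [star_mul, star_star, h5] at this
    exact this
  refine ⟨e, by rwa [h6] at h5, h6, ?_, ?_⟩
  · rw [he]
    nth_rewrite 2 [hgX]
    nth_rewrite 3 [hgX]
    rw [← map_mul, ← map_mul, mul_comm]
  · have c1 : IsCoprime (1 + (X - 1) * (1 - 2 * (v * q))) q := by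
      rw [show 1 + (X - 1) * (1 - 2 * (v * q)) = X + q * (v * (2 - 2 * X)) by ring]
      exact hc.add_mul_left_left _
    have c2 : IsCoprime (1 + (X - 1) * (1 - 2 * (v * q))) X := by
      rw [show 1 + (X - 1) * (1 - 2 * (v * q)) = 2 + X * (1 - 2 * (v * q) - 2 * u * X ^ N) by
        linear_combination 2 * huv]
      refine IsCoprime.add_mul_left_left ⟨C 2⁻¹, 0, ?_⟩ _
      rw [zero_mul, add_zero, show (2 : K[X]) = C 2 from rfl, ← C_mul, inv_mul_cancel₀ h2, C_1]
    obtain ⟨s, t, hst⟩ := (c2.pow_right (n := N + 1)).mul_right c1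
    have e1 : 1 + g * (1 - 2 * e) = aeval (1 + g) (1 + (X - 1) * (1 - 2 * (v * q))) := by
      rw [map_add, map_mul, ← hgX, map_sub, map_mul, ← he, map_one, map_ofNat]
    have e2 := congrArg (aeval (1 + g)) hst
    rw [map_add, hz, add_zero, map_one] at e2
    rw [e1]
    exact ⟨⟨_, aeval (1 + g) s, by rw [← map_mul, mul_comm, e2], by rw [← map_mul, e2]⟩, rfl⟩

end Pool.Agent.P.MP_46a8f8_ag.GU
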