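import Pool.Agent.P.MP_46a8f8_ag.GU.Sm
import Pool.Agent.P.MP_46a8f8_ag.QGeo

/-!
A polynomial presentation in which a monic polynomial is nilpotent modulo `F` and the base.
-/

namespace Pool.Agent.P.MP_46a8f8_ag.GU

open Polynomial IsLocalRing Function

universe u

open QGeoP in
theorem pG1 : S_G1.{u} := by
  intro B R _ _ _ _ _ _ _ _ m φ F hE hP hF hn
  have hm : (maximalIdeal B).map (algebraMap B R) ≤ maximalIdeal R :=
    le_maximalIdeal hP.ne_top
  have hFm : Ideal.span {F} ≤ maximalIdeal R := (Ideal.span_singleton_le_iff_mem _).2 hF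
  obtain ⟨P, hP1, hP2⟩ := exists_rad hE _ (Ideal.span {F} ⊔ (maximalIdeal B).map (algebraMap B R))
    le_sup_right fun hle => hn ((Ideal.span_singleton_le_iff_mem _).1 (le_sup_left.trans hle))
  have hmap : ∀ {C : Type u} [CommRing C] [Algebra B C] (f : C →ₐ[B] R) (x : C),
      x ∈ (maximalIdeal B).map (algebraMap B C) → f x ∈ (maximalIdeal B).map (algebraMap B R) :=
    fun f x hx => by
      have := Ideal.mem_map_of_mem (f : _ →+* R) hx
      rwa [Ideal.map_map, AlgHom.comp_algebraMap] at this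
  have hP3 : P ∉ (maximalIdeal B).map (algebraMap B (MvPolynomial (Fin m) B)) :=
    fun hx => hP1 (hmap φ P hx)
  cases m with
  | zero =>
    exfalso
    obtain ⟨b, rfl⟩ := MvPolynomial.C_surjective (Fin 0) P
    have hb : IsUnit b := by
      by_contra hb
      exact hP3 (Ideal.mem_map_of_mem _ ((mem_maximalIdeal _).2 hb))
    have h1 := (Ideal.IsPrime.radical_le_iff inferInstance).2 (sup_le hFm hm) hP2
    exact (mem_maximalIdeal _).1 h1 ((hb.map MvPolynomial.C).map _)
  | succ m =>
    obtain ⟨e, Q, c, hQ, hc⟩ := nagata B m P hP3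
    let f : (MvPolynomial (Fin m) B)[X] →ₐ[B] R := φ.comp e.symm.toAlgHom
    have hf : EE (f : (MvPolynomial (Fin m) B)[X] →+* R) := EE.comp hE e.symm.bijective
    refine ⟨MvPolynomial (Fin m) B, inferInstance, inferInstance, f, hf, ?_⟩
    have h1 := hmap f _ hc
    have h2 : f (e P) = φ P := by simp [f]
    rw [map_sub, h2, map_smul] at h1
    have h3 : (c : B) • f Q ∈
        (Ideal.span {F} ⊔ (maximalIdeal B).map (algebraMap B R)).radical := by
      have := Ideal.sub_mem _ hP2 (Ideal.le_radical (Ideal.mem_sup_right h1))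
      simpa using this
    have h4 := Submodule.smul_of_tower_mem _ (↑c⁻¹ : B) h3
    rw [smul_smul, Units.inv_mul, one_smul] at h4
    obtain ⟨N, hN⟩ := h4
    refine ⟨Q, N, hQ, (?_ : Ideal.span {F} ⊔ (maximalIdeal B).map (algebraMap B R) ≤ _) hN⟩
    refine sup_le_sup_left (Ideal.map_le_iff_le_comap.2 fun b hb => ?_) _
    have e1 : (f : (MvPolynomial (Fin m) B)[X] →+* R).comp C (MvPolynomial.C b) =
        algebraMap B R b := f.commutes b
    rw [Ideal.mem_comap, ← e1]
    refine Ideal.mem_map_of_mem _ ?_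
    rw [Ideal.mem_comap, e1]
    exact hm (Ideal.mem_map_of_mem _ hb)

end Pool.Agent.P.MP_46a8f8_ag.GU
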