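import Pool.Agent.P.MP_46a8f8_ag.GU.Sm
import Pool.Agent.P.MP_46a8f8_ag.Struct
import Pool.Agent.P.MP_46a8f8_ag.QLift

/-!
The finite algebra with a principal section ideal.
-/

namespace Pool.Agent.P.MP_46a8f8_ag.GU

open TensorProduct Function IsLocalRing Polynomial

universe u

namespace G2P

open QLiftP

variable {R' R B D : Type u} [CommRing R'] [CommRing R] [Algebra R' R] [CommRing B] [Algebra R' B]
  [CommRing D] [Algebra R D] [Algebra R' D] [IsScalarTower R' R D] [Algebra B D]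
  [IsScalarTower R' B D]

omit [Algebra R D] [Algebra R' D] [IsScalarTower R' R D] [IsScalarTower R' B D] in
theorem reg [Algebra R'[X] R] [IsScalarTower R' R'[X] R] [Module.Flat R'[X] R]
    (hB : Injective (algebraMap B D)) (s₀ α : B) (hs₀ : IsUnit (algebraMap B D s₀)) :
    IsSMulRegular (R ⊗[R'] B) (algebraMap R'[X] R X ⊗ₜ[R'] s₀ - (1 : R) ⊗ₜ[R'] α) := by
  have hS : Injective (Algebra.lsmul R' R' B s₀ : B →ₗ[R'] B) := by
    intro x y hxy
    have h1 : s₀ • x = s₀ • y := hxy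
    have h2 := congrArg (algebraMap B D) h1
    rw [smul_eq_mul, smul_eq_mul, map_mul, map_mul] at h2
    exact hB (hs₀.mul_left_cancel h2)
  have h1 := flat_inj R (Algebra.lsmul R' R' B s₀ : B →ₗ[R'] B) (Algebra.lsmul R' R' B α) hS
  have key : ∀ e : R ⊗[R'] B, (algebraMap R'[X] R X ⊗ₜ[R'] s₀ - (1 : R) ⊗ₜ[R'] α) • e =
      (algebraMap R'[X] R X • (Algebra.lsmul R' R' B s₀ : B →ₗ[R'] B).baseChange R -
        (Algebra.lsmul R' R' B α : B →ₗ[R'] B).baseChange R) e := by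
    intro e
    induction e using TensorProduct.induction_on with
    | zero => simp
    | tmul r n =>
      rw [smul_eq_mul, sub_mul, Algebra.TensorProduct.tmul_mul_tmul,
        Algebra.TensorProduct.tmul_mul_tmul, one_mul]
      simp [Algebra.smul_def]
    | add x y hx hy => rw [smul_add, map_add, hx, hy]
  intro x y hxy
  exact h1 (by rw [← key, ← key]; exact hxy)

theorem sec (F : R) (hF : algebraMap R D F = 0) (hR : Surjective (algebraMap R D))
    (hB : Injective (algebraMap B D))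
    (hfr : ∀ d : D, ∃ a s : B, IsUnit (algebraMap B D s) ∧ algebraMap B D s * d = algebraMap B D a)
    (g : R ⊗[R'] B) (hg : ∀ z, mu R' R B D z = 0 → g ∣ z) : Sec F g := by
  let a : R ⊗[R'] B →+* Localization (On g) := algebraMap _ _
  have hunit : ∀ s : B, IsUnit (algebraMap B D s) → IsUnit (a ((1 : R) ⊗ₜ s)) := by
    intro s hs
    obtain ⟨d, hd⟩ := hs.exists_left_inv
    obtain ⟨r, rfl⟩ := hR d
    have h1 : r ⊗ₜ[R'] s ∈ On g := hg _ (by rw [map_sub, mu_tmul, hd, map_one, sub_self])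
    have h3 : IsUnit (a (r ⊗ₜ[R'] s)) := IsLocalization.map_units _ (⟨_, h1⟩ : On g)
    have h4 : r ⊗ₜ[R'] s = (r ⊗ₜ[R'] (1 : B)) * ((1 : R) ⊗ₜ[R'] s) := by simp
    rw [h4, map_mul] at h3
    exact isUnit_of_mul_isUnit_right h3
  let S : Submonoid B := (IsUnit.submonoid D).comap (algebraMap B D)
  have hloc : IsLocalization S D := by
    rw [isLocalization_iff]
    refine ⟨fun y => y.2, fun d => ?_, fun {x y} h => ⟨1, by rw [hB h]⟩⟩
    obtain ⟨a, s, hs, h⟩ := hfr d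
    exact ⟨(a, ⟨s, hs⟩), by rw [mul_comm]; exact h⟩
  let j : B →+* Localization (On g) :=
    a.comp (Algebra.TensorProduct.includeRight : B →ₐ[R'] R ⊗[R'] B).toRingHom
  let lam : D →+* Localization (On g) :=
    IsLocalization.lift (M := S) (g := j) (fun y => hunit y.1 y.2)
  have hlam : ∀ b, lam (algebraMap B D b) = a ((1 : R) ⊗ₜ b) := fun b =>
    IsLocalization.lift_eq _ b
  refine ⟨lam.comp (algebraMap R D), by rw [RingHom.comp_apply, hF, map_zero], fun r => ?_⟩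
  obtain ⟨b, s, hs, h⟩ := hfr (algebraMap R D r)
  rw [← (hunit s hs).dvd_mul_right]
  change a g ∣ (lam (algebraMap R D r) - a (algebraMap R (R ⊗[R'] B) r)) * a ((1 : R) ⊗ₜ s)
  have h5 : algebraMap R (R ⊗[R'] B) r * ((1 : R) ⊗ₜ[R'] s) = r ⊗ₜ[R'] s := by
    simp [Algebra.TensorProduct.algebraMap_apply]
  rw [sub_mul, ← map_mul a, h5, ← hlam, ← map_mul, mul_comm, h, hlam, ← map_sub]
  refine map_dvd a (hg _ ?_)
  rw [map_sub, mu_tmul, mu_tmul, map_one, one_mul, mul_comm, h, sub_self]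

theorem main [IsNoetherianRing R] [IsLocalRing R] [Algebra R'[X] R] [IsScalarTower R' R'[X] R]
    [Module.Flat R'[X] R] [Algebra.FormallyUnramified R'[X] R] [Module.Finite R' B] (F : R)
    (hF : ∀ r, algebraMap R D r = 0 ↔ F ∣ r) (hR : Surjective (algebraMap R D))
    (hB : Injective (algebraMap B D))
    (hfr : ∀ d : D, ∃ a s : B, IsUnit (algebraMap B D s) ∧ algebraMap B D s * d = algebraMap B D a) :
    ∃ g : R ⊗[R'] B, IsSMulRegular (R ⊗[R'] B) g ∧
      (∀ t : R ⊗[R'] B, ∃ r : R, g ∣ t - algebraMap R (R ⊗[R'] B) r) ∧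
      (∀ r : R, g ∣ algebraMap R (R ⊗[R'] B) r ↔ F ∣ r) ∧ Sec F g := by
  obtain ⟨α, s₀, hs₀, hα⟩ := hfr (algebraMap R D (algebraMap R'[X] R X))
  have : IsNoetherianRing (R ⊗[R'] B) := isNoetherianRing_alg R _
  have : Finite (MaximalSpectrum (R ⊗[R'] B)) := finite_maximalSpectrum R _
  have hreg := reg (R' := R') (R := R) hB s₀ α hs₀
  obtain ⟨g, e1, e2⟩ := prin (N := R ⊗[R'] B) (RingHom.ker (mu R' R B D))
    (algebraMap R'[X] R X ⊗ₜ[R'] s₀ - (1 : R) ⊗ₜ[R'] α) 1 1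
    (by rw [RingHom.mem_ker, map_sub, mu_tmul, mu_tmul, map_one, one_mul, mul_comm, hα, sub_self])
    (ker_le hR hB hfr s₀ α hs₀ hα) (by simp)
    (fun y hy => ⟨0, by
      rw [pow_zero, one_smul]
      exact hreg (hy.trans (smul_zero _).symm)⟩)
  have hg : ∀ z, mu R' R B D z = 0 ↔ g ∣ z := fun z => by
    rw [← Ideal.mem_span_singleton, ← e1, RingHom.mem_ker]
  refine ⟨g, e2, fun t => ?_, fun r => ?_,
    sec F ((hF F).2 dvd_rfl) hR hB hfr g fun z => (hg z).1⟩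
  · obtain ⟨r, hr⟩ := hR (mu R' R B D t)
    exact ⟨r, (hg _).1 (by rw [map_sub, AlgHom.commutes, hr, sub_self])⟩
  · rw [← hg, AlgHom.commutes, hF]

end G2P

theorem pG2 : S_G2.{u} := by
  intro R R' _ _ _ _ _ φ' F Q N ⟨f1, f2, f3⟩ hF hQ hQN
  let _ : Algebra R'[X] R := φ'.toAlgebra
  let _ : Algebra R' R := (φ'.comp C).toAlgebra
  have : IsScalarTower R' R'[X] R := IsScalarTower.of_algebraMap_eq fun _ => rfl
  have : Module.Flat R'[X] R := f1
  have : Algebra.FormallyUnramified R'[X] R := f2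
  have : Algebra.EssFiniteType R'[X] R := f3
  set 𝔭 : Ideal R := Ideal.span {F} with h𝔭
  have hne : 𝔭 ≠ ⊤ := fun h => (maximalIdeal.isMaximal R).ne_top
    (top_le_iff.1 (h ▸ (Ideal.span_singleton_le_iff_mem _).2 hF))
  have : Nontrivial (R ⧸ 𝔭) := Ideal.Quotient.nontrivial_iff.2 hne
  have : IsLocalRing (R ⧸ 𝔭) :=
    IsLocalRing.of_surjective' (Ideal.Quotient.mk 𝔭) Ideal.Quotient.mk_surjective
  have : Algebra.EssFiniteType R'[X] (R ⧸ 𝔭) := Algebra.EssFiniteType.comp R'[X] R (R ⧸ 𝔭)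
  have hloc : (maximalIdeal (R ⧸ 𝔭)).comap (Ideal.Quotient.mk 𝔭) = maximalIdeal R :=
    IsLocalRing.eq_maximalIdeal
      (Ideal.comap_isMaximal_of_surjective _ Ideal.Quotient.mk_surjective)
  have hQD : algebraMap R'[X] (R ⧸ 𝔭) Q ^ N ∈
      ((maximalIdeal (R ⧸ 𝔭)).comap (algebraMap R' (R ⧸ 𝔭))).map (algebraMap R' (R ⧸ 𝔭)) := by
    have e := Ideal.mem_map_of_mem (Ideal.Quotient.mk 𝔭) hQN
    rw [Ideal.map_sup, Ideal.map_quotient_self, bot_sup_eq, Ideal.map_map, ← hloc,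
      Ideal.comap_comap, map_pow] at e
    exact e
  obtain ⟨Db, hDb, hDs⟩ := zmt R' (R ⧸ 𝔭) Q N hQ hQD
  obtain ⟨g, hg⟩ := G2P.main (R' := R') (B := Db) (D := R ⧸ 𝔭) F
    (fun r => Ideal.Quotient.eq_zero_iff_mem.trans Ideal.mem_span_singleton)
    Ideal.Quotient.mk_surjective Subtype.val_injective (fun d => by
      obtain ⟨a, s, ha, hs, hu, h⟩ := hDs d
      exact ⟨⟨a, ha⟩, ⟨s, hs⟩, hu, h⟩)
  exact ⟨R ⊗[R'] Db, inferInstance, inferInstance, inferInstance, g, hg⟩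

end Pool.Agent.P.MP_46a8f8_ag.GU
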