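import Pool.Agent.P.MP_46a8f8_ag.GU.Sm

/-!
From a finite algebra with a section near `g = 0` to a monogenic free algebra.
-/

namespace Pool.Agent.P.MP_46a8f8_ag.GU

open Function IsLocalRing Polynomial

universe u

namespace G3P

section

variable {R T : Type u} [CommRing R] [CommRing T] [Algebra R T]

theorem aeval_split (g : T) (P : R[X]) :
    aeval g P = algebraMap R T (P.coeff 0) + g * aeval g P.divX := by
  conv_lhs => rw [← X_mul_divX_add P]
  simp only [map_add, map_mul, aeval_X, aeval_C]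
  ring

theorem dvd_aeval_sub (g : T) (P : R[X]) : g ∣ aeval g P - algebraMap R T (P.coeff 0) := by
  rw [aeval_split g P]
  exact ⟨aeval g P.divX, by ring⟩

theorem one_mod {g : T} {s : R[X]} (hs : X ∣ s - 1) : g ∣ aeval g s - 1 := by
  obtain ⟨c, hc⟩ := hs
  have : aeval g s - 1 = aeval g (s - 1) := by simp
  rw [this, hc]
  simp

/-- a polynomial congruent to one that moves `T` into the subalgebra generated by `g` -/
theorem exists_s [Module.Finite R T] (g : T) (hg : ∀ t : T, ∃ r : R, g ∣ t - algebraMap R T r) :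
    ∃ s : R[X], X ∣ s - 1 ∧ ∀ t : T, ∃ P : R[X], aeval g P = aeval g s * t := by
  let _ : Algebra R[X] T := (aeval g : R[X] →ₐ[R] T).toRingHom.toAlgebra
  have ha : ∀ P : R[X], algebraMap R[X] T P = aeval g P := fun _ => rfl
  have _ : IsScalarTower R R[X] T := IsScalarTower.of_algebraMap_eq fun r => by
    rw [ha]; simp
  have _ : Module.Finite R[X] T := Module.Finite.of_restrictScalars_finite R R[X] T
  have hle : (⊤ : Submodule R[X] T) ≤
      (1 : Submodule R[X] T) ⊔ (Ideal.span {(X : R[X])}) • (⊤ : Submodule R[X] T) := by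
    intro t _
    obtain ⟨r, c, hc⟩ := hg t
    have e : t = algebraMap R[X] T (C r) + (X : R[X]) • c := by
      rw [Algebra.smul_def, ha, ha, aeval_C, aeval_X, ← hc]
      ring
    rw [e]
    exact Submodule.add_mem_sup (Submodule.algebraMap_mem _)
      (Submodule.smul_mem_smul (Ideal.mem_span_singleton_self _) Submodule.mem_top)
  obtain ⟨s, hs, hs'⟩ := Submodule.exists_sub_one_mem_and_smul_le_of_fg_of_le_sup
    (Module.Finite.fg_top (R := R[X]) (M := T)) le_rfl hle
  refine ⟨s, Ideal.mem_span_singleton.1 hs, fun t => ?_⟩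
  obtain ⟨P, hP⟩ := Submodule.mem_one.1
    (hs' (Submodule.smul_mem_pointwise_smul t s ⊤ Submodule.mem_top))
  exact ⟨P, by rw [← ha, hP, Algebra.smul_def, ha]⟩

/-- a monic polynomial killing `g` with constant term `F` -/
theorem exists_Q [Nontrivial R] [Module.Finite R T] {F : R} {g : T} {s : R[X]} (hs : X ∣ s - 1)
    (hs' : ∀ t : T, ∃ P : R[X], aeval g P = aeval g s * t) (hF : g ∣ algebraMap R T F) :
    ∃ Q : R[X], Q.Monic ∧ 0 < Q.natDegree ∧ Q.coeff 0 = F ∧ aeval g Q = 0 := by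
  obtain ⟨g₁, hg₁⟩ := hF
  obtain ⟨P₁, hP₁⟩ := hs' g₁
  obtain ⟨χ, hχ, hχ'⟩ : IsIntegral R g := Algebra.IsIntegral.isIntegral g
  set Q₀ : R[X] := s * C F - X * P₁ with hQ₀
  have h0 : aeval g Q₀ = 0 := by
    simp only [hQ₀, map_sub, map_mul, aeval_C, aeval_X, hP₁, hg₁]
    ring
  have hs0 : s.coeff 0 = 1 := by
    have := X_dvd_iff.1 hs
    rw [coeff_sub, coeff_one_zero, sub_eq_zero] at this
    exact this
  have hc : Q₀.coeff 0 = F := by
    simp [hQ₀, hs0]
  have hm : (X ^ (Q₀.natDegree + 1) * χ).Monic := (monic_X_pow _).mul hχ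
  have hd : (X ^ (Q₀.natDegree + 1) * χ).natDegree = Q₀.natDegree + 1 + χ.natDegree := by
    rw [(monic_X_pow _).natDegree_mul hχ, natDegree_X_pow]
  have hlt : Q₀.natDegree < (X ^ (Q₀.natDegree + 1) * χ).natDegree := by omega
  refine ⟨X ^ (Q₀.natDegree + 1) * χ + Q₀, hm.add_of_left (degree_lt_degree hlt), ?_, ?_, ?_⟩
  · rw [natDegree_add_eq_left_of_natDegree_lt hlt]
    omega
  · rw [coeff_add, hc, pow_succ', mul_assoc, coeff_X_mul_zero, zero_add]
  · have : aeval g χ = 0 := hχ'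
    simp [h0, this]

theorem reg_loc {g : T} (hg : IsSMulRegular T g) {t : T}
    (h : algebraMap T (Localization (On g)) (g * t) = 0) :
    algebraMap T (Localization (On g)) t = 0 := by
  obtain ⟨m, hm⟩ := (IsLocalization.map_eq_zero_iff (On g) _ _).1 h
  refine (IsLocalization.map_eq_zero_iff (On g) _ _).2 ⟨m, hg ?_⟩
  simp only [smul_eq_mul, mul_zero]
  linear_combination hm

theorem dvd_of_zero {g t : T} (h : algebraMap T (Localization (On g)) t = 0) : g ∣ t := by
  obtain ⟨⟨m, c, hc⟩, hm⟩ := (IsLocalization.map_eq_zero_iff (On g) _ _).1 h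
  exact ⟨-(c * t), by linear_combination hm - t * hc⟩

/-- the kernel of the map to the localisation is generated by `Q` near zero -/
theorem exists_u [IsNoetherianRing R] {F : R} {g : T} (hg : IsSMulRegular T g)
    (hF : ∀ r : R, g ∣ algebraMap R T r → F ∣ r) {Q : R[X]} (hc : Q.coeff 0 = F)
    (hQ : aeval g Q = 0) :
    ∃ u : R[X], X ∣ u - 1 ∧ ∀ P : R[X],
      algebraMap T (Localization (On g)) (aeval g P) = 0 → Q ∣ u * P := by
  let a : Ideal R[X] := RingHom.ker ((algebraMap T (Localization (On g))).comp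
    (aeval g : R[X] →ₐ[R] T).toRingHom)
  have ha : ∀ P : R[X], P ∈ a ↔ algebraMap T (Localization (On g)) (aeval g P) = 0 :=
    fun _ => Iff.rfl
  have hle : a ≤ Ideal.span {Q} ⊔ Ideal.span {(X : R[X])} • a := by
    intro P hP
    have h1 : g ∣ algebraMap R T (P.coeff 0) := by
      have := dvd_sub (dvd_of_zero ((ha P).1 hP)) (dvd_aeval_sub g P)
      simpa using this
    obtain ⟨c, hc'⟩ := hF _ h1
    have h2 : X ∣ P - C c * Q := by
      rw [X_dvd_iff, coeff_sub, coeff_C_mul, hc, hc']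
      ring
    obtain ⟨P₂, hP₂⟩ := h2
    have h3 : P₂ ∈ a := by
      rw [ha]
      apply reg_loc hg
      have : g * aeval g P₂ = aeval g P := by
        have := congrArg (aeval g) hP₂
        simp only [map_sub, map_mul, aeval_X, hQ, mul_zero, sub_zero] at this
        exact this.symm
      rw [this]
      exact (ha P).1 hP
    have e : P = C c * Q + (X : R[X]) • P₂ := by
      rw [smul_eq_mul, ← hP₂]
      ring
    rw [e]
    exact Submodule.add_mem_sup (Ideal.mul_mem_left _ _ (Ideal.mem_span_singleton_self _))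
      (Submodule.smul_mem_smul (Ideal.mem_span_singleton_self _) h3)
  obtain ⟨u, hu, hu'⟩ := Submodule.exists_sub_one_mem_and_smul_le_of_fg_of_le_sup
    (IsNoetherian.noetherian a) le_rfl hle
  refine ⟨u, Ideal.mem_span_singleton.1 hu, fun P hP => ?_⟩
  exact Ideal.mem_span_singleton.1 (hu' (Submodule.smul_mem_pointwise_smul P u a ((ha P).2 hP)))

end

section

variable {R : Type u} [CommRing R]

theorem root_mul {Q : R[X]} {F : R} (hc : Q.coeff 0 = F) :
    AdjoinRoot.root Q * -AdjoinRoot.mk Q Q.divX = algebraMap R (AdjoinRoot Q) F := by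
  have h := congrArg (AdjoinRoot.mk Q) (X_mul_divX_add Q)
  rw [map_add, map_mul, AdjoinRoot.mk_X, AdjoinRoot.mk_C, AdjoinRoot.mk_self, hc] at h
  rw [AdjoinRoot.algebraMap_eq]
  linear_combination -h

theorem perf_neg {C : Type u} [CommRing C] [Algebra R C] {τ : C →ₗ[R] R} (h : PerfTr τ) :
    PerfTr (-τ) := by
  have e : ⇑((LinearMap.mul R C).compr₂ (-τ)) = Neg.neg ∘ ⇑((LinearMap.mul R C).compr₂ τ) := by
    funext x
    ext y
    simp
  rw [PerfTr, e]
  exact neg_involutive.bijective.comp h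

/-- a section is carried back along a bijection of the localisations -/
theorem sec_of_bij {T T' : Type u} [CommRing T] [Algebra R T] [CommRing T'] [Algebra R T']
    (l : T' →ₐ[R] T) (y : T') {F : R}
    (Φ : Localization (On y) →+* Localization (On (l y))) (hΦ : Bijective Φ)
    (hc : ∀ t, Φ (algebraMap T' _ t) = algebraMap T _ (l t)) (h : Sec F (l y)) : Sec F y := by
  obtain ⟨j, hj, hj'⟩ := h
  let e := RingEquiv.ofBijective Φ hΦ
  have he : ∀ t, e.symm (algebraMap T _ (l t)) = algebraMap T' _ t := fun t => by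
    rw [RingEquiv.symm_apply_eq]
    exact (hc t).symm
  refine ⟨e.symm.toRingHom.comp j, by simp [hj], fun r => ?_⟩
  have := map_dvd e.symm (hj' r)
  rw [map_sub, ← l.commutes r, he, he] at this
  exact this

end

end G3P

open G3P in
theorem pG3 (h : S_G3t.{u}) : S_G3.{u} := by
  intro R T _ _ _ _ _ _ F g _ hg hgen hF hS
  obtain ⟨s, hs, hs'⟩ := exists_s g hgen
  obtain ⟨Q, hQm, hQd, hQc, hQ⟩ := exists_Q hs hs' ((hF F).2 dvd_rfl)
  obtain ⟨u, hu, hu'⟩ := exists_u hg (fun r => (hF r).1) hQc hQ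
  obtain ⟨τ, hτ, hτ'⟩ := h R Q hQm hQd
  obtain ⟨l, hl⟩ : ∃ l : AdjoinRoot Q →ₐ[R] T,
      ∀ P : R[X], l (AdjoinRoot.mk Q P) = aeval g P :=
    ⟨AdjoinRoot.liftAlgHom Q (Algebra.ofId R T) g hQ, fun P => rfl⟩
  have hly : l (AdjoinRoot.root Q) = g := by rw [← AdjoinRoot.mk_X, hl, aeval_X]
  have hmul := root_mul hQc
  refine ⟨AdjoinRoot Q, inferInstance, inferInstance, -τ, AdjoinRoot.root Q,
    -AdjoinRoot.mk Q Q.divX, ⟨hQm.free_adjoinRoot, hQm.finite_adjoinRoot, perf_neg hτ, hmul,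
      by simp [hτ'], fun t => ?_⟩, ?_⟩
  · obtain ⟨P, rfl⟩ := AdjoinRoot.mk_surjective t
    exact ⟨P.coeff 0, by rw [← AdjoinRoot.aeval_eq]; exact dvd_aeval_sub _ P⟩
  subst hly
  set y := AdjoinRoot.root Q with hy
  have hM : On y ≤ (On (l y)).comap (l : AdjoinRoot Q →+* T) := by
    intro t ht
    have : l y ∣ l (t - 1) := map_dvd l ht
    rw [map_sub, map_one] at this
    exact this
  let Φ : Localization (On y) →+* Localization (On (l y)) :=
    IsLocalization.map _ (l : AdjoinRoot Q →+* T) hM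
  have hc : ∀ t, Φ (algebraMap _ _ t) = algebraMap T _ (l t) := fun t =>
    IsLocalization.map_eq hM t
  refine sec_of_bij l y Φ ⟨?_, ?_⟩ hc hS
  · rw [injective_iff_map_eq_zero]
    intro z hz
    obtain ⟨⟨t, m⟩, rfl⟩ := IsLocalization.mk'_surjective (On y) z
    obtain ⟨P, rfl⟩ := AdjoinRoot.mk_surjective t
    have h1 : algebraMap T (Localization (On (l y))) (aeval (l y) P) = 0 := by
      rw [← hl, ← hc, ← IsLocalization.mk'_spec (Localization (On y)) _ m, map_mul, hz, zero_mul]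
    have h2 : AdjoinRoot.mk Q u * AdjoinRoot.mk Q P = 0 := by
      rw [← map_mul, AdjoinRoot.mk_eq_zero]
      exact hu' P h1
    have h3 : AdjoinRoot.mk Q u ∈ On y := by
      rw [← AdjoinRoot.aeval_eq]
      exact one_mod hu
    exact (IsLocalization.mk'_eq_zero_iff _ _).2 ⟨⟨_, h3⟩, h2⟩
  · intro z
    obtain ⟨⟨t, m⟩, rfl⟩ := IsLocalization.mk'_surjective (On (l y)) z
    obtain ⟨P, hP⟩ := hs' t
    obtain ⟨P', hP'⟩ := hs' m
    have hsm : aeval (l y) s ∈ On (l y) := one_mod hs
    have h1 : l y ∣ aeval (l y) P' - 1 := by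
      rw [hP']
      exact mul_mem hsm m.2
    have h2 : F ∣ P'.coeff 0 - 1 := by
      rw [← hF, map_sub, map_one]
      have := dvd_sub h1 (dvd_aeval_sub (l y) P')
      simpa using this
    have h3 : AdjoinRoot.mk Q P' ∈ On y := by
      have h4 : y ∣ algebraMap R (AdjoinRoot Q) (P'.coeff 0 - 1) :=
        (Dvd.intro _ hmul).trans (map_dvd _ h2)
      have h5 := dvd_add (dvd_aeval_sub y P') h4
      rw [map_sub, map_one, sub_add_sub_cancel, AdjoinRoot.aeval_eq] at h5
      exact h5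
    refine ⟨IsLocalization.mk' _ (AdjoinRoot.mk Q P) ⟨_, h3⟩, ?_⟩
    rw [IsLocalization.map_mk', IsLocalization.mk'_eq_iff_eq]
    congr 1
    change (m : T) * l (AdjoinRoot.mk Q P) = l (AdjoinRoot.mk Q P') * t
    rw [hl, hl, hP, hP']
    ring

end Pool.Agent.P.MP_46a8f8_ag.GU
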