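import Pool.Agent.P.MP_46a8f8_ag.GU.Sm

/-!
The top coefficient is a perfect trace on `R[X] ⧸ Q` for a monic polynomial `Q`.
-/

namespace Pool.Agent.P.MP_46a8f8_ag.GU

open Function Polynomial

universe u

namespace G3tP

variable {R : Type u} [CommRing R] [Nontrivial R] {Q : R[X]}

theorem mod_X_mul (hQ : Q.Monic) {n : ℕ} (hn : Q.natDegree = n + 1) {p : R[X]}
    (hp : p.degree < Q.degree) : (X * p) %ₘ Q = X * p - C (p.coeff n) * Q := by
  have hd : Q.degree = ((n + 1 : ℕ) : WithBot ℕ) := by rw [degree_eq_natDegree hQ.ne_zero, hn]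
  have h1 : (X * p - C (p.coeff n) * Q).degree < Q.degree := by
    rw [hd, degree_lt_iff_coeff_zero]
    intro m hm
    obtain ⟨k, rfl⟩ : ∃ k, m = k + 1 := ⟨m - 1, by omega⟩
    rw [coeff_sub, coeff_X_mul, coeff_C_mul]
    rcases Nat.eq_or_lt_of_le hm with h | h
    · have hk : k = n := by omega
      subst hk
      have : Q.coeff (k + 1) = 1 := by rw [← hn]; exact hQ.coeff_natDegree
      rw [this, mul_one, sub_self]
    · have h2 : Q.coeff (k + 1) = 0 := coeff_eq_zero_of_natDegree_lt (by omega)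
      have h3 : p.coeff k = 0 := by
        rw [hd, degree_lt_iff_coeff_zero] at hp
        exact hp k (by omega)
      rw [h2, h3, mul_zero, sub_self]
  refine (div_modByMonic_unique (C (p.coeff n)) _ hQ ⟨?_, h1⟩).2
  ring

theorem coeff_root_mul (hQ : Q.Monic) {n : ℕ} (hn : Q.natDegree = n + 1) (c : AdjoinRoot Q)
    (k : ℕ) :
    (AdjoinRoot.modByMonicHom hQ (AdjoinRoot.root Q * c)).coeff (k + 1) =
      (AdjoinRoot.modByMonicHom hQ c).coeff k -
        (AdjoinRoot.modByMonicHom hQ c).coeff n * Q.coeff (k + 1) := by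
  have hc := AdjoinRoot.mk_leftInverse hQ c
  have hp : (AdjoinRoot.modByMonicHom hQ c).degree < Q.degree := by
    obtain ⟨f, rfl⟩ := AdjoinRoot.mk_surjective c
    rw [AdjoinRoot.modByMonicHom_mk]
    exact degree_modByMonic_lt f hQ
  generalize AdjoinRoot.modByMonicHom hQ c = p at hc hp
  subst hc
  rw [← AdjoinRoot.mk_X, ← map_mul, AdjoinRoot.modByMonicHom_mk, mod_X_mul hQ hn hp, coeff_sub,
    coeff_X_mul, coeff_C_mul]

theorem exists_dual (hQ : Q.Monic) {n : ℕ} (hn : Q.natDegree = n + 1) (j : ℕ) :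
    ∀ k, k + j = n → ∃ v : AdjoinRoot Q, ∀ c,
      (AdjoinRoot.modByMonicHom hQ (v * c)).coeff n = (AdjoinRoot.modByMonicHom hQ c).coeff k := by
  induction j with
  | zero =>
    intro k hk
    obtain rfl : k = n := by omega
    exact ⟨1, fun c => by rw [one_mul]⟩
  | succ j ih =>
    intro k hk
    obtain ⟨v, hv⟩ := ih (k + 1) (by omega)
    refine ⟨v * AdjoinRoot.root Q + Q.coeff (k + 1) • 1, fun c => ?_⟩
    rw [add_mul, map_add, coeff_add, mul_assoc, hv, coeff_root_mul hQ hn, smul_mul_assoc, one_mul,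
      map_smul, coeff_smul, smul_eq_mul]
    ring

end G3tP

theorem pG3t : S_G3t.{u} := by
  intro R _ _ Q hQ h0
  obtain ⟨n, hn⟩ : ∃ n, Q.natDegree = n + 1 := ⟨Q.natDegree - 1, by omega⟩
  refine ⟨(lcoeff R n).comp (AdjoinRoot.modByMonicHom hQ), ?_, ?_⟩
  · have hs : Surjective ((LinearMap.mul R (AdjoinRoot Q)).compr₂
        ((lcoeff R n).comp (AdjoinRoot.modByMonicHom hQ))) := by
      intro φ
      rw [← (AdjoinRoot.powerBasisAux' hQ).sum_dual_apply_smul_coord φ]
      change _ ∈ LinearMap.range _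
      refine Submodule.sum_mem _ fun i _ => Submodule.smul_mem _ _ ?_
      obtain ⟨v, hv⟩ := G3tP.exists_dual hQ hn (n - i) i (by have := i.2; omega)
      refine ⟨v, LinearMap.ext fun c => ?_⟩
      rw [Module.Basis.coord_apply, AdjoinRoot.powerBasisAux'_repr_apply_to_fun, ← hv]
      rfl
    refine ⟨?_, hs⟩
    classical
    have : Module.Finite R (Module.Dual R (AdjoinRoot Q)) :=
      .of_basis (AdjoinRoot.powerBasisAux' hQ).dualBasis
    exact OrzechProperty.injective_of_surjective_of_injective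
      (AdjoinRoot.powerBasisAux' hQ).toDualEquiv.toLinearMap _
      (AdjoinRoot.powerBasisAux' hQ).toDualEquiv.injective hs
  · rw [LinearMap.comp_apply, AdjoinRoot.modByMonicHom_mk,
      (modByMonic_eq_self_iff hQ).2 (degree_divX_lt hQ.ne_zero), lcoeff_apply, coeff_divX, ← hn]
    exact hQ.coeff_natDegree

end Pool.Agent.P.MP_46a8f8_ag.GU
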