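import Pool.Agent.P.MP_46a8f8_ag.GU.So
import Pool.Agent.P.MP_46a8f8_ag.BC
import Pool.Agent.P.MP_46a8f8_ag.Asm2

/-!
Package Gen: an improper isometry over the fraction field gives a form of odd reduced rank.
-/

namespace Pool.Agent.P.MP_46a8f8_ag.GU

open TensorProduct Function Matrix IsLocalRing

universe u

namespace GenP

/-- a symmetric idempotent of odd reduced rank over a field -/
theorem odd (h1 : S_NSt.{u}) (h2 : S_IRk.{u}) (h3 : S_Fit.{u}) {K B Ω : Type u} [Field K]
    [Ring B] [Algebra K B] [StarRing B] [SA K B] [Field Ω] [Algebra K Ω] {n : ℕ}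
    {Φ : B →ₐ[K] Matrix (Fin n) (Fin n) Ω} (hS : Setup K B Ω n Φ) {g : B}
    (hg : g * star g = 1) (hg' : star g * g = 1) (hd : (Φ g).det = -1) :
    ∃ e : B, e * e = e ∧ star e = e ∧
      ¬ 2 * n ∣ Module.finrank K (LinearMap.range (LinearMap.mulRight K e)) := by
  have := hS.finite
  have h2K : (2 : K) ≠ 0 := (SA.two (R := K) (A := B)).ne_zero
  have h2O : (2 : Ω) ≠ 0 := by
    intro h
    apply h2K
    apply hS.inj
    rw [map_ofNat, h, map_zero]
  have hne : (1 : Ω) ≠ -1 := fun h => h2O (by linear_combination h)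
  obtain ⟨e, he, hse, -, hu⟩ := h3 K B h2K g hg hg'
  obtain ⟨r, hr, hdet⟩ := h2 K B Ω n Φ hS e he inferInstance
  refine ⟨e, he, hse, ?_⟩
  have hn : 0 < n := by
    rcases Nat.eq_zero_or_pos n with rfl | h
    · rw [Matrix.det_isEmpty] at hd
      exact absurd hd hne
    · exact h
  have hsu : star (1 - 2 * e) = 1 - 2 * e := by
    rw [two_mul, star_sub, star_add, star_one, hse]
  have huu : (1 - 2 * e) * (1 - 2 * e) = 1 := by
    rw [two_mul]
    simp only [mul_sub, sub_mul, mul_add, add_mul, he, mul_one, one_mul]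
    abel
  have hk : 1 + g * (1 - 2 * e) = g * (1 - 2 * e) * star (1 + g * (1 - 2 * e)) := by
    rw [star_add, star_one, star_mul, hsu, mul_add, mul_one, mul_assoc g, ← mul_assoc (1 - 2 * e),
      huu, one_mul, hg, add_comm]
  have hdu : (Φ (1 + g * (1 - 2 * e))).det ≠ 0 :=
    ((Matrix.isUnit_iff_isUnit_det _).1 (hu.map Φ)).ne_zero
  have h4 : (Φ (1 + g * (1 - 2 * e))).det =
      (Φ g).det * (Φ (1 - 2 * e)).det * (Φ (1 + g * (1 - 2 * e))).det := by
    conv_lhs => rw [hk]
    rw [map_mul, map_mul, Matrix.det_mul, Matrix.det_mul, h1 K B Ω n Φ hS]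
  have h5 : (Φ g).det * (Φ (1 - 2 * e)).det = 1 :=
    mul_right_cancel₀ hdu (by rw [← h4, one_mul])
  rw [hd, hdet] at h5
  rw [hr, mul_comm 2 n]
  intro hdiv
  obtain ⟨k, rfl⟩ := Nat.dvd_of_mul_dvd_mul_left hn hdiv
  rw [pow_mul, neg_one_sq, one_pow, mul_one] at h5
  exact hne h5.symm

/-- the trace form on the left ideal of a symmetric idempotent -/
theorem form {R A K B : Type u} [CommRing R] [Ring A] [Algebra R A] [StarRing A] [Field K]
    [Algebra R K] [Ring B] [Algebra K B] [StarRing B] [SA K B] (ι : A →+* B)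
    (hι : ∀ r, ι (algebraMap R A r) = algebraMap K B (algebraMap R K r))
    (hs : ∀ a, ι (star a) = star (ι a)) {τ : B →ₗ[K] K} {ε : ℤˣ} (hτ : Trc τ ε) {e : B}
    (he : e * e = e) (hse : star e = e) :
    ∃ W : FM R A K K, W.Good ε ∧ W.Perf ∧ Module.finrank K W.M =
      Module.finrank K (LinearMap.range (LinearMap.mulRight K e)) := by
  have : Module.Finite K B := SA.fin
  let X : RM R A K :=
    { M := B
      ρ := (Algebra.lmul K B).toRingHom.comp ι
      alg := fun r m => by
        change ι (algebraMap R A r) * m = _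
        rw [hι, Algebra.smul_def] }
  let N : Submodule K B := LinearMap.range (LinearMap.mulRight K e)
  have hN : X.Stab N := by
    rintro a _ ⟨x, rfl⟩
    exact ⟨ι a * x, mul_assoc _ _ _⟩
  let W : FM R A K K :=
    { toRM := X.sub N hN
      b := (HermP.Eh τ (1 : B)).b.compl₁₂ N.subtype N.subtype }
  have hb : ∀ x y : N, W.b x y = τ ((x : B) * star (y : B)) := fun x y => by
    change τ ((x : B) * 1 * star (y : B)) = _
    rw [mul_one]
  have hfin : Module.Finite K N := inferInstance
  have hinj : Injective W.b := by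
    refine (injective_iff_map_eq_zero _).2 fun (x : N) hx => ?_
    obtain ⟨x, y, hy⟩ := x
    have hxe : x * e = x := by
      rw [← hy]
      change y * e * e = y * e
      rw [mul_assoc, he]
    refine Subtype.ext (HermP.tr_ext hτ.perf fun z => ?_)
    have := LinearMap.congr_fun hx (⟨z * e, z, rfl⟩ : N)
    rw [hb] at this
    change τ (x * star (z * e)) = 0 at this
    rw [star_mul, hse, ← mul_assoc, hxe] at this
    change τ (x * star z) = τ (0 * star z)
    rw [this, zero_mul, map_zero]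
  refine ⟨W, ⟨hfin, fun a (x y : N) => ?_, fun x y : N => ?_⟩, ⟨hinj, ?_⟩, rfl⟩
  · rw [hb, hb]
    change τ (ι a * x * star (y : B)) = τ (x * star (ι (star a) * y))
    rw [hs, star_mul, star_star, mul_assoc (ι a), hτ.comm, mul_assoc]
  · rw [hb, hb, ← hτ.st, star_mul, star_star]
  · exact (LinearMap.injective_iff_surjective_of_finrank_eq_finrank (V := N)
      (V₂ := Module.Dual K N) Subspace.dual_finrank_eq.symm).1 hinj

/-- the rank of a principal left ideal is computed over the fraction field -/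
theorem rank {R A K : Type u} [CommRing R] [IsDomain R] [Ring A] [Algebra R A]
    [Field K] [Algebra R K] [IsFractionRing R K] {e : K ⊗[R] A} {e0 : A} {s : K} (hs : s ≠ 0)
    (h : s • e = (1 : K) ⊗ₜ[R] e0) :
    Module.finrank R (LinearMap.range (LinearMap.mulRight R e0)) =
      Module.finrank K (LinearMap.range (LinearMap.mulRight K e)) := by
  let N0 : Submodule R A := LinearMap.range (LinearMap.mulRight R e0)
  let N : Submodule K (K ⊗[R] A) := LinearMap.range (LinearMap.mulRight K e)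
  have : Module.Flat R K := IsLocalization.flat K (nonZeroDivisors R)
  have hinj : Injective (N0.subtype.baseChange K) :=
    Module.Flat.lTensor_preserves_injective_linearMap (M := K) N0.subtype N0.injective_subtype
  have hr : LinearMap.range (N0.subtype.baseChange K) = N := by
    apply le_antisymm
    · rintro _ ⟨y, rfl⟩
      induction y using TensorProduct.induction_on with
      | zero => rw [map_zero]; exact N.zero_mem
      | add y y' hy hy' => rw [map_add]; exact N.add_mem hy hy'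
      | tmul k x =>
        obtain ⟨_, a, rfl⟩ := x
        refine ⟨s • (k ⊗ₜ[R] a), ?_⟩
        change (s • (k ⊗ₜ[R] a)) * e = k ⊗ₜ[R] (a * e0)
        rw [smul_mul_assoc, ← mul_smul_comm, h, Algebra.TensorProduct.tmul_mul_tmul, mul_one]
    · rintro _ ⟨y, rfl⟩
      induction y using TensorProduct.induction_on with
      | zero => rw [map_zero]; exact Submodule.zero_mem _
      | add y y' hy hy' => rw [map_add]; exact Submodule.add_mem _ hy hy'
      | tmul k a =>
        refine ⟨s⁻¹ • (k ⊗ₜ[R] (⟨a * e0, a, rfl⟩ : N0)), ?_⟩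
        rw [map_smul]
        change s⁻¹ • (k ⊗ₜ[R] (a * e0)) = (k ⊗ₜ[R] a) * e
        have : k ⊗ₜ[R] (a * e0) = s • ((k ⊗ₜ[R] a) * e) := by
          rw [← mul_smul_comm, h, Algebra.TensorProduct.tmul_mul_tmul, mul_one]
        rw [this, inv_smul_smul₀ hs]
  have hbc : Module.finrank K (K ⊗[R] N0) = Module.finrank R N0 :=
    (TensorProduct.isBaseChange R N0 K).finrank_eq
  change Module.finrank R N0 = Module.finrank K N
  rw [← hr, LinearMap.finrank_range_of_inj hinj, hbc]

end GenP

theorem pGen (h1 : S_NSt.{u}) (h2 : S_IRk.{u}) (h3 : S_Fit.{u}) (h4 : S_Bcg.{u}) :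
    S_Gen.{u} := by
  intro R A Ω _ _ _ _ _ _ _ _ n Φ τ ε c d hS hτ hd hc hc' hdet
  let K := FractionRing R
  letI : Algebra K Ω := (IsFractionRing.lift (K := K) hS.inj).toAlgebra
  have hKO : ∀ r : R, algebraMap K Ω (algebraMap R K r) = algebraMap R Ω r := fun r =>
    IsFractionRing.lift_algebraMap (K := K) hS.inj r
  obtain ⟨Φ', hS', hΦ'⟩ := bc R A Ω K Ω n Φ hS hKO (algebraMap K Ω).injective
  have hΦ : ∀ a : A, Φ' ((1 : K) ⊗ₜ[R] a) = Φ a := fun a => by
    rw [hΦ']
    rfl
  letI := bcStar R A K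
  obtain ⟨hSA, hT⟩ := h4 R A K
  obtain ⟨τ', hτ'⟩ := hT τ ε hτ
  have hst : ∀ a : A, star ((1 : K) ⊗ₜ[R] a) = (1 : K) ⊗ₜ[R] star a := fun a => rfl
  have hdK : algebraMap R K d ≠ 0 := (map_ne_zero_iff _ (IsFractionRing.injective R K)).2 hd
  have hone : (1 : K) ⊗ₜ[R] algebraMap R A (d * d) =
      (algebraMap R K d * algebraMap R K d) • (1 : K ⊗[R] A) := by
    rw [Algebra.algebraMap_eq_smul_one (A := A), TensorProduct.tmul_smul, ← map_mul,
      algebraMap_smul]
    rfl
  have hun : ∀ x y : A, x * y = algebraMap R A (d * d) →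
      ((algebraMap R K d)⁻¹ • ((1 : K) ⊗ₜ[R] x)) * ((algebraMap R K d)⁻¹ • ((1 : K) ⊗ₜ[R] y)) =
        (1 : K ⊗[R] A) := fun x y h => by
    rw [smul_mul_smul_comm, Algebra.TensorProduct.tmul_mul_tmul, h, mul_one, hone, smul_smul,
      ← mul_inv, inv_mul_cancel₀ (mul_ne_zero hdK hdK), one_smul]
  obtain ⟨e, he, hse, hn⟩ := GenP.odd h1 h2 h3 hS'
    (g := (algebraMap R K d)⁻¹ • ((1 : K) ⊗ₜ[R] c))
    (by rw [HermP.star_smul', hst]; exact hun _ _ hc)
    (by rw [HermP.star_smul', hst]; exact hun _ _ hc')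
    (by
      have hdO : algebraMap R Ω d ≠ 0 := (map_ne_zero_iff _ hS.inj).2 hd
      rw [map_smul, hΦ, ← algebraMap_smul Ω, Matrix.det_smul, hdet, map_inv₀, hKO,
        Fintype.card_fin, inv_pow, mul_neg, inv_mul_cancel₀ (pow_ne_zero n hdO)])
  refine ⟨?_, ?_⟩
  · obtain ⟨W, hW, hP, hr⟩ := GenP.form (R := R) (K := K)
      (Algebra.TensorProduct.includeRight (R := R) (A := K) (B := A)).toRingHom
      (fun r => (Algebra.TensorProduct.includeRight (R := R) (A := K) (B := A)).commutes r |>.trans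
        (IsScalarTower.algebraMap_apply R K (K ⊗[R] A) r))
      (fun a => (hst a).symm) hτ' he hse
    exact ⟨W, hW, hP, hr ▸ hn⟩
  · obtain ⟨s, e0, hs⟩ := exists_smul_eq_one_tmul (A := A) (nonZeroDivisors R) K e
    have hs0 : algebraMap R K s ≠ 0 :=
      (map_ne_zero_iff _ (IsFractionRing.injective R K)).2 (nonZeroDivisors.ne_zero s.2)
    have := hS.finite
    have hN : (RM.reg R A).Stab (LinearMap.range (LinearMap.mulRight R e0)) := by
      rintro a _ ⟨x, rfl⟩
      exact ⟨a * x, mul_assoc _ _ _⟩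
    refine ⟨(RM.reg R A).sub _ hN, ?_, ?_⟩
    · exact Module.Finite.range (LinearMap.mulRight R e0)
    · rw [← GenP.rank hs0 hs] at hn
      exact hn

end Pool.Agent.P.MP_46a8f8_ag.GU
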