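import Pool.Agent.P.MP_46a8f8_ag.GU.Sm

/-!
Package Herm2: hermitian units which are norms away from a divisor with a geometric presentation.
-/

namespace Pool.Agent.P.MP_46a8f8_ag.GU

open TensorProduct Function Matrix IsLocalRing

universe u

namespace Herm2P

variable {R A : Type u} [CommRing R] [Ring A] [Algebra R A] [StarRing A] [SA R A]

/-- the similitude to the hyperbolic space -/
def ph (τ : A →ₗ[R] R) (c : A) (d t : R) : (A × A) →ₗ[R] A × Module.Dual R A :=
  LinearMap.prod ((LinearMap.mulRight R c).coprod (d • LinearMap.id))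
    (t • ((HermP.Eh τ (1 : A)).b ∘ₗ (LinearMap.mulRight R c).coprod (-(d • LinearMap.id))))

theorem ph_fst (τ : A →ₗ[R] R) (c : A) (d t : R) (x x' : A) :
    (ph τ c d t (x, x')).1 = x * c + d • x' := rfl

theorem ph_snd (τ : A →ₗ[R] R) (c : A) (d t : R) (x x' y : A) :
    (ph τ c d t (x, x')).2 y = t * τ ((x * c - d • x') * star y) := by
  change t * τ ((x * c + -(d • x')) * 1 * star y) = _
  rw [mul_one, ← sub_eq_add_neg]

end Herm2P

open Herm2P in
theorem pHerm2 (h0 : S_SM.{u}) (h1 : S_HC2.{u}) (h2 : S_Graph.{u}) : S_Herm2.{u} := by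
  intro R A _ _ _ _ _ _ _ _ τ ε ⟨htr, hp, hst⟩ hrk h c c' d d' hh hd hd' e1 e2 hgeo
  have := SA.free (R := R) (A := A)
  have := SA.fin (R := R) (A := A)
  have s1 := HermP.eh_sp htr hp hst h hh
  have s2 : (HermP.Eh τ (1 : A)).Sp ε := HermP.eh_sp htr hp hst 1 (star_one A)
  have s3 := s1.sum s2.neg
  obtain ⟨t, ht⟩ := (SA.two (R := R) (A := A)).exists_left_inv
  have hn : ((HermP.Eh τ (h : A)).sum (HermP.Eh τ (1 : A)).neg).WNull ε := by
    refine h0 R A ε _ (RM.reg R A) (ph τ c d t) (d * d) (d * d') s3 ⟨SA.free, SA.fin⟩ ?_ ?_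
      (mul_ne_zero hd hd) (mul_ne_zero hd hd') ?_ hgeo
    · rintro a ⟨x : A, x' : A⟩
      refine Prod.ext ?_ (LinearMap.ext fun y : A => ?_)
      · change (ph τ c d t (a * x, a * x')).1 = a * (ph τ c d t (x, x')).1
        rw [ph_fst, ph_fst, mul_add, mul_assoc, mul_smul_comm]
      · change (ph τ c d t (a * x, a * x')).2 y = (ph τ c d t (x, x')).2 (star a * y)
        rw [ph_snd, ph_snd, star_mul, star_star, ← mul_assoc _ (star y), htr _ a, mul_assoc a,
          ← mul_smul_comm, ← mul_sub, mul_assoc a]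
    · rintro ⟨x : A, x' : A⟩ ⟨y : A, y' : A⟩
      change (ph τ c d t (x, x')).2 (ph τ c d t (y, y')).1 +
        ε • (ph τ c d t (y, y')).2 (ph τ c d t (x, x')).1 =
          d * d * (τ (x * h * star y) + -τ (x' * 1 * star y'))
      rw [ph_snd, ph_snd, ph_fst, ph_fst, ← mul_smul_comm, ← hst, star_mul, star_star]
      have e3 : τ (x * c * (star c * star y)) = d * d * τ (x * h * star y) := by
        rw [← mul_assoc, mul_assoc x, e1, mul_smul_comm, smul_mul_assoc, map_smul, smul_eq_mul]
      simp only [star_add, star_sub, star_mul, HermP.star_smul', mul_add, add_mul, mul_sub, sub_mul,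
        mul_smul_comm, smul_mul_assoc, map_add, map_sub, map_smul, smul_eq_mul, mul_one, e3]
      linear_combination (d * d * τ (x * h * star y) - d * d * τ (x' * star y')) * ht
    · rintro ⟨p : A, ξ : Module.Dual R A⟩
      obtain ⟨q, hq⟩ := s2.perf.2 ξ
      have hq' : ∀ y : A, ξ y = τ (q * star y) := fun y => by
        rw [← hq]
        change τ (q * 1 * star y) = _
        rw [mul_one]
      have e3 : (d • ((t • p + q) * c')) * c = (d * d') • (t • p + q) := by
        rw [smul_mul_assoc, mul_assoc, e2, ← Algebra.commutes, ← Algebra.smul_def, mul_smul]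
      refine ⟨(d • ((t • p + q) * c'), d' • (t • p - q)), Prod.ext ?_
        (LinearMap.ext fun y : A => ?_)⟩
      · change (ph τ c d t _).1 = (d * d') • p
        rw [ph_fst, e3, ← mul_smul, ← smul_add, add_add_sub_cancel, ← two_smul R, ← mul_smul 2,
          mul_comm 2, ht, one_smul]
      · change (ph τ c d t _).2 y = d * d' * ξ y
        rw [ph_snd, e3, ← mul_smul, ← smul_sub, add_sub_sub_cancel, ← two_smul R, smul_mul_assoc,
          smul_mul_assoc, map_smul, map_smul, hq', smul_eq_mul, smul_eq_mul]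
        linear_combination (d * d' * τ (q * star y)) * ht
  have hyp := h1 R A _ ε hrk s3 ((Module.finrank_prod (R := R) (M := A) (M' := A)).trans
    (two_mul _).symm) hn
  obtain ⟨e, he, hb⟩ := h2 R A _ _ ε hrk s1 s2 rfl hyp
  have f1 : ∀ x : A, e x = x * e (1 : A) := fun x => by
    have : e (x * 1) = x * e (1 : A) := he x (1 : A)
    rwa [mul_one] at this
  have f2 : ∀ x : A, e.symm x = x * e.symm (1 : A) := fun x => by
    have : e.symm (x * 1) = x * e.symm (1 : A) := he.symm x (1 : A)
    rwa [mul_one] at this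
  refine ⟨⟨e (1 : A), e.symm (1 : A), ?_, ?_⟩, HermP.tr_ext hp fun y => ?_⟩
  · rw [← f2, e.symm_apply_apply]
  · rw [← f1, e.apply_symm_apply]
  · have : τ (e (1 : A) * 1 * star (e y : A)) = τ (1 * h * star y) := hb (1 : A) y
    rwa [f1 y, star_mul, mul_one, one_mul, ← mul_assoc] at this

end Pool.Agent.P.MP_46a8f8_ag.GU
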