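import Pool.Agent.P.MP_46a8f8_ag.GU.Sm

/-!
Induction makes the Lagrangian stable under the action.
-/

namespace Pool.Agent.P.MP_46a8f8_ag.GU

open Function

universe u

namespace IndMP

section gen

variable {R A T : Type u} [CommRing R] [Ring A] [Algebra R A] [CommRing T] [Algebra R T]

theorem rho_smul (X : RM R A T) (r : R) (a : A) (m : X.M) :
    X.ρ (r • a) m = algebraMap R T r • X.ρ a m := by
  rw [Algebra.smul_def, map_mul, Module.End.mul_apply, X.alg]

variable [StarRing A] {U : FM R A T T} {ε : ℤˣ}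

/-- divisibility is detected by a perfect form on a free module -/
theorem dvd_of (h : U.Sp ε) {y : T} {x : U.M} (hx : ∀ u, y ∣ U.b x u) : ∃ w, x = y • w := by
  have := h.free
  let B := Module.Free.chooseBasis T U.M
  choose c hc using fun j => hx (B j)
  obtain ⟨w, hw⟩ := h.perf.exists (B.constr T c)
  refine ⟨w, h.perf.1 (B.ext fun j => ?_)⟩
  rw [hc, map_smul, LinearMap.smul_apply, hw, B.constr_basis, smul_eq_mul]

theorem adj_symm (h : U.Good ε) {f f' : U.M →ₗ[T] U.M} (hf : ∀ u v, U.b (f u) v = U.b u (f' v))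
    (u v : U.M) : U.b (f' u) v = U.b u (f v) := by
  rw [h.sym v, ← hf, ← h.sym]

/-- a self adjoint equivariant lift -/
theorem exists_e [SA R A] (h : U.Sp ε) {π e0 f f' : U.M →ₗ[T] U.M} {N : Submodule T U.M} {y : T}
    (hπ : U.IsProj π) (hN : U.Stab N) (h0 : Eqv U.toRM U.toRM e0)
    (h0a : ∀ u v, U.b (e0 u) v = U.b u (e0 v)) (hf : ∀ u v, U.b (f u) v = U.b u (f' v))
    (hfN : ∀ n ∈ N, f n ∈ N) (hfN' : ∀ n ∈ N, f' n ∈ N) (hfπ : ∀ u, f (π u) = π (f u))
    (hy : ∀ u, ∃ w, f u = e0 u + y • w) :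
    ∃ e : U.M →ₗ[T] U.M, Eqv U.toRM U.toRM e ∧ (∀ u v, U.b (e u) v = U.b u (e v)) ∧
      (∀ u, e (π u) = π (e u)) ∧ (∀ n ∈ N, e n ∈ N) ∧ ∀ u, ∃ w, e u = e0 u + y • w := by
  obtain ⟨k, a, b, h1, hc⟩ := SA.sep (R := R) (A := A)
  obtain ⟨t, ht⟩ := (two_unit R A T).exists_left_inv
  set g := av a b U.toRM U.toRM f with hg
  set g' := av (fun j => star (b j)) (fun j => star (a j)) U.toRM U.toRM f' with hg'
  have ha : ∀ u v, U.b (g u) v = U.b u (g' v) := fun u v => by
    rw [hg, hg', av_apply, av_apply, map_sum, map_sum, LinearMap.sum_apply]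
    exact Finset.sum_congr rfl fun j _ => by rw [h.good.adj, hf, h.good.adj]
  have ha' := adj_symm h.good ha
  have he : Eqv U.toRM U.toRM g := av_eqv hc _ _ f
  have he' : Eqv U.toRM U.toRM g' := fun c u => h.perf.ext fun v => by
    rw [ha', h.good.adj, ← he, ← ha', ← h.good.adj]
  have hp : ∀ u, g (π u) = π (g u) := fun u => by
    rw [hg, av_apply, av_apply, map_sum]
    exact Finset.sum_congr rfl fun j _ => by rw [← hπ.1, hfπ, hπ.1]
  have hp' : ∀ u, g' (π u) = π (g' u) := fun u => h.perf.ext fun v => by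
    have e1 := hπ.2.2 u (g v)
    have e2 := hπ.2.2 (g' u) v
    rw [ha', ha', hp] at e2
    rw [ha']
    linear_combination e1 - e2
  have hm : ∀ n ∈ N, g n ∈ N := fun n hn => by
    rw [hg, av_apply]
    exact N.sum_mem fun j _ => hN _ _ (hfN _ (hN _ _ hn))
  have hm' : ∀ n ∈ N, g' n ∈ N := fun n hn => by
    rw [hg', av_apply]
    exact N.sum_mem fun j _ => hN _ _ (hfN' _ (hN _ _ hn))
  have hz : ∀ u, ∃ w, g u = e0 u + y • w := fun u => by
    choose w hw using fun j => hy (U.ρ (b j) u)
    refine ⟨∑ j, U.ρ (a j) (w j), ?_⟩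
    rw [hg, av_apply, ← sum_rho h1 U.toRM (e0 u), Finset.smul_sum, ← Finset.sum_add_distrib]
    exact Finset.sum_congr rfl fun j _ => by rw [hw, map_add, map_smul, h0]
  have hz' : ∀ u, ∃ w, g' u = e0 u + y • w := fun u => by
    obtain ⟨w, hw⟩ := dvd_of h (y := y) (x := g' u - e0 u) fun v => by
      obtain ⟨w, hw⟩ := hz v
      refine ⟨U.b u w, ?_⟩
      rw [map_sub, LinearMap.sub_apply, ha', h0a, hw, map_add, map_smul, smul_eq_mul,
        add_sub_cancel_left]
    exact ⟨w, by rw [← hw, add_sub_cancel]⟩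
  refine ⟨t • (g + g'), fun c u => ?_, fun u v => ?_, fun u => ?_, fun n hn => ?_, fun u => ?_⟩
  · simp only [LinearMap.smul_apply, LinearMap.add_apply, map_smul, map_add, he c u, he' c u]
  · simp only [LinearMap.smul_apply, LinearMap.add_apply, map_smul, map_add, ha, ha']
    rw [add_comm]
  · simp only [LinearMap.smul_apply, LinearMap.add_apply, map_smul, map_add, hp, hp']
  · exact N.smul_mem t (N.add_mem (hm n hn) (hm' n hn))
  · obtain ⟨w, hw⟩ := hz u
    obtain ⟨w', hw'⟩ := hz' u
    refine ⟨t • (w + w'), ?_⟩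
    rw [LinearMap.smul_apply, LinearMap.add_apply, hw, hw', add_add_add_comm, ← two_smul T,
      smul_add, smul_smul, ht, one_smul, ← smul_add, smul_comm]

end gen

section ind

variable {R A T : Type u} [CommRing R] [Ring A] [Algebra R A] [CommRing T] [Algebra R T]
  {K : Type} [Fintype K] [DecidableEq K]

/-- a matrix of scalars acting on families of vectors -/
def act (M : Type u) [AddCommGroup M] [Module T M] (m : Matrix K K R) : Module.End T (K → M) where
  toFun w k := ∑ k', algebraMap R T (m k k') • w k'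
  map_add' w w' := funext fun k => by simp [Finset.sum_add_distrib]
  map_smul' c w := funext fun k => by
    simp only [Pi.smul_apply, RingHom.id_apply, Finset.smul_sum]
    exact Finset.sum_congr rfl fun k' _ => smul_comm _ _ _

omit [DecidableEq K] in
theorem act_apply {M : Type u} [AddCommGroup M] [Module T M] (m : Matrix K K R) (w : K → M)
    (k : K) : act (T := T) M m w k = ∑ k', algebraMap R T (m k k') • w k' := rfl

/-- the induced module -/
@[reducible] def ind (U : FM R A T T) (l : MRep R A R K) (σ : K → K) : FM R A T T where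
  M := K → U.M
  ρ :=
    { toFun := fun a => act U.M (l.ρ a)
      map_one' := LinearMap.ext fun w => funext fun k => by
        simp [act_apply, Matrix.one_apply, apply_ite, ite_smul]
      map_mul' := fun a a' => LinearMap.ext fun w => funext fun k => by
        simp only [act_apply, map_mul, Module.End.mul_apply, Matrix.mul_apply, map_sum,
          Finset.sum_smul, Finset.smul_sum, mul_smul]
        exact Finset.sum_comm
      map_zero' := LinearMap.ext fun w => funext fun k => by simp [act_apply]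
      map_add' := fun a a' => LinearMap.ext fun w => funext fun k => by
        simp [act_apply, add_smul, Finset.sum_add_distrib] }
  alg r w := funext fun k => by
    change act U.M (l.ρ _) w k = _
    rw [l.alg]
    simp [act_apply, Matrix.one_apply, apply_ite, ite_smul]
  b := LinearMap.mk₂ T (fun w w' : K → U.M => ∑ k, U.b (w k) (w' (σ k)))
    (fun w w' v => by simp [Finset.sum_add_distrib])
    (fun c w v => by simp [Finset.mul_sum])
    (fun w v v' => by simp [Finset.sum_add_distrib])
    (fun c w v => by simp [Finset.mul_sum])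

variable {U : FM R A T T} {l : MRep R A R K} {σ : K → K}

theorem ind_rho (a : A) (w : K → U.M) (k : K) :
    (ind U l σ).ρ a w k = ∑ k', algebraMap R T (l.ρ a k k') • w k' := rfl

theorem ind_b (w w' : K → U.M) : (ind U l σ).b w w' = ∑ k, U.b (w k) (w' (σ k)) := rfl

omit [DecidableEq K] in
theorem sum_inv {M : Type*} [AddCommMonoid M] (hσ : Involutive σ) (f : K → M) :
    ∑ k, f (σ k) = ∑ k, f k := hσ.bijective.sum_comp f

theorem ind_b_single (hσ : Involutive σ) (w : K → U.M) (k : K) (v : U.M) :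
    (ind U l σ).b w (Pi.single (σ k) v) = U.b (w k) v := by
  rw [ind_b, Finset.sum_eq_single k, Pi.single_eq_same]
  · intro j _ hj
    rw [Pi.single_eq_of_ne (hσ.injective.ne hj), map_zero]
  · simp

theorem ind_perf (hσ : Involutive σ) (h : U.Perf) : (ind U l σ).Perf := by
  refine FM.perf_of (fun w hw => funext fun k => h.eq_zero fun v => ?_) fun ψ => ?_
  · rw [← ind_b_single (l := l) hσ, hw]
  · choose x hx using fun k => h.exists (ψ ∘ₗ LinearMap.single T (fun _ : K => U.M) (σ k))
    refine ⟨x, fun w => ?_⟩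
    rw [ind_b, Finset.sum_congr rfl fun k _ => hx k (w (σ k))]
    refine (sum_inv hσ fun k => ψ (Pi.single k (w k))).trans ?_
    rw [← map_sum, Finset.univ_sum_single]

variable [StarRing A] {ε : ℤˣ}

theorem ind_sp (hσ : Involutive σ) (hl : ∀ a k k', l.ρ a k k' = l.ρ (star a) (σ k') (σ k))
    (h : U.Sp ε) : (ind U l σ).Sp ε := by
  have := h.free
  have := h.good.fin
  refine ⟨⟨inferInstanceAs (Module.Finite T (K → U.M)), fun a w w' => ?_, fun w w' => ?_⟩,
    ind_perf hσ h.perf, inferInstanceAs (Module.Free T (K → U.M))⟩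
  · change ∑ k, U.b (∑ k', algebraMap R T (l.ρ a k k') • w k') (w' (σ k)) =
      ∑ k, U.b (w k) (∑ k', algebraMap R T (l.ρ (star a) (σ k) k') • w' k')
    simp only [map_sum, map_smul, LinearMap.sum_apply, LinearMap.smul_apply]
    rw [Finset.sum_comm]
    refine Finset.sum_congr rfl fun k' _ => ?_
    rw [← sum_inv hσ fun j => algebraMap R T (l.ρ (star a) (σ k') j) • U.b (w k') (w' j)]
    exact Finset.sum_congr rfl fun k _ => by rw [hl]
  · rw [ind_b, ind_b, Finset.smul_sum, ← sum_inv hσ]
    exact Finset.sum_congr rfl fun k _ => by rw [hσ, h.good.sym]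

end ind

end IndMP

open IndMP in
theorem pIndM (h : S_Ind.{u}) : S_IndM.{u} := by
  intro R A T _ _ _ _ _ _ _ y ε E H φ π₀ U π i N s κ _ hφ _ hP hK
  obtain ⟨K, _, _, l, σ, p, hσ, hl, hp, h1⟩ := h R A
  choose Θ Θ' t1 t2 t3 t4 t5 using hP.th
  have hg := hP.sp.good
  have hsp : (ind U l σ).Sp ε := ind_sp hσ hl hP.sp
  let π' : (K → U.M) →ₗ[T] (K → U.M) := π.compLeft K
  let N' : Submodule T (K → U.M) := Submodule.pi Set.univ fun _ => N
  have hN' : ∀ w, w ∈ N' ↔ ∀ k, w k ∈ N := fun w => ⟨fun H k => H k trivial, fun H k _ => H k⟩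
  let κ' : (K → U.M) →+ (K → U.M) := κ.compLeft K
  let j : U.M →ₗ[T] (K → U.M) := LinearMap.pi fun k => U.ρ (p k)
  let j' : (K → U.M) →ₗ[T] U.M := ∑ k, U.ρ (star (p (σ k))) ∘ₗ LinearMap.proj k
  have hj : ∀ u k, j u k = U.ρ (p k) u := fun _ _ => rfl
  have hj' : ∀ w, j' w = ∑ k, U.ρ (star (p (σ k))) (w k) := fun w => by
    simp only [j', LinearMap.sum_apply, LinearMap.comp_apply, LinearMap.proj_apply]
  have je : Eqv U.toRM (ind U l σ).toRM j := fun a u => funext fun k => by
    rw [ind_rho, hj, ← Module.End.mul_apply, ← map_mul, ← hp, map_sum, LinearMap.sum_apply]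
    exact Finset.sum_congr rfl fun k' _ => rho_smul U.toRM _ _ _
  have ja : ∀ w u, (ind U l σ).b w (j u) = U.b (j' w) u := fun w u => by
    rw [ind_b, hj', map_sum, LinearMap.sum_apply]
    exact Finset.sum_congr rfl fun k _ => by rw [hj, hg.adj, star_star]
  have ja' : ∀ u w, (ind U l σ).b (j u) w = U.b u (j' w) := fun u w => by
    rw [hsp.good.sym w, ja, ← hg.sym]
  have jj : ∀ u, j' (j u) = u := fun u => by
    have := congrArg (fun c => U.ρ c u) h1
    simpa [map_sum, hj', hj] using this
  have je' : Eqv (ind U l σ).toRM U.toRM j' := fun a w => hP.sp.perf.ext fun u => by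
    rw [← ja, hsp.good.adj, ← je, ja, hg.adj]
  have hπ : (ind U l σ).IsProj π' := by
    refine ⟨fun a w => funext fun k => ?_, fun w => funext fun k => hP.proj.2.1 (w k),
      fun w w' => ?_⟩
    · change π ((ind U l σ).ρ a w k) = _
      rw [ind_rho, ind_rho, map_sum]
      exact Finset.sum_congr rfl fun k' _ => map_smul _ _ _
    · rw [ind_b, ind_b, ind_b, ← Finset.sum_add_distrib]
      exact Finset.sum_congr rfl fun k _ => hP.proj.2.2 _ _
  have hst : (ind U l σ).Stab N' := fun a w hw => (hN' _).2 fun k => by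
    rw [ind_rho]
    exact N.sum_mem fun k' _ => N.smul_mem _ ((hN' w).1 hw k')
  let f : (K → U.M) →ₗ[T] (K → U.M) :=
    LinearMap.pi fun k => ∑ k', Θ (p k * star (p (σ k'))) ∘ₗ LinearMap.proj k'
  let f' : (K → U.M) →ₗ[T] (K → U.M) :=
    LinearMap.pi fun k' => ∑ k, Θ' (p k * star (p k')) ∘ₗ LinearMap.proj (σ k)
  have hf : ∀ w k, f w k = ∑ k', Θ (p k * star (p (σ k'))) (w k') := fun w k => by
    simp only [f, LinearMap.pi_apply, LinearMap.sum_apply, LinearMap.comp_apply,
      LinearMap.proj_apply]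
  have hf' : ∀ w k', f' w k' = ∑ k, Θ' (p k * star (p k')) (w (σ k)) := fun w k => by
    simp only [f', LinearMap.pi_apply, LinearMap.sum_apply, LinearMap.comp_apply,
      LinearMap.proj_apply]
  obtain ⟨e, e1, e2, e3, e4, e5⟩ := exists_e hsp (e0 := j ∘ₗ j') (f := f) (f' := f') (y := y)
    hπ hst (je.comp je') (fun w w' => (ja' _ _).trans (ja _ _).symm)
    (fun w w' => by
      rw [ind_b, ind_b]
      simp only [hf, hf', map_sum, LinearMap.sum_apply, t1]
      exact Finset.sum_comm)
    (fun n hn => (hN' _).2 fun k => by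
      rw [hf]
      exact N.sum_mem fun k' _ => t2 _ _ ((hN' n).1 hn k'))
    (fun n hn => (hN' _).2 fun k => by
      rw [hf']
      exact N.sum_mem fun k' _ => t3 _ _ ((hN' n).1 hn _))
    (fun w => funext fun k => by
      change _ = π (f w k)
      rw [hf, hf, map_sum]
      exact Finset.sum_congr rfl fun k' _ => t4 _ _)
    (fun w => by
      choose z hz using fun k k' => t5 (p k * star (p (σ k'))) (w k')
      refine ⟨fun k => ∑ k', z k k', funext fun k => ?_⟩
      change f w k = U.ρ (p k) (j' w) + y • ∑ k', z k k'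
      rw [hf, hj', map_sum, Finset.smul_sum, ← Finset.sum_add_distrib]
      exact Finset.sum_congr rfl fun k' _ => by rw [hz, map_mul, Module.End.mul_apply])
  have e6 : ∀ w v z, j' w = i v + y • z → ∃ z', e w = j (i v) + y • z' := fun w v z hw => by
    obtain ⟨z', hz'⟩ := e5 w
    exact ⟨j z + z', by
      rw [hz', LinearMap.comp_apply, hw, map_add, map_smul, smul_add, add_assoc]⟩
  refine ⟨ind U l σ, π', j.comp i, N', κ', e,
    { sp := hsp, proj := hπ, eqv := je.comp hP.eqv, comm := fun v => funext fun k => ?_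
      form := fun v v' => ?_, iso := fun w hw w' hw' => ?_, n1 := fun x => ?_, stab := hst
      kp := ⟨hK.one, fun w hw => (hN' _).2 fun k => hK.sat _ fun n hn => ?_,
        fun r w => funext fun k => hK.lin r (w k), fun w => (hN' _).2 fun k => hK.mem _,
        fun n hn => funext fun k => hK.res _ ((hN' n).1 hn k)⟩
      keqv := fun a w => funext fun k => ?_, eeqv := e1, eadj := e2, epi := e3, emem := e4
      e1 := fun v => e6 _ v 0 (by rw [smul_zero, add_zero]; exact jj _)
      e2 := fun w => ?_, e3 := fun n hn => ?_ }⟩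
  · change π (U.ρ (p k) (i v)) = U.ρ (p k) (i (π₀ v))
    rw [hP.proj.1, hP.comm]
  · exact (ja' _ _).trans (by rw [LinearMap.comp_apply, jj, hP.form])
  · rw [ind_b]
    exact Finset.sum_eq_zero fun k _ => hP.iso _ ((hN' w).1 hw _) _ ((hN' w').1 hw' _)
  · choose n hn z hz using fun k => hP.n1 (E.ρ (p k) x)
    refine ⟨n, (hN' n).2 hn, z, funext fun k => ?_⟩
    change U.ρ (p k) (i (φ x)) = n k + y • z k
    rw [← hz, hφ, hP.eqv]
  · rw [← ind_b_single (l := l) hσ]
    refine hw _ ((hN' _).2 fun k' => ?_)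
    by_cases hk : k' = σ k
    · rw [hk, Pi.single_eq_same]
      exact hn
    · rw [Pi.single_eq_of_ne hk]
      exact N.zero_mem
  · change κ ((ind U l σ).ρ a w k) = _
    rw [ind_rho, ind_rho, map_sum]
    exact Finset.sum_congr rfl fun k' _ => hK.lin _ _
  · obtain ⟨v, z, hz⟩ := hP.onto (j' w)
    exact ⟨v, e6 w v z hz⟩
  · choose x z hz using fun k => hP.n2 _ ((hN' n).1 hn k)
    refine ⟨∑ k, E.ρ (star (p (σ k))) (x k), e6 n _ (∑ k, U.ρ (star (p (σ k))) (z k)) ?_⟩
    rw [hj', map_sum, map_sum, Finset.smul_sum, ← Finset.sum_add_distrib]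
    exact Finset.sum_congr rfl fun k _ => by rw [hz, map_add, map_smul, hφ, hP.eqv]

end Pool.Agent.P.MP_46a8f8_ag.GU
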