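import Pool.Agent.P.MP_46a8f8_ag.GU.Sm

/-! An isometry onto the modified lattice. -/

namespace Pool.Agent.P.MP_46a8f8_ag.GU

open Function Polynomial

universe u

namespace KapP

theorem exists_mul {R M : Type u} [CommRing R] [Nontrivial R] [AddCommGroup M] [Module R M]
    [Module.Finite R M] (g : Module.End R M) (hg : Injective g) (N : Submodule R M)
    (hN : ∀ n ∈ N, g n ∈ N) : ∃ a : R, a ≠ 0 ∧ ∀ n ∈ N, ∃ n' ∈ N, a • n = g n' := by
  obtain ⟨P, hP, h0⟩ := LinearMap.exists_monic_and_aeval_eq_zero R g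
  have hst : ∀ (Q : R[X]), ∀ n ∈ N, aeval g Q n ∈ N := fun Q n hn => by
    induction Q using Polynomial.induction_on with
    | C a => simpa [Module.algebraMap_end_apply] using N.smul_mem a hn
    | add p q hp hq => simpa using N.add_mem hp hq
    | monomial j a h =>
      rw [pow_succ', mul_left_comm, map_mul, aeval_X, Module.End.mul_apply]
      exact hN _ h
  have key : ∀ (d : ℕ) (Q : R[X]), Q ≠ 0 → Q.natDegree ≤ d → aeval g Q = 0 →
      ∃ a : R, a ≠ 0 ∧ ∀ n ∈ N, ∃ n' ∈ N, a • n = g n' := by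
    intro d
    induction d with
    | zero =>
      intro Q hQ hd h
      rw [eq_C_of_natDegree_le_zero hd] at h hQ
      refine ⟨Q.coeff 0, fun e => hQ (by rw [e, map_zero]), fun n _ => ⟨0, N.zero_mem, ?_⟩⟩
      simpa [Module.algebraMap_end_apply] using LinearMap.congr_fun h n
    | succ d ih =>
      intro Q hQ hd h
      have e : ∀ n, g (aeval g Q.divX n) + Q.coeff 0 • n = 0 := fun n => by
        have := LinearMap.congr_fun h n
        rwa [← X_mul_divX_add Q, map_add, map_mul, aeval_X, aeval_C, LinearMap.add_apply,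
          Module.End.mul_apply, Module.algebraMap_end_apply] at this
      by_cases h1 : Q.coeff 0 = 0
      · refine ih Q.divX (fun e' => hQ ?_) (by rw [natDegree_divX_eq_natDegree_tsub_one]; omega)
          (LinearMap.ext fun n => hg ?_)
        · rw [← X_mul_divX_add Q, e', h1]
          simp
        · simpa [h1] using e n
      · exact ⟨_, h1, fun n hn => ⟨-aeval g Q.divX n, N.neg_mem (hst _ n hn), by
          rw [map_neg]
          exact eq_neg_of_add_eq_zero_right (e n)⟩⟩
  exact key _ P hP.ne_zero le_rfl h0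

end KapP

theorem pKap : S_Kap.{u} := by
  intro R A _ _ _ _ _ hSA ε W N s c g γ κ F hW hI hF es ec eκ as ac aγ hsc sN cN κN κs sP hg hγ
  have := hW.free
  have := hW.good.fin
  obtain ⟨h, hh⟩ := hSA.two.exists_left_inv
  obtain ⟨k', hk'⟩ := hW.perf.exists_end (W.b.compl₂ (c ∘ₗ κ))
  replace hk' : ∀ u v, W.b (k' u) v = W.b u (c (κ v)) := hk'
  have hk'' : ∀ u v, W.b (c (κ u)) v = W.b u (k' v) := fun u v => by
    rw [hW.good.sym, ← hk', hW.good.sym u, usmul_usmul]
  have ek' : ∀ a u, k' (W.ρ a u) = W.ρ a (k' u) := fun a u => hW.perf.ext fun v => by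
    rw [hk', hW.good.adj, hW.good.adj, hk', eκ, ec]
  let ν : W.M →ₗ[R] W.M := c ∘ₗ κ + k' - c ∘ₗ s
  have hν : ∀ u, ν u = c (κ u) + k' u - c (s u) := fun _ => rfl
  have νN : ∀ n ∈ N, ν n = 0 := fun n hn => by
    rw [hν, κs n hn, hW.perf.eq_zero fun v => (hk' n v).trans (hI n hn _ (cN _ (κN v)))]
    simp
  have aν : ∀ u v, W.b (ν u) v = W.b u (ν v) := fun u v => by
    simp only [hν, map_add, map_sub, LinearMap.add_apply, LinearMap.sub_apply]
    rw [hk'', hk', ac, as, hsc, add_comm]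
  let k : W.M →ₗ[R] W.M := s ∘ₗ c ∘ₗ κ ∘ₗ s - h • s ∘ₗ ν ∘ₗ s
  have hk : ∀ u, k u = s (c (κ (s u))) - h • s (ν (s u)) := fun _ => rfl
  have kN : ∀ u, k u ∈ N := fun u => hk u ▸ N.sub_mem (sN _ (cN _ (κN _)))
    (N.smul_mem _ (sP (ν (s u)) fun n hn => by rw [aν, νN n hn, map_zero]))
  have hb : ∀ u v, W.b u (g v) + W.b u (k v) + W.b (k u) v = W.b u v := fun u v => by
    have h1 : W.b (s (ν (s u))) v = W.b u (s (ν (s v))) := by rw [as, aν, as]
    have h2 : W.b (s (c (κ (s u)))) v = W.b u (s (k' (s v))) := by rw [as, hk'', as]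
    have h3 : W.b u (s (ν (s v))) = W.b u (s (c (κ (s v)))) + W.b u (s (k' (s v))) -
        W.b u (s (c (s (s v)))) := by simp only [hν, map_add, map_sub]
    simp only [hk, hg, map_sub, map_smul, LinearMap.sub_apply, LinearMap.smul_apply, smul_eq_mul,
      h1, h2]
    linear_combination (-1 : R) * h3 - W.b u (s (ν (s v))) * hh
  have hΦ : ∀ n ∈ N, g n + k n = n := fun n hn => hW.perf.ext fun v => by
    have h1 := hb v n
    rw [hI _ (kN v) n hn, add_zero, ← map_add] at h1
    rw [hW.good.sym, h1, ← hW.good.sym]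
  have gi : Injective g := (injective_iff_map_eq_zero _).2 fun w hw =>
    (smul_eq_zero.1 (by rw [← hγ, hw, map_zero])).resolve_left hF
  obtain ⟨a, ha, hN⟩ := KapP.exists_mul g gi N fun n hn => by
    rw [hg]
    exact N.sub_mem hn (sN _ (cN _ (sN _ (sN _ hn))))
  have hγN : ∀ n ∈ N, ∀ n' ∈ N, W.b (γ n) n' = 0 := fun n hn n' hn' => by
    obtain ⟨m, hm, e⟩ := hN n hn
    refine (mul_eq_zero.1 (?_ : a * _ = 0)).resolve_left ha
    rw [← smul_eq_mul, ← LinearMap.smul_apply, ← map_smul, ← map_smul, e, hγ, map_smul,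
      LinearMap.smul_apply, hI m hm n' hn', smul_zero]
  refine ⟨g + k, fun a u => ?_, fun z z' => ?_, fun z => ⟨k z, kN z, add_comm _ _⟩,
    fun n hn w => ⟨n + (w - k w), ?_⟩⟩
  · simp only [LinearMap.add_apply, hg, hk, hν, es a, ec a, eκ a, ek' a, map_add, map_sub, map_smul]
  · have h1 : W.b (γ (k z)) (g z') = F * W.b (k z) z' := by
      rw [aγ, hγ, map_smul, smul_eq_mul]
    simp only [LinearMap.add_apply, map_add, hγ, map_smul, LinearMap.smul_apply, smul_eq_mul, h1,
      hγN _ (kN z) _ (kN z')]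
    linear_combination F * hb z z'
  · have h1 := hΦ n hn
    have h2 := hΦ _ (kN w)
    simp only [LinearMap.add_apply, map_add, map_sub]
    rw [← sub_eq_zero]
    calc _ = (g n + k n - n) - (g (k w) + k (k w) - k w) := by abel
      _ = 0 := by rw [h1, h2, sub_self, sub_self, sub_self]

end Pool.Agent.P.MP_46a8f8_ag.GU
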