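import Pool.Agent.P.MP_46a8f8_ag.GU.Sm

/-!
The extension of multiplication by an element congruent to one.
-/

namespace Pool.Agent.P.MP_46a8f8_ag.GU

open TensorProduct Function Matrix IsLocalRing

universe u

namespace Kap0P

theorem proj {R T E H U : Type u} [CommRing R] [CommRing T] [Algebra R T] [AddCommGroup E]
    [Module R E] [AddCommGroup H] [Module R H] [AddCommGroup U] [Module R U] [Module T U]
    [IsScalarTower R T U] [Module.Projective R E] [Module.Projective R U] (φ : E →ₗ[R] H)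
    (ψ : H →ₗ[R] E) (i : H →ₗ[R] U) (t : U →ₗ[R] H) {F : R} {y y' : T} (hφ : Injective φ)
    (inv : ∀ v, φ (ψ v) = F • v) (mul : y * y' = algebraMap R T F) (ht : ∀ v, t (y' • i v) = v)
    (reg : ∀ z : U, y • z = 0 → z = 0) (P : Submodule T U)
    (hP : ∀ z, z ∈ P ↔ ∃ x w, z = i (φ x) + y • w) : Module.Projective R P := by
  let μ : T → U →ₗ[R] U := fun c => (LinearMap.lsmul T U c).restrictScalars R
  let m : (E × U) →ₗ[R] P :=
    { toFun := fun z => ⟨i (φ z.1) + y • z.2, (hP _).2 ⟨_, _, rfl⟩⟩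
      map_add' := fun z z' => Subtype.ext (by simp [add_add_add_comm])
      map_smul' := fun r z => Subtype.ext (by simp [smul_comm r y]) }
  let j : H →ₗ[R] (E × U) := ψ.prod (-(μ y' ∘ₗ i))
  have hj : ∀ v, j v = (ψ v, -(y' • i v)) := fun _ => rfl
  have hF : ∀ z : U, y • y' • z = F • z := fun z => by rw [smul_smul, mul, algebraMap_smul]
  have hl : (-(t ∘ₗ LinearMap.snd R E U)) ∘ₗ j = LinearMap.id := LinearMap.ext fun v => by
    simp [hj, ht]
  have hm : Surjective m := fun z => by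
    obtain ⟨x, w, h⟩ := (hP z).1 z.2
    exact ⟨(x, w), Subtype.ext h.symm⟩
  have hex : Exact j m := by
    rintro ⟨x, w⟩
    refine ⟨fun h => ?_, ?_⟩
    · have h1 : i (φ x) + y • w = 0 := congrArg Subtype.val h
      have h2 := congrArg (fun z => t (y' • z)) h1
      simp only [smul_add, map_add, ht, smul_comm y' y, hF, map_smul, smul_zero, map_zero] at h2
      have h3 : φ x = F • -t w := by rw [smul_neg, eq_neg_iff_add_eq_zero, h2]
      refine ⟨-t w, Prod.ext (hφ ((inv _).trans h3.symm)) ?_⟩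
      rw [h3, map_smul, ← hF, ← smul_add] at h1
      exact neg_eq_iff_add_eq_zero.2 (reg _ h1)
    · rintro ⟨v, hv⟩
      rw [← hv]
      refine Subtype.ext ?_
      change i (φ (ψ v)) + y • -(y' • i v) = 0
      rw [inv, map_smul, smul_neg, hF, add_neg_cancel]
  have h1 : ∃ l, l ∘ₗ j = LinearMap.id := ⟨_, hl⟩
  obtain ⟨s, hs⟩ : ∃ s, m ∘ₗ s = LinearMap.id :=
    ((hex.split_tfae (LinearMap.injective_of_comp_eq_id _ _ hl) hm).out 1 0).1 h1
  exact Module.Projective.of_split s m hs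

end Kap0P

theorem pKap0 (nak : S_Nak.{u}) : S_Kap0.{u} := by
  intro R A T _ _ _ _ _ _ _ _ _ τ y y' ε E H φ ψ F π₀ U π i N hS hF hP
  let : Module R U.M := Module.compHom U.M (algebraMap R T)
  have : IsScalarTower R T U.M := ⟨fun r t m => by
    rw [Algebra.smul_def, mul_smul]
    rfl⟩
  have := hF.free
  have := hF.fin
  have := hP.sp.free
  have := hP.sp.good.fin
  have := hS.spE.free
  have : Module.Free R U.M := Module.Free.trans (S := T)
  have : Module.Finite R U.M := Module.Finite.trans T _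
  have regT : ∀ z : T, y * z = 0 → z = 0 := fun z hz => by
    refine (smul_eq_zero.1 (?_ : F • z = 0)).resolve_left hS.ne
    rw [Algebra.smul_def, ← hF.mul, mul_right_comm, hz, zero_mul]
  have regU : ∀ z : U.M, y • z = 0 → z = 0 := fun z hz => hP.sp.perf.eq_zero fun w =>
    regT _ (by rw [← smul_eq_mul, ← LinearMap.smul_apply, ← map_smul, hz, map_zero]; rfl)
  let i' : H.M →ₗ[R] U.M := ⟨i.toAddHom, fun r v => i.map_smulₛₗ r v⟩
  obtain ⟨t, ht⟩ := hS.spH.perf.exists_end (LinearMap.mk₂ R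
    (fun (w : U.M) (v : H.M) => τ (U.b w (i v))) (fun w w' v => by simp)
    (fun r w v => by
      change τ (U.b (algebraMap R T r • w) _) = _
      rw [map_smul, LinearMap.smul_apply, algebraMap_smul, map_smul])
    (fun w v v' => by simp)
    (fun r w v => by rw [map_smulₛₗ, map_smul, algebraMap_smul, map_smul]))
  obtain ⟨s₀, h0, hs₀⟩ := hP.sat
  have hm : ∀ z, z ∈ N ⊔ LinearMap.range (LinearMap.lsmul T U.M y) ↔
      ∃ n ∈ N, ∃ w : U.M, z = n + y • w := fun z => Submodule.mem_sup.trans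
    ⟨fun ⟨n, hn, _, ⟨w, rfl⟩, h⟩ => ⟨n, hn, w, h.symm⟩,
      fun ⟨n, hn, w, h⟩ => ⟨n, hn, _, ⟨w, rfl⟩, h.symm⟩⟩
  obtain ⟨s, κ, h1, h2, h3⟩ := nak R T U.M N _ y s₀ h0
    (fun v hv => hs₀ v fun n hn => regT _ (by
      rw [← smul_eq_mul, ← LinearMap.smul_apply, ← map_smul, hP.iso _ hv n hn])) hm
    (Kap0P.proj φ ψ i' t
      ((injective_iff_map_eq_zero φ).2 fun x hx => hS.spE.perf.eq_zero fun x' =>
        (mul_eq_zero.1 (by rw [← hS.form, hx, map_zero]; rfl)).resolve_left hS.ne)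
      hS.inv hF.mul
      (fun v => hS.spH.perf.1 (LinearMap.ext fun v' => by
        rw [ht]
        change τ (U.b (y' • i v) (i v')) = _
        rw [map_smul, LinearMap.smul_apply, hP.form, smul_eq_mul, mul_comm, ← Algebra.smul_def,
          map_smul, hF.one, smul_eq_mul, mul_one]))
      regU _ fun z => (hm z).trans ⟨fun ⟨n, hn, w, h⟩ => by
        obtain ⟨x, w', rfl⟩ := hP.n2 n hn
        exact ⟨x, w' + w, by rw [h, smul_add, add_assoc]; rfl⟩, fun ⟨x, w, h⟩ => by
        obtain ⟨n, hn, w', h'⟩ := hP.n1 x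
        exact ⟨n, hn, w' + w, by rw [h, smul_add, ← add_assoc, ← h']; rfl⟩⟩)
  refine ⟨s₀ * s, (DistribSMul.toAddMonoidHom U.M s₀).comp κ.toAddMonoidHom,
    (On y).mul_mem h0 h1, fun v hv => ?_, fun r v => ?_, fun v => N.smul_mem _ (h2 v),
    fun n hn => ?_⟩
  · rw [mul_comm, mul_smul]
    exact N.smul_mem _ (hs₀ v hv)
  · change s₀ • κ (r • v) = algebraMap R T r • s₀ • κ v
    rw [map_smul, smul_comm]
    rfl
  · change s₀ • κ n = _
    rw [h3 n hn, mul_smul]

end Pool.Agent.P.MP_46a8f8_ag.GU
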