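import Pool.Agent.P.MP_46a8f8_ag.GU.So

/-!
Stable lattices, and the perfect form attached to a symmetric matrix.
-/

namespace Pool.Agent.P.MP_46a8f8_ag.GU

open Function Matrix

universe u

namespace Lat2P

variable {R A D L : Type u} [CommRing R] [Ring A] [Algebra R A] [CommRing D] [IsDomain D]
  [Algebra R D] [Field L] [Algebra R L] [Algebra D L] [IsScalarTower R D L] [IsFractionRing D L]

theorem exists_lattice [Module.Finite R A] (W : FM R A L L) [Module.Finite L W.M]
    [Module D W.M] [IsScalarTower D L W.M] :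
    ∃ M : Submodule D W.M, M.FG ∧ Submodule.span L (M : Set W.M) = ⊤ ∧
      (∀ a, ∀ x ∈ M, W.ρ a x ∈ M) ∧ ∀ x ∈ M, ∀ y ∈ M, ∃ r : D, algebraMap D L r = W.b x y := by
  obtain ⟨n, e, he⟩ := Module.Finite.exists_fin (R := R) (M := A)
  obtain ⟨m, w, hw⟩ := Module.Finite.exists_fin (R := L) (M := W.M)
  obtain ⟨d, hd⟩ := IsLocalization.exist_integer_multiples_of_finite (nonZeroDivisors D)
    (fun p : (Fin n × Fin m) × (Fin n × Fin m) =>
      W.b (W.ρ (e p.1.1) (w p.1.2)) (W.ρ (e p.2.1) (w p.2.2)))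
  obtain ⟨M, hM⟩ : ∃ M : Submodule D W.M, M = Submodule.span D
      (Set.range fun p : Fin n × Fin m => (d : D) • W.ρ (e p.1) (w p.2)) := ⟨_, rfl⟩
  have hall : ∀ (c : A) (j : Fin m), (d : D) • W.ρ c (w j) ∈ M := by
    intro c j
    have hc : c ∈ Submodule.span R (Set.range e) := he ▸ Submodule.mem_top
    induction hc using Submodule.span_induction with
    | mem _ h =>
      obtain ⟨i, rfl⟩ := h
      exact hM ▸ Submodule.subset_span ⟨(i, j), rfl⟩
    | zero => simp
    | add x y _ _ hx hy =>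
      rw [map_add, LinearMap.add_apply, smul_add]
      exact M.add_mem hx hy
    | smul r x _ hx =>
      rw [Algebra.smul_def, map_mul, Module.End.mul_apply, W.alg,
        IsScalarTower.algebraMap_apply R D L, algebraMap_smul, smul_comm]
      exact M.smul_mem _ hx
  refine ⟨M, hM ▸ Submodule.fg_span (Set.finite_range _), ?_, fun a => ?_, ?_⟩
  · rw [eq_top_iff, ← hw, Submodule.span_le]
    rintro _ ⟨j, rfl⟩
    have h1 := hall 1 j
    rw [map_one, Module.End.one_apply, ← algebraMap_smul L] at h1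
    have h0 : algebraMap D L d ≠ 0 := IsFractionRing.to_map_ne_zero_of_mem_nonZeroDivisors d.2
    exact (Submodule.smul_mem_iff _ h0).1 (Submodule.subset_span h1)
  · change M ≤ M.comap ((W.ρ a).restrictScalars D)
    conv_lhs => rw [hM]
    rw [Submodule.span_le]
    rintro _ ⟨p, rfl⟩
    change (W.ρ a).restrictScalars D (_ • _) ∈ M
    rw [map_smul]
    have := hall (a * e p.1) p.2
    rwa [map_mul] at this
  · intro x hx y hy
    rw [hM] at hx hy
    induction hx using Submodule.span_induction with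
    | mem _ h =>
      obtain ⟨p, rfl⟩ := h
      induction hy using Submodule.span_induction with
      | mem _ h =>
        obtain ⟨q, rfl⟩ := h
        obtain ⟨r, hr⟩ := hd (p, q)
        refine ⟨d * r, ?_⟩
        dsimp only at hr ⊢
        rw [map_mul, hr, ← algebraMap_smul L (d : D), ← algebraMap_smul L (d : D),
          ← algebraMap_smul L (d : D), map_smul, map_smul, LinearMap.smul_apply]
        rfl
      | zero => exact ⟨0, by simp⟩
      | add y y' _ _ h h' =>
        obtain ⟨r, hr⟩ := h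
        obtain ⟨r', hr'⟩ := h'
        exact ⟨r + r', by rw [map_add, map_add, hr, hr']⟩
      | smul c y _ h =>
        obtain ⟨r, hr⟩ := h
        exact ⟨c * r, by
          rw [map_mul, hr, ← algebraMap_smul L c, LinearMap.map_smul, smul_eq_mul]⟩
    | zero => exact ⟨0, by simp⟩
    | add x x' _ _ h h' =>
      obtain ⟨r, hr⟩ := h
      obtain ⟨r', hr'⟩ := h'
      exact ⟨r + r', by rw [map_add, map_add, LinearMap.add_apply, hr, hr']⟩
    | smul c x _ h =>
      obtain ⟨r, hr⟩ := h
      exact ⟨c * r, by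
        rw [map_mul, hr, ← algebraMap_smul L c, map_smul, LinearMap.smul_apply, smul_eq_mul]⟩

end Lat2P

theorem pLat2 : S_Lat2.{u} := by
  intro R A D L _ _ _ _ _ _ _ _ _ _ _ _ _ _ ε W hg hp
  have := SA.fin (R := R) (A := A)
  have := hg.fin
  let _ : Module D W.M := Module.compHom W.M (algebraMap D L)
  have : IsScalarTower D L W.M := ⟨fun d l m => by
    change (d • l) • m = algebraMap D L d • l • m
    rw [Algebra.smul_def, mul_smul]⟩
  obtain ⟨M, hfg, hsp, hst, hint⟩ := Lat2P.exists_lattice (D := D) W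
  have hL : Submodule.IsLattice L M := ⟨hfg, hsp⟩
  have hi : Injective (algebraMap D L) := IsFractionRing.injective D L
  choose β hβ using fun x y : M => hint x x.2 y y.2
  obtain ⟨B, hB⟩ : ∃ B : M →ₗ[D] M →ₗ[D] D, ∀ x y, algebraMap D L (B x y) = W.b x y :=
    ⟨LinearMap.mk₂ D β
      (fun x x' y => hi (by
        rw [map_add, hβ, hβ, hβ, Submodule.coe_add, map_add, LinearMap.add_apply]))
      (fun c x y => hi (by
        rw [smul_eq_mul, map_mul, hβ, hβ, Submodule.coe_smul, ← algebraMap_smul L c, map_smul,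
          LinearMap.smul_apply, smul_eq_mul]))
      (fun x y y' => hi (by rw [map_add, hβ, hβ, hβ, Submodule.coe_add, map_add]))
      (fun c x y => hi (by
        rw [smul_eq_mul, map_mul, hβ, hβ, Submodule.coe_smul, ← algebraMap_smul L c, map_smul,
          smul_eq_mul])), hβ⟩
  refine ⟨{ M := M
            ρ :=
              { toFun := fun a => ((W.ρ a).restrictScalars D).restrict (hst a)
                map_one' := LinearMap.ext fun m => Subtype.ext (by simp)
                map_mul' := fun a a' => LinearMap.ext fun m => Subtype.ext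
                  (LinearMap.congr_fun (map_mul W.ρ a a') m.1)
                map_zero' := LinearMap.ext fun m => Subtype.ext (by simp)
                map_add' := fun a a' => LinearMap.ext fun m => Subtype.ext
                  (LinearMap.congr_fun (map_add W.ρ a a') m.1) }
            alg := fun r m => Subtype.ext (by
              change W.ρ _ m.1 = algebraMap D L (algebraMap R D r) • m.1
              rw [W.alg, ← IsScalarTower.algebraMap_apply])
            b := B }, ⟨Module.Finite.iff_fg.2 hfg, fun a x y => hi ?_, fun x y => hi ?_⟩,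
    Submodule.IsLattice.free L M, ?_, ?_⟩
  · exact (hB ⟨_, hst a x.1 x.2⟩ y).trans ((hg.adj a x.1 y.1).trans
      (hB x ⟨_, hst (star a) y.1 y.2⟩).symm)
  · change algebraMap D L (B y x) = algebraMap D L (ε • B x y)
    rw [Units.smul_def, map_zsmul, hB, hB, hg.sym, Units.smul_def]
  · refine (injective_iff_map_eq_zero B).2 fun x hx => Subtype.ext (hp.eq_zero fun y => ?_)
    have : Submodule.span L (M : Set W.M) ≤ LinearMap.ker (W.b x) :=
      Submodule.span_le.2 fun z hz => by
        change W.b x (⟨z, hz⟩ : M) = 0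
        rw [← hB, hx, LinearMap.zero_apply, map_zero]
    exact this (hsp ▸ Submodule.mem_top)
  · exact congrArg Cardinal.toNat (Submodule.IsLattice.rank' L M)

theorem pRkM : S_RkM.{u} := by
  intro R A k _ _ _ _ _ _ _ ι _ _ ρ δ l hl
  have hst : ρ.dual.rm.Stab (LinearMap.ker l.mulVecLin) := fun a v hv => by
    change l *ᵥ ((ρ.ρ (star a))ᵀ *ᵥ v) = 0
    change l *ᵥ v = 0 at hv
    rw [mulVec_mulVec, ← hl.2, ← mulVec_mulVec, hv, mulVec_zero]
  obtain ⟨B₀, hB₀⟩ : ∃ B₀ : (ι → k) →ₗ[k] (ι → k) →ₗ[k] k, ∀ v w, B₀ v w = v ⬝ᵥ l *ᵥ w :=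
    ⟨Matrix.toLinearMap₂' k l, Matrix.toLinearMap₂'_apply' l⟩
  have h1 : LinearMap.ker l.mulVecLin ≤ LinearMap.ker B₀ :=
    fun v hv => LinearMap.ext fun w => by
      change l *ᵥ v = 0 at hv
      rw [hB₀, hl.dot, hv, dotProduct_zero, smul_zero]
      rfl
  have h2 : LinearMap.ker l.mulVecLin ≤ LinearMap.ker B₀.flip :=
    fun v hv => LinearMap.ext fun w => by
      change l *ᵥ v = 0 at hv
      rw [LinearMap.flip_apply, hB₀, hv, dotProduct_zero]
      rfl
  obtain ⟨B, hB⟩ : ∃ B : ((ι → k) ⧸ LinearMap.ker l.mulVecLin) →ₗ[k]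
      ((ι → k) ⧸ LinearMap.ker l.mulVecLin) →ₗ[k] k, ∀ v w,
      B (Submodule.Quotient.mk v) (Submodule.Quotient.mk w) = v ⬝ᵥ l *ᵥ w :=
    ⟨B₀.liftQ₂ _ _ h1 h2, hB₀⟩
  have hinj : Injective B := (injective_iff_map_eq_zero B).2 fun x hx => by
    obtain ⟨v, rfl⟩ := Submodule.Quotient.mk_surjective _ x
    refine (Submodule.Quotient.mk_eq_zero _).2 (dotProduct_eq_zero (l *ᵥ v) fun w => ?_)
    rw [dotProduct_comm, hl.dot, ← hB, hx, LinearMap.zero_apply, smul_zero]
  refine ⟨{ toRM := ρ.dual.rm.quot _ hst, b := B }, ⟨?_, fun a x y => ?_, fun x y => ?_⟩,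
    ⟨hinj, ?_⟩, ?_⟩
  · exact inferInstanceAs (Module.Finite k ((ι → k) ⧸ LinearMap.ker l.mulVecLin))
  · obtain ⟨v, rfl⟩ := Submodule.Quotient.mk_surjective _ x
    obtain ⟨w, rfl⟩ := Submodule.Quotient.mk_surjective _ y
    change B (Submodule.Quotient.mk ((ρ.ρ (star a))ᵀ *ᵥ v)) (Submodule.Quotient.mk w) =
      B (Submodule.Quotient.mk v) (Submodule.Quotient.mk ((ρ.ρ (star (star a)))ᵀ *ᵥ w))
    rw [hB, hB, mulVec_mulVec, ← hl.2, ← mulVec_mulVec, mulVec_transpose,
      dotProduct_mulVec v (ρ.ρ (star a))]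
  · obtain ⟨v, rfl⟩ := Submodule.Quotient.mk_surjective _ x
    obtain ⟨w, rfl⟩ := Submodule.Quotient.mk_surjective _ y
    exact (hB w v).trans ((hl.dot v w).trans (congrArg _ (hB v w).symm))
  · exact (LinearMap.injective_iff_surjective_of_finrank_eq_finrank
      (Subspace.dual_finrank_eq (K := k)
        (V := (ι → k) ⧸ LinearMap.ker l.mulVecLin)).symm).1 hinj
  · exact (LinearMap.quotKerEquivRange l.mulVecLin).finrank_eq

end Pool.Agent.P.MP_46a8f8_ag.GU
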