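import Pool.Agent.P.MP_46a8f8_ag.GU.Base2

/-!
Lifting a Lagrangian complement from the residue field.
-/

namespace Pool.Agent.P.MP_46a8f8_ag.GU

open TensorProduct Function Matrix IsLocalRing

universe u

namespace LiftP

section gen

variable {R A C V : Type u} [CommRing R] [Ring A] [Algebra R A] [CommRing C] [Algebra R C]
  [AddCommGroup V] [Module C V]

/-- the projector defined by two complementary Lagrangians -/
theorem exists_p (F : FM R A C V) {L L' : Submodule C F.M} (h : F.IsLag L) (h' : F.IsLag L')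
    (hc : IsCompl L L') :
    ∃ p : F.M →ₗ[C] F.M, F.IsProj p ∧ (∀ x, p x ∈ L) ∧ (∀ x ∈ L, p x = x) ∧
      (∀ x ∈ L', p x = 0) ∧ ∀ x, x - p x ∈ L' := by
  let p : F.M →ₗ[C] F.M := L.subtype ∘ₗ L.projectionOnto L' hc
  have h1 : ∀ x, p x ∈ L := fun x => (L.projectionOnto L' hc x).2
  have h2 : ∀ x ∈ L, p x = x := fun x hx =>
    congrArg Subtype.val (Submodule.projectionOnto_apply_left hc ⟨x, hx⟩)
  have h3 : ∀ x ∈ L', p x = 0 := fun x hx =>
    congrArg Subtype.val (Submodule.projectionOnto_apply_right hc ⟨x, hx⟩)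
  have h4 : ∀ x, x - p x ∈ L' := fun x => by
    have hx : x ∈ L ⊔ L' := by
      rw [hc.sup_eq_top]
      trivial
    obtain ⟨a, ha, b, hb, rfl⟩ := Submodule.mem_sup.1 hx
    rw [map_add, h2 a ha, h3 b hb, add_zero, add_sub_cancel_left]
    exact hb
  refine ⟨p, ⟨fun a x => ?_, fun x => h2 _ (h1 x), fun x y => ?_⟩, h1, h2, h3, h4⟩
  · have e1 := h3 _ (h'.1 a _ (h4 x))
    rw [map_sub, map_sub, h2 _ (h.1 a _ (h1 x))] at e1
    exact sub_eq_zero.1 e1
  · have e1 := h.isot _ (h1 x) _ (h1 y)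
    have e2 := h'.isot _ (h4 x) _ (h4 y)
    simp only [map_sub, LinearMap.sub_apply, e1, sub_zero] at e2
    rw [sub_sub, sub_eq_zero] at e2
    rw [e2]

/-- changing a self dual projector by a skew equivariant map -/
theorem shift (F : FM R A C V) {e m : F.M →ₗ[C] F.M} (he : F.IsProj e)
    (hm : Eqv F.toRM F.toRM m) (hs : ∀ x y, F.b (m x) y + F.b x (m y) = 0) :
    F.IsProj (LinearMap.id - e + e ∘ₗ m ∘ₗ (LinearMap.id - e)) := by
  refine ⟨fun a x => ?_, fun x => ?_, fun x y => ?_⟩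
  · simp only [LinearMap.add_apply, LinearMap.sub_apply, LinearMap.id_apply, LinearMap.comp_apply]
    rw [he.1 a x, ← map_sub (F.ρ a), hm a, he.1 a, map_add]
  · simp only [LinearMap.add_apply, LinearMap.sub_apply, LinearMap.id_apply, LinearMap.comp_apply]
    have e1 : e (x - e x + e (m (x - e x))) = e (m (x - e x)) := by
      rw [map_add, map_sub, he.2.1, he.2.1, sub_self, zero_add]
    rw [e1, add_sub_cancel_right]
  · simp only [LinearMap.add_apply, LinearMap.sub_apply, LinearMap.id_apply, LinearMap.comp_apply]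
    have e1 := he.compl.2.2 x y
    simp only [LinearMap.sub_apply, LinearMap.id_apply] at e1
    have e2 : F.b (e (m (x - e x))) y = F.b (m (x - e x)) (y - e y) := by
      rw [map_sub (F.b (m (x - e x))), ← he.2.2 (m (x - e x)) y, add_sub_cancel_right]
    have e3 : F.b x (e (m (y - e y))) = F.b (x - e x) (m (y - e y)) := by
      rw [map_sub F.b, LinearMap.sub_apply, ← he.2.2 x (m (y - e y)), add_sub_cancel_left]
    rw [map_add F.b, LinearMap.add_apply, map_add (F.b x), e2, e3, add_add_add_comm, hs, add_zero,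
      e1]

end gen

section bc

variable {R A k : Type u} [CommRing R] [Ring A] [Algebra R A] [CommRing k] [Algebra R k]

theorem q_surj (hk : Surjective (algebraMap R k)) (M : Type u) [AddCommGroup M] [Module R M]
    (v : k ⊗[R] M) : ∃ x : M, (1 : k) ⊗ₜ[R] x = v := by
  induction v using TensorProduct.induction_on with
  | zero => exact ⟨0, tmul_zero _ _⟩
  | tmul c x =>
    obtain ⟨r, rfl⟩ := hk c
    exact ⟨r • x, by rw [← smul_tmul, Algebra.algebraMap_eq_smul_one]⟩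
  | add v w hv hw =>
    obtain ⟨x, rfl⟩ := hv
    obtain ⟨y, rfl⟩ := hw
    exact ⟨x + y, tmul_add _ _ _⟩

theorem bc_b (E : FM R A R R) (x y : E.M) :
    (E.bc k).b ((1 : k) ⊗ₜ[R] x) ((1 : k) ⊗ₜ[R] y) = algebraMap R k (E.b x y) := by
  change LinearMap.BilinForm.baseChange k E.b ((1 : k) ⊗ₜ[R] x) ((1 : k) ⊗ₜ[R] y) = _
  rw [LinearMap.BilinForm.baseChange_tmul, mul_one, Algebra.algebraMap_eq_smul_one]

theorem bc_rho (E : FM R A R R) (a : A) (x : E.M) :
    (E.bc k).ρ a ((1 : k) ⊗ₜ[R] x) = (1 : k) ⊗ₜ[R] E.ρ a x := rfl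

theorem proj_bc (hk : Surjective (algebraMap R k)) {E : FM R A R R} {e : E.M →ₗ[R] E.M}
    (he : E.IsProj e) : (E.bc k).IsProj (e.baseChange k) := by
  refine ⟨fun a v => ?_, fun v => ?_, fun v w => ?_⟩
  · obtain ⟨x, rfl⟩ := q_surj hk E.M v
    exact congrArg (fun z => (1 : k) ⊗ₜ[R] z) (he.1 a x)
  · obtain ⟨x, rfl⟩ := q_surj hk E.M v
    exact congrArg (fun z => (1 : k) ⊗ₜ[R] z) (he.2.1 x)
  · obtain ⟨x, rfl⟩ := q_surj hk E.M v
    obtain ⟨y, rfl⟩ := q_surj hk E.M w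
    rw [LinearMap.baseChange_tmul, LinearMap.baseChange_tmul, bc_b, bc_b, bc_b, ← map_add, he.2.2]

variable [StarRing A]

theorem good_bc (hk : Surjective (algebraMap R k)) {E : FM R A R R} {ε : ℤˣ} (h : E.Good ε) :
    (E.bc k).Good ε := by
  have := h.fin
  refine ⟨inferInstanceAs (Module.Finite k (k ⊗[R] E.M)), fun a v w => ?_, fun v w => ?_⟩
  · obtain ⟨x, rfl⟩ := q_surj hk E.M v
    obtain ⟨y, rfl⟩ := q_surj hk E.M w
    rw [bc_rho, bc_rho, bc_b, bc_b, h.adj]
  · obtain ⟨x, rfl⟩ := q_surj hk E.M v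
    obtain ⟨y, rfl⟩ := q_surj hk E.M w
    rw [bc_b, bc_b, h.sym, Units.smul_def, Units.smul_def, map_zsmul]

variable [SA R A]

/-- a skew equivariant map lifts to a skew equivariant map -/
theorem lift_skew (hk : Surjective (algebraMap R k)) {E : FM R A R R} {ε : ℤˣ} (h : E.Sp ε)
    (hp : (E.bc k).Perf) (nb : (E.bc k).M →ₗ[k] (E.bc k).M)
    (h1 : Eqv (E.bc k).toRM (E.bc k).toRM nb)
    (h2 : ∀ v w, (E.bc k).b (nb v) w + (E.bc k).b v (nb w) = 0) :
    ∃ m : E.M →ₗ[R] E.M, Eqv E.toRM E.toRM m ∧ (∀ x y, E.b (m x) y + E.b x (m y) = 0) ∧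
      ∀ x, (1 : k) ⊗ₜ[R] m x = nb ((1 : k) ⊗ₜ[R] x) := by
  have := h.free
  obtain ⟨n0, hn0⟩ := Module.projective_lifting_property (TensorProduct.mk R k E.M 1)
    ((LinearMap.restrictScalars R (show k ⊗[R] E.M →ₗ[k] k ⊗[R] E.M from nb)) ∘ₗ
      TensorProduct.mk R k E.M 1) (q_surj hk E.M)
  have hn : ∀ x, (1 : k) ⊗ₜ[R] n0 x = nb ((1 : k) ⊗ₜ[R] x) := fun x => LinearMap.congr_fun hn0 x
  obtain ⟨j, a, b, hab, hc⟩ := SA.sep (R := R) (A := A)
  have e1 : Eqv E.toRM E.toRM (av a b E.toRM E.toRM n0) := av_eqv hc _ _ _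
  have e2 : ∀ x, (1 : k) ⊗ₜ[R] av a b E.toRM E.toRM n0 x = nb ((1 : k) ⊗ₜ[R] x) := fun x => by
    rw [av_apply, tmul_sum, ← sum_rho hab (E.bc k).toRM (nb ((1 : k) ⊗ₜ[R] x))]
    refine Finset.sum_congr rfl fun i _ => ?_
    rw [← bc_rho, hn, ← bc_rho, h1]
  generalize av a b E.toRM E.toRM n0 = n1 at e1 e2
  obtain ⟨n2, hn2⟩ := h.perf.exists_end (E.b.compl₂ n1)
  have e3 : ∀ x y, E.b (n2 x) y = E.b x (n1 y) := hn2
  have e4 : ∀ x y, E.b x (n2 y) = E.b (n1 x) y := fun x y => by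
    rw [h.good.sym, e3, h.good.sym, usmul_usmul]
  have e5 : Eqv E.toRM E.toRM n2 := fun c x => h.perf.ext fun y => by
    rw [e3, h.good.adj, h.good.adj, e3, e1]
  have e6 : ∀ x, (1 : k) ⊗ₜ[R] n2 x = -nb ((1 : k) ⊗ₜ[R] x) := fun x => hp.ext fun w => by
    obtain ⟨y, rfl⟩ := q_surj hk E.M w
    rw [bc_b, e3, ← bc_b, e2, map_neg, LinearMap.neg_apply]
    exact eq_neg_of_add_eq_zero_right (h2 _ _)
  obtain ⟨t, ht⟩ := (SA.two (R := R) (A := A)).exists_left_inv
  refine ⟨t • (n1 - n2), fun c x => ?_, fun x y => ?_, fun x => ?_⟩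
  · simp only [LinearMap.smul_apply, LinearMap.sub_apply]
    rw [e1, e5, map_smul, map_sub]
  · simp only [LinearMap.smul_apply, LinearMap.sub_apply, map_smul, map_sub, e3, e4, smul_eq_mul]
    ring
  · simp only [LinearMap.smul_apply, LinearMap.sub_apply]
    rw [tmul_smul, tmul_sub, e2, e6, sub_neg_eq_add, ← two_smul R, smul_smul, ht, one_smul]

end bc

theorem perf_bc {R A k : Type u} [CommRing R] [Ring A] [Algebra R A] [Field k] [Algebra R k]
    [StarRing A] (hk : Surjective (algebraMap R k)) {E : FM R A R R} {ε : ℤˣ} (h : E.Sp ε) :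
    (E.bc k).Perf := by
  have := h.free
  have := (good_bc hk h.good).fin
  have hs : Surjective (E.bc k).b := fun ψ => by
    obtain ⟨φ, hφ⟩ := Module.projective_lifting_property (Algebra.linearMap R k)
      ((LinearMap.restrictScalars R (show k ⊗[R] E.M →ₗ[k] k from ψ)) ∘ₗ
        TensorProduct.mk R k E.M 1) hk
    obtain ⟨x, hx⟩ := h.perf.exists φ
    refine ⟨(1 : k) ⊗ₜ[R] x, LinearMap.ext fun w => ?_⟩
    obtain ⟨y, rfl⟩ := q_surj hk E.M w
    rw [bc_b, hx]
    exact LinearMap.congr_fun hφ y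
  exact ⟨(LinearMap.injective_iff_surjective_of_finrank_eq_finrank
    Subspace.dual_finrank_eq.symm).2 hs, hs⟩

end LiftP

open LiftP in
theorem pLift : S_Lift.{u} := by
  intro R A _ _ _ _ _ _ E ε e hE he
  have hk : Surjective (algebraMap R (ResidueField R)) := IsLocalRing.residue_surjective
  have hp := perf_bc hk hE
  have hb := proj_bc hk he
  refine ⟨good_bc hk hE.good, hp, hb.isLag hp, fun L' hL' hc => ?_⟩
  obtain ⟨p, p0, p1, p2, p3, p4⟩ := exists_p _ (hb.isLag hp) hL' hc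
  obtain ⟨m, m1, m2, m3⟩ := lift_skew hk hE hp (e.baseChange (ResidueField R) - p)
    (fun a v => by
      simp only [LinearMap.sub_apply]
      rw [hb.1, p0.1, map_sub])
    (fun v w => by
      simp only [LinearMap.sub_apply, map_sub]
      rw [sub_add_sub_comm, hb.2.2, p0.2.2, sub_self])
  have key : ∀ v, (LinearMap.id - e + e ∘ₗ m ∘ₗ (LinearMap.id - e)).baseChange (ResidueField R) v =
      v - p v := fun v => by
    obtain ⟨x, rfl⟩ := q_surj hk E.M v
    have e0 : ∀ w, e.baseChange (ResidueField R) (p w) = p w := fun w => by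
      obtain ⟨z, hz⟩ := p1 w
      rw [← hz, hb.2.1]
    rw [LinearMap.baseChange_tmul]
    simp only [LinearMap.add_apply, LinearMap.sub_apply, LinearMap.id_apply, LinearMap.comp_apply]
    rw [tmul_add, ← LinearMap.baseChange_tmul e (1 : ResidueField R) (m (x - e x)), m3, tmul_sub,
      ← LinearMap.baseChange_tmul e (1 : ResidueField R) x]
    simp only [LinearMap.sub_apply, map_sub, hb.2.1, e0]
    rw [p2 _ ⟨_, rfl⟩]
    abel
  refine ⟨_, shift E he m1 m2, le_antisymm ?_ fun v hv => ⟨v, ?_⟩⟩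
  · rintro _ ⟨v, rfl⟩
    rw [key]
    exact p4 v
  · rw [key, p3 v hv, sub_zero]

end Pool.Agent.P.MP_46a8f8_ag.GU
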