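import Pool.Agent.P.MP_46a8f8_ag.GU.So
import Pool.Agent.P.MP_46a8f8_ag.GU.Lift

/-!
Lifting a nondegenerate submodule from the residue field: a symmetric idempotent.
-/

namespace Pool.Agent.P.MP_46a8f8_ag.GU

open TensorProduct Function Matrix IsLocalRing

universe u

namespace LiftEP

/-- a form which is nondegenerate over the residue field is perfect -/
theorem bij_of_res {R M : Type u} [CommRing R] [IsLocalRing R] [AddCommGroup M] [Module R M]
    [Module.Free R M] [Module.Finite R M] (B : M →ₗ[R] M →ₗ[R] R)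
    (h : ∀ x, (∀ x', residue R (B x x') = 0) → ∀ ξ : Module.Dual R M, residue R (ξ x) = 0) :
    Bijective B := by
  classical
  let b := Module.Free.chooseBasis R M
  have hG : ∀ i j, LinearMap.toMatrix b b.dualBasis B i j = B (b j) (b i) := fun i j => by
    rw [LinearMap.toMatrix_apply, Module.Basis.dualBasis_repr]
  have hd : IsUnit (LinearMap.toMatrix b b.dualBasis B).det := by
    rw [← residue_ne_zero_iff_isUnit, RingHom.map_det]
    intro h0
    obtain ⟨v, hv0, hv⟩ := Matrix.exists_mulVec_eq_zero_iff.2 h0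
    choose w hw using fun j => residue_surjective (R := R) (v j)
    have h1 : ∀ i, residue R (B (∑ j, w j • b j) (b i)) = 0 := fun i => by
      refine Eq.trans ?_ (congrFun hv i)
      simp only [map_sum, map_smul, LinearMap.sum_apply, LinearMap.smul_apply, smul_eq_mul,
        map_mul, hw, mulVec, dotProduct, RingHom.mapMatrix_apply, Matrix.map_apply, hG]
      exact Finset.sum_congr rfl fun j _ => mul_comm _ _
    have h2 : ∀ x', residue R (B (∑ j, w j • b j) x') = 0 := fun x' => by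
      rw [← b.sum_repr x', map_sum, map_sum]
      refine Finset.sum_eq_zero fun i _ => ?_
      rw [map_smul, smul_eq_mul, map_mul, h1, mul_zero]
    refine hv0 (funext fun i => ?_)
    have h3 := h _ h2 (b.coord i)
    rw [Module.Basis.coord_apply, b.repr_sum_self, hw] at h3
    exact h3
  exact (LinearEquiv.ofIsUnitDet hd).bijective

theorem res_of_tmul {R M k : Type u} [CommRing R] [AddCommGroup M] [Module R M] [CommRing k]
    [Algebra R k] {x : M} (hx : (1 : k) ⊗ₜ[R] x = 0) (ξ : Module.Dual R M) :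
    algebraMap R k (ξ x) = 0 := by
  have h := congrArg (fun v => TensorProduct.rid R k (ξ.lTensor k v)) hx
  simpa [Algebra.algebraMap_eq_smul_one] using h

variable {R A : Type u} [CommRing R] [Ring A] [Algebra R A] [StarRing A] [SA R A]

/-- an equivariant map lifts to an equivariant map -/
theorem lift_eqv {k : Type u} [CommRing k] [Algebra R k] (hk : Surjective (algebraMap R k))
    (X Y : RM R A R) [Module.Free R X.M] (f : (X.bc k).M →ₗ[k] (Y.bc k).M)
    (h1 : Eqv (X.bc k) (Y.bc k) f) :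
    ∃ m : X.M →ₗ[R] Y.M, Eqv X Y m ∧ ∀ x, (1 : k) ⊗ₜ[R] m x = f ((1 : k) ⊗ₜ[R] x) := by
  obtain ⟨n0, hn0⟩ := Module.projective_lifting_property (TensorProduct.mk R k Y.M 1)
    ((LinearMap.restrictScalars R (show k ⊗[R] X.M →ₗ[k] k ⊗[R] Y.M from f)) ∘ₗ
      TensorProduct.mk R k X.M 1) (LiftP.q_surj hk Y.M)
  have hn : ∀ x, (1 : k) ⊗ₜ[R] n0 x = f ((1 : k) ⊗ₜ[R] x) := fun x => LinearMap.congr_fun hn0 x
  obtain ⟨j, a, b, hab, hc⟩ := SA.sep (R := R) (A := A)
  have rX : ∀ (c : A) (x : X.M), (X.bc k).ρ c ((1 : k) ⊗ₜ[R] x) = (1 : k) ⊗ₜ[R] X.ρ c x :=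
    fun _ _ => rfl
  have rY : ∀ (c : A) (x : Y.M), (Y.bc k).ρ c ((1 : k) ⊗ₜ[R] x) = (1 : k) ⊗ₜ[R] Y.ρ c x :=
    fun _ _ => rfl
  refine ⟨av a b X Y n0, av_eqv hc _ _ _, fun x => ?_⟩
  rw [av_apply, tmul_sum, ← sum_rho hab (Y.bc k) (f ((1 : k) ⊗ₜ[R] x))]
  refine Finset.sum_congr rfl fun i _ => ?_
  rw [← rY, hn, ← rX, h1]

omit [SA R A] in
/-- the orthogonal projector onto a perfect submodule -/
theorem proj {E : FM R A R R} {ε : ℤˣ} (hE : E.Good ε) (X : RM R A R) (f : X.M →ₗ[R] E.M)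
    (hf : Eqv X E.toRM f) (hb : Bijective (E.b.compl₁₂ f f)) :
    ∃ n : E.M →ₗ[R] X.M, Eqv E.toRM X n ∧ (∀ x, n (f x) = x) ∧
      ∀ y z, E.b (f (n y)) z = E.b y (f (n z)) := by
  have hp : (FM.mk X (E.b.compl₁₂ f f)).Perf := hb
  obtain ⟨n, hn⟩ := hp.exists_end (E.b.compl₂ f)
  have e : ∀ y x, E.b (f (n y)) (f x) = E.b y (f x) := hn
  refine ⟨n, fun a y => hp.ext fun x => ?_, fun x => hp.ext fun x' => e _ _, fun y z => ?_⟩
  · change E.b (f (n (E.ρ a y))) (f x) = E.b (f (X.ρ a (n y))) (f x)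
    rw [e, hf, hE.adj, hE.adj, ← hf, e]
  · rw [← e y, hE.sym, ← e z, ← hE.sym]

end LiftEP

open LiftEP in
theorem pLiftE : S_LiftE.{u} := by
  intro R A _ _ _ _ _ _ τ ε X f hτ hX hf hnd
  obtain ⟨_, _⟩ := hX
  have hk : Surjective (algebraMap R (ResidueField R)) := IsLocalRing.residue_surjective
  have s : (HermP.Eh τ (1 : A)).Sp ε := HermP.eh_sp hτ.comm hτ.perf hτ.st 1 (star_one A)
  obtain ⟨m, hm, hmf⟩ := lift_eqv hk X (HermP.Eh τ (1 : A)).toRM f hf
  have hb : Bijective ((HermP.Eh τ (1 : A)).b.compl₁₂ m m) := bij_of_res _ fun x hx ξ => by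
    refine res_of_tmul (k := ResidueField R) (hnd _ fun v => ?_) ξ
    obtain ⟨x', rfl⟩ := LiftP.q_surj hk X.M v
    rw [← hmf, ← hmf, LiftP.bc_b]
    exact hx x'
  obtain ⟨n, n1, n2, n3⟩ := proj s.good X m hm hb
  have f1 : ∀ y : A, m (n y) = y * m (n (1 : A)) := fun y => by
    have : m (n (y * 1)) = y * m (n (1 : A)) := (hm.comp n1) y (1 : A)
    rwa [mul_one] at this
  have hr : LinearMap.range (LinearMap.mulRight R (m (n (1 : A)) : A)) = LinearMap.range m := by
    refine le_antisymm ?_ ?_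
    · rintro _ ⟨y, rfl⟩
      exact ⟨n y, f1 y⟩
    · rintro _ ⟨x, rfl⟩
      exact ⟨m x, by rw [LinearMap.mulRight_apply, ← f1, n2]⟩
  have hinj : Injective m := LeftInverse.injective n2
  refine ⟨m (n (1 : A)), ?_, HermP.tr_ext hτ.perf fun z => ?_, ?_, ?_⟩
  · rw [← f1, n2]
  · have : τ (m (n (1 : A)) * 1 * star z) = τ (1 * 1 * star (m (n z) : A)) := n3 (1 : A) z
    rw [f1 z, star_mul, mul_one, mul_one, one_mul] at this
    exact this.symm
  · rw [hr]
    exact Module.Free.of_equiv (LinearEquiv.ofInjective m hinj)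
  · rw [hr]
    exact (LinearEquiv.ofInjective m hinj).finrank_eq.symm

end Pool.Agent.P.MP_46a8f8_ag.GU
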