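import Pool.Agent.P.MP_46a8f8_ag.GU.Sm

/-!
Comparison of a space with a hyperbolic space through the glued lattice.
-/

namespace Pool.Agent.P.MP_46a8f8_ag.GU

open Function

universe u

theorem pMid (hG : S_MidG.{u}) (hL : S_SubLag.{u}) : S_Mid.{u} := by
  intro R A _ _ _ _ _ _ ε E H W φ ψ π₀ π g γ Φ i F hS hW hπ₀ hπ hi hg hΦ hγ h1 h2 h3 h4 h5 h6 h7
    h8 h9
  obtain ⟨b, hb1, hb2, hb3⟩ := hG R A ε H W π₀ π g γ i F hS.spH hW hπ₀ hπ hS.ne hi hg hγ h1 h2 h3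
    h4 h5 h6
  have hinj : Injective Φ := (injective_iff_map_eq_zero Φ).2 fun z hz =>
    hW.perf.eq_zero fun z' => by
      have := h7 z z'
      rw [hz, map_zero, map_zero, LinearMap.zero_apply] at this
      exact (mul_eq_zero.1 this.symm).resolve_left hS.ne
  let m : (E.M × W.M) →ₗ[R] W.M := (i ∘ₗ φ).coprod g
  have hm : ∀ x : E.M × W.M, m x = i (φ x.1) + g x.2 := fun _ => rfl
  let r : (E.M × W.M) →ₗ[R] W.M := (LinearEquiv.ofInjective Φ hinj).symm.toLinearMap ∘ₗ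
    m.codRestrict (LinearMap.range Φ) fun x => h9 x.1 x.2
  have hr : ∀ x, Φ (r x) = i (φ x.1) + g x.2 := fun x =>
    LinearEquiv.ofInjective_symm_apply Φ (h := hinj) _
  let j : (E.M × W.M) →ₗ[R] E.M × (H.M × W.M) :=
    (LinearMap.fst R _ _).prod (φ.prodMap LinearMap.id)
  let p : (E.M × (H.M × W.M)) →ₗ[R] E.M × W.M := LinearMap.id.prodMap (LinearMap.snd R _ _)
  refine ⟨_, hb1, hb2, hL R A ε (E.sum (FM.mk (H.toRM.prod W.toRM) b)) W (E.toRM.prod W.toRM) j p r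
    (hS.spE.sum hb1) hW ⟨π, hπ⟩ (fun a x => ?_) (fun a x => hinj ?_) (fun _ => rfl) (fun z => ?_)
    (fun x x' => mul_left_cancel₀ hS.ne ?_) fun z hz => ⟨(z.1, z.2.2), ?_⟩⟩
  · exact Prod.ext rfl (Prod.ext (hS.eqv a x.1) rfl)
  · rw [hΦ, hr, hr, map_add, ← hg, ← hi, ← hS.eqv]
    rfl
  · obtain ⟨x, w, e⟩ := h8 z
    exact ⟨(x, w), hinj ((hr _).trans e.symm)⟩
  · change _ = F * (E.b x.1 x'.1 + b (φ x.1, x.2) (φ x'.1, x'.2))
    rw [← h7, hr, hr, mul_add, hb3, ← hS.form]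
    ring
  · refine Prod.ext rfl (Prod.ext (hS.spH.perf.ext fun v => mul_left_cancel₀ hS.ne ?_) rfl)
    have e1 := hz (ψ v, -γ (i v))
    change E.b z.1 (ψ v) + b z.2 (φ (ψ v), -γ (i v)) = 0 at e1
    have e2 := hb3 z.2 (φ (ψ v), -γ (i v))
    have e3 := hS.form z.1 (ψ v)
    have e4 : i (φ (ψ v)) + g (-γ (i v)) = 0 := by
      rw [hS.inv, map_smul, map_neg, h1, add_neg_cancel]
    simp only [e4, map_zero] at e2
    have e5 : ∀ u, H.b u (φ (ψ v)) = F * H.b u v := fun u => by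
      rw [hS.inv, map_smul, smul_eq_mul]
    rw [e5] at e2 e3
    change F * H.b (φ z.1) v = F * H.b z.2.1 v
    linear_combination e3 + F * e1 - e2

end Pool.Agent.P.MP_46a8f8_ag.GU
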