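import Pool.Agent.P.MP_46a8f8_ag.GU.Sm

/-!
The glued lattice on `H × W` is a hyperbolic space.
-/

namespace Pool.Agent.P.MP_46a8f8_ag.GU

open Function

universe u

namespace MidGP

/-- division of a bilinear form by a nonzero scalar -/
theorem exists_div {R M : Type u} [CommRing R] [IsDomain R] [AddCommGroup M] [Module R M]
    (B : M →ₗ[R] M →ₗ[R] R) {F : R} (hF : F ≠ 0) (h : ∀ z z', F ∣ B z z') :
    ∃ b : M →ₗ[R] M →ₗ[R] R, ∀ z z', F * b z z' = B z z' := by
  choose β hβ using h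
  refine ⟨LinearMap.mk₂ R β (fun x x' y => ?_) (fun c x y => ?_) (fun x y y' => ?_)
    (fun c x y => ?_), fun z z' => (hβ z z').symm⟩
  all_goals apply mul_left_cancel₀ hF
  · rw [mul_add, ← hβ, ← hβ, ← hβ, map_add, LinearMap.add_apply]
  · rw [smul_eq_mul, mul_left_comm, ← hβ, ← hβ, map_smul, LinearMap.smul_apply, smul_eq_mul]
  · rw [mul_add, ← hβ, ← hβ, ← hβ, map_add]
  · rw [smul_eq_mul, mul_left_comm, ← hβ, ← hβ, map_smul, smul_eq_mul]

end MidGP

theorem pMidG : S_MidG.{u} := by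
  intro R A _ _ _ _ _ _ ε H W π₀ π g γ i F hH hW hπ₀ hπ hF hi hg hγ hgγ hγg hπg hπi hdiv hgen
  have := hH.free
  have := hW.free
  have := hH.good.fin
  have := hW.good.fin
  have ginj : Injective g := fun x y h => by
    have h1 : F • x = F • y := by rw [← hγg, ← hγg, h]
    exact smul_right_injective _ hF h1
  have γeqv : ∀ a w, γ (W.ρ a w) = W.ρ a (γ w) := fun a w => ginj (by
    rw [hgγ, hg a, hgγ, map_smul])
  have γπ : ∀ w, γ (π w) = π (γ w) := fun w => ginj (by rw [hgγ, ← hπg, hgγ, map_smul])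
  let P : (H.M × W.M) →ₗ[R] W.M := i.coprod g
  have hP : ∀ z : H.M × W.M, P z = i z.1 + g z.2 := fun z => rfl
  let B : (H.M × W.M) →ₗ[R] (H.M × W.M) →ₗ[R] R :=
    W.b.compl₁₂ (γ ∘ₗ P) P - H.b.compl₁₂ (LinearMap.fst R H.M W.M) (LinearMap.fst R H.M W.M)
  have hB : ∀ z z', B z z' = W.b (γ (P z)) (P z') - H.b z.1 z'.1 := fun z z' => rfl
  have key : ∀ u w', W.b (γ u) (g w') = F * W.b u w' := fun u w' => by
    rw [hγ, hγg, map_smul, smul_eq_mul]
  obtain ⟨b, hb⟩ := MidGP.exists_div B hF fun z z' => by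
    have : B z z' = (W.b (γ (i z.1)) (i z'.1) - H.b z.1 z'.1) +
        F * (W.b (i z.1) z'.2 + W.b z.2 (P z')) := by
      rw [hB, hP z, map_add, map_add, LinearMap.add_apply, hγg, map_smul, LinearMap.smul_apply,
        smul_eq_mul, hP z', map_add, key]
      ring
    rw [this]
    exact dvd_add (hdiv _ _) (Dvd.intro _ rfl)
  have hb' : ∀ z z', F * b z z' = W.b (γ (P z)) (P z') - H.b z.1 z'.1 := fun z z' =>
    (hb z z').trans (hB z z')
  have b1 : ∀ z w', b z (0, w') = W.b (P z) w' := fun z w' => mul_left_cancel₀ hF (by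
    rw [hb', hP (0, w'), map_zero, zero_add, key, map_zero, sub_zero])
  have Peqv : ∀ a (z : H.M × W.M), P ((H.toRM.prod W.toRM).ρ a z) = W.ρ a (P z) := fun a z => by
    rw [hP, hP, map_add, ← hi a, ← hg a]
    rfl
  refine ⟨b, ⟨⟨inferInstanceAs (Module.Finite R (H.M × W.M)), fun a z z' => ?_,
    fun z z' => ?_⟩, ⟨?_, fun ξ => ?_⟩, inferInstanceAs (Module.Free R (H.M × W.M))⟩,
    ⟨π₀.prodMap π, fun a z => Prod.ext (hπ₀.1 a z.1) (hπ.1 a z.2),
      fun z => Prod.ext (hπ₀.2.1 z.1) (hπ.2.1 z.2), fun z z' => ?_⟩, hb'⟩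
  · apply mul_left_cancel₀ hF
    change F * b _ z' = F * b z _
    rw [hb', hb', Peqv, Peqv, γeqv, hW.good.adj]
    exact congrArg _ (hH.good.adj a z.1 z'.1)
  · apply mul_left_cancel₀ hF
    change F * b z' z = F * ε • b z z'
    rw [mul_smul_comm, hb', hb', hγ, hW.good.sym, hH.good.sym z.1, smul_sub]
  · rw [injective_iff_map_eq_zero]
    intro z hz
    change b z = 0 at hz
    have h1 : P z = 0 := hW.perf.1 (LinearMap.ext fun w' => by rw [← b1, hz, map_zero]; rfl)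
    have h2 : z.1 = 0 := hH.perf.1 (LinearMap.ext fun v' => by
      have := hb' z (v', 0)
      rw [hz, h1] at this
      simpa using this)
    rw [hP, h2, map_zero, zero_add] at h1
    exact Prod.ext h2 (ginj (h1.trans (map_zero g).symm))
  · change (H.M × W.M) →ₗ[R] R at ξ
    obtain ⟨u, hu⟩ := hW.perf.2 (ξ ∘ₗ LinearMap.inr R H.M W.M)
    obtain ⟨v, w, rfl⟩ := hgen u
    obtain ⟨v₀, hv₀⟩ := hH.perf.2 ((b (v, w) - ξ) ∘ₗ LinearMap.inl R H.M W.M)
    have b2 : ∀ z', b (F • v₀, -γ (i v₀)) z' = -H.b v₀ z'.1 := fun z' =>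
      mul_left_cancel₀ hF (by
        have : P (F • v₀, -γ (i v₀)) = 0 := by
          rw [hP, map_smul, map_neg, hgγ, add_neg_cancel]
        rw [hb', this]
        simp)
    refine ⟨(v, w) + (F • v₀, -γ (i v₀)), LinearMap.ext fun z' => ?_⟩
    change b _ z' = ξ z'
    have e : z' = (z'.1, 0) + (0, z'.2) := by simp
    have e1 : b (v, w) (0, z'.2) = ξ (0, z'.2) := by
      rw [b1]
      exact LinearMap.congr_fun hu z'.2
    have e2 : H.b v₀ z'.1 = b (v, w) (z'.1, 0) - ξ (z'.1, 0) := LinearMap.congr_fun hv₀ z'.1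
    have e3 : b (v, w) z' = b (v, w) (z'.1, 0) + b (v, w) (0, z'.2) := by rw [← map_add, ← e]
    have e4 : ξ z' = ξ (z'.1, 0) + ξ (0, z'.2) := by rw [← map_add, ← e]
    rw [map_add, LinearMap.add_apply, b2, e2, e3, e4, e1]
    ring
  · apply mul_left_cancel₀ hF
    change F * (b _ z' + b z _) = F * b z z'
    have Pπ : ∀ z : H.M × W.M, P (π₀.prodMap π z) = π (P z) := fun z => by
      rw [hP, hP, map_add, hπi, hπg]
      rfl
    rw [mul_add, hb', hb', hb', Pπ, Pπ, γπ, ← hπ.2.2 (γ (P z)) (P z'), ← hπ₀.2.2 z.1 z'.1]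
    simp only [LinearMap.prodMap_apply]
    ring

end Pool.Agent.P.MP_46a8f8_ag.GU
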