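import Pool.Agent.P.MP_46a8f8_ag.GU.So
import Pool.Agent.P.MP_46a8f8_ag.Wed

/-!
The reduced norm is invariant under the involution; the reduced rank of an idempotent.
-/

namespace Pool.Agent.P.MP_46a8f8_ag.GU

open TensorProduct Function Matrix

universe u

namespace NStP

section

variable {R A Ω : Type u} [CommRing R] [Ring A] [Algebra R A] [Field Ω] [Algebra R Ω] {n : ℕ}

/-- the splitting over the field -/
theorem exists_equiv {Φ : A →ₐ[R] Matrix (Fin n) (Fin n) Ω} (h : Setup R A Ω n Φ) :
    ∃ E : Ω ⊗[R] A ≃ₐ[Ω] Matrix (Fin n) (Fin n) Ω, ∀ (c : Ω) (x : A), E (c ⊗ₜ[R] x) = c • Φ x := by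
  have := h.free
  have := h.finite
  have : Nontrivial R := (algebraMap R Ω).domain_nontrivial
  let Ψ : Ω ⊗[R] A →ₐ[Ω] Matrix (Fin n) (Fin n) Ω :=
    Algebra.TensorProduct.lift (Algebra.ofId Ω _) Φ fun x y => Algebra.commute_algebraMap_left x _
  have hΨ : ∀ (c : Ω) (x : A), Ψ (c ⊗ₜ[R] x) = c • Φ x := fun c x => by
    rw [Algebra.TensorProduct.lift_tmul, Algebra.smul_def]
    rfl
  have hs : Surjective Ψ.toLinearMap := by
    rw [← LinearMap.range_eq_top, eq_top_iff, ← h.span, Submodule.span_le]
    rintro _ ⟨x, rfl⟩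
    exact ⟨1 ⊗ₜ[R] x, (hΨ 1 x).trans (one_smul _ _)⟩
  have hr : Module.finrank Ω (Ω ⊗[R] A) = Module.finrank Ω (Matrix (Fin n) (Fin n) Ω) := by
    rw [Module.finrank_baseChange, h.rank, Module.finrank_matrix, Module.finrank_self,
      Fintype.card_fin, mul_one, sq]
  exact ⟨AlgEquiv.ofBijective Ψ
    ⟨(LinearMap.injective_iff_surjective_of_finrank_eq_finrank hr).2 hs, hs⟩, hΨ⟩

/-- the transpose of the splitting composed with the involution -/
noncomputable def tw [StarRing A] [SA R A] (Φ : A →ₐ[R] Matrix (Fin n) (Fin n) Ω) :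
    A →ₐ[R] Matrix (Fin n) (Fin n) Ω where
  toFun x := (Φ (star x))ᵀ
  map_one' := by rw [star_one, map_one, transpose_one]
  map_mul' x y := by rw [star_mul, map_mul, transpose_mul]
  map_zero' := by rw [star_zero, map_zero, transpose_zero]
  map_add' x y := by rw [star_add, map_add, transpose_add]
  commutes' r := by
    rw [SA.st, AlgHom.commutes, algebraMap_eq_diagonal, diagonal_transpose]

theorem setup_tw [StarRing A] [SA R A] {Φ : A →ₐ[R] Matrix (Fin n) (Fin n) Ω}
    (h : Setup R A Ω n Φ) : Setup R A Ω n (tw Φ) := by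
  refine ⟨h.inj, h.free, h.finite, h.rank, ?_, h.az⟩
  have key : ∀ M : Matrix (Fin n) (Fin n) Ω, Mᵀ ∈ Submodule.span Ω (Set.range (tw Φ)) := by
    intro M
    have hM : M ∈ Submodule.span Ω (Set.range Φ) := h.span ▸ Submodule.mem_top
    induction hM using Submodule.span_induction with
    | mem M hM =>
      obtain ⟨a, rfl⟩ := hM
      refine Submodule.subset_span ⟨star a, ?_⟩
      change (Φ (star (star a)))ᵀ = _
      rw [star_star]
    | zero => exact Submodule.zero_mem _
    | add M N _ _ hM hN => exact Submodule.add_mem _ hM hN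
    | smul c M _ hM => exact Submodule.smul_mem _ c hM
  exact eq_top_iff.2 fun M _ => key Mᵀ

end

/-- the determinant of the reflection in an idempotent -/
theorem det_refl {Ω V : Type u} [Field Ω] [AddCommGroup V] [Module Ω V] [Module.Finite Ω V]
    (f g : V →ₗ[Ω] V) (hf : ∀ v, f (f v) = f v) (hg : ∀ v, g v = v - (f v + f v)) :
    LinearMap.det g = (-1) ^ Module.finrank Ω (LinearMap.range f) := by
  have hi : IsIdempotentElem f := LinearMap.ext hf
  have hc := LinearMap.IsIdempotentElem.isCompl hi
  let e := Submodule.prodEquivOfIsCompl _ _ hc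
  have key : g = e.toLinearMap ∘ₗ
      LinearMap.prodMap ((-1 : Ω) • LinearMap.id) LinearMap.id ∘ₗ e.symm.toLinearMap := by
    refine LinearMap.ext fun v => ?_
    obtain ⟨⟨⟨_, a, rfl⟩, b, hb⟩, rfl⟩ := e.surjective v
    simp only [LinearMap.comp_apply, LinearEquiv.coe_coe, LinearEquiv.symm_apply_apply]
    change g (f a + b) = (-1 : Ω) • f a + b
    rw [hg, map_add, hf, LinearMap.mem_ker.1 hb, neg_one_smul]
    abel
  rw [key, LinearMap.det_conj, LinearMap.det_prodMap, LinearMap.det_smul, LinearMap.det_id,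
    LinearMap.det_id, mul_one, mul_one]

/-- the left ideal generated by a matrix, row by row -/
theorem finrank_mulRight {Ω : Type u} [Field Ω] {n : ℕ} (E : Matrix (Fin n) (Fin n) Ω) :
    Module.finrank Ω (LinearMap.range (LinearMap.mulRight Ω E)) =
      n * Module.finrank Ω (LinearMap.range E.vecMulLinear) := by
  let θ : (Fin n → LinearMap.range E.vecMulLinear) →ₗ[Ω] Matrix (Fin n) (Fin n) Ω :=
    (LinearMap.range E.vecMulLinear).subtype.compLeft (Fin n)
  have hθ : Injective θ := fun x y hxy => funext fun i => Subtype.ext (congrFun hxy i)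
  have hr : LinearMap.range (LinearMap.mulRight Ω E) = LinearMap.range θ := by
    apply le_antisymm
    · rintro _ ⟨X, rfl⟩
      exact ⟨fun i => ⟨_, X i, rfl⟩, rfl⟩
    · rintro _ ⟨x, rfl⟩
      choose X hX using fun i => (x i).2
      exact ⟨Matrix.of X, funext hX⟩
  rw [hr, LinearMap.finrank_range_of_inj hθ, Module.finrank_pi_fintype, Finset.sum_const,
    Finset.card_univ, Fintype.card_fin, smul_eq_mul]

end NStP

open NStP in
theorem pNSt : S_NSt.{u} := by
  intro R A Ω _ _ _ _ _ _ _ n Φ h x
  obtain ⟨E, hE⟩ := exists_equiv h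
  obtain ⟨E', hE'⟩ := exists_equiv (setup_tw h)
  have := ud Ω _ n n E E' (1 ⊗ₜ[R] x)
  rw [hE, hE', one_smul, one_smul] at this
  rw [this]
  exact (det_transpose _).symm

open NStP in
theorem pIRk : S_IRk.{u} := by
  intro R A Ω _ _ _ _ _ n Φ h e he hfree
  have : Nontrivial R := (algebraMap R Ω).domain_nontrivial
  obtain ⟨E, hE⟩ := exists_equiv h
  refine ⟨Module.finrank Ω (LinearMap.range (Φ e).vecMulLinear), ?_, ?_⟩
  · let p := LinearMap.mulRight R e
    let i := (LinearMap.range p).subtype.baseChange Ω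
    let q := p.rangeRestrict.baseChange Ω
    have hqi : ∀ z, q (i z) = z := fun z => by
      induction z using TensorProduct.induction_on with
      | zero => simp
      | add y z hy hz => simp only [map_add, hy, hz]
      | tmul c x =>
        obtain ⟨_, x, rfl⟩ := x
        change c ⊗ₜ[R] p.rangeRestrict (p x) = _
        congr 1
        apply Subtype.ext
        change x * e * e = x * e
        rw [mul_assoc, he]
    have hiq : ∀ y, E (i (q y)) = E y * Φ e := fun y => by
      induction y using TensorProduct.induction_on with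
      | zero => simp
      | add y z hy hz => simp only [map_add, hy, hz, add_mul]
      | tmul c x =>
        change E (c ⊗ₜ[R] (x * e)) = _
        rw [hE, hE, map_mul, smul_mul_assoc]
    let θ := E.toLinearMap ∘ₗ i
    have hθ : Injective θ := E.injective.comp (LeftInverse.injective hqi)
    have hr : LinearMap.range (LinearMap.mulRight Ω (Φ e)) = LinearMap.range θ := by
      apply le_antisymm
      · rintro _ ⟨X, rfl⟩
        obtain ⟨y, rfl⟩ := E.surjective X
        exact ⟨q y, hiq y⟩
      · rintro _ ⟨z, rfl⟩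
        refine ⟨E (i z), ?_⟩
        have := hiq (i z)
        rw [hqi] at this
        exact this.symm
    rw [← finrank_mulRight, hr, LinearMap.finrank_range_of_inj hθ, Module.finrank_baseChange]
  · have hE2 : Φ e * Φ e = Φ e := by rw [← map_mul, he]
    rw [← det_transpose, ← LinearMap.det_toLin']
    refine det_refl _ _ (fun v => ?_) fun v => ?_
    · simp only [vecMulLinear_apply, vecMul_vecMul, hE2]
    · rw [toLin'_apply, mulVec_transpose, two_mul, map_sub, map_add, map_one, vecMul_sub,
        vecMul_add, vecMul_one, vecMulLinear_apply]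

end Pool.Agent.P.MP_46a8f8_ag.GU
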