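import Pool.Agent.P.MP_46a8f8_ag.GU.Sm

/-!
A lemma of Nakayama type: multiplication by a suitable `s = 1 mod y` on `N` extends to an
`R`-linear map from `U` to `N`.
-/

namespace Pool.Agent.P.MP_46a8f8_ag.GU

open Function

universe u

namespace NakP

/-- Nakayama for an action given by an algebra map to the endomorphisms -/
theorem nak {R T X : Type u} [CommRing R] [CommRing T] [Algebra R T] [AddCommGroup X]
    [Module R X] [Module.Finite R X] (Φ : T →ₐ[R] Module.End R X) (S : Submodule R X)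
    (hS : ∀ t, ∀ x ∈ S, Φ t x ∈ S) (y : T) (h : ∀ x, ∃ a ∈ S, ∃ x', x = a + Φ y x') :
    ∃ s, y ∣ s - 1 ∧ ∀ x, Φ s x ∈ S := by
  let _ : Module T X := Module.compHom X (Φ : T →+* Module.End R X)
  have hsm : ∀ (t : T) (x : X), t • x = Φ t x := fun _ _ => rfl
  have : IsScalarTower R T X := ⟨fun r t x => by
    rw [hsm, hsm, map_smul, LinearMap.smul_apply]⟩
  have : Module.Finite T X := Module.Finite.of_restrictScalars_finite R T X
  let S' : Submodule T X :=
    { carrier := S
      add_mem' := fun ha hb => S.add_mem ha hb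
      zero_mem' := S.zero_mem
      smul_mem' := fun t x hx => hS t x hx }
  obtain ⟨s, hs, hle⟩ := Submodule.exists_sub_one_mem_and_smul_le_of_fg_of_le_sup
    (I := Ideal.span {y}) (N := S') (N' := ⊤) (P := ⊤) Module.Finite.fg_top le_rfl (by
      intro x _
      obtain ⟨a, ha, x', rfl⟩ := h x
      exact Submodule.add_mem_sup ha
        (Submodule.smul_mem_smul (Ideal.mem_span_singleton_self y) Submodule.mem_top))
  refine ⟨s, Ideal.mem_span_singleton.1 hs, fun x => ?_⟩
  exact hle (Submodule.smul_mem_pointwise_smul x s ⊤ Submodule.mem_top)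

section

variable (R : Type u) {T U : Type u} [CommRing R] [CommRing T] [Algebra R T]
  [AddCommGroup U] [Module T U] [Module R U] [IsScalarTower R T U] (N : Submodule T U)

/-- multiplication on `N` -/
def mu (t : T) : N →ₗ[R] N := Algebra.lsmul R R N t

theorem mu_apply (t : T) (n : N) : mu R N t n = t • n := rfl

/-- the action by precomposition -/
def pre : T →ₐ[R] Module.End R (N →ₗ[R] N) where
  toFun t := LinearMap.lcomp R N (mu R N t)
  map_one' := by
    refine LinearMap.ext fun h => LinearMap.ext fun n => ?_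
    simp [mu_apply]
  map_mul' a b := by
    refine LinearMap.ext fun h => LinearMap.ext fun n => ?_
    simp only [LinearMap.lcomp_apply, mu_apply, Module.End.mul_apply]
    rw [mul_comm, mul_smul]
  map_zero' := by
    refine LinearMap.ext fun h => LinearMap.ext fun n => ?_
    simp [mu_apply]
  map_add' a b := by
    refine LinearMap.ext fun h => LinearMap.ext fun n => ?_
    simp only [LinearMap.lcomp_apply, mu_apply, LinearMap.add_apply]
    rw [add_smul, map_add]
  commutes' r := by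
    refine LinearMap.ext fun h => LinearMap.ext fun n => ?_
    simp only [LinearMap.lcomp_apply, mu_apply, Module.algebraMap_end_apply,
      LinearMap.smul_apply]
    rw [algebraMap_smul, map_smul]

theorem pre_apply (t : T) (h : N →ₗ[R] N) (n : N) : pre R N t h n = h (t • n) := rfl

/-- the inclusion -/
def inc : N →ₗ[R] U := N.subtype.restrictScalars R

/-- restrictions of maps defined on `U` -/
def Res : Submodule R (N →ₗ[R] N) := LinearMap.range (LinearMap.lcomp R N (inc R N))

theorem mem_Res (h : N →ₗ[R] N) : h ∈ Res R N ↔ ∃ k : U →ₗ[R] N, ∀ n : N, k n = h n := by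
  constructor
  · rintro ⟨k, rfl⟩
    exact ⟨k, fun _ => rfl⟩
  · rintro ⟨k, hk⟩
    exact ⟨k, LinearMap.ext hk⟩

theorem res_stab (t : T) (h : N →ₗ[R] N) (hh : h ∈ Res R N) : pre R N t h ∈ Res R N := by
  obtain ⟨k, hk⟩ := (mem_Res R N h).1 hh
  refine (mem_Res R N _).2 ⟨k ∘ₗ Algebra.lsmul R R U t, fun n => ?_⟩
  rw [pre_apply, ← hk]
  rfl

end

/-- the section -/
theorem sect {R T U : Type u} [CommRing R] [CommRing T] [Algebra R T]
    [AddCommGroup U] [Module T U] [Module R U] [IsScalarTower R T U]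
    (N P : Submodule T U) (y : T) (hP : ∀ z, z ∈ P ↔ ∃ n ∈ N, ∃ w : U, z = n + y • w)
    [Module.Projective R P] : ∃ Ω : P →ₗ[R] U, ∀ z : P, (z : U) - y • Ω z ∈ N := by
  let m₀ : (N × U) →ₗ[R] U := (inc R N).coprod (Algebra.lsmul R R U y)
  have hm₀ : ∀ p : N × U, m₀ p = (p.1 : U) + y • p.2 := fun _ => rfl
  let m : (N × U) →ₗ[R] P :=
    { toFun := fun p => ⟨m₀ p, (hP _).2 ⟨p.1, p.1.2, p.2, hm₀ p⟩⟩
      map_add' := fun a b => Subtype.ext (map_add m₀ a b)
      map_smul' := fun r a => Subtype.ext (map_smul m₀ r a) }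
  have hm : Surjective m := by
    intro z
    obtain ⟨n, hn, w, hz⟩ := (hP z).1 z.2
    exact ⟨(⟨n, hn⟩, w), Subtype.ext hz.symm⟩
  obtain ⟨σ, hσ⟩ := Module.projective_lifting_property m LinearMap.id hm
  refine ⟨LinearMap.snd R N U ∘ₗ σ, fun z => ?_⟩
  have h1 : ((σ z).1 : U) + y • (σ z).2 = z :=
    congrArg Subtype.val (LinearMap.congr_fun hσ z)
  have h2 : (z : U) - y • (σ z).2 = (σ z).1 := by rw [← h1, add_sub_cancel_right]
  change (z : U) - y • (σ z).2 ∈ N
  rw [h2]
  exact (σ z).1.2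

end NakP

open NakP in
theorem pNak : S_Nak.{u} := by
  intro R T U _ _ _ _ _ _ _ _ _ N P y s₀ hs₀ hsat hP hproj
  obtain ⟨Ω, hΩ⟩ := sect (R := R) N P y hP
  have hNP : ∀ n : N, (n : U) ∈ P := fun n => (hP _).2 ⟨n, n.2, 0, by simp⟩
  have hyP : ∀ v : U, y • v ∈ P := fun v => (hP _).2 ⟨0, N.zero_mem, v, by simp⟩
  let iN : N →ₗ[R] P :=
    { toFun := fun n => ⟨n, hNP n⟩
      map_add' := fun _ _ => rfl
      map_smul' := fun _ _ => rfl }
  let iY : U →ₗ[R] P :=
    { toFun := fun v => ⟨y • v, hyP v⟩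
      map_add' := fun a b => Subtype.ext (smul_add y a b)
      map_smul' := fun r a => Subtype.ext (smul_comm y r a) }
  have hf : ∀ n : N, s₀ • Ω (iN n) ∈ N := fun n => hsat _ (by
    have h := N.sub_mem n.2 (hΩ (iN n))
    have e : (n : U) - ((iN n : U) - y • Ω (iN n)) = y • Ω (iN n) := by
      change (n : U) - ((n : U) - y • Ω (iN n)) = _
      abel
    rwa [e] at h)
  have hk : ∀ v : U, s₀ • (v - Ω (iY v)) ∈ N := fun v => hsat _ (by
    rw [smul_sub]
    exact hΩ (iY v))
  let f : N →ₗ[R] N :=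
    { toFun := fun n => ⟨s₀ • Ω (iN n), hf n⟩
      map_add' := fun a b => Subtype.ext (by
        change s₀ • Ω (iN (a + b)) = s₀ • Ω (iN a) + s₀ • Ω (iN b)
        rw [map_add, map_add, smul_add])
      map_smul' := fun r a => Subtype.ext (by
        change s₀ • Ω (iN (r • a)) = r • s₀ • Ω (iN a)
        rw [map_smul, map_smul, smul_comm]) }
  let k : U →ₗ[R] N :=
    { toFun := fun v => ⟨s₀ • (v - Ω (iY v)), hk v⟩
      map_add' := fun a b => Subtype.ext (by
        change s₀ • (a + b - Ω (iY (a + b))) = s₀ • (a - Ω (iY a)) + s₀ • (b - Ω (iY b))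
        rw [map_add, map_add, ← smul_add]
        congr 1
        abel)
      map_smul' := fun r a => Subtype.ext (by
        change s₀ • (r • a - Ω (iY (r • a))) = r • s₀ • (a - Ω (iY a))
        rw [map_smul, map_smul, ← smul_sub, smul_comm]) }
  have key : ∀ n : N, s₀ • n = k n + f (y • n) := fun n => Subtype.ext (by
    change s₀ • (n : U) = s₀ • ((n : U) - Ω (iY n)) + s₀ • Ω (iN (y • n))
    have e : iN (y • n) = iY n := rfl
    rw [e, ← smul_add, sub_add_cancel])
  have : IsNoetherian R N :=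
    isNoetherian_of_injective (inc R N) Subtype.val_injective
  obtain ⟨t, ht⟩ := hs₀
  obtain ⟨s, hs, hle⟩ := nak (pre R N) (Res R N) (res_stab R N) y (fun h => by
    refine ⟨h ∘ₗ k ∘ₗ inc R N, (mem_Res R N _).2 ⟨h ∘ₗ k, fun _ => rfl⟩,
      h ∘ₗ f - pre R N t h, LinearMap.ext fun n => ?_⟩
    change h n = h (k n) + (h (f (y • n)) - h (t • y • n))
    have e : n = s₀ • n - t • y • n := by
      rw [smul_smul, mul_comm t y, ← ht, sub_smul, one_smul, sub_sub_cancel]
    rw [← add_sub_assoc, ← map_add, ← key, ← map_sub, ← e])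
  obtain ⟨κ, hκ⟩ := (mem_Res R N _).1 (hle LinearMap.id)
  refine ⟨s, inc R N ∘ₗ κ, hs, fun v => (κ v).2, fun n hn => ?_⟩
  exact congrArg Subtype.val (hκ ⟨n, hn⟩)

end Pool.Agent.P.MP_46a8f8_ag.GU
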