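import Pool.Agent.P.MP_46a8f8_ag.GU.Sm

/-! The choice of the operator `g`. -/

namespace Pool.Agent.P.MP_46a8f8_ag.GU

open Function

universe u

namespace PickP

variable {T M B : Type u} [CommRing T] [AddCommGroup M] [Module T M] [CommRing B] [Algebra T B]

theorem bij [Module.Finite T M] {j : T} (hj : j ∈ Ideal.jacobson (⊥ : Ideal T))
    (f v : Module.End T M) (h : ∀ w, f w = w + j • v w) : Bijective f := by
  refine OrzechProperty.bijective_of_surjective_endomorphism f (LinearMap.range_eq_top.1 ?_)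
  refine top_le_iff.1 (Submodule.le_of_le_smul_of_le_jacobson_bot Module.Finite.fg_top le_rfl
    fun w _ => ?_)
  have e : w = f w + j • (-v w) := by rw [h, smul_neg, add_neg_cancel_right]
  rw [e]
  exact Submodule.add_mem_sup (LinearMap.mem_range_self f w)
    (Submodule.smul_mem_smul hj Submodule.mem_top)

theorem core [Module.Finite T M] (ψ : B →ₐ[T] Module.End T M) (y s s₀ t : T) (E H : B)
    (hE : E * E = E + algebraMap T B y * H) (hs : s ^ 3 * s₀ = 1 - y * t)
    (hj : y * (s ^ 3 * s₀) ∈ Ideal.jacobson (⊥ : Ideal T)) :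
    ∃ c g γ : Module.End T M, c ∈ Algebra.adjoin T {ψ E} ∧ (∀ w, g w = w - s ^ 3 • c w) ∧
      (∀ w, g (γ w) = y • w) ∧ (∀ w, γ (g w) = y • w) ∧
      (∀ w, ∃ w', g w = w - ψ E w + y • w') ∧ ∀ w, ∃ w', γ w = ψ E w + y • w' := by
  have mul : ∀ (a b : B) w, ψ (a * b) w = ψ a (ψ b w) := fun a b w => by rw [map_mul]; rfl
  have sm : ∀ (r : T) (b : B) w, ψ (algebraMap T B r * b) w = r • ψ b w := fun r b w => by
    rw [mul, AlgHom.commutes]; rfl
  have one : ∀ w, ψ 1 w = w := fun w => by rw [map_one]; rfl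
  have add : ∀ (a b : B) w, ψ (a + b) w = ψ a w + ψ b w := fun a b w => by rw [map_add]; rfl
  have sub : ∀ (a b : B) w, ψ (a - b) w = ψ a w - ψ b w := fun a b w => by rw [map_sub]; rfl
  have hs' := congrArg (algebraMap T B) hs
  rw [map_mul, map_sub, map_one, map_mul] at hs'
  obtain ⟨C, hC⟩ : ∃ C : B, C = algebraMap T B s₀ *
    (1 - algebraMap T B y * (1 - algebraMap T B t) - (1 - E) ^ 2) := ⟨_, rfl⟩
  obtain ⟨b, hb⟩ : ∃ b : B, b = 1 - algebraMap T B y * algebraMap T B t ^ 2 * E ^ 2 := ⟨_, rfl⟩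
  obtain ⟨V, hV⟩ : ∃ V : B, V = 2 * H - algebraMap T B t ^ 2 * E ^ 2 * (E ^ 2 - 2 * E) + H ^ 2 +
    b * (1 - algebraMap T B t) := ⟨_, rfl⟩
  obtain ⟨G, hG⟩ : ∃ G : B, G = 1 - algebraMap T B (s ^ 3) * C := ⟨_, rfl⟩
  obtain ⟨Γ, hΓ⟩ : ∃ Γ : B, Γ = E ^ 2 + algebraMap T B y * b := ⟨_, rfl⟩
  obtain ⟨U, hU⟩ : ∃ U : B, U = 1 + algebraMap T B (y * (s ^ 3 * s₀)) * V := ⟨_, rfl⟩
  have hmem : ψ C ∈ Algebra.adjoin T {ψ E} := by
    have hE' : E ∈ (Algebra.adjoin T {ψ E}).comap ψ := Algebra.self_mem_adjoin_singleton T (ψ E)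
    have : C ∈ (Algebra.adjoin T {ψ E}).comap ψ := hC ▸
      mul_mem (Subalgebra.algebraMap_mem _ _) (sub_mem (sub_mem (one_mem _)
        (mul_mem (Subalgebra.algebraMap_mem _ _) (sub_mem (one_mem _)
          (Subalgebra.algebraMap_mem _ _)))) (pow_mem (sub_mem (one_mem _) hE') 2))
    exact this
  have hb' := bij hj (ψ U) (ψ V) fun w => by rw [hU, add, one, sm]
  have hU' : U = 1 + algebraMap T B y * (1 - algebraMap T B y * algebraMap T B t) * V := by
    rw [hU, map_mul, map_mul, hs']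
  have hG' : G = 1 - (1 - algebraMap T B y * algebraMap T B t) *
      (1 - algebraMap T B y * (1 - algebraMap T B t) - (1 - E) ^ 2) := by
    rw [hG, hC, ← mul_assoc, hs']
  have k1 : G * Γ = algebraMap T B y * U := by
    rw [hG', hU', hΓ, hV, hb]
    linear_combination ((1 - algebraMap T B y * algebraMap T B t) *
      (E * E - E + algebraMap T B y * H + 2 * algebraMap T B y)) * hE
  have k2 : G = 1 - E + algebraMap T B y * (algebraMap T B t * E +
      (1 - algebraMap T B y * algebraMap T B t) * (1 - algebraMap T B t + H)) := by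
    rw [hG']
    linear_combination (1 - algebraMap T B y * algebraMap T B t) * hE
  have k3 : Γ = E * U + algebraMap T B y *
      (H + b - (1 - algebraMap T B y * algebraMap T B t) * E * V) := by
    rw [hU', hΓ]
    linear_combination hE
  let f := LinearEquiv.ofBijective (ψ U) hb'
  have hf : ∀ x, f.symm (ψ U x) = x := f.symm_apply_apply
  refine ⟨ψ C, ψ G, ψ Γ ∘ₗ f.symm.toLinearMap, hmem, fun w => by rw [hG, sub, one, sm],
    fun w => ?_, fun w => ?_, fun w => ⟨_, by rw [k2, add, sub, one, sm]⟩, fun w => ?_⟩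
  · obtain ⟨x, rfl⟩ := hb'.2 w
    change ψ G (ψ Γ (f.symm (ψ U x))) = _
    rw [hf, ← mul, k1, sm]
  · obtain ⟨x, rfl⟩ := hb'.2 w
    change ψ Γ (f.symm (ψ G (ψ U x))) = _
    rw [← mul, mul_comm G U, mul, hf, ← mul, mul_comm Γ G, k1, sm]
  · obtain ⟨x, rfl⟩ := hb'.2 w
    refine ⟨ψ (H + b - (1 - algebraMap T B y * algebraMap T B t) * E * V) x, ?_⟩
    change ψ Γ (f.symm (ψ U x)) = _
    rw [hf, k3, add, mul, sm]

end PickP

open scoped IsMulCommutative in
theorem pPick : S_Pick.{u} := by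
  intro T M _ _ _ _ _ _ y s e hy hs he
  choose w' hw' using he
  let b := Module.Free.chooseBasis T M
  let η : Module.End T M := b.constr T fun i => w' (b i)
  have h1 : e * e = e + y • η := b.ext fun i => by
    simp only [η, Module.End.mul_apply, LinearMap.add_apply, LinearMap.smul_apply,
      Module.Basis.constr_basis, hw']
  have hM : IsSMulRegular M y := fun u v h => b.repr.injective (Finsupp.ext fun i => hy (by
    have := congrArg (fun z => b.repr z i) h
    simpa using this))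
  have h2 : e * η = η * e := LinearMap.ext fun w => hM (by
    have a1 : e * (e * e) = e * e + y • (e * η) := by rw [h1, mul_add, mul_smul_comm, h1]
    have a2 : e * e * e = e * e + y • (η * e) := by rw [h1, add_mul, smul_mul_assoc, h1]
    rw [mul_assoc, a1, add_right_inj] at a2
    exact LinearMap.congr_fun a2 w)
  obtain ⟨j, hj, hj1⟩ := exists_mem_sub_one_mem (Ideal.span {y})
  obtain ⟨r, rfl⟩ := Ideal.mem_span_singleton'.1 hj
  obtain ⟨d, hd⟩ := hs
  have hJ : y * (s ^ 3 * (1 - r * y)) ∈ Ideal.jacobson (⊥ : Ideal T) := by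
    refine Ideal.mem_sInf.2 fun {𝔫} h𝔫 => ?_
    by_cases h : Ideal.span {y} ≤ 𝔫
    · exact 𝔫.mul_mem_right _ (h (Ideal.mem_span_singleton_self y))
    · have := 𝔫.neg_mem (hj1 𝔫 h𝔫.2 h)
      rw [neg_sub] at this
      exact 𝔫.mul_mem_left _ (𝔫.mul_mem_left _ this)
  have := Algebra.isMulCommutative_adjoin T (s := ({e, η} : Set (Module.End T M))) (by
    rintro _ (rfl | rfl) _ (rfl | rfl)
    exacts [rfl, h2, h2.symm, rfl])
  exact PickP.core (B := Algebra.adjoin T ({e, η} : Set (Module.End T M)))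
    (Subalgebra.val _) y s (1 - r * y) (r * s ^ 3 - d * (s ^ 2 + s + 1))
    ⟨e, Algebra.subset_adjoin (by simp)⟩ ⟨η, Algebra.subset_adjoin (by simp)⟩
    (Subtype.ext (by simpa [Algebra.algebraMap_eq_smul_one] using h1))
    (by linear_combination (s ^ 2 + s + 1) * hd) hJ

end Pool.Agent.P.MP_46a8f8_ag.GU
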