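import Pool.Agent.P.MP_46a8f8_ag.GU.Sm

/-!
The end of the deformation argument: transfer to the ground ring.
-/

namespace Pool.Agent.P.MP_46a8f8_ag.GU

open TensorProduct Function Matrix IsLocalRing Polynomial

universe u

namespace PostP

variable {R A T : Type u} [CommRing R] [Ring A] [Algebra R A] [StarRing A] [CommRing T]
  [Algebra R T]

/-- a linear operator seen over the ground ring -/
def rs (U : FM R A T T) (τ : T →ₗ[R] R) (f : U.M →ₗ[T] U.M) :
    (U.trf τ).M →ₗ[R] (U.trf τ).M where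
  toFun := f
  map_add' := map_add f
  map_smul' c m := map_smul f (algebraMap R T c) m

/-- a submodule seen over the ground ring -/
def rn (U : FM R A T T) (τ : T →ₗ[R] R) (N : Submodule T U.M) : Submodule R (U.trf τ).M where
  carrier := {m | (m : U.M) ∈ N}
  add_mem' := N.add_mem
  zero_mem' := N.zero_mem
  smul_mem' c _ h := N.smul_mem (algebraMap R T c) h

/-- equivariant, self adjoint, commuting with `π` and preserving `N` -/
structure Nice (U : FM R A T T) (π : U.M →ₗ[T] U.M) (N : Submodule T U.M)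
    (f : Module.End T U.M) : Prop where
  eqv : ∀ (a : A) (m : U.M), f (U.ρ a m) = U.ρ a (f m)
  adj : ∀ u v, U.b (f u) v = U.b u (f v)
  pi : ∀ u, f (π u) = π (f u)
  mem : ∀ n ∈ N, f n ∈ N

omit [StarRing A] in
theorem Nice.pow {U : FM R A T T} {π : U.M →ₗ[T] U.M} {N : Submodule T U.M}
    {e : Module.End T U.M} (h : Nice U π N e) (n : ℕ) : Nice U π N (e ^ n) := by
  induction n with
  | zero => exact ⟨fun _ _ => rfl, fun _ _ => rfl, fun _ => rfl, fun _ hn => hn⟩
  | succ n ih =>
    refine ⟨fun a m => ?_, fun u v => ?_, fun u => ?_, fun m hm => ?_⟩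
    · rw [pow_succ, Module.End.mul_apply, Module.End.mul_apply, h.eqv, ih.eqv]
    · conv_lhs => rw [pow_succ, Module.End.mul_apply, ih.adj, h.adj]
      rw [pow_succ', Module.End.mul_apply]
    · rw [pow_succ, Module.End.mul_apply, Module.End.mul_apply, h.pi, ih.pi]
    · rw [pow_succ, Module.End.mul_apply]
      exact ih.mem _ (h.mem m hm)

omit [StarRing A] in
theorem Nice.smul {U : FM R A T T} {π : U.M →ₗ[T] U.M} {N : Submodule T U.M}
    {e : Module.End T U.M} (h : Nice U π N e) (t : T) : Nice U π N (t • e) := by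
  refine ⟨fun a m => ?_, fun u v => ?_, fun u => ?_, fun m hm => ?_⟩
  · rw [LinearMap.smul_apply, LinearMap.smul_apply, h.eqv, map_smul]
  · rw [LinearMap.smul_apply, LinearMap.smul_apply, map_smul, map_smul, LinearMap.smul_apply,
      h.adj]
  · rw [LinearMap.smul_apply, LinearMap.smul_apply, h.pi, map_smul]
  · exact N.smul_mem t (h.mem m hm)

omit [StarRing A] in
theorem Nice.add {U : FM R A T T} {π : U.M →ₗ[T] U.M} {N : Submodule T U.M}
    {e f : Module.End T U.M} (h : Nice U π N e) (h' : Nice U π N f) : Nice U π N (e + f) := by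
  refine ⟨fun a m => ?_, fun u v => ?_, fun u => ?_, fun m hm => ?_⟩
  · rw [LinearMap.add_apply, LinearMap.add_apply, h.eqv, h'.eqv, map_add]
  · rw [LinearMap.add_apply, LinearMap.add_apply, map_add, map_add, LinearMap.add_apply,
      h.adj, h'.adj]
  · rw [LinearMap.add_apply, LinearMap.add_apply, h.pi, h'.pi, map_add]
  · exact N.add_mem (h.mem m hm) (h'.mem m hm)

omit [StarRing A] in
theorem Nice.adjoin {U : FM R A T T} {π : U.M →ₗ[T] U.M} {N : Submodule T U.M}
    {e c : Module.End T U.M} (h : Nice U π N e) (hc : c ∈ Algebra.adjoin T {e}) :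
    Nice U π N c := by
  rw [Algebra.adjoin_singleton_eq_range_aeval] at hc
  obtain ⟨p, rfl⟩ := hc
  change Nice U π N (aeval e p)
  induction p using Polynomial.induction_on' with
  | add p q hp hq =>
    rw [map_add]
    exact hp.add hq
  | monomial n a =>
    rw [aeval_monomial, ← Algebra.smul_def]
    exact (h.pow n).smul a

end PostP

open PostP in
theorem pPost (hPick : S_Pick.{u}) (hKap : S_Kap.{u}) (hMid : S_Mid.{u}) (hTr : S_TrSp.{u}) :
    S_Post.{u} := by
  intro R A T _ _ _ _ _ _ _ _ _ τ y y' ε E H φ ψ F π₀ U π i N s κ e hS hF hπ₀ hP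
  have := hF.free
  have := hF.fin
  have := hP.sp.free
  have := hP.sp.good.fin
  have := finite_maximalSpectrum R T
  have hy : IsSMulRegular T y := fun a b hab => by
    have h1 : F • a = F • b := by
      rw [Algebra.smul_def, Algebra.smul_def, ← hF.mul, mul_comm y y', mul_assoc, mul_assoc]
      exact congrArg (y' * ·) hab
    exact smul_right_injective T hS.ne h1
  obtain ⟨c, g, γ, hc, hg, hgγ, hγg, hge, hγe⟩ := hPick T U.M y s e hy hP.kp.one fun w => by
    obtain ⟨v, w1, h1⟩ := hP.e2 w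
    obtain ⟨w2, h2⟩ := hP.e1 v
    refine ⟨w2 + e w1 - w1, ?_⟩
    rw [h1, map_add, map_smul, h2, smul_sub, smul_add]
    abel
  have ne : Nice U π N e := ⟨hP.eeqv, hP.eadj, hP.epi, hP.emem⟩
  have nc := ne.adjoin hc
  have ng : Nice U π N g := by
    have : g = e ^ 0 + (-s ^ 3) • c := LinearMap.ext fun w => by
      rw [hg, pow_zero, LinearMap.add_apply, LinearMap.smul_apply, neg_smul, sub_eq_add_neg]
      rfl
    rw [this]
    exact (ne.pow 0).add (nc.smul _)
  have ns : Nice U π N (s • (1 : Module.End T U.M)) := (ne.pow 0).smul s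
  have hadj : ∀ u v, U.b (γ u) v = U.b u (γ v) := fun u v => hy (by
    have h1 : y • U.b (γ u) v = U.b (γ u) (g (γ v)) := by rw [hgγ, map_smul]
    have h2 : y • U.b u (γ v) = U.b (g (γ u)) (γ v) := by
      rw [hgγ, map_smul, LinearMap.smul_apply]
    change y • _ = y • _
    rw [h1, h2, ng.adj])
  have hadj' : ∀ u v, U.b ((y' • γ) u) v = U.b u ((y' • γ) v) := fun u v => by
    rw [LinearMap.smul_apply, LinearMap.smul_apply, map_smul, map_smul, LinearMap.smul_apply,
      hadj]
  have hyy : ∀ w : U.M, y' • y • w = algebraMap R T F • w := fun w => by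
    rw [smul_smul, mul_comm, hF.mul]
  have hW : (U.trf τ).Sp ε := hTr R A T τ ε U hF.perf hP.sp
  let κ' : (U.trf τ).M →ₗ[R] (U.trf τ).M :=
    { toFun := κ, map_add' := map_add κ, map_smul' := fun c m => hP.kp.lin c m }
  let i' : H.M →ₗ[R] (U.trf τ).M :=
    { toFun := i, map_add' := map_add i, map_smul' := fun c m => map_smulₛₗ i c m }
  have h1 : ∀ w : U.M, (y' • γ) (g w) = algebraMap R T F • w := fun w => by
    rw [LinearMap.smul_apply, hγg, hyy]
  obtain ⟨Φ, hΦ, hb, hz, hz'⟩ := hKap R A ε (U.trf τ) (rn U τ N) (rs U τ (s • 1)) (rs U τ c)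
    (rs U τ g) (rs U τ (y' • γ)) κ' F hW
    (fun x hx x' hx' => by
      change τ (U.b x x') = 0
      rw [hP.iso x hx x' hx', map_zero])
    hS.ne ns.eqv nc.eqv hP.keqv (fun u v => congrArg τ (ns.adj u v))
    (fun u v => congrArg τ (nc.adj u v)) (fun u v => congrArg τ (hadj' u v))
    (fun u => (map_smul c s u).symm) ns.mem nc.mem hP.kp.mem hP.kp.res
    (fun v hv => hP.kp.sat v fun n hn => hF.perf.1 (LinearMap.ext fun t => by
      have h2 : τ (U.b v (t • n)) = 0 := hv (t • n) (N.smul_mem t hn)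
      rw [map_smul, smul_eq_mul, mul_comm] at h2
      rw [map_zero]
      exact h2))
    (fun w => by
      change g w = w - s • c (s • s • w)
      rw [hg, map_smul, map_smul, smul_smul, smul_smul, pow_succ, pow_two])
    h1
  have hn : ∀ (w x : U.M) (w2 : U.M), e w = x + y • w2 → ∃ w', w = x + g w' := fun w x w2 h => by
    obtain ⟨w1, h2⟩ := hge w
    refine ⟨w + γ (w2 - w1), ?_⟩
    rw [map_add, hgγ, h2, h, smul_sub]
    abel
  refine hMid R A ε E H (U.trf τ) φ ψ π₀ (rs U τ π) (rs U τ g) (rs U τ (y' • γ)) Φ i' F hS hW hπ₀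
    ⟨hP.proj.1, hP.proj.2.1, fun x x' => ?_⟩ hP.eqv ng.eqv hΦ
    (fun u v => congrArg τ (hadj' u v)) (fun w => ?_) h1 (fun w => (ng.pi w).symm) hP.comm
    (fun v v' => ?_) (fun w => ?_) hb (fun z => ?_) (fun x w => ?_)
  · change τ (U.b (π x) x') + τ (U.b x (π x')) = τ (U.b x x')
    rw [← map_add, hP.proj.2.2]
  · change g (y' • γ w) = algebraMap R T F • (w : U.M)
    rw [map_smul, hgγ, hyy]
  · obtain ⟨w1, h2⟩ := hγe (i v)
    obtain ⟨w2, h3⟩ := hP.e1 v
    refine ⟨τ (U.b (w2 + w1) (i v')), ?_⟩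
    change τ (U.b (y' • γ (i v)) (i v')) - _ = _
    have h4 : y' • γ (i v) = y' • i v + algebraMap R T F • (w2 + w1) := by
      rw [h2, h3, add_assoc, ← smul_add y, smul_add y', hyy]
    rw [h4, map_add, map_smul, map_smul, LinearMap.add_apply, LinearMap.smul_apply,
      LinearMap.smul_apply, hP.form, algebraMap_smul, smul_eq_mul, mul_comm y',
      ← Algebra.smul_def, τ.map_add, τ.map_smul, τ.map_smul, hF.one, smul_eq_mul, smul_eq_mul,
      mul_one, add_sub_cancel_left]
  · obtain ⟨v, w1, h2⟩ := hP.e2 w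
    obtain ⟨w', h3⟩ := hn w (i v) w1 h2
    exact ⟨v, w', h3⟩
  · obtain ⟨n, hn', h2⟩ := hz z
    obtain ⟨x, w1, h3⟩ := hP.e3 n hn'
    obtain ⟨w', h4⟩ := hn n (i (φ x)) w1 h3
    refine ⟨x, w' + z, h2.trans ?_⟩
    change n + g z = i (φ x) + g (w' + z)
    rw [map_add, ← add_assoc, ← h4]
  · obtain ⟨n, hn', w1, h2⟩ := hP.n1 x
    obtain ⟨z, h3⟩ := hz' n hn' (γ w1 + w)
    refine ⟨z, h3.trans ?_⟩
    change n + g (γ w1 + w) = i (φ x) + g w
    rw [map_add, hgγ, h2, add_assoc]

end Pool.Agent.P.MP_46a8f8_ag.GU
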