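import Pool.Agent.P.MP_46a8f8_ag.GU.So

/-!
The two residue forms of a lattice over a discrete valuation ring.
-/

namespace Pool.Agent.P.MP_46a8f8_ag.GU

open TensorProduct Function Matrix IsLocalRing

universe u

namespace Res2P

variable {ι : Type} [Fintype ι] [DecidableEq ι]

theorem canc {D : Type u} [CommRing D] [IsDomain D] {l : Matrix ι ι D} (hl : l.det ≠ 0)
    {M M' : Matrix ι ι D} (h : l * M = l * M') : M = M' := by
  have h1 : l.det • M = l.det • M' := by
    have := congrArg (fun X => l.adjugate * X) h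
    simpa only [← Matrix.mul_assoc, adjugate_mul, smul_mul_assoc, Matrix.one_mul] using this
  ext i j
  exact mul_left_cancel₀ hl (congrFun (congrFun h1 i) j)

variable {R A D k : Type u} [CommRing R] [Ring A] [Algebra R A] [StarRing A] [CommRing D]
  [Algebra R D]

theorem exists_s [SA R A] [IsDomain D] {δ : ℤˣ} {ρ : MRep R A D ι} {l : Matrix ι ι D} {x : D}
    (hx : x ≠ 0) (h : SymAdj δ ρ l) (hs : ∀ ξ, ∃ w, l *ᵥ w = x • ξ) :
    ∃ s : Matrix ι ι D, l * s = x • (1 : Matrix ι ι D) ∧ s * l = x • (1 : Matrix ι ι D) ∧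
      SymAdj δ ρ.dual s := by
  choose c hc using fun j => hs (Pi.single j 1)
  let s : Matrix ι ι D := Matrix.of fun i j => c j i
  have h1 : l * s = x • (1 : Matrix ι ι D) := by
    ext i j
    have := congrFun (hc j) i
    simp only [Pi.smul_apply, Pi.single_apply] at this
    rw [Matrix.smul_apply, one_apply, ← this]
    rfl
  have hd : l.det ≠ 0 := by
    intro h0
    have := congrArg det h1
    rw [det_mul, h0, zero_mul, det_smul, det_one, mul_one] at this
    exact pow_ne_zero _ hx this.symm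
  have h2 : s * l = x • (1 : Matrix ι ι D) := by
    refine canc hd ?_
    rw [← Matrix.mul_assoc, h1]
    simp
  refine ⟨s, h1, h2, canc hd ?_, fun a => canc hd ?_⟩
  · have h3 : l = δ • lᵀ := by rw [h.1, smul_smul, Int.units_mul_self, one_smul]
    have h4 : l * sᵀ = δ • (lᵀ * sᵀ) := by
      rw [← smul_mul_assoc, ← h3]
    rw [h4, ← transpose_mul, h2, mul_smul_comm, h1, transpose_smul, transpose_one]
  · change l * ((ρ.ρ (star a))ᵀ * s) = l * (s * ((ρ.ρ (star (star a)))ᵀ)ᵀ)
    rw [star_star, transpose_transpose, ← Matrix.mul_assoc, ← Matrix.mul_assoc, ← h.2,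
      Matrix.mul_assoc, h1]
    simp

theorem rank_add [IsDomain D] [Field k] (q : D →+* k) (hq : Surjective q) {x : D} (hx : x ≠ 0)
    (hk : ∀ d, q d = 0 ↔ x ∣ d) {l s : Matrix ι ι D} (h1 : l * s = x • (1 : Matrix ι ι D))
    (h2 : s * l = x • (1 : Matrix ι ι D)) :
    (s.map q).rank + (l.map q).rank = Fintype.card ι := by
  have hker : LinearMap.ker (s.map q).mulVecLin = LinearMap.range (l.map q).mulVecLin := by
    ext v
    rw [LinearMap.mem_ker, LinearMap.mem_range, mulVecLin_apply]
    constructor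
    · intro hv
      choose v0 hv0 using fun i => hq (v i)
      have e0 : v = q ∘ v0 := funext fun i => (hv0 i).symm
      have h3 : ∀ i, x ∣ (s *ᵥ v0) i := fun i => by
        rw [← hk, RingHom.map_mulVec, ← e0, hv]
        rfl
      choose u hu using h3
      have h4 : s *ᵥ v0 = x • u := funext hu
      have h5 : x • (l *ᵥ u) = x • v0 := by
        rw [← mulVec_smul, ← h4, mulVec_mulVec, h1, smul_mulVec, one_mulVec]
      have h6 : l *ᵥ u = v0 := funext fun i => mul_left_cancel₀ hx (congrFun h5 i)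
      refine ⟨q ∘ u, funext fun i => ?_⟩
      rw [mulVecLin_apply, ← RingHom.map_mulVec, h6, hv0]
    · rintro ⟨w, rfl⟩
      have h3 : s.map q * l.map q = 0 := by
        rw [← Matrix.map_mul, h2]
        ext i j
        rw [map_apply, Matrix.zero_apply, hk]
        exact Dvd.intro _ rfl
      rw [mulVecLin_apply, mulVec_mulVec, h3, zero_mulVec]
  have := LinearMap.finrank_range_add_finrank_ker (s.map q).mulVecLin
  rw [hker, Module.finrank_fintype_fun_eq_card] at this
  exact this

omit [DecidableEq ι] in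
theorem rank_eq [IsDomain D] {M : Type u} [AddCommGroup M] [Module D M] [Module.Finite D M]
    (θ : M →ₗ[D] (ι → D)) (hθ : Injective θ) {c : D} (hc : c ≠ 0) (h : ∀ v, ∃ w, θ w = c • v) :
    Module.finrank D M = Fintype.card ι := by
  rw [← Module.finrank_fintype_fun_eq_card D]
  refine le_antisymm (LinearMap.finrank_le_finrank_of_injective hθ) ?_
  choose w hw using fun i => h (Pi.basisFun D ι i)
  let g : (ι → D) →ₗ[D] M := (Pi.basisFun D ι).constr D w
  have hg : θ ∘ₗ g = c • LinearMap.id := (Pi.basisFun D ι).ext fun i => by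
    rw [LinearMap.comp_apply, Module.Basis.constr_basis, hw]
    rfl
  refine LinearMap.finrank_le_finrank_of_injective (f := g) fun v v' hv => ?_
  have h1 : c • v = c • v' := by
    have e1 := LinearMap.congr_fun hg v
    have e2 := LinearMap.congr_fun hg v'
    simp only [LinearMap.comp_apply, LinearMap.smul_apply, LinearMap.id_apply] at e1 e2
    rw [← e1, ← e2, hv]
  exact funext fun i => mul_left_cancel₀ hc (congrFun h1 i)

end Res2P

open Res2P

theorem pRes2 (h2 : S_B2.{u}) (hr : S_RkM.{u}) : S_Res2.{u} := by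
  intro R A D k _ _ _ _ _ _ _ _ _ _ _ q ε m W hq hker hW hfree hinj hm
  obtain ⟨x, hx⟩ := IsDiscreteValuationRing.exists_irreducible D
  have hmx : maximalIdeal D = Ideal.span {x} := hx.maximalIdeal_eq
  obtain ⟨ι, _, _, ρ, l, θ, e, hsym, hs, -, hb, hθ⟩ := h2 R A D x ε W hx.ne_zero
    (fun n hn => by
      rw [eq_maximalIdeal hn, hmx]
      exact Ideal.mem_span_singleton_self x) hW hfree hinj
  haveI := hW.fin
  have hθi : Injective θ := by
    rw [injective_iff_map_eq_zero]
    intro w hw
    refine hinj ?_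
    ext w'
    rw [hb, hw]
    simp
  have hcard := rank_eq θ hθi (pow_ne_zero e hx.ne_zero) hθ
  obtain ⟨s, h1, h1', hsym'⟩ := exists_s hx.ne_zero hsym hs
  have hadd := rank_add (q : D →+* k) hq hx.ne_zero (fun d => by
    rw [← Ideal.mem_span_singleton, ← hmx]
    exact hker d) h1 h1'
  obtain ⟨W1, g1, p1, r1⟩ := hr R A k ι (ρ.map q) ε (l.map q) (hsym.map q)
  obtain ⟨W2, g2, p2, r2⟩ := hr R A k ι (ρ.dual.map q) ε (s.map q) (hsym'.map q)
  by_cases hd : m ∣ Module.finrank k W1.M
  · refine ⟨W2, g2, p2, fun hd' => hm ?_⟩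
    rw [hcard, ← hadd]
    exact dvd_add (r2 ▸ hd') (r1 ▸ hd)
  · exact ⟨W1, g1, p1, hd⟩

end Pool.Agent.P.MP_46a8f8_ag.GU
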