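import Pool.Agent.P.MP_46a8f8_ag.GU.Sm
import Pool.Agent.P.MP_46a8f8_ag.Struct
import Pool.Agent.P.MP_46a8f8_ag.RegB

/-!
The smooth case from its packages.
-/

namespace Pool.Agent.P.MP_46a8f8_ag.GU

open TensorProduct Function IsLocalRing Polynomial

universe u

/-- one dimensional domains essentially of finite type have finite normalisation -/
def NagN (R : Type u) [CommRing R] : Prop :=
  ∀ (D : Type u) [CommRing D] [IsDomain D] [Algebra R D] [Algebra.EssFiniteType R D],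
    ringKrullDim D = 1 → Module.Finite D (integralClosure D (FractionRing D))

theorem NagN.up {R : Type u} [CommRing R] (h : NagN R) (O : Type u) [CommRing O] [Algebra R O]
    [Algebra.EssFiniteType R O] : NagN O := by
  intro D _ _ _ _ hd
  let : Algebra R D := ((algebraMap O D).comp (algebraMap R O)).toAlgebra
  have : IsScalarTower R O D := IsScalarTower.of_algebraMap_eq fun _ => rfl
  have : Algebra.EssFiniteType R D := Algebra.EssFiniteType.comp R O D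
  exact h D hd

theorem NagN.finN {R : Type u} [CommRing R] (h : NagN R) : FinN R :=
  fun p _ hp => h (R ⧸ p) hp

theorem pSM (h1 : S_Hfm.{u}) (h2 : S_D1.{u}) (h3 : S_Kap0.{u}) (h4 : S_IndM.{u})
    (h5 : S_Post.{u}) : S_SM.{u} := by
  intro R A _ _ _ _ _ _ _ _ ε E X φ F r hE hX hφ hb hF hr hs ⟨T, _, _, τ, y, y', hFr, hS⟩
  obtain ⟨δ, rfl⟩ : ∃ δ : ℤˣ, ε = -δ := ⟨-ε, (neg_neg ε).symm⟩
  obtain ⟨ι, _, _, ρ, u, hu, hub⟩ := h1 R A δ X hX
  have hH := ρ.hfm_sp δ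
  let φ' : E.M →ₗ[R] (ρ.hfm δ).M := u.toLinearMap ∘ₗ φ
  have hb' : ∀ x x', (ρ.hfm δ).b (φ' x) (φ' x') = F * E.b x x' := fun x x' =>
    (hub _ _).trans (hb x x')
  obtain ⟨ψ, hψ⟩ := hE.perf.exists_end ((ρ.hfm δ).b.compl₂ φ')
  have hψ' : ∀ v x, E.b (ψ v) x = (ρ.hfm δ).b v (φ' x) := hψ
  have hsim : Sim (-δ) E (ρ.hfm δ) φ' ψ F :=
    { spE := hE
      spH := hH
      eqv := hu.comp hφ
      form := hb'
      inv := fun v => hH.perf.ext fun w => by
        obtain ⟨x, hx⟩ := hs (u.symm w)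
        have hx' : φ' x = r • w := by
          change u (φ x) = _
          rw [hx, map_smul, u.apply_symm_apply]
        apply mul_left_cancel₀ hr
        rw [← smul_eq_mul, ← smul_eq_mul, ← map_smul, ← map_smul, ← hx', hb', hψ', map_smul,
          LinearMap.smul_apply, smul_eq_mul]
      ne := hF }
  obtain ⟨π₀, U, π, i, N, hπ₀, hP⟩ := h2 R A T τ y y' ι ρ δ E φ' ψ F hsim hFr hS
  obtain ⟨s, κ, hK⟩ := h3 R A T τ y y' _ E _ φ' ψ F π₀ U π i N hsim hFr hP
  obtain ⟨U', π', i', N', κ', e, hQ⟩ :=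
    h4 R A T y _ E _ φ' π₀ U π i N s κ hH.good hsim.eqv hπ₀.1 hP hK
  exact h5 R A T τ y y' _ E _ φ' ψ F π₀ U' π' i' N' s κ' e hsim hFr hπ₀ hQ

/-- the algebras with involution to which the method applies -/
structure Ok (R A : Type u) [CommRing R] [Ring A] [Algebra R A] [StarRing A] : Prop where
  tr : ∃ (τ : A →ₗ[R] R) (ε : ℤˣ), Trc τ ε
  ga : ∃ (S : Type u) (_ : CommRing S) (_ : Algebra R S) (_ : Algebra S A), GA R S A

theorem Ok.bc (hB : S_Bcg.{u}) (hG : S_GAbc.{u}) {R A : Type u} [CommRing R] [Ring A]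
    [Algebra R A] [StarRing A] [SA R A] (h : Ok R A) (O : Type u) [CommRing O] [Algebra R O]
    (hO : ∀ (S : Type u) [CommRing S] [IsDomain S] [Algebra R S] [Module.Free R S],
      IsDomain (O ⊗[R] S)) :
    letI := bcStar R A O
    Ok O (O ⊗[R] A) := by
  let := bcStar R A O
  obtain ⟨⟨τ, ε, hτ⟩, S, _, _, _, hS⟩ := h
  obtain ⟨τ', hτ'⟩ := (hB R A O).2 τ ε hτ
  have := hS.dom
  have := hS.free
  obtain ⟨_, hS'⟩ := hG R S A O hS (hO S)
  exact ⟨⟨τ', ε, hτ'⟩, O ⊗[R] S, _, _, _, hS'⟩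

theorem Ok.rk (hRk : S_Rk2.{u}) {R A : Type u} [CommRing R] [IsLocalRing R] [Ring A]
    [Algebra R A] [StarRing A] [SA R A] (h : Ok R A) : Rk R A := by
  obtain ⟨-, S, _, _, _, hS⟩ := h
  exact hRk R S A hS

/-- dimension at most three -/
theorem low (hC : S_Core.{u}) (hH : S_Herm.{u}) (hRk : S_Rk2.{u}) (hB : S_Bcg.{u})
    (hG : S_GAbc.{u}) (hD : S_DomL.{u}) (hU : S_RegUp.{u}) (hDn : S_HDown.{u}) (k : ℕ) :
    ∀ (R A : Type u) [CommRing R] [IsRegularLocalRing R] [Ring A] [Algebra R A] [StarRing A]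
      [SA R A] (e : ℕ), ringKrullDim R = e → e + k = 3 → NagN R → Ok R A → HermN R A := by
  induction k with
  | zero =>
    intro R A _ _ _ _ _ _ e he hk hN hO
    obtain rfl : e = 3 := hk
    have : IsDomain R := rDom R
    obtain ⟨τ, ε, hτ⟩ := hO.tr
    exact hH R A τ ε hτ.comm hτ.perf hτ.st (hO.rk hRk) fun E hE hL =>
      hC R A he hN.finN E ε hE hL
  | succ k ih =>
    intro R A _ _ _ _ _ _ e he hk hN hO
    have : IsDomain R := rDom R
    let 𝔮 := (maximalIdeal R).comap (evalRingHom (0 : R))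
    let O := Localization.AtPrime 𝔮
    obtain ⟨hreg, hdim⟩ := hU R e he O
    have : Algebra.EssFiniteType R O := Algebra.EssFiniteType.comp R R[X] O
    let := bcStar R A O
    have : SA O (O ⊗[R] A) := (hB R A O).1
    have hu : ∀ s : 𝔮.primeCompl, IsUnit (aeval (0 : R) (s : R[X])) := fun s => by
      by_contra hn
      exact s.2 (show evalRingHom (0 : R) s ∈ maximalIdeal R by
        simpa [coe_aeval_eq_eval] using hn)
    refine hDn R A O (IsLocalization.liftAlgHom (M := 𝔮.primeCompl) (f := aeval (0 : R)) hu) ?_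
    exact ih O (O ⊗[R] A) (e + 1) hdim (by omega) (hN.up O) (hO.bc hB hG O fun S _ _ _ _ =>
      (hD R S O).2 𝔮.primeCompl 𝔮.primeCompl_le_nonZeroDivisors)

/-- essentially smooth algebras -/
theorem smooth (hC : S_Core.{u}) (hH : S_Herm.{u}) (hRk : S_Rk2.{u}) (hB : S_Bcg.{u})
    (hG : S_GAbc.{u}) (hD : S_DomL.{u}) (hU : S_RegUp.{u}) (hDn : S_HDown.{u})
    (hL : S_HLoc.{u}) (hH2 : S_Herm2.{u}) (h1 : S_G1.{u}) (h2 : S_G2.{u}) (h3 : S_G3.{u})
    (B R : Type u) [CommRing B] [IsRegularLocalRing B] (hd : ringKrullDim B ≤ 3) [CommRing R]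
    [IsLocalRing R] [Algebra B R] [IsLocalHom (algebraMap B R)] [Algebra.FormallySmooth B R]
    [Algebra.EssFiniteType B R] (hN : NagN R) (A : Type u) [Ring A] [Algebra R A] [StarRing A]
    [SA R A] (hO : Ok R A) : HermN R A := by
  intro h c c' d d' hh hd0 hd0' e1 e2 e3
  have := Algebra.EssFiniteType.isNoetherianRing B R
  obtain ⟨e, he⟩ : ∃ e : ℕ, ringKrullDim B = e :=
    ⟨_, ((isRegularLocalRing_iff B).1 inferInstance).symm⟩
  have he3 : e ≤ 3 := by
    rw [he] at hd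
    exact_mod_cast hd
  obtain ⟨m, φ, hφ⟩ := struct B R
  have := RegBP.selfLoc B
  obtain ⟨hR, h𝔓, hreg⟩ := regB regAt regFlat rDom B R m e φ hφ
    ((regAt B B (maximalIdeal B) e).2 ⟨inferInstance, he⟩)
  have : IsDomain R := rDom R
  set 𝔓 := (maximalIdeal B).map (algebraMap B R) with h𝔓def
  let O := Localization.AtPrime 𝔓
  obtain ⟨hO1, hO2⟩ := (regAt R O 𝔓 e).1 hreg
  let := bcStar R A O
  have : SA O (O ⊗[R] A) := (hB R A O).1
  obtain ⟨c, c', d, d', hd, hd', e1, e2, e3⟩ := hL R A O 𝔓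
    (low hC hH hRk hB hG hD hU hDn (3 - e) O (O ⊗[R] A) e hO2 (by omega) (hN.up O)
      (hO.bc hB hG O fun S _ _ _ _ => (hD R S O).1 𝔓.primeCompl 𝔓.primeCompl_le_nonZeroDivisors))
    h c c' d d' hh hd0 hd0' e1 e2 e3
  by_cases hm : maximalIdeal R ≤ 𝔓
  · obtain ⟨v, rfl⟩ : IsUnit d := by
      by_contra hn
      exact hd (hm hn)
    obtain ⟨v', rfl⟩ : IsUnit d' := by
      by_contra hn
      exact hd' (hm hn)
    refine ⟨⟨(↑v⁻¹ : R) • c, ((v : R) * ↑v'⁻¹) • c', ?_, ?_⟩, ?_⟩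
    · rw [smul_mul_smul_comm, e3, Algebra.algebraMap_eq_smul_one, smul_smul,
        Units.inv_mul_cancel_left, Units.inv_mul, one_smul]
    · rw [smul_mul_smul_comm, e2, Algebra.algebraMap_eq_smul_one, smul_smul, mul_comm (v : R),
        Units.mul_inv_cancel_right, Units.inv_mul, one_smul]
    · change (↑v⁻¹ : R) • c * star ((↑v⁻¹ : R) • c) = h
      rw [HermP.star_smul', smul_mul_smul_comm, e1, smul_smul, mul_mul_mul_comm, Units.inv_mul,
        one_mul, one_smul]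
  · obtain ⟨x, hx, hx'⟩ := SetLike.not_le_iff_exists.1 hm
    have hxd : x * d ∉ 𝔓 := fun hh => (h𝔓.mem_or_mem hh).elim hx' hd
    have hxd' : x * d' ∉ 𝔓 := fun hh => (h𝔓.mem_or_mem hh).elim hx' hd'
    have hF : x * d * (x * d) ∈ maximalIdeal R :=
      Ideal.mul_mem_right _ _ (Ideal.mul_mem_right _ _ hx)
    obtain ⟨R', _, _, φ', hφ', Q, N, hQ, hQN⟩ := h1 B R m φ (x * d * (x * d)) hφ h𝔓 hF
      fun hh => (h𝔓.mem_or_mem hh).elim hxd hxd
    obtain ⟨T, _, _, _, g, g1, g2, g3, g4⟩ := h2 R R' φ' _ Q N hφ' hF hQ hQN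
    obtain ⟨τ, ε, hτ⟩ := hO.tr
    refine hH2 R A τ ε hτ (hO.rk hRk) h (x • c) c' (x * d) (x * d') hh
      (fun h0 => hxd (h0 ▸ 𝔓.zero_mem)) (fun h0 => hxd' (h0 ▸ 𝔓.zero_mem)) ?_ ?_
      (h3 R T _ g hF g1 g2 g3 g4)
    · rw [HermP.star_smul', smul_mul_smul_comm, e1, smul_smul, mul_mul_mul_comm]
    · rw [mul_smul_comm, e2, map_mul, Algebra.smul_def]

end Pool.Agent.P.MP_46a8f8_ag.GU
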