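import Pool.Agent.P.MP_46a8f8_ag.GU.So
import Pool.Agent.P.MP_46a8f8_ag.GU.SmTop
import Pool.Agent.P.MP_46a8f8_ag.GU.Lift

/-!
The neutral component of the unitary group from its packages.
-/

namespace Pool.Agent.P.MP_46a8f8_ag.GU

open TensorProduct Function IsLocalRing

universe u

theorem pImp (hGen : S_Gen.{u}) (hCh : S_Chain2.{u}) (hDiv : S_Div.{u}) (hD1 : S_Dg1.{u})
    (hD2 : S_Dg2.{u}) (hK0 : S_K0.{u}) (hEuc : S_Euc.{u}) (hLE : S_LiftE.{u})
    (hI : S_IRk.{u}) : S_Imp.{u} := by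
  intro R A Ω _ _ _ _ _ _ _ _ n Φ τ ε c d hS hτ hd e1 e2 e3
  rcases Nat.even_or_odd n with hn | hn
  swap
  · refine ⟨-1, by simp, by simp, ?_⟩
    rw [map_neg, map_one, Matrix.det_neg, Matrix.det_one, mul_one, Fintype.card_fin, hn.neg_one_pow]
  have : IsDomain R := rDom R
  have := hS.free
  have := hS.finite
  have hk : Surjective (algebraMap R (ResidueField R)) := residue_surjective
  have h2n : 2 * n ∣ Module.finrank R A := by
    rw [hS.rank, sq]
    exact mul_dvd_mul hn.two_dvd dvd_rfl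
  obtain ⟨hP, X₀, hX₀, hX₀'⟩ := hGen R A Ω n Φ τ ε c d hS hτ hd e1 e2 e3
  have hA : NAlt R A ε (ResidueField R) :=
    hD1 R A _ ε n hS.az hk (fun X hX => hDiv R A _ n X hS.az hS.rank hX)
      (hCh R A ε (2 * n) R (FractionRing R) (ResidueField R) (Algebra.ofId R _) hk hP)
  obtain ⟨X₁, hX₁, hX₁'⟩ := hK0 R A (2 * n) X₀ h2n hX₀ hX₀'
  obtain ⟨X, hX, hX', hle⟩ := hEuc R A (2 * n) X₁ hS.az h2n hX₁ hX₁'
  have := hX.1
  have := hX.2
  have hE : (HermP.Eh τ (1 : A)).Sp ε := HermP.eh_sp hτ.comm hτ.perf hτ.st 1 (star_one A)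
  obtain ⟨f, hf, hf'⟩ := hD2 R A (ResidueField R) ε (X.bc _) ((HermP.Eh τ (1 : A)).bc _) hS.az hk
    hA (inferInstanceAs (Module.Finite (ResidueField R) (ResidueField R ⊗[R] X.M)))
    (LiftP.good_bc hk hE.good) (LiftP.perf_bc hk hE) (by
      change Module.finrank (ResidueField R) (ResidueField R ⊗[R] X.M) ≤
        Module.finrank (ResidueField R) (ResidueField R ⊗[R] A)
      rwa [Module.finrank_baseChange, Module.finrank_baseChange])
  obtain ⟨e, he, hse, hfr, hrk⟩ := hLE R A τ ε X f hτ hX hf hf'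
  obtain ⟨r, hr, hdet⟩ := hI R A Ω n Φ hS e he hfr
  have hst : star (1 - 2 * e) = 1 - 2 * e := by
    rw [two_mul, star_sub, star_add, star_one, hse]
  have hsq : (1 - 2 * e) * (1 - 2 * e) = 1 := by
    rw [two_mul]
    simp only [mul_sub, sub_mul, mul_add, add_mul, he, one_mul, mul_one]
    abel
  refine ⟨1 - 2 * e, by rw [hst, hsq], by rw [hst, hsq], ?_⟩
  rw [hdet]
  refine Odd.neg_one_pow (Nat.not_even_iff_odd.1 fun h => hX' ?_)
  rw [← hrk, hr, mul_comm 2]
  exact mul_dvd_mul dvd_rfl h.two_dvd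

theorem topZ (hS : S_Sep.{u}) (hTr : S_Tr.{u}) (hRk : S_Rk.{u}) (hG : S_GA0.{u})
    (hAz : S_AzR.{u}) (hAO : S_AdjO.{u}) (hAU : S_AdjU.{u}) (hT : S_Tor0.{u})
    (B R : Type u) [CommRing B] [IsRegularLocalRing B] [CommRing R]
    [IsLocalRing R] [Algebra B R] [IsLocalHom (algebraMap B R)] [Algebra.FormallySmooth B R]
    [Algebra.EssFiniteType B R] (h2 : IsUnit (2 : R))
    (hsm : ∀ (A : Type u) [Ring A] [Algebra R A] [StarRing A] [SA R A], Ok R A → HermN R A)
    (S : Type u) [CommRing S] [IsDomain S] [Algebra R S] [Module.Finite R S] [Algebra.Etale R S]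
    (A : Type u) [Ring A] [Algebra S A] [IsAzumaya S A] [Algebra R A] [IsScalarTower R S A]
    (σ : A →ₗ[R] A) (hσ : IsInvol σ)
    (hfix : ∀ s : S, σ (algebraMap S A s) = algebraMap S A s → ∃ r, algebraMap R S r = s)
    (K : Type u) [Field K] [Algebra R K] [IsFractionRing R K]
    (O : Type u) [CommRing O] [Algebra R O] (hO : IsZTorsor σ O) (hK : Nonempty (O →ₐ[R] K)) :
    Nonempty (O →ₐ[R] R) := by
  letI : StarRing A := starOf σ hσ.1 hσ.2
  have := Algebra.EssFiniteType.isNoetherianRing B R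
  obtain ⟨e, he⟩ : ∃ e : ℕ, ringKrullDim B = e :=
    ⟨_, ((isRegularLocalRing_iff B).1 inferInstance).symm⟩
  obtain ⟨m, φ, hφ⟩ := struct B R
  have := RegBP.selfLoc B
  obtain ⟨hR, -, -⟩ := regB regAt regFlat rDom B R m e φ hφ
    ((regAt B B (maximalIdeal B) e).2 ⟨inferInstance, he⟩)
  have : IsDomain R := rDom R
  have h1 : σ 1 = 1 := star_one A
  have hA : AzI R S A :=
    { tower := inferInstance
      dom := inferInstance
      fin := inferInstance
      et := inferInstance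
      az := inferInstance
      st := fun r => by
        change σ (algebraMap R A r) = _
        rw [Algebra.algebraMap_eq_smul_one, map_smul, h1]
      fix := hfix
      two := h2 }
  have : SA R A := hS R S A hA
  obtain ⟨τ, ε, hτ, hp, hs⟩ := hTr R S A hA
  have hT' : Trc τ ε := ⟨hτ, hp, hs⟩
  have hGA := hG R S A hA
  refine hT R A σ (fun _ => rfl) (hRk R S A hA) (hsm A ⟨⟨τ, ε, hT'⟩, S, _, _, _, hGA⟩) K ?_ O hO hK
  by_cases hsu : Surjective (algebraMap R S)
  · exact hAO R A σ τ ε K (fun _ => rfl) (hAz R S A hsu hGA.az) hT'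
  · intro O' _ _ _ x _ _ _ _
    exact ⟨1, by rw [h1, mul_one], by rw [h1, mul_one], fun T _ _ f => hAU R S A hA hsu T _⟩

end Pool.Agent.P.MP_46a8f8_ag.GU
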