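import Pool.Agent.P.MP_46a8f8_ag.GU.Sm

/-!
Reduction along a coisotropic summand: a Lagrangian of the reduced space pulls back.
-/

namespace Pool.Agent.P.MP_46a8f8_ag.GU

open TensorProduct Function Matrix IsLocalRing

universe u

theorem pSubLag (hP : S_Proj.{u}) : S_SubLag.{u} := by
  intro R A _ _ _ _ _ ε Z Y X i p r hZ hY hH hi hr hp hs hb hc
  obtain ⟨e, he⟩ := hH
  have := hY.free
  have := hZ.free
  have := hZ.good.fin
  let f : X.M →ₗ[R] Y.M := (LinearMap.id - e) ∘ₗ r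
  have hf : ∀ x, f x = r x - e (r x) := fun _ => rfl
  have hfe : Eqv X Y.toRM f := he.compl.1.comp hr
  let L : Submodule R Z.M := (LinearMap.ker f).map i
  have hL : ∀ x, f x = 0 → i x ∈ L := fun x hx => ⟨x, hx, rfl⟩
  have hlag := he.isLag hY.perf
  have h1 : ∀ z, (∀ x, Z.b z (i x) = 0) → z ∈ L := fun z hz => by
    obtain ⟨x, rfl⟩ := hc z hz
    have h0 : r x = 0 := hY.perf.eq_zero fun y => by
      obtain ⟨x', rfl⟩ := hs y
      rw [hb, hz]
    exact hL x (by rw [hf, h0, map_zero, sub_zero])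
  have h2 : Z.IsLag L := by
    refine ⟨hi.map hfe.ker, le_antisymm (fun z hz => ?_) ?_⟩
    · have h3 : i (p z) = z := by
        refine (sub_eq_zero.1 (hZ.perf.eq_zero fun x => hZ.good.zero ?_)).symm
        obtain ⟨t, ht⟩ := hZ.perf.exists (Z.b x ∘ₗ (LinearMap.id - i ∘ₗ p))
        have ht' : ∀ w, Z.b t w = Z.b x (w - i (p w)) := ht
        rw [← ht']
        exact hZ.good.zero (hz t (h1 t fun x' => by rw [ht', hp, sub_self, map_zero]))
      have h4 : r (p z) ∈ LinearMap.range e := hlag.mem.2 (by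
        rintro _ ⟨y, rfl⟩
        obtain ⟨x', hx'⟩ := hs (e y)
        rw [← hx', hb, h3]
        exact hz _ (hL x' (by rw [hf, hx', he.2.1, sub_self])))
      obtain ⟨y, hy⟩ := h4
      rw [← h3]
      exact hL _ (by rw [hf, ← hy, he.2.1, sub_self])
    · rintro _ ⟨x, hx, rfl⟩ _ ⟨x', hx', rfl⟩
      rw [← hb]
      exact hlag.isot _ ⟨r x, (sub_eq_zero.1 ((hf x).symm.trans hx)).symm⟩ _
        ⟨r x', (sub_eq_zero.1 ((hf x').symm.trans hx')).symm⟩
  obtain ⟨t, ht⟩ := Module.projective_lifting_property r LinearMap.id hs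
  have ht' : ∀ y, r (t y) = y := fun y => LinearMap.congr_fun ht y
  let q : Z.M →ₗ[R] L := (i ∘ₗ (LinearMap.id - t ∘ₗ f) ∘ₗ p).codRestrict L fun z =>
    hL (p z - t (f (p z))) (by
      rw [map_sub, hf (t _), ht', hf, map_sub, he.2.1, sub_self, sub_zero, sub_self])
  have hq : ∀ y : L, q y = y := by
    rintro ⟨_, x, hx, rfl⟩
    refine Subtype.ext ?_
    change i (p (i x) - t (f (p (i x)))) = i x
    rw [hp, LinearMap.mem_ker.1 hx, map_zero, sub_zero]
  obtain ⟨e', he', -⟩ := hP R A R Z ε L hZ.good hZ.perf h2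
    (Module.Finite.of_surjective q fun y => ⟨y, hq y⟩)
    (Module.Projective.of_split L.subtype q (LinearMap.ext hq)) fun ψ =>
      (hZ.perf.exists (ψ ∘ₗ q)).imp fun z hz y => by rw [hz, LinearMap.comp_apply, hq]
  exact ⟨e', he'⟩

end Pool.Agent.P.MP_46a8f8_ag.GU
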