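import Pool.Agent.P.MP_46a8f8_ag.GU.So
import Pool.Agent.P.MP_46a8f8_ag.GU.TorH

/-!
From the hermitian norm statement to torsors under the neutral component of the unitary group.
-/

namespace Pool.Agent.P.MP_46a8f8_ag.GU

open TensorProduct Function IsLocalRing

universe u

namespace Tor0P

open TorHP

variable {R A : Type u} [CommRing R] [Ring A] [Algebra R A] {σ : A →ₗ[R] A}
  {S S' : Type u} [CommRing S] [Algebra R S] [CommRing S'] [Algebra R S']

theorem uni1 (g : UZero σ S) : g.1 * σ.lTensor S g.1 = 1 := g.2.1.1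

theorem uni2 (g : UZero σ S) : σ.lTensor S g.1 * g.1 = 1 := g.2.1.2

theorem det1 (g : UZero σ S) {T : Type u} [CommRing T] [Algebra R T] (f : S →ₐ[R] T) (n : ℕ)
    (Φ : T ⊗[R] A ≃ₐ[T] Matrix (Fin n) (Fin n) T) : (Φ (mp A f g.1)).det = 1 :=
  g.2.2 T f n Φ

/-- an element of the neutral component -/
def zmk (g : S ⊗[R] A) (h1 : g * σ.lTensor S g = 1) (h2 : σ.lTensor S g * g = 1)
    (h3 : ∀ (T : Type u) [CommRing T] [Algebra R T] (f : S →ₐ[R] T) (n : ℕ)
      (Φ : T ⊗[R] A ≃ₐ[T] Matrix (Fin n) (Fin n) T), (Φ (mp A f g)).det = 1) : UZero σ S :=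
  ⟨g, ⟨h1, h2⟩, h3⟩

/-- base change -/
noncomputable def zmap (f : S →ₐ[R] S') (g : UZero σ S) : UZero σ S' :=
  zmk (mp A f g.1) (by rw [← mp_sg, ← map_mul, uni1, map_one])
    (by rw [← mp_sg, ← map_mul, uni2, map_one])
    fun T _ _ f' n Φ => by rw [H90P.mp_mp, det1]

variable [StarRing A]

/-- the unit element -/
noncomputable def zone (hσ : ∀ x, σ x = star x) : UZero σ S :=
  zmk 1 (by rw [sg_one hσ, one_mul]) (by rw [sg_one hσ, one_mul])
    fun T _ _ f n Φ => by rw [map_one, map_one, Matrix.det_one]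

/-- the product -/
noncomputable def zmul (hσ : ∀ x, σ x = star x) (g h : UZero σ S) : UZero σ S :=
  zmk (g.1 * h.1) (by rw [sg_mul hσ, mul_assoc, ← mul_assoc h.1, uni1, one_mul, uni1])
    (by rw [sg_mul hσ, mul_assoc, ← mul_assoc _ g.1, uni2, one_mul, uni2])
    fun T _ _ f n Φ => by rw [map_mul, map_mul, Matrix.det_mul, det1, det1, mul_one]

end Tor0P

open TorHP Tor0P in
theorem pTor0 : S_Tor0.{u} := by
  intro R A _ _ _ _ _ _ _ _ σ hσ hRk hH K _ _ _ hAdj O _ _ hT hK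
  obtain ⟨hff, act, a1, a2, a3, a4⟩ := hT
  have : Module.Free R A := SA.free
  have : Module.Finite R A := SA.fin
  obtain ⟨p₀⟩ := hK
  choose c hc hc' using a4
  dsimp only at hc hc'
  obtain ⟨z, hz⟩ := TorHP.h90 (fun S _ _ p q => (c S p q).1) hRk
    (fun S S' _ _ _ _ f p q => by
      have := hc' S' (f.comp p) (f.comp q) (zmap f (c S p q))
        (by rw [← a3 S S' f (c S p q) _ p rfl, hc])
      exact congrArg Subtype.val this)
    (fun S _ _ p => by rw [← hc' S p p (zone hσ) (a1 S _ p rfl)]; rfl)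
    (fun S _ _ p q r => by
      rw [← hc' S p r (zmul hσ (c S q r) (c S p q))
        (by rw [a2 S (c S q r) (c S p q) _ p rfl, hc, hc])]
      rfl)
  have hinj : Injective (algebraMap R O) := FaithfulSMul.algebraMap_injective R O
  have hiK : Injective (algebraMap R K) := IsFractionRing.injective R K
  let i₁ := H90P.iL R O O
  let i₂ := H90P.iR R O O
  let y : O ⊗[R] A := z
  let y' : O ⊗[R] A := (z⁻¹ : (O ⊗[R] A)ˣ)
  have e1 : y * y' = 1 := z.mul_inv
  have e2 : y' * y = 1 := z.inv_mul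
  have f1 : (y * σ.lTensor O y) * (σ.lTensor O y' * y') = 1 := by
    rw [mul_assoc, ← mul_assoc (σ.lTensor O y), ← sg_mul hσ, e2, sg_one hσ, one_mul, e1]
  have f2 : (σ.lTensor O y' * y') * (y * σ.lTensor O y) = 1 := by
    rw [mul_assoc, ← mul_assoc y', e2, one_mul, ← sg_mul hσ, e1, sg_one hσ]
  have d1 : mp A i₁ (y * σ.lTensor O y) = mp A i₂ (y * σ.lTensor O y) := by
    rw [map_mul, map_mul, mp_sg, mp_sg, ← hz _ i₁ i₂, sg_mul hσ, mul_assoc,
      ← mul_assoc (c _ i₁ i₂).1, uni1, one_mul]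
  have d2 : mp A i₁ (σ.lTensor O y' * y') = mp A i₂ (σ.lTensor O y' * y') := by
    have g1 := congrArg (mp A i₁) f2
    have g2 := congrArg (mp A i₂) f1
    rw [map_mul, map_one] at g1 g2
    rw [d1] at g1
    exact left_inv_eq_right_inv g1 g2
  obtain ⟨h, hh⟩ := descend _ d1
  obtain ⟨h', hh'⟩ := descend _ d2
  have k1 : h * h' = 1 := one_tmul_inj hinj (by
    rw [← one_tmul_mul, ← hh, ← hh', f1, Algebra.TensorProduct.one_def])
  have k2 : h' * h = 1 := one_tmul_inj hinj (by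
    rw [← one_tmul_mul, ← hh, ← hh', f2, Algebra.TensorProduct.one_def])
  have k3 : star h = h := one_tmul_inj hinj (by
    rw [← hσ, ← sg_tmul, ← hh, sg_mul hσ, sg_sg hσ])
  obtain ⟨s, a, hsa⟩ := exists_smul_eq_one_tmul (nonZeroDivisors R) K (mp A p₀ y)
  obtain ⟨s', a', hsa'⟩ := exists_smul_eq_one_tmul (nonZeroDivisors R) K (mp A p₀ y')
  have hs0 : (s : R) ≠ 0 := nonZeroDivisors.coe_ne_zero s
  have hs0' : (s' : R) ≠ 0 := nonZeroDivisors.coe_ne_zero s'
  have hal : ∀ r : R, (1 : K) ⊗ₜ[R] algebraMap R A r = algebraMap R K r • (1 : K ⊗[R] A) := by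
    intro r
    rw [Algebra.algebraMap_eq_smul_one, tmul_smul, algebraMap_smul,
      Algebra.TensorProduct.one_def]
  obtain ⟨b, hb⟩ := hH ⟨h, h', k1, k2⟩ a a' s (s * s') k3 hs0 (mul_ne_zero hs0 hs0')
    (one_tmul_inj hiK (by
      rw [← one_tmul_mul, ← hσ, ← sg_tmul, ← hsa, sg_smul, smul_mul_smul_comm, ← mp_sg,
        ← map_mul (mp A p₀), hh, mp_one_tmul, ← map_mul, tmul_smul, algebraMap_smul]))
    (one_tmul_inj hiK (by
      rw [← one_tmul_mul, ← hsa, ← hsa', smul_mul_smul_comm, ← map_mul (mp A p₀), e2, map_one,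
        hal, ← map_mul, mul_comm]))
    (one_tmul_inj hiK (by
      rw [← one_tmul_mul, ← hsa, ← hsa', smul_mul_smul_comm, ← map_mul (mp A p₀), e1, map_one,
        hal, ← map_mul]))
  have hb' : (b : A) * star (b : A) = h := hb
  let x : O ⊗[R] A := (1 : O) ⊗ₜ[R] ((b⁻¹ : Aˣ) : A) * y
  have u1 : x * σ.lTensor O x = 1 := by
    rw [sg_mul hσ, mul_assoc, ← mul_assoc y, hh, sg_tmul, one_tmul_mul, one_tmul_mul, hσ, ← hb',
      mul_assoc, ← star_mul, Units.inv_mul, star_one, mul_one, Units.inv_mul,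
      Algebra.TensorProduct.one_def]
  have u0 : (y' * (1 : O) ⊗ₜ[R] (b : A)) * x = 1 := by
    rw [mul_assoc, ← mul_assoc _ _ y, one_tmul_mul, Units.mul_inv,
      ← Algebra.TensorProduct.one_def, one_mul, e2]
  have u2 : σ.lTensor O x * x = 1 := by
    rw [← left_inv_eq_right_inv u0 u1, u0]
  have h4 : mp A i₁ x = mp A i₂ x * (c _ i₁ i₂).1 := by
    change mp A i₁ ((1 : O) ⊗ₜ[R] ((b⁻¹ : Aˣ) : A) * y) =
      mp A i₂ ((1 : O) ⊗ₜ[R] ((b⁻¹ : Aˣ) : A) * y) * _
    rw [map_mul, map_mul, mp_one_tmul, mp_one_tmul, mul_assoc]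
    congr 1
    exact (hz _ i₁ i₂).symm
  obtain ⟨v, v1, v2, v3⟩ := hAdj O x (c _ i₁ i₂) p₀ ⟨u1, u2⟩ h4
  let z' : UZero σ O := zmk ((1 : O) ⊗ₜ[R] v * x)
    (by rw [sg_mul hσ, mul_assoc, ← mul_assoc x, u1, one_mul, sg_tmul, one_tmul_mul, v1,
      Algebra.TensorProduct.one_def])
    (by rw [sg_mul hσ, mul_assoc, ← mul_assoc _ _ x, sg_tmul, one_tmul_mul, v2,
      ← Algebra.TensorProduct.one_def, one_mul, u2])
    v3
  let t := act O z' (AlgHom.id R O)
  have key : i₁.comp t = i₂.comp t := by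
    rw [a3 O _ i₁ z' (zmap i₁ z') _ rfl, a3 O _ i₂ z' (zmap i₂ z') _ rfl,
      AlgHom.comp_id, AlgHom.comp_id]
    have h5 : (zmap i₁ z').1 = (zmap i₂ z').1 * (c _ i₁ i₂).1 := by
      change mp A i₁ ((1 : O) ⊗ₜ[R] v * x) = mp A i₂ ((1 : O) ⊗ₜ[R] v * x) * _
      rw [map_mul (mp A i₁) _ x, map_mul (mp A i₂) _ x, mp_one_tmul, mp_one_tmul, mul_assoc, h4]
    rw [a2 _ _ _ _ i₁ h5, hc]
  choose t' ht' using fun o => mem_range_of_eq (R := R) (t o) (AlgHom.congr_fun key o)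
  exact ⟨{
    toFun := t'
    map_one' := hinj (by rw [ht', map_one, map_one])
    map_mul' := fun a b => hinj (by rw [map_mul, ht', ht', ht', map_mul])
    map_zero' := hinj (by rw [ht', map_zero, map_zero])
    map_add' := fun a b => hinj (by rw [map_add, ht', ht', ht', map_add])
    commutes' := fun r => hinj (by rw [ht', AlgHom.commutes]; rfl) }⟩

end Pool.Agent.P.MP_46a8f8_ag.GU
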