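import Pool.Agent.P.MP_46a8f8_ag.GU.Base2

/-!
Package Neutral: the cokernel of a symmetric matrix gives a neutral linking form.
-/

namespace Pool.Agent.P.MP_46a8f8_ag.GU

open TensorProduct Function Matrix IsLocalRing

universe u

namespace NeutralP

section gen

variable {R A C : Type u} [CommRing R] [Ring A] [Algebra R A] [CommRing C] [Algebra R C]
  {τ : C →ₗ[R] R}

theorem tr_zero (h : PerfTr τ) {c : C} (hc : ∀ d, τ (c * d) = 0) : c = 0 :=
  h.1 (by rw [map_zero]; exact LinearMap.ext hc)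

theorem tr_smul (τ : C →ₗ[R] R) (r : R) (c : C) :
    τ.toAddMonoidHom (algebraMap R C r • c) = r • τ.toAddMonoidHom c := by
  rw [algebraMap_smul]
  exact τ.map_smul r c

/-- every `R`-linear form is the trace of a `C`-linear form -/
theorem exists_form (h : PerfTr τ) (X : RM R A C) (ψ : (X.res R).M →ₗ[R] R) :
    ∃ φ : X.M →ₗ[C] C, ∀ y, τ (φ y) = ψ y := by
  have h1 : ∀ y : X.M, ∃ z : C, ∀ c : C, τ (z * c) = ψ (c • y) := fun y => by
    obtain ⟨z, hz⟩ := h.2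
      { toFun := fun c : C => ψ (c • y)
        map_add' := fun c c' => by rw [add_smul]; exact map_add ψ _ _
        map_smul' := fun r c => by
          rw [Algebra.smul_def, mul_smul]
          exact ψ.map_smul r (c • y) }
    exact ⟨z, fun c => LinearMap.congr_fun hz c⟩
  choose z hz using h1
  refine ⟨{ toFun := z, map_add' := fun y y' => ?_, map_smul' := fun c y => ?_ }, fun y => ?_⟩
  · refine sub_eq_zero.1 (tr_zero h fun d => ?_)
    rw [sub_mul, add_mul, map_sub, map_add, hz, hz, hz, smul_add, sub_eq_zero]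
    exact map_add ψ _ _
  · refine sub_eq_zero.1 (tr_zero h fun d => ?_)
    rw [sub_mul, map_sub, hz, RingHom.id_apply, smul_eq_mul, mul_comm c, mul_assoc, hz, smul_smul,
      mul_comm d, sub_self]
  · have := hz y 1
    rwa [mul_one, one_smul] at this

theorem perf_tr (h : PerfTr τ) {E : FM R A C C} (hE : E.Perf) :
    (E.tr R τ.toAddMonoidHom (tr_smul τ)).Perf := by
  refine FM.perf_of (fun x hx => hE.eq_zero fun y => tr_zero h fun d => ?_) fun ψ => ?_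
  · have : τ (E.b x (d • y)) = 0 := hx (d • y)
    rwa [map_smul, smul_eq_mul, mul_comm] at this
  · obtain ⟨φ, hφ⟩ := exists_form h E.toRM ψ
    obtain ⟨x, hx⟩ := hE.exists φ
    exact ⟨x, fun y => (congrArg τ (hx y)).trans (hφ y)⟩

theorem ff_res [Module.Free R C] [Module.Finite R C] {X : RM R A C} (h : X.FF) :
    (X.res R).FF := by
  obtain ⟨_, _⟩ := h
  let : Module R X.M := Module.compHom X.M (algebraMap R C)
  have : IsScalarTower R C X.M := ⟨fun c d m => by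
    rw [Algebra.smul_def, mul_smul]
    rfl⟩
  exact ⟨Module.Free.trans (S := C), Module.Finite.trans C X.M⟩

theorem hyp_tr {E : FM R A C C} (hE : E.Hyp) :
    (E.tr R τ.toAddMonoidHom (tr_smul τ)).Hyp := by
  obtain ⟨e, h1, h2, h3⟩ := hE
  refine ⟨{ toFun := e, map_add' := map_add e, map_smul' := fun r x => map_smul e _ x },
    h1, h2, fun x y => ?_⟩
  change τ (E.b (e x) y) + τ (E.b x (e y)) = τ (E.b x y)
  rw [← map_add, h3]

end gen

section mat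

variable {C T : Type u} [CommRing C] [CommRing T] [Algebra C T] {ι : Type} [Fintype ι]
  {δ : ℤˣ} {L : Matrix ι ι C} {g f : C}

/-- reduction of vectors -/
def bar (T : Type u) [CommRing T] [Algebra C T] (w : ι → C) : ι → T :=
  fun i => algebraMap C T (w i)

omit [Fintype ι] in
theorem bar_surj (hq : Quo g T) (x : ι → T) : ∃ w : ι → C, bar T w = x := by
  choose w hw using fun i => hq.1 (x i)
  exact ⟨w, funext hw⟩

omit [Fintype ι] in
theorem bar_eq (hq : Quo g T) {w w' : ι → C} (h : bar T w = bar T w') :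
    ∃ z : ι → C, w = w' + g • z := by
  have : ∀ i, ∃ c, w i - w' i = g * c := fun i =>
    (hq.2 _).1 (by rw [map_sub]; exact sub_eq_zero.2 (congrFun h i))
  choose z hz using this
  exact ⟨z, funext fun i => by simp [← hz]⟩

omit [Fintype ι] in
theorem bar_add (w w' : ι → C) : bar T (w + w') = bar T w + bar T w' :=
  funext fun _ => map_add _ _ _

omit [Fintype ι] in
theorem bar_smul (c : C) (w : ι → C) : bar T (c • w) = algebraMap C T c • bar T w :=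
  funext fun _ => map_mul _ _ _

theorem bar_mulVec (M : Matrix ι ι C) (w : ι → C) :
    bar T (M *ᵥ w) = M.map (algebraMap C T) *ᵥ bar T w :=
  funext fun i => RingHom.map_mulVec (algebraMap C T) M w i

theorem bar_dot (w w' : ι → C) : bar T w ⬝ᵥ bar T w' = algebraMap C T (w ⬝ᵥ w') := by
  simp [bar, dotProduct]

omit [Fintype ι] in
theorem reg_pi (hg : IsSMulRegular C g) {w w' : ι → C} (h : g • w = g • w') : w = w' :=
  funext fun i => hg (congrFun h i)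

/-- the adjoint of the inclusion -/
def B (g : C) (L : Matrix ι ι C) (p : (ι → C) × (ι → C)) : ι → C := g • p.2 - L *ᵥ p.1

theorem hf_i (hL : ∀ v w, w ⬝ᵥ L *ᵥ v = δ • (v ⬝ᵥ L *ᵥ w)) (p : (ι → C) × (ι → C))
    (q : ι → C) : hf δ p (g • q, L *ᵥ q) = B g L p ⬝ᵥ q := by
  simp only [hf, B, sub_dotProduct, smul_dotProduct, dotProduct_smul]
  rw [dotProduct_comm (L *ᵥ q), dotProduct_comm (L *ᵥ p.1), hL p.1 q]

theorem hf_skew (p p' : (ι → C) × (ι → C)) : hf δ p' p = -(δ • hf δ p p') := by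
  rw [hf, hf, smul_sub, usmul_usmul, neg_sub]

theorem hf_add (p p' p'' : (ι → C) × (ι → C)) :
    hf δ p (p' + p'') = hf δ p p' + hf δ p p'' := by
  simp only [hf, Prod.fst_add, Prod.snd_add, add_dotProduct, dotProduct_add, smul_add]
  abel

theorem B_sub (p p' : (ι → C) × (ι → C)) : B g L (p - p') = B g L p - B g L p' := by
  simp only [B, Prod.fst_sub, Prod.snd_sub, smul_sub, mulVec_sub]
  abel

theorem B_comb {w ζ ζ' : ι → C} (h : f • ζ = L *ᵥ w + g • ζ') (u u' : C) :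
    B g L (-(u • w), u • ζ' + u' • ζ) = (u * f + u' * g) • ζ := by
  simp only [B, mulVec_neg, mulVec_smul, add_smul, mul_smul, h, smul_add]
  rw [smul_comm g u, smul_comm g u']
  abel

variable [DecidableEq ι]

theorem ex_C (hL : ∀ v w, w ⬝ᵥ L *ᵥ v = δ • (v ⬝ᵥ L *ᵥ w)) (hg : IsSMulRegular C g)
    (hq : Quo g T) (hf' : IsSMulRegular T (algebraMap C T f))
    (hs : ∀ ζ : ι → C, ∃ w ζ', f • ζ = L *ᵥ w + g • ζ') {p : (ι → C) × (ι → C)}
    (hp : B g L p = 0) : ∃ q, (g • q, L *ᵥ q) = p := by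
  have h1 : g • p.2 = L *ᵥ p.1 := sub_eq_zero.1 hp
  have h2 : ∀ i, ∃ c, p.1 i = g * c := fun i => by
    obtain ⟨w, ζ', h⟩ := hs (Pi.single i 1)
    have h3 := congrArg (fun v => p.1 ⬝ᵥ v) h
    simp only [dotProduct_smul, dotProduct_add, dotProduct_single, mul_one, smul_eq_mul] at h3
    rw [hL, ← h1, dotProduct_smul, smul_comm, smul_eq_mul, ← mul_add] at h3
    refine (hq.2 _).1 (hf' ?_)
    change algebraMap C T f * algebraMap C T (p.1 i) = algebraMap C T f * 0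
    rw [mul_zero, ← map_mul, h3]
    exact (hq.2 _).2 ⟨_, rfl⟩
  choose q hq' using h2
  have h4 : g • q = p.1 := funext fun i => (hq' i).symm
  refine ⟨q, Prod.ext h4 (reg_pi hg ?_)⟩
  change g • (L *ᵥ q) = g • p.2
  rw [h1, ← h4, mulVec_smul]

omit [DecidableEq ι] in
theorem hf_comb (hL : ∀ v w, w ⬝ᵥ L *ᵥ v = δ • (v ⬝ᵥ L *ᵥ w)) (hg : IsSMulRegular C g)
    (hq : Quo g T) (hf' : IsSMulRegular T (algebraMap C T f)) {w ζ ζ' y η η' : ι → C}
    (h : f • ζ = L *ᵥ w + g • ζ') (h' : f • η = L *ᵥ y + g • η') (u u' v v' : C) :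
    ∃ r : C, hf δ (-(v' • y), v' • η' + v • η) (-(u • w), u • ζ' + u' • ζ) =
      -((u * v - u' * v') * (w ⬝ᵥ η)) + (u * f + u' * g) * r := by
  have h1 := congrArg (fun v => y ⬝ᵥ v) h
  have h2 := congrArg (fun v => w ⬝ᵥ v) h'
  simp only [dotProduct_smul, dotProduct_add, smul_eq_mul] at h1 h2
  have h3 := hL y w
  rw [Units.smul_def, zsmul_eq_mul] at h3
  have h4 : f * (((δ : ℤ) : C) * (y ⬝ᵥ ζ) - w ⬝ᵥ η) =
      g * (((δ : ℤ) : C) * (y ⬝ᵥ ζ') - w ⬝ᵥ η') := by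
    linear_combination ((δ : ℤ) : C) * h1 - h2 - h3
  obtain ⟨r, hr⟩ : g ∣ ((δ : ℤ) : C) * (y ⬝ᵥ ζ) - w ⬝ᵥ η := by
    refine (hq.2 _).1 (hf' ?_)
    change algebraMap C T f * algebraMap C T _ = algebraMap C T f * 0
    rw [mul_zero, ← map_mul, h4]
    exact (hq.2 _).2 ⟨_, rfl⟩
  have hr' : ((δ : ℤ) : C) * (y ⬝ᵥ ζ') - w ⬝ᵥ η' = f * r := hg (by
    change g * _ = g * _
    rw [← h4, hr]
    ring)
  refine ⟨v' * r, ?_⟩
  simp only [hf, add_dotProduct, smul_dotProduct, dotProduct_neg, dotProduct_smul, smul_eq_mul,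
    Units.smul_def, zsmul_eq_mul]
  rw [dotProduct_comm η' w, dotProduct_comm η w, dotProduct_comm ζ' y, dotProduct_comm ζ y]
  linear_combination (u' * v') * hr + (u * v') * hr'

theorem hf_val (hL : ∀ v w, w ⬝ᵥ L *ᵥ v = δ • (v ⬝ᵥ L *ᵥ w)) (hg : IsSMulRegular C g)
    (hq : Quo g T) (hf' : IsSMulRegular T (algebraMap C T f))
    (hs : ∀ ζ : ι → C, ∃ w ζ', f • ζ = L *ᵥ w + g • ζ') {w ζ ζ' η : ι → C}
    (h : f • ζ = L *ᵥ w + g • ζ') (u u' v v' : C) {p p' : (ι → C) × (ι → C)}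
    (hp : B g L p = (u * f + u' * g) • ζ) (hp' : B g L p' = (v' * f + v * g) • η) :
    ∃ r r' : C, hf δ p' p =
      -((u * v - u' * v') * (w ⬝ᵥ η)) + (u * f + u' * g) * r + (v' * f + v * g) * r' := by
  obtain ⟨y, η', h'⟩ := hs η
  obtain ⟨r, hr⟩ := hf_comb hL hg hq hf' h h' u u' v v'
  obtain ⟨q, hq1⟩ := ex_C hL hg hq hf' hs (p := p - (-(u • w), u • ζ' + u' • ζ))
    (by rw [B_sub, hp, B_comb h, sub_self])
  obtain ⟨q', hq2⟩ := ex_C hL hg hq hf' hs (p := p' - (-(v' • y), v' • η' + v • η))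
    (by rw [B_sub, hp', B_comb h', sub_self])
  have e1 : p = (-(u • w), u • ζ' + u' • ζ) + (g • q, L *ᵥ q) := by rw [hq1]; abel
  have e2 : p' = (-(v' • y), v' • η' + v • η) + (g • q', L *ᵥ q') := by rw [hq2]; abel
  have e3 : hf δ p' p = hf δ p' (-(u • w), u • ζ' + u' • ζ) + (v' * f + v * g) * (η ⬝ᵥ q) := by
    conv_lhs => rw [e1]
    rw [hf_add, hf_i hL, hp', smul_dotProduct, smul_eq_mul]
  have e4 : hf δ (-(u • w), u • ζ' + u' • ζ) p' =
      hf δ (-(u • w), u • ζ' + u' • ζ) (-(v' • y), v' • η' + v • η) +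
        (u * f + u' * g) * (ζ ⬝ᵥ q') := by
    conv_lhs => rw [e2]
    rw [hf_add, hf_i hL, B_comb h, smul_dotProduct, smul_eq_mul]
  refine ⟨r - δ • (ζ ⬝ᵥ q'), η ⬝ᵥ q, ?_⟩
  rw [e3, hf_skew, e4, smul_add, neg_add, ← hf_skew, hr, Units.smul_def, Units.smul_def,
    zsmul_eq_mul, zsmul_eq_mul]
  ring

end mat

section main

variable {R A C : Type u} [CommRing R] [Ring A] [Algebra R A] [StarRing A] [SA R A] [CommRing C]
  [Algebra R C] {ι : Type} [Fintype ι] [DecidableEq ι]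

/-- the isotropic module -/
noncomputable def QQ (ρ : MRep R A C ι) : RM R A R := ρ.dual.rm.res R

/-- the hyperbolic space -/
noncomputable def EE (τ : C →ₗ[R] R) (ρ : MRep R A C ι) (δ : ℤˣ) : FM R A R R :=
  (ρ.dual.hfm δ).tr R τ.toAddMonoidHom (tr_smul τ)

/-- the identification of vectors with linear forms -/
noncomputable def Phi (τ : C →ₗ[R] R) (ρ : MRep R A C ι) (ζ : ι → C) :
    Module.Dual R (QQ ρ).M where
  toFun q := τ (ζ ⬝ᵥ q)
  map_add' (q q' : ι → C) := by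
    change τ (ζ ⬝ᵥ (q + q')) = _
    rw [dotProduct_add, map_add]
  map_smul' r (q : ι → C) := by
    change τ (ζ ⬝ᵥ algebraMap R C r • q) = r • τ (ζ ⬝ᵥ q)
    rw [dotProduct_smul, algebraMap_smul, map_smul]

variable {τ : C →ₗ[R] R} (ρ : MRep R A C ι)

theorem Phi_apply (ζ q : ι → C) : Phi τ ρ ζ q = τ (ζ ⬝ᵥ q) := rfl

theorem Phi_add (ζ ζ' : ι → C) : Phi τ ρ (ζ + ζ') = Phi τ ρ ζ + Phi τ ρ ζ' :=
  LinearMap.ext fun q : ι → C => by
    change τ ((ζ + ζ') ⬝ᵥ q) = τ (ζ ⬝ᵥ q) + τ (ζ' ⬝ᵥ q)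
    rw [add_dotProduct, map_add]

theorem Phi_smul (r : R) (ζ : ι → C) : Phi τ ρ (algebraMap R C r • ζ) = r • Phi τ ρ ζ :=
  LinearMap.ext fun q : ι → C => by
    change τ ((algebraMap R C r • ζ) ⬝ᵥ q) = r • τ (ζ ⬝ᵥ q)
    rw [smul_dotProduct, algebraMap_smul, map_smul]

theorem Phi_rho (a : A) (ζ : ι → C) :
    Phi τ ρ (ρ.ρ a *ᵥ ζ) = (QQ ρ).dual.ρ a (Phi τ ρ ζ) :=
  LinearMap.ext fun q : ι → C => by
    change τ ((ρ.ρ a *ᵥ ζ) ⬝ᵥ q) = τ (ζ ⬝ᵥ (ρ.ρ (star (star a)))ᵀ *ᵥ q)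
    rw [star_star, dotProduct_mulVec, vecMul_transpose]

theorem Phi_inj (h : PerfTr τ) : Injective (Phi τ ρ) := fun ζ ζ' e =>
  funext fun i => sub_eq_zero.1 (tr_zero h fun d => by
    have : τ (ζ ⬝ᵥ Pi.single i d) = τ (ζ' ⬝ᵥ Pi.single i d) :=
      LinearMap.congr_fun e (Pi.single i d)
    rw [dotProduct_single, dotProduct_single] at this
    rw [sub_mul, map_sub, this, sub_self])

theorem Phi_surj (h : PerfTr τ) : Surjective (Phi τ ρ) := fun ψ => by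
  obtain ⟨φ, hφ⟩ := exists_form h ρ.dual.rm ψ
  refine ⟨fun i => φ (Pi.single i 1), LinearMap.ext fun q : ι → C => ?_⟩
  refine Eq.trans (congrArg τ ?_) (hφ q)
  rw [lin_pi φ q]
  simp [dotProduct, mul_comm]

/-- the complex -/
noncomputable def dat [Module.Free R C] [Module.Finite R C] (τ : C →ₗ[R] R) {δ : ℤˣ} (g : C)
    {L : Matrix ι ι C} (hL : SymAdj δ ρ L) (h : PerfTr τ)
    (hex : ∀ p : (ι → C) × (ι → C), B g L p = 0 → ∃ q, (g • q, L *ᵥ q) = p) :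
    Dat (EE τ ρ δ) where
  Q := QQ ρ
  ff := ff_res ρ.dual.rm_ff
  i :=
    { toFun := fun q : ι → C => ((g • q, L *ᵥ q) : (ι → C) × (ι → C))
      map_add' := fun q q' : ι → C => Prod.ext (smul_add g q q') (mulVec_add L q q')
      map_smul' := fun r (q : ι → C) => Prod.ext (smul_comm g (algebraMap R C r) q)
        (mulVec_smul L (algebraMap R C r) q) }
  eqv a (q : ι → C) := by
    refine Prod.ext (mulVec_smul (ρ.ρ (star a))ᵀ g q).symm ?_
    change L *ᵥ (ρ.ρ (star a))ᵀ *ᵥ q = ((ρ.ρ (star (star a)))ᵀ)ᵀ *ᵥ L *ᵥ q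
    rw [star_star, transpose_transpose, mulVec_mulVec, mulVec_mulVec, hL.2]
  iso (q q' : ι → C) := by
    change τ (hf δ (g • q, L *ᵥ q) (g • q', L *ᵥ q')) = 0
    rw [hf_i hL.dot, B, mulVec_smul, sub_self, zero_dotProduct, map_zero]
  ex (p : (ι → C) × (ι → C)) hp := by
    refine hex p (Phi_inj ρ h (LinearMap.ext fun q : ι → C => ?_))
    have : τ (hf δ p (g • q, L *ᵥ q)) = 0 := hp q
    rw [hf_i hL.dot] at this
    change τ (B g L p ⬝ᵥ q) = τ (0 ⬝ᵥ q)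
    rw [this, zero_dotProduct, map_zero]

theorem dat_β [Module.Free R C] [Module.Finite R C] {δ : ℤˣ} (g : C)
    {L : Matrix ι ι C} (hL : SymAdj δ ρ L) (h : PerfTr τ)
    (hex : ∀ p : (ι → C) × (ι → C), B g L p = 0 → ∃ q, (g • q, L *ᵥ q) = p)
    (p : (ι → C) × (ι → C)) : (dat ρ τ g hL h hex).β p = Phi τ ρ (B g L p) :=
  LinearMap.ext fun q : ι → C => congrArg τ (hf_i hL.dot p q)

end main

end NeutralP

open NeutralP in
theorem pNeutral (h1 : S_LiftM.{u}) : S_Neutral.{u} := by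
  intro R A C T V _ _ _ _ _ _ _ _ _ _ _ _ _ _ _ _ τ F G g f u u' v v' δ Y ι _ _ ρ l κ hκ hτ hg hq
    hf' hF hG hκτ hl hP
  obtain ⟨π, hπ1, hπ2, hπ3, hπ4, hπ5⟩ := hP
  let ρC := ρ.map (Algebra.ofId R C)
  have hρ : ∀ a, (ρC.ρ a).map (algebraMap C T) = (ρ.map (Algebra.ofId R T)).ρ a := fun a => by
    ext i j
    exact (IsScalarTower.algebraMap_apply R C T _).symm
  obtain ⟨l₀, hl₀⟩ : ∃ l₀ : Matrix ι ι C, l₀.map (algebraMap C T) = l := by
    choose l₀ hl₀ using fun i j => hq.1 (l i j)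
    exact ⟨Matrix.of l₀, Matrix.ext hl₀⟩
  obtain ⟨L, hL, hL'⟩ := h1 R A C ι ρC δ l₀
  have hLl : L.map (algebraMap C T) = l := by
    refine (hL' T (IsScalarTower.toAlgHom R C T) ?_).trans hl₀
    have : SymAdj δ (ρ.map (Algebra.ofId R T)) (l₀.map (algebraMap C T)) := hl₀ ▸ hl
    exact this.congr fun a => (hρ a).symm
  have hs : ∀ ζ : ι → C, ∃ w ζ', f • ζ = L *ᵥ w + g • ζ' := fun ζ => by
    obtain ⟨w, hw⟩ := hπ4 (bar T ζ)
    obtain ⟨w, rfl⟩ := bar_surj hq w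
    exact ⟨w, bar_eq hq (by rw [bar_smul, bar_mulVec, hLl, hw])⟩
  have hex : ∀ p : (ι → C) × (ι → C), B g L p = 0 → ∃ q, (g • q, L *ᵥ q) = p :=
    fun p hp => ex_C hL.dot hg hq hf' hs hp
  have hsp := ρC.dual.hfm_sp δ
  have hkil : ∀ (r : R) (a b : C), algebraMap R C r = a * f + b * g →
      (dat ρC τ g hL hτ hex).Kil r := fun r a b hr ξ => by
    obtain ⟨ζ, rfl⟩ := Phi_surj ρC hτ ξ
    obtain ⟨w, ζ', h⟩ := hs ζ
    exact ⟨(-(a • w), a • ζ' + b • ζ), by rw [dat_β, B_comb h, ← hr, Phi_smul]; rfl⟩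
  choose Ψ hΨ using Phi_surj ρC hτ
  have hΨ' : ∀ ζ, Ψ (Phi τ ρC ζ) = ζ := fun ζ => Phi_inj ρC hτ (hΨ _)
  refine ⟨NeutralP.EE τ ρC δ, dat ρC τ g hL hτ hex,
    ⟨hsp.good.tr R _ (tr_smul τ), perf_tr hτ hsp.perf, (ff_res hsp.ff).1⟩, hyp_tr (ρC.dual.hfm_hyp δ),
    hkil F u u' hF, hkil G v' v hG,
    { toFun := fun ξ => π (bar T (Ψ ξ))
      map_add' := fun ξ ξ' => ?_
      map_smul' := fun r ξ => ?_ }, fun y => ?_, fun a ξ => ?_, fun ξ => ?_,
    fun ξ η p p' hp hp' => ?_⟩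
  · obtain ⟨ζ, rfl⟩ := Phi_surj ρC hτ ξ
    obtain ⟨ζ', rfl⟩ := Phi_surj ρC hτ ξ'
    change π (bar T (Ψ (Phi τ ρC ζ + Phi τ ρC ζ'))) = π (bar T (Ψ _)) + π (bar T (Ψ _))
    rw [← Phi_add, hΨ', hΨ', hΨ', bar_add, map_add]
  · obtain ⟨ζ, rfl⟩ := Phi_surj ρC hτ ξ
    change π (bar T (Ψ (r • Phi τ ρC ζ))) = algebraMap R T r • π (bar T (Ψ _))
    rw [← Phi_smul, hΨ', hΨ', bar_smul, map_smul, ← IsScalarTower.algebraMap_apply]
  · obtain ⟨x, rfl⟩ := hπ1 y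
    obtain ⟨ζ, rfl⟩ := bar_surj hq x
    exact ⟨Phi τ ρC ζ, congrArg (fun z => π (bar T z)) (hΨ' ζ)⟩
  · obtain ⟨ζ, rfl⟩ := Phi_surj ρC hτ ξ
    change π (bar T (Ψ ((QQ ρC).dual.ρ a (Phi τ ρC ζ)))) = Y.ρ a (π (bar T (Ψ _)))
    rw [← Phi_rho, hΨ', hΨ', bar_mulVec, hρ]
    exact hπ2 a _
  · obtain ⟨ζ, rfl⟩ := Phi_surj ρC hτ ξ
    change π (bar T (Ψ _)) = 0 ↔ _
    rw [hΨ', hπ3]
    constructor
    · rintro ⟨w, hw⟩
      obtain ⟨w, rfl⟩ := bar_surj hq w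
      obtain ⟨z, hz⟩ := bar_eq hq (w := ζ) (w' := L *ᵥ w) (by rw [bar_mulVec, hLl, hw])
      refine ⟨(-w, z), (dat_β ρC g hL hτ hex _).trans (congrArg _ ?_)⟩
      rw [hz, B, mulVec_neg, sub_neg_eq_add, add_comm]
    · rintro ⟨p, hp⟩
      have hp2 : B g L p = ζ := Phi_inj ρC hτ ((dat_β ρC g hL hτ hex p).symm.trans hp)
      refine ⟨bar T (-p.1), ?_⟩
      rw [← hLl, ← bar_mulVec, ← hp2, B, mulVec_neg, sub_eq_neg_add, bar_add, bar_smul,
        (hq.2 g).2 dvd_rfl, zero_smul, add_zero]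
  · obtain ⟨ζ, rfl⟩ := Phi_surj ρC hτ ξ
    obtain ⟨η, rfl⟩ := Phi_surj ρC hτ η
    have e1 : B g L p = (u * f + u' * g) • ζ := Phi_inj ρC hτ (by
      rw [← hF, Phi_smul]
      exact (dat_β ρC g hL hτ hex p).symm.trans hp)
    have e2 : B g L p' = (v' * f + v * g) • η := Phi_inj ρC hτ (by
      rw [← hG, Phi_smul]
      exact (dat_β ρC g hL hτ hex p').symm.trans hp')
    obtain ⟨w, ζ', h⟩ := hs ζ
    obtain ⟨r, r', hr⟩ := hf_val hL.dot hg hq hf' hs h u u' v v' e1 e2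
    have e3 : l *ᵥ bar T w = algebraMap C T f • bar T ζ := by
      rw [← bar_smul, h, bar_add, bar_smul, (hq.2 g).2 dvd_rfl, zero_smul, add_zero, bar_mulVec,
        hLl]
    change -κ (Y.b (π (bar T (Ψ _))) (π (bar T (Ψ _)))) = Ideal.Quotient.mk _ (τ (hf δ p' p))
    have e4 : τ (hf δ p' p) = -τ ((u * v - u' * v') * (w ⬝ᵥ η)) + (τ r * F + τ r' * G) := by
      rw [hr, ← hF, ← hG, map_add, map_add, map_neg, ← Algebra.smul_def, ← Algebra.smul_def,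
        map_smul, map_smul, smul_eq_mul, smul_eq_mul]
      ring
    rw [hΨ', hΨ', hπ5 _ _ _ e3, bar_dot, hκτ, e4, map_add, map_neg,
      mk_eq_zero.2 ⟨τ r, τ r', rfl⟩, add_zero]

end Pool.Agent.P.MP_46a8f8_ag.GU
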