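import Pool.Agent.P.MP_46a8f8_ag.GU.Sm
import Pool.Agent.P.MP_46a8f8_ag.GU.Neutral

/-!
The transfer of a space is a space; hyperbolic spaces in coordinates.
-/

namespace Pool.Agent.P.MP_46a8f8_ag.GU

open TensorProduct Function Matrix

universe u

theorem pTrSp : S_TrSp.{u} := by
  intro R A T _ _ _ _ _ _ _ _ _ τ ε U hτ hU
  exact ⟨hU.good.tr R _ _, NeutralP.perf_tr hτ hU.perf, (NeutralP.ff_res hU.ff).1⟩

theorem pHfm : S_Hfm.{u} := by
  intro R A _ _ _ _ _ δ X ⟨_, _⟩
  let b := (Module.Free.chooseBasis R X.M).reindex (Fintype.equivFin _)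
  let ρ : MRep R A R (Fin (Fintype.card (Module.Free.ChooseBasisIndex R X.M))) :=
    { ρ := (LinearMap.toMatrixAlgEquiv b).toRingEquiv.toRingHom.comp X.ρ
      alg := fun r => by
        have : X.ρ (algebraMap R A r) = r • (1 : Module.End R X.M) :=
          LinearMap.ext fun m => X.alg r m
        change LinearMap.toMatrixAlgEquiv b (X.ρ (algebraMap R A r)) = _
        rw [this, map_smul, map_one]
        rfl }
  have h1 : ∀ (a : A) (x : X.M), b.equivFun (X.ρ a x) = ρ.ρ a *ᵥ b.equivFun x := fun a x =>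
    (LinearMap.toMatrix_mulVec_repr b b (X.ρ a) x).symm
  have h2 : ∀ (ξ : Module.Dual R X.M) (x : X.M),
      b.dualBasis.equivFun ξ ⬝ᵥ b.equivFun x = ξ x := fun ξ x => by
    conv_rhs => rw [← b.sum_equivFun x, map_sum]
    exact Finset.sum_congr rfl fun i _ => by
      rw [Module.Basis.dualBasis_equivFun, map_smul, smul_eq_mul, mul_comm]
  refine ⟨_, inferInstance, inferInstance, ρ, b.equivFun.prodCongr b.dualBasis.equivFun,
    fun a m => Prod.ext (h1 a m.1) ?_, fun x y => ?_⟩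
  · change b.dualBasis.equivFun (X.dual.ρ a m.2) = (ρ.ρ (star a))ᵀ *ᵥ b.dualBasis.equivFun m.2
    refine dotProduct_eq _ _ fun v => ?_
    obtain ⟨x, rfl⟩ := b.equivFun.surjective v
    rw [h2, mulVec_transpose, ← dotProduct_mulVec, ← h1, h2]
    rfl
  · change b.dualBasis.equivFun x.2 ⬝ᵥ b.equivFun y.1 -
      δ • (b.dualBasis.equivFun y.2 ⬝ᵥ b.equivFun x.1) = x.2 y.1 + (-δ) • y.2 x.1
    rw [h2, h2, Units.neg_smul, sub_eq_add_neg]

end Pool.Agent.P.MP_46a8f8_ag.GU
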