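import Pool.Agent.P.MP_46a8f8_ag.GU.Fin
import Pool.Agent.P.MP_46a8f8_ag.GU.SoTop
import Pool.Agent.P.MP_46a8f8_ag.GU.G1
import Pool.Agent.P.MP_46a8f8_ag.GU.G2
import Pool.Agent.P.MP_46a8f8_ag.GU.G3t
import Pool.Agent.P.MP_46a8f8_ag.GU.G3
import Pool.Agent.P.MP_46a8f8_ag.GU.D0
import Pool.Agent.P.MP_46a8f8_ag.GU.D1
import Pool.Agent.P.MP_46a8f8_ag.GU.Nak
import Pool.Agent.P.MP_46a8f8_ag.GU.Kap0
import Pool.Agent.P.MP_46a8f8_ag.GU.Ind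
import Pool.Agent.P.MP_46a8f8_ag.GU.IndM
import Pool.Agent.P.MP_46a8f8_ag.GU.Pick
import Pool.Agent.P.MP_46a8f8_ag.GU.Kap
import Pool.Agent.P.MP_46a8f8_ag.GU.MidG
import Pool.Agent.P.MP_46a8f8_ag.GU.SubLag
import Pool.Agent.P.MP_46a8f8_ag.GU.Mid
import Pool.Agent.P.MP_46a8f8_ag.GU.TrSp
import Pool.Agent.P.MP_46a8f8_ag.GU.Post
import Pool.Agent.P.MP_46a8f8_ag.GU.Herm2
import Pool.Agent.P.MP_46a8f8_ag.GU.Bcg
import Pool.Agent.P.MP_46a8f8_ag.GU.GA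
import Pool.Agent.P.MP_46a8f8_ag.GU.DomL
import Pool.Agent.P.MP_46a8f8_ag.GU.NSt
import Pool.Agent.P.MP_46a8f8_ag.GU.Fit
import Pool.Agent.P.MP_46a8f8_ag.GU.Gen
import Pool.Agent.P.MP_46a8f8_ag.GU.Lat2
import Pool.Agent.P.MP_46a8f8_ag.GU.Res2
import Pool.Agent.P.MP_46a8f8_ag.GU.Chain2
import Pool.Agent.P.MP_46a8f8_ag.GU.Div
import Pool.Agent.P.MP_46a8f8_ag.GU.Dg1
import Pool.Agent.P.MP_46a8f8_ag.GU.Dg2
import Pool.Agent.P.MP_46a8f8_ag.GU.K0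
import Pool.Agent.P.MP_46a8f8_ag.GU.LiftE
import Pool.Agent.P.MP_46a8f8_ag.GU.AdjO
import Pool.Agent.P.MP_46a8f8_ag.GU.AdjU
import Pool.Agent.P.MP_46a8f8_ag.GU.Tor0

/-!
All packages for smooth algebras and for the neutral component put together.
-/

namespace Pool.Agent.P.MP_46a8f8_ag.GU

universe u

theorem allSM : S_SM.{u} :=
  pSM pHfm (pD1 pD0) (pKap0 pNak) (pIndM pInd)
    (pPost pPick pKap (pMid pMidG (pSubLag pProj)) pTrSp)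

theorem allSmooth (B R : Type u) [CommRing B] [IsRegularLocalRing B] (hd : ringKrullDim B ≤ 3)
    [CommRing R] [IsLocalRing R] [Algebra B R] [IsLocalHom (algebraMap B R)]
    [Algebra.FormallySmooth B R] [Algebra.EssFiniteType B R] (hN : NagN R) (A : Type u) [Ring A]
    [Algebra R A] [StarRing A] [SA R A] (hO : Ok R A) : HermN R A :=
  smooth allCore allHerm (pRk2 pFreeS) pBcg pGAbc pDomL pRegUp pHDown pHLoc
    (pHerm2 allSM allHC2 allGraph) pG1 pG2 (pG3 pG3t) B R hd hN A hO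

theorem allImp : S_Imp.{u} :=
  pImp (pGen pNSt pIRk pFit pBcg) (pChain2 pLat2 (pRes2 pB2 pRkM)) pDiv (pDg1 pSchur)
    (pDg2 pSchur) (pK0 pCover) pEuc pLiftE pIRk

end Pool.Agent.P.MP_46a8f8_ag.GU
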