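import Pool.Agent.P.MP_46a8f8_ag.GU.Ad
import Pool.Agent.P.MP_46a8f8_ag.GU.Fin2

/-!
The adjoint groups from their packages.
-/

namespace Pool.Agent.P.MP_46a8f8_ag.GU

open TensorProduct Function IsLocalRing Polynomial

universe u

theorem prime_of_not_sq {R : Type u} [CommRing R] [IsRegularLocalRing R] {x : R}
    (hx : x ∈ maximalIdeal R) (hx2 : x ∉ maximalIdeal R ^ 2) : Prime x := by
  obtain ⟨h1, -⟩ := rQuot R x hx hx2
  have := rDom (R ⧸ Ideal.span {x})
  exact (Ideal.span_singleton_prime fun e : x = 0 => hx2 (e ▸ Submodule.zero_mem _)).1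
    ((Ideal.Quotient.isDomain_iff_prime _).1 this)

/-- a complex whose cokernel is supported on a regular divisor -/
theorem coreX (R A : Type u) [CommRing R] [IsRegularLocalRing R] [Ring A] [Algebra R A]
    [StarRing A] [SA R A] (hd : ringKrullDim R = 3) (E : FM R A R R) (ε : ℤˣ) (hE : E.Sp ε)
    (D : Dat E) {x G₀ : R} {N : ℕ} (hx : x ∈ maximalIdeal R) (hx2 : x ∉ maximalIdeal R ^ 2)
    (hxG : ¬ x ∣ G₀) (hF₀ : D.Kil (x ^ N)) (kG : D.Kil G₀) : E.WNull ε := by
  classical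
  have := rDom R
  have hxp := prime_of_not_sq hx hx2
  have hFG : RS (x * x ^ N) G₀ :=
    ⟨mul_ne_zero hxp.ne_zero (pow_ne_zero _ hxp.ne_zero), fun e => hxG (e ▸ dvd_zero x),
      fun a b e => by
        rw [← pow_succ'] at e ⊢
        exact hxp.pow_dvd_of_dvd_mul_left _ hxG ⟨b, e⟩⟩
  have hk : ∀ r ∈ Ideal.span {x ^ N}, D.Kil r := fun r hr =>
    hF₀.span kG (Ideal.span_mono (by simp) hr)
  have kF : D.Kil (x * x ^ N) := hk _ (Ideal.mul_mem_left _ _ (Ideal.mem_span_singleton_self _))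
  obtain ⟨z, hz, -, hzr⟩ := pZ R hd _ _ _ hFG (not_le_sq3 hd)
  obtain ⟨Y, g1, re⟩ := pPair R A _ ε D _ _ hE hFG kF kG
  have p1 := pUni R A _ ε D _ _ Y hE hFG g1 re
  obtain ⟨Y', g2, ⟨E', D', e1, e2, e3⟩, l⟩ := CoreP.ind pSum pUni (pRed pZ pInj)
    (pStepB pDual pB1 pB2 (pB4 pB3 pGlue allW1 allNeutral pHered pParH2))
    (pLast pZ allW1 allNeutral pParH2) hd hx hx2 hz hFG hzr ε ∅ (by simp) N Y g1 p1
    fun r hr => re.kil (hk r (by
      rwa [Finset.prod_empty, mul_one, Ideal.span_singleton_pow] at hr))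
  obtain ⟨D'', re''⟩ := pSum R A _ _ D D' _ _ Y Y' re e3
  obtain ⟨H', w1, w2, w3⟩ := pSurg pSurga pZ pCover pProj R A hd _ ε D'' _ _ _ (hE.sum e1) hFG
    (g1.sum g2) re'' l
  exact ⟨E'.sum H', e1.sum w1, e2.sum w2, (FM.sum_assoc _ _ _).hyp w3⟩

/-- evaluation at zero -/
noncomputable def ev0 (R : Type u) [CommRing R] [IsLocalRing R] :
    Localization.AtPrime ((maximalIdeal R).comap (evalRingHom (0 : R))) →ₐ[R] R :=
  IsLocalization.liftAlgHom (M := ((maximalIdeal R).comap (evalRingHom (0 : R))).primeCompl)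
    (f := aeval (0 : R)) fun s => by
      by_contra hn
      exact s.2 (show evalRingHom (0 : R) s ∈ maximalIdeal R by
        simpa [coe_aeval_eq_eval] using hn)

theorem core2 (h2 : S_Step2.{u}) (hU : S_Up.{u}) (R A : Type u) [CommRing R]
    [IsRegularLocalRing R] [Ring A] [Algebra R A] [StarRing A] [SA R A]
    (hd : ringKrullDim R = 2) (E : FM R A R R) (ε : ℤˣ) (hE : E.Sp ε) (hL : E.HasLag) :
    E.WNull ε := by
  have := rDom R
  obtain ⟨D, N, hD⟩ := h2 R A hd E ε hE hL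
  obtain ⟨x, hx, hx2⟩ := SetLike.not_le_iff_exists.1 (PdP.not_le_sq (O := R) 1 (by rw [hd]; rfl))
  obtain ⟨y, hy, hxy⟩ : ∃ y ∈ maximalIdeal R, ¬ x ∣ y := by
    by_contra hn
    push Not at hn
    have e : maximalIdeal R = Ideal.span {x} :=
      le_antisymm (fun y hy => Ideal.mem_span_singleton.2 (hn y hy))
        ((Ideal.span_singleton_le_iff_mem _).2 hx)
    have h1 := (isRegularLocalRing_iff R).1 inferInstance
    have h3 : (maximalIdeal R).spanFinrank ≤ 1 := by
      rw [e]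
      exact (Submodule.spanFinrank_span_le_ncard_of_finite (Set.finite_singleton x)).trans_eq
        (Set.ncard_singleton x)
    rw [hd] at h1
    have h4 : (maximalIdeal R).spanFinrank = 2 := by exact_mod_cast h1
    omega
  let O := Localization.AtPrime ((maximalIdeal R).comap (evalRingHom (0 : R)))
  obtain ⟨hreg, hdim⟩ := pRegUp R 2 hd O
  have : Module.Flat R[X] O :=
    IsLocalization.flat O ((maximalIdeal R).comap (evalRingHom (0 : R))).primeCompl
  have : Module.Flat R O := Module.Flat.trans R R[X] O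
  let := bcStar R A O
  have : SA O (O ⊗[R] A) := (pBcg R A O).1
  obtain ⟨E', D', hE', hk, hdown⟩ := hU R A O ε E D hE
  have hev : ∀ r, ev0 R (algebraMap R O r) = r := fun r => (ev0 R).commutes r
  have hl : IsLocalHom (ev0 R : O →+* R) := IsLocalHom.of_surjective _ fun r => ⟨_, hev r⟩
  have hm : (maximalIdeal O).map (ev0 R) ≤ maximalIdeal R :=
    Ideal.map_le_iff_le_comap.2 fun o ho hu => ho (hl.map_nonunit o hu)
  refine hdown (ev0 R) (coreX O (O ⊗[R] A) hdim E' ε hE' D' (x := algebraMap R O x)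
    (G₀ := algebraMap R O (y ^ N)) (N := N) (fun hu => hx (hev x ▸ hu.map (ev0 R))) (fun h => hx2 ?_)
    (fun h => hxy ?_) ?_ (hk _ (hD _ (Ideal.pow_mem_pow hy N))))
  · have := Ideal.mem_map_of_mem (ev0 R) h
    rw [Ideal.map_pow, hev] at this
    exact Ideal.pow_right_mono hm 2 this
  · have := map_dvd (ev0 R) h
    rw [hev, hev] at this
    exact (prime_of_not_sq hx hx2).dvd_of_dvd_pow this
  · rw [← map_pow]
    exact hk _ (hD _ (Ideal.pow_mem_pow hx N))

/-- dimension at most two -/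
theorem low2 (h2 : S_Step2.{u}) (hU : S_Up.{u}) (k : ℕ) :
    ∀ (R A : Type u) [CommRing R] [IsRegularLocalRing R] [Ring A] [Algebra R A] [StarRing A]
      [SA R A] (e : ℕ), ringKrullDim R = e → e + k = 2 → Ok R A → HermN R A := by
  induction k with
  | zero =>
    intro R A _ _ _ _ _ _ e he hk hO
    obtain rfl : e = 2 := hk
    have : IsDomain R := rDom R
    obtain ⟨τ, ε, hτ⟩ := hO.tr
    exact allHerm R A τ ε hτ.comm hτ.perf hτ.st (hO.rk (pRk2 pFreeS)) fun E hE hL =>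
      core2 h2 hU R A he E ε hE hL
  | succ k ih =>
    intro R A _ _ _ _ _ _ e he hk hO
    have : IsDomain R := rDom R
    let 𝔮 := (maximalIdeal R).comap (evalRingHom (0 : R))
    let O := Localization.AtPrime 𝔮
    obtain ⟨hreg, hdim⟩ := pRegUp R e he O
    let := bcStar R A O
    have : SA O (O ⊗[R] A) := (pBcg R A O).1
    refine pHDown R A O (ev0 R) ?_
    exact ih O (O ⊗[R] A) (e + 1) hdim (by omega) (hO.bc pBcg pGAbc O fun S _ _ _ _ =>
      (pDomL R S O).2 𝔮.primeCompl 𝔮.primeCompl_le_nonZeroDivisors)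

/-- essentially smooth algebras -/
theorem smooth2 (h2 : S_Step2.{u}) (hU : S_Up.{u})
    (B R : Type u) [CommRing B] [IsRegularLocalRing B] (hd : ringKrullDim B ≤ 2) [CommRing R]
    [IsLocalRing R] [Algebra B R] [IsLocalHom (algebraMap B R)] [Algebra.FormallySmooth B R]
    [Algebra.EssFiniteType B R] (A : Type u) [Ring A] [Algebra R A] [StarRing A]
    [SA R A] (hO : Ok R A) : HermN R A := by
  intro h c c' d d' hh hd0 hd0' e1 e2 e3
  have := Algebra.EssFiniteType.isNoetherianRing B R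
  obtain ⟨e, he⟩ : ∃ e : ℕ, ringKrullDim B = e :=
    ⟨_, ((isRegularLocalRing_iff B).1 inferInstance).symm⟩
  have he3 : e ≤ 2 := by
    rw [he] at hd
    exact_mod_cast hd
  obtain ⟨m, φ, hφ⟩ := struct B R
  have := RegBP.selfLoc B
  obtain ⟨hR, h𝔓, hreg⟩ := regB regAt regFlat rDom B R m e φ hφ
    ((regAt B B (maximalIdeal B) e).2 ⟨inferInstance, he⟩)
  have : IsDomain R := rDom R
  set 𝔓 := (maximalIdeal B).map (algebraMap B R) with h𝔓def
  let O := Localization.AtPrime 𝔓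
  obtain ⟨hO1, hO2⟩ := (regAt R O 𝔓 e).1 hreg
  let := bcStar R A O
  have : SA O (O ⊗[R] A) := (pBcg R A O).1
  obtain ⟨c, c', d, d', hd, hd', e1, e2, e3⟩ := pHLoc R A O 𝔓
    (low2 h2 hU (2 - e) O (O ⊗[R] A) e hO2 (by omega)
      (hO.bc pBcg pGAbc O fun S _ _ _ _ =>
        (pDomL R S O).1 𝔓.primeCompl 𝔓.primeCompl_le_nonZeroDivisors))
    h c c' d d' hh hd0 hd0' e1 e2 e3
  by_cases hm : maximalIdeal R ≤ 𝔓
  · obtain ⟨v, rfl⟩ : IsUnit d := by
      by_contra hn
      exact hd (hm hn)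
    obtain ⟨v', rfl⟩ : IsUnit d' := by
      by_contra hn
      exact hd' (hm hn)
    refine ⟨⟨(↑v⁻¹ : R) • c, ((v : R) * ↑v'⁻¹) • c', ?_, ?_⟩, ?_⟩
    · rw [smul_mul_smul_comm, e3, Algebra.algebraMap_eq_smul_one, smul_smul,
        Units.inv_mul_cancel_left, Units.inv_mul, one_smul]
    · rw [smul_mul_smul_comm, e2, Algebra.algebraMap_eq_smul_one, smul_smul, mul_comm (v : R),
        Units.mul_inv_cancel_right, Units.inv_mul, one_smul]
    · change (↑v⁻¹ : R) • c * star ((↑v⁻¹ : R) • c) = h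
      rw [HermP.star_smul', smul_mul_smul_comm, e1, smul_smul, mul_mul_mul_comm, Units.inv_mul,
        one_mul, one_smul]
  · obtain ⟨x, hx, hx'⟩ := SetLike.not_le_iff_exists.1 hm
    have hxd : x * d ∉ 𝔓 := fun hh => (h𝔓.mem_or_mem hh).elim hx' hd
    have hxd' : x * d' ∉ 𝔓 := fun hh => (h𝔓.mem_or_mem hh).elim hx' hd'
    have hF : x * d * (x * d) ∈ maximalIdeal R :=
      Ideal.mul_mem_right _ _ (Ideal.mul_mem_right _ _ hx)
    obtain ⟨R', _, _, φ', hφ', Q, N, hQ, hQN⟩ := pG1 B R m φ (x * d * (x * d)) hφ h𝔓 hF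
      fun hh => (h𝔓.mem_or_mem hh).elim hxd hxd
    obtain ⟨T, _, _, _, g, g1, g2, g3, g4⟩ := pG2 R R' φ' _ Q N hφ' hF hQ hQN
    obtain ⟨τ, ε, hτ⟩ := hO.tr
    refine pHerm2 allSM allHC2 allGraph R A τ ε hτ (hO.rk (pRk2 pFreeS)) h (x • c) c' (x * d)
      (x * d') hh (fun h0 => hxd (h0 ▸ 𝔓.zero_mem)) (fun h0 => hxd' (h0 ▸ 𝔓.zero_mem)) ?_ ?_
      (pG3 pG3t R T _ g hF g1 g2 g3 g4)
    · rw [HermP.star_smul', smul_mul_smul_comm, e1, smul_smul, mul_mul_mul_comm]
    · rw [mul_smul_comm, e2, map_mul, Algebra.smul_def]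

theorem pHR (h2 : S_Step2.{u}) (hU : S_Up.{u}) : S_HR.{u} := by
  intro R A B C _ _ _ _ _ _ _ _ _ _ _ _ _ _ hd hO hD
  let := bcStar R A C
  have : SA C (C ⊗[R] A) := (pBcg R A C).1
  exact smooth2 h2 hU B C hd (C ⊗[R] A) (hO.bc pBcg pGAbc C hD)

theorem topA (h2 : S_Step2.{u}) (hU : S_Up.{u}) (hDA : S_DA2.{u}) (hP : S_PurD.{u})
    (hG : S_GD.{u}) (hI : S_Iso.{u}) (hAd : S_AdA.{u}) (hT : S_TorA.{u})
    (B R : Type u) [CommRing B] [IsRegularLocalRing B] (hd : ringKrullDim B ≤ 2) [CommRing R]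
    [IsLocalRing R] [Algebra B R] [IsLocalHom (algebraMap B R)] [Algebra.FormallySmooth B R]
    [Algebra.EssFiniteType B R] (ht : IsUnit (2 : R))
    (S : Type u) [CommRing S] [IsDomain S] [Algebra R S] [Module.Finite R S] [Algebra.Etale R S]
    (A : Type u) [Ring A] [Algebra S A] [IsAzumaya S A] [Algebra R A] [IsScalarTower R S A]
    (σ : A →ₗ[R] A) (hσ : IsInvol σ)
    (hfix : ∀ s : S, σ (algebraMap S A s) = algebraMap S A s → ∃ r, algebraMap R S r = s)
    (K : Type u) [Field K] [Algebra R K] [IsFractionRing R K]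
    (O : Type u) [CommRing O] [Algebra R O] (hO : IsATorsor S σ O) (hK : Nonempty (O →ₐ[R] K)) :
    Nonempty (O →ₐ[R] R) := by
  let : StarRing A := starOf σ hσ.1 hσ.2
  have := Algebra.EssFiniteType.isNoetherianRing B R
  obtain ⟨e, he⟩ : ∃ e : ℕ, ringKrullDim B = e :=
    ⟨_, ((isRegularLocalRing_iff B).1 inferInstance).symm⟩
  obtain ⟨m, φ, hφ⟩ := struct B R
  have := RegBP.selfLoc B
  obtain ⟨hR, -, -⟩ := regB regAt regFlat rDom B R m e φ hφ
    ((regAt B B (maximalIdeal B) e).2 ⟨inferInstance, he⟩)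
  have : IsDomain R := rDom R
  have h1 : σ 1 = 1 := star_one A
  have hA : AzI R S A :=
    { tower := inferInstance
      dom := inferInstance
      fin := inferInstance
      et := inferInstance
      az := inferInstance
      st := fun r => by
        change σ (algebraMap R A r) = _
        rw [Algebra.algebraMap_eq_smul_one, map_smul, h1]
      fix := hfix
      two := ht }
  have : SA R A := allSep R S A hA
  obtain ⟨τ, ε, hτ, hp, hs⟩ := allTr R S A hA
  have hGA := pGA0 pAzS pFreeS R S A hA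
  have hOk : Ok R A := ⟨⟨τ, ε, ⟨hτ, hp, hs⟩⟩, S, _, _, _, hGA⟩
  have hTy : Ty R A := by
    by_cases hsu : Surjective (algebraMap R S)
    · exact Or.inl (pAzR R S A hsu hGA.az)
    · exact Or.inr (hDA R S A hA hsu)
  have hPur := hP R A B K hd hOk hTy
  have hDm : Dm R R := fun S' _ _ _ _ =>
    (Algebra.TensorProduct.lid R S').toMulEquiv.isDomain S'
  exact hT R S A K σ (fun _ => rfl) hA
    (hI R S A K hA (smooth2 h2 hU B R hd A hOk) hPur)
    (hAd R S A K hA hPur (hG R A R K hOk hTy (pHR h2 hU R A B R hd hOk hDm))) O hO hK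

end Pool.Agent.P.MP_46a8f8_ag.GU
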