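import Pool.Agent.P.MP_46a8f8_ag.GU.Sp

/-!
An isotropic vector which is not zero at the generic points.
-/

namespace Pool.Agent.P.MP_46a8f8_ag.GU

open TensorProduct Function IsLocalRing Polynomial

universe u

namespace Ap0P

variable {D : Type u} [CommRing D] [IsNoetherianRing D]

/-- gluing at the minimal primes -/
theorem glue {κ : Type} (v : Ideal D → κ → D) : ∃ (y : κ → D) (s : Ideal D → D),
    ∀ p ∈ minimalPrimes D, s p ∉ p ∧ ∀ i, y i - s p * v p i ∈ p := by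
  classical
  let A := (minimalPrimes.finite_of_isNoetherianRing D).toFinset
  have hA : ∀ p, p ∈ A ↔ p ∈ minimalPrimes D := fun p => Set.Finite.mem_toFinset _
  have h : ∀ p : Ideal D, ∃ s, p ∈ minimalPrimes D → s ∉ p ∧ ∀ q ∈ A, q ≠ p → s ∈ q := fun p => by
    by_cases hp : p ∈ minimalPrimes D
    swap
    · exact ⟨0, fun h => absurd h hp⟩
    have : ¬ (A.erase p).inf id ≤ p := fun hle => by
      obtain ⟨q, hq, hqp⟩ := (Ideal.IsPrime.inf_le' hp.1.1).1 hle
      obtain ⟨q1, q2⟩ := Finset.mem_erase.1 hq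
      exact q1 (le_antisymm hqp (hp.2 ((hA q).1 q2).1 hqp))
    obtain ⟨s, hs, hs'⟩ := SetLike.not_le_iff_exists.1 this
    exact ⟨s, fun _ => ⟨hs', fun q hq hqp =>
      (Finset.inf_le (f := id) (Finset.mem_erase.2 ⟨hqp, hq⟩) : _ ≤ q) hs⟩⟩
  choose s hs using h
  refine ⟨fun i => ∑ q ∈ A, s q * v q i, s, fun p hp => ⟨(hs p hp).1, fun i => ?_⟩⟩
  beta_reduce
  rw [← Finset.add_sum_erase A _ ((hA p).2 hp), add_sub_cancel_left]
  refine p.sum_mem fun q hq => p.mul_mem_right _ ?_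
  obtain ⟨q1, q2⟩ := Finset.mem_erase.1 hq
  exact (hs q ((hA q).1 q2)).2 p ((hA p).2 hp) q1.symm

end Ap0P

theorem pAp0 : S_Ap0.{u} := by
  intro D _ _ n c hc h
  choose! v hv using h
  obtain ⟨y, s, hy⟩ := Ap0P.glue v
  have h1 : ∀ p ∈ minimalPrimes D, qv c y ∈ p := fun p hp => by
    have := p.add_mem (qv_sub_mem c y (s p • v p) (hy p hp).2)
      (p.mul_mem_left (s p ^ 2) (hv p hp).1)
    rwa [qv_smul, sub_add_cancel] at this
  have h2 : ∀ p ∈ minimalPrimes D, ∃ i, y i ∉ p := fun p hp => by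
    obtain ⟨i, hi⟩ := not_forall.1 (mt ct_le.2 (hv p hp).2)
    refine ⟨i, fun h => ?_⟩
    have := p.sub_mem h ((hy p hp).2 i)
    rw [sub_sub_cancel] at this
    exact (hp.1.1.mem_or_mem this).elim (hy p hp).1 hi
  choose! j hj using h2
  obtain ⟨f, s', hf⟩ := Ap0P.glue fun p => (Pi.single (j p) 1 : Ix n → D)
  have h3 : ∀ p ∈ minimalPrimes D, bv c y f ∉ p := fun p hp h => by
    have := p.sub_mem h (bv_sub_mem c y f (x' := y) (y' := s' p • Pi.single (j p) 1) (by simp)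
      (hf p hp).2)
    rw [sub_sub_cancel, bv_smul_right, bv_single, mul_one] at this
    obtain ⟨k2, kc⟩ := hc.not_mem hp.1.1.ne_top
    exact (hp.1.1.mem_or_mem ((hp.1.1.mem_or_mem ((hp.1.1.mem_or_mem this).resolve_left
      (hf p hp).1)).resolve_right (hj p hp))).elim k2 (kc _)
  obtain ⟨N, hN⟩ : IsNilpotent (qv c y) := by
    rw [← mem_nilradical, nilradical, ← Ideal.sInf_minimalPrimes]
    exact Ideal.mem_sInf.2 fun {p} hp => h1 p hp
  have h4 : ∀ k : ℕ, ∃ y', qv c y ^ (k + 1) ∣ qv c y' ∧ ∀ p ∈ minimalPrimes D, bv c y' f ∉ p := by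
    intro k
    induction k with
    | zero => exact ⟨y, by simp, h3⟩
    | succ k ih =>
      obtain ⟨y', ⟨r, hr⟩, h5⟩ := ih
      refine ⟨bv c y' f • y' - qv c y' • f, ⟨qv c y ^ k * r ^ 2 * qv c f, ?_⟩, fun p hp h => ?_⟩
      · rw [qv_sub, qv_smul, qv_smul, bv_smul_left, bv_smul_right, hr]
        ring
      · rw [bv_sub_left, bv_smul_left, bv_smul_left, hr] at h
        have := p.add_mem h (p.mul_mem_right (qv c y ^ k * r * bv c f f) (h1 p hp))
        rw [show bv c y' f * bv c y' f - qv c y ^ (k + 1) * r * bv c f f +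
          qv c y * (qv c y ^ k * r * bv c f f) = bv c y' f * bv c y' f by ring] at this
        exact (hp.1.1.mem_or_mem this).elim (h5 p hp) (h5 p hp)
  obtain ⟨y', h5, h6⟩ := h4 N
  rw [pow_succ, hN, zero_mul, zero_dvd_iff] at h5
  exact ⟨y', h5, fun p hp h => h6 p hp (h (bv_mem_ct c y' f))⟩

end Pool.Agent.P.MP_46a8f8_ag.GU
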