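import Pool.Agent.P.MP_46a8f8_ag.GU.Sp

/-!
A unimodular isotropic vector over a semilocal ring of dimension at most one.
-/

namespace Pool.Agent.P.MP_46a8f8_ag.GU

open TensorProduct Function IsLocalRing Polynomial

universe u

namespace Ap1P

variable {R R' : Type u} [CommRing R] [CommRing R'] {n : ℕ}

/-- the product of `y` with the reflection of `e` in `w` -/
def bt (c y e w : Ix n → R) : R := qv c w * bv c y e - bv c w e * bv c w y

theorem map_bt (c y e w : Ix n → R) {F : Type*} [FunLike F R R'] [RingHomClass F R R'] (f : F) :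
    f (bt c y e w) = bt (f ∘ c) (f ∘ y) (f ∘ e) (f ∘ w) := by
  rw [bt, map_sub, map_mul, map_mul, map_qv, map_bv, map_bv, map_bv, bt]

theorem poly {K : Type u} [Field K] {c : Ix n → K} (hc : Ok2 c) (y e : Ix n → K) :
    ∃ Ψ : MvPolynomial (Ix n) K, Ψ ≠ 0 ∧ ∀ v, MvPolynomial.eval v Ψ ≠ 0 →
      qv c v ≠ 0 ∧ (y ≠ 0 → e ≠ 0 → bt c y e v ≠ 0) := by
  have hC : ∀ (v a : Ix n → K), MvPolynomial.eval v ∘ (MvPolynomial.C ∘ a) = a := fun v a =>
    funext fun i => by simp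
  have hX : ∀ v : Ix n → K, MvPolynomial.eval v ∘ MvPolynomial.X = v := fun v =>
    funext fun i => by simp
  have hQ : ∀ v : Ix n → K,
      MvPolynomial.eval v (qv (MvPolynomial.C ∘ c) MvPolynomial.X) = qv c v := fun v => by
    rw [map_qv, hC, hX]
  have hB : ∀ v : Ix n → K, MvPolynomial.eval v (bt (MvPolynomial.C ∘ c) (MvPolynomial.C ∘ y)
      (MvPolynomial.C ∘ e) MvPolynomial.X) = bt c y e v := fun v => by
    rw [map_bt, hC, hC, hC, hX]
  have hQ0 : qv (MvPolynomial.C ∘ c) (MvPolynomial.X : Ix n → MvPolynomial (Ix n) K) ≠ 0 :=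
    fun h => by
      have := hQ (Pi.single 0 1)
      rw [h, map_zero, qv_single, one_pow, mul_one] at this
      exact (hc.un 0).ne_zero this.symm
  by_cases h : y ≠ 0 ∧ e ≠ 0
  · refine ⟨qv (MvPolynomial.C ∘ c) MvPolynomial.X * bt (MvPolynomial.C ∘ c)
      (MvPolynomial.C ∘ y) (MvPolynomial.C ∘ e) MvPolynomial.X, mul_ne_zero hQ0 fun h0 => ?_,
      fun v hv => ?_⟩
    · have := hc.rk3 (a := e) (b := y) (β := bv c y e) fun v => by
        have := hB v
        rw [h0, map_zero, bt] at this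
        linear_combination -this
      exact this.2.elim h.2 h.1
    · rw [map_mul, hQ, hB] at hv
      exact ⟨left_ne_zero_of_mul hv, fun _ _ => right_ne_zero_of_mul hv⟩
  · exact ⟨_, hQ0, fun v hv => ⟨hQ v ▸ hv, fun h1 h2 => absurd ⟨h1, h2⟩ h⟩⟩

theorem exists_w (h1 : S_Avm.{u}) (D Z : Type u) [CommRing D] [CommRing Z] [IsNoetherianRing Z]
    [Finite (MaximalSpectrum Z)] (φ : D →+* Z) (hL : Lam D) {c : Ix n → Z} (hc : Ok2 c)
    (y e : Ix n → Z) : ∃ w : Ix n → D, IsUnit (qv c (φ ∘ w)) ∧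
      ∀ P ∈ minimalPrimes Z, ¬ ct y ≤ P → ¬ ct e ≤ P → bt c y e (φ ∘ w) ∉ P := by
  let κ := {P : PrimeSpectrum Z // P.asIdeal ∈ minimalPrimes Z ∨ P.asIdeal.IsMaximal}
  have hf := ((minimalPrimes.finite_of_isNoetherianRing Z).union
    (Set.finite_range (MaximalSpectrum.asIdeal (R := Z)))).to_subtype
  have : Finite κ := Finite.of_injective (fun k : κ => (⟨k.1.asIdeal,
      k.2.imp id fun h => ⟨⟨_, h⟩, rfl⟩⟩ :
      ↥(minimalPrimes Z ∪ Set.range (MaximalSpectrum.asIdeal (R := Z)))))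
    fun a b h => Subtype.ext (PrimeSpectrum.ext (congrArg Subtype.val h))
  let F : κ → Type u := fun k => k.1.asIdeal.ResidueField
  choose Ψ hΨ hΨ' using fun k : κ =>
    poly (hc.map (algebraMap Z (F k))) (algebraMap Z (F k) ∘ y) (algebraMap Z (F k) ∘ e)
  obtain ⟨w, hw⟩ := h1 D (Ix n) κ F (fun k => (algebraMap Z (F k)).comp φ) Ψ hL hΨ
  have key : ∀ (k : κ) (a : Ix n → Z), ¬ ct a ≤ k.1.asIdeal → algebraMap Z (F k) ∘ a ≠ 0 :=
    fun k a h h0 => h (ct_le.2 fun i => Ideal.algebraMap_residueField_eq_zero.1 (congrFun h0 i))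
  refine ⟨w, isUnit_of_max fun m hm h => ?_, fun P hP hy he h => ?_⟩
  · let k : κ := ⟨⟨m, hm.isPrime⟩, Or.inr hm⟩
    refine (hΨ' k _ (hw k)).1 ?_
    have := (Ideal.algebraMap_residueField_eq_zero (I := k.1.asIdeal)).2 h
    rwa [map_qv] at this
  · have hp : P.IsPrime := hP.1.1
    let k : κ := ⟨⟨P, hp⟩, Or.inl hP⟩
    refine (hΨ' k _ (hw k)).2 (key k y hy) (key k e he) ?_
    have := (Ideal.algebraMap_residueField_eq_zero (I := P)).2 h
    rwa [map_bt] at this

theorem root {J : Ideal R} {k : R} (hk : k ∈ J) (i : ℕ) :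
    ∃ μ ∈ J, μ ^ 2 - μ + k ∈ J ^ i := by
  induction i with
  | zero => exact ⟨0, J.zero_mem, by simp⟩
  | succ i ih =>
    obtain ⟨μ, h, h'⟩ := ih
    have h2 : k + μ ^ 2 ∈ J := J.add_mem hk (J.pow_mem_of_mem h 2 two_pos)
    refine ⟨k + μ ^ 2, h2, ?_⟩
    rw [show (k + μ ^ 2) ^ 2 - (k + μ ^ 2) + k = (μ ^ 2 - μ + k) * (k + μ ^ 2 + μ) by ring,
      pow_succ]
    exact Ideal.mul_mem_mul h' (J.add_mem h2 h)

theorem mem_jac {a : R} :
    a ∈ Ideal.jacobson (⊥ : Ideal R) ↔ ∀ m : Ideal R, m.IsMaximal → a ∈ m := by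
  rw [Ideal.jacobson, Ideal.mem_sInf]
  exact ⟨fun h m hm => h ⟨bot_le, hm⟩, fun h m hm => h m hm.2⟩

theorem unit_of {a : R} (h : 1 - a ∈ Ideal.jacobson (⊥ : Ideal R)) : IsUnit a :=
  isUnit_of_max fun m hm ha => hm.ne_top ((Ideal.eq_top_iff_one _).2 (by
    simpa using m.add_mem (mem_jac.1 h m hm) ha))

/-- the primes through `β` -/
theorem rad (D Z : Type u) [CommRing D] [CommRing Z] [Algebra D Z] [Algebra.IsIntegral D Z]
    (hd : ringKrullDim D ≤ 1) {I : Ideal D} (hI : ∀ p ∈ minimalPrimes D, ¬ I ≤ p) {l β : Z}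
    (h : ∀ P ∈ minimalPrimes Z, ¬ I ≤ P.comap (algebraMap D Z) → l ∉ P → β ∉ P) :
    Ideal.span {l} * (Ideal.jacobson (⊥ : Ideal D)).map (algebraMap D Z) ≤
      (Ideal.span {β}).radical := by
  have h1 := Ring.krullDimLE_one_iff.1 (Ring.krullDimLE_iff.2 (by simpa using hd))
  rw [Ideal.radical_eq_sInf]
  refine le_sInf fun Q hQ => ?_
  have : Q.IsPrime := hQ.2
  by_cases hl : l ∈ Q
  · exact le_trans Ideal.mul_le_left ((Ideal.span_singleton_le_iff_mem Q).2 hl)
  refine le_trans Ideal.mul_le_right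
    (Ideal.map_le_iff_le_comap.2 fun a ha => mem_jac.1 ha (Q.comap (algebraMap D Z)) ?_)
  obtain ⟨P, hP, hPQ⟩ := Ideal.exists_minimalPrimes_le (bot_le : ⊥ ≤ Q)
  have : P.IsPrime := hP.1.1
  refine (h1 _ (Ideal.comap_isPrime _ Q)).resolve_left fun hm => ?_
  have e : Q.comap (algebraMap D Z) ≤ P.comap (algebraMap D Z) :=
    hm.2 ⟨Ideal.comap_isPrime _ P, bot_le⟩ (Ideal.comap_mono hPQ)
  have hb := h P hP (fun hle => hI _ hm (hle.trans (Ideal.comap_mono hPQ))) fun h => hl (hPQ h)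
  have hlt : P < Q := lt_of_le_of_ne hPQ fun e =>
    hb (e ▸ (Ideal.span_singleton_le_iff_mem _).1 hQ.1)
  exact (Ideal.IsIntegral.comap_lt_comap (R := D) hlt).not_ge e

end Ap1P

open Ap1P in
theorem pAp1 (h1 : S_Avm.{u}) : S_Ap1.{u} := by
  intro D _ _ _ n c y hd hL hc hi hy hm
  choose! v hv using hi
  obtain ⟨e, he⟩ := crtv' v
  set J := Ideal.jacobson (⊥ : Ideal D) with hJ
  have e1 : qv c e ∈ J := mem_jac.2 fun m h => by
    simpa using m.add_mem (qv_sub_mem c e (v m) (he m h)) (hv m h).1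
  have e2 : ct e = ⊤ := top_of_max fun m h hle => (hv m h).2 (ct_le.2 fun i => by
    simpa using m.sub_mem (ct_le.1 hle i) (he m h i))
  obtain ⟨f, hf⟩ := hc.exists_bv (x := e) (a := 1) (by rw [e2]; trivial)
  set k := qv c e * qv c f with hk
  have hkJ : k ∈ J := J.mul_mem_right _ e1
  let Z := QuadraticAlgebra D (-k) 1
  have : IsNoetherianRing Z := IsNoetherianRing.of_finite D Z
  have := semi_fin D Z
  let φ := algebraMap D Z
  let l : Z := QuadraticAlgebra.omega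
  have hl : l * l = l - φ k := by
    rw [QuadraticAlgebra.omega_mul_omega_eq_algebraMap, map_neg, map_one, one_mul]
    ring
  let e0 : Ix n → Z := l • (φ ∘ e) - φ (qv c e) • (φ ∘ f)
  obtain ⟨w, hw, hw'⟩ := exists_w h1 D Z φ hL (hc.map φ) (φ ∘ y) e0
  have hqw : IsUnit (qv c w) := by
    rw [← map_qv] at hw
    obtain ⟨r, hr⟩ := hw.exists_right_inv
    have h : qv c w * r.re + -k * 0 * r.im = 1 := congrArg QuadraticAlgebra.re hr
    exact IsUnit.of_mul_eq_one r.re (by simpa using h)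
  have hu : IsUnit (2 * l - 1) := by
    have h4 : IsUnit (1 - 4 * k) := unit_of (by simpa using J.mul_mem_left 4 hkJ)
    have h5 : (2 * l - 1) * (2 * l - 1) = φ (1 - 4 * k) := by
      rw [map_sub, map_mul, map_one, map_ofNat]
      linear_combination 4 * hl
    exact isUnit_of_mul_isUnit_left (h5 ▸ h4.map φ)
  have hb : bv (φ ∘ c) e0 (φ ∘ f) = l * (2 * l - 1) := by
    rw [bv_sub_left, bv_smul_left, bv_smul_left, bv_self, ← map_bv, ← map_qv, hf, map_one]
    have : φ k = φ (qv c e) * φ (qv c f) := map_mul _ _ _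
    linear_combination (-2) * hl + 2 * this
  have hr := rad D Z hd hm (l := l) (β := bt (φ ∘ c) (φ ∘ y) e0 (φ ∘ w)) fun P hP hle hlP =>
    hw' P hP (fun h => hle (ct_le.2 fun i => ct_le.1 h i)) fun h => by
      have := h (bv_mem_ct (φ ∘ c) e0 (φ ∘ f))
      rw [hb] at this
      exact (hP.1.1.mem_or_mem this).elim hlP fun h =>
        hP.1.1.ne_top (P.eq_top_of_isUnit_mem h hu)
  obtain ⟨M, hM⟩ := Ideal.exists_pow_le_of_le_radical_of_fg hr (IsNoetherian.noetherian _)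
  obtain ⟨μ, hμ, hμ'⟩ := root hkJ (M + 1)
  let π := Ideal.Quotient.mk (J ^ (M + 1))
  let ψ : Z →ₐ[D] D ⧸ J ^ (M + 1) := QuadraticAlgebra.lift ⟨π (1 - μ), by
    have := Ideal.Quotient.eq_zero_iff_mem.2 hμ'
    rw [one_smul, Algebra.smul_def, mul_one, Ideal.Quotient.algebraMap_eq, ← map_mul, ← map_add,
      ← sub_eq_zero, ← map_sub, ← this]
    congr 1
    ring⟩
  have ψ1 : ψ l = π (1 - μ) := by
    change (0 : D) • (1 : D ⧸ J ^ (M + 1)) + (1 : D) • π (1 - μ) = _
    rw [zero_smul, one_smul, zero_add]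
  have ψ2 : ∀ a, ψ (φ a) = π a := fun a => ψ.commutes a
  let e' : Ix n → D := (1 - μ) • e - qv c e • f
  have ψ3 : ψ (bt (φ ∘ c) (φ ∘ y) e0 (φ ∘ w)) = π (bt c y e' w) := by
    rw [map_bt, map_bt]
    congr 1
    · exact funext fun i => ψ2 _
    · exact funext fun i => ψ2 _
    · funext i
      simp only [e0, e', Function.comp, Pi.sub_apply, Pi.smul_apply, smul_eq_mul, map_sub ψ,
        map_mul ψ, ψ1, ψ2, map_sub π ((1 - μ) * e i), map_mul π]
    · exact funext fun i => ψ2 _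
  have hN : J ^ M ≤ Ideal.span {bt c y e' w} := by
    refine Submodule.le_of_le_smul_of_le_jacobson_bot (I := J) (IsNoetherian.noetherian _) le_rfl
      fun a ha => ?_
    have h2 : l ^ M * φ a ∈ Ideal.span {bt (φ ∘ c) (φ ∘ y) e0 (φ ∘ w)} := by
      refine hM ?_
      rw [mul_pow, ← Ideal.map_pow]
      exact Ideal.mul_mem_mul (Ideal.pow_mem_pow (Ideal.mem_span_singleton_self l) M)
        (Ideal.mem_map_of_mem _ ha)
    obtain ⟨r, hr⟩ := Ideal.mem_span_singleton'.1 h2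
    obtain ⟨r', hr'⟩ := Ideal.Quotient.mk_surjective (ψ r)
    have h3 := congrArg ψ hr
    rw [map_mul, map_mul, map_pow, ψ1, ψ2, ψ3, ← hr', ← map_pow, ← map_mul, ← map_mul] at h3
    have h4 := Ideal.Quotient.eq.1 h3
    obtain ⟨s, hs⟩ := ((unit_of (a := 1 - μ) (by simpa using hμ)).pow M).exists_left_inv
    rw [smul_eq_mul, ← pow_succ',
      show a = (s * r') * bt c y e' w + (-s) * (r' * bt c y e' w - (1 - μ) ^ M * a) by
        linear_combination (-a) * hs]
    exact Submodule.add_mem_sup (Ideal.mul_mem_left _ _ (Ideal.mem_span_singleton_self _))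
      (Ideal.mul_mem_left _ _ h4)
  obtain ⟨r, hr⟩ := Ideal.mem_span_singleton'.1
    (hN (Ideal.pow_le_pow_right (Nat.le_succ M) hμ'))
  have q1 : qv c e' = qv c e * (μ ^ 2 - μ + k) := by
    rw [qv_sub, qv_smul, qv_smul, bv_smul_left, bv_smul_right, hf, hk]
    ring
  have q2 : bv c e' f = 1 - μ - 2 * k := by
    rw [bv_sub_left, bv_smul_left, bv_smul_left, bv_self, hf, hk]
    ring
  let ρ := qv c w ^ 2 * qv c e * r
  have hρ : ρ ∈ J := J.mul_mem_right _ (J.mul_mem_left _ e1)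
  refine ⟨qv c w • e' - bv c w e' • w - ρ • y, ?_, top_of_max fun m hmx hle => ?_⟩
  · rw [qv_sub, qv_sub, qv_smul, qv_smul, qv_smul, hy, q1, ← hr]
    simp only [bv_smul_left, bv_smul_right, bv_sub_left, bt, ρ]
    rw [bv_comm c e' w, bv_comm c e' y]
    ring
  · have hp := hmx.isPrime
    have hq : qv c w ∉ m := fun h => hmx.ne_top (m.eq_top_of_isUnit_mem h hqw)
    have hρ' := mem_jac.1 hρ m hmx
    have k1 := hle (bv_mem_ct c _ w)
    have k2 := hle (bv_mem_ct c _ f)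
    simp only [bv_smul_left, bv_sub_left, bv_self] at k1 k2
    rw [bv_comm c e' w] at k1
    have k3 : qv c w * bv c w e' ∈ m := by
      have := m.neg_mem (m.add_mem k1 (m.mul_mem_right (bv c y w) hρ'))
      rwa [show -(qv c w * bv c w e' - bv c w e' * (2 * qv c w) - ρ * bv c y w + ρ * bv c y w) =
        qv c w * bv c w e' by ring] at this
    have k4 := (hp.mem_or_mem k3).resolve_left hq
    have k5 : qv c w * bv c e' f ∈ m := by
      simpa using m.add_mem (m.add_mem k2 (m.mul_mem_right (bv c y f) hρ'))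
        (m.mul_mem_right (bv c w f) k4)
    have k6 := (hp.mem_or_mem k5).resolve_left hq
    rw [q2] at k6
    refine hmx.ne_top ((Ideal.eq_top_iff_one _).2 ?_)
    simpa using m.add_mem (m.add_mem k6 (m.mul_mem_left 2 (mem_jac.1 hkJ m hmx)))
      (mem_jac.1 hμ m hmx)

end Pool.Agent.P.MP_46a8f8_ag.GU
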