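import Pool.Agent.P.MP_46a8f8_ag.GU.Sp

/-!
Lifting an isotropic vector.
-/

namespace Pool.Agent.P.MP_46a8f8_ag.GU

open TensorProduct Function IsLocalRing Polynomial

universe u

theorem pAp2 : S_Ap2.{u} := by
  intro R _ _ n c P hc ⟨x, hx, hx'⟩
  choose x₀ hx₀ using fun i => Ideal.Quotient.mk_surjective (x i)
  obtain rfl : x = Ideal.Quotient.mk (Ideal.span {P}) ∘ x₀ := funext fun i => (hx₀ i).symm
  rw [← map_qv, Ideal.Quotient.eq_zero_iff_mem, Ideal.mem_span_singleton] at hx
  obtain ⟨r, hr⟩ := hx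
  have h1 : ∀ m : Ideal R, m.IsMaximal → P ∈ m → ¬ ct x₀ ≤ m := fun m hm hP hle => by
    have := Ideal.map_mono (f := Ideal.Quotient.mk (Ideal.span {P})) hle
    rw [ct_map, hx', top_le_iff] at this
    have h2 := congrArg (Ideal.comap (Ideal.Quotient.mk (Ideal.span {P}))) this
    rw [Ideal.comap_map_of_surjective _ Ideal.Quotient.mk_surjective, ← RingHom.ker_eq_comap_bot,
      Ideal.mk_ker, sup_eq_left.2 ((Ideal.span_singleton_le_iff_mem _).2 hP)] at h2
    exact hm.ne_top h2
  have h2 : ∀ m : Ideal R, ∃ v : Ix n → R, m.IsMaximal →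
      r + bv c x₀ v + P * qv c v ∉ m ∧ ¬ ct (x₀ + P • v) ≤ m := fun m => by
    by_cases hm : m.IsMaximal
    swap
    · exact ⟨0, fun h => absurd h hm⟩
    obtain ⟨k2, kc⟩ := hc.not_mem hm.ne_top
    by_cases hP : P ∈ m
    · have k : ∀ v, ¬ ct (x₀ + P • v) ≤ m := fun v hle => h1 m hm hP (ct_le.2 fun i => by
        simpa using m.sub_mem (ct_le.1 hle i) (m.mul_mem_right (v i) hP))
      by_cases hr' : r ∈ m
      · obtain ⟨i, hi⟩ := not_forall.1 (mt ct_le.2 (h1 m hm hP))
        refine ⟨Pi.single i 1, fun _ => ⟨fun h => ?_, k _⟩⟩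
        have := m.sub_mem (m.sub_mem h (m.mul_mem_right (qv c (Pi.single i 1)) hP)) hr'
        rw [bv_single, add_sub_cancel_right, add_sub_cancel_left, mul_one] at this
        exact ((hm.isPrime.mem_or_mem this).resolve_right hi |> hm.isPrime.mem_or_mem).elim k2
          (kc i)
      · refine ⟨0, fun _ => ⟨?_, k _⟩⟩
        simpa [bv_zero_right, qv_zero] using hr'
    · obtain ⟨P', j, hj, e⟩ := hm.exists_inv hP
      have k : ∀ i, (x₀ + P • P' • (Pi.single 0 1 - x₀) : Ix n → R) i -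
          (Pi.single 0 1 : Ix n → R) i ∈ m := fun i => by
        have := m.mul_mem_right (x₀ i - (Pi.single 0 1 : Ix n → R) i) hj
        convert this using 1
        simp only [Pi.add_apply, Pi.smul_apply, Pi.sub_apply, smul_eq_mul]
        linear_combination ((Pi.single 0 1 : Ix n → R) i - x₀ i) * e
      have k' : qv c (x₀ + P • P' • (Pi.single 0 1 - x₀)) ∉ m := fun h => by
        have := m.sub_mem h (qv_sub_mem c _ _ k)
        rw [sub_sub_cancel, qv_single, one_pow, mul_one] at this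
        exact kc 0 this
      refine ⟨P' • (Pi.single 0 1 - x₀), fun _ => ⟨fun h => k' ?_, fun h => k' (h (qv_mem_ct c _))⟩⟩
      convert m.mul_mem_left P h using 1
      rw [qv_add, qv_smul, bv_smul_right, hr]
      ring
  choose v hv using h2
  obtain ⟨V, hV⟩ := crtv' v
  have h3 : ∀ m : Ideal R, ∃ w : Ix n → R, m.IsMaximal →
      bv c (x₀ + P • V) w ^ 2 - 4 * qv c (x₀ + P • V) * qv c w ∉ m := fun m => by
    by_cases hm : m.IsMaximal
    swap
    · exact ⟨0, fun h => absurd h hm⟩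
    obtain ⟨w, hw⟩ := hc.exists_disc (x := x₀ + P • V) hm.isPrime fun hle =>
      (hv m hm).2 (ct_le.2 fun i => by
        have := m.sub_mem (ct_le.1 hle i) (m.mul_mem_left P (hV m hm i))
        convert this using 1
        simp only [Pi.add_apply, Pi.smul_apply, smul_eq_mul]
        ring)
    exact ⟨w, fun _ => hw⟩
  choose w hw using h3
  obtain ⟨W, hW⟩ := crtv' w
  refine ⟨x₀ + P • V, W, r + bv c x₀ V + P * qv c V, isUnit_of_max fun m hm h => (hv m hm).1 ?_,
    ?_, isUnit_of_max fun m hm h => hw m hm ?_⟩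
  · have := m.sub_mem (m.sub_mem h (bv_sub_mem c x₀ V (x' := x₀) (by simp) (hV m hm)))
      (m.mul_mem_left P (qv_sub_mem c V _ (hV m hm)))
    convert this using 1
    ring
  · rw [qv_add, qv_smul, bv_smul_right, hr]
    ring
  · have k1 := bv_sub_mem c (x₀ + P • V) W (x' := x₀ + P • V) (I := m) (by simp) (hW m hm)
    have := m.add_mem (m.sub_mem h (m.mul_mem_left (bv c (x₀ + P • V) W + bv c (x₀ + P • V) (w m))
      k1)) (m.mul_mem_left (4 * qv c (x₀ + P • V)) (qv_sub_mem c W _ (hW m hm)))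
    convert this using 1
    ring

end Pool.Agent.P.MP_46a8f8_ag.GU
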