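import Pool.Agent.P.MP_46a8f8_ag.GU.Sp

/-!
Averaging over commuting involutions.
-/

namespace Pool.Agent.P.MP_46a8f8_ag.GU

open TensorProduct Function IsLocalRing Polynomial

universe u

theorem pAvg : S_Avg.{u} := by
  intro R κ M M' _ _ _ _ _ _ J _ τ τ' μ N γ h2 h2' h3 h4 h5 h6 h7 h8 h9
  classical
  have := Fintype.ofFinite J
  obtain ⟨a, ha⟩ := h2.exists_left_inv
  obtain ⟨b, hb⟩ := h2'.exists_left_inv
  have hμ : ∀ y, μ (a • y) = b • μ y := fun y => by
    have : μ y = (2 : κ) • μ (a • y) := by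
      rw [two_smul, ← map_add, ← two_smul R, smul_smul, mul_comm, ha, one_smul]
    rw [this, smul_smul, hb, one_smul]
  have key : ∀ A : Finset J, γ ∈ Submodule.span κ (μ '' {y | y ∈ N ∧ ∀ j ∈ A, τ j y = y}) := by
    intro A
    induction A using Finset.induction_on with
    | empty => simpa using h9
    | insert i A _ ih =>
      have e : γ = (b • (LinearMap.id + τ' i) : M' →ₗ[κ] M') γ := by
        simp only [LinearMap.smul_apply, LinearMap.add_apply, LinearMap.id_apply, h7]
        rw [← two_smul κ, smul_smul, hb, one_smul]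
      rw [e]
      refine (Submodule.span_le (p := Submodule.comap
        (b • (LinearMap.id + τ' i) : M' →ₗ[κ] M') (Submodule.span κ _))).2 ?_ ih
      rintro _ ⟨y, ⟨hy, hy'⟩, rfl⟩
      refine Submodule.subset_span ⟨a • (y + τ i y), ⟨N.smul_mem _ (N.add_mem hy (h5 i y hy)),
        fun j hj => ?_⟩, ?_⟩
      · rcases Finset.mem_insert.1 hj with rfl | hj
        · rw [map_smul, map_add, h3, add_comm]
        · rw [map_smul, map_add, h4, hy' j hj]
      · rw [hμ, map_add, h6]
        rfl
  by_contra hn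
  push Not at hn
  refine h8 ((Submodule.span_le (p := ⊥)).2 ?_ (key Finset.univ))
  rintro _ ⟨y, ⟨hy, hy'⟩, rfl⟩
  exact hn y hy fun j => hy' j (Finset.mem_univ j)

end Pool.Agent.P.MP_46a8f8_ag.GU
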