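import Pool.Agent.P.MP_46a8f8_ag.GU.Sp

/-!
Points which avoid the zeros of finitely many polynomials.
-/

namespace Pool.Agent.P.MP_46a8f8_ag.GU

open Polynomial

universe u

namespace AvmP

variable {D : Type u} [CommRing D] {κ : Type u} [Finite κ] {F : κ → Type u}
  [∀ k, CommRing (F k)] [∀ k, IsDomain (F k)] (φ : ∀ k, D →+* F k)

theorem one (h : Lam D) (P : ∀ k, (F k)[X]) (hP : ∀ k, P k ≠ 0) :
    ∃ a : D, ∀ k, (P k).eval (φ k a) ≠ 0 := by
  obtain ⟨Λ, h⟩ := h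
  have inj : ∀ k, Function.Injective fun j => φ k (Λ j) := fun k i j e => by
    by_contra hn
    have := (h i j hn).map (φ k)
    rw [map_sub, sub_eq_zero.2 e] at this
    exact not_isUnit_zero this
  have fin : (⋃ k, (fun j => φ k (Λ j)) ⁻¹' {x | (P k).IsRoot x}).Finite :=
    Set.finite_iUnion fun k => (finite_setOfPred_isRoot (hP k)).preimage (inj k).injOn
  obtain ⟨j, hj⟩ := fin.exists_notMem
  exact ⟨Λ j, fun k e => hj (Set.mem_iUnion.2 ⟨k, e⟩)⟩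

theorem many (h : Lam D) (m : ℕ) : ∀ Ψ : ∀ k, MvPolynomial (Fin m) (F k), (∀ k, Ψ k ≠ 0) →
    ∃ w : Fin m → D, ∀ k, MvPolynomial.eval (φ k ∘ w) (Ψ k) ≠ 0 := by
  induction m with
  | zero =>
    refine fun Ψ hΨ => ⟨0, fun k e => hΨ k ?_⟩
    rw [MvPolynomial.eq_C_of_isEmpty (Ψ k)] at e ⊢
    rw [MvPolynomial.eval_C] at e
    rw [e, map_zero]
  | succ m ih =>
    intro Ψ hΨ
    obtain ⟨w, hw⟩ := ih (fun k => (MvPolynomial.finSuccEquiv (F k) m (Ψ k)).leadingCoeff)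
      fun k => leadingCoeff_ne_zero.2 ((map_ne_zero_iff _
        (MvPolynomial.finSuccEquiv (F k) m).injective).2 (hΨ k))
    obtain ⟨a, ha⟩ := one φ h (fun k => (MvPolynomial.finSuccEquiv (F k) m (Ψ k)).map
      (MvPolynomial.eval (φ k ∘ w))) fun k e => hw k (by
        rw [leadingCoeff, ← coeff_map, e, coeff_zero])
    refine ⟨Fin.cons a w, fun k => ?_⟩
    rw [Fin.comp_cons, MvPolynomial.eval_eq_eval_mv_eval']
    exact ha k

end AvmP

theorem pAvm : S_Avm.{u} := by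
  intro D _ ι _ κ _ F _ _ φ Ψ h hΨ
  obtain ⟨m, ⟨e⟩⟩ := Finite.exists_equiv_fin ι
  obtain ⟨w, hw⟩ := AvmP.many φ h m (fun k => MvPolynomial.rename e (Ψ k)) fun k =>
    (map_ne_zero_iff _ (MvPolynomial.rename_injective _ e.injective)).2 (hΨ k)
  refine ⟨w ∘ e, fun k => ?_⟩
  have := hw k
  rwa [MvPolynomial.eval_rename] at this

theorem pAv1 : S_Av1.{u} := by
  intro D _ κ _ p Ψ h hp hΨ
  obtain ⟨a, ha⟩ := AvmP.one (F := fun k => D ⧸ p k) (fun k => Ideal.Quotient.mk (p k)) h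
    (fun k => (Ψ k).map (Ideal.Quotient.mk (p k))) fun k e => by
      obtain ⟨i, hi⟩ := hΨ k
      exact hi (Ideal.Quotient.eq_zero_iff_mem.1 (by rw [← coeff_map, e, coeff_zero]))
  refine ⟨a, fun k e => ha k ?_⟩
  rw [eval_map, eval₂_at_apply]
  exact Ideal.Quotient.eq_zero_iff_mem.2 e

end Pool.Agent.P.MP_46a8f8_ag.GU
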