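import Pool.Agent.P.MP_46a8f8_ag.GU.Base2
import Pool.Agent.P.MP_46a8f8_ag.SS
import Pool.Agent.P.MP_46a8f8_ag.AzOf

/-!
Free representations of equal rank are isomorphic.
-/

namespace Pool.Agent.P.MP_46a8f8_ag.GU

open TensorProduct Function

universe u

namespace RkP

open AzOfP in
/-- the separability data of a free Azumaya algebra -/
theorem az_of (S A : Type u) [CommRing S] [Nontrivial S] [Ring A] [Algebra S A] [IsAzumaya S A]
    [Module.Free S A] {τ : A →ₗ[S] S} {k : ℕ} {a b : Fin k → A} (hτ : τ 1 = 1)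
    (hab : ∀ x, ∑ i, a i * x * b i = algebraMap S A (τ x))
    (hc : ∀ c : A, ∑ i, (c * a i) ⊗ₜ[S] b i = ∑ i, a i ⊗ₜ[S] (b i * c)) : Az S A := by
  replace hab : ∀ x, ∑ i, a i * x * b i = τ x • (1 : A) := fun x => by
    rw [hab, Algebra.algebraMap_eq_smul_one]
  refine ⟨k, a, b, by simpa [hτ] using hab 1, hc, ?_⟩
  let e := Module.finBasis S A
  choose l z w hzw using fun s => mu_surj S A (LinearMap.toSpanSingleton S A 1 ∘ₗ e.coord s)
  replace hzw : ∀ s x, ∑ i, z s i * x * w s i = e.repr x s • (1 : A) := hzw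
  let q := (Fintype.equivFin (Σ s, Fin (l s))).symm
  refine ⟨_, fun j => e (q j).1, fun j => z (q j).1 (q j).2, fun j => w (q j).1 (q j).2, ?_⟩
  rw [q.sum_comp fun p => ∑ i, (e p.1 * a i * z p.1 p.2) ⊗ₜ[S] (w p.1 p.2 * b i)]
  apply (mu_bij S A).1
  ext x
  rw [map_sum, LinearMap.sum_apply, mu_tmul, one_mul, mul_one, Fintype.sum_sigma]
  conv_rhs => rw [← e.sum_repr x]
  refine Finset.sum_congr rfl fun s _ => ?_
  have e1 : ∀ j, mu S A (∑ i, (e s * a i * z s j) ⊗ₜ[S] (w s j * b i)) x =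
      τ (z s j * x * w s j) • e s := fun j => by
    rw [mu_sum, ← mul_one (e s), ← mul_smul_comm, ← hab, Finset.mul_sum]
    simp only [mul_assoc, mul_one]
  simp only [e1]
  rw [← Finset.sum_smul, ← map_sum, hzw, map_smul, hτ, smul_eq_mul, mul_one]

/-- killed by an ideal -/
def Kn {S : Type u} [CommRing S] (𝔫 : Ideal S) (V : Type u) [AddCommGroup V] [Module S V] : Prop :=
  ∀ r ∈ 𝔫, ∀ v : V, r • v = 0

section base

variable {S V W : Type u} [CommRing S] {𝔫 : Ideal S} [h𝔫 : 𝔫.IsMaximal] [AddCommGroup V]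
  [Module S V] [AddCommGroup W] [Module S W]

theorem Kn.semisimple (h : Kn 𝔫 V) : IsSemisimpleModule S V := by
  have hT : Module.IsTorsionBySet S V (𝔫 : Set S) := fun v r => h r.1 r.2 v
  let _ := hT.module
  let _ : Field (S ⧸ 𝔫) := Ideal.Quotient.field _
  exact hT.isSemisimpleModule_iff.1 inferInstance

theorem Kn.length_ne_top [Module.Finite S V] (h : Kn 𝔫 V) : Module.length S V ≠ ⊤ := by
  have := h.semisimple
  exact Module.length_ne_top

theorem Kn.exists_ne_zero (hV : Kn 𝔫 V) (hW : Kn 𝔫 W) (v : V) (hv : v ≠ 0) (w : W)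
    (hw : w ≠ 0) : ∃ f : V →ₗ[S] W, f ≠ 0 := by
  have := hV.semisimple
  let i : (S ⧸ 𝔫) →ₗ[S] V := 𝔫.liftQ (LinearMap.toSpanSingleton S V v) fun r hr => hV r hr v
  let j : (S ⧸ 𝔫) →ₗ[S] W := 𝔫.liftQ (LinearMap.toSpanSingleton S W w) fun r hr => hW r hr w
  have hi : Injective i := by
    rw [← LinearMap.ker_eq_bot]
    refine Submodule.ker_liftQ_eq_bot _ _ _ fun r hr => ?_
    by_contra hm
    obtain ⟨y, c, hc, e⟩ := h𝔫.exists_inv hm
    have h0 : r • v = 0 := hr
    refine hv ?_
    rw [← one_smul S v, ← e, add_smul, mul_smul, h0, smul_zero, hV c hc, add_zero]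
  obtain ⟨f, hf⟩ := IsSemisimpleModule.extension_property i hi j
  refine ⟨f, fun h0 => hw ?_⟩
  have := LinearMap.congr_fun hf (Submodule.Quotient.mk 1)
  have h2 : j (Submodule.Quotient.mk 1) = w := one_smul S w
  rw [← h2, ← this, h0]
  rfl

end base

section az

variable {S A V W : Type u} [CommRing S] {𝔫 : Ideal S} [Ring A] [Algebra S A]
  [AddCommGroup V] [Module A V] [Module S V] [IsScalarTower S A V]
  [AddCommGroup W] [Module A W] [Module S W] [IsScalarTower S A W]

theorem Kn.sub (h : Kn 𝔫 V) (N : Submodule A V) : Kn 𝔫 N :=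
  fun r hr v => Subtype.ext (h r hr v.1)

theorem split [𝔫.IsMaximal] (hA : Az S A) (h : Kn 𝔫 V) (N : Submodule A V) :
    ∃ p : V →ₗ[A] N, ∀ v : N, p v = v := by
  have := h.semisimple
  obtain ⟨g, hg⟩ := IsSemisimpleModule.extension_property (N.subtype.restrictScalars S)
    N.injective_subtype (LinearMap.id : N →ₗ[S] N)
  exact hA.extend N.subtype LinearMap.id g fun v => LinearMap.congr_fun hg v

/-- modules over the residue algebra embed according to their lengths -/
theorem gen [𝔫.IsMaximal] [Module.Finite S V] [Module.Finite S W] (hA : Az S A) (hV : Kn 𝔫 V)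
    (hW : Kn 𝔫 W) (hl : Module.length S V ≤ Module.length S W) :
    ∃ f : V →ₗ[A] W, Injective f := by
  have := hV.semisimple
  have hart : IsArtinian A V := isArtinian_of_tower S inferInstance
  obtain ⟨K, ⟨f, rfl⟩, hmin⟩ := (wellFounded_lt (α := Submodule A V)).has_min
    (Set.range fun f : V →ₗ[A] W => LinearMap.ker f) ⟨_, 0, rfl⟩
  refine ⟨f, ?_⟩
  by_contra hinj
  obtain ⟨q, hq⟩ := split hA hW (LinearMap.range f)
  have hD := LinearMap.isCompl_of_proj hq
  have hD0 : LinearMap.ker q ≠ ⊥ := by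
    intro h0
    have h1 := hD.sup_eq_top
    rw [h0, sup_bot_eq, LinearMap.range_eq_top] at h1
    exact hinj (SSP.inj_of_surj (f.restrictScalars S) h1 hW.length_ne_top hl)
  have hK0 : LinearMap.ker f ≠ ⊥ := fun e => hinj (LinearMap.ker_eq_bot.1 e)
  obtain ⟨v, hv, hv0⟩ := Submodule.exists_mem_ne_zero_of_ne_bot hK0
  obtain ⟨w, hw, hw0⟩ := Submodule.exists_mem_ne_zero_of_ne_bot hD0
  obtain ⟨g₀, hg₀⟩ := (hV.sub (LinearMap.ker f)).exists_ne_zero (hW.sub (LinearMap.ker q)) ⟨v, hv⟩
    (fun e => hv0 (congrArg Subtype.val e)) ⟨w, hw⟩ (fun e => hw0 (congrArg Subtype.val e))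
  obtain ⟨g, hg⟩ := hA.exists_ne_zero g₀ hg₀
  obtain ⟨p, hp⟩ := split hA hV (LinearMap.ker f)
  let h' : V →ₗ[A] W := (LinearMap.ker q).subtype ∘ₗ g ∘ₗ p
  refine hmin (LinearMap.ker (f + h')) ⟨f + h', rfl⟩ ?_
  refine lt_of_le_of_ne (fun x hx => ?_) fun e => hg (LinearMap.ext fun s => ?_)
  · have h1 : f x = -((g (p x) : LinearMap.ker q) : W) := eq_neg_of_add_eq_zero_left hx
    have h2 : f x ∈ LinearMap.ker q := h1 ▸ (LinearMap.ker q).neg_mem (g (p x)).2
    exact Submodule.disjoint_def.1 hD.disjoint _ ⟨x, rfl⟩ h2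
  · have h1 : (s : V) ∈ LinearMap.ker (f + h') := e.ge s.2
    have h2 : f s + ((g (p s) : LinearMap.ker q) : W) = 0 := h1
    rw [show f s = 0 from s.2, zero_add, hp] at h2
    exact Subtype.ext h2

variable (𝔫 A V) in
/-- the submodule `n V` -/
def mS : Submodule A V where
  carrier := (𝔫 • ⊤ : Submodule S V)
  add_mem' := Submodule.add_mem _
  zero_mem' := Submodule.zero_mem _
  smul_mem' a x hx := by
    refine Submodule.smul_induction_on (p := fun x => a • x ∈ (𝔫 • ⊤ : Submodule S V))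
      hx (fun r hr v _ => ?_) fun x y hx hy => ?_
    · rw [smul_comm]
      exact Submodule.smul_mem_smul hr Submodule.mem_top
    · rw [smul_add]
      exact Submodule.add_mem _ hx hy

theorem mS_restrict : (mS A V 𝔫).restrictScalars S = 𝔫 • ⊤ := rfl

theorem mem_mS {x : V} : x ∈ mS A V 𝔫 ↔ x ∈ (𝔫 • ⊤ : Submodule S V) := Iff.rfl

theorem kn_quot : Kn 𝔫 (V ⧸ mS A V 𝔫) := fun r hr v => by
  obtain ⟨v, rfl⟩ := Submodule.Quotient.mk_surjective _ v
  rw [← Submodule.Quotient.mk_smul, Submodule.Quotient.mk_eq_zero, mem_mS]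
  exact Submodule.smul_mem_smul hr Submodule.mem_top

theorem finite_quot [Module.Finite S V] : Module.Finite S (V ⧸ mS A V 𝔫) :=
  Module.Finite.of_surjective ((mS A V 𝔫).mkQ.restrictScalars S) (mS A V 𝔫).mkQ_surjective

theorem length_quot (e : V ≃ₗ[S] W) :
    Module.length S (V ⧸ mS A V 𝔫) = Module.length S (W ⧸ mS A W 𝔫) := by
  rw [← (Submodule.Quotient.restrictScalarsEquiv S (mS A V 𝔫)).length_eq,
    ← (Submodule.Quotient.restrictScalarsEquiv S (mS A W 𝔫)).length_eq]
  refine (Submodule.Quotient.equiv _ _ e ?_).length_eq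
  rw [mS_restrict, mS_restrict, Submodule.map_smul'', Submodule.map_top,
    LinearMap.range_eq_top.2 e.surjective]

/-- a map that is onto modulo one maximal ideal -/
theorem onto_mod [Module.Finite S V] [Module.Projective S V] (h𝔫 : 𝔫.IsMaximal) (hA : Az S A)
    (e : V ≃ₗ[S] W) :
    ∃ F : V →ₗ[A] W, ∀ w, ∃ v, F v - w ∈ (𝔫 • ⊤ : Submodule S W) := by
  have : Module.Finite S W := Module.Finite.equiv e
  have := finite_quot (𝔫 := 𝔫) (A := A) (V := V)
  have := finite_quot (𝔫 := 𝔫) (A := A) (V := W)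
  have hl := length_quot (𝔫 := 𝔫) (A := A) e
  obtain ⟨f, hf⟩ := gen hA kn_quot kn_quot hl.le
  have hfs : Surjective f :=
    SSP.surj_of_inj (f.restrictScalars S) hf kn_quot.length_ne_top hl.ge
  let g : V →ₗ[A] W ⧸ mS A W 𝔫 := f ∘ₗ (mS A V 𝔫).mkQ
  have hg : Surjective g := hfs.comp (mS A V 𝔫).mkQ_surjective
  obtain ⟨G, hG⟩ := Module.projective_lifting_property ((mS A W 𝔫).mkQ.restrictScalars S)
    (g.restrictScalars S) (mS A W 𝔫).mkQ_surjective
  obtain ⟨F, hF⟩ := hA.lift (mS A W 𝔫).mkQ g G fun v => LinearMap.congr_fun hG v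
  refine ⟨F, fun w => ?_⟩
  obtain ⟨v, hv⟩ := hg ((mS A W 𝔫).mkQ w)
  exact ⟨v, mem_mS.1 ((Submodule.Quotient.eq _).1 ((hF v).trans hv))⟩

/-- over a semilocal centre, projective modules isomorphic over the centre are isomorphic -/
theorem iso [Finite (MaximalSpectrum S)] [Module.Finite S V] [Module.Projective S V]
    (hA : Az S A) (e : V ≃ₗ[S] W) : Nonempty (V ≃ₗ[A] W) := by
  classical
  have : Module.Finite S W := Module.Finite.equiv e
  have := Fintype.ofFinite (MaximalSpectrum S)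
  choose F hF using fun 𝔪 : MaximalSpectrum S => onto_mod 𝔪.isMaximal hA e
  choose j hj hj1 using fun 𝔪 : MaximalSpectrum S => exists_mem_sub_one_mem 𝔪.asIdeal
  let G : V →ₗ[A] W := ∑ 𝔪, (1 - j 𝔪) • F 𝔪
  have hG : ∀ (𝔪 : MaximalSpectrum S) w, ∃ v, G v - w ∈ (𝔪.asIdeal • ⊤ : Submodule S W) := by
    intro 𝔪 w
    obtain ⟨v, hv⟩ := hF 𝔪 w
    refine ⟨v, ?_⟩
    have e1 : G v - w = (F 𝔪 v - w) - j 𝔪 • F 𝔪 v +
        ∑ 𝔭 ∈ Finset.univ.erase 𝔪, (1 - j 𝔭) • F 𝔭 v := by
      simp only [G, LinearMap.sum_apply, LinearMap.smul_apply]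
      rw [← Finset.add_sum_erase _ _ (Finset.mem_univ 𝔪), sub_smul, one_smul]
      abel
    rw [e1]
    refine Submodule.add_mem _ (Submodule.sub_mem _ hv
      (Submodule.smul_mem_smul (hj 𝔪) Submodule.mem_top)) (Submodule.sum_mem _ fun 𝔭 h𝔭 => ?_)
    refine Submodule.smul_mem_smul ?_ Submodule.mem_top
    rw [← neg_sub]
    refine neg_mem (hj1 𝔭 _ 𝔪.isMaximal fun hle => Finset.ne_of_mem_erase h𝔭 ?_)
    exact MaximalSpectrum.ext (𝔭.isMaximal.eq_of_le 𝔪.isMaximal.ne_top hle)
  have hs : Surjective G := by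
    by_contra hn
    obtain ⟨𝔪, h𝔪, hle⟩ := Ideal.exists_le_maximal
      ((LinearMap.range (G.restrictScalars S)).colon Set.univ) (by
        intro h
        have h1 := (Ideal.eq_top_iff_one _).1 h
        exact hn fun w => by simpa using Submodule.mem_colon.1 h1 w (Set.mem_univ w))
    obtain ⟨r, hr, hr2⟩ := Submodule.exists_sub_one_mem_and_smul_le_of_fg_of_le_sup
      (I := 𝔪) (N := LinearMap.range (G.restrictScalars S)) (N' := ⊤) (P := ⊤)
      Module.Finite.fg_top le_rfl fun w _ => by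
        obtain ⟨v, hv⟩ := hG ⟨𝔪, h𝔪⟩ w
        rw [show w = G v - (G v - w) by abel]
        exact Submodule.sub_mem _ (Submodule.mem_sup_left ⟨v, rfl⟩) (Submodule.mem_sup_right hv)
    have h2 : r ∈ 𝔪 := hle (Submodule.mem_colon.2 fun w _ =>
      hr2 (Submodule.smul_mem_pointwise_smul w r ⊤ Submodule.mem_top))
    exact h𝔪.ne_top ((Ideal.eq_top_iff_one _).2 (by simpa using sub_mem h2 hr))
  have hi : Injective G := by
    have := OrzechProperty.injective_of_surjective_endomorphism
      (e.symm.toLinearMap ∘ₗ G.restrictScalars S) (e.symm.surjective.comp hs)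
    exact Injective.of_comp (f := e.symm) this
  exact ⟨LinearEquiv.ofBijective G ⟨hi, hs⟩⟩

end az

/-- a module that is projective over the ground ring is projective over the centre -/
theorem proj {R S A V : Type u} [CommRing R] [CommRing S] [Ring A] [Algebra R A] [Algebra S A]
    [StarRing A] [h : SA R A] [Module.Free S A] [AddCommGroup V] [Module A V] [Module R V]
    [Module S V] [IsScalarTower R A V] [IsScalarTower S A V] [Module.Finite R V]
    [Module.Projective R V] : Module.Projective S V := by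
  have : Module.Finite A V := Module.Finite.of_restrictScalars_finite R A V
  obtain ⟨n, π, hπ⟩ := Module.Finite.exists_fin' A V
  obtain ⟨s, hs⟩ := Module.projective_lifting_property (π.restrictScalars R) LinearMap.id hπ
  obtain ⟨k, a, b, h1, hc⟩ := h.sep
  refine Module.Projective.of_split ((avg a b hc s).restrictScalars S) (π.restrictScalars S)
    (LinearMap.ext fun v => ?_)
  have e : ∀ w, π (s w) = w := fun w => LinearMap.congr_fun hs w
  change π (avg a b hc s v) = v
  simp only [avg_apply, map_sum, map_smul, e, smul_smul]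
  rw [← Finset.sum_smul, h1, one_smul]

theorem main {R S A V W : Type u} [CommRing R] [IsLocalRing R] [CommRing S] [Algebra R S] [Ring A]
    [Algebra S A] [Algebra R A] [StarRing A] (h1 : S_AzS.{u}) (h2 : S_FreeS.{u})
    (hS : SA R A) (h : AzI R S A)
    [AddCommGroup V] [Module A V] [Module R V] [Module S V] [IsScalarTower R A V]
    [IsScalarTower S A V] [IsScalarTower R S V] [Module.Finite R V] [Module.Free R V]
    [AddCommGroup W] [Module A W] [Module R W] [Module S W] [IsScalarTower R A W]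
    [IsScalarTower S A W] [IsScalarTower R S W] [Module.Finite R W] [Module.Free R W]
    (hr : Module.finrank R V = Module.finrank R W) : Nonempty (V ≃ₗ[A] W) := by
  have := h.dom
  have := h.fin
  have := h.et
  have := h.az
  have := finite_maximalSpectrum R S
  have : Module.Free S A := h2 S A
  have : Module.Free R S := Module.free_of_flat_of_isLocalRing
  have : Module.Finite S V := Module.Finite.of_restrictScalars_finite R S V
  have : Module.Finite S W := Module.Finite.of_restrictScalars_finite R S W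
  have : Module.Projective S V := proj (R := R) (A := A)
  have : Module.Projective S W := proj (R := R) (A := A)
  have : Module.Free S V := h2 S V
  have : Module.Free S W := h2 S W
  obtain ⟨τ, k, a, b, hτ, hab, hc⟩ := h1 S A
  have hp : 0 < Module.finrank R S := (Module.finrank_pos_iff_of_free R S).2 inferInstance
  rw [← Module.finrank_mul_finrank R S V, ← Module.finrank_mul_finrank R S W] at hr
  exact iso (az_of S A hτ hab hc)
    (LinearEquiv.ofFinrankEq V W (Nat.eq_of_mul_eq_mul_left hp hr))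

end RkP

theorem pRk (h1 : S_AzS.{u}) (h2 : S_FreeS.{u}) (h3 : S_Sep.{u}) : S_Rk.{u} := by
  intro R S A _ _ _ _ _ _ _ _ _ h X Y hX hY hr
  have := h.tower
  have tw : ∀ Z : RM R A R,
      letI : Module A Z.M := Module.compHom Z.M Z.ρ
      letI : Module S Z.M := Module.compHom Z.M (algebraMap S A)
      IsScalarTower R A Z.M ∧ IsScalarTower S A Z.M ∧ IsScalarTower R S Z.M := fun Z => by
    letI : Module A Z.M := Module.compHom Z.M Z.ρ
    letI : Module S Z.M := Module.compHom Z.M (algebraMap S A)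
    refine ⟨⟨fun r a v => ?_⟩, ⟨fun s a v => ?_⟩, ⟨fun r s v => ?_⟩⟩
    · change Z.ρ (r • a) v = r • Z.ρ a v
      rw [Algebra.smul_def, map_mul, Module.End.mul_apply, Z.alg]
      rfl
    · change Z.ρ (s • a) v = Z.ρ (algebraMap S A s) (Z.ρ a v)
      rw [Algebra.smul_def, map_mul, Module.End.mul_apply]
    · change Z.ρ (algebraMap S A (r • s)) v = r • Z.ρ (algebraMap S A s) v
      rw [Algebra.smul_def, map_mul, map_mul, Module.End.mul_apply,
        ← IsScalarTower.algebraMap_apply, Z.alg]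
      rfl
  letI : Module A X.M := Module.compHom X.M X.ρ
  letI : Module S X.M := Module.compHom X.M (algebraMap S A)
  letI : Module A Y.M := Module.compHom Y.M Y.ρ
  letI : Module S Y.M := Module.compHom Y.M (algebraMap S A)
  obtain ⟨x1, x2, x3⟩ := tw X
  obtain ⟨y1, y2, y3⟩ := tw Y
  obtain ⟨x4, x5⟩ := hX
  obtain ⟨y4, y5⟩ := hY
  obtain ⟨e⟩ := RkP.main (V := X.M) (W := Y.M) h1 h2 (h3 R S A h) h hr
  exact ⟨e.restrictScalars R, fun a m => e.map_smul a m⟩

end Pool.Agent.P.MP_46a8f8_ag.GU
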