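import Pool.Agent.P.MP_46a8f8_ag.GU.Sm
import Pool.Agent.P.MP_46a8f8_ag.GU.Rk

/-!
The data of the centre: construction, rank lemma and base change.
-/

namespace Pool.Agent.P.MP_46a8f8_ag.GU

open TensorProduct Function

universe u

namespace GAP

theorem main {R S A V W : Type u} [CommRing R] [IsLocalRing R] [CommRing S] [Algebra R S] [Ring A]
    [Algebra S A] [Algebra R A] [StarRing A] (h2 : S_FreeS.{u}) [SA R A] (h : GA R S A)
    [AddCommGroup V] [Module A V] [Module R V] [Module S V] [IsScalarTower R A V]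
    [IsScalarTower S A V] [IsScalarTower R S V] [Module.Finite R V] [Module.Free R V]
    [AddCommGroup W] [Module A W] [Module R W] [Module S W] [IsScalarTower R A W]
    [IsScalarTower S A W] [IsScalarTower R S W] [Module.Finite R W] [Module.Free R W]
    (hr : Module.finrank R V = Module.finrank R W) : Nonempty (V ≃ₗ[A] W) := by
  have := h.dom
  have := h.fin
  have := h.free
  have := h.freeA
  have := finite_maximalSpectrum R S
  have : Module.Finite S V := Module.Finite.of_restrictScalars_finite R S V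
  have : Module.Finite S W := Module.Finite.of_restrictScalars_finite R S W
  have : Module.Projective S V := RkP.proj (R := R) (A := A)
  have : Module.Projective S W := RkP.proj (R := R) (A := A)
  have : Module.Free S V := h2 S V
  have : Module.Free S W := h2 S W
  have hp : 0 < Module.finrank R S := (Module.finrank_pos_iff_of_free R S).2 inferInstance
  rw [← Module.finrank_mul_finrank R S V, ← Module.finrank_mul_finrank R S W] at hr
  exact RkP.iso h.az (LinearEquiv.ofFinrankEq V W (Nat.eq_of_mul_eq_mul_left hp hr))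

section bc

variable (R S A O : Type u) [CommRing R] [CommRing S] [Algebra R S] [Ring A] [Algebra S A]
  [Algebra R A] [IsScalarTower R S A] [CommRing O] [Algebra R O]

/-- the structure map after base change -/
noncomputable def sm : O ⊗[R] S →ₐ[O] O ⊗[R] A :=
  Algebra.TensorProduct.map (AlgHom.id O O) (IsScalarTower.toAlgHom R S A)

theorem sm_tmul (o : O) (s : S) : sm R S A O (o ⊗ₜ[R] s) = o ⊗ₜ[R] algebraMap S A s := rfl

theorem sm_comm (c : O ⊗[R] S) (x : O ⊗[R] A) : sm R S A O c * x = x * sm R S A O c := by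
  induction c using TensorProduct.induction_on with
  | zero => simp
  | add c c' h h' => rw [map_add, add_mul, mul_add, h, h']
  | tmul o s =>
    induction x using TensorProduct.induction_on with
    | zero => simp
    | add x x' h h' => rw [add_mul, mul_add, h, h']
    | tmul o' a =>
      rw [sm_tmul, Algebra.TensorProduct.tmul_mul_tmul, Algebra.TensorProduct.tmul_mul_tmul,
        mul_comm o o', Algebra.commutes]

/-- the algebra structure after base change -/
@[reducible] noncomputable def alg : Algebra (O ⊗[R] S) (O ⊗[R] A) :=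
  (sm R S A O).toRingHom.toAlgebra' (sm_comm R S A O)

attribute [local instance] alg

variable {R S A O}

theorem smul_tmul (o o' : O) (s : S) (a : A) :
    (o ⊗ₜ[R] s) • (o' ⊗ₜ[R] a) = (o * o') ⊗ₜ[R] (s • a) := by
  rw [Algebra.smul_def, Algebra.smul_def, ← Algebra.TensorProduct.tmul_mul_tmul]
  rfl

theorem free_bc [Module.Free S A] : Module.Free (O ⊗[R] S) (O ⊗[R] A) := by
  classical
  let e := Module.Free.chooseBasis S A
  let E : O ⊗[R] A ≃ₗ[R] (Module.Free.ChooseBasisIndex S A →₀ O ⊗[R] S) :=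
    (LinearEquiv.lTensor O (e.repr.restrictScalars R)).trans (finsuppRight R R O S _)
  have hE : ∀ (o : O) (a : A) i, E (o ⊗ₜ[R] a) i = o ⊗ₜ[R] e.repr a i := fun o a i => by
    simp only [E, LinearEquiv.trans_apply, LinearEquiv.lTensor_tmul]
    rw [finsuppRight_apply_tmul_apply]
    rfl
  refine Module.Free.of_basis (Module.Basis.ofRepr
    { E.toAddEquiv with map_smul' := fun c x => ?_ })
  change E (c • x) = c • E x
  induction c using TensorProduct.induction_on with
  | zero => rw [zero_smul, zero_smul, map_zero]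
  | add c c' h h' => rw [add_smul, add_smul, map_add, h, h']
  | tmul o s =>
    induction x using TensorProduct.induction_on with
    | zero => rw [smul_zero, map_zero, smul_zero]
    | add x x' h h' => rw [smul_add, map_add, map_add, smul_add, h, h']
    | tmul o' a =>
      ext i
      rw [smul_tmul, hE, Finsupp.smul_apply, hE, map_smul, Finsupp.smul_apply, smul_eq_mul,
        smul_eq_mul, Algebra.TensorProduct.tmul_mul_tmul]

theorem az_bc (h : Az S A) : Az (O ⊗[R] S) (O ⊗[R] A) := by
  obtain ⟨k, a, b, h1, hc, l, x, z, w, h2⟩ := h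
  have e0 : ∀ (s : S) (p : A),
      (1 : O) ⊗ₜ[R] (s • p) = ((1 : O) ⊗ₜ[R] s) • ((1 : O) ⊗ₜ[R] p) := fun s p => by
    rw [smul_tmul, one_mul]
  have e1 : ∀ (o : O) (p : A),
      o ⊗ₜ[R] p = (o ⊗ₜ[R] (1 : S)) • ((1 : O) ⊗ₜ[R] p) := fun o p => by
    rw [smul_tmul, mul_one, one_smul]
  let j : A →+ O ⊗[R] A := (TensorProduct.mk R O A 1).toAddMonoidHom
  let T : A ⊗[S] A →+ (O ⊗[R] A) ⊗[O ⊗[R] S] (O ⊗[R] A) := TensorProduct.liftAddHom
    (AddMonoidHom.mk' (fun p => (TensorProduct.mk (O ⊗[R] S) (O ⊗[R] A) (O ⊗[R] A)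
      (j p)).toAddMonoidHom.comp j) fun p q => by
        ext r
        simp only [map_add, AddMonoidHom.comp_apply, AddMonoidHom.add_apply,
          LinearMap.toAddMonoidHom_coe, LinearMap.add_apply])
    fun s p q => by
      change ((1 : O) ⊗ₜ[R] (s • p)) ⊗ₜ[O ⊗[R] S] ((1 : O) ⊗ₜ[R] q) =
        ((1 : O) ⊗ₜ[R] p) ⊗ₜ[O ⊗[R] S] ((1 : O) ⊗ₜ[R] (s • q))
      rw [e0, e0, TensorProduct.smul_tmul]
  have hT : ∀ p q : A, T (p ⊗ₜ[S] q) = ((1 : O) ⊗ₜ[R] p) ⊗ₜ[O ⊗[R] S] ((1 : O) ⊗ₜ[R] q) :=
    fun p q => rfl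
  refine ⟨k, fun i => 1 ⊗ₜ[R] a i, fun i => 1 ⊗ₜ[R] b i, ?_, fun c => ?_, l,
    fun j => 1 ⊗ₜ[R] x j, fun j => 1 ⊗ₜ[R] z j, fun j => 1 ⊗ₜ[R] w j, ?_⟩
  · simp only [Algebra.TensorProduct.tmul_mul_tmul, one_mul]
    rw [← TensorProduct.tmul_sum, h1, Algebra.TensorProduct.one_def]
  · induction c using TensorProduct.induction_on with
    | zero => simp
    | add c c' hc1 hc2 =>
      simp only [add_mul, mul_add, TensorProduct.add_tmul, TensorProduct.tmul_add,
        Finset.sum_add_distrib, hc1, hc2]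
    | tmul o c =>
      have e := congrArg T (hc c)
      simp only [map_sum, hT] at e
      simp only [Algebra.TensorProduct.tmul_mul_tmul, one_mul, mul_one]
      have e2 := congrArg (fun t => (o ⊗ₜ[R] (1 : S)) • t) e
      simp only [Finset.smul_sum] at e2
      refine Eq.trans (Finset.sum_congr rfl fun i _ => ?_)
        (e2.trans (Finset.sum_congr rfl fun i _ => ?_))
      · rw [TensorProduct.smul_tmul', ← e1]
      · rw [← TensorProduct.tmul_smul, ← e1]
  · have e := congrArg T h2
    simp only [map_sum, hT] at e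
    simp only [Algebra.TensorProduct.tmul_mul_tmul, one_mul]
    rw [e, Algebra.TensorProduct.one_def]

theorem tower_bc : IsScalarTower O (O ⊗[R] S) (O ⊗[R] A) :=
  IsScalarTower.of_algebraMap_eq fun o => ((sm R S A O).commutes o).symm

end bc

end GAP

theorem pGA0 (h1 : S_AzS.{u}) (h2 : S_FreeS.{u}) : S_GA0.{u} := by
  intro R S A _ _ _ _ _ _ _ _ h
  have := h.dom
  have := h.fin
  have := h.et
  have := h.az
  have := finite_maximalSpectrum R S
  have : Module.Free S A := h2 S A
  obtain ⟨τ, k, a, b, hτ, hab, hc⟩ := h1 S A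
  exact ⟨h.tower, h.dom, h.fin, Module.free_of_flat_of_isLocalRing, this,
    RkP.az_of S A hτ hab hc⟩

theorem pRk2 (h2 : S_FreeS.{u}) : S_Rk2.{u} := by
  intro R S A _ _ _ _ _ _ _ _ _ h X Y hX hY hr
  have := h.tower
  have tw : ∀ Z : RM R A R,
      letI : Module A Z.M := Module.compHom Z.M Z.ρ
      letI : Module S Z.M := Module.compHom Z.M (algebraMap S A)
      IsScalarTower R A Z.M ∧ IsScalarTower S A Z.M ∧ IsScalarTower R S Z.M := fun Z => by
    letI : Module A Z.M := Module.compHom Z.M Z.ρ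
    letI : Module S Z.M := Module.compHom Z.M (algebraMap S A)
    refine ⟨⟨fun r a v => ?_⟩, ⟨fun s a v => ?_⟩, ⟨fun r s v => ?_⟩⟩
    · change Z.ρ (r • a) v = r • Z.ρ a v
      rw [Algebra.smul_def, map_mul, Module.End.mul_apply, Z.alg]
      rfl
    · change Z.ρ (s • a) v = Z.ρ (algebraMap S A s) (Z.ρ a v)
      rw [Algebra.smul_def, map_mul, Module.End.mul_apply]
    · change Z.ρ (algebraMap S A (r • s)) v = r • Z.ρ (algebraMap S A s) v
      rw [Algebra.smul_def, map_mul, map_mul, Module.End.mul_apply,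
        ← IsScalarTower.algebraMap_apply, Z.alg]
      rfl
  letI : Module A X.M := Module.compHom X.M X.ρ
  letI : Module S X.M := Module.compHom X.M (algebraMap S A)
  letI : Module A Y.M := Module.compHom Y.M Y.ρ
  letI : Module S Y.M := Module.compHom Y.M (algebraMap S A)
  obtain ⟨x1, x2, x3⟩ := tw X
  obtain ⟨y1, y2, y3⟩ := tw Y
  obtain ⟨x4, x5⟩ := hX
  obtain ⟨y4, y5⟩ := hY
  obtain ⟨e⟩ := GAP.main (V := X.M) (W := Y.M) h2 h hr
  exact ⟨e.restrictScalars R, fun a m => e.map_smul a m⟩

theorem pGAbc : S_GAbc.{u} := by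
  intro R S A O _ _ _ _ _ _ _ _ h hd
  have := h.tower
  have := h.fin
  have := h.free
  have := h.freeA
  let _ := GAP.alg R S A O
  exact ⟨GAP.alg R S A O, GAP.tower_bc, hd, inferInstance, inferInstance, GAP.free_bc,
    GAP.az_bc h.az⟩

end Pool.Agent.P.MP_46a8f8_ag.GU
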