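import Pool.Agent.P.MP_46a8f8_ag.GU.Base2
import Pool.Agent.P.MP_46a8f8_ag.AzOf

/-!
Separability idempotents of an Azumaya algebra over its centre and over the base.
-/

namespace Pool.Agent.P.MP_46a8f8_ag.GU

open TensorProduct Function IsLocalRing

universe u

namespace SepP

theorem exists_tau (S A : Type u) [CommRing S] [Ring A] [Algebra S A] [IsAzumaya S A] :
    ∃ τ : A →ₗ[S] S, τ 1 = 1 := by
  let I : Ideal S := LinearMap.range (LinearMap.applyₗ (R := S) (M₂ := S) (1 : A))
  obtain ⟨s, hs⟩ := Module.projective_def.1 (inferInstance : Module.Projective S A)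
  have h1 : (1 : A) ∈ I • (⊤ : Submodule S A) := by
    rw [← hs 1, Finsupp.linearCombination_apply, Finsupp.sum]
    exact Submodule.sum_mem _ fun x _ => Submodule.smul_mem_smul
      ⟨Finsupp.lapply x ∘ₗ s, rfl⟩ Submodule.mem_top
  have h2 : (⊤ : Submodule S A) ≤ I • ⊤ := by
    intro x _
    rw [← one_mul x]
    refine Submodule.smul_induction_on (p := fun y => y * x ∈ I • ⊤) h1
      (fun r hr y _ => ?_) fun y z hy hz => ?_
    · rw [smul_mul_assoc]
      exact Submodule.smul_mem_smul hr Submodule.mem_top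
    · rw [add_mul]
      exact Submodule.add_mem _ hy hz
  obtain ⟨r, ⟨φ, hφ⟩, hr⟩ := Submodule.exists_sub_one_mem_and_smul_eq_zero_of_fg_of_le_smul I ⊤
    Module.Finite.fg_top h2
  have h0 : r = 0 := FaithfulSMul.algebraMap_injective S A (by
    rw [Algebra.algebraMap_eq_smul_one, hr 1 Submodule.mem_top, map_zero])
  refine ⟨-φ, ?_⟩
  have h3 : φ 1 = r - 1 := hφ
  rw [LinearMap.neg_apply, h3, h0, zero_sub, neg_neg]

end SepP

open AzOfP in
theorem pAzS : S_AzS.{u} := by
  intro S A _ _ _ _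
  obtain ⟨τ, hτ⟩ := SepP.exists_tau S A
  obtain ⟨k, a, b, hab⟩ := mu_surj S A (LinearMap.toSpanSingleton S A 1 ∘ₗ τ)
  replace hab : ∀ x, ∑ i, a i * x * b i = τ x • (1 : A) := hab
  refine ⟨τ, k, a, b, hτ, fun x => by rw [hab, Algebra.algebraMap_eq_smul_one],
    fun c => (mu_bij S A).1 ?_⟩
  ext x
  rw [mu_sum, mu_sum]
  have e1 : ∑ i, c * a i * x * b i = c * ∑ i, a i * x * b i := by
    simp only [Finset.mul_sum, mul_assoc]
  have e2 : ∑ i, a i * x * (b i * c) = (∑ i, a i * x * b i) * c := by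
    simp only [Finset.sum_mul, mul_assoc]
  rw [e1, e2, hab, mul_smul_comm, smul_mul_assoc, mul_one, one_mul]

theorem pFreeS : S_FreeS.{u} := by
  intro S M _ _ _ _ _ _ _
  refine Module.free_of_flat_of_finrank_eq S M (Module.rankAtStalk M (⊥ : PrimeSpectrum S))
    fun P => ?_
  have := P.isMaximal
  let := Ideal.Quotient.field P.1
  have h1 := congrFun (Module.rankAtStalk_eq_finrank_of_free (R := S ⧸ P.1)
    (M := (S ⧸ P.1) ⊗[S] M)) ⊥
  rw [Module.rankAtStalk_baseChange, ← Module.rankAtStalk_eq_of_le_of_finite_of_flat M bot_le] at h1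
  exact h1.symm

theorem pSep (h : S_AzS.{u}) : S_Sep.{u} := by
  intro R S A _ _ _ _ _ _ _ _ H
  have := H.tower
  have := H.fin
  have := H.et
  have := H.az
  have hfin : Module.Finite R A := Module.Finite.trans S A
  have : Module.Flat R A := Module.Flat.trans R S A
  refine ⟨Module.free_of_flat_of_isLocalRing, hfin, ?_, H.st, H.two⟩
  obtain ⟨τ, k, a, b, hτ, hab, hc⟩ := h S A
  obtain ⟨t, ht, ht1⟩ := (Algebra.FormallyUnramified.iff_exists_tensorProduct (R := R)
    (S := S)).1 inferInstance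
  obtain ⟨l, s, s', rfl⟩ := exists_sum_tmul_eq t
  have hs1 : ∑ j, s j * s' j = 1 := by simpa [map_sum] using ht1
  have hbal : ∀ (r : S) (x y : A), ∑ j, (s j • r • x) ⊗ₜ[R] (s' j • y) =
      ∑ j, (s j • x) ⊗ₜ[R] (s' j • r • y) := by
    intro r x y
    have h1 := ht r
    rw [sub_mul, sub_eq_zero, Finset.mul_sum, Finset.mul_sum] at h1
    have h2 := congrArg (TensorProduct.map ((LinearMap.toSpanSingleton S A x).restrictScalars R)
      ((LinearMap.toSpanSingleton S A y).restrictScalars R)) h1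
    simp only [map_sum, Algebra.TensorProduct.tmul_mul_tmul, one_mul, TensorProduct.map_tmul,
      LinearMap.coe_restrictScalars, LinearMap.toSpanSingleton_apply] at h2
    simp only [← mul_smul, mul_comm _ r]
    exact h2.symm
  let Θ : A ⊗[S] A →+ A ⊗[R] A := TensorProduct.liftAddHom
    (AddMonoidHom.mk' (fun x => AddMonoidHom.mk' (fun y => ∑ j, (s j • x) ⊗ₜ[R] (s' j • y))
      fun y y' => by simp only [smul_add, tmul_add, Finset.sum_add_distrib])
      fun x x' => AddMonoidHom.ext fun y => by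
        simp only [AddMonoidHom.mk'_apply, AddMonoidHom.add_apply, smul_add, add_tmul,
          Finset.sum_add_distrib]) hbal
  have hΘ : ∀ x y : A, Θ (x ⊗ₜ[S] y) = ∑ j, (s j • x) ⊗ₜ[R] (s' j • y) := fun x y => rfl
  let q := (finProdFinEquiv (m := k) (n := l)).symm
  refine ⟨k * l, fun p => s (q p).2 • a (q p).1, fun p => s' (q p).2 • b (q p).1, ?_, fun c => ?_⟩
  · rw [q.sum_comp fun p => (s p.2 • a p.1) * (s' p.2 • b p.1), Fintype.sum_prod_type]
    have h1 := hab 1
    simp only [mul_one, hτ, map_one] at h1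
    simp only [smul_mul_smul_comm, ← Finset.sum_smul, hs1, one_smul]
    exact h1
  · rw [q.sum_comp fun p => (c * (s p.2 • a p.1)) ⊗ₜ[R] (s' p.2 • b p.1),
      q.sum_comp fun p => (s p.2 • a p.1) ⊗ₜ[R] ((s' p.2 • b p.1) * c), Fintype.sum_prod_type,
      Fintype.sum_prod_type]
    have h1 := congrArg Θ (hc c)
    simp only [map_sum, hΘ] at h1
    simp only [mul_smul_comm, smul_mul_assoc]
    exact h1

end Pool.Agent.P.MP_46a8f8_ag.GU
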