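import Pool.Agent.P.MP_46a8f8_ag.GU.Ad
import Pool.Agent.P.MP_46a8f8_ag.GU.GA
import Pool.Agent.P.MP_46a8f8_ag.GU.Sep

/-!
Faithfully flat descent of Azumaya algebras with involution.
-/

namespace Pool.Agent.P.MP_46a8f8_ag.GU

open TensorProduct Function

universe u

namespace AzDP

/-- the matrix of the two sided multiplications -/
noncomputable def mat {S B ι : Type u} [CommRing S] [Ring B] [Algebra S B]
    (e : Module.Basis ι S B) : Matrix (ι × ι) (ι × ι) S :=
  Matrix.of fun kl ij => e.repr (e ij.1 * e kl.2 * e ij.2) kl.1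

theorem bij_iff {S B ι : Type u} [CommRing S] [Ring B] [Algebra S B] [Fintype ι] [DecidableEq ι]
    (e : Module.Basis ι S B) : Bijective (AlgHom.mulLeftRight S B) ↔ IsUnit (mat e).det := by
  have h : LinearMap.toMatrix (e.tensorProduct (e.map (MulOpposite.opLinearEquiv S)))
      (e.linearMap e) (AlgHom.mulLeftRight S B).toLinearMap = mat e := by
    ext kl ij
    rw [LinearMap.toMatrix_apply, Module.Basis.tensorProduct_apply', Module.Basis.linearMap_repr_apply]
    simp [mat, LinearMap.toMatrix_apply, Matrix.stdBasis]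
  rw [← h]
  constructor
  · intro hb
    exact (LinearEquiv.ofBijective (AlgHom.mulLeftRight S B).toLinearMap hb).isUnit_det _ _
  · intro hu
    exact (LinearEquiv.ofIsUnitDet hu).bijective

section bc

variable {R S A : Type u} (O : Type u) [CommRing R] [CommRing S] [Algebra R S] [Ring A]
  [Algebra S A] [Algebra R A] [IsScalarTower R S A] [CommRing O] [Algebra R O]

attribute [local instance] GAP.alg

theorem ex_basis {ι : Type u} [DecidableEq ι] (e : Module.Basis ι S A) :
    ∃ E : Module.Basis ι (O ⊗[R] S) (O ⊗[R] A), (∀ i, E i = (1 : O) ⊗ₜ[R] e i) ∧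
      ∀ a i, E.repr ((1 : O) ⊗ₜ[R] a) i = (1 : O) ⊗ₜ[R] e.repr a i := by
  let E : O ⊗[R] A ≃ₗ[R] (ι →₀ O ⊗[R] S) :=
    (LinearEquiv.lTensor O (e.repr.restrictScalars R)).trans (finsuppRight R R O S _)
  have hE : ∀ (o : O) (a : A) i, E (o ⊗ₜ[R] a) i = o ⊗ₜ[R] e.repr a i := fun o a i => by
    simp only [E, LinearEquiv.trans_apply, LinearEquiv.lTensor_tmul]
    rw [finsuppRight_apply_tmul_apply]
    rfl
  refine ⟨Module.Basis.ofRepr { E.toAddEquiv with map_smul' := fun c x => ?_ }, fun i => ?_,
    fun a i => hE 1 a i⟩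
  · change E (c • x) = c • E x
    induction c using TensorProduct.induction_on with
    | zero => rw [zero_smul, zero_smul, map_zero]
    | add c c' h h' => rw [add_smul, add_smul, map_add, h, h']
    | tmul o s =>
      induction x using TensorProduct.induction_on with
      | zero => rw [smul_zero, map_zero, smul_zero]
      | add x x' h h' => rw [smul_add, map_add, map_add, smul_add, h, h']
      | tmul o' a =>
        ext i
        rw [GAP.smul_tmul, hE, Finsupp.smul_apply, hE, map_smul, Finsupp.smul_apply, smul_eq_mul,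
          smul_eq_mul, Algebra.TensorProduct.tmul_mul_tmul]
  · change E.symm (Finsupp.single i 1) = _
    rw [LinearEquiv.symm_apply_eq]
    ext j
    rw [hE, e.repr_self, Finsupp.single_apply, Finsupp.single_apply]
    split_ifs
    · rfl
    · rw [tmul_zero]

theorem bij_bc [Module.Free S A] [Module.Finite S A] :
    ∃ d : S, (Bijective (AlgHom.mulLeftRight S A) ↔ IsUnit d) ∧
      (Bijective (AlgHom.mulLeftRight (O ⊗[R] S) (O ⊗[R] A)) ↔ IsUnit ((1 : O) ⊗ₜ[R] d)) := by
  classical
  let e := Module.Free.chooseBasis S A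
  obtain ⟨E, h1, h2⟩ := ex_basis (R := R) O e
  refine ⟨(mat e).det, bij_iff e, (bij_iff E).trans ?_⟩
  have h : mat E = (Algebra.TensorProduct.includeRight (R := R) (A := O) (B := S)).mapMatrix
      (mat e) := by
    ext kl ij
    simp only [mat, Matrix.of_apply, h1, Algebra.TensorProduct.tmul_mul_tmul, one_mul, h2,
      AlgHom.mapMatrix_apply, Matrix.map_apply, Algebra.TensorProduct.includeRight_apply]
  rw [h, ← AlgHom.map_det, Algebra.TensorProduct.includeRight_apply]

end bc

theorem unit_of {R S O : Type u} [CommRing R] [CommRing S] [Algebra R S] [CommRing O]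
    [Algebra R O] [Module.FaithfullyFlat R O] {d : S} (h : IsUnit ((1 : O) ⊗ₜ[R] d)) :
    IsUnit d := by
  have e : ⇑((LinearMap.mulLeft R d).lTensor O) = fun x => ((1 : O) ⊗ₜ[R] d) * x := by
    funext x
    induction x using TensorProduct.induction_on with
    | zero => simp
    | add x y hx hy => rw [map_add, hx, hy, mul_add]
    | tmul o s => simp
  have hb := (Module.FaithfullyFlat.lTensor_bijective_iff_bijective R O
    (LinearMap.mulLeft R d)).1 (e ▸ (Units.mulLeft_bijective h.unit))
  obtain ⟨y, hy⟩ := hb.2 1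
  exact IsUnit.of_mul_eq_one y hy

theorem bij_equiv {S B B' : Type u} [CommRing S] [Ring B] [Algebra S B] [Ring B'] [Algebra S B']
    [Module.Free S B] [Module.Finite S B] (φ : B ≃ₐ[S] B')
    (h : Bijective (AlgHom.mulLeftRight S B)) : Bijective (AlgHom.mulLeftRight S B') := by
  classical
  let e := Module.Free.chooseBasis S B
  rw [bij_iff (e.map φ.toLinearEquiv)]
  have : mat (e.map φ.toLinearEquiv) = mat e := by
    ext kl ij
    simp [mat, ← map_mul]
  rw [this]
  exact (bij_iff e).1 h

end AzDP

open AzDP in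
theorem pAzD : S_AzD.{u} := by
  intro R S A A' O _ _ _ _ _ _ _ _ _ _ _ _ _ _ _ _ _ _ μ h hst hS
  have := h.tower
  have := h.dom
  have := h.fin
  have := h.et
  have := h.az
  have := SA.free (R := R) (A := A)
  have i1 : ∀ {a b : A}, (1 : O) ⊗ₜ[R] a = (1 : O) ⊗ₜ[R] b → a = b := fun e =>
    Module.FaithfullyFlat.tensorProduct_mk_injective (A := R) (B := O) A e
  have i2 : ∀ {a b : A'}, μ ((1 : O) ⊗ₜ[R] a) = μ ((1 : O) ⊗ₜ[R] b) → a = b := fun e =>
    Module.FaithfullyFlat.tensorProduct_mk_injective (A := R) (B := O) A' (μ.injective e)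
  have hR : ∀ r : R, μ ((1 : O) ⊗ₜ[R] algebraMap R A' r) = (1 : O) ⊗ₜ[R] algebraMap R A r := by
    intro r
    rw [Algebra.algebraMap_eq_smul_one, Algebra.algebraMap_eq_smul_one, tmul_smul, tmul_smul,
      ← Algebra.TensorProduct.one_def, ← Algebra.TensorProduct.one_def,
      ← algebraMap_smul O r (1 : O ⊗[R] A'), map_smul, map_one, algebraMap_smul]
  have tw : IsScalarTower R S A' := IsScalarTower.of_algebraMap_eq fun r => i2 <| by
    rw [hR, hS, ← IsScalarTower.algebraMap_apply]
  have : Module.Flat O (O ⊗[R] A') := Module.Flat.of_linearEquiv μ.toLinearEquiv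
  have : Module.Flat R A' := Module.Flat.of_flat_tensorProduct R A' O
  have : Module.Free R A' := Module.free_of_flat_of_isLocalRing
  have pj : Module.Projective S A' := Algebra.FormallyUnramified.projective_of_restrictScalars R S A'
  have fn : Module.Finite S A' := Module.Finite.of_restrictScalars_finite R S A'
  have := finite_maximalSpectrum R S
  have : Module.Free S A' := pFreeS S A'
  have : Module.Free S A := pFreeS S A
  have ff : FaithfulSMul S A' := (faithfulSMul_iff_algebraMap_injective S A').2 fun s t e =>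
    FaithfulSMul.algebraMap_injective S A (i1 (by rw [← hS, ← hS, e]))
  have bj : Bijective (AlgHom.mulLeftRight S A') := by
    let := GAP.alg R S A O
    let := GAP.alg R S A' O
    obtain ⟨d, d1, d2⟩ := bij_bc (R := R) (S := S) (A := A) O
    obtain ⟨d', d1', d2'⟩ := bij_bc (R := R) (S := S) (A := A') O
    have : Module.Free (O ⊗[R] S) (O ⊗[R] A) := GAP.free_bc
    have := GAP.tower_bc (R := R) (S := S) (A := A) (O := O)
    have := SA.fin (R := R) (A := A)
    have : Module.Finite (O ⊗[R] S) (O ⊗[R] A) :=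
      Module.Finite.of_restrictScalars_finite O _ _
    let φ : (O ⊗[R] A') ≃ₐ[O ⊗[R] S] (O ⊗[R] A) := AlgEquiv.ofRingEquiv (f := μ.toRingEquiv) <| by
      intro c
      change μ (GAP.sm R S A' O c) = GAP.sm R S A O c
      induction c using TensorProduct.induction_on with
      | zero => simp
      | add c c' e e' => rw [map_add, map_add, map_add, e, e']
      | tmul o s =>
        rw [GAP.sm_tmul, GAP.sm_tmul, tmul_eq_smul_one_tmul, map_smul, hS, ← tmul_eq_smul_one_tmul]
    exact d1'.2 (unit_of (d2'.1 (bij_equiv φ.symm (d2.2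
      ((d1.1 h.az.bij).map (Algebra.TensorProduct.includeRight (R := R) (A := O) (B := S)))))))
  refine ⟨tw, h.dom, h.fin, h.et, { bij := bj }, fun r => i2 ?_, fun s e => h.fix s (i1 ?_), h.two⟩
  · rw [hst, hR, cj_tmul, h.st]
  · rw [← cj_tmul, ← hS, ← hst, e]

end Pool.Agent.P.MP_46a8f8_ag.GU
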