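import Pool.Agent.P.MP_46a8f8_ag.GU.Ad
import Pool.Agent.P.MP_46a8f8_ag.GU.Rk

/-!
Opposite and tensor product of Azumaya data, inner automorphisms, the centre.
-/

namespace Pool.Agent.P.MP_46a8f8_ag.GU

open TensorProduct Function MulOpposite

universe u

namespace AzTP

variable {S A A' : Type u} [CommRing S] [Ring A] [Algebra S A] [Ring A'] [Algebra S A']

/-- Azumaya data indexed by arbitrary finite types -/
theorem mk' {ι κ : Type} [Fintype ι] [Fintype κ] (a b : ι → A) (x z w : κ → A)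
    (h1 : ∑ i, a i * b i = 1)
    (h2 : ∀ c : A, ∑ i, (c * a i) ⊗ₜ[S] b i = ∑ i, a i ⊗ₜ[S] (b i * c))
    (h3 : ∑ j, ∑ i, (x j * a i * z j) ⊗ₜ[S] (w j * b i) = (1 : A) ⊗ₜ[S] (1 : A)) : Az S A := by
  let p := (Fintype.equivFin ι).symm
  let q := (Fintype.equivFin κ).symm
  refine ⟨_, fun i => a (p i), fun i => b (p i), ?_, fun c => ?_, _, fun j => x (q j),
    fun j => z (q j), fun j => w (q j), ?_⟩
  · rw [p.sum_comp fun i => a i * b i, h1]
  · rw [p.sum_comp fun i => (c * a i) ⊗ₜ[S] b i, p.sum_comp fun i => a i ⊗ₜ[S] (b i * c), h2]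
  · rw [← h3, ← q.sum_comp fun j => ∑ i, (x j * a i * z j) ⊗ₜ[S] (w j * b i)]
    exact Finset.sum_congr rfl fun j _ =>
      p.sum_comp fun i => (x (q j) * a i * z (q j)) ⊗ₜ[S] (w (q j) * b i)

/-- moving a factor across the separability element -/
theorem move {ι : Type} [Fintype ι] {a b : ι → A}
    (h2 : ∀ c : A, ∑ i, (c * a i) ⊗ₜ[S] b i = ∑ i, a i ⊗ₜ[S] (b i * c)) (x c z w : A) :
    ∑ i, (x * (c * a i) * z) ⊗ₜ[S] (w * b i) = ∑ i, (x * a i * z) ⊗ₜ[S] (w * (b i * c)) := by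
  have h := congrArg (TensorProduct.map (LinearMap.mulRight S z ∘ₗ LinearMap.mulLeft S x)
    (LinearMap.mulLeft S w)) (h2 c)
  simpa only [map_sum, TensorProduct.map_tmul, LinearMap.comp_apply, LinearMap.mulLeft_apply,
    LinearMap.mulRight_apply] using h

/-- the swap into the opposite algebra -/
noncomputable def sw : A ⊗[S] A →ₗ[S] Aᵐᵒᵖ ⊗[S] Aᵐᵒᵖ :=
  TensorProduct.map (opLinearEquiv S).toLinearMap (opLinearEquiv S).toLinearMap ∘ₗ
    (TensorProduct.comm S A A).toLinearMap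

theorem sw_tmul (x y : A) : sw (x ⊗ₜ[S] y) = op y ⊗ₜ[S] op x := by
  simp [sw]

theorem az_op (h : Az S A) : Az S Aᵐᵒᵖ := by
  obtain ⟨k, a, b, h1, h2, l, x, z, w, h3⟩ := h
  refine mk' (fun i => op (b i)) (fun i => op (a i)) (fun j => op (x j)) (fun j => op (w j))
    (fun j => op (z j)) ?_ (fun c => ?_) ?_
  · simp only [← op_mul]
    rw [← Finset.op_sum, h1, op_one]
  · have h := congrArg sw (h2 c.unop)
    simp only [map_sum, sw_tmul, op_mul, op_unop] at h
    exact h.symm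
  · have h4 : ∑ j, ∑ i, (a i * z j) ⊗ₜ[S] (w j * (b i * x j)) = (1 : A) ⊗ₜ[S] (1 : A) := by
      rw [← h3]
      refine Finset.sum_congr rfl fun j _ => ?_
      have := move h2 1 (x j) (z j) (w j)
      simp only [one_mul] at this
      exact this.symm
    have h := congrArg sw h4
    simp only [map_sum, sw_tmul, op_mul, op_one] at h
    exact h

theorem az_tensor (h : Az S A) (h' : Az S A') : Az S (A ⊗[S] A') := by
  obtain ⟨k, a, b, h1, h2, l, x, z, w, h3⟩ := h
  obtain ⟨k', a', b', h1', h2', l', x', z', w', h3'⟩ := h'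
  let Ψ := TensorProduct.tensorTensorTensorComm S A A A' A'
  refine mk' (ι := Fin k × Fin k') (κ := Fin l × Fin l') (fun i => a i.1 ⊗ₜ[S] a' i.2)
    (fun i => b i.1 ⊗ₜ[S] b' i.2) (fun j => x j.1 ⊗ₜ[S] x' j.2) (fun j => z j.1 ⊗ₜ[S] z' j.2)
    (fun j => w j.1 ⊗ₜ[S] w' j.2) ?_ (fun c => ?_) ?_
  · simp only [Algebra.TensorProduct.tmul_mul_tmul]
    rw [Fintype.sum_prod_type]
    simp only [← TensorProduct.tmul_sum, ← TensorProduct.sum_tmul, h1, h1']
    rfl
  · induction c using TensorProduct.induction_on with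
    | zero => simp
    | add c d hc hd =>
      simp only [add_mul, mul_add, TensorProduct.add_tmul, TensorProduct.tmul_add,
        Finset.sum_add_distrib, hc, hd]
    | tmul c c' =>
      have h := congrArg Ψ (congrArg₂ (fun s t => s ⊗ₜ[S] t) (h2 c) (h2' c'))
      simp only [TensorProduct.sum_tmul, TensorProduct.tmul_sum, map_sum, Ψ,
        TensorProduct.tensorTensorTensorComm_tmul] at h
      simp only [Algebra.TensorProduct.tmul_mul_tmul]
      rw [Fintype.sum_prod_type_right, Fintype.sum_prod_type_right]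
      exact h
  · have h := congrArg Ψ (congrArg₂ (fun s t => s ⊗ₜ[S] t) h3 h3')
    simp only [TensorProduct.sum_tmul, TensorProduct.tmul_sum, map_sum, Ψ,
      TensorProduct.tensorTensorTensorComm_tmul] at h
    simp only [Algebra.TensorProduct.tmul_mul_tmul]
    rw [Algebra.TensorProduct.one_def, ← h, Fintype.sum_prod_type_right]
    refine Finset.sum_congr rfl fun j' _ => ?_
    simp only [Fintype.sum_prod_type_right]
    rw [Finset.sum_comm]

section twist

variable {E : Type u} [Ring E] [Algebra S E]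

/-- `A` as a module along a representation -/
def Tw (_ : E →ₐ[S] Module.End S A) : Type u := A

variable (ρ : E →ₐ[S] Module.End S A)

instance : AddCommGroup (Tw ρ) := inferInstanceAs (AddCommGroup A)

instance : Module S (Tw ρ) := inferInstanceAs (Module S A)

noncomputable instance : Module E (Tw ρ) := Module.compHom A ρ.toRingHom

theorem tw_smul (e : E) (x : Tw ρ) : e • x = (ρ e (show A from x) : A) := rfl

instance twTower : IsScalarTower S E (Tw ρ) :=
  ⟨fun s e x => by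
    rw [tw_smul, tw_smul, map_smul]
    rfl⟩

theorem tw_iso [Finite (MaximalSpectrum S)] [Module.Free S A] [Module.Finite S A]
    (ρ' : E →ₐ[S] Module.End S A) (hE : Az S E) :
    ∃ f : A → A, Surjective f ∧ ∀ e x, f (ρ e x) = ρ' e (f x) := by
  have h1 : Module.Finite S (Tw ρ) := inferInstanceAs (Module.Finite S A)
  have h2 : Module.Projective S (Tw ρ) := inferInstanceAs (Module.Projective S A)
  have e : Tw ρ ≃ₗ[S] Tw ρ' := LinearEquiv.refl S A
  obtain ⟨f⟩ := RkP.iso hE e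
  exact ⟨f, f.surjective, fun e x => f.map_smul e x⟩

end twist

theorem central_tmul (h : Az S A) {c : A} (hc : ∀ y, c * y = y * c) :
    c ⊗ₜ[S] (1 : A) = (1 : A) ⊗ₜ[S] c := by
  obtain ⟨k, a, b, -, h2, l, x, z, w, h3⟩ := h
  have e1 := congrArg (TensorProduct.map (LinearMap.mulLeft S c) LinearMap.id) h3
  have e2 := congrArg (TensorProduct.map LinearMap.id (LinearMap.mulRight S c)) h3
  simp only [map_sum, TensorProduct.map_tmul, LinearMap.id_apply, LinearMap.mulLeft_apply,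
    LinearMap.mulRight_apply, mul_one, one_mul] at e1 e2
  rw [← e1, ← e2]
  refine Finset.sum_congr rfl fun j _ => ?_
  have := move h2 (x j) c (z j) (w j)
  simp only [← mul_assoc] at this ⊢
  rw [← this]
  simp only [hc (x j)]

end AzTP

theorem pAzT : S_AzT.{u} := fun _ _ _ _ _ _ _ _ => ⟨AzTP.az_op, AzTP.az_tensor⟩

theorem pSN (h1 : S_AzT.{u}) : S_SN.{u} := by
  intro S A _ _ _ _ _ _ φ hA
  have hE : Az S (A ⊗[S] Aᵐᵒᵖ) := (h1 S A Aᵐᵒᵖ).2 hA ((h1 S A A).1 hA)
  obtain ⟨f, hf, hρ⟩ := AzTP.tw_iso (AlgHom.mulLeftRight S A)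
    ((AlgHom.mulLeftRight S A).comp
      (Algebra.TensorProduct.map (φ : A →ₐ[S] A) (AlgHom.id S Aᵐᵒᵖ))) hE
  have hl : ∀ a, f a = φ a * f 1 := fun a => by
    simpa using hρ (a ⊗ₜ[S] (1 : Aᵐᵒᵖ)) 1
  have hr : ∀ a, f a = f 1 * a := fun a => by
    simpa using hρ ((1 : A) ⊗ₜ[S] op a) 1
  obtain ⟨y, hy⟩ := hf 1
  have h2 : φ y * f 1 = 1 := by rw [← hl, hy]
  have h3 : f 1 * y = 1 := by rw [← hr, hy]
  have h4 : φ y = y := by
    rw [← mul_one (φ y), ← h3, ← mul_assoc, h2, one_mul]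
  refine ⟨⟨f 1, y, h3, by rwa [h4] at h2⟩, fun x => ?_⟩
  change φ x * f 1 = f 1 * x
  rw [← hl, ← hr]

theorem pCen : S_Cen.{u} := by
  intro S A _ _ _ _ z hA hz
  let e := Module.Free.chooseBasis S A
  rcases isEmpty_or_nonempty (Module.Free.ChooseBasisIndex S A) with h0 | ⟨⟨t⟩⟩
  · exact ⟨0, e.ext_elem fun i => h0.elim i⟩
  · let l : A →ₗ[S] S := e.coord t ∘ₗ LinearMap.mulLeft S (e t)
    have hl : l 1 = 1 := by simp [l]
    have h := congrArg (TensorProduct.lid S A ∘ TensorProduct.map l LinearMap.id)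
      (AzTP.central_tmul hA hz)
    simp only [Function.comp_apply, TensorProduct.map_tmul, LinearMap.id_apply,
      TensorProduct.lid_tmul, hl, one_smul] at h
    exact ⟨l z, by rw [Algebra.algebraMap_eq_smul_one, h]⟩

end Pool.Agent.P.MP_46a8f8_ag.GU
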