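import Pool.Agent.P.MP_46a8f8_ag.GU.Base2

/-!
The form on the coinduced module over the normalisation of a curve.
-/

namespace Pool.Agent.P.MP_46a8f8_ag.GU

open TensorProduct Function Matrix IsLocalRing

universe u

namespace B1P

/-- the coinduced module -/
def Co (R S M : Type u) [CommRing R] [CommRing S] [Algebra R S] [AddCommGroup M] [Module R M] :
    Type u := S →ₗ[R] M

section co

variable {R S M : Type u} [CommRing R] [CommRing S] [Algebra R S] [AddCommGroup M] [Module R M]

instance : AddCommGroup (Co R S M) := inferInstanceAs (AddCommGroup (S →ₗ[R] M))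

instance : Module R (Co R S M) := inferInstanceAs (Module R (S →ₗ[R] M))

/-- the underlying linear map -/
def Co.ev (w : Co R S M) : S →ₗ[R] M := w

theorem Co.ext {w w' : Co R S M} (h : ∀ s, w.ev s = w'.ev s) : w = w' := LinearMap.ext h

theorem ev_add (w w' : Co R S M) (s : S) : (w + w').ev s = w.ev s + w'.ev s := rfl

theorem ev_zero (s : S) : (0 : Co R S M).ev s = 0 := rfl

theorem ev_rsmul (r : R) (w : Co R S M) (s : S) : (r • w).ev s = r • w.ev s := rfl

instance : SMul S (Co R S M) := ⟨fun t w => (w.ev ∘ₗ LinearMap.mulLeft R t : S →ₗ[R] M)⟩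

theorem ev_smul (t : S) (w : Co R S M) (s : S) : (t • w).ev s = w.ev (t * s) := rfl

instance : Module S (Co R S M) where
  one_smul w := Co.ext fun s => by rw [ev_smul, one_mul]
  mul_smul t t' w := Co.ext fun s => by rw [ev_smul, ev_smul, ev_smul, mul_left_comm, mul_assoc]
  smul_zero _ := Co.ext fun _ => rfl
  smul_add _ _ _ := Co.ext fun _ => rfl
  add_smul t t' w := Co.ext fun s => by rw [ev_add, ev_smul, ev_smul, ev_smul, add_mul, map_add]
  zero_smul w := Co.ext fun s => by rw [ev_smul, zero_mul, map_zero, ev_zero]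

instance : IsScalarTower R S (Co R S M) :=
  ⟨fun r t w => Co.ext fun s => by rw [ev_smul, ev_rsmul, ev_smul, smul_mul_assoc, map_smul]⟩

theorem ev_alg (w : Co R S M) (r : R) (s : S) : w.ev (algebraMap R S r * s) = r • w.ev s := by
  rw [← Algebra.smul_def, map_smul]

/-- evaluation at one -/
def jR : Co R S M →ₗ[R] M where
  toFun w := w.ev 1
  map_add' _ _ := rfl
  map_smul' _ _ := rfl

theorem cancel {p : Ideal R} {z c : R} (hz : IsSMulRegular M z)
    (hk : ∃ k : ℕ, z ^ k ∈ p ⊔ Ideal.span {c}) {v : M} (hp : ∀ r ∈ p, r • v = 0)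
    (hc : c • v = 0) : v = 0 := by
  obtain ⟨k, hk⟩ := hk
  obtain ⟨r, hr, d, hd, e⟩ := Submodule.mem_sup.1 hk
  obtain ⟨a, rfl⟩ := Ideal.mem_span_singleton'.1 hd
  refine (hz.pow k).right_eq_zero_of_smul ?_
  rw [← e, add_smul, hp r hr, mul_smul, hc, smul_zero, add_zero]

theorem kill {p : Ideal R} (h : Nrm p S) (w : Co R S M) (s : S) (r : R) (hr : r ∈ p) :
    r • w.ev s = 0 := by
  rw [← ev_alg, (h.ker r).2 hr, zero_mul, map_zero]

theorem cond {c r : R} {s : S} (e : algebraMap R S r = algebraMap R S c * s) (w : Co R S M) :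
    c • w.ev s = r • w.ev 1 := by
  rw [← ev_alg, ← ev_alg, mul_one, e]

theorem smul_congr {p : Ideal R} (h : Nrm p S) {y : M} (hy : ∀ r ∈ p, r • y = 0) {r r' : R}
    (e : algebraMap R S r = algebraMap R S r') : r • y = r' • y := by
  rw [← sub_eq_zero, ← sub_smul]
  exact hy _ ((h.ker _).1 (by rw [map_sub, e, sub_self]))

end co

variable {R A S B : Type u} [CommRing R] [Ring A] [Algebra R A] [CommRing S] [Algebra R S]
  [AddCommGroup B] [Module R B]

/-- the coinduced representation -/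
@[reducible] def coRM (S : Type u) [CommRing S] [Algebra R S] (Y : RM R A R) : RM R A S where
  M := Co R S Y.M
  ρ :=
    { toFun := fun a =>
        { toFun := fun w => (Y.ρ a ∘ₗ w.ev : S →ₗ[R] Y.M)
          map_add' := fun w w' => Co.ext fun s => map_add (Y.ρ a) _ _
          map_smul' := fun _ _ => rfl }
      map_one' := LinearMap.ext fun w => Co.ext fun s => by
        change Y.ρ 1 (w.ev s) = w.ev s
        rw [map_one, Module.End.one_apply]
      map_mul' := fun a a' => LinearMap.ext fun w => Co.ext fun s => by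
        change Y.ρ (a * a') (w.ev s) = Y.ρ a (Y.ρ a' (w.ev s))
        rw [map_mul, Module.End.mul_apply]
      map_zero' := LinearMap.ext fun w => Co.ext fun s => by
        change Y.ρ 0 (w.ev s) = 0
        rw [map_zero, LinearMap.zero_apply]
      map_add' := fun a a' => LinearMap.ext fun w => Co.ext fun s => by
        change Y.ρ (a + a') (w.ev s) = Y.ρ a (w.ev s) + Y.ρ a' (w.ev s)
        rw [map_add, LinearMap.add_apply] }
  alg r w := Co.ext fun s => by
    change Y.ρ (algebraMap R A r) (w.ev s) = w.ev (algebraMap R S r * s)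
    rw [Y.alg, ev_alg]
    rfl

theorem form {τS : S →ₗ[R] B} (hτ : Bijective ((LinearMap.mul R S).compr₂ τS)) (Y : FM R A R B)
    (sw : ∀ (w w' : Co R S Y.M) (s : S), Y.b (w.ev s) (w'.ev 1) = Y.b (w.ev 1) (w'.ev s)) :
    ∃ β : Co R S Y.M →ₗ[S] Co R S Y.M →ₗ[S] S,
      ∀ w w' s, τS (β w w' * s) = Y.b (w.ev s) (w'.ev 1) := by
  have h1 : ∀ w w' : Co R S Y.M, ∃ u : S, ∀ s, τS (u * s) = Y.b (w.ev s) (w'.ev 1) :=
    fun w w' => by
      obtain ⟨u, hu⟩ := hτ.2 (Y.b.flip (w'.ev 1) ∘ₗ w.ev)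
      exact ⟨u, fun s => LinearMap.congr_fun hu s⟩
  have inj : ∀ u u' : S, (∀ s, τS (u * s) = τS (u' * s)) → u = u' :=
    fun u u' h => hτ.1 (LinearMap.ext h)
  choose β hβ using h1
  refine ⟨LinearMap.mk₂ S β (fun w w₁ w' => inj _ _ fun s => ?_) (fun t w w' => inj _ _ fun s => ?_)
    (fun w w' w₁ => inj _ _ fun s => ?_) (fun t w w' => inj _ _ fun s => ?_), hβ⟩
  · rw [add_mul, map_add, hβ, hβ, hβ, ev_add, map_add, LinearMap.add_apply]
  · rw [hβ, smul_eq_mul, mul_comm t, mul_assoc, hβ, ev_smul]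
  · rw [add_mul, map_add, hβ, hβ, hβ, ev_add, map_add]
  · rw [hβ, smul_eq_mul, mul_comm t, mul_assoc, hβ, ev_smul, mul_one, mul_comm t, ← ev_smul s w t,
      sw, ev_smul, mul_one]

end B1P

open B1P in
theorem pB1 : S_B1.{u} := by
  intro R A S B _ _ _ _ _ _ _ _ _ _ p z τS δ Y hN hτ hz hk hG hA
  have := hN.dom
  have := hN.pid
  have := hG.fin
  obtain ⟨c, hc, hr⟩ := hN.cond
  have hzY : IsSMulRegular Y.M z := IsSMulRegular.of_right_eq_zero_of_smul fun y hy =>
    hA.eq_zero hG fun y' => hz.right_eq_zero_of_smul (by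
      rw [← LinearMap.smul_apply, ← map_smul, hy, map_zero, LinearMap.zero_apply])
  have inj : ∀ w : Co R S Y.M, w.ev 1 = 0 → w = 0 := fun w hw => Co.ext fun s => by
    obtain ⟨r, e⟩ := hr s
    exact cancel hzY (hk c hc) (kill hN w s) (by rw [cond e, hw, smul_zero])
  have sw : ∀ (w w' : Co R S Y.M) (s : S),
      Y.b (w.ev s) (w'.ev 1) = Y.b (w.ev 1) (w'.ev s) := fun w w' s => by
    obtain ⟨r, e⟩ := hr s
    rw [← sub_eq_zero]
    refine cancel hz (hk c hc) (fun a ha => ?_) ?_
    · rw [smul_sub, ← map_smul (Y.b _), ← map_smul (Y.b _), kill hN w' _ a ha, kill hN w' _ a ha,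
        map_zero, map_zero, sub_self]
    · rw [smul_sub, ← LinearMap.smul_apply, ← map_smul Y.b, ← map_smul (Y.b _), cond e, cond e,
        map_smul, map_smul, LinearMap.smul_apply, sub_self]
  obtain ⟨β, hβ⟩ := form hτ Y sw
  have ext : ∀ u u' : S, (∀ s, τS (u * s) = τS (u' * s)) → u = u' :=
    fun u u' h => hτ.1 (LinearMap.ext h)
  have : Module.Finite R (Co R S Y.M) :=
    Module.Finite.of_injective jR ((injective_iff_map_eq_zero _).2 inj)
  have fin : Module.Finite S (Co R S Y.M) := Module.Finite.of_restrictScalars_finite R S _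
  have : Module.IsTorsionFree S (Co R S Y.M) := Module.IsTorsionFree.of_smul_eq_zero fun s w h => by
    by_cases hs : s = 0
    · exact Or.inl hs
    obtain ⟨r, e⟩ := hr s
    have h1 : r ∉ p := fun hh => by
      rw [(hN.ker r).2 hh, eq_comm, mul_eq_zero] at e
      exact e.elim (fun h0 => hc ((hN.ker c).1 h0)) hs
    refine Or.inr (inj w (cancel hzY (hk r h1) (kill hN w 1) ?_))
    rw [← cond e, ← mul_one s, ← ev_smul, h, ev_zero, smul_zero]
  refine ⟨⟨coRM S Y.toRM, β⟩, (jR (R := R) (S := S) (M := Y.M)).toAddMonoidHom, c,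
    ⟨fin, fun a w w' => ext _ _ fun s => ?_, fun w w' => ext _ _ fun s => ?_⟩,
    Module.free_of_finite_type_torsion_free', (injective_iff_map_eq_zero _).2 fun w hw => ?_,
    fun r w => ev_alg w r 1, fun _ _ => rfl, fun w w' => ?_, hc, fun y hy => ?_⟩
  · rw [hβ, hβ]
    exact hG.adj a _ _
  · rw [smul_mul_assoc, Units.smul_def, map_zsmul, hβ, hβ, hG.sym, sw, Units.smul_def]
  · have st : Y.Stab (LinearMap.range (jR (R := R) (S := S) (M := Y.M))) := by
      rintro a _ ⟨m, rfl⟩
      exact ⟨(coRM S Y.toRM).ρ a m, rfl⟩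
    refine inj w ((Submodule.eq_bot_iff _).1 (hA _ (st.inf (hG.stab_perp st))
      fun x hx y hy => hx.2 y hy.1) _ ⟨⟨w, rfl⟩, ?_⟩)
    rintro _ ⟨w', rfl⟩
    have h1 := hβ w w' 1
    rw [show β w = 0 from hw, LinearMap.zero_apply, zero_mul, map_zero] at h1
    exact h1.symm
  · have h1 := hβ w w' 1
    rw [mul_one] at h1
    exact h1.symm
  · choose r hr using hr
    refine ⟨(⟨⟨fun s => r s • y, fun s s' => ?_⟩, fun a s => ?_⟩ : S →ₗ[R] Y.M),
      smul_congr hN hy (by rw [hr, mul_one])⟩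
    · rw [← add_smul]
      exact smul_congr hN hy (by rw [map_add, hr, hr, hr, mul_add])
    · rw [RingHom.id_apply, smul_smul]
      exact smul_congr hN hy (by rw [map_mul, hr, hr, Algebra.smul_def, mul_left_comm])

end Pool.Agent.P.MP_46a8f8_ag.GU
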