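import Pool.Agent.P.MP_46a8f8_ag.GU.Base2

/-!
Almost unimodular overlattices.
-/

namespace Pool.Agent.P.MP_46a8f8_ag.GU

open TensorProduct Function Matrix IsLocalRing

universe u

namespace B2P

variable {R A S : Type u} [CommRing R] [Ring A] [Algebra R A] [StarRing A] [CommRing S]
  [IsDomain S] [IsPrincipalIdealRing S] [Algebra R S] {x : S} {δ : ℤˣ}

omit [IsPrincipalIdealRing S] in
theorem exists_div {M : Type u} [AddCommGroup M] [Module S M] (B : M →ₗ[S] M →ₗ[S] S) {c : S}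
    (hc : c ≠ 0) (h : ∀ u v, c ∣ B u v) :
    ∃ B' : M →ₗ[S] M →ₗ[S] S, ∀ u v, c * B' u v = B u v := by
  choose f hf using h
  refine ⟨LinearMap.mk₂ S f (fun u u' v => ?_) (fun r u v => ?_) (fun u v v' => ?_)
    fun r u v => ?_, fun u v => (hf u v).symm⟩ <;> refine mul_left_cancel₀ hc ?_
  · simp [mul_add, ← hf]
  · rw [smul_eq_mul, mul_left_comm, ← hf, ← hf]
    simp
  · simp [mul_add, ← hf]
  · rw [smul_eq_mul, mul_left_comm, ← hf, ← hf]
    simp

theorem dvd_pow (hx : ∀ 𝔫 : Ideal S, 𝔫.IsMaximal → x ∈ 𝔫) {d : S} (hd : d ≠ 0) :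
    ∃ k, d ∣ x ^ (k + 1) := by
  induction d using WfDvdMonoid.induction_on_irreducible with
  | zero => exact (hd rfl).elim
  | unit u hu => exact ⟨0, hu.dvd⟩
  | mul a i ha hi ih =>
    obtain ⟨k, hk⟩ := ih ha
    exact ⟨k + 1, pow_succ' x _ ▸ mul_dvd_mul (Ideal.mem_span_singleton.1
      (hx _ (PrincipalIdealRing.isMaximal_of_irreducible hi))) hk⟩

omit [StarRing A] in
theorem start (hx : ∀ 𝔫 : Ideal S, 𝔫.IsMaximal → x ∈ 𝔫) (W : FM R A S S) [Module.Finite S W.M]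
    [Module.Free S W.M] (hb : Injective W.b) : ∃ k, ∀ ξ, ∃ w, W.b w = x ^ (k + 1) • ξ := by
  have h1 := Submodule.finrank_quotient_add_finrank (LinearMap.range W.b)
  rw [LinearMap.finrank_range_of_inj hb, (Module.Free.chooseBasis S W.M).toDualEquiv.finrank_eq,
    Nat.add_eq_right, Module.finrank_eq_zero_iff_isTorsion] at h1
  obtain ⟨d, h2, h3⟩ := Submodule.annihilator_top_inter_nonZeroDivisors h1
  obtain ⟨k, c, hc⟩ := dvd_pow hx (nonZeroDivisors.ne_zero h3)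
  refine ⟨k, fun ξ => ?_⟩
  have h4 := Submodule.mem_annihilator.1 h2 (Submodule.Quotient.mk (c • ξ)) trivial
  rwa [← Submodule.Quotient.mk_smul, Submodule.Quotient.mk_eq_zero, smul_smul, ← hc] at h4

/-- `W'` is an overlattice of `W` -/
def Over (x : S) (δ : ℤˣ) (W W' : FM R A S S) : Prop :=
  W'.Good δ ∧ Module.Free S W'.M ∧ ∃ (θ : W.M →ₗ[S] W'.M) (m : ℕ), Eqv W.toRM W'.toRM θ ∧
    (∀ w w', W'.b (θ w) (θ w') = W.b w w') ∧ ∀ v, ∃ w, θ w = x ^ m • v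

theorem step (hx : x ≠ 0) (W : FM R A S S) (hW : W.Good δ) [Module.Free S W.M] (k : ℕ)
    (hk : ∀ ξ, ∃ w, W.b w = x ^ (k + 2) • ξ) :
    ∃ W', Over x δ W W' ∧ ∀ ξ, ∃ w, W'.b w = x ^ (k + 1) • ξ := by
  have := hW.fin
  let N : Submodule S W.M :=
    { carrier := {u | ∃ w w' ξ, u = x • w + w' ∧ W.b w' = x ^ (k + 2) • ξ}
      add_mem' := by
        rintro _ _ ⟨w, w', ξ, rfl, h⟩ ⟨v, v', η, rfl, h'⟩
        exact ⟨w + v, w' + v', ξ + η, by rw [smul_add]; abel, by rw [map_add, h, h', smul_add]⟩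
      zero_mem' := ⟨0, 0, 0, by simp, by simp⟩
      smul_mem' := by
        rintro c _ ⟨w, w', ξ, rfl, h⟩
        exact ⟨c • w, c • w', c • ξ, by rw [smul_add, smul_comm], by
          rw [map_smul, h, smul_comm]⟩ }
  have hN : W.Stab N := by
    rintro a _ ⟨w, w', ξ, rfl, h⟩
    refine ⟨W.ρ a w, W.ρ a w', ξ ∘ₗ W.ρ (star a), by simp, LinearMap.ext fun v => ?_⟩
    rw [hW.adj, h]
    rfl
  obtain ⟨B, hB⟩ := exists_div (W.b.compl₁₂ N.subtype N.subtype) (pow_ne_zero 2 hx) (by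
    rintro ⟨_, w, w', ξ, rfl, h⟩ ⟨_, v, v', η, rfl, h'⟩
    have h1 := hW.sym v' w
    refine ⟨W.b w v + x ^ (k + 1) * (δ • η w) + x ^ (k + 1) * ξ v + x ^ k * ξ v', ?_⟩
    simp only [LinearMap.compl₁₂_apply, Submodule.subtype_apply, map_add, map_smul,
      LinearMap.add_apply, LinearMap.smul_apply, h, h1, h', smul_eq_mul, Units.smul_def,
      zsmul_eq_mul]
    ring)
  simp only [LinearMap.compl₁₂_apply, Submodule.subtype_apply] at hB
  have hc : ∀ {s t : S}, x ^ 2 * s = x ^ 2 * t → s = t := mul_left_cancel₀ (pow_ne_zero 2 hx)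
  let θ : W.M →ₗ[S] N := (x • LinearMap.id).codRestrict N fun w => ⟨w, 0, 0, by simp, by simp⟩
  have hθ : ∀ w, (θ w).1 = x • w := fun _ => rfl
  refine ⟨⟨W.toRM.sub N hN, B⟩, ⟨⟨inferInstanceAs (Module.Finite S N), fun a u v => hc ?_,
    fun u v => hc ?_⟩, inferInstanceAs (Module.Free S N), θ, 1, fun a w => Subtype.ext ?_,
    fun w w' => hc ?_, fun v => ⟨v.1, Subtype.ext (by simp [hθ])⟩⟩, fun ψ => ?_⟩
  · exact (hB _ _).trans ((hW.adj a u.1 v.1).trans (hB u ((W.toRM.sub N hN).ρ _ v)).symm)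
  · change x ^ 2 * B v u = x ^ 2 * δ • B u v
    rw [mul_smul_comm, hB, hB, hW.sym]
  · exact (map_smul (W.ρ a) x w).symm
  · change x ^ 2 * B (θ w) (θ w') = _
    rw [hB]
    simp [hθ, sq, mul_assoc]
  · obtain ⟨w, hw⟩ := hk (ψ ∘ₗ θ)
    refine ⟨⟨w, 0, w, _, by simp, hw⟩, LinearMap.ext fun v => hc ?_⟩
    have h1 : θ v.1 = x • v := rfl
    change x ^ 2 * B _ v = x ^ 2 * (x ^ (k + 1) * ψ v)
    rw [hB, hw, LinearMap.smul_apply, LinearMap.comp_apply, h1, map_smul, smul_eq_mul, smul_eq_mul]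
    ring

theorem iter (hx : x ≠ 0) (k : ℕ) : ∀ W : FM R A S S, W.Good δ → Module.Free S W.M →
    (∀ ξ, ∃ w, W.b w = x ^ (k + 1) • ξ) →
    ∃ W', Over x δ W W' ∧ ∀ ξ, ∃ w, W'.b w = x • ξ := by
  induction k with
  | zero =>
    exact fun W hW hf hk => ⟨W, ⟨hW, hf, LinearMap.id, 0, fun _ _ => rfl, fun _ _ => rfl,
      fun v => ⟨v, by simp⟩⟩, by simpa using hk⟩
  | succ k ih =>
    intro W hW hf hk
    obtain ⟨W', ⟨h1, h2, θ, m, h3, h4, h5⟩, h6⟩ := step hx W hW k hk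
    obtain ⟨W'', ⟨h7, h8, θ', m', h9, h10, h11⟩, h12⟩ := ih W' h1 h2 h6
    refine ⟨W'', ⟨h7, h8, θ' ∘ₗ θ, m + m', h9.comp h3, fun w w' => (h10 _ _).trans (h4 _ _),
      fun v => ?_⟩, h12⟩
    obtain ⟨w', hw'⟩ := h11 v
    obtain ⟨w, hw⟩ := h5 w'
    exact ⟨w, by rw [LinearMap.comp_apply, hw, map_smul, hw', smul_smul, pow_add]⟩

end B2P

open B2P

theorem pB2 : S_B2.{u} := by
  intro R A S _ _ _ _ _ _ _ _ _ x δ W hx hm hW hf hb
  have := hW.fin
  obtain ⟨k, hk⟩ := start hm W hb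
  obtain ⟨V, ⟨h1, h2, θ, m, h3, h4, h5⟩, h6⟩ := iter hx k W hW hf hk
  have := h1.fin
  let e := Module.finBasis S V.M
  let ρ : MRep R A S (Fin (Module.finrank S V.M)) :=
    ⟨(LinearMap.toMatrixAlgEquiv e).toRingEquiv.toRingHom.comp V.ρ, fun r => by
      change LinearMap.toMatrix e e (V.ρ _) = _
      rw [show V.ρ (algebraMap R A r) = algebraMap R S r • LinearMap.id from
        LinearMap.ext (V.alg r), map_smul, LinearMap.toMatrix_id]⟩
  have hρ : ∀ a, ρ.ρ a = LinearMap.toMatrix e e (V.ρ a) := fun _ => rfl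
  have hl : ∀ v v', V.b v v' = e.equivFun v ⬝ᵥ LinearMap.toMatrix₂ e e V.b *ᵥ e.equivFun v' :=
    apply_eq_dotProduct_toMatrix₂_mulVec e e V.b
  refine ⟨_, inferInstance, inferInstance, ρ.dual, LinearMap.toMatrix₂ e e V.b,
    e.equivFun.toLinearMap ∘ₗ θ, m, ⟨?_, fun a => ?_⟩, fun ξ => ?_, fun a w => ?_,
    fun w w' => (h4 w w').symm.trans (hl _ _), fun v => ?_⟩
  · ext i j
    rw [transpose_apply, Matrix.smul_apply, LinearMap.toMatrix₂_apply, LinearMap.toMatrix₂_apply,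
      h1.sym]
  · rw [MRep.dual_apply, MRep.dual_apply, star_star, transpose_transpose, hρ, hρ,
      ← LinearMap.toMatrix₂_comp, ← LinearMap.toMatrix₂_compl₂]
    congr 1
    exact LinearMap.ext₂ fun v v' => (h1.adj _ v v').trans (by rw [star_star]; rfl)
  · obtain ⟨w, hw⟩ := h6 (e.constr S (δ • ξ))
    refine ⟨e.equivFun w, funext fun i => ?_⟩
    have h7 := hl (e i) w
    rw [h1.sym, hw, LinearMap.smul_apply, Module.Basis.constr_basis, Pi.smul_apply, smul_comm,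
      usmul_usmul, Module.Basis.equivFun_apply, e.repr_self, Finsupp.single_eq_pi_single,
      single_one_dotProduct] at h7
    exact h7.symm
  · rw [MRep.rm_apply, MRep.dual_apply, MRep.dual_apply, star_star, transpose_transpose, hρ]
    change ⇑(e.repr (θ _)) = _ *ᵥ e.repr (θ w)
    rw [LinearMap.toMatrix_mulVec_repr, h3]
  · obtain ⟨w, hw⟩ := h5 (e.equivFun.symm v)
    exact ⟨w, by rw [LinearMap.comp_apply, hw, map_smul, LinearEquiv.coe_coe,
      e.equivFun.apply_symm_apply]⟩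

end Pool.Agent.P.MP_46a8f8_ag.GU
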