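import Pool.Agent.P.MP_46a8f8_ag.GU.Base2

/-!
Package B3: the cokernel of a symmetric matrix killed by a regular element, with its form.
-/

namespace Pool.Agent.P.MP_46a8f8_ag.GU

open TensorProduct Function Matrix IsLocalRing

universe u

namespace B3P

variable {ι : Type} [Fintype ι] [DecidableEq ι]

omit [DecidableEq ι] in
theorem dot {V : Type u} [CommRing V] {δ : ℤˣ} {T : Matrix ι ι V} (hT : Tᵀ = δ • T)
    (v w : ι → V) : (T *ᵥ w) ⬝ᵥ v = δ • ((T *ᵥ v) ⬝ᵥ w) := by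
  rw [dotProduct_comm (T *ᵥ w), dotProduct_mulVec, ← mulVec_transpose, hT, smul_mulVec,
    smul_dotProduct]

/-- the cokernel over the quotient ring -/
theorem core {R A V : Type u} [CommRing R] [Ring A] [Algebra R A] [StarRing A] [CommRing V]
    [Algebra R V] (ρ : MRep R A V ι) (L T : Matrix ι ι V) (δ : ℤˣ) (hL : SymAdj δ ρ L)
    (hT : Tᵀ = δ • T) (hA : ∀ a, T * ρ.ρ (star a) = (ρ.ρ a)ᵀ * T)
    (h1 : ∀ v, T *ᵥ v = 0 ↔ ∃ w, L *ᵥ w = v) (h2 : ∀ v, L *ᵥ v = 0 → ∃ w, T *ᵥ w = v) :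
    ∃ (N : FM R A V V) (p : (ι → V) →ₗ[V] N.M), N.Good δ ∧ N.Perf ∧ Surjective p ∧
      Eqv ρ.rm N.toRM p ∧ (∀ v, p v = 0 ↔ ∃ w, L *ᵥ w = v) ∧
      ∀ v y, N.b (p v) (p y) = (T *ᵥ v) ⬝ᵥ y := by
  let K : Submodule V (ι → V) := LinearMap.range L.mulVecLin
  have hK : ρ.rm.Stab K := by
    rintro a _ ⟨w, rfl⟩
    refine ⟨(ρ.ρ (star a))ᵀ *ᵥ w, ?_⟩
    change L *ᵥ ((ρ.ρ (star a))ᵀ *ᵥ w) = ρ.ρ a *ᵥ (L *ᵥ w)
    rw [mulVec_mulVec, mulVec_mulVec, hL.2]
  let b0 : (ι → V) →ₗ[V] (ι → V) →ₗ[V] V :=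
    LinearMap.mk₂ V (fun v y => (T *ᵥ v) ⬝ᵥ y)
      (fun v v' y => by rw [mulVec_add, add_dotProduct])
      (fun c v y => by rw [mulVec_smul, smul_dotProduct])
      (fun v y y' => dotProduct_add _ _ _) (fun c v y => dotProduct_smul _ _ _)
  have k1 : K ≤ b0.ker := by
    rintro _ ⟨w, rfl⟩
    refine LinearMap.mem_ker.2 (LinearMap.ext fun y => ?_)
    change (T *ᵥ (L *ᵥ w)) ⬝ᵥ y = 0
    rw [(h1 _).2 ⟨w, rfl⟩, zero_dotProduct]
  have k2 : K ≤ b0.flip.ker := by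
    rintro _ ⟨w, rfl⟩
    refine LinearMap.mem_ker.2 (LinearMap.ext fun y => ?_)
    change (T *ᵥ y) ⬝ᵥ (L *ᵥ w) = 0
    rw [dot hT, (h1 _).2 ⟨w, rfl⟩, zero_dotProduct, smul_zero]
  let N : FM R A V V := { toRM := ρ.rm.quot K hK, b := b0.liftQ₂ K K k1 k2 }
  have hb : ∀ v y : ι → V, N.b (K.mkQ v) (K.mkQ y) = (T *ᵥ v) ⬝ᵥ y := fun v y => rfl
  have hs : ∀ m : N.M, ∃ v, K.mkQ v = m := K.mkQ_surjective
  have h0 : ∀ v, K.mkQ v = 0 ↔ ∃ w, L *ᵥ w = v := fun v => Submodule.Quotient.mk_eq_zero K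
  refine ⟨N, K.mkQ, ⟨?_, fun a m m' => ?_, fun m m' => ?_⟩, FM.perf_of (fun m hm => ?_) fun ψ => ?_,
    hs, fun a v => rfl, h0, hb⟩
  · exact inferInstanceAs (Module.Finite V ((ι → V) ⧸ K))
  · obtain ⟨v, rfl⟩ := hs m
    obtain ⟨y, rfl⟩ := hs m'
    change (T *ᵥ (ρ.ρ a *ᵥ v)) ⬝ᵥ y = (T *ᵥ v) ⬝ᵥ (ρ.ρ (star a) *ᵥ y)
    have e := hA (star a)
    rw [star_star] at e
    rw [mulVec_mulVec, e, ← mulVec_mulVec, mulVec_transpose, ← dotProduct_mulVec]
  · obtain ⟨v, rfl⟩ := hs m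
    obtain ⟨y, rfl⟩ := hs m'
    rw [hb, hb, dot hT]
  · obtain ⟨v, rfl⟩ := hs m
    refine (h0 v).2 ((h1 v).1 (funext fun i => ?_))
    have := hm (K.mkQ (Pi.single i 1))
    rw [hb, dotProduct_single_one] at this
    exact this
  · let ψ' : (ι → V) →ₗ[V] V := ψ ∘ₗ K.mkQ
    let w0 : ι → V := fun i => ψ' (Pi.single i 1)
    have e : ∀ y, ψ' y = w0 ⬝ᵥ y := fun y => by
      rw [lin_pi ψ' y, dotProduct_comm]
      rfl
    have z : L *ᵥ w0 = 0 := by
      funext i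
      have e1 : ψ' (L *ᵥ Pi.single i 1) = 0 := by
        change ψ (K.mkQ _) = 0
        rw [(h0 _).2 ⟨_, rfl⟩, map_zero]
      rw [e, dotProduct_comm, dot hL.1, dotProduct_single_one] at e1
      exact usmul_eq_zero δ e1
    obtain ⟨v, hv⟩ := h2 w0 z
    refine ⟨K.mkQ v, fun m => ?_⟩
    obtain ⟨y, rfl⟩ := hs m
    rw [hb, hv, ← e]
    rfl

section quo

variable {S V : Type u} [CommRing S] [CommRing V] [Algebra S V] {x : S}

omit [DecidableEq ι] in
theorem map_mv (M : Matrix ι ι S) (v : ι → S) :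
    M.map (algebraMap S V) *ᵥ (algebraMap S V ∘ v) = algebraMap S V ∘ (M *ᵥ v) :=
  funext fun i => (RingHom.map_mulVec (algebraMap S V) M v i).symm

omit [Fintype ι] [DecidableEq ι] in
theorem lift (hq : Quo x V) (v : ι → V) : ∃ w : ι → S, algebraMap S V ∘ w = v :=
  ⟨fun i => (hq.1 (v i)).choose, funext fun i => (hq.1 (v i)).choose_spec⟩

omit [Fintype ι] [DecidableEq ι] in
theorem zero_iff (hq : Quo x V) (v : ι → S) : algebraMap S V ∘ v = 0 ↔ ∃ w, v = x • w := by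
  constructor
  · intro h
    have : ∀ i, ∃ c, v i = x * c := fun i => (hq.2 _).1 (congrFun h i)
    choose w hw using this
    exact ⟨w, funext hw⟩
  · rintro ⟨w, rfl⟩
    exact funext fun i => (hq.2 _).2 ⟨w i, rfl⟩

/-- exactness modulo `x` -/
theorem exact (hx : IsSMulRegular S x) (hq : Quo x V) {l s : Matrix ι ι S}
    (h : l * s = x • (1 : Matrix ι ι S)) (v : ι → V) (hv : s.map (algebraMap S V) *ᵥ v = 0) :
    ∃ w, l.map (algebraMap S V) *ᵥ w = v := by
  obtain ⟨v, rfl⟩ := lift hq v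
  rw [map_mv, zero_iff hq] at hv
  obtain ⟨w, hw⟩ := hv
  refine ⟨algebraMap S V ∘ w, ?_⟩
  have e : x • (l *ᵥ w) = x • v := by
    rw [← mulVec_smul, ← hw, mulVec_mulVec, h, smul_mulVec, one_mulVec]
  rw [map_mv, show l *ᵥ w = v from funext fun i => hx (congrFun e i)]

end quo

end B3P

theorem pB3 : S_B3.{u} := by
  intro R A S V _ _ _ _ _ _ _ _ _ _ _ ι _ _ ρ l x δ hx hq hl hex
  have can : ∀ {M M' : Matrix ι ι S}, x • M = x • M' → M = M' := fun h =>
    Matrix.ext fun i j => hx (congrFun (congrFun h i) j)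
  obtain ⟨s, hs⟩ : ∃ s : Matrix ι ι S, l * s = x • (1 : Matrix ι ι S) := by
    choose w hw using hex
    refine ⟨Matrix.of fun i j => w (Pi.single j 1) i, Matrix.ext fun i j => ?_⟩
    have := congrFun (hw (Pi.single j 1)) i
    rw [Matrix.smul_apply, Matrix.one_apply, ← Pi.single_apply j (1 : S) i]
    exact this
  have t1 : δ • (sᵀ * l) = x • (1 : Matrix ι ι S) := by
    have := congrArg transpose hs
    rwa [transpose_mul, hl.1, Matrix.mul_smul, transpose_smul, transpose_one] at this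
  have t2 : δ • sᵀ = s := can (by
    have := congrArg (· * s) t1
    simp only [Matrix.smul_mul, Matrix.mul_assoc, hs, Matrix.mul_smul, Matrix.mul_one,
      Matrix.one_mul] at this
    rw [smul_comm, this])
  have hsT : sᵀ = δ • s := by rw [← usmul_usmul δ sᵀ, t2]
  have hs' : s * l = x • (1 : Matrix ι ι S) := by rw [← t1, ← Matrix.smul_mul, t2]
  have hA : ∀ a, s * ρ.ρ (star a) = (ρ.ρ a)ᵀ * s := fun a => can (by
    have := congrArg (fun M => s * M * s) (hl.2 (star a))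
    simp only [star_star] at this
    rw [Matrix.mul_assoc, Matrix.mul_assoc, hs, ← Matrix.mul_assoc s l, hs', Matrix.mul_smul,
      Matrix.mul_smul, Matrix.mul_one, Matrix.smul_mul, Matrix.one_mul, Matrix.smul_mul] at this
    exact this)
  let q := IsScalarTower.toAlgHom R S V
  have hz : ∀ (M M' : Matrix ι ι S), M * M' = x • (1 : Matrix ι ι S) → ∀ w : ι → V,
      M.map (algebraMap S V) *ᵥ (M'.map (algebraMap S V) *ᵥ w) = 0 := fun M M' h w => by
    obtain ⟨w, rfl⟩ := B3P.lift hq w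
    rw [B3P.map_mv, B3P.map_mv, B3P.zero_iff hq]
    exact ⟨w, by rw [mulVec_mulVec, h, smul_mulVec, one_mulVec]⟩
  obtain ⟨N, p, hg, hp, ps, pe, p0, pb⟩ := B3P.core (ρ.map q) (l.map (algebraMap S V))
    (s.map (algebraMap S V)) δ (hl.map q)
    (by
      rw [← transpose_map, hsT]
      ext i j
      rcases Int.units_eq_one_or δ with rfl | rfl <;> simp)
    (fun a => by
      change s.map (algebraMap S V) * (ρ.ρ (star a)).map (algebraMap S V) =
        ((ρ.ρ a).map (algebraMap S V))ᵀ * s.map (algebraMap S V)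
      rw [← transpose_map, ← Matrix.map_mul, ← Matrix.map_mul, hA])
    (fun v => ⟨B3P.exact hx hq hs v, by
      rintro ⟨w, rfl⟩
      exact hz s l hs' w⟩)
    (B3P.exact hx hq hs')
  let π : (ι → S) →ₗ[S] (N.res S).M :=
    { toFun := fun v => p (algebraMap S V ∘ v)
      map_add' := fun v w => by
        rw [← map_add]
        exact congrArg p (funext fun i => map_add _ _ _)
      map_smul' := fun c v => by
        change _ = algebraMap S V c • p (algebraMap S V ∘ v)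
        rw [← map_smul]
        exact congrArg p (funext fun i => map_mul _ _ _) }
  refine ⟨N, hg, hp, π, fun m => ?_, fun a v => ?_, fun v => ?_, hex, fun v y w hw => ?_⟩
  · obtain ⟨v, rfl⟩ := ps m
    obtain ⟨v, rfl⟩ := B3P.lift hq v
    exact ⟨v, rfl⟩
  · change p (algebraMap S V ∘ (ρ.ρ a *ᵥ v)) = N.ρ a (p (algebraMap S V ∘ v))
    rw [← pe, ← B3P.map_mv]
    rfl
  · change p (algebraMap S V ∘ v) = 0 ↔ _
    rw [p0]
    constructor
    · rintro ⟨w, hw⟩
      obtain ⟨w, rfl⟩ := B3P.lift hq w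
      rw [B3P.map_mv] at hw
      have : algebraMap S V ∘ (v - l *ᵥ w) = 0 := funext fun i => by
        have := congrFun hw i
        simp only [Function.comp_apply, Pi.sub_apply, map_sub, Pi.zero_apply] at this ⊢
        rw [this, sub_self]
      obtain ⟨c, hc⟩ := (B3P.zero_iff hq _).1 this
      obtain ⟨w', hw'⟩ := hex c
      exact ⟨w + w', by rw [mulVec_add, hw', ← hc, add_sub_cancel]⟩
    · rintro ⟨w, rfl⟩
      exact ⟨_, B3P.map_mv l w⟩
  · change N.b (p (algebraMap S V ∘ v)) (p (algebraMap S V ∘ y)) = _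
    have e : x • w = x • (s *ᵥ v) := by
      rw [← mulVec_smul, ← hw, mulVec_mulVec, hs', smul_mulVec, one_mulVec]
    rw [pb, B3P.map_mv, ← RingHom.map_dotProduct,
      show w = s *ᵥ v from funext fun i => hx (congrFun e i)]

end Pool.Agent.P.MP_46a8f8_ag.GU
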