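import Pool.Agent.P.MP_46a8f8_ag.GU.Base2

/-!
Package B4: the neutral form attached to a curve.
-/

namespace Pool.Agent.P.MP_46a8f8_ag.GU

open TensorProduct Function Matrix IsLocalRing

universe u

namespace B4P

theorem reg_iff {T : Type u} [CommRing T] {f : T} :
    IsSMulRegular T f ↔ ∀ c, f * c = 0 → c = 0 :=
  ⟨fun h c hc => h (by simpa using hc), fun h a b e => sub_eq_zero.1 (h _ (by
    rw [mul_sub]
    exact sub_eq_zero.2 e))⟩

theorem quo_mk {T : Type u} [CommRing T] (f : T) : Quo f (T ⧸ Ideal.span {f}) :=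
  ⟨Ideal.Quotient.mk_surjective, fun u => by
    rw [Ideal.Quotient.algebraMap_eq, Ideal.Quotient.eq_zero_iff_mem, Ideal.mem_span_singleton]⟩

theorem reg_free {R C : Type u} [CommRing R] [IsDomain R] [CommRing C] [Algebra R C]
    [Module.Free R C] {r : R} (hr : r ≠ 0) (c : C) (h : algebraMap R C r * c = 0) : c = 0 := by
  rw [← Algebra.smul_def] at h
  exact (smul_eq_zero.1 h).resolve_left hr

theorem core (h1 : S_B3.{u}) (h2 : S_Glue.{u}) (h3 : S_W1.{u}) (h4 : S_Neutral.{u})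
    (h5 : S_Hered.{u}) (h6 : S_ParH2.{u})
    (R A S C T D V W : Type u) [CommRing R] [IsDomain R] [IsNoetherianRing R] [IsLocalRing R]
    [Ring A] [Algebra R A] [StarRing A] [SA R A] [CommRing S] [Algebra R S] [CommRing C]
    [Algebra R C] [Algebra C S] [Module.Free R C] [Module.Finite R C]
    [CommRing T] [Algebra R T] [Algebra C T] [IsScalarTower R C T] [Algebra T S]
    [IsScalarTower R T S] [CommRing D] [Algebra R D] [Algebra T D] [IsScalarTower R T D]
    [CommRing V] [Algebra R V] [Algebra S V] [IsScalarTower R S V] [Algebra D V]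
    [IsScalarTower R D V] [CommRing W] [Algebra T W]
    (x F G : R) (τ : C →ₗ[R] R) (g g' t w u : C) (δ : ℤˣ)
    (ι : Type) [Fintype ι] [DecidableEq ι] (ρ : MRep R A S ι) (l : Matrix ι ι S)
    (hx : x ≠ 0) (hxS : IsSMulRegular S (algebraMap R S x)) (hτ : PerfTr τ)
    (hsurj : Surjective (algebraMap C S))
    (hker : ∀ c, algebraMap C S c = 0 ↔ c ∈ Ideal.span {g, t})
    (hgreg : ∀ c : C, algebraMap R C x ∣ g * c → algebraMap R C x ∣ c)
    (hT2 : ∀ 𝔫 : Ideal T, 𝔫.IsMaximal → RegAt T 𝔫 2)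
    (hD1 : ∀ 𝔫 : Ideal D, 𝔫.IsMaximal → RegAt D 𝔫 1)
    (hCT : ∀ c, algebraMap T S (algebraMap C T c) = algebraMap C S c)
    (hTV : ∀ c, algebraMap S V (algebraMap T S c) = algebraMap D V (algebraMap T D c))
    (qT : Quo g T) (qD : Quo (algebraMap R T x) D) (qV : Quo (algebraMap R S x) V)
    (qW : Quo (algebraMap R T x * algebraMap C T t) W) (hFG : RS F G)
    (hG : algebraMap R C G = g * g')
    (hF : algebraMap R C F = w * (algebraMap R C x * t) + u * g)
    (hl : SymAdj δ ρ l) (hlx : ∀ ξ, ∃ v, l *ᵥ v = algebraMap R S x • ξ) :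
    ∃ (Y : FM R A R (BQ F G)) (θ : (ι → S) →+ Y.M), Y.Good δ ∧ Neut (-δ) F G Y ∧
      (∀ (r : R) (v : ι → S), θ (algebraMap R S r • v) = r • θ v) ∧ Eqv ρ.dual.rm Y.toRM θ ∧
      (∀ (v v' : ι → S) (c : C), algebraMap C S c = v ⬝ᵥ l *ᵥ v' →
        Y.b (θ v) (θ v') = -Ideal.Quotient.mk _ (τ (w * algebraMap R C x * g' * c))) ∧
      ∀ y : Y.M, ∃ v, θ v = x • y := by
  have hRT : ∀ r, algebraMap C T (algebraMap R C r) = algebraMap R T r := fun r =>
    (IsScalarTower.algebraMap_apply R C T r).symm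
  have hRS : ∀ r, algebraMap T S (algebraMap R T r) = algebraMap R S r := fun r =>
    (IsScalarTower.algebraMap_apply R T S r).symm
  have fT : Module.Finite R T :=
    Module.Finite.of_surjective (IsScalarTower.toAlgHom R C T).toLinearMap qT.1
  have fD : Module.Finite R D :=
    Module.Finite.of_surjective (IsScalarTower.toAlgHom R T D).toLinearMap qD.1
  have nT : IsNoetherianRing T := isNoetherian_of_tower R (inferInstance : IsNoetherian R T)
  have nD : IsNoetherianRing D := isNoetherian_of_tower R (inferInstance : IsNoetherian R D)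
  have mT : Finite (MaximalSpectrum T) := finite_maximalSpectrum R T
  have mD : Finite (MaximalSpectrum D) := finite_maximalSpectrum R D
  have hg0 : algebraMap C T g = 0 := (qT.2 g).2 dvd_rfl
  have rg : IsSMulRegular C g := reg_iff.2 fun c hc => reg_free hFG.2.1 c (by
    rw [hG, mul_right_comm, hc, zero_mul])
  have rx : IsSMulRegular T (algebraMap R T x) := reg_iff.2 fun c hc => by
    obtain ⟨c, rfl⟩ := qT.1 c
    rw [← hRT, ← map_mul, qT.2] at hc
    obtain ⟨d, hd⟩ := hc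
    obtain ⟨d', rfl⟩ := hgreg d ⟨c, hd.symm⟩
    have e := reg_free hx (c - g * d') (by linear_combination hd)
    exact (qT.2 c).2 ⟨d', sub_eq_zero.1 e⟩
  have rF : ∀ c : T, algebraMap R T F * c = 0 → c = 0 := fun c hc => by
    obtain ⟨c, rfl⟩ := qT.1 c
    rw [← hRT, ← map_mul, qT.2] at hc
    obtain ⟨d, hd⟩ := hc
    obtain ⟨w0, rfl⟩ := hFG.free (M := C) (x := d) (y := g' * c) (by
      rw [Algebra.smul_def, Algebra.smul_def, hG]
      linear_combination -g' * hd)
    rw [Algebra.smul_def] at hd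
    have e := reg_free hFG.1 (c - g * w0) (by linear_combination hd)
    exact (qT.2 c).2 ⟨w0, sub_eq_zero.1 e⟩
  have hFT : algebraMap R T F = algebraMap C T w * (algebraMap R T x * algebraMap C T t) := by
    rw [← hRT, hF, map_add, map_mul, map_mul, map_mul, hg0, mul_zero, add_zero, hRT]
  have rxt : IsSMulRegular T (algebraMap R T x * algebraMap C T t) := reg_iff.2 fun c hc =>
    rF c (by rw [hFT, mul_assoc, hc, mul_zero])
  have rt : IsSMulRegular T (algebraMap C T t) := reg_iff.2 fun c hc =>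
    reg_iff.1 rxt c (by rw [mul_assoc, hc, mul_zero])
  have qS : Quo (algebraMap C T t) S := by
    refine ⟨fun s => ?_, fun c => ?_⟩
    · obtain ⟨c, rfl⟩ := hsurj s
      exact ⟨_, hCT c⟩
    · obtain ⟨c, rfl⟩ := qT.1 c
      rw [hCT, hker, Ideal.mem_span_pair]
      constructor
      · rintro ⟨a, b, rfl⟩
        exact ⟨algebraMap C T b, by rw [map_add, map_mul, map_mul, hg0]; ring⟩
      · rintro ⟨b, hb⟩
        obtain ⟨b, rfl⟩ := qT.1 b
        obtain ⟨a, ha⟩ := (qT.2 (c - t * b)).1 (by rw [map_sub, map_mul, hb, sub_self])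
        exact ⟨a, b, by linear_combination -ha⟩
  have ht0 : algebraMap T S (algebraMap C T t) = 0 := (qS.2 _).2 dvd_rfl
  have hx0 : algebraMap T D (algebraMap R T x) = 0 := (qD.2 _).2 dvd_rfl
  have rtD : IsSMulRegular D (algebraMap T D (algebraMap C T t)) := reg_iff.2 fun c hc => by
    obtain ⟨c, rfl⟩ := qD.1 c
    rw [← map_mul, qD.2] at hc
    obtain ⟨d, hd⟩ := hc
    have e : algebraMap T S d = 0 := reg_iff.1 hxS _ (by
      rw [← hRS, ← map_mul, ← hd, map_mul, ht0, zero_mul])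
    obtain ⟨d', rfl⟩ := (qS.2 d).1 e
    have e2 := reg_iff.1 rt (c - algebraMap R T x * d') (by linear_combination hd)
    exact (qD.2 c).2 ⟨d', sub_eq_zero.1 e2⟩
  have qV' : Quo (algebraMap T D (algebraMap C T t)) V := by
    refine ⟨fun v => ?_, fun c => ?_⟩
    · obtain ⟨s, rfl⟩ := qV.1 v
      obtain ⟨c, rfl⟩ := qS.1 s
      exact ⟨_, (hTV c).symm⟩
    · obtain ⟨c, rfl⟩ := qD.1 c
      rw [← hTV, qV.2]
      constructor
      · rintro ⟨a, ha⟩
        obtain ⟨a, rfl⟩ := qS.1 a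
        obtain ⟨b, hb⟩ := (qS.2 (c - algebraMap R T x * a)).1 (by
          rw [map_sub, map_mul, hRS, ha, sub_self])
        refine ⟨algebraMap T D b, ?_⟩
        rw [← map_mul, ← hb, map_sub, map_mul, hx0, zero_mul, sub_zero]
      · rintro ⟨b, hb⟩
        obtain ⟨b, rfl⟩ := qD.1 b
        obtain ⟨a, ha⟩ := (qD.2 (c - algebraMap C T t * b)).1 (by
          rw [map_sub, map_mul, hb, sub_self])
        refine ⟨algebraMap T S a, ?_⟩
        rw [← hRS, ← map_mul, ← ha, map_sub, map_mul, ht0, zero_mul, sub_zero]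
  obtain ⟨N, hN1, hN2, hN3⟩ := h1 R A S V ι ρ l (algebraMap R S x) δ hxS qV hl hlx
  obtain ⟨hpd, hpar⟩ := h5 D hD1
  have gD : (N.res D).Good δ := hN1.res D qV'.1
  obtain ⟨ι', _, _, ρ', l', hl', hP'⟩ := h3 R A D V δ (algebraMap T D (algebraMap C T t)) (N.res D)
    rtD qV' (hpar _ rtD) gD (hN2.res D qV'.1) (by
      have := gD.fin
      exact hpd _)
  obtain ⟨M, θ, hM1, hM2, hM3, hθ1, hθ2, hθ3, hθ4⟩ := h2 R A T S D V W (algebraMap R T x)
    (algebraMap C T t) δ N ι ι' ρ l (ρ'.map (Algebra.ofId R D)) l' rx rt (by rw [hRS]; exact hxS)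
    rtD qS qD (by rw [hRS]; exact qV) qV' hTV qW hN1 hN2 hl hl' (by rw [hRS]; exact hN3) hP'
  obtain ⟨ι'', _, _, ρ'', l'', hl'', hP''⟩ := h3 R A T W δ _ M rxt qW (h6 T hT2 _ rxt) hM1 hM2 hM3
  let π : C →+ W := ((algebraMap T W).comp (algebraMap C T)).toAddMonoidHom
  have hπ : ∀ c, π c = algebraMap T W (algebraMap C T c) := fun _ => rfl
  have hπs : Surjective π := qW.1.comp qT.1
  let φ : C →ₗ[R] BQ F G :=
    (Ideal.span {F, G}).mkQ ∘ₗ τ ∘ₗ LinearMap.mulLeft R (w * g' - u * 0)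
  have hφ : ∀ c, φ c = Ideal.Quotient.mk _ (τ ((w * g' - u * 0) * c)) := fun _ => rfl
  have hle : π.ker ≤ φ.toAddMonoidHom.ker := by
    intro c hc
    rw [AddMonoidHom.mem_ker, hπ, qW.2] at hc
    obtain ⟨d, hd⟩ := hc
    obtain ⟨d, rfl⟩ := qT.1 d
    obtain ⟨e, he⟩ := (qT.2 (c - algebraMap R C x * t * d)).1 (by
      rw [map_sub, map_mul, map_mul, hRT, hd, sub_self])
    change φ c = 0
    have e1 : (w * g' - u * 0) * c = F • (g' * d) + G • (w * e - u * d) := by
      rw [Algebra.smul_def, Algebra.smul_def, hF, hG]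
      linear_combination w * g' * he
    rw [hφ, e1, map_add, map_smul, map_smul]
    exact mk_eq_zero.2 ⟨τ (g' * d), τ (w * e - u * d), by simp only [smul_eq_mul]; ring⟩
  let κ : W →+ BQ F G := π.liftOfSurjective hπs ⟨φ.toAddMonoidHom, hle⟩
  have hκc : ∀ c, κ (algebraMap T W (algebraMap C T c)) = φ c := fun c =>
    AddMonoidHom.liftOfRightInverse_comp_apply π _ _ _ c
  have hκ : ∀ (r : R) (y : W), κ (algebraMap R T r • y) = r • κ y := fun r y => by
    obtain ⟨c, rfl⟩ := hπs y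
    have e : algebraMap R T r • π c = algebraMap T W (algebraMap C T (r • c)) := by
      rw [hπ, Algebra.smul_def, Algebra.smul_def r c, map_mul, map_mul, hRT]
    rw [e, hκc, hπ, hκc, map_smul]
  have hf : algebraMap C T (algebraMap R C x * t) = algebraMap R T x * algebraMap C T t := by
    rw [map_mul, hRT]
  have hneut := h4 R A C T W τ F G g (algebraMap R C x * t) w u g' 0 δ M ι'' ρ'' l'' κ hκ hτ rg qT
    (by rw [hf]; exact rxt) hF (by rw [hG]; ring) (fun c => (hκc c).trans (hφ c)) hl''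
    (by rw [hf]; exact hP'')
  refine ⟨(M.tr R κ hκ).neg, θ, (hM1.tr R κ hκ).neg, hneut, fun r v => ?_, hθ2,
    fun v v' c hc => ?_, hθ4⟩
  · rw [← hRS]
    exact hθ1 _ v
  · change -κ (M.b (θ v) (θ v')) = _
    rw [hθ3 v v' (algebraMap C T c) (by rw [hCT, hc]), ← hRT, ← map_mul, hκc, hφ]
    congr 3
    ring

end B4P

open B4P in
theorem pB4 (h1 : S_B3.{u}) (h2 : S_Glue.{u}) (h3 : S_W1.{u}) (h4 : S_Neutral.{u})
    (h5 : S_Hered.{u}) (h6 : S_ParH2.{u}) : S_B4.{u} := by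
  intro R A S C _ _ _ _ _ _ _ _ _ _ _ _ _ _ x F G τ g g' t w u δ ι _ _ ρ l hx hxS hm hFG hG hF hl
    hlx
  have := hm.free
  have := hm.fin
  let σ : (C ⧸ Ideal.span {g}) →+* S := Ideal.Quotient.lift _ (algebraMap C S) fun c hc =>
    (hm.ker c).2 (Ideal.span_mono (by simp) hc)
  let _ : Algebra (C ⧸ Ideal.span {g}) S := σ.toAlgebra
  have hRS : ∀ r, σ (algebraMap R (C ⧸ Ideal.span {g}) r) = algebraMap R S r := fun r =>
    (IsScalarTower.algebraMap_apply R C S r).symm
  have : IsScalarTower R (C ⧸ Ideal.span {g}) S :=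
    IsScalarTower.of_algebraMap_eq fun r => (hRS r).symm
  let σ' : ((C ⧸ Ideal.span {g}) ⧸ Ideal.span {algebraMap R (C ⧸ Ideal.span {g}) x}) →+*
      (S ⧸ Ideal.span {algebraMap R S x}) :=
    Ideal.Quotient.lift _ ((Ideal.Quotient.mk _).comp σ) fun c hc => by
      obtain ⟨d, rfl⟩ := Ideal.mem_span_singleton.1 hc
      rw [RingHom.comp_apply, Ideal.Quotient.eq_zero_iff_mem, map_mul, hRS]
      exact Ideal.mem_span_singleton.2 (dvd_mul_right _ _)
  let _ := σ'.toAlgebra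
  have := IsScalarTower.of_algebraMap_eq (R := R)
    (S := (C ⧸ Ideal.span {g}) ⧸ Ideal.span {algebraMap R (C ⧸ Ideal.span {g}) x})
    (A := S ⧸ Ideal.span {algebraMap R S x})
    fun r => congrArg (Ideal.Quotient.mk _) (hRS r).symm
  exact core h1 h2 h3 h4 h5 h6 R A S C (C ⧸ Ideal.span {g})
    ((C ⧸ Ideal.span {g}) ⧸ Ideal.span {algebraMap R (C ⧸ Ideal.span {g}) x})
    (S ⧸ Ideal.span {algebraMap R S x})
    ((C ⧸ Ideal.span {g}) ⧸ Ideal.span
      {algebraMap R (C ⧸ Ideal.span {g}) x * algebraMap C (C ⧸ Ideal.span {g}) t})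
    x F G τ g g' t w u δ ι ρ l hx hxS hm.perf hm.surj hm.ker hm.greg hm.reg2 hm.reg1
    (fun _ => rfl) (fun _ => rfl) (quo_mk g) (quo_mk _) (quo_mk _) (quo_mk _) hFG hG hF hl hlx

end Pool.Agent.P.MP_46a8f8_ag.GU
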