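import Pool.Agent.P.MP_46a8f8_ag.GU.Su

/-!
Commensurable lattices over a semilocal principal ideal domain are isomorphic.
-/

namespace Pool.Agent.P.MP_46a8f8_ag.GU

open TensorProduct Function Matrix IsLocalRing

universe u

theorem pBNg : S_BNg.{u} := by
  intro R A D _ _ _ _ _ _ _ X Y hX hY hr hF
  classical
  obtain ⟨_, _⟩ := hX
  obtain ⟨_, _⟩ := hY
  have := Fintype.ofFinite (MaximalSpectrum D)
  choose F hE hF using fun 𝔪 : MaximalSpectrum D => hF 𝔪.asIdeal 𝔪.isMaximal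
  choose j hj hj1 using fun 𝔪 : MaximalSpectrum D => exists_mem_sub_one_mem 𝔪.asIdeal
  let G : X.M →ₗ[D] Y.M := ∑ 𝔪, (1 - j 𝔪) • F 𝔪
  have hGE : Eqv X Y G := fun a m => by
    simp only [G, LinearMap.sum_apply, LinearMap.smul_apply, map_sum, map_smul]
    exact Finset.sum_congr rfl fun 𝔪 _ => by rw [hE 𝔪 a m]
  have hG : ∀ (𝔪 : MaximalSpectrum D) w,
      ∃ v, G v - w ∈ (𝔪.asIdeal • ⊤ : Submodule D Y.M) := by
    intro 𝔪 w
    obtain ⟨v, hv⟩ := hF 𝔪 w
    refine ⟨v, ?_⟩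
    have e1 : G v - w = (F 𝔪 v - w) - j 𝔪 • F 𝔪 v +
        ∑ 𝔭 ∈ Finset.univ.erase 𝔪, (1 - j 𝔭) • F 𝔭 v := by
      simp only [G, LinearMap.sum_apply, LinearMap.smul_apply]
      rw [← Finset.add_sum_erase _ _ (Finset.mem_univ 𝔪), sub_smul, one_smul]
      abel
    rw [e1]
    refine Submodule.add_mem _ (Submodule.sub_mem _ hv
      (Submodule.smul_mem_smul (hj 𝔪) Submodule.mem_top)) (Submodule.sum_mem _ fun 𝔭 h𝔭 => ?_)
    refine Submodule.smul_mem_smul ?_ Submodule.mem_top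
    rw [← neg_sub]
    refine neg_mem (hj1 𝔭 _ 𝔪.isMaximal fun hle => Finset.ne_of_mem_erase h𝔭 ?_)
    exact MaximalSpectrum.ext (𝔭.isMaximal.eq_of_le 𝔪.isMaximal.ne_top hle)
  have hs : Surjective G := by
    by_contra hn
    obtain ⟨𝔪, h𝔪, hle⟩ := Ideal.exists_le_maximal
      ((LinearMap.range G).colon Set.univ) (by
        intro h
        have h1 := (Ideal.eq_top_iff_one _).1 h
        exact hn fun w => by simpa using Submodule.mem_colon.1 h1 w (Set.mem_univ w))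
    obtain ⟨r, hr, hr2⟩ := Submodule.exists_sub_one_mem_and_smul_le_of_fg_of_le_sup
      (I := 𝔪) (N := LinearMap.range G) (N' := ⊤) (P := ⊤)
      Module.Finite.fg_top le_rfl fun w _ => by
        obtain ⟨v, hv⟩ := hG ⟨𝔪, h𝔪⟩ w
        rw [show w = G v - (G v - w) by abel]
        exact Submodule.sub_mem _ (Submodule.mem_sup_left ⟨v, rfl⟩) (Submodule.mem_sup_right hv)
    have h2 : r ∈ 𝔪 := hle (Submodule.mem_colon.2 fun w _ =>
      hr2 (Submodule.smul_mem_pointwise_smul w r ⊤ Submodule.mem_top))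
    exact h𝔪.ne_top ((Ideal.eq_top_iff_one _).2 (by simpa using sub_mem h2 hr))
  let e : X.M ≃ₗ[D] Y.M := LinearEquiv.ofFinrankEq X.M Y.M hr
  have hi : Injective G := by
    have := OrzechProperty.injective_of_surjective_endomorphism
      (e.symm.toLinearMap ∘ₗ G) (e.symm.surjective.comp hs)
    exact Injective.of_comp (f := e.symm) this
  exact ⟨LinearEquiv.ofBijective G ⟨hi, hs⟩, hGE⟩

namespace BNP

/-- factoring a linear map through an injective one -/
theorem factor {D X Y Z : Type u} [CommRing D] [AddCommGroup X] [Module D X] [AddCommGroup Y]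
    [Module D Y] [AddCommGroup Z] [Module D Z] (i : X →ₗ[D] Y) (hi : Injective i) (g : Z →ₗ[D] Y)
    (h : ∀ z, ∃ x, i x = g z) : ∃ s : Z →ₗ[D] X, ∀ z, i (s z) = g z := by
  choose s hs using h
  exact ⟨⟨⟨s, fun a b => hi (by rw [map_add, hs, hs, hs, map_add])⟩,
    fun c a => hi (by rw [RingHom.id_apply, map_smul, hs, hs, map_smul])⟩, hs⟩

variable {R A D : Type u} [CommRing R] [Ring A] [Algebra R A] [CommRing D] [IsDomain D]
  [Algebra R D]

theorem smul_inj {Y : Type u} [AddCommGroup Y] [Module D Y] [Module.Free D Y] {t : D}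
    (ht : t ≠ 0) : Injective fun y : Y => t • y :=
  smul_right_injective Y ht

theorem rank_eq {X Y : RM R A D} (hX : X.FF) (hY : Y.FF) (i : X.M →ₗ[D] Y.M) (hi : Injective i)
    {d : D} (hd : d ≠ 0) (h : ∀ y, ∃ x, i x = d • y) :
    Module.finrank D X.M = Module.finrank D Y.M := by
  obtain ⟨_, _⟩ := hX
  obtain ⟨_, _⟩ := hY
  obtain ⟨s, hs⟩ := factor i hi (d • LinearMap.id) h
  refine le_antisymm (LinearMap.finrank_le_finrank_of_injective hi)
    (LinearMap.finrank_le_finrank_of_injective (f := s) fun y y' e => smul_inj hd ?_)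
  exact (hs y).symm.trans ((congrArg i e).trans (hs y'))

variable [IsPrincipalIdealRing D]

omit [IsDomain D] in
/-- an equivariant projector modulo a prime -/
theorem proj (hA : Sep R A) {X Y : RM R A D} (hY : Y.FF) (i : X.M →ₗ[D] Y.M) (hE : Eqv X Y i)
    {t : D} (ht : Irreducible t) :
    ∃ e : Y.M →ₗ[D] X.M, Eqv Y X e ∧ ∀ x, ∃ y, t • y = i x - i (e (i x)) := by
  obtain ⟨_, _⟩ := hY
  have hm := PrincipalIdealRing.isMaximal_of_irreducible ht
  let T : Submodule D Y.M := Ideal.span {t} • ⊤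
  have hT : ∀ y, y ∈ T ↔ ∃ z, t • z = y := fun y => by
    simp only [T, Submodule.ideal_span_singleton_smul, Submodule.mem_smul_pointwise_iff_exists,
      Submodule.mem_top, true_and]
  have hs : IsSemisimpleModule D (Y.M ⧸ T) := by
    let := Ideal.Quotient.field (Ideal.span {t})
    exact (Module.isTorsionBySet_quotient_ideal_smul Y.M
      (Ideal.span {t})).isSemisimpleModule_iff.1 inferInstance
  let p := T.mkQ ∘ₗ i
  obtain ⟨π, hπ⟩ := IsSemisimpleModule.extension_property (LinearMap.range p).subtype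
    (LinearMap.range p).injective_subtype LinearMap.id
  obtain ⟨f, hf⟩ := Module.projective_lifting_property p.rangeRestrict (π ∘ₗ T.mkQ)
    p.surjective_rangeRestrict
  have hf1 : ∀ x, i x - i (f (i x)) ∈ T := fun x => by
    refine (Submodule.Quotient.eq T).1 ?_
    have e1 := congrArg Subtype.val (LinearMap.congr_fun hf (i x))
    have e2 := congrArg Subtype.val (LinearMap.congr_fun hπ ⟨p x, x, rfl⟩)
    exact (e1.trans e2).symm
  obtain ⟨k, a, b, h1, hc⟩ := hA.sep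
  refine ⟨av a b Y X f, av_eqv hc Y X f, fun x => (hT _).1 ?_⟩
  rw [av_apply, map_sum, ← sum_rho h1 Y (i x), ← Finset.sum_sub_distrib]
  refine Submodule.sum_mem _ fun j _ => ?_
  obtain ⟨z, hz⟩ := (hT _).1 (hf1 (X.ρ (b j) x))
  refine (hT _).2 ⟨Y.ρ (a j) z, ?_⟩
  rw [← map_smul, hz, map_sub, hE (a j), hE (b j), sum_rho h1]

/-- an equivariant map onto modulo a prime -/
theorem onto (hA : Sep R A) {X Y : RM R A D} (hY : Y.FF) (i : X.M →ₗ[D] Y.M) (hE : Eqv X Y i)
    {t : D} (ht : Irreducible t) (h : ∀ y, ∃ x, i x = t • y) :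
    ∃ F : X.M →ₗ[D] Y.M, Eqv X Y F ∧ ∀ y, ∃ x z, F x - y = t • z := by
  obtain ⟨e, he, h1⟩ := proj hA hY i hE ht
  obtain ⟨_, _⟩ := hY
  have hi : Injective fun y : Y.M => t • y := smul_inj ht.ne_zero
  obtain ⟨s, hs⟩ := factor (t • LinearMap.id : Y.M →ₗ[D] Y.M) hi (i - i ∘ₗ e ∘ₗ i) h1
  have hs' : ∀ x, t • s x = i x - i (e (i x)) := hs
  have hsE : Eqv X Y s := fun a m => hi (by
    change t • s _ = t • Y.ρ a _
    rw [← map_smul (Y.ρ a), hs', hs', map_sub, hE, he, hE])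
  refine ⟨i ∘ₗ e ∘ₗ i + s - i ∘ₗ e ∘ₗ s, fun a m => ?_, fun q => ?_⟩
  · simp only [LinearMap.sub_apply, LinearMap.add_apply, LinearMap.comp_apply, map_add, map_sub]
    rw [hE, he, hE, hsE, he, hE]
  obtain ⟨x0, hx0⟩ := h q
  have e1 : s (e (i (e q)) + x0) = i (e (s (e q))) + q - i (e q) := hi (by
    change t • s _ = t • _
    rw [hs', smul_sub, smul_add, ← map_smul i t (e (s _)), ← map_smul e t (s _), hs']
    simp only [map_add, map_sub, hx0, map_smul]
    abel)
  refine ⟨e (i (e q)) + x0,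
    i (e q) + s (e (s (e q))) - s (e (i (e q))) - s (e q) - s (e q), ?_⟩
  simp only [LinearMap.sub_apply, LinearMap.add_apply, LinearMap.comp_apply]
  rw [e1]
  simp only [smul_sub, smul_add, hs', map_add, map_sub, hx0, map_smul]
  abel

variable [Finite (MaximalSpectrum D)]

theorem step (h1 : S_BNg.{u}) (hA : Sep R A) {X Y : RM R A D} (hX : X.FF) (hY : Y.FF)
    (i : X.M →ₗ[D] Y.M) (hE : Eqv X Y i) (hi : Injective i) {t : D} (ht : Irreducible t)
    (h : ∀ y, ∃ x, i x = t • y) : X.Iso Y := by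
  refine h1 R A D X Y hX hY (rank_eq hX hY i hi ht.ne_zero h) fun 𝔪 h𝔪 => ?_
  by_cases htm : t ∈ 𝔪
  · obtain ⟨F, hF, h2⟩ := onto hA hY i hE ht h
    refine ⟨F, hF, fun y => ?_⟩
    obtain ⟨x, z, e⟩ := h2 y
    exact ⟨x, e ▸ Submodule.smul_mem_smul htm Submodule.mem_top⟩
  · obtain ⟨c, m, hm, e⟩ := h𝔪.exists_inv htm
    refine ⟨i, hE, fun y => ?_⟩
    obtain ⟨x, hx⟩ := h (c • y)
    refine ⟨x, ?_⟩
    have e2 : i x - y = (-m) • y := by
      rw [hx, smul_smul, show -m = t * c - 1 by linear_combination -e, sub_smul, one_smul]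
    exact e2 ▸ Submodule.smul_mem_smul (neg_mem hm) Submodule.mem_top

omit [Finite (MaximalSpectrum D)] in
theorem ff_sub {Y : RM R A D} (hY : Y.FF) (N : Submodule D Y.M) (h : Y.Stab N) :
    (Y.sub N h).FF := by
  obtain ⟨_, _⟩ := hY
  exact ⟨inferInstanceAs (Module.Free D N), inferInstanceAs (Module.Finite D N)⟩

theorem main (h1 : S_BNg.{u}) (hA : Sep R A) {Y : RM R A D} (hY : Y.FF) (d : D) :
    d ≠ 0 → ∀ (X : RM R A D), X.FF → ∀ i : X.M →ₗ[D] Y.M, Eqv X Y i → Injective i →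
      (∀ y, ∃ x, i x = d • y) → X.Iso Y := by
  induction d using WfDvdMonoid.induction_on_irreducible with
  | zero => exact fun h => (h rfl).elim
  | unit v hv =>
    intro _ X _ i hE hi h
    obtain ⟨v, rfl⟩ := hv
    refine ⟨LinearEquiv.ofBijective i ⟨hi, fun y => ?_⟩, hE⟩
    obtain ⟨x, hx⟩ := h ((↑v⁻¹ : D) • y)
    exact ⟨x, by rw [hx, smul_smul, Units.mul_inv, one_smul]⟩
  | mul d t hd ht ih =>
    intro _ X hX i hE hi h
    let g : Y.M →ₗ[D] Y.M := d • LinearMap.id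
    have hg : Eqv Y Y g := fun a m => (map_smul (Y.ρ a) d m).symm
    let P : Submodule D Y.M := LinearMap.range i ⊔ LinearMap.range g
    have hP : Y.Stab P := hE.range.sup hg.range
    have h2 : (Y.sub P hP).Iso Y := ih hd (Y.sub P hP) (ff_sub hY P hP) P.subtype
      (Y.eqv_subtype P hP) P.injective_subtype
      fun y => ⟨⟨d • y, Submodule.mem_sup_right ⟨y, rfl⟩⟩, rfl⟩
    refine RM.Iso.trans (step h1 hA hX (ff_sub hY P hP)
      (i.codRestrict P fun x => Submodule.mem_sup_left ⟨x, rfl⟩)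
      (fun a m => Subtype.ext (hE a m)) (fun x x' e => hi (congrArg Subtype.val e)) ht ?_) h2
    rintro ⟨p, hp⟩
    obtain ⟨_, ⟨x, rfl⟩, _, ⟨y, rfl⟩, rfl⟩ := Submodule.mem_sup.1 hp
    obtain ⟨x', hx'⟩ := h y
    refine ⟨t • x + x', Subtype.ext ?_⟩
    change i (t • x + x') = t • (i x + d • y)
    rw [map_add, map_smul, hx', smul_add, smul_smul]

end BNP

theorem pBN (h1 : S_BNg.{u}) : S_BN.{u} := by
  intro R A D _ _ _ _ _ _ _ _ Y N h d hA hY hd hN
  exact BNP.main h1 hA hY d hd (Y.sub N h) (BNP.ff_sub hY N h) N.subtype (Y.eqv_subtype N h)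
    N.injective_subtype fun y => ⟨⟨d • y, hN y⟩, rfl⟩

end Pool.Agent.P.MP_46a8f8_ag.GU
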