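import Pool.Agent.P.MP_46a8f8_ag.GU.Spec
import Pool.Agent.P.MP_46a8f8_ag.Pd
import Pool.Agent.P.MP_46a8f8_ag.Reg1
import Pool.Agent.P.MP_46a8f8_ag.Reg2

/-!
Toolbox for the unitary case.
-/

namespace Pool.Agent.P.MP_46a8f8_ag.GU

open TensorProduct Function Matrix IsLocalRing

universe u

/-! ### regular local rings -/

theorem rQuot : S_RegQuot.{u} := regQuot regAt cut

theorem rDom : S_RegDom.{u} := regDom rQuot

theorem rPd : S_PdReg.{u} := pdReg rQuot rDom

/-- a module with a regular parameter acting regularly has smaller projective dimension -/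
theorem pd_of_reg {O : Type u} [CommRing O] [IsRegularLocalRing O] (d : ℕ)
    (hd : ringKrullDim O = ((d + 1 : ℕ) : WithBot ℕ∞)) {z : O} (hz : z ∈ maximalIdeal O)
    (hz2 : z ∉ maximalIdeal O ^ 2) (Y : Type u) [AddCommGroup Y] [Module O Y] [Module.Finite O Y]
    (h : IsSMulRegular Y z) : PD O Y d := by
  have := rDom O
  obtain ⟨h1, h2⟩ := rQuot O z hz hz2
  have hz0 : z ≠ 0 := fun e => hz2 (e ▸ Submodule.zero_mem _)
  have hO : IsSMulRegular O z := fun a b hab => mul_left_cancel₀ hz0 hab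
  have : Module.Finite (O ⧸ Ideal.span {z}) (QuotSMulTop z Y) :=
    Module.Finite.of_restrictScalars_finite O _ _
  exact PdP.lift z hz hO d _ h (rPd d _ (PdP.dim_eq (h2.trans hd)) _)

theorem not_le_sq3 {O : Type u} [CommRing O] [IsRegularLocalRing O] (hd : ringKrullDim O = 3) :
    ¬ maximalIdeal O ≤ maximalIdeal O ^ 2 :=
  PdP.not_le_sq 2 hd

/-- a second syzygy is projective -/
theorem proj_of_pd2 {O Z P Q Y : Type u} [Ring O] [AddCommGroup Z] [Module O Z] [AddCommGroup P]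
    [Module O P] [AddCommGroup Q] [Module O Q] [AddCommGroup Y] [Module O Y]
    [Module.Projective O P] [Module.Projective O Q] (f : Z →ₗ[O] P) (g : P →ₗ[O] Q)
    (h : Q →ₗ[O] Y) (hf : Injective f) (hfg : Exact f g) (hgh : Exact g h) (hh : Surjective h)
    (hY : PD O Y 2) : Module.Projective O Z := by
  have h1 : PD O (LinearMap.ker h) 1 :=
    PD.left (LinearMap.ker h).subtype h (LinearMap.ker h).injective_subtype
      (LinearMap.exact_subtype_ker_map h) hh (PD.of_projective 1) hY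
  let g' : P →ₗ[O] LinearMap.ker h := g.codRestrict _ fun p => hgh.apply_apply_eq_zero p
  have hg' : Surjective g' := fun y => by
    obtain ⟨p, hp⟩ := (hgh y).1 y.2
    exact ⟨p, Subtype.ext hp⟩
  have hex : Exact f g' := fun p =>
    ⟨fun hp => (hfg p).1 (congrArg Subtype.val hp), fun hp => Subtype.ext ((hfg p).2 hp)⟩
  exact pd_zero_iff.1 (PD.left f g' hf hex hg' (PD.of_projective 0) h1)

/-! ### regular sequences of length two -/

section rs

variable {R : Type u} [CommRing R] [IsDomain R] {F G : R}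

theorem RS.symm (h : RS F G) : RS G F :=
  ⟨h.2.1, h.1, fun u v e => by
    obtain ⟨w, rfl⟩ := h.2.2 v u e.symm
    exact ⟨w, mul_left_cancel₀ h.1 (by rw [e]; ring)⟩⟩

theorem RS.dvd (h : RS F G) {r u : R} (h1 : r ∣ F * u) (h2 : r ∣ G * u) : r ∣ u := by
  by_cases hr : r = 0
  · subst hr
    rw [zero_dvd_iff] at h1 ⊢
    exact (mul_eq_zero.1 h1).resolve_left h.1
  obtain ⟨a, ha⟩ := h1
  obtain ⟨b, hb⟩ := h2
  obtain ⟨c, rfl⟩ := h.2.2 a b (mul_left_cancel₀ hr (by linear_combination F * hb - G * ha))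
  exact ⟨c, mul_left_cancel₀ h.1 (by rw [ha]; ring)⟩

omit [IsDomain R] in
/-- the same in a free module -/
theorem RS.free (h : RS F G) {M : Type u} [AddCommGroup M] [Module R M] [Module.Free R M]
    {x y : M} (e : G • x = F • y) : ∃ w, x = F • w := by
  let b := Module.Free.chooseBasis R M
  have h1 : ∀ i, ∃ c, b.repr x i = F * c := fun i => h.2.2 _ (b.repr y i) (by
    have := congrArg (fun v => b.repr v i) e
    simpa using this)
  choose c hc using h1
  refine ⟨∑ i ∈ (b.repr x).support, c i • b i, ?_⟩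
  rw [Finset.smul_sum]
  conv_lhs => rw [← b.linearCombination_repr x, Finsupp.linearCombination_apply, Finsupp.sum]
  exact Finset.sum_congr rfl fun i _ => by rw [hc, mul_smul]

omit [IsDomain R] in
theorem mk_eq_zero {r : R} : Ideal.Quotient.mk (Ideal.span {F, G}) r = 0 ↔
    ∃ a b, a * F + b * G = r := by
  rw [Ideal.Quotient.eq_zero_iff_mem, Ideal.mem_span_pair]

omit [IsDomain R] in
theorem smul_bq_left (v : BQ F G) : F • v = 0 := by
  obtain ⟨v, rfl⟩ := Ideal.Quotient.mk_surjective v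
  exact mk_eq_zero.2 ⟨v, 0, by simp [mul_comm]⟩

omit [IsDomain R] in
theorem smul_bq_right (v : BQ F G) : G • v = 0 := by
  obtain ⟨v, rfl⟩ := Ideal.Quotient.mk_surjective v
  exact mk_eq_zero.2 ⟨0, v, by simp [mul_comm]⟩

end rs

theorem usmul_usmul {V : Type*} [AddCommGroup V] (δ : ℤˣ) (v : V) : δ • δ • v = v := by
  rw [smul_smul, Int.units_mul_self, one_smul]

theorem two_unit (R A C : Type u) [CommRing R] [Ring A] [Algebra R A] [StarRing A] [SA R A]
    [CommRing C] [Algebra R C] : IsUnit (2 : C) := by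
  have := (SA.two (R := R) (A := A)).map (algebraMap R C)
  rwa [map_ofNat] at this

/-! ### averaging -/

section av

variable {R A C : Type u} [CommRing R] [Ring A] [Algebra R A] [CommRing C] [Algebra R C]

theorem Eqv.comp {C' C'' : Type u} [CommRing C'] [Algebra R C'] [CommRing C''] [Algebra R C'']
    {X : RM R A C} {Y : RM R A C'} {Z : RM R A C''} {g : Y.M → Z.M} {f : X.M → Y.M}
    (hg : Eqv Y Z g) (hf : Eqv X Y f) : Eqv X Z (fun x => g (f x)) :=
  fun a m => by rw [← hg, ← hf]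

theorem Eqv.symm {X Y : RM R A C} {e : X.M ≃ₗ[C] Y.M} (h : Eqv X Y e) : Eqv Y X e.symm :=
  fun a m => e.injective (by rw [h, e.apply_symm_apply, e.apply_symm_apply])

theorem Eqv.ker {X Y : RM R A C} {f : X.M →ₗ[C] Y.M} (h : Eqv X Y f) :
    X.Stab (LinearMap.ker f) := fun a m hm => by
  rw [LinearMap.mem_ker] at hm ⊢
  rw [h, hm, map_zero]

theorem Eqv.range {X Y : RM R A C} {f : X.M →ₗ[C] Y.M} (h : Eqv X Y f) :
    Y.Stab (LinearMap.range f) := by
  rintro a _ ⟨m, rfl⟩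
  exact ⟨_, h a m⟩

theorem Eqv.map {X Y : RM R A C} {f : X.M →ₗ[C] Y.M} (h : Eqv X Y f) {N : Submodule C X.M}
    (hN : X.Stab N) : Y.Stab (N.map f) := by
  rintro a _ ⟨m, hm, rfl⟩
  exact ⟨_, hN a m hm, h a m⟩

theorem Eqv.comap {X Y : RM R A C} {f : X.M →ₗ[C] Y.M} (h : Eqv X Y f) {N : Submodule C Y.M}
    (hN : Y.Stab N) : X.Stab (N.comap f) := fun a m hm => by
  rw [Submodule.mem_comap, h]
  exact hN a _ hm

theorem RM.Stab.inf {X : RM R A C} {N N' : Submodule C X.M} (h : X.Stab N) (h' : X.Stab N') :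
    X.Stab (N ⊓ N') := fun a m hm => ⟨h a m hm.1, h' a m hm.2⟩

theorem RM.Stab.sup {X : RM R A C} {N N' : Submodule C X.M} (h : X.Stab N) (h' : X.Stab N') :
    X.Stab (N ⊔ N') := fun a m hm => by
  obtain ⟨y, hy, z, hz, rfl⟩ := Submodule.mem_sup.1 hm
  rw [map_add]
  exact Submodule.add_mem_sup (h a y hy) (h' a z hz)

theorem RM.stab_bot (X : RM R A C) : X.Stab ⊥ := fun a m hm => by
  rw [(Submodule.mem_bot C).1 hm, map_zero]
  exact Submodule.zero_mem _

theorem RM.stab_top (X : RM R A C) : X.Stab ⊤ := fun _ _ _ => trivial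

theorem RM.eqv_subtype (X : RM R A C) (N : Submodule C X.M) (h : X.Stab N) :
    Eqv (X.sub N h) X N.subtype := fun _ _ => rfl

theorem RM.eqv_mkQ (X : RM R A C) (N : Submodule C X.M) (h : X.Stab N) :
    Eqv X (X.quot N h) N.mkQ := fun _ _ => rfl

theorem RM.Iso.refl (X : RM R A C) : X.Iso X := ⟨LinearEquiv.refl C _, fun _ _ => rfl⟩

theorem RM.Iso.symm {X Y : RM R A C} (h : X.Iso Y) : Y.Iso X :=
  h.elim fun e he => ⟨e.symm, he.symm⟩

theorem RM.Iso.trans {X Y Z : RM R A C} (h : X.Iso Y) (h' : Y.Iso Z) : X.Iso Z :=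
  h.elim fun e he => h'.elim fun e' he' => ⟨e.trans e', he'.comp he⟩

theorem RM.Iso.prod {X Y X' Y' : RM R A C} (h : X.Iso X') (h' : Y.Iso Y') :
    (X.prod Y).Iso (X'.prod Y') :=
  h.elim fun e he => h'.elim fun e' he' =>
    ⟨e.prodCongr e', fun a m => Prod.ext (he a m.1) (he' a m.2)⟩

theorem RM.FF.prod {X Y : RM R A C} (h : X.FF) (h' : Y.FF) : (X.prod Y).FF := by
  obtain ⟨_, _⟩ := h
  obtain ⟨_, _⟩ := h'
  exact ⟨inferInstanceAs (Module.Free C (X.M × Y.M)), inferInstanceAs (Module.Finite C (X.M × Y.M))⟩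

/-- the average of a linear map -/
def av {k : ℕ} (a b : Fin k → A) (X Y : RM R A C) (f : X.M →ₗ[C] Y.M) : X.M →ₗ[C] Y.M :=
  ∑ i, Y.ρ (a i) ∘ₗ f ∘ₗ X.ρ (b i)

theorem av_apply {k : ℕ} (a b : Fin k → A) (X Y : RM R A C) (f : X.M →ₗ[C] Y.M) (x : X.M) :
    av a b X Y f x = ∑ i, Y.ρ (a i) (f (X.ρ (b i) x)) := by
  simp [av]

theorem av_eqv {k : ℕ} {a b : Fin k → A}
    (hc : ∀ c : A, ∑ i, (c * a i) ⊗ₜ[R] b i = ∑ i, a i ⊗ₜ[R] (b i * c)) (X Y : RM R A C)
    (f : X.M →ₗ[C] Y.M) : Eqv X Y (av a b X Y f) := by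
  intro c x
  let : Module R Y.M := Module.compHom Y.M (algebraMap R C)
  let B : A →ₗ[R] A →ₗ[R] Y.M := LinearMap.mk₂ R (fun s t => Y.ρ s (f (X.ρ t x)))
    (fun s s' t => by simp)
    (fun r s t => by
      rw [Algebra.smul_def, map_mul, Module.End.mul_apply, Y.alg]
      rfl)
    (fun s t t' => by simp)
    (fun r s t => by
      rw [Algebra.smul_def, map_mul, Module.End.mul_apply, X.alg, map_smul, map_smul]
      rfl)
  have := congrArg (TensorProduct.lift B) (hc c)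
  simp only [map_sum, TensorProduct.lift.tmul, B, LinearMap.mk₂_apply, map_mul,
    Module.End.mul_apply] at this
  rw [av_apply, av_apply, map_sum, this]

theorem sum_rho {k : ℕ} {a b : Fin k → A} (h1 : ∑ i, a i * b i = 1) (Y : RM R A C) (y : Y.M) :
    ∑ i, Y.ρ (a i) (Y.ρ (b i) y) = y := by
  have := congrArg (fun s => Y.ρ s y) h1
  simpa [map_sum] using this

variable [StarRing A] [SA R A]

/-- a lifting problem solvable over `C` has an equivariant solution -/
theorem Eqv.lift {X Y Z : RM R A C} {p : Y.M →ₗ[C] Z.M} {g : X.M →ₗ[C] Z.M} (hp : Eqv Y Z p)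
    (hg : Eqv X Z g) (f : X.M →ₗ[C] Y.M) (hf : ∀ x, p (f x) = g x) :
    ∃ f' : X.M →ₗ[C] Y.M, Eqv X Y f' ∧ ∀ x, p (f' x) = g x := by
  obtain ⟨k, a, b, h1, hc⟩ := SA.sep (R := R) (A := A)
  refine ⟨av a b X Y f, av_eqv hc X Y f, fun x => ?_⟩
  rw [av_apply, map_sum, Finset.sum_congr rfl fun i _ => by rw [hp, hf, hg], sum_rho h1]

/-- an extension problem solvable over `C` has an equivariant solution -/
theorem Eqv.extend {X X' Y : RM R A C} {i : X'.M →ₗ[C] X.M} {g : X'.M →ₗ[C] Y.M}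
    (hi : Eqv X' X i) (hg : Eqv X' Y g) (f : X.M →ₗ[C] Y.M) (hf : ∀ x, f (i x) = g x) :
    ∃ f' : X.M →ₗ[C] Y.M, Eqv X Y f' ∧ ∀ x, f' (i x) = g x := by
  obtain ⟨k, a, b, h1, hc⟩ := SA.sep (R := R) (A := A)
  refine ⟨av a b X Y f, av_eqv hc X Y f, fun x => ?_⟩
  rw [av_apply, Finset.sum_congr rfl fun j _ => by rw [← hi, hf, hg], sum_rho h1]

/-- equivariant lifting from a projective module -/
theorem Eqv.lift_proj {X Y Z : RM R A C} [Module.Projective C X.M] {p : Y.M →ₗ[C] Z.M}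
    {g : X.M →ₗ[C] Z.M} (hp : Eqv Y Z p) (hg : Eqv X Z g) (h : ∀ x, ∃ y, p y = g x) :
    ∃ f : X.M →ₗ[C] Y.M, Eqv X Y f ∧ ∀ x, p (f x) = g x := by
  obtain ⟨f, hf⟩ := Module.projective_lifting_property p.rangeRestrict
    (g.codRestrict (LinearMap.range p) h) p.surjective_rangeRestrict
  exact hp.lift hg f fun x => congrArg Subtype.val (LinearMap.congr_fun hf x)

/-- an equivariant projector onto a stable direct summand -/
theorem RM.Stab.exists_proj {X : RM R A C} {N : Submodule C X.M} (h : X.Stab N)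
    (f : X.M →ₗ[C] N) (hf : ∀ y : N, f y = y) :
    ∃ e : X.M →ₗ[C] X.M, Eqv X X e ∧ (∀ x, e x ∈ N) ∧ ∀ x ∈ N, e x = x := by
  obtain ⟨f', h1, h2⟩ := (X.eqv_subtype N h).extend (Y := X.sub N h) (g := LinearMap.id)
    (fun _ _ => rfl) f hf
  exact ⟨N.subtype ∘ₗ f', (X.eqv_subtype N h).comp h1, fun x => (f' x).2,
    fun x hx => congrArg Subtype.val (h2 ⟨x, hx⟩)⟩

theorem RM.FF.dual {X : RM R A C} (h : X.FF) : X.dual.FF := by
  obtain ⟨_, _⟩ := h
  exact ⟨inferInstanceAs (Module.Free C (Module.Dual C X.M)),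
    inferInstanceAs (Module.Finite C (Module.Dual C X.M))⟩

theorem Eqv.dualMap {X Y : RM R A C} {f : X.M →ₗ[C] Y.M} (h : Eqv X Y f) :
    Eqv Y.dual X.dual f.dualMap := fun a ξ => LinearMap.ext fun x => by
  change ξ (Y.ρ (star a) (f x)) = ξ (f (X.ρ (star a) x))
  rw [h]

theorem RM.reg_ff : (RM.reg R A).FF := ⟨SA.free, SA.fin⟩

end av

section fld

variable {R A k : Type u} [CommRing R] [Ring A] [Algebra R A] [Field k] [Algebra R k]
  [StarRing A] [SA R A]

/-- over a field: an equivariant projector onto any stable subspace -/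
theorem RM.Stab.proj {X : RM R A k} {N : Submodule k X.M} (h : X.Stab N) :
    ∃ e : X.M →ₗ[k] X.M, Eqv X X e ∧ (∀ x, e x ∈ N) ∧ ∀ x ∈ N, e x = x := by
  obtain ⟨N', hN'⟩ := N.exists_isCompl
  exact h.exists_proj (N.projectionOnto N' hN') fun y =>
    Submodule.projectionOnto_apply_left hN' y

/-- over a field: a stable complement inside a stable subspace -/
theorem RM.Stab.compl_in {X : RM R A k} {N P : Submodule k X.M} (h : X.Stab N) (hP : X.Stab P)
    (hle : N ≤ P) : ∃ N', X.Stab N' ∧ Disjoint N N' ∧ N ⊔ N' = P := by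
  obtain ⟨e, h1, h2, h3⟩ := h.proj
  refine ⟨LinearMap.ker e ⊓ P, h1.ker.inf hP, ?_, le_antisymm (sup_le hle inf_le_right) ?_⟩
  · rw [Submodule.disjoint_def]
    exact fun x hx hx' => (h3 x hx).symm.trans hx'.1
  · intro x hx
    have : x = e x + (x - e x) := by abel
    rw [this]
    refine Submodule.add_mem_sup (h2 x) ⟨?_, P.sub_mem hx (hle (h2 x))⟩
    change e _ = 0
    rw [map_sub, h3 _ (h2 x), sub_self]

/-- over a field: a stable complement -/
theorem RM.Stab.compl {X : RM R A k} {N : Submodule k X.M} (h : X.Stab N) :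
    ∃ N', X.Stab N' ∧ IsCompl N N' := by
  obtain ⟨N', h1, h2, h3⟩ := h.compl_in X.stab_top le_top
  exact ⟨N', h1, h2, codisjoint_iff.2 h3⟩

end fld

/-! ### matrix representations -/

section mrep

variable {R A C : Type u} [CommRing R] [Ring A] [Algebra R A] [CommRing C] [Algebra R C]
  {ι ι' : Type} [Fintype ι] [DecidableEq ι] [Fintype ι'] [DecidableEq ι']

theorem MRep.rm_apply (ρ : MRep R A C ι) (a : A) (v : ι → C) : ρ.rm.ρ a v = ρ.ρ a *ᵥ v := rfl

theorem MRep.map_apply (ρ : MRep R A C ι) {C' : Type u} [CommRing C'] [Algebra R C']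
    (q : C →ₐ[R] C') (a : A) : (ρ.map q).ρ a = (ρ.ρ a).map q := rfl

theorem MRep.sum_apply (ρ : MRep R A C ι) (ρ' : MRep R A C ι') (a : A) :
    (ρ.sum ρ').ρ a = fromBlocks (ρ.ρ a) 0 0 (ρ'.ρ a) := rfl

theorem MRep.rm_ff (ρ : MRep R A C ι) : ρ.rm.FF :=
  ⟨inferInstanceAs (Module.Free C (ι → C)), inferInstanceAs (Module.Finite C (ι → C))⟩

variable [StarRing A]

theorem MRep.dual_apply [SA R A] (ρ : MRep R A C ι) (a : A) :
    ρ.dual.ρ a = (ρ.ρ (star a))ᵀ := rfl

theorem SymAdj.congr {δ : ℤˣ} {ρ ρ' : MRep R A C ι} {l : Matrix ι ι C} (h : SymAdj δ ρ l)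
    (e : ∀ a, ρ.ρ a = ρ'.ρ a) : SymAdj δ ρ' l :=
  ⟨h.1, fun a => by rw [← e, ← e, h.2]⟩

theorem SymAdj.map {δ : ℤˣ} {ρ : MRep R A C ι} {l : Matrix ι ι C} (h : SymAdj δ ρ l)
    {C' : Type u} [CommRing C'] [Algebra R C'] (q : C →ₐ[R] C') :
    SymAdj δ (ρ.map q) (l.map q) := by
  refine ⟨?_, fun a => ?_⟩
  · rw [← transpose_map, h.1]
    ext i j
    rcases Int.units_eq_one_or δ with rfl | rfl <;> simp
  · rw [MRep.map_apply, MRep.map_apply, ← transpose_map, ← Matrix.map_mul, ← Matrix.map_mul, h.2]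

theorem SymAdj.dot {δ : ℤˣ} {ρ : MRep R A C ι} {l : Matrix ι ι C} (h : SymAdj δ ρ l)
    (v w : ι → C) : w ⬝ᵥ l *ᵥ v = δ • (v ⬝ᵥ l *ᵥ w) := by
  rw [dotProduct_mulVec, ← mulVec_transpose, h.1, smul_mulVec, smul_dotProduct, dotProduct_comm]

end mrep

end Pool.Agent.P.MP_46a8f8_ag.GU
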