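import Pool.Agent.P.MP_46a8f8_ag.GU.Base

/-!
Toolbox for the unitary case: forms and complexes.
-/

namespace Pool.Agent.P.MP_46a8f8_ag.GU

open TensorProduct Function Matrix IsLocalRing

universe u

theorem usmul_eq_zero {V : Type*} [AddCommGroup V] (δ : ℤˣ) {v : V} (h : δ • v = 0) : v = 0 := by
  rw [← usmul_usmul δ v, h, smul_zero]

theorem lin_pi {C ι W : Type*} [CommRing C] [Fintype ι] [DecidableEq ι] [AddCommGroup W]
    [Module C W] (ψ : (ι → C) →ₗ[C] W) (y : ι → C) : ψ y = ∑ i, y i • ψ (Pi.single i 1) := by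
  conv_lhs => rw [pi_eq_sum_univ' y]
  simp only [map_sum, map_smul]

section fm

variable {R A C V : Type u} [CommRing R] [Ring A] [Algebra R A] [CommRing C] [Algebra R C]
  [AddCommGroup V] [Module C V] {E E' E'' : FM R A C V}

theorem FM.mem_perp {N : Submodule C E.M} {x : E.M} :
    x ∈ E.perp N ↔ ∀ y ∈ N, E.b x y = 0 := Iff.rfl

theorem FM.perp_mono {N N' : Submodule C E.M} (h : N ≤ N') : E.perp N' ≤ E.perp N :=
  fun _ hx y hy => hx y (h hy)

theorem FM.perp_sup (N N' : Submodule C E.M) : E.perp (N ⊔ N') = E.perp N ⊓ E.perp N' := by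
  refine le_antisymm (le_inf (FM.perp_mono le_sup_left) (FM.perp_mono le_sup_right)) ?_
  intro x hx y hy
  obtain ⟨a, ha, b, hb, rfl⟩ := Submodule.mem_sup.1 hy
  rw [map_add, hx.1 a ha, hx.2 b hb, add_zero]

theorem FM.IsLag.mem {N : Submodule C E.M} (h : E.IsLag N) {x : E.M} :
    x ∈ N ↔ ∀ y ∈ N, E.b x y = 0 := by
  rw [← FM.mem_perp, h.2]

theorem FM.IsLag.isot {N : Submodule C E.M} (h : E.IsLag N) : E.Isot N := fun _ hx => h.mem.1 hx

theorem FM.sum_b (E E' : FM R A C V) (x y : E.M × E'.M) :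
    (E.sum E').b x y = E.b x.1 y.1 + E'.b x.2 y.2 := rfl

theorem FM.sum_rho (E E' : FM R A C V) (a : A) (x : E.M × E'.M) :
    (E.sum E').ρ a x = (E.ρ a x.1, E'.ρ a x.2) := rfl

theorem FM.neg_b (E : FM R A C V) (x y : E.M) : E.neg.b x y = -E.b x y := rfl

theorem FM.Perf.eq_zero (h : E.Perf) {x : E.M} (hx : ∀ y, E.b x y = 0) : x = 0 :=
  h.1 (by rw [map_zero]; exact LinearMap.ext hx)

theorem FM.Perf.ext (h : E.Perf) {x x' : E.M} (hx : ∀ y, E.b x y = E.b x' y) : x = x' :=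
  h.1 (LinearMap.ext hx)

theorem FM.Perf.exists (h : E.Perf) (ψ : E.M →ₗ[C] V) : ∃ x, ∀ y, E.b x y = ψ y :=
  (h.2 ψ).imp fun _ hx y => LinearMap.congr_fun hx y

theorem FM.perf_of (h1 : ∀ x, (∀ y, E.b x y = 0) → x = 0)
    (h2 : ∀ ψ : E.M →ₗ[C] V, ∃ x, ∀ y, E.b x y = ψ y) : E.Perf :=
  ⟨(injective_iff_map_eq_zero _).2 fun x hx => h1 x fun y => LinearMap.congr_fun hx y,
    fun ψ => (h2 ψ).imp fun _ hx => LinearMap.ext hx⟩

/-- a bilinear map is represented by an endomorphism -/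
theorem FM.Perf.exists_end (h : E.Perf) {X : Type u} [AddCommGroup X] [Module C X]
    (B : X →ₗ[C] E.M →ₗ[C] V) : ∃ n : X →ₗ[C] E.M, ∀ x y, E.b (n x) y = B x y :=
  ⟨(LinearEquiv.ofBijective E.b h).symm.toLinearMap ∘ₗ B, fun x y =>
    LinearMap.congr_fun ((LinearEquiv.ofBijective E.b h).apply_symm_apply (B x)) y⟩

theorem FM.Perf.neg (h : E.Perf) : E.neg.Perf :=
  FM.perf_of (fun x hx => h.eq_zero fun y => neg_eq_zero.1 (hx y)) fun ψ =>
    (h.exists (-ψ)).imp fun x hx y => by rw [FM.neg_b, hx, LinearMap.neg_apply, neg_neg]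

theorem FM.Perf.sum (h : E.Perf) (h' : E'.Perf) : (E.sum E').Perf := by
  refine FM.perf_of (fun x hx => Prod.ext (h.eq_zero fun y => ?_) (h'.eq_zero fun y => ?_))
    fun ψ => ?_
  · simpa [FM.sum_b] using hx (y, 0)
  · simpa [FM.sum_b] using hx (0, y)
  · obtain ⟨x, hx⟩ := h.exists (ψ ∘ₗ LinearMap.inl C E.M E'.M)
    obtain ⟨x', hx'⟩ := h'.exists (ψ ∘ₗ LinearMap.inr C E.M E'.M)
    refine ⟨(x, x'), fun y => ?_⟩
    rw [FM.sum_b, hx, hx', LinearMap.comp_apply, LinearMap.comp_apply, ← map_add]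
    simp

theorem FM.Perf.reg (h : E.Perf) {z : C} (hz : IsSMulRegular V z) : IsSMulRegular E.M z :=
  fun x x' e => h.ext fun y => hz (by
    have := congrArg (fun v => E.b v y) e
    simpa using this)

theorem FM.IsProj.isLag {e : E.M →ₗ[C] E.M} (he : E.IsProj e) (h : E.Perf) :
    E.IsLag (LinearMap.range e) := by
  refine ⟨he.1.range, le_antisymm ?_ ?_⟩
  · intro x hx
    refine ⟨x, h.ext fun y => ?_⟩
    rw [← he.2.2 x y, hx _ ⟨y, rfl⟩, add_zero]
  · rintro _ ⟨x, rfl⟩ _ ⟨y, rfl⟩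
    have := he.2.2 (e x) y
    rwa [he.2.1, add_eq_left] at this

theorem FM.IsProj.compl {e : E.M →ₗ[C] E.M} (he : E.IsProj e) : E.IsProj (LinearMap.id - e) :=
  ⟨fun a m => by simp [he.1 a m], fun x => by simp [he.2.1], fun x y => by
    simp only [LinearMap.sub_apply, LinearMap.id_apply, map_sub]
    rw [← he.2.2 x y]
    abel⟩

theorem FM.Hyp.neg (h : E.Hyp) : E.neg.Hyp :=
  h.imp fun _ he => ⟨he.1, he.2.1, fun x y => by
    rw [FM.neg_b, FM.neg_b, FM.neg_b, ← neg_add, he.2.2]⟩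

theorem FM.Hyp.sum (h : E.Hyp) (h' : E'.Hyp) : (E.sum E').Hyp := by
  obtain ⟨e, he⟩ := h
  obtain ⟨e', he'⟩ := h'
  refine ⟨e.prodMap e', fun a m => Prod.ext (he.1 a m.1) (he'.1 a m.2),
    fun x => Prod.ext (he.2.1 x.1) (he'.2.1 x.2), fun x y => ?_⟩
  rw [FM.sum_b, FM.sum_b, FM.sum_b, ← he.2.2 x.1 y.1, ← he'.2.2 x.2 y.2]
  exact add_add_add_comm _ _ _ _

theorem FM.Iso.refl (E : FM R A C V) : E.Iso E :=
  ⟨LinearEquiv.refl C _, fun _ _ => rfl, fun _ _ => rfl⟩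

theorem FM.Iso.symm (h : E.Iso E') : E'.Iso E :=
  h.elim fun e he => ⟨e.symm, he.1.symm, fun x y => by
    rw [← he.2, e.apply_symm_apply, e.apply_symm_apply]⟩

theorem FM.Iso.trans (h : E.Iso E') (h' : E'.Iso E'') : E.Iso E'' :=
  h.elim fun e he => h'.elim fun e' he' => ⟨e.trans e', he'.1.comp he.1, fun x y => by
    rw [LinearEquiv.trans_apply, LinearEquiv.trans_apply, he'.2, he.2]⟩

theorem FM.Iso.sum {F F' : FM R A C V} (h : E.Iso E') (h' : F.Iso F') :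
    (E.sum F).Iso (E'.sum F') :=
  h.elim fun e he => h'.elim fun e' he' =>
    ⟨e.prodCongr e', fun a m => Prod.ext (he.1 a m.1) (he'.1 a m.2), fun x y => by
      rw [FM.sum_b, FM.sum_b, ← he.2, ← he'.2]
      rfl⟩

theorem FM.sum_comm (E E' : FM R A C V) : (E.sum E').Iso (E'.sum E) :=
  ⟨LinearEquiv.prodComm C _ _, fun _ _ => rfl, fun _ _ => add_comm _ _⟩

theorem FM.sum_assoc (E E' E'' : FM R A C V) : ((E.sum E').sum E'').Iso (E.sum (E'.sum E'')) :=
  ⟨LinearEquiv.prodAssoc C _ _ _, fun _ _ => rfl, fun _ _ => (add_assoc _ _ _).symm⟩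

theorem FM.neg_neg (E : FM R A C V) : E.neg.neg.Iso E :=
  ⟨LinearEquiv.refl C _, fun _ _ => rfl, fun _ _ => (_root_.neg_neg _).symm⟩

theorem FM.Iso.hyp (h : E.Iso E') (hE : E.Hyp) : E'.Hyp := by
  obtain ⟨u, hu, hb⟩ := h
  obtain ⟨e, he⟩ := hE
  refine ⟨u.toLinearMap ∘ₗ e ∘ₗ u.symm.toLinearMap, hu.comp (he.1.comp hu.symm), fun x => ?_,
    fun x y => ?_⟩
  · simp [he.2.1]
  · obtain ⟨x, rfl⟩ := u.surjective x
    obtain ⟨y, rfl⟩ := u.surjective y
    simp [hb, he.2.2]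

theorem FM.Iso.hasLag (h : E.Iso E') (hE : E.HasLag) : E'.HasLag := by
  obtain ⟨u, hu, hb⟩ := h
  obtain ⟨N, hN⟩ := hE
  refine ⟨N.map u.toLinearMap, Eqv.map (f := u.toLinearMap) hu hN.1, Submodule.ext fun x => ?_⟩
  obtain ⟨x, rfl⟩ := u.surjective x
  rw [FM.mem_perp, Submodule.mem_map_equiv, u.symm_apply_apply, hN.mem]
  refine ⟨fun H y hy => ?_, ?_⟩
  · rw [← hb]
    exact H _ ⟨y, hy, rfl⟩
  · rintro H _ ⟨y, hy, rfl⟩
    exact (hb x y).trans (H y hy)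

/-- the diagonal is a Lagrangian -/
theorem FM.Perf.hasLag (h : E.Perf) : (E.sum E.neg).HasLag := by
  refine ⟨LinearMap.range (LinearMap.id.prod LinearMap.id), ?_, Submodule.ext fun x => ⟨?_, ?_⟩⟩
  · rintro a _ ⟨m, rfl⟩
    exact ⟨E.ρ a m, rfl⟩
  · exact fun hx => ⟨x.1, Prod.ext rfl (h.ext fun y => add_neg_eq_zero.1 (hx _ ⟨y, rfl⟩))⟩
  · rintro ⟨m, rfl⟩ _ ⟨y, rfl⟩
    exact add_neg_cancel _

theorem FM.Kil.sum {c : C} (h : E.Kil c) (h' : E'.Kil c) : (E.sum E').Kil c :=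
  fun x => Prod.ext (h x.1) (h' x.2)

/-- an anisotropic form is killed by the radical of its annihilator -/
theorem FM.Aniso.kil (h : E.Aniso) (J : Ideal C) (N : ℕ) (hJ : ∀ r ∈ J ^ N, E.Kil r) :
    ∀ r ∈ J, E.Kil r := by
  intro r hr
  have key : ∀ n : ℕ, E.Kil (r ^ (n + 1)) → E.Kil r := by
    intro n
    induction n with
    | zero => exact fun H => by rwa [zero_add, pow_one] at H
    | succ n ih =>
      intro H
      refine ih fun x => ?_
      have := h (LinearMap.range (r ^ (n + 1) • LinearMap.id)) ?_ ?_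
      · exact (Submodule.eq_bot_iff _).1 this _ ⟨x, rfl⟩
      · rintro a _ ⟨m, rfl⟩
        exact ⟨E.ρ a m, (map_smul (E.ρ a) _ m).symm⟩
      · rintro _ ⟨m, rfl⟩ _ ⟨m', rfl⟩
        change E.b (r ^ (n + 1) • m) (r ^ (n + 1) • m') = 0
        rw [map_smul (E.b _), ← LinearMap.smul_apply, ← map_smul, smul_smul, ← pow_add,
          show n + 1 + (n + 1) = n + (n + 1 + 1) by ring, pow_add, mul_smul, H, smul_zero,
          map_zero, LinearMap.zero_apply]
  refine key N fun x => ?_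
  rw [pow_succ', mul_smul, hJ _ (Ideal.pow_mem_pow hr N), smul_zero]

variable [StarRing A] {δ : ℤˣ}

theorem FM.Good.zero (h : E.Good δ) {x y : E.M} (e : E.b x y = 0) : E.b y x = 0 := by
  rw [h.sym, e, smul_zero]

theorem FM.Good.adj' (h : E.Good δ) (a : A) (x y : E.M) :
    E.b x (E.ρ a y) = E.b (E.ρ (star a) x) y := by
  rw [h.adj, star_star]

theorem FM.Good.stab_perp (h : E.Good δ) {N : Submodule C E.M} (hN : E.Stab N) :
    E.Stab (E.perp N) := fun a x hx y hy => by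
  rw [h.adj]
  exact hx _ (hN _ y hy)

theorem FM.Good.neg (h : E.Good δ) : E.neg.Good δ :=
  ⟨h.fin, fun a x y => congrArg Neg.neg (h.adj a x y), fun x y => by
    rw [FM.neg_b, FM.neg_b, h.sym, smul_neg]⟩

theorem FM.Good.sum (h : E.Good δ) (h' : E'.Good δ) : (E.sum E').Good δ :=
  have := h.fin
  have := h'.fin
  ⟨inferInstanceAs (Module.Finite C (E.M × E'.M)),
    fun a x y => congrArg₂ (· + ·) (h.adj a x.1 y.1) (h'.adj a x.2 y.2), fun x y => by
      rw [FM.sum_b, FM.sum_b, h.sym, h'.sym, smul_add]⟩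

/-- an anisotropic form is nondegenerate -/
theorem FM.Aniso.eq_zero (h : E.Aniso) (hg : E.Good δ) {x : E.M} (hx : ∀ y, E.b x y = 0) :
    x = 0 :=
  (Submodule.eq_bot_iff _).1 (h (E.perp ⊤) (hg.stab_perp E.stab_top)
    fun _ hu v _ => hu v trivial) x fun y _ => hx y

theorem FM.Good.tr (h : E.Good δ) (C' : Type u) [CommRing C'] [Algebra R C'] [Algebra C' C]
    [IsScalarTower R C' C] [Module.Finite C' C] {V' : Type u} [AddCommGroup V'] [Module C' V']
    (κ : V →+ V') (hκ : ∀ (c : C') (v : V), κ (algebraMap C' C c • v) = c • κ v) :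
    (E.tr C' κ hκ).Good δ := by
  refine ⟨?_, fun a x y => congrArg κ (h.adj a x y), fun x y => ?_⟩
  · have := h.fin
    let : Module C' E.M := Module.compHom E.M (algebraMap C' C)
    have : IsScalarTower C' C E.M := ⟨fun c d m => by
      rw [Algebra.smul_def, mul_smul]
      rfl⟩
    exact Module.Finite.trans C E.M
  · change κ (E.b y x) = δ • κ (E.b x y)
    rw [h.sym, Units.smul_def, Units.smul_def, map_zsmul]

end fm

section sp

variable {R A C : Type u} [CommRing R] [Ring A] [Algebra R A] [CommRing C] [Algebra R C]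
  [StarRing A] {E E' : FM R A C C} {ε : ℤˣ}

theorem FM.Sp.ff (h : E.Sp ε) : E.toRM.FF := ⟨h.free, h.good.fin⟩

theorem FM.Sp.neg (h : E.Sp ε) : E.neg.Sp ε := ⟨h.good.neg, h.perf.neg, h.free⟩

theorem FM.Sp.sum (h : E.Sp ε) (h' : E'.Sp ε) : (E.sum E').Sp ε :=
  ⟨h.good.sum h'.good, h.perf.sum h'.perf, (h.ff.prod h'.ff).1⟩

omit [StarRing A] in
/-- restriction along a surjection keeps a form perfect -/
theorem FM.Perf.res (h : E.Perf) (C' : Type u) [CommRing C'] [Algebra R C'] [Algebra C' C]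
    [IsScalarTower R C' C] (hs : Surjective (algebraMap C' C)) : (E.res C').Perf := by
  refine FM.perf_of (fun x hx => h.eq_zero hx) fun ψ => h.exists
    { toFun := ψ
      map_add' := map_add ψ
      map_smul' := fun c m => ?_ }
  obtain ⟨c, rfl⟩ := hs c
  exact (ψ.map_smul c m).trans (algebraMap_smul C c (ψ m)).symm

theorem FM.Good.res (h : E.Good ε) (C' : Type u) [CommRing C'] [Algebra R C'] [Algebra C' C]
    [IsScalarTower R C' C] (hs : Surjective (algebraMap C' C)) : (E.res C').Good ε :=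
  have : Module.Finite C' C := Module.Finite.of_surjective (Algebra.linearMap C' C) hs
  h.tr C' _ _

variable [SA R A]

theorem RM.hyp_b (X : RM R A C) (ε : ℤˣ) (u v : X.M × Module.Dual C X.M) :
    (X.hyp ε).b u v = u.2 v.1 + ε • v.2 u.1 := rfl

theorem RM.hyp_hyp (X : RM R A C) (ε : ℤˣ) : (X.hyp ε).Hyp :=
  ⟨LinearMap.id.prodMap 0, fun a m => Prod.ext rfl (map_zero (X.dual.ρ a)).symm, fun _ => rfl,
    fun x y => by simp [add_comm]⟩

theorem RM.FF.hyp {X : RM R A C} (h : X.FF) (ε : ℤˣ) : (X.hyp ε).Sp ε := by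
  have h2 := h.prod h.dual
  obtain ⟨_, _⟩ := h
  refine ⟨⟨h2.2, fun a x y => ?_, fun x y => ?_⟩, FM.perf_of (fun x hx => Prod.ext ?_ ?_)
    fun ψ => ?_, h2.1⟩
  · change x.2 (X.ρ (star a) y.1) + ε • y.2 (X.ρ a x.1) =
      x.2 (X.ρ (star a) y.1) + ε • y.2 (X.ρ (star (star a)) x.1)
    rw [star_star]
  · rw [RM.hyp_b, RM.hyp_b, smul_add, usmul_usmul, add_comm]
  · refine (Module.forall_dual_apply_eq_zero_iff C x.1).1 fun ξ => ?_
    exact usmul_eq_zero ε (by simpa [RM.hyp_b] using hx (0, ξ))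
  · exact LinearMap.ext fun y => by simpa [RM.hyp_b] using hx (y, 0)
  · obtain ⟨x, hx⟩ := (Module.bijective_dual_eval C X.M).2
      (ψ ∘ₗ LinearMap.inr C X.M (Module.Dual C X.M))
    refine ⟨(ε • x, ψ ∘ₗ LinearMap.inl C X.M (Module.Dual C X.M)), fun y => ?_⟩
    have h3 : y.2 x = ψ (0, y.2) := LinearMap.congr_fun hx y.2
    have h4 : y.2 (ε • x) = ε • y.2 x := map_zsmul y.2 ε x
    change ψ (y.1, 0) + ε • y.2 (ε • x) = _
    rw [h4, usmul_usmul, h3, ← map_add]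
    simp

variable {ι : Type} [Fintype ι] [DecidableEq ι]

theorem MRep.hfm_b (ρ : MRep R A C ι) (δ : ℤˣ) (u v : (ι → C) × (ι → C)) :
    (ρ.hfm δ).b u v = hf δ u v := rfl

theorem MRep.hfm_hyp (ρ : MRep R A C ι) (δ : ℤˣ) : (ρ.hfm δ).Hyp :=
  ⟨LinearMap.id.prodMap 0, fun a m => Prod.ext rfl (map_zero (ρ.dual.rm.ρ a)).symm, fun _ => rfl,
    fun x y => by simp [hf, sub_eq_neg_add]⟩

theorem MRep.hfm_sp (ρ : MRep R A C ι) (δ : ℤˣ) : (ρ.hfm δ).Sp (-δ) := by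
  have h2 := ρ.rm_ff.prod ρ.dual.rm_ff
  refine ⟨⟨h2.2, fun a x y => ?_, fun x y => ?_⟩, FM.perf_of (fun x hx => Prod.ext ?_ ?_)
    fun ψ => ?_, h2.1⟩
  · change ((ρ.ρ (star a))ᵀ *ᵥ x.2) ⬝ᵥ y.1 - δ • (y.2 ⬝ᵥ ρ.ρ a *ᵥ x.1) =
      x.2 ⬝ᵥ ρ.ρ (star a) *ᵥ y.1 - δ • (((ρ.ρ (star (star a)))ᵀ *ᵥ y.2) ⬝ᵥ x.1)
    rw [star_star, mulVec_transpose, mulVec_transpose, dotProduct_mulVec, dotProduct_mulVec]
  · rw [MRep.hfm_b, MRep.hfm_b, hf, hf, Units.neg_smul, smul_sub, usmul_usmul, neg_sub]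
  · exact funext fun i => usmul_eq_zero δ (by simpa [hf] using hx (0, Pi.single i 1))
  · exact funext fun i => by simpa [MRep.hfm_b, hf] using hx (Pi.single i 1, 0)
  · refine ⟨(fun i => -(δ • ψ (0, Pi.single i 1)), fun i => ψ (Pi.single i 1, 0)), fun y => ?_⟩
    have h1 : ψ (y.1, 0) = ∑ i, ψ (Pi.single i 1, 0) * y.1 i := by
      simpa [mul_comm] using lin_pi (ψ ∘ₗ LinearMap.inl C (ι → C) (ι → C)) y.1
    have h3 : ψ (0, y.2) = ∑ i, y.2 i * ψ (0, Pi.single i 1) := by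
      simpa using lin_pi (ψ ∘ₗ LinearMap.inr C (ι → C) (ι → C)) y.2
    have h4 : ψ y = ψ (y.1, 0) + ψ (0, y.2) := by
      rw [← map_add]
      simp
    rw [h4, h1, h3, MRep.hfm_b, hf]
    rcases Int.units_eq_one_or δ with rfl | rfl <;> simp [dotProduct]

end sp

section fld

variable {R A k : Type u} [CommRing R] [Ring A] [Algebra R A] [Field k] [Algebra R k]
  [StarRing A] {E : FM R A k k} {ε : ℤˣ}

theorem FM.Good.perp_eq (h : E.Good ε) (N : Submodule k E.M) :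
    E.perp N = LinearMap.BilinForm.orthogonal E.b N :=
  Submodule.ext fun _ => ⟨fun hx y hy => h.zero (hx y hy), fun hx y hy => h.zero (hx y hy)⟩

theorem FM.Good.nondeg (h : E.Good ε) (hp : E.Perf) : LinearMap.BilinForm.Nondegenerate E.b :=
  ⟨fun _ hx => hp.eq_zero hx, fun _ hx => hp.eq_zero fun y => h.zero (hx y)⟩

theorem FM.Good.perp_perp (h : E.Good ε) (hp : E.Perf) (N : Submodule k E.M) :
    E.perp (E.perp N) = N := by
  have := h.fin
  rw [h.perp_eq, h.perp_eq]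
  exact LinearMap.BilinForm.orthogonal_orthogonal (h.nondeg hp) (fun _ _ => h.zero) N

theorem FM.Good.perp_inf (h : E.Good ε) (hp : E.Perf) (N N' : Submodule k E.M) :
    E.perp (N ⊓ N') = E.perp N ⊔ E.perp N' := by
  rw [← h.perp_perp hp (E.perp N ⊔ E.perp N'), FM.perp_sup, h.perp_perp hp, h.perp_perp hp]

theorem FM.Good.finrank_perp (h : E.Good ε) (hp : E.Perf) (N : Submodule k E.M) :
    Module.finrank k N + Module.finrank k (E.perp N) = Module.finrank k E.M := by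
  have := h.fin
  rw [h.perp_eq, LinearMap.BilinForm.finrank_orthogonal (h.nondeg hp)]
  exact Nat.add_sub_cancel' N.finrank_le

end fld

section dat

variable {R A : Type u} [CommRing R] [Ring A] [Algebra R A] {E : FM R A R R} {F G : R}

theorem Dat.β_apply (D : Dat E) (p : E.M) (q : D.Q.M) : D.β p q = E.b p (D.i q) := rfl

theorem Dat.β_i (D : Dat E) (q : D.Q.M) : D.β (D.i q) = 0 := LinearMap.ext (D.iso q)

theorem Dat.ex' (D : Dat E) {p : E.M} (h : D.β p = 0) : ∃ q, D.i q = p :=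
  D.ex p fun q => LinearMap.congr_fun h q

theorem Dat.Kil.span {D : Dat E} (hF : D.Kil F) (hG : D.Kil G) {r : R}
    (hr : r ∈ Ideal.span {F, G}) : D.Kil r := fun ξ => by
  obtain ⟨a, b, rfl⟩ := Ideal.mem_span_pair.1 hr
  obtain ⟨p, hp⟩ := hF ξ
  obtain ⟨p', hp'⟩ := hG ξ
  exact ⟨a • p + b • p', by rw [map_add, map_smul, map_smul, hp, hp', add_smul, mul_smul, mul_smul]⟩

/-- if the adjoint of `i` has cokernel killed by a regular sequence, `i` is injective modulo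
every scalar -/
theorem sat_of_kil [IsDomain R] {Q : Type u} [AddCommGroup Q] [Module R Q] [Module.Free R Q]
    (i : Q →ₗ[R] E.M) (h : RS F G)
    (hF : ∀ ξ : Module.Dual R Q, ∃ p, ∀ q, E.b p (i q) = F * ξ q)
    (hG : ∀ ξ : Module.Dual R Q, ∃ p, ∀ q, E.b p (i q) = G * ξ q) {r : R} {q : Q} {p : E.M}
    (e : i q = r • p) : ∃ q', q = r • q' := by
  let b := Module.Free.chooseBasis R Q
  have h1 : ∀ j, r ∣ b.repr q j := fun j => by
    obtain ⟨p1, h1⟩ := hF (b.coord j)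
    obtain ⟨p2, h2⟩ := hG (b.coord j)
    refine h.dvd ⟨E.b p1 p, ?_⟩ ⟨E.b p2 p, ?_⟩
    · rw [← b.coord_apply, ← h1, e, map_smul, smul_eq_mul]
    · rw [← b.coord_apply, ← h2, e, map_smul, smul_eq_mul]
  choose c hc using h1
  refine ⟨∑ j ∈ (b.repr q).support, c j • b j, ?_⟩
  rw [Finset.smul_sum]
  conv_lhs => rw [← b.linearCombination_repr q, Finsupp.linearCombination_apply, Finsupp.sum]
  exact Finset.sum_congr rfl fun j _ => by rw [hc, mul_smul]

theorem Dat.inj [IsDomain R] (D : Dat E) (hF0 : F ≠ 0) (hF : D.Kil F) : Injective D.i := by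
  have := D.ff.1
  refine (injective_iff_map_eq_zero _).2 fun q hq => ?_
  refine (Module.forall_dual_apply_eq_zero_iff R q).1 fun ξ => ?_
  obtain ⟨p, hp⟩ := hF ξ
  have := LinearMap.congr_fun hp q
  rw [D.β_apply, hq, map_zero, LinearMap.smul_apply, smul_eq_mul] at this
  exact (mul_eq_zero.1 this.symm).resolve_left hF0

/-- the same complex for the opposite form -/
@[reducible] def Dat.neg (D : Dat E) : Dat E.neg where
  Q := D.Q
  ff := D.ff
  i := D.i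
  eqv := D.eqv
  iso q q' := neg_eq_zero.2 (D.iso q q')
  ex p h := D.ex p fun q => neg_eq_zero.1 (h q)

theorem Dat.neg_β (D : Dat E) (p : E.M) : D.neg.β p = D.β (-p) := by
  rw [map_neg]
  rfl

variable [StarRing A] [SA R A] {Y Y' : FM R A R (BQ F G)} {ε : ℤˣ}

theorem Dat.eqv_β (D : Dat E) (h : E.Good ε) : Eqv E.toRM D.Q.dual D.β := fun a p =>
  LinearMap.ext fun q => by
    change E.b (E.ρ a p) (D.i q) = E.b p (D.i (D.Q.ρ (star a) q))
    rw [h.adj, D.eqv]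

/-- an equivariant linear choice of preimages -/
theorem Dat.Kil.exists {D : Dat E} (hF : D.Kil F) (h : E.Good ε) (X : RM R A R)
    [Module.Projective R X.M] (α : X.M →ₗ[R] Module.Dual R D.Q.M) (hα : Eqv X D.Q.dual α) :
    ∃ s : X.M →ₗ[R] E.M, Eqv X E.toRM s ∧ ∀ x, D.β (s x) = F • α x :=
  (D.eqv_β h).lift_proj (g := F • α) (fun a m => by
    rw [LinearMap.smul_apply, LinearMap.smul_apply, hα, map_smul]) fun x => hF (α x)

theorem Dat.Real.neg {D : Dat E} (h : D.Real F G Y) : D.neg.Real F G Y.neg := by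
  obtain ⟨hF, hG, π, h1, h2, h3, h4⟩ := h
  refine ⟨fun ξ => (hF ξ).elim fun p hp => ⟨-p, by rw [D.neg_β, _root_.neg_neg]; exact hp⟩,
    fun ξ => (hG ξ).elim fun p hp => ⟨-p, by rw [D.neg_β, _root_.neg_neg]; exact hp⟩, π, h1, h2,
    fun ξ => (h3 ξ).trans ⟨fun ⟨p, hp⟩ => ⟨-p, by rw [D.neg_β, _root_.neg_neg]; exact hp⟩,
      fun ⟨p, hp⟩ => ⟨-p, by rw [← hp, D.neg_β]⟩⟩, fun ξ η p p' hp hp' => ?_⟩
  rw [D.neg_β] at hp hp'
  refine (congrArg Neg.neg (h4 ξ η _ _ hp hp')).trans ?_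
  simp

theorem Dat.Real.iso {D : Dat E} (h : D.Real F G Y) (e : Y.Iso Y') : D.Real F G Y' := by
  obtain ⟨hF, hG, π, h1, h2, h3, h4⟩ := h
  obtain ⟨u, hu, hb⟩ := e
  exact ⟨hF, hG, u.toLinearMap ∘ₗ π, u.surjective.comp h1, hu.comp h2,
    fun ξ => (map_eq_zero_iff u u.injective).trans (h3 ξ),
    fun ξ η p p' hp hp' => (hb _ _).trans (h4 ξ η p p' hp hp')⟩

theorem Dat.Real.kil {D : Dat E} (h : D.Real F G Y) {r : R} (hr : D.Kil r) : Y.Kil r := by
  obtain ⟨-, -, π, h1, -, h3, -⟩ := h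
  intro y
  obtain ⟨ξ, rfl⟩ := h1 y
  rw [← map_smul]
  exact (h3 _).2 (hr ξ)

theorem Neut.neg (h : Neut ε F G Y) : Neut ε F G Y.neg := by
  obtain ⟨E, D, h1, h2, h3⟩ := h
  exact ⟨E.neg, D.neg, h1.neg, h2.neg, h3.neg⟩

theorem Neut.iso (h : Neut ε F G Y) (e : Y.Iso Y') : Neut ε F G Y' := by
  obtain ⟨E, D, h1, h2, h3⟩ := h
  exact ⟨E, D, h1, h2, h3.iso e⟩

theorem Neut.sum (hS : S_Sum.{u}) (h : Neut ε F G Y) (h' : Neut ε F G Y') :
    Neut ε F G (Y.sum Y') := by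
  obtain ⟨E, D, h1, h2, h3⟩ := h
  obtain ⟨E', D', h1', h2', h3'⟩ := h'
  obtain ⟨D'', h4⟩ := hS R A E E' D D' F G Y Y' h3 h3'
  exact ⟨E.sum E', D'', h1.sum h1', h2.sum h2', h4⟩

end dat

end Pool.Agent.P.MP_46a8f8_ag.GU
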