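import Pool.Agent.P.MP_46a8f8_ag.GU.Base2

/-!
Cancellation for semisimple modules.
-/

namespace Pool.Agent.P.MP_46a8f8_ag.GU

open TensorProduct Function Matrix IsLocalRing

universe u

namespace KCP

section ss

variable {A : Type u} [Ring A]

/-- the second factor is the kernel of any map which is bijective on the first factor -/
theorem ker_iso {U V W : Type u} [AddCommGroup U] [Module A U] [AddCommGroup V] [Module A V]
    [AddCommGroup W] [Module A W] (Ψ : (U × V) ≃ₗ[A] W) (π : W →ₗ[A] U)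
    (h : Bijective (π ∘ₗ Ψ.toLinearMap ∘ₗ LinearMap.inl A U V)) :
    Nonempty (LinearMap.ker π ≃ₗ[A] V) := by
  refine ⟨LinearEquiv.ofBijective
    (LinearMap.snd A U V ∘ₗ Ψ.symm.toLinearMap ∘ₗ (LinearMap.ker π).subtype) ⟨?_, fun v => ?_⟩⟩
  · rw [injective_iff_map_eq_zero]
    rintro ⟨w, hw⟩ h0
    obtain ⟨⟨a, b⟩, rfl⟩ := Ψ.surjective w
    have hb : b = 0 := by simpa using h0
    subst hb
    have ha : a = 0 := (injective_iff_map_eq_zero _).1 h.1 a hw
    subst ha
    exact Subtype.ext (map_zero Ψ)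
  · obtain ⟨a, ha⟩ := h.2 (-π (Ψ (0, v)))
    have ha' : π (Ψ (a, 0)) = -π (Ψ (0, v)) := ha
    refine ⟨⟨Ψ (a, v), ?_⟩, by simp⟩
    rw [LinearMap.mem_ker, show (a, v) = (a, 0) + (0, v) by simp, map_add, map_add, ha',
      neg_add_cancel]

theorem simple {U V V' : Type u} [AddCommGroup U] [Module A U] [AddCommGroup V] [Module A V]
    [AddCommGroup V'] [Module A V'] [IsSimpleModule A U] (Φ : (U × V) ≃ₗ[A] (U × V')) :
    Nonempty (V ≃ₗ[A] V') := by
  let r₁ : (U × V') →ₗ[A] U := LinearMap.fst A U V ∘ₗ Φ.symm.toLinearMap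
  let r₂ : (U × V') →ₗ[A] U := LinearMap.fst A U V'
  let i₁ : U →ₗ[A] (U × V') := Φ.toLinearMap ∘ₗ LinearMap.inl A U V
  let i₂ : U →ₗ[A] (U × V') := (LinearEquiv.refl A (U × V')).toLinearMap ∘ₗ LinearMap.inl A U V'
  have e₁ : r₁ ∘ₗ i₁ = LinearMap.id := LinearMap.ext fun a => by simp [r₁, i₁]
  have e₂ : r₂ ∘ₗ i₂ = LinearMap.id := rfl
  have key : ∃ π : (U × V') →ₗ[A] U, Bijective (π ∘ₗ i₁) ∧ Bijective (π ∘ₗ i₂) := by
    rcases (r₁ ∘ₗ i₂).bijective_or_eq_zero with h₁ | h₁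
    · exact ⟨r₁, e₁ ▸ bijective_id, h₁⟩
    rcases (r₂ ∘ₗ i₁).bijective_or_eq_zero with h₂ | h₂
    · exact ⟨r₂, h₂, e₂ ▸ bijective_id⟩
    refine ⟨r₁ + r₂, ?_, ?_⟩
    · rw [LinearMap.add_comp, e₁, h₂, add_zero]
      exact bijective_id
    · rw [LinearMap.add_comp, e₂, h₁, zero_add]
      exact bijective_id
  obtain ⟨π, h₁, h₂⟩ := key
  obtain ⟨a⟩ := ker_iso Φ π h₁
  obtain ⟨b⟩ := ker_iso (LinearEquiv.refl A (U × V')) π h₂
  exact ⟨a.symm.trans b⟩

theorem canc {U : Type u} [AddCommGroup U] [Module A U] (h : IsFiniteLength A U) :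
    IsSemisimpleModule A U → ∀ (V V' : Type u) [AddCommGroup V] [Module A V] [AddCommGroup V']
      [Module A V'], Nonempty ((U × V) ≃ₗ[A] (U × V')) → Nonempty (V ≃ₗ[A] V') := by
  induction h with
  | @of_subsingleton M _ _ _ =>
    rintro - V V' _ _ _ _ ⟨Φ⟩
    have : Unique M := uniqueOfSubsingleton 0
    exact ⟨((LinearEquiv.uniqueProd (R := A) (M := V) (M₂ := M)).symm.trans Φ).trans
      LinearEquiv.uniqueProd⟩
  | @of_simple_quotient M _ _ N _ _ ih =>
    rintro hM V V' _ _ _ _ ⟨Φ⟩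
    obtain ⟨C, hC⟩ := exists_isCompl N
    let e : (N × (M ⧸ N)) ≃ₗ[A] M :=
      ((LinearEquiv.refl A N).prodCongr (N.quotientEquivOfIsCompl C hC)).trans
        (N.prodEquivOfIsCompl C hC)
    obtain ⟨Ψ⟩ := ih inferInstance ((M ⧸ N) × V) ((M ⧸ N) × V')
      ⟨((((LinearEquiv.prodAssoc A N (M ⧸ N) V).symm.trans
        (e.prodCongr (LinearEquiv.refl A V))).trans Φ).trans
        (e.symm.prodCongr (LinearEquiv.refl A V'))).trans (LinearEquiv.prodAssoc A N (M ⧸ N) V')⟩
    exact simple Ψ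

end ss

section rm

variable {R A k : Type u} [CommRing R] [Ring A] [Algebra R A] [StarRing A] [SA R A] [Field k]
  [Algebra R k]

/-- the module structure over the algebra -/
@[reducible] def md (X : RM R A k) : Module A X.M := Module.compHom X.M X.ρ

/-- a submodule over the algebra is a subspace -/
def toK (hs : Surjective (algebraMap R k)) (X : RM R A k)
    (S : letI := md X; Submodule A X.M) : Submodule k X.M :=
  letI := md X
  { carrier := S
    add_mem' := S.add_mem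
    zero_mem' := S.zero_mem
    smul_mem' := fun c m hm => by
      obtain ⟨r, rfl⟩ := hs c
      rw [← X.alg]
      exact S.smul_mem (algebraMap R A r) hm }

theorem ssimple (hs : Surjective (algebraMap R k)) (X : RM R A k) :
    letI := md X; IsSemisimpleModule A X.M := by
  letI := md X
  refine (isSemisimpleModule_iff A X.M).2 ⟨fun S => ?_⟩
  obtain ⟨N, hN, hc⟩ := RM.Stab.compl (X := X) (N := toK hs X S) fun a m hm => S.smul_mem a hm
  refine ⟨{ carrier := N, add_mem' := N.add_mem, zero_mem' := N.zero_mem,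
            smul_mem' := fun a m hm => hN a m hm }, ?_, ?_⟩
  · exact Submodule.disjoint_def.2 fun x hx hx' => Submodule.disjoint_def.1 hc.1 x hx hx'
  · refine codisjoint_iff.2 (eq_top_iff.2 fun x _ => ?_)
    obtain ⟨y, hy, z, hz, e⟩ := Submodule.mem_sup.1 (hc.sup_eq_top ▸ Submodule.mem_top :
      x ∈ toK hs X S ⊔ N)
    exact Submodule.mem_sup.2 ⟨y, hy, z, hz, e⟩

omit [StarRing A] [SA R A] in
theorem noeth (hs : Surjective (algebraMap R k)) (X : RM R A k) [Module.Finite k X.M] :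
    letI := md X; IsNoetherian A X.M := by
  letI := md X
  have h : StrictMono (toK hs X) := fun S S' h => h
  exact isNoetherian_iff'.2 h.wellFoundedGT

theorem canc' (h : S_SSC.{u}) (hs : Surjective (algebraMap R k)) (U V V' : RM R A k)
    [Module.Finite k U.M] (hI : (U.prod V).Iso (U.prod V')) : V.Iso V' := by
  letI := md U
  letI := md V
  letI := md V'
  have := ssimple hs U
  have := ssimple hs V'
  have := noeth hs U
  obtain ⟨e, he⟩ := hI
  obtain ⟨φ⟩ := h A U.M V.M V'.M ⟨{ e.toAddEquiv with map_smul' := fun a m => he a m }⟩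
  refine ⟨{ φ.toAddEquiv with map_smul' := fun c m => ?_ }, fun a m => φ.map_smul a m⟩
  obtain ⟨r, rfl⟩ := hs c
  change φ (algebraMap R k r • m) = algebraMap R k r • φ m
  rw [← V.alg, ← V'.alg]
  exact φ.map_smul (algebraMap R A r) m

end rm

end KCP

theorem pSSC : S_SSC.{u} := by
  intro A U V V' _ _ _ _ _ _ _ hU _ hN h
  exact KCP.canc ((IsSemisimpleModule.finite_tfae (R := A) (M := U)).out 1 3 |>.1 hN) hU V V' h

theorem pKC (h1 : S_SSC.{u}) : S_KC.{u} := by
  intro R A k _ _ _ _ _ _ _ X X' f N hs hX hI hf hN hc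
  obtain ⟨e, he, e1, e2⟩ := hf.ker.proj
  have i1 : X.Iso ((X'.sub _ hf.range).prod (X.sub _ hf.ker)) := by
    refine ⟨LinearEquiv.ofBijective (f.rangeRestrict.prod (e.codRestrict _ e1)) ⟨?_, ?_⟩,
      fun a m => Prod.ext (Subtype.ext (hf a m)) (Subtype.ext (he a m))⟩
    · rw [injective_iff_map_eq_zero]
      intro x hx
      have h1 : f x = 0 := congrArg (fun z => z.1.1) hx
      have h2 : e x = 0 := congrArg (fun z => z.2.1) hx
      rwa [e2 x h1] at h2
    · rintro ⟨⟨_, y, rfl⟩, ⟨z, hz⟩⟩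
      refine ⟨y - e y + z, Prod.ext (Subtype.ext ?_) (Subtype.ext ?_)⟩
      · change f (y - e y + z) = f y
        rw [map_add, map_sub, LinearMap.mem_ker.1 (e1 y), LinearMap.mem_ker.1 hz, sub_zero,
          add_zero]
      · change e (y - e y + z) = z
        rw [map_add, map_sub, e2 _ (e1 y), e2 z hz, sub_self, zero_add]
  have i2 : ((X'.sub _ hf.range).prod (X'.sub N hN)).Iso X' :=
    ⟨(LinearMap.range f).prodEquivOfIsCompl N hc, fun a m => (map_add (X'.ρ a) m.1.1 m.2.1).symm⟩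
  have : Module.Finite k (X'.sub _ hf.range).M := Module.Finite.range f
  obtain ⟨φ, hφ⟩ := KCP.canc' h1 hs _ _ _ ((i1.symm.trans hI).trans i2.symm)
  have hg : ∀ z : LinearMap.ker f, e.codRestrict _ e1 z = z := fun z => Subtype.ext (e2 z z.2)
  refine ⟨N.subtype ∘ₗ φ.toLinearMap ∘ₗ e.codRestrict _ e1, fun a m => ?_, fun x hx h0 => ?_,
    le_antisymm ?_ fun n hn => ?_⟩
  · have e3 : e.codRestrict _ e1 (X.ρ a m) = (X.sub _ hf.ker).ρ a (e.codRestrict _ e1 m) :=
      Subtype.ext (he a m)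
    change (φ (e.codRestrict _ e1 (X.ρ a m))).1 = _
    rw [e3, hφ]
    rfl
  · have h2 : φ (e.codRestrict _ e1 x) = 0 := Subtype.ext h0
    rw [hg ⟨x, hx⟩, map_eq_zero_iff _ φ.injective] at h2
    exact congrArg Subtype.val h2
  · rintro _ ⟨x, -, rfl⟩
    exact (φ _).2
  · obtain ⟨z, hz⟩ := φ.surjective ⟨n, hn⟩
    refine ⟨z, z.2, ?_⟩
    change (φ (e.codRestrict _ e1 z)).1 = n
    rw [hg, hz]

end Pool.Agent.P.MP_46a8f8_ag.GU
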