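import Pool.Agent.P.MP_46a8f8_ag.GU.Su
import Pool.Agent.P.MP_46a8f8_ag.GU.KC
import Pool.Agent.P.MP_46a8f8_ag.SS

/-!
Stable range one for separable algebras over a local ring.
-/

namespace Pool.Agent.P.MP_46a8f8_ag.GU

open IsLocalRing Function SSP

universe u

namespace BassSP

theorem semi {R A V : Type u} [CommRing R] [IsLocalRing R] [Ring A] [Algebra R A]
    [AddCommGroup V] [Module A V] [Module R V] [IsScalarTower R A V] (hA : Sep R A)
    (h : Km R V) : IsSemisimpleModule A V := by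
  refine (isSemisimpleModule_iff A V).2 ⟨fun N => ?_⟩
  have := h.semisimple
  obtain ⟨g, hg⟩ := IsSemisimpleModule.extension_property (N.subtype.restrictScalars R)
    N.injective_subtype (LinearMap.id : N →ₗ[R] N)
  obtain ⟨p, hp⟩ := hA.extend N.subtype LinearMap.id g fun v => LinearMap.congr_fun hg v
  exact ⟨_, LinearMap.isCompl_of_proj hp⟩

/-- an endomorphism can be corrected inside a supplement of its range to become onto -/
theorem gen {A V : Type u} [Ring A] [AddCommGroup V] [Module A V] [IsSemisimpleModule A V]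
    [IsNoetherian A V] (ρ : V →ₗ[A] V) (L : Submodule A V) (hL : LinearMap.range ρ ⊔ L = ⊤) :
    ∃ h : V →ₗ[A] V, LinearMap.range h ≤ L ∧ Surjective (ρ + h) := by
  obtain ⟨D, hD1, hD2⟩ := IsModularLattice.exists_disjoint_and_sup_eq
    (inf_le_right : LinearMap.range ρ ⊓ L ≤ L)
  have hDL : D ≤ L := hD2 ▸ le_sup_right
  have hD : IsCompl (LinearMap.range ρ) D := by
    refine ⟨Submodule.disjoint_def.2 fun x h1 h2 =>
      Submodule.disjoint_def.1 hD1 x ⟨h1, hDL h2⟩ h2, codisjoint_iff.2 ?_⟩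
    rw [← hL, ← hD2, ← sup_assoc, sup_inf_self]
  obtain ⟨C, hC⟩ := exists_isCompl (LinearMap.ker ρ)
  obtain ⟨e⟩ := pSSC A (LinearMap.range ρ) (LinearMap.ker ρ) D ⟨((LinearEquiv.prodCongr
    (ρ.quotKerEquivRange.symm.trans (Submodule.quotientEquivOfIsCompl _ _ hC))
    (LinearEquiv.refl A _)).trans (Submodule.prodEquivOfIsCompl _ _ hC.symm)).trans
    (Submodule.prodEquivOfIsCompl _ _ hD).symm⟩
  refine ⟨D.subtype ∘ₗ e.toLinearMap ∘ₗ Submodule.projectionOnto _ _ hC, ?_, fun w => ?_⟩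
  · rintro _ ⟨x, rfl⟩
    exact hDL (e _).2
  · obtain ⟨_, ⟨v, rfl⟩, d, hd, rfl⟩ := Submodule.mem_sup.1
      (hD.sup_eq_top.ge (Submodule.mem_top (x := w)))
    obtain ⟨k, hk, c, hc, rfl⟩ := Submodule.mem_sup.1
      (hC.sup_eq_top.ge (Submodule.mem_top (x := v)))
    refine ⟨c + e.symm ⟨d, hd⟩, ?_⟩
    have h1 : ρ (e.symm ⟨d, hd⟩) = 0 := (e.symm ⟨d, hd⟩).2
    have h2 : ρ k = 0 := hk
    have h3 := Submodule.projectionOnto_apply_right hC ⟨c, hc⟩
    simp only [LinearMap.add_apply, map_add, LinearMap.comp_apply, h1, h2,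
      Submodule.projectionOnto_apply_left, LinearEquiv.coe_coe, LinearEquiv.apply_symm_apply]
    rw [h3]
    simp

end BassSP

open BassSP in
theorem pBassS : S_BassS.{u} := by
  intro R A _ _ _ _ _ hA c L hL
  have := hA.fin
  have := finite_quot (R := R) (A := A) (V := A)
  have hc : ∀ c : A, mS R A A ≤ (mS R A A).comap (LinearMap.toSpanSingleton A A c) := by
    intro c x hx
    have := Submodule.mem_map_of_mem (f := LinearMap.mulRight R c) (mem_mS.1 hx)
    rw [Submodule.map_smul''] at this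
    rw [Submodule.mem_comap, mem_mS]
    exact (Submodule.smul_mono le_rfl le_top : _ ≤ (maximalIdeal R • ⊤ : Submodule R A)) this
  let ρ : (A ⧸ mS R A A) →ₗ[A] A ⧸ mS R A A := (mS R A A).mapQ _ _ (hc c)
  have hρ : LinearMap.range ρ ⊔ L.map (mS R A A).mkQ = ⊤ := by
    rw [eq_top_iff, ← Submodule.range_mkQ, ← Submodule.map_top, ← hL, Submodule.map_sup]
    refine sup_le_sup_right ?_ _
    rw [Submodule.map_span, Set.image_singleton, Submodule.span_singleton_le_iff_mem]
    exact ⟨Submodule.Quotient.mk 1, by simp [ρ]⟩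
  have := semi hA (km_quot (R := R) (A := A) (V := A))
  have : IsNoetherian A (A ⧸ mS R A A) := isNoetherian_of_tower R inferInstance
  obtain ⟨h, hh, hs⟩ := gen ρ _ hρ
  obtain ⟨l, hl, hl2⟩ := hh ⟨Submodule.Quotient.mk 1, rfl⟩
  refine ⟨l, hl, ?_⟩
  have h1 : Surjective (LinearMap.toSpanSingleton A A (c + l)) := by
    refine surj_of_mod (R := R) _ ?_
    have : (mS R A A).mkQ ∘ₗ LinearMap.toSpanSingleton A A (c + l) =
        (ρ + h) ∘ₗ (mS R A A).mkQ := by
      refine LinearMap.ext_ring ?_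
      simp [ρ, ← hl2]
    rw [this]
    exact hs.comp (mS R A A).mkQ_surjective
  have h2 := IsNoetherian.injective_of_surjective_endomorphism
    ((LinearMap.toSpanSingleton A A (c + l)).restrictScalars R) h1
  obtain ⟨y, hy⟩ := h1 1
  have hy' : y * (c + l) = 1 := hy
  have hy2 : (c + l) * y = 1 := h2 (by
    change ((c + l) * y) * (c + l) = 1 * (c + l)
    rw [mul_assoc, hy', mul_one, one_mul])
  exact ⟨⟨c + l, y, hy2, hy'⟩, rfl⟩

end Pool.Agent.P.MP_46a8f8_ag.GU
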