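import Pool.Agent.P.MP_46a8f8_ag.GU.Base2

/-!
Extension of scalars of modules with an action, and isometries of hyperbolic spaces.
-/

namespace Pool.Agent.P.MP_46a8f8_ag.GU

open TensorProduct Function

universe u

namespace BcP

variable {R A k : Type u} [CommRing R] [Ring A] [Algebra R A] [CommRing k] [Algebra R k]

/-- equivariance can be checked on pure tensors -/
theorem eqv_bc {X : RM R A R} {Z : RM R A k} (f : (X.bc k).M →ₗ[k] Z.M)
    (h : ∀ (a : A) (c : k) (m : X.M), f (c ⊗ₜ X.ρ a m) = Z.ρ a (f (c ⊗ₜ m))) :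
    Eqv (X.bc k) Z f := fun a x => by
  induction x using TensorProduct.induction_on with
  | zero => simp only [map_zero]
  | tmul c m => exact h a c m
  | add x y hx hy => simp only [map_add, hx, hy]

theorem bc_sub (X : RM R A R) (e : X.M →ₗ[R] X.M) (h : X.Stab (LinearMap.range e))
    (h' : (X.bc k).Stab (LinearMap.range (e.baseChange k))) (he : ∀ x, e (e x) = e x) :
    ((X.sub _ h).bc k).Iso ((X.bc k).sub _ h') := by
  have h1 : e.rangeRestrict ∘ₗ (LinearMap.range e).subtype = LinearMap.id :=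
    LinearMap.ext fun ⟨_, x, rfl⟩ => Subtype.ext (he x)
  have h2 : ∀ y, e.rangeRestrict.baseChange k ((LinearMap.range e).subtype.baseChange k y) = y :=
    fun y => by
      rw [← LinearMap.comp_apply, ← LinearMap.baseChange_comp, h1, LinearMap.baseChange_id,
        LinearMap.id_apply]
  have h3 : ∀ x, (LinearMap.range e).subtype.baseChange k (e.rangeRestrict.baseChange k x) =
      e.baseChange k x := fun x => by
    rw [← LinearMap.comp_apply, ← LinearMap.baseChange_comp]
    rfl
  let f : ((X.sub _ h).bc k).M →ₗ[k] ((X.bc k).sub _ h').M :=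
    ((LinearMap.range e).subtype.baseChange k).codRestrict (LinearMap.range (e.baseChange k))
      fun y => ⟨(LinearMap.range e).subtype.baseChange k y, by rw [← h3, h2]⟩
  have hf : Bijective f := by
    refine ⟨fun y y' hy => ?_, ?_⟩
    · rw [← h2 y, ← h2 y']
      exact congrArg (e.rangeRestrict.baseChange k) (congrArg Subtype.val hy)
    · rintro ⟨_, x, rfl⟩
      exact ⟨e.rangeRestrict.baseChange k x, Subtype.ext (h3 x)⟩
  exact ⟨LinearEquiv.ofBijective f hf, eqv_bc f fun a c m => rfl⟩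

variable [StarRing A] [SA R A]

theorem bc_dual (X : RM R A R) (h : X.FF) : (X.dual.bc k).Iso (X.bc k).dual := by
  obtain ⟨_, _⟩ := h
  have ibc := TensorProduct.isBaseChange R X.M k
  refine ⟨ibc.toDualBaseChange, eqv_bc (X := X.dual) (Z := (X.bc k).dual)
    ibc.toDualBaseChange.toLinearMap fun a c ξ => ?_⟩
  refine ibc.algHom_ext _ _ fun v => ?_
  exact (ibc.toDualBaseChange_tmul c _ v).trans
    (ibc.toDualBaseChange_tmul c ξ (X.ρ (star a) v)).symm

variable {ε : ℤˣ}

theorem hyp_of_proj {E : FM R A R R} {e : E.M →ₗ[R] E.M} (h : E.Stab (LinearMap.range e))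
    (hE : E.Sp ε) (he : E.IsProj e) : E.Iso ((E.toRM.sub _ h).hyp ε) := by
  let f : E.M →ₗ[R] ((E.toRM.sub _ h).hyp ε).M :=
    e.rangeRestrict.prod (E.b.compl₂ (LinearMap.range e).subtype)
  have h1 : ∀ x y, ((E.toRM.sub _ h).hyp ε).b (f x) (f y) = E.b x y := fun x y => by
    change E.b x (e y) + ε • E.b y (e x) = _
    rw [hE.good.sym (e x) y, usmul_usmul, add_comm, he.2.2]
  have h2 : ∀ x y, E.b (e x) (e y) = 0 := fun x y => by
    have := he.2.2 (e x) (e y)
    rwa [he.2.1, he.2.1, add_eq_left] at this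
  have hf : Bijective f := by
    refine ⟨(injective_iff_map_eq_zero f).2 fun x hx => hE.perf.eq_zero fun y => ?_, ?_⟩
    · rw [← h1, hx, map_zero, LinearMap.zero_apply]
    · rintro ⟨⟨_, n, rfl⟩, ξ⟩
      obtain ⟨x, hx⟩ := hE.perf.exists (ξ ∘ₗ e.rangeRestrict)
      refine ⟨e n + (x - e x), Prod.ext (Subtype.ext ?_) (LinearMap.ext ?_)⟩
      · change e (e n + (x - e x)) = e n
        rw [map_add, map_sub, he.2.1, he.2.1, sub_self, add_zero]
      · rintro ⟨_, y, rfl⟩
        change E.b (e n + (x - e x)) (e y) = _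
        rw [map_add, map_sub, LinearMap.add_apply, LinearMap.sub_apply, h2, h2, hx, zero_add,
          sub_zero]
        exact congrArg ξ (Subtype.ext (he.2.1 y))
  exact ⟨LinearEquiv.ofBijective f hf, fun a x => Prod.ext (Subtype.ext (he.1 a x))
    (LinearMap.ext fun y => hE.good.adj a x y), h1⟩

theorem hyp_congr {X Y : RM R A R} (h : X.Iso Y) : (X.hyp ε).Iso (Y.hyp ε) := by
  obtain ⟨e, he⟩ := h
  refine ⟨e.prodCongr e.symm.dualMap, fun a m => Prod.ext (he a m.1)
    (Eqv.dualMap (f := e.symm.toLinearMap) he.symm a m.2), fun x y => ?_⟩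
  change x.2 (e.symm (e y.1)) + ε • y.2 (e.symm (e x.1)) = x.2 y.1 + ε • y.2 x.1
  rw [e.symm_apply_apply, e.symm_apply_apply]

theorem hyp_prod (X Y : RM R A R) : ((X.prod Y).hyp ε).Iso ((X.hyp ε).sum (Y.hyp ε)) := by
  refine FM.Iso.symm ⟨(LinearEquiv.prodProdProdComm R X.M (Module.Dual R X.M) Y.M
    (Module.Dual R Y.M)).trans ((LinearEquiv.refl R _).prodCongr
      (Module.dualProdDualEquivDual R X.M Y.M)), fun a m => rfl, fun x y => ?_⟩
  change x.1.2 y.1.1 + x.2.2 y.2.1 + ε • (y.1.2 x.1.1 + y.2.2 x.2.1) =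
    x.1.2 y.1.1 + ε • y.1.2 x.1.1 + (x.2.2 y.2.1 + ε • y.2.2 x.2.1)
  rw [smul_add, add_add_add_comm]

end BcP

open BcP

theorem pBc : S_Bc.{u} := by
  intro R A k _ _ _ _ _ _ _ X Y
  refine ⟨fun ⟨e, he⟩ => ⟨e.baseChange R k _ _, eqv_bc (Z := Y.bc k)
      (e.baseChange R k _ _).toLinearMap fun a c m => congrArg (c ⊗ₜ[R] ·) (he a m)⟩,
    ⟨prodRight R k k X.M Y.M, eqv_bc (X := X.prod Y) (Z := (X.bc k).prod (Y.bc k))
      (prodRight R k k X.M Y.M).toLinearMap fun a c m => rfl⟩, bc_dual X, bc_sub X⟩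

theorem pHypIso : S_HypIso.{u} := by
  intro R A _ _ _ _ _ _ ε
  refine ⟨fun E e h hE he => ?_, fun X Y => hyp_congr, hyp_prod⟩
  have := hE.free
  have := hE.good.fin
  have h1 : Module.Finite R (LinearMap.range e) := Module.Finite.range e
  have h2 : Module.Projective R (LinearMap.range e) :=
    Module.Projective.of_split (LinearMap.range e).subtype e.rangeRestrict
      (LinearMap.ext fun ⟨_, x, rfl⟩ => Subtype.ext (he.2.1 x))
  have h3 : Module.Free R (LinearMap.range e) := Module.free_of_flat_of_isLocalRing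
  have h4 := hyp_of_proj h hE he
  refine ⟨⟨h3, h1⟩, h4, ?_⟩
  obtain ⟨f, -⟩ := h4
  refine f.finrank_eq.trans ?_
  change Module.finrank R (LinearMap.range e × Module.Dual R (LinearMap.range e)) = _
  rw [Module.finrank_prod, Module.finrank_linearMap_self, two_mul]

end Pool.Agent.P.MP_46a8f8_ag.GU
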