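import Pool.Agent.P.MP_46a8f8_ag.GU.Sp
import Pool.Agent.P.MP_46a8f8_ag.Model

/-!
The finite cover of the chart of the blow up is regular at the zeros of `G`.
-/

namespace Pool.Agent.P.MP_46a8f8_ag.GU

open Polynomial

universe u

namespace BlRP

variable {R : Type u} [CommRing R]

theorem der_mem {N : Ideal R[X]} {z : R[X]} (h : z ∈ N ^ 2) : derivative z ∈ N := by
  rw [pow_two] at h
  refine Submodule.mul_induction_on h (fun a ha b hb => ?_) fun a b ha hb => ?_
  · rw [derivative_mul]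
    exact N.add_mem (N.mul_mem_left _ hb) (N.mul_mem_right _ ha)
  · rw [derivative_add]
    exact N.add_mem ha hb

theorem monic_not_mem {m : Ideal R} (hm : m ≠ ⊤) {g : R[X]} (hg : g.Monic) : g ∉ m.map C :=
  fun h => hm ((Ideal.eq_top_iff_one m).2 (hg.coeff_natDegree ▸ Ideal.mem_map_C_iff.1 h _))

theorem mem_pair {s t : R} {z : R[X]} (h : z ∈ (Ideal.span {s, t}).map (C : R →+* R[X])) :
    ∃ a b, a * C s + b * C t = z := by
  rw [Ideal.map_span, Set.image_pair] at h
  exact Ideal.mem_span_pair.1 h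

theorem key {m : Ideal R} {s t : R} (hp : PS m s t) (hr : Rq t s) {N : Ideal R[X]}
    (hN : N.IsPrime) (hm : (N.comap C).IsMaximal) {G : R[X]} (hG : G.Monic) (hGN : G ∈ N)
    (hY : Yp s t ∈ N) {σ : R[X]} (hσ : σ * Yp s t ∈ N ^ 2) : σ ∈ N := by
  by_cases ht : t ∈ N.comap C
  · have e : N.comap C = m := by
      by_contra hn
      exact (hp.oth _ hm hn).2 ht
    obtain ⟨h, hh, e'⟩ := Polynomial.exists_monic_span_sup_map_eq R N hm fun e0 =>
      monic_not_mem hm.ne_top hG (e0 ▸ hGN)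
    have hhN : h ∈ N := by
      rw [e']
      exact Ideal.mem_sup_right (Ideal.mem_span_singleton_self h)
    rw [e, hp.gen] at e'
    have k1 : ∀ x ∈ N, ∃ a b d, x = a * C s + b * C t + d * h := fun x hx => by
      rw [e'] at hx
      obtain ⟨y, hy, z, hz, rfl⟩ := Submodule.mem_sup.1 hx
      obtain ⟨a, b, rfl⟩ := mem_pair hy
      obtain ⟨d, rfl⟩ := Ideal.mem_span_singleton'.1 hz
      exact ⟨a, b, d, rfl⟩
    have k2 : ∃ a n₁ n₂, n₁ ∈ N ∧ σ * Yp s t = a * h ^ 2 + n₁ * C s + n₂ * C t := by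
      rw [pow_two] at hσ
      refine Submodule.mul_induction_on (C := fun z => ∃ a n₁ n₂, n₁ ∈ N ∧
        z = a * h ^ 2 + n₁ * C s + n₂ * C t) hσ (fun x hx y hy => ?_) ?_
      · obtain ⟨a, b, d, rfl⟩ := k1 x hx
        obtain ⟨a', b', d', e1⟩ := k1 y hy
        refine ⟨d * d', a * y + d * a' * h, b * y + d * b' * h,
          N.add_mem (N.mul_mem_left _ hy) (N.mul_mem_left _ hhN), ?_⟩
        linear_combination d * h * e1
      · rintro _ _ ⟨a, n₁, n₂, h1, rfl⟩ ⟨a', n₁', n₂', h1', rfl⟩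
        exact ⟨a + a', n₁ + n₁', n₂ + n₂', N.add_mem h1 h1', by ring⟩
    obtain ⟨a, n₁, n₂, h1, e1⟩ := k2
    have hmp : (m.map (C : R →+* R[X])).IsPrime :=
      (Ideal.isPrime_map_C_iff_isPrime m).2 hp.max.isPrime
    have hs : C s ∈ m.map (C : R →+* R[X]) :=
      Ideal.mem_map_of_mem _ (hp.gen ▸ Ideal.subset_span (by simp))
    have ht' : C t ∈ m.map (C : R →+* R[X]) :=
      Ideal.mem_map_of_mem _ (hp.gen ▸ Ideal.subset_span (by simp))
    have ha : a * h ^ 2 ∈ m.map (C : R →+* R[X]) := by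
      have : a * h ^ 2 = (σ * X - n₂) * C t - (σ + n₁) * C s := by
        rw [Yp] at e1
        linear_combination -e1
      rw [this]
      exact Ideal.sub_mem _ (Ideal.mul_mem_left _ _ ht') (Ideal.mul_mem_left _ _ hs)
    have ha' := (hmp.mem_or_mem ha).resolve_right (monic_not_mem hp.max.ne_top (hh.pow 2))
    rw [hp.gen] at ha'
    obtain ⟨a₁, a₂, rfl⟩ := mem_pair ha'
    obtain ⟨k, hk⟩ := hr.poly.two (σ + a₁ * h ^ 2 + n₁) ⟨σ * X - a₂ * h ^ 2 - n₂, by
      rw [Yp] at e1
      linear_combination -e1⟩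
    have : σ = k * C t - a₁ * h * h - n₁ := by linear_combination hk
    rw [this]
    exact N.sub_mem (N.sub_mem (N.mul_mem_left _ ht) (N.mul_mem_left _ hhN)) h1
  · have h1 := der_mem hσ
    have e : derivative (Yp s t) = C t := by simp [Yp]
    rw [derivative_mul, e] at h1
    have h2 := N.sub_mem h1 (N.mul_mem_left (derivative σ) hY)
    rw [add_sub_cancel_left] at h2
    exact (hN.mem_or_mem h2).resolve_right ht

end BlRP

theorem pBlR : S_BlR.{u} := by
  intro R _ _ m s t G hp hr hG hd hreg N hN hGN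
  have hf : (G ^ 2 + Yp s t).Monic := (hG.pow 2).add_of_left (degree_lt_degree (by
    have := natDegree_Yp s t
    rw [hG.natDegree_pow]
    omega))
  have hs : Function.Surjective (AdjoinRoot.mk (G ^ 2 + Yp s t)) := AdjoinRoot.mk_surjective
  have hN' : (N.comap (AdjoinRoot.mk (G ^ 2 + Yp s t))).IsMaximal :=
    Ideal.comap_isMaximal_of_surjective _ hs
  set N' := N.comap (AdjoinRoot.mk (G ^ 2 + Yp s t)) with hNd
  have hfN : G ^ 2 + Yp s t ∈ N' := by
    rw [hNd, Ideal.mem_comap, AdjoinRoot.mk_self]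
    exact N.zero_mem
  have hG' : G ∈ N' := hGN
  have hY : Yp s t ∈ N' := by
    have := N'.sub_mem hfN (N'.pow_mem_of_mem hG' 2 two_pos)
    rwa [add_sub_cancel_left] at this
  have hm : (N'.comap C).IsMaximal := by
    have := hf.finite_adjoinRoot
    exact Ideal.isMaximal_comap_of_isIntegral_of_isMaximal (R := R) N
  have hv' : hv s t G.natDegree G ∈ N'.comap C := by
    obtain ⟨k, hk⟩ := Yp_dvd s t (le_refl G.natDegree)
    have : C (hv s t G.natDegree G) = C t ^ G.natDegree * G - k * Yp s t := by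
      linear_combination -hk
    rw [Ideal.mem_comap, this]
    exact N'.sub_mem (N'.mul_mem_left _ hG') (N'.mul_mem_left _ hY)
  have h3 := cut R[X] N' 2 (G ^ 2 + Yp s t) (ModelP.regAt_poly N' hm (hreg _ hm hv')) hfN
    fun σ hσ h => hσ (BlRP.key hp hr hN'.isPrime hm hG hG' hY (by
      have := (N' ^ 2).sub_mem h ((N' ^ 2).mul_mem_left σ (Ideal.pow_mem_pow hG' 2))
      rwa [mul_add, add_sub_cancel_left] at this))
  have e : N'.map (AdjoinRoot.mk (G ^ 2 + Yp s t)) = N := Ideal.map_comap_of_surjective _ hs N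
  rw [← e]
  exact h3

end Pool.Agent.P.MP_46a8f8_ag.GU
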