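import Pool.Agent.P.MP_46a8f8_ag.GU.Ad

/-!
Primes of height one in regular local rings of dimension two, and locally principal ideals.
-/

namespace Pool.Agent.P.MP_46a8f8_ag.GU

open TensorProduct Function Matrix IsLocalRing

universe u

namespace Ht1P

/-- regular local rings of dimension at most one are principal -/
theorem pid (O : Type u) [CommRing O] [IsRegularLocalRing O] (h : ringKrullDim O + 1 ≤ 2) :
    IsPrincipalIdealRing O := by
  have := rDom O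
  rw [← ((IsRegularLocalRing.iff_finrank_cotangentSpace O).1 inferInstance)] at h
  have h1 : Module.finrank (ResidueField O) (CotangentSpace O) + 1 ≤ 2 := by exact_mod_cast h
  have h2 : Module.finrank (ResidueField O) (CotangentSpace O) ≤ 1 := by omega
  exact ((tfae_of_isNoetherianRing_of_isLocalRing_of_isDomain O).out 5 0).1 h2

end Ht1P

theorem pHt1 : S_Ht1.{u} := by
  intro O _ _ p hd hp hpm
  have hle : p ≤ maximalIdeal O := le_maximalIdeal hp.ne_top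
  have hj : maximalIdeal O ≤ Ideal.jacobson ⊥ := (maximalIdeal_le_jacobson _)
  have hav : ¬ ((maximalIdeal O : Set O) ⊆ (maximalIdeal O ^ 2 : Ideal O) ∪ p) := by
    rw [Ideal.subset_union]
    rintro (h | h)
    · have h0 : maximalIdeal O ≤ ⊥ :=
        Submodule.le_of_le_smul_of_le_jacobson_bot (maximalIdeal O).fg_of_isNoetherianRing hj
          (by rwa [bot_sup_eq, smul_eq_mul, ← pow_two])
      exact hpm (le_antisymm hle (h0.trans bot_le))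
    · exact hpm (le_antisymm hle h)
  obtain ⟨x, hx, hxn⟩ := Set.not_subset.1 hav
  simp only [Set.mem_union, SetLike.mem_coe, not_or] at hxn
  obtain ⟨h1, h2⟩ := rQuot O x hx hxn.1
  have h3 := Ht1P.pid (O ⧸ Ideal.span {x}) (h2.trans_le hd)
  have hsurj : Surjective (Ideal.Quotient.mk (Ideal.span {x})) := Ideal.Quotient.mk_surjective
  obtain ⟨gb, hgb⟩ := (IsPrincipalIdealRing.principal
    (p.map (Ideal.Quotient.mk (Ideal.span {x})))).principal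
  obtain ⟨g, hg, rfl⟩ := (Ideal.mem_map_iff_of_surjective _ hsurj).1
    (hgb.ge (Submodule.mem_span_singleton_self gb))
  refine ⟨g, le_antisymm (Submodule.le_of_le_smul_of_le_jacobson_bot p.fg_of_isNoetherianRing hj
    fun b hb => ?_) ((Submodule.span_singleton_le_iff_mem _ _).2 hg)⟩
  obtain ⟨cb, hc⟩ := Submodule.mem_span_singleton.1 (hgb.le (Ideal.mem_map_of_mem _ hb))
  obtain ⟨c, rfl⟩ := hsurj cb
  rw [smul_eq_mul, ← map_mul, eq_comm, Ideal.Quotient.eq, Ideal.mem_span_singleton] at hc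
  obtain ⟨y, hy⟩ := hc
  have hyp : y ∈ p :=
    (hp.mem_or_mem (hy ▸ p.sub_mem hb (p.mul_mem_left c hg))).resolve_left hxn.2
  rw [sub_eq_iff_eq_add'.1 hy]
  exact Submodule.add_mem_sup (Submodule.smul_mem _ c (Submodule.mem_span_singleton_self g))
    (Submodule.smul_mem_smul hx hyp)

theorem pLP : S_LP.{u} := by
  intro T _ _ q h
  classical
  have := Fintype.ofFinite (MaximalSpectrum T)
  choose g hg hdiv using fun 𝔫 : MaximalSpectrum T => h 𝔫.asIdeal 𝔫.isMaximal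
  choose j hj hj1 using fun 𝔫 : MaximalSpectrum T => exists_mem_sub_one_mem 𝔫.asIdeal
  have hG : ∑ 𝔫, (1 - j 𝔫) * g 𝔫 ∈ q := q.sum_mem fun 𝔫 _ => q.mul_mem_left _ (hg 𝔫)
  set G := ∑ 𝔫, (1 - j 𝔫) * g 𝔫 with hGd
  have key : ∀ 𝔫 : MaximalSpectrum T, ∃ s, s ∉ 𝔫.asIdeal ∧ ∃ c ∈ 𝔫.asIdeal,
      s * (G - g 𝔫) = c * g 𝔫 := fun 𝔫 => by
    have hP := 𝔫.isMaximal.isPrime
    have h1 : (1 : T) ∉ 𝔫.asIdeal := (Ideal.ne_top_iff_one _).1 hP.ne_top
    have hadd : ∀ y z : T, (∃ s, s ∉ 𝔫.asIdeal ∧ ∃ c ∈ 𝔫.asIdeal, s * y = c * g 𝔫) →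
        (∃ s, s ∉ 𝔫.asIdeal ∧ ∃ c ∈ 𝔫.asIdeal, s * z = c * g 𝔫) →
        ∃ s, s ∉ 𝔫.asIdeal ∧ ∃ c ∈ 𝔫.asIdeal, s * (y + z) = c * g 𝔫 := by
      rintro y z ⟨s, hs, c, hc, e⟩ ⟨s', hs', c', hc', e'⟩
      exact ⟨s * s', fun h => (hP.mem_or_mem h).elim hs hs', s' * c + s * c',
        add_mem (Ideal.mul_mem_left _ _ hc) (Ideal.mul_mem_left _ _ hc'),
        by linear_combination s' * e + s * e'⟩
    have e : G - g 𝔫 = -j 𝔫 * g 𝔫 + ∑ 𝔭 ∈ Finset.univ.erase 𝔫, (1 - j 𝔭) * g 𝔭 := by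
      rw [hGd, ← Finset.add_sum_erase _ _ (Finset.mem_univ 𝔫)]
      ring
    rw [e]
    refine hadd _ _ ⟨1, h1, _, neg_mem (hj 𝔫), one_mul _⟩ (Finset.sum_induction _
      (fun y => ∃ s, s ∉ 𝔫.asIdeal ∧ ∃ c ∈ 𝔫.asIdeal, s * y = c * g 𝔫) hadd
      ⟨1, h1, 0, zero_mem _, by simp⟩ fun 𝔭 h𝔭 => ?_)
    obtain ⟨s, hs, c, e⟩ := hdiv 𝔫 _ (hg 𝔭)
    have h2 := hj1 𝔭 _ 𝔫.isMaximal fun hle => Finset.ne_of_mem_erase h𝔭
      (MaximalSpectrum.ext (𝔭.isMaximal.eq_of_le hP.ne_top hle))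
    exact ⟨s, hs, -((j 𝔭 - 1) * c), neg_mem (Ideal.mul_mem_right _ _ h2),
      by linear_combination (1 - j 𝔭) * e⟩
  refine ⟨G, le_antisymm (fun b hb => ?_) ((Submodule.span_singleton_le_iff_mem _ _).2 hG)⟩
  by_contra hn
  have hne : (Ideal.span {G}).colon {b} ≠ ⊤ := fun h => hn (by
    simpa using Submodule.mem_colon_singleton.1 ((Ideal.eq_top_iff_one _).1 h))
  obtain ⟨𝔫, h𝔫, hle⟩ := Ideal.exists_le_maximal _ hne
  obtain ⟨s, hs, c, hc, e⟩ := key ⟨𝔫, h𝔫⟩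
  obtain ⟨s', hs', c', e'⟩ := hdiv ⟨𝔫, h𝔫⟩ b hb
  have h3 : (s + c) * s' ∈ 𝔫 := hle (Submodule.mem_colon_singleton.2
    (Ideal.mem_span_singleton.2 ⟨s * c', by
      rw [smul_eq_mul]; linear_combination (s + c) * e' - c' * e⟩))
  rcases h𝔫.isPrime.mem_or_mem h3 with h4 | h4
  · exact hs (by simpa using 𝔫.sub_mem h4 hc)
  · exact hs' h4

end Pool.Agent.P.MP_46a8f8_ag.GU
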