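import Pool.Agent.P.MP_46a8f8_ag.GU.Sp
import Pool.Agent.P.MP_46a8f8_ag.GU.Ht1

/-!
The square root on the finite cover.
-/

namespace Pool.Agent.P.MP_46a8f8_ag.GU

open TensorProduct Function IsLocalRing Polynomial

universe u

theorem pBlZ : S_BlZ.{u} := by
  intro R _ m s t w z G e _ hP hR hG hw h hn
  have := hP.max.isPrime
  have h1 : ∀ a ∈ m.map (C : R →+* R[X]), ∃ a₁, Yp s t ∣ a - C t * a₁ := fun a ha => by
    rw [hP.gen, Ideal.map_span, Set.image_pair] at ha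
    obtain ⟨x, y, rfl⟩ := Ideal.mem_span_pair.1 ha
    exact ⟨x * X + y, -x, by rw [Yp]; ring⟩
  have hs : C s ∈ m.map (C : R →+* R[X]) :=
    Ideal.mem_map_of_mem _ (hP.gen ▸ Ideal.subset_span (by simp))
  have ht : C t ∈ m.map (C : R →+* R[X]) :=
    Ideal.mem_map_of_mem _ (hP.gen ▸ Ideal.subset_span (by simp))
  have h2 : ∀ (k : ℕ) (z' : R[X]), Yp s t ∣ C t ^ (2 * k) * G - C w * z' ^ 2 →
      ∃ ζ, Yp s t ∣ G - C w * ζ ^ 2 := by
    intro k
    induction k with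
    | zero => exact fun z' h => ⟨z', by simpa using h⟩
    | succ k ih =>
      rintro z' ⟨a, ha⟩
      have h3 : C w * z' ^ 2 ∈ m.map (C : R →+* R[X]) := by
        convert Ideal.sub_mem _ (Ideal.mul_mem_right (C t ^ (2 * k + 1) * G) _ ht)
          (Ideal.mul_mem_right a _ (Ideal.sub_mem _ (Ideal.mul_mem_right X _ ht) hs)) using 1
        rw [Yp] at ha
        linear_combination -ha
      have h4 : z' ∈ m.map (C : R →+* R[X]) :=
        Ideal.IsPrime.mem_of_pow_mem inferInstance 2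
          ((Ideal.unit_mul_mem_iff_mem _ (hw.map C)).1 h3)
      obtain ⟨z₁, b, hb⟩ := h1 z' h4
      refine ih z₁ (hR.cancel_pow 2 ⟨a + C w * b * (z' + C t * z₁), ?_⟩)
      linear_combination ha + C w * (z' + C t * z₁) * hb
  obtain ⟨ζ, k, hk⟩ := h2 e (C z) (by
    have := Yp_dvd s t hG
    rwa [h, map_mul, map_pow] at this)
  set π := AdjoinRoot.mk (G ^ 2 + Yp s t) with hπ
  have h3 : π G * (1 + π G * π k) = π (C w) * π ζ ^ 2 := by
    have e1 := congrArg π hk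
    have e2 : π (G ^ 2 + Yp s t) = 0 := AdjoinRoot.mk_self
    simp only [map_sub, map_mul, map_pow, map_add] at e1 e2
    linear_combination e1 + π k * e2
  obtain ⟨w', hw'⟩ := ((hw.map C).map π).exists_left_inv
  obtain ⟨ζ', hζ'⟩ := pLP _ (Ideal.span {π G, π ζ}) fun N hN => by
    by_cases hGN : π G ∈ N
    · refine ⟨π ζ, Ideal.subset_span (by simp), fun b hb => ⟨1 + π G * π k, fun h => ?_, ?_⟩⟩
      · exact hN.ne_top ((Ideal.eq_top_iff_one _).2
          (by simpa using N.sub_mem h (N.mul_mem_right (π k) hGN)))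
      · obtain ⟨x, y, rfl⟩ := Ideal.mem_span_pair.1 hb
        exact ⟨x * π (C w) * π ζ + y * (1 + π G * π k), by linear_combination x * h3⟩
    · exact ⟨π G, Ideal.subset_span (by simp), fun b _ => ⟨π G, hGN, dvd_mul_right _ _⟩⟩
  have hζ : Ideal.span {π G, π ζ} = Ideal.span {ζ'} := hζ'
  obtain ⟨x, y, hxy⟩ := Ideal.mem_span_pair.1 (hζ ▸ Ideal.mem_span_singleton_self ζ')
  obtain ⟨a, ha⟩ := Ideal.mem_span_singleton'.1
    (hζ ▸ Ideal.subset_span (by simp) : π G ∈ Ideal.span {ζ'})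
  obtain ⟨b, hb⟩ := Ideal.mem_span_singleton'.1
    (hζ ▸ Ideal.subset_span (by simp) : π ζ ∈ Ideal.span {ζ'})
  have e1 : π G = (π (C w) * b ^ 2 - a ^ 2 * π k) * ζ' ^ 2 := by
    linear_combination h3 - π (C w) * (π ζ + b * ζ') * hb + π k * (π G + a * ζ') * ha
  have e2 : ζ' ^ 2 = π G * (x ^ 2 * π G + 2 * x * y * π ζ + y ^ 2 * w' * (1 + π G * π k)) := by
    linear_combination -(ζ' + x * π G + y * π ζ) * hxy - y ^ 2 * w' * h3 - y ^ 2 * π ζ ^ 2 * hw'
  refine ⟨_, ζ', IsUnit.of_mul_eq_one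
    (x ^ 2 * π G + 2 * x * y * π ζ + y ^ 2 * w' * (1 + π G * π k)) ?_, e1⟩
  refine sub_eq_zero.1 (mem_nonZeroDivisors_iff_left.1 hn _ ?_)
  linear_combination -e1 - (π (C w) * b ^ 2 - a ^ 2 * π k) * e2

end Pool.Agent.P.MP_46a8f8_ag.GU
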