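import Pool.Agent.P.MP_46a8f8_ag.GU.Su

/-!
Block reduction of a unit of a corner.
-/

namespace Pool.Agent.P.MP_46a8f8_ag.GU

universe u

namespace BlkP

variable {E : Type u} [Ring E] {H : Subgroup Eˣ} {e₁ e₂ f : E}

theorem elem (h2 : IsUnit (2 : E)) (hc : ∀ x y : Eˣ, x * y * x⁻¹ * y⁻¹ ∈ H) {p x : E}
    (pp : p * p = p) (px : p * x = x) (xp : x * p = 0) : ∃ u ∈ H, (u : E) = 1 + x := by
  obtain ⟨h, hh⟩ := h2
  have a1 : (2 : E) * ↑h⁻¹ = 1 := by rw [← hh, Units.mul_inv]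
  have a2 : ↑h⁻¹ * (2 : E) = 1 := by rw [← hh, Units.inv_mul]
  generalize (↑h⁻¹ : E) = k at a1 a2
  have ck : k * p = p * k := by
    linear_combination (norm := noncomm_ring) -(k * p * a1) + a2 * p * k
  obtain ⟨w, hw⟩ : ∃ w, w = -(k * x) := ⟨_, rfl⟩
  have pw : p * w = w := by
    rw [hw, mul_neg, ← mul_assoc, ← ck, mul_assoc, px]
  have wp : w * p = 0 := by rw [hw, neg_mul, mul_assoc, xp, mul_zero, neg_zero]
  have ww : w * w = 0 := by rw [← pw, mul_assoc, ← mul_assoc w, wp, zero_mul, mul_zero]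
  have w2 : 2 * w = -x := by rw [hw, mul_neg, ← mul_assoc, a1, one_mul]
  have tt : (1 - 2 * p) * (1 - 2 * p) = 1 := by
    linear_combination (norm := noncomm_ring) 4 * pp
  refine ⟨_, hc ⟨1 - 2 * p, 1 - 2 * p, tt, tt⟩ ⟨1 + w, 1 - w, ?_, ?_⟩, ?_⟩
  · linear_combination (norm := noncomm_ring) -ww
  · linear_combination (norm := noncomm_ring) -ww
  · change (1 - 2 * p) * (1 + w) * (1 - 2 * p) * (1 - w) = 1 + x
    have e : (1 - 2 * p) * (1 + w) * (1 - 2 * p) = 1 - w := by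
      linear_combination (norm := noncomm_ring) tt - 2 * pw - 2 * wp + 4 * p * wp
    rw [e]
    linear_combination (norm := noncomm_ring) ww - w2

/-- the data -/
structure Dt (H : Subgroup Eˣ) (e₁ e₂ f : E) : Prop where
  two : IsUnit (2 : E)
  com : ∀ x y : Eˣ, x * y * x⁻¹ * y⁻¹ ∈ H
  i1 : e₁ * e₁ = e₁
  i2 : e₂ * e₂ = e₂
  o1 : e₁ * e₂ = 0
  o2 : e₂ * e₁ = 0
  s : f = 1 - (e₁ + e₂)
  x1 : ∀ g, Ex e₁ g → g ∈ H
  x2 : ∀ g, Ex e₂ g → g ∈ H

namespace Dt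

variable (D : Dt H e₁ e₂ f)
include D

theorem f1 : f * e₁ = 0 := by rw [D.s, sub_mul, add_mul, D.i1, D.o2]; simp

theorem f2 : f * e₂ = 0 := by rw [D.s, sub_mul, add_mul, D.i2, D.o1]; simp

theorem g1 : e₁ * f = 0 := by rw [D.s, mul_sub, mul_add, D.i1, D.o1]; simp

theorem g2 : e₂ * f = 0 := by rw [D.s, mul_sub, mul_add, D.i2, D.o2]; simp

theorem last (g : Eˣ) (h1 : g * e₁ = e₁) (h2 : f * g = f) (h3 : g * f = f) : g ∈ H := by
  obtain ⟨u, hu, eu⟩ := elem D.two D.com (p := e₁) (x := -(e₁ * g * e₂)) D.i1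
    (by rw [mul_neg, ← mul_assoc, ← mul_assoc, D.i1]) (by rw [neg_mul, mul_assoc, D.o2]; simp)
  refine (H.mul_mem_cancel_right hu).1 (D.x2 _ ⟨e₂ * g * e₂,
    ⟨by rw [← mul_assoc, ← mul_assoc, D.i2], by rw [mul_assoc, D.i2]⟩, ?_⟩)
  rw [Units.val_mul, eu]
  have s := D.s
  linear_combination (norm := noncomm_ring) h1 - h1 * g * e₂ + h3 + h2 * e₂ + D.f2 - g * s -
    s * g * e₂ + s

theorem mid (g : Eˣ) (h1 : e₁ * g * e₁ = e₁) (h2 : f * g = f) (h3 : g * f = f) : g ∈ H := by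
  obtain ⟨u, hu, eu⟩ := elem D.two D.com (p := e₂) (x := -(e₂ * g * e₁)) D.i2
    (by rw [mul_neg, ← mul_assoc, ← mul_assoc, D.i2]) (by rw [neg_mul, mul_assoc, D.o1]; simp)
  have s := D.s
  refine (H.mul_mem_cancel_left hu).1 (D.last _ ?_ ?_ ?_) <;> rw [Units.val_mul, eu]
  · linear_combination (norm := noncomm_ring) h1 - e₂ * g * h1 + h2 * e₁ + D.f1 - s * g * e₁
  · linear_combination (norm := noncomm_ring) h2 - D.f2 * g * e₁ * g
  · linear_combination (norm := noncomm_ring) h3 - e₂ * g * e₁ * h3 - e₂ * g * D.g1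

theorem fst (g U : Eˣ) (h1 : (U : E) = e₁ * g * e₁ + (1 - e₁)) (h2 : f * g = f)
    (h3 : g * f = f) : g ∈ H := by
  have hU : U ∈ H := D.x1 U ⟨_, ⟨by rw [← mul_assoc, ← mul_assoc, D.i1],
    by rw [mul_assoc, D.i1]⟩, h1⟩
  have i1 := D.i1
  have a1 : U * e₁ = e₁ * g * e₁ := by
    linear_combination (norm := noncomm_ring) h1 * e₁ + e₁ * g * i1 - i1
  have a2 : e₁ * U = e₁ * g * e₁ := by
    linear_combination (norm := noncomm_ring) e₁ * h1 + i1 * g * e₁ - i1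
  have a3 : f * U = f := by
    linear_combination (norm := noncomm_ring) f * h1 + D.f1 * g * e₁ - D.f1
  have a4 : U * f = f := by
    linear_combination (norm := noncomm_ring) h1 * f + e₁ * g * D.g1 - D.g1
  have b1 : e₁ * ↑U⁻¹ = ↑U⁻¹ * e₁ := by
    rw [Units.mul_inv_eq_iff_eq_mul, mul_assoc, Units.eq_inv_mul_iff_mul_eq, a1, a2]
  refine (H.mul_mem_cancel_left (H.inv_mem hU)).1 (D.mid _ ?_ ?_ ?_) <;> rw [Units.val_mul]
  · rw [← mul_assoc, b1, mul_assoc, mul_assoc, ← mul_assoc e₁, ← a1, Units.inv_mul_cancel_left]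
  · rw [← mul_assoc, (Units.mul_inv_eq_iff_eq_mul U).2 a3.symm, h2]
  · rw [mul_assoc, h3, Units.inv_mul_eq_iff_eq_mul, a4]

end Dt

end BlkP

open BlkP in
theorem pBlk : S_Blk.{u} := by
  rintro E _ e₁ e₂ H hB h2 i1 i2 o1 o2 hc x1 x2 g ⟨d, ⟨d1, d2⟩, hg⟩
  obtain ⟨f, s⟩ : ∃ f, f = 1 - (e₁ + e₂) := ⟨_, rfl⟩
  have D : Dt H e₁ e₂ f := ⟨h2, hc, i1, i2, o1, o2, s, x1, x2⟩
  have ff : f * f = f := by
    linear_combination (norm := noncomm_ring) f * s - D.f1 - D.f2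
  have h2 : f * g = f := by
    linear_combination (norm := noncomm_ring) f * hg + s * d - d1 - f * s + ff
  have h3 : g * f = f := by
    linear_combination (norm := noncomm_ring) hg * f + d * s - d2 - s * f + ff
  have gi := g.inv_mul
  obtain ⟨l, hl, U, hU⟩ := hB (e₁ * g * e₁ + (1 - e₁)) (Submodule.span E {e₂ * g * e₁}) (by
    rw [← Submodule.span_union, Set.singleton_union, Ideal.submodule_span_eq,
      Ideal.eq_top_iff_one, Ideal.mem_span_pair]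
    refine ⟨1 - e₁ + ↑g⁻¹ * e₁, ↑g⁻¹, ?_⟩
    generalize (↑g⁻¹ : E) = k at gi
    linear_combination (norm := noncomm_ring) gi * e₁ - i1 * g * e₁ + i1 + k * i1 * g * e₁ -
      k * i1 + k * s * g * e₁ - k * h2 * e₁ - k * D.f1)
  obtain ⟨z, rfl⟩ := Submodule.mem_span_singleton.1 hl
  rw [smul_eq_mul] at hU
  obtain ⟨u, hu, eu⟩ := elem D.two D.com (p := e₁) (x := e₁ * z * e₂) i1
    (by rw [← mul_assoc, ← mul_assoc, i1]) (by rw [mul_assoc, o2, mul_zero])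
  obtain ⟨v, -, ev⟩ := elem D.two D.com (p := 1 - e₁) (x := -((1 - e₁) * z * e₂ * g * e₁))
    (by linear_combination (norm := noncomm_ring) i1)
    (by linear_combination (norm := noncomm_ring) -(i1 * z * e₂ * g * e₁))
    (by linear_combination (norm := noncomm_ring) (1 - e₁) * z * e₂ * g * i1)
  refine (H.mul_mem_cancel_left hu).1 (D.fst _ (U * v) ?_ ?_ ?_) <;>
    simp only [Units.val_mul, eu, ev, hU]
  · linear_combination (norm := noncomm_ring) e₁ * g * i1 * z * e₂ * g * e₁ -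
      i1 * z * e₂ * g * e₁ + z * e₂ * g * i1 * z * e₂ * g * e₁ - i1 * z * e₂ * g * e₁
  · linear_combination (norm := noncomm_ring) h2 + D.f1 * z * e₂ * g
  · linear_combination (norm := noncomm_ring) h3 + e₁ * z * e₂ * h3 + e₁ * z * D.g2

end Pool.Agent.P.MP_46a8f8_ag.GU
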