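import Pool.Agent.P.MP_46a8f8_ag.GU.Ad
import Pool.Agent.P.MP_46a8f8_ag.GU.GA
import Pool.Agent.P.MP_46a8f8_ag.GU.Sep

/-!
Two Azumaya algebras which are isomorphic over the fraction field are isomorphic.
-/

namespace Pool.Agent.P.MP_46a8f8_ag.GU

open TensorProduct Function

universe u

namespace BrP

/-- commensurable lattices have the same rank -/
theorem rank_eq {S V : Type u} [CommRing S] [IsDomain S] [AddCommGroup V] [Module S V]
    (N M : Submodule S V) (hle : N ≤ M) [Module.Finite S M] [Module.Finite S N]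
    (h : ∀ x : V, ∃ s : S, IsSMulRegular V s ∧ s • x ∈ N) :
    Module.finrank S M = Module.finrank S N := by
  have hM : M.FG := Module.Finite.iff_fg.1 inferInstance
  have key : ∀ P : Submodule S V, P.FG → ∃ s : S, IsSMulRegular V s ∧ ∀ x ∈ P, s • x ∈ N := by
    intro P hP
    refine Submodule.fg_induction
      (motive := fun P _ => ∃ s : S, IsSMulRegular V s ∧ ∀ x ∈ P, s • x ∈ N) ?_ ?_ P hP
    · intro x
      obtain ⟨s, hs, hx⟩ := h x
      refine ⟨s, hs, fun y hy => ?_⟩
      obtain ⟨c, rfl⟩ := Submodule.mem_span_singleton.1 hy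
      rw [smul_comm]
      exact N.smul_mem c hx
    · rintro P Q - - ⟨s, hs, hP⟩ ⟨t, ht, hQ⟩
      refine ⟨s * t, hs.mul ht, fun y hy => ?_⟩
      obtain ⟨a, ha, b, hb, rfl⟩ := Submodule.mem_sup.1 hy
      rw [smul_add]
      refine N.add_mem ?_ ?_
      · rw [mul_comm, mul_smul]
        exact N.smul_mem t (hP a ha)
      · rw [mul_smul]
        exact N.smul_mem s (hQ b hb)
  obtain ⟨s, hs, hsM⟩ := key M hM
  refine le_antisymm ?_ (Submodule.finrank_mono hle)
  let f : M →ₗ[S] N := LinearMap.codRestrict N (s • M.subtype) fun x => hsM x x.2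
  refine LinearMap.finrank_le_finrank_of_injective (f := f) fun x y hxy => ?_
  have e : s • (x : V) = s • (y : V) := congrArg Subtype.val hxy
  exact Subtype.ext (hs e)

/-- the bimodule lattice -/
theorem lattice (h2 : S_Prj.{u}) (R S A A' V : Type u) [CommRing R] [IsRegularLocalRing R]
    [CommRing S] [IsDomain S] [Algebra R S] [Module.Finite R S] [Algebra.Etale R S] [Ring A]
    [Algebra S A] [Module.Free S A] [Module.Finite S A] [Ring A'] [Algebra S A']
    [Module.Free S A'] [Module.Finite S A'] [Ring V] [Algebra S V] (f : A' →ₐ[S] V)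
    (g : A →ₐ[S] V) (hg : Injective g) (hE : Az S (A' ⊗[S] Aᵐᵒᵖ))
    (h : ∀ x : V, ∃ s : S, IsSMulRegular V s ∧ ∃ a, g a = s • x) :
    ∃ (P : Type u) (_ : AddCommGroup P) (_ : Module (A' ⊗[S] Aᵐᵒᵖ) P) (_ : Module S P)
      (_ : IsScalarTower S (A' ⊗[S] Aᵐᵒᵖ) P), Module.Free S P ∧ Module.Finite S P ∧
      Module.finrank S P = Module.finrank S A := by
  let ρ : A' ⊗[S] Aᵐᵒᵖ →ₐ[S] Module.End S V :=
    (AlgHom.mulLeftRight S V).comp (Algebra.TensorProduct.map f (AlgHom.op g))
  let : Module (A' ⊗[S] Aᵐᵒᵖ) V := Module.compHom V (ρ : A' ⊗[S] Aᵐᵒᵖ →+* Module.End S V)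
  have hρ : ∀ (e : A' ⊗[S] Aᵐᵒᵖ) (x : V), e • x = ρ e x := fun _ _ => rfl
  have : IsScalarTower S (A' ⊗[S] Aᵐᵒᵖ) V := ⟨fun s e x => by
    rw [hρ, hρ, map_smul, LinearMap.smul_apply]⟩
  let M : Submodule (A' ⊗[S] Aᵐᵒᵖ) V := Submodule.span _ {(1 : V)}
  have : Module.Finite (A' ⊗[S] Aᵐᵒᵖ) M := Module.Finite.span_singleton _ _
  have : Module.Finite S M := Module.Finite.trans (A' ⊗[S] Aᵐᵒᵖ) M
  obtain ⟨P, i1, i2, i3, i4, hP1, hP2, hP3⟩ := h2 R S (A' ⊗[S] Aᵐᵒᵖ) M hE
  refine ⟨P, i1, i2, i3, i4, hP1, hP2, hP3.trans ?_⟩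
  have hle : LinearMap.range g.toLinearMap ≤ M.restrictScalars S := by
    rintro _ ⟨a, rfl⟩
    refine Submodule.mem_span_singleton.2 ⟨(1 : A') ⊗ₜ[S] MulOpposite.op a, ?_⟩
    rw [hρ]
    simp [ρ]
  have : Module.Finite S (M.restrictScalars S) := ‹Module.Finite S M›
  have e := rank_eq (LinearMap.range g.toLinearMap) (M.restrictScalars S) hle h
  rw [LinearMap.finrank_range_of_inj hg] at e
  exact e

end BrP

theorem pBr (h1 : S_AzT.{u}) (h2 : S_Prj.{u}) (h3 : S_Br3.{u}) : S_Br.{u} := by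
  intro R S A A' K _ _ _ _ _ _ _ _ _ _ _ _ _ _ _ φ hA hA' hφ
  have gA := pGA0 pAzS pFreeS R S A hA
  have gA' := pGA0 pAzS pFreeS R S A' hA'
  have := hA.tower
  have := hA'.tower
  have := hA.dom
  have := hA.fin
  have := hA.et
  have := hA.az
  have := hA'.az
  have := gA.free
  have := gA.freeA
  have := gA'.freeA
  have := finite_maximalSpectrum R S
  have : IsDomain R := rDom R
  have : Module.Free R A := Module.Free.trans (S := S)
  have : Module.Free R A' := Module.Free.trans (S := S)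
  have hr : Module.finrank S A' = Module.finrank S A := by
    have hp : 0 < Module.finrank R S := (Module.finrank_pos_iff_of_free R S).2 inferInstance
    refine Nat.eq_of_mul_eq_mul_left hp ?_
    rw [Module.finrank_mul_finrank R S A', Module.finrank_mul_finrank R S A,
      ← Module.finrank_baseChange (R := K) (S := R) (M' := A'),
      ← Module.finrank_baseChange (R := K) (S := R) (M' := A)]
    exact φ.toLinearEquiv.finrank_eq
  let j : A →+* K ⊗[R] A :=
    (Algebra.TensorProduct.includeRight : A →ₐ[R] K ⊗[R] A)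
  let j' : A' →+* K ⊗[R] A' :=
    (Algebra.TensorProduct.includeRight : A' →ₐ[R] K ⊗[R] A')
  let : Algebra S (K ⊗[R] A) := (j.comp (algebraMap S A)).toAlgebra' (by
    intro s x
    induction x using TensorProduct.induction_on with
    | zero => simp
    | tmul k a =>
      change ((1 : K) ⊗ₜ[R] algebraMap S A s) * _ = _ * ((1 : K) ⊗ₜ[R] algebraMap S A s)
      rw [Algebra.TensorProduct.tmul_mul_tmul, Algebra.TensorProduct.tmul_mul_tmul,
        Algebra.commutes, mul_comm]
    | add x y hx hy => rw [mul_add, add_mul, hx, hy])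
  let g : A →ₐ[S] K ⊗[R] A := { j with commutes' := fun _ => rfl }
  let f : A' →ₐ[S] K ⊗[R] A :=
    { (φ : K ⊗[R] A' →+* K ⊗[R] A).comp j' with commutes' := fun s => hφ s }
  have hg : Injective g := fun a b hab =>
    TorHP.one_tmul_inj (R := R) (S := K) (IsFractionRing.injective R K) hab
  have hsm : ∀ (r : R) (x : K ⊗[R] A), algebraMap R S r • x = algebraMap R K r • x := by
    intro r x
    change ((1 : K) ⊗ₜ[R] algebraMap S A (algebraMap R S r)) * x = _
    rw [← IsScalarTower.algebraMap_apply, Algebra.algebraMap_eq_smul_one, tmul_smul,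
      ← Algebra.TensorProduct.one_def, smul_mul_assoc, one_mul, algebraMap_smul]
  obtain ⟨P, i1, i2, i3, i4, hP1, hP2, hP3⟩ := BrP.lattice h2 R S A A' (K ⊗[R] A) f g hg
    ((h1 S A' Aᵐᵒᵖ).2 gA'.az ((h1 S A A).1 gA.az)) (by
      intro x
      obtain ⟨s, a, hs⟩ := exists_smul_eq_one_tmul (A := A) (nonZeroDivisors R) K x
      have hs0 : algebraMap R K s ≠ 0 :=
        (map_ne_zero_iff _ (IsFractionRing.injective R K)).2 (nonZeroDivisors.ne_zero s.2)
      refine ⟨algebraMap R S s, fun y z hyz => ?_, a, ?_⟩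
      · have e : algebraMap R S s • y = algebraMap R S s • z := hyz
        rw [hsm, hsm] at e
        exact smul_right_injective _ hs0 e
      · rw [hsm, hs]
        rfl)
  exact h3 S A A' P gA.az gA'.az hP3 hr

end Pool.Agent.P.MP_46a8f8_ag.GU
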