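import Pool.Agent.P.MP_46a8f8_ag.GU.Qc

/-!
Azumaya algebras which are isomorphic over the fraction field.
-/

namespace Pool.Agent.P.MP_46a8f8_ag.GU

open TensorProduct Function IsLocalRing Polynomial

universe u

theorem pBr0 : S_Br0.{u} := by
  intro R A A' K _ _ _ _ _ _ _ _ _ _ _ ⟨φ⟩
  have : IsDomain R := rDom R
  have gA := pGB0 R R A
  have gA' := pGB0 R R A'
  have := gA.freeA
  have := gA'.freeA
  have hr : Module.finrank R A' = Module.finrank R A := by
    rw [← Module.finrank_baseChange (R := K) (S := R) (M' := A'),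
      ← Module.finrank_baseChange (R := K) (S := R) (M' := A)]
    exact φ.toLinearEquiv.finrank_eq
  obtain ⟨P, i1, i2, i3, i4, hP1, hP2, hP3⟩ := BrP.lattice pPrj R R A A' (K ⊗[R] A)
    ((φ.toAlgHom.restrictScalars R).comp Algebra.TensorProduct.includeRight)
    Algebra.TensorProduct.includeRight
    (fun a b hab => TorHP.one_tmul_inj (R := R) (S := K) (IsFractionRing.injective R K) hab)
    ((pAzT R A' Aᵐᵒᵖ).2 gA'.az ((pAzT R A A).1 gA.az)) (by
      intro x
      obtain ⟨s, a, hs⟩ := exists_smul_eq_one_tmul (A := A) (nonZeroDivisors R) K x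
      have hs0 : algebraMap R K s ≠ 0 :=
        (map_ne_zero_iff _ (IsFractionRing.injective R K)).2 (nonZeroDivisors.ne_zero s.2)
      refine ⟨s, fun y z hyz => ?_, a, ?_⟩
      · have e : (s : R) • y = (s : R) • z := hyz
        rw [← algebraMap_smul K, ← algebraMap_smul K (s : R) z] at e
        exact smul_right_injective _ hs0 e
      · rw [← algebraMap_smul K, hs]
        rfl)
  exact pBr3 pAzT R A A' P gA.az gA'.az hP3 hr

theorem pCob0 (h1 : S_Tw0.{u}) (h2 : S_AzD0.{u}) (h3 : S_Br0.{u}) : S_Cob0.{u} := by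
  intro R A K O _ _ _ _ _ _ _ _ _ _ _ ρ c hc ⟨p₀⟩
  obtain ⟨A', _, _, μ, _, m3⟩ := h1 R A O ρ c hc
  have := h2 R A A' O ⟨μ⟩
  obtain ⟨φ, -⟩ := exists_bce p₀ μ
  obtain ⟨α⟩ := h3 R A A' K ⟨φ⟩
  exact ⟨(Algebra.TensorProduct.congr (AlgEquiv.refl (R := O) (A₁ := O)) α.symm).trans μ,
    fun T _ _ p q a => m3 T p q (α.symm a)⟩

end Pool.Agent.P.MP_46a8f8_ag.GU
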