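import Pool.Agent.P.MP_46a8f8_ag.GU.Ad
import Pool.Agent.P.MP_46a8f8_ag.GU.Rk

/-!
A bimodule of the right rank between two Azumaya algebras over a semilocal domain gives an
isomorphism of the algebras.
-/

namespace Pool.Agent.P.MP_46a8f8_ag.GU

open TensorProduct Function

universe u

namespace Br3P

/-- an algebra map out of an Azumaya algebra into an algebra of the same rank is bijective -/
theorem bij {S A A' : Type u} [CommRing S] [Finite (MaximalSpectrum S)] [Ring A] [Algebra S A]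
    [Module.Finite S A] [Ring A'] [Algebra S A'] [Module.Free S A'] [Module.Finite S A']
    (hA' : Az S A') (e : A' ≃ₗ[S] A) (f : A' →ₐ[S] A) : Bijective f := by
  letI : Module A' A := Module.compHom A f.toRingHom
  have hsm : ∀ (a : A') (x : A), a • x = f a * x := fun _ _ => rfl
  haveI : IsScalarTower S A' A := ⟨fun s a x => by
    rw [hsm, hsm, map_smul, smul_mul_assoc]⟩
  obtain ⟨G⟩ := RkP.iso (V := A') (W := A) hA' e
  have hG : ∀ a : A', G a = f a * G 1 := fun a => by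
    rw [← hsm, ← map_smul, smul_eq_mul, mul_one]
  obtain ⟨a0, ha0⟩ := G.surjective 1
  rw [hG] at ha0
  have hinj : Injective (LinearMap.mulLeft S (f a0)) :=
    OrzechProperty.injective_of_surjective_endomorphism _ fun y =>
      ⟨G 1 * y, by rw [LinearMap.mulLeft_apply, ← mul_assoc, ha0, one_mul]⟩
  have h1 : G 1 * f a0 = 1 := hinj (by
    rw [LinearMap.mulLeft_apply, LinearMap.mulLeft_apply, ← mul_assoc, ha0, one_mul, mul_one])
  refine ⟨fun a b hab => G.injective (by rw [hG a, hG b, hab]), fun y => ?_⟩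
  obtain ⟨a, ha⟩ := G.surjective (y * G 1)
  refine ⟨a, ?_⟩
  rw [hG] at ha
  rw [← mul_one (f a), ← h1, ← mul_assoc, ha, mul_assoc, h1, mul_one]

end Br3P

theorem pBr3 (h1 : S_AzT.{u}) : S_Br3.{u} := by
  intro S A A' P _ _ _ _ _ _ _ _ _ _ _ _ _ _ _ _ _ hA hA' hP hr
  have hop : Az S Aᵐᵒᵖ := (h1 S A A').1 hA
  letI : Module Aᵐᵒᵖ P := Module.compHom P
    (Algebra.TensorProduct.includeRight : Aᵐᵒᵖ →ₐ[S] A' ⊗[S] Aᵐᵒᵖ).toRingHom
  have hsm : ∀ (a : Aᵐᵒᵖ) (x : P), a • x = ((1 : A') ⊗ₜ[S] a) • x := fun _ _ => rfl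
  haveI : IsScalarTower S Aᵐᵒᵖ P := ⟨fun s a x => by
    rw [hsm, hsm, tmul_smul, smul_assoc]⟩
  obtain ⟨e1⟩ : Nonempty (A ≃ₗ[S] P) := FiniteDimensional.nonempty_linearEquiv_of_finrank_eq hP.symm
  obtain ⟨e2⟩ : Nonempty (A' ≃ₗ[S] A) := FiniteDimensional.nonempty_linearEquiv_of_finrank_eq hr
  obtain ⟨G⟩ := RkP.iso (V := Aᵐᵒᵖ) (W := P) hop ((MulOpposite.opLinearEquiv S).symm.trans e1)
  have hG : ∀ a : Aᵐᵒᵖ, G a = ((1 : A') ⊗ₜ[S] a) • G 1 := fun a => by
    rw [← hsm, ← map_smul, smul_eq_mul, mul_one]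
  let φ : A' → A := fun a => MulOpposite.unop (G.symm ((a ⊗ₜ[S] (1 : Aᵐᵒᵖ)) • G 1))
  have hφ : ∀ a, ((1 : A') ⊗ₜ[S] MulOpposite.op (φ a)) • G 1 = (a ⊗ₜ[S] (1 : Aᵐᵒᵖ)) • G 1 :=
    fun a => by
      rw [← hG]
      exact G.apply_symm_apply _
  have hext : ∀ x y : A, ((1 : A') ⊗ₜ[S] MulOpposite.op x) • G 1 =
      ((1 : A') ⊗ₜ[S] MulOpposite.op y) • G 1 → x = y := fun x y h => by
    rw [← hG, ← hG] at h
    exact MulOpposite.op_injective (G.injective h)
  let f : A' →ₐ[S] A :=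
    { toFun := φ
      map_one' := hext _ _ (by rw [hφ, MulOpposite.op_one])
      map_mul' := fun a b => hext _ _ (by
        have e : (a * b) ⊗ₜ[S] (1 : Aᵐᵒᵖ) = (a ⊗ₜ[S] (1 : Aᵐᵒᵖ)) * (b ⊗ₜ[S] (1 : Aᵐᵒᵖ)) := by
          rw [Algebra.TensorProduct.tmul_mul_tmul, mul_one]
        have e' : (a ⊗ₜ[S] (1 : Aᵐᵒᵖ)) * ((1 : A') ⊗ₜ[S] MulOpposite.op (φ b)) =
            ((1 : A') ⊗ₜ[S] MulOpposite.op (φ b)) * (a ⊗ₜ[S] (1 : Aᵐᵒᵖ)) := by
          rw [Algebra.TensorProduct.tmul_mul_tmul, Algebra.TensorProduct.tmul_mul_tmul, mul_one,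
            one_mul, mul_one, one_mul]
        rw [hφ, e, mul_smul, ← hφ b, ← mul_smul, e', mul_smul, ← hφ a, ← mul_smul,
          Algebra.TensorProduct.tmul_mul_tmul, mul_one, MulOpposite.op_mul])
      map_zero' := hext _ _ (by rw [hφ, MulOpposite.op_zero, zero_tmul, tmul_zero])
      map_add' := fun a b => hext _ _ (by
        rw [hφ, MulOpposite.op_add, tmul_add, add_smul, hφ, hφ, add_tmul, add_smul])
      commutes' := fun s => hext _ _ (by
        rw [hφ, Algebra.algebraMap_eq_smul_one, Algebra.algebraMap_eq_smul_one,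
          MulOpposite.op_smul, MulOpposite.op_one, tmul_smul, smul_tmul']) }
  exact ⟨AlgEquiv.ofBijective f (Br3P.bij hA' e2 f)⟩

end Pool.Agent.P.MP_46a8f8_ag.GU
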