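import Pool.Agent.P.MP_46a8f8_ag.GU.Base2

/-!
Package C1: a torsion free quotient is split up to a regular sequence of length two.
-/

namespace Pool.Agent.P.MP_46a8f8_ag.GU

open Function

universe u

namespace C1P

variable {R E Y : Type u} [CommRing R] [AddCommGroup E] [Module R E] [AddCommGroup Y] [Module R Y]

/-- the scalars that factor through `w` -/
def fac (w : E →ₗ[R] Y) : Ideal R where
  carrier := {r | ∃ s : Y →ₗ[R] E, ∀ y, w (s y) = r • y}
  add_mem' := by
    rintro a b ⟨s, hs⟩ ⟨t, ht⟩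
    exact ⟨s + t, fun y => by rw [LinearMap.add_apply, map_add, hs, ht, add_smul]⟩
  zero_mem' := ⟨0, fun y => by simp⟩
  smul_mem' := by
    rintro c a ⟨s, hs⟩
    exact ⟨c • s, fun y => by rw [LinearMap.smul_apply, map_smul, hs, smul_eq_mul, mul_smul]⟩

theorem not_le [IsDomain R] [IsNoetherianRing R] [Module.Finite R Y] (w : E →ₗ[R] Y)
    (hw : Surjective w) (ht : ∀ (r : R) (y : Y), r ≠ 0 → r • y = 0 → y = 0) (p : Ideal R)
    [p.IsPrime] (hp : IsPrincipalIdealRing (Localization.AtPrime p)) : ¬ fac w ≤ p := by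
  have : Module.IsTorsionFree R Y :=
    Module.IsTorsionFree.of_smul_eq_zero fun r y h => by
      by_cases hr : r = 0
      · exact Or.inl hr
      · exact Or.inr (ht r y hr h)
  have : Module.FinitePresentation R Y := Module.finitePresentation_of_finite R Y
  obtain ⟨σ, hσ⟩ := Module.projective_lifting_property (LocalizedModule.map p.primeCompl w)
    (LinearMap.id : LocalizedModule p.primeCompl Y →ₗ[Localization.AtPrime p] _)
    (LocalizedModule.map_surjective _ w hw)
  obtain ⟨h, s, hs⟩ := Module.FinitePresentation.exists_lift_of_isLocalizedModule p.primeCompl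
    (LocalizedModule.mkLinearMap p.primeCompl E)
    ((σ.restrictScalars R) ∘ₗ LocalizedModule.mkLinearMap p.primeCompl Y)
  refine fun hle => s.2 (hle ⟨h, fun y => ?_⟩)
  have e1 : (LocalizedModule.mk (h y) 1 : LocalizedModule p.primeCompl E) =
      (s : R) • σ (LocalizedModule.mk y 1) := LinearMap.congr_fun hs y
  have e2 := congrArg (LocalizedModule.map p.primeCompl w) e1
  have e3 : LocalizedModule.map p.primeCompl w (σ (LocalizedModule.mk y 1)) =
      LocalizedModule.mk y 1 := LinearMap.congr_fun hσ _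
  rw [LocalizedModule.map_mk, LinearMap.map_smul_of_tower, e3, LocalizedModule.smul'_mk,
    LocalizedModule.mk_eq] at e2
  obtain ⟨c, hc⟩ := e2
  rw [one_smul, one_smul] at hc
  have hc0 : (c : R) ≠ 0 := fun h0 => c.2 (h0 ▸ p.zero_mem)
  have : (c : R) • (w (h y) - (s : R) • y) = 0 := by
    rw [smul_sub, sub_eq_zero]
    exact hc
  exact sub_eq_zero.1 (ht _ _ hc0 this)

theorem pid_bot [IsDomain R] : IsPrincipalIdealRing (Localization.AtPrime (⊥ : Ideal R)) := by
  refine ⟨fun I => ?_⟩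
  by_cases h : I = ⊥
  · rw [h]
    exact bot_isPrincipal
  obtain ⟨x, hx, hx0⟩ := Submodule.exists_mem_ne_zero_of_ne_bot h
  obtain ⟨⟨a, s⟩, rfl⟩ := IsLocalization.mk'_surjective (⊥ : Ideal R).primeCompl x
  have ha : a ∈ (⊥ : Ideal R).primeCompl := by
    intro h0
    apply hx0
    have : a = 0 := h0
    simp [this]
  have hu := (IsLocalization.AtPrime.isUnit_mk'_iff (Localization.AtPrime (⊥ : Ideal R)) ⊥ a s).2 ha
  rw [Ideal.eq_top_of_isUnit_mem I hx hu]
  exact top_isPrincipal

end C1P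

open C1P in
theorem pC1 (h1 : S_DVR.{u}) : S_C1.{u} := by
  intro R _ _ hd E Y _ _ _ _ _ w hw ht
  have := rDom R
  obtain ⟨F, hF, hF0⟩ := SetLike.not_le_iff_exists.1 (not_le w hw ht ⊥ pid_bot)
  have hF0' : F ≠ 0 := hF0
  have hav : ¬ ((fac w : Set R) ⊆
      ⋃ p ∈ associatedPrimes R (R ⧸ Ideal.span {F}), ((id p : Ideal R) : Set R)) := by
    rw [Ideal.subset_union_prime_finite (f := id) (associatedPrimes.finite R _) ⊥ ⊥
      fun p hp _ _ => IsAssociatedPrime.isPrime hp]
    rintro ⟨p, hp, hle⟩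
    obtain ⟨hpp, y, hy⟩ := isAssociatedPrime_iff.1 hp
    obtain ⟨y, rfl⟩ := Ideal.Quotient.mk_surjective y
    refine not_le w hw ht p (h1 R hd F y p hF0' fun r => ?_) hle
    rw [hy, Submodule.mem_colon_singleton, Submodule.mem_bot, ← Ideal.mem_span_singleton,
      ← Ideal.Quotient.eq_zero_iff_mem]
    rfl
  obtain ⟨G, hG, hG'⟩ := Set.not_subset.1 hav
  have hreg : IsSMulRegular (R ⧸ Ideal.span {F}) G := by
    by_contra hn
    apply hG'
    have : G ∈ ({r : R | IsSMulRegular (R ⧸ Ideal.span {F}) r}ᶜ : Set R) := hn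
    rwa [← biUnion_associatedPrimes_eq_compl_regular R (R ⧸ Ideal.span {F})] at this
  have hdv : ∀ u v : R, G * u = F * v → F ∣ u := by
    intro u v e
    rw [← Ideal.mem_span_singleton, ← Ideal.Quotient.eq_zero_iff_mem]
    apply hreg.right_eq_zero_of_smul
    change Ideal.Quotient.mk _ (G * u) = 0
    rw [Ideal.Quotient.eq_zero_iff_mem, Ideal.mem_span_singleton, e]
    exact dvd_mul_right _ _
  by_cases hG0 : G = 0
  · have h1' : F ∣ 1 := hdv 1 0 (by rw [hG0, zero_mul, mul_zero])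
    exact ⟨F, F, ⟨hF0', hF0', fun u _ _ => h1'.trans (one_dvd u)⟩, hF, hF⟩
  · exact ⟨F, G, ⟨hF0', hG0, hdv⟩, hF, hG⟩

end Pool.Agent.P.MP_46a8f8_ag.GU
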