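import Pool.Agent.P.MP_46a8f8_ag.GU.Sp

/-!
An orthogonal transformation is a product of reflections.
-/

namespace Pool.Agent.P.MP_46a8f8_ag.GU

open TensorProduct Function IsLocalRing Polynomial

universe u

namespace CDP

variable {k : Type u} [Field k] {n : ℕ} {c : Ix n → k}

theorem rf_fix {w v : Ix n → k} (h : bv c v w = 0) : rf c w v = v := by simp [rf, h]

theorem main (hc : Ok2 c) (A : Finset (Ix n)) : ∀ ψ : (Ix n → k) → Ix n → k,
    (∀ v w, bv c (ψ v) (ψ w) = bv c v w) → (∀ i ∉ A, ψ (Pi.single i 1) = Pi.single i 1) →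
    ∃ l : List (Ix n → k), (∀ w ∈ l, IsUnit (qv c w)) ∧ ∀ v, ψ v = l.foldr (rf c) v := by
  have h2 : (2 : k) ≠ 0 := hc.two.ne_zero
  induction A using Finset.induction_on with
  | empty =>
    refine fun ψ h h' => ⟨[], by simp, fun v => funext fun i => ?_⟩
    have := h v (Pi.single i 1)
    rw [h' i (by simp), bv_single, bv_single, mul_one, mul_one] at this
    exact mul_left_cancel₀ (mul_ne_zero h2 (hc.un i).ne_zero) this
  | insert j A hj ih =>
    intro ψ h h'
    set x := ψ (Pi.single j 1) with hx
    set y : Ix n → k := Pi.single j 1 with hy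
    have hq : qv c x = qv c y := mul_left_cancel₀ h2 (by rw [← bv_self, ← bv_self, h])
    have hyu : IsUnit (qv c y) := by
      rw [hy, qv_single]
      simpa using hc.un j
    have o1 : ∀ i ∉ A, i ≠ j → bv c (Pi.single i 1) y = 0 := fun i _ e => by
      rw [hy, bv_single, Pi.single_eq_of_ne e.symm]
      simp
    have o2 : ∀ i ∉ A, i ≠ j → bv c (Pi.single i 1) x = 0 := fun i hi e => by
      rw [← h' i (by simp [hi, e]), h, o1 i hi e]
    by_cases h1 : qv c (x - y) = 0
    · have h3 : IsUnit (qv c (x - -y)) := by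
        have : qv c (x - -y) = 2 * (2 * qv c y) := by
          rw [qv_sub] at h1
          rw [qv_sub, qv_neg, bv_neg_right]
          linear_combination 2 * hq - h1
        rw [this]
        exact hc.two.mul (hc.two.mul hyu)
      obtain ⟨l, hl, hl'⟩ := ih (fun v => rf c y (rf c (x - -y) (ψ v)))
        (fun v w => by rw [bv_rf hyu, bv_rf h3, h]) fun i hi => by
          by_cases e : i = j
          · subst e
            rw [← hx, rf_sub (by rw [hq, qv_neg]) h3, rf, bv_neg_left, bv_self, ← hy, mul_neg,
              mul_left_comm, Ring.inverse_mul_cancel _ hyu, mul_one, neg_smul, two_smul]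
            abel
          · rw [h' i (by simp [hi, e]), rf_fix (w := x - -y) (by
              rw [bv_sub_right, bv_neg_right, o1 i hi e, o2 i hi e]; simp), rf_fix (o1 i hi e)]
      refine ⟨(x - -y) :: y :: l, List.forall_mem_cons.2 ⟨h3, List.forall_mem_cons.2 ⟨hyu, hl⟩⟩, fun v => ?_⟩
      rw [List.foldr_cons, List.foldr_cons, ← hl', rf_rf hyu, rf_rf h3]
    · have h3 : IsUnit (qv c (x - y)) := Ne.isUnit h1
      obtain ⟨l, hl, hl'⟩ := ih (fun v => rf c (x - y) (ψ v))
        (fun v w => by rw [bv_rf h3, h]) fun i hi => by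
          by_cases e : i = j
          · subst e
            rw [← hx, rf_sub hq h3]
          · rw [h' i (by simp [hi, e]), rf_fix (w := x - y) (by
              rw [bv_sub_right, o1 i hi e, o2 i hi e, sub_zero])]
      refine ⟨(x - y) :: l, List.forall_mem_cons.2 ⟨h3, hl⟩, fun v => ?_⟩
      rw [List.foldr_cons, ← hl', rf_rf h3]

end CDP

theorem pCD : S_CD.{u} := fun _ _ _ _ ψ hc h =>
  CDP.main hc Finset.univ ψ.mulVec h.bv (by simp)

end Pool.Agent.P.MP_46a8f8_ag.GU
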