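import Pool.Agent.P.MP_46a8f8_ag.GU.Su

/-!
A Cayley type pencil has a unit member with parameter in an infinite subfield times a fixed
non zero element.
-/

namespace Pool.Agent.P.MP_46a8f8_ag.GU

open Polynomial

universe u

namespace CayP

/-- over a field, the pencil `a + t b` consists of units for all `t` outside a finite set as soon
as `a + b` is a unit -/
theorem pencil (L E : Type u) [Field L] [Ring E] [Algebra L E] [Module.Finite L E] (a b : E)
    (h : IsUnit (a + b)) : {t : L | ¬ IsUnit (a + algebraMap L E t * b)}.Finite := by
  classical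
  let β := Module.finBasis L E
  let A := LinearMap.toMatrix β β (LinearMap.mulLeft L a)
  let B := LinearMap.toMatrix β β (LinearMap.mulLeft L b)
  let p : L[X] := (A.map C + (X : L[X]) • B.map C).det
  have hev : ∀ t : L, p.eval t =
      LinearMap.det (LinearMap.mulLeft L (a + algebraMap L E t * b)) := by
    intro t
    have h1 : p.eval t = (A + t • B).det := by
      change Polynomial.evalRingHom t _ = _
      rw [RingHom.map_det]
      congr 1
      ext i j
      simp only [RingHom.mapMatrix_apply, Matrix.map_apply, Matrix.add_apply, Matrix.smul_apply,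
        smul_eq_mul, coe_evalRingHom, eval_add, eval_mul, eval_C, eval_X]
    have h2 : LinearMap.mulLeft L (a + algebraMap L E t * b) =
        LinearMap.mulLeft L a + t • LinearMap.mulLeft L b := by
      ext y
      simp [add_mul, Algebra.smul_def, mul_assoc]
    rw [h1, h2, ← LinearMap.det_toMatrix β, map_add, map_smul]
  have hiff : ∀ z : E, IsUnit z ↔ LinearMap.det (LinearMap.mulLeft L z) ≠ 0 := by
    intro z
    rw [← isUnit_iff_ne_zero, ← LinearMap.isUnit_iff_isUnit_det]
    exact (Algebra.lmul_isUnit_iff (R := L) (x := z)).symm
  have hp : p ≠ 0 := by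
    intro h0
    have := hev 1
    rw [h0, eval_zero, map_one, one_mul] at this
    exact (hiff _).1 h this.symm
  refine (p.rootSet_finite L).subset ?_
  intro t ht
  rw [Set.mem_ofPred_eq, hiff, not_not, ← hev] at ht
  rw [mem_rootSet]
  exact ⟨hp, by simpa using ht⟩

end CayP

theorem pCay : S_Cay.{u} := by
  intro K L E _ _ _ _ _ _ _ _ _ κ x h2 hκ
  have hL : IsField L := IsField.of_isDomain_of_finite K L
  let _ : Field L := hL.toField
  have hu : IsUnit ((1 + x) + (1 - x)) := by
    have e : (1 + x) + (1 - x) = algebraMap L E (algebraMap K L 2) := by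
      rw [map_ofNat, map_ofNat, ← one_add_one_eq_two]; abel
    rw [e]
    exact ((isUnit_iff_ne_zero.2 h2).map (algebraMap K L)).map (algebraMap L E)
  have hf := CayP.pencil L E (1 + x) (1 - x) hu
  have hinj : Function.Injective fun c : K => algebraMap K L c * κ := by
    intro c d hcd
    exact (algebraMap K L).injective (mul_right_cancel₀ hκ hcd)
  by_contra hne
  push Not at hne
  have : (Set.univ : Set K).Finite := by
    refine Set.Finite.of_finite_image (f := fun c : K => algebraMap K L c * κ) ?_ hinj.injOn
    refine hf.subset ?_
    rintro _ ⟨c, -, rfl⟩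
    exact hne c
  exact Set.infinite_univ this

end Pool.Agent.P.MP_46a8f8_ag.GU
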