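import Pool.Agent.P.MP_46a8f8_ag.GU.Ad
import Pool.Agent.P.MP_46a8f8_ag.Chain

/-!
Chains of blow-ups of a one-dimensional domain of embedding dimension two inside its
normalisation.
-/

namespace Pool.Agent.P.MP_46a8f8_ag.GU

open Function Polynomial

universe u

namespace Ch2P

open ChainP

/-- exchange and Nakayama -/
theorem exchange2 {D : Type u} [CommRing D] [IsNoetherianRing D] (𝔫 : Ideal D)
    (h𝔫 : 𝔫.IsMaximal) (a : Fin 2 → D) (ha : ∀ i, a i ∈ 𝔫)
    (hle : 𝔫 ≤ Ideal.span (Set.range a) ⊔ 𝔫 ^ 2) (x : D) (hx : x ∈ 𝔫) (hx2 : x ∉ 𝔫 ^ 2)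
    (hoth : ∀ 𝔫₁ : Ideal D, 𝔫₁.IsMaximal → x ∈ 𝔫₁ → 𝔫₁ = 𝔫) :
    ∃ y ∈ 𝔫, ∀ e ∈ 𝔫, ∃ α β : D, e = α * x + β * y := by
  obtain ⟨p, hp, m, hm, hpm⟩ := Submodule.mem_sup.1 (hle hx)
  obtain ⟨c, rfl⟩ := Ideal.mem_span_range_iff_exists_fun.1 hp
  obtain ⟨i, hi⟩ : ∃ i, c i ∉ 𝔫 := by
    by_contra hcon
    push Not at hcon
    refine hx2 (hpm ▸ Submodule.add_mem _ (Submodule.sum_mem _ fun i _ => ?_) hm)
    rw [pow_two]
    exact Ideal.mul_mem_mul (hcon i) (ha i)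
  let y := a (i.succAbove 0)
  let J : Ideal D := Ideal.span {x, y}
  have hxJ : x ∈ J := Ideal.subset_span (by simp)
  have hyJ : y ∈ J := Ideal.subset_span (by simp)
  have h1 : 𝔫 ≤ J ⊔ 𝔫 • 𝔫 := by
    rw [smul_eq_mul, ← pow_two]
    refine hle.trans (sup_le ?_ le_sup_right)
    rw [Ideal.span_le]
    rintro _ ⟨k, rfl⟩
    rcases Fin.eq_self_or_eq_succAbove i k with rfl | ⟨k, rfl⟩
    · obtain ⟨v, m', hm', hvm⟩ := h𝔫.exists_inv hi
      rw [Fin.sum_univ_succAbove _ k, Fin.sum_univ_one] at hpm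
      have : a k = v * (x - c (k.succAbove 0) * y) + (m' * a k - v * m) := by
        rw [← hpm]
        linear_combination (-a k) * hvm
      rw [this]
      refine Submodule.add_mem _ (Submodule.mem_sup_left (J.mul_mem_left _
        (J.sub_mem hxJ (J.mul_mem_left _ hyJ))))
        (Submodule.mem_sup_right (Submodule.sub_mem _ ?_ (Ideal.mul_mem_left _ _ hm)))
      rw [pow_two]
      exact Ideal.mul_mem_mul hm' (ha k)
    · refine Submodule.mem_sup_left ?_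
      fin_cases k
      exact hyJ
  obtain ⟨r, hr1, hr2⟩ := Submodule.exists_sub_one_mem_and_smul_le_of_fg_of_le_sup
    (I := 𝔫) (N := J) (N' := 𝔫) (P := 𝔫) 𝔫.fg_of_isNoetherianRing le_rfl h1
  have h2 : J ⊔ Ideal.span {r} = ⊤ := by
    by_contra h
    obtain ⟨𝔫₁, h𝔫₁, hle₁⟩ := Ideal.exists_le_maximal _ h
    have a1 := hoth 𝔫₁ h𝔫₁ (hle₁ (Submodule.mem_sup_left hxJ))
    have a2 : r ∈ 𝔫 := a1 ▸ hle₁ (Submodule.mem_sup_right (Ideal.mem_span_singleton_self _))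
    have : (1 : D) = r - (r - 1) := by ring
    exact h𝔫.ne_top ((Ideal.eq_top_iff_one _).2 (this ▸ 𝔫.sub_mem a2 hr1))
  refine ⟨y, ha _, fun e he => ?_⟩
  have h3 : e ∈ J := by
    obtain ⟨p, hp, b, hb, hab⟩ := Submodule.mem_sup.1 ((Ideal.eq_top_iff_one _).1 h2)
    obtain ⟨b, rfl⟩ := Ideal.mem_span_singleton'.1 hb
    have : e = p * e + b * (r • e) := by
      rw [smul_eq_mul, ← mul_assoc, ← add_mul, hab, one_mul]
    rw [this]
    exact Submodule.add_mem _ (Ideal.mul_mem_right _ _ hp)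
      (Ideal.mul_mem_left _ _ (hr2 (Submodule.smul_mem_pointwise_smul e r 𝔫 he)))
  obtain ⟨α, β, h⟩ := Ideal.mem_span_pair.1 h3
  exact ⟨α, β, h.symm⟩

/-- the embedding dimension of the blow-up -/
theorem embBlow2 {D E : Type u} [CommRing D] [CommRing E] [Algebra D E] [Algebra.IsIntegral D E]
    (hD : Emb D 2) (Φ : D[X] →ₐ[D] E) (hΦ : Surjective Φ) (𝔫 : Ideal D) (x : D)
    (hoth : ∀ 𝔫₁ : Ideal D, 𝔫₁.IsMaximal → x ∈ 𝔫₁ → 𝔫₁ = 𝔫)
    (hdiv : ∀ e ∈ 𝔫, algebraMap D E x ∣ algebraMap D E e)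
    (hpow : ∀ v : E, ∃ (N : ℕ) (d : D), algebraMap D E x ^ N * v = algebraMap D E d) :
    Emb E 2 := by
  intro 𝔪 h𝔪
  have h1 : (𝔪.comap (algebraMap D E)).IsMaximal :=
    Ideal.isMaximal_comap_of_isIntegral_of_isMaximal _
  by_cases hc : x ∈ 𝔪.comap (algebraMap D E)
  · have hn := hoth _ h1 hc
    let ψ : D[X] →+* E := (Φ : D[X] →+* E)
    have hψ : ψ.comp C = algebraMap D E := RingHom.ext fun d => Φ.commutes d
    have e₀ : (𝔪.comap ψ).comap C = 𝔫 := by rw [Ideal.comap_comap, hψ, hn]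
    obtain ⟨q₁, hq₁, h₁⟩ := polyGen (𝔪.comap ψ) (by rw [e₀, ← hn]; exact h1)
    rw [e₀] at h₁
    let a : Fin 2 → E := ![algebraMap D E x, ψ q₁]
    refine ⟨a, fun i => ?_, le_trans ?_ le_sup_left⟩
    · fin_cases i
      · exact hc
      · exact hq₁
    · have h4 := Ideal.map_mono (f := ψ) h₁
      rw [Ideal.map_comap_of_surjective ψ hΦ, Ideal.map_sup, Ideal.map_map, hψ, Ideal.map_span,
        Set.image_singleton] at h4
      refine h4.trans (sup_le ?_ ?_)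
      · rw [Ideal.map_le_iff_le_comap]
        intro e he
        obtain ⟨e', he'⟩ := hdiv e he
        rw [Ideal.mem_comap, he']
        exact Ideal.mul_mem_right _ _ (Ideal.subset_span ⟨0, rfl⟩)
      · rw [Ideal.span_singleton_le_iff_mem]
        exact Ideal.subset_span ⟨1, rfl⟩
  · obtain ⟨a, ha, hle⟩ := hD _ h1
    refine ⟨fun i => algebraMap D E (a i), ha, fun e he => ?_⟩
    obtain ⟨N, d, hd⟩ := hpow e
    have h2 : d ∈ 𝔪.comap (algebraMap D E) := by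
      rw [Ideal.mem_comap, ← hd]
      exact 𝔪.mul_mem_left _ he
    have h3 := Ideal.map_mono (f := algebraMap D E) hle
    rw [Ideal.map_sup, Ideal.map_pow, Ideal.map_span, ← Set.range_comp] at h3
    have h4 := (h3.trans (sup_le_sup_left (Ideal.pow_right_mono Ideal.map_comap_le 2) _))
      (Ideal.mem_map_of_mem _ h2)
    have h5 : algebraMap D E x ^ N ∉ 𝔪 := fun h => hc (h𝔪.isPrime.mem_of_pow_mem N h)
    obtain ⟨v, m, hm, hvm⟩ := h𝔪.exists_inv h5
    have : e = v * algebraMap D E d + m * e := by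
      rw [← hd, ← mul_assoc, ← add_mul, hvm, one_mul]
    rw [this]
    refine Submodule.add_mem _ (Ideal.mul_mem_left _ _ h4) (Submodule.mem_sup_right ?_)
    rw [pow_two]
    exact Ideal.mul_mem_mul hm he

/-- one blow-up -/
theorem blow2 (D Dt : Type u) [CommRing D] [IsNoetherianRing D] [CommRing Dt] [IsDomain Dt]
    [IsPrincipalIdealRing Dt] [Algebra D Dt] [Algebra.IsIntegral D Dt]
    [Finite (MaximalSpectrum Dt)] (hinj : Injective (algebraMap D Dt)) (hD : Emb D 2)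
    (𝔫 : Ideal D) (h𝔫 : 𝔫.IsMaximal) [Infinite (D ⧸ 𝔫)] (h0 : 𝔫 ≠ ⊥) :
    ∃ x ∈ 𝔫, x ≠ 0 ∧ ∃ E : Subalgebra D Dt, Module.Finite D E ∧ Emb E 2 ∧
      ∀ e ∈ 𝔫, ∃ e' ∈ E, algebraMap D Dt e = algebraMap D Dt x * e' := by
  obtain ⟨x, hx, hx2, hoth, hdiv⟩ := superficial D Dt hinj 𝔫 h𝔫 h0
  obtain ⟨a, ha, hle⟩ := hD 𝔫 h𝔫
  obtain ⟨y, hy, hgen⟩ := exchange2 𝔫 h𝔫 a ha hle x hx hx2 hoth
  obtain ⟨η, hη⟩ := hdiv y hy
  let Φ : D[X] →ₐ[D] Dt := aeval η
  have hηE : η ∈ Φ.range := ⟨X, by simp [Φ]⟩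
  have hint : Algebra.IsIntegral D Φ.range := ⟨fun v =>
    (isIntegral_algHom_iff Φ.range.val Subtype.val_injective).1
      (Algebra.IsIntegral.isIntegral (v : Dt))⟩
  have hft : Algebra.FiniteType D Φ.range :=
    Algebra.FiniteType.of_surjective Φ.rangeRestrict Φ.rangeRestrict_surjective
  have hkey : ∀ e ∈ 𝔫, ∃ e' ∈ Φ.range, algebraMap D Dt e = algebraMap D Dt x * e' := by
    intro e he
    obtain ⟨α, β, rfl⟩ := hgen e he
    refine ⟨algebraMap D Dt α + algebraMap D Dt β * η,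
      Φ.range.add_mem (Φ.range.algebraMap_mem _)
        (Φ.range.mul_mem (Φ.range.algebraMap_mem _) hηE), ?_⟩
    simp only [map_add, map_mul, hη]
    ring
  refine ⟨x, hx, fun h => hx2 (h ▸ Submodule.zero_mem _), Φ.range,
    Algebra.IsIntegral.finite, ?_, hkey⟩
  refine embBlow2 hD Φ.rangeRestrict Φ.rangeRestrict_surjective 𝔫 x hoth (fun e he => ?_) ?_
  · obtain ⟨e', he', h⟩ := hkey e he
    exact ⟨⟨e', he'⟩, Subtype.ext h⟩
  · let S : Subalgebra D Dt :=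
      { carrier := {v | ∃ (N : ℕ) (d : D), algebraMap D Dt x ^ N * v = algebraMap D Dt d}
        mul_mem' := by
          rintro v v' ⟨N, d, h⟩ ⟨N', d', h'⟩
          exact ⟨N + N', d * d', by rw [map_mul, ← h, ← h']; ring⟩
        add_mem' := by
          rintro v v' ⟨N, d, h⟩ ⟨N', d', h'⟩
          exact ⟨N + N', x ^ N' * d + x ^ N * d', by
            rw [map_add, map_mul, map_mul, map_pow, map_pow, ← h, ← h']; ring⟩
        algebraMap_mem' := fun d => ⟨0, d, by simp⟩ }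
    have hηS : η ∈ S := ⟨1, y, by rw [pow_one, hη]⟩
    have hS : ∀ p : D[X], Φ p ∈ S := by
      intro p
      induction p using Polynomial.induction_on with
      | C d => exact Φ.commutes d ▸ S.algebraMap_mem d
      | add p q hp hq => rw [map_add]; exact S.add_mem hp hq
      | monomial n d hp =>
        rw [pow_succ, ← mul_assoc, map_mul]
        exact S.mul_mem hp (by simpa [Φ] using hηS)
    rintro ⟨_, p, rfl⟩
    obtain ⟨N, d, h⟩ := hS p
    exact ⟨N, d, Subtype.ext h⟩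

/-- every quotient of two elements is reached -/
theorem reach2 (D Dt : Type u) [CommRing D] [IsNoetherianRing D] [CommRing Dt] [IsDomain Dt]
    [IsPrincipalIdealRing Dt] [Algebra D Dt] [Algebra.IsIntegral D Dt]
    [Finite (MaximalSpectrum Dt)] (hinf : ∀ 𝔫 : Ideal D, 𝔫.IsMaximal → Infinite (D ⧸ 𝔫))
    (w b : Dt) : b ≠ 0 → ∀ D' : Subalgebra D Dt, Module.Finite D D' → Emb D' 2 → b ∈ D' →
      b * w ∈ D' → ∃ E : Subalgebra D Dt, Module.Finite D E ∧ Emb E 2 ∧ D' ≤ E ∧ w ∈ E := by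
  induction b using (wellFounded_dvdNotUnit (α := Dt)).induction with
  | _ b ih =>
  intro hb D' hfin hemb hbD haD
  have hint : Algebra.IsIntegral D' Dt := Algebra.IsIntegral.tower_top D
  have hinj : Injective (algebraMap D' Dt) := Subtype.val_injective
  by_cases hu : IsUnit b
  · have := (algebraMap_isIntegral_iff.2 hint).isLocalHom hinj
    obtain ⟨b', hb'⟩ := (isUnit_of_map_unit (algebraMap D' Dt) ⟨b, hbD⟩ hu).exists_left_inv
    refine ⟨D', hfin, hemb, le_rfl, ?_⟩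
    have h1 : (b' : Dt) * b = 1 := congrArg Subtype.val hb'
    have : w = b' * (b * w) := by rw [← mul_assoc, h1, one_mul]
    rw [this]
    exact D'.mul_mem b'.2 haD
  · obtain ⟨Q, hQ, hbQ⟩ := exists_max_ideal_of_mem_nonunits (mem_nonunits_iff.2 hu)
    have h𝔫 : (Q.comap (algebraMap D' Dt)).IsMaximal :=
      Ideal.isMaximal_comap_of_isIntegral_of_isMaximal _
    have : IsNoetherianRing D' := IsNoetherianRing.of_finite D D'
    have := infinite_quot hinf _ h𝔫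
    have hb1 : (⟨b, hbD⟩ : D') ∈ Q.comap (algebraMap D' Dt) := hbQ
    have ha1 : (⟨b * w, haD⟩ : D') ∈ Q.comap (algebraMap D' Dt) := Q.mul_mem_right w hbQ
    obtain ⟨x, hx, hx0, E, hE1, hE2, hE3⟩ := blow2 D' Dt hinj hemb _ h𝔫 fun h =>
      hb (congrArg Subtype.val ((Submodule.eq_bot_iff _).1 h _ hb1))
    obtain ⟨b', hb'E, hb'⟩ := hE3 _ hb1
    obtain ⟨a', ha'E, ha'⟩ := hE3 _ ha1
    change b = (x : Dt) * b' at hb'
    change b * w = (x : Dt) * a' at ha'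
    have hx0' : (x : Dt) ≠ 0 := fun h => hx0 (Subtype.ext h)
    have hb'0 : b' ≠ 0 := fun h => hb (by rw [hb', h, mul_zero])
    have hab : b' * w = a' := mul_left_cancel₀ hx0' (by rw [← mul_assoc, ← hb', ha'])
    have hfin' : Module.Finite D (E.restrictScalars D) := Module.Finite.trans (R := D) D' E
    obtain ⟨E', h1, h2, h3, h4⟩ := ih b' ⟨hb'0, x, fun h => hQ.ne_top (Q.eq_top_of_isUnit_mem hx h),
      by rw [hb', mul_comm]⟩ hb'0 (E.restrictScalars D) hfin' hE2 hb'E (hab ▸ ha'E)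
    exact ⟨E', h1, h2, fun v hv => h3 (E.algebraMap_mem ⟨v, hv⟩), h4⟩

end Ch2P

theorem pCh2 : S_Ch2.{u} := by
  intro D Dt _ _ _ _ _ _ _ _ W hinj hfrac hinf hemb
  classical
  induction W using Finset.induction_on with
  | empty =>
    let e := Algebra.botEquivOfInjective hinj
    exact ⟨⊥, Module.Finite.equiv e.symm.toLinearEquiv, fun _ h => absurd h (Finset.notMem_empty _),
      ChainP.emb_surj (e.symm : D →+* (⊥ : Subalgebra D Dt)) e.symm.surjective hemb⟩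
  | insert w W _ ih =>
    obtain ⟨D', h1, h2, h3⟩ := ih
    obtain ⟨a, b, hb, hab⟩ := hfrac w
    obtain ⟨E, e1, e2, e3, e4⟩ := Ch2P.reach2 D Dt hinf w (algebraMap D Dt b)
      (fun h => hb (hinj (by rw [h, map_zero]))) D' h1 h3 (D'.algebraMap_mem b)
      (hab ▸ D'.algebraMap_mem a)
    refine ⟨E, e1, fun v hv => ?_, e2⟩
    rcases Finset.mem_insert.1 hv with rfl | hv
    · exact e4
    · exact e3 (h2 v hv)

end Pool.Agent.P.MP_46a8f8_ag.GU
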