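import Pool.Agent.P.MP_46a8f8_ag.GU.Su
import Pool.Agent.P.MP_46a8f8_ag.Asm1
import Pool.Agent.P.MP_46a8f8_ag.AzOf
import Pool.Agent.P.MP_46a8f8_ag.Chi1
import Pool.Agent.P.MP_46a8f8_ag.N2
import Pool.Agent.P.MP_46a8f8_ag.Res

/-!
The additive invariant given by the reduced norm, over the centre.
-/

namespace Pool.Agent.P.MP_46a8f8_ag.GU

open TensorProduct Function IsLocalRing

universe u

namespace ChiSP

open Asm1P

theorem pdS {R A : Type u} [CommRing R] [IsNoetherianRing R] [Ring A] [Algebra R A]
    (hA : Sep R A) (r : ℕ) : ∀ (M : Type u) [AddCommGroup M] [Module A M]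
    [Module R M] [IsScalarTower R A M] [Module.Finite A M], PD R M r → PD A M r := by
  have := hA.free
  have := hA.fin
  have := isNoetherianRing_alg R A
  induction r with
  | zero =>
    intro M _ _ _ _ _ h
    obtain ⟨N, p, hp⟩ := Module.Finite.exists_fin' A M
    have := pd_zero_iff.1 h
    obtain ⟨s, hs⟩ := Module.projective_lifting_property (p.restrictScalars R) LinearMap.id hp
    obtain ⟨s', hs'⟩ := hA.lift p LinearMap.id s (LinearMap.congr_fun hs)
    exact pd_zero_iff.2 (Module.Projective.of_split s' p (LinearMap.ext hs'))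
  | succ r ih =>
    intro M _ _ _ _ _ h
    obtain ⟨N, p, hp⟩ := Module.Finite.exists_fin' A M
    have e := LinearMap.exact_subtype_ker_map p
    exact PD.right _ p (Submodule.injective_subtype _) e hp
      (ih _ (PD.left ((LinearMap.ker p).subtype.restrictScalars R) (p.restrictScalars R)
        (Submodule.injective_subtype _) e hp (PD.of_projective r) h)) (PD.of_projective _)

theorem n2S {S A Ω : Type u} [CommRing S] [Ring A] [Algebra S A] [Field Ω] [Algebra S Ω]
    {n : ℕ} (Φ : A →ₐ[S] Matrix (Fin n) (Fin n) Ω) (hB : Bass A) (F : Type u) [AddCommGroup F]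
    [Module A F] [Module.Free A F] [Module.Finite A F] (φ : F →ₗ[A] F) (hφ : Bijective φ) :
    ∃ y : Aˣ, nu Φ φ = (Φ y).det := by
  rcases subsingleton_or_nontrivial A with hA | hA
  · have : Subsingleton F := Module.subsingleton A F
    have : φ = LinearMap.id := Subsingleton.elim _ _
    exact ⟨1, by rw [this, nu_id]; simp⟩
  classical
  let b := Module.Free.chooseBasis A F
  let e : F ≃ₗ[A] (Fin (Fintype.card (Module.Free.ChooseBasisIndex A F)) → A) :=
    (b.reindex (Fintype.equivFin _)).equivFun
  obtain ⟨y, hy⟩ := N2P.pi_case Φ hB _ (e.toLinearMap ∘ₗ φ ∘ₗ e.symm.toLinearMap)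
    (e.bijective.comp (hφ.comp e.symm.bijective))
  exact ⟨y, by rw [← nu_conj Φ φ e, hy]⟩

theorem iso_of_rk {R A : Type u} [CommRing R] [Ring A] [Algebra R A] (hA : Rk R A)
    (P Q : Type u) [AddCommGroup P] [Module A P] [Module R P] [IsScalarTower R A P]
    [AddCommGroup Q] [Module A Q] [Module R Q] [IsScalarTower R A Q] [Module.Free R P]
    [Module.Finite R P] [Module.Free R Q] [Module.Finite R Q]
    (h : Module.finrank R P = Module.finrank R Q) : Nonempty (P ≃ₗ[A] Q) := by
  have : SMulCommClass A R P := ⟨fun a r z => by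
    rw [← algebraMap_smul A r z, ← algebraMap_smul A r (a • z), smul_smul, smul_smul,
      Algebra.commutes]⟩
  have : SMulCommClass A R Q := ⟨fun a r z => by
    rw [← algebraMap_smul A r z, ← algebraMap_smul A r (a • z), smul_smul, smul_smul,
      Algebra.commutes]⟩
  let X : RM R A R :=
    { M := P
      ρ := Module.toModuleEnd R P (S := A)
      alg := fun r m => algebraMap_smul A r m }
  let Y : RM R A R :=
    { M := Q
      ρ := Module.toModuleEnd R Q (S := A)
      alg := fun r m => algebraMap_smul A r m }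
  obtain ⟨φ, hφ⟩ := hA X Y ⟨inferInstanceAs (Module.Free R P),
    inferInstanceAs (Module.Finite R P)⟩ ⟨inferInstanceAs (Module.Free R Q),
    inferInstanceAs (Module.Finite R Q)⟩ h
  exact ⟨{ toFun := φ
           map_add' := φ.map_add
           map_smul' := fun a m => hφ a m
           invFun := φ.symm
           left_inv := φ.left_inv
           right_inv := φ.right_inv }⟩

theorem h2S {R A : Type u} [CommRing R] [Ring A] [Algebra R A] [IsDomain R] [IsLocalRing R]
    [IsNoetherianRing R] [Module.Free R A] [Module.Finite R A] (hA : Rk R A) (F : Type u)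
    [AddCommGroup F] [Module A F] [Module.Free A F] [Module.Finite A F] (K : Submodule A F)
    (hK : Module.Projective A K) (hT : Tors R A (F ⧸ K)) : Nonempty (K ≃ₗ[A] F) := by
  have := isNoetherianRing_alg R A
  let := Module.compHom F (algebraMap R A)
  have := tower (R := R) (A := A) F
  have : Module.Finite R F := Module.Finite.trans A F
  have : Module.Free R F := Module.Free.trans (S := A)
  have : Module.Finite R K := Module.Finite.trans A K
  have : Module.Projective R K := by
    obtain ⟨k, p, hp⟩ := Module.Finite.exists_fin' A K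
    obtain ⟨s, hs⟩ := Module.projective_lifting_property p LinearMap.id hp
    exact Module.Projective.of_split (s.restrictScalars R) (p.restrictScalars R)
      (LinearMap.ext fun x => LinearMap.congr_fun hs x)
  have : Module.Free R K := Module.free_of_flat_of_isLocalRing
  have e : Module.finrank R K = Module.finrank R F := by
    obtain ⟨-, r, hr, h⟩ := hT
    refine le_antisymm (LinearMap.finrank_le_finrank_of_injective
      (f := K.subtype.restrictScalars R) K.injective_subtype) ?_
    have h3 : ∀ x : F, r • x ∈ K := fun x => by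
      have := h (Submodule.Quotient.mk x)
      rwa [← Submodule.Quotient.mk_smul, Submodule.Quotient.mk_eq_zero] at this
    let g : F →ₗ[R] K :=
      { toFun := fun x => ⟨r • x, h3 x⟩
        map_add' := fun x y => Subtype.ext (smul_add r x y)
        map_smul' := fun c x => Subtype.ext (smul_comm r c x) }
    refine LinearMap.finrank_le_finrank_of_injective (f := g) fun x y hxy => ?_
    exact smul_right_injective F hr (congrArg Subtype.val hxy)
  exact iso_of_rk hA K F e

variable {R S A Ω : Type u} [CommRing R] [CommRing S] [Algebra R S] [Ring A] [Algebra S A]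
  [Algebra R A] [Field Ω] [Algebra S Ω] {n : ℕ} {Φ : A →ₐ[S] Matrix (Fin n) (Fin n) Ω}

theorem good_iff (hG : GB R S A) {F : Type u} [AddCommGroup F] [Module A F] (φ : F →ₗ[A] F) :
    Good R φ ↔ Good S φ := and_congr Iff.rfl hG.tors

theorem isThetaS (hG : GB R S A) (hB : Bass A) (hS : Setup S A Ω n Φ) :
    IsTheta R (theta Φ) where
  comp F _ _ _ _ φ φ' h h' := by
    have h1 := nu_ne_zero hS φ ((good_iff hG φ).1 h)
    have h2 := nu_ne_zero hS φ' ((good_iff hG φ').1 h')
    rw [theta_eq φ (Units.mk0 _ h1) rfl, theta_eq φ' (Units.mk0 _ h2) rfl,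
      theta_eq (φ ∘ₗ φ') (Units.mk0 _ h1 * Units.mk0 _ h2) (nu_comp Φ φ φ'), QuotientGroup.mk_mul]
  bij F _ _ _ _ φ h := by
    obtain ⟨y, hy⟩ := n2S Φ hB F φ h
    rw [theta_eq φ (Units.map ((Matrix.detMonoidHom).comp
      (Φ : A →* Matrix (Fin n) (Fin n) Ω)) y) hy, QuotientGroup.eq_one_iff]
    exact ⟨y, rfl⟩
  prod F F' _ _ _ _ _ _ _ _ φ φ' h h' := by
    have h1 := nu_ne_zero hS φ ((good_iff hG φ).1 h)
    have h2 := nu_ne_zero hS φ' ((good_iff hG φ').1 h')
    rw [theta_eq φ (Units.mk0 _ h1) rfl, theta_eq φ' (Units.mk0 _ h2) rfl,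
      theta_eq (φ.prodMap φ') (Units.mk0 _ h1 * Units.mk0 _ h2) (nu_prodMap Φ φ φ'),
      QuotientGroup.mk_mul]

end ChiSP

open ChiSP Asm1P

theorem pChiS (h1 : S_BassS.{u}) (h2 : S_RkS.{u}) : S_ChiS.{u} := by
  intro R S A Ω _ _ _ _ _ _ _ _ _ n Φ hG hS
  have := rDom R
  have := hG.dom
  have := hG.sep.free
  have := hG.sep.fin
  have := isNoetherianRing_alg R A
  obtain ⟨χ₁, k1, k1'⟩ := chi1 R A _ (theta Φ) (isThetaS hG (h1 R A hG.sep) hS)
    (h2S (h2 R S A hG))
  have tf : ∀ (r : R) (a : A), r ≠ 0 → algebraMap R A r * a = 0 → a = 0 := fun r a hr h => by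
    rw [← Algebra.smul_def] at h
    exact (smul_eq_zero.1 h).resolve_left hr
  have step : ∀ r : ℕ, ∃ χ : Inv A (Ωˣ ⧸ nrdU Φ), IsAddPD R χ (r + 1) ∧
      ∀ (M : Type u) [AddCommGroup M] [Module A M], Tors R A M → PD A M 1 → χ M = χ₁ M := by
    intro r
    induction r with
    | zero => exact ⟨χ₁, k1, fun _ _ _ _ _ => rfl⟩
    | succ r ih =>
      obtain ⟨χ, h, h'⟩ := ih
      obtain ⟨χ', k, k'⟩ := res R A _ tf χ (r + 1) (by omega) h
      exact ⟨χ', k, fun M _ _ hM hM' => (k' M hM (hM'.mono (by omega))).trans (h' M hM hM')⟩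
  obtain ⟨d, hd⟩ := exists_dim R
  obtain ⟨χ, h, h'⟩ := step d
  have pd : ∀ (M : Type u) [AddCommGroup M] [Module A M], Module.Finite A M → PD A M (d + 1) := by
    intro M _ _ hM
    let := Module.compHom M (algebraMap R A)
    have := tower (R := R) (A := A) M
    have : Module.Finite R M := Module.Finite.trans A M
    exact (pdS hG.sep d M (rPd d R hd M)).mono (Nat.le_succ d)
  refine ⟨χ, fun M₁ M₂ M₃ _ _ _ _ _ _ f g hf hfg hg hT => h M₁ M₂ M₃ f g hf hfg hg hT
    (pd _ (hT.of_injective f hf).1) (pd _ hT.1) (pd _ (hT.of_surjective g hg).1),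
    fun a x hx => ?_⟩
  have hg := (good_iff hG _).2 (good_span detR hS a (hx ▸ x.ne_zero))
  rw [LinearMap.span_singleton_eq_range, h' _ hg.2, k1' A _ hg,
    theta_eq _ x ((nu_toSpanSingleton Φ a).trans hx)]
  exact PD.right (LinearMap.toSpanSingleton A A a) (Submodule.mkQ _) hg.1
    (LinearMap.exact_map_mkQ_range _) (Submodule.mkQ_surjective _) (PD.of_projective 0)
    (PD.of_projective 1)

end Pool.Agent.P.MP_46a8f8_ag.GU
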