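import Pool.Agent.P.MP_46a8f8_ag.GU.Gna

/-!
The constant term of a polynomial with a point on the sphere is a spinor norm.
-/

namespace Pool.Agent.P.MP_46a8f8_ag.GU

open TensorProduct Function IsLocalRing Polynomial

universe u

namespace ClP

variable {R : Type u} [CommRing R] {n : ℕ}

theorem map_vlC {T : Type u} [CommRing T] (φ : R →+* T) (c : Ix n → R) (p : Ix n → R[X]) :
    (vl (C ∘ c) p - X).map φ = vl (C ∘ (φ ∘ c)) (fun i => (p i).map φ) - X := by
  rw [Polynomial.map_sub, map_X]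
  congr 1
  refine (map_vl (C ∘ c) p (mapRingHom φ)).trans ?_
  congr 1
  funext i
  simp

theorem exists_z [Finite (MaximalSpectrum R)] (h1 : S_F2.{u}) {c : Ix n → R} {χ : R[X]}
    {p : Ix n → R[X]} (hc : Ok2 c) (hχ : χ.Monic) (h0 : IsUnit (χ.coeff 0))
    (hp : χ ∣ vl (C ∘ c) p - X) (hN : 2 ≤ χ.natDegree) :
    ∃ z : Ix n → R[X], (∀ i, (z i).natDegree ≤ χ.natDegree - 1) ∧ ∀ m : Ideal R, m.IsMaximal →
      (∀ k, ((vl (C ∘ c) z - X) %ₘ χ).coeff k ∈ m) ∧ qv c (cf z (χ.natDegree - 1)) ∉ m ∧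
        qv c (cf z 0) ∉ m := by
  have key : ∀ m : Ideal R, ∃ y : Ix n → R[X], m.IsMaximal →
      (∀ i, ((y i).map (Ideal.Quotient.mk m)).natDegree ≤ χ.natDegree - 1) ∧
      χ.map (Ideal.Quotient.mk m) ∣ vl (C ∘ (Ideal.Quotient.mk m ∘ c))
        (fun i => (y i).map (Ideal.Quotient.mk m)) - X ∧
      qv (Ideal.Quotient.mk m ∘ c)
        (cf (fun i => (y i).map (Ideal.Quotient.mk m)) (χ.natDegree - 1)) ≠ 0 ∧
      qv (Ideal.Quotient.mk m ∘ c) (cf (fun i => (y i).map (Ideal.Quotient.mk m)) 0) ≠ 0 := by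
    intro m
    by_cases hm : m.IsMaximal
    · let _ := Ideal.Quotient.field m
      have hd : (χ.map (Ideal.Quotient.mk m)).natDegree = χ.natDegree := hχ.natDegree_map _
      obtain ⟨y, y1, y2, y3, y4⟩ := h1 (R ⧸ m) n (Ideal.Quotient.mk m ∘ c)
        (χ.map (Ideal.Quotient.mk m)) (fun i => (p i).map (Ideal.Quotient.mk m)) (hc.map _)
        (hχ.map _) (hd ▸ hN) (by rw [coeff_map]; exact (h0.map _).ne_zero)
        (by rw [← map_vlC]; exact Polynomial.map_dvd _ hp)
      choose y' hy' using fun i => map_surjective (Ideal.Quotient.mk m)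
        Ideal.Quotient.mk_surjective (y i)
      obtain rfl : (fun i => (y' i).map (Ideal.Quotient.mk m)) = y := funext hy'
      rw [hd] at y1 y3
      exact ⟨y', fun _ => ⟨y1, y2, y3, y4⟩⟩
    · exact ⟨0, fun h => absurd h hm⟩
  choose y hy using key
  obtain ⟨r, hr⟩ := crtv' (κ := Ix n × ℕ) fun m x => (y m x.1).coeff x.2
  let z : Ix n → R[X] := fun i => ∑ k ∈ Finset.range χ.natDegree, monomial k (r (i, k))
  have hz : ∀ i k, (z i).coeff k = if k < χ.natDegree then r (i, k) else 0 := fun i k => by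
    simp [z, finsetSum_coeff, coeff_monomial]
  refine ⟨z, fun i => natDegree_le_iff_coeff_eq_zero.2 fun k hk => ?_, fun m hm => ?_⟩
  · rw [hz, if_neg (by omega)]
  obtain ⟨y1, y2, y3, y4⟩ := hy m hm
  have e : (fun i => (y m i).map (Ideal.Quotient.mk m)) =
      fun i => (z i).map (Ideal.Quotient.mk m) := by
    funext i
    ext k
    rw [coeff_map _ k (p := z i), hz]
    split_ifs with hk
    · rw [coeff_map]
      exact (Ideal.Quotient.eq.2 (hr m hm (i, k))).symm
    · rw [map_zero]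
      exact coeff_eq_zero_of_natDegree_lt ((y1 i).trans_lt (by omega))
  rw [e] at y2 y3 y4
  have e2 : ∀ k, qv (Ideal.Quotient.mk m ∘ c) (cf (fun i => (z i).map (Ideal.Quotient.mk m)) k) =
      Ideal.Quotient.mk m (qv c (cf z k)) := fun k => by
    rw [map_qv]
    congr 1
    funext i
    simp [cf]
  rw [e2] at y3 y4
  refine ⟨fun k => ?_, fun h => y3 (Ideal.Quotient.eq_zero_iff_mem.2 h),
    fun h => y4 (Ideal.Quotient.eq_zero_iff_mem.2 h)⟩
  rw [← map_vlC, ← modByMonic_eq_zero_iff_dvd (hχ.map _), ← map_modByMonic _ hχ] at y2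
  rw [← Ideal.Quotient.eq_zero_iff_mem, ← coeff_map, y2, coeff_zero]

theorem mk_mem {χ g : R[X]} {J : Ideal R} (h : ∀ k, g.coeff k ∈ J) :
    AdjoinRoot.mk χ g ∈ J.map (algebraMap R (AdjoinRoot χ)) := by
  rw [← AdjoinRoot.aeval_eq, aeval_eq_sum_range]
  refine Ideal.sum_mem _ fun k _ => ?_
  rw [Algebra.smul_def]
  exact Ideal.mul_mem_right _ _ (Ideal.mem_map_of_mem _ (h k))

theorem coeff_mem {χ : R[X]} (hχ : χ.Monic) {J : Ideal R} {y : AdjoinRoot χ}
    (h : y ∈ J.map (algebraMap R (AdjoinRoot χ))) (k : ℕ) :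
    (AdjoinRoot.modByMonicHom hχ y).coeff k ∈ J := by
  have h' : y ∈ J • (⊤ : Submodule R (AdjoinRoot χ)) := by
    rw [Ideal.smul_top_eq_map]; exact h
  refine Submodule.smul_induction_on h' (fun r hr x _ => ?_) fun a b ha hb => ?_
  · rw [map_smul, coeff_smul, smul_eq_mul]
    exact J.mul_mem_right _ hr
  · rw [map_add, coeff_add]
    exact J.add_mem ha hb

theorem mk_vl (χ : R[X]) (c : Ix n → R) (p : Ix n → R[X]) :
    AdjoinRoot.mk χ (vl (C ∘ c) p - X) =
      vl (algebraMap R (AdjoinRoot χ) ∘ c) (AdjoinRoot.mk χ ∘ p) - AdjoinRoot.root χ := by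
  rw [map_sub, map_vl, AdjoinRoot.mk_X]
  rfl

theorem exists_good [Nontrivial R] [Finite (MaximalSpectrum R)] (h1 : S_F2.{u}) (h2 : S_Wt.{u})
    {c : Ix n → R} {χ : R[X]} {p : Ix n → R[X]} (hc : Ok2 c) (hχ : χ.Monic)
    (h0 : IsUnit (χ.coeff 0)) (hp : χ ∣ vl (C ∘ c) p - X) (hN : 2 ≤ χ.natDegree) :
    ∃ z : Ix n → R[X], (∀ i, (z i).natDegree ≤ χ.natDegree - 1) ∧ χ ∣ vl (C ∘ c) z - X ∧
      IsUnit (qv c (cf z (χ.natDegree - 1))) ∧ IsUnit (qv c (cf z 0)) := by
  obtain ⟨z, z1, z2⟩ := exists_z h1 hc hχ h0 hp hN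
  have : Module.Finite R (AdjoinRoot χ) := (AdjoinRoot.powerBasis' hχ).finite
  have := semi_fin R (AdjoinRoot χ)
  let J : Ideal R := Ideal.jacobson ⊥
  have hJ : ∀ a, a ∈ J ↔ ∀ m : Ideal R, m.IsMaximal → a ∈ m := fun a => by
    simp [J, Ideal.jacobson]
  have hcS : Ok2 (algebraMap R (AdjoinRoot χ) ∘ c) := hc.map _
  have e1 := AdjoinRoot.mk_eq_zero.2 hp
  rw [mk_vl, sub_eq_zero] at e1
  have hr : IsUnit (AdjoinRoot.root χ) := by
    simpa using GnaP.unit_root_add χ 0 (by rwa [← coeff_zero_eq_eval_zero])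
  have hx : IsUnit (qv (algebraMap R (AdjoinRoot χ) ∘ c) (AdjoinRoot.mk χ ∘ p)) :=
    isUnit_of_mul_isUnit_right (show IsUnit (vl _ _) from e1 ▸ hr)
  have e2 : AdjoinRoot.mk χ (vl (C ∘ c) z - X) ∈ J.map (algebraMap R (AdjoinRoot χ)) := by
    rw [← AdjoinRoot.mk_leftInverse hχ (AdjoinRoot.mk χ _), AdjoinRoot.modByMonicHom_mk]
    exact mk_mem fun k => (hJ _).2 fun m hm => (z2 m hm).1 k
  rw [mk_vl, ← e1, vl, vl, ← mul_sub, Ideal.unit_mul_mem_iff_mem _ (hcS.un 0)] at e2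
  obtain ⟨x', x1, x2⟩ := h2 _ n _ _ _ _ hcS hx e2
  let p' : Ix n → R[X] := fun i => AdjoinRoot.modByMonicHom hχ (x' i)
  have hmk : AdjoinRoot.mk χ ∘ p' = x' := funext fun i => AdjoinRoot.mk_leftInverse hχ _
  have hne : χ ≠ 1 := fun h => by rw [h, natDegree_one] at hN; omega
  have hco : ∀ k i, cf p' k i - cf z k i ∈ J := fun k i => by
    have := coeff_mem hχ (x2 i) k
    rw [map_sub, coeff_sub, Function.comp, AdjoinRoot.modByMonicHom_mk,
      (modByMonic_eq_self_iff hχ).2 (degree_lt_degree ((z1 i).trans_lt (by omega)))] at this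
    exact this
  have hun : ∀ k, (∀ m : Ideal R, m.IsMaximal → qv c (cf z k) ∉ m) → IsUnit (qv c (cf p' k)) :=
    fun k h => isUnit_of_max fun m hm hmem => h m hm (by
      simpa using m.sub_mem hmem ((hJ _).1 (qv_sub_mem c _ _ (hco k)) m hm))
  refine ⟨p', fun i => ?_, ?_, hun _ fun m hm => (z2 m hm).2.1, hun _ fun m hm => (z2 m hm).2.2⟩
  · obtain ⟨g, hg⟩ := AdjoinRoot.mk_surjective (x' i)
    have := natDegree_modByMonic_lt g hχ hne
    simp only [p', ← hg, AdjoinRoot.modByMonicHom_mk]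
    omega
  · rw [← AdjoinRoot.mk_eq_zero, mk_vl, hmk, ← e1, vl, vl, x1, sub_self]

end ClP

open ClP in
theorem pCl (h1 : S_F2.{u}) (h2 : S_Wt.{u}) : S_Cl.{u} := by
  intro R _ _ n c χ p hc
  rcases subsingleton_or_nontrivial R with _ | _
  · exact fun _ _ _ => Sn.triv _
  induction hN : χ.natDegree using Nat.strong_induction_on generalizing χ p with
  | _ N ih =>
  intro hχ h0 hp
  rcases Nat.lt_or_ge N 2 with hlt | hge
  · interval_cases N
    · rw [hχ.natDegree_eq_zero.1 hN]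
      simpa using Sn.one
    · have e := hχ.eq_X_add_C hN
      obtain ⟨h, hh⟩ := hp
      have e1 := congrArg (evalRingHom (-χ.coeff 0)) hh
      rw [map_sub, map_vl, map_mul] at e1
      have e2 : evalRingHom (-χ.coeff 0) χ = 0 := by
        conv_lhs => rw [coe_evalRingHom]; arg 2; rw [e]
        simp
      have e3 : evalRingHom (-χ.coeff 0) ∘ C ∘ c = c := by funext i; simp
      rw [e2, zero_mul, e3, coe_evalRingHom, eval_X, sub_eq_zero] at e1
      have u := h0.neg
      rw [pow_one, neg_one_mul]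
      rw [← e1] at u ⊢
      exact Sn.vl (isUnit_of_mul_isUnit_right u)
  · subst hN
    obtain ⟨z, z1, ⟨h, hh⟩, z3, z4⟩ := exists_good h1 h2 hc hχ h0 hp hge
    obtain ⟨M, hM⟩ := Nat.exists_eq_add_of_le' hge
    obtain ⟨d1, d2⟩ := qv_deg c z1
    have hv : vl (C ∘ c) z = C (c 0) * qv (C ∘ c) z := rfl
    have d3 : (χ * h).natDegree ≤ χ.natDegree + M := by
      rw [← hh, hv]
      refine (natDegree_sub_le _ _).trans (max_le ((natDegree_C_mul_le _ _).trans ?_) ?_)
      · omega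
      · rw [natDegree_X]; omega
    have d4 : h.natDegree ≤ M := by
      by_cases h' : h = 0
      · simp [h']
      · rw [hχ.natDegree_mul' h'] at d3; omega
    have d5 : h.coeff M = vl c (cf z (χ.natDegree - 1)) := by
      have := coeff_mul_add_eq_of_natDegree_le (le_refl χ.natDegree) d4
      rw [coeff_natDegree, hχ.leadingCoeff, one_mul, ← hh, hv, coeff_sub, coeff_C_mul,
        show χ.natDegree + M = 2 * (χ.natDegree - 1) by omega, d2,
        coeff_X_of_ne_one (by omega), sub_zero] at this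
      exact this.symm
    have u1 : IsUnit (h.coeff M) := d5 ▸ (hc.un 0).mul z3
    obtain ⟨G, hG, hGd, hGe⟩ := exists_monic d4 u1
    have d6 : vl c (cf z 0) = χ.coeff 0 * (h.coeff M * G.coeff 0) := by
      have e1 := congrArg (evalRingHom 0) hh
      have e3 : evalRingHom (0 : R) ∘ C ∘ c = c := by funext i; simp
      have e4 : evalRingHom (0 : R) ∘ z = cf z 0 := by
        funext i; simp [cf, coeff_zero_eq_eval_zero]
      rw [map_sub, map_vl, e3, e4, hGe] at e1
      simpa [coeff_zero_eq_eval_zero] using e1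
    have u2 : IsUnit (G.coeff 0) := isUnit_of_mul_isUnit_right (isUnit_of_mul_isUnit_right
      (show IsUnit (χ.coeff 0 * (h.coeff M * G.coeff 0)) from d6 ▸ (hc.un 0).mul z4))
    have s1 := ih M (by omega) G z hGd hG u2
      ⟨χ * C (h.coeff M), by rw [hh]; conv_lhs => rw [hGe]
                             ring⟩
    refine Sn.of_eq hc ((Sn.vl z3).mul s1) (Sn.vl z4) ?_
    rw [d6, ← d5, hM]
    have : ((-1 : R) ^ M) ^ 2 = 1 := by rw [← pow_mul, mul_comm, pow_mul]; simp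
    linear_combination (h.coeff M * G.coeff 0 * χ.coeff 0) * this

end Pool.Agent.P.MP_46a8f8_ag.GU
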