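import Pool.Agent.P.MP_46a8f8_ag.GU.Sp

/-!
The Clifford algebra of a diagonal form in coordinates.
-/

namespace Pool.Agent.P.MP_46a8f8_ag.GU

open TensorProduct

universe u

namespace Cl0P

variable {R V : Type u} [CommRing R] [AddCommGroup V] [Module R V] {n : ℕ}

theorem eq_one (Q : QuadraticForm R V) [Invertible (2 : R)] :
    CliffordAlgebra.equivExterior Q 1 = 1 :=
  CliffordAlgebra.changeForm_one CliffordAlgebra.changeForm.associated_neg_proof

theorem eq_i (Q : QuadraticForm R V) [Invertible (2 : R)] (m : V) :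
    CliffordAlgebra.equivExterior Q (CliffordAlgebra.ι Q m) = ExteriorAlgebra.ι R m :=
  CliffordAlgebra.changeForm_ι CliffordAlgebra.changeForm.associated_neg_proof m

theorem gen (Q : QuadraticForm R V) (b : Module.Basis (Ix n) R V) :
    Algebra.adjoin R (Set.range fun i => CliffordAlgebra.ι Q (b i)) = ⊤ := by
  rw [eq_top_iff, ← CliffordAlgebra.adjoin_range_ι (Q := Q)]
  refine Algebra.adjoin_le ?_
  rintro _ ⟨m, rfl⟩
  rw [← b.sum_repr m, map_sum]
  refine Subalgebra.sum_mem _ fun i _ => ?_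
  rw [map_smul]
  exact Subalgebra.smul_mem _ (Algebra.subset_adjoin (Set.mem_range_self i)) _

theorem onT_sum (Q : QuadraticForm R V) (b : Module.Basis (Ix n) R V) {T : Type u} [CommRing T]
    [Algebra R T] (v : Ix n → T) :
    onT (CliffordAlgebra.ι Q) (∑ i, v i ⊗ₜ[R] b i) =
      iv (eT (fun i => CliffordAlgebra.ι Q (b i)) T) v := by
  rw [onT, map_sum, iv]
  refine Finset.sum_congr rfl fun i _ => ?_
  rw [LinearMap.lTensor_tmul, eT, TensorProduct.smul_tmul', smul_eq_mul, mul_one]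

theorem ex_co (b : Module.Basis (Ix n) R V) {T : Type u} [CommRing T] [Algebra R T]
    (x : T ⊗[R] V) : ∃ v : Ix n → T, ∑ i, v i ⊗ₜ[R] b i = x := by
  induction x using TensorProduct.induction_on with
  | zero => exact ⟨0, by simp⟩
  | tmul t m =>
    refine ⟨fun i => b.repr m i • t, ?_⟩
    conv_rhs => rw [← b.sum_repr m, TensorProduct.tmul_sum]
    exact Finset.sum_congr rfl fun i _ => TensorProduct.smul_tmul _ _ _
  | add x y hx hy =>
    obtain ⟨v, rfl⟩ := hx
    obtain ⟨w, rfl⟩ := hy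
    exact ⟨v + w, by simp only [Pi.add_apply, TensorProduct.add_tmul, Finset.sum_add_distrib]⟩

theorem isVec_iff (Q : QuadraticForm R V) (b : Module.Basis (Ix n) R V) {T : Type u} [CommRing T]
    [Algebra R T] (x : T ⊗[R] CliffordAlgebra Q) :
    IsVec Q x ↔ ∃ v : Ix n → T, iv (eT (fun i => CliffordAlgebra.ι Q (b i)) T) v = x := by
  constructor
  · rintro ⟨w, rfl⟩
    obtain ⟨v, rfl⟩ := ex_co b w
    exact ⟨v, (onT_sum Q b v).symm⟩
  · rintro ⟨v, rfl⟩
    exact ⟨_, onT_sum Q b v⟩

theorem onT_aT {E : Type u} [Ring E] [Algebra R E] (α : E →ₐ[R] E) {T : Type u} [CommRing T]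
    [Algebra R T] (g : T ⊗[R] E) : onT α.toLinearMap g = aT α T g := by
  induction g using TensorProduct.induction_on with
  | zero => rw [onT, map_zero, map_zero]
  | tmul t a => rfl
  | add x y hx hy =>
    rw [onT] at hx hy
    rw [onT, map_add, map_add, hx, hy]

end Cl0P

theorem pCl0 : S_Cl0.{u} := by
  intro R V _ _ _ Q n b h2 hu ho
  let _ : Invertible (2 : R) := h2.invertible
  let B : Module.Basis (Finset (Ix n)) R (CliffordAlgebra Q) :=
    b.ExteriorAlgebra.map (CliffordAlgebra.equivExterior Q).symm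
  refine ⟨⟨⟨h2, hu⟩, Module.Free.of_basis B, Module.Finite.of_basis B,
    fun i => CliffordAlgebra.ι_sq_scalar Q _, fun i j hij => ?_, Cl0P.gen Q b,
    fun i => CliffordAlgebra.involute_ι _,
    ⟨fun x y => CliffordAlgebra.reverse.map_mul x y, fun x => CliffordAlgebra.reverse_reverse x⟩,
    fun i => CliffordAlgebra.reverse_ι _, ?_, ?_⟩, ?_⟩
  · refine eq_neg_of_add_eq_zero_left ?_
    rw [CliffordAlgebra.ι_mul_ι_add_swap, ho i j hij, map_zero]
  · refine ⟨(ExteriorAlgebra.algebraMapInv (R := R) (M := V)).toLinearMap ∘ₗ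
      (CliffordAlgebra.equivExterior Q).toLinearMap, ?_⟩
    change ExteriorAlgebra.algebraMapInv (CliffordAlgebra.equivExterior Q 1) = 1
    rw [Cl0P.eq_one, map_one]
  · refine ⟨b.equivFun.toLinearMap ∘ₗ ExteriorAlgebra.ιInv ∘ₗ
      (CliffordAlgebra.equivExterior Q).toLinearMap, fun i => ?_⟩
    change b.equivFun (ExteriorAlgebra.ιInv
      (CliffordAlgebra.equivExterior Q (CliffordAlgebra.ι Q (b i)))) = _
    rw [Cl0P.eq_i, ExteriorAlgebra.ι_leftInverse]
    ext j
    rw [Module.Basis.equivFun_self, Pi.single_apply]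
    simp only [eq_comm]
  · funext T _ _ g
    simp only [SpinF, SpD, Cl0P.isVec_iff Q b, Cl0P.onT_aT]

end Pool.Agent.P.MP_46a8f8_ag.GU
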