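import Pool.Agent.P.MP_46a8f8_ag.GU.Su
import Pool.Agent.P.MP_46a8f8_ag.Closed
import Pool.Agent.P.MP_46a8f8_ag.Reg2

/-!
Vanishing of additive invariants at the closed point for separable algebras.
-/

namespace Pool.Agent.P.MP_46a8f8_ag.GU

open Function IsLocalRing

universe u

namespace ClosedSP

variable {R A F : Type u} [CommRing R] [Ring A] [Algebra R A] [AddCommGroup F] [Module A F]
  [Module R F] [IsScalarTower R A F]

/-- the action of `A` transported to column vectors -/
@[reducible] def rm (A : Type u) [Ring A] [Algebra R A] [Module A F] [IsScalarTower R A F]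
    (J : Ideal R) {r : ℕ} (e : F ≃ₗ[R] (Fin r → R ⧸ J)) : RM R A (R ⧸ J) where
  M := Fin r → R ⧸ J
  ρ :=
    { toFun := fun a =>
        { toFun := fun v => e (a • e.symm v)
          map_add' := fun v w => by rw [map_add, smul_add, map_add]
          map_smul' := fun d v => by
            obtain ⟨s, rfl⟩ := Ideal.Quotient.mk_surjective d
            change e (a • e.symm (algebraMap R (R ⧸ J) s • v)) =
              algebraMap R (R ⧸ J) s • e (a • e.symm v)
            rw [algebraMap_smul, algebraMap_smul, map_smul e.symm, smul_comm, map_smul e] }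
      map_one' := LinearMap.ext fun v => by simp
      map_mul' := fun a a' => LinearMap.ext fun v => by simp [mul_smul]
      map_zero' := LinearMap.ext fun v => by simp
      map_add' := fun a a' => LinearMap.ext fun v => by simp [add_smul] }
  alg s v := by
    change e (algebraMap R A s • e.symm v) = _
    rw [algebraMap_smul, algebraMap_smul, map_smul, e.apply_symm_apply]

theorem ker_iso (h : S_BN.{u}) [IsLocalRing R] (hA : Sep R A) {M : Type u} [AddCommGroup M]
    [Module A M] {J : Ideal R} [J.IsPrime] [IsPrincipalIdealRing (R ⧸ J)] {r : ℕ}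
    (e : F ≃ₗ[R] (Fin r → R ⧸ J)) (q : F →ₗ[A] M) (c : R)
    (hcJ : c ∉ J) (hc : ∀ m : M, algebraMap R A c • m = 0) :
    Nonempty (LinearMap.ker q ≃ₗ[A] F) := by
  have : IsLocalRing (R ⧸ J) :=
    IsLocalRing.of_surjective' (Ideal.Quotient.mk J) Ideal.Quotient.mk_surjective
  let N : Submodule (R ⧸ J) (rm A J e).M :=
    { carrier := {v | q (e.symm v) = 0}
      add_mem' := fun {v w} hv hw => by
        change q (e.symm (v + w)) = 0
        rw [map_add, map_add, hv, hw, add_zero]
      zero_mem' := by
        change q (e.symm 0) = 0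
        rw [map_zero, map_zero]
      smul_mem' := fun d v hv => by
        obtain ⟨s, rfl⟩ := Ideal.Quotient.mk_surjective d
        change q (e.symm (algebraMap R (R ⧸ J) s • v)) = 0
        rw [algebraMap_smul, map_smul, ← algebraMap_smul A, map_smul, hv, smul_zero] }
  have hN : (rm A J e).Stab N := fun a v hv => by
    change q (e.symm (e (a • e.symm v))) = 0
    rw [e.symm_apply_apply, map_smul, hv, smul_zero]
  obtain ⟨φ, hφ⟩ := h R A (R ⧸ J) (rm A J e) N hN (algebraMap R (R ⧸ J) c) hA
    ⟨inferInstanceAs (Module.Free (R ⧸ J) (Fin r → R ⧸ J)),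
      inferInstanceAs (Module.Finite (R ⧸ J) (Fin r → R ⧸ J))⟩
    (fun h => hcJ (Ideal.Quotient.eq_zero_iff_mem.1 h)) fun y => by
      change q (e.symm (algebraMap R (R ⧸ J) c • y)) = 0
      rw [algebraMap_smul, map_smul, ← algebraMap_smul A, map_smul]
      exact hc _
  let j : LinearMap.ker q → N := fun x => ⟨e x, by
    change q (e.symm (e x)) = 0
    rw [e.symm_apply_apply]
    exact x.2⟩
  have hj : Bijective j := ⟨fun x y hxy => Subtype.ext (e.injective (congrArg Subtype.val hxy)),
    fun v => ⟨⟨e.symm v, v.2⟩, Subtype.ext (e.apply_symm_apply _)⟩⟩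
  let g : LinearMap.ker q →ₗ[A] F :=
    { toFun := fun x => e.symm (φ (j x))
      map_add' := fun x y => by
        have : j (x + y) = j x + j y := Subtype.ext (map_add e _ _)
        rw [this, map_add, map_add]
      map_smul' := fun a x => by
        have h1 : j (a • x) = ((rm A J e).sub N hN).ρ a (j x) := Subtype.ext (by
          change e (a • (x : F)) = e (a • e.symm (e x))
          rw [e.symm_apply_apply])
        rw [h1, hφ]
        exact e.symm_apply_apply _ }
  exact ⟨LinearEquiv.ofBijective g (e.symm.bijective.comp (φ.bijective.comp hj))⟩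

theorem core (h : S_BN.{u}) [IsLocalRing R] [IsNoetherianRing R] [Module.Free R F]
    [Module.Finite R F] [Module.Finite A F] {Γ : Type u} [CommGroup Γ]
    {ψ : Inv A Γ} (hA : Sep R A) (hψ : IsAdd R ψ) {M : Type u} [AddCommGroup M] [Module A M]
    {J : Ideal R} [J.IsPrime] [IsPrincipalIdealRing (R ⧸ J)] (hJ : J ≠ ⊥) (hK : Kill A J M)
    (p : F →ₗ[A] M) (hp : Surjective p) (c : R)
    (hcJ : c ∉ J) (hc : ∀ m : M, algebraMap R A c • m = 0) : ψ M = 1 := by
  obtain ⟨e⟩ := ClosedP.quot_equiv (A := A) (F := F) J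
  have hT : Tors R A (F ⧸ ClosedP.mul A F J) := (ClosedP.kill_quot J).tors hJ inferInstance
  let q := (ClosedP.mul A F J).liftQ p (ClosedP.mul_le_ker hK p)
  have hq : Surjective q := fun m => by
    obtain ⟨x, rfl⟩ := hp m
    exact ⟨Submodule.Quotient.mk x, rfl⟩
  obtain ⟨e'⟩ := ker_iso h hA e q c hcJ hc
  exact hψ.coker _ q (LinearMap.ker q).injective_subtype (LinearMap.exact_subtype_ker_map q) hq hT
    (hψ.equiv e' (hT.equiv e'.symm))

end ClosedSP

theorem pClosedS (h : S_BN.{u}) : S_ClosedS.{u} := by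
  intro R A Γ _ _ _ _ _ ψ hd hA hψ M _ _ hM hK
  have := hA.free
  have := hA.fin
  obtain ⟨J, hJ, hJ0, hJm, hP⟩ := regDVR rQuot rDom R hd
  have hle : J ≤ maximalIdeal R := le_maximalIdeal hJ.ne_top
  obtain ⟨c, hc, hcJ⟩ := SetLike.exists_of_lt (lt_of_le_of_ne hle hJm)
  obtain ⟨N, p, hp⟩ := Module.Finite.exists_fin' A M
  exact ClosedSP.core h hA hψ hJ0 (fun s hs => hK s (hle hs)) p hp c hcJ (hK c hc)

end Pool.Agent.P.MP_46a8f8_ag.GU
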