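import Pool.Agent.P.MP_46a8f8_ag.GU.Qc

/-!
The centre of an algebra with involution is the base ring or a quadratic extension.
-/

namespace Pool.Agent.P.MP_46a8f8_ag.GU

open TensorProduct Function IsLocalRing

universe u

namespace ClsP

variable {R S : Type u} [CommRing R] [CommRing S] [Algebra R S]

/-- an invertible skew element gives a basis -/
theorem qd_of {ι : S →ₐ[R] S} (hι : ∀ s, ι (ι s) = s) (hi : Injective (algebraMap R S))
    (h2 : IsUnit (2 : R)) (hf : ∀ s, ι s = s → ∃ r, algebraMap R S r = s) {κ : S} {δ : Rˣ}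
    (hk : ι κ = -κ) (hδ : κ * κ = algebraMap R S δ) : Qd ι κ δ := by
  have hli : LinearIndependent R ![(1 : S), κ] := by
    rw [LinearIndependent.pair_iff]
    intro a b hab
    have h1 := congrArg ι hab
    rw [map_add, map_smul, map_smul, map_one, hk, map_zero] at h1
    rw [Algebra.smul_def, Algebra.smul_def] at hab h1
    have h3 : algebraMap R S (2 * a) = algebraMap R S 0 := by
      rw [map_mul, map_ofNat, map_zero]
      linear_combination hab + h1
    have h4 : algebraMap R S (2 * (δ * b)) = algebraMap R S 0 := by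
      rw [map_mul, map_mul, map_ofNat, map_zero, ← hδ]
      linear_combination κ * (hab - h1)
    exact ⟨h2.mul_right_eq_zero.1 (hi h3),
      δ.isUnit.mul_right_eq_zero.1 (h2.mul_right_eq_zero.1 (hi h4))⟩
  have hsp : ⊤ ≤ Submodule.span R (Set.range ![(1 : S), κ]) := by
    intro x _
    obtain ⟨p, hp⟩ := hf (x + ι x) (by rw [map_add, hι, add_comm])
    obtain ⟨q, hq⟩ := hf (κ * (x - ι x)) (by rw [map_mul, map_sub, hι, hk]; ring)
    obtain ⟨v, hv⟩ := (h2.mul δ.isUnit).exists_left_inv
    have hv' := congrArg (algebraMap R S) hv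
    rw [map_mul, map_mul, map_ofNat, map_one, ← hδ] at hv'
    refine (Submodule.mem_span_range_iff_exists_fun R).2 ⟨![v * (δ * p), v * q], ?_⟩
    rw [Fin.sum_univ_two]
    change (v * (δ * p)) • (1 : S) + (v * q) • κ = x
    rw [Algebra.smul_def, Algebra.smul_def, map_mul, map_mul, map_mul, hp, hq, ← hδ]
    linear_combination x * hv'
  exact ⟨hk, hδ, h2, Module.Basis.mk hli hsp, Module.Basis.mk_apply _ _ 0,
    Module.Basis.mk_apply _ _ 1⟩

/-- an involution of an unramified algebra whose fixed ring is the base -/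
theorem cls [IsLocalRing R] [Algebra.FormallyUnramified R S] [Algebra.EssFiniteType R S]
    {ι : S →ₐ[R] S} (hι : ∀ s, ι (ι s) = s) (hi : Injective (algebraMap R S))
    (h2 : IsUnit (2 : R)) (hf : ∀ s, ι s = s → ∃ r, algebraMap R S r = s) :
    Surjective (algebraMap R S) ∨ ∃ (κ : S) (δ : Rˣ), Qd ι κ δ := by
  obtain ⟨t, ht, ht1⟩ := (Algebra.FormallyUnramified.iff_exists_tensorProduct (R := R)
    (S := S)).1 inferInstance
  let φ : S ⊗[R] S →ₐ[R] S := Algebra.TensorProduct.productMap (AlgHom.id R S) ι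
  have hφ : ∀ a s : S, φ (a ⊗ₜ[R] s) = a * ι s := fun _ _ => rfl
  have h1 : ∀ s, (ι s - s) * φ t = 0 := fun s => by
    have := congrArg φ (ht s)
    rwa [map_mul, map_sub, hφ, hφ, map_one, one_mul, mul_one, map_zero] at this
  have h3 : ∀ w : S ⊗[R] S, (Algebra.TensorProduct.lmul' R w - φ w) * φ t = 0 := fun w => by
    induction w using TensorProduct.induction_on with
    | zero => simp
    | tmul a s =>
      rw [Algebra.TensorProduct.lmul'_apply_tmul, hφ]
      linear_combination (-a) * h1 s
    | add x y hx hy =>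
      rw [map_add, map_add]
      linear_combination hx + hy
  have h4 := h3 t
  rw [ht1] at h4
  have h5 : φ t = ι (φ t) * φ t := by linear_combination h4 - h1 (φ t)
  have h6 : ι (φ t) = φ t := by
    have := congrArg ι h5
    rw [map_mul, hι] at this
    linear_combination this - h5
  obtain ⟨r, hr⟩ := hf _ h6
  have h7 : (1 - r) * r = 0 := hi (by rw [map_mul, map_sub, map_one, map_zero, hr, h4])
  rcases isUnit_or_isUnit_one_sub_self r with hu | hu
  · left
    intro s
    refine hf s (sub_eq_zero.1 ?_)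
    have := h1 s
    rw [← hr] at this
    exact (hu.map (algebraMap R S)).mul_left_eq_zero.1 this
  right
  have h8 : φ t = 0 := by rw [← hr, hu.mul_right_eq_zero.1 h7, map_zero]
  by_contra hn
  have h9 : ∀ k k' : S, ι k = -k → ι k' = -k' →
      ∃ c ∈ maximalIdeal R, algebraMap R S c = k * k' := by
    intro k k' hk hk'
    obtain ⟨c, hc⟩ := hf (k * k') (by rw [map_mul, hk, hk', neg_mul_neg])
    refine ⟨c, fun hc' => hn ?_, hc⟩
    obtain ⟨d, hd⟩ := hf (k * k) (by rw [map_mul, hk, neg_mul_neg])
    obtain ⟨d', hd'⟩ := hf (k' * k') (by rw [map_mul, hk', neg_mul_neg])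
    have e : d * d' = c * c := hi (by rw [map_mul, map_mul, hc, hd, hd']; ring)
    have hu : IsUnit d := isUnit_of_mul_isUnit_left (e ▸ hc'.mul hc')
    exact ⟨k, hu.unit, qd_of hι hi h2 hf hk hd.symm⟩
  have h10 : ∀ w : S ⊗[R] S, ∃ c ∈ maximalIdeal R, algebraMap R S c =
      (Algebra.TensorProduct.lmul' R w - φ w) + ι (Algebra.TensorProduct.lmul' R w - φ w) := by
    intro w
    induction w using TensorProduct.induction_on with
    | zero => exact ⟨0, zero_mem _, by simp⟩
    | tmul a s =>
      obtain ⟨c, hc, e⟩ := h9 (a - ι a) (s - ι s) (by rw [map_sub, hι, neg_sub])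
        (by rw [map_sub, hι, neg_sub])
      refine ⟨c, hc, ?_⟩
      rw [e, Algebra.TensorProduct.lmul'_apply_tmul, hφ, map_sub, map_mul, map_mul, hι]
      ring
    | add x y hx hy =>
      obtain ⟨c, hc, e⟩ := hx
      obtain ⟨c', hc', e'⟩ := hy
      refine ⟨c + c', add_mem hc hc', ?_⟩
      rw [map_add, e, e']
      simp only [map_add, map_sub]
      ring
  obtain ⟨c, hc, e⟩ := h10 t
  rw [ht1, h8, sub_zero, map_one] at e
  have e2 : c = 2 := hi (by rw [e, map_ofNat]; norm_num)
  exact hc (e2 ▸ h2)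

end ClsP

theorem pCls : S_Cls.{u} := by
  intro R S A _ _ _ _ _ _ _ _ _ _ _ _ σ h2 hσ hf
  obtain ⟨τ, k, a, b, hτ, hab, -⟩ := pAzS S A
  have hinj : Injective (algebraMap S A) := by
    refine (injective_iff_map_eq_zero _).2 fun s hs => ?_
    have := congrArg τ hs
    rwa [Algebra.algebraMap_eq_smul_one, map_smul, hτ, smul_eq_mul, mul_one, map_zero] at this
  have hone : ∑ i, a i * b i = 1 := by
    have := hab 1
    simp only [mul_one] at this
    rw [this, hτ, map_one]
  have hs1 : σ 1 = 1 := by
    have := hσ.1 (σ 1) 1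
    rw [mul_one, hσ.2, mul_one] at this
    exact this.symm
  have hc : ∀ s, algebraMap S A (τ (σ (algebraMap S A s))) = σ (algebraMap S A s) := fun s => by
    have h1 : ∀ y, y * σ (algebraMap S A s) = σ (algebraMap S A s) * y := fun y => by
      conv_lhs => rw [← hσ.2 y, ← hσ.1, Algebra.commutes, hσ.1, hσ.2]
    rw [← hab]
    simp only [h1, mul_assoc]
    rw [← Finset.mul_sum, hone, mul_one]
  let ι : S →ₐ[R] S :=
    { toFun := fun s => τ (σ (algebraMap S A s))
      map_one' := by rw [map_one, hs1, hτ]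
      map_mul' := fun x y => hinj (by rw [hc, map_mul (algebraMap S A) (τ _), hc, hc, mul_comm x y,
        map_mul, hσ.1])
      map_zero' := by rw [map_zero, map_zero, map_zero]
      map_add' := fun x y => by rw [map_add, map_add, map_add]
      commutes' := fun r => hinj (by
        rw [hc, ← IsScalarTower.algebraMap_apply, Algebra.algebraMap_eq_smul_one, map_smul, hs1]) }
  have hι : ∀ s, σ (algebraMap S A s) = algebraMap S A (ι s) := fun s => (hc s).symm
  have : Module.Free R S := Module.free_of_flat_of_isLocalRing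
  have hi : Injective (algebraMap R S) := FaithfulSMul.algebraMap_injective R S
  rcases ClsP.cls (ι := ι) (fun s => hinj (by rw [← hι, ← hι, hσ.2])) hi h2
    (fun s hs => hf s (by rw [hι, hs])) with h | ⟨κ, δ, h⟩
  · exact Or.inl ⟨hi, h⟩
  · exact Or.inr ⟨ι, κ, δ, h, hι⟩

theorem pQdD : S_QdD.{u} := by
  intro R S _ _ _ _ _ ι κ δ h
  by_cases hr : ∃ r : R, r * r = δ
  · exact Or.inr hr
  left
  obtain ⟨v, v0, v1⟩ := h.bas
  have hi : Injective (algebraMap R S) := by
    refine (injective_iff_map_eq_zero _).2 fun r h0 => ?_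
    rw [Algebra.algebraMap_eq_smul_one, ← v0] at h0
    simpa using congrArg (fun x => v.repr x 0) h0
  have hN : ∀ x : S, ∃ n : R, x * ι x = algebraMap R S n ∧ (n = 0 → x = 0) := fun x => by
    have e := v.sum_repr x
    rw [Fin.sum_univ_two, v0, v1, Algebra.smul_def, Algebra.smul_def, mul_one] at e
    generalize v.repr x 0 = a at e
    generalize v.repr x 1 = b at e
    subst e
    refine ⟨a ^ 2 - δ * b ^ 2, ?_, fun h0 => ?_⟩
    · rw [map_add, map_mul, AlgHom.commutes, AlgHom.commutes, h.skew, map_sub, map_mul, map_pow,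
        map_pow, ← h.sq]
      ring
    · have hb : b = 0 := by
        by_contra hb
        obtain ⟨c, rfl⟩ : b ∣ a := (IsIntegrallyClosed.pow_dvd_pow_iff (n := 2) two_ne_zero).1
          ⟨δ, by linear_combination h0⟩
        refine hr ⟨c, mul_left_cancel₀ (pow_ne_zero 2 hb) ?_⟩
        linear_combination h0
      have ha : a = 0 := by
        rw [hb] at h0
        exact pow_eq_zero_iff two_ne_zero |>.1 (by linear_combination h0)
      rw [ha, hb, map_zero, zero_mul, add_zero]
  have : Nontrivial S := hi.nontrivial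
  have : NoZeroDivisors S := ⟨fun {x y} hxy => by
    obtain ⟨n, hn, hx⟩ := hN x
    obtain ⟨m, hm, hy⟩ := hN y
    have e : n * m = 0 := hi (by
      rw [map_mul, ← hn, ← hm, map_zero]
      linear_combination (ι x * ι y) * hxy)
    exact (mul_eq_zero.1 e).imp hx hy⟩
  exact NoZeroDivisors.to_isDomain S

end Pool.Agent.P.MP_46a8f8_ag.GU
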