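import Pool.Agent.P.MP_46a8f8_ag.GU.Su
import Pool.Agent.P.MP_46a8f8_ag.Asm1
import Pool.Agent.P.MP_46a8f8_ag.AzOf
import Pool.Agent.P.MP_46a8f8_ag.Cmp
import Pool.Agent.P.MP_46a8f8_ag.DetP

/-!
The comparison argument over the centre.
-/

namespace Pool.Agent.P.MP_46a8f8_ag.GU

open TensorProduct Function IsLocalRing

universe u

namespace CmpSP

theorem height_le {R S : Type u} [CommRing R] [CommRing S] [Algebra R S] [Algebra.IsIntegral R S]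
    (𝔮 : Ideal S) [h : 𝔮.IsPrime] : 𝔮.height ≤ (𝔮.comap (algebraMap R S)).height := by
  have h1 := Order.height_le_height_apply_of_strictMono (PrimeSpectrum.comap (algebraMap R S))
    (fun p q hpq => Ideal.IsIntegral.comap_lt_comap (R := R) (I := p.asIdeal) (J := q.asIdeal) hpq)
    ⟨𝔮, h⟩
  rwa [← PrimeSpectrum.height_eq_orderHeight, ← PrimeSpectrum.height_eq_orderHeight] at h1

end CmpSP

open CmpSP Asm1P

theorem pCmpS (h0 : S_ChiS.{u}) : S_CmpS.{u} := by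
  intro R S A Ω _ _ _ _ _ _ _ _ _ n Φ v a f₀ hG hS hf₀ h hV
  classical
  have := hG.dom
  have := hG.fin
  have := hG.tower
  have := hS.free
  have := hS.finite
  have : IsNoetherianRing S := IsNoetherianRing.of_finite R S
  obtain ⟨χ, h1, h2⟩ := h0 R S A Ω n Φ hG hS
  have h1' : IsAdd S χ := fun M₁ M₂ M₃ _ _ _ _ _ _ f g hf hfg hg hT =>
    h1 M₁ M₂ M₃ f g hf hfg hg (hG.tors.2 hT)
  set f := algebraMap R S f₀ with hfe
  have hf : f ≠ 0 := (map_ne_zero_iff _ hG.inj).2 hf₀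
  have hV' : ∀ 𝔮 : Ideal S, 𝔮.IsPrime → f ∈ 𝔮 → 2 ≤ 𝔮.height → Van χ 𝔮 := fun 𝔮 q1 q2 q3 M _ _ hM hK =>
    hV _ χ h1 (𝔮.comap (algebraMap R S)) inferInstance q2 (q3.trans (height_le 𝔮)) M hM
      fun r hr m => by rw [IsScalarTower.algebraMap_apply R S A]; exact hK _ hr m
  have hf' : algebraMap S Ω f ≠ 0 := (map_ne_zero_iff _ hS.inj).2 hf
  let x : Ωˣ := Units.mk0 _ hf'
  let w : Ωˣ := Units.map (algebraMap S Ω : S →* Ω) v
  have e1 : (Φ a).det = (w * x ^ n : Ωˣ) := by simp [h, w, x]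
  have e2 : (Φ (algebraMap S A f)).det = (x ^ n : Ωˣ) := by
    rw [AlgHom.commutes, Algebra.algebraMap_eq_smul_one, ← algebraMap_smul Ω f, Matrix.det_smul]
    simp [x]
  have hdet : LinearMap.det (LinearMap.mulRight S a) = v ^ n * f ^ Module.finrank S A := by
    apply hS.inj
    rw [detR S A Ω n Φ hS a, h, hS.rank, ← map_pow, mul_pow, ← pow_mul, pow_two]
  have hass : Associated (LinearMap.det (LinearMap.mulRight S a)) (f ^ Module.finrank S A) := by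
    rw [hdet, mul_comm]
    exact (associated_mul_unit_left _ _ (v.isUnit.pow n))
  choose ℓ₀ hℓ₀ using fun (𝔭 : Ideal S) (h𝔭 : 𝔭.IsPrime) (h : 𝔭.height = 1) => len detP S A 𝔭 h
  let ℓ : Ideal S → ∀ (M : Type u) [AddCommGroup M] [Module A M], ℕ := fun 𝔭 =>
    if h : 𝔭.IsPrime ∧ 𝔭.height = 1 then ℓ₀ 𝔭 h.1 h.2 else fun _ => 0
  have hℓ : ∀ 𝔭 (h1 : 𝔭.IsPrime) (h2 : 𝔭.height = 1), ℓ 𝔭 = ℓ₀ 𝔭 h1 h2 := fun 𝔭 h1 h2 =>
    dif_pos ⟨h1, h2⟩
  have key := cmp S A _ χ f hS.az h1' hf hV' ℓ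
    (fun 𝔭 p1 p2 => by rw [hℓ 𝔭 p1 p2]; exact ⟨(hℓ₀ 𝔭 p1 p2).1, (hℓ₀ 𝔭 p1 p2).2.1⟩)
    (Module.finrank S A + 1) (A ⧸ Submodule.span A {a})
    (A ⧸ Submodule.span A {algebraMap S A f}) inferInstance inferInstance
    (fun m => by
      obtain ⟨c, hc⟩ := hass
      rw [pow_succ', ← hc, mul_comm _ (c : S), ← mul_assoc, map_mul, mul_smul, kill_span,
        smul_zero])
    (fun m => by
      obtain ⟨y, rfl⟩ := Submodule.mkQ_surjective _ m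
      rw [← map_smul, Submodule.mkQ_apply, Submodule.Quotient.mk_eq_zero, pow_succ, map_mul,
        smul_eq_mul, mul_assoc, Algebra.commutes f, ← mul_assoc]
      exact Submodule.mem_span_singleton.2 ⟨_, rfl⟩)
    (fun 𝔭 p1 p2 => by rw [hℓ 𝔭 p1 p2]; exact (hℓ₀ 𝔭 p1 p2).2.2 a f hf hass)
  rw [h2 a _ e1, h2 _ _ e2, QuotientGroup.eq] at key
  obtain ⟨y, hy⟩ := (nrdU Φ).inv_mem key
  rw [mul_inv_rev, inv_inv, mul_comm, mul_inv_cancel_right] at hy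
  exact ⟨y, congrArg Units.val hy⟩

theorem pCmpN (h1 : S_CmpS.{u}) (h2 : S_SetN.{u}) (h3 : S_GBbc.{u}) : S_CmpN.{u} := by
  intro R S A O _ _ _ _ _ _ _ _ _ _ n N v a f hG hN hD hf h hV
  letI := GAP.alg R S A O
  obtain ⟨Ω, _, _, Φ, hS, hΦ⟩ := h2 R S A O n N hG hN hD
  obtain ⟨y, hy⟩ := h1 O (O ⊗[R] S) (O ⊗[R] A) Ω n Φ v a f (h3 R S A O hG hD).1 hS hf
    (by rw [hΦ, h, map_pow]) hV
  exact ⟨y, hS.inj ((hΦ y).symm.trans hy)⟩

end Pool.Agent.P.MP_46a8f8_ag.GU
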