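import Pool.Agent.P.MP_46a8f8_ag.GU.Qc

/-!
A trivialisation of a cocycle of inner automorphisms, with involution.
-/

namespace Pool.Agent.P.MP_46a8f8_ag.GU

open TensorProduct Function IsLocalRing Polynomial

universe u

open TorAP in
theorem pCobS : S_CobS.{u} := by
  intro R S A K O _ _ _ _ _ _ _ _ _ _ _ _ _ _ _ ρ c hA hIso hG hc hu ⟨p₀⟩
  have := SA.free (R := R) (A := A)
  have := SA.fin (R := R) (A := A)
  have can : ∀ {T : Type u} [CommRing T] [Algebra R T] {h x y : T ⊗[R] A},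
      h * cj R A T h = 1 → x * h = y * h → x = y := fun {T} _ _ {h x y} e1 e2 => by
    rw [← mul_one x, ← e1, ← mul_assoc, e2, mul_assoc, e1, mul_one]
  obtain ⟨A', _, _, _, _, μ, hfin, m1, m2, m3⟩ := pTw R S A O c
    (fun T _ _ p q x => by
      obtain ⟨T', _, _, _, _, h, _, hh⟩ := hG.loc T p q
      obtain ⟨u1, u2⟩ := hu T' _ _ h hh
      refine mp_inj_ff (T' := T') (can u1 ?_)
      have e := congrArg (cj R A T') (hc.inn T' _ _ h (mp A (IsScalarTower.toAlgHom R T T') x) hh)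
      rw [cj_mul, cj_mul] at e
      rw [← hc.nat, hc.inn T' _ _ h _ hh, mp_cj, mp_cj, ← hc.nat, ← one_mul (_ * h), ← u1,
        mul_assoc h, ← mul_assoc (cj R A T' h), e, mul_assoc, u2, mul_one])
    (fun T _ _ p q s => by
      obtain ⟨T', _, _, _, _, h, _, hh⟩ := hG.loc T p q
      refine mp_inj_ff (T' := T') (can (hu T' _ _ h hh).1 ?_)
      rw [← hc.nat, hc.inn T' _ _ h _ hh, mp1, cen])
    hc.nat hc.mul
  have hA' : AzI R S A' := pAzD R S A A' O μ hA m1 m2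
  have : SA R A' := allSep R S A' hA'
  have := hA.tower
  have := hA'.tower
  obtain ⟨φ, hφ⟩ := exists_bce p₀ μ
  obtain ⟨α, hα⟩ := hIso A' φ hA' (fun s => by rw [← mp1 p₀, hφ, m2, mp1]) (bc_cj hφ m1)
  obtain ⟨ψ, hψ⟩ : ∃ ψ : O ⊗[R] A ≃ₐ[O] O ⊗[R] A,
      ∀ a, ψ ((1 : O) ⊗ₜ[R] a) = μ ((1 : O) ⊗ₜ[R] α.symm a) :=
    ⟨(Algebra.TensorProduct.congr (AlgEquiv.refl (R := O) (A₁ := O))
      (α.symm.restrictScalars R)).trans μ, fun _ => rfl⟩
  refine ⟨ψ, fun T _ _ p q a => ?_, fun s => by rw [hψ, AlgEquiv.commutes, m2],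
    bc_cj (f := AlgHom.id R O) (φ := ψ) (fun x => by rw [H90P.mp_id, H90P.mp_id]) fun a => ?_⟩
  · rw [hψ]
    exact m3 _ _ _ _
  · rw [hψ, hψ, ← m1]
    congr 2
    rw [AlgEquiv.symm_apply_eq, hα, AlgEquiv.apply_symm_apply]

end Pool.Agent.P.MP_46a8f8_ag.GU
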