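import Pool.Agent.P.MP_46a8f8_ag.GU.Base2

/-!
Assembly: a form with a Lagrangian is stably hyperbolic.
-/

namespace Pool.Agent.P.MP_46a8f8_ag.GU

open TensorProduct Function Matrix IsLocalRing

universe u

namespace CoreP

/-- the data attached to a curve -/
def Has {R : Type u} [CommRing R] (x : R) (p : Ideal R) (G : R) : Prop :=
  ∃ (S C : Type u) (_ : CommRing S) (_ : Algebra R S) (_ : CommRing C) (_ : Algebra R C)
    (_ : Algebra C S) (_ : IsScalarTower R C S) (τ : C →ₗ[R] R) (g t : C),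
    Nrm p S ∧ Mod x S C τ g t ∧ g ∣ algebraMap R C G

theorem Has.dvd {R : Type u} [CommRing R] {x : R} {p : Ideal R} {G G' : R} (h : Has x p G)
    (hG : G ∣ G') : Has x p G' := by
  obtain ⟨S, C, _, _, _, _, _, _, τ, g, t, h1, h2, h3⟩ := h
  exact ⟨S, C, _, _, _, _, _, inferInstance, τ, g, t, h1, h2, h3.trans (map_dvd _ hG)⟩

variable {R A : Type u} [CommRing R] [IsRegularLocalRing R] [Ring A] [Algebra R A] [StarRing A]
  [SA R A]

omit [IsRegularLocalRing R] in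
theorem null_of_red (hS : S_Sum.{u}) {F G : R} {ε : ℤˣ} {Y Y' Y₁ : FM R A R (BQ F G)}
    (h1 : Y'.Good (-ε)) (h2 : Neut ε F G Y') (h3 : Null ε F G Y₁)
    (h4 : ∀ Z : FM R A R (BQ F G), (Y₁.sum Z).HasLag → ((Y.sum Y').sum Z).HasLag) :
    Null ε F G Y := by
  obtain ⟨Z, hZ1, hZ2, hZ3⟩ := h3
  exact ⟨Y'.sum Z, h1.sum hZ1, h2.sum hS hZ2, (FM.sum_assoc _ _ _).hasLag (h4 Z hZ3)⟩

theorem ind (hS : S_Sum.{u}) (hU : S_Uni.{u}) (hR : S_Red.{u}) (hB : S_StepB.{u})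
    (hL : S_Last.{u}) (hd : ringKrullDim R = 3) {x f G z : R} (hx : x ∈ maximalIdeal R)
    (hx2 : x ∉ maximalIdeal R ^ 2) (hz : z ∈ maximalIdeal R) (hFG : RS (x * f) G)
    (hzr : IsSMulRegular (BQ (x * f) G) z) (ε : ℤˣ) (P : Finset (Ideal R)) :
    (∀ p ∈ P, Crv x p ∧ f ∈ p ∧ Has x p G) → ∀ (N : ℕ) (Y : FM R A R (BQ (x * f) G)),
      Y.Good (-ε) → Y.Perf → (∀ r ∈ (Ideal.span {x} * ∏ p ∈ P, p) ^ N, Y.Kil r) →
      Null ε (x * f) G Y := by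
  classical
  have := rDom R
  induction P using Finset.induction_on with
  | empty =>
    intro _ N Y hg hp hk
    obtain ⟨Y₁, g1, p1, a1, k1, l1⟩ := hR R A hd _ _ _ Y ⊥ hFG hg hp Y.stab_bot
      (fun u hu v _ => by rw [(Submodule.mem_bot R).1 hu, map_zero, LinearMap.zero_apply])
    have hk1 := a1.kil _ N fun r hr => k1 r fun v _ => hk r hr v
    have hx1 : Y₁.Kil x := hk1 x (by simp)
    have hN := hL R A hd x f G _ Y₁ hx hx2 hFG g1 p1 hx1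
    rw [_root_.neg_neg] at hN
    exact ⟨Y₁.neg, g1.neg, hN.neg, l1 _ p1.hasLag⟩
  | insert p P hpP ih =>
    intro hP N Y hg hp hk
    obtain ⟨Y₁, g1, p1, a1, k1, l1⟩ := hR R A hd _ _ _ Y ⊥ hFG hg hp Y.stab_bot
      (fun u hu v _ => by rw [(Submodule.mem_bot R).1 hu, map_zero, LinearMap.zero_apply])
    have hk1 := a1.kil _ N fun r hr => k1 r fun v _ => hk r hr v
    rw [Finset.prod_insert hpP, mul_left_comm] at hk1
    obtain ⟨hc, hf, S, C, _, _, _, _, _, _, τ, g, t, h1, h2, h3⟩ :=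
      hP p (Finset.mem_insert_self p P)
    obtain ⟨Y', N₀, c, g2, n2, k2, s2, i2, hcp, hN₀⟩ := hB R A S C x f G z p
      (Ideal.span {x} * ∏ q ∈ P, q) τ g t _ Y₁ hx hz hc h1 h2 hf h3 hFG hzr Ideal.mul_le_left g1
      a1 hk1
    rw [_root_.neg_neg] at n2
    have p2 : Y'.Perf := by
      obtain ⟨E, D, e1, -, e3⟩ := n2
      exact hU R A E ε D _ _ Y' e1 hFG g2 e3
    obtain ⟨Y₂, g3, p3, -, k3, l3⟩ := hR R A hd _ _ _ (Y₁.sum Y') N₀ hFG (g1.sum g2) (p1.sum p2)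
      s2 i2
    have hzk : ∃ k : ℕ, z ^ k ∈ p ⊔ Ideal.span {c} := by
      refine Ideal.mem_radical_iff.1 ?_
      rw [Ideal.radical_eq_sInf, Submodule.mem_sInf]
      rintro q ⟨hq1, hq2⟩
      rw [hc.one q hq2 (lt_of_le_of_ne (le_sup_left.trans hq1) fun e =>
        hcp (e ▸ hq1 (Ideal.mem_sup_right (Ideal.mem_span_singleton_self c))))]
      exact hz
    obtain ⟨k, hk'⟩ := hzk
    have k4 : ∀ r ∈ (Ideal.span {x} * ∏ q ∈ P, q) ^ 1, Y₂.Kil r := by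
      intro r hr y
      rw [pow_one] at hr
      obtain ⟨a, ha, b, hb, e⟩ := Submodule.mem_sup.1 hk'
      obtain ⟨b, rfl⟩ := Ideal.mem_span_singleton'.1 hb
      have e1 : (a * r) • y = 0 := k3 _ (fun v _ => by
        rw [(hk1 _ (Ideal.mul_mem_mul ha hr)).sum (k2 _ (Ideal.mul_mem_mul ha hr)) v]
        exact N₀.zero_mem) y
      have e2 : (c * r) • y = 0 := k3 _ (hN₀ r hr) y
      refine ((p3.reg hzr).pow k).right_eq_zero_of_smul ?_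
      rw [← e, add_smul, ← mul_smul, e1, mul_smul, ← mul_smul c, e2, smul_zero, add_zero]
    have n3 := ih (fun q hq => hP q (Finset.mem_insert_of_mem hq)) 1 Y₂ g3 p3 k4
    obtain ⟨Z, z1, z2, z3⟩ := null_of_red hS g2 n2 n3 l3
    exact ⟨Z, z1, z2, l1 Z z3⟩

end CoreP

open CoreP in
theorem core (hZ : S_Z.{u}) (hAv : S_Av.{u}) (hPr : S_Primes.{u}) (hN : S_Nrm.{u})
    (hM : S_Mod.{u}) (hPair : S_Pair.{u}) (hU : S_Uni.{u}) (hS : S_Sum.{u}) (h0 : S_Step0.{u})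
    (hSu : S_Surg.{u}) (hR : S_Red.{u}) (hB : S_StepB.{u}) (hL : S_Last.{u}) : S_Core.{u} := by
  classical
  intro R A _ _ _ _ _ _ hd hfin E ε hE hlag
  have := rDom R
  obtain ⟨H, D, F₀, G₀, hH, hH', h01, hF₀, hG₀⟩ := h0 R A hd E ε hE hlag
  obtain ⟨x, hx, hx2⟩ := SetLike.not_le_iff_exists.1 (not_le_sq3 hd)
  have hx0 : x ≠ 0 := fun e => hx2 (e ▸ Submodule.zero_mem _)
  have hxu : ¬ IsUnit x := (mem_maximalIdeal x).1 hx
  have hxp : Prime x := by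
    obtain ⟨h1, -⟩ := rQuot R x hx hx2
    have := rDom (R ⧸ Ideal.span {x})
    exact (Ideal.span_singleton_prime hx0).1 ((Ideal.Quotient.isDomain_iff_prime _).1 this)
  obtain ⟨P, N, hP, hPN⟩ := hPr R hd x F₀ G₀ hx h01
  have hex : ∀ p ∈ P, ∃ G : R, ¬ x ∣ G ∧ Has x p G := fun p hp => by
    obtain ⟨h1, -, -, h4⟩ := hP p hp
    have := h1.prime
    obtain ⟨S, _, _, hS⟩ := hN R p h4 (hfin p h4)
    obtain ⟨C, _, _, _, _, τ, g, t, G, m1, m2, m3⟩ := hM R hd x p hx hx2 h1.nx S hS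
    exact ⟨G, m2, S, C, _, _, _, _, _, inferInstance, τ, g, t, hS, m1, m3⟩
  choose! Gp hGp hGp' using hex
  have m0 : F₀ ∈ Ideal.span {F₀, G₀} := Ideal.subset_span (by simp)
  have m0' : G₀ ∈ Ideal.span {F₀, G₀} := Ideal.subset_span (by simp)
  obtain ⟨G₁, hG₁, r1⟩ := hAv R _ F₀ G₀ x m0 m0' h01 hx0
  have hxG₁ : ¬ x ∣ G₁ := by
    rintro ⟨c, hc⟩
    exact hxu (isUnit_of_dvd_one (r1.2.2 1 c (by rw [hc, mul_one])))
  let G := G₁ * ∏ p ∈ P, Gp p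
  have hxG : ¬ x ∣ G := fun h => (hxp.dvd_or_dvd h).elim hxG₁ fun h => by
    obtain ⟨p, hp, h⟩ := (Prime.dvd_finsetProd_iff hxp _).1 h
    exact hGp p hp h
  have hG0 : G ≠ 0 := fun e => hxG (e ▸ dvd_zero x)
  obtain ⟨f, hf, r2⟩ := hAv R _ F₀ G₀ G m0 m0' h01 hG0
  have hFG : RS (x * f) G := by
    refine ⟨mul_ne_zero hx0 r2.2.1, hG0, fun a b e => ?_⟩
    obtain ⟨a, rfl⟩ := (hxp.dvd_or_dvd (⟨f * b, by rw [e, mul_assoc]⟩ : x ∣ G * a)).resolve_left hxG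
    exact mul_dvd_mul_left x (r2.symm.2.2 a b (mul_left_cancel₀ hx0 (by linear_combination e)))
  have kF : D.Kil (x * f) := hF₀.span hG₀ (Ideal.mul_mem_left _ _ hf)
  have kG : D.Kil G := hF₀.span hG₀ (Ideal.mul_mem_right _ _ hG₁)
  obtain ⟨z, hz, -, hzr⟩ := hZ R hd _ _ _ hFG (not_le_sq3 hd)
  obtain ⟨Y, g1, re⟩ := hPair R A _ ε D _ _ (hE.sum hH) hFG kF kG
  have p1 := hU R A _ ε D _ _ Y (hE.sum hH) hFG g1 re
  obtain ⟨Y', g2, ⟨E', D', e1, e2, e3⟩, l⟩ := ind hS hU hR hB hL hd hx hx2 hz hFG hzr ε P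
    (fun p hp => by
      obtain ⟨h1, h2, h3, -⟩ := hP p hp
      refine ⟨h1, ?_, (hGp' p hp).dvd (Dvd.dvd.mul_left (Finset.dvd_prod_of_mem _ hp) _)⟩
      exact (Ideal.span_le.2 (by rintro _ (rfl | rfl) <;> assumption) : _ ≤ p) hf)
    N Y g1 p1 fun r hr => re.kil (hF₀.span hG₀ (hPN hr))
  obtain ⟨D'', re''⟩ := hS R A _ _ D D' _ _ Y Y' re e3
  obtain ⟨H', w1, w2, w3⟩ := hSu R A hd _ ε D'' _ _ _ ((hE.sum hH).sum e1) hFG (g1.sum g2) re'' l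
  exact ⟨H.sum (E'.sum H'), hH.sum (e1.sum w1), hH'.sum (e2.sum w2),
    ((FM.sum_assoc _ _ _).trans (FM.sum_assoc _ _ _)).hyp w3⟩

end Pool.Agent.P.MP_46a8f8_ag.GU
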