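import Pool.Agent.P.MP_46a8f8_ag.GU.Base2

/-!
Free covers by matrix representations, sums of complexes.
-/

namespace Pool.Agent.P.MP_46a8f8_ag.GU

open TensorProduct Function Matrix IsLocalRing

universe u

namespace CoverP

variable {R A C : Type u} [CommRing R] [Ring A] [Algebra R A] [CommRing C] [Algebra R C]

theorem exists_basis [Module.Free R A] [Module.Finite R A] :
    ∃ (k : ℕ) (_ : Module.Basis (Fin k) R A), Module.finrank R A ∣ k := by
  rcases subsingleton_or_nontrivial R with h | h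
  · have := Module.subsingleton R A
    exact ⟨0, Module.Basis.empty A, dvd_zero _⟩
  · exact ⟨_, Module.finBasis R A, dvd_rfl⟩

theorem sum_repr {k : ℕ} (b : Module.Basis (Fin k) R A) (X : RM R A C) (x : A) (y : X.M) :
    ∑ j, algebraMap R C (b.repr x j) • X.ρ (b j) y = X.ρ x y := by
  conv_rhs => rw [← b.sum_repr x, map_sum, LinearMap.sum_apply]
  refine Finset.sum_congr rfl fun j _ => ?_
  rw [Algebra.smul_def, map_mul, Module.End.mul_apply, X.alg]

/-- copies of the regular representation -/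
noncomputable def rep {k : ℕ} (b : Module.Basis (Fin k) R A) (n : ℕ) :
    MRep R A R (Fin k × Fin n) where
  ρ := (blockDiagonalRingHom (Fin k) (Fin n) R).comp
    (RingHom.pi fun _ => (Algebra.leftMulMatrix b).toRingHom)
  alg r := by
    change blockDiagonal (fun _ : Fin n => Algebra.leftMulMatrix b (algebraMap R A r)) = _
    rw [AlgHom.commutes, Algebra.algebraMap_eq_smul_one, ← blockDiagonal_one,
      ← blockDiagonal_smul]
    rfl

theorem rep_apply {k : ℕ} (b : Module.Basis (Fin k) R A) (n : ℕ) (a : A)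
    (p q : Fin k × Fin n) :
    (rep b n).ρ a p q = if p.2 = q.2 then b.repr (a * b q.1) p.1 else 0 := by
  change blockDiagonal (fun _ : Fin n => Algebra.leftMulMatrix b a) p q = _
  rw [blockDiagonal_apply, Algebra.leftMulMatrix_eq_repr_mul]

end CoverP

theorem pCover : S_Cover.{u} := by
  intro R A C _ _ _ _ _ _ _ X hX
  have := SA.free (R := R) (A := A)
  have := SA.fin (R := R) (A := A)
  obtain ⟨k, b, hk⟩ := CoverP.exists_basis (R := R) (A := A)
  obtain ⟨n, m, hm⟩ := Module.Finite.exists_fin (R := C) (M := X.M)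
  let π : (Fin k × Fin n → C) →ₗ[C] X.M :=
    Fintype.linearCombination C fun p => X.ρ (b p.1) (m p.2)
  have hπ : ∀ v, π v = ∑ p, v p • X.ρ (b p.1) (m p.2) := fun v =>
    Fintype.linearCombination_apply C _ v
  have key : ∀ (x : A) (i : Fin n),
      π (fun p => algebraMap R C (if p.2 = i then b.repr x p.1 else 0)) = X.ρ x (m i) := by
    intro x i
    rw [hπ, Fintype.sum_prod_type, ← CoverP.sum_repr b X x]
    refine Finset.sum_congr rfl fun j _ => ?_
    rw [Finset.sum_eq_single i (fun i' _ h => by simp [h]) (by simp)]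
    simp
  refine ⟨Fin k × Fin n, inferInstance, inferInstance, CoverP.rep b n, π, ?_, ?_, ?_⟩
  · rw [← LinearMap.range_eq_top, eq_top_iff, ← hm, Submodule.span_le]
    rintro _ ⟨i, rfl⟩
    exact ⟨_, (key 1 i).trans (by rw [map_one]; rfl)⟩
  · intro a v
    change π (((CoverP.rep b n).map (Algebra.ofId R C)).ρ a *ᵥ v) = _
    rw [mulVec_eq_sum, map_sum, hπ v, map_sum]
    refine Finset.sum_congr rfl fun q _ => ?_
    rw [op_smul_eq_smul, map_smul, map_smul, ← Module.End.mul_apply, ← map_mul, ← key]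
    congr 2
    funext p
    change algebraMap R C ((CoverP.rep b n).ρ a p q) = _
    rw [CoverP.rep_apply]
  · rw [Fintype.card_prod, Fintype.card_fin]
    exact hk.mul_right _

theorem pSum : S_Sum.{u} := by
  intro R A _ _ _ _ _ E E' D D' F G Y Y' h h'
  obtain ⟨hF, hG, π, h1, h2, h3, h4⟩ := h
  obtain ⟨hF', hG', π', h1', h2', h3', h4'⟩ := h'
  let D'' : Dat (E.sum E') :=
    { Q := D.Q.prod D'.Q
      ff := D.ff.prod D'.ff
      i := D.i.prodMap D'.i
      eqv := fun a m => Prod.ext (D.eqv a m.1) (D'.eqv a m.2)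
      iso := fun q q' => by
        change E.b (D.i q.1) (D.i q'.1) + E'.b (D'.i q.2) (D'.i q'.2) = 0
        rw [D.iso, D'.iso, add_zero]
      ex := fun p hp => by
        obtain ⟨q, hq⟩ := D.ex p.1 fun q => by
          have : E.b p.1 (D.i q) + E'.b p.2 (D'.i 0) = 0 := hp (q, 0)
          rwa [map_zero, map_zero, add_zero] at this
        obtain ⟨q', hq'⟩ := D'.ex p.2 fun q => by
          have : E.b p.1 (D.i 0) + E'.b p.2 (D'.i q) = 0 := hp (0, q)
          rwa [map_zero, map_zero, zero_add] at this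
        exact ⟨(q, q'), Prod.ext hq hq'⟩ }
  let l : Module.Dual R (D.Q.M × D'.Q.M) →ₗ[R] Module.Dual R D.Q.M :=
    (LinearMap.inl R D.Q.M D'.Q.M).dualMap
  let r : Module.Dual R (D.Q.M × D'.Q.M) →ₗ[R] Module.Dual R D'.Q.M :=
    (LinearMap.inr R D.Q.M D'.Q.M).dualMap
  have hl : ∀ p : E.M × E'.M, l (D''.β p) = D.β p.1 := fun p => LinearMap.ext fun q => by
    change E.b p.1 (D.i q) + E'.b p.2 (D'.i 0) = E.b p.1 (D.i q)
    rw [map_zero, map_zero, add_zero]
  have hr : ∀ p : E.M × E'.M, r (D''.β p) = D'.β p.2 := fun p => LinearMap.ext fun q => by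
    change E.b p.1 (D.i 0) + E'.b p.2 (D'.i q) = E'.b p.2 (D'.i q)
    rw [map_zero, map_zero, zero_add]
  have hext : ∀ ξ η, l ξ = l η → r ξ = r η → ξ = η := fun ξ η e e' =>
    LinearMap.prod_ext e e'
  have hβ : ∀ (p : E.M × E'.M) ξ, D''.β p = ξ ↔ D.β p.1 = l ξ ∧ D'.β p.2 = r ξ := fun p ξ =>
    ⟨fun e => by rw [← e, hl, hr]; exact ⟨rfl, rfl⟩,
      fun e => hext _ _ (by rw [hl, e.1]) (by rw [hr, e.2])⟩
  have hkil : ∀ c, D.Kil c → D'.Kil c → D''.Kil c := fun c k k' ξ => by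
    obtain ⟨p, hp⟩ := k (l ξ)
    obtain ⟨p', hp'⟩ := k' (r ξ)
    exact ⟨(p, p'), (hβ _ _).2 ⟨by rw [map_smul]; exact hp, by rw [map_smul]; exact hp'⟩⟩
  have el : Eqv D''.Q.dual D.Q.dual l :=
    Eqv.dualMap (X := D.Q) (Y := D.Q.prod D'.Q) fun a m =>
      Prod.ext rfl (map_zero (D'.Q.ρ a)).symm
  have er : Eqv D''.Q.dual D'.Q.dual r :=
    Eqv.dualMap (X := D'.Q) (Y := D.Q.prod D'.Q) fun a m =>
      Prod.ext (map_zero (D.Q.ρ a)).symm rfl
  refine ⟨D'', hkil F hF hF', hkil G hG hG', (π ∘ₗ l).prod (π' ∘ₗ r), fun y => ?_,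
    fun a ξ => Prod.ext (h2.comp el a ξ) (h2'.comp er a ξ), fun ξ => ?_,
    fun ξ η p p' e e' => ?_⟩
  · obtain ⟨ξ, hξ⟩ := h1 y.1
    obtain ⟨ξ', hξ'⟩ := h1' y.2
    refine ⟨ξ.coprod ξ', Prod.ext ?_ ?_⟩
    · exact (congrArg π (LinearMap.coprod_inl ξ ξ')).trans hξ
    · exact (congrArg π' (LinearMap.coprod_inr ξ ξ')).trans hξ'
  · constructor
    · intro e
      obtain ⟨p, hp⟩ := (h3 (l ξ)).1 (congrArg Prod.fst e)
      obtain ⟨p', hp'⟩ := (h3' (r ξ)).1 (congrArg Prod.snd e)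
      exact ⟨(p, p'), (hβ _ _).2 ⟨hp, hp'⟩⟩
    · rintro ⟨p, hp⟩
      obtain ⟨e, e'⟩ := (hβ _ _).1 hp
      exact Prod.ext ((h3 _).2 ⟨_, e⟩) ((h3' _).2 ⟨_, e'⟩)
  · obtain ⟨e1, e2⟩ := (hβ _ _).1 e
    obtain ⟨e1', e2'⟩ := (hβ _ _).1 e'
    rw [map_smul] at e1 e2 e1' e2'
    change Y.b (π (l ξ)) (π (l η)) + Y'.b (π' (r ξ)) (π' (r η)) =
      Ideal.Quotient.mk _ (E.b p'.1 p.1 + E'.b p'.2 p.2)
    rw [h4 _ _ _ _ e1 e1', h4' _ _ _ _ e2 e2', map_add]

end Pool.Agent.P.MP_46a8f8_ag.GU
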