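import Pool.Agent.P.MP_46a8f8_ag.GU.Sp

/-!
The case where the form is isotropic at the zeros of the product.
-/

namespace Pool.Agent.P.MP_46a8f8_ag.GU

universe u

namespace Cs1P

variable {R : Type u} [CommRing R] {n : ℕ} {c : Ix n → R}

theorem mem_of_qp {p : Ideal R} (hp : p.IsPrime) {l : List (Ix n → R)} (h : qp c l ∈ p) :
    ∃ y ∈ l, qv c y ∈ p := by
  induction l with
  | nil => exact absurd (p.eq_top_iff_one.2 h) hp.ne_top
  | cons x l ih =>
    rw [qp_cons] at h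
    rcases hp.mem_or_mem h with h | h
    · exact ⟨x, List.mem_cons_self, h⟩
    · obtain ⟨y, hy, e⟩ := ih h
      exact ⟨y, List.mem_cons_of_mem _ hy, e⟩

theorem isoAt_map {R' : Type u} [CommRing R'] (f : R →+* R') {q : Ideal R'}
    (h : IsoAt c (q.comap f)) : IsoAt (f ∘ c) q := by
  obtain ⟨x, h1, h2⟩ := h
  refine ⟨f ∘ x, ?_, fun e => h2 (ct_le.2 fun i => ct_le.1 e i)⟩
  rw [← map_qv]
  exact h1

theorem pairs {l l' : List (Ix n → R)}
    (h : List.Forall₂ (fun d y => ct y = ⊤ ∧ Associated d (qv c y)) (l.map (qv c)) l')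
    (h2 : ∀ y ∈ l, ∀ x ε, ct x = ⊤ → IsUnit ε → qv c x = ε * qv c y → Sn c ε) :
    ∃ ε, Sn c ε ∧ vp c l' = ε * vp c l := by
  induction l generalizing l' with
  | nil =>
    cases h
    exact ⟨1, Sn.one, by simp⟩
  | cons y l ih =>
    rw [List.map_cons] at h
    cases h with
    | cons h1 h3 =>
      obtain ⟨ε, k1, k2⟩ := ih h3 fun z hz => h2 z (List.mem_cons_of_mem _ hz)
      obtain ⟨h4, v, hv⟩ := h1
      refine ⟨v * ε, (h2 y List.mem_cons_self _ v h4 v.isUnit (by rw [← hv, mul_comm])).mul k1,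
        ?_⟩
      rw [vp_cons, vp_cons, k2, vl, vl, ← hv]
      ring

theorem dim_one {a b : WithBot ℕ∞} (h : a + 1 ≤ b) (h' : b ≤ 2) : a ≤ 1 := by
  have h2 := h.trans h'
  induction a with
  | bot => exact bot_le
  | coe a =>
    have : a + 1 ≤ 2 := WithBot.coe_le_coe.1 h2
    have h3 : a ≤ 1 := by
      induction a with
      | top => simp at this
      | coe a =>
        have : a + 1 ≤ 2 := by exact_mod_cast this
        have : a ≤ 1 := by omega
        exact_mod_cast this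
    exact_mod_cast h3

end Cs1P

open Cs1P in
theorem pCs1 (h0 : S_Ap0.{u}) (h1 : S_Ap1.{u}) (h2 : S_Ap2.{u}) (h3 : S_Z1.{u})
    (h4 : S_Two.{u}) : S_Cs1.{u} := by
  intro R _ n c l u z hC hZ hI hu hv
  have := hC.noeth
  have := hC.semi
  have hiso : ∀ p : Ideal R, p.IsPrime → qp c l ∈ p → IsoAt c p := fun p hp h => by
    obtain ⟨y, hy, e⟩ := mem_of_qp hp h
    by_cases k : ct y ≤ p
    · exact hI p (hZ y hy p hp k) h
    · exact ⟨y, e, k⟩
  let f := Ideal.Quotient.mk (Ideal.span {qp c l})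
  have hisoD : ∀ q : Ideal (R ⧸ Ideal.span {qp c l}), q.IsPrime → IsoAt (f ∘ c) q := fun q hq => by
    refine isoAt_map f (hiso _ (Ideal.comap_isPrime f q) ?_)
    rw [Ideal.mem_comap, Ideal.Quotient.eq_zero_iff_mem.2 (Ideal.mem_span_singleton_self _)]
    exact q.zero_mem
  have hfin : Finite (MaximalSpectrum (R ⧸ Ideal.span {qp c l})) := semi_fin R _
  obtain ⟨y, y1, y2⟩ := h0 _ n (f ∘ c) (hC.ok.map f) fun p hp => hisoD p hp.1.1
  have hdim := dim_one (ringKrullDim_quotient_succ_le_of_nonZeroDivisor hC.nzd) hC.dim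
  have hIso := h1 _ n (f ∘ c) y hdim (hC.lam.map f) (hC.ok.map f)
    (fun m hm => hisoD m hm.isPrime) y1 y2
  obtain ⟨x, w, ε, e1, e2, e3⟩ := h2 R n c (qp c l) hC.ok hIso
  have hass : Associated (qp c l) (z ^ 2) := by
    have k1 : Associated (qp c l) (vp c l) := by
      rw [vp_eq]
      exact (associated_unit_mul_left _ _ ((hC.ok.un 0).pow _)).symm
    exact k1.trans (hv ▸ associated_unit_mul_left _ _ hu)
  obtain ⟨l', f1, σ, f2, f3⟩ := h3 R n c x w (l.map (qv c)) z hC.ok e3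
    (e2 ▸ mul_mem hC.nzd e1.mem_nonZeroDivisors) ⟨ε, e2⟩ hass
  obtain ⟨η, g1, g2⟩ := pairs f1 fun y hy x ε k1 k2 k3 => by
    obtain ⟨r, hr⟩ := qv_dvd_qp c y hy
    refine h4 R n c x y ε hC.dim hC.lam hC.ok k1 k2 k3 ?_ (hZ y hy) fun m hm k => hI m hm ?_
    · exact (mul_mem_nonZeroDivisors.1 (hr ▸ hC.nzd)).1
    · rw [hr]
      exact m.mul_mem_right _ (k (qv_mem_ct c y))
  have hz : z ^ 2 ∈ nonZeroDivisors R := by
    obtain ⟨v, hv⟩ := hass
    exact hv ▸ mul_mem hC.nzd v.isUnit.mem_nonZeroDivisors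
  refine g1.of_eq hC.ok f2 ?_
  refine (mul_cancel_right_mem_nonZeroDivisors hz).1 ?_
  rw [← f3, g2, hv, mul_assoc]

end Pool.Agent.P.MP_46a8f8_ag.GU
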