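import Pool.Agent.P.MP_46a8f8_ag.GU.Sp

/-!
The anisotropic case: passing to a finite cover inside the blow up.
-/

namespace Pool.Agent.P.MP_46a8f8_ag.GU

open Function Polynomial

universe u

namespace Cs2P

theorem sum_le {α : Type*} (L : List α) (f g : α → ℕ∞) (h : ∀ a ∈ L, f a ≤ g a) :
    (L.map f).sum ≤ (L.map g).sum := by
  induction L with
  | nil => simp
  | cons a L ih =>
    simp only [List.map_cons, List.sum_cons]
    exact add_le_add (h a List.mem_cons_self) (ih fun b hb => h b (List.mem_cons_of_mem _ hb))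

theorem nzd_of_dvd {R : Type u} [CommRing R] {a b : R} (h : b ∈ nonZeroDivisors R) (e : a ∣ b) :
    a ∈ nonZeroDivisors R := by
  obtain ⟨k, rfl⟩ := e
  exact (mul_mem_nonZeroDivisors.1 h).1

theorem monic_f {R : Type u} [CommRing R] [Nontrivial R] {G : R[X]} (s t : R) (hG : G.Monic)
    (h : 0 < G.natDegree) : (G ^ 2 + Yp s t).Monic := by
  refine (hG.pow 2).add_of_left (degree_lt_degree ?_)
  rw [hG.natDegree_pow]
  have := natDegree_Yp s t
  omega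

end Cs2P

open Cs2P in
theorem pCs2 (h1 : S_RS2.{u}) (h2 : S_Prm.{u}) (h3 : S_Rep.{u}) (h4 : S_BlR.{u}) (h5 : S_BlZ.{u})
    (h6 : S_BlL.{u}) (h7 : S_Nb.{u}) (h8 : S_Nz.{u}) (h9 : S_Rcp.{u}) (h10 : S_Hn.{u})
    (h11 : S_NPi.{u}) : S_Cs2.{u} := by
  intro R _ n c l u z m hC hfin hm hqm hiso hu hvp IH
  have := hC.noeth
  have := hC.semi
  have : Nontrivial R := by
    by_contra hR
    rw [not_nontrivial_iff_subsingleton] at hR
    exact hm.ne_top (Subsingleton.elim _ _)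
  have hc := hC.ok
  have hreg : RegAt R m 2 := hC.reg m hm hqm
  obtain ⟨s, t, hps, hj⟩ := h2 R n m l hC.lam hm hreg fun y hy =>
    ⟨qv c y, qv_mem_ct c y, nzd_of_dvd hC.nzd (qv_dvd_qp c y hy)⟩
  have hrq : Rq t s := h1 R m s t hps hreg
  obtain ⟨L, σ, ζ, hTp, hpos, hσ, hζ, hζm, hL, hlt⟩ :=
    h3 R n c l m s t hC.lam hc hps hrq hiso hfin hqm hj
  obtain ⟨G, ℓ, hG, hGd, hℓ, hqG, hκ⟩ := exists_G hTp
  obtain ⟨-, -, hq3⟩ := qp_deg c L
  obtain ⟨e, he⟩ : ∃ e, e = (L.map dg).sum := ⟨_, rfl⟩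
  rw [← he] at hGd hq3 hpos
  obtain ⟨κ, hκe⟩ : ∃ κ, κ = c 0 ^ L.length * ℓ := ⟨_, rfl⟩
  rw [← hκe] at hκ
  obtain ⟨κ', hκ'⟩ := (hκ.isUnit hc).exists_left_inv
  have hκ'u : IsUnit κ' := IsUnit.of_mul_eq_one _ hκ'
  have e1 : κ * hv s t (2 * e) G = u * σ * (z * ζ) ^ 2 := by
    have a1 := hq3 s t
    rw [hqG, hv_C_mul] at a1
    rw [vp_eq, List.length_map, ← a1, hvp] at hL
    rw [hκe]
    linear_combination hL
  obtain ⟨w, hw⟩ : ∃ w, w = κ' * (u * σ) := ⟨_, rfl⟩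
  have hwu : IsUnit w := hw ▸ hκ'u.mul (hu.mul (hσ.isUnit hc))
  have e2 : hv s t (2 * e) G = w * (z * ζ) ^ 2 := by
    rw [hw]
    linear_combination κ' * e1 - hv s t (2 * e) G * hκ'
  have hc0 : IsUnit (c 0 ^ l.length) := (hc.un 0).pow _
  have hvn : vp c l ∈ nonZeroDivisors R := by
    rw [vp_eq]
    exact mul_mem hc0.mem_nonZeroDivisors hC.nzd
  have hz : z ∈ nonZeroDivisors R :=
    nzd_of_dvd hvn ⟨u * z, by rw [hvp]; ring⟩
  have hzζ : z * ζ ∈ nonZeroDivisors R := mul_mem hz hζ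
  have hregz : ∀ m' : Ideal R, m'.IsMaximal → z * ζ ∈ m' → RegAt R m' 2 := fun m' hm' h => by
    rcases hm'.isPrime.mem_or_mem h with h | h
    · refine hC.reg m' hm' ?_
      have a1 : vp c l ∈ m' := by
        rw [hvp, pow_two, ← mul_assoc]
        exact m'.mul_mem_left _ h
      rw [vp_eq] at a1
      exact (Ideal.unit_mul_mem_iff_mem m' hc0).1 a1
    · rw [hζm m' hm' h]
      exact hreg
  have hGpos : 0 < G.natDegree := by omega
  have hf := monic_f s t hG hGpos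
  have := hf.free_adjoinRoot
  have := hf.finite_adjoinRoot
  have := semi_fin R (AdjoinRoot (G ^ 2 + Yp s t))
  have e3 : Algebra.norm R (AdjoinRoot.mk (G ^ 2 + Yp s t) G) = w * (z * ζ) ^ 2 := by
    have a1 : AdjoinRoot.mk G (G ^ 2 + Yp s t) = AdjoinRoot.mk G (Yp s t) := by
      rw [map_add, map_pow, AdjoinRoot.mk_self, zero_pow two_ne_zero, zero_add]
    rw [h9 R _ G hf hG, a1, h10 R G s t hG, hGd, e2, Even.neg_one_pow ⟨e, two_mul e⟩,
      Even.neg_one_pow (Even.mul_left ⟨e, two_mul e⟩ _), one_mul, one_mul]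
  have hGn : AdjoinRoot.mk (G ^ 2 + Yp s t) G ∈ nonZeroDivisors _ := by
    refine (h8 R _ _).2 ?_
    rw [e3]
    exact mul_mem hwu.mem_nonZeroDivisors (pow_mem hzζ 2)
  obtain ⟨v, ζ', hv', e4⟩ := h5 R m s t w (z * ζ) G e hps hrq hGd.le hwu e2 hGn
  have hqp : qp (algebraMap R (AdjoinRoot (G ^ 2 + Yp s t)) ∘ c)
      (L.map (AdjoinRoot.mk (G ^ 2 + Yp s t) ∘ ·)) =
      algebraMap R _ ℓ * AdjoinRoot.mk (G ^ 2 + Yp s t) G := by
    have a1 := map_qp (C ∘ c) (AdjoinRoot.mk (G ^ 2 + Yp s t)) L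
    rw [hqG, map_mul] at a1
    exact a1.symm
  have hℓ' : IsUnit (algebraMap R (AdjoinRoot (G ^ 2 + Yp s t)) ℓ) := hℓ.map _
  have hCf : Cf (algebraMap R (AdjoinRoot (G ^ 2 + Yp s t)) ∘ c)
      (L.map (AdjoinRoot.mk (G ^ 2 + Yp s t) ∘ ·)) := by
    refine ⟨IsNoetherianRing.of_finite R _, inferInstance, (dim_le R _).trans hC.dim,
      hC.lam.map (algebraMap R _), hc.map _, ?_, fun N hN h => ?_⟩
    · rw [hqp]
      exact mul_mem hℓ'.mem_nonZeroDivisors hGn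
    · rw [hqp] at h
      refine h4 R m s t G hps hrq hG hGpos (fun m' hm' h' => hregz m' hm' ?_) N hN
        ((Ideal.unit_mul_mem_iff_mem N hℓ').1 h)
      rw [hGd, e2] at h'
      exact hm'.isPrime.mem_of_pow_mem 2 ((Ideal.unit_mul_mem_iff_mem m' hwu).1 h')
  have hlen : ((L.map (AdjoinRoot.mk (G ^ 2 + Yp s t) ∘ ·)).map ln).sum < (l.map ln).sum := by
    refine lt_of_le_of_lt ?_ hlt
    rw [List.map_map]
    refine sum_le L _ _ fun p hp => h6 R n s t _ p ?_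
    obtain ⟨ℓ', hℓ1⟩ := hℓ.exists_left_inv
    obtain ⟨k, hk⟩ := qv_dvd_qp (C ∘ c) p hp
    have a1 : G ^ 2 + Yp s t - Yp s t = qv (C ∘ c) p * (k * C ℓ' * G) := by
      have a2 : (C ℓ' : R[X]) * C ℓ = 1 := by rw [← C_mul, hℓ1, C_1]
      rw [hqG] at hk
      linear_combination (C ℓ' * G) * hk - G ^ 2 * a2
    rw [a1]
    exact Ideal.mul_mem_right _ _ (qv_mem_ct _ p)
  have hκS := hκ.map (algebraMap R (AdjoinRoot (G ^ 2 + Yp s t)))
  have hcS := hCf.ok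
  have hS := IH _ _ _ (algebraMap R _ κ * v) ζ' hCf hlen ((hκS.isUnit hcS).mul hv') (by
    rw [vp_eq, hqp, e4, List.length_map, hκe, map_mul, map_pow, Function.comp_apply]
    ring)
  have hN : Sn c (Algebra.norm R v) := h11 R n c _ hC.lam hc hf v (hκS.cancel hcS hS)
  rw [e4, map_mul, map_pow] at e3
  obtain ⟨w', hw'⟩ := hwu.exists_left_inv
  obtain ⟨τ, hτ⟩ := h7 R (z * ζ) (Algebra.norm R ζ') (w' * Algebra.norm R v)
    ((IsUnit.of_mul_eq_one _ hw').mul (hN.isUnit hc))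
    (by linear_combination (-w') * e3 - (z * ζ) ^ 2 * hw') hzζ hregz
  have e5 : w = Algebra.norm R v * (τ : R) ^ 2 := by
    have a1 : (w - Algebra.norm R v * (τ : R) ^ 2) * (z * ζ) ^ 2 = 0 := by
      rw [← hτ] at e3
      linear_combination -e3
    exact sub_eq_zero.1 ((pow_mem hzζ 2).2 _ a1)
  have hwS : Sn c w := e5 ▸ hN.mul (Sn.sq hc τ.isUnit)
  refine hσ.of_eq hc (hκ.mul hwS) ?_
  rw [hw]
  linear_combination (-(u * σ)) * hκ'

end Pool.Agent.P.MP_46a8f8_ag.GU
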