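import Pool.Agent.P.MP_46a8f8_ag.GU.Ad
import Pool.Agent.P.MP_46a8f8_ag.Wed
import Pool.Agent.P.MP_46a8f8_ag.AzOf
import Pool.Agent.P.MP_46a8f8_ag.SS

/-!
The determinant on skew elements over a splitting field.
-/

namespace Pool.Agent.P.MP_46a8f8_ag.GU

open TensorProduct Function Matrix

universe u

namespace DA1P

variable {R A Ω : Type u} [CommRing R] [Ring A] [Algebra R A] [StarRing A] [SA R A] [Field Ω]
  [Algebra R Ω] {n : ℕ}

/-- the splitting twisted by the involution and the transposition -/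
noncomputable def tw (Ψ : Ω ⊗[R] A ≃ₐ[Ω] Matrix (Fin n) (Fin n) Ω) :
    Ω ⊗[R] A ≃ₐ[Ω] Matrix (Fin n) (Fin n) Ω :=
  AlgEquiv.ofLinearEquiv
    { toFun := fun x => (Ψ (cj R A Ω x))ᵀ
      map_add' := fun x y => by rw [map_add, map_add, transpose_add]
      map_smul' := fun c x => by rw [map_smul, map_smul, transpose_smul]; rfl
      invFun := fun M => cj R A Ω (Ψ.symm Mᵀ)
      left_inv := fun x => by
        simp only [transpose_transpose, AlgEquiv.symm_apply_apply, cj_cj]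
      right_inv := fun M => by
        simp only [cj_cj, AlgEquiv.apply_symm_apply, transpose_transpose] }
    (by
      change (Ψ (cj R A Ω 1))ᵀ = 1
      rw [cj_one, map_one, transpose_one])
    fun x y => by
      change (Ψ (cj R A Ω (x * y)))ᵀ = (Ψ (cj R A Ω x))ᵀ * (Ψ (cj R A Ω y))ᵀ
      rw [cj_mul, map_mul, transpose_mul]

theorem tw_apply (Ψ : Ω ⊗[R] A ≃ₐ[Ω] Matrix (Fin n) (Fin n) Ω) (x : Ω ⊗[R] A) :
    tw Ψ x = (Ψ (cj R A Ω x))ᵀ := rfl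

theorem det_cj (Ψ : Ω ⊗[R] A ≃ₐ[Ω] Matrix (Fin n) (Fin n) Ω) (x : Ω ⊗[R] A) :
    (Ψ (cj R A Ω x)).det = (Ψ x).det := by
  rw [← det_transpose, ← tw_apply]
  exact ud Ω _ n n (tw Ψ) Ψ x

theorem det_sq (Ψ : Ω ⊗[R] A ≃ₐ[Ω] Matrix (Fin n) (Fin n) Ω) {g : (Ω ⊗[R] A)ˣ}
    (h : Sml R A Ω g 1) : (Ψ g).det * (Ψ g).det = 1 := by
  have e := congrArg (fun x => (Ψ x).det) h
  simp only [map_mul, det_mul, map_one, det_one] at e
  rwa [det_cj] at e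

/-- the involution is adjoint to a symmetric or skew form -/
theorem form (hSN : S_SN.{u}) [Nonempty (Fin n)]
    (Ψ : Ω ⊗[R] A ≃ₐ[Ω] Matrix (Fin n) (Fin n) Ω) :
    ∃ k : (Matrix (Fin n) (Fin n) Ω)ˣ,
      ((k : Matrix (Fin n) (Fin n) Ω)ᵀ = k ∨ (k : Matrix (Fin n) (Fin n) Ω)ᵀ = -k) ∧
      ∀ x, (k : Matrix (Fin n) (Fin n) Ω) * Ψ (cj R A Ω x) = (Ψ x)ᵀ * k := by
  have : IsAzumaya Ω (Matrix (Fin n) (Fin n) Ω) := IsAzumaya.matrix Ω (Fin n)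
  obtain ⟨g, hg⟩ := hSN Ω (Matrix (Fin n) (Fin n) Ω) (Ψ.symm.trans (tw Ψ)) (azOf Ω _)
  have h1 : ∀ x, (Ψ (cj R A Ω x))ᵀ * (g : Matrix (Fin n) (Fin n) Ω) = g * Ψ x := fun x => by
    have := hg (Ψ x)
    rwa [AlgEquiv.trans_apply, AlgEquiv.symm_apply_apply, tw_apply] at this
  have h2 : ∀ x, (g : Matrix (Fin n) (Fin n) Ω) * Ψ (cj R A Ω x) = (Ψ x)ᵀ * g := fun x => by
    rw [← h1, cj_cj]
  have h3 : ∀ x, (g : Matrix (Fin n) (Fin n) Ω)ᵀ * Ψ x = (Ψ (cj R A Ω x))ᵀ * (g : Matrix _ _ Ω)ᵀ :=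
    fun x => by rw [← transpose_mul, h2, transpose_mul, transpose_transpose]
  refine ⟨g, ?_, h2⟩
  obtain ⟨s, hs⟩ : ((g⁻¹ : (Matrix (Fin n) (Fin n) Ω)ˣ) * (g : Matrix (Fin n) (Fin n) Ω)ᵀ :
      Matrix (Fin n) (Fin n) Ω) ∈ Set.range (scalar (Fin n)) := by
    refine mem_range_scalar_iff_commute_single'.2 fun i j => ?_
    obtain ⟨x, hx⟩ := Ψ.surjective (single i j 1)
    rw [← hx]
    refine (Units.mul_right_inj g).1 ?_
    rw [← mul_assoc, ← h1, mul_assoc, Units.mul_inv_cancel_left, mul_assoc,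
      Units.mul_inv_cancel_left, h3]
  have h4 : (g : Matrix (Fin n) (Fin n) Ω)ᵀ = s • (g : Matrix (Fin n) (Fin n) Ω) := by
    rw [← Units.mul_inv_cancel_left g (g : Matrix (Fin n) (Fin n) Ω)ᵀ, ← hs, scalar_apply,
      ← smul_one_eq_diagonal, mul_smul_comm, mul_one]
  have h5 : (s * s) • (g : Matrix (Fin n) (Fin n) Ω) = (1 : Ω) • g := by
    rw [mul_smul, ← h4, ← transpose_smul, ← h4, transpose_transpose, one_smul]
  rcases mul_self_eq_one_iff.1 (smul_left_injective Ω g.ne_zero h5) with rfl | rfl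
  · exact Or.inl (by rw [h4, one_smul])
  · exact Or.inr (by rw [h4, neg_one_smul])

/-- left multiplication by a unit after the splitting -/
noncomputable def lm (Ψ : Ω ⊗[R] A ≃ₐ[Ω] Matrix (Fin n) (Fin n) Ω)
    (k : (Matrix (Fin n) (Fin n) Ω)ˣ) : Ω ⊗[R] A ≃ₗ[Ω] Matrix (Fin n) (Fin n) Ω where
  toFun x := k * Ψ x
  map_add' x y := by rw [map_add, mul_add]
  map_smul' c x := by rw [map_smul, mul_smul_comm]; rfl
  invFun M := Ψ.symm ((k⁻¹ : (Matrix (Fin n) (Fin n) Ω)ˣ) * M)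
  left_inv x := by simp only [Units.inv_mul_cancel_left, AlgEquiv.symm_apply_apply]
  right_inv M := by simp only [AlgEquiv.apply_symm_apply, Units.mul_inv_cancel_left]

omit [StarRing A] [SA R A] in
theorem lm_apply (Ψ : Ω ⊗[R] A ≃ₐ[Ω] Matrix (Fin n) (Fin n) Ω)
    (k : (Matrix (Fin n) (Fin n) Ω)ˣ) (x : Ω ⊗[R] A) : lm Ψ k x = k * Ψ x := rfl

end DA1P

open DA1P in
theorem pDA1 (h1 : S_SN.{u}) (h2 : S_DetC.{u}) : S_DA1.{u} := by
  intro R A Ω _ _ _ _ _ _ _ n Ψ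
  refine ⟨det_cj Ψ, fun g hg => ?_⟩
  rcases isEmpty_or_nonempty (Fin n) with hn | hn
  · have : Subsingleton (Ω ⊗[R] A) := Ψ.injective.subsingleton
    rw [det_isEmpty, one_pow]
    exact LinearMap.det_eq_one_of_subsingleton _
  obtain ⟨k, hk, hk'⟩ := form h1 Ψ
  have d2 := det_sq Ψ hg
  have e1 : ((g⁻¹ : (Ω ⊗[R] A)ˣ) : Ω ⊗[R] A) = cj R A Ω g := by
    refine Units.inv_eq_of_mul_eq_one_right ?_
    rw [hg, map_one]
  have dP : (Ψ (cj R A Ω g)).det = (Ψ g).det := det_cj Ψ g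
  obtain ⟨h3, h4⟩ := h2 Ω n (Ψ (cj R A Ω g)) (transposeLinearEquiv (Fin n) (Fin n) Ω Ω).toLinearMap
    (LinearMap.mulLeft Ω (Ψ (cj R A Ω g))ᵀ ∘ₗ LinearMap.mulRight Ω (Ψ (cj R A Ω g)))
    (two_unit R A Ω).ne_zero (by rw [dP]; exact left_ne_zero_of_mul_eq_one d2) (fun _ => rfl)
    fun M => (mul_assoc _ _ _).symm
  have h5 : ∀ x, lm Ψ k (inn Ω g x) = (LinearMap.mulLeft Ω (Ψ (cj R A Ω g))ᵀ ∘ₗ
      LinearMap.mulRight Ω (Ψ (cj R A Ω g))) (lm Ψ k x) := fun x => by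
    change _ = (Ψ (cj R A Ω g))ᵀ * (lm Ψ k x * Ψ (cj R A Ω g))
    rw [lm_apply, lm_apply, inn_apply, e1, map_mul, map_mul, mul_assoc, ← mul_assoc _ k.val,
      ← hk', cj_cj, mul_assoc]
  rw [dP] at h3 h4
  rcases hk with hk | hk
  · rw [dI, ← skd_conj (lm Ψ k) (ι' := (transposeLinearEquiv (Fin n) (Fin n) Ω Ω).toLinearMap)
      (fun x => ?_) h5, pow_succ, ← h3, mul_assoc, d2, mul_one]
    change _ = (lm Ψ k x)ᵀ
    rw [lm_apply, lm_apply, hk', transpose_mul, hk]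
  · rw [dI, ← skd_conj (lm Ψ k) (ι' := -(transposeLinearEquiv (Fin n) (Fin n) Ω Ω).toLinearMap)
      (fun x => ?_) h5, h4]
    change _ = -(lm Ψ k x)ᵀ
    rw [lm_apply, lm_apply, hk', transpose_mul, hk, mul_neg, neg_neg]

theorem pSq (h1 : S_DA1.{u}) : S_Sq.{u} := by
  intro R A C _ _ _ _ _ _ _ _ g w hT hw hg
  rcases hT with hA | hT
  swap
  · exact Or.inl (hT C g w hg)
  let Ω := AlgebraicClosure (FractionRing C)
  let f : C →ₐ[R] Ω := IsScalarTower.toAlgHom R C Ω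
  have hf : Injective f := by
    change Injective (algebraMap C Ω)
    rw [IsScalarTower.algebraMap_eq C (FractionRing C) Ω, RingHom.coe_comp]
    exact (algebraMap (FractionRing C) Ω).injective.comp (IsFractionRing.injective C _)
  have := SA.fin (R := R) (A := A)
  obtain ⟨n, ⟨Ψ⟩⟩ := wed ss Ω (Ω ⊗[R] A) (azBC R A Ω hA)
  obtain ⟨l, hl⟩ := IsAlgClosed.exists_eq_mul_self (f w)
  have l0 : l ≠ 0 := by
    rintro rfl
    exact hw (hf (by rw [hl, mul_zero, map_zero]))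
  obtain ⟨c, hc, hd⟩ := GP.sq (R := R) (A := A) (C := Ω) (w := l⁻¹) (inv_ne_zero l0).isUnit
  have h2 := hc.mul (hg.map f)
  rw [hl, mul_mul_mul_comm, inv_mul_cancel₀ l0, mul_one] at h2
  have h3 := (h1 R A Ω n Ψ).2 _ h2
  rw [dI_mul _ (hg.map f), hd, one_mul, dI_map] at h3
  refine mul_self_eq_one_iff.1 (hf ?_)
  rw [map_mul, h3, ← mul_pow, DA1P.det_sq Ψ h2, one_pow, map_one]

end Pool.Agent.P.MP_46a8f8_ag.GU
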