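import Pool.Agent.P.MP_46a8f8_ag.GU.Base2

/-!
A perfect trace form compatible with the involution.
-/

namespace Pool.Agent.P.MP_46a8f8_ag.GU

open TensorProduct Function

universe u

namespace TrP

section centre

variable {S A : Type u} [CommRing S] [Ring A] [Algebra S A]

theorem central (h1 : S_AzS.{u}) [IsAzumaya S A] (c : A) (hc : ∀ x, c * x = x * c) :
    ∃ s : S, algebraMap S A s = c := by
  obtain ⟨τ, k, a, b, hτ, hs, -⟩ := h1 S A
  refine ⟨τ c, ?_⟩
  have h0 := hs 1
  rw [hτ, map_one] at h0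
  rw [← hs c]
  calc ∑ i, a i * c * b i = c * ∑ i, a i * 1 * b i := by
        rw [Finset.mul_sum]
        refine Finset.sum_congr rfl fun i _ => ?_
        rw [← hc (a i), mul_one, mul_assoc]
    _ = c := by rw [h0, mul_one]

theorem perf_inj {τ : A →ₗ[S] S} (h : PerfTr τ) {x : A} (hx : ∀ y, τ (x * y) = 0) : x = 0 := by
  refine h.1 (LinearMap.ext fun y => ?_)
  rw [map_zero]
  exact hx y

theorem perf_surj {τ : A →ₗ[S] S} (h : PerfTr τ) (φ : A →ₗ[S] S) :
    ∃ x, ∀ y, τ (x * y) = φ y := by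
  obtain ⟨x, hx⟩ := h.2 φ
  exact ⟨x, fun y => LinearMap.congr_fun hx y⟩

theorem perf_of {τ : A →ₗ[S] S} (h1 : ∀ x, (∀ y, τ (x * y) = 0) → x = 0)
    (h2 : ∀ φ : A →ₗ[S] S, ∃ x, ∀ y, τ (x * y) = φ y) : PerfTr τ := by
  refine ⟨(injective_iff_map_eq_zero _).2 fun x hx => h1 x fun y => LinearMap.congr_fun hx y,
    fun φ => ?_⟩
  obtain ⟨x, hx⟩ := h2 φ
  exact ⟨x, LinearMap.ext hx⟩

end centre

section inv

variable {R S A : Type u} [CommRing R] [CommRing S] [Algebra R S] [Ring A] [Algebra S A]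
  [Algebra R A] [StarRing A]

theorem exists_iota (h1 : S_AzS.{u}) (h : AzI R S A) :
    ∃ ι : S →ₐ[R] S, ∀ s, algebraMap S A (ι s) = star (algebraMap S A s) := by
  have := h.az
  have := h.tower
  have hi : Injective (algebraMap S A) := FaithfulSMul.algebraMap_injective S A
  have : ∀ s : S, ∃ s' : S, algebraMap S A s' = star (algebraMap S A s) := fun s =>
    central h1 _ fun x => by
      rw [← star_star x, ← star_mul, ← star_mul, Algebra.commutes]
  choose f hf using this
  refine ⟨⟨⟨⟨⟨f, hi ?_⟩, fun s t => hi ?_⟩, hi ?_, fun s t => hi ?_⟩, fun r => hi ?_⟩, hf⟩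
  · rw [hf, map_one, star_one]
  · change algebraMap S A (f (s * t)) = algebraMap S A (f s * f t)
    rw [hf, mul_comm s t, map_mul, map_mul, star_mul, hf, hf]
  · change algebraMap S A (f 0) = _
    rw [hf, map_zero, star_zero]
  · change algebraMap S A (f (s + t)) = algebraMap S A (f s + f t)
    rw [hf, map_add, map_add, star_add, hf, hf]
  · change algebraMap S A (f (algebraMap R S r)) = _
    rw [hf, ← IsScalarTower.algebraMap_apply, h.st]

end inv

section ell

variable {R S : Type u} [CommRing R] [CommRing S] [Algebra R S]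

theorem exists_l (hi : Injective (algebraMap R S)) (ι : S →ₐ[R] S) (hιι : ∀ s, ι (ι s) = s)
    (hfix : ∀ s, ι s = s → ∃ r, algebraMap R S r = s) :
    ∃ l : S →ₗ[R] R, ∀ s, algebraMap R S (l s) = s + ι s := by
  have : ∀ s : S, ∃ r, algebraMap R S r = s + ι s := fun s =>
    hfix _ (by rw [map_add, hιι, add_comm])
  choose f hf using this
  refine ⟨⟨⟨f, fun s t => hi ?_⟩, fun r s => hi ?_⟩, hf⟩
  · rw [map_add, hf, hf, hf, map_add]
    ring
  · change algebraMap R S (f (r • s)) = algebraMap R S (r * f s)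
    rw [map_mul, hf, hf, map_smul, Algebra.smul_def, Algebra.smul_def, mul_add]

theorem exists_dual [IsDomain S] [Module.Finite R S] [Algebra.FormallyUnramified R S]
    (h2 : IsUnit (2 : R)) (ι : S →ₐ[R] S) (l : S →ₗ[R] R)
    (hl : ∀ s, algebraMap R S (l s) = s + ι s) :
    ∃ F : Finset (S × S), ∀ s, ∑ p ∈ F, l (p.2 * s) • p.1 = s := by
  by_cases hι : ∀ s, ι s = s
  · obtain ⟨v, hv⟩ := h2.exists_left_inv
    refine ⟨{(algebraMap R S v, 1)}, fun s => ?_⟩
    rw [Finset.sum_singleton, one_mul, Algebra.smul_def, hl, hι, ← two_mul]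
    have : algebraMap R S v * 2 = 1 := by
      rw [← map_ofNat (algebraMap R S) 2, ← map_mul, hv, map_one]
    linear_combination s * this
  · obtain ⟨s0, hs0⟩ := not_forall.1 hι
    obtain ⟨t, ht, ht1⟩ :=
      (Algebra.FormallyUnramified.iff_exists_tensorProduct (R := R) (S := S)).1 inferInstance
    obtain ⟨F, rfl⟩ := TensorProduct.exists_finset t
    refine ⟨F, fun s => ?_⟩
    have e1 : ∑ p ∈ F, p.1 * p.2 = 1 := by
      rw [← ht1, map_sum]
      exact Finset.sum_congr rfl fun p _ => (Algebra.TensorProduct.lmul'_apply_tmul _ _).symm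
    have e2 : ∑ p ∈ F, p.1 * ι p.2 = 0 := by
      have := congrArg (Algebra.TensorProduct.productMap (AlgHom.id R S) ι) (ht s0)
      rw [map_mul, map_sub, map_sum, map_zero] at this
      simp only [Algebra.TensorProduct.productMap_apply_tmul, AlgHom.id_apply, map_one, one_mul,
        mul_one] at this
      exact (mul_eq_zero.1 this).resolve_left (sub_ne_zero.2 hs0)
    calc ∑ p ∈ F, l (p.2 * s) • p.1
        = (∑ p ∈ F, p.1 * p.2) * s + (∑ p ∈ F, p.1 * ι p.2) * ι s := by
          rw [Finset.sum_mul, Finset.sum_mul, ← Finset.sum_add_distrib]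
          refine Finset.sum_congr rfl fun p _ => ?_
          rw [Algebra.smul_def, hl, map_mul]
          ring
      _ = s := by rw [e1, e2, one_mul, zero_mul, add_zero]

theorem perf_l (l : S →ₗ[R] R) (F : Finset (S × S))
    (hF : ∀ s, ∑ p ∈ F, l (p.2 * s) • p.1 = s) : PerfTr l := by
  refine perf_of (fun x hx => ?_) fun φ => ⟨∑ p ∈ F, φ p.1 • p.2, fun y => ?_⟩
  · rw [← hF x]
    exact Finset.sum_eq_zero fun p _ => by rw [mul_comm, hx, zero_smul]
  · conv_rhs => rw [← hF y]
    rw [Finset.sum_mul, map_sum, map_sum]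
    refine Finset.sum_congr rfl fun p _ => ?_
    rw [smul_mul_assoc, map_smul, map_smul, smul_eq_mul, smul_eq_mul, mul_comm]

theorem perf_comp {A : Type u} [Ring A] [Algebra S A] [Algebra R A] [IsScalarTower R S A]
    {l : S →ₗ[R] R} (hl : PerfTr l) {t : A →ₗ[S] S} (ht : PerfTr t) {z : S} (hz : IsUnit z)
    (τ : A →ₗ[R] R) (hτ : ∀ x, τ x = l (z * t x)) : PerfTr τ := by
  refine perf_of (fun x hx => perf_inj ht fun y => ?_) fun φ => ?_
  · refine hz.mul_right_eq_zero.1 (perf_inj hl fun s => ?_)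
    have := hx (s • y)
    rw [hτ, mul_smul_comm, map_smul, smul_eq_mul] at this
    rw [← this]
    congr 1
    ring
  · have : ∀ y : A, ∃ c : S, ∀ s, l (c * s) = φ (s • y) := fun y =>
      perf_surj hl (φ ∘ₗ (LinearMap.toSpanSingleton S A y).restrictScalars R)
    choose ψ hψ using this
    obtain ⟨w, hw⟩ := hz.exists_right_inv
    have hadd : ∀ y y', ψ (y + y') = ψ y + ψ y' := fun y y' =>
      sub_eq_zero.1 (perf_inj hl fun s => by
        rw [sub_mul, add_mul, map_sub, map_add, hψ, hψ, hψ, smul_add, map_add, sub_self])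
    have hsm : ∀ (c : S) y, ψ (c • y) = c * ψ y := fun c y =>
      sub_eq_zero.1 (perf_inj hl fun s => by
        rw [sub_mul, map_sub, hψ, mul_comm c, mul_assoc, hψ, smul_smul, mul_comm s, sub_self])
    obtain ⟨x, hx⟩ := perf_surj ht (w • (⟨⟨ψ, hadd⟩, hsm⟩ : A →ₗ[S] S))
    refine ⟨x, fun y => ?_⟩
    rw [hτ, hx]
    change l (z * (w * ψ y)) = φ y
    rw [← mul_assoc, hw, one_mul, ← mul_one (ψ y), hψ, one_smul]

end ell

end TrP

open TrP in
theorem pTr (h1 : S_AzS.{u}) (h2 : S_FreeS.{u}) (h3 : S_Tr0.{u}) : S_Tr.{u} := by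
  intro R S A _ _ _ _ _ _ _ _ h
  have := h.az
  have := h.tower
  have := h.dom
  have := h.fin
  have := h.et
  have : Module.Free R S := Module.free_of_flat_of_isLocalRing
  have hR : Injective (algebraMap R S) := FaithfulSMul.algebraMap_injective R S
  have hi : Injective (algebraMap S A) := FaithfulSMul.algebraMap_injective S A
  have : Finite (MaximalSpectrum S) := finite_maximalSpectrum R S
  have : Module.Free S A := h2 S A
  obtain ⟨ι, hι⟩ := exists_iota h1 h
  have hιι : ∀ s, ι (ι s) = s := fun s => hi (by rw [hι, hι, star_star])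
  have hfix : ∀ s, ι s = s → ∃ r, algebraMap R S r = s := fun s hs =>
    h.fix s (by rw [← hι, hs])
  obtain ⟨l, hl⟩ := exists_l hR ι hιι hfix
  obtain ⟨F, hF⟩ := exists_dual h.two ι l hl
  have hlp := perf_l l F hF
  have hlι : ∀ s, l (ι s) = l s := fun s => hR (by rw [hl, hl, hιι, add_comm])
  obtain ⟨t, htr, htp⟩ := h3 S A
  have hst : ∀ (s : S) (x : A), star (s • x) = ι s • star x := fun s x => by
    rw [Algebra.smul_def, star_mul, ← hι, Algebra.smul_def, Algebra.commutes]
  let t' : A →ₗ[S] S :=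
    { toFun := fun x => ι (t (star x))
      map_add' := fun x y => by rw [star_add, map_add, map_add]
      map_smul' := fun s x => by
        rw [hst, map_smul, smul_eq_mul, map_mul, hιι]
        rfl }
  obtain ⟨u', hu'⟩ := perf_surj htp t'
  have hu1 : ∀ y, t (u' * y) = ι (t (star y)) := hu'
  have hcen : ∀ x, u' * x = x * u' := fun x =>
    sub_eq_zero.1 (perf_inj htp fun y => by
      rw [sub_mul, map_sub, mul_assoc, hu1, mul_assoc, htr x, mul_assoc, hu1, star_mul, star_mul,
        htr, sub_self])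
  obtain ⟨w, rfl⟩ := central h1 u' hcen (S := S)
  have hw : ∀ y, ι (t (star y)) = w * t y := fun y => by
    rw [← hu1, ← Algebra.smul_def, map_smul, smul_eq_mul]
  have hne : ∃ y, t y ≠ 0 := by
    by_contra hc
    have : (1 : A) = 0 := perf_inj htp fun y => not_not.1 fun hy => hc ⟨_, hy⟩
    exact one_ne_zero (hi (by rw [map_one, map_zero, this]))
  have hww : ι w * w = 1 := by
    obtain ⟨y, hy⟩ := hne
    have e := congrArg ι (hw (star y))
    rw [star_star, hιι, map_mul, hw, ← mul_assoc] at e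
    exact mul_right_cancel₀ hy (by rw [← e, one_mul])
  have key : ∀ ε : ℤˣ, IsUnit (1 + ε • w) → ∃ (τ : A →ₗ[R] R) (ε : ℤˣ),
      (∀ x y, τ (x * y) = τ (y * x)) ∧ PerfTr τ ∧ ∀ x, τ (star x) = ε • τ x := by
    intro ε hz
    refine ⟨l ∘ₗ ((1 + ε • w) • t).restrictScalars R, ε, fun x y => ?_,
      perf_comp hlp htp hz _ fun x => rfl, fun x => ?_⟩
    · change l ((1 + ε • w) * t (x * y)) = l ((1 + ε • w) * t (y * x))
      rw [htr]
    · change l ((1 + ε • w) * t (star x)) = ε • l ((1 + ε • w) * t x)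
      rw [← hlι, map_mul, hw]
      rcases Int.units_eq_one_or ε with rfl | rfl
      · rw [one_smul, one_smul, map_add, map_one]
        congr 1
        linear_combination t x * hww
      · rw [Units.neg_smul, one_smul, Units.neg_smul, one_smul, ← map_neg, map_add, map_one,
          map_neg]
        congr 1
        linear_combination (-t x) * hww
  obtain ⟨n1, hn1⟩ := hfix ((1 + w) * ι (1 + w)) (by rw [map_mul, hιι, mul_comm])
  obtain ⟨n2, hn2⟩ := hfix ((1 + -w) * ι (1 + -w)) (by rw [map_mul, hιι, mul_comm])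
  have hsum : n1 + n2 = 2 * 2 := hR (by
    rw [map_add, hn1, hn2, map_mul, map_ofNat, map_add, map_add, map_one, map_neg]
    linear_combination 2 * hww)
  rcases IsLocalRing.isUnit_or_isUnit_of_isUnit_add (hsum ▸ h.two.mul h.two) with hu | hu
  · refine key 1 ?_
    rw [one_smul]
    exact isUnit_of_mul_isUnit_left (hn1 ▸ hu.map (algebraMap R S))
  · refine key (-1) ?_
    rw [Units.neg_smul, one_smul]
    exact isUnit_of_mul_isUnit_left (hn2 ▸ hu.map (algebraMap R S))

end Pool.Agent.P.MP_46a8f8_ag.GU
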