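import Pool.Agent.P.MP_46a8f8_ag.GU.Base2

/-!
Package Tr0: a perfect trace form on a free Azumaya algebra over a semilocal ring.
-/

namespace Pool.Agent.P.MP_46a8f8_ag.GU

open TensorProduct Function Matrix IsLocalRing

universe u

namespace Tr0P

/-- a form on a finite free module which is nondegenerate modulo each maximal ideal is perfect -/
theorem perf_of_max {S M : Type u} [CommRing S] [AddCommGroup M] [Module S M] [Module.Free S M]
    [Module.Finite S M] (B : M →ₗ[S] M →ₗ[S] S)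
    (h : ∀ 𝔫 : Ideal S, 𝔫.IsMaximal → ∀ u, (∀ y, B u y ∈ 𝔫) → ∀ l : M →ₗ[S] S, l u ∈ 𝔫) :
    Bijective B := by
  classical
  let v := Module.Free.chooseBasis S M
  let G := LinearMap.toMatrix v v.dualBasis B
  have hG : ∀ j k, G j k = B (v k) (v j) := fun j k => by
    simp [G, LinearMap.toMatrix_apply]
  have hu : IsUnit G.det := by
    by_contra hn
    obtain ⟨𝔫, h𝔫, hd⟩ := exists_max_ideal_of_mem_nonunits (mem_nonunits_iff.2 hn)
    have : 𝔫.IsPrime := h𝔫.isPrime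
    have h0 : ((Ideal.Quotient.mk 𝔫).mapMatrix G).det = 0 := by
      rw [← RingHom.map_det]
      exact Ideal.Quotient.eq_zero_iff_mem.2 hd
    obtain ⟨w, hw0, hw⟩ := Matrix.exists_mulVec_eq_zero_iff.2 h0
    choose c hc using fun k => Ideal.Quotient.mk_surjective (w k)
    have h1 : ∀ j, B (∑ k, c k • v k) (v j) ∈ 𝔫 := fun j => by
      rw [← Ideal.Quotient.eq_zero_iff_mem]
      have e := congrFun hw j
      simp only [Matrix.mulVec, dotProduct, RingHom.mapMatrix_apply, Matrix.map_apply, hG,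
        Pi.zero_apply] at e
      rw [← e, map_sum, LinearMap.sum_apply, map_sum]
      refine Finset.sum_congr rfl fun k _ => ?_
      rw [map_smul, LinearMap.smul_apply, smul_eq_mul, map_mul, hc, mul_comm]
    have h2 : ∀ y, B (∑ k, c k • v k) y ∈ 𝔫 := fun y => by
      rw [← v.sum_repr y, map_sum (B _)]
      refine Submodule.sum_mem _ fun j _ => ?_
      rw [map_smul (B _)]
      exact Submodule.smul_mem _ _ (h1 j)
    refine hw0 (funext fun k => ?_)
    have h3 := h 𝔫 h𝔫 _ h2 (v.coord k)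
    rw [v.coord_apply, v.repr_sum_self] at h3
    rw [← hc k, Pi.zero_apply]
    exact Ideal.Quotient.eq_zero_iff_mem.2 h3
  exact (LinearEquiv.ofIsUnitDet hu).bijective

variable {S A : Type u} [CommRing S] [Ring A] [Algebra S A]

/-- the kernel of a trace form modulo an ideal is stable under all endomorphisms -/
theorem end_mem [IsAzumaya S A] (τ : A →ₗ[S] S) (hτ : ∀ x y, τ (x * y) = τ (y * x))
    (𝔫 : Ideal S) (u : A) (hu : ∀ y, τ (u * y) ∈ 𝔫) (φ : Module.End S A) : τ (φ u) ∈ 𝔫 := by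
  obtain ⟨z, rfl⟩ := (IsAzumaya.bij (R := S) (A := A)).2 φ
  induction z using TensorProduct.induction_on with
  | zero => simp
  | tmul p q =>
    rw [AlgHom.mulLeftRight_apply, mul_assoc, hτ, mul_assoc]
    exact hu _
  | add x y hx hy =>
    rw [map_add, LinearMap.add_apply, map_add]
    exact 𝔫.add_mem hx hy

/-- an endomorphism which is a trace and is nonzero modulo every proper ideal -/
theorem exists_t (h : S_AzS.{u}) [IsAzumaya S A] [Module.Free S A] :
    ∃ t : Module.End S A, (∀ x y, t (x * y) = t (y * x)) ∧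
      ∀ 𝔫 : Ideal S, 𝔫 ≠ ⊤ → ∃ (l : A →ₗ[S] S) (x : A), l (t x) ∉ 𝔫 := by
  classical
  obtain ⟨τ, k, a, b, h1, h2, h3⟩ := h S A
  let z : A ⊗[S] Aᵐᵒᵖ := ∑ i, b i ⊗ₜ[S] MulOpposite.op (a i)
  have ht : ∀ x, AlgHom.mulLeftRight S A z x = ∑ i, b i * x * a i := fun x => by
    simp [z, map_sum, LinearMap.sum_apply]
  refine ⟨AlgHom.mulLeftRight S A z, fun x y => ?_, fun 𝔫 h𝔫 => ?_⟩
  · let B : A →ₗ[S] A →ₗ[S] A := LinearMap.mk₂ S (fun p q => q * x * p)
      (fun p p' q => mul_add _ _ _) (fun c p q => by simp)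
      (fun p q q' => by simp [add_mul]) (fun c p q => by simp)
    have e := congrArg (TensorProduct.lift B) (h3 y)
    simp only [map_sum, TensorProduct.lift.tmul, B, LinearMap.mk₂_apply] at e
    rw [ht, ht]
    simpa only [mul_assoc] using e
  · by_contra hn
    push Not at hn
    let μ : A ⊗[S] Aᵐᵒᵖ →ₗ[S] S := TensorProduct.lift (LinearMap.mk₂ S
      (fun (p : A) (q : Aᵐᵒᵖ) => τ (q.unop * p))
      (fun p p' q => by simp [mul_add]) (fun c p q => by simp)
      (fun p q q' => by simp [add_mul]) (fun c p q => by simp))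
    let e := LinearEquiv.ofBijective (AlgHom.mulLeftRight S A).toLinearMap
      (IsAzumaya.bij (R := S) (A := A))
    let Φ : Module.End S A →ₗ[S] S := μ ∘ₗ e.symm.toLinearMap
    have hΦ : Φ (AlgHom.mulLeftRight S A z) = 1 := by
      have e1 : e.symm (AlgHom.mulLeftRight S A z) = z := e.symm_apply_apply z
      have e2 := h2 1
      simp only [mul_one, h1, map_one] at e2
      change μ (e.symm _) = 1
      rw [e1]
      simp only [z, μ, map_sum, TensorProduct.lift.tmul, LinearMap.mk₂_apply,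
        MulOpposite.unop_op]
      rw [← map_sum, e2, h1]
    let v := Module.Free.chooseBasis S A
    have hd : AlgHom.mulLeftRight S A z = ∑ j, ∑ i,
        v.coord j (AlgHom.mulLeftRight S A z (v i)) • (v.coord i).smulRight (v j) := by
      refine v.ext fun i => ?_
      conv_lhs => rw [← v.sum_repr (AlgHom.mulLeftRight S A z (v i))]
      rw [LinearMap.sum_apply]
      refine Finset.sum_congr rfl fun j _ => ?_
      rw [LinearMap.sum_apply, Finset.sum_eq_single i]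
      · simp
      · intro i' _ hi
        simp [Finsupp.single_eq_of_ne hi]
      · simp
    apply h𝔫
    rw [Ideal.eq_top_iff_one, ← hΦ, hd, map_sum]
    refine Submodule.sum_mem _ fun j _ => ?_
    rw [map_sum]
    refine Submodule.sum_mem _ fun i _ => ?_
    rw [map_smul, smul_eq_mul]
    exact 𝔫.mul_mem_right _ (hn _ _)

end Tr0P

theorem pTr0 (h : S_AzS.{u}) : S_Tr0.{u} := by
  intro S A _ _ _ _ _ _
  classical
  have := Fintype.ofFinite (MaximalSpectrum S)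
  obtain ⟨t, ht, hl⟩ := Tr0P.exists_t (S := S) (A := A) h
  choose l x hx using fun 𝔫 : MaximalSpectrum S => hl 𝔫.asIdeal 𝔫.isMaximal.ne_top
  choose j hj hj' using fun 𝔫 : MaximalSpectrum S => exists_mem_sub_one_mem 𝔫.asIdeal
  let τ : A →ₗ[S] S := (∑ 𝔫, (1 - j 𝔫) • l 𝔫) ∘ₗ t
  have hτ : ∀ x y, τ (x * y) = τ (y * x) := fun x y => by
    simp only [τ, LinearMap.comp_apply, ht x y]
  have hτx : ∀ 𝔫 : MaximalSpectrum S, τ (x 𝔫) ∉ 𝔫.asIdeal := by
    intro 𝔫 hm
    apply hx 𝔫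
    have e : τ (x 𝔫) = (1 - j 𝔫) * l 𝔫 (t (x 𝔫)) +
        ∑ 𝔪 ∈ Finset.univ.erase 𝔫, (1 - j 𝔪) * l 𝔪 (t (x 𝔫)) := by
      rw [Finset.add_sum_erase _ (fun 𝔪 => (1 - j 𝔪) * l 𝔪 (t (x 𝔫))) (Finset.mem_univ 𝔫)]
      simp [τ, LinearMap.sum_apply]
    have h2 : ∑ 𝔪 ∈ Finset.univ.erase 𝔫, (1 - j 𝔪) * l 𝔪 (t (x 𝔫)) ∈ 𝔫.asIdeal := by
      refine Submodule.sum_mem _ fun 𝔪 h𝔪 => Ideal.mul_mem_right _ _ ?_
      rw [← neg_sub]
      refine neg_mem (hj' 𝔪 _ 𝔫.isMaximal fun hle => (Finset.mem_erase.1 h𝔪).1 ?_)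
      exact MaximalSpectrum.ext (𝔪.isMaximal.eq_of_le 𝔫.isMaximal.ne_top hle)
    have e2 : l 𝔫 (t (x 𝔫)) = τ (x 𝔫) - ∑ 𝔪 ∈ Finset.univ.erase 𝔫, (1 - j 𝔪) * l 𝔪 (t (x 𝔫)) +
        j 𝔫 * l 𝔫 (t (x 𝔫)) := by
      rw [e]
      ring
    rw [e2]
    exact Ideal.add_mem _ (Ideal.sub_mem _ hm h2) (Ideal.mul_mem_right _ _ (hj 𝔫))
  refine ⟨τ, hτ, Tr0P.perf_of_max _ fun 𝔫 h𝔫 u hu f => ?_⟩
  have h4 := Tr0P.end_mem τ hτ 𝔫 u hu (f.smulRight (x ⟨𝔫, h𝔫⟩))
  rw [LinearMap.smulRight_apply, map_smul, smul_eq_mul] at h4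
  exact (h𝔫.isPrime.mem_or_mem h4).resolve_right (hτx ⟨𝔫, h𝔫⟩)

end Pool.Agent.P.MP_46a8f8_ag.GU
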