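import Pool.Agent.P.MP_46a8f8_ag.GU.Ad
import Pool.Agent.P.MP_46a8f8_ag.GU.Sep
import Pool.Agent.P.MP_46a8f8_ag.GU.Tr
import Pool.Agent.P.MP_46a8f8_ag.GU.Tr0
import Pool.Agent.P.MP_46a8f8_ag.GU.Bcg

/-!
Package DA2: for an involution of the second kind every similitude is proper.
-/

namespace Pool.Agent.P.MP_46a8f8_ag.GU

open TensorProduct Function

universe u

namespace DA2P

variable {C E : Type u} [CommRing C] [Ring E] [Algebra C E]

theorem det_dual {M : Type u} [AddCommGroup M] [Module C M] [Module.Free C M] [Module.Finite C M]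
    (f : M →ₗ[C] M) : LinearMap.det f.dualMap = LinearMap.det f := by
  classical
  let b := Module.Free.chooseBasis C M
  rw [← LinearMap.det_toMatrix b.dualBasis, ← LinearMap.det_toMatrix b,
    ← Matrix.det_transpose (LinearMap.toMatrix b b f), ← LinearMap.toMatrix_transpose]
  rfl

theorem det_inn [Module.Free C E] [Module.Finite C E] {τ : E →ₗ[C] C} (hτ : PerfTr τ) (h : Eˣ) :
    LinearMap.det (inn C h) = 1 := by
  have key : ∀ a : E, LinearMap.det (LinearMap.mulRight C a) =
      LinearMap.det (LinearMap.mulLeft C a) := fun a => by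
    rw [← det_dual (LinearMap.mulLeft C a),
      ← LinearMap.det_conj _ (LinearEquiv.ofBijective _ hτ)]
    congr 1
    refine LinearMap.ext fun y => ?_
    obtain ⟨x, rfl⟩ := (LinearEquiv.ofBijective _ hτ).surjective y
    refine LinearMap.ext fun z => ?_
    rw [LinearMap.comp_apply, LinearMap.comp_apply, LinearEquiv.coe_coe, LinearEquiv.coe_coe,
      LinearEquiv.symm_apply_apply]
    exact congrArg τ (mul_assoc x a z)
  rw [inn, LinearMap.det_comp, key, ← LinearMap.det_comp, ← LinearMap.mulLeft_mul, h.mul_inv,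
    LinearMap.mulLeft_one, LinearMap.det_id]

variable (C) in
/-- the element that is `1` on one factor and `a` on the other -/
noncomputable def mix (v a : E) : E := Ring.inverse (2 : C) • (1 + v + (1 - v) * a)

variable {v : E}

theorem mix_sym (h2 : IsUnit (2 : C)) (hv : ∀ x, v * x = x * v) (a : E) {x : E}
    (hx : v * x = x) : mix C v a * x = x ∧ x * mix C v a = x := by
  constructor
  · rw [mix, smul_mul_assoc, add_mul, add_mul, one_mul, hx, sub_mul, one_mul, hv, sub_mul,
      mul_assoc, hx, sub_self, add_zero, half_smul h2]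
  · rw [mix, mul_smul_comm, mul_add, mul_add, mul_one, ← mul_assoc, mul_sub, mul_one, ← hv, hx,
      sub_self, zero_mul, add_zero, half_smul h2]

theorem mix_skew (h2 : IsUnit (2 : C)) (hv : ∀ x, v * x = x * v) (a : E) {x : E}
    (hx : v * x = -x) : mix C v a * x = a * x ∧ x * mix C v a = x * a := by
  constructor
  · rw [mix, smul_mul_assoc, add_mul, add_mul, one_mul, hx, sub_mul, one_mul, hv, sub_mul,
      mul_assoc, hx, add_neg_cancel, zero_add, mul_neg, sub_neg_eq_add, half_smul h2]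
  · rw [mix, mul_smul_comm, mul_add, mul_add, mul_one, ← mul_assoc, mul_sub, mul_one, ← hv, hx,
      add_neg_cancel, zero_add, sub_neg_eq_add, add_mul, half_smul h2]

theorem mix_mul (h2 : IsUnit (2 : C)) (hv : ∀ x, v * x = x * v) (hvv : v * v = 1) {a b : E}
    (h : a * b = 1) : mix C v a * mix C v b = 1 := by
  have e1 : v * (1 + v) = 1 + v := by rw [mul_add, mul_one, hvv, add_comm]
  have e2 : v * ((1 - v) * b) = -((1 - v) * b) := by
    rw [← mul_assoc, mul_sub, mul_one, hvv, ← neg_mul, neg_sub]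
  have e3 : 1 + v + a * ((1 - v) * b) = 1 + 1 := by
    rw [sub_mul, one_mul, hv, mul_sub, ← mul_assoc, h, one_mul]
    abel
  conv_lhs => rw [mix.eq_1 C v b]
  rw [mul_smul_comm, mul_add, (mix_sym h2 hv a e1).1, (mix_skew h2 hv a e2).1, e3, half_smul h2]

theorem core [Module.Free C E] [Module.Finite C E] {τ : E →ₗ[C] C} (hτ : PerfTr τ)
    (h2 : IsUnit (2 : C)) (hv : ∀ x, v * x = x * v) (hvv : v * v = 1) {ι : E →ₗ[C] E}
    (hι : ∀ x, ι (ι x) = x) (hιv : ∀ x, ι (v * x) = -(v * ι x)) (g : Eˣ)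
    (hg : ∀ x, inn C g (ι x) = ι (inn C g x)) : skd ι (inn C g) = 1 := by
  let θ : E →ₗ[C] E := ι + LinearMap.mulLeft C v
  have hθ : ∀ x, θ x = ι x + v * x := fun _ => rfl
  have hθθ : ∀ x, θ (θ x) = x + x := fun x => by
    rw [hθ, hθ, map_add, hι, hιv, mul_add, ← mul_assoc, hvv, one_mul]
    abel
  let e : E ≃ₗ[C] E := LinearEquiv.ofLinearMap θ (Ring.inverse (2 : C) • θ)
    (LinearMap.ext fun x => by
      rw [LinearMap.comp_apply, LinearMap.smul_apply, map_smul, hθθ, half_smul h2]; rfl)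
    (LinearMap.ext fun x => by
      rw [LinearMap.comp_apply, LinearMap.smul_apply, hθθ, half_smul h2]; rfl)
  have he : ∀ x, e x = ι x + v * x := fun _ => rfl
  let h : Eˣ := ⟨mix C v g, mix C v (g⁻¹ : Eˣ), mix_mul h2 hv hvv g.mul_inv,
    mix_mul h2 hv hvv g.inv_mul⟩
  rw [← skd_conj (ι' := LinearMap.mulLeft C v) (φ₁ := inn C g) e (fun x => ?_) fun x => ?_, skd,
    ← eq_skm (ψ := inn C h) h2 (fun x => ?_) (fun x hx => ?_) fun x hx => ?_, det_inn hτ]
  · rw [LinearMap.mulLeft_apply, LinearMap.mulLeft_apply, ← mul_assoc, hvv, one_mul]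
  · change mix C v g * (x * mix C v (g⁻¹ : Eˣ)) = x
    rw [(mix_sym h2 hv _ hx).2, (mix_sym h2 hv _ hx).1]
  · change mix C v g * (x * mix C v (g⁻¹ : Eˣ)) = g * (x * (g⁻¹ : Eˣ))
    rw [(mix_skew h2 hv _ hx).2, (mix_skew h2 hv _ ?_).1]
    rw [← mul_assoc, ← neg_mul]
    exact congrArg (· * _) hx
  · rw [he, he, hι, LinearMap.mulLeft_apply, mul_add, ← mul_assoc, hvv, one_mul, add_comm]
  · rw [he, he, map_add, hg, inn_apply g (v * x), inn_apply, mul_assoc v, ← mul_assoc (g : E) v,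
      ← hv, mul_assoc v]

end DA2P

open DA2P in
theorem pDA2 (h9 : S_H9.{u}) : S_DA2.{u} := by
  intro R S A _ _ _ _ _ _ _ _ hA h hn T _ _ g w hg
  have := h.tower
  obtain ⟨t, ht⟩ := h9 R S A (-1) h hn (by simp)
  rw [map_neg, map_one, neg_one_mul, neg_eq_iff_eq_neg] at ht
  have e1 : algebraMap S A t * algebraMap S A (t⁻¹ : Sˣ) = 1 := by
    rw [← map_mul, t.mul_inv, map_one]
  have e2 : star (algebraMap S A (t⁻¹ : Sˣ)) = -algebraMap S A (t⁻¹ : Sˣ) := by
    have := congrArg star e1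
    rw [star_mul, ht, star_one, mul_neg, ← neg_mul] at this
    exact neg_eq_iff_eq_neg.1 (left_inv_eq_right_inv this e1)
  obtain ⟨c, hc⟩ := h.fix (t * t) (by rw [map_mul, star_mul, ht, neg_mul_neg])
  let O := QuadraticAlgebra T (algebraMap R T c) 0
  let f := IsScalarTower.toAlgHom R T O
  refine QuadraticAlgebra.algebraMap_injective (a := algebraMap R T c) (b := 0) ?_
  rw [map_one]
  refine (dI_map f g).symm.trans ?_
  obtain ⟨τ, ε, h1, h2, h3⟩ := pTr pAzS pFreeS (pTr0 pAzS) R S A h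
  let := bcStar R A O
  obtain ⟨τ', hτ'⟩ := (pBcg R A O).2 τ ε ⟨h1, h2, h3⟩
  have := hA.free
  have := hA.fin
  have hv : ∀ x : O ⊗[R] A, (QuadraticAlgebra.omega : O) ⊗ₜ[R] algebraMap S A (t⁻¹ : Sˣ) * x =
      x * (QuadraticAlgebra.omega : O) ⊗ₜ[R] algebraMap S A (t⁻¹ : Sˣ) := fun x => by
    induction x using TensorProduct.induction_on with
    | zero => rw [mul_zero, zero_mul]
    | add x y hx hy => rw [mul_add, add_mul, hx, hy]
    | tmul o a =>
      rw [Algebra.TensorProduct.tmul_mul_tmul, Algebra.TensorProduct.tmul_mul_tmul, mul_comm o,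
        Algebra.commutes]
  refine core hτ'.perf (two_unit R A O) hv ?_ cj_cj (fun x => ?_) _ (hg.map f).inn_cj
  · have e3 : (QuadraticAlgebra.omega : O) * QuadraticAlgebra.omega = c • 1 := by
      rw [QuadraticAlgebra.omega_mul_omega_eq_add, zero_smul, add_zero, algebraMap_smul]
    rw [Algebra.TensorProduct.tmul_mul_tmul, e3, smul_tmul, Algebra.smul_def,
      IsScalarTower.algebraMap_apply R S A, hc, ← map_mul, ← map_mul, mul_mul_mul_comm, t.mul_inv,
      mul_one, map_one]
    rfl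
  · rw [cj_mul, cj_tmul, e2, tmul_neg, mul_neg, hv]

end Pool.Agent.P.MP_46a8f8_ag.GU
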