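import Pool.Agent.P.MP_46a8f8_ag.GU.Base2

/-!
The localisation of a regular local ring of dimension three at an associated prime of a
principal ideal is a principal ideal ring.
-/

namespace Pool.Agent.P.MP_46a8f8_ag.GU

open TensorProduct Function Matrix IsLocalRing

universe u

namespace DVRP

/-- bilinear maps on a colon ideal with free module of relations are symmetric -/
theorem symm_of {R : Type u} [CommRing R] [IsDomain R] {F y : R} {p : Ideal R} (hF : F ≠ 0)
    (hp : ∀ r, r ∈ p ↔ F ∣ r * y) {b : ℕ} (f : (Fin b → R) →ₗ[R] p) (hf : Surjective f)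
    [Module.Free R (LinearMap.ker f)] [Module.Finite R (LinearMap.ker f)]
    {W : Type u} [AddCommGroup W] [Module R W] (β : p →ₗ[R] p →ₗ[R] W) (g1 g2 : p) :
    β g1 g2 = β g2 g1 := by
  classical
  obtain ⟨v1, h1⟩ := hf g1
  obtain ⟨v2, h2⟩ := hf g2
  let S : (Fin b → p) →ₗ[R] W :=
    ∑ i, (β.flip (f (Pi.single i 1))) ∘ₗ LinearMap.proj i
  have hS : ∀ (c : p) (v : Fin b → R), S (fun i => v i • c) = β c (f v) := by
    intro c v
    have hv : f v = ∑ i, v i • f (Pi.single i 1) := by
      conv_lhs => rw [← Finset.univ_sum_single v]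
      rw [map_sum]
      refine Finset.sum_congr rfl fun i _ => ?_
      rw [← map_smul, ← Pi.single_smul, smul_eq_mul, mul_one]
    rw [hv, map_sum]
    simp only [S, LinearMap.sum_apply, LinearMap.comp_apply, LinearMap.proj_apply,
      LinearMap.flip_apply, map_smul]
  let k0 : Fin b → R := (g2 : R) • v1 - (g1 : R) • v2
  have hk0 : k0 ∈ LinearMap.ker f := by
    rw [LinearMap.mem_ker, map_sub, map_smul, map_smul, h1, h2]
    exact Subtype.ext (by simp [mul_comm])
  have hmem : ∀ i, k0 i ∈ p := fun i =>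
    p.sub_mem (p.mul_mem_right _ g2.2) (p.mul_mem_right _ g1.2)
  choose w hw using fun i => (hp _).1 (hmem i)
  have hyw : y • k0 = F • w := funext fun i => by
    rw [Pi.smul_apply, Pi.smul_apply, smul_eq_mul, smul_eq_mul, mul_comm, hw]
  have hwk : w ∈ LinearMap.ker f := by
    have h3 : F • f w = 0 := by
      rw [← map_smul, ← hyw, map_smul, LinearMap.mem_ker.1 hk0, smul_zero]
    have h4 : F * (f w : R) = 0 := congrArg Subtype.val h3
    exact Subtype.ext ((mul_eq_zero.1 h4).resolve_left hF)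
  let e := Module.Free.chooseBasis R (LinearMap.ker f)
  have hc : ∀ j, e.repr ⟨k0, hk0⟩ j ∈ p := by
    intro j
    refine (hp _).2 ⟨e.repr ⟨w, hwk⟩ j, ?_⟩
    have h3 : y • (⟨k0, hk0⟩ : LinearMap.ker f) = F • ⟨w, hwk⟩ := Subtype.ext hyw
    have h4 := congrArg (fun t => e.repr t j) h3
    simpa only [map_smul, Finsupp.smul_apply, smul_eq_mul, mul_comm y] using h4
  have hsum : ((fun i => v1 i • g2) - fun i => v2 i • g1 : Fin b → p) =
      ∑ j, fun i => (e j : Fin b → R) i • (⟨_, hc j⟩ : p) := by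
    funext i
    apply Subtype.ext
    have h3 := congrArg (fun t : LinearMap.ker f => (t : Fin b → R) i) (e.sum_repr ⟨k0, hk0⟩)
    simp only [AddSubmonoidClass.coe_finsetSum, SetLike.val_smul, Finset.sum_apply,
      Pi.smul_apply, smul_eq_mul] at h3
    simp only [Pi.sub_apply, Finset.sum_apply, AddSubmonoidClass.coe_finsetSum,
      AddSubgroupClass.coe_sub, SetLike.val_smul, smul_eq_mul]
    rw [Finset.sum_congr rfl fun j _ => mul_comm ((e j : Fin b → R) i) _, h3]
    simp [k0, mul_comm]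
  have h5 := congrArg S hsum
  rw [map_sub, hS, hS, h1, h2, map_sum,
    Finset.sum_eq_zero fun j _ => by rw [hS, LinearMap.mem_ker.1 (e j).2, map_zero]] at h5
  exact (sub_eq_zero.1 h5).symm

/-- a space on which products of two functionals are symmetric has dimension at most one -/
theorem finrank_le {k V : Type u} [Field k] [AddCommGroup V] [Module k V]
    (h : ∀ (φ ψ : Module.Dual k V) (a b : V), φ a * ψ b = φ b * ψ a) :
    Module.finrank k V ≤ 1 := by
  by_cases h0 : ∃ v : V, v ≠ 0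
  · obtain ⟨v, hv⟩ := h0
    have h1 : ¬ ∀ φ : Module.Dual k V, φ v = 0 := fun h2 =>
      hv ((Module.forall_dual_apply_eq_zero_iff k v).1 h2)
    obtain ⟨φ, hφ⟩ := not_forall.1 h1
    refine finrank_le_one v fun w => ⟨φ w / φ v, ?_⟩
    rw [← sub_eq_zero, ← Module.forall_dual_apply_eq_zero_iff k]
    intro ψ
    rw [map_sub, map_smul, smul_eq_mul, div_mul_eq_mul_div, ← h φ ψ v w,
      mul_div_cancel_left₀ _ hφ, sub_self]
  · have : Subsingleton V := ⟨fun a b => by
      rw [not_not.1 (not_exists.1 h0 a), not_not.1 (not_exists.1 h0 b)]⟩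
    rw [Module.finrank_zero_of_subsingleton]
    exact zero_le_one

/-- the maximal ideal is not associated to a principal ideal -/
theorem not_le {R : Type u} [CommRing R] [IsRegularLocalRing R] (hd : ringKrullDim R = 3)
    {F y : R} {p : Ideal R} [hpp : p.IsPrime] (hF : F ≠ 0) (hp : ∀ r, r ∈ p ↔ F ∣ r * y) :
    ¬ maximalIdeal R ≤ p := by
  intro hle
  have := rDom R
  obtain ⟨x, hx, hx2⟩ := Set.not_subset.1 (not_le_sq3 hd)
  have hxp : Prime x := Reg2P.prime_of rQuot rDom R x hx hx2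
  obtain ⟨h1, h2⟩ := rQuot R x hx hx2
  have h3 : ringKrullDim (R ⧸ Ideal.span {x}) = (2 : ℕ) := PdP.dim_eq (h2.trans hd)
  obtain ⟨t, ht, ht2⟩ := Set.not_subset.1 (PdP.not_le_sq 1 h3)
  obtain ⟨t, rfl⟩ := Ideal.Quotient.mk_surjective t
  have htm : t ∈ maximalIdeal R := fun hu => ht (hu.map _)
  have htx : ¬ x ∣ t := fun h => ht2 (by
    rw [Ideal.Quotient.eq_zero_iff_mem.2 (Ideal.mem_span_singleton.2 h)]
    exact zero_mem _)
  obtain ⟨a, ha⟩ := (hp x).1 (hle hx)
  obtain ⟨c, hc⟩ := (hp t).1 (hle htm)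
  have h4 : t * a = x * c := mul_left_cancel₀ hF (by linear_combination x * hc - t * ha)
  obtain ⟨a', rfl⟩ := (hxp.dvd_or_dvd ⟨c, h4⟩).resolve_left htx
  have h5 : 1 * y = F * a' := mul_left_cancel₀ hxp.ne_zero (by linear_combination ha)
  exact hpp.ne_top ((Ideal.eq_top_iff_one p).2 ((hp 1).2 ⟨a', h5⟩))

end DVRP

open DVRP in
theorem pDVR : S_DVR.{u} := by
  intro R _ _ hd F y p hpp hF hp
  have := rDom R
  obtain ⟨z, hz, hz'⟩ := Set.not_subset.1 fun h =>
    (Ideal.subset_union.1 h).elim (not_le_sq3 hd) (not_le hd hF hp)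
  have hz2 : z ∉ maximalIdeal R ^ 2 := fun h => hz' (Or.inl h)
  have hzp : z ∉ p := fun h => hz' (Or.inr h)
  have hreg : IsSMulRegular (R ⧸ p) z := by
    intro a b hab
    have h0 : Ideal.Quotient.mk p z ≠ 0 := fun h => hzp (Ideal.Quotient.eq_zero_iff_mem.1 h)
    exact mul_left_cancel₀ h0 hab
  have hpd : PD R (R ⧸ p) 2 := pd_of_reg 2 hd hz hz2 _ hreg
  obtain ⟨b, f, hf⟩ := Module.Finite.exists_fin' R p
  have hex1 : Exact (LinearMap.ker f).subtype (p.subtype ∘ₗ f) := fun v =>
    ⟨fun h => ⟨⟨v, Subtype.ext h⟩, rfl⟩, by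
      rintro ⟨k, rfl⟩
      exact congrArg Subtype.val (LinearMap.mem_ker.1 k.2)⟩
  have hex2 : Exact (p.subtype ∘ₗ f) p.mkQ := fun r =>
    ⟨fun h => by
      obtain ⟨v, hv⟩ := hf ⟨r, (Submodule.Quotient.mk_eq_zero p).1 h⟩
      exact ⟨v, congrArg Subtype.val hv⟩, by
      rintro ⟨v, rfl⟩
      exact (Submodule.Quotient.mk_eq_zero p).2 (f v).2⟩
  have hproj : Module.Projective R (LinearMap.ker f) :=
    proj_of_pd2 _ _ _ (LinearMap.ker f).injective_subtype hex1 hex2 p.mkQ_surjective hpd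
  have hfree : Module.Free R (LinearMap.ker f) := Module.free_of_flat_of_isLocalRing
  let O := Localization.AtPrime p
  refine ((tfae_of_isNoetherianRing_of_isLocalRing_of_isDomain O).out 0 5).2 ?_
  have hm : ∀ g : p, algebraMap R O g ∈ maximalIdeal O := fun g =>
    (IsLocalization.AtPrime.to_map_mem_maximal_iff O p g).2 g.2
  let ι : p → CotangentSpace O := fun g => (maximalIdeal O).toCotangent ⟨_, hm g⟩
  have hadd : ∀ g g' : p, ι (g + g') = ι g + ι g' := fun g g' => by
    rw [← map_add]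
    refine congrArg (maximalIdeal O).toCotangent (Subtype.ext ?_)
    exact map_add (algebraMap R O) g.1 g'.1
  have hsm : ∀ (r : R) (g : p), ι (r • g) = algebraMap R (ResidueField O) r • ι g := fun r g => by
    rw [IsScalarTower.algebraMap_apply R O (ResidueField O), algebraMap_smul, ← map_smul]
    refine congrArg (maximalIdeal O).toCotangent (Subtype.ext ?_)
    exact map_mul (algebraMap R O) r g
  have hsur : ∀ a : CotangentSpace O, ∃ (c : ResidueField O) (g : p), a = c • ι g := by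
    intro a
    obtain ⟨⟨t, ht⟩, rfl⟩ := (maximalIdeal O).toCotangent_surjective a
    obtain ⟨⟨g, s⟩, rfl⟩ := IsLocalization.mk'_surjective p.primeCompl t
    have hg : g ∈ p := (IsLocalization.AtPrime.mk'_mem_maximal_iff O p g s).1 ht
    refine ⟨algebraMap O (ResidueField O) (IsLocalization.mk' O 1 s), ⟨g, hg⟩, ?_⟩
    rw [algebraMap_smul, ← map_smul]
    refine congrArg _ (Subtype.ext ?_)
    change IsLocalization.mk' O g s = IsLocalization.mk' O 1 s * algebraMap R O g
    rw [mul_comm, ← IsLocalization.mk'_eq_mul_mk'_one]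
  refine finrank_le fun φ ψ a a' => ?_
  obtain ⟨c, g, rfl⟩ := hsur a
  obtain ⟨c', g', rfl⟩ := hsur a'
  have key : φ (ι g) * ψ (ι g') = φ (ι g') * ψ (ι g) :=
    symm_of hF hp f hf (LinearMap.mk₂ R (fun g g' : p => φ (ι g) * ψ (ι g'))
      (fun _ _ _ => by rw [hadd, map_add, add_mul])
      (fun _ _ _ => by rw [hsm, map_smul, smul_eq_mul, Algebra.smul_def, mul_assoc])
      (fun _ _ _ => by rw [hadd, map_add, mul_add])
      (fun _ _ _ => by rw [hsm, map_smul, smul_eq_mul, Algebra.smul_def, mul_left_comm])) g g'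
  simp only [map_smul, smul_eq_mul]
  linear_combination c * c' * key

end Pool.Agent.P.MP_46a8f8_ag.GU
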