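import Pool.Agent.P.MP_46a8f8_ag.Base

/-!
Definitions for the unitary case: modules with an action of a separable algebra with
involution, adjoint bilinear forms, three term complexes.
-/

namespace Pool.Agent.P.MP_46a8f8_ag.GU

open TensorProduct Function Matrix IsLocalRing

universe u

/-- standing assumptions: a finite free separable algebra with involution, `2` invertible -/
class SA (R A : Type u) [CommRing R] [Ring A] [Algebra R A] [StarRing A] : Prop where
  free : Module.Free R A
  fin : Module.Finite R A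
  sep : ∃ (k : ℕ) (a b : Fin k → A), ∑ i, a i * b i = 1 ∧
    ∀ c : A, ∑ i, (c * a i) ⊗ₜ[R] b i = ∑ i, a i ⊗ₜ[R] (b i * c)
  st : ∀ r : R, star (algebraMap R A r) = algebraMap R A r
  two : IsUnit (2 : R)

/-- a `C`-module with a `C`-linear action of `A` compatible with `R` -/
structure RM (R A C : Type u) [CommRing R] [Ring A] [Algebra R A] [CommRing C] [Algebra R C] :
    Type (u + 1) where
  M : Type u
  [ag : AddCommGroup M]
  [md : Module C M]
  ρ : A →+* Module.End C M
  alg : ∀ (r : R) (m : M), ρ (algebraMap R A r) m = algebraMap R C r • m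

attribute [instance] RM.ag RM.md

/-- such a module with a bilinear form with values in `V` -/
structure FM (R A C V : Type u) [CommRing R] [Ring A] [Algebra R A] [CommRing C] [Algebra R C]
    [AddCommGroup V] [Module C V] : Type (u + 1) extends RM R A C where
  b : M →ₗ[C] M →ₗ[C] V

/-- a matrix representation -/
structure MRep (R A C : Type u) [CommRing R] [Ring A] [Algebra R A] [CommRing C] [Algebra R C]
    (ι : Type) [Fintype ι] [DecidableEq ι] : Type u where
  ρ : A →+* Matrix ι ι C
  alg : ∀ r : R, ρ (algebraMap R A r) = algebraMap R C r • (1 : Matrix ι ι C)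

/-- a regular sequence of length two (units allowed) -/
def RS {R : Type u} [CommRing R] (F G : R) : Prop :=
  F ≠ 0 ∧ G ≠ 0 ∧ ∀ u v : R, G * u = F * v → F ∣ u

/-- the quotient by two elements -/
abbrev BQ {R : Type u} [CommRing R] (F G : R) : Type u := R ⧸ Ideal.span {F, G}

/-- `V` is the quotient of `T` by `f` -/
def Quo {T : Type u} [CommRing T] (f : T) (V : Type u) [CommRing V] [Algebra T V] : Prop :=
  Surjective (algebraMap T V) ∧ ∀ u : T, algebraMap T V u = 0 ↔ f ∣ u

/-- every maximal ideal comes from a discrete valuation ring with the same residue field in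
which `f` is not zero -/
def ParH {T : Type u} [CommRing T] (f : T) : Prop :=
  ∀ 𝔫 : Ideal T, 𝔫.IsMaximal → ∃ (D : Type u) (_ : CommRing D) (_ : IsDomain D)
    (_ : IsDiscreteValuationRing D) (_ : Algebra T D), algebraMap T D f ≠ 0 ∧
    (maximalIdeal D).comap (algebraMap T D) = 𝔫 ∧
    ∀ d : D, ∃ u : T, d - algebraMap T D u ∈ maximalIdeal D

section rm

variable {R A C : Type u} [CommRing R] [Ring A] [Algebra R A] [CommRing C] [Algebra R C]

/-- equivariant maps -/
def Eqv {C' : Type u} [CommRing C'] [Algebra R C'] (X : RM R A C) (Y : RM R A C')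
    (f : X.M → Y.M) : Prop :=
  ∀ (a : A) (m : X.M), f (X.ρ a m) = Y.ρ a (f m)

/-- stable submodules -/
def RM.Stab (X : RM R A C) (N : Submodule C X.M) : Prop :=
  ∀ (a : A) (m : X.M), m ∈ N → X.ρ a m ∈ N

/-- finite free -/
def RM.FF (X : RM R A C) : Prop := Module.Free C X.M ∧ Module.Finite C X.M

/-- isomorphic -/
def RM.Iso (X Y : RM R A C) : Prop := ∃ e : X.M ≃ₗ[C] Y.M, Eqv X Y e

/-- direct sum -/
@[reducible] def RM.prod (X Y : RM R A C) : RM R A C where
  M := X.M × Y.M
  ρ := (LinearMap.prodMapRingHom C X.M Y.M).comp (X.ρ.prod Y.ρ)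
  alg r m := Prod.ext (X.alg r m.1) (Y.alg r m.2)

/-- a stable submodule -/
@[reducible] def RM.sub (X : RM R A C) (N : Submodule C X.M) (h : X.Stab N) : RM R A C where
  M := N
  ρ :=
    { toFun := fun a => (X.ρ a).restrict (h a)
      map_one' := LinearMap.ext fun m => Subtype.ext (by simp)
      map_mul' := fun a a' => LinearMap.ext fun m => Subtype.ext (by simp)
      map_zero' := LinearMap.ext fun m => Subtype.ext (by simp)
      map_add' := fun a a' => LinearMap.ext fun m => Subtype.ext (by simp) }
  alg r m := Subtype.ext (X.alg r m)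

/-- the quotient by a stable submodule -/
@[reducible] def RM.quot (X : RM R A C) (N : Submodule C X.M) (h : X.Stab N) : RM R A C where
  M := X.M ⧸ N
  ρ :=
    { toFun := fun a => N.mapQ N (X.ρ a) (h a)
      map_one' := Submodule.linearMap_qext _ (LinearMap.ext fun m => by simp)
      map_mul' := fun a a' => Submodule.linearMap_qext _ (LinearMap.ext fun m => by simp)
      map_zero' := Submodule.linearMap_qext _ (LinearMap.ext fun m => by simp)
      map_add' := fun a a' => Submodule.linearMap_qext _ (LinearMap.ext fun m => by simp) }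
  alg r m := by
    obtain ⟨m, rfl⟩ := Submodule.Quotient.mk_surjective N m
    exact congrArg Submodule.Quotient.mk (X.alg r m)

/-- restriction of scalars -/
@[reducible] def RM.res (X : RM R A C) (C' : Type u) [CommRing C'] [Algebra R C'] [Algebra C' C]
    [IsScalarTower R C' C] : RM R A C' :=
  letI : Module C' X.M := Module.compHom X.M (algebraMap C' C)
  { M := X.M
    ρ :=
      { toFun := fun a =>
          { toFun := X.ρ a
            map_add' := map_add _
            map_smul' := fun c m => map_smul (X.ρ a) (algebraMap C' C c) m }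
        map_one' := LinearMap.ext fun m => by simp
        map_mul' := fun a a' => LinearMap.ext fun m => by simp
        map_zero' := LinearMap.ext fun m => by simp
        map_add' := fun a a' => LinearMap.ext fun m => by simp }
    alg := fun r m => by
      change X.ρ _ m = algebraMap C' C (algebraMap R C' r) • m
      rw [X.alg, ← IsScalarTower.algebraMap_apply] }

/-- extension of scalars from the ground ring -/
@[reducible] noncomputable def RM.bc (X : RM R A R) (k : Type u) [CommRing k] [Algebra R k] :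
    RM R A k where
  M := k ⊗[R] X.M
  ρ := (Module.End.baseChangeHom R k X.M).toRingHom.comp X.ρ
  alg r m := by
    have : X.ρ (algebraMap R A r) = r • LinearMap.id := LinearMap.ext fun m => X.alg r m
    change LinearMap.baseChange k (X.ρ (algebraMap R A r)) m = _
    rw [this, LinearMap.baseChange_smul, LinearMap.baseChange_id, algebraMap_smul]
    rfl

/-- the left regular representation -/
@[reducible] def RM.reg (R A : Type u) [CommRing R] [Ring A] [Algebra R A] : RM R A R where
  M := A
  ρ := (Algebra.lmul R A).toRingHom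
  alg r m := (Algebra.smul_def r m).symm

variable {ι ι' : Type} [Fintype ι] [DecidableEq ι] [Fintype ι'] [DecidableEq ι']

/-- column vectors -/
@[reducible] noncomputable def MRep.rm (ρ : MRep R A C ι) : RM R A C where
  M := ι → C
  ρ := (Matrix.toLinAlgEquiv' (R := C) (n := ι)).toRingEquiv.toRingHom.comp ρ.ρ
  alg r m := by
    change ρ.ρ (algebraMap R A r) *ᵥ m = _
    rw [ρ.alg, smul_mulVec, one_mulVec]

/-- change of coefficients -/
def MRep.map (ρ : MRep R A C ι) {C' : Type u} [CommRing C'] [Algebra R C'] (q : C →ₐ[R] C') :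
    MRep R A C' ι where
  ρ := (q.toRingHom.mapMatrix).comp ρ.ρ
  alg r := by
    ext i j
    change q (ρ.ρ _ i j) = _
    rw [ρ.alg]
    by_cases h : i = j
    · rw [h, Matrix.smul_apply, Matrix.smul_apply, one_apply_eq, one_apply_eq, smul_eq_mul,
        smul_eq_mul, mul_one, mul_one, AlgHom.commutes]
    · simp [h]

/-- block sum -/
def MRep.sum (ρ : MRep R A C ι) (ρ' : MRep R A C ι') : MRep R A C (ι ⊕ ι') where
  ρ :=
    { toFun := fun a => fromBlocks (ρ.ρ a) 0 0 (ρ'.ρ a)
      map_one' := by simp
      map_mul' := fun a a' => by simp [fromBlocks_multiply]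
      map_zero' := by simp
      map_add' := fun a a' => by simp [fromBlocks_add] }
  alg r := by
    change fromBlocks (ρ.ρ _) 0 0 (ρ'.ρ _) = _
    rw [ρ.alg, ρ'.alg, ← fromBlocks_one, fromBlocks_smul, smul_zero, smul_zero]

variable [StarRing A]

/-- the dual -/
@[reducible] def RM.dual [SA R A] (X : RM R A C) : RM R A C where
  M := Module.Dual C X.M
  ρ :=
    { toFun := fun a => (X.ρ (star a)).dualMap
      map_one' := LinearMap.ext fun ξ => LinearMap.ext fun m => by simp
      map_mul' := fun a a' => LinearMap.ext fun ξ => LinearMap.ext fun m => by simp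
      map_zero' := LinearMap.ext fun ξ => LinearMap.ext fun m => by simp
      map_add' := fun a a' => LinearMap.ext fun ξ => LinearMap.ext fun m => by simp }
  alg r ξ := LinearMap.ext fun m => by
    change ξ (X.ρ (star (algebraMap R A r)) m) = _
    rw [SA.st, X.alg, map_smul]
    rfl

/-- the dual matrix representation -/
def MRep.dual [SA R A] (ρ : MRep R A C ι) : MRep R A C ι where
  ρ :=
    { toFun := fun a => (ρ.ρ (star a))ᵀ
      map_one' := by simp
      map_mul' := fun a a' => by simp
      map_zero' := by simp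
      map_add' := fun a a' => by simp }
  alg r := by
    change (ρ.ρ (star _))ᵀ = _
    rw [SA.st, ρ.alg, transpose_smul, transpose_one]

/-- a `δ`-symmetric matrix which is equivariant from the dual representation to `ρ` -/
def SymAdj (δ : ℤˣ) (ρ : MRep R A C ι) (l : Matrix ι ι C) : Prop :=
  lᵀ = δ • l ∧ ∀ a : A, ρ.ρ a * l = l * (ρ.ρ (star a))ᵀ

/-- the hyperbolic form on pairs of vectors for which graphs of `δ`-symmetric matrices are
isotropic -/
def hf (δ : ℤˣ) (u v : (ι → C) × (ι → C)) : C := u.2 ⬝ᵥ v.1 - δ • (v.2 ⬝ᵥ u.1)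

/-- a stable submodule of pairs of vectors which is its own orthogonal -/
def MLag (δ : ℤˣ) (ρ : MRep R A C ι) (Λ : Submodule C ((ι → C) × (ι → C))) : Prop :=
  (∀ (a : A) (u : (ι → C) × (ι → C)), u ∈ Λ → (ρ.ρ a *ᵥ u.1, (ρ.ρ (star a))ᵀ *ᵥ u.2) ∈ Λ) ∧
    ∀ u, u ∈ Λ ↔ ∀ v ∈ Λ, hf δ u v = 0

/-- a self dual projector onto `Λ` -/
def MProj (δ : ℤˣ) (Λ : Submodule C ((ι → C) × (ι → C))) : Prop :=
  ∃ e : ((ι → C) × (ι → C)) →ₗ[C] ((ι → C) × (ι → C)), (∀ u, e u ∈ Λ) ∧ (∀ u ∈ Λ, e u = u) ∧
    ∀ u v, hf δ (e u) v + hf δ u (e v) = hf δ u v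

end rm

section fm

variable {R A C V : Type u} [CommRing R] [Ring A] [Algebra R A] [CommRing C] [Algebra R C]
  [AddCommGroup V] [Module C V]

/-- the orthogonal of a submodule -/
def FM.perp (E : FM R A C V) (N : Submodule C E.M) : Submodule C E.M where
  carrier := {x | ∀ y ∈ N, E.b x y = 0}
  add_mem' hx hy y h := by rw [map_add, LinearMap.add_apply, hx y h, hy y h, add_zero]
  zero_mem' y _ := by rw [map_zero, LinearMap.zero_apply]
  smul_mem' c x hx y h := by rw [map_smul, LinearMap.smul_apply, hx y h, smul_zero]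

/-- perfect -/
def FM.Perf (E : FM R A C V) : Prop := Bijective E.b

/-- isotropic -/
def FM.Isot (E : FM R A C V) (N : Submodule C E.M) : Prop := ∀ x ∈ N, ∀ y ∈ N, E.b x y = 0

/-- a stable submodule equal to its orthogonal -/
def FM.IsLag (E : FM R A C V) (N : Submodule C E.M) : Prop := E.Stab N ∧ E.perp N = N

/-- some stable submodule is equal to its orthogonal -/
def FM.HasLag (E : FM R A C V) : Prop := ∃ N, E.IsLag N

/-- no nonzero stable isotropic submodule -/
def FM.Aniso (E : FM R A C V) : Prop := ∀ N, E.Stab N → E.Isot N → N = ⊥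

/-- an equivariant idempotent `e` whose adjoint is `1 - e` -/
def FM.IsProj (E : FM R A C V) (e : E.M →ₗ[C] E.M) : Prop :=
  Eqv E.toRM E.toRM e ∧ (∀ x, e (e x) = e x) ∧ ∀ x y, E.b (e x) y + E.b x (e y) = E.b x y

/-- hyperbolic -/
def FM.Hyp (E : FM R A C V) : Prop := ∃ e, E.IsProj e

/-- isometric -/
def FM.Iso (E E' : FM R A C V) : Prop :=
  ∃ e : E.M ≃ₗ[C] E'.M, Eqv E.toRM E'.toRM e ∧ ∀ x y, E'.b (e x) (e y) = E.b x y

/-- killed by a scalar -/
def FM.Kil (E : FM R A C V) (c : C) : Prop := ∀ x : E.M, c • x = 0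

/-- orthogonal sum -/
@[reducible] def FM.sum (E E' : FM R A C V) : FM R A C V where
  toRM := E.toRM.prod E'.toRM
  b := E.b.compl₁₂ (LinearMap.fst C E.M E'.M) (LinearMap.fst C E.M E'.M) +
    E'.b.compl₁₂ (LinearMap.snd C E.M E'.M) (LinearMap.snd C E.M E'.M)

/-- the opposite form -/
@[reducible] def FM.neg (E : FM R A C V) : FM R A C V where
  toRM := E.toRM
  b := -E.b

/-- the hyperbolic space of a module -/
@[reducible] def RM.hyp [StarRing A] [SA R A] (X : RM R A C) (ε : ℤˣ) : FM R A C C where
  toRM := X.prod X.dual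
  b := LinearMap.mk₂ C (fun u v : X.M × Module.Dual C X.M => u.2 v.1 + ε • v.2 u.1)
    (fun u u' v => by simp [add_add_add_comm])
    (fun c u v => by simp [mul_add, Units.smul_def, mul_left_comm])
    (fun u v v' => by simp [add_add_add_comm])
    (fun c u v => by simp [mul_add, Units.smul_def, mul_left_comm])

/-- restriction of scalars together with a map on the values -/
@[reducible] def FM.tr (E : FM R A C V) (C' : Type u) [CommRing C'] [Algebra R C'] [Algebra C' C]
    [IsScalarTower R C' C] {V' : Type u} [AddCommGroup V'] [Module C' V'] (κ : V →+ V')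
    (hκ : ∀ (c : C') (v : V), κ (algebraMap C' C c • v) = c • κ v) : FM R A C' V' where
  toRM := E.toRM.res C'
  b := LinearMap.mk₂ C' (fun x y : (E.toRM.res C').M => κ (E.b x y))
    (fun x x' y => by rw [map_add, LinearMap.add_apply, map_add])
    (fun c x y => by
      change κ (E.b (algebraMap C' C c • x) y) = _
      rw [map_smul, LinearMap.smul_apply, hκ])
    (fun x y y' => by rw [map_add, map_add])
    (fun c x y => by
      change κ (E.b x (algebraMap C' C c • y)) = _
      rw [map_smul, hκ])

/-- restriction of scalars of a form with values in the base -/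
@[reducible] def FM.res (E : FM R A C C) (C' : Type u) [CommRing C'] [Algebra R C'] [Algebra C' C]
    [IsScalarTower R C' C] : FM R A C' C :=
  E.tr C' (AddMonoidHom.id C) fun c v => algebraMap_smul C c v

/-- extension of scalars from the ground ring -/
@[reducible] noncomputable def FM.bc (E : FM R A R R) (k : Type u) [CommRing k] [Algebra R k] :
    FM R A k k where
  toRM := E.toRM.bc k
  b := LinearMap.BilinForm.baseChange k E.b

/-- the form `hf` on pairs of vectors -/
@[reducible] noncomputable def MRep.hfm [StarRing A] [SA R A] {ι : Type} [Fintype ι]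
    [DecidableEq ι] (ρ : MRep R A C ι) (δ : ℤˣ) : FM R A C C where
  toRM := ρ.rm.prod ρ.dual.rm
  b := LinearMap.mk₂ C (fun u v : (ι → C) × (ι → C) => hf δ u v)
    (fun (u u' v : (ι → C) × (ι → C)) => by
      simp only [hf, Prod.fst_add, Prod.snd_add, add_dotProduct, dotProduct_add, smul_add]
      abel)
    (fun c u v => by simp [hf, mul_sub, Units.smul_def, mul_left_comm])
    (fun (u v v' : (ι → C) × (ι → C)) => by
      simp only [hf, Prod.fst_add, Prod.snd_add, add_dotProduct, dotProduct_add, smul_add]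
      abel)
    (fun c u v => by simp [hf, mul_sub, Units.smul_def, mul_left_comm])

variable [StarRing A]

/-- finite, adjoint and `δ`-symmetric -/
structure FM.Good (E : FM R A C V) (δ : ℤˣ) : Prop where
  fin : Module.Finite C E.M
  adj : ∀ (a : A) (x y : E.M), E.b (E.ρ a x) y = E.b x (E.ρ (star a) y)
  sym : ∀ x y : E.M, E.b y x = δ • E.b x y

/-- a finite free module with a perfect form -/
structure FM.Sp (E : FM R A C C) (ε : ℤˣ) : Prop where
  good : E.Good ε
  perf : E.Perf
  free : Module.Free C E.M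

/-- stably hyperbolic -/
def FM.WNull (E : FM R A C C) (ε : ℤˣ) : Prop :=
  ∃ H : FM R A C C, H.Sp ε ∧ H.Hyp ∧ (E.sum H).Hyp

end fm

section pres

variable {R A T V : Type u} [CommRing R] [Ring A] [Algebra R A] [CommRing T] [Algebra R T]
  [CommRing V] [Algebra T V] {ι : Type} [Fintype ι] [DecidableEq ι]

/-- `Y` is the cokernel of the matrix `l`, with the form induced by the inverse of `l` -/
def Pres (ρ : MRep R A T ι) (l : Matrix ι ι T) (f : T) (Y : FM R A T V) : Prop :=
  ∃ π : (ι → T) →ₗ[T] Y.M, Surjective π ∧ Eqv ρ.rm Y.toRM π ∧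
    (∀ x, π x = 0 ↔ ∃ w, l *ᵥ w = x) ∧ (∀ x, ∃ w, l *ᵥ w = f • x) ∧
    ∀ x y w, l *ᵥ w = f • x → Y.b (π x) (π y) = algebraMap T V (w ⬝ᵥ y)

end pres

section dat

variable {R A : Type u} [CommRing R] [Ring A] [Algebra R A]

/-- a free isotropic module mapping onto its orthogonal -/
structure Dat (E : FM R A R R) : Type (u + 1) where
  Q : RM R A R
  ff : Q.FF
  i : Q.M →ₗ[R] E.M
  eqv : Eqv Q E.toRM i
  iso : ∀ q q', E.b (i q) (i q') = 0
  ex : ∀ p, (∀ q, E.b p (i q) = 0) → ∃ q, i q = p

variable {E : FM R A R R}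

/-- the adjoint of `i` -/
def Dat.β (D : Dat E) : E.M →ₗ[R] Module.Dual R D.Q.M := E.b.compl₂ D.i

/-- the cokernel of `β` is killed by `r` -/
def Dat.Kil (D : Dat E) (r : R) : Prop := ∀ ξ, ∃ p, D.β p = r • ξ

variable [StarRing A] [SA R A]

/-- `Y` is the cokernel of `β` with its linking form -/
def Dat.Real (D : Dat E) (F G : R) (Y : FM R A R (BQ F G)) : Prop :=
  D.Kil F ∧ D.Kil G ∧ ∃ π : Module.Dual R D.Q.M →ₗ[R] Y.M, Surjective π ∧
    Eqv D.Q.dual Y.toRM π ∧ (∀ ξ, π ξ = 0 ↔ ∃ p, D.β p = ξ) ∧
    ∀ ξ η p p', D.β p = F • ξ → D.β p' = G • η →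
      Y.b (π ξ) (π η) = Ideal.Quotient.mk _ (E.b p' p)

/-- the linking form of a complex with hyperbolic middle term -/
def Neut (ε : ℤˣ) (F G : R) (Y : FM R A R (BQ F G)) : Prop :=
  ∃ (E : FM R A R R) (D : Dat E), E.Sp ε ∧ E.Hyp ∧ D.Real F G Y

/-- has a Lagrangian after adding a neutral form -/
def Null (ε : ℤˣ) (F G : R) (Y : FM R A R (BQ F G)) : Prop :=
  ∃ Y' : FM R A R (BQ F G), Y'.Good (-ε) ∧ Neut ε F G Y' ∧ (Y.sum Y').HasLag

end dat

/-- finite free representations of the same rank are isomorphic -/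
def Rk (R A : Type u) [CommRing R] [Ring A] [Algebra R A] : Prop :=
  ∀ X Y : RM R A R, X.FF → Y.FF → Module.finrank R X.M = Module.finrank R Y.M → X.Iso Y

/-- `τ` generates the dual of `C` -/
def PerfTr {R C : Type u} [CommRing R] [Ring C] [Algebra R C] (τ : C →ₗ[R] R) : Prop :=
  Bijective ((LinearMap.mul R C).compr₂ τ)

/-- a finite free Gorenstein algebra containing a regular surface `g = 0` through the curve
`Spec S`, on which `x` is a regular parameter -/
structure Mod {R : Type u} [CommRing R] (x : R) (S C : Type u) [CommRing S] [CommRing C]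
    [Algebra R C] [Algebra C S] (τ : C →ₗ[R] R) (g t : C) : Prop where
  free : Module.Free R C
  fin : Module.Finite R C
  perf : PerfTr τ
  surj : Surjective (algebraMap C S)
  ker : ∀ c, algebraMap C S c = 0 ↔ c ∈ Ideal.span {g, t}
  reg2 : ∀ 𝔫 : Ideal (C ⧸ Ideal.span {g}), 𝔫.IsMaximal → RegAt _ 𝔫 2
  reg1 : ∀ 𝔫 : Ideal ((C ⧸ Ideal.span {g}) ⧸
    Ideal.span {algebraMap R (C ⧸ Ideal.span {g}) x}), 𝔫.IsMaximal → RegAt _ 𝔫 1
  greg : ∀ c : C, algebraMap R C x ∣ g * c → algebraMap R C x ∣ c

/-- the normalisation of a curve: a principal ideal domain, finite and birational over `R ⧸ p` -/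
structure Nrm {R : Type u} [CommRing R] (p : Ideal R) (S : Type u) [CommRing S] [Algebra R S] :
    Prop where
  dom : IsDomain S
  pid : IsPrincipalIdealRing S
  fin : Module.Finite R S
  ker : ∀ r, algebraMap R S r = 0 ↔ r ∈ p
  cond : ∃ c, c ∉ p ∧ ∀ s : S, ∃ r, algebraMap R S r = algebraMap R S c * s

/-- a prime of dimension one not containing `x` -/
structure Crv {R : Type u} [CommRing R] [IsLocalRing R] (x : R) (p : Ideal R) : Prop where
  prime : p.IsPrime
  nx : x ∉ p
  one : ∀ q : Ideal R, q.IsPrime → p < q → q = maximalIdeal R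

end Pool.Agent.P.MP_46a8f8_ag.GU
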