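import Pool.Agent.P.MP_46a8f8_ag.GU.Ad

/-!
The determinant of a congruence on skew and on symmetric matrices.
-/

namespace Pool.Agent.P.MP_46a8f8_ag.GU

open Matrix

universe u

namespace DetCP

variable {Ω : Type u} [Field Ω] {n : ℕ}

/-- the congruence by `P` -/
def cg (P : Matrix (Fin n) (Fin n) Ω) : Matrix (Fin n) (Fin n) Ω →ₗ[Ω] Matrix (Fin n) (Fin n) Ω :=
  LinearMap.mulRight Ω P ∘ₗ LinearMap.mulLeft Ω Pᵀ

theorem cg_apply (P M : Matrix (Fin n) (Fin n) Ω) : cg P M = Pᵀ * M * P := rfl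

/-- a multiple of the transposition -/
def tp (n : ℕ) (ε : Ω) : Matrix (Fin n) (Fin n) Ω →ₗ[Ω] Matrix (Fin n) (Fin n) Ω :=
  ε • (Matrix.transposeLinearEquiv (Fin n) (Fin n) Ω Ω).toLinearMap

theorem tp_apply (ε : Ω) (M : Matrix (Fin n) (Fin n) Ω) : tp n ε M = ε • Mᵀ := rfl

theorem tp_tp {ε : Ω} (h : ε * ε = 1) (M : Matrix (Fin n) (Fin n) Ω) :
    tp n ε (tp n ε M) = M := by
  rw [tp_apply, tp_apply, transpose_smul, transpose_transpose, smul_smul, h, one_smul]

theorem F_mul (h2 : (2 : Ω) ≠ 0) {ε : Ω} (h : ε * ε = 1) (P Q : Matrix (Fin n) (Fin n) Ω) :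
    skd (tp n ε) (cg (P * Q)) = skd (tp n ε) (cg P) * skd (tp n ε) (cg Q) := by
  rw [mul_comm (skd _ _)]
  refine skd_comp h2.isUnit (tp_tp h) (fun x => ?_) fun x => ?_
  · simp only [cg_apply, tp_apply, transpose_mul, transpose_transpose, Matrix.mul_smul,
      Matrix.smul_mul, Matrix.mul_assoc]
  · simp only [cg_apply, transpose_mul, Matrix.mul_assoc]

theorem F_one (h2 : (2 : Ω) ≠ 0) {ε : Ω} (h : ε * ε = 1) :
    skd (tp n ε) (cg (1 : Matrix (Fin n) (Fin n) Ω)) = 1 :=
  skd_id h2.isUnit (tp_tp h) fun x => by simp [cg_apply]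

/-- a multiplicative function is trivial on transvections -/
theorem mul_tv (h2 : (2 : Ω) ≠ 0) (F : Matrix (Fin n) (Fin n) Ω → Ω)
    (hm : ∀ P Q, F (P * Q) = F P * F Q) (h1 : F 1 = 1) {i j : Fin n} (hij : i ≠ j) (c : Ω) :
    F (transvection i j c) = 1 := by
  have e1 : (diagonal fun k => if k = i then (2 : Ω) else 1) *
      (diagonal fun k => if k = i then (2 : Ω)⁻¹ else 1) = 1 := by
    rw [diagonal_mul_diagonal, ← diagonal_one]
    congr 1
    funext k
    split_ifs
    · exact mul_inv_cancel₀ h2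
    · exact one_mul _
  have e2 : (diagonal fun k => if k = i then (2 : Ω) else 1) * transvection i j c =
      transvection i j (c + c) * diagonal fun k => if k = i then (2 : Ω) else 1 := by
    ext a b
    rw [diagonal_mul, mul_diagonal]
    simp only [transvection, Matrix.add_apply, one_apply, single_apply]
    by_cases ha : a = i
    · subst ha
      by_cases hb : j = b
      · subst hb
        simp [hij, hij.symm, two_mul]
      · by_cases hc : a = b
        · subst hc; simp [hb]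
        · simp [hb, hc]
    · by_cases hc : a = b
      · subst hc; simp [ha, Ne.symm ha]
      · simp [hc, Ne.symm ha]
  have e3 := congrArg F e1
  rw [hm, h1] at e3
  have e4 := congrArg F e2
  rw [hm, hm, mul_comm, ← transvection_mul_transvection_same i j hij c c, hm] at e4
  have e5 := mul_right_cancel₀ (left_ne_zero_of_mul_eq_one e3) e4
  have e6 := hm (transvection i j c) (transvection i j (-c))
  rw [transvection_mul_transvection_same i j hij, add_neg_cancel, transvection_zero, h1] at e6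
  exact (mul_left_cancel₀ (left_ne_zero_of_mul_eq_one e6.symm) (e5.symm.trans (mul_one _).symm))

theorem F_tv (h2 : (2 : Ω) ≠ 0) {ε : Ω} (h : ε * ε = 1) (t : TransvectionStruct (Fin n) Ω) :
    skd (tp n ε) (cg t.toMatrix) = 1 :=
  mul_tv h2 (fun P => skd (tp n ε) (cg P)) (F_mul h2 h) (F_one h2 h) t.hij t.c

/-- entrywise multiplication -/
def hm (w : Fin n → Fin n → Ω) : Matrix (Fin n) (Fin n) Ω →ₗ[Ω] Matrix (Fin n) (Fin n) Ω :=
  (LinearMap.pi fun i => (LinearMap.pi fun j =>
    (LinearMap.mulLeft Ω (w i j)).comp (LinearMap.proj j)).comp (LinearMap.proj i) :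
      (Fin n → Fin n → Ω) →ₗ[Ω] (Fin n → Fin n → Ω))

theorem hm_apply (w : Fin n → Fin n → Ω) (M : Matrix (Fin n) (Fin n) Ω) (i j : Fin n) :
    hm w M i j = w i j * M i j := rfl

theorem det_hm (w : Fin n → Fin n → Ω) : LinearMap.det (hm w) = ∏ i, ∏ j, w i j := by
  refine (LinearMap.det_pi (M := Fin n → Ω) fun i => LinearMap.pi fun j =>
    (LinearMap.mulLeft Ω (w i j)).comp (LinearMap.proj j)).trans ?_
  refine Finset.prod_congr rfl fun i _ => (LinearMap.det_pi _).trans ?_
  refine Finset.prod_congr rfl fun j _ => ?_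
  rw [LinearMap.det_ring, LinearMap.mulLeft_apply, mul_one]

/-- symmetric part above the diagonal, skew part below -/
def sp (n : ℕ) (Ω : Type u) [Field Ω] : Matrix (Fin n) (Fin n) Ω →ₗ[Ω] Matrix (Fin n) (Fin n) Ω :=
  LinearMap.id + hm (fun i j => if i ≤ j then 1 else -1) ∘ₗ tp n 1

theorem sp_apply (M : Matrix (Fin n) (Fin n) Ω) (i j : Fin n) :
    sp n Ω M i j = M i j + (if i ≤ j then 1 else -1) * M j i := by
  change M i j + (if i ≤ j then 1 else -1) * (1 * M j i) = _
  rw [one_mul]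

theorem det_sp (h2 : (2 : Ω) ≠ 0) : LinearMap.det (sp n Ω) ≠ 0 := by
  refine (LinearMap.isUnit_det _ ((LinearMap.isUnit_iff_ker_eq_bot _).2
    (LinearMap.ker_eq_bot'.2 fun M hM => ?_))).ne_zero
  have key : ∀ i j, i ≤ j → M i j = 0 ∧ M j i = 0 := by
    intro i j hij
    have h1 : sp n Ω M i j = 0 := by rw [hM]; rfl
    have h3 : sp n Ω M j i = 0 := by rw [hM]; rfl
    rw [sp_apply, if_pos hij] at h1
    rw [sp_apply] at h3
    rcases hij.eq_or_lt with rfl | hlt
    · have : M i i = 0 := mul_left_cancel₀ h2 (by linear_combination h1)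
      exact ⟨this, this⟩
    · rw [if_neg hlt.not_ge] at h3
      exact ⟨mul_left_cancel₀ h2 (by linear_combination h1 - h3),
        mul_left_cancel₀ h2 (by linear_combination h1 + h3)⟩
  ext i j
  rcases le_total i j with h | h
  · exact (key i j h).1
  · exact (key j i h).2

theorem skm_diag (ε : Ω) (d : Fin n → Ω) (M : Matrix (Fin n) (Fin n) Ω) (i j : Fin n) :
    skm (tp n ε) (cg (diagonal d)) M i j =
      2⁻¹ * (M i j + ε * M j i + d i * (M i j - ε * M j i) * d j) := by
  rw [skm_apply, cg_apply, tp_apply, diagonal_transpose, Ring.inverse_eq_inv']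
  simp only [Matrix.smul_apply, Matrix.add_apply, mul_diagonal, diagonal_mul, Matrix.sub_apply,
    transpose_apply, smul_eq_mul]

theorem F_diag (h2 : (2 : Ω) ≠ 0) (ε : Ω) (d : Fin n → Ω) (w : Fin n → Fin n → Ω)
    (hw : ∀ i j, 2 * w i j = if i ≤ j then 1 + ε + d i * d j * (1 - ε)
      else 1 - ε + d i * d j * (1 + ε)) :
    skd (tp n ε) (cg (diagonal d)) = ∏ i, ∏ j, w i j := by
  have e : sp n Ω ∘ₗ skm (tp n ε) (cg (diagonal d)) = hm w ∘ₗ sp n Ω := by
    refine LinearMap.ext fun M => Matrix.ext fun i j => ?_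
    have h := hw i j
    rw [LinearMap.comp_apply, LinearMap.comp_apply, hm_apply, sp_apply, sp_apply, skm_diag,
      skm_diag]
    refine mul_left_cancel₀ h2 ?_
    have h3 := mul_inv_cancel₀ h2
    split_ifs at h ⊢
    · linear_combination (M i j + M j i) * (1 + ε + d i * d j * (1 - ε)) * h3 -
        (M i j + M j i) * h
    · linear_combination (M i j - M j i) * (1 - ε + d i * d j * (1 + ε)) * h3 -
        (M i j - M j i) * h
  have e2 := congrArg LinearMap.det e
  rw [LinearMap.det_comp, LinearMap.det_comp, det_hm, mul_comm] at e2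
  exact mul_right_cancel₀ (det_sp h2) e2

theorem prod_eq (d : Fin n → Ω) : ∏ i, d i = ∏ i, ∏ j, if i = j then d i else 1 :=
  Finset.prod_congr rfl fun i _ => by rw [Finset.prod_ite_eq, if_pos (Finset.mem_univ _)]

theorem prod_pow (d : Fin n → Ω) : (∏ i, d i) ^ n = ∏ i, ∏ _j : Fin n, d i := by
  rw [← Finset.prod_pow]
  exact Finset.prod_congr rfl fun i _ => by simp

theorem prod_split (d : Fin n → Ω) (p : Fin n → Fin n → Prop) [∀ i j, Decidable (p i j)] :
    (∏ i, ∏ j, if p i j then d i * d j else 1) =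
      ∏ i, ∏ j, (if p i j then d i else 1) * if p j i then d i else 1 := by
  simp only [Finset.prod_mul_distrib]
  rw [Finset.prod_comm (f := fun i j => if p j i then d i else 1), ← Finset.prod_mul_distrib]
  refine Finset.prod_congr rfl fun i _ => ?_
  rw [← Finset.prod_mul_distrib]
  refine Finset.prod_congr rfl fun j _ => ?_
  split_ifs
  · rfl
  · exact (one_mul _).symm

theorem prod_lt (d : Fin n → Ω) :
    (∏ i, ∏ j, if j < i then d i * d j else 1) * ∏ i, d i = (∏ i, d i) ^ n := by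
  rw [prod_split d fun i j => j < i, prod_pow, prod_eq d, ← Finset.prod_mul_distrib]
  refine Finset.prod_congr rfl fun i _ => ?_
  rw [← Finset.prod_mul_distrib]
  refine Finset.prod_congr rfl fun j _ => ?_
  rcases lt_trichotomy i j with h | h | h
  · simp [h, h.not_gt, h.ne]
  · simp [h]
  · simp [h, h.not_gt, h.ne']

theorem prod_le (d : Fin n → Ω) :
    (∏ i, ∏ j, if i ≤ j then d i * d j else 1) = (∏ i, d i) ^ (n + 1) := by
  rw [prod_split d fun i j => i ≤ j, pow_succ, prod_pow, prod_eq d, ← Finset.prod_mul_distrib]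
  refine Finset.prod_congr rfl fun i _ => ?_
  rw [← Finset.prod_mul_distrib]
  refine Finset.prod_congr rfl fun j _ => ?_
  rcases lt_trichotomy i j with h | h | h
  · simp [h.le, h.not_ge, h.ne]
  · simp [h]
  · simp [h.le, h.not_ge, h.ne']

theorem skew_diag (h2 : (2 : Ω) ≠ 0) (d : Fin n → Ω) :
    skd (tp n 1) (cg (diagonal d)) * ∏ i, d i = (∏ i, d i) ^ n := by
  rw [F_diag h2 1 d (fun i j => if j < i then d i * d j else 1) fun i j => ?_]
  · exact prod_lt d
  · rcases le_or_gt i j with h | h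
    · rw [if_pos h, if_neg h.not_gt]; ring
    · rw [if_pos h, if_neg h.not_ge]; ring

theorem sym_diag (h2 : (2 : Ω) ≠ 0) (d : Fin n → Ω) :
    skd (tp n (-1)) (cg (diagonal d)) = (∏ i, d i) ^ (n + 1) := by
  rw [F_diag h2 (-1) d (fun i j => if i ≤ j then d i * d j else 1) fun i j => ?_]
  · exact prod_le d
  · split_ifs <;> ring

theorem ind (F G : Matrix (Fin n) (Fin n) Ω → Ω) (hF : ∀ A B, F (A * B) = F A * F B)
    (hG : ∀ A B, G (A * B) = G A * G B) (hd : ∀ d, F (diagonal d) = G (diagonal d))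
    (ht : ∀ t : TransvectionStruct (Fin n) Ω, F t.toMatrix = G t.toMatrix)
    (P : Matrix (Fin n) (Fin n) Ω) (hP : P.det ≠ 0) : F P = G P :=
  diagonal_transvection_induction_of_det_ne_zero (fun P => F P = G P) P hP (fun d _ => hd d) ht
    fun A B _ _ hA hB => by rw [hF, hG, hA, hB]

theorem skew (h2 : (2 : Ω) ≠ 0) (P : Matrix (Fin n) (Fin n) Ω) (hP : P.det ≠ 0) :
    skd (tp n 1) (cg P) * P.det = P.det ^ n := by
  have a1 : ∀ A B : Matrix (Fin n) (Fin n) Ω, skd (tp n 1) (cg (A * B)) * (A * B).det =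
      skd (tp n 1) (cg A) * A.det * (skd (tp n 1) (cg B) * B.det) := fun A B => by
    rw [F_mul h2 (one_mul _), det_mul, mul_mul_mul_comm]
  have a2 : ∀ A B : Matrix (Fin n) (Fin n) Ω, (A * B).det ^ n = A.det ^ n * B.det ^ n :=
    fun A B => by rw [det_mul, mul_pow]
  have a3 : ∀ d : Fin n → Ω, skd (tp n 1) (cg (diagonal d)) * (diagonal d).det =
      (diagonal d).det ^ n := fun d => by rw [det_diagonal]; exact skew_diag h2 d
  have a4 : ∀ t : TransvectionStruct (Fin n) Ω, skd (tp n 1) (cg t.toMatrix) * t.toMatrix.det =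
      t.toMatrix.det ^ n := fun t => by rw [t.det, one_pow, mul_one, F_tv h2 (one_mul _)]
  have h := ind (fun P : Matrix (Fin n) (Fin n) Ω => skd (tp n 1) (cg P) * P.det)
    (fun P => P.det ^ n) a1 a2 a3 a4 P hP
  exact h

theorem sym (h2 : (2 : Ω) ≠ 0) (P : Matrix (Fin n) (Fin n) Ω) (hP : P.det ≠ 0) :
    skd (tp n (-1)) (cg P) = P.det ^ (n + 1) := by
  have a0 : (-1 : Ω) * -1 = 1 := by ring
  have a2 : ∀ A B : Matrix (Fin n) (Fin n) Ω, (A * B).det ^ (n + 1) =
      A.det ^ (n + 1) * B.det ^ (n + 1) := fun A B => by rw [det_mul, mul_pow]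
  have a3 : ∀ d : Fin n → Ω, skd (tp n (-1)) (cg (diagonal d)) =
      (diagonal d).det ^ (n + 1) := fun d => by rw [det_diagonal]; exact sym_diag h2 d
  have a4 : ∀ t : TransvectionStruct (Fin n) Ω, skd (tp n (-1)) (cg t.toMatrix) =
      t.toMatrix.det ^ (n + 1) := fun t => by rw [t.det, one_pow, F_tv h2 a0]
  have h := ind (fun P : Matrix (Fin n) (Fin n) Ω => skd (tp n (-1)) (cg P))
    (fun P => P.det ^ (n + 1)) (F_mul h2 a0) a2 a3 a4 P hP
  exact h

end DetCP

open DetCP in
theorem pDetC : S_DetC.{u} := by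
  intro Ω _ n P ι φ h2 hP hι hφ
  have b0 : φ = cg P := LinearMap.ext hφ
  have b2 : -ι = tp n (-1) := LinearMap.ext fun M => by
    rw [LinearMap.neg_apply, hι, tp_apply, neg_one_smul]
  have b1 : ι = tp n 1 := LinearMap.ext fun M => by rw [hι, tp_apply, one_smul]
  rw [b0, b2, b1]
  exact ⟨skew h2 P hP, sym h2 P hP⟩

end Pool.Agent.P.MP_46a8f8_ag.GU
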