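import Pool.Agent.P.MP_46a8f8_ag.GU.Ad
import Pool.Agent.P.MP_46a8f8_ag.GU.DomL

/-!
The property that domains stay domains passes to the polynomial ring and to localisations.
-/

namespace Pool.Agent.P.MP_46a8f8_ag.GU

open TensorProduct Function Polynomial

universe u

theorem pDm : S_Dm.{u} := by
  intro R O _ _ _ h
  refine ⟨fun S _ _ _ _ => ?_, fun C _ _ _ _ M _ hM S _ _ _ _ => ?_⟩
  · have : IsDomain (O ⊗[R] S) := h S
    have : IsDomain ((O ⊗[R] S) ⊗[O] O[X]) :=
      (polyEquivTensor O (O ⊗[R] S)).symm.toMulEquiv.isDomain _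
    have : IsDomain (O[X] ⊗[O] (O ⊗[R] S)) :=
      (Algebra.TensorProduct.comm O O[X] (O ⊗[R] S)).toMulEquiv.isDomain _
    exact (Algebra.TensorProduct.cancelBaseChange R O O O[X] S).symm.toMulEquiv.isDomain _
  · have : IsDomain (O ⊗[R] S) := h S
    have : IsDomain (S ⊗[R] O) := (Algebra.TensorProduct.comm R S O).toMulEquiv.isDomain _
    exact DomLP.loc_dom R S O C M hM

end Pool.Agent.P.MP_46a8f8_ag.GU
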