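import Pool.Agent.P.MP_46a8f8_ag.GU.Sp

/-!
Descent of spinor norms from a polynomial ring, finite residue field.
-/

namespace Pool.Agent.P.MP_46a8f8_ag.GU

open IsLocalRing Polynomial

universe u

namespace DscP

/-- a finite field has irreducible polynomials of every positive degree -/
theorem exists_irr (k : Type u) [Field k] [Finite k] (l : ℕ) (hl : l ≠ 0) :
    ∃ f : k[X], f.Monic ∧ Irreducible f ∧ f.natDegree = l := by
  obtain ⟨p, hp⟩ := CharP.exists k
  have : Fact p.Prime := ⟨CharP.char_is_prime k p⟩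
  have : NeZero l := ⟨hl⟩
  obtain ⟨α, hα⟩ := Field.exists_primitive_element_of_finite_top k (FiniteField.Extension k p l)
  have hi : IsIntegral k α := IsIntegral.of_finite k α
  refine ⟨minpoly k α, minpoly.monic hi, minpoly.irreducible hi, ?_⟩
  rw [(Field.primitive_element_iff_minpoly_natDegree_eq k α).1 hα, FiniteField.finrank_extension]

variable {R : Type u} [CommRing R] [IsLocalRing R]

theorem mem_iff (w : R[X]) :
    w ∈ (maximalIdeal R).map (C : R →+* R[X]) ↔ w.map (residue R) = 0 := by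
  rw [← ker_residue, ← Polynomial.ker_mapRingHom, RingHom.mem_ker, coe_mapRingHom]

/-- a polynomial which is coprime to `f` over the residue field is a unit modulo `f` -/
theorem isUnit_mk {f z : R[X]} (hf : f.Monic)
    (h : IsCoprime (f.map (residue R)) (z.map (residue R))) : IsUnit (AdjoinRoot.mk f z) := by
  obtain ⟨a, b, hab⟩ := h
  obtain ⟨A, rfl⟩ := map_surjective (residue R) residue_surjective a
  obtain ⟨B, rfl⟩ := map_surjective (residue R) residue_surjective b
  have hw : A * f + B * z - 1 ∈ (maximalIdeal R).map (C : R →+* R[X]) := by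
    rw [mem_iff]
    simp only [Polynomial.map_sub, Polynomial.map_add, Polynomial.map_mul, Polynomial.map_one, hab,
      sub_self]
  have := hf.finite_adjoinRoot
  refine isUnit_of_max fun N hN hz => ?_
  have h1 : (N.comap (algebraMap R (AdjoinRoot f))).IsMaximal :=
    Ideal.isMaximal_comap_of_isIntegral_of_isMaximal _
  have h2 : (maximalIdeal R).map (C : R →+* R[X]) ≤ N.comap (AdjoinRoot.mk f) := by
    rw [Ideal.map_le_iff_le_comap, ← eq_maximalIdeal h1]
    exact fun r hr => hr
  have h3 := Ideal.mem_comap.1 (h2 hw)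
  simp only [map_sub, map_add, map_mul, map_one, AdjoinRoot.mk_self, mul_zero, zero_add] at h3
  have h4 := N.sub_mem (N.mul_mem_left (AdjoinRoot.mk f B) hz) h3
  rw [sub_sub_cancel] at h4
  exact hN.ne_top ((Ideal.eq_top_iff_one N).2 h4)

end DscP

theorem pDsc (h1 : S_NPo.{u}) : S_Dsc.{u} := by
  intro R _ _ _ n c l u z hc hu hz e
  rw [DscP.mem_iff] at hz
  obtain ⟨q, hq, hp⟩ := Nat.exists_infinite_primes ((z.map (residue R)).natDegree + 3)
  obtain ⟨g, hg, hi, hd⟩ := DscP.exists_irr (ResidueField R) q hp.ne_zero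
  obtain ⟨f, rfl, hn, hf⟩ := lifts_and_natDegree_eq_and_monic
    (f := residue R) ((mem_lifts g).2 (map_surjective _ residue_surjective g)) hg
  have hfd : f.natDegree = q := hn.trans hd
  have ho : Odd q := hp.odd_of_ne_two (by omega)
  have hz1 : IsUnit (AdjoinRoot.mk f z) := by
    refine DscP.isUnit_mk hf (hi.coprime_iff_not_dvd.2 fun hdv => ?_)
    have := natDegree_le_of_dvd hdv hz
    omega
  have hc' : Ok2 (algebraMap R (AdjoinRoot f) ∘ c) := hc.map _
  have e1 : vp (algebraMap R (AdjoinRoot f) ∘ c) (l.map (AdjoinRoot.mk f ∘ ·)) =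
      AdjoinRoot.mk f z ^ 2 * algebraMap R (AdjoinRoot f) u := by
    have := congrArg (AdjoinRoot.mk f) e
    rw [map_vp, map_mul, map_pow, mul_comm] at this
    exact this
  have s1 : Sn (algebraMap R (AdjoinRoot f) ∘ c) (algebraMap R (AdjoinRoot f) u) :=
    (Sn.sq hc' hz1).of_eq hc' (Sn.of_vp (e1 ▸ (hz1.pow 2).mul (hu.map _))) e1.symm
  have s2 := h1 R n c f hc hf (hfd ▸ hp) (hfd ▸ ho) hi _ s1
  rw [Algebra.norm_algebraMap_of_basis (AdjoinRoot.powerBasis' hf).basis, Fintype.card_fin,
    AdjoinRoot.powerBasis'_dim, hfd] at s2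
  exact s2.of_odd hc ho

end Pool.Agent.P.MP_46a8f8_ag.GU
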