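import Pool.Agent.P.MP_46a8f8_ag.GU.Base2

/-!
Duality for the quotient by a linked pair of elements.
-/

namespace Pool.Agent.P.MP_46a8f8_ag.GU

open Function

universe u

namespace DualP

variable {R C : Type u} [CommRing R] [CommRing C] [Algebra R C] [Module.Free R C]
  {τ : C →ₗ[R] R} {F G : R}

theorem mem_of_tr (hτ : PerfTr τ) {y : C} (h : ∀ c, τ (y * c) ∈ Ideal.span {F, G}) :
    ∃ a b, y = algebraMap R C F * a + algebraMap R C G * b := by
  let B := Module.Free.chooseBasis R C
  have h1 : ∀ i, ∃ α β : R, α * F + β * G = τ (y * B i) := fun i =>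
    Ideal.mem_span_pair.1 (h (B i))
  choose α β hαβ using h1
  obtain ⟨a, ha⟩ := hτ.2 (B.constr R α)
  obtain ⟨b, hb⟩ := hτ.2 (B.constr R β)
  refine ⟨a, b, hτ.1 (B.ext fun i => ?_)⟩
  have h2 : τ (a * B i) = α i := (LinearMap.congr_fun ha (B i)).trans (B.constr_basis R α i)
  have h3 : τ (b * B i) = β i := (LinearMap.congr_fun hb (B i)).trans (B.constr_basis R β i)
  change τ (y * B i) = τ ((algebraMap R C F * a + algebraMap R C G * b) * B i)
  rw [add_mul, mul_assoc, mul_assoc, ← Algebra.smul_def, ← Algebra.smul_def, map_add, map_smul,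
    map_smul, h2, h3, ← hαβ, smul_eq_mul, smul_eq_mul, mul_comm F, mul_comm G]

omit [Module.Free R C] in
theorem tr_mem (a b : C) :
    τ (algebraMap R C F * a + algebraMap R C G * b) ∈ Ideal.span {F, G} := by
  rw [← Algebra.smul_def, ← Algebra.smul_def, map_add, map_smul, map_smul]
  exact Ideal.mem_span_pair.2 ⟨τ a, τ b, by rw [smul_eq_mul, smul_eq_mul, mul_comm F, mul_comm G]⟩

end DualP

open DualP

theorem pDual : S_Dual.{u} := by
  intro R C S _ _ _ _ _ _ _ _ _ _ τ F G g g' t w u hτ hRS hs hker hG hF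
  have rG : ∀ c : C, g * g' * c = 0 → c = 0 := fun c hc => by
    rw [← hG, ← Algebra.smul_def] at hc
    exact (smul_eq_zero.1 hc).resolve_left hRS.2.1
  have rs1 : ∀ x y : C, g * g' * x = (w * t + u * g) * y → ∃ e, x = (w * t + u * g) * e :=
    fun x y h => by
      rw [← hG, ← hF, ← Algebra.smul_def, ← Algebra.smul_def] at h
      simpa only [Algebra.smul_def, hF] using hRS.free h
  have rg : ∀ x y : C, (w * t + u * g) * x = g * y → ∃ e, x = g * e := fun x y h => by
    have h1 : F • (g' * x) = G • y := by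
      rw [Algebra.smul_def, Algebra.smul_def, hF, hG]
      linear_combination g' * h
    obtain ⟨e, he⟩ := hRS.symm.free h1
    rw [Algebra.smul_def, hG] at he
    exact ⟨e, sub_eq_zero.1 (rG _ (by linear_combination g * he))⟩
  let π : C →ₗ[R] S := (IsScalarTower.toAlgHom R C S).toLinearMap
  let q : R →ₗ[R] BQ F G := (Ideal.span {F, G}).mkQ
  have hq : ∀ r, q r = 0 ↔ r ∈ Ideal.span {F, G} := fun r => Ideal.Quotient.eq_zero_iff_mem
  let φ : C →ₗ[R] BQ F G := q ∘ₗ τ ∘ₗ LinearMap.mul R C (w * g')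
  have hφ : LinearMap.ker π ≤ LinearMap.ker φ := fun c hc => by
    obtain ⟨a, b, rfl⟩ := Ideal.mem_span_pair.1 ((hker c).1 hc)
    refine (hq _).2 ?_
    change τ (w * g' * (a * g + b * t)) ∈ _
    have h1 := tr_mem (τ := τ) (F := F) (G := G) (g' * b) (w * a - u * b)
    rwa [hF, hG, show (w * t + u * g) * (g' * b) + g * g' * (w * a - u * b) =
      w * g' * (a * g + b * t) by ring] at h1
  let τS : S →ₗ[R] BQ F G :=
    (LinearMap.ker π).liftQ φ hφ ∘ₗ (π.quotKerEquivOfSurjective hs).symm.toLinearMap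
  have hτS : ∀ c, τS (algebraMap C S c) = q (τ (w * g' * c)) := fun c => by
    have h1 : (π.quotKerEquivOfSurjective hs).symm (algebraMap C S c) =
        Submodule.Quotient.mk c := (LinearEquiv.symm_apply_eq _).2 rfl
    change (LinearMap.ker π).liftQ φ hφ ((π.quotKerEquivOfSurjective hs).symm
      (algebraMap C S c)) = _
    rw [h1]
    rfl
  refine ⟨τS, hτS, (injective_iff_map_eq_zero _).2 fun s h0 => ?_, fun ψ => ?_⟩
  · obtain ⟨c, rfl⟩ := hs s
    obtain ⟨a, b, hab⟩ := mem_of_tr (F := F) (G := G) (y := w * g' * c) hτ fun d => by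
      have h1 : τS (algebraMap C S c * algebraMap C S d) = 0 :=
        LinearMap.congr_fun h0 (algebraMap C S d)
      rwa [← map_mul, hτS, hq, ← mul_assoc] at h1
    rw [hF, hG] at hab
    obtain ⟨e, he⟩ := rs1 (w * c - g * b) (g * a) (by linear_combination g * hab)
    obtain ⟨e', he'⟩ := rg (c - t * e) (t * (b + u * e) + u * (c - t * e))
      (by linear_combination t * he)
    exact (hker c).2 (Ideal.mem_span_pair.2 ⟨e', e, by linear_combination -he'⟩)
  · obtain ⟨l, hl⟩ := Module.projective_lifting_property q (ψ ∘ₗ π) (Submodule.mkQ_surjective _)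
    obtain ⟨c0, hc0⟩ := hτ.2 l
    have h1 : ∀ c, q (τ (c0 * c)) = ψ (algebraMap C S c) := fun c =>
      (congrArg q (LinearMap.congr_fun hc0 c)).trans (LinearMap.congr_fun hl c)
    have h2 : ∀ x ∈ Ideal.span {g, t}, ∀ d, τ (c0 * x * d) ∈ Ideal.span {F, G} := fun x hx d => by
      rw [← hq, mul_assoc, h1, (hker _).2 (Ideal.mul_mem_right d _ hx), map_zero]
    obtain ⟨a, b, hab⟩ := mem_of_tr hτ (h2 g (Ideal.subset_span (by simp)))
    obtain ⟨a', b', hab'⟩ := mem_of_tr hτ (h2 t (Ideal.subset_span (by simp)))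
    rw [hF, hG] at hab hab'
    obtain ⟨a1, rfl⟩ := rg a (c0 - g' * b) (by linear_combination -hab)
    have h3 : c0 = (w * t + u * g) * a1 + g' * b :=
      sub_eq_zero.1 (rG _ (by linear_combination g' * hab))
    obtain ⟨w0, hw0⟩ := rs1 (b * t - g * b') (g * (a' - a1 * t))
      (by linear_combination g * hab' - g * t * h3)
    obtain ⟨w1, hw1⟩ := rg (b - w * w0) (w * (b' + u * w0) + u * (b - w * w0))
      (by linear_combination w * hw0)
    refine ⟨algebraMap C S w0, LinearMap.ext fun s => ?_⟩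
    obtain ⟨c, rfl⟩ := hs s
    change τS (algebraMap C S w0 * algebraMap C S c) = _
    rw [← map_mul, hτS, ← h1, eq_comm, ← sub_eq_zero, ← map_sub, ← map_sub, hq]
    have h4 := tr_mem (τ := τ) (F := F) (G := G) (a1 * c) (w1 * c)
    rwa [hF, hG, show (w * t + u * g) * (a1 * c) + g * g' * (w1 * c) =
      c0 * c - w * g' * (w0 * c) by linear_combination (-c) * h3 - g' * c * hw1] at h4

end Pool.Agent.P.MP_46a8f8_ag.GU
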