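import Pool.Agent.P.MP_46a8f8_ag.GU.Ad
import Pool.Agent.P.MP_46a8f8_ag.GU.Sep
import Pool.Agent.P.MP_46a8f8_ag.Fac

/-!
Etale neighbourhoods through which a section of a smooth algebra lifts.
-/

namespace Pool.Agent.P.MP_46a8f8_ag.GU

open TensorProduct Function Polynomial

universe u

namespace ENP

section mod

variable {Q : Type u} [CommRing Q]

/-- an endomorphism congruent to the identity is invertible up to a scalar congruent to one -/
theorem inv_mod {M : Type u} [AddCommGroup M] [Module Q M] [Module.Finite Q M] (J : Ideal Q)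
    (w : Module.End Q M) (h : ∀ x, x - w x ∈ J • (⊤ : Submodule Q M)) :
    ∃ g : Q, g - 1 ∈ J ∧ ∃ v : Module.End Q M, (∀ x, v (w x) = g • x) ∧ ∀ x, w (v x) = g • x := by
  obtain ⟨p, hm, -, hc, h0⟩ :=
    LinearMap.exists_monic_and_natDegree_eq_and_coeff_mem_pow_and_aeval_eq_zero Q (1 - w) J (by
      rintro - ⟨x, rfl⟩
      exact h x)
  obtain ⟨q, hq⟩ := X_sub_C_dvd_sub_C_eval (p := p) (a := 1)
  refine ⟨p.eval 1, ?_, aeval (1 - w) q, fun x => ?_, fun x => ?_⟩
  · rw [congrArg (Polynomial.eval 1) hm.as_sum]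
    simp only [eval_add, eval_pow, eval_X, one_pow, eval_finsetSum, eval_mul, eval_C, mul_one,
      add_sub_cancel_left]
    refine J.sum_mem fun k hk => Ideal.pow_le_self ?_ (hc k)
    have := Finset.mem_range.1 hk
    omega
  · have h1 := congrArg (fun r => aeval (1 - w) r x) (hq.trans (mul_comm _ _))
    simpa [h0] using h1.symm
  · have h1 := congrArg (fun r => aeval (1 - w) r x) hq
    simpa [h0] using h1.symm

variable {D : Type u} [CommRing D] [Algebra Q D] {M : Type u} [AddCommGroup M] [Module Q M]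

theorem mem_smul (hs : Surjective (algebraMap Q D)) (x : M) (h : (1 : D) ⊗ₜ[Q] x = 0) :
    x ∈ RingHom.ker (algebraMap Q D) • (⊤ : Submodule Q M) := by
  have h1 : Function.Exact (RingHom.ker (algebraMap Q D)).subtype (Algebra.linearMap Q D) :=
    fun a => ⟨fun ha => ⟨⟨a, ha⟩, rfl⟩, by rintro ⟨b, rfl⟩; exact b.2⟩
  obtain ⟨z, hz⟩ := (rTensor_exact M h1 hs ((1 : Q) ⊗ₜ[Q] x)).1 (by simpa using h)
  have h2 : ∀ z, TensorProduct.lid Q M
      (LinearMap.rTensor M (RingHom.ker (algebraMap Q D)).subtype z) ∈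
      RingHom.ker (algebraMap Q D) • (⊤ : Submodule Q M) := fun z => by
    induction z with
    | zero => simp
    | tmul a m => exact Submodule.smul_mem_smul a.2 trivial
    | add a b ha hb => rw [map_add, map_add]; exact add_mem ha hb
  simpa [hz] using h2 z

theorem inv_lin [Module.Finite Q M] [Module.Projective Q M] (hs : Surjective (algebraMap Q D))
    {κ : Type u} [Finite κ] (b : Module.Basis κ D (D ⊗[Q] M)) (m : κ → M)
    (hb : ∀ i, b i = 1 ⊗ₜ m i) : ∃ g : Q, algebraMap Q D g = 1 ∧ ∃ v₁ v₂ : M →ₗ[Q] (κ →₀ Q),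
      v₁ ∘ₗ Finsupp.linearCombination Q m = g • LinearMap.id ∧
      Finsupp.linearCombination Q m ∘ₗ v₂ = g • LinearMap.id := by
  set θ := Finsupp.linearCombination Q m with hθ
  let ρ : (κ →₀ Q) →ₗ[Q] (κ →₀ D) := Finsupp.mapRange.linearMap (Algebra.linearMap Q D)
  obtain ⟨ψ, hψ⟩ := Module.projective_lifting_property ρ
    ((b.repr.toLinearMap.restrictScalars Q) ∘ₗ TensorProduct.mk Q D M 1)
    (Finsupp.mapRange_surjective _ (map_zero _) hs)
  have h1 : ∀ x, ρ (ψ x) = b.repr (1 ⊗ₜ x) := fun x => LinearMap.congr_fun hψ x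
  have h2 : ∀ a, b.repr (1 ⊗ₜ θ a) = ρ a := fun a => by
    have : (b.repr.toLinearMap.restrictScalars Q) ∘ₗ TensorProduct.mk Q D M 1 ∘ₗ θ = ρ := by
      refine Finsupp.lhom_ext' fun i => LinearMap.ext_ring ?_
      simp [hθ, ρ, ← hb]
    exact LinearMap.congr_fun this a
  obtain ⟨g₁, e₁, v₁, a₁, -⟩ := inv_mod (RingHom.ker (algebraMap Q D)) (ψ ∘ₗ θ) fun a => by
    have h3 : ρ (a - ψ (θ a)) = 0 := by rw [map_sub, h1, h2, sub_self]
    change a - ψ (θ a) ∈ _
    generalize a - ψ (θ a) = c at h3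
    rw [← c.sum_single, Finsupp.sum]
    refine Submodule.sum_mem _ fun i _ => ?_
    rw [← mul_one (c i), ← smul_eq_mul, ← Finsupp.smul_single]
    exact Submodule.smul_mem_smul (DFunLike.congr_fun h3 i) trivial
  obtain ⟨g₂, e₂, v₂, -, a₂⟩ := inv_mod (RingHom.ker (algebraMap Q D)) (θ ∘ₗ ψ) fun x =>
    mem_smul hs _ (b.repr.injective (by
      rw [tmul_sub, map_sub, LinearMap.comp_apply, h2, h1, sub_self, map_zero]))
  rw [RingHom.mem_ker, map_sub, map_one, sub_eq_zero] at e₁ e₂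
  refine ⟨g₁ * g₂, by rw [map_mul, e₁, e₂, one_mul], g₂ • (v₁ ∘ₗ ψ), g₁ • (ψ ∘ₗ v₂),
    LinearMap.ext fun a => ?_, LinearMap.ext fun x => ?_⟩
  · change g₂ • v₁ ((ψ ∘ₗ θ) a) = (g₁ * g₂) • a
    rw [a₁, smul_smul, mul_comm]
  · change θ (g₁ • ψ (v₂ x)) = (g₁ * g₂) • x
    rw [map_smul, mul_smul, ← a₂]
    rfl

theorem bij_loc {F F' M' : Type u} [AddCommGroup F] [Module Q F] [AddCommGroup F'] [Module Q F']
    [AddCommGroup M'] [Module Q M'] (g : Q) (l₁ : F →ₗ[Q] F') (l₂ : M →ₗ[Q] M')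
    [IsLocalizedModule (Submonoid.powers g) l₁] [IsLocalizedModule (Submonoid.powers g) l₂]
    (θ : F →ₗ[Q] M) (v₁ v₂ : M →ₗ[Q] F) (h₁ : v₁ ∘ₗ θ = g • LinearMap.id)
    (h₂ : θ ∘ₗ v₂ = g • LinearMap.id) :
    Bijective (IsLocalizedModule.map (Submonoid.powers g) l₁ l₂ θ) := by
  have a₁ := IsLocalizedModule.map_comp' (Submonoid.powers g) l₁ l₂ l₁ θ v₁
  have a₂ := IsLocalizedModule.map_comp' (Submonoid.powers g) l₂ l₁ l₂ v₂ θ
  rw [h₁, map_smul, IsLocalizedModule.map_id] at a₁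
  rw [h₂, map_smul, IsLocalizedModule.map_id] at a₂
  have u₁ := (Module.End.isUnit_iff _).1
    (IsLocalizedModule.map_units l₁ ⟨g, Submonoid.mem_powers g⟩)
  have u₂ := (Module.End.isUnit_iff _).1
    (IsLocalizedModule.map_units l₂ ⟨g, Submonoid.mem_powers g⟩)
  refine ⟨Injective.of_comp (f := IsLocalizedModule.map (Submonoid.powers g) l₂ l₁ v₁) ?_,
    Surjective.of_comp (g := IsLocalizedModule.map (Submonoid.powers g) l₂ l₁ v₂) ?_⟩
  · rw [← LinearMap.coe_comp, ← a₁]
    exact u₁.1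
  · rw [← LinearMap.coe_comp, ← a₂]
    exact u₂.2

end mod

section std

variable {T D Q : Type u} [CommRing T] [CommRing D] [Algebra T D] [CommRing Q] [Algebra T Q]
  [Algebra Q D] [IsScalarTower T Q D]

theorem exists_D (hs : Surjective (algebraMap T D)) (z : D ⊗[Q] Ω[Q⁄T]) :
    ∃ f : Q, algebraMap Q D f = 0 ∧ z = 1 ⊗ₜ KaehlerDifferential.D T Q f := by
  have hz : ∀ (j : Q) (ω : Ω[Q⁄T]), algebraMap Q D j = 0 → (1 : D) ⊗ₜ[Q] (j • ω) = 0 :=
    fun j ω hj => by
      rw [← smul_tmul, Algebra.smul_def, hj, zero_mul, zero_tmul]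
  have h1 : ∀ ω : Ω[Q⁄T], ∃ f : Q, algebraMap Q D f = 0 ∧
      (1 : D) ⊗ₜ[Q] ω = 1 ⊗ₜ KaehlerDifferential.D T Q f := fun ω => by
    have hω : ω ∈ Submodule.span Q (Set.range (KaehlerDifferential.D T Q)) := by
      rw [KaehlerDifferential.span_range_derivation]
      trivial
    induction hω using Submodule.span_induction with
    | mem x hx =>
      obtain ⟨f, rfl⟩ := hx
      obtain ⟨t, ht⟩ := hs (algebraMap Q D f)
      exact ⟨f - algebraMap T Q t, by
        rw [map_sub, ← IsScalarTower.algebraMap_apply, ht, sub_self], by simp⟩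
    | zero => exact ⟨0, map_zero _, by simp⟩
    | add x y _ _ hx hy =>
      obtain ⟨f, a, b⟩ := hx
      obtain ⟨f', a', b'⟩ := hy
      exact ⟨f + f', by rw [map_add, a, a', add_zero], by rw [map_add, tmul_add, tmul_add, b, b']⟩
    | smul c x _ hx =>
      obtain ⟨f, a, b⟩ := hx
      refine ⟨c * f, by rw [map_mul, a, mul_zero], ?_⟩
      rw [Derivation.leibniz, tmul_add, hz f _ a, add_zero, tmul_smul, tmul_smul, b]
  obtain ⟨ω, rfl⟩ := TensorProduct.mk_surjective Q Ω[Q⁄T] D (fun d => by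
    obtain ⟨t, rfl⟩ := hs d
    exact ⟨algebraMap T Q t, (IsScalarTower.algebraMap_apply T Q D t).symm⟩) z
  exact h1 ω

theorem exists_std [IsNoetherianRing T] [IsDomain D] [Finite (MaximalSpectrum D)]
    [Algebra.FiniteType T Q] [Algebra.FormallySmooth T Q] (hs : Surjective (algebraMap T D)) :
    ∃ g : Q, algebraMap Q D g = 1 ∧ Algebra.IsStandardSmooth T (Localization.Away g) := by
  have : Algebra.FinitePresentation T Q := Algebra.FinitePresentation.of_finiteType.1 ‹_›
  have : Algebra.Smooth T Q := {}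
  have : Module.Free D (D ⊗[Q] Ω[Q⁄T]) := pFreeS D _
  let b := Module.Free.chooseBasis D (D ⊗[Q] Ω[Q⁄T])
  choose f _ hf using fun i => exists_D hs (b i)
  obtain ⟨g, hg, v₁, v₂, h₁, h₂⟩ := inv_lin (fun d => by
    obtain ⟨t, rfl⟩ := hs d
    exact ⟨algebraMap T Q t, (IsScalarTower.algebraMap_apply T Q D t).symm⟩) b _ hf
  let l₁ : (_ →₀ Q) →ₗ[Q]
      (Module.Free.ChooseBasisIndex D (D ⊗[Q] Ω[Q⁄T]) →₀ Localization.Away g) :=
    Finsupp.mapRange.linearMap (Algebra.linearMap Q _)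
  let l₂ : Ω[Q⁄T] →ₗ[Q] Ω[Localization.Away g⁄T] :=
    KaehlerDifferential.map T T Q (Localization.Away g)
  have h := bij_loc g l₁ l₂ _ v₁ v₂ h₁ h₂
  let e := IsLocalizedModule.mapExtendScalars (Submonoid.powers g) l₁ l₂ (Localization.Away g)
    (Finsupp.linearCombination Q fun i => KaehlerDifferential.D T Q (f i))
  have : Algebra.FinitePresentation T (Localization.Away g) :=
    have := IsLocalization.Away.finitePresentation g (S := Localization.Away g)
    Algebra.FinitePresentation.trans T Q _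
  refine ⟨g, hg, .of_basis_kaehlerDifferential (.ofRepr (LinearEquiv.ofBijective e h).symm) ?_⟩
  rintro - ⟨i, rfl⟩
  refine ⟨algebraMap Q _ (f i), Eq.symm ?_⟩
  have e1 : (Finsupp.single i 1 : _ →₀ Localization.Away g) = l₁ (Finsupp.single i 1) := by
    simp [l₁]
  change IsLocalizedModule.map (Submonoid.powers g) l₁ l₂
    (Finsupp.linearCombination Q fun i => KaehlerDifferential.D T Q (f i)) (Finsupp.single i 1) = _
  rw [e1, IsLocalizedModule.map_apply]
  simp [l₂]

end std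

/-- the fibre of an etale map over a rational point -/
theorem fibre {T P S D : Type u} [CommRing T] [CommRing P] [CommRing S] [CommRing D]
    [Algebra P T] [Algebra P S] [Algebra T S] [Algebra T D] [Algebra.Etale P S] (s : S →ₐ[T] D)
    (hc : ∀ t : T, ∃ p : P, algebraMap P T p = t ∧ algebraMap P S p = algebraMap T S t)
    (h : ∀ p, s (algebraMap P S p) = algebraMap T D (algebraMap P T p)) :
    ∃ (T₂ : Type u) (_ : CommRing T₂) (_ : Algebra T T₂) (_ : S →ₐ[T] T₂) (_ : T₂ →ₐ[T] D),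
      Algebra.Etale T T₂ := by
  let _ : Algebra P D := ((algebraMap T D).comp (algebraMap P T)).toAlgebra
  have : IsScalarTower P T D := IsScalarTower.of_algebraMap_eq fun _ => rfl
  refine ⟨T ⊗[P] S, inferInstance, inferInstance,
    ⟨(Algebra.TensorProduct.includeRight : S →ₐ[P] T ⊗[P] S), fun t => ?_⟩,
    Algebra.TensorProduct.lift (Algebra.ofId T D) ⟨(s : S →+* D), h⟩ fun _ _ => Commute.all _ _,
    inferInstance⟩
  obtain ⟨p, rfl, hp⟩ := hc t
  rw [← hp]
  exact (Algebra.TensorProduct.includeRight (R := P) (A := T) (B := S)).commutes p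

theorem exists_etale {T S D : Type u} [CommRing T] [CommRing S] [CommRing D] [Algebra T S]
    [Algebra T D] [h : Algebra.IsStandardSmooth T S] (s : S →ₐ[T] D)
    (hs : Surjective (algebraMap T D)) :
    ∃ (T₂ : Type u) (_ : CommRing T₂) (_ : Algebra T T₂) (_ : S →ₐ[T] T₂) (_ : T₂ →ₐ[T] D),
      Algebra.Etale T T₂ := by
  obtain ⟨_, _, _, _, ⟨P⟩⟩ := h
  have := P.isStandardSmoothOfRelativeDimension rfl
  obtain ⟨φ, hφ⟩ :=
    Algebra.IsStandardSmoothOfRelativeDimension.exists_etale_mvPolynomial P.dimension T S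
  choose t ht using fun i => hs (s (φ (MvPolynomial.X i)))
  let _ : Algebra (MvPolynomial (Fin P.dimension) T) S := φ.toRingHom.toAlgebra
  let _ : Algebra (MvPolynomial (Fin P.dimension) T) T :=
    (MvPolynomial.aeval t : MvPolynomial (Fin P.dimension) T →ₐ[T] T).toRingHom.toAlgebra
  have : Algebra.Etale (MvPolynomial (Fin P.dimension) T) S := hφ
  refine fibre (P := MvPolynomial (Fin P.dimension) T) s
    (fun r => ⟨MvPolynomial.C r, MvPolynomial.aeval_C t r, φ.commutes r⟩) fun p => ?_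
  have e : s.comp φ = (Algebra.ofId T D).comp (MvPolynomial.aeval t) :=
    MvPolynomial.algHom_ext fun i => by simp [← ht, Algebra.ofId_apply]
  exact AlgHom.congr_fun e p

end ENP

open ENP in
theorem pEN : S_EN.{u} := by
  intro T D Q _ _ _ _ _ _ _ _ _ _ y s ⟨hs, hy⟩
  let _ : Algebra Q D := s.toRingHom.toAlgebra
  have : IsScalarTower T Q D := IsScalarTower.of_algebraMap_eq fun t => (s.commutes t).symm
  obtain ⟨g, hg, hst⟩ := exists_std (T := T) (D := D) (Q := Q) hs
  have hg' : IsUnit (s g) := by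
    have : s g = 1 := hg
    rw [this]
    exact isUnit_one
  obtain ⟨T₂, _, _, ι, σ, _⟩ := exists_etale (S := Localization.Away g)
    (IsLocalization.Away.liftAlgHom g hg') hs
  have : IsNoetherianRing T₂ := Algebra.FiniteType.isNoetherianRing T T₂
  obtain ⟨δ, h1, h2⟩ := FacP.exists_mul_mem (T' := Localization.Away (1 : T₂)) 1 σ hs
    (by rw [map_one]; exact isUnit_one)
  have hδ : IsUnit (σ δ) := h1 ▸ isUnit_one
  let q : Localization.Away δ →ₐ[T] D := IsLocalization.Away.liftAlgHom δ hδ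
  have hq : ∀ x, q (algebraMap T₂ _ x) = σ x := fun x => IsLocalization.Away.lift_eq δ hδ x
  refine ⟨Localization.Away δ, inferInstance, inferInstance,
    ((IsScalarTower.toAlgHom T T₂ _).comp ι).comp (IsScalarTower.toAlgHom T Q _), q,
    inferInstance, fun t => ⟨fun ht => ?_, ?_⟩⟩
  · obtain ⟨n, a, ha⟩ := IsLocalization.Away.surj δ t
    have hu := IsLocalization.Away.algebraMap_isUnit (S := Localization.Away δ) δ
    have h3 : σ a = 0 := by rw [← hq, ← ha, map_mul, ht, zero_mul]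
    have h4 : RingHom.ker (algebraMap T D) = Ideal.span {y} := by
      ext r
      rw [RingHom.mem_ker, hy, Ideal.mem_span_singleton]
    have h5 := h2 a h3
    rw [h4, Ideal.map_span, Set.image_singleton, Ideal.mem_span_singleton] at h5
    have h6 := map_dvd (algebraMap T₂ (Localization.Away δ)) h5
    rw [← IsScalarTower.algebraMap_apply, map_mul, ← ha, hu.dvd_mul_left,
      (hu.pow n).dvd_mul_right] at h6
    exact h6
  · rintro ⟨c, rfl⟩
    rw [map_mul, AlgHom.commutes, (hy y).2 dvd_rfl, zero_mul]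

end Pool.Agent.P.MP_46a8f8_ag.GU
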