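import Pool.Agent.P.MP_46a8f8_ag.GU.Sp

/-!
Points with good extreme coefficients on the sphere of an anisotropic form over an infinite field.
-/

namespace Pool.Agent.P.MP_46a8f8_ag.GU

open Polynomial

universe u

namespace F2aP

variable {k A : Type u} [Field k] [CommRing A] [Algebra k A] {n : ℕ}

theorem lin_poly (φ : A →ₗ[k] k) (P : A[X]) : ∃ Q : k[X], (∀ j, Q.coeff j = φ (P.coeff j)) ∧
    ∀ τ : k, Q.eval τ = φ (P.eval (algebraMap k A τ)) := by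
  induction P using Polynomial.induction_on' with
  | add p q hp hq =>
    obtain ⟨Q1, a1, b1⟩ := hp
    obtain ⟨Q2, a2, b2⟩ := hq
    exact ⟨Q1 + Q2, fun j => by rw [coeff_add, coeff_add, map_add, a1, a2],
      fun τ => by rw [eval_add, eval_add, map_add, b1, b2]⟩
  | monomial m a =>
    refine ⟨monomial m (φ a), fun j => ?_, fun τ => ?_⟩
    · rw [coeff_monomial, coeff_monomial]
      split_ifs
      · rfl
      · rw [map_zero]
    · rw [eval_monomial, eval_monomial, ← map_pow, mul_comm a, ← Algebra.smul_def, map_smul,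
        smul_eq_mul, mul_comm]

theorem den [Nontrivial A] {w : A} (hw : IsIntegral k w) : ∃ (δ : k[X]) (B : A[X]),
    δ.coeff 0 = 1 ∧ (1 + C w * X) * B = δ.map (algebraMap k A) := by
  obtain ⟨f, hf, h0⟩ := hw.neg
  have hr : (f.map (algebraMap k A)).IsRoot (-w) := by
    rw [IsRoot.def, eval_map]
    exact h0
  obtain ⟨g, hg⟩ := dvd_iff_isRoot.2 hr
  have hm : (f.map (algebraMap k A)).Monic := hf.map _
  have hg0 : g ≠ 0 := by
    rintro rfl
    rw [mul_zero] at hg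
    exact hm.ne_zero hg
  have hd : f.natDegree = 1 + g.natDegree := by
    rw [← hf.natDegree_map (algebraMap k A), hg, (monic_X_sub_C (-w)).natDegree_mul' hg0,
      natDegree_X_sub_C]
  refine ⟨reflect (1 + g.natDegree) f, reflect g.natDegree g, ?_, ?_⟩
  · rw [coeff_reflect, revAt_zero, ← hd]
    exact hf.coeff_natDegree
  · rw [← reflect_map, hg, reflect_mul _ _ (natDegree_X_sub_C_le (-w)) le_rfl]
    congr 1
    rw [reflect_sub, reflect_C]
    simp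

theorem orth {c x : Ix n → A} (hc : Ok2 c) (hx : IsUnit (qv c x)) (φ : A →ₗ[k] k)
    (hφ : ∃ y, φ y ≠ 0) : ∃ u, bv c x u = 0 ∧ ∃ i, φ (u i) ≠ 0 := by
  by_contra hn
  push Not at hn
  obtain ⟨y, hy⟩ := hφ
  have h01 : (1 : Ix n) ≠ 0 := fun e => by simpa using congrArg Fin.val e
  have ho : ∀ (j : Ix n) (s : A), bv c x (s • ((2 * qv c x) • Pi.single j (1 : A) -
      (2 * c j * x j) • x)) = 0 := fun j s => by
    rw [bv_smul_right, bv_sub_right, bv_smul_right, bv_smul_right, bv_single, bv_self]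
    ring
  obtain ⟨r, hr⟩ := ((hc.two.mul hx).mul (hc.two.mul hx)).exists_right_inv
  have e1 := hn _ (ho 0 (2 * qv c x * (r * y))) 0
  have e2 := hn _ (ho 1 (2 * c 0 * x 0 ^ 2 * (r * y))) 1
  have e3 := hn _ (ho 0 (-(2 * c 1 * x 0 * x 1) * (r * y))) 1
  simp only [Pi.smul_apply, Pi.sub_apply, smul_eq_mul, Pi.single_eq_same,
    Pi.single_eq_of_ne h01] at e1 e2 e3
  apply hy
  rw [← add_zero (0 : k), ← add_zero (0 + 0 : k)]
  nth_rewrite 1 [← e1]
  nth_rewrite 1 [← e2]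
  nth_rewrite 1 [← e3]
  rw [← map_add, ← map_add]
  congr 1
  linear_combination (-y) * hr

theorem orth2 {c x : Ix n → A} (hc : Ok2 c) (hx : IsUnit (qv c x)) (φ ψ : A →ₗ[k] k)
    (hφ : ∃ y, φ y ≠ 0) (hψ : ∃ y, ψ y ≠ 0) :
    ∃ u, bv c x u = 0 ∧ (∃ i, φ (u i) ≠ 0) ∧ ∃ j, ψ (u j) ≠ 0 := by
  obtain ⟨u, hu, i, hi⟩ := orth hc hx φ hφ
  obtain ⟨v, hv, j, hj⟩ := orth hc hx ψ hψ
  by_cases h1 : ψ (u j) = 0
  · by_cases h2 : φ (v i) = 0
    · refine ⟨u + v, by rw [bv_add_right, hu, hv, add_zero], ⟨i, ?_⟩, j, ?_⟩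
      · rwa [Pi.add_apply, map_add, h2, add_zero]
      · rwa [Pi.add_apply, map_add, h1, zero_add]
    · exact ⟨v, hv, ⟨i, h2⟩, j, hj⟩
  · exact ⟨u, hu, ⟨i, hi⟩, j, h1⟩

theorem nz (h2 : (2 : k) ≠ 0) (φ : A →ₗ[k] k) {B : A[X]} (hB : B.coeff 0 = 1) (w x u : A)
    (hu : φ u ≠ 0) : ∃ Q : k[X], Q ≠ 0 ∧ ∀ τ : k, Q.eval τ =
      φ (B.eval (algebraMap k A τ ^ 2) *
        ((w * algebraMap k A τ ^ 2 - 1) * x - 2 * algebraMap k A τ * u)) := by
  obtain ⟨Q, a, b⟩ := lin_poly φ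
    (expand A 2 B * (C (w * x) * X ^ 2 - C (2 * u) * X - C x))
  refine ⟨Q, fun e => ?_, fun τ => ?_⟩
  · have h := a 1
    rw [e, coeff_zero, mul_coeff_one, coeff_expand two_pos, coeff_expand two_pos,
      if_pos (dvd_zero 2), if_neg (by norm_num), Nat.zero_div, hB] at h
    simp only [coeff_sub, coeff_C_mul, coeff_X_pow, coeff_X_one, coeff_C, one_mul, zero_mul,
      add_zero] at h
    norm_num at h
    have e2 : (2 : A) * u = (2 : k) • u := by
      rw [Algebra.smul_def, map_ofNat]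
    rw [e2, map_smul, smul_eq_mul] at h
    exact mul_ne_zero h2 hu h
  · rw [b, eval_mul, expand_eval]
    congr 2
    simp only [eval_sub, eval_mul, eval_C, eval_pow, eval_X]
    ring

theorem core [Infinite k] [Algebra.IsIntegral k A] (h2 : (2 : k) ≠ 0) {c x : Ix n → A}
    (hc : Ok2 c) (hx : IsUnit (qv c x)) (φ ψ : A →ₗ[k] k) (hφ : ∃ y, φ y ≠ 0)
    (hψ : ∃ y, ψ y ≠ 0) :
    ∃ z, qv c z = qv c x ∧ (∃ i, φ (z i) ≠ 0) ∧ ∃ j, ψ (z j) ≠ 0 := by
  have : Nontrivial A := by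
    obtain ⟨y, hy⟩ := hφ
    exact ⟨y, 0, fun e => hy (by rw [e, map_zero])⟩
  obtain ⟨u, hu, ⟨i, hi⟩, j, hj⟩ := orth2 hc hx φ ψ hφ hψ
  obtain ⟨r, hr⟩ := hx.exists_right_inv
  obtain ⟨w, hw⟩ : ∃ w, qv c u = w * qv c x := ⟨qv c u * r, by linear_combination (-qv c u) * hr⟩
  obtain ⟨δ, B, d0, hB⟩ := den (Algebra.IsIntegral.isIntegral (R := k) w)
  have b0 : B.coeff 0 = 1 := by
    have := congrArg (fun p => p.coeff 0) hB
    simpa [d0] using this
  obtain ⟨Q1, q1, v1⟩ := nz h2 φ b0 w (x i) (u i) hi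
  obtain ⟨Q2, q2, v2⟩ := nz h2 ψ b0 w (x j) (u j) hj
  have hδ : expand k 2 δ ≠ 0 := by
    rw [Ne, expand_eq_zero two_pos]
    rintro rfl
    simp at d0
  obtain ⟨τ, hτ⟩ : ∃ τ : k, (expand k 2 δ * Q1 * Q2).eval τ ≠ 0 := by
    by_contra hn
    push Not at hn
    exact mul_ne_zero (mul_ne_zero hδ q1) q2 (Polynomial.funext fun r => by rw [hn, eval_zero])
  rw [eval_mul, eval_mul, expand_eval] at hτ
  have t0 := left_ne_zero_of_mul (left_ne_zero_of_mul hτ)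
  have t1 := right_ne_zero_of_mul (left_ne_zero_of_mul hτ)
  have t2 := right_ne_zero_of_mul hτ
  obtain ⟨t, ht⟩ : ∃ t, t = algebraMap k A τ := ⟨_, rfl⟩
  have hev : (1 + w * t ^ 2) * B.eval (t ^ 2) = algebraMap k A (δ.eval (τ ^ 2)) := by
    have := congrArg (eval (t ^ 2)) hB
    rw [ht, ← map_pow, eval_map_algebraMap, aeval_algebraMap_apply_eq_algebraMap_eval,
      map_pow, ← ht] at this
    rw [← this]
    simp only [eval_mul, eval_add, eval_one, eval_C, eval_X]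
  obtain ⟨d, hd⟩ : ∃ d, d = (δ.eval (τ ^ 2))⁻¹ := ⟨_, rfl⟩
  have hd0 : d ≠ 0 := by
    rw [hd]
    exact inv_ne_zero t0
  have hd1 : algebraMap k A d * ((1 + w * t ^ 2) * B.eval (t ^ 2)) = 1 := by
    rw [hev, ← map_mul, hd, inv_mul_cancel₀ t0, map_one]
  have hz : ∀ (θ : A →ₗ[k] k) (l : Ix n), θ (((algebraMap k A d * B.eval (t ^ 2)) •
      ((w * t ^ 2 - 1) • x - (2 * t) • u)) l) =
      d * θ (B.eval (t ^ 2) * ((w * t ^ 2 - 1) * x l - 2 * t * u l)) := fun θ l => by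
    simp only [Pi.smul_apply, Pi.sub_apply, smul_eq_mul]
    rw [mul_assoc, ← Algebra.smul_def, map_smul, smul_eq_mul]
  refine ⟨(algebraMap k A d * B.eval (t ^ 2)) • ((w * t ^ 2 - 1) • x - (2 * t) • u), ?_,
    ⟨i, ?_⟩, j, ?_⟩
  · rw [qv_smul, qv_sub, qv_smul, qv_smul, bv_smul_left, bv_smul_right, hu, hw]
    linear_combination (qv c x * (algebraMap k A d * ((1 + w * t ^ 2) * B.eval (t ^ 2)) + 1)) * hd1
  · rw [hz, ht, ← v1]
    exact mul_ne_zero hd0 t1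
  · rw [hz, ht, ← v2]
    exact mul_ne_zero hd0 t2

theorem anis {c v : Ix n → k} (h : ¬ Iso c) {i : Ix n} (hi : v i ≠ 0) : qv c v ≠ 0 := fun e =>
  h ⟨v, e, Ideal.eq_top_of_isUnit_mem _ (mem_ct v i) hi.isUnit⟩

end F2aP

open F2aP in
theorem pF2a : S_F2a.{u} := by
  intro k _ _ n c χ p hc hi hχ hN h0 hd
  have : Module.Finite k (AdjoinRoot χ) := hχ.finite_adjoinRoot
  have h1 : χ ≠ 1 := by
    rintro rfl
    simp at hN
  have hlow : ∀ j, j < χ.natDegree → (X ^ j : k[X]) %ₘ χ = X ^ j := fun j hj => by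
    rw [modByMonic_eq_self_iff hχ, degree_X_pow, degree_eq_natDegree hχ.ne_zero]
    exact_mod_cast hj
  have hex : ∀ j, j < χ.natDegree →
      ∃ y, (lcoeff k j ∘ₗ AdjoinRoot.modByMonicHom hχ) y ≠ 0 := fun j hj =>
    ⟨AdjoinRoot.mk χ (X ^ j), by
      rw [LinearMap.comp_apply, AdjoinRoot.modByMonicHom_mk, hlow j hj]
      simp⟩
  have hc' : Ok2 (AdjoinRoot.mk χ ∘ C ∘ c) := (hc.map (C : k →+* k[X])).map (AdjoinRoot.mk χ)
  have hv : vl (AdjoinRoot.mk χ ∘ C ∘ c) (AdjoinRoot.mk χ ∘ p) = AdjoinRoot.mk χ X := by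
    rw [← map_vl]
    exact AdjoinRoot.mk_eq_mk.2 hd
  have hr : IsUnit (AdjoinRoot.mk χ X) := by
    have e := congrArg (AdjoinRoot.mk χ) (X_mul_divX_add χ)
    rw [AdjoinRoot.mk_self, map_add, map_mul] at e
    have hu : IsUnit (AdjoinRoot.mk χ (C (χ.coeff 0))) :=
      (h0.isUnit.map (C : k →+* k[X])).map (AdjoinRoot.mk χ)
    have e' : AdjoinRoot.mk χ X * (-AdjoinRoot.mk χ (divX χ)) =
        AdjoinRoot.mk χ (C (χ.coeff 0)) := by linear_combination -e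
    exact isUnit_of_mul_isUnit_left (e' ▸ hu)
  have hx : IsUnit (qv (AdjoinRoot.mk χ ∘ C ∘ c) (AdjoinRoot.mk χ ∘ p)) := by
    rw [← hv, vl] at hr
    exact isUnit_of_mul_isUnit_right hr
  obtain ⟨z, hz, ⟨i, ti⟩, j, tj⟩ := core hc.two.ne_zero hc' hx _ _
    (hex (χ.natDegree - 1) (by omega)) (hex 0 (by omega))
  have hmk : ∀ l, AdjoinRoot.mk χ (AdjoinRoot.modByMonicHom hχ (z l)) = z l := fun l =>
    AdjoinRoot.mk_leftInverse hχ (z l)
  refine ⟨fun l => AdjoinRoot.modByMonicHom hχ (z l), fun l => ?_, ?_, anis hi (i := i) ti,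
    anis hi (i := j) tj⟩
  · obtain ⟨g, hg⟩ := AdjoinRoot.mk_surjective (z l)
    have := natDegree_modByMonic_lt g hχ h1
    beta_reduce
    rw [← hg, AdjoinRoot.modByMonicHom_mk]
    omega
  · rw [← AdjoinRoot.mk_eq_mk, map_vl, ← hv, vl, vl, ← hz]
    congr 2
    exact funext hmk

end Pool.Agent.P.MP_46a8f8_ag.GU
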