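import Pool.Agent.P.MP_46a8f8_ag.GU.Sp

/-!
Points with good extreme coefficients on the sphere of an isotropic form, and isotropy over
finite fields.
-/

namespace Pool.Agent.P.MP_46a8f8_ag.GU

open Polynomial

universe u

namespace F2iP

variable {k : Type u} [Field k] {n : ℕ}

theorem frame {c : Ix n → k} (hc : Ok2 c) (h : Iso c) :
    ∃ e f g : Ix n → k, qv c e = 0 ∧ qv c f = 0 ∧ bv c e f = 1 ∧ bv c e g = 0 ∧ bv c f g = 0 ∧
      qv c g ≠ 0 := by
  obtain ⟨e, he, ht⟩ := h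
  obtain ⟨f0, h0⟩ := hc.exists_bv (x := e) (a := 1) (by rw [ht]; trivial)
  obtain ⟨f, hf, hef⟩ : ∃ f, qv c f = 0 ∧ bv c e f = 1 := by
    refine ⟨f0 - qv c f0 • e, ?_, ?_⟩
    · rw [qv_sub, qv_smul, bv_smul_right, bv_comm, he, h0]
      ring
    · rw [bv_sub_right, bv_smul_right, bv_self, he, h0]
      ring
  obtain ⟨v, hv⟩ : ∃ v, 1 * qv c v ≠ bv c v e * bv c v f := by
    by_contra hn
    push Not at hn
    exact one_ne_zero (hc.rk3 hn).1
  have hfe : bv c f e = 1 := by rw [bv_comm, hef]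
  refine ⟨e, f, v - (bv c v f • e + bv c v e • f), he, hf, hef, ?_, ?_, fun e0 => hv ?_⟩
  · rw [bv_sub_right, bv_add_right, bv_smul_right, bv_smul_right, bv_self, he, hef, bv_comm]
    ring
  · rw [bv_sub_right, bv_add_right, bv_smul_right, bv_smul_right, bv_self, hf, hfe, bv_comm]
    ring
  · rw [qv_sub, qv_add, qv_smul, qv_smul, bv_add_right, bv_smul_left, bv_smul_right,
      bv_smul_right, bv_smul_right, he, hf, hef] at e0
    linear_combination e0

theorem val {R : Type u} [CommRing R] {c e f g : Ix n → R} (he : qv c e = 0) (hf : qv c f = 0)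
    (hef : bv c e f = 1) (heg : bv c e g = 0) (hfg : bv c f g = 0) (a b d : R) :
    qv c (a • e + b • f + d • g) = a * b + d ^ 2 * qv c g := by
  simp only [qv_add, qv_smul, bv_add_left, bv_smul_left, bv_smul_right, he, hf, hef, heg, hfg]
  ring

theorem mod_eq {χ a r : k[X]} (hχ : χ.Monic) (h : χ ∣ a - r) (hr : r.degree < χ.degree) :
    a %ₘ χ = r :=
  (modByMonic_eq_of_dvd_sub hχ h).trans ((modByMonic_eq_self_iff hχ).2 hr)

theorem mod_low {χ : k[X]} (hχ : χ.Monic) {j : ℕ} (hj : j < χ.natDegree) :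
    (X ^ j : k[X]) %ₘ χ = X ^ j := by
  refine mod_eq hχ (by simp) ?_
  rw [degree_X_pow, degree_eq_natDegree hχ.ne_zero]
  exact_mod_cast hj

theorem mod_top {χ : k[X]} (hχ : χ.Monic) (h : 0 < χ.natDegree) :
    ((X ^ χ.natDegree : k[X]) %ₘ χ).coeff 0 = -χ.coeff 0 := by
  rw [mod_eq hχ (r := -(χ - X ^ χ.natDegree)) (by simp)]
  · simp [coeff_X_pow, h.ne]
  · rw [degree_neg]
    exact degree_sub_lt_left (by rw [degree_X_pow, degree_eq_natDegree hχ.ne_zero]) hχ.ne_zero
      (by rw [hχ.leadingCoeff, leadingCoeff_X_pow])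

theorem gam (h2 : (2 : k) ≠ 0) {χ : k[X]} (hχ : χ.Monic) (hN : 2 ≤ χ.natDegree)
    (h0 : χ.coeff 0 ≠ 0) : ∃ γ : k[X], γ.natDegree ≤ χ.natDegree - 1 ∧
      γ.coeff (χ.natDegree - 1) = 1 ∧ γ.coeff 0 = 0 ∧ ((γ ^ 2) %ₘ χ).coeff 0 ≠ 0 := by
  have ht := mod_top hχ (by omega)
  by_cases h : (((X ^ (χ.natDegree - 1) : k[X]) ^ 2) %ₘ χ).coeff 0 = 0
  · have h3 : χ.natDegree ≠ 2 := by
      intro e
      rw [e] at ht h
      simp only [Nat.add_one_sub_one, pow_one] at h
      exact h0 (neg_eq_zero.1 (ht.symm.trans h))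
    refine ⟨X ^ (χ.natDegree - 1) + X, ?_, ?_, ?_, ?_⟩
    · refine natDegree_add_le_of_degree_le (by simp) ?_
      rw [natDegree_X]
      omega
    · rw [coeff_add, coeff_X_pow, if_pos rfl, coeff_X, if_neg (by omega), add_zero]
    · rw [coeff_add, coeff_X_pow, if_neg (by omega), coeff_X_zero, add_zero]
    · have e : (X ^ (χ.natDegree - 1) + X : k[X]) ^ 2 = (X ^ (χ.natDegree - 1)) ^ 2 +
          (X ^ χ.natDegree + X ^ χ.natDegree) + X ^ 2 := by
        obtain ⟨m, hm⟩ : ∃ m, χ.natDegree = m + 1 := ⟨χ.natDegree - 1, by omega⟩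
        rw [hm, Nat.add_one_sub_one]
        ring
      rw [e, add_modByMonic, add_modByMonic, add_modByMonic, mod_low hχ (j := 2) (by omega)]
      simp only [coeff_add, h, ht, coeff_X_pow]
      intro e0
      refine mul_ne_zero h2 h0 ?_
      simp only [OfNat.zero_ne_ofNat, if_false] at e0
      linear_combination -e0
  · exact ⟨X ^ (χ.natDegree - 1), by simp, by simp, by rw [coeff_X_pow, if_neg (by omega)], h⟩

end F2iP

open F2iP in
theorem pF2i : S_F2i.{u} := by
  intro k _ n c χ hc hi hχ hN h0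
  obtain ⟨e, f, g, he, hf, hef, heg, hfg, hg⟩ := frame hc hi
  obtain ⟨γ, g1, g2, g3, g4⟩ := gam hc.two.ne_zero hχ hN h0
  have hc0 : c 0 ≠ 0 := (hc.un 0).ne_zero
  obtain ⟨β, hβ⟩ : ∃ β, β = (C (c 0)⁻¹ * X - C (qv c g) * γ ^ 2) %ₘ χ := ⟨_, rfl⟩
  have b1 : β.natDegree ≤ χ.natDegree - 1 := by
    have := natDegree_modByMonic_lt (C (c 0)⁻¹ * X - C (qv c g) * γ ^ 2) hχ
      (by rintro rfl; simp at hN)
    rw [← hβ] at this
    omega
  have b2 : β.coeff 0 = -(qv c g * ((γ ^ 2) %ₘ χ).coeff 0) := by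
    have := mod_low hχ (j := 1) (by omega)
    rw [pow_one] at this
    rw [hβ, sub_modByMonic, C_mul', C_mul', smul_modByMonic, smul_modByMonic, this]
    simp
  have hcf : ∀ j, cf ((1 : k[X]) • (C ∘ e) + β • (C ∘ f) + γ • (C ∘ g)) j =
      (1 : k[X]).coeff j • e + β.coeff j • f + γ.coeff j • g := fun j => by
    funext i
    simp only [cf, Pi.add_apply, Pi.smul_apply, smul_eq_mul, Function.comp, coeff_add,
      coeff_mul_C]
  refine ⟨(1 : k[X]) • (C ∘ e) + β • (C ∘ f) + γ • (C ∘ g), fun i => ?_, ?_, ?_, ?_⟩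
  · simp only [Pi.add_apply, Pi.smul_apply, smul_eq_mul, Function.comp]
    exact natDegree_add_le_of_degree_le (natDegree_add_le_of_degree_le (by simp)
      ((natDegree_mul_C_le _ _).trans b1)) ((natDegree_mul_C_le _ _).trans g1)
  · rw [vl, val (by rw [← map_qv, he, map_zero]) (by rw [← map_qv, hf, map_zero])
      (by rw [← map_bv, hef, map_one]) (by rw [← map_bv, heg, map_zero])
      (by rw [← map_bv, hfg, map_zero]), ← map_qv]
    have d := modByMonic_add_div (C (c 0)⁻¹ * X - C (qv c g) * γ ^ 2) χ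
    rw [← hβ] at d
    have e1 : C (c 0) * C (c 0)⁻¹ = (1 : k[X]) := by rw [← C_mul, mul_inv_cancel₀ hc0, C_1]
    refine ⟨-(C (c 0) * ((C (c 0)⁻¹ * X - C (qv c g) * γ ^ 2) /ₘ χ)), ?_⟩
    simp only [Function.comp]
    linear_combination C (c 0) * d + X * e1
  · rw [hcf, val he hf hef heg hfg, g2, coeff_one, if_neg (by omega)]
    simpa using hg
  · rw [hcf, val he hf hef heg hfg, g3, b2]
    simpa using ⟨hg, g4⟩

theorem pCW : S_CW.{u} := by
  intro k _ _ n c hc
  cases nonempty_fintype k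
  have h2 : ringChar k ≠ 2 := fun h => hc.two.ne_zero (by
    have := ringChar.Nat.cast_ringChar (R := k)
    rw [h] at this
    exact_mod_cast this)
  obtain ⟨a, b, h⟩ := FiniteField.exists_root_sum_quadratic (f := C (c 0) * X ^ 2)
    (g := C (c 1) * X ^ 2 + C (c 2)) (degree_C_mul_X_pow 2 (hc.un 0).ne_zero)
    (by rw [degree_add_C (by rw [degree_C_mul_X_pow 2 (hc.un 1).ne_zero]; norm_num),
      degree_C_mul_X_pow 2 (hc.un 1).ne_zero]; rfl) (FiniteField.odd_card_of_char_ne_two h2)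
  have h01 : (1 : Ix n) ≠ 0 := fun e => by simpa using congrArg Fin.val e
  have h02 : (2 : Ix n) ≠ 0 := fun e => by
    have := congrArg Fin.val e
    simp [Nat.mod_eq_of_lt] at this
  have h12 : (2 : Ix n) ≠ 1 := fun e => by
    have := congrArg Fin.val e
    simp [Nat.mod_eq_of_lt] at this
  refine ⟨Pi.single 0 a + Pi.single 1 b + Pi.single 2 1, ?_, (Ideal.eq_top_iff_one _).2 ?_⟩
  · simp only [qv_add, qv_single, bv_single, Pi.add_apply, Pi.single_eq_of_ne h01,
      Pi.single_eq_of_ne h02, Pi.single_eq_of_ne h12]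
    simp only [eval_add, eval_mul, eval_C, eval_pow, eval_X] at h
    linear_combination h
  · have := mem_ct (Pi.single 0 a + Pi.single 1 b + Pi.single 2 1 : Ix n → k) 2
    simpa [Pi.single_eq_of_ne h02, Pi.single_eq_of_ne h12] using this

end Pool.Agent.P.MP_46a8f8_ag.GU
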