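import Pool.Agent.P.MP_46a8f8_ag.GU.Su
import Pool.Agent.P.MP_46a8f8_ag.GU.Dm

/-!
The norm statement without a condition on the residue field.
-/

namespace Pool.Agent.P.MP_46a8f8_ag.GU

open TensorProduct Function IsLocalRing Polynomial

universe u

namespace FNdP

/-- descent along a section -/
theorem core {R S A O K L : Type u} [CommRing R] [CommRing S] [Algebra R S] [Ring A]
    [Algebra S A] [Algebra R A] [IsScalarTower R S A] [CommRing O] [Algebra R O] [Field K]
    [Algebra R K] [Field L] [Algebra R L] [Algebra O L] [IsScalarTower R O L] {n e : ℕ}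
    {N : NFam R S A} (hN : NF n N) (ι : K →ₐ[R] L) (ev : O →ₐ[R] R) (hP : PurN N e O L)
    (hG : GN N O L) : FN N e R K := by
  intro s μ h
  let j : R →ₐ[R] O := IsScalarTower.toAlgHom R R O
  let i : O →ₐ[R] L := IsScalarTower.toAlgHom R O L
  let s' : (O ⊗[R] S)ˣ := Units.map (mp S j : R ⊗[R] S →* O ⊗[R] S) s
  have hs' : (s' : O ⊗[R] S) = mp S j s := rfl
  let μ' : Lˣ := Units.map (ι : K →* L) μ
  have hμ' : (μ' : L) = ι μ := rfl
  have e1 : ι.comp (IsScalarTower.toAlgHom R R K) = i.comp j := Subsingleton.elim _ _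
  have e2 : ev.comp j = AlgHom.id R R := Subsingleton.elim _ _
  have h1 : NK N L (mp S i s' * algebraMap L (L ⊗[R] S) ((μ' : L) ^ e)) := by
    have h2 := hN.nk_map ι h
    rwa [map_mul, H90P.mp_mp, e1, ← H90P.mp_mp, mp_alg, map_pow, ← hs', ← hμ'] at h2
  obtain ⟨v, hv⟩ := hP s' μ' h1
  have h3 : NK N L (algebraMap L (L ⊗[R] S)
      ((algebraMap O L (v⁻¹ : Oˣ) * (μ'⁻¹ : Lˣ)) ^ e)) := by
    refine hv.inv ?_
    rw [← map_mul, ← mul_pow, mul_mul_mul_comm, ← map_mul, Units.mul_inv, Units.mul_inv, map_one,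
      one_mul, one_pow, map_one]
  let w : (O ⊗[R] S)ˣ := s' * Units.map (algebraMap O (O ⊗[R] S) : O →* O ⊗[R] S) (v⁻¹ ^ e)
  have hw : (w : O ⊗[R] S) = mp S j s * algebraMap O (O ⊗[R] S) (((v⁻¹ : Oˣ) : O) ^ e) := by
    rw [← Units.val_pow_eq_pow_val]
    rfl
  have h4 : NK N L (mp S i w) := by
    have h5 := h1.mul h3
    rw [mul_assoc, ← map_mul, ← mul_pow, mul_left_comm, Units.mul_inv, mul_one, hs'] at h5
    rw [hw, map_mul, mp_alg, map_pow]
    exact h5
  have h6 := hN.nk_map ev (hG w h4)
  rw [hw, map_mul, H90P.mp_mp, e2, H90P.mp_id, mp_alg, map_pow] at h6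
  exact ⟨Units.map (ev : O →* R) v⁻¹, h6⟩

theorem dm_self (R : Type u) [CommRing R] : Dm R R := fun S _ _ _ _ =>
  (Algebra.TensorProduct.lid R S).injective.isDomain _

theorem up (h1 : S_PSN.{u}) (h2 : S_GNs.{u}) {R S A B O K : Type u} [CommRing R] [CommRing S]
    [Algebra R S] [Ring A] [Algebra S A] [Algebra R A] [IsScalarTower R S A] [CommRing B]
    [IsRegularLocalRing B] [CommRing O] [IsDomain O] [IsLocalRing O] [Algebra B O]
    [IsLocalHom (algebraMap B O)] [Algebra.FormallySmooth B O] [Algebra.EssFiniteType B O]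
    [Algebra R O] [Field K] [Algebra R K] [IsFractionRing R K] {n e : ℕ} {N : NFam R S A}
    (hd : ringKrullDim B ≤ 2) (hG : GB R S A) (hN : NF n N) (hD : Dm R O) (ev : O →ₐ[R] R)
    (hI : Infinite (O ⧸ (maximalIdeal B).map (algebraMap B O))) : FN N e R K := by
  have := hG.dom
  have := hG.free
  have hL : IsDomain (FractionRing O ⊗[R] S) :=
    (pDm R O hD).2 (FractionRing O) (nonZeroDivisors O) le_rfl S
  have hi : Injective (Algebra.ofId R (FractionRing O)) := fun a b hab => by
    have h3 : algebraMap O (FractionRing O) (algebraMap R O a) =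
        algebraMap O (FractionRing O) (algebraMap R O b) := by
      rw [← IsScalarTower.algebraMap_apply, ← IsScalarTower.algebraMap_apply]
      exact hab
    have h4 := congrArg ev (IsFractionRing.injective O (FractionRing O) h3)
    rwa [ev.commutes, ev.commutes] at h4
  exact core hN (IsFractionRing.liftAlgHom (K := K) hi) ev
    (h1 R S A B O (FractionRing O) n e N hd hG hN hL hI)
    (h2 R S A B O (FractionRing O) n N hd hG hN hL)

end FNdP

theorem pFNd (h1 : S_PSN.{u}) (h2 : S_GNs.{u}) : S_FNd.{u} := by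
  intro R S A B K _ _ _ _ _ _ _ _ _ _ _ _ _ _ _ _ _ n e N hd hG hN
  have : IsDomain R := (IsFractionRing.injective R K).isDomain _
  let 𝔮 := (maximalIdeal R).comap (evalRingHom (0 : R))
  let O := Localization.AtPrime 𝔮
  have : Algebra.EssFiniteType R O := Algebra.EssFiniteType.comp R R[X] O
  have : Algebra.EssFiniteType B O := Algebra.EssFiniteType.comp B R O
  have : Algebra.FormallySmooth R O := inferInstance
  have : Algebra.FormallySmooth B O := Algebra.FormallySmooth.comp B R O
  have hu : ∀ s : 𝔮.primeCompl, IsUnit (aeval (0 : R) (s : R[X])) := fun s => by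
    by_contra hn
    exact s.2 (show evalRingHom (0 : R) s ∈ maximalIdeal R by
      simpa [coe_aeval_eq_eval] using hn)
  let ev : O →ₐ[R] R := IsLocalization.liftAlgHom (M := 𝔮.primeCompl) (f := aeval (0 : R)) hu
  have hev : ∀ r : R, ev (algebraMap R O r) = r := ev.commutes
  have : IsLocalHom (algebraMap B O) := ⟨fun b hb => by
    have h5 := hb.map ev
    rw [IsScalarTower.algebraMap_apply B R O, hev] at h5
    exact IsUnit.of_map (algebraMap B R) b h5⟩
  have hD : Dm R O := (pDm R R[X] (pDm R R (FNdP.dm_self R)).1).2 O 𝔮.primeCompl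
    𝔮.primeCompl_le_nonZeroDivisors
  have hI : Infinite (O ⧸ (maximalIdeal B).map (algebraMap B O)) := by
    let k := ResidueField R
    let χ : R[X] →+* FractionRing k[X] :=
      (algebraMap k[X] (FractionRing k[X])).comp (mapRingHom (residue R))
    have hχ : ∀ s : 𝔮.primeCompl, IsUnit (χ (s : R[X])) := fun s => by
      refine isUnit_iff_ne_zero.2 fun h0 => s.2 ?_
      have h5 : (s : R[X]).map (residue R) = 0 :=
        IsFractionRing.injective k[X] (FractionRing k[X]) (h0.trans (map_zero _).symm)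
      have h6 := congrArg (fun q => q.coeff 0) h5
      simp only [coeff_map, coeff_zero, residue_eq_zero_iff] at h6
      change eval 0 (s : R[X]) ∈ maximalIdeal R
      rwa [← coeff_zero_eq_eval_zero]
    let ψ : O →+* FractionRing k[X] := IsLocalization.lift hχ
    have hψ : (maximalIdeal B).map (algebraMap B O) ≤ RingHom.ker ψ := by
      refine Ideal.map_le_iff_le_comap.2 fun b hb => ?_
      have h5 : residue R (algebraMap B R b) = 0 :=
        (residue_eq_zero_iff _).2 (map_nonunit (algebraMap B R) b hb)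
      change ψ (algebraMap B O b) = 0
      rw [IsScalarTower.algebraMap_apply B R[X] O, IsLocalization.lift_eq,
        Polynomial.algebraMap_apply]
      simp [χ, h5]
    refine Infinite.of_injective (fun n : ℕ => Ideal.Quotient.mk _ (algebraMap R[X] O (X ^ n)))
      fun m n hmn => ?_
    have h5 := hψ (Ideal.Quotient.eq.1 hmn)
    rw [RingHom.mem_ker, map_sub, sub_eq_zero, IsLocalization.lift_eq,
      IsLocalization.lift_eq] at h5
    have h6 : (X ^ m : R[X]).map (residue R) = (X ^ n : R[X]).map (residue R) :=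
      IsFractionRing.injective k[X] (FractionRing k[X]) h5
    have h7 := congrArg natDegree h6
    simpa using h7
  exact FNdP.up h1 h2 hd hG hN hD ev hI

end Pool.Agent.P.MP_46a8f8_ag.GU
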