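import Pool.Agent.P.MP_46a8f8_ag.GU.Base2

/-!
Transvections fixing a Lagrangian, and Lagrangian complements containing an isotropic subspace.
-/

namespace Pool.Agent.P.MP_46a8f8_ag.GU

open TensorProduct Function Matrix IsLocalRing

universe u

namespace FTP

variable {R A k : Type u} [CommRing R] [Ring A] [Algebra R A] [Field k] [Algebra R k]
  {E : FM R A k k}

/-- a skew equivariant map into a Lagrangian which kills that Lagrangian gives a transvection -/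
theorem trans {Λ Λ' : Submodule k E.M} (n : E.M →ₗ[k] E.M) (hΛ : E.IsLag Λ) (hΛ' : E.IsLag Λ')
    (hc : IsCompl Λ Λ') (he : Eqv E.toRM E.toRM n) (h1 : ∀ x, n x ∈ Λ') (h2 : ∀ x ∈ Λ', n x = 0)
    (h3 : ∀ x y, E.b (n x) y + E.b x (n y) = 0) :
    E.IsLag (Λ.map (LinearMap.id + n)) ∧ IsCompl (Λ.map (LinearMap.id + n)) Λ' := by
  have hu : ∀ x, (LinearMap.id + n : E.M →ₗ[k] E.M) x = x + n x := fun x => rfl
  have hb : ∀ x y, E.b (x + n x) (y + n y) = E.b x y := fun x y => by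
    have h4 := hΛ'.isot _ (h1 x) _ (h1 y)
    simp only [map_add, LinearMap.add_apply]
    linear_combination h3 x y + h4
  have hs : ∀ x, (x - n x) + n (x - n x) = x := fun x => by
    rw [map_sub, h2 _ (h1 x), sub_zero, sub_add_cancel]
  have hq : Eqv E.toRM E.toRM (LinearMap.id + n : E.M →ₗ[k] E.M) := fun a m => by
    rw [hu, hu, map_add, he]
  refine ⟨⟨hq.map hΛ.1, le_antisymm ?_ ?_⟩, ?_, ?_⟩
  · intro x hx
    refine ⟨x - n x, hΛ.mem.2 fun y hy => ?_, hs x⟩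
    rw [← hb, hs]
    exact hx _ ⟨y, hy, rfl⟩
  · rintro _ ⟨x, hx, rfl⟩ _ ⟨y, hy, rfl⟩
    rw [hu, hu, hb]
    exact hΛ.isot x hx y hy
  · rw [Submodule.disjoint_def]
    rintro _ ⟨x, hx, rfl⟩ hx'
    rw [hu] at hx' ⊢
    have h5 : x ∈ Λ' := by
      have := Λ'.sub_mem hx' (h1 x)
      rwa [add_sub_cancel_right] at this
    rw [Submodule.disjoint_def.1 hc.disjoint x hx h5, map_zero, add_zero]
  · rw [codisjoint_iff, eq_top_iff]
    intro z _
    have hz : z ∈ Λ ⊔ Λ' := by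
      rw [codisjoint_iff.1 hc.codisjoint]
      trivial
    obtain ⟨x, hx, y, hy, rfl⟩ := Submodule.mem_sup.1 hz
    have : x + y = (x + n x) + (y - n x) := by abel
    rw [this]
    exact Submodule.add_mem_sup ⟨x, hx, rfl⟩ (Λ'.sub_mem hy (h1 x))

variable [StarRing A] [SA R A] {ε : ℤˣ}

/-- a stable complement of a Lagrangian between `Y` and the orthogonal of `Y` -/
theorem compl {Λ Y : Submodule k E.M} (hg : E.Good ε) (hp : E.Perf) (hΛ : E.IsLag Λ)
    (hY : E.Stab Y) (hi : E.Isot Y) (hd : Disjoint Λ Y) :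
    ∃ K, E.Stab K ∧ IsCompl Λ K ∧ Y ≤ K ∧ K ≤ E.perp Y := by
  have hYY : Y ≤ E.perp Y := fun y hy => hi y hy
  have hP := hg.stab_perp hY
  have htop : Λ ⊔ E.perp Y = ⊤ := by
    have := hg.perp_inf hp Λ Y
    rw [hΛ.2, disjoint_iff.1 hd] at this
    rw [← this, eq_top_iff]
    intro x _ y hy
    rw [(Submodule.mem_bot k).1 hy, map_zero]
  obtain ⟨K', h1, h2, h3⟩ := ((hΛ.1.inf hP).sup hY).compl_in hP (sup_le inf_le_right hYY)
  have hK' : K' ≤ E.perp Y := h3 ▸ le_sup_right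
  refine ⟨Y ⊔ K', hY.sup h1, ⟨?_, ?_⟩, le_sup_left, sup_le hYY hK'⟩
  · rw [Submodule.disjoint_def]
    intro x hx hx'
    obtain ⟨y, hy, z, hz, rfl⟩ := Submodule.mem_sup.1 hx'
    have h4 : z ∈ Λ ⊓ E.perp Y ⊔ Y := by
      have : z = (y + z) + -y := by abel
      rw [this]
      exact Submodule.add_mem_sup ⟨hx, add_mem (hYY hy) (hK' hz)⟩ (neg_mem hy)
    have h5 := Submodule.disjoint_def.1 h2 z h4 hz
    rw [h5, add_zero] at hx ⊢
    exact Submodule.disjoint_def.1 hd y hx hy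
  · rw [codisjoint_iff, eq_top_iff, ← htop, ← h3]
    exact sup_le le_sup_left (sup_le (sup_le (inf_le_left.trans le_sup_left)
      (le_sup_left.trans le_sup_right)) (le_sup_right.trans le_sup_right))

omit [StarRing A] [SA R A] in
/-- the projector onto a stable subspace along a stable complement -/
theorem proj {Λ K : Submodule k E.M} (hΛ : E.Stab Λ) (hK : E.Stab K) (hc : IsCompl Λ K) :
    ∃ e : E.M →ₗ[k] E.M, Eqv E.toRM E.toRM e ∧ (∀ x, e x ∈ Λ) ∧ (∀ x ∈ Λ, e x = x) ∧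
      (∀ x ∈ K, e x = 0) ∧ ∀ x, x - e x ∈ K := by
  let e : E.M →ₗ[k] E.M := Λ.subtype ∘ₗ Λ.projectionOnto K hc
  have h1 : ∀ x ∈ Λ, e x = x := fun x hx =>
    congrArg Subtype.val (Submodule.projectionOnto_apply_left hc ⟨x, hx⟩)
  have h2 : ∀ x ∈ K, e x = 0 := fun x hx =>
    congrArg Subtype.val (Submodule.projectionOnto_apply_right hc ⟨x, hx⟩)
  have h3 : ∀ z, ∃ x ∈ Λ, ∃ y ∈ K, x + y = z := fun z => Submodule.mem_sup.1 (by
    rw [codisjoint_iff.1 hc.codisjoint]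
    trivial)
  refine ⟨e, fun a z => ?_, fun x => (Λ.projectionOnto K hc x).2, h1, h2, fun z => ?_⟩
  · obtain ⟨x, hx, y, hy, rfl⟩ := h3 z
    rw [map_add, map_add, map_add, h1 _ (hΛ a x hx), h2 _ (hK a y hy), h1 x hx, h2 y hy,
      add_zero, add_zero]
  · obtain ⟨x, hx, y, hy, rfl⟩ := h3 z
    rwa [map_add, h1 x hx, h2 y hy, add_zero, add_sub_cancel_left]

end FTP

theorem pFT : S_FT.{u} := by
  intro R A k _ _ _ _ _ _ _ E ε Λ Λ' θ pJ pJ' hg hp hΛ hΛ' hc hJ hJ' hθ h0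
  obtain ⟨n, hn⟩ := hp.exists_end
    (θ.compl₁₂ pJ pJ' - (((ε : ℤ) : k) • (θ.compl₁₂ pJ pJ').flip))
  have hn' : ∀ x y, E.b (n x) y = θ (pJ x) (pJ' y) - ε • θ (pJ y) (pJ' x) := fun x y => by
    rw [hn, Units.smul_def, zsmul_eq_mul]
    rfl
  have h1 : ∀ x, n x ∈ Λ' := fun x => hΛ'.mem.2 fun y hy => by
    rw [hn', (h0 y hy).1, (h0 y hy).2, map_zero, map_zero, LinearMap.zero_apply, smul_zero,
      sub_zero]
  have h2 : ∀ x ∈ Λ', n x = 0 := fun x hx => hp.eq_zero fun y => by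
    rw [hn', (h0 x hx).1, (h0 x hx).2, map_zero, map_zero, LinearMap.zero_apply, smul_zero,
      sub_zero]
  have he : Eqv E.toRM E.toRM n := fun a x => hp.ext fun y => by
    rw [hg.adj, hn', hn', hJ, hJ', hJ, hJ', hθ, hθ, star_star]
  have h3 : ∀ x y, E.b (n x) y + E.b x (n y) = 0 := fun x y => by
    rw [hg.sym (n y) x, hn', hn', smul_sub, usmul_usmul]
    abel
  exact ⟨n, h1, hn', FTP.trans n hΛ hΛ' hc he h1 h2 h3⟩

theorem pCmpl : S_Cmpl.{u} := by
  intro R A k _ _ _ _ _ _ _ E ε Λ Y hg hp hΛ hY hi hd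
  obtain ⟨K, hK, hc, hYK, hKY⟩ := FTP.compl hg hp hΛ hY hi hd
  obtain ⟨e0, h0, h1, h2, h3, h4⟩ := FTP.proj hΛ.1 hK hc
  obtain ⟨e1, h5⟩ := hp.exists_end (E.b.compl₂ e0)
  have h5' : ∀ x y, E.b (e1 x) y = E.b x (e0 y) := h5
  obtain ⟨c, hc2⟩ := (two_unit R A k).exists_left_inv
  let e : E.M →ₗ[k] E.M := c • (e0 + LinearMap.id - e1)
  have hee : ∀ x, e x = c • (e0 x + (x - e1 x)) := fun x => by
    rw [← add_sub_assoc]
    rfl
  have hq1 : Eqv E.toRM E.toRM e1 := fun a x => hp.ext fun y => by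
    rw [h5', hg.adj, hg.adj, h5', h0]
  have hm : ∀ x, e x ∈ Λ := fun x => by
    rw [hee]
    refine Λ.smul_mem c (Λ.add_mem (h1 x) (hΛ.mem.2 fun y hy => ?_))
    rw [map_sub, LinearMap.sub_apply, h5', h2 y hy, sub_self]
  have hid : ∀ x ∈ Λ, e x = x := fun x hx => by
    have : e1 x = 0 := hp.eq_zero fun y => by
      rw [h5']
      exact hΛ.isot x hx _ (h1 y)
    rw [hee, h2 x hx, this, sub_zero, ← two_smul k, smul_smul, hc2, one_smul]
  have hy0 : ∀ y ∈ Y, e y = 0 := fun y hy => by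
    have : y - e1 y = 0 := hp.eq_zero fun z => by
      rw [map_sub, LinearMap.sub_apply, h5', ← map_sub]
      exact hg.zero (hKY (h4 z) y hy)
    rw [hee, h3 y (hYK hy), this, add_zero, smul_zero]
  have hP : E.IsProj e := by
    refine ⟨fun a x => ?_, fun x => hid _ (hm x), fun x y => ?_⟩
    · rw [hee, hee, h0, hq1, map_smul, map_add, map_sub]
    · have h6 : E.b x (e1 y) = E.b (e0 x) y := by
        rw [hg.sym (e1 y) x, h5', ← hg.sym]
      rw [hee, hee]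
      simp only [map_smul, map_add, map_sub, LinearMap.smul_apply, LinearMap.add_apply,
        LinearMap.sub_apply, smul_eq_mul, h5', h6]
      linear_combination E.b x y * hc2
  refine ⟨_, hP.compl.isLag hp, ⟨?_, ?_⟩, fun y hy => ⟨y, ?_⟩⟩
  · rw [Submodule.disjoint_def]
    rintro _ hx ⟨z, rfl⟩
    rw [← hid _ hx, LinearMap.sub_apply, LinearMap.id_apply, map_sub, hP.2.1, sub_self]
  · rw [codisjoint_iff, eq_top_iff]
    intro z _
    have : z = e z + (z - e z) := by abel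
    rw [this]
    exact Submodule.add_mem_sup (hm z) ⟨z, rfl⟩
  · rw [LinearMap.sub_apply, LinearMap.id_apply, hy0 y hy, sub_zero]

end Pool.Agent.P.MP_46a8f8_ag.GU
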