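import Pool.Agent.P.MP_46a8f8_ag.GU.Sp

/-!
Removing the prime factors which are units at zero.
-/

namespace Pool.Agent.P.MP_46a8f8_ag.GU

open TensorProduct Function IsLocalRing Polynomial

universe u

theorem pFc : S_Fc.{u} := by
  intro R _ _ _ S P ζ G hS hζ h
  induction ζ using UniqueFactorizationMonoid.induction_on_prime generalizing P G with
  | h₁ => exact absurd rfl hζ
  | h₂ ζ hu =>
    refine ⟨1, P, ζ.coeff 0, hu.map constantCoeff, by simp, ?_⟩
    have := congrArg (·.coeff 0) h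
    simp only [mul_coeff_zero, hS, pow_two] at this
    linear_combination this
  | h₃ ζ π h0 hπ ih =>
    by_cases hu : IsUnit (π.coeff 0)
    · obtain ⟨H, G', v, hv, e1, e2⟩ := ih P (π ^ 2 * G) h0 (by rw [h]; ring)
      refine ⟨H, G', π.coeff 0 * v, hu.mul hv, e1, ?_⟩
      rw [e2]
      simp only [mul_coeff_zero, pow_two]
      ring
    · have hn : ¬ π ∣ S := fun ⟨k, hk⟩ => hu (IsUnit.of_mul_eq_one (k.coeff 0) (by
        rw [← mul_coeff_zero, ← hk, hS]))
      obtain ⟨P', rfl⟩ : π ^ 2 ∣ P :=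
        hπ.pow_dvd_of_dvd_mul_left 2 hn ⟨ζ ^ 2 * G, by rw [h]; ring⟩
      obtain ⟨H, G', v, hv, e1, e2⟩ := ih P' G h0
        (mul_left_cancel₀ (pow_ne_zero 2 hπ.ne_zero) (by linear_combination h))
      exact ⟨π * H, G', v, hv, by rw [e1]; ring, e2⟩

end Pool.Agent.P.MP_46a8f8_ag.GU
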