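import Pool.Agent.P.MP_46a8f8_ag.GU.Base2

/-!
Moving a Lagrangian away from an isotropic subspace, over a field.
-/

namespace Pool.Agent.P.MP_46a8f8_ag.GU

open Function

universe u

namespace FiP

variable {R A k : Type u} [CommRing R] [Ring A] [Algebra R A] [Field k] [Algebra R k]

/-- the projector along a stable complement is equivariant -/
theorem exists_along {X : RM R A k} {N N' : Submodule k X.M} (h : X.Stab N) (h' : X.Stab N')
    (hc : IsCompl N N') :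
    ∃ e : X.M →ₗ[k] N, Eqv X (X.sub N h) e ∧ (∀ x : N, e x = x) ∧ ∀ x ∈ N', e x = 0 := by
  have h1 : ∀ x : N, N.projectionOnto N' hc x = x := fun y =>
    Submodule.projectionOnto_apply_left hc y
  have h2 : ∀ x ∈ N', N.projectionOnto N' hc x = 0 := fun y hy =>
    Submodule.projectionOnto_apply_right hc ⟨y, hy⟩
  refine ⟨N.projectionOnto N' hc, fun a x => ?_, h1, h2⟩
  have hx : x ∈ N ⊔ N' := by rw [hc.sup_eq_top]; trivial
  obtain ⟨y, hy, z, hz, rfl⟩ := Submodule.mem_sup.1 hx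
  have h3 := h1 ⟨y, hy⟩
  have h4 := h1 ⟨X.ρ a y, h a y hy⟩
  change N.projectionOnto N' hc y = _ at h3
  change N.projectionOnto N' hc (X.ρ a y) = _ at h4
  rw [map_add, map_add, map_add, h2 z hz, h2 _ (h' a z hz), add_zero, add_zero, h3, h4]
  rfl

/-- a functional killing the preimage of a Lagrangian is represented by one of its vectors -/
theorem exists_rep {E : FM R A k k} (hp : E.Perf) {Λ : Submodule k E.M} (hΛ : E.IsLag Λ)
    {X : Type u} [AddCommGroup X] [Module k X] (i : X →ₗ[k] E.M) (ξ : Module.Dual k X)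
    (hξ : ∀ x, i x ∈ Λ → ξ x = 0) : ∃ v ∈ Λ, ∀ x, E.b v (i x) = ξ x := by
  have h1 : ξ ∈ LinearMap.range (Λ.mkQ ∘ₗ i).dualMap := by
    rw [LinearMap.range_dualMap_eq_dualAnnihilator_ker, Submodule.mem_dualAnnihilator]
    intro x hx
    exact hξ x ((Submodule.Quotient.mk_eq_zero Λ).1 hx)
  obtain ⟨ψ, rfl⟩ := h1
  obtain ⟨v, hv⟩ := hp.exists (ψ ∘ₗ Λ.mkQ)
  refine ⟨v, hΛ.mem.2 fun y hy => ?_, fun x => hv _⟩
  rw [hv, LinearMap.comp_apply, Submodule.mkQ_apply, (Submodule.Quotient.mk_eq_zero Λ).2 hy,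
    map_zero]

variable [StarRing A] [SA R A]

/-- an equivariant retraction -/
theorem exists_retr {X Z : RM R A k} {i : X.M →ₗ[k] Z.M} (hi : Eqv X Z i) (hinj : Injective i) :
    ∃ r : Z.M →ₗ[k] X.M, Eqv Z X r ∧ ∀ x, r (i x) = x := by
  obtain ⟨r, hr⟩ := i.exists_leftInverse_of_injective (LinearMap.ker_eq_bot.2 hinj)
  exact hi.extend (g := LinearMap.id) (fun _ _ => rfl) r fun x => LinearMap.congr_fun hr x

/-- the main use of cancellation -/
theorem exists_G (hKC : S_KC.{u}) {E : FM R A k k} {ε : ℤˣ} {Λ : Submodule k E.M}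
    (hΛ : E.IsLag Λ) {X Y : RM R A k} {i : X.M →ₗ[k] E.M} (hs : Surjective (algebraMap R k))
    (hg : E.Good ε) (hp : E.Perf) (hi : Eqv X E.toRM i) (hI : E.Isot (LinearMap.range i))
    (hiso : (E.toRM.sub Λ hΛ.1).Iso (Y.prod (X.prod X.dual))) {r : E.M →ₗ[k] X.M}
    (hr : Eqv E.toRM X r) (hri : ∀ x, r (i x) = x) {p : X.M →ₗ[k] X.M} (hpe : Eqv X X p)
    (hp1 : ∀ x, i (p x) ∈ Λ) (hp2 : ∀ x, i x ∈ Λ → p x = x) :
    ∃ G : Λ →ₗ[k] Module.Dual k X.M, Eqv (E.toRM.sub Λ hΛ.1) X.dual G ∧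
      ∀ ξ : Module.Dual k X.M, ∃ v : Λ, p (r v) = 0 ∧ (∀ x, E.b v (i x) = 0) ∧
        ∀ x, G v x = ξ (p x) := by
  have hpp : ∀ x, p (p x) = p x := fun x => hp2 _ (hp1 x)
  let f : Λ →ₗ[k] Y.M × X.M × Module.Dual k X.M :=
    (0 : Λ →ₗ[k] Y.M).prod ((p ∘ₗ r ∘ₗ Λ.subtype).prod (E.b.compl₂ i ∘ₗ Λ.subtype))
  have hf : ∀ v : Λ, f v = (0, p (r v), E.b.compl₂ i v) := fun _ => rfl
  let N : Submodule k (Y.M × X.M × Module.Dual k X.M) :=
    { carrier := {w | p w.2.1 = 0 ∧ ∀ x, w.2.2 (p x) = w.2.2 x}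
      add_mem' := fun {w w'} hw hw' => ⟨by
        rw [Prod.snd_add, Prod.fst_add, map_add, hw.1, hw'.1, add_zero], fun x => by
        rw [Prod.snd_add, Prod.snd_add, LinearMap.add_apply, LinearMap.add_apply, hw.2, hw'.2]⟩
      zero_mem' := ⟨map_zero p, fun _ => rfl⟩
      smul_mem' := fun c w hw => ⟨by
        rw [Prod.smul_snd, Prod.smul_fst, map_smul, hw.1, smul_zero], fun x => by
        rw [Prod.smul_snd, Prod.smul_snd, LinearMap.smul_apply, LinearMap.smul_apply, hw.2]⟩ }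
  have hfe : Eqv (E.toRM.sub Λ hΛ.1) (Y.prod (X.prod X.dual)) f := fun a v => by
    refine Prod.ext (map_zero (Y.ρ a)).symm (Prod.ext ?_ (LinearMap.ext fun x => ?_))
    · change p (r (E.ρ a v)) = X.ρ a (p (r v))
      rw [hr, hpe]
    · change E.b (E.ρ a v) (i x) = E.b v (i (X.ρ (star a) x))
      rw [hg.adj, hi]
  have hN : (Y.prod (X.prod X.dual)).Stab N := fun a w hw => by
    refine ⟨?_, fun x => ?_⟩
    · change p (X.ρ a w.2.1) = 0
      rw [hpe, hw.1, map_zero]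
    · change w.2.2 (X.ρ (star a) (p x)) = w.2.2 (X.ρ (star a) x)
      rw [← hpe, hw.2]
  have hc : IsCompl (LinearMap.range f) N := by
    refine ⟨Submodule.disjoint_def.2 ?_, codisjoint_iff.2 (eq_top_iff.2 fun w _ => ?_)⟩
    · rintro _ ⟨v, rfl⟩ hv
      refine Prod.ext rfl (Prod.ext ((hpp _).symm.trans hv.1) (LinearMap.ext fun x => ?_))
      exact (hv.2 x).symm.trans (hΛ.isot _ v.2 _ (hp1 x))
    · obtain ⟨v, hv, hv'⟩ := exists_rep hp hΛ i (w.2.2 - w.2.2 ∘ₗ p) fun x hx => by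
        rw [LinearMap.sub_apply, LinearMap.comp_apply, hp2 x hx, sub_self]
      refine Submodule.mem_sup.2 ⟨f ⟨v + i (p (w.2.1 - r v)), Λ.add_mem hv (hp1 _)⟩, ⟨_, rfl⟩,
        (w.1, w.2.1 - p w.2.1, w.2.2 ∘ₗ p), ⟨?_, fun x => ?_⟩, ?_⟩
      · change p (w.2.1 - p w.2.1) = 0
        rw [map_sub, hpp, sub_self]
      · change w.2.2 (p (p x)) = w.2.2 (p x)
        rw [hpp]
      · refine Prod.ext (zero_add _) (Prod.ext ?_ (LinearMap.ext fun x => ?_))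
        · change p (r (v + i (p (w.2.1 - r v)))) + (w.2.1 - p w.2.1) = w.2.1
          rw [map_add, map_add, hri, hpp, map_sub]
          abel
        · change E.b (v + i (p (w.2.1 - r v))) (i x) + w.2.2 (p x) = w.2.2 x
          rw [map_add, LinearMap.add_apply, hv', hI _ ⟨_, rfl⟩ _ ⟨_, rfl⟩, LinearMap.sub_apply,
            LinearMap.comp_apply]
          abel
  have := hg.fin
  obtain ⟨g, hg1, -, hg3⟩ := hKC R A k (E.toRM.sub Λ hΛ.1) (Y.prod (X.prod X.dual)) f N hs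
    (inferInstanceAs (Module.Finite k Λ)) hiso hfe hN hc
  refine ⟨LinearMap.snd k X.M _ ∘ₗ LinearMap.snd k Y.M _ ∘ₗ g,
    fun a v => congrArg (fun w => w.2.2) (hg1 a v), fun ξ => ?_⟩
  have h1 : ((0, 0, ξ ∘ₗ p) : Y.M × X.M × Module.Dual k X.M) ∈ N :=
    ⟨map_zero p, fun x => congrArg ξ (hpp x)⟩
  rw [← hg3] at h1
  obtain ⟨v, hv, hv'⟩ := h1
  have h2 : f v = 0 := hv
  refine ⟨v, congrArg (fun w => w.2.1) h2,
    fun x => LinearMap.congr_fun (congrArg (fun w => w.2.2) h2) x, fun x => ?_⟩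
  exact LinearMap.congr_fun (congrArg (fun w => w.2.2) hv') x

end FiP

open FiP in
theorem pFi (hKC : S_KC.{u}) (hFT : S_FT.{u}) (hC : S_Cmpl.{u}) : S_Fi.{u} := by
  intro R A k _ _ _ _ _ _ _ E ε Λ hΛ X Y i hs hg hp hi hinj hI hiso
  obtain ⟨Λ', hΛ', hc, -⟩ := hC R A k E ε Λ ⊥ hg hp hΛ E.stab_bot
    (fun x hx y _ => by rw [(Submodule.mem_bot k).1 hx, map_zero, LinearMap.zero_apply])
    disjoint_bot_right
  obtain ⟨e, he1, he2, he3⟩ := exists_along hΛ.1 hΛ'.1 hc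
  obtain ⟨r, hr, hri⟩ := exists_retr hi hinj
  obtain ⟨p, hpe, hp1, hp2⟩ := (hi.comap hΛ.1).proj
  obtain ⟨G, hG1, hG2⟩ := exists_G hKC hΛ hs hg hp hi hI hiso hr hri hpe hp1 hp2
  let θ : E.M →ₗ[k] E.M →ₗ[k] k := ((G ∘ₗ e).flip) ∘ₗ p ∘ₗ r
  have hθ : ∀ x y, θ x y = G (e y) (p (r x)) := fun _ _ => rfl
  let q : E.M →ₗ[k] E.M := Λ.subtype ∘ₗ e
  have hq : Eqv E.toRM E.toRM q := (E.toRM.eqv_subtype Λ hΛ.1).comp he1
  have hq1 : ∀ x ∈ Λ, q x = x := fun x hx => congrArg Subtype.val (he2 ⟨x, hx⟩)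
  have hq2 : ∀ x ∈ Λ', q x = 0 := fun x hx => congrArg Subtype.val (he3 x hx)
  obtain ⟨n, -, hn2, hn3, hn4⟩ := hFT R A k E ε Λ Λ' θ q q hg hp hΛ hΛ' hc hq hq
    (fun a x y => by
      rw [hθ, hθ, hr, hpe, he1, hG1]
      change _ = G (e y) (X.ρ (star (star a)) _)
      rw [star_star])
    fun x hx => ⟨hq2 x hx, hq2 x hx⟩
  refine ⟨Λ', _, hΛ', hn3, hc, hn4, Submodule.disjoint_def.2 ?_⟩
  rintro _ ⟨y, hy, rfl⟩ ⟨x, hx⟩
  change i x = y + n y at hx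
  have key : ∀ z ∈ Λ, E.b z (i x) = 0 → θ y z = ε • θ z y := fun z hz h => by
    have h1 := hg.zero h
    rwa [hx, map_add, LinearMap.add_apply, hΛ.isot y hy z hz, zero_add, hn2, hq1 y hy, hq1 z hz,
      sub_eq_zero] at h1
  have h1 : p (r y) = 0 := by
    refine (Module.forall_dual_apply_eq_zero_iff k _).1 fun ξ => ?_
    obtain ⟨v, hv1, hv2, hv3⟩ := hG2 ξ
    have h2 := key v v.2 (hv2 x)
    rwa [hθ, hθ, hv1, map_zero, smul_zero, he2, hv3, hp2 _ (hp1 _)] at h2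
  have h2 : ∀ x', G (e y) (p x') = 0 := fun x' => by
    have h3 := key (i (p x')) (hp1 x') (hI _ ⟨_, rfl⟩ _ ⟨_, rfl⟩)
    rw [hθ, hθ, h1, map_zero, hri, hp2 _ (hp1 _)] at h3
    exact usmul_eq_zero ε h3.symm
  have h3 : n y = 0 := hp.eq_zero fun z => by
    rw [hn2, hq1 y hy, hθ, hθ, h1, map_zero, h2, smul_zero, sub_zero]
  rw [h3, add_zero] at hx
  change y + n y = 0
  rw [h3, add_zero, ← hx]
  rw [← hx, hri, hp2 x (show i x ∈ Λ from hx ▸ hy)] at h1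
  rw [h1, map_zero]

end Pool.Agent.P.MP_46a8f8_ag.GU
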