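import Pool.Agent.P.MP_46a8f8_ag.GU.Base2

/-!
Over a field: a Lagrangian can be moved so as to be transversal to both summands of an
orthogonal decomposition.
-/

namespace Pool.Agent.P.MP_46a8f8_ag.GU

open TensorProduct Function Matrix IsLocalRing

universe u

namespace FiiP

variable {R A k : Type u} [CommRing R] [Ring A] [Algebra R A] [Field k] [Algebra R k]

/-- the projector along a stable complement is equivariant -/
theorem proj_along {X : RM R A k} {N N' : Submodule k X.M} (hN : X.Stab N) (hN' : X.Stab N')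
    (h : IsCompl N N') : ∃ e : X.M →ₗ[k] X.M, Eqv X X e ∧ (∀ x, e x ∈ N) ∧
      (∀ x ∈ N, e x = x) ∧ ∀ x, e x = 0 ↔ x ∈ N' := by
  refine ⟨N.projection N' h, fun a x => ?_, Submodule.projection_apply_mem h,
    fun x hx => Submodule.projection_apply_of_mem_left h hx,
    fun x => Submodule.projection_apply_eq_zero_iff h⟩
  obtain ⟨y, z, rfl, -⟩ := Submodule.existsUnique_add_of_isCompl h x
  rw [map_add (X.ρ a), map_add, map_add, Submodule.projection_apply_left,
    Submodule.projection_apply_right,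
    Submodule.projection_apply_of_mem_left h (hN a _ y.2),
    (Submodule.projection_apply_eq_zero_iff h).2 (hN' a _ z.2), add_zero, add_zero]

variable [StarRing A] {E : FM R A k k} {ε : ℤˣ}

omit [StarRing A] in
theorem perp_eq {P P' : Submodule k E.M} (hp : E.Perf) (h : IsCompl P P')
    (h1 : ∀ x ∈ P', ∀ y ∈ P, E.b x y = 0) (h2 : ∀ x ∈ P, ∀ y ∈ P', E.b x y = 0) :
    E.perp P = P' := by
  refine le_antisymm (fun x hx => ?_) h1
  obtain ⟨y, z, rfl, -⟩ := Submodule.existsUnique_add_of_isCompl h x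
  have hy : (y : E.M) = 0 := hp.eq_zero fun w => by
    obtain ⟨p, p', rfl, -⟩ := Submodule.existsUnique_add_of_isCompl h w
    have h3 := FM.mem_perp.1 hx p p.2
    rw [map_add, LinearMap.add_apply, h1 z z.2 p p.2, add_zero] at h3
    rw [map_add, h3, h2 y y.2 p' p'.2, add_zero]
  rw [hy, zero_add]
  exact z.2

/-- the adjoint of an equivariant map -/
theorem exists_adj (hg : E.Good ε) (hp : E.Perf) {e : E.M →ₗ[k] E.M}
    (he : Eqv E.toRM E.toRM e) : ∃ s : E.M →ₗ[k] E.M, Eqv E.toRM E.toRM s ∧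
      (∀ x y, E.b (s x) y = E.b x (e y)) ∧ ∀ x y, E.b x (s y) = E.b (e x) y := by
  obtain ⟨s, hs⟩ := hp.exists_end (E.b.compl₂ e)
  have hs' : ∀ x y, E.b (s x) y = E.b x (e y) := hs
  refine ⟨s, fun a x => hp.ext fun y => ?_, hs', fun x y => ?_⟩
  · rw [hs', hg.adj, hg.adj, hs', he]
  · rw [hg.sym (s y) x, hs', ← hg.sym]

/-- an isotropic submodule `J` orthogonal to `P` has an isotropic dual orthogonal to `P` -/
theorem dual_iso [SA R A] (hg : E.Good ε) (hp : E.Perf) {J : Submodule k E.M} (hJi : E.Isot J)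
    {e : E.M →ₗ[k] E.M} (he : Eqv E.toRM E.toRM e) (h1 : ∀ x, e x ∈ J)
    (h2 : ∀ x ∈ J, e x = x) :
    ∃ p h : E.M →ₗ[k] E.M, Eqv E.toRM E.toRM p ∧ Eqv E.toRM E.toRM h ∧ (∀ x, p x ∈ J) ∧
      (∀ x ∈ J, p x = x) ∧ (∀ x y, E.b (p x) y = E.b x (h y)) ∧
      (∀ x y, E.b (h x) (h y) = 0) ∧
      ∀ x, e x = 0 → (∀ y ∈ J, E.b x y = 0) → p x = 0 := by
  obtain ⟨s, s1, s2, s3⟩ := exists_adj hg hp he
  obtain ⟨c, hc⟩ : ∃ c : k, c + c = 1 := by
    obtain ⟨w, hw⟩ := (two_unit R A k).exists_right_inv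
    exact ⟨w, by rw [← hw]; ring⟩
  have hee : ∀ x, e (e x) = e x := fun x => h2 _ (h1 x)
  have hs0 : ∀ x, (∀ y ∈ J, E.b x y = 0) → s x = 0 := fun x hx =>
    hp.eq_zero fun y => by rw [s2, hx _ (h1 y)]
  refine ⟨e - c • e ∘ₗ s, s - c • e ∘ₗ s, fun a x => ?_, fun a x => ?_, fun x => ?_,
    fun x hx => ?_, fun x y => ?_, fun x y => ?_, fun x hx hx' => ?_⟩
  · simp only [LinearMap.sub_apply, LinearMap.smul_apply, LinearMap.comp_apply, map_sub,
      map_smul]
    rw [s1, he, he]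
  · simp only [LinearMap.sub_apply, LinearMap.smul_apply, LinearMap.comp_apply, map_sub,
      map_smul]
    rw [s1, he]
  · exact J.sub_mem (h1 x) (J.smul_mem c (h1 _))
  · simp only [LinearMap.sub_apply, LinearMap.smul_apply, LinearMap.comp_apply]
    rw [hs0 x (hJi x hx), map_zero, smul_zero, sub_zero, h2 x hx]
  · simp only [LinearMap.sub_apply, LinearMap.smul_apply, LinearMap.comp_apply, map_sub,
      map_smul]
    rw [s3, ← s3 (s x) y, ← s2 x (s y)]
  · simp only [LinearMap.sub_apply, LinearMap.smul_apply, LinearMap.comp_apply, map_sub,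
      map_smul, smul_eq_mul]
    have e1 : E.b (e (s x)) (e (s y)) = 0 := hJi _ (h1 _) _ (h1 _)
    have e2 : E.b (s x) (e (s y)) = E.b (s x) (s y) := by rw [s2, s2, hee]
    have e3 : E.b (e (s x)) (s y) = E.b (s x) (s y) := by rw [s3, s3, hee]
    rw [e1, e2, e3]
    linear_combination (-E.b (s x) (s y)) * hc
  · simp only [LinearMap.sub_apply, LinearMap.smul_apply, LinearMap.comp_apply]
    rw [hx, hs0 x hx', map_zero, smul_zero, sub_zero]

/-- a Lagrangian transversal to `P'` is transversal to its orthogonal -/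
theorem compl_perp (hg : E.Good ε) (hp : E.Perf) {L P : Submodule k E.M} (hL : E.IsLag L)
    (h : IsCompl L (E.perp P)) : IsCompl L P := by
  refine ⟨?_, ?_⟩
  · rw [Submodule.disjoint_def]
    intro x hx hx'
    refine hp.eq_zero fun w => ?_
    obtain ⟨y, z, rfl, -⟩ := Submodule.existsUnique_add_of_isCompl h w
    rw [map_add, hL.isot x hx y y.2, hg.zero (FM.mem_perp.1 z.2 x hx'), add_zero]
  · rw [codisjoint_iff, ← hg.perp_perp hp (L ⊔ P), FM.perp_sup, hL.2, h.inf_eq_bot, eq_top_iff]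
    intro x _ y hy
    rw [(Submodule.mem_bot k).1 hy, map_zero]

end FiiP

open FiiP in
theorem pFii (hKC : S_KC.{u}) (hFT : S_FT.{u}) (hCm : S_Cmpl.{u}) : S_Fii.{u} := by
  intro R A k _ _ _ _ _ _ _ E ε Λ P P' hΛ hP hs hg hp hP' hc ho hiso
  have := hg.fin
  have ho' : ∀ x ∈ P', ∀ y ∈ P, E.b x y = 0 := fun x hx y hy => hg.zero (ho y hy x hx)
  have hPP : E.perp P = P' := perp_eq hp hc ho' ho
  obtain ⟨π, π1, π2, π3, π4⟩ := proj_along hP hP' hc
  have hJ : E.Stab (Λ ⊓ P') := hΛ.1.inf hP'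
  obtain ⟨e0, e1, e2, e3⟩ := hJ.proj
  have hJi : E.Isot (Λ ⊓ P') := fun x hx y hy => hΛ.isot x hx.1 y hy.1
  obtain ⟨p, h, p1, h1, p2, p3, hph, hh, p4⟩ := dual_iso hg hp hJi
    (e := e0 ∘ₗ (LinearMap.id - π))
    (fun a x => by
      simp only [LinearMap.comp_apply, LinearMap.sub_apply, LinearMap.id_apply]
      rw [π1, ← map_sub, e1])
    (fun x => e2 _)
    (fun x hx => by
      simp only [LinearMap.comp_apply, LinearMap.sub_apply, LinearMap.id_apply]
      rw [(π4 x).2 hx.2, sub_zero, e3 x hx])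
  have pP : ∀ x ∈ P, p x = 0 := fun x hx => p4 x (by
      simp only [LinearMap.comp_apply, LinearMap.sub_apply, LinearMap.id_apply]
      rw [π3 x hx, sub_self, map_zero]) fun y hy => ho x hx y hy.2
  obtain ⟨Λ', hΛ', hcΛ, hle⟩ := hCm R A k E ε Λ (LinearMap.range h) hg hp hΛ h1.range
    (by
      rintro _ ⟨x, rfl⟩ _ ⟨y, rfl⟩
      exact hh x y)
    (by
      rw [Submodule.disjoint_def]
      rintro _ hx ⟨y, rfl⟩
      refine hp.eq_zero fun w => hg.zero ?_
      have e4 : E.b (p (w - p w)) y = 0 := by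
        rw [map_sub, p3 _ (p2 w), sub_self, map_zero, LinearMap.zero_apply]
      rw [hph, map_sub, LinearMap.sub_apply, hΛ.isot _ (p2 w).1 _ hx, sub_zero] at e4
      exact e4)
  have pΛ' : ∀ x ∈ Λ', p x = 0 := fun x hx => hp.eq_zero fun y => by
    rw [hph, hΛ'.isot x hx _ (hle ⟨y, rfl⟩)]
  obtain ⟨q, q1, -, q3, q4⟩ := proj_along hΛ.1 hΛ'.1 hcΛ
  let f : (E.toRM.sub Λ hΛ.1).M →ₗ[k] (E.toRM.sub P hP).M :=
    (π ∘ₗ Λ.subtype).codRestrict P fun x => π2 _
  have hf : Eqv (E.toRM.sub Λ hΛ.1) (E.toRM.sub P hP) f := fun a x => Subtype.ext (π1 a x)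
  obtain ⟨N, hN, hcN⟩ := hf.range.compl
  obtain ⟨g, g1, g2, g3⟩ := hKC R A k _ _ f N hs
    (inferInstanceAs (Module.Finite k Λ)) hiso hf hN hcN
  let r : E.M →ₗ[k] (E.toRM.sub Λ hΛ.1).M := p.codRestrict Λ fun x => (p2 x).1
  have hr : Eqv E.toRM (E.toRM.sub Λ hΛ.1) r := fun a x => Subtype.ext (p1 a x)
  have hfr : ∀ x, f (r x) = 0 := fun x => Subtype.ext ((π4 _).2 (p2 x).2)
  let G : E.M →ₗ[k] E.M := P.subtype ∘ₗ g ∘ₗ r
  have hG : ∀ x, G x = (g (r x) : P) := fun _ => rfl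
  have hGe : Eqv E.toRM E.toRM G := (E.toRM.eqv_subtype P hP).comp (g1.comp hr)
  have hG0 : ∀ x, p x = 0 → G x = 0 := fun x hx => by
    have : r x = 0 := Subtype.ext hx
    rw [hG, this, map_zero]
    rfl
  obtain ⟨n, -, n2, n3, n4⟩ := hFT R A k E ε Λ Λ' E.b G q hg hp hΛ hΛ' hcΛ hGe q1 hg.adj
    fun x hx => ⟨hG0 x (pΛ' x hx), (q4 x).2 hx⟩
  have hdis : Disjoint (Λ.map (LinearMap.id + n)) P' := by
    rw [Submodule.disjoint_def]
    rintro _ ⟨y, hy, rfl⟩ hy'
    rw [LinearMap.add_apply, LinearMap.id_apply] at hy' ⊢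
    have e5 : G y ∈ E.perp (Λ ⊓ P) := fun j hj => by
      have e6 := ho' _ hy' j hj.2
      rw [map_add, LinearMap.add_apply, hΛ.isot y hy j hj.1, zero_add, n2, hG0 j (pP j hj.2),
        map_zero, LinearMap.zero_apply, smul_zero, sub_zero, q3 j hj.1] at e6
      exact e6
    rw [hg.perp_inf hp, hΛ.2, hPP] at e5
    obtain ⟨l, hl, p', hp', e7⟩ := Submodule.mem_sup.1 e5
    have e8 : f ⟨l, hl⟩ = g (r y) := Subtype.ext (by
      change π l = G y
      rw [← π3 (G y) (g (r y)).2, ← e7, map_add, (π4 p').2 hp', add_zero])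
    have e9 : g (r y) = 0 := Submodule.disjoint_def.1 hcN.disjoint _ ⟨_, e8⟩
      (g3 ▸ Submodule.mem_map_of_mem (hfr y))
    have e10 : p y = 0 := congrArg Subtype.val (g2 _ (hfr y) e9)
    have e11 : n y ∈ P' := hPP ▸ fun z hz => by
      rw [n2, hG0 y e10, hG0 z (pP z hz), map_zero, LinearMap.zero_apply, LinearMap.zero_apply,
        smul_zero, sub_zero]
    have e12 : y ∈ P' := (P'.add_mem_iff_left e11).1 hy'
    have e13 : y = 0 := by rw [← p3 y ⟨hy, e12⟩, e10]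
    rw [e13, map_zero, add_zero]
  have hc1 : IsCompl (Λ.map (LinearMap.id + n)) P' := by
    refine (Submodule.isCompl_iff_disjoint _ _ ?_).2 hdis
    have d1 := hg.finrank_perp hp Λ
    have d2 := hg.finrank_perp hp (Λ.map (LinearMap.id + n))
    rw [hΛ.2] at d1
    rw [n3.2] at d2
    have d3 := Submodule.finrank_add_eq_of_isCompl hc
    obtain ⟨w, -⟩ := hiso
    have d4 : Module.finrank k Λ = Module.finrank k P := w.finrank_eq
    omega
  exact ⟨Λ', _, hΛ', n3, hcΛ, n4, compl_perp hg hp n3 (hPP ▸ hc1), hc1⟩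

end Pool.Agent.P.MP_46a8f8_ag.GU
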