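import Pool.Agent.P.MP_46a8f8_ag.GU.Base2

/-!
Package Fld: transversality over a field.
-/

namespace Pool.Agent.P.MP_46a8f8_ag.GU

open TensorProduct Function Matrix IsLocalRing

universe u

namespace FldP

/-- a matrix with the kernel of `Pᵀ` and range inside the range of `P` has the range of `P` -/
theorem onto {κ ι : Type*} [Field κ] [Fintype ι] [DecidableEq ι] (P Q : Matrix ι ι κ)
    (h : ∀ ξ, (P * Q * Pᵀ) *ᵥ ξ = 0 → Pᵀ *ᵥ ξ = 0) (y : ι → κ) :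
    ∃ η, (P * Q * Pᵀ) *ᵥ η = P *ᵥ y := by
  have hk : LinearMap.ker (P * Q * Pᵀ).mulVecLin = LinearMap.ker Pᵀ.mulVecLin := by
    ext ξ
    simp only [LinearMap.mem_ker, mulVecLin_apply]
    refine ⟨h ξ, fun e => ?_⟩
    rw [← mulVec_mulVec, e, mulVec_zero]
  have h1 := LinearMap.finrank_range_add_finrank_ker (P * Q * Pᵀ).mulVecLin
  have h2 := LinearMap.finrank_range_add_finrank_ker Pᵀ.mulVecLin
  have h3 : Module.finrank κ (LinearMap.range Pᵀ.mulVecLin) =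
      Module.finrank κ (LinearMap.range P.mulVecLin) := Matrix.rank_transpose P
  rw [hk] at h1
  have hle : LinearMap.range (P * Q * Pᵀ).mulVecLin ≤ LinearMap.range P.mulVecLin := by
    rintro _ ⟨ξ, rfl⟩
    exact ⟨(Q * Pᵀ) *ᵥ ξ, by simp only [mulVecLin_apply, mulVec_mulVec, Matrix.mul_assoc]⟩
  have he := Submodule.eq_of_le_of_finrank_eq hle (by omega)
  have : P *ᵥ y ∈ LinearMap.range (P * Q * Pᵀ).mulVecLin := he ▸ ⟨y, rfl⟩
  exact this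

theorem ext_mulVec {κ ι : Type*} [CommRing κ] [Fintype ι] [DecidableEq ι] {P Q : Matrix ι ι κ}
    (h : ∀ v, P *ᵥ v = Q *ᵥ v) : P = Q :=
  Matrix.toLin'.injective (LinearMap.ext fun v => by simpa using h v)

end FldP

theorem pFld : S_Fld.{u} := by
  intro R A κ _ _ _ _ _ _ _ ι _ _ ρ δ Λ ω hΛ hω hnd
  have hU : ρ.rm.Stab (Λ.map (LinearMap.fst κ _ _)) := by
    rintro a _ ⟨v, hv, rfl⟩
    exact ⟨_, hΛ.1 a v hv, rfl⟩
  obtain ⟨e0, he1, he2, he3⟩ := hU.proj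
  obtain ⟨e, he⟩ : ∃ e : Matrix ι ι κ, ∀ v, e *ᵥ v = e0 v :=
    ⟨LinearMap.toMatrix' e0, fun v => LinearMap.toMatrix'_mulVec e0 v⟩
  have hc : ∀ a, ρ.ρ a * e = e * ρ.ρ a := fun a => FldP.ext_mulVec fun v => by
    rw [← mulVec_mulVec, ← mulVec_mulVec, he, he]
    exact (he1 a v).symm
  have hee : e * e = e := FldP.ext_mulVec fun v => by
    rw [← mulVec_mulVec, he, he]
    exact he3 _ (he2 v)
  have hfix : ∀ v ∈ Λ, e *ᵥ v.1 = v.1 := fun v hv => by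
    rw [he]
    exact he3 _ ⟨v, hv, rfl⟩
  have hlift : ∀ y, ∃ ξ, (e *ᵥ y, ξ) ∈ Λ := fun y => by
    obtain ⟨v, hv, e1⟩ := he2 y
    refine ⟨v.2, ?_⟩
    rw [he, ← e1]
    exact hv
  have h0 : ∀ ξ : ι → κ, (0, ξ) ∈ Λ ↔ ∀ v ∈ Λ, ξ ⬝ᵥ v.1 = 0 := fun ξ => by
    rw [hΛ.2]
    simp only [hf, dotProduct_zero, smul_zero, sub_zero]
  have hin : ∀ ξ : ι → κ, (0, (1 - e)ᵀ *ᵥ ξ) ∈ Λ := fun ξ => (h0 _).2 fun v hv => by
    rw [mulVec_transpose, ← dotProduct_mulVec, sub_mulVec, one_mulVec, hfix v hv, sub_self,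
      dotProduct_zero]
  have hout : ∀ η : ι → κ, (0, η) ∈ Λ → η ᵥ* (1 - e) = η := fun η hη => by
    have : η ᵥ* e = 0 := by
      refine (dotProduct_eq_zero_iff (v := η ᵥ* e)).1 fun y => ?_
      obtain ⟨ξ, hξ⟩ := hlift y
      rw [← dotProduct_mulVec]
      exact (h0 η).1 hη _ hξ
    rw [vecMul_sub, vecMul_one, this, sub_zero]
  have hker : ∀ ξ, ((1 - e) * ω * (1 - e)ᵀ) *ᵥ ξ = 0 → (1 - e)ᵀ *ᵥ ξ = 0 := fun ξ hξ =>
    hnd _ (hin ξ) fun η hη => by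
      rw [← hout η hη, ← dotProduct_mulVec, mulVec_mulVec, mulVec_mulVec, hξ, dotProduct_zero]
  have hc1 : ∀ a, ρ.ρ a * (1 - e) = (1 - e) * ρ.ρ a := fun a => by
    rw [Matrix.mul_sub, Matrix.sub_mul, hc, Matrix.mul_one, Matrix.one_mul]
  have hpe : (1 - e)ᵀ * eᵀ = 0 := by
    rw [← transpose_mul, Matrix.mul_sub, Matrix.mul_one, hee, sub_self, transpose_zero]
  have hep : eᵀ * (1 - e)ᵀ = 0 := by
    rw [← transpose_mul, Matrix.sub_mul, Matrix.one_mul, hee, sub_self, transpose_zero]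
  have hpp : (1 - e)ᵀ * (1 - e)ᵀ = (1 - e)ᵀ := by
    rw [← transpose_mul, Matrix.sub_mul, Matrix.one_mul, Matrix.mul_sub, Matrix.mul_one, hee,
      sub_self, sub_zero]
  refine ⟨fromBlocks 0 eᵀ (δ • e) ((1 - e) * ω * (1 - e)ᵀ), ⟨?_, fun a => ?_⟩, fun ζ => ?_⟩
  · rw [fromBlocks_transpose, fromBlocks_smul, usmul_usmul, transpose_zero, smul_zero,
      transpose_smul, transpose_transpose, transpose_mul, transpose_mul, transpose_transpose, hω.1,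
      Matrix.smul_mul, Matrix.mul_smul, Matrix.mul_assoc]
  · simp only [MRep.dual_apply, MRep.sum_apply, star_star, fromBlocks_transpose,
      transpose_transpose, transpose_zero, fromBlocks_multiply, Matrix.mul_zero, Matrix.zero_mul,
      add_zero, zero_add]
    congr 1
    · rw [← transpose_mul, ← transpose_mul, hc]
    · rw [Matrix.mul_smul, Matrix.smul_mul, hc]
    · rw [← Matrix.mul_assoc, ← Matrix.mul_assoc, hc1, Matrix.mul_assoc (1 - e), hω.2,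
        Matrix.mul_assoc, Matrix.mul_assoc, Matrix.mul_assoc, Matrix.mul_assoc, ← transpose_mul,
        ← transpose_mul, hc1]
  · obtain ⟨η0, hη0⟩ := FldP.onto (1 - e) ω hker (-(ζ ∘ Sum.inr))
    obtain ⟨ξ, hξ⟩ := hlift (-(δ • (ζ ∘ Sum.inr)))
    refine ⟨_, Λ.add_mem hξ (hin (ζ ∘ Sum.inl - ξ)),
      (1 - e)ᵀ *ᵥ η0 + eᵀ *ᵥ (ξ - ζ ∘ Sum.inl), ?_⟩
    rw [fromBlocks_mulVec]
    simp only [Prod.fst_add, Prod.snd_add, add_zero, Sum.elim_comp_inl, Sum.elim_comp_inr,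
      zero_mulVec, zero_add]
    have e1 : eᵀ *ᵥ ((1 - e)ᵀ *ᵥ η0 + eᵀ *ᵥ (ξ - ζ ∘ Sum.inl)) = eᵀ *ᵥ (ξ - ζ ∘ Sum.inl) := by
      rw [mulVec_add, mulVec_mulVec, mulVec_mulVec, hep, zero_mulVec, zero_add, ← transpose_mul,
        hee]
    have e2 : ((1 - e) * ω * (1 - e)ᵀ) *ᵥ ((1 - e)ᵀ *ᵥ η0 + eᵀ *ᵥ (ξ - ζ ∘ Sum.inl)) =
        (1 - e) *ᵥ (-(ζ ∘ Sum.inr)) := by
      rw [mulVec_add, mulVec_mulVec, mulVec_mulVec, Matrix.mul_assoc _ _ (1 - e)ᵀ, hpp,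
        Matrix.mul_assoc _ _ eᵀ, hpe, Matrix.mul_zero, zero_mulVec, add_zero, hη0]
    have e3 : (δ • e) *ᵥ (e *ᵥ (-(δ • (ζ ∘ Sum.inr)))) = -(e *ᵥ (ζ ∘ Sum.inr)) := by
      rw [smul_mulVec, mulVec_mulVec, hee, mulVec_neg, mulVec_smul, smul_neg, usmul_usmul]
    rw [e1, e2, e3]
    ext i
    rcases i with i | i
    · simp only [transpose_sub, transpose_one, sub_mulVec, one_mulVec, mulVec_sub, Pi.sub_apply,
        Pi.add_apply, Sum.elim_inl, Function.comp_apply]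
      ring
    · simp [sub_mulVec, mulVec_neg]

end Pool.Agent.P.MP_46a8f8_ag.GU
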