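import Pool.Agent.P.MP_46a8f8_ag.GU.Base2

/-!
Gluing two presentations of one form along a fibre product.
-/

namespace Pool.Agent.P.MP_46a8f8_ag.GU

open TensorProduct Function Matrix IsLocalRing

universe u

namespace GlueP

theorem desc {T M N P : Type*} [CommRing T] [AddCommGroup M] [Module T M] [AddCommGroup N]
    [Module T N] [AddCommGroup P] [Module T P] (f : M →ₗ[T] N) (hf : Surjective f)
    (g : M →ₗ[T] P) (h : ∀ m, f m = 0 → g m = 0) : ∃ k : N →ₗ[T] P, ∀ m, k (f m) = g m :=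
  ⟨(LinearMap.ker f).liftQ g (fun m hm => h m hm) ∘ₗ
    (f.quotKerEquivOfSurjective hf).symm.toLinearMap, fun m => by
      have : (f.quotKerEquivOfSurjective hf).symm (f m) = Submodule.Quotient.mk m :=
        (LinearEquiv.symm_apply_eq _).2 rfl
      rw [LinearMap.comp_apply, LinearEquiv.coe_coe, this, Submodule.liftQ_apply]⟩

theorem dot_ext {S ι : Type*} [CommRing S] [Fintype ι] [DecidableEq ι] {v : ι → S}
    (h : ∀ w, w ⬝ᵥ v = 0) : v = 0 :=
  funext fun i => by simpa using h (Pi.single i 1)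

/-- a linear form over the big ring is a dot product -/
theorem rep0 {T S ι : Type*} [CommRing T] [CommRing S] [Algebra T S] [Fintype ι] [DecidableEq ι]
    (hs : Surjective (algebraMap T S)) (φ : (ι → S) →ₗ[T] S) : ∃ w : ι → S, ∀ ξ, φ ξ = w ⬝ᵥ ξ := by
  let φ' : (ι → S) →ₗ[S] S :=
    { toFun := φ
      map_add' := map_add φ
      map_smul' := fun c m => by
        obtain ⟨c, rfl⟩ := hs c
        rw [algebraMap_smul, map_smul, RingHom.id_apply, algebraMap_smul] }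
  refine ⟨fun i => φ (Pi.single i 1), fun ξ => ?_⟩
  have := lin_pi φ' ξ
  refine this.trans ?_
  simp only [dotProduct, smul_eq_mul]
  exact Finset.sum_congr rfl fun i _ => mul_comm _ _

theorem rep {T S ι M : Type*} [CommRing T] [CommRing S] [Algebra T S] [Fintype ι] [DecidableEq ι]
    [AddCommGroup M] [Module T M] (hs : Surjective (algebraMap T S)) {x : T}
    (hx : IsSMulRegular S (algebraMap T S x)) (p : M →ₗ[T] ι → S) (hp : Surjective p)
    (hk : ∀ m, p m = 0 → x • m = 0) (ψ : M →ₗ[T] S) : ∃ w : ι → S, ∀ m, ψ m = w ⬝ᵥ p m := by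
  obtain ⟨φ, hφ⟩ := desc p hp ψ fun m hm => hx (by
    change algebraMap T S x • ψ m = algebraMap T S x • (0 : S)
    rw [algebraMap_smul, ← map_smul, hk m hm, map_zero, smul_zero])
  obtain ⟨w, hw⟩ := rep0 hs φ
  exact ⟨w, fun m => by rw [← hφ, hw]⟩

theorem pd_pi {T S : Type u} [CommRing T] [CommRing S] [Algebra T S] {t : T}
    (ht : IsSMulRegular T t) (hq : Quo t S) (ι : Type) [Fintype ι] : PD T (ι → S) 1 := by
  refine PD.right (t • (LinearMap.id : (ι → T) →ₗ[T] ι → T)) ((Algebra.linearMap T S).compLeft ι)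
    (fun v w h => funext fun i => ht (congrFun h i)) (fun y => ⟨fun h => ?_, ?_⟩) (fun y => ?_)
    (PD.of_projective 0) (PD.of_projective 1)
  · choose c hc using fun i => (hq.2 (y i)).1 (congrFun h i)
    exact ⟨c, funext fun i => (hc i).symm⟩
  · rintro ⟨v, rfl⟩
    exact funext fun i => (hq.2 _).2 ⟨v i, rfl⟩
  · choose c hc using fun i => hq.1 (y i)
    exact ⟨c, funext hc⟩

theorem fibre {T S D V W : Type u} [CommRing T] [CommRing S] [Algebra T S] [CommRing D]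
    [Algebra T D] [CommRing V] [Algebra S V] [Algebra D V] [CommRing W] [Algebra T W] {x t : T}
    (ht : IsSMulRegular D (algebraMap T D t)) (hS : Quo t S) (hD : Quo x D)
    (hV : Quo (algebraMap T S x) V)
    (hc : ∀ c, algebraMap S V (algebraMap T S c) = algebraMap D V (algebraMap T D c))
    (hW : Quo (x * t) W) : ∃ (pS : W →ₗ[T] S) (pD : W →ₗ[T] D),
      (∀ c, pS (algebraMap T W c) = algebraMap T S c) ∧
      (∀ c, pD (algebraMap T W c) = algebraMap T D c) ∧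
      (∀ w w', pS w = pS w' → pD w = pD w' → w = w') ∧
      (∀ w, algebraMap S V (pS w) = algebraMap D V (pD w)) ∧
      ∀ a d, algebraMap S V a = algebraMap D V d → ∃ w, pS w = a ∧ pD w = d := by
  obtain ⟨pS, h1⟩ := desc (Algebra.linearMap T W) hW.1 (Algebra.linearMap T S) fun c h =>
    (hS.2 c).2 ((Dvd.intro_left x rfl).trans ((hW.2 c).1 h))
  obtain ⟨pD, h2⟩ := desc (Algebra.linearMap T W) hW.1 (Algebra.linearMap T D) fun c h =>
    (hD.2 c).2 ((Dvd.intro t rfl).trans ((hW.2 c).1 h))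
  simp only [Algebra.linearMap_apply] at h1 h2
  refine ⟨pS, pD, h1, h2, fun w w' e e' => ?_, fun w => ?_, fun a d e => ?_⟩
  · rw [← sub_eq_zero, ← map_sub] at e e'
    rw [← sub_eq_zero]
    obtain ⟨c, hc⟩ := hW.1 (w - w')
    rw [← hc] at e e' ⊢
    rw [h1] at e
    rw [h2] at e'
    obtain ⟨c1, rfl⟩ := (hS.2 c).1 e
    have : algebraMap T D c1 = 0 := ht (by
      change algebraMap T D t * _ = algebraMap T D t * 0
      rw [← map_mul, e', mul_zero])
    obtain ⟨c2, rfl⟩ := (hD.2 c1).1 this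
    exact (hW.2 _).2 ⟨c2, by ring⟩
  · obtain ⟨c, rfl⟩ := hW.1 w
    rw [h1, h2, hc]
  · obtain ⟨c1, rfl⟩ := hS.1 a
    obtain ⟨c2, rfl⟩ := hD.1 d
    rw [← hc, ← sub_eq_zero, ← map_sub, ← map_sub] at e
    obtain ⟨e1, he1⟩ := (hV.2 _).1 e
    obtain ⟨e1, rfl⟩ := hS.1 e1
    rw [← map_mul, ← sub_eq_zero, ← map_sub] at he1
    obtain ⟨f, hf⟩ := (hS.2 _).1 he1
    refine ⟨algebraMap T W (c2 + x * e1), ?_, ?_⟩
    · rw [h1, ← sub_eq_zero, ← map_sub]
      exact (hS.2 _).2 ⟨-f, by linear_combination -hf⟩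
    · rw [h2, ← sub_eq_zero, ← map_sub]
      exact (hD.2 _).2 ⟨e1, by ring⟩

section one

variable {R A S V : Type u} [CommRing R] [Ring A] [Algebra R A] [StarRing A] [CommRing S]
  [Algebra R S] [CommRing V] [Algebra R V] [Algebra S V] {ι : Type} [Fintype ι] [DecidableEq ι]

/-- the data of one presentation -/
structure Dt (δ : ℤˣ) (N : FM R A V V) (ρ : MRep R A S ι) (l : Matrix ι ι S) (x : S)
    (π : (ι → S) →+ N.M) (s : (ι → S) →ₗ[S] ι → S) : Prop where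
  surj : Surjective π
  smul : ∀ (c : S) ξ, π (c • ξ) = algebraMap S V c • π ξ
  eqv : ∀ a ξ, π (ρ.ρ a *ᵥ ξ) = N.ρ a (π ξ)
  ker : ∀ ξ, π ξ = 0 ↔ ∃ w, l *ᵥ w = ξ
  ls : ∀ ξ, l *ᵥ s ξ = x • ξ
  inj : ∀ v w, l *ᵥ v = l *ᵥ w → v = w
  b : ∀ ξ η, N.b (π ξ) (π η) = algebraMap S V (s ξ ⬝ᵥ η)
  sym : ∀ ξ η, s η ⬝ᵥ ξ = δ • (s ξ ⬝ᵥ η)
  adj : ∀ a ξ η, s (ρ.ρ a *ᵥ ξ) ⬝ᵥ η = s ξ ⬝ᵥ ρ.ρ (star a) *ᵥ η

variable {δ : ℤˣ} {N : FM R A V V} {ρ : MRep R A S ι} {l : Matrix ι ι S} {x : S}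

theorem exists_dt [IsScalarTower R S V] (hx : IsSMulRegular S x) (hs : SymAdj δ ρ l)
    (hp : Pres ρ l x (N.res S)) : ∃ π s, Dt δ N ρ l x π s := by
  obtain ⟨π, h1, h2, h3, h4, h5⟩ := hp
  have inj : ∀ v w, l *ᵥ v = l *ᵥ w → v = w := fun v w e => by
    rw [← sub_eq_zero, ← mulVec_sub] at e
    rw [← sub_eq_zero]
    refine dot_ext fun ξ => hx ?_
    obtain ⟨y, hy⟩ := h4 ξ
    change x • (ξ ⬝ᵥ (v - w)) = x • (0 : S)
    rw [← smul_dotProduct, ← hy, dotProduct_comm, hs.dot, e, dotProduct_zero, smul_zero, smul_zero]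
  obtain ⟨s, hs'⟩ := Module.projective_lifting_property (Matrix.mulVecLin l).rangeRestrict
    ((x • (LinearMap.id : (ι → S) →ₗ[S] ι → S)).codRestrict (LinearMap.range l.mulVecLin) h4)
    (Matrix.mulVecLin l).surjective_rangeRestrict
  have ls : ∀ ξ, l *ᵥ s ξ = x • ξ := fun ξ => congrArg Subtype.val (LinearMap.congr_fun hs' ξ)
  refine ⟨π.toAddMonoidHom, s, h1, fun c ξ => π.map_smul c ξ, h2, h3, ls, inj,
    fun ξ η => h5 ξ η _ (ls ξ), fun ξ η => hx ?_, fun a ξ η => ?_⟩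
  · change x • (s η ⬝ᵥ ξ) = x • δ • (s ξ ⬝ᵥ η)
    rw [← dotProduct_smul, ← ls, hs.dot, ls, dotProduct_smul, smul_comm]
  · have : s (ρ.ρ a *ᵥ ξ) = (ρ.ρ (star a))ᵀ *ᵥ s ξ := inj _ _ (by
      rw [ls, mulVec_mulVec, ← hs.2, ← mulVec_mulVec, ls, mulVec_smul])
    rw [this, mulVec_transpose, dotProduct_mulVec]

variable {π : (ι → S) →+ N.M} {s : (ι → S) →ₗ[S] ι → S}

theorem Dt.sl (h : Dt δ N ρ l x π s) (w : ι → S) : s (l *ᵥ w) = x • w :=
  h.inj _ _ (by rw [h.ls, mulVec_smul])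

theorem Dt.pl (h : Dt δ N ρ l x π s) (w : ι → S) : π (l *ᵥ w) = 0 := (h.ker _).2 ⟨w, rfl⟩

theorem Dt.nd (h : Dt δ N ρ l x π s) (hx : IsSMulRegular S x) {ξ : ι → S}
    (e : ∀ w, s ξ ⬝ᵥ l *ᵥ w = 0) : ξ = 0 := by
  refine dot_ext fun w => hx ?_
  change x • (w ⬝ᵥ ξ) = x • (0 : S)
  rw [← smul_dotProduct, ← h.sl, h.sym, e, smul_zero, smul_zero]

theorem Dt.div (h : Dt δ N ρ l x π s) (hs : SymAdj δ ρ l) (hV : Quo x V) {v : ι → S}
    (e : ∀ w, algebraMap S V (v ⬝ᵥ l *ᵥ w) = 0) : ∃ ξ, s ξ = v := by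
  have h1 : ∀ i, x ∣ (l *ᵥ v) i := fun i => by
    have h2 := hs.dot v (Pi.single i 1)
    rw [single_one_dotProduct] at h2
    rw [h2, Units.smul_def, zsmul_eq_mul]
    exact ((hV.2 _).1 (e _)).mul_left _
  choose ξ hξ using h1
  exact ⟨ξ, h.inj _ _ (by rw [h.ls]; exact funext fun i => (hξ i).symm)⟩

/-- column vectors over a smaller ring of scalars -/
@[reducible] noncomputable def rmT (ρ : MRep R A S ι) (T : Type u) [CommRing T] [Algebra R T]
    [Algebra T S] [IsScalarTower R T S] : RM R A T where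
  M := ι → S
  ρ :=
    { toFun := fun a => (ρ.rm.ρ a).restrictScalars T
      map_one' := LinearMap.ext fun m => by simp
      map_mul' := fun a a' => LinearMap.ext fun m => by simp
      map_zero' := LinearMap.ext fun m => by simp
      map_add' := fun a a' => LinearMap.ext fun m => by simp }
  alg r m := (ρ.rm.alg r m).trans (by
    rw [IsScalarTower.algebraMap_apply R T S, algebraMap_smul])

end one

end GlueP

open GlueP in
theorem pGlue : S_Glue.{u} := by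
  intro R A T S D V W _ _ _ _ _ _ _ _ _ _ _ _ _ _ _ _ _ _ _ _ _ _ _ _ x t δ N ι ι' _ _ _ _ ρ l ρ' l'
    hxT htT hxS htD hS hD hV hV' hc hW _ hN hs hs' hp hp'
  obtain ⟨π, s, h⟩ := exists_dt hxS hs hp
  obtain ⟨π', s', h'⟩ := exists_dt htD hs' hp'
  obtain ⟨pS, pD, f1, f2, fe, fc, fg⟩ := fibre htD hS hD hV hc hW
  let K : Submodule T ((ι → S) × (ι' → D)) :=
    { carrier := {m | π m.1 = π' m.2}
      add_mem' := fun {m m'} e e' => by
        change π (m.1 + m'.1) = π' (m.2 + m'.2)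
        rw [map_add, map_add, e, e']
      zero_mem' := by
        change π 0 = π' 0
        rw [map_zero, map_zero]
      smul_mem' := fun c m e => by
        change π (c • m.1) = π' (c • m.2)
        rw [← algebraMap_smul S c, ← algebraMap_smul D c, h.smul, h'.smul, hc, e] }
  have hK : ((rmT ρ T).prod (rmT ρ' T)).Stab K := fun a m e => by
    change π (ρ.ρ a *ᵥ m.1) = π' (ρ'.ρ a *ᵥ m.2)
    rw [h.eqv, h'.eqv, e]
  have hb : ∀ m m' : K, ∃ w, pS w = s m.1.1 ⬝ᵥ m'.1.1 ∧ pD w = s' m.1.2 ⬝ᵥ m'.1.2 :=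
    fun m m' => fg _ _ (by rw [← h.b, ← h'.b, m.2, m'.2])
  choose b b1 b2 using hb
  have sT : ∀ (c : T) ξ, s (c • ξ) = c • s ξ := fun c ξ => by
    rw [← algebraMap_smul S c, map_smul, algebraMap_smul]
  have sT' : ∀ (c : T) ξ, s' (c • ξ) = c • s' ξ := fun c ξ => by
    rw [← algebraMap_smul D c, map_smul, algebraMap_smul]
  let B : K →ₗ[T] K →ₗ[T] W := LinearMap.mk₂ T b
    (fun m m' n => fe _ _
      (by rw [map_add, b1, b1, b1, ← add_dotProduct, ← map_add]; rfl)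
      (by rw [map_add, b2, b2, b2, ← add_dotProduct, ← map_add]; rfl))
    (fun c m n => fe _ _
      (by rw [map_smul, b1, b1, ← smul_dotProduct, ← sT]; rfl)
      (by rw [map_smul, b2, b2, ← smul_dotProduct, ← sT']; rfl))
    (fun m n n' => fe _ _
      (by rw [map_add, b1, b1, b1, ← dotProduct_add]; rfl)
      (by rw [map_add, b2, b2, b2, ← dotProduct_add]; rfl))
    (fun c m n => fe _ _
      (by rw [map_smul, b1, b1, ← dotProduct_smul]; rfl)
      (by rw [map_smul, b2, b2, ← dotProduct_smul]; rfl))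
  let M : FM R A T W := ⟨((rmT ρ T).prod (rmT ρ' T)).sub K hK, B⟩
  have m1 : ∀ w, ((l *ᵥ w, 0) : (ι → S) × (ι' → D)) ∈ K := fun w => by
    change π (l *ᵥ w) = π' 0
    rw [h.pl, map_zero]
  have m2 : ∀ w, ((0, l' *ᵥ w) : (ι → S) × (ι' → D)) ∈ K := fun w => by
    change π 0 = π' (l' *ᵥ w)
    rw [h'.pl, map_zero]
  have lT : ∀ (c : T) w, l *ᵥ (c • w) = c • l *ᵥ w := fun c w => by
    rw [← algebraMap_smul S c, mulVec_smul, algebraMap_smul]
  let θ : (ι → S) →ₗ[T] K :=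
    { toFun := fun w => ⟨(l *ᵥ w, 0), m1 w⟩
      map_add' := fun v w => Subtype.ext (Prod.ext (mulVec_add l v w) (add_zero _).symm)
      map_smul' := fun c w => Subtype.ext (Prod.ext (lT c w) (smul_zero c).symm) }
  let p1 : K →ₗ[T] ι → S := LinearMap.fst T _ _ ∘ₗ K.subtype
  let p2 : K →ₗ[T] ι' → D := LinearMap.snd T _ _ ∘ₗ K.subtype
  have s1 : Surjective p1 := fun ξ => (h'.surj (π ξ)).elim fun η e => ⟨⟨(ξ, η), e.symm⟩, rfl⟩
  have s2 : Surjective p2 := fun η => (h.surj (π' η)).elim fun ξ e => ⟨⟨(ξ, η), e⟩, rfl⟩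
  have xD : ∀ η : ι' → D, x • η = 0 := fun η => by
    rw [← algebraMap_smul D x, (hD.2 x).2 dvd_rfl, zero_smul]
  have tS : ∀ η : ι → S, t • η = 0 := fun η => by
    rw [← algebraMap_smul S t, (hS.2 t).2 dvd_rfl, zero_smul]
  have : Module.Finite T S := Module.Finite.of_surjective (Algebra.linearMap T S) hS.1
  have : Module.Finite T D := Module.Finite.of_surjective (Algebra.linearMap T D) hD.1
  refine ⟨M, θ.toAddMonoidHom, ⟨inferInstanceAs (Module.Finite T K), fun a m n => fe _ _ ?_ ?_,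
    fun m n => fe _ _ ?_ ?_⟩, FM.perf_of (fun m hm => ?_) fun ψ => ?_, ?_, fun c w => ?_,
    fun a w => ?_, fun w w' c e => fe _ _ ?_ ?_, fun m => ?_⟩
  · exact (b1 _ _).trans ((h.adj a m.1.1 n.1.1).trans (b1 m (M.ρ (star a) n)).symm)
  · exact (b2 _ _).trans ((h'.adj a m.1.2 n.1.2).trans (b2 m (M.ρ (star a) n)).symm)
  · rw [Units.smul_def, map_zsmul, ← Units.smul_def]
    exact (b1 _ _).trans ((h.sym m.1.1 n.1.1).trans (congrArg _ (b1 m n).symm))
  · rw [Units.smul_def, map_zsmul, ← Units.smul_def]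
    exact (b2 _ _).trans ((h'.sym m.1.2 n.1.2).trans (congrArg _ (b2 m n).symm))
  · refine Subtype.ext (Prod.ext (h.nd hxS fun w => ?_) (h'.nd htD fun w => ?_))
    · exact (b1 m ⟨_, m1 w⟩).symm.trans ((congrArg pS (hm _)).trans (map_zero _))
    · exact (b2 m ⟨_, m2 w⟩).symm.trans ((congrArg pD (hm _)).trans (map_zero _))
  · obtain ⟨w1, hw1⟩ := rep hS.1 hxS p1 s1
      (fun m hm => Subtype.ext (Prod.ext ((congrArg (x • ·) hm).trans (smul_zero x)) (xD _)))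
      (pS ∘ₗ ψ)
    obtain ⟨w2, hw2⟩ := rep hD.1 htD p2 s2
      (fun m hm => Subtype.ext (Prod.ext (tS _) ((congrArg (t • ·) hm).trans (smul_zero t))))
      (pD ∘ₗ ψ)
    have e : ∀ m : K, algebraMap S V (w1 ⬝ᵥ m.1.1) = algebraMap D V (w2 ⬝ᵥ m.1.2) := fun m =>
      (congrArg _ (hw1 m).symm).trans ((fc (ψ m)).trans (congrArg _ (hw2 m)))
    obtain ⟨ξ, hξ⟩ := h.div hs hV (v := w1) fun w =>
      (e ⟨_, m1 w⟩).trans (by rw [dotProduct_zero, map_zero])
    obtain ⟨ξ', hξ'⟩ := h'.div hs' hV' (v := w2) fun w =>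
      (e ⟨_, m2 w⟩).symm.trans (by rw [dotProduct_zero, map_zero])
    have hm : π ξ = π' ξ' := hN.ext fun y => by
      obtain ⟨η, hη⟩ := h.surj y
      obtain ⟨η', hη'⟩ := h'.surj y
      have : algebraMap S V (w1 ⬝ᵥ η) = algebraMap D V (w2 ⬝ᵥ η') :=
        e ⟨(η, η'), hη.trans hη'.symm⟩
      rw [← hξ, ← hξ', ← h.b, ← h'.b, hη, hη'] at this
      exact this
    refine ⟨⟨(ξ, ξ'), hm⟩, fun n => fe _ _ ?_ ?_⟩
    · exact (b1 _ n).trans ((congrArg (· ⬝ᵥ n.1.1) hξ).trans (hw1 n).symm)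
    · exact (b2 _ n).trans ((congrArg (· ⬝ᵥ n.1.2) hξ').trans (hw2 n).symm)
  · refine PD.mid θ p2 (fun v w e => h.inj v w (congrArg (fun m : K => m.1.1) e))
      (fun m => ⟨fun hm => ?_, ?_⟩) s2 (pd_pi htT hS ι) (pd_pi hxT hD ι')
    · have e : π m.1.1 = 0 := m.2.trans ((congrArg π' hm).trans (map_zero _))
      obtain ⟨w, hw⟩ := (h.ker _).1 e
      exact ⟨w, Subtype.ext (Prod.ext hw hm.symm)⟩
    · rintro ⟨w, rfl⟩
      rfl
  · rw [algebraMap_smul]
    exact θ.map_smul c w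
  · refine Subtype.ext (Prod.ext ?_ (map_zero (ρ'.rm.ρ a)).symm)
    change l *ᵥ (ρ.ρ (star a))ᵀ *ᵥ w = ρ.ρ a *ᵥ l *ᵥ w
    rw [mulVec_mulVec, mulVec_mulVec, hs.2]
  · refine (b1 (θ w) (θ w')).trans ?_
    change s (l *ᵥ w) ⬝ᵥ l *ᵥ w' = _
    rw [h.sl, smul_dotProduct, f1, map_mul, e, smul_eq_mul]
  · refine (b2 (θ w) (θ w')).trans ?_
    change s' 0 ⬝ᵥ 0 = _
    rw [dotProduct_zero, f2, (hD.2 _).2 (Dvd.intro c rfl)]
  · exact ⟨s m.1.1, Subtype.ext (Prod.ext ((h.ls _).trans (algebraMap_smul S x _)) (xD _).symm)⟩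

end Pool.Agent.P.MP_46a8f8_ag.GU
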