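import Pool.Agent.P.MP_46a8f8_ag.GU.Base2

/-!
Two spaces of the same rank whose difference is hyperbolic are isometric.
-/

namespace Pool.Agent.P.MP_46a8f8_ag.GU

open TensorProduct Function IsLocalRing

universe u

namespace GraphP

section bc

variable {R A k : Type u} [CommRing R] [Ring A] [Algebra R A] [CommRing k] [Algebra R k]

theorem eqv_bc {X Y : RM R A R} {f : X.M →ₗ[R] Y.M} (h : Eqv X Y f) :
    Eqv (X.bc k) (Y.bc k) (f.baseChange k) := fun a x => by
  induction x using TensorProduct.induction_on with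
  | zero => simp only [map_zero]
  | tmul c m => exact congrArg (c ⊗ₜ[R] ·) (h a m)
  | add x y hx hy => simp only [map_add, hx, hy]

theorem orth_bc (E : FM R A R R) {p q : E.M →ₗ[R] E.M} (h : ∀ x y, E.b (p x) (q y) = 0)
    (x y : k ⊗[R] E.M) : (E.bc k).b (p.baseChange k x) (q.baseChange k y) = 0 := by
  induction x using TensorProduct.induction_on with
  | zero => simp only [map_zero, LinearMap.zero_apply]
  | add x x' hx hx' => simp only [map_add, LinearMap.add_apply, hx, hx', add_zero]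
  | tmul c m =>
    induction y using TensorProduct.induction_on with
    | zero => simp only [map_zero]
    | add y y' hy hy' => simp only [map_add, hy, hy', add_zero]
    | tmul c' m' =>
      change LinearMap.BilinForm.baseChange k E.b (c ⊗ₜ[R] p m) (c' ⊗ₜ[R] q m') = 0
      rw [LinearMap.BilinForm.baseChange_tmul, h, zero_smul]

theorem compl_bc {M : Type u} [AddCommGroup M] [Module R M] {p q : M →ₗ[R] M}
    (h1 : p + q = LinearMap.id) (h2 : p ∘ₗ q = 0) (h3 : p ∘ₗ p = p) :
    IsCompl (LinearMap.range (p.baseChange k)) (LinearMap.range (q.baseChange k)) := by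
  constructor
  · rw [Submodule.disjoint_def]
    rintro _ ⟨x, rfl⟩ ⟨y, hy⟩
    have e1 : p.baseChange k (p.baseChange k x) = p.baseChange k x := by
      rw [← LinearMap.comp_apply, ← LinearMap.baseChange_comp, h3]
    rw [← e1, ← hy, ← LinearMap.comp_apply, ← LinearMap.baseChange_comp, h2,
      LinearMap.baseChange_zero, LinearMap.zero_apply]
  · rw [codisjoint_iff, eq_top_iff]
    intro x _
    have e1 : x = p.baseChange k x + q.baseChange k x := by
      rw [← LinearMap.add_apply, ← LinearMap.baseChange_add, h1, LinearMap.baseChange_id,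
        LinearMap.id_apply]
    rw [e1]
    exact Submodule.add_mem_sup ⟨x, rfl⟩ ⟨x, rfl⟩

end bc

/-- Nakayama: a projection of the range of `e` is onto when it is so over the residue field -/
theorem surj_of {R M N : Type u} [CommRing R] [IsLocalRing R] [AddCommGroup M] [Module R M]
    [AddCommGroup N] [Module R N] [Module.Finite R N] (e q : M →ₗ[R] M) (π : M →ₗ[R] N)
    (i : N →ₗ[R] M) (h1 : π ∘ₗ i = LinearMap.id) (h2 : π ∘ₗ q = 0)
    (h : Codisjoint (LinearMap.range (e.baseChange (ResidueField R)))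
      (LinearMap.range (q.baseChange (ResidueField R)))) :
    Surjective (π ∘ₗ (LinearMap.range e).subtype) := by
  have h3 : LinearMap.range (π ∘ₗ e) = ⊤ := by
    rw [← map_tensorProduct_mk_eq_top, eq_top_iff]
    intro x _
    have hx : i.baseChange (ResidueField R) x ∈
        LinearMap.range (e.baseChange (ResidueField R)) ⊔
          LinearMap.range (q.baseChange (ResidueField R)) := by
      rw [codisjoint_iff.1 h]
      trivial
    obtain ⟨_, ⟨y, rfl⟩, _, ⟨z, rfl⟩, hyz⟩ := Submodule.mem_sup.1 hx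
    obtain ⟨y, rfl⟩ := TensorProduct.mk_surjective R M (ResidueField R) residue_surjective y
    refine ⟨π (e y), ⟨y, rfl⟩, ?_⟩
    have e1 := congrArg (π.baseChange (ResidueField R)) hyz
    rw [map_add, ← LinearMap.comp_apply (π.baseChange _) (q.baseChange _),
      ← LinearMap.baseChange_comp, h2, LinearMap.baseChange_zero, LinearMap.zero_apply, add_zero,
      ← LinearMap.comp_apply (π.baseChange _) (i.baseChange _), ← LinearMap.baseChange_comp, h1,
      LinearMap.baseChange_id, LinearMap.id_apply] at e1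
    exact e1
  intro x
  obtain ⟨y, hy⟩ := LinearMap.range_eq_top.1 h3 x
  exact ⟨⟨e y, y, rfl⟩, hy⟩

end GraphP

open GraphP in
theorem pGraph (h1 : S_Fii.{u}) (h2 : S_Lift.{u}) (h3 : S_Bc.{u}) (h4 : S_HypIso.{u}) :
    S_Graph.{u} := by
  intro R A _ _ _ _ _ _ _ E E' ε hR hE hE' hr ⟨e, he⟩
  have hF : (E.sum E'.neg).Sp ε := hE.sum hE'.neg
  have := hE.free
  have := hE'.free
  have := hE.good.fin
  have := hE'.good.fin
  have rk : ∀ e : (E.sum E'.neg).M →ₗ[R] (E.sum E'.neg).M, (he : (E.sum E'.neg).IsProj e) →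
      ((E.sum E'.neg).toRM.sub _ he.1.range).FF ∧
        Module.finrank R (LinearMap.range e) = Module.finrank R E.M := fun e he => by
    obtain ⟨j1, -, j2⟩ := (h4 R A ε).1 _ e he.1.range hF he
    refine ⟨j1, ?_⟩
    have j3 : Module.finrank R (E.M × E'.M) = _ := Module.finrank_prod
    have j4 : Module.finrank R (E.M × E'.M) = _ := j2
    omega
  let p : (E.sum E'.neg).M →ₗ[R] (E.sum E'.neg).M :=
    LinearMap.inl R E.M E'.M ∘ₗ LinearMap.fst R E.M E'.M
  let q : (E.sum E'.neg).M →ₗ[R] (E.sum E'.neg).M :=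
    LinearMap.inr R E.M E'.M ∘ₗ LinearMap.snd R E.M E'.M
  have hp : Eqv (E.sum E'.neg).toRM (E.sum E'.neg).toRM p :=
    fun a m => Prod.ext rfl (map_zero (E'.ρ a)).symm
  have hq : Eqv (E.sum E'.neg).toRM (E.sum E'.neg).toRM q :=
    fun a m => Prod.ext (map_zero (E.ρ a)).symm rfl
  have hpq : ∀ x y, (E.sum E'.neg).b (p x) (q y) = 0 := fun x y => by
    change E.b x.1 0 + -E'.b 0 y.2 = 0
    rw [map_zero, map_zero, LinearMap.zero_apply, neg_zero, add_zero]
  have hP : E.toRM.Iso ((E.sum E'.neg).toRM.sub _ hp.range) := by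
    let f : E.M →ₗ[R] LinearMap.range p := p.rangeRestrict ∘ₗ LinearMap.inl R E.M E'.M
    have hf : Bijective f := by
      refine ⟨fun x y h => congrArg (fun v : LinearMap.range p => v.1.1) h, ?_⟩
      rintro ⟨_, x, rfl⟩
      exact ⟨x.1, rfl⟩
    exact ⟨LinearEquiv.ofBijective f hf, fun a m =>
      Subtype.ext (Prod.ext rfl (map_zero (E'.ρ a)).symm)⟩
  obtain ⟨g1, g2, g3, g4⟩ := h2 R A _ ε e hF he
  have hb := h3 R A (ResidueField R)
  have iso := ((hb _ E.toRM).2.2.2 e he.1.range g3.1 he.2.1).symm.trans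
    (((hb _ _).1 ((hR _ _ (rk e he).1 hE.ff (rk e he).2).trans hP)).trans
      ((hb _ E.toRM).2.2.2 p hp.range (eqv_bc hp).range fun _ => rfl))
  obtain ⟨L', L, l1, l2, l3, l4, l5, l6⟩ := h1 R A (ResidueField R) _ ε _ _
    (LinearMap.range (q.baseChange (ResidueField R))) g3 (eqv_bc hp).range residue_surjective g1 g2
    (eqv_bc hq).range
    (compl_bc (LinearMap.ext fun x => Prod.ext (add_zero _) (zero_add _)) rfl rfl)
    (by
      rintro _ ⟨x, rfl⟩ _ ⟨y, rfl⟩
      exact orth_bc _ hpq x y) iso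
  obtain ⟨e', he', rfl⟩ := g4 L' l1 l3
  obtain ⟨e₁, he₁, rfl⟩ := (h2 R A _ ε e' hF he').2.2.2 L l2 l4.symm
  obtain ⟨⟨_, _⟩, hk⟩ := rk e₁ he₁
  have b1 := OrzechProperty.bijective_of_surjective_of_finrank_le _
    (surj_of e₁ q (LinearMap.fst R E.M E'.M) (LinearMap.inl R E.M E'.M) rfl rfl l6.codisjoint)
    hk.le
  have b2 := OrzechProperty.bijective_of_surjective_of_finrank_le _
    (surj_of e₁ p (LinearMap.snd R E.M E'.M) (LinearMap.inr R E.M E'.M) rfl rfl l5.codisjoint)
    (hk.trans hr).le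
  have q1 : Eqv ((E.sum E'.neg).toRM.sub _ he₁.1.range) E.toRM
    (LinearEquiv.ofBijective _ b1) := fun _ _ => rfl
  have q2 : Eqv ((E.sum E'.neg).toRM.sub _ he₁.1.range) E'.toRM
    (LinearEquiv.ofBijective _ b2) := fun _ _ => rfl
  refine ⟨(LinearEquiv.ofBijective _ b1).symm.trans (LinearEquiv.ofBijective _ b2),
    q2.comp q1.symm, fun x y => ?_⟩
  obtain ⟨x, rfl⟩ := (LinearEquiv.ofBijective _ b1).surjective x
  obtain ⟨y, rfl⟩ := (LinearEquiv.ofBijective _ b1).surjective y
  rw [LinearEquiv.trans_apply, LinearEquiv.trans_apply, LinearEquiv.symm_apply_apply,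
    LinearEquiv.symm_apply_apply]
  exact (add_neg_eq_zero.1 ((he₁.isLag hF.perf).isot _ x.2 _ y.2)).symm

end Pool.Agent.P.MP_46a8f8_ag.GU
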