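import Pool.Agent.P.MP_46a8f8_ag.GU.Base2

/-!
Cancellation of one hyperbolic summand over a local ring.
-/

namespace Pool.Agent.P.MP_46a8f8_ag.GU

open TensorProduct Function Matrix IsLocalRing

universe u

namespace HCP

variable {R A : Type u} [CommRing R] [Ring A] [Algebra R A] [StarRing A] [SA R A]

/-- the inclusion of `X` -/
def inc (E : FM R A R R) (X : RM R A R) (ε : ℤˣ) : X.M →ₗ[R] (E.sum (X.hyp ε)).M :=
  LinearMap.inr R E.M (X.M × Module.Dual R X.M) ∘ₗ LinearMap.inl R X.M (Module.Dual R X.M)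

theorem inc_apply (E : FM R A R R) (X : RM R A R) (ε : ℤˣ) (x : X.M) :
    inc E X ε x = (0, (x, 0)) := rfl

theorem b_apply (E : FM R A R R) (X : RM R A R) (ε : ℤˣ) (u v : (E.sum (X.hyp ε)).M) :
    (E.sum (X.hyp ε)).b u v = E.b u.1 v.1 + (u.2.2 v.2.1 + ε • v.2.2 u.2.1) := rfl

theorem b_inc (E : FM R A R R) (X : RM R A R) (ε : ℤˣ) (u : (E.sum (X.hyp ε)).M) (x : X.M) :
    (E.sum (X.hyp ε)).b u (inc E X ε x) = u.2.2 x := by
  rw [b_apply, inc_apply]
  simp

theorem inc_eqv (E : FM R A R R) (X : RM R A R) (ε : ℤˣ) :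
    Eqv X (E.sum (X.hyp ε)).toRM (inc E X ε) := fun a _ =>
  Prod.ext (map_zero (E.ρ a)).symm (Prod.ext rfl (map_zero (X.dual.ρ a)).symm)

omit [StarRing A] [SA R A] in
theorem eqv_bc {X Y : RM R A R} {f : X.M →ₗ[R] Y.M} (h : Eqv X Y f) (k : Type u) [CommRing k]
    [Algebra R k] : Eqv (X.bc k) (Y.bc k) (f.baseChange k) := by
  intro a m
  have e : f ∘ₗ X.ρ a = Y.ρ a ∘ₗ f := LinearMap.ext (h a)
  have := congrArg (fun g => LinearMap.baseChange k g m) e
  simp only [LinearMap.baseChange_comp, LinearMap.comp_apply] at this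
  exact this

/-- a Lagrangian projector whose image maps onto the dual of `X` gives one for `E` -/
theorem descend (hProj : S_Proj.{u}) [IsNoetherianRing R] {E : FM R A R R} {ε : ℤˣ}
    {X : RM R A R} (hE : E.Sp ε) (hX : X.FF) {e : (E.sum (X.hyp ε)).M →ₗ[R] (E.sum (X.hyp ε)).M}
    (he : (E.sum (X.hyp ε)).IsProj e) (hs : ∀ ξ : Module.Dual R X.M, ∃ v, (e v).2.2 = ξ) :
    E.Hyp := by
  have hE' := hE.sum (hX.hyp ε)
  have hL := he.isLag hE'.perf
  have := hE.free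
  have := hE.good.fin
  obtain ⟨_, _⟩ := hX
  let p3 : (E.sum (X.hyp ε)).M →ₗ[R] Module.Dual R X.M :=
    LinearMap.snd R X.M (Module.Dual R X.M) ∘ₗ LinearMap.snd R E.M (X.M × Module.Dual R X.M)
  let p1 : (E.sum (X.hyp ε)).M →ₗ[R] E.M := LinearMap.fst R E.M (X.M × Module.Dual R X.M)
  obtain ⟨s0, hs0⟩ := Module.projective_lifting_property (p3 ∘ₗ e) LinearMap.id hs
  let s : Module.Dual R X.M →ₗ[R] (E.sum (X.hyp ε)).M := e ∘ₗ s0
  have s1 : ∀ ξ, s ξ ∈ LinearMap.range e := fun ξ => ⟨_, rfl⟩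
  have s2 : ∀ ξ, (s ξ).2.2 = ξ := fun ξ => LinearMap.congr_fun hs0 ξ
  let N : Submodule R E.M := (LinearMap.range e ⊓ LinearMap.ker p3).map p1
  let xm : E.M →ₗ[R] X.M :=
    (Module.evalEquiv R X.M).symm.toLinearMap ∘ₗ E.b.compl₂ (p1 ∘ₗ s)
  have hxm : ∀ v (ξ : Module.Dual R X.M), ξ (xm v) = E.b v (s ξ).1 := fun v ξ =>
    Module.apply_evalEquiv_symm_apply R X.M ξ _
  let σ : E.M →ₗ[R] (E.sum (X.hyp ε)).M :=
    LinearMap.inl R E.M (X.M × Module.Dual R X.M) - ((ε : ℤ) : R) • (inc E X ε ∘ₗ xm)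
  have σ1 : ∀ v, (σ v).1 = v := fun v => by
    change v - ((ε : ℤ) : R) • (0 : E.M) = v
    rw [smul_zero, sub_zero]
  have σ2 : ∀ v, (σ v).2.1 = -(((ε : ℤ) : R) • xm v) := fun v => zero_sub _
  have σ3 : ∀ v, (σ v).2.2 = 0 := fun v => by
    change (0 : Module.Dual R X.M) - ((ε : ℤ) : R) • (0 : Module.Dual R X.M) = 0
    rw [smul_zero, sub_zero]
  have hr : ∀ w ∈ LinearMap.range e, w - s (p3 w) ∈ LinearMap.range e ⊓ LinearMap.ker p3 :=
    fun w hw => ⟨Submodule.sub_mem _ hw (s1 _), by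
      change p3 _ = 0
      rw [map_sub]
      exact sub_eq_zero.2 (s2 _).symm⟩
  have hσ : ∀ v ∈ E.perp N, σ v ∈ LinearMap.range e := by
    intro v hv
    refine hL.mem.2 fun w hw => ?_
    have h1 : E.b v (w.1 - (s (p3 w)).1) = 0 := hv _ ⟨_, hr w hw, rfl⟩
    rw [map_sub, ← hxm, sub_eq_zero] at h1
    rw [b_apply, σ1, σ2, σ3, h1, LinearMap.zero_apply, zero_add, map_neg, map_smul]
    change w.2.2 (xm v) + _ = 0
    rcases Int.units_eq_one_or ε with rfl | rfl <;> simp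
  have hN1 : N ≤ E.perp N := by
    rintro _ ⟨v, ⟨hv, hv'⟩, rfl⟩ _ ⟨w, ⟨hw, hw'⟩, rfl⟩
    have h1 := hL.isot v hv w hw
    have h2 : v.2.2 = 0 := hv'
    have h3 : w.2.2 = 0 := hw'
    rw [b_apply, h2, h3] at h1
    change E.b v.1 w.1 = 0
    simpa using h1
  have hN : E.IsLag N := by
    refine ⟨?_, le_antisymm (fun v hv => ⟨σ v, ⟨hσ v hv, σ3 v⟩, σ1 v⟩) hN1⟩
    rintro a _ ⟨v, ⟨hv, hv'⟩, rfl⟩
    refine ⟨(E.sum (X.hyp ε)).ρ a v, ⟨hL.1 a v hv, ?_⟩, rfl⟩
    have h2 : v.2.2 = 0 := hv'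
    change X.dual.ρ a v.2.2 = 0
    rw [h2, map_zero]
  let q : E.M →ₗ[R] N := (p1 ∘ₗ (LinearMap.id - s ∘ₗ p3) ∘ₗ e ∘ₗ σ).codRestrict N
    fun v => ⟨_, hr _ ⟨σ v, rfl⟩, rfl⟩
  have hq : ∀ y : N, q y = y := fun y => Subtype.ext (by
    obtain ⟨w, hw⟩ := hσ y (hN1 y.2)
    have h1 : e (σ y) = σ y := by rw [← hw, he.2.1]
    change p1 (e (σ y) - s (p3 (e (σ y)))) = y
    have h2 : p3 (σ y) = 0 := σ3 y
    rw [h1, h2, map_zero, sub_zero]
    exact σ1 y)
  obtain ⟨e0, h0, -⟩ := hProj R A R E ε N hE.good hE.perf hN inferInstance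
    (Module.Projective.of_split N.subtype q (LinearMap.ext hq)) fun ψ =>
      (hE.perf.exists (ψ ∘ₗ q)).imp fun x hx y => by rw [hx, LinearMap.comp_apply, hq]
  exact ⟨e0, h0⟩

/-- a functional with values in an ideal -/
theorem mem_smul_top {M : Type u} [AddCommGroup M] [Module R M] [Module.Free R M]
    [Module.Finite R M] (I : Ideal R) (η : Module.Dual R M) (h : ∀ x, η x ∈ I) :
    η ∈ I • (⊤ : Submodule R (Module.Dual R M)) := by
  classical
  let b := Module.Free.chooseBasis R M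
  rw [← b.sum_dual_apply_smul_coord η]
  exact Submodule.sum_mem _ fun i _ => Submodule.smul_mem_smul (h _) trivial

/-- Nakayama -/
theorem onto [IsLocalRing R] {E : FM R A R R} {ε : ℤˣ} {X : RM R A R} (hX : X.FF)
    {e : (E.sum (X.hyp ε)).M →ₗ[R] (E.sum (X.hyp ε)).M}
    (hg : ((E.sum (X.hyp ε)).bc (ResidueField R)).Good ε)
    (hp : ((E.sum (X.hyp ε)).bc (ResidueField R)).Perf)
    (hL : ((E.sum (X.hyp ε)).bc (ResidueField R)).IsLag
      (LinearMap.range (e.baseChange (ResidueField R))))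
    (hd : Disjoint (LinearMap.range (e.baseChange (ResidueField R)))
      (LinearMap.range ((inc E X ε).baseChange (ResidueField R)))) :
    ∀ ξ : Module.Dual R X.M, ∃ v, (e v).2.2 = ξ := by
  obtain ⟨_, _⟩ := hX
  let p3 : (E.sum (X.hyp ε)).M →ₗ[R] Module.Dual R X.M :=
    LinearMap.snd R X.M (Module.Dual R X.M) ∘ₗ LinearMap.snd R E.M (X.M × Module.Dual R X.M)
  have h1 := hg.perp_inf hp (LinearMap.range (e.baseChange (ResidueField R)))
    (LinearMap.range ((inc E X ε).baseChange (ResidueField R)))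
  rw [hd.eq_bot, hL.2] at h1
  have h2 : (⊤ : Submodule R (Module.Dual R X.M)) ≤
      LinearMap.range (p3 ∘ₗ e) ⊔ maximalIdeal R • ⊤ := by
    intro ξ _
    have h3 : (1 : ResidueField R) ⊗ₜ[R] ((0, (0, ξ)) : (E.sum (X.hyp ε)).M) ∈
        ((E.sum (X.hyp ε)).bc (ResidueField R)).perp ⊥ := fun y hy => by
      rw [(Submodule.mem_bot _).1 hy, map_zero]
    rw [h1] at h3
    obtain ⟨_, ⟨t, rfl⟩, w, hw, h4⟩ := Submodule.mem_sup.1 h3
    obtain ⟨v, rfl⟩ := TensorProduct.mk_surjective R (E.sum (X.hyp ε)).M (ResidueField R)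
      residue_surjective t
    have h5 : w = (1 : ResidueField R) ⊗ₜ[R] (((0, (0, ξ)) : (E.sum (X.hyp ε)).M) - e v) := by
      rw [tmul_sub, ← h4]
      exact (add_sub_cancel_left _ _).symm
    have h6 : ξ = p3 (e v) + (ξ - p3 (e v)) := (add_sub_cancel _ _).symm
    rw [h6]
    refine Submodule.add_mem_sup ⟨v, rfl⟩ (mem_smul_top _ _ fun x => ?_)
    have h7 := hw _ ⟨(1 : ResidueField R) ⊗ₜ[R] x, rfl⟩
    rw [h5, LinearMap.baseChange_tmul] at h7
    have h8 := (LinearMap.BilinForm.baseChange_tmul (E.sum (X.hyp ε)).b (1 : ResidueField R) _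
      (1 : ResidueField R) _).symm.trans h7
    rw [b_inc, mul_one, ← Algebra.algebraMap_eq_smul_one] at h8
    exact (residue_eq_zero_iff _).1 h8
  have h9 := Submodule.le_of_le_smul_of_le_jacobson_bot Module.Finite.fg_top
    (maximalIdeal_le_jacobson ⊥) h2
  exact fun ξ => h9 (Submodule.mem_top (x := ξ))

end HCP

open HCP

theorem pHC (hFi : S_Fi.{u}) (hLift : S_Lift.{u}) (hBc : S_Bc.{u}) (hHI : S_HypIso.{u})
    (hProj : S_Proj.{u}) : S_HC.{u} := by
  intro R A _ _ _ _ _ _ _ E ε X Y hRk hE hX hY hr ⟨e, he⟩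
  have hE' := hE.sum (hX.hyp ε)
  obtain ⟨h1, -, h2⟩ := (hHI R A ε).1 _ e he.1.range hE' he
  obtain ⟨hg, hp, hL, hl⟩ := hLift R A _ ε e hE' he
  have h3 : ((E.sum (X.hyp ε)).toRM.sub _ he.1.range).Iso (Y.prod (X.prod X.dual)) := by
    refine hRk _ _ h1 (hY.prod (hX.prod hX.dual)) ?_
    have := hE.free
    have := hE.good.fin
    obtain ⟨_, _⟩ := hX
    obtain ⟨_, _⟩ := hY
    change Module.finrank R (E.M × (X.M × Module.Dual R X.M)) = _ at h2
    change Module.finrank R (LinearMap.range e) =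
      Module.finrank R (Y.M × (X.M × Module.Dual R X.M))
    rw [Module.finrank_prod, Module.finrank_prod, Module.finrank_linearMap_self] at h2 ⊢
    omega
  have h4 : (((E.sum (X.hyp ε)).bc (ResidueField R)).toRM.sub _ hL.1).Iso
      ((Y.bc (ResidueField R)).prod
        ((X.bc (ResidueField R)).prod (X.bc (ResidueField R)).dual)) :=
    ((hBc R A (ResidueField R) (E.sum (X.hyp ε)).toRM Y).2.2.2 e he.1.range hL.1
      he.2.1).symm.trans (((hBc R A (ResidueField R) _ _).1 h3).trans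
      ((hBc R A (ResidueField R) Y _).2.1.trans ((RM.Iso.refl _).prod
        ((hBc R A (ResidueField R) X X.dual).2.1.trans ((RM.Iso.refl _).prod
          ((hBc R A (ResidueField R) X Y).2.2.1 hX))))))
  have h5 : Injective ((inc E X ε).baseChange (ResidueField R)) := by
    let p2 : (E.sum (X.hyp ε)).M →ₗ[R] X.M :=
      LinearMap.fst R X.M (Module.Dual R X.M) ∘ₗ LinearMap.snd R E.M (X.M × Module.Dual R X.M)
    have e1 : p2 ∘ₗ inc E X ε = LinearMap.id := rfl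
    refine LeftInverse.injective (g := p2.baseChange (ResidueField R)) fun x => ?_
    rw [← LinearMap.comp_apply, ← LinearMap.baseChange_comp, e1, LinearMap.baseChange_id,
      LinearMap.id_apply]
  have h6 : ((E.sum (X.hyp ε)).bc (ResidueField R)).Isot
      (LinearMap.range ((inc E X ε).baseChange (ResidueField R))) := by
    rintro _ ⟨x, rfl⟩ _ ⟨y, rfl⟩
    obtain ⟨x, rfl⟩ := TensorProduct.mk_surjective R X.M (ResidueField R) residue_surjective x
    obtain ⟨y, rfl⟩ := TensorProduct.mk_surjective R X.M (ResidueField R) residue_surjective y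
    refine (LinearMap.BilinForm.baseChange_tmul (E.sum (X.hyp ε)).b (1 : ResidueField R)
      (inc E X ε x) (1 : ResidueField R) (inc E X ε y)).trans ?_
    rw [b_inc, inc_apply, LinearMap.zero_apply, zero_smul]
  obtain ⟨Λ', Λ₁, a1, a2, a3, a4, a5⟩ := hFi R A (ResidueField R) _ ε _ hL (X.bc _) (Y.bc _)
    ((inc E X ε).baseChange (ResidueField R)) residue_surjective hg hp
    (eqv_bc (inc_eqv E X ε) _) h5 h6 h4
  obtain ⟨e', he', rfl⟩ := hl Λ' a1 a3
  obtain ⟨e₁, he₁, rfl⟩ := (hLift R A _ ε e' hE' he').2.2.2 Λ₁ a2 a4.symm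
  exact descend hProj hE hX he₁ (onto hX hg hp a2 a5)

end Pool.Agent.P.MP_46a8f8_ag.GU
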