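import Pool.Agent.P.MP_46a8f8_ag.GU.Base2

/-!
A stably hyperbolic space of the right rank is hyperbolic.
-/

namespace Pool.Agent.P.MP_46a8f8_ag.GU

open TensorProduct Function Matrix IsLocalRing

universe u

namespace HC2P

variable {R A : Type u} [CommRing R] [IsLocalRing R] [Ring A] [Algebra R A]

theorem rank_prod {X Y : RM R A R} (h : X.FF) (h' : Y.FF) :
    Module.finrank R (X.prod Y).M = Module.finrank R X.M + Module.finrank R Y.M := by
  obtain ⟨_, _⟩ := h
  obtain ⟨_, _⟩ := h'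
  exact Module.finrank_prod

variable [StarRing A] [SA R A]

theorem rank_dual {X : RM R A R} (h : X.FF) :
    Module.finrank R X.dual.M = Module.finrank R X.M := by
  obtain ⟨_, _⟩ := h
  exact Module.finrank_linearMap_self R R X.M

theorem exists_pow (m : ℕ) :
    ∃ Z : RM R A R, Z.FF ∧ Module.finrank R Z.M = Module.finrank R A * m := by
  induction m with
  | zero =>
    exact ⟨(RM.reg R A).sub ⊥ (RM.stab_bot _),
      ⟨inferInstanceAs (Module.Free R (⊥ : Submodule R A)),
        inferInstanceAs (Module.Finite R (⊥ : Submodule R A))⟩, finrank_bot R A⟩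
  | succ m ih =>
    obtain ⟨Z, h1, h2⟩ := ih
    exact ⟨Z.prod (RM.reg R A), h1.prod RM.reg_ff, by rw [rank_prod h1 RM.reg_ff, h2, mul_add_one]⟩

theorem exists_compl (h : S_Cover.{u}) {X : RM R A R} (hX : X.FF) : ∃ (X' : RM R A R) (m : ℕ),
    X'.FF ∧ Module.finrank R X.M + Module.finrank R X'.M = Module.finrank R A * m := by
  obtain ⟨_, _⟩ := hX
  obtain ⟨ι, _, _, ρ, π, h1, h2, m, h3⟩ := h R A R X inferInstance
  obtain ⟨s, hs⟩ := π.exists_rightInverse_of_surjective (LinearMap.range_eq_top.2 h1)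
  have hs' : ∀ x, π (s x) = x := LinearMap.congr_fun hs
  let r : (ι → R) →ₗ[R] LinearMap.ker π := (LinearMap.id - s ∘ₗ π).codRestrict _ fun v => by
    simp [hs']
  have hr : r ∘ₗ (LinearMap.ker π).subtype = LinearMap.id := LinearMap.ext fun v =>
    Subtype.ext (by simp [r])
  have : Module.Projective R (LinearMap.ker π) := .of_split _ _ hr
  have : Module.Finite R (LinearMap.ker π) :=
    .of_surjective r fun v => ⟨v, LinearMap.congr_fun hr v⟩
  have : Module.Free R (LinearMap.ker π) := Module.free_of_flat_of_isLocalRing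
  refine ⟨RM.sub _ _ h2.ker, m, ⟨this, inferInstance⟩, ?_⟩
  let e : (ι → R) ≃ₗ[R] X.M × LinearMap.ker π := LinearEquiv.ofLinearMap (π.prod r)
    (s.coprod (LinearMap.ker π).subtype)
    (LinearMap.ext fun v => Prod.ext (by simp [hs']) (Subtype.ext (by simp [r, hs'])))
    (LinearMap.ext fun v => by simp [r])
  rw [← h3, ← Module.finrank_fintype_fun_eq_card R, e.finrank_eq, Module.finrank_prod]

end HC2P

open HC2P in
theorem pHC2 (h1 : S_HC.{u}) (h2 : S_HypIso.{u}) (h3 : S_Cover.{u}) : S_HC2.{u} := by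
  intro R A _ _ _ _ _ _ _ E ε hR hE hr ⟨H, hH, ⟨e, he⟩, hs⟩
  obtain ⟨i1, i2, i3⟩ := h2 R A ε
  have key : ∀ (m : ℕ) (Z : RM R A R), Z.FF → Module.finrank R Z.M = Module.finrank R A * m →
      (E.sum (Z.hyp ε)).Hyp → E.Hyp := by
    intro m
    induction m with
    | zero =>
      intro Z hZ hz
      exact h1 R A E ε Z (RM.reg R A) hR hE hZ RM.reg_ff (by rw [hz, hr, mul_zero, zero_add])
    | succ m ih =>
      intro Z hZ hz hh
      obtain ⟨Y, hY, hy⟩ := exists_pow (R := R) (A := A) m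
      have j := hR Z (Y.prod (RM.reg R A)) hZ (hY.prod RM.reg_ff)
        (by rw [rank_prod hY RM.reg_ff, hz, hy, mul_add_one])
      refine ih Y hY hy (h1 R A _ ε (RM.reg R A) Y hR (hE.sum (hY.hyp ε)) RM.reg_ff hY ?_
        ((((FM.Iso.refl E).sum ((i2 _ _ j).trans (i3 _ _))).trans
          (FM.sum_assoc _ _ _).symm).hyp hh))
      refine (rank_prod hE.ff (hY.prod hY.dual)).trans ?_
      rw [rank_prod hY hY.dual, rank_dual hY, hr, mul_add, two_mul (Module.finrank R Y.M)]
  obtain ⟨hX, j, -⟩ := i1 H e he.1.range hH he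
  obtain ⟨X', m, hX', hm⟩ := exists_compl h3 hX
  exact key m _ (hX.prod hX') ((rank_prod hX hX').trans hm)
    (((FM.sum_assoc _ _ _).trans ((FM.Iso.refl E).sum
      ((j.sum (FM.Iso.refl _)).trans (i3 _ _).symm))).hyp (hs.sum (X'.hyp_hyp ε)))

end Pool.Agent.P.MP_46a8f8_ag.GU
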