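import Pool.Agent.P.MP_46a8f8_ag.GU.Base2

/-! Rings that are regular of dimension one or two at all maximal ideals. -/

namespace Pool.Agent.P.MP_46a8f8_ag.GU

open IsLocalRing Function

universe u

namespace HeredP

theorem dvr (O : Type u) [CommRing O] [h : IsRegularLocalRing O] [IsDomain O]
    (hd : ringKrullDim O = (1 : ℕ)) : IsDiscreteValuationRing O := by
  have h1 := (IsRegularLocalRing.iff_finrank_cotangentSpace O).1 h
  rw [hd] at h1
  exact finrank_CotangentSpace_eq_one_iff.1 (by exact_mod_cast h1)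

theorem ne_zero {T : Type u} [CommRing T] (𝔫 : Ideal T) [𝔫.IsPrime] {f : T}
    (hf : IsSMulRegular T f) : algebraMap T (Localization.AtPrime 𝔫) f ≠ 0 := fun h => by
  obtain ⟨s, hs⟩ := (IsLocalization.map_eq_zero_iff 𝔫.primeCompl _ f).1 h
  have : (s : T) = 0 := hf (by simpa [mul_comm] using hs)
  exact s.2 (this ▸ 𝔫.zero_mem)

theorem par {T D : Type u} [CommRing T] (𝔫 : Ideal T) [𝔫.IsMaximal] (f : T) [CommRing D]
    [IsDomain D] [IsDiscreteValuationRing D] (φ : Localization.AtPrime 𝔫 →+* D)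
    (hφ : Surjective φ) (hf : φ (algebraMap T _ f) ≠ 0) :
    ∃ (D : Type u) (_ : CommRing D) (_ : IsDomain D)
      (_ : IsDiscreteValuationRing D) (_ : Algebra T D), algebraMap T D f ≠ 0 ∧
      (maximalIdeal D).comap (algebraMap T D) = 𝔫 ∧
      ∀ d : D, ∃ u : T, d - algebraMap T D u ∈ maximalIdeal D := by
  have := IsLocalHom.of_surjective φ hφ
  have hm := maximalIdeal_comap φ
  refine ⟨D, _, inferInstance, inferInstance, (φ.comp (algebraMap T _)).toAlgebra, hf, ?_,
    fun d => ?_⟩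
  · change (maximalIdeal D).comap (φ.comp (algebraMap T _)) = 𝔫
    rw [← Ideal.comap_comap, hm]
    exact Localization.AtPrime.under_maximalIdeal
  · obtain ⟨o, rfl⟩ := hφ d
    obtain ⟨y, hy⟩ := (IsLocalization.AtPrime.equivQuotMaximalIdeal 𝔫
      (Localization.AtPrime 𝔫)).surjective (Ideal.Quotient.mk _ o)
    obtain ⟨a, rfl⟩ := Ideal.Quotient.mk_surjective y
    rw [IsLocalization.AtPrime.equivQuotMaximalIdeal_apply_mk, eq_comm, Ideal.Quotient.eq,
      ← hm, Ideal.mem_comap, map_sub] at hy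
    exact ⟨a, hy⟩

/-- A regular parameter that does not divide a given nonzero element. -/
theorem param (O : Type u) [CommRing O] [IsRegularLocalRing O]
    (hd : ringKrullDim O = (2 : ℕ)) {g : O} (hg : g ≠ 0) :
    ∃ z ∈ maximalIdeal O, z ∉ maximalIdeal O ^ 2 ∧ g ∉ Ideal.span {z} := by
  have hfin := ((Ideal.span {g}).finite_minimalPrimes_of_isNoetherianRing O).insert
    (maximalIdeal O ^ 2)
  have h1 : ¬ ((maximalIdeal O : Set O) ⊆
      ⋃ i ∈ insert (maximalIdeal O ^ 2) (Ideal.span {g}).minimalPrimes, (id i : Ideal O)) := by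
    rw [Ideal.subset_union_prime_finite hfin (f := id) (maximalIdeal O ^ 2) (maximalIdeal O ^ 2)
      fun i hi hne _ => (hi.resolve_left hne).1.1]
    rintro ⟨i, rfl | hi, hle⟩
    · exact PdP.not_le_sq 1 hd hle
    · have h2 := Ideal.height_le_one_of_isPrincipal_of_mem_minimalPrimes _ i hi
      have h3 : i = maximalIdeal O := le_antisymm (le_maximalIdeal hi.1.1.ne_top) hle
      have h4 := maximalIdeal_height_eq_ringKrullDim (R := O)
      rw [hd, ← h3] at h4
      have h5 : i.height = (2 : ℕ) := WithBot.coe_injective h4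
      rw [h5] at h2
      exact absurd h2 (by norm_num)
  obtain ⟨z, hz, hz'⟩ := Set.not_subset.1 h1
  simp only [Set.mem_iUnion, not_exists] at hz'
  have hz2 : z ∉ maximalIdeal O ^ 2 := hz' _ (Set.mem_insert _ _)
  refine ⟨z, hz, hz2, fun hgz => ?_⟩
  have := (rQuot O z hz hz2).1
  have := rDom (O ⧸ Ideal.span {z})
  have := (Ideal.Quotient.isDomain_iff_prime (Ideal.span {z})).1 this
  obtain ⟨p, hp, hle⟩ := Ideal.exists_minimalPrimes_le
    ((Ideal.span_singleton_le_iff_mem _).2 hgz)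
  have hzp : z ∉ p := hz' p (Set.mem_insert_of_mem _ hp)
  have h0 : p = ⊥ := by
    refine Submodule.eq_bot_of_le_smul_of_le_jacobson_bot (maximalIdeal O) _
      p.fg_of_isNoetherianRing (fun a ha => ?_) (maximalIdeal_le_jacobson _)
    obtain ⟨b, rfl⟩ := Ideal.mem_span_singleton'.1 (hle ha)
    rw [mul_comm]
    exact Submodule.smul_mem_smul hz ((hp.1.1.mem_or_mem ha).resolve_right hzp)
  exact hg ((Submodule.mem_bot O).1 (h0 ▸ hp.1.2 (Ideal.mem_span_singleton_self g)))

end HeredP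

open HeredP

theorem pHered : S_Hered.{u} := by
  intro T _ _ h
  refine ⟨fun M _ _ _ => ?_, fun f hf 𝔫 h𝔫 => ?_⟩
  · obtain ⟨n, π, hπ⟩ := Module.Finite.exists_fin' T M
    have := Module.finitePresentation_of_finite T (LinearMap.ker π)
    have : Module.Projective T (LinearMap.ker π) := by
      refine Module.projective_of_localization_maximal fun 𝔫 h𝔫 => ?_
      obtain ⟨h1, h2⟩ := (regAt T (Localization.AtPrime 𝔫) 𝔫 1).1 (h 𝔫 h𝔫)
      have := rDom (Localization.AtPrime 𝔫)
      have := dvr _ h2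
      have : Module.Free (Localization.AtPrime 𝔫) (LocalizedModule 𝔫.primeCompl (Fin n → T)) :=
        Module.free_of_isLocalizedModule 𝔫.primeCompl (LocalizedModule.mkLinearMap _ _)
      have := (LocalizedModule.map_injective 𝔫.primeCompl _
        (LinearMap.ker π).injective_subtype).moduleIsTorsionFree
        (R := Localization.AtPrime 𝔫) _ (map_smul _)
      infer_instance
    exact PD.right (LinearMap.ker π).subtype π (LinearMap.ker π).injective_subtype
      (LinearMap.exact_subtype_ker_map π) hπ (PD.of_projective 0) (PD.of_projective 1)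
  · obtain ⟨h1, h2⟩ := (regAt T (Localization.AtPrime 𝔫) 𝔫 1).1 (h 𝔫 h𝔫)
    have := rDom (Localization.AtPrime 𝔫)
    have := dvr _ h2
    exact par 𝔫 f (RingHom.id _) surjective_id (ne_zero 𝔫 hf)

theorem pParH2 : S_ParH2.{u} := by
  intro T _ _ h f hf 𝔫 h𝔫
  obtain ⟨h1, h2⟩ := (regAt T (Localization.AtPrime 𝔫) 𝔫 2).1 (h 𝔫 h𝔫)
  obtain ⟨z, hz, hz2, hg⟩ := param _ h2 (ne_zero 𝔫 hf)
  obtain ⟨h3, h4⟩ := rQuot _ z hz hz2
  have := rDom (Localization.AtPrime 𝔫 ⧸ Ideal.span {z})
  have := dvr _ (PdP.dim_eq (d := 1) (h4.trans h2))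
  exact par 𝔫 f (Ideal.Quotient.mk (Ideal.span {z})) Ideal.Quotient.mk_surjective
    fun h0 => hg (Ideal.Quotient.eq_zero_iff_mem.1 h0)

end Pool.Agent.P.MP_46a8f8_ag.GU
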