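import Pool.Agent.P.MP_46a8f8_ag.GU.Base2

/-!
Package Herm: hermitian units which are norms over the fraction field are norms.
-/

namespace Pool.Agent.P.MP_46a8f8_ag.GU

open TensorProduct Function Matrix IsLocalRing

universe u

namespace HermP

variable {R A : Type u} [CommRing R] [Ring A] [Algebra R A] [StarRing A] [SA R A]

theorem star_smul' (r : R) (x : A) : star (r • x) = r • star x := by
  rw [Algebra.smul_def, star_mul, SA.st, Algebra.smul_def, Algebra.commutes]

variable (R A) in
/-- the involution as a linear map -/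
def stL : A →ₗ[R] A where
  toFun := star
  map_add' := star_add
  map_smul' := star_smul'

/-- the form `τ (x h y*)` -/
@[reducible] def Eh (τ : A →ₗ[R] R) (h : A) : FM R A R R where
  toRM := RM.reg R A
  b := LinearMap.mk₂ R (fun x y : A => τ (x * h * star y))
    (fun x x' y => by rw [add_mul, add_mul, map_add])
    (fun r x y => by rw [smul_mul_assoc, smul_mul_assoc, map_smul])
    (fun x y y' => by rw [star_add, mul_add, map_add])
    (fun r x y => by rw [star_smul', mul_smul_comm, map_smul])

omit [SA R A] in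
theorem tr_ext {τ : A →ₗ[R] R} (hp : PerfTr τ) {x x' : A}
    (h : ∀ y, τ (x * star y) = τ (x' * star y)) : x = x' :=
  hp.1 (LinearMap.ext fun z => by simpa using h (star z))

theorem eh_sp {τ : A →ₗ[R] R} {ε : ℤˣ} (htr : ∀ x y, τ (x * y) = τ (y * x)) (hp : PerfTr τ)
    (hst : ∀ x, τ (star x) = ε • τ x) (h : Aˣ) (hh : star (h : A) = h) : (Eh τ (h : A)).Sp ε := by
  refine ⟨⟨SA.fin, fun a (x y : A) => ?_, fun x y : A => ?_⟩,
    FM.perf_of (fun (x : A) hx => ?_) fun ψ => ?_, SA.free⟩
  · change τ (a * x * h * star y) = τ (x * h * star (star a * y))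
    rw [star_mul, star_star, mul_assoc a, mul_assoc a, htr, mul_assoc _ (star y)]
  · change τ (y * h * star x) = ε • τ (x * h * star y)
    rw [← hst, star_mul, star_mul, star_star, hh, mul_assoc]
  · have : x * h = 0 := tr_ext hp fun y => by
      rw [zero_mul, map_zero]
      exact hx y
    exact (Units.mul_left_eq_zero h).1 this
  · obtain ⟨w, hw⟩ := hp.2 (ψ ∘ₗ stL R A)
    refine ⟨w * (h⁻¹ : Aˣ), fun y : A => ?_⟩
    change τ (w * (h⁻¹ : Aˣ) * h * star y) = ψ y
    rw [Units.inv_mul_cancel_right]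
    have := LinearMap.congr_fun hw (star y)
    simpa [stL] using this

theorem hasLag [IsDomain R] {τ : A →ₗ[R] R} (hp : PerfTr τ) {h c c' : A} {d d' : R} (hd : d ≠ 0)
    (hd' : d' ≠ 0) (h1 : c * star c = (d * d) • h) (h2 : c' * c = algebraMap R A d') :
    ((Eh τ h).sum (Eh τ 1).neg).HasLag := by
  have := SA.free (R := R) (A := A)
  let L : Submodule R (A × A) :=
    { carrier := {p | p.1 * c = d • p.2}
      add_mem' := fun {p q} hp hq => by
        change (p.1 + q.1) * c = d • (p.2 + q.2)
        rw [add_mul, smul_add, hp, hq]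
      zero_mem' := by simp
      smul_mem' := fun r p hp => by
        change (r • p.1) * c = d • (r • p.2)
        rw [smul_mul_assoc, hp, smul_comm] }
  refine ⟨L, fun a (p : A × A) (hp : p.1 * c = d • p.2) => ?_, le_antisymm ?_ ?_⟩
  · change a * p.1 * c = d • (a * p.2)
    rw [mul_assoc, hp, mul_smul_comm]
  · rintro ⟨u, v⟩ huv
    have e1 : d • (u * h) = v * star c := tr_ext hp fun x => by
      have : τ (u * h * star (d • x)) + -τ (v * 1 * star (x * c)) = 0 :=
        huv (d • x, x * c) (smul_mul_assoc d x c)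
      rw [star_smul', mul_smul_comm, mul_one, star_mul, ← mul_assoc] at this
      rw [smul_mul_assoc]
      exact add_neg_eq_zero.1 this
    have e2 : (u * c - d • v) * star c = 0 := by
      rw [sub_mul, mul_assoc, h1, smul_mul_assoc, ← e1, mul_smul_comm, mul_smul, sub_self]
    have e3 : d' • (u * c - d • v) = 0 := by
      rw [Algebra.smul_def, Algebra.commutes, ← SA.st, ← h2, star_mul, ← mul_assoc, e2, zero_mul]
    exact sub_eq_zero.1 ((smul_eq_zero.1 e3).resolve_left hd')
  · rintro ⟨u : A, v : A⟩ (huv : u * c = d • v) ⟨x : A, y : A⟩ (hxy : x * c = d • y)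
    change τ (u * h * star x) + -τ (v * 1 * star y) = 0
    rw [add_neg_eq_zero, mul_one]
    have e : (d * d) • (u * h * star x) = (d * d) • (v * star y) := by
      rw [← smul_mul_assoc, ← mul_smul_comm, ← h1, ← mul_assoc, mul_assoc, ← star_mul, huv, hxy,
        star_smul', smul_mul_smul_comm]
    have e' := congrArg τ e
    rw [map_smul, map_smul] at e'
    exact mul_left_cancel₀ (mul_ne_zero hd hd) e'

end HermP

theorem pHerm (h1 : S_HC2.{u}) (h2 : S_Graph.{u}) : S_Herm.{u} := by
  intro R A _ _ _ _ _ _ _ _ τ ε htr hp hst hrk hcore h c c' d d' hh hd hd' e1 e2 _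
  have := SA.free (R := R) (A := A)
  have := SA.fin (R := R) (A := A)
  have s1 := HermP.eh_sp htr hp hst h hh
  have s2 : (HermP.Eh τ (1 : A)).Sp ε := HermP.eh_sp htr hp hst 1 (star_one A)
  have s3 := s1.sum s2.neg
  have hyp := h1 R A _ ε hrk s3 ((Module.finrank_prod (R := R) (M := A) (M' := A)).trans
    (two_mul _).symm) (hcore _ s3 (HermP.hasLag hp hd hd' e1 e2))
  obtain ⟨e, he, hb⟩ := h2 R A _ _ ε hrk s1 s2 rfl hyp
  have f1 : ∀ x : A, e x = x * e (1 : A) := fun x => by
    have : e (x * 1) = x * e (1 : A) := he x (1 : A)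
    rwa [mul_one] at this
  have f2 : ∀ x : A, e.symm x = x * e.symm (1 : A) := fun x => by
    have : e.symm (x * 1) = x * e.symm (1 : A) := he.symm x (1 : A)
    rwa [mul_one] at this
  refine ⟨⟨e (1 : A), e.symm (1 : A), ?_, ?_⟩, HermP.tr_ext hp fun y => ?_⟩
  · rw [← f2, e.symm_apply_apply]
  · rw [← f1, e.apply_symm_apply]
  · have : τ (e (1 : A) * 1 * star (e y : A)) = τ (1 * h * star y) := hb (1 : A) y
    rwa [f1 y, star_mul, mul_one, one_mul, ← mul_assoc] at this

end Pool.Agent.P.MP_46a8f8_ag.GU
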