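import Pool.Agent.P.MP_46a8f8_ag.GU.Base2

/-!
Extension of linear maps with values in the quotient by a regular sequence of length two.
-/

namespace Pool.Agent.P.MP_46a8f8_ag.GU

open Function IsLocalRing

universe u

namespace InjP

variable {R : Type u} [CommRing R] [IsDomain R] {F G : R} {X P0 P1 M : Type u}
  [AddCommGroup X] [Module R X] [AddCommGroup P0] [Module R P0] [AddCommGroup P1] [Module R P1]
  [AddCommGroup M] [Module R M]

/-- pointwise division of a linear form -/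
theorem div (h : RS F G) (φ φ' : X →ₗ[R] R) (e : ∀ x, G * φ x = F * φ' x) :
    ∃ w : X →ₗ[R] R, ∀ x, φ x = F * w x := by
  choose w hw using fun x => h.2.2 _ _ (e x)
  refine ⟨⟨⟨w, fun x y => mul_left_cancel₀ h.1 ?_⟩, fun c x => mul_left_cancel₀ h.1 ?_⟩, hw⟩
  · rw [mul_add, ← hw, ← hw, ← hw, map_add]
  · rw [← hw, map_smul, hw, RingHom.id_apply, smul_eq_mul, smul_eq_mul, mul_left_comm]

omit [IsDomain R] in
theorem split [Module.Projective R X] (φ : X →ₗ[R] R) (e : ∀ x, φ x ∈ Ideal.span {F, G}) :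
    ∃ a b : X →ₗ[R] R, ∀ x, φ x = F * a x + G * b x := by
  let p : R × R →ₗ[R] R := F • LinearMap.fst R R R + G • LinearMap.snd R R R
  obtain ⟨f, hf⟩ := Module.projective_lifting_property p.rangeRestrict
    (φ.codRestrict (LinearMap.range p) fun x => by
      obtain ⟨a, b, hab⟩ := Ideal.mem_span_pair.1 (e x)
      exact ⟨(a, b), by rw [← hab, mul_comm a, mul_comm b]; rfl⟩) p.surjective_rangeRestrict
  exact ⟨LinearMap.fst R R R ∘ₗ f, LinearMap.snd R R R ∘ₗ f,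
    fun x => (congrArg Subtype.val (LinearMap.congr_fun hf x)).symm⟩

/-- the second coefficient extends -/
theorem half (h : RS F G) (d : P1 →ₗ[R] P0) (s : P0 →ₗ[R] P1) (hs : ∀ v, d (s v) = F • v)
    (ψ : P1 →ₗ[R] R) (a b : LinearMap.ker d →ₗ[R] R) (hab : ∀ x, ψ x.1 = F * a x + G * b x)
    (u u' : P0 →ₗ[R] R) (hu : ∀ v, ψ (s v) = F * u v + G * u' v) :
    ∃ w : P1 →ₗ[R] R, ∀ x : LinearMap.ker d, w x.1 = b x := by
  let s1 : P1 →ₗ[R] LinearMap.ker d := (F • LinearMap.id - s ∘ₗ d).codRestrict _ fun x => by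
    simp [hs]
  have h1 : ∀ x, (s1 x).1 = F • x - s (d x) := fun _ => rfl
  obtain ⟨w, hw⟩ := div h.symm (ψ - u ∘ₗ d - a ∘ₗ s1) (u' ∘ₗ d + b ∘ₗ s1) fun x => by
    have := hab (s1 x)
    rw [h1, map_sub, map_smul, hu, smul_eq_mul] at this
    simp only [LinearMap.sub_apply, LinearMap.add_apply, LinearMap.comp_apply]
    linear_combination this
  refine ⟨w, fun x => mul_left_cancel₀ h.2.1 ?_⟩
  have h2 : d x.1 = 0 := x.2
  have h3 : s1 x.1 = F • x := Subtype.ext (by rw [h1, h2, map_zero, sub_zero]; rfl)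
  have := hw x.1
  simp only [LinearMap.sub_apply, LinearMap.comp_apply, h2, h3, map_zero, map_smul, smul_eq_mul,
    hab] at this
  linear_combination -this

theorem core (h : RS F G) [Module.Projective R P0] (d : P1 →ₗ[R] P0)
    [Module.Projective R (LinearMap.ker d)] (s t : P0 →ₗ[R] P1) (hs : ∀ v, d (s v) = F • v)
    (ht : ∀ v, d (t v) = G • v) (ψ : P1 →ₗ[R] R) (h0 : ∀ x, d x = 0 → ψ x ∈ Ideal.span {F, G})
    (h1 : ∀ v, ψ (s v) ∈ Ideal.span {F, G}) (h2 : ∀ v, ψ (t v) ∈ Ideal.span {F, G}) :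
    ∃ e : P0 →ₗ[R] R, ∀ x, e (d x) - ψ x ∈ Ideal.span {F, G} := by
  obtain ⟨a, b, hab⟩ := split (ψ ∘ₗ (LinearMap.ker d).subtype) fun x => h0 x.1 x.2
  obtain ⟨u, u', hu⟩ := split (ψ ∘ₗ s) h1
  obtain ⟨r, r', hr⟩ := split (ψ ∘ₗ t) h2
  obtain ⟨w, hw⟩ := half h d s hs ψ a b hab u u' hu
  obtain ⟨w', hw'⟩ := half h.symm d t ht ψ b a (fun x => (hab x).trans (add_comm _ _)) r' r
    fun v => (hr v).trans (add_comm _ _)
  let χ : P1 →ₗ[R] R := ψ - F • w' - G • w
  have hχ : ∀ x, χ x = ψ x - F * w' x - G * w x := fun _ => rfl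
  have h3 : ∀ x y, d x = d y → χ x = χ y := fun x y e => by
    have hm : x - y ∈ LinearMap.ker d := by rw [LinearMap.mem_ker, map_sub, e, sub_self]
    have a1 : ψ (x - y) = _ := hab ⟨_, hm⟩
    rw [← sub_eq_zero, ← map_sub, hχ, a1, hw ⟨_, hm⟩, hw' ⟨_, hm⟩]
    ring
  obtain ⟨e, he⟩ := div h (χ ∘ₗ s) (χ ∘ₗ t) fun v => by
    have := h3 (G • s v) (F • t v) (by rw [map_smul, map_smul, hs, ht, smul_comm])
    simpa using this
  refine ⟨e, fun x => ?_⟩
  have h4 : e (d x) = χ x := mul_left_cancel₀ h.1 (by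
    rw [← he, LinearMap.comp_apply, h3 _ (F • x) (by rw [hs, map_smul]), map_smul, smul_eq_mul])
  exact Ideal.mem_span_pair.2 ⟨-w' x, -w x, by rw [h4, hχ]; ring⟩

omit [IsDomain R] in
theorem sect [Module.Projective R P0] (d : P1 →ₗ[R] P0) (c : R) (h : ∀ v, ∃ x, d x = c • v) :
    ∃ s : P0 →ₗ[R] P1, ∀ v, d (s v) = c • v := by
  obtain ⟨f, hf⟩ := Module.projective_lifting_property d.rangeRestrict
    ((c • LinearMap.id : P0 →ₗ[R] P0).codRestrict (LinearMap.range d) h) d.surjective_rangeRestrict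
  exact ⟨f, fun v => congrArg Subtype.val (LinearMap.congr_fun hf v)⟩

end InjP

open InjP

theorem pInj : S_Inj.{u} := by
  intro R _ _ hd F G z h hz hz2 M _ _ _ N hF hG hN ψ
  have := rDom R
  obtain ⟨n, π, hπ⟩ := Module.Finite.exists_fin' R M
  obtain ⟨m, d', hd'⟩ := Module.Finite.exists_fin' R (N.comap π)
  let d := (N.comap π).subtype ∘ₗ d'
  have h1 : ∀ v, π v ∈ N → ∃ x, d x = v := fun v hv =>
    (hd' ⟨v, hv⟩).imp fun x hx => congrArg Subtype.val hx
  let q : (Fin m → R) →ₗ[R] N := (π ∘ₗ d).codRestrict N fun x => (d' x).2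
  have hq : ∀ x, (q x).1 = π (d x) := fun _ => rfl
  have hreg : IsSMulRegular (M ⧸ N) z := by
    refine (isSMulRegular_iff_right_eq_zero_of_smul).2 fun y hy => ?_
    obtain ⟨y, rfl⟩ := Submodule.Quotient.mk_surjective N y
    exact (Submodule.Quotient.mk_eq_zero N).2 (hN y ((Submodule.Quotient.mk_eq_zero N).1 hy))
  have : Module.Projective R (LinearMap.ker d) :=
    proj_of_pd2 (LinearMap.ker d).subtype d (N.mkQ ∘ₗ π) (LinearMap.ker d).injective_subtype
      (LinearMap.exact_subtype_ker_map d)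
      (fun v => ⟨fun hv => h1 v ((Submodule.Quotient.mk_eq_zero N).1 hv), fun ⟨x, hx⟩ =>
        (Submodule.Quotient.mk_eq_zero N).2 (hx ▸ (q x).2)⟩)
      (N.mkQ_surjective.comp hπ) (pd_of_reg 2 hd hz hz2 _ hreg)
  obtain ⟨s, hs⟩ := sect d F fun v => h1 _ (by rw [map_smul, hF]; exact N.zero_mem)
  obtain ⟨t, ht⟩ := sect d G fun v => h1 _ (by rw [map_smul, hG]; exact N.zero_mem)
  let k : R →ₗ[R] BQ F G := (Ideal.span {F, G}).mkQ
  obtain ⟨ψ1, hψ⟩ := Module.projective_lifting_property k (ψ ∘ₗ q)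
    (Ideal.span {F, G}).mkQ_surjective
  have h2 : ∀ x, k (ψ1 x) = ψ (q x) := fun x => LinearMap.congr_fun hψ x
  have h3 : ∀ x, π (d x) = 0 → ψ1 x ∈ Ideal.span {F, G} := fun x hx =>
    (Submodule.Quotient.mk_eq_zero _).1 ((h2 x).trans (by
      rw [show q x = 0 from Subtype.ext hx, map_zero]))
  obtain ⟨e, he⟩ := core h d s t hs ht ψ1 (fun x hx => h3 x (by rw [hx, map_zero]))
    (fun v => h3 _ (by rw [hs, map_smul, hF])) fun v => h3 _ (by rw [ht, map_smul, hG])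
  have h4 : ∀ x, k (e (d x)) = ψ (q x) := fun x =>
    ((Submodule.Quotient.eq _).2 (he x)).trans (h2 x)
  have h5 : LinearMap.ker π ≤ LinearMap.ker (k ∘ₗ e) := fun v hv => by
    have hv' : π v = 0 := hv
    obtain ⟨x, rfl⟩ := h1 v (hv' ▸ N.zero_mem)
    exact (h4 x).trans (by rw [show q x = 0 from Subtype.ext hv', map_zero])
  refine ⟨(LinearMap.ker π).liftQ (k ∘ₗ e) h5 ∘ₗ (π.quotKerEquivOfSurjective hπ).symm.toLinearMap,
    fun y => ?_⟩
  obtain ⟨v, hv⟩ := hπ y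
  obtain ⟨x, rfl⟩ := h1 v (hv ▸ y.2)
  rw [← show q x = y from Subtype.ext hv, ← h4, hq]
  simp

end Pool.Agent.P.MP_46a8f8_ag.GU
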