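import Pool.Agent.P.MP_46a8f8_ag.GU.Base2

/-!
Forms killed by a regular parameter are neutral.
-/

namespace Pool.Agent.P.MP_46a8f8_ag.GU

open TensorProduct Function Matrix IsLocalRing

universe u

namespace LastP

variable {R A : Type u} [CommRing R] [Ring A] [Algebra R A]

/-- a module killed by `x` over the quotient ring -/
@[reducible] def down (Y : RM R A R) (x : R) (h : Module.IsTorsionBy R Y.M x) :
    RM R A (R ⧸ Ideal.span {x}) :=
  letI : Module (R ⧸ Ideal.span {x}) Y.M := h.module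
  { M := Y.M
    ρ :=
      { toFun := fun a =>
          { toFun := Y.ρ a
            map_add' := map_add _
            map_smul' := fun c m => by
              obtain ⟨c, rfl⟩ := Ideal.Quotient.mk_surjective c
              exact map_smul (Y.ρ a) c m }
        map_one' := LinearMap.ext fun m => by simp
        map_mul' := fun a a' => LinearMap.ext fun m => by simp
        map_zero' := LinearMap.ext fun m => by simp
        map_add' := fun a a' => LinearMap.ext fun m => by simp }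
    alg := fun r m => Y.alg r m }

theorem hat [StarRing A] {B V : Type u} [AddCommGroup B] [Module R B] {x : R} [AddCommGroup V]
    [Module (R ⧸ Ideal.span {x}) V] {δ : ℤˣ} (κ : V →+ B)
    (hκ : ∀ (r : R) (v : V), κ (algebraMap R (R ⧸ Ideal.span {x}) r • v) = r • κ v)
    (hi : Injective κ) (hs : ∀ b : B, x • b = 0 → ∃ v, κ v = b) (Y : FM R A R B) (hG : Y.Good δ)
    (hP : Y.Perf) (hK : Y.Kil x) :
    ∃ Z : FM R A (R ⧸ Ideal.span {x}) V, Z.Good δ ∧ Z.Perf ∧ (Z.tr R κ hκ).neg.Iso Y ∧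
      ∀ z : R, IsSMulRegular Y.M z → IsSMulRegular Z.M (algebraMap R (R ⧸ Ideal.span {x}) z) := by
  have hT : Module.IsTorsionBy R Y.M x := fun y => hK y
  have h1 : ∀ y y' : Y.M, ∃ v, κ v = -Y.b y y' := fun y y' =>
    hs _ (by rw [smul_neg, ← map_smul, hK, map_zero, neg_zero])
  choose β hβ using h1
  let Z : FM R A (R ⧸ Ideal.span {x}) V := ⟨down Y.toRM x hT,
    LinearMap.mk₂ (R ⧸ Ideal.span {x}) (fun y y' : (down Y.toRM x hT).M => β y y')
      (fun y y₁ y' => hi (by rw [map_add, hβ, hβ, hβ, map_add, LinearMap.add_apply, neg_add]))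
      (fun c y y' => hi (by
        obtain ⟨c, rfl⟩ := Ideal.Quotient.mk_surjective c
        rw [hβ]
        change -Y.b (c • y) y' = κ (algebraMap R _ c • β y y')
        rw [hκ, hβ, map_smul, LinearMap.smul_apply, smul_neg]))
      (fun y y₁ y' => hi (by rw [map_add, hβ, hβ, hβ, map_add, neg_add]))
      (fun c y y' => hi (by
        obtain ⟨c, rfl⟩ := Ideal.Quotient.mk_surjective c
        rw [hβ]
        change -Y.b y (c • y') = κ (algebraMap R _ c • β y y')
        rw [hκ, hβ, map_smul, smul_neg]))⟩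
  have hZ : ∀ y y' : Y.M, κ (Z.b y y') = -Y.b y y' := hβ
  refine ⟨Z, ⟨?_, fun a y y' => hi ?_, fun y y' => hi ?_⟩,
    FM.perf_of (fun y hy => hP.eq_zero fun y' => ?_) fun ψ => ?_, ?_, fun z hz => hz⟩
  · have := hG.fin
    let : Module (R ⧸ Ideal.span {x}) Y.M := hT.module
    have : IsScalarTower R (R ⧸ Ideal.span {x}) Y.M := ⟨fun r c m => by
      obtain ⟨c, rfl⟩ := Ideal.Quotient.mk_surjective c
      exact mul_smul r c m⟩
    exact Module.Finite.of_restrictScalars_finite R (R ⧸ Ideal.span {x}) Y.M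
  · rw [hZ, hZ]
    exact congrArg Neg.neg (hG.adj a y y')
  · rw [Units.smul_def, map_zsmul, hZ, hZ, hG.sym, smul_neg, Units.smul_def]
  · rw [← neg_eq_zero, ← hZ, hy, map_zero]
  · obtain ⟨y, hy⟩ := hP.exists
      { toFun := fun y => -κ (ψ y)
        map_add' := fun y y' => by rw [map_add, map_add, neg_add]
        map_smul' := fun r y => by
          rw [RingHom.id_apply, smul_neg, ← hκ, ← map_smul]
          rfl }
    exact ⟨y, fun y' => hi (by rw [hZ, hy]; exact neg_neg _)⟩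
  · refine ⟨⟨⟨⟨fun y => y, fun _ _ => rfl⟩, fun _ _ => rfl⟩, fun y => y, fun _ => rfl,
      fun _ => rfl⟩, fun _ _ => rfl, fun y y' => ?_⟩
    change Y.b y y' = -κ (Z.b y y')
    rw [hZ, neg_neg]

theorem kappa [IsDomain R] {x f G : R} (h : RS (x * f) G) :
    ∃ κ : ((R ⧸ Ideal.span {x}) ⧸ Ideal.span {algebraMap R (R ⧸ Ideal.span {x}) G}) →+
        BQ (x * f) G,
      (∀ c : R, κ (Ideal.Quotient.mk _ (Ideal.Quotient.mk _ c)) = Ideal.Quotient.mk _ (-f * c)) ∧
      Injective κ ∧ ∀ b : BQ (x * f) G, x • b = 0 → ∃ v, κ v = b := by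
  have f0 : f ≠ 0 := right_ne_zero_of_mul h.1
  have x0 : x ≠ 0 := left_ne_zero_of_mul h.1
  let q : R →+* (R ⧸ Ideal.span {x}) ⧸ Ideal.span {algebraMap R (R ⧸ Ideal.span {x}) G} :=
    (Ideal.Quotient.mk _).comp (Ideal.Quotient.mk _)
  have hq : Surjective q := Ideal.Quotient.mk_surjective.comp Ideal.Quotient.mk_surjective
  have q0 : ∀ c, q c = 0 ↔ ∃ a b, a * x + b * G = c := fun c => by
    change Ideal.Quotient.mk _ (Ideal.Quotient.mk _ c) = 0 ↔ _
    rw [Ideal.Quotient.eq_zero_iff_mem, Ideal.mem_span_singleton']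
    constructor
    · rintro ⟨b, hb⟩
      obtain ⟨b, rfl⟩ := Ideal.Quotient.mk_surjective b
      obtain ⟨a, ha⟩ := Ideal.mem_span_singleton'.1
        ((Ideal.Quotient.eq (x := c) (y := b * G)).1 hb.symm)
      exact ⟨a, b, by rw [ha]; ring⟩
    · rintro ⟨a, b, rfl⟩
      exact ⟨Ideal.Quotient.mk _ b, (Ideal.Quotient.eq (x := b * G)).2
        (Ideal.mem_span_singleton'.2 ⟨-a, by ring⟩)⟩
  let φ : R →+ BQ (x * f) G :=
    (Ideal.Quotient.mk _).toAddMonoidHom.comp (AddMonoidHom.mulLeft (-f))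
  have hφ : ∀ c, φ c = Ideal.Quotient.mk _ (-f * c) := fun _ => rfl
  have hk : q.toAddMonoidHom.ker ≤ φ.ker := fun c hc => by
    obtain ⟨a, b, rfl⟩ := (q0 c).1 hc
    exact mk_eq_zero.2 ⟨-a, -f * b, by change _ = -f * _; ring⟩
  let κ := AddMonoidHom.liftOfSurjective q.toAddMonoidHom hq ⟨φ, hk⟩
  have hκ : ∀ c, κ (q c) = φ c := fun c =>
    AddMonoidHom.liftOfRightInverse_comp_apply q.toAddMonoidHom _ _ ⟨φ, hk⟩ c
  refine ⟨κ, hκ, (injective_iff_map_eq_zero _).2 fun v hv => ?_, fun b hb => ?_⟩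
  · obtain ⟨c, rfl⟩ := hq v
    rw [hκ, hφ, mk_eq_zero] at hv
    obtain ⟨a, b, e⟩ := hv
    obtain ⟨w, hw⟩ := h.symm.2.2 (c + a * x) (-(x * b)) (by linear_combination x * e)
    exact (q0 c).2 ⟨-a, w, by linear_combination -hw⟩
  · obtain ⟨s, rfl⟩ := Ideal.Quotient.mk_surjective b
    obtain ⟨a, b, e⟩ := mk_eq_zero.1 (show Ideal.Quotient.mk (Ideal.span {x * f, G}) (x * s) = 0
      from hb)
    obtain ⟨w, hw⟩ := h.2.2 (b * f) (s - a * f) (by linear_combination f * e)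
    have e1 : b = x * w := mul_right_cancel₀ f0 (by linear_combination hw)
    have e2 : s = a * f + w * G := mul_left_cancel₀ x0 (by rw [← e, e1]; ring)
    refine ⟨q (-a), ?_⟩
    rw [hκ, hφ, ← sub_eq_zero, ← map_sub, mk_eq_zero]
    exact ⟨0, -w, by rw [e2]; ring⟩

end LastP

open LastP in
theorem pLast (h1 : S_Z.{u}) (h2 : S_W1.{u}) (h3 : S_Neutral.{u}) (h4 : S_ParH2.{u}) :
    S_Last.{u} := by
  intro R A _ _ _ _ _ _ hd x f G δ Y hx hx2 hR hG hP hK
  have := rDom R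
  obtain ⟨hT, hdT⟩ := rQuot R x hx hx2
  have hd2 : ringKrullDim (R ⧸ Ideal.span {x}) = ((2 : ℕ) : WithBot ℕ∞) :=
    PdP.dim_eq (hdT.trans hd)
  have := rDom (R ⧸ Ideal.span {x})
  have f0 : f ≠ 0 := right_ne_zero_of_mul hR.1
  have x0 : x ≠ 0 := left_ne_zero_of_mul hR.1
  have G0 : algebraMap R (R ⧸ Ideal.span {x}) G ≠ 0 := fun h => by
    obtain ⟨g, rfl⟩ := Ideal.mem_span_singleton'.1 (Ideal.Quotient.eq_zero_iff_mem.1 h)
    obtain ⟨w, hw⟩ := hR.2.2 f g (by ring)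
    exact (mem_maximalIdeal _).1 hx
      (IsUnit.of_mul_eq_one w (mul_right_cancel₀ f0 (by linear_combination -hw)))
  have Greg : IsSMulRegular (R ⧸ Ideal.span {x}) (algebraMap R (R ⧸ Ideal.span {x}) G) :=
    fun a b hab => mul_left_cancel₀ G0 hab
  obtain ⟨κ, k1, k2, k3⟩ := kappa hR
  have hκ : ∀ (r : R) (v), κ (algebraMap R (R ⧸ Ideal.span {x}) r • v) = r • κ v := by
    intro r v
    obtain ⟨v, rfl⟩ := Ideal.Quotient.mk_surjective v
    obtain ⟨v, rfl⟩ := Ideal.Quotient.mk_surjective v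
    rw [k1]
    refine (k1 (r * v)).trans ?_
    rw [mul_left_comm]
    rfl
  obtain ⟨Z, zG, zP, zI, zR⟩ := hat κ hκ k2 k3 Y hG hP hK
  have hm : (maximalIdeal R).map (Ideal.Quotient.mk (Ideal.span {x})) =
      maximalIdeal (R ⧸ Ideal.span {x}) :=
    map_maximalIdeal_of_surjective _ Ideal.Quotient.mk_surjective
  have hI : (maximalIdeal (R ⧸ Ideal.span {x}) ^ 2).comap (Ideal.Quotient.mk (Ideal.span {x})) =
      maximalIdeal R ^ 2 ⊔ Ideal.span {x} := by
    rw [← hm, ← Ideal.map_pow, Ideal.comap_map_of_surjective _ Ideal.Quotient.mk_surjective,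
      ← RingHom.ker_eq_comap_bot, Ideal.mk_ker]
  obtain ⟨z, hz, hz2, hz3⟩ := h1 R hd (x * f) G (maximalIdeal R ^ 2 ⊔ Ideal.span {x}) hR
    fun h => PdP.not_le_sq 1 hd2 (by
      rw [← hI, ← Ideal.map_le_iff_le_comap, hm] at h
      exact h)
  have := zG.fin
  have pd : PD (R ⧸ Ideal.span {x}) Z.M 1 := pd_of_reg 1 hd2
    (z := algebraMap R (R ⧸ Ideal.span {x}) z) (hm ▸ Ideal.mem_map_of_mem _ hz)
    (fun h => hz2 (hI ▸ h)) Z.M (zR z (hP.reg hz3))
  have := finite_maximalSpectrum R (R ⧸ Ideal.span {x})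
  have par : ParH (algebraMap R (R ⧸ Ideal.span {x}) G) := h4 _ (fun 𝔫 h𝔫 => by
    obtain rfl := eq_maximalIdeal h𝔫
    have : IsLocalization.AtPrime (R ⧸ Ideal.span {x}) (maximalIdeal (R ⧸ Ideal.span {x})) :=
      IsLocalization.of_le_isUnit fun _ hx => notMem_maximalIdeal.1 hx
    exact (regAt _ (R ⧸ Ideal.span {x}) _ 2).2 ⟨hT, hd2⟩) _ Greg
  obtain ⟨ι, _, _, ρ, l, hl, hp⟩ := h2 R A _ _ δ _ Z Greg
    ⟨Ideal.Quotient.mk_surjective, fun u =>
      Ideal.Quotient.eq_zero_iff_mem.trans Ideal.mem_span_singleton⟩ par zG zP pd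
  refine (h3 R A R _ _ LinearMap.id (x * f) G x G 0 f 0 1 δ Z ι ρ l κ hκ ?_
    (fun a b hab => mul_left_cancel₀ x0 hab)
    ⟨Ideal.Quotient.mk_surjective, fun u =>
      Ideal.Quotient.eq_zero_iff_mem.trans Ideal.mem_span_singleton⟩ Greg
    (by change x * f = _; ring) (by change G = _; ring) (fun c => (k1 c).trans ?_) hl hp).iso zI
  · refine ⟨fun a b e => ?_, fun ψ => ⟨ψ 1, LinearMap.ext fun c => ?_⟩⟩
    · simpa using LinearMap.congr_fun e 1
    · change ψ 1 * c = ψ c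
      rw [mul_comm, ← smul_eq_mul, ← map_smul, smul_eq_mul, mul_one]
  · rw [LinearMap.id_apply, mul_zero, mul_one, zero_sub]

end Pool.Agent.P.MP_46a8f8_ag.GU
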