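import Pool.Agent.P.MP_46a8f8_ag.GU.Base2
import Pool.Agent.P.MP_46a8f8_ag.Model

/-!
The finite free model of a curve.
-/

namespace Pool.Agent.P.MP_46a8f8_ag.GU

open TensorProduct Function Matrix IsLocalRing

universe u

namespace ModP

theorem dvd_iff {R C ι : Type*} [CommRing R] [CommRing C] [Algebra R C] [Fintype ι]
    (b : Module.Basis ι R C) (x : R) (c : C) :
    algebraMap R C x ∣ c ↔ ∀ i, x ∣ b.repr c i := by
  constructor
  · rintro ⟨c, rfl⟩ i
    rw [← Algebra.smul_def, map_smul]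
    exact ⟨b.repr c i, rfl⟩
  · intro h
    choose w hw using h
    refine ⟨b.equivFun.symm w, b.equivFun.injective ?_⟩
    rw [← Algebra.smul_def, map_smul, b.equivFun.apply_symm_apply]
    funext i
    exact hw i

theorem exists_norm {R C : Type u} [CommRing R] [CommRing C] [Algebra R C] [Module.Free R C]
    [Module.Finite R C] {x : R} [IsDomain (R ⧸ Ideal.span {x})] {g : C}
    (hg : ∀ c : C, algebraMap R C x ∣ g * c → algebraMap R C x ∣ c) :
    ∃ G : R, ¬ x ∣ G ∧ g ∣ algebraMap R C G := by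
  classical
  have : Nontrivial R := (Ideal.Quotient.mk (Ideal.span {x})).domain_nontrivial
  let b := Module.Free.chooseBasis R C
  let M := Algebra.leftMulMatrix b g
  have hM : ∀ w, ⇑(b.repr (g * b.equivFun.symm w)) = M *ᵥ w := fun w => by
    rw [← Algebra.leftMulMatrix_mulVec_repr, ← b.equivFun_apply, b.equivFun.apply_symm_apply]
  refine ⟨M.det, fun h => ?_, b.equivFun.symm (M.adjugate *ᵥ b.repr 1), ?_⟩
  · let q := Ideal.Quotient.mk (Ideal.span {x})
    have hq : ∀ r, q r = 0 ↔ x ∣ r := fun r => by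
      rw [Ideal.Quotient.eq_zero_iff_mem, Ideal.mem_span_singleton]
    have h0 : (M.map q).det = 0 := by
      rw [← RingHom.mapMatrix_apply, ← RingHom.map_det]
      exact (hq _).2 h
    obtain ⟨v, hv, e⟩ := Matrix.exists_mulVec_eq_zero_iff.2 h0
    choose w hw using fun i => Ideal.Quotient.mk_surjective (v i)
    have h1 := (dvd_iff b x _).1 (hg (b.equivFun.symm w) ((dvd_iff b x _).2 fun i => by
      rw [hM, ← hq, RingHom.map_mulVec]
      have : q ∘ w = v := funext hw
      rw [this, e]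
      rfl))
    refine hv (funext fun i => ?_)
    have h2 := h1 i
    rw [← b.equivFun_apply, b.equivFun.apply_symm_apply, ← hq] at h2
    exact (hw i).symm.trans h2
  · refine b.repr.injective (DFunLike.coe_injective ?_)
    change ⇑(b.repr _) = ⇑(b.repr _)
    rw [hM, mulVec_mulVec, mul_adjugate, smul_mulVec, one_mulVec, Algebra.algebraMap_eq_smul_one,
      map_smul]
    rfl

theorem regAt_dq {P : Type u} [CommRing P] (I : Ideal P) (y : P) (M : Ideal P) {d : ℕ}
    (h : RegAt (P ⧸ (I ⊔ Ideal.span {y})) (M.map (Ideal.Quotient.mk _)) d) :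
    RegAt ((P ⧸ I) ⧸ Ideal.span {Ideal.Quotient.mk I y})
      ((M.map (Ideal.Quotient.mk I)).map (Ideal.Quotient.mk _)) d := by
  have hJ : Ideal.span {Ideal.Quotient.mk I y} = (Ideal.span {y}).map (Ideal.Quotient.mk I) := by
    rw [Ideal.map_span, Set.image_singleton]
  let e : ((P ⧸ I) ⧸ Ideal.span {Ideal.Quotient.mk I y}) ≃+* P ⧸ (I ⊔ Ideal.span {y}) :=
    (Ideal.quotEquivOfEq hJ).trans (DoubleQuot.quotQuotEquivQuotSup I (Ideal.span {y}))
  have h4 := ModelP.regAt_equiv e h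
  have e2 : Ideal.Quotient.mk (I ⊔ Ideal.span {y}) =
      e.toRingHom.comp ((Ideal.Quotient.mk (Ideal.span {Ideal.Quotient.mk I y})).comp
        (Ideal.Quotient.mk I)) :=
    RingHom.ext fun a => rfl
  rw [e2, ← Ideal.map_map, ← Ideal.map_map] at h4
  rwa [← Ideal.comap_map_of_bijective e.toRingHom e.bijective (I := Ideal.map _ _)]

end ModP

theorem pMod (h1 : S_Tri.{u}) (h2 : S_ModA.{u}) (h3 : S_ModB.{u}) : S_Mod.{u} := by
  intro R _ _ hR x p hx hx2 hxp S _ _ hS
  have := hS.dom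
  have := hS.pid
  have := hS.fin
  have := rDom R
  have : IsDomain (R ⧸ Ideal.span {x}) :=
    have := (rQuot R x hx hx2).1
    rDom _
  obtain ⟨n, σ, g, N, hσ, hg, hN, hreg⟩ := h2 R hR x hx hx2 S
  have H := h1 R n g N hN
  have hk : Ideal.span (Set.range g) ≤ RingHom.ker σ :=
    Ideal.span_le.2 (by rintro _ ⟨i, rfl⟩; exact hg i)
  obtain ⟨hfree, hfin, τ, hτ⟩ := H
  let I := Ideal.span (Set.range g)
  let σ' : (MvPolynomial (Fin n) R ⧸ I) →ₐ[R] S := Ideal.Quotient.liftₐ I σ fun a ha => hk ha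
  let _ : Algebra (MvPolynomial (Fin n) R ⧸ I) S := σ'.toRingHom.toAlgebra
  have hT : IsScalarTower R (MvPolynomial (Fin n) R ⧸ I) S := IsScalarTower.of_algHom σ'
  have hsur : Surjective (algebraMap (MvPolynomial (Fin n) R ⧸ I) S) := fun s =>
    let ⟨a, ha⟩ := hσ s
    ⟨Ideal.Quotient.mk I a, ha⟩
  have hx0 : x ≠ 0 := fun h => hxp (h ▸ p.zero_mem)
  have hnf : ¬ IsField S := fun hF => by
    have hb : (⊥ : Ideal S).IsMaximal := by
      let _ := hF.toField
      exact Ideal.bot_isMaximal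
    have hm := eq_maximalIdeal
      (Ideal.isMaximal_comap_of_isIntegral_of_isMaximal (R := R) (⊥ : Ideal S))
    rw [← hm] at hx
    exact hxp ((hS.ker x).1 hx)
  have hxr : IsSMulRegular (MvPolynomial (Fin n) R ⧸ I)
      (algebraMap R (MvPolynomial (Fin n) R ⧸ I) x) := fun a a' h => by
    simp only [algebraMap_smul] at h
    exact smul_right_injective _ hx0 h
  obtain ⟨g₀, t, k1, k2, k3, k4⟩ := h3 R x hx S (MvPolynomial (Fin n) R ⧸ I) hnf hsur hxr
    fun 𝔫 h𝔫 => by
      have e1 : 𝔫.comap (algebraMap (MvPolynomial (Fin n) R ⧸ I) S) =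
          (𝔫.comap σ).map (Ideal.Quotient.mk I) :=
        (Ideal.map_comap_of_surjective _ Ideal.Quotient.mk_surjective _).symm
      rw [e1]
      exact ModP.regAt_dq I _ _ (hreg 𝔫 h𝔫)
  obtain ⟨G, hG, hG'⟩ := ModP.exists_norm k4
  exact ⟨_, _, _, _, hT, τ, g₀, t, G, ⟨hfree, hfin, hτ, hsur, k1, k2, k3, k4⟩, hG, hG'⟩

end Pool.Agent.P.MP_46a8f8_ag.GU
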