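import Pool.Agent.P.MP_46a8f8_ag.GU.Base2
import Pool.Agent.P.MP_46a8f8_ag.Model

/-!
A complete intersection through a curve whose special fibre is regular at the good points.
-/

namespace Pool.Agent.P.MP_46a8f8_ag.GU

open Function IsLocalRing Polynomial ModelP

universe u

namespace ModAP

theorem regAt_surj {P Q Q' : Type u} [CommRing P] [CommRing Q] [CommRing Q'] (π : P →+* Q)
    (π' : P →+* Q') (h : Surjective π) (h' : Surjective π') (hk : RingHom.ker π' = RingHom.ker π)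
    (M : Ideal P) {d : ℕ} (hr : RegAt Q (M.map π) d) : RegAt Q' (M.map π') d := by
  let e : Q' ≃+* Q := (RingHom.quotientKerEquivOfSurjective h').symm.trans
    ((Ideal.quotEquivOfEq hk).trans (RingHom.quotientKerEquivOfSurjective h))
  have he : (e : Q' →+* Q).comp π' = π := by
    ext a
    have h1 : (RingHom.quotientKerEquivOfSurjective h').symm (π' a) = Ideal.Quotient.mk _ a :=
      (RingEquiv.symm_apply_eq _).2 rfl
    change (RingHom.quotientKerEquivOfSurjective h) ((Ideal.quotEquivOfEq hk)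
      ((RingHom.quotientKerEquivOfSurjective h').symm (π' a))) = π a
    rw [h1]
    rfl
  have e2 : M.map π' = (M.map π).comap (e : Q' →+* Q) := by
    rw [← he, ← Ideal.map_map,
      Ideal.comap_map_of_bijective (e : Q' →+* Q) e.bijective]
  rw [e2]
  exact regAt_equiv e hr

theorem comap_sq {P Q S D : Type u} [CommRing P] [CommRing Q] [CommRing S] [CommRing D]
    {π : P →+* Q} (h : Surjective π) {σ : P →+* S} {σ' : Q →+* D} {ρ : S →+* D}
    (hc : σ'.comp π = ρ.comp σ) (𝔫 : Ideal D) :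
    𝔫.comap σ' = ((𝔫.comap ρ).comap σ).map π := by
  rw [Ideal.comap_comap, ← hc, ← Ideal.comap_comap, Ideal.map_comap_of_surjective π h]

theorem exists_max {S : Type u} [CommRing S] {J 𝔫 : Ideal S} (h : 𝔫.IsMaximal) (hJ : J ≤ 𝔫) :
    ∃ 𝔫' : Ideal (S ⧸ J), 𝔫'.IsMaximal ∧ 𝔫'.comap (Ideal.Quotient.mk J) = 𝔫 :=
  ⟨𝔫.map (Ideal.Quotient.mk J), Ideal.IsMaximal.map_of_surjective_of_ker_le
    Ideal.Quotient.mk_surjective (by rwa [Ideal.mk_ker]), Ideal.comap_map_mk hJ⟩

theorem emb_one (D : Type u) [CommRing D] [IsPrincipalIdealRing D] : Emb D 1 := by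
  intro 𝔫 _
  obtain ⟨a, ha⟩ := (IsPrincipalIdealRing.principal 𝔫).principal
  refine ⟨fun _ => a, fun _ => ha ▸ Submodule.mem_span_singleton_self a, ?_⟩
  refine le_sup_of_le_left ?_
  rw [Set.range_const, ha]

section step

variable {P S : Type u} [CommRing P] [CommRing S]

/-- regular of dimension `d` modulo `I` at the preimages of the maximal ideals -/
def Gd (σ : P →+* S) (I : Ideal P) (d : ℕ) : Prop :=
  ∀ 𝔫 : Ideal S, 𝔫.IsMaximal → RegAt (P ⧸ I) ((𝔫.comap σ).map (Ideal.Quotient.mk I)) d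

theorem exists_F [IsNoetherianRing P] [IsPrincipalIdealRing S] (σ : P →+* S) (hσ : Surjective σ)
    (x : P) [Finite (MaximalSpectrum (S ⧸ Ideal.span {σ x}))]
    (hx : ∀ 𝔫 : Ideal S, 𝔫.IsMaximal → σ x ∈ 𝔫) (I : Ideal P) (hI : x ∈ I)
    (hI' : ∀ a ∈ I, σ a ∈ Ideal.span {σ x}) {d : ℕ} (hd : 1 < d) (hg : Gd σ I d) :
    ∃ F, σ F = 0 ∧ ∀ 𝔫 : Ideal S, 𝔫.IsMaximal →
      Ideal.Quotient.mk I F ∉ (𝔫.comap σ).map (Ideal.Quotient.mk I) ^ 2 := by
  have : IsPrincipalIdealRing (S ⧸ Ideal.span {σ x}) :=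
    IsPrincipalIdealRing.of_surjective _ Ideal.Quotient.mk_surjective
  let σ' : P ⧸ I →+* S ⧸ Ideal.span {σ x} :=
    Ideal.Quotient.lift I ((Ideal.Quotient.mk _).comp σ) fun a ha =>
      Ideal.Quotient.eq_zero_iff_mem.2 (hI' a ha)
  have hc : σ'.comp (Ideal.Quotient.mk I) = (Ideal.Quotient.mk _).comp σ := rfl
  have hσ' : Surjective σ' := fun y => by
    obtain ⟨s, rfl⟩ := Ideal.Quotient.mk_surjective y
    obtain ⟨a, rfl⟩ := hσ s
    exact ⟨Ideal.Quotient.mk I a, rfl⟩
  obtain ⟨f, hf, hf'⟩ := exists_not_mem_sq σ' hσ' fun 𝔫 => by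
    have := 𝔫.isMaximal
    refine not_le_sq σ' hσ' (emb_one _) 𝔫.asIdeal ?_
    rw [comap_sq Ideal.Quotient.mk_surjective hc, (hg _ (Ideal.comap_isMaximal_of_surjective _
      Ideal.Quotient.mk_surjective)).1]
    exact Nat.cast_lt.2 hd
  obtain ⟨F, rfl⟩ := Ideal.Quotient.mk_surjective f
  obtain ⟨s, hs⟩ := Ideal.mem_span_singleton'.1 (Ideal.Quotient.eq_zero_iff_mem.1 hf)
  obtain ⟨t, rfl⟩ := hσ s
  refine ⟨F - t * x, by rw [map_sub, map_mul, hs, sub_self], fun 𝔫 h𝔫 => ?_⟩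
  obtain ⟨𝔫', h1, rfl⟩ := exists_max h𝔫 ((Ideal.span_singleton_le_iff_mem _).2 (hx 𝔫 h𝔫))
  rw [map_sub, Ideal.Quotient.eq_zero_iff_mem.2 (I.mul_mem_left t hI), sub_zero,
    ← comap_sq Ideal.Quotient.mk_surjective hc]
  exact hf' ⟨𝔫', h1⟩

theorem Gd.cut [IsNoetherianRing P] {σ : P →+* S} (hσ : Surjective σ) {I : Ideal P}
    (hI : ∀ 𝔫 : Ideal S, 𝔫.IsMaximal → I ≤ 𝔫.comap σ) {d : ℕ} (hg : Gd σ I (d + 1)) {F b : P}
    (hF : σ F = 0) (hb : σ b = 0) (k : ℕ) (hF' : ∀ 𝔫 : Ideal S, 𝔫.IsMaximal →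
      Ideal.Quotient.mk I F ∉ (𝔫.comap σ).map (Ideal.Quotient.mk I) ^ 2) :
    Gd σ (I ⊔ Ideal.span {F + b ^ (k + 2)}) d := by
  intro 𝔫 h𝔫
  have h0 := Ideal.comap_isMaximal_of_surjective σ hσ (K := 𝔫)
  have h1 : ((𝔫.comap σ).map (Ideal.Quotient.mk I)).IsMaximal :=
    Ideal.IsMaximal.map_of_surjective_of_ker_le Ideal.Quotient.mk_surjective
      (by rw [Ideal.mk_ker]; exact hI 𝔫 h𝔫)
  have hm : ∀ a, σ a = 0 → Ideal.Quotient.mk I a ∈ (𝔫.comap σ).map (Ideal.Quotient.mk I) :=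
    fun a ha => Ideal.mem_map_of_mem _ (by rw [Ideal.mem_comap, ha]; exact 𝔫.zero_mem)
  have h2 := hm (F + b ^ (k + 2)) (by rw [map_add, map_pow, hF, hb]; simp)
  have h3 := Pool.Agent.P.MP_46a8f8_ag.cut (P ⧸ I) _ d _ (hg 𝔫 h𝔫) h2 fun s hs h => by
    refine hF' 𝔫 h𝔫 ?_
    have e : Ideal.Quotient.mk I F = Ideal.Quotient.mk I (F + b ^ (k + 2)) -
        Ideal.Quotient.mk I b ^ k * Ideal.Quotient.mk I b ^ 2 := by
      rw [map_add, map_pow, pow_add, add_sub_cancel_right]
    rw [e]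
    exact Submodule.sub_mem _ (cancel h1 hs h2 h)
      (Ideal.mul_mem_left _ _ (Ideal.pow_mem_pow (hm b hb) 2))
  rw [Ideal.map_map] at h3
  refine regAt_surj _ _ ?_ Ideal.Quotient.mk_surjective ?_ _ h3
  · exact Ideal.Quotient.mk_surjective.comp Ideal.Quotient.mk_surjective
  rw [← RingHom.comap_ker, Ideal.mk_ker, Ideal.mk_ker, ← Ideal.comap_map_quotientMk,
    Ideal.map_span, Set.image_singleton]

end step

theorem deg_lt {R : Type u} [CommRing R] [Nontrivial R] {n : ℕ} (i : Fin n)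
    (F : MvPolynomial (Fin n) R) (q : R[X]) (hq : q.Monic) (hd : F.totalDegree < q.natDegree) :
    (F + aeval (MvPolynomial.X i : MvPolynomial (Fin n) R) q -
      MvPolynomial.X i ^ q.natDegree).totalDegree < q.natDegree := by
  have e : F + aeval (MvPolynomial.X i : MvPolynomial (Fin n) R) q -
      MvPolynomial.X i ^ q.natDegree = F + ∑ k ∈ Finset.range q.natDegree,
        MvPolynomial.C (q.coeff k) * MvPolynomial.X i ^ k := by
    have h := congrArg (aeval (MvPolynomial.X i : MvPolynomial (Fin n) R)) hq.as_sum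
    simp only [map_add, map_pow, aeval_X, map_sum, map_mul, aeval_C,
      MvPolynomial.algebraMap_eq] at h
    rw [h]
    ring
  rw [e]
  refine (MvPolynomial.totalDegree_add _ _).trans_lt (max_lt hd ?_)
  refine lt_of_le_of_lt (MvPolynomial.totalDegree_finsetSum_le (d := q.natDegree - 1)
    fun k hk => ?_) (by omega)
  refine (MvPolynomial.totalDegree_mul _ _).trans ?_
  rw [MvPolynomial.totalDegree_C, MvPolynomial.totalDegree_X_pow]
  have := Finset.mem_range.1 hk
  omega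

variable {R S : Type u} [CommRing R] [IsNoetherianRing R] [IsLocalRing R] [CommRing S]
  [Algebra R S] [Module.Finite R S]

omit [IsNoetherianRing R] in
theorem mem_max {x : R} (hx : x ∈ maximalIdeal R) (𝔫 : Ideal S) (h : 𝔫.IsMaximal) :
    algebraMap R S x ∈ 𝔫 := by
  rwa [← IsLocalRing.eq_maximalIdeal (comap_max (Algebra.ofId R S) 𝔫)] at hx

theorem base {x : R} (hx : x ∈ maximalIdeal R) {d : ℕ}
    (hR : RegAt (R ⧸ Ideal.span {x})
      ((maximalIdeal R).map (Ideal.Quotient.mk (Ideal.span {x}))) d)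
    {n : ℕ} (σ : MvPolynomial (Fin n) R →ₐ[R] S) :
    Gd (σ : MvPolynomial (Fin n) R →+* S) (Ideal.span {MvPolynomial.C x}) (d + n) := by
  intro 𝔫 h𝔫
  have hle : Ideal.span {x} ≤ maximalIdeal R := (Ideal.span_singleton_le_iff_mem _).2 hx
  have h1 : ((maximalIdeal R).map (Ideal.Quotient.mk (Ideal.span {x}))).IsMaximal :=
    Ideal.IsMaximal.map_of_surjective_of_ker_le Ideal.Quotient.mk_surjective
      (by rwa [Ideal.mk_ker])
  have : Nontrivial (R ⧸ Ideal.span {x}) :=
    Ideal.Quotient.nontrivial_iff.2 (ne_top_of_le_ne_top (maximalIdeal.isMaximal R).ne_top hle)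
  have : IsLocalRing (R ⧸ Ideal.span {x}) :=
    IsLocalRing.of_surjective' _ Ideal.Quotient.mk_surjective
  rw [IsLocalRing.eq_maximalIdeal h1] at hR
  have : Module.Finite (R ⧸ Ideal.span {x}) (S ⧸ (Ideal.span {x}).map (algebraMap R S)) :=
    Module.Finite.of_restrictScalars_finite R _ _
  obtain ⟨𝔫', h2, rfl⟩ := exists_max (J := (Ideal.span {x}).map (algebraMap R S)) h𝔫 (by
    rw [Ideal.map_span, Set.image_singleton, Ideal.span_singleton_le_iff_mem]
    exact mem_max hx 𝔫 h𝔫)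
  have h3 := good_mv hR n (fun i => Ideal.Quotient.mk ((Ideal.span {x}).map (algebraMap R S))
    (σ (MvPolynomial.X i))) 𝔫' h2
  have hs := MvPolynomial.map_surjective (σ := Fin n) (Ideal.Quotient.mk (Ideal.span {x}))
    Ideal.Quotient.mk_surjective
  rw [comap_sq hs (σ := (σ : MvPolynomial (Fin n) R →+* S)) (ρ := Ideal.Quotient.mk _)] at h3
  · refine regAt_surj _ _ hs Ideal.Quotient.mk_surjective ?_ _ h3
    rw [MvPolynomial.ker_map, Ideal.mk_ker, Ideal.mk_ker, Ideal.map_span, Set.image_singleton]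
  · refine MvPolynomial.ringHom_ext (fun r => ?_) fun i => ?_
    · simp
    · simp

theorem tower [IsPrincipalIdealRing S] {x : R} (hx : x ∈ maximalIdeal R) {n : ℕ}
    (σ : MvPolynomial (Fin n) R →ₐ[R] S) (hσ : Surjective σ)
    (h0 : Gd (σ : MvPolynomial (Fin n) R →+* S) (Ideal.span {MvPolynomial.C x}) (2 + n))
    (A : Finset (Fin n)) : ∃ (g : Fin n → MvPolynomial (Fin n) R) (N : Fin n → ℕ),
      (∀ i, σ (g i) = 0) ∧ (∀ i ∈ A, (g i - MvPolynomial.X i ^ N i).totalDegree < N i) ∧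
      Gd (σ : MvPolynomial (Fin n) R →+* S)
        (Ideal.span (g '' A) ⊔ Ideal.span {MvPolynomial.C x}) (2 + (n - A.card)) := by
  classical
  induction A using Finset.induction_on with
  | empty => exact ⟨0, 0, by simp, by simp, by simpa using h0⟩
  | insert i A hi ih =>
    obtain ⟨g, N, h1, h2, h3⟩ := ih
    have hc : A.card < n := by
      have := Finset.card_le_univ (insert i A)
      rw [Finset.card_insert_of_notMem hi, Fintype.card_fin] at this
      omega
    have hx' : ∀ 𝔫 : Ideal S, 𝔫.IsMaximal →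
        (σ : MvPolynomial (Fin n) R →+* S) (MvPolynomial.C x) ∈ 𝔫 := fun 𝔫 h𝔫 => by
      simpa using mem_max hx 𝔫 h𝔫
    have hI : Ideal.span (g '' A) ⊔ Ideal.span {MvPolynomial.C x} ≤ (Ideal.span
        {(σ : MvPolynomial (Fin n) R →+* S) (MvPolynomial.C x)}).comap
          (σ : MvPolynomial (Fin n) R →+* S) := by
      refine sup_le (Ideal.span_le.2 ?_) ((Ideal.span_singleton_le_iff_mem _).2
        (Ideal.mem_span_singleton_self _))
      rintro _ ⟨j, -, rfl⟩
      exact Ideal.mem_comap.2 ((h1 j).symm ▸ Submodule.zero_mem _ : σ (g j) ∈ _)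
    have := finite_maximalSpectrum R
      (S ⧸ Ideal.span {(σ : MvPolynomial (Fin n) R →+* S) (MvPolynomial.C x)})
    obtain ⟨F, hF, hF'⟩ := exists_F (σ : MvPolynomial (Fin n) R →+* S) hσ (MvPolynomial.C x) hx' _
      (Ideal.mem_sup_right (Ideal.mem_span_singleton_self _)) (fun a ha => hI ha) (by omega) h3
    obtain ⟨m, hm, hm'⟩ := Algebra.IsIntegral.isIntegral (R := R) (σ (MvPolynomial.X i))
    have hm1 : (X * m).Monic := monic_X.mul hm
    have hm2 : σ (aeval (MvPolynomial.X i) (X * m)) = 0 := by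
      rw [← aeval_algHom_apply, map_mul, aeval_def _ m, hm', mul_zero]
    have hm3 : F.totalDegree < ((X * m) ^ (F.totalDegree + 2)).natDegree := by
      rw [hm1.natDegree_pow, monic_X.natDegree_mul hm, natDegree_X]
      nlinarith
    have e : 2 + (n - A.card) = 2 + (n - (insert i A).card) + 1 := by
      rw [Finset.card_insert_of_notMem hi]
      omega
    rw [e] at h3
    have h4 := h3.cut hσ (fun 𝔫 h𝔫 => hI.trans (Ideal.comap_mono
      ((Ideal.span_singleton_le_iff_mem _).2 (hx' 𝔫 h𝔫)))) hF hm2 F.totalDegree hF'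
    have h5 := deg_lt i F _ (hm1.pow _) hm3
    rw [map_pow] at h5
    refine ⟨update g i (F + aeval (MvPolynomial.X i) (X * m) ^ (F.totalDegree + 2)),
      update N i ((X * m) ^ (F.totalDegree + 2)).natDegree, fun j => ?_, fun j hj => ?_, ?_⟩
    · by_cases hj : j = i
      · rw [hj, update_self, map_add, map_pow, hm2, show σ F = 0 from hF]
        simp
      · rw [update_of_ne hj, h1]
    · rcases Finset.mem_insert.1 hj with rfl | hj
      · rwa [update_self, update_self]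
      · have hj' : j ≠ i := ne_of_mem_of_not_mem hj hi
        rw [update_of_ne hj', update_of_ne hj']
        exact h2 j hj
    · rw [Finset.coe_insert, Set.image_insert_eq, update_self, Ideal.span_insert,
        Set.image_congr (g := g) fun j hj => update_of_ne (ne_of_mem_of_not_mem hj hi) _ _,
        sup_assoc, sup_comm]
      exact h4

end ModAP

open ModAP in
theorem pModA : S_ModA.{u} := by
  intro R _ _ hd x hx hx2 S _ _ _ _
  have : IsLocalization.AtPrime R (maximalIdeal R) :=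
    IsLocalization.of_le_isUnit fun _ h => notMem_maximalIdeal.1 h
  have h1 : RegAt R (maximalIdeal R) (2 + 1) :=
    (regAt R R (maximalIdeal R) 3).2 ⟨inferInstance, hd⟩
  have h2 := Pool.Agent.P.MP_46a8f8_ag.cut R _ 2 x h1 hx fun s hs h =>
    hx2 (cancel (maximalIdeal.isMaximal R) hs hx h)
  obtain ⟨n, σ, hσ⟩ := Algebra.FiniteType.iff_quotient_mvPolynomial''.1
    (inferInstance : Algebra.FiniteType R S)
  obtain ⟨g, N, h3, h4, h5⟩ := tower hx σ hσ (base hx h2 σ) Finset.univ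
  refine ⟨n, σ, g, N, hσ, h3, fun i => h4 i (Finset.mem_univ i), ?_⟩
  rw [Finset.coe_univ, Set.image_univ, Finset.card_univ, Fintype.card_fin, Nat.sub_self] at h5
  exact h5

end Pool.Agent.P.MP_46a8f8_ag.GU
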