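import Pool.Agent.P.MP_46a8f8_ag.GU.Base2

/-!
The linking form on the cokernel of the adjoint of a complex: existence and perfectness.
-/

namespace Pool.Agent.P.MP_46a8f8_ag.GU

open Function

universe u

namespace PairP

/-- an element of a free module on which all functionals lie in `(F, G)` lies in `(F, G) M` -/
theorem coords {R : Type u} [CommRing R] {F G : R} {M : Type u} [AddCommGroup M] [Module R M]
    [Module.Free R M] {m : M}
    (h : ∀ l : Module.Dual R M, Ideal.Quotient.mk (Ideal.span {F, G}) (l m) = 0) :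
    ∃ u v : M, m = F • u + G • v := by
  let b := Module.Free.chooseBasis R M
  have h1 : ∀ j, ∃ c d, c * F + d * G = b.repr m j := fun j => mk_eq_zero.1 (h (b.coord j))
  choose c d hc using h1
  refine ⟨∑ j ∈ (b.repr m).support, c j • b j, ∑ j ∈ (b.repr m).support, d j • b j, ?_⟩
  rw [Finset.smul_sum, Finset.smul_sum, ← Finset.sum_add_distrib]
  conv_lhs => rw [← b.linearCombination_repr m, Finsupp.linearCombination_apply, Finsupp.sum]
  exact Finset.sum_congr rfl fun j _ => by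
    rw [← hc, add_smul, smul_smul, smul_smul, mul_comm F, mul_comm G]

variable {R A : Type u} [CommRing R] [Ring A] [Algebra R A] {E : FM R A R R} {F G : R}

/-- the difference of the two preimages comes from `Q` -/
theorem diff (D : Dat E) {ξ : Module.Dual R D.Q.M} {p₁ p₂ : E.M} (h₁ : D.β p₁ = F • ξ)
    (h₂ : D.β p₂ = G • ξ) : ∃ q, D.i q = G • p₁ - F • p₂ :=
  D.ex' (by rw [map_sub, map_smul, map_smul, h₁, h₂, smul_comm, sub_self])

theorem link (D : Dat E) (h : RS F G) {η : Module.Dual R D.Q.M} {p₁ p₂ p' : E.M} {q : D.Q.M}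
    (h' : D.β p' = G • η) (hq : D.i q = G • p₁ - F • p₂) :
    Ideal.Quotient.mk (Ideal.span {F, G}) (E.b p' p₁) = Ideal.Quotient.mk _ (η q) := by
  have e := LinearMap.congr_fun h' q
  rw [D.β_apply, hq, map_sub, map_smul, map_smul, LinearMap.smul_apply, smul_eq_mul, smul_eq_mul,
    smul_eq_mul] at e
  obtain ⟨c, hc⟩ := h.2.2 (E.b p' p₁ - η q) (E.b p' p₂) (by linear_combination e)
  rw [← sub_eq_zero, ← map_sub]
  exact mk_eq_zero.2 ⟨c, 0, by linear_combination -hc⟩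

theorem link' [IsDomain R] (D : Dat E) (h : RS F G) {η : Module.Dual R D.Q.M} {p₁ p₂ p' : E.M}
    {q : D.Q.M} (h' : D.β p' = F • η) (hq : D.i q = G • p₁ - F • p₂) :
    Ideal.Quotient.mk (Ideal.span {F, G}) (E.b p' p₂) = -Ideal.Quotient.mk _ (η q) := by
  have e := LinearMap.congr_fun h' q
  rw [D.β_apply, hq, map_sub, map_smul, map_smul, LinearMap.smul_apply, smul_eq_mul, smul_eq_mul,
    smul_eq_mul] at e
  obtain ⟨c, hc⟩ := h.symm.2.2 (E.b p' p₂ + η q) (E.b p' p₁) (by linear_combination -e)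
  rw [← add_eq_zero_iff_eq_neg, ← map_add]
  exact mk_eq_zero.2 ⟨0, c, by linear_combination -hc⟩

/-- the value of the linking form does not depend on the preimages -/
theorem indep (D : Dat E) (h : RS F G) (hG : D.Kil G) {ξ η : Module.Dual R D.Q.M}
    {p₁ p₁' p' p'' : E.M} (h₁ : D.β p₁ = F • ξ) (h₁' : D.β p₁' = F • ξ) (h' : D.β p' = G • η)
    (h'' : D.β p'' = G • η) :
    Ideal.Quotient.mk (Ideal.span {F, G}) (E.b p' p₁) = Ideal.Quotient.mk _ (E.b p'' p₁') := by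
  obtain ⟨p₂, h₂⟩ := hG ξ
  obtain ⟨q, hq⟩ := diff D h₁ h₂
  obtain ⟨q₀, hq₀⟩ := D.ex' (p := p₁ - p₁') (by rw [map_sub, h₁, h₁', sub_self])
  have e := LinearMap.congr_fun h'' q₀
  rw [D.β_apply, hq₀, map_sub, LinearMap.smul_apply, smul_eq_mul] at e
  rw [link D h h' hq, ← link D h h'' hq, ← sub_eq_zero, ← map_sub]
  exact mk_eq_zero.2 ⟨0, η q₀, by linear_combination -e⟩

end PairP

open PairP

theorem pPair : S_Pair.{u} := by
  intro R A _ _ _ _ _ _ E ε D F G hE h hF hG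
  obtain ⟨hfree, hfin⟩ := D.ff.dual
  obtain ⟨pF, eF, hpF⟩ := hF.exists hE.good D.Q.dual LinearMap.id fun _ _ => rfl
  obtain ⟨pG, eG, hpG⟩ := hG.exists hE.good D.Q.dual LinearMap.id fun _ _ => rfl
  let B : Module.Dual R D.Q.M →ₗ[R] Module.Dual R D.Q.M →ₗ[R] BQ F G :=
    ((E.b.compl₁₂ pG pF).flip).compr₂ (Ideal.Quotient.mkₐ R (Ideal.span {F, G})).toLinearMap
  have hB : ∀ ξ η, B ξ η = Ideal.Quotient.mk _ (E.b (pG η) (pF ξ)) := fun _ _ => rfl
  have key : ∀ ξ η p p', D.β p = F • ξ → D.β p' = G • η →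
      B ξ η = Ideal.Quotient.mk _ (E.b p' p) := fun ξ η p p' hp hp' =>
    (hB ξ η).trans (indep D h hG (hpF ξ) hp (hpG η) hp')
  have h1 : ∀ ξ ∈ LinearMap.range D.β, ∀ η, B ξ η = 0 := by
    rintro _ ⟨p, rfl⟩ η
    rw [key _ η (F • p) (pG η) (map_smul _ _ _) (hpG η), map_smul]
    exact mk_eq_zero.2 ⟨E.b (pG η) p, 0, by simp [mul_comm]⟩
  have h2 : ∀ ξ, ∀ η ∈ LinearMap.range D.β, B ξ η = 0 := by
    rintro ξ _ ⟨p, rfl⟩
    rw [key ξ _ (pF ξ) (G • p) (hpF ξ) (map_smul _ _ _), map_smul, LinearMap.smul_apply]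
    exact mk_eq_zero.2 ⟨0, E.b p (pF ξ), by simp [mul_comm]⟩
  let N := LinearMap.range D.β
  let B₁ : Module.Dual R D.Q.M →ₗ[R] (Module.Dual R D.Q.M ⧸ N) →ₗ[R] BQ F G :=
    (N.liftQ B.flip fun η hη => LinearMap.ext fun ξ => h2 ξ η hη).flip
  let B₂ : (Module.Dual R D.Q.M ⧸ N) →ₗ[R] (Module.Dual R D.Q.M ⧸ N) →ₗ[R] BQ F G :=
    N.liftQ B₁ fun ξ hξ => Submodule.linearMap_qext _ (LinearMap.ext fun η => h1 ξ hξ η)
  have hB₂ : ∀ ξ η, B₂ (N.mkQ ξ) (N.mkQ η) = B ξ η := fun _ _ => rfl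
  let Y : FM R A R (BQ F G) :=
    { toRM := D.Q.dual.quot N (D.eqv_β hE.good).range
      b := B₂ }
  refine ⟨Y, ⟨?_, fun a x y => ?_, fun x y => ?_⟩, hF, hG, N.mkQ, N.mkQ_surjective,
    fun _ _ => rfl, fun ξ => Submodule.Quotient.mk_eq_zero N, fun ξ η p p' hp hp' =>
      (hB₂ ξ η).trans (key ξ η p p' hp hp')⟩
  · exact inferInstanceAs (Module.Finite R (D.Q.dual.M ⧸ N))
  · obtain ⟨ξ, rfl⟩ := N.mkQ_surjective x
    obtain ⟨η, rfl⟩ := N.mkQ_surjective y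
    change B (D.Q.dual.ρ a ξ) η = B ξ (D.Q.dual.ρ (star a) η)
    rw [hB, hB, eF, eG, hE.good.adj']
  · obtain ⟨ξ, rfl⟩ := N.mkQ_surjective x
    obtain ⟨η, rfl⟩ := N.mkQ_surjective y
    change B η ξ = (-ε) • B ξ η
    obtain ⟨q, hq⟩ := diff D (hpF ξ) (hpG ξ)
    rw [hB, hB, link D h (hpG η) hq, hE.good.sym, Units.smul_def, map_zsmul,
      link' D h (hpF η) hq, Units.neg_smul, Units.smul_def, smul_neg]

theorem pUni : S_Uni.{u} := by
  intro R A _ _ _ _ _ _ E ε D F G Y hE h _ hR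
  obtain ⟨hF, hG, π, hπ, -, h3, h4⟩ := hR
  obtain ⟨hfree, hfin⟩ := D.ff
  have hEf := hE.free
  have val : ∀ (ξ η : Module.Dual R D.Q.M) (p₁ p₂ : E.M) (q : D.Q.M), D.β p₁ = F • ξ →
      D.i q = G • p₁ - F • p₂ → Y.b (π ξ) (π η) = Ideal.Quotient.mk _ (η q) :=
    fun ξ η p₁ p₂ q h₁ hq => by
      obtain ⟨p', hp'⟩ := hG η
      rw [h4 ξ η p₁ p' h₁ hp', link D h hp' hq]
  refine FM.perf_of (fun x hx => ?_) fun ψ => ?_
  · obtain ⟨ξ, rfl⟩ := hπ x
    obtain ⟨p₁, h₁⟩ := hF ξ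
    obtain ⟨p₂, h₂⟩ := hG ξ
    obtain ⟨q, hq⟩ := diff D h₁ h₂
    obtain ⟨u, v, huv⟩ := coords (F := F) (G := G) (m := q) fun η => by
      rw [← val ξ η p₁ p₂ q h₁ hq, hx]
    rw [huv, map_add, map_smul, map_smul] at hq
    obtain ⟨w, hw⟩ := h.free (x := p₁ - D.i v) (y := p₂ + D.i u) (by
      rw [smul_sub, smul_add]
      linear_combination (norm := module) -hq)
    refine (h3 ξ).2 ⟨w, LinearMap.ext fun q' => mul_left_cancel₀ h.1 ?_⟩
    have e := LinearMap.congr_fun (congrArg D.β hw) q'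
    rw [map_sub, D.β_i, sub_zero, h₁, map_smul] at e
    exact e.symm
  · obtain ⟨φ, hφ⟩ := Module.projective_lifting_property
      (Ideal.Quotient.mkₐ R (Ideal.span {F, G})).toLinearMap (ψ ∘ₗ π) Ideal.Quotient.mk_surjective
    obtain ⟨q, hq⟩ := (Module.bijective_dual_eval R D.Q.M).2 φ
    have hq' : ∀ η : Module.Dual R D.Q.M,
        Ideal.Quotient.mk (Ideal.span {F, G}) (η q) = ψ (π η) := fun η => by
      have e : η q = φ η := LinearMap.congr_fun hq η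
      rw [e]
      exact LinearMap.congr_fun hφ η
    obtain ⟨u, v, huv⟩ := coords (F := F) (G := G) (m := D.i q) fun l => by
      obtain ⟨p, hp⟩ := hE.perf.exists l
      rw [← hp, ← D.β_apply, hq', (h3 _).2 ⟨p, rfl⟩, map_zero]
    have e := D.β_i q
    rw [huv, map_add, map_smul, map_smul] at e
    obtain ⟨ξ, hξ⟩ := h.free (x := D.β v) (y := -D.β u) (by
      rw [smul_neg]
      exact eq_neg_of_add_eq_zero_right e)
    refine ⟨π ξ, fun y => ?_⟩
    obtain ⟨η, rfl⟩ := hπ y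
    rw [val ξ η v (-u) q hξ (by rw [huv, smul_neg, sub_neg_eq_add, add_comm]), hq']

end Pool.Agent.P.MP_46a8f8_ag.GU
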