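import Pool.Agent.P.MP_46a8f8_ag.GU.Base2

/-!
The curves through a regular sequence of length two and their normalisations.
-/

namespace Pool.Agent.P.MP_46a8f8_ag.GU

open Function IsLocalRing

universe u

namespace PrimesP

/-- a prime containing a regular sequence of length two has height at least two -/
theorem two_le_height {R : Type u} [CommRing R] [IsDomain R] [IsNoetherianRing R] {F G : R}
    (h : RS F G) (p : Ideal R) [hp : p.IsPrime] (hF : F ∈ p) (hG : G ∈ p) : 2 ≤ p.height := by
  obtain ⟨q, hq, hqp⟩ := Ideal.exists_minimalPrimes_le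
    (I := Ideal.span {F}) (J := p) ((Ideal.span_singleton_le_iff_mem _).2 hF)
  have hqp' : q.IsPrime := hq.1.1
  have hFq : F ∈ q := hq.1.2 (Ideal.mem_span_singleton_self F)
  have hGq : G ∉ q := fun hGq => by
    obtain ⟨y, hy, hy'⟩ := Ideal.exists_mul_mem_of_mem_minimalPrimes hq hGq
    obtain ⟨v, hv⟩ := Ideal.mem_span_singleton.1 hy'
    exact hy (Ideal.mem_span_singleton.2 (h.2.2 y v hv))
  have h1 : q < p := lt_of_le_of_ne hqp fun e => hGq (e ▸ hG)
  have h0 : (⊥ : Ideal R) < q := bot_lt_iff_ne_bot.2 fun e => h.1 (by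
    rw [e] at hFq
    exact hFq)
  have := Ideal.isPrime_bot (α := R)
  have a1 := Ideal.height_add_one_le_of_lt_of_isPrime h0
  have a2 := Ideal.height_add_one_le_of_lt_of_isPrime h1
  calc (2 : ℕ∞) = 1 + 1 := one_add_one_eq_two.symm
    _ ≤ q.height + 1 := add_le_add_left (le_add_self.trans a1) 1
    _ ≤ p.height := a2

/-- in dimension three only the maximal ideal lies above a prime of height two -/
theorem eq_max {R : Type u} [CommRing R] [IsLocalRing R] (hd : ringKrullDim R = 3) (p q : Ideal R)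
    [p.IsPrime] [hq : q.IsPrime] (h2 : 2 ≤ p.height) (h : p < q) : q = maximalIdeal R := by
  by_contra hne
  have h' : q < maximalIdeal R := lt_of_le_of_ne (le_maximalIdeal hq.ne_top) hne
  have a1 := Ideal.height_add_one_le_of_lt_of_isPrime h
  have a2 := Ideal.height_add_one_le_of_lt_of_isPrime h'
  have a3 : (maximalIdeal R).height = 3 := by
    have := maximalIdeal_height_eq_ringKrullDim (R := R)
    rw [hd] at this
    exact WithBot.coe_injective this
  have a4 : (2 : ℕ∞) + 1 + 1 ≤ 3 :=
    a3 ▸ (add_le_add_left ((add_le_add_left h2 1).trans a1) 1).trans a2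
  exact absurd a4 (by decide)

/-- the quotient by such a prime has dimension one -/
theorem dim_one {R : Type u} [CommRing R] [IsLocalRing R] (p : Ideal R) [hp : p.IsPrime]
    (hne : p ≠ maximalIdeal R) (h : ∀ q : Ideal R, q.IsPrime → p < q → q = maximalIdeal R) :
    ringKrullDim (R ⧸ p) = 1 := by
  have hs := Ideal.Quotient.mk_surjective (I := p)
  refine eq_of_le_of_not_lt ((Ring.krullDimLE_iff (n := 1)).1 ?_) fun hlt => ?_
  · refine Ring.krullDimLE_one_iff_of_noZeroDivisors.2 fun I hI hI' => ?_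
    have hle : p ≤ I.comap (Ideal.Quotient.mk p) := fun r hr => by
      rw [Ideal.mem_comap, Ideal.Quotient.eq_zero_iff_mem.2 hr]
      exact I.zero_mem
    have hlt : p < I.comap (Ideal.Quotient.mk p) := lt_of_le_of_ne hle fun e => hI (by
      rw [eq_bot_iff]
      intro s hs'
      obtain ⟨r, rfl⟩ := hs s
      have : r ∈ p := by
        rw [e]
        exact hs'
      exact Ideal.Quotient.eq_zero_iff_mem.2 this)
    have hm := h _ (Ideal.comap_isPrime _ _) hlt
    have hmax : (I.comap (Ideal.Quotient.mk p)).IsMaximal := hm ▸ maximalIdeal.isMaximal R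
    rw [← Ideal.map_comap_of_surjective _ hs I]
    exact (Ideal.map_eq_top_or_isMaximal_of_surjective _ hs hmax).resolve_left (by
      rw [Ideal.map_comap_of_surjective _ hs I]
      exact hI'.ne_top)
  · have : Ring.KrullDimLE 0 (R ⧸ p) :=
      Ring.krullDimLE_iff.2 (ENat.WithBot.lt_add_one_iff.1 hlt)
    exact hne (eq_maximalIdeal (Ideal.Quotient.maximal_of_isField p
      Ring.KrullDimLE.isField_of_isDomain))

/-- a common denominator for a finite subalgebra of the fraction field -/
theorem exists_den {B : Type u} [CommRing B] [IsDomain B] (S : Subalgebra B (FractionRing B))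
    [Module.Finite B S] : ∃ c : B, c ≠ 0 ∧ ∀ s : S, ∃ r, algebraMap B S r = algebraMap B S c * s := by
  obtain ⟨T, hT⟩ := Module.Finite.fg_top (R := B) (M := S)
  obtain ⟨c, hc⟩ := IsLocalization.exist_integer_multiples (nonZeroDivisors B) T
    fun s : S => (s : FractionRing B)
  refine ⟨c, nonZeroDivisors.coe_ne_zero c, fun s => ?_⟩
  have hs : s ∈ Submodule.span B (T : Set S) := hT ▸ Submodule.mem_top
  induction hs using Submodule.span_induction with
  | mem s hs =>
    obtain ⟨r, hr⟩ := hc s hs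
    exact ⟨r, Subtype.ext (by
      rw [← Algebra.smul_def]
      exact hr)⟩
  | zero => exact ⟨0, by rw [map_zero, mul_zero]⟩
  | add s t _ _ h1 h2 =>
    obtain ⟨r, hr⟩ := h1
    obtain ⟨r', hr'⟩ := h2
    exact ⟨r + r', by rw [map_add, hr, hr', mul_add]⟩
  | smul a s _ h1 =>
    obtain ⟨r, hr⟩ := h1
    exact ⟨a * r, by rw [map_mul, hr, Algebra.smul_def, mul_left_comm]⟩

end PrimesP

open PrimesP

theorem pPrimes : S_Primes.{u} := by
  intro R _ _ hd x F G hx h
  classical
  have := rDom R
  have hfin := Ideal.finite_minimalPrimes_of_isNoetherianRing R (Ideal.span {F, G})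
  have hrad : Ideal.span {x} * ∏ p ∈ hfin.toFinset.filter (x ∉ ·), p ≤
      (Ideal.span {F, G}).radical := by
    rw [← Ideal.sInf_minimalPrimes, le_sInf_iff]
    intro q hq
    by_cases hxq : x ∈ q
    · exact Ideal.mul_le_left.trans ((Ideal.span_singleton_le_iff_mem _).2 hxq)
    · exact Ideal.mul_le_right.trans (Ideal.prod_le_inf.trans
        (Finset.inf_le (f := fun p : Ideal R => p)
          (Finset.mem_filter.2 ⟨hfin.mem_toFinset.2 hq, hxq⟩)))
  obtain ⟨N, hN⟩ := Ideal.exists_pow_le_of_le_radical_of_fg hrad (IsNoetherian.noetherian _)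
  refine ⟨_, N, fun p hp => ?_, hN⟩
  obtain ⟨hp1, hp2⟩ := Finset.mem_filter.1 hp
  have hp1' := hfin.mem_toFinset.1 hp1
  have hpr : p.IsPrime := hp1'.1.1
  have hF : F ∈ p := hp1'.1.2 (Ideal.subset_span (Set.mem_insert _ _))
  have hG : G ∈ p := hp1'.1.2 (Ideal.subset_span (Set.mem_insert_of_mem _ rfl))
  have hone : ∀ q : Ideal R, q.IsPrime → p < q → q = maximalIdeal R := fun q _ hq =>
    eq_max hd p q (two_le_height h p hF hG) hq
  exact ⟨⟨hpr, hp2, hone⟩, hF, hG, dim_one p (fun e => hp2 (e ▸ hx)) hone⟩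

theorem pNrm : S_Nrm.{u} := by
  intro R _ _ _ p hp hd hfin
  have hk : Ring.KrullDimLE 1 (R ⧸ p) := (Ring.krullDimLE_iff (n := 1)).2 hd.le
  have hle : Ring.DimensionLEOne (R ⧸ p) := ⟨fun h1 h2 => h2.isMaximal_of_ne_bot h1⟩
  let S := integralClosure (R ⧸ p) (FractionRing (R ⧸ p))
  let _ : Algebra R S := ((algebraMap (R ⧸ p) S).comp (Ideal.Quotient.mk p)).toAlgebra
  have ht : IsScalarTower R (R ⧸ p) S := IsScalarTower.of_algebraMap_eq fun _ => rfl
  have hf : Module.Finite R S := Module.Finite.trans (R ⧸ p) S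
  have hn : IsNoetherianRing S := IsNoetherianRing.of_finite (R ⧸ p) S
  have hi : IsIntegrallyClosed S :=
    integralClosure.isIntegrallyClosedOfFiniteExtension (FractionRing (R ⧸ p))
  have h1 : Ring.DimensionLEOne S := Ring.DimensionLEOne.integralClosure _ _
  have hD : IsDedekindDomain S := { hn, h1, hi with }
  have hM := finite_maximalSpectrum R S
  have hinj : Injective (algebraMap (R ⧸ p) S) := fun a b hab =>
    IsFractionRing.injective (R ⧸ p) (FractionRing (R ⧸ p)) (congrArg Subtype.val hab)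
  refine ⟨S, inferInstance, inferInstance, inferInstance, ?_, hf, fun r => ?_, ?_⟩
  · refine IsPrincipalIdealRing.of_finite_maximals ?_
    refine (Set.finite_range fun 𝔫 : MaximalSpectrum S => 𝔫.asIdeal).subset fun I hI => ?_
    exact ⟨⟨I, hI⟩, rfl⟩
  · change algebraMap (R ⧸ p) S (Ideal.Quotient.mk p r) = 0 ↔ _
    rw [map_eq_zero_iff _ hinj, Ideal.Quotient.eq_zero_iff_mem]
  · obtain ⟨c, hc, hc'⟩ := exists_den S
    obtain ⟨c, rfl⟩ := Ideal.Quotient.mk_surjective c
    refine ⟨c, fun h => hc (Ideal.Quotient.eq_zero_iff_mem.2 h), fun s => ?_⟩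
    obtain ⟨r, hr⟩ := hc' s
    obtain ⟨r, rfl⟩ := Ideal.Quotient.mk_surjective r
    exact ⟨r, hr⟩

end Pool.Agent.P.MP_46a8f8_ag.GU
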