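import Pool.Agent.P.MP_46a8f8_ag.GU.Base2

/-!
Self dual projectors onto split Lagrangians, and lifting of symmetric equivariant matrices.
-/

namespace Pool.Agent.P.MP_46a8f8_ag.GU

open TensorProduct Function Matrix IsLocalRing

universe u

theorem pProj : S_Proj.{u} := by
  intro R A C _ _ _ _ _ _ _ E ε N hg hp hN hfin hproj hsurj
  let φ : E.M →ₗ[C] Module.Dual C N := E.b.compl₂ N.subtype
  have hφ : Surjective φ := fun ψ => (hsurj ψ).imp fun x hx => LinearMap.ext hx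
  obtain ⟨s, hs⟩ := Module.projective_lifting_property φ LinearMap.id hφ
  have hs' : ∀ ψ, φ (s ψ) = ψ := fun ψ => LinearMap.congr_fun hs ψ
  have hker : ∀ x, φ x = 0 ↔ x ∈ N := fun x => by
    rw [hN.mem]
    exact ⟨fun h y hy => LinearMap.congr_fun h ⟨y, hy⟩, fun h => LinearMap.ext fun y => h y y.2⟩
  have hf : ∀ x, (LinearMap.id - s ∘ₗ φ : E.M →ₗ[C] E.M) x ∈ N := fun x => (hker _).1 (by
    rw [LinearMap.sub_apply, LinearMap.id_apply, LinearMap.comp_apply, map_sub, hs', sub_self])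
  obtain ⟨e0, h1, h2, h3⟩ := RM.Stab.exists_proj hN.1
    ((LinearMap.id - s ∘ₗ φ : E.M →ₗ[C] E.M).codRestrict N hf) fun y => Subtype.ext (by
      change (y : E.M) - s (φ y) = y
      rw [(hker y).2 y.2, map_zero, sub_zero])
  obtain ⟨e1, h4⟩ := hp.exists_end (E.b.compl₂ e0)
  have h4' : ∀ x y, E.b (e1 x) y = E.b x (e0 y) := h4
  have h5 : ∀ x y, E.b x (e1 y) = E.b (e0 x) y := fun x y => by
    rw [hg.sym, h4', ← hg.sym]
  have h6 : Eqv E.toRM E.toRM e1 := fun a x => hp.ext fun y => by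
    rw [h4', hg.adj, hg.adj, h4', h1]
  have h7 : ∀ x ∈ N, e1 x = 0 := fun x hx => hp.eq_zero fun y => by
    rw [h4']
    exact hN.isot x hx _ (h2 y)
  have h8 : ∀ x, x - e1 x ∈ N := fun x => hN.mem.2 fun y hy => by
    rw [map_sub, LinearMap.sub_apply, h4', h3 y hy, sub_self]
  obtain ⟨t, ht⟩ := (two_unit R A C).exists_left_inv
  let e : E.M →ₗ[C] E.M := t • (e0 + (LinearMap.id - e1))
  have he : ∀ x, e x = t • (e0 x + (x - e1 x)) := fun _ => rfl
  have h9 : ∀ x, e x ∈ N := fun x => N.smul_mem t (N.add_mem (h2 x) (h8 x))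
  have h10 : ∀ x ∈ N, e x = x := fun x hx => by
    rw [he, h3 x hx, h7 x hx, sub_zero, ← two_smul C x, smul_smul, ht, one_smul]
  refine ⟨e, ⟨fun a x => ?_, fun x => h10 _ (h9 x), fun x y => ?_⟩, le_antisymm ?_ ?_⟩
  · rw [he, he, h1, h6, map_smul, map_add, map_sub]
  · rw [he, he]
    simp only [map_smul, map_add, map_sub, LinearMap.smul_apply, LinearMap.add_apply,
      LinearMap.sub_apply, smul_eq_mul, h4', h5]
    linear_combination E.b x y * ht
  · rintro _ ⟨x, rfl⟩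
    exact h9 x
  · exact fun x hx => ⟨x, h10 x hx⟩

namespace ProjP

variable {R A C : Type u} [CommRing R] [Ring A] [Algebra R A] [StarRing A] [SA R A] [CommRing C]
  [Algebra R C] {ι : Type} [Fintype ι] [DecidableEq ι]

/-- the average of a matrix is equivariant -/
theorem av_adj {k : ℕ} {a b : Fin k → A}
    (hc : ∀ c : A, ∑ i, (c * a i) ⊗ₜ[R] b i = ∑ i, a i ⊗ₜ[R] (b i * c)) (ρ : MRep R A C ι)
    (l : Matrix ι ι C) (c : A) :
    ρ.ρ c * ∑ i, ρ.ρ (a i) * l * (ρ.ρ (star (b i)))ᵀ =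
      (∑ i, ρ.ρ (a i) * l * (ρ.ρ (star (b i)))ᵀ) * (ρ.ρ (star c))ᵀ := by
  have h1 : ∀ x : ι → C, av a b ρ.dual.rm ρ.rm (Matrix.toLin' l) x =
      (∑ i, ρ.ρ (a i) * l * (ρ.ρ (star (b i)))ᵀ) *ᵥ x := fun x => by
    rw [av_apply, Matrix.sum_mulVec]
    refine Finset.sum_congr rfl fun i _ => ?_
    rw [← mulVec_mulVec, ← mulVec_mulVec]
    rfl
  refine Matrix.toLin'.injective (LinearMap.ext fun x => ?_)
  have h2 := av_eqv hc ρ.dual.rm ρ.rm (Matrix.toLin' l) c x
  rw [h1, h1] at h2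
  rw [toLin'_apply, toLin'_apply, ← mulVec_mulVec, ← mulVec_mulVec]
  exact h2.symm

end ProjP

theorem pLiftM : S_LiftM.{u} := by
  intro R A C _ _ _ _ _ _ _ ι _ _ ρ δ l₀
  obtain ⟨k, a, b, h1, hc⟩ := SA.sep (R := R) (A := A)
  obtain ⟨t, ht⟩ := (two_unit R A C).exists_left_inv
  have h2 := ProjP.av_adj hc ρ l₀
  obtain ⟨L, hL⟩ : ∃ L, L = ∑ i, ρ.ρ (a i) * l₀ * (ρ.ρ (star (b i)))ᵀ := ⟨_, rfl⟩
  rw [← hL] at h2
  have h3 : ∀ c : A, ρ.ρ c * Lᵀ = Lᵀ * (ρ.ρ (star c))ᵀ := fun c => by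
    have := congrArg transpose (h2 (star c))
    rw [star_star, transpose_mul, transpose_mul, transpose_transpose] at this
    exact this.symm
  refine ⟨t • (L + δ • Lᵀ), ⟨?_, fun c => ?_⟩, fun V _ _ q hq => ?_⟩
  · rcases Int.units_eq_one_or δ with rfl | rfl
    · simp [add_comm]
    · simp [add_comm]
  · rcases Int.units_eq_one_or δ with rfl | rfl
    · simp [Matrix.mul_add, Matrix.add_mul, h2, h3]
    · simp [Matrix.mul_add, Matrix.add_mul, h2, h3]
  · have h4 : L.map q = l₀.map q := by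
      have e1 : L.map q = ∑ i, (ρ.map q).ρ (a i) * l₀.map q * ((ρ.map q).ρ (star (b i)))ᵀ := by
        rw [hL]
        refine (map_sum (q.toRingHom.mapMatrix) _ _).trans (Finset.sum_congr rfl fun i _ => ?_)
        rw [map_mul, map_mul]
        rfl
      rw [e1, Finset.sum_congr rfl fun i _ => by
        rw [Matrix.mul_assoc, ← hq.2, ← Matrix.mul_assoc, ← map_mul], ← Finset.sum_mul, ← map_sum,
        h1, map_one, Matrix.one_mul]
    have h5 : q t * 2 = 1 := by rw [← map_ofNat q 2, ← map_mul, ht, map_one]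
    ext i j
    have e1 : q (L i j) = q (l₀ i j) := congrFun (congrFun h4 i) j
    have e2 : q (L j i) = q (l₀ j i) := congrFun (congrFun h4 j) i
    have e3 : q (l₀ j i) = δ • q (l₀ i j) := congrFun (congrFun hq.1 i) j
    change q (t * (L i j + δ • L j i)) = q (l₀ i j)
    rw [map_mul, map_add, Units.smul_def, map_zsmul, ← Units.smul_def, e1, e2, e3, usmul_usmul]
    linear_combination q (l₀ i j) * h5

end Pool.Agent.P.MP_46a8f8_ag.GU
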