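import Pool.Agent.P.MP_46a8f8_ag.GU.Base2

/-!
Package Red: reduction of a perfect form by a maximal stable isotropic submodule.
-/

namespace Pool.Agent.P.MP_46a8f8_ag.GU

open TensorProduct Function Matrix IsLocalRing

universe u

namespace RedP

variable {R A C V : Type u} [CommRing R] [Ring A] [Algebra R A] [CommRing C] [Algebra R C]
  [AddCommGroup V] [Module C V] [StarRing A] {δ : ℤˣ}

/-- the subquotient of a form by a stable submodule -/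
theorem exists_red (Y : FM R A C V) (hg : Y.Good δ) (N : Submodule C Y.M) (hN : Y.Stab N) :
    ∃ (Y₁ : FM R A C V) (π : Y.perp N →ₗ[C] Y₁.M), Surjective π ∧
      (∀ x, π x = 0 ↔ x.1 ∈ N) ∧
      (∀ (a : A) (x : Y.perp N), π ⟨Y.ρ a x, hg.stab_perp hN a x x.2⟩ = Y₁.ρ a (π x)) ∧
      ∀ x y, Y₁.b (π x) (π y) = Y.b x y := by
  have hP := hg.stab_perp hN
  have hS : (Y.toRM.sub (Y.perp N) hP).Stab (N.comap (Y.perp N).subtype) :=
    (Y.toRM.eqv_subtype _ hP).comap hN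
  let b0 : Y.perp N →ₗ[C] Y.perp N →ₗ[C] V :=
    Y.b.compl₁₂ (Y.perp N).subtype (Y.perp N).subtype
  have h1 : N.comap (Y.perp N).subtype ≤ LinearMap.ker b0 := fun x hx =>
    LinearMap.ext fun y => hg.zero (y.2 x.1 hx)
  have h2 : N.comap (Y.perp N).subtype ≤ LinearMap.ker b0.flip := fun x hx =>
    LinearMap.ext fun y => y.2 x.1 hx
  refine ⟨⟨(Y.toRM.sub (Y.perp N) hP).quot _ hS, b0.liftQ₂ _ _ h1 h2⟩,
    (N.comap (Y.perp N).subtype).mkQ, Submodule.mkQ_surjective _, fun x => ?_,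
    fun _ _ => rfl, fun _ _ => rfl⟩
  exact Submodule.Quotient.mk_eq_zero _

section red

variable {Y Y₁ : FM R A C V} {N : Submodule C Y.M} {π : Y.perp N →ₗ[C] Y₁.M}

theorem good [IsNoetherianRing C] (hg : Y.Good δ) (hN : Y.Stab N) (hs : Surjective π)
    (he : ∀ (a : A) (x : Y.perp N), π ⟨Y.ρ a x, hg.stab_perp hN a x x.2⟩ = Y₁.ρ a (π x))
    (hb : ∀ x y, Y₁.b (π x) (π y) = Y.b x y) : Y₁.Good δ := by
  have := hg.fin
  refine ⟨Module.Finite.of_surjective π hs, fun a x y => ?_, fun x y => ?_⟩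
  · obtain ⟨x, rfl⟩ := hs x
    obtain ⟨y, rfl⟩ := hs y
    rw [← he, ← he, hb, hb]
    exact hg.adj a x y
  · obtain ⟨x, rfl⟩ := hs x
    obtain ⟨y, rfl⟩ := hs y
    rw [hb, hb]
    exact hg.sym x y

theorem aniso (hg : Y.Good δ) (hN : Y.Stab N) (hi : Y.Isot N) (hs : Surjective π)
    (hk : ∀ x, π x = 0 ↔ x.1 ∈ N)
    (he : ∀ (a : A) (x : Y.perp N), π ⟨Y.ρ a x, hg.stab_perp hN a x x.2⟩ = Y₁.ρ a (π x))
    (hb : ∀ x y, Y₁.b (π x) (π y) = Y.b x y)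
    (hmax : ∀ L, Y.Stab L → Y.Isot L → ¬ N < L) : Y₁.Aniso := by
  intro L hL hLi
  let L' : Submodule C Y.M := (L.comap π).map (Y.perp N).subtype
  have h1 : Y.Stab L' := by
    rintro a _ ⟨x, hx, rfl⟩
    refine ⟨⟨Y.ρ a x, hg.stab_perp hN a x x.2⟩, ?_, rfl⟩
    change π _ ∈ L
    rw [he]
    exact hL a _ hx
  have h2 : Y.Isot L' := by
    rintro _ ⟨x, hx, rfl⟩ _ ⟨y, hy, rfl⟩
    exact (hb x y).symm.trans (hLi _ hx _ hy)
  have h3 : N ≤ L' := fun x hx => by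
    refine ⟨⟨x, hi x hx⟩, ?_, rfl⟩
    change π _ ∈ L
    rw [(hk _).2 hx]
    exact L.zero_mem
  have h4 : N = L' := by
    by_contra h
    exact hmax L' h1 h2 (lt_of_le_of_ne h3 h)
  refine (Submodule.eq_bot_iff _).2 fun x hx => ?_
  obtain ⟨x, rfl⟩ := hs x
  refine (hk x).2 ?_
  have : x.1 ∈ L' := ⟨x, hx, rfl⟩
  exact h4.ge this

theorem lag (hg : Y.Good δ) (hN : Y.Stab N) (hi : Y.Isot N) (hs : Surjective π)
    (hk : ∀ x, π x = 0 ↔ x.1 ∈ N)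
    (he : ∀ (a : A) (x : Y.perp N), π ⟨Y.ρ a x, hg.stab_perp hN a x x.2⟩ = Y₁.ρ a (π x))
    (hb : ∀ x y, Y₁.b (π x) (π y) = Y.b x y) (Z : FM R A C V) (h : (Y₁.sum Z).HasLag) :
    (Y.sum Z).HasLag := by
  obtain ⟨L, hL⟩ := h
  let L' : Submodule C (Y.M × Z.M) :=
    (L.comap (π.prodMap LinearMap.id)).map ((Y.perp N).subtype.prodMap LinearMap.id)
  have mem : ∀ (x : Y.perp N) (z : Z.M), (π x, z) ∈ L → (x.1, z) ∈ L' := fun x z hx =>
    ⟨(x, z), hx, rfl⟩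
  refine ⟨L', ?_, le_antisymm ?_ ?_⟩
  · rintro a _ ⟨⟨x, z⟩, hx, rfl⟩
    refine mem ⟨Y.ρ a x, hg.stab_perp hN a x x.2⟩ (Z.ρ a z) ?_
    rw [he]
    exact hL.1 a _ hx
  · rintro ⟨m, z⟩ hm
    have h1 : m ∈ Y.perp N := fun y hy => by
      have h0 : (π ⟨y, hi y hy⟩, (0 : Z.M)) ∈ L := by
        rw [(hk _).2 hy]
        exact L.zero_mem
      have := hm _ (mem _ _ h0)
      rwa [FM.sum_b, map_zero, add_zero] at this
    refine mem ⟨m, h1⟩ z (hL.mem.2 ?_)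
    rintro ⟨w, z'⟩ hw
    obtain ⟨w, rfl⟩ := hs w
    have := hm _ (mem _ _ hw)
    rw [FM.sum_b] at this ⊢
    rw [hb]
    exact this
  · rintro _ ⟨⟨x, z⟩, hx, rfl⟩ _ ⟨⟨x', z'⟩, hx', rfl⟩
    have := hL.isot _ hx _ hx'
    rw [FM.sum_b] at this ⊢
    change Y₁.b (π x) (π x') + Z.b z z' = 0 at this
    rw [hb] at this
    exact this

end red

end RedP

theorem pRed (h1 : S_Z.{u}) (h2 : S_Inj.{u}) : S_Red.{u} := by
  intro R A _ _ _ _ _ _ hd F G δ Y N hFG hg hp hN hi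
  have := hg.fin
  obtain ⟨N', ⟨hN', hi', hle⟩, hmax⟩ := set_has_maximal_iff_noetherian.2
    (inferInstance : IsNoetherian R Y.M) {L | Y.Stab L ∧ Y.Isot L ∧ N ≤ L} ⟨N, hN, hi, le_rfl⟩
  obtain ⟨Y₁, π, hs, hk, he, hb⟩ := RedP.exists_red Y hg N' hN'
  have hg₁ : Y₁.Good δ := RedP.good hg hN' hs he hb
  have ha : Y₁.Aniso := RedP.aniso hg hN' hi' hs hk he hb
    fun L a b c => hmax L ⟨a, b, hle.trans c.le⟩ c
  refine ⟨Y₁, hg₁, FM.perf_of (fun x hx => ha.eq_zero hg₁ hx) fun ψ => ?_, ha,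
    fun r hr x => ?_, RedP.lag hg hN' hi' hs hk he hb⟩
  · obtain ⟨z, hz, hz2, hreg⟩ := h1 R hd F G (maximalIdeal R ^ 2) hFG (not_le_sq3 hd)
    obtain ⟨ψ', hψ⟩ := h2 R hd F G z hFG hz hz2 Y.M (Y.perp N')
      (fun m => hp.eq_zero fun y => by rw [map_smul, LinearMap.smul_apply, smul_bq_left])
      (fun m => hp.eq_zero fun y => by rw [map_smul, LinearMap.smul_apply, smul_bq_right])
      (fun m hm y hy => hreg (by
        have := hm y hy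
        rw [map_smul, LinearMap.smul_apply] at this
        simpa using this))
      (ψ ∘ₗ π)
    obtain ⟨x, hx⟩ := hp.exists ψ'
    have hx' : x ∈ Y.perp N' := fun y hy => by
      rw [hx, hψ ⟨y, hi' y hy⟩, LinearMap.comp_apply, (hk _).2 hy, map_zero]
    refine ⟨π ⟨x, hx'⟩, fun y => ?_⟩
    obtain ⟨y, rfl⟩ := hs y
    rw [hb, hx, hψ, LinearMap.comp_apply]
  · obtain ⟨x, rfl⟩ := hs x
    rw [← map_smul]
    exact (hk _).2 (hle (hr x (FM.perp_mono hle x.2)))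

end Pool.Agent.P.MP_46a8f8_ag.GU
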