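import Pool.Agent.P.MP_46a8f8_ag.GU.Base2

/-!
A complex from a Lagrangian.
-/

namespace Pool.Agent.P.MP_46a8f8_ag.GU

open TensorProduct Function Matrix IsLocalRing

universe u

namespace Step0P

/-- the kernel of a free cover of a dual module is free -/
theorem free_ker {R : Type u} [CommRing R] [IsRegularLocalRing R] (hd : ringKrullDim R = 3)
    {L P : Type u} [AddCommGroup L] [Module R L] [Module.Finite R L] [AddCommGroup P]
    [Module R P] [Module.Finite R P] [Module.Free R P] (π : P →ₗ[R] Module.Dual R L)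
    (hπ : Surjective π) : Module.Free R (LinearMap.ker π) := by
  have := rDom R
  obtain ⟨n, q, hq⟩ := Module.Finite.exists_fin' R L
  obtain ⟨z, hz, hz2⟩ := SetLike.not_le_iff_exists.1 (not_le_sq3 hd)
  have hz0 : z ≠ 0 := fun e => hz2 (e ▸ Submodule.zero_mem _)
  have hreg : IsSMulRegular (Module.Dual R (Fin n → R) ⧸ LinearMap.range q.dualMap) z := by
    refine (injective_iff_map_eq_zero (DistribSMul.toAddMonoidHom _ z)).2 fun y hy => ?_
    obtain ⟨ξ, rfl⟩ := Submodule.Quotient.mk_surjective _ y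
    have h1 : z • ξ ∈ LinearMap.range q.dualMap := (Submodule.Quotient.mk_eq_zero _).1 hy
    rw [Submodule.Quotient.mk_eq_zero]
    rw [LinearMap.range_dualMap_eq_dualAnnihilator_ker_of_surjective q hq,
      Submodule.mem_dualAnnihilator] at h1 ⊢
    exact fun w hw => (mul_eq_zero.1 (h1 w hw)).resolve_left hz0
  have hinj := LinearMap.dualMap_injective_of_surjective hq
  have : Module.Projective R (LinearMap.ker π) :=
    proj_of_pd2 (LinearMap.ker π).subtype (q.dualMap ∘ₗ π) (LinearMap.range q.dualMap).mkQ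
      (LinearMap.ker π).injective_subtype
      (fun v => ((map_eq_zero_iff _ hinj).trans (LinearMap.exact_subtype_ker_map π v)))
      (fun ξ => (Submodule.Quotient.mk_eq_zero _).trans
        ⟨fun ⟨ψ, h⟩ => (hπ ψ).imp fun v hv => by rw [← h, ← hv]; rfl, fun ⟨v, h⟩ => ⟨π v, h⟩⟩)
      (Submodule.mkQ_surjective _) (pd_of_reg 2 hd hz hz2 _ hreg)
  exact Module.free_of_flat_of_isLocalRing

/-- a section up to a scalar gives a retraction up to the same scalar -/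
theorem retr {R E Y : Type u} [CommRing R] [AddCommGroup E] [Module R E] [AddCommGroup Y]
    [Module R Y] {w : E →ₗ[R] Y} {L : Submodule R E} (hL : ∀ e, e ∈ L ↔ w e = 0) {F : R}
    (h : ∃ s : Y →ₗ[R] E, ∀ y, w (s y) = F • y) :
    ∃ r : E →ₗ[R] L, ∀ y : L, r (L.subtype y) = F • y := by
  obtain ⟨s, hs⟩ := h
  refine ⟨(F • LinearMap.id - s ∘ₗ w).codRestrict L fun e => (hL _).2 (by simp [hs]),
    fun y => Subtype.ext ?_⟩
  simp [(hL _).1 y.2]

variable {R A : Type u} [CommRing R] [IsDomain R] [Ring A] [Algebra R A] [StarRing A] [SA R A]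

theorem main (E : FM R A R R) (ε : ℤˣ) (L : Submodule R E.M) (hL : E.IsLag L) (G₀ G₁ : RM R A R)
    (d : G₁.M →ₗ[R] G₀.M) (p : G₀.M →ₗ[R] Module.Dual R L) {F G F' : R} (hE : E.Sp ε)
    (h0 : G₀.FF) (h1 : G₁.FF) (hd : Eqv G₁ G₀ d) (hdi : Injective d) (hex : Exact d p)
    (hFG : RS F G) (hF : ∃ r : E.M →ₗ[R] L, ∀ y : L, r (L.subtype y) = F • y)
    (hG : ∃ r : E.M →ₗ[R] L, ∀ y : L, r (L.subtype y) = G • y) (hF' : F' ≠ 0)
    (r : G₀.M →ₗ[R] G₁.M) (hr : ∀ y, r (d y) = F' • y)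
    (β : E.M →ₗ[R] G₀.M) (j : Module.Dual R G₀.M →ₗ[R] E.M)
    (κ : Module.Dual R G₀.M →ₗ[R] G₁.M) (hj : Eqv G₀.dual E.toRM j) (hκ : Eqv G₀.dual G₁ κ)
    (hβ : ∀ e (l : L), p (β e) l = E.b e l) (hb : ∀ e ξ, E.b e (j ξ) = ξ (β e))
    (hi : ∀ ξ ξ', E.b (j ξ) (j ξ') + (ξ (d (κ ξ')) + ε • ξ' (d (κ ξ))) = 0) :
    ∃ D : Dat (E.sum (G₁.hyp ε)), D.Kil F ∧ D.Kil G := by
  have := h0.1
  have := h0.2
  have hS := hE.sum (h1.hyp ε)
  let i : Module.Dual R G₀.M →ₗ[R] (E.sum (G₁.hyp ε)).M := j.prod (κ.prod d.dualMap)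
  have ib : ∀ (e : E.M) (y : G₁.M) (ζ : Module.Dual R G₁.M) (ξ : Module.Dual R G₀.M),
      (E.sum (G₁.hyp ε)).b (e, y, ζ) (i ξ) = ξ (β e) + (ζ (κ ξ) + ε • ξ (d y)) :=
    fun e y ζ ξ => congrArg (· + (ζ (κ ξ) + ε • ξ (d y))) (hb e ξ)
  have kil : ∀ c : R, (∃ r : E.M →ₗ[R] L, ∀ y : L, r (L.subtype y) = c • y) →
      ∀ η : Module.Dual R (Module.Dual R G₀.M), ∃ v,
        ∀ ξ, (E.sum (G₁.hyp ε)).b v (i ξ) = c * η ξ := by
    rintro c ⟨s, hs⟩ η
    obtain ⟨g, rfl⟩ := (Module.bijective_dual_eval R G₀.M).2 η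
    obtain ⟨e, he⟩ := hE.perf.exists (p g ∘ₗ s)
    obtain ⟨y, hy⟩ := (hex (c • g - β e)).1 (LinearMap.ext fun l => by
      have h2 : E.b e l = p g (c • l) := (he l).trans (congrArg (p g) (hs l))
      simp [hβ, h2])
    refine ⟨(e, ε • y, 0), fun ξ => ?_⟩
    have h3 : ξ (d (ε • y)) = ε • ξ (d y) := map_zsmul (ξ ∘ₗ d) ε y
    rw [ib, h3, usmul_usmul, hy]
    simp
  have iso : ∀ ξ ξ', (E.sum (G₁.hyp ε)).b (i ξ) (i ξ') = 0 := hi
  have ex0 : ∀ (e : E.M) (y : G₁.M), (∀ ξ, (E.sum (G₁.hyp ε)).b (e, y, 0) (i ξ) = 0) →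
      ∃ ξ, i ξ = (e, y, 0) := by
    intro e y h
    have h2 : β e + d (ε • y) = 0 := (Module.forall_dual_apply_eq_zero_iff R _).1 fun ξ => by
      have h3 : ξ (d (ε • y)) = ε • ξ (d y) := map_zsmul (ξ ∘ₗ d) ε y
      have h4 := h ξ
      rw [ib, LinearMap.zero_apply, zero_add] at h4
      rw [map_add, h3, h4]
    have h5 : e ∈ L := hL.mem.2 fun l hl => by
      have h6 := congrArg (fun g => p g ⟨l, hl⟩) h2
      simpa [hex.apply_apply_eq_zero, hβ] using h6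
    let ξ₁ : Module.Dual R G₀.M := p.flip ⟨e, h5⟩
    have h7 : j ξ₁ = e := hE.perf.ext fun x => by
      rw [hE.good.sym x, hE.good.sym x, hb]
      exact congrArg _ (hβ x ⟨e, h5⟩)
    have h8 : d.dualMap ξ₁ = 0 := LinearMap.ext fun w =>
      LinearMap.congr_fun (hex.apply_apply_eq_zero w) ⟨e, h5⟩
    have h9 : i ξ₁ = (e, κ ξ₁, 0) := Prod.ext h7 (Prod.ext rfl h8)
    refine ⟨ξ₁, h9.trans ?_⟩
    have h10 : d (κ ξ₁ - y) = 0 := (Module.forall_dual_apply_eq_zero_iff R _).1 fun ξ => by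
      have h3 := iso ξ₁ ξ
      have h4 := h ξ
      rw [h9] at h3
      rw [ib, LinearMap.zero_apply, zero_add] at h3 h4
      refine usmul_eq_zero ε ?_
      rw [map_sub, map_sub, smul_sub, sub_eq_zero]
      exact add_left_cancel (h3.trans h4.symm)
    rw [sub_eq_zero.1 (hdi (h10.trans (map_zero d).symm))]
  refine ⟨⟨G₀.dual, h0.dual, i, fun a ξ => Prod.ext (hj a ξ) (Prod.ext (hκ a ξ)
    (hd.dualMap a ξ)), iso, fun v hv => ?_⟩,
    fun η => (kil F hF η).imp fun v hv => LinearMap.ext hv,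
    fun η => (kil G hG η).imp fun v hv => LinearMap.ext hv⟩
  have h2 : (F' • v - i (v.2.2 ∘ₗ r)).2.2 = 0 := LinearMap.ext fun y => by
    change F' * v.2.2 y - v.2.2 (r (d y)) = 0
    rw [hr, map_smul, smul_eq_mul, sub_self]
  obtain ⟨ξ, hξ⟩ := ex0 (F' • v - i (v.2.2 ∘ₗ r)).1 (F' • v - i (v.2.2 ∘ₗ r)).2.1 fun ξ => by
    rw [← h2]
    change (E.sum (G₁.hyp ε)).b (F' • v - i (v.2.2 ∘ₗ r)) (i ξ) = 0
    rw [map_sub, map_smul, LinearMap.sub_apply, LinearMap.smul_apply, hv, iso, smul_zero,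
      sub_zero]
  rw [← h2] at hξ
  have h3 : i (ξ + v.2.2 ∘ₗ r) = F' • v := by
    rw [map_add]
    exact add_eq_of_eq_sub hξ
  obtain ⟨q, hq⟩ := sat_of_kil i hFG (kil F hF) (kil G hG) h3
  rw [hq, map_smul] at h3
  exact ⟨q, hS.perf.reg (z := F') (fun a b hab => mul_left_cancel₀ hF' hab) h3⟩

end Step0P

open Step0P in
theorem pStep0 (h1 : S_Step0a.{u}) (h2 : S_C1.{u}) (h3 : S_Cover.{u}) : S_Step0.{u} := by
  intro R A _ _ _ _ _ _ hd E ε hE ⟨L, hL⟩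
  have := rDom R
  have := hE.good.fin
  have : Module.Finite R (Module.Dual R L) := inferInstance
  obtain ⟨ι, _, _, ρ, π, hπ, he, -⟩ := h3 R A R (E.toRM.sub L hL.1).dual this
  obtain ⟨F, G, hFG, hF, hG⟩ := h2 R hd E.M (E.M ⧸ L) L.mkQ L.mkQ_surjective fun r y hr hy => by
    obtain ⟨e, rfl⟩ := Submodule.Quotient.mk_surjective _ y
    have h4 : r • e ∈ L := (Submodule.Quotient.mk_eq_zero _).1 hy
    rw [Submodule.Quotient.mk_eq_zero, hL.mem]
    intro l hl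
    have h5 := hL.mem.1 h4 l hl
    rw [map_smul, LinearMap.smul_apply, smul_eq_mul] at h5
    exact (mul_eq_zero.1 h5).resolve_left hr
  obtain ⟨F', G', hFG', hF', hG'⟩ := h2 R hd (ι → R) (Module.Dual R L) π hπ fun r ξ hr hξ =>
    LinearMap.ext fun l => (mul_eq_zero.1 (LinearMap.congr_fun hξ l)).resolve_left hr
  let G₀ := (ρ.map (Algebra.ofId R R)).rm
  let G₁ := G₀.sub (LinearMap.ker π) he.ker
  have f0 : G₀.FF := MRep.rm_ff _
  have f1 : G₁.FF := ⟨free_ker hd π hπ, inferInstanceAs (Module.Finite R (LinearMap.ker π))⟩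
  have hm : ∀ e, e ∈ L ↔ L.mkQ e = 0 := fun e => (Submodule.Quotient.mk_eq_zero _).symm
  have r1 := retr (L := LinearMap.ker π) (fun _ => Iff.rfl) hF'
  have r2 := retr (L := LinearMap.ker π) (fun _ => Iff.rfl) hG'
  have hdq : Eqv G₁ G₀ (LinearMap.ker π).subtype := G₀.eqv_subtype _ _
  obtain ⟨β, j, κ, a1, a2, a3, a4, a5⟩ := h1 R A E ε L hL G₀ G₁ (LinearMap.ker π).subtype π F' G'
    hE f0 f1 hdq he (LinearMap.ker π).injective_subtype (LinearMap.exact_subtype_ker_map π) hπ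
    hFG' r1 r2
  obtain ⟨r, hr⟩ := r1
  obtain ⟨D, d1, d2⟩ := main E ε L hL G₀ G₁ (LinearMap.ker π).subtype π hE f0 f1 hdq
    (LinearMap.ker π).injective_subtype (LinearMap.exact_subtype_ker_map π) hFG (retr hm hF)
    (retr hm hG) hFG'.1 r hr β j κ a1 a2 a3 a4 a5
  exact ⟨G₁.hyp ε, D, F, G, f1.hyp ε, G₁.hyp_hyp ε, hFG, d1, d2⟩

end Pool.Agent.P.MP_46a8f8_ag.GU
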