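import Pool.Agent.P.MP_46a8f8_ag.GU.Base2

/-!
The first half of the construction of a complex from a Lagrangian.
-/

namespace Pool.Agent.P.MP_46a8f8_ag.GU

open TensorProduct Function Matrix IsLocalRing

universe u

namespace Step0aP

/-- division of a bilinear form by a nonzero scalar -/
theorem div_bil {R X Y : Type u} [CommRing R] [IsDomain R] [AddCommGroup X] [Module R X]
    [AddCommGroup Y] [Module R Y] {F : R} (hF : F ≠ 0) (v : X →ₗ[R] Y →ₗ[R] R)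
    (h : ∀ x y, F ∣ v x y) : ∃ a : X →ₗ[R] Y →ₗ[R] R, ∀ x y, F * a x y = v x y := by
  choose c hc using h
  refine ⟨LinearMap.mk₂ R c (fun x x' y => mul_left_cancel₀ hF ?_)
    (fun r x y => mul_left_cancel₀ hF ?_) (fun x y y' => mul_left_cancel₀ hF ?_)
    (fun r x y => mul_left_cancel₀ hF ?_), fun x y => (hc x y).symm⟩
  · rw [mul_add, ← hc, ← hc, ← hc, map_add, LinearMap.add_apply]
  · rw [smul_eq_mul, mul_left_comm, ← hc, ← hc, map_smul, LinearMap.smul_apply, smul_eq_mul]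
  · rw [mul_add, ← hc, ← hc, ← hc, map_add]
  · rw [smul_eq_mul, mul_left_comm, ← hc, ← hc, map_smul, smul_eq_mul]

variable {R A : Type u} [CommRing R] [Ring A] [Algebra R A] [StarRing A] [SA R A]

/-- a map which vanishes on the forms killing `d` factors over the transpose of `d` -/
theorem fac [IsDomain R] {G₀ G₁ Y : RM R A R} {d : G₁.M →ₗ[R] G₀.M} (hd : Eqv G₁ G₀ d)
    {F G : R} (hRS : RS F G) (r₁ r₂ : G₀.M →ₗ[R] G₁.M) (h₁ : ∀ y, r₁ (d y) = F • y)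
    (h₂ : ∀ y, r₂ (d y) = G • y) (w : Module.Dual R G₀.M →ₗ[R] Module.Dual R Y.M)
    (hw : Eqv G₀.dual Y.dual w) (h0 : ∀ ξ, (∀ y, ξ (d y) = 0) → w ξ = 0) :
    ∃ a : Module.Dual R G₁.M →ₗ[R] Module.Dual R Y.M, Eqv G₁.dual Y.dual a ∧
      ∀ ξ, a (d.dualMap ξ) = w ξ := by
  have hext : ∀ ξ ξ' : Module.Dual R G₀.M, (∀ y, ξ (d y) = ξ' (d y)) → w ξ = w ξ' := by
    intro ξ ξ' h
    rw [← sub_eq_zero, ← map_sub]
    exact h0 _ fun y => by rw [LinearMap.sub_apply, h, sub_self]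
  obtain ⟨a, ha⟩ := div_bil hRS.1 (w ∘ₗ r₁.dualMap) fun ζ l => by
    refine hRS.2.2 _ (w (r₂.dualMap ζ) l) ?_
    have := hext (G • r₁.dualMap ζ) (F • r₂.dualMap ζ) fun y => by
      simp only [LinearMap.smul_apply, LinearMap.dualMap_apply, h₁, h₂, map_smul, smul_eq_mul]
      ring
    rw [map_smul, map_smul] at this
    exact LinearMap.congr_fun this l
  have ha' : ∀ ζ l, F * a ζ l = w (r₁.dualMap ζ) l := ha
  refine ⟨a, fun c ζ => LinearMap.ext fun l => mul_left_cancel₀ hRS.1 ?_,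
    fun ξ => LinearMap.ext fun l => mul_left_cancel₀ hRS.1 ?_⟩
  · have e1 : F * (Y.dual.ρ c (a ζ)) l = w (r₁.dualMap ζ) (Y.ρ (star c) l) := ha' ζ _
    have e2 : w (G₀.dual.ρ c (r₁.dualMap ζ)) l = w (r₁.dualMap ζ) (Y.ρ (star c) l) :=
      LinearMap.congr_fun (hw c (r₁.dualMap ζ)) l
    rw [ha', e1, ← e2]
    refine LinearMap.congr_fun (hext _ _ fun y => ?_) l
    change ζ (G₁.ρ (star c) (r₁ (d y))) = ζ (r₁ (G₀.ρ (star c) (d y)))
    rw [← hd, h₁, h₁, map_smul]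
  · rw [ha']
    have := hext (r₁.dualMap (d.dualMap ξ)) (F • ξ) fun y => by
      simp only [LinearMap.smul_apply, LinearMap.dualMap_apply, h₁, map_smul]
    rw [this, map_smul]
    rfl

/-- the transpose of a map out of a dual -/
theorem transp {G₀ G₁ : RM R A R} (h : G₁.FF) (a : Module.Dual R G₁.M →ₗ[R] G₀.M)
    (ha : Eqv G₁.dual G₀ a) : ∃ s : Module.Dual R G₀.M →ₗ[R] G₁.M, Eqv G₀.dual G₁ s ∧
      ∀ ξ (ζ : Module.Dual R G₁.M), ζ (s ξ) = ξ (a ζ) := by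
  obtain ⟨_, _⟩ := h
  have key : ∀ ξ (ζ : Module.Dual R G₁.M),
      ζ (((Module.evalEquiv R G₁.M).symm.toLinearMap ∘ₗ a.dualMap) ξ) = ξ (a ζ) := fun ξ ζ =>
    Module.apply_evalEquiv_symm_apply R G₁.M ζ (a.dualMap ξ)
  refine ⟨_, fun c ξ => ?_, key⟩
  rw [← sub_eq_zero]
  refine (Module.forall_dual_apply_eq_zero_iff R _).1 fun ζ => ?_
  have e1 := key ξ (G₁.dual.ρ (star c) ζ)
  rw [ha] at e1
  rw [map_sub, key, sub_eq_zero]
  refine Eq.trans e1.symm ?_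
  change ζ (G₁.ρ (star (star c)) _) = _
  rw [star_star]

/-- the adjoint of a map out of a perfect space -/
theorem adjoint {E : FM R A R R} {ε : ℤˣ} (hE : E.Sp ε) {G₀ : RM R A R} (β : E.M →ₗ[R] G₀.M)
    (hβ : Eqv E.toRM G₀ β) : ∃ j : Module.Dual R G₀.M →ₗ[R] E.M, Eqv G₀.dual E.toRM j ∧
      ∀ e ξ, E.b e (j ξ) = ξ (β e) := by
  obtain ⟨j, hj⟩ := hE.perf.exists_end (((ε : ℤ) : R) • β.dualMap)
  have key : ∀ e ξ, E.b e (j ξ) = ξ (β e) := fun e ξ => by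
    rw [hE.good.sym, hj, ← usmul_usmul ε (ξ (β e))]
    congr 1
    rw [Units.smul_def, zsmul_eq_mul]
    rfl
  refine ⟨j, fun c ξ => hE.perf.ext fun y => ?_, key⟩
  rw [hE.good.sym y, hE.good.sym y, key, hE.good.adj', key, hβ]
  rfl

end Step0aP

open Step0aP in
theorem pStep0a : S_Step0a.{u} := by
  intro R A _ _ _ _ _ _ E ε L hL G₀ G₁ d p F G hE h₀ h₁ hd hp _ hex hsur hRS hr₁ hr₂
  obtain ⟨r₁, hr₁⟩ := hr₁
  obtain ⟨r₂, hr₂⟩ := hr₂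
  have := hE.free
  have := h₀.dual.1
  have := h₁.dual.1
  let q : E.M →ₗ[R] Module.Dual R L := E.b.compl₂ L.subtype
  have hq : Eqv E.toRM (E.toRM.sub L hL.1).dual q := fun c e =>
    LinearMap.ext fun l => hE.good.adj c e l
  have hqL : ∀ e ∈ L, q e = 0 := fun e he => LinearMap.ext fun l => hL.isot e he l l.2
  obtain ⟨β, hβ, hpβ⟩ := Eqv.lift_proj (X := E.toRM) hp hq fun e => hsur _
  obtain ⟨j, hj, hbj⟩ := adjoint hE β hβ
  obtain ⟨a, ha, had⟩ := fac (Y := E.toRM.sub L hL.1) hd hRS r₁ r₂ hr₁ hr₂ (q ∘ₗ j)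
    (hq.comp hj) fun ξ hξ => hqL _ (hL.mem.2 fun l hl => by
      obtain ⟨y, hy⟩ := (hex (β l)).1 ((hpβ l).trans (hqL l hl))
      refine hE.good.zero ?_
      rw [hbj, ← hy, hξ])
  obtain ⟨a', ha', hpa⟩ := Eqv.lift_proj (X := G₁.dual) hp ha fun ζ => hsur _
  have hg : Eqv G₀.dual G₀ (β ∘ₗ j - a' ∘ₗ d.dualMap : Module.Dual R G₀.M →ₗ[R] G₀.M) := by
    intro c ξ
    have e1 : β (j (G₀.dual.ρ c ξ)) = G₀.ρ c (β (j ξ)) := (hβ.comp hj) c ξ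
    have e2 : a' (d.dualMap (G₀.dual.ρ c ξ)) = G₀.ρ c (a' (d.dualMap ξ)) :=
      (ha'.comp hd.dualMap) c ξ
    change β (j (G₀.dual.ρ c ξ)) - a' (d.dualMap (G₀.dual.ρ c ξ)) =
      G₀.ρ c (β (j ξ) - a' (d.dualMap ξ))
    rw [e1, e2, map_sub]
  obtain ⟨k, hk, hdk⟩ := Eqv.lift_proj (X := G₀.dual) hd hg fun ξ => (hex _).1 (by
    change p (β (j ξ) - a' (d.dualMap ξ)) = 0
    rw [map_sub, hpβ, hpa, had, sub_eq_zero]
    rfl)
  obtain ⟨s, hs, hsa⟩ := transp h₁ a' ha'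
  have ht : ∀ ξ ξ' : Module.Dual R G₀.M,
      E.b (j ξ) (j ξ') = ξ (d (s ξ')) + ξ' (d (k ξ)) := fun ξ ξ' => by
    have e1 : d (k ξ) = β (j ξ) - a' (d.dualMap ξ) := hdk ξ
    have e2 : ξ (d (s ξ')) = ξ' (a' (d.dualMap ξ)) := hsa ξ' (d.dualMap ξ)
    rw [hbj, e1, e2, map_sub, add_sub_cancel]
  obtain ⟨h, hh⟩ := (SA.two (R := R) (A := A)).exists_left_inv
  refine ⟨β, j, -h • (s + ((ε : ℤ) : R) • k), hj, fun c ξ => ?_,
    fun e l => LinearMap.congr_fun (hpβ e) l, hbj, fun ξ ξ' => ?_⟩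
  · have e1 : s (G₀.dual.ρ c ξ) = G₁.ρ c (s ξ) := hs c ξ
    have e2 : k (G₀.dual.ρ c ξ) = G₁.ρ c (k ξ) := hk c ξ
    change -h • (s (G₀.dual.ρ c ξ) + ((ε : ℤ) : R) • k (G₀.dual.ρ c ξ)) =
      G₁.ρ c (-h • (s ξ + ((ε : ℤ) : R) • k ξ))
    rw [e1, e2, map_smul, map_add, map_smul]
  · have e1 := ht ξ ξ'
    have e2 := ht ξ' ξ
    rw [hE.good.sym, e1, Units.smul_def, zsmul_eq_mul] at e2
    have e3 : ((ε : ℤ) : R) * ((ε : ℤ) : R) = 1 := by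
      rw [← Int.cast_mul, ← Units.val_mul, Int.units_mul_self, Units.val_one, Int.cast_one]
    change _ + (ξ (d (-h • (s ξ' + ((ε : ℤ) : R) • k ξ'))) +
      ε • ξ' (d (-h • (s ξ + ((ε : ℤ) : R) • k ξ)))) = 0
    simp only [e1, map_smul, map_add, smul_eq_mul, Units.smul_def, zsmul_eq_mul]
    linear_combination (h * ((ε : ℤ) : R)) * e2 - (ξ (d (s ξ')) + ξ' (d (k ξ))) * hh -
      h * (ξ (d (s ξ')) + 2 * ξ' (d (k ξ))) * e3

end Pool.Agent.P.MP_46a8f8_ag.GU
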