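import Pool.Agent.P.MP_46a8f8_ag.GU.Base2

/-!
The surgery: a complex whose linking form has a Lagrangian is stably hyperbolic.
-/

namespace Pool.Agent.P.MP_46a8f8_ag.GU

open Function IsLocalRing

universe u

namespace SurgP

theorem div_lin {R M : Type u} [CommRing R] [IsDomain R] [AddCommGroup M] [Module R M] {F : R}
    (hF : F ≠ 0) (f : M →ₗ[R] R) (h : ∀ x, F ∣ f x) :
    ∃ ξ : M →ₗ[R] R, ∀ x, F * ξ x = f x := by
  choose c hc using h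
  refine ⟨⟨⟨c, fun x y => mul_left_cancel₀ hF ?_⟩, fun r x => mul_left_cancel₀ hF ?_⟩,
    fun x => (hc x).symm⟩
  · rw [mul_add, ← hc, ← hc, ← hc, map_add]
  · simp only [RingHom.id_apply, smul_eq_mul]
    rw [← hc, mul_left_comm, ← hc, map_smul, smul_eq_mul]

variable {R A : Type u} [CommRing R] [Ring A] [Algebra R A] {E : FM R A R R} (D : Dat E)
  {X : RM R A R} (α : X.M →ₗ[R] Module.Dual R D.Q.M)

/-- the pairs with the same image -/
abbrev Zk : Submodule R (E.M × X.M) := LinearMap.ker (D.β.coprod (-α))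

theorem mem_Zk {p : E.M} {x : X.M} : (p, x) ∈ Zk D α ↔ D.β p = α x := by
  rw [LinearMap.mem_ker, LinearMap.coprod_apply, LinearMap.neg_apply, add_neg_eq_zero]

theorem Zk_eq (z : Zk D α) : D.β z.1.1 = α z.1.2 := (mem_Zk D α).1 z.2

/-- the isotropic module inside the pairs -/
def jq : D.Q.M →ₗ[R] Zk D α :=
  ((LinearMap.inl R E.M X.M) ∘ₗ D.i).codRestrict _ fun q =>
    (mem_Zk D α (p := D.i q) (x := 0)).2 (by rw [D.β_i, map_zero])

theorem jq_val (q : D.Q.M) : (jq D α q).1 = (D.i q, 0) := rfl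

theorem ex_jq (z : Zk D α) (h : z.1.2 = 0) : ∃ q, jq D α q = z := by
  obtain ⟨q, hq⟩ := D.ex' (p := z.1.1) (by rw [Zk_eq, h, map_zero])
  exact ⟨q, Subtype.ext (Prod.ext hq h.symm)⟩

theorem ex_kil {r : R} (h : D.Kil r) (x : X.M) : ∃ z : Zk D α, z.1.2 = r • x := by
  obtain ⟨p, hp⟩ := h (α x)
  exact ⟨⟨(p, r • x), (mem_Zk D α).2 (by rw [hp, map_smul])⟩, rfl⟩

theorem ex_diff {F G : R} {x : X.M} (z z' : Zk D α) (h : z.1.2 = F • x) (h' : z'.1.2 = G • x) :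
    ∃ q, jq D α q = G • z - F • z' :=
  ex_jq D α _ (by
    change G • z.1.2 - F • z'.1.2 = 0
    rw [h, h', smul_comm, sub_self])

/-- a functional on the pairs which kills the isotropic module comes from the second factor -/
theorem descend [IsDomain R] [Module.Projective R X.M] {F G : R} (hRS : RS F G) (hF : D.Kil F)
    (hG : D.Kil G) (ψ : Zk D α →ₗ[R] R) (hψ : ∀ q, ψ (jq D α q) = 0) :
    ∃ ξ : Module.Dual R X.M, ∀ z, ξ z.1.2 = ψ z := by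
  let s : Zk D α →ₗ[R] X.M := LinearMap.snd R E.M X.M ∘ₗ (Zk D α).subtype
  obtain ⟨zF, hzF⟩ := Module.projective_lifting_property s.rangeRestrict
    ((F • LinearMap.id : X.M →ₗ[R] X.M).codRestrict (LinearMap.range s) (ex_kil D α hF))
    s.surjective_rangeRestrict
  have h1 : ∀ x, (zF x).1.2 = F • x := fun x => congrArg Subtype.val (LinearMap.congr_fun hzF x)
  obtain ⟨ξ, hξ⟩ := div_lin hRS.1 (ψ ∘ₗ zF) fun x => by
    obtain ⟨z', h'⟩ := ex_kil D α hG x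
    obtain ⟨q, hq⟩ := ex_diff D α (zF x) z' (h1 x) h'
    have := hψ q
    rw [hq, map_sub, map_smul, map_smul, sub_eq_zero] at this
    exact hRS.2.2 _ _ this
  refine ⟨ξ, fun z => mul_left_cancel₀ hRS.1 ?_⟩
  obtain ⟨q, hq⟩ := ex_diff D α (zF z.1.2) z (h1 _) (one_smul R _).symm
  have := hψ q
  rw [hq, map_sub, map_smul, map_smul, sub_eq_zero, one_smul] at this
  rw [hξ]
  exact this

/-- the graph -/
def gr (κ : Zk D α →ₗ[R] Module.Dual R X.M) :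
    Zk D α →ₗ[R] E.M × (X.M × Module.Dual R X.M) :=
  (LinearMap.fst R E.M X.M ∘ₗ (Zk D α).subtype).prod
    ((LinearMap.snd R E.M X.M ∘ₗ (Zk D α).subtype).prod κ)

theorem gr_inj (κ : Zk D α →ₗ[R] Module.Dual R X.M) : Injective (gr D α κ) := fun _ _ h =>
  Subtype.ext (Prod.ext (congrArg (fun u => u.1) h) (congrArg (fun u => u.2.1) h))

variable [StarRing A] [SA R A]

theorem gr_b (ε : ℤˣ) (κ : Zk D α →ₗ[R] Module.Dual R X.M)
    (u : E.M × (X.M × Module.Dual R X.M)) (z : Zk D α) :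
    (E.sum (X.hyp ε)).b u (gr D α κ z) = E.b u.1 z.1.1 + (u.2.2 z.1.2 + ε • κ z u.2.1) := rfl

theorem core [IsDomain R] [IsNoetherianRing R] (hP : S_Proj.{u}) {ε : ℤˣ} {F G : R}
    (hE : E.Sp ε) (hRS : RS F G) (hF : D.Kil F) (hG : D.Kil G) (hX : X.FF)
    (hα : Eqv X D.Q.dual α) (κ : Zk D α →ₗ[R] Module.Dual R X.M)
    (h1 : ∀ (a : A) (z z' : Zk D α), z'.1 = (E.ρ a z.1.1, X.ρ a z.1.2) →
      κ z' = X.dual.ρ a (κ z))
    (h2 : ∀ z z' : Zk D α, E.b z.1.1 z'.1.1 + (κ z z'.1.2 + ε • κ z' z.1.2) = 0)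
    (h3 : ∀ (z : Zk D α) (q : D.Q.M), z.1 = (D.i q, 0) → ∀ x, κ z x = -(ε • α x q))
    (hp : Module.Projective R (Zk D α))
    (hs : ∀ ψ : Zk D α →ₗ[R] R, ∃ p x, D.β p - α x = ψ ∘ₗ jq D α) :
    (E.sum (X.hyp ε)).Hyp := by
  have hS := hE.sum (hX.hyp ε)
  obtain ⟨_, _⟩ := hX
  have := hE.good.fin
  have hq : ∀ (u : E.M × (X.M × Module.Dual R X.M)) q,
      (E.sum (X.hyp ε)).b u (gr D α κ (jq D α q)) = (D.β u.1 - α u.2.1) q := fun u q => by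
    rw [gr_b, h3 _ q (jq_val D α q), jq_val, smul_neg, usmul_usmul, map_zero, zero_add,
      LinearMap.sub_apply, D.β_apply, sub_eq_add_neg]
  let e := LinearEquiv.ofInjective _ (gr_inj D α κ)
  refine (hP R A R (E.sum (X.hyp ε)) ε (LinearMap.range (gr D α κ)) hS.good hS.perf
    ⟨?_, le_antisymm ?_ ?_⟩ (Module.Finite.equiv e) (Module.Projective.of_equiv e) ?_).imp
    fun _ h => h.1
  · rintro a _ ⟨z, rfl⟩
    have hz : (E.ρ a z.1.1, X.ρ a z.1.2) ∈ Zk D α :=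
      (mem_Zk D α).2 (by rw [D.eqv_β hE.good, hα, Zk_eq])
    exact ⟨⟨_, hz⟩, Prod.ext rfl (Prod.ext rfl (h1 a z ⟨_, hz⟩ rfl))⟩
  · intro u hu
    have hz : (u.1, u.2.1) ∈ Zk D α := (mem_Zk D α).2 (sub_eq_zero.1 (LinearMap.ext fun q =>
      (hq u q).symm.trans (hu _ ⟨_, rfl⟩)))
    refine ⟨⟨_, hz⟩, Prod.ext rfl (Prod.ext rfl (LinearMap.ext fun x => ?_))⟩
    obtain ⟨z, hz'⟩ := ex_kil D α hF x
    have a1 := (gr_b D α ε κ u z).symm.trans (hu _ ⟨z, rfl⟩)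
    have a2 := add_right_cancel (add_left_cancel ((h2 ⟨_, hz⟩ z).trans a1.symm))
    rw [hz', map_smul, map_smul] at a2
    exact mul_left_cancel₀ hRS.1 a2
  · rintro _ ⟨z, rfl⟩ _ ⟨z', rfl⟩
    exact h2 z z'
  · intro ψ
    obtain ⟨p, x, hpx⟩ := hs (ψ ∘ₗ (gr D α κ).rangeRestrict)
    obtain ⟨ξ, hξ⟩ := descend D α hRS hF hG (ψ ∘ₗ (gr D α κ).rangeRestrict -
      (E.sum (X.hyp ε)).b (p, (x, 0)) ∘ₗ gr D α κ) fun q => by
        rw [LinearMap.sub_apply, sub_eq_zero]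
        exact ((hq (p, (x, 0)) q).trans (LinearMap.congr_fun hpx q)).symm
    refine ⟨(p, (x, ξ)), ?_⟩
    rintro ⟨_, z, rfl⟩
    have a1 : ξ z.1.2 = ψ ⟨gr D α κ z, z, rfl⟩ - (E.b p z.1.1 + (0 + ε • κ z x)) := hξ z
    change E.b p z.1.1 + (ξ z.1.2 + ε • κ z x) = _
    rw [a1]
    abel

end SurgP

open SurgP

theorem pSurg (h1 : S_Surga.{u}) (h2 : S_Z.{u}) (h3 : S_Cover.{u}) (h4 : S_Proj.{u}) :
    S_Surg.{u} := by
  intro R A _ _ _ _ _ _ hd E ε D F G Y hE hRS hY ⟨hF, hG, π, p1, p2, p3, p4⟩ ⟨N, hN⟩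
  have := rDom R
  have := hY.fin
  have := hE.good.fin
  have := hE.free
  obtain ⟨_, _⟩ := D.ff
  obtain ⟨ι, _, _, ρ, π0, c1, c2, -⟩ := h3 R A R (Y.toRM.sub N hN.1)
    (inferInstanceAs (Module.Finite R N))
  have hX := (ρ.map (Algebra.ofId R R)).rm_ff
  generalize (ρ.map (Algebra.ofId R R)) = ρ' at c2 hX
  obtain ⟨α, hα, ha⟩ := p2.lift_proj (X := ρ'.rm) (g := N.subtype ∘ₗ π0)
    ((Y.toRM.eqv_subtype N hN.1).comp c2) fun x => p1 _
  have haN : ∀ x, π (α x) ∈ N := fun x => by rw [ha]; exact (π0 x).2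
  have hNa : ∀ y ∈ N, ∃ x, π (α x) = y := fun y hy => by
    obtain ⟨x, hx⟩ := c1 ⟨y, hy⟩
    exact ⟨x, (ha x).trans (congrArg Subtype.val hx)⟩
  have hex : ∀ ξ, π ξ ∈ N → ∃ p x, D.β p - α x = ξ := fun ξ hξ => by
    obtain ⟨x, hx⟩ := hNa _ hξ
    obtain ⟨p, hp⟩ := (p3 (ξ - α x)).1 (by rw [map_sub, hx, sub_self])
    exact ⟨p, -x, by rw [hp, map_neg, sub_neg_eq_add, sub_add_cancel]⟩
  obtain ⟨κ, k1, k2, k3⟩ := h1 R A E ε D F G ρ'.rm α hE hRS hF hG hX hα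
    fun x x' p p' hp hp' => Ideal.Quotient.eq_zero_iff_mem.1
      ((p4 _ _ p p' hp hp').symm.trans (hN.isot _ (haN x) _ (haN x')))
  refine ⟨ρ'.rm.hyp ε, hX.hyp ε, ρ'.rm.hyp_hyp ε,
    core D α h4 hE hRS hF hG hX hα κ k1 k2 k3 ?_ fun ψ => hex _ (hN.mem.2 fun y hy => ?_)⟩
  · obtain ⟨z, z1, z2, z3⟩ := h2 R hd F G _ hRS (not_le_sq3 hd)
    refine proj_of_pd2 (Zk D α).subtype (D.β.coprod (-α)) (N.mkQ ∘ₗ π)
      (Zk D α).injective_subtype (LinearMap.exact_subtype_ker_map _) (fun ξ => ⟨fun h => ?_, ?_⟩)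
      (N.mkQ_surjective.comp p1) (pd_of_reg 2 hd z1 z2 _ fun y y' e => ?_)
    · obtain ⟨p, x, hpx⟩ := hex ξ ((Submodule.Quotient.mk_eq_zero N).1 h)
      exact ⟨(p, x), (sub_eq_add_neg _ _).symm.trans hpx⟩
    · rintro ⟨⟨p, x⟩, rfl⟩
      refine (Submodule.Quotient.mk_eq_zero N).2 ?_
      rw [LinearMap.coprod_apply, LinearMap.neg_apply, map_add, (p3 _).2 ⟨p, rfl⟩, zero_add,
        map_neg]
      exact N.neg_mem (haN x)
    · obtain ⟨y, rfl⟩ := Submodule.Quotient.mk_surjective N y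
      obtain ⟨y', rfl⟩ := Submodule.Quotient.mk_surjective N y'
      have a1 : z • y - z • y' ∈ N := (Submodule.Quotient.eq N).1 e
      refine (Submodule.Quotient.eq N).2 (hN.mem.2 fun n hn => z3 ?_)
      have a2 := hN.mem.1 a1 n hn
      rw [← smul_sub, map_smul, LinearMap.smul_apply] at a2
      exact a2.trans (smul_zero z).symm
  · obtain ⟨x, rfl⟩ := hNa y hy
    obtain ⟨z, hz⟩ := ex_kil D α hF x
    obtain ⟨z', hz'⟩ := ex_kil D α hG x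
    obtain ⟨q, hq⟩ := ex_diff D α z z' hz hz'
    obtain ⟨p', hp'⟩ := hG (ψ ∘ₗ jq D α)
    refine hY.zero ((p4 _ _ z.1.1 p' (by rw [Zk_eq, hz, map_smul]) hp').trans (mk_eq_zero.2 ?_))
    have a1 : ψ (jq D α q) = G * ψ z - F * ψ z' := by
      rw [hq, map_sub, map_smul, map_smul, smul_eq_mul, smul_eq_mul]
    have a2 : D.i q = G • z.1.1 - F • z'.1.1 := congrArg (fun v : Zk D α => v.1.1) hq
    have a3 : E.b p' (D.i q) = G * ψ (jq D α q) := LinearMap.congr_fun hp' q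
    rw [a2, map_sub, map_smul, map_smul, smul_eq_mul, smul_eq_mul] at a3
    obtain ⟨c, hc⟩ := hRS.2.2 (E.b p' z.1.1 - ψ (jq D α q)) (E.b p' z'.1.1)
      (by linear_combination a3)
    exact ⟨c - ψ z', ψ z, by linear_combination -hc - a1⟩

end Pool.Agent.P.MP_46a8f8_ag.GU
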