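import Pool.Agent.P.MP_46a8f8_ag.GU.Base2

/-! The first half of the surgery. -/

namespace Pool.Agent.P.MP_46a8f8_ag.GU

universe u

namespace SurgaP

theorem div_bil {R M N : Type u} [CommRing R] [IsDomain R] [AddCommGroup M] [Module R M]
    [AddCommGroup N] [Module R N] (B : M →ₗ[R] N →ₗ[R] R) {d : R} (hd : d ≠ 0)
    (h : ∀ x y, d ∣ B x y) : ∃ κ : M →ₗ[R] N →ₗ[R] R, ∀ x y, d * κ x y = B x y := by
  choose k hk using h
  refine ⟨LinearMap.mk₂ R k (fun x x' y => ?_) (fun c x y => ?_) (fun x y y' => ?_)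
    (fun c x y => ?_), fun x y => (hk x y).symm⟩
  · refine mul_left_cancel₀ hd ?_
    rw [mul_add, ← hk, ← hk, ← hk, map_add, LinearMap.add_apply]
  · refine mul_left_cancel₀ hd ?_
    rw [smul_eq_mul, mul_left_comm, ← hk, ← hk, map_smul, LinearMap.smul_apply, smul_eq_mul]
  · refine mul_left_cancel₀ hd ?_
    rw [mul_add, ← hk, ← hk, ← hk, map_add]
  · refine mul_left_cancel₀ hd ?_
    rw [smul_eq_mul, mul_left_comm, ← hk, ← hk, map_smul, smul_eq_mul]

theorem split {R M : Type u} [CommRing R] [AddCommGroup M] [Module R M] [Module.Free R M]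
    {F G : R} (ψ : M →ₗ[R] R) (h : ∀ x, ψ x ∈ Ideal.span {F, G}) :
    ∃ u v : M →ₗ[R] R, F • u + G • v = ψ := by
  let b := Module.Free.chooseBasis R M
  choose f g hfg using fun i => Ideal.mem_span_pair.1 (h (b i))
  refine ⟨b.constr R f, b.constr R g, b.ext fun i => ?_⟩
  rw [← hfg i]
  simp [mul_comm]

end SurgaP

open SurgaP in
theorem pSurga : S_Surga.{u} := by
  intro R A _ _ _ _ _ _ E ε D F G X α hE hRS hF hG hX hα hb
  have := hX.1
  obtain ⟨s, hs1, hs2⟩ := hF.exists hE.good X α hα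
  obtain ⟨t, ht1, ht2⟩ := hG.exists hE.good X α hα
  obtain ⟨e, he⟩ : ∃ e : R, ∀ r : R, ε • r = e * r :=
    ⟨((ε : ℤ) : R), fun r => by rw [Units.smul_def, zsmul_eq_mul]⟩
  have hee : e * e = 1 := by
    have h := usmul_usmul ε (1 : R)
    rwa [he, he, mul_one] at h
  have hsym : ∀ x y, E.b y x = e * E.b x y := fun x y => by rw [hE.good.sym, he]
  have hsi : ∀ x q, E.b (D.i q) (s x) = e * (F * α x q) := fun x q => by
    rw [hsym, ← D.β_apply, hs2, LinearMap.smul_apply, smul_eq_mul]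
  obtain ⟨uv, huv1, huv2⟩ := Eqv.lift_proj (X := X) (Y := X.dual.prod X.dual) (Z := X.dual)
    (p := (F • LinearMap.id).coprod (G • LinearMap.id)) (g := E.b.compl₁₂ t s)
    (fun a m => by
      change F • X.dual.ρ a m.1 + G • X.dual.ρ a m.2 = X.dual.ρ a (F • m.1 + G • m.2)
      rw [map_add, map_smul, map_smul])
    (fun a m => LinearMap.ext fun y => by
      change E.b (t (X.ρ a m)) (s y) = E.b (t m) (s (X.ρ (star a) y))
      rw [ht1, hs1, hE.good.adj])
    (fun x => by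
      obtain ⟨u, v, h⟩ := split (F := F) (G := G) (E.b.compl₁₂ t s x)
        fun y => hb y x _ _ (hs2 y) (ht2 x)
      exact ⟨(u, v), h⟩)
  obtain ⟨v, hv1, hv2⟩ : ∃ v : X.M →ₗ[R] X.M →ₗ[R] R,
      (∀ a x y, v (X.ρ a x) y = v x (X.ρ (star a) y)) ∧
        ∀ x y, F ∣ E.b (t x) (s y) - G * v x y := by
    refine ⟨LinearMap.snd R _ _ ∘ₗ uv, fun a x y =>
      LinearMap.congr_fun (congrArg Prod.snd (huv1 a x)) y, fun x y => ⟨(uv x).1 y, ?_⟩⟩
    have h : F * (uv x).1 y + G * (uv x).2 y = E.b (t x) (s y) := LinearMap.congr_fun (huv2 x) y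
    change _ - G * (uv x).2 y = _
    rw [← h, add_sub_cancel_right]
  have hA : ∀ p x y, D.β p = α x → F ∣ E.b p (s y) - v x y := by
    intro p x y hp
    obtain ⟨q, hq⟩ := D.ex' (p := G • p - t x) (by rw [map_sub, map_smul, hp, ht2, sub_self])
    have h1 := hsi y q
    rw [hq, map_sub, map_smul, LinearMap.sub_apply, LinearMap.smul_apply, smul_eq_mul] at h1
    obtain ⟨c, hc⟩ := hv2 x y
    exact hRS.2.2 _ (c + e * α y q) (by linear_combination h1 + hc)
  have hB : ∀ x y, F ∣ E.b (s x) (s y) := by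
    intro x y
    obtain ⟨q, hq⟩ := D.ex' (p := G • s x - F • t x)
      (by rw [map_sub, map_smul, map_smul, hs2, ht2, smul_comm, sub_self])
    have h1 := hsi y q
    rw [hq, map_sub, map_smul, map_smul, LinearMap.sub_apply, LinearMap.smul_apply,
      LinearMap.smul_apply, smul_eq_mul, smul_eq_mul] at h1
    exact hRS.2.2 _ (E.b (t x) (s y) + e * α y q) (by linear_combination h1)
  have hS : ∀ p x p' y, D.β p = α x → D.β p' = α y →
      F * F * E.b p p' - F * E.b p (s y) - F * (e * E.b p' (s x)) + E.b (s x) (s y) = 0 := by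
    intro p x p' y hp hp'
    obtain ⟨q, hq⟩ := D.ex' (p := F • p - s x) (by rw [map_sub, map_smul, hp, hs2, sub_self])
    obtain ⟨q', hq'⟩ := D.ex' (p := F • p' - s y) (by rw [map_sub, map_smul, hp', hs2, sub_self])
    have h1 := D.iso q q'
    rw [hq, hq'] at h1
    simp only [map_sub, map_smul, LinearMap.sub_apply, LinearMap.smul_apply, smul_eq_mul] at h1
    rw [← hsym]
    linear_combination h1
  have hC : ∀ x y, F * F ∣ F * v x y + F * (e * v y x) - E.b (s x) (s y) := by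
    intro x y
    obtain ⟨c, hc⟩ := hB x y
    have k1 : D.β (t x) = α (G • x) := by rw [ht2, map_smul]
    have k2 : D.β (t y) = α (G • y) := by rw [ht2, map_smul]
    have h1 := hS _ _ _ _ k1 k2
    obtain ⟨a1, h2⟩ := hv2 x y
    obtain ⟨a2, h3⟩ := hv2 y x
    simp only [map_smul, LinearMap.smul_apply, smul_eq_mul] at h1
    have h4 : G * (G * (v x y + e * v y x - c)) =
        F * (E.b (t x) (t y) - G * a1 - G * (e * a2)) := by
      refine mul_left_cancel₀ hRS.1 ?_
      linear_combination (-1 : R) * h1 - F * G * h2 - F * G * e * h3 + G * G * hc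
    obtain ⟨w1, hw1⟩ := hRS.2.2 _ _ h4
    obtain ⟨w, hw⟩ := hRS.2.2 _ _ hw1
    exact ⟨w, by linear_combination F * hw - hc⟩
  have hker : ∀ z : LinearMap.ker (D.β.coprod (-α)), D.β z.1.1 = α z.1.2 := fun z => by
    have h := z.2
    rw [LinearMap.mem_ker, LinearMap.coprod_apply, LinearMap.neg_apply] at h
    exact add_neg_eq_zero.1 h
  obtain ⟨N, hN⟩ : ∃ N : LinearMap.ker (D.β.coprod (-α)) →ₗ[R] X.M →ₗ[R] R, ∀ z y, N z y =
      F * v z.1.2 y - F * (e * v y z.1.2) + E.b (s z.1.2) (s y) - 2 * F * E.b z.1.1 (s y) :=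
    ⟨(F • v - (F * e) • v.flip + E.b.compl₁₂ s s) ∘ₗ LinearMap.snd R _ _ ∘ₗ Submodule.subtype _ -
      (2 * F) • E.b.compl₂ s ∘ₗ LinearMap.fst R _ _ ∘ₗ Submodule.subtype _, fun z y => by
      simp [mul_assoc]⟩
  obtain ⟨h2, hh2⟩ := (SA.two (R := R) (A := A)).exists_right_inv
  have hd : 2 * (F * F) ≠ 0 :=
    mul_ne_zero (SA.two (R := R) (A := A)).ne_zero (mul_ne_zero hRS.1 hRS.1)
  obtain ⟨κ, hκ⟩ := div_bil N hd fun z y => by
    obtain ⟨a, ha⟩ := hA _ _ y (hker z)
    obtain ⟨w, hw⟩ := hC z.1.2 y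
    exact ⟨-(h2 * w) - a, by
      rw [hN]
      linear_combination (-1 : R) * hw - 2 * F * ha + F * F * w * hh2⟩
  refine ⟨κ, fun a z z' hz => LinearMap.ext fun y => ?_, fun z z' => ?_, fun z q hz x => ?_⟩
  · change κ z' y = κ z (X.ρ (star a) y)
    refine mul_left_cancel₀ hd ?_
    rw [hκ, hκ, hN, hN, hz]
    dsimp only
    rw [hv1, hv1 (star a), star_star, hs1, hs1, hE.good.adj, hE.good.adj]
  · refine mul_left_cancel₀ hd ?_
    have h1 := hκ z z'.1.2
    have h3 := hκ z' z.1.2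
    rw [hN] at h1 h3
    have h4 := hS _ _ _ _ (hker z) (hker z')
    have h5 := hsym (s z.1.2) (s z'.1.2)
    rw [he]
    linear_combination h1 + e * h3 + 2 * h4 + e * h5 +
      (E.b (s z.1.2) (s z'.1.2) - F * v z.1.2 z'.1.2) * hee
  · refine mul_left_cancel₀ hd ?_
    rw [hκ, hN, hz, he]
    simp only [map_zero, LinearMap.zero_apply, hsi]
    ring

end Pool.Agent.P.MP_46a8f8_ag.GU
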