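import Pool.Agent.P.MP_46a8f8_ag.GU.Base2

/-!
Quotients of a polynomial ring by polynomials with leading forms `X i ^ N i`.
-/

namespace Pool.Agent.P.MP_46a8f8_ag.GU

open Function MvPolynomial

universe u

namespace TriP

variable {R : Type u} [CommRing R] {n : ℕ}

/-- all terms have degree below `d` -/
def Low (d : ℕ) (f : MvPolynomial (Fin n) R) : Prop :=
  ∀ e : Fin n →₀ ℕ, d ≤ e.degree → coeff e f = 0

/-- the monomial `c` plus terms of lower degree -/
def Ld (f : MvPolynomial (Fin n) R) (c : Fin n →₀ ℕ) : Prop := Low c.degree (f - monomial c 1)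

theorem Low.mono {d d' : ℕ} {f : MvPolynomial (Fin n) R} (h : Low d f) (hd : d ≤ d') :
    Low d' f := fun e he => h e (hd.trans he)

theorem Low.add {d : ℕ} {f g : MvPolynomial (Fin n) R} (h : Low d f) (h' : Low d g) :
    Low d (f + g) := fun e he => by rw [coeff_add, h e he, h' e he, add_zero]

theorem Low.neg {d : ℕ} {f : MvPolynomial (Fin n) R} (h : Low d f) : Low d (-f) :=
  fun e he => by rw [coeff_neg, h e he, neg_zero]

theorem Low.mul {d d' : ℕ} {f g : MvPolynomial (Fin n) R} (h : Low d f) (h' : Low (d' + 1) g) :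
    Low (d + d') (f * g) := by
  intro e he
  rw [coeff_mul]
  refine Finset.sum_eq_zero fun x hx => ?_
  have e1 : x.1.degree + x.2.degree = e.degree := by
    rw [← map_add, Finset.HasAntidiagonal.mem_antidiagonal.1 hx]
  by_cases h1 : d ≤ x.1.degree
  · rw [h _ h1, zero_mul]
  · rw [h' _ (by omega), mul_zero]

theorem low_monomial (c : Fin n →₀ ℕ) : Low (c.degree + 1) (monomial c (1 : R)) := by
  intro e he
  rw [coeff_monomial, if_neg]
  rintro rfl
  omega

theorem low_total {f : MvPolynomial (Fin n) R} {d : ℕ} (h : f.totalDegree < d) : Low d f :=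
  fun _ he => coeff_eq_zero_of_totalDegree_lt (h.trans_le he)

theorem Ld.low {f : MvPolynomial (Fin n) R} {c : Fin n →₀ ℕ} (h : Ld f c) :
    Low (c.degree + 1) f := by
  have := (Low.mono h (Nat.le_succ _)).add (low_monomial c)
  rwa [sub_add_cancel] at this

theorem ld_monomial (c : Fin n →₀ ℕ) : Ld (monomial c (1 : R)) c := by
  intro e _
  rw [sub_self, coeff_zero]

theorem Ld.mul {f g : MvPolynomial (Fin n) R} {c c' : Fin n →₀ ℕ} (h : Ld f c) (h' : Ld g c') :
    Ld (f * g) (c + c') := by
  have e : f * g - monomial (c + c') 1 =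
      (f - monomial c 1) * g + (g - monomial c' 1) * monomial c 1 := by
    have : (monomial (c + c') 1 : MvPolynomial (Fin n) R) = monomial c 1 * monomial c' 1 := by
      rw [monomial_mul, one_mul]
    rw [this]; ring
  unfold Ld
  rw [e, map_add]
  exact (Low.mul h h'.low).add ((Low.mul h' (low_monomial c)).mono (by omega))

theorem Ld.pow {f : MvPolynomial (Fin n) R} {c : Fin n →₀ ℕ} (h : Ld f c) (k : ℕ) :
    Ld (f ^ k) (k • c) := by
  induction k with
  | zero => simpa using ld_monomial (R := R) (0 : Fin n →₀ ℕ)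
  | succ k ih => rw [pow_succ, succ_nsmul]; exact ih.mul h

theorem ld_prod {ι : Type} (s : Finset ι) (f : ι → MvPolynomial (Fin n) R)
    (c : ι → Fin n →₀ ℕ) (h : ∀ i, Ld (f i) (c i)) : Ld (∏ i ∈ s, f i) (∑ i ∈ s, c i) := by
  classical
  induction s using Finset.induction_on with
  | empty => simpa using ld_monomial (R := R) (0 : Fin n →₀ ℕ)
  | insert i s hi ih => rw [Finset.prod_insert hi, Finset.sum_insert hi]; exact (h i).mul ih

theorem Ld.coeff {f : MvPolynomial (Fin n) R} {c e : Fin n →₀ ℕ} (h : Ld f c)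
    (he : c.degree ≤ e.degree) : coeff e f = if c = e then 1 else 0 := by
  have := h e he
  rwa [coeff_sub, sub_eq_zero, coeff_monomial] at this

theorem mem_of_low (S : Submodule R (MvPolynomial (Fin n) R)) {d : ℕ}
    {f : MvPolynomial (Fin n) R} (hf : Low d f)
    (h : ∀ c : Fin n →₀ ℕ, c.degree < d → monomial c 1 ∈ S) : f ∈ S := by
  rw [f.as_sum]
  refine S.sum_mem fun c hc => ?_
  have hlt : c.degree < d := by
    by_contra hcon
    exact mem_support_iff.1 hc (hf c (not_lt.1 hcon))
  have : monomial c (coeff c f) = coeff c f • monomial c (1 : R) := by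
    rw [smul_monomial, smul_eq_mul, mul_one]
  rw [this]
  exact S.smul_mem _ (h c hlt)

theorem span_top (v : (Fin n →₀ ℕ) → MvPolynomial (Fin n) R) (hv : ∀ c, Ld (v c) c)
    (f : MvPolynomial (Fin n) R) : f ∈ Submodule.span R (Set.range v) := by
  have key : ∀ d, ∀ f : MvPolynomial (Fin n) R, Low d f → f ∈ Submodule.span R (Set.range v) := by
    intro d
    induction d with
    | zero => exact fun f hf => mem_of_low _ hf fun c hc => absurd hc (Nat.not_lt_zero _)
    | succ d ih =>
      refine fun f hf => mem_of_low _ hf fun c hc => ?_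
      have h1 := ih _ (Low.mono (hv c) (by omega))
      have h2 : v c ∈ Submodule.span R (Set.range v) := Submodule.subset_span ⟨c, rfl⟩
      simpa using Submodule.sub_mem _ h2 h1
  exact key _ f (low_total (Nat.lt_succ_self _))

theorem eq_zero_of_span (v : (Fin n →₀ ℕ) → MvPolynomial (Fin n) R) (hv : ∀ c, Ld (v c) c)
    (T : Set (Fin n →₀ ℕ)) {f : MvPolynomial (Fin n) R} (hf : f ∈ Submodule.span R (v '' T))
    (h0 : ∀ c ∈ T, coeff c f = 0) : f = 0 := by
  obtain ⟨l, hl, rfl⟩ := (Finsupp.mem_span_image_iff_linearCombination R).1 hf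
  by_cases hs : l.support.Nonempty
  · exfalso
    obtain ⟨c, hc, hmax⟩ := Finset.exists_max_image l.support (fun c => c.degree) hs
    have h1 := h0 c (hl hc)
    rw [Finsupp.linearCombination_apply, Finsupp.sum, coeff_sum, Finset.sum_eq_single c] at h1
    · rw [coeff_smul, (hv c).coeff le_rfl, if_pos rfl, smul_eq_mul, mul_one] at h1
      exact Finsupp.mem_support_iff.1 hc h1
    · intro b hb hbc
      rw [coeff_smul, (hv b).coeff (hmax b hb), if_neg hbc, smul_zero]
    · exact fun h => absurd hc h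
  · rw [Finset.not_nonempty_iff_eq_empty, Finsupp.support_eq_empty] at hs
    rw [hs, map_zero]

theorem ideal_zero (g : Fin n → MvPolynomial (Fin n) R) (N : Fin n → ℕ) (hN : ∀ i, 0 < N i)
    (hg : ∀ i, Ld (g i) (Finsupp.single i (N i))) {f : MvPolynomial (Fin n) R}
    (hf : f ∈ Ideal.span (Set.range g)) (h0 : ∀ c : Fin n →₀ ℕ, (∃ i, N i ≤ c i) → coeff c f = 0) :
    f = 0 := by
  obtain ⟨v, hv⟩ : ∃ v : (Fin n →₀ ℕ) → MvPolynomial (Fin n) R, ∀ c, v c =
      monomial (Finsupp.equivFunOnFinite.symm fun i => c i % N i) 1 *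
        ∏ i, g i ^ (c i / N i) := ⟨_, fun _ => rfl⟩
  have hld : ∀ c, Ld (v c) c := by
    intro c
    have h1 := (ld_monomial (R := R) (Finsupp.equivFunOnFinite.symm fun i => c i % N i)).mul
      (ld_prod Finset.univ _ _ fun i => (hg i).pow (c i / N i))
    have h2 : (Finsupp.equivFunOnFinite.symm fun i => c i % N i) +
        ∑ i, (c i / N i) • Finsupp.single i (N i) = c := by
      ext j
      simp [Finsupp.single_apply, Nat.mod_add_div']
    rwa [h2, ← hv] at h1
  have hmul : ∀ i c, v c * g i = v (c + Finsupp.single i (N i)) := by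
    intro i c
    have h1 : (fun j => (c + Finsupp.single i (N i) : Fin n →₀ ℕ) j % N j) =
        fun j => c j % N j := by
      funext j
      by_cases h : i = j
      · subst h; simp
      · simp [h]
    have h2 : ∀ j, g j ^ ((c + Finsupp.single i (N i) : Fin n →₀ ℕ) j / N j) =
        g j ^ (c j / N j) * if j = i then g i else 1 := by
      intro j
      by_cases h : j = i
      · subst h; simp [Nat.add_div_right _ (hN j), pow_succ]
      · simp [h]
    rw [hv, hv, h1, Finset.prod_congr rfl fun j _ => h2 j, Finset.prod_mul_distrib]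
    simp [mul_assoc]
  refine eq_zero_of_span v hld {c | ∃ i, N i ≤ c i} ?_ h0
  obtain ⟨q, rfl⟩ := Ideal.mem_span_range_iff_exists_fun.1 hf
  refine Submodule.sum_mem _ fun i _ => ?_
  have hq := span_top v hld (q i)
  generalize q i = z at hq
  induction hq using Submodule.span_induction with
  | mem x hx =>
    obtain ⟨c, rfl⟩ := hx
    rw [hmul]
    exact Submodule.subset_span ⟨_, ⟨i, by simp⟩, rfl⟩
  | zero => simp
  | add x y _ _ hx hy => rw [add_mul]; exact Submodule.add_mem _ hx hy
  | smul a x _ hx => rw [smul_mul_assoc]; exact Submodule.smul_mem _ a hx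

theorem red (g : Fin n → MvPolynomial (Fin n) R) (N : Fin n → ℕ)
    (hg : ∀ i, Ld (g i) (Finsupp.single i (N i))) (c : Fin n →₀ ℕ) (hc : ∃ i, N i ≤ c i) :
    ∃ f, Low c.degree f ∧ Ideal.Quotient.mkₐ R (Ideal.span (Set.range g)) (monomial c 1) =
      Ideal.Quotient.mkₐ R (Ideal.span (Set.range g)) f := by
  obtain ⟨i, hi⟩ := hc
  have e : Finsupp.single i (N i) + (c - Finsupp.single i (N i)) = c :=
    add_tsub_cancel_of_le (Finsupp.single_le_iff.2 hi)
  have h := (hg i).mul (ld_monomial (c - Finsupp.single i (N i)))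
  rw [e] at h
  refine ⟨_, Low.neg h, ?_⟩
  rw [Ideal.Quotient.mkₐ_eq_mk, Ideal.Quotient.eq]
  have : g i ∈ Ideal.span (Set.range g) := Ideal.subset_span ⟨i, rfl⟩
  simpa using Ideal.mul_mem_right _ _ this

theorem map_mem_of_low {C : Type*} [CommRing C] [Algebra R C]
    (φ : MvPolynomial (Fin n) R →ₐ[R] C) (S : Submodule R C) {d : ℕ}
    {f : MvPolynomial (Fin n) R} (hf : Low d f)
    (h : ∀ c : Fin n →₀ ℕ, c.degree < d → φ (monomial c 1) ∈ S) : φ f ∈ S :=
  mem_of_low (S.comap φ.toLinearMap) hf h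

theorem low_span (g : Fin n → MvPolynomial (Fin n) R) (N : Fin n → ℕ)
    (hg : ∀ i, Ld (g i) (Finsupp.single i (N i))) (d : ℕ) :
    ∀ f : MvPolynomial (Fin n) R, Low d f →
      Ideal.Quotient.mkₐ R (Ideal.span (Set.range g)) f ∈ Submodule.span R
        {z | ∃ a : Fin n →₀ ℕ, (∀ i, a i < N i) ∧ a.degree < d ∧
          z = Ideal.Quotient.mkₐ R (Ideal.span (Set.range g)) (monomial a 1)} := by
  induction d with
  | zero =>
    exact fun f hf => map_mem_of_low _ _ hf fun c hc => absurd hc (Nat.not_lt_zero _)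
  | succ d ih =>
    refine fun f hf => map_mem_of_low _ _ hf fun c hc => ?_
    by_cases h : ∀ i, c i < N i
    · exact Submodule.subset_span ⟨c, h, hc, rfl⟩
    · obtain ⟨f', h1, h2⟩ := red g N hg c (by simpa using h)
      rw [h2]
      refine Submodule.span_mono ?_ (ih f' (h1.mono (by omega)))
      rintro z ⟨a, ha, hd, rfl⟩
      exact ⟨a, ha, by omega, rfl⟩

theorem perf {C A : Type*} [CommRing C] [Algebra R C] [Finite A] (b : Module.Basis A R C)
    (τ : C →ₗ[R] R) (s : A → A) (dg : A → ℕ) (h1 : ∀ a, τ (b (s a) * b a) = 1)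
    (h0 : ∀ a a', a' ≠ a → dg a' ≤ dg a → τ (b (s a) * b a') = 0) :
    Bijective ((LinearMap.mul R C).compr₂ τ) := by
  classical
  have := Fintype.ofFinite A
  obtain ⟨M, hM⟩ : ∃ M, ∀ a, dg a ≤ M := (Set.finite_range dg).bddAbove.imp
    fun M h a => h ⟨a, rfl⟩
  have key : ∀ k a, M - dg a = k →
      b.coord a ∈ LinearMap.range ((LinearMap.mul R C).compr₂ τ) := by
    intro k
    induction k using Nat.strong_induction_on with
    | _ k ih =>
      intro a ha
      have e := b.sum_dual_apply_smul_coord ((LinearMap.mul R C).compr₂ τ (b (s a)))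
      rw [← Finset.add_sum_erase _ _ (Finset.mem_univ a)] at e
      simp only [LinearMap.compr₂_apply, LinearMap.mul_apply', h1, one_smul] at e
      rw [eq_sub_of_add_eq e]
      refine Submodule.sub_mem _ ⟨_, rfl⟩ (Submodule.sum_mem _ fun a' ha' => ?_)
      by_cases h : dg a' ≤ dg a
      · rw [h0 a a' (Finset.ne_of_mem_erase ha') h, zero_smul]
        exact Submodule.zero_mem _
      · have := hM a'
        exact Submodule.smul_mem _ _ (ih _ (by omega) a' rfl)
  have hs : Surjective ((LinearMap.mul R C).compr₂ τ) := by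
    intro φ
    change φ ∈ LinearMap.range ((LinearMap.mul R C).compr₂ τ)
    rw [← b.sum_dual_apply_smul_coord φ]
    exact Submodule.sum_mem _ fun a _ => Submodule.smul_mem _ _ (key _ a rfl)
  have : Module.Finite R (C →ₗ[R] R) := Module.Finite.of_basis b.dualBasis
  exact ⟨OrzechProperty.injective_of_surjective_of_injective b.toDual _ b.toDual_injective hs, hs⟩

end TriP

open TriP in
theorem pTri : S_Tri.{u} := by
  intro R _ _ n g N hg0
  have hN : ∀ i, 0 < N i := fun i => (Nat.zero_le _).trans_lt (hg0 i)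
  have hg : ∀ i, Ld (g i) (Finsupp.single i (N i)) := fun i => by
    unfold Ld
    rw [Finsupp.degree_single, ← X_pow_eq_monomial]
    exact low_total (hg0 i)
  have hfin : Finite {a : Fin n →₀ ℕ // ∀ i, a i < N i} :=
    Finite.of_injective (fun a i => (⟨a.1 i, a.2 i⟩ : Fin (N i))) fun a a' h => by
      ext i
      exact congrArg Fin.val (congrFun h i)
  have hft := Fintype.ofFinite {a : Fin n →₀ ℕ // ∀ i, a i < N i}
  obtain ⟨w, hw⟩ : ∃ w : {a : Fin n →₀ ℕ // ∀ i, a i < N i} →
      MvPolynomial (Fin n) R ⧸ Ideal.span (Set.range g), ∀ a, w a =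
        Ideal.Quotient.mkₐ R (Ideal.span (Set.range g)) (monomial a.1 1) := ⟨_, fun _ => rfl⟩
  have hli : LinearIndependent R w := by
    refine Fintype.linearIndependent_iff.2 fun l hl a => ?_
    have h1 : ∑ a, l a • monomial a.1 (1 : R) ∈ Ideal.span (Set.range g) := by
      rw [← Ideal.Quotient.eq_zero_iff_mem, ← Ideal.Quotient.mkₐ_eq_mk R, map_sum, ← hl]
      exact Finset.sum_congr rfl fun a _ => by rw [map_smul, hw]
    have h2 := ideal_zero g N hN hg h1 (fun c ⟨i, hi⟩ => by
      rw [coeff_sum]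
      refine Finset.sum_eq_zero fun a _ => ?_
      rw [coeff_smul, coeff_monomial, if_neg, smul_zero]
      rintro rfl
      exact absurd (a.2 i) (not_lt.2 hi))
    have h3 := congrArg (coeff a.1) h2
    rw [coeff_sum, Finset.sum_eq_single a] at h3
    · simpa using h3
    · intro b _ hb
      rw [coeff_smul, coeff_monomial, if_neg (fun h => hb (Subtype.ext h)), smul_zero]
    · simp
  have hsp : ⊤ ≤ Submodule.span R (Set.range w) := by
    intro z _
    obtain ⟨f, rfl⟩ := Ideal.Quotient.mkₐ_surjective R (Ideal.span (Set.range g)) z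
    refine Submodule.span_mono ?_ (low_span g N hg _ f (low_total (Nat.lt_succ_self _)))
    rintro z ⟨a, ha, -, rfl⟩
    exact ⟨⟨a, ha⟩, hw _⟩
  obtain ⟨b, hb⟩ : ∃ b : Module.Basis {a : Fin n →₀ ℕ // ∀ i, a i < N i} R
      (MvPolynomial (Fin n) R ⧸ Ideal.span (Set.range g)), ∀ a, b a =
        Ideal.Quotient.mkₐ R (Ideal.span (Set.range g)) (monomial a.1 1) :=
    ⟨Module.Basis.mk hli hsp, fun a => by rw [Module.Basis.mk_apply, hw]⟩
  obtain ⟨top, ht⟩ : ∃ top : {a : Fin n →₀ ℕ // ∀ i, a i < N i}, ∀ i, top.1 i = N i - 1 :=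
    ⟨⟨Finsupp.equivFunOnFinite.symm fun i => N i - 1, fun i => by
      have := hN i
      simp; omega⟩, fun i => by simp⟩
  have hle : ∀ a : {a : Fin n →₀ ℕ // ∀ i, a i < N i}, a.1 ≤ top.1 := fun a i => by
    have := a.2 i
    rw [ht]; omega
  have hred : ∀ a : Fin n →₀ ℕ, (∀ i, a i < N i) → a ≠ top.1 →
      b.coord top (Ideal.Quotient.mkₐ R (Ideal.span (Set.range g)) (monomial a 1)) = 0 := by
    intro a ha hne
    have := hb ⟨a, ha⟩
    dsimp only at this
    rw [← this, Module.Basis.coord_apply, Module.Basis.repr_self, Finsupp.single_apply, if_neg]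
    exact fun h => hne (congrArg Subtype.val h)
  have hτ : ∀ c : Fin n →₀ ℕ, c ≠ top.1 → c.degree ≤ top.1.degree →
      b.coord top (Ideal.Quotient.mkₐ R (Ideal.span (Set.range g)) (monomial c 1)) = 0 := by
    intro c hne hd
    by_cases h : ∀ i, c i < N i
    · exact hred c h hne
    · obtain ⟨f, h1, h2⟩ := red g N hg c (by simpa using h)
      rw [h2]
      have h3 := low_span g N hg _ f h1
      refine (Submodule.span_le (p := LinearMap.ker (b.coord top))).2 ?_ h3
      rintro z ⟨a, ha, hd', rfl⟩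
      refine hred a ha ?_
      rintro rfl
      omega
  refine ⟨Module.Free.of_basis b, Module.Finite.of_basis b, b.coord top, ?_⟩
  refine perf b (b.coord top) (fun a => ⟨top.1 - a.1, fun i => by
    have := top.2 i
    rw [Finsupp.tsub_apply]; omega⟩) (fun a => a.1.degree) (fun a => ?_) fun a a' hne hd => ?_
  · rw [hb, hb, ← map_mul, monomial_mul, one_mul, tsub_add_cancel_of_le (hle a), ← hb,
      Module.Basis.coord_apply, Module.Basis.repr_self, Finsupp.single_eq_same]
  · rw [hb, hb, ← map_mul, monomial_mul, one_mul]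
    have e := tsub_add_cancel_of_le (hle a)
    refine hτ _ (fun h => hne (Subtype.ext (add_left_cancel (h.trans e.symm)))) ?_
    have e' := congrArg Finsupp.degree e
    rw [map_add] at e' ⊢
    dsimp only at hd ⊢
    omega

end Pool.Agent.P.MP_46a8f8_ag.GU
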