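import Pool.Agent.P.MP_46a8f8_ag.GU.Base2

/-!
A perfect form of projective dimension one over a semilocal ring is the cokernel of a symmetric
adjoint matrix.
-/

namespace Pool.Agent.P.MP_46a8f8_ag.GU

open TensorProduct Function Matrix IsLocalRing

universe u

namespace W1P

variable {T : Type u} [CommRing T] {ι : Type} [Fintype ι] [DecidableEq ι]

/-- a submodule which is everything modulo each maximal ideal is everything -/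
theorem top_of_mod (N : Submodule T (ι → T))
    (h : ∀ 𝔫 : Ideal T, 𝔫.IsMaximal → ∀ ζ : ι → T, ∃ v ∈ N, ∀ i, v i - ζ i ∈ 𝔫) :
    N = ⊤ := by
  by_contra hN
  have h1 : N.colon (Set.univ) ≠ ⊤ := fun e => hN (Submodule.eq_top_iff'.2 fun ζ => by
    have : (1 : T) ∈ N.colon Set.univ := e ▸ Submodule.mem_top
    simpa using Submodule.mem_colon.1 this ζ trivial)
  obtain ⟨𝔫, h𝔫, hle⟩ := Ideal.exists_le_maximal _ h1
  obtain ⟨r, hr, hr'⟩ := Submodule.exists_sub_one_mem_and_smul_le_of_fg_of_le_sup (I := 𝔫)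
    (N := N) (N' := ⊤) (P := ⊤) Module.Finite.fg_top le_rfl fun ζ _ => by
      obtain ⟨v, hv, hv'⟩ := h 𝔫 h𝔫 ζ
      have e : ζ = v - ∑ i, (v i - ζ i) • (Pi.single i 1 : ι → T) := by
        ext j
        simp [Pi.single_apply]
      rw [e]
      exact Submodule.sub_mem _ (Submodule.mem_sup_left hv) (Submodule.mem_sup_right
        (Submodule.sum_mem _ fun i _ => Submodule.smul_mem_smul (hv' i) trivial))
  have h2 : r ∈ 𝔫 := hle (Submodule.mem_colon.2 fun ζ _ =>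
    hr' (Submodule.smul_mem_pointwise_smul ζ r ⊤ trivial))
  exact h𝔫.ne_top ((Ideal.eq_top_iff_one _).2 (by simpa using 𝔫.sub_mem h2 hr))

/-- the map whose inverse gives the presentation -/
def th (μ : Matrix (ι ⊕ ι) (ι ⊕ ι) T) (u : (ι → T) × (ι → T)) (η : ι → T) : ι ⊕ ι → T :=
  Sum.elim u.2 0 - μ *ᵥ Sum.elim u.1 η

omit [DecidableEq ι] in
theorem dot_sym {κ : Type} [Fintype κ] {δ : ℤˣ} {μ : Matrix κ κ T} (hμ : μᵀ = δ • μ)
    (v w : κ → T) : (μ *ᵥ v) ⬝ᵥ w = δ • ((μ *ᵥ w) ⬝ᵥ v) := by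
  rw [dotProduct_comm, dotProduct_mulVec, ← mulVec_transpose, hμ, smul_mulVec, smul_dotProduct]

omit [DecidableEq ι] in
theorem th_sym {δ : ℤˣ} {μ : Matrix (ι ⊕ ι) (ι ⊕ ι) T} (hμ : μᵀ = δ • μ)
    {u v : (ι → T) × (ι → T)} (h : hf δ u v = 0) (η ζ : ι → T) :
    th μ u η ⬝ᵥ Sum.elim v.1 ζ = δ • (th μ v ζ ⬝ᵥ Sum.elim u.1 η) := by
  unfold th
  rw [sub_dotProduct, sub_dotProduct, sumElim_dotProduct_sumElim, sumElim_dotProduct_sumElim,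
    zero_dotProduct, zero_dotProduct, add_zero, add_zero, smul_sub, ← dot_sym hμ,
    sub_eq_zero.1 h]

theorem core {δ : ℤˣ} {Λ : Submodule T ((ι → T) × (ι → T))} {μ : Matrix (ι ⊕ ι) (ι ⊕ ι) T}
    (hΛ : ∀ u ∈ Λ, ∀ v ∈ Λ, hf δ u v = 0) (hμ : μᵀ = δ • μ)
    (hs : ∀ ζ, ∃ u ∈ Λ, ∃ η, th μ u η = ζ) :
    ∃ l : Matrix (ι ⊕ ι) (ι ⊕ ι) T, lᵀ = δ • l ∧
      ∀ u ∈ Λ, ∀ η, l *ᵥ th μ u η = Sum.elim u.1 η := by
  choose u hu η he using fun i => hs (Pi.single i 1)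
  have key : ∀ v ∈ Λ, ∀ ζ, (of fun i j => δ • Sum.elim (u i).1 (η i) j) *ᵥ th μ v ζ =
      Sum.elim v.1 ζ := fun v hv ζ => funext fun i => by
    have := th_sym hμ (hΛ _ (hu i) _ hv) (η i) ζ
    rw [he, single_dotProduct, one_mul] at this
    rw [this, dotProduct_comm, ← smul_dotProduct]
    rfl
  refine ⟨_, ?_, key⟩
  ext i j
  have := congrFun (key _ (hu j) (η j)) i
  rw [he, mulVec_single_one] at this
  change δ • Sum.elim (u j).1 (η j) i = δ • δ • Sum.elim (u i).1 (η i) j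
  rw [← this]
  rfl

/-- a symmetric adjoint matrix for which `th` is onto -/
theorem mu {R A : Type u} [CommRing R] [Ring A] [Algebra R A] [StarRing A] [SA R A]
    [Algebra R T] [Finite (MaximalSpectrum T)] (hM : S_LiftM.{u}) (ρ : MRep R A T (ι ⊕ ι))
    {δ : ℤˣ} {Λ : Submodule T ((ι → T) × (ι → T))}
    (h : ∀ 𝔫 : Ideal T, 𝔫.IsMaximal → ∃ μ : Matrix (ι ⊕ ι) (ι ⊕ ι) T,
      SymAdj δ (ρ.map (Ideal.Quotient.mkₐ R 𝔫)) (μ.map (Ideal.Quotient.mkₐ R 𝔫)) ∧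
      ∀ ζ : ι ⊕ ι → T, ∃ u ∈ Λ, ∃ η : ι → T,
        ∀ i, Sum.elim u.2 0 i - (μ *ᵥ Sum.elim u.1 η) i - ζ i ∈ 𝔫) :
    ∃ μ : Matrix (ι ⊕ ι) (ι ⊕ ι) T, SymAdj δ ρ μ ∧ ∀ ζ, ∃ u ∈ Λ, ∃ η, th μ u η = ζ := by
  choose m h1 h2 using fun 𝔫 : MaximalSpectrum T => h 𝔫.asIdeal 𝔫.isMaximal
  choose μ₀ h0 using fun i j => Ideal.exists_forall_sub_mem_ideal
    (I := fun 𝔫 : MaximalSpectrum T => 𝔫.asIdeal) (fun _ _ e => MaximalSpectrum.isCoprime_of_ne e)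
    fun 𝔫 => m 𝔫 i j
  obtain ⟨μ, h3, h4⟩ := hM R A T (ι ⊕ ι) ρ δ (of μ₀)
  have e0 : ∀ 𝔫 : MaximalSpectrum T, (of μ₀).map (Ideal.Quotient.mkₐ R 𝔫.asIdeal) =
      (m 𝔫).map (Ideal.Quotient.mkₐ R 𝔫.asIdeal) := fun 𝔫 =>
    Matrix.ext fun i j => Ideal.Quotient.eq.2 (h0 i j 𝔫)
  have e1 : ∀ (𝔫 : MaximalSpectrum T) i j, m 𝔫 i j - μ i j ∈ 𝔫.asIdeal := fun 𝔫 i j =>
    Ideal.Quotient.eq.1
      (congrFun (congrFun ((h4 _ _ ((e0 𝔫).symm ▸ h1 𝔫)).trans (e0 𝔫)).symm i) j)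
  let N : Submodule T (ι ⊕ ι → T) :=
    { carrier := {ζ | ∃ u ∈ Λ, ∃ η, th μ u η = ζ}
      add_mem' := by
        rintro _ _ ⟨u, hu, η, rfl⟩ ⟨v, hv, ζ, rfl⟩
        refine ⟨u + v, Λ.add_mem hu hv, η + ζ, ?_⟩
        have a1 : Sum.elim (u + v).1 (η + ζ) = Sum.elim u.1 η + Sum.elim v.1 ζ :=
          funext fun i => by cases i <;> rfl
        have a2 : Sum.elim (u + v).2 (0 : ι → T) = Sum.elim u.2 0 + Sum.elim v.2 0 :=
          funext fun i => by cases i <;> simp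
        unfold th
        rw [a1, a2, mulVec_add]
        abel
      zero_mem' := ⟨0, Λ.zero_mem, 0, by simp [th]⟩
      smul_mem' := by
        rintro c _ ⟨u, hu, η, rfl⟩
        refine ⟨c • u, Λ.smul_mem c hu, c • η, ?_⟩
        have a1 : Sum.elim (c • u).1 (c • η) = c • Sum.elim u.1 η :=
          funext fun i => by cases i <;> rfl
        have a2 : Sum.elim (c • u).2 (0 : ι → T) = c • Sum.elim u.2 0 :=
          funext fun i => by cases i <;> simp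
        unfold th
        rw [a1, a2, mulVec_smul, smul_sub] }
  have hN : N = ⊤ := top_of_mod N fun 𝔫 h𝔫 ζ => by
    obtain ⟨u, hu, η, he⟩ := h2 ⟨𝔫, h𝔫⟩ ζ
    refine ⟨_, ⟨u, hu, η, rfl⟩, fun i => ?_⟩
    have a1 : ((m ⟨𝔫, h𝔫⟩ - μ) *ᵥ Sum.elim u.1 η) i ∈ 𝔫 :=
      𝔫.sum_mem fun j _ => 𝔫.mul_mem_right _ (e1 ⟨𝔫, h𝔫⟩ i j)
    have a2 := 𝔫.add_mem (he i) a1
    rw [sub_mulVec, Pi.sub_apply] at a2
    have a3 : ∀ a b c d : T, a - b - c + (b - d) = a - d - c := fun a b c d => by ring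
    rwa [a3] at a2
  exact ⟨μ, h3, fun ζ => (hN.symm ▸ Submodule.mem_top : ζ ∈ N)⟩

end W1P

open W1P

theorem pW1 (hC : S_Cover.{u}) (hM : S_LiftM.{u}) (hA : S_W1A.{u}) (hL : S_W1loc.{u}) :
    S_W1.{u} := by
  intro R A T V _ _ _ _ _ _ _ _ _ _ _ δ f Y hf hq hp hg hY hd
  obtain ⟨ι, _, _, ρ₀, π, hπ, hπ', -⟩ := hC R A T Y.toRM hg.fin
  generalize hρ : ρ₀.map (Algebra.ofId R T) = ρ at hπ'
  obtain ⟨Φ, Λ, -, hb, hΛ, hlag, hproj⟩ := hA R A T V ι ρ δ f Y π hf hq hg hY hd hπ hπ'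
  have hx : ∀ x : ι → T, (f • x, Φ *ᵥ x) ∈ Λ := fun x => (hΛ _).2 (mulVec_smul _ _ _)
  obtain ⟨μ, hμ, hs⟩ := mu hM (ρ.sum ρ.dual).dual
    (hL R A T ι ρ δ Λ f hlag hproj hp fun x => ⟨_, hx x⟩)
  obtain ⟨l, hl, key⟩ := core (fun u hu => (hlag.2 u).1 hu) hμ.1 hs
  have eρ : ∀ a, ((ρ₀.sum ρ₀.dual).map (Algebra.ofId R T)).ρ a =
      fromBlocks (ρ.ρ a) 0 0 (ρ.ρ (star a))ᵀ := fun a => by
    rw [MRep.map_apply, MRep.sum_apply, fromBlocks_map, ← hρ, MRep.map_apply, MRep.map_apply,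
      MRep.dual_apply, transpose_map, Matrix.map_zero _ (map_zero _)]
  have f0 : algebraMap T V f = 0 := (hq.2 f).2 dvd_rfl
  have el : ∀ {u η x : ι → T} {y : ι ⊕ ι → T}, Sum.elim u η = f • y → x = y ∘ Sum.inl →
      u = f • x := fun e e' => funext fun i => (congrFun e (.inl i)).trans (by rw [e']; rfl)
  refine ⟨ι ⊕ ι, inferInstance, inferInstance, ρ₀.sum ρ₀.dual, l, ⟨hl, fun a => ?_⟩,
    π ∘ₗ LinearMap.funLeft T T Sum.inl, fun y => ?_, fun a x => ?_, fun x => ⟨fun h => ?_, ?_⟩,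
    fun x => ⟨_, (key _ (hx (x ∘ Sum.inl)) (f • x ∘ Sum.inr)).trans ?_⟩, fun x y w h => ?_⟩
  · refine mulVec_injective (funext fun ζ => ?_)
    obtain ⟨u, hu, η, rfl⟩ := hs ζ
    have a1 : (fromBlocks (ρ.ρ (star a)) 0 0 (ρ.ρ (star (star a)))ᵀ)ᵀ * μ =
        μ * fromBlocks (ρ.ρ a) 0 0 (ρ.ρ (star a))ᵀ := by
      simpa only [MRep.dual_apply, MRep.sum_apply, star_star, transpose_transpose] using hμ.2 a
    have a2 : fromBlocks (ρ.ρ a) 0 0 (ρ.ρ (star a))ᵀ *ᵥ Sum.elim u.1 η =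
        Sum.elim (ρ.ρ a *ᵥ u.1) ((ρ.ρ (star a))ᵀ *ᵥ η) := by
      simp [fromBlocks_mulVec]
    have a3 : (fromBlocks (ρ.ρ (star a)) 0 0 (ρ.ρ (star (star a)))ᵀ)ᵀ *ᵥ th μ u η =
        th μ (ρ.ρ a *ᵥ u.1, (ρ.ρ (star a))ᵀ *ᵥ u.2) ((ρ.ρ (star a))ᵀ *ᵥ η) := by
      rw [th, th, mulVec_sub, mulVec_mulVec, a1, ← mulVec_mulVec, a2, fromBlocks_transpose]
      simp [fromBlocks_mulVec]
    rw [eρ, eρ, ← mulVec_mulVec, ← mulVec_mulVec, key u hu, a2, a3, key _ (hlag.1 a u hu)]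
  · obtain ⟨x, rfl⟩ := hπ y
    exact ⟨Sum.elim x 0, rfl⟩
  · refine Eq.trans (congrArg π ?_) (hπ' a (x ∘ Sum.inl))
    rw [MRep.rm_apply, MRep.rm_apply, eρ, fromBlocks_mulVec, zero_mulVec, add_zero]
    rfl
  · have h' : π (x ∘ Sum.inl) = 0 := h
    have : ∀ i, ∃ c, (Φ *ᵥ (x ∘ Sum.inl)) i = f * c := fun i => (hq.2 _).1 (by
      have := hb (x ∘ Sum.inl) (Pi.single i 1)
      rw [h', map_zero, LinearMap.zero_apply, dotProduct_single, mul_one] at this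
      exact this.symm)
    choose ξ hξ using this
    exact ⟨_, (key (x ∘ Sum.inl, ξ) ((hΛ _).2 (funext hξ)) (x ∘ Sum.inr)).trans
      (Sum.elim_comp_inl_inr x)⟩
  · rintro ⟨w, rfl⟩
    obtain ⟨u, hu, η, rfl⟩ := hs w
    rw [key u hu]
    refine hY.eq_zero fun y => ?_
    obtain ⟨y, rfl⟩ := hπ y
    change Y.b (π u.1) _ = 0
    rw [hb, (hΛ u).1 hu, smul_dotProduct, smul_eq_mul, map_mul, f0, zero_mul]
  · exact funext fun i => by cases i <;> rfl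
  · obtain ⟨u, hu, η, rfl⟩ := hs w
    rw [key u hu] at h
    have a1 := (hΛ u).1 hu
    rw [el h rfl, mulVec_smul] at a1
    have a2 : Φ *ᵥ (x ∘ Sum.inl) = u.2 := funext fun i => hf (congrFun a1 i)
    change Y.b (π (x ∘ Sum.inl)) (π (y ∘ Sum.inl)) = _
    rw [hb, a2, th, h, mulVec_smul, sub_dotProduct, smul_dotProduct, smul_eq_mul, map_sub, map_mul,
      f0, zero_mul, sub_zero]
    conv_rhs => rw [← Sum.elim_comp_inl_inr y, sumElim_dotProduct_sumElim, zero_dotProduct, add_zero]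

end Pool.Agent.P.MP_46a8f8_ag.GU
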