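import Pool.Agent.P.MP_46a8f8_ag.GU.Base2

/-!
Package W1A: the Lagrangian attached to a torsion form of projective dimension one.
-/

namespace Pool.Agent.P.MP_46a8f8_ag.GU

open TensorProduct Function Matrix IsLocalRing

universe u

namespace W1AP

variable {T V : Type u} [CommRing T] [CommRing V] [Algebra T V] {ι : Type} [Fintype ι]
  [DecidableEq ι]

theorem rep_of (B : (ι → T) →ₗ[T] (ι → T) →ₗ[T] V) (Φ : Matrix ι ι T)
    (h : ∀ i j, algebraMap T V (Φ i j) = B (Pi.single j 1) (Pi.single i 1)) (x y : ι → T) :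
    B x y = algebraMap T V ((Φ *ᵥ x) ⬝ᵥ y) := by
  rw [lin_pi (B x) y, dotProduct, map_sum]
  refine Finset.sum_congr rfl fun i _ => ?_
  rw [← LinearMap.flip_apply, lin_pi (B.flip _) x, mulVec, dotProduct, map_mul, map_sum, mul_comm,
    Algebra.smul_def]
  refine congrArg _ (Finset.sum_congr rfl fun j _ => ?_)
  rw [LinearMap.flip_apply, ← h, map_mul, mul_comm, Algebra.smul_def]

theorem entry (M : Matrix ι ι T) (i j : ι) : M i j = (M *ᵥ Pi.single j 1) ⬝ᵥ Pi.single i 1 := by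
  simp

omit [DecidableEq ι] in
theorem sym_dot {δ : ℤˣ} {Φ : Matrix ι ι T} (h : Φᵀ = δ • Φ) (v w : ι → T) :
    δ • ((Φ *ᵥ v) ⬝ᵥ w) = (Φ *ᵥ w) ⬝ᵥ v := by
  rw [← smul_dotProduct, ← smul_mulVec, ← h, mulVec_transpose, ← dotProduct_mulVec,
    dotProduct_comm]

end W1AP

open W1AP

theorem pW1A (h1 : S_LiftM.{u}) (h2 : S_Proj.{u}) : S_W1A.{u} := by
  intro R A T V _ _ _ _ _ _ _ _ _ _ ι _ _ ρ δ f Y π hf hq hg hp hpd hπ he
  let _ : Algebra R V := ((algebraMap T V).comp (algebraMap R T)).toAlgebra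
  let q : T →ₐ[R] V := { algebraMap T V with commutes' := fun _ => rfl }
  have hq' : ∀ t, q t = algebraMap T V t := fun _ => rfl
  let B : (ι → T) →ₗ[T] (ι → T) →ₗ[T] V := Y.b.compl₁₂ π π
  choose Φ₀ hΦ₀ using fun i j : ι => hq.1 (B (Pi.single j 1) (Pi.single i 1))
  have r₀ := rep_of B (Matrix.of Φ₀) hΦ₀
  obtain ⟨Φ, ⟨hs, ha⟩, hΦ⟩ := h1 R A T ι ρ.dual δ (Matrix.of Φ₀)
  have hΦ' := hΦ V q ⟨by
    ext i j
    simp only [transpose_apply, map_apply, of_apply, hq', hΦ₀, Matrix.smul_apply]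
    exact hg.sym _ _, fun a => by
    rw [MRep.map_apply, MRep.map_apply, ← transpose_map, ← Matrix.map_mul, ← Matrix.map_mul,
      MRep.dual_apply, MRep.dual_apply, star_star, transpose_transpose]
    ext i j
    rw [map_apply, map_apply, entry (_ * _), entry (_ * _), ← mulVec_mulVec, ← mulVec_mulVec,
      mulVec_transpose, ← dotProduct_mulVec, hq', hq', ← r₀, ← r₀]
    change Y.b (π _) (π (ρ.rm.ρ _ _)) = Y.b (π (ρ.rm.ρ _ _)) (π _)
    rw [he, he, hg.adj]⟩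
  have r : ∀ x y, Y.b (π x) (π y) = algebraMap T V ((Φ *ᵥ x) ⬝ᵥ y) :=
    rep_of B Φ fun i j => (congrFun (congrFun hΦ' i) j).trans (hΦ₀ i j)
  have ha' : ∀ a, (ρ.ρ (star a))ᵀ * Φ = Φ * ρ.ρ a := fun a => by
    have := ha a
    rwa [MRep.dual_apply, MRep.dual_apply, star_star, transpose_transpose] at this
  let Λ : Submodule T ((ι → T) × (ι → T)) :=
    LinearMap.ker (Φ.mulVecLin ∘ₗ LinearMap.fst T _ _ - f • LinearMap.snd T _ _)
  have hΛ : ∀ u, u ∈ Λ ↔ Φ *ᵥ u.1 = f • u.2 := fun u => sub_eq_zero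
  have hs' : ∀ y, (f • y, Φ *ᵥ y) ∈ Λ := fun y => (hΛ _).2 (mulVec_smul _ _ _)
  have hfs : ∀ (x : (ι → T) × (ι → T)) y, GU.hf δ x (f • y, Φ *ᵥ y) =
      (f • x.2 - Φ *ᵥ x.1) ⬝ᵥ y := fun x y => by
    rw [GU.hf, sym_dot hs, sub_dotProduct, smul_dotProduct, dotProduct_smul]
  have hfu : ∀ x, ∀ u ∈ Λ, f • GU.hf δ x u = (f • x.2 - Φ *ᵥ x.1) ⬝ᵥ u.1 := fun x u hu => by
    rw [← hfs, (hΛ u).1 hu]
    exact (map_smul ((ρ.hfm δ).b x) f u).symm
  have hL : MLag δ ρ Λ := by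
    refine ⟨fun a u hu => (hΛ _).2 ?_, fun u => ⟨fun hu v hv => hf ?_, fun hu => (hΛ _).2 ?_⟩⟩
    · rw [mulVec_mulVec, ← ha', ← mulVec_mulVec, (hΛ u).1 hu, mulVec_smul]
    · change f • _ = f • _
      rw [hfu u v hv, (hΛ u).1 hu, sub_self, zero_dotProduct, smul_zero]
    · refine (sub_eq_zero.1 (funext fun i => ?_)).symm
      simpa using (hfs u (Pi.single i 1)).symm.trans (hu _ (hs' _))
  have hker : ∀ x, π x = 0 ↔ ∃ ξ, (x, ξ) ∈ Λ := fun x => by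
    refine ⟨fun hx => ?_, fun ⟨ξ, hξ⟩ => hp.eq_zero fun y => ?_⟩
    · choose ξ hξ using fun i => (hq.2 ((Φ *ᵥ x) i)).1 (by
        simpa [hx] using (r x (Pi.single i 1)).symm)
      exact ⟨ξ, (hΛ _).2 (funext hξ)⟩
    · obtain ⟨y, rfl⟩ := hπ y
      rw [r, (hΛ _).1 hξ, smul_dotProduct]
      exact (hq.2 _).2 ⟨_, rfl⟩
  have hproj : Module.Projective T Λ := by
    refine pd_zero_iff.1 (PD.left (LinearMap.fst T _ _ ∘ₗ Λ.subtype) π ?_ (fun x => ?_) hπ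
      (PD.of_projective 0) hpd)
    · refine (injective_iff_map_eq_zero _).2 fun u hu => Subtype.ext (Prod.ext hu ?_)
      have := (hΛ _).1 u.2
      rw [show u.1.1 = 0 from hu, mulVec_zero] at this
      exact funext fun i => hf ((congrFun this i).symm.trans (smul_zero f).symm)
    · exact (hker x).trans ⟨fun ⟨ξ, hξ⟩ => ⟨⟨_, hξ⟩, rfl⟩, fun ⟨u, hu⟩ => ⟨u.1.2, hu ▸ u.2⟩⟩
  obtain ⟨e, he1, he2⟩ := h2 R A T (ρ.hfm δ) (-δ) Λ (ρ.hfm_sp δ).good (ρ.hfm_sp δ).perf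
    ⟨hL.1, Submodule.ext fun u => (hL.2 u).symm⟩ inferInstance hproj fun ψ => by
      let s : (ι → T) →ₗ[T] Λ :=
        ((f • LinearMap.id).prod Φ.mulVecLin).codRestrict Λ hs'
      have hsu : ∀ u : Λ, s u.1.1 = f • u := fun u =>
        Subtype.ext (Prod.ext rfl ((hΛ _).1 u.2))
      let χ : (ι → T) →ₗ[T] V := Algebra.linearMap T V ∘ₗ ψ ∘ₗ s
      have hχ : LinearMap.ker π ≤ LinearMap.ker χ := fun y hy => by
        obtain ⟨ξ, hξ⟩ := (hker y).1 hy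
        refine (hq.2 (ψ (s y))).2 ⟨ψ ⟨_, hξ⟩, ?_⟩
        rw [hsu ⟨_, hξ⟩, map_smul, smul_eq_mul]
      obtain ⟨m, hm⟩ := hp.exists
        ((LinearMap.ker π).liftQ χ hχ ∘ₗ (π.quotKerEquivOfSurjective hπ).symm.toLinearMap)
      obtain ⟨x₀, rfl⟩ := hπ m
      choose η hη using fun i => (hq.2 (ψ (s (Pi.single i 1)) - (Φ *ᵥ x₀) i)).1 (by
        have := (r x₀ (Pi.single i 1)).symm.trans (hm _)
        rw [map_sub, sub_eq_zero]
        simpa [χ] using this.symm)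
      refine ⟨(-x₀, η), fun u => hf ?_⟩
      change f • GU.hf δ _ _ = f • _
      rw [hfu _ _ u.2, ← map_smul, ← hsu, ← LinearMap.comp_apply, lin_pi (ψ ∘ₗ s), dotProduct]
      refine Finset.sum_congr rfl fun i _ => ?_
      rw [LinearMap.comp_apply, sub_eq_iff_eq_add.1 (hη i), mulVec_neg]
      simp [mul_comm]
  refine ⟨Φ, Λ, hs, r, hΛ, hL, e, fun u => he2 ▸ ⟨u, rfl⟩, fun u hu => ?_, he1.2.2⟩
  obtain ⟨w, rfl⟩ : u ∈ LinearMap.range e := he2.symm ▸ hu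
  exact he1.2.1 w

end Pool.Agent.P.MP_46a8f8_ag.GU
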