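import Pool.Agent.P.MP_46a8f8_ag.GU.Base2

/-!
The local step of the presentation of a form by a symmetric matrix.
-/

namespace Pool.Agent.P.MP_46a8f8_ag.GU

open TensorProduct Function Matrix IsLocalRing

universe u

namespace W1locP

variable {T D κ : Type u} [CommRing T] [CommRing D] [CommRing κ] {ι : Type}

/-- change of coefficients of a pair of vectors -/
def pm (q : T →+* D) (u : (ι → T) × (ι → T)) : (ι → D) × (ι → D) := (q ∘ u.1, q ∘ u.2)

/-- extension of a submodule -/
def ext (q : T →+* D) (Λ : Submodule T ((ι → T) × (ι → T))) : Submodule D ((ι → D) × (ι → D)) :=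
  Submodule.span D (pm q '' Λ)

theorem pm_zero (q : T →+* D) : pm q (0 : (ι → T) × (ι → T)) = 0 := by
  ext i <;> simp [pm]

theorem pm_add (q : T →+* D) (u v : (ι → T) × (ι → T)) : pm q (u + v) = pm q u + pm q v := by
  ext i <;> simp [pm]

theorem pm_smul (q : T →+* D) (c : T) (u : (ι → T) × (ι → T)) :
    pm q (c • u) = q c • pm q u := by
  ext i <;> simp [pm]

variable {Λ : Submodule T ((ι → T) × (ι → T))} {δ : ℤˣ}

theorem pm_mem (q : T →+* D) {u : (ι → T) × (ι → T)} (h : u ∈ Λ) : pm q u ∈ ext q Λ :=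
  Submodule.subset_span ⟨u, h, rfl⟩

theorem ext_surj {q : T →+* D} (hq : Surjective q) {u : (ι → D) × (ι → D)} (h : u ∈ ext q Λ) :
    ∃ v ∈ Λ, pm q v = u := by
  induction h using Submodule.span_induction with
  | mem x hx => exact hx
  | zero => exact ⟨0, Λ.zero_mem, pm_zero q⟩
  | add x y _ _ hx hy =>
    obtain ⟨x, hx, rfl⟩ := hx
    obtain ⟨y, hy, rfl⟩ := hy
    exact ⟨_, Λ.add_mem hx hy, pm_add q x y⟩
  | smul c x _ hx =>
    obtain ⟨x, hx, rfl⟩ := hx
    obtain ⟨c, rfl⟩ := hq c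
    exact ⟨_, Λ.smul_mem c hx, pm_smul q c x⟩

theorem ext_comp (q : T →+* D) (p : D →+* κ) {u : (ι → D) × (ι → D)} (h : u ∈ ext q Λ) :
    pm p u ∈ ext (p.comp q) Λ := by
  induction h using Submodule.span_induction with
  | mem x hx =>
    obtain ⟨x, hx, rfl⟩ := hx
    exact pm_mem (p.comp q) hx
  | zero => rw [pm_zero]; exact Submodule.zero_mem _
  | add x y _ _ hx hy => rw [pm_add]; exact Submodule.add_mem _ hx hy
  | smul c x _ hx => rw [pm_smul]; exact Submodule.smul_mem _ _ hx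

variable [Fintype ι] [DecidableEq ι]

omit [Fintype ι] in
theorem comp_single (q : T →+* D) (i : ι) (c : T) :
    q ∘ (Pi.single i c : ι → T) = Pi.single i (q c) := by
  ext j
  by_cases h : j = i
  · subst h; simp
  · simp [h]

theorem ext_top (q : T →+* D) (u : (ι → D) × (ι → D)) : u ∈ ext q (⊤ : Submodule T _) := by
  have e : u = ∑ i, u.1 i • pm q (Pi.single i 1, 0) + ∑ i, u.2 i • pm q (0, Pi.single i 1) := by
    ext j <;> simp [pm, Prod.fst_sum, Prod.snd_sum, Pi.single_apply, apply_ite q]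
  rw [e]
  exact Submodule.add_mem _
    (Submodule.sum_mem _ fun i _ => Submodule.smul_mem _ _ (pm_mem q trivial))
    (Submodule.sum_mem _ fun i _ => Submodule.smul_mem _ _ (pm_mem q trivial))

omit [DecidableEq ι] in
theorem hf_pm (q : T →+* D) (u v : (ι → T) × (ι → T)) :
    hf δ (pm q u) (pm q v) = q (hf δ u v) := by
  rcases Int.units_eq_one_or δ with rfl | rfl <;> simp [hf, pm, dotProduct]

variable {R A : Type u} [CommRing R] [Ring A] [Algebra R A] [StarRing A] [SA R A]
  [Algebra R T] [Algebra R D]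

theorem mlag (q : T →ₐ[R] D) {ρ : MRep R A T ι} (h : MLag δ ρ Λ) (hp : MProj δ Λ) :
    MLag δ (ρ.map q) (ext (q : T →+* D) Λ) := by
  let B := ((ρ.map q).hfm δ).b
  have hB : ∀ u v : (ι → D) × (ι → D), hf δ u v = B u v := fun _ _ => rfl
  refine ⟨fun a u hu => ?_, fun u => ⟨fun hu v hv => ?_, fun hu => ?_⟩⟩
  · change (((ρ.map q).hfm δ).ρ a) u ∈ _
    induction hu using Submodule.span_induction with
    | mem x hx =>
      obtain ⟨x, hx, rfl⟩ := hx
      convert pm_mem (q : T →+* D) (h.1 a x hx) using 1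
      refine Prod.ext (funext fun i => ?_) (funext fun i => ?_)
      · exact ((q : T →+* D).map_mulVec _ _ i).symm
      · exact ((q : T →+* D).map_mulVec _ _ i).symm
    | zero => rw [map_zero]; exact Submodule.zero_mem _
    | add x y _ _ hx hy => rw [map_add]; exact Submodule.add_mem _ hx hy
    | smul c x _ hx => rw [map_smul]; exact Submodule.smul_mem _ _ hx
  · rw [hB]
    induction hu, hv using Submodule.span_induction₂ with
    | mem_mem x y hx hy =>
      obtain ⟨x, hx, rfl⟩ := hx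
      obtain ⟨y, hy, rfl⟩ := hy
      rw [← hB, hf_pm, (h.2 x).1 hx y hy, map_zero]
    | zero_left y _ => simp
    | zero_right x _ => simp
    | add_left x y z _ _ _ h1 h2 => rw [map_add, LinearMap.add_apply, h1, h2, add_zero]
    | add_right x y z _ _ _ h1 h2 => rw [map_add, h1, h2, add_zero]
    | smul_left r x y _ _ h1 => rw [map_smul, LinearMap.smul_apply, h1, smul_zero]
    | smul_right r x y _ _ h1 => rw [map_smul, h1, smul_zero]
  · obtain ⟨e, he1, -, he3⟩ := hp
    have key : ∀ x ∈ ext (q : T →+* D) (⊤ : Submodule T ((ι → T) × (ι → T))),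
        ∃ w ∈ ext (q : T →+* D) Λ, ∀ b, B w (pm (q : T →+* D) b) +
          B x (pm (q : T →+* D) (e b)) = B x (pm (q : T →+* D) b) := by
      intro x hx
      induction hx using Submodule.span_induction with
      | mem x hx =>
        obtain ⟨x, -, rfl⟩ := hx
        exact ⟨_, pm_mem _ (he1 x), fun b => by
          rw [← hB, ← hB, ← hB, hf_pm, hf_pm, hf_pm, ← map_add, he3]⟩
      | zero => exact ⟨0, Submodule.zero_mem _, fun b => by simp⟩
      | add x y _ _ hx hy =>
        obtain ⟨w, hw, h1⟩ := hx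
        obtain ⟨w', hw', h2⟩ := hy
        refine ⟨w + w', Submodule.add_mem _ hw hw', fun b => ?_⟩
        simp only [map_add, LinearMap.add_apply]
        linear_combination h1 b + h2 b
      | smul c x _ hx =>
        obtain ⟨w, hw, h1⟩ := hx
        refine ⟨c • w, Submodule.smul_mem _ _ hw, fun b => ?_⟩
        simp only [map_smul, LinearMap.smul_apply, smul_eq_mul]
        linear_combination c * h1 b
    obtain ⟨w, hw, h1⟩ := key u (ext_top _ u)
    have h2 : ∀ b, hf δ w (pm (q : T →+* D) b) = hf δ u (pm (q : T →+* D) b) := fun b => by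
      have := h1 b
      rwa [← hB u (pm _ (e b)), hu _ (pm_mem _ (he1 b)), add_zero] at this
    have h0 : (q : T →+* D) ∘ (0 : ι → T) = 0 := funext fun _ => map_zero _
    have : u = w := Prod.ext (funext fun i => ?_) (funext fun i => ?_)
    · rwa [this]
    · have := h2 (0, Pi.single i 1)
      simp only [hf, pm, h0, comp_single, map_one, dotProduct_zero, single_one_dotProduct,
        zero_sub, neg_inj] at this
      rw [← usmul_usmul δ (u.1 i), ← this, usmul_usmul]
    · have := h2 (Pi.single i 1, 0)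
      simp only [hf, pm, h0, comp_single, map_one, zero_dotProduct, dotProduct_single_one,
        smul_zero, sub_zero] at this
      exact this.symm

omit [StarRing A] [SA R A] in
theorem ext_fst (q : T →+* D) {f : T} (h : ∀ x : ι → T, ∃ ξ, (f • x, ξ) ∈ Λ) (x : ι → D) :
    ∃ ξ, (q f • x, ξ) ∈ ext q Λ := by
  choose ξ hξ using h
  refine ⟨∑ i, x i • (q ∘ ξ (Pi.single i 1)), ?_⟩
  convert Submodule.sum_mem (ext q Λ) fun i (_ : i ∈ Finset.univ) =>
    Submodule.smul_mem _ (x i) (pm_mem q (hξ (Pi.single i 1))) using 1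
  ext j
  · simp [pm, Prod.fst_sum, Pi.single_apply, apply_ite q, mul_comm]
  · simp [pm, Prod.snd_sum]

end W1locP

open W1locP in
theorem pW1loc (h1 : S_Par.{u}) (h2 : S_Fld.{u}) : S_W1loc.{u} := by
  intro R A T _ _ _ _ _ _ _ ι _ _ ρ δ Λ f hL hP hf hx 𝔫 h𝔫
  obtain ⟨D, _, _, _, _, hf0, hc, hs⟩ := hf 𝔫 h𝔫
  let _ : Algebra R D := ((algebraMap T D).comp (algebraMap R T)).toAlgebra
  let qD : T →ₐ[R] D := ⟨algebraMap T D, fun _ => rfl⟩
  let _ : Field (T ⧸ 𝔫) := Ideal.Quotient.field 𝔫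
  have hm : ∀ t, residue D (algebraMap T D t) = 0 ↔ t ∈ 𝔫 := fun t => by
    rw [residue_eq_zero_iff, ← hc, Ideal.mem_comap]
  let φ : T ⧸ 𝔫 →+* ResidueField D :=
    Ideal.Quotient.lift 𝔫 ((residue D).comp (algebraMap T D)) fun t ht => (hm t).2 ht
  have hφ : Bijective φ := ⟨φ.injective, fun y => by
    obtain ⟨d, rfl⟩ := residue_surjective y
    obtain ⟨t, ht⟩ := hs d
    refine ⟨Ideal.Quotient.mk 𝔫 t, ?_⟩
    rw [← residue_eq_zero_iff, map_sub, sub_eq_zero] at ht
    exact ht.symm⟩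
  let ψ := RingEquiv.ofBijective φ hφ
  let p : D →+* T ⧸ 𝔫 := ψ.symm.toRingHom.comp (residue D)
  have hp : ∀ t, p (algebraMap T D t) = Ideal.Quotient.mk 𝔫 t := fun t =>
    ψ.symm_apply_eq.2 rfl
  let q : D →ₐ[R] T ⧸ 𝔫 := ⟨p, fun r => hp _⟩
  let k := Ideal.Quotient.mkₐ R 𝔫
  have hk : Surjective (k : T →+* T ⧸ 𝔫) := Ideal.Quotient.mk_surjective
  have hpq : p.comp (qD : T →+* D) = (k : T →+* T ⧸ 𝔫) := RingHom.ext hp
  obtain ⟨ω, hω, hω'⟩ := h1 R A D (T ⧸ 𝔫) q ι (ρ.map qD) δ _ (algebraMap T D f)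
    (ψ.symm.surjective.comp residue_surjective)
    (fun d => (map_eq_zero_iff ψ.symm ψ.symm.injective).trans (residue_eq_zero_iff d))
    (mlag qD hL hP) hf0 (ext_fst (qD : T →+* D) hx)
  obtain ⟨μ, hμ, hμ'⟩ := h2 R A (T ⧸ 𝔫) ι (ρ.map k) δ _ ω (mlag k hL hP)
    (hω.congr fun a => Matrix.ext fun i j => hp _) fun ξ hξ H => by
      obtain ⟨v, hv, e⟩ := ext_surj hk hξ
      have e1 : q ∘ (pm (qD : T →+* D) v).1 = 0 :=
        (funext fun i => hp _).trans (congrArg Prod.fst e)
      have e2 : q ∘ (pm (qD : T →+* D) v).2 = ξ :=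
        (funext fun i => hp _).trans (congrArg Prod.snd e)
      rw [← e2]
      refine hω' _ (pm_mem _ hv) e1 fun w hw e3 => ?_
      rw [e2]
      refine H _ ?_
      have := ext_comp _ p hw
      rw [hpq] at this
      rwa [← e3]
  choose μ' hμ0 using fun i j => hk (μ i j)
  have e0 : (Matrix.of μ').map k = μ := Matrix.ext hμ0
  refine ⟨Matrix.of μ', e0.symm ▸ hμ.congr fun a => ?_, fun ζ => ?_⟩
  · ext (i | i) (j | j)
    · rfl
    · exact (map_zero k).symm
    · exact (map_zero k).symm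
    · rfl
  · obtain ⟨u', hu', η, e⟩ := hμ' (k ∘ ζ)
    obtain ⟨u, hu, rfl⟩ := ext_surj hk hu'
    choose η' hη using fun i => hk (η i)
    refine ⟨u, hu, η', fun i => Ideal.Quotient.eq_zero_iff_mem.1 ?_⟩
    change (k : T →+* T ⧸ 𝔫) _ = 0
    have e1 : (k : T →+* T ⧸ 𝔫) ∘ Sum.elim u.1 η' = Sum.elim (pm (k : T →+* T ⧸ 𝔫) u).1 η := by
      ext (j | j)
      · rfl
      · exact hη j
    have e2 : (k : T →+* T ⧸ 𝔫) (Sum.elim u.2 0 i) =
        Sum.elim (pm (k : T →+* T ⧸ 𝔫) u).2 0 i := by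
      rcases i with j | j
      · rfl
      · exact map_zero _
    rw [map_sub, map_sub, RingHom.map_mulVec, e1, e2, sub_eq_zero]
    rw [← e0] at e
    exact congrFun e i

end Pool.Agent.P.MP_46a8f8_ag.GU
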