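import Pool.Agent.P.MP_46a8f8_ag.GU.Base2

/-!
Regular elements on the quotients by regular sequences.
-/

namespace Pool.Agent.P.MP_46a8f8_ag.GU

open IsLocalRing

universe u

namespace ZAvP

/-- prime avoidance for the associated primes and one more ideal -/
theorem avoid {R : Type u} [CommRing R] [IsNoetherianRing R] (M : Type u) [AddCommGroup M]
    [Module R M] [Module.Finite R M] (𝔟 I : Ideal R) (hI : ¬ 𝔟 ≤ I)
    (h : ∀ m : M, (∀ b ∈ 𝔟, b • m = 0) → m = 0) : ∃ z ∈ 𝔟, z ∉ I ∧ IsSMulRegular M z := by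
  by_contra hne
  push Not at hne
  have hfin : (insert I (associatedPrimes R M)).Finite := (associatedPrimes.finite R M).insert I
  have hsub : (𝔟 : Set R) ⊆ ⋃ i ∈ (↑hfin.toFinset : Set (Ideal R)), (id i : Ideal R) := by
    intro z hz
    rw [Set.Finite.coe_toFinset, Set.biUnion_insert]
    by_cases hzI : z ∈ I
    · exact Or.inl hzI
    · right
      have := biUnion_associatedPrimes_eq_compl_regular R M
      change z ∈ ⋃ p ∈ associatedPrimes R M, (p : Set R)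
      rw [this]
      exact hne z hz hzI
  obtain ⟨P, hP, hle⟩ := (Ideal.subset_union_prime I I (fun P hP h1 _ => by
    rcases (Set.Finite.mem_toFinset _).1 hP with h2 | h2
    · exact absurd h2 h1
    · exact h2.isPrime)).1 hsub
  rcases (Set.Finite.mem_toFinset _).1 hP with h2 | h2
  · exact hI (h2 ▸ hle)
  · obtain ⟨hp, m, rfl⟩ := isAssociatedPrime_iff.1 h2
    have hm : m = 0 := h m fun b hb => by simpa using hle hb
    exact hp.ne_top (by simp [hm])

theorem mem_max {R S : Type u} [CommRing R] [IsLocalRing R] [CommRing S] [IsLocalRing S]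
    (f : R →+* S) {a : R} (h : f a ∈ maximalIdeal S) : a ∈ maximalIdeal R :=
  fun hu => h (hu.map f)

/-- a regular sequence of length three -/
theorem three (R : Type u) [CommRing R] [IsRegularLocalRing R] (hd : ringKrullDim R = 3) :
    ∃ x ∈ maximalIdeal R, ∃ y ∈ maximalIdeal R, ∃ w ∈ maximalIdeal R, x ≠ 0 ∧
      (∀ a, x ∣ y * a → x ∣ a) ∧
      ∀ a b c, w * a = x * b + y * c → ∃ e e', a = x * e + y * e' := by
  obtain ⟨x, hx, hx2⟩ := SetLike.not_le_iff_exists.1 (not_le_sq3 hd)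
  obtain ⟨h1, d1⟩ := rQuot R x hx hx2
  have e1 : ringKrullDim (R ⧸ Ideal.span {x}) = (2 : ℕ) := PdP.dim_eq (d1.trans hd)
  have := rDom (R ⧸ Ideal.span {x})
  obtain ⟨y1, hy, hy2⟩ := SetLike.not_le_iff_exists.1 (PdP.not_le_sq 1 e1)
  obtain ⟨h2, d2⟩ := rQuot _ y1 hy hy2
  have e2 : ringKrullDim ((R ⧸ Ideal.span {x}) ⧸ Ideal.span {y1}) = (1 : ℕ) :=
    PdP.dim_eq (d2.trans e1)
  have := rDom ((R ⧸ Ideal.span {x}) ⧸ Ideal.span {y1})
  obtain ⟨w2, hw, hw2⟩ := SetLike.not_le_iff_exists.1 (PdP.not_le_sq 0 e2)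
  obtain ⟨y, rfl⟩ := Ideal.Quotient.mk_surjective y1
  obtain ⟨w1, rfl⟩ := Ideal.Quotient.mk_surjective w2
  obtain ⟨w, rfl⟩ := Ideal.Quotient.mk_surjective w1
  refine ⟨x, hx, y, mem_max _ hy, w, mem_max _ (mem_max _ hw),
    fun e => hx2 (e ▸ Submodule.zero_mem _), fun a ha => ?_, fun a b c ha => ?_⟩
  · have hy0 : Ideal.Quotient.mk (Ideal.span {x}) y ≠ 0 := fun e => hy2 (e ▸ Submodule.zero_mem _)
    rw [← Ideal.mem_span_singleton, ← Ideal.Quotient.eq_zero_iff_mem] at ha ⊢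
    rw [map_mul] at ha
    exact (mul_eq_zero.1 ha).resolve_left hy0
  · have hw0 : Ideal.Quotient.mk (Ideal.span {Ideal.Quotient.mk (Ideal.span {x}) y})
        (Ideal.Quotient.mk (Ideal.span {x}) w) ≠ 0 := fun e => hw2 (e ▸ Submodule.zero_mem _)
    have hx0 : Ideal.Quotient.mk (Ideal.span {x}) x = 0 :=
      Ideal.Quotient.eq_zero_iff_mem.2 (Ideal.mem_span_singleton_self x)
    have hy0 : Ideal.Quotient.mk (Ideal.span {Ideal.Quotient.mk (Ideal.span {x}) y})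
        (Ideal.Quotient.mk (Ideal.span {x}) y) = 0 :=
      Ideal.Quotient.eq_zero_iff_mem.2 (Ideal.mem_span_singleton_self _)
    have h3 := congrArg (fun t => Ideal.Quotient.mk
      (Ideal.span {Ideal.Quotient.mk (Ideal.span {x}) y}) (Ideal.Quotient.mk (Ideal.span {x}) t)) ha
    simp only [map_mul, map_add, hx0, hy0, zero_mul, add_zero] at h3
    have h4 := (mul_eq_zero.1 h3).resolve_left hw0
    obtain ⟨e1', he⟩ := Ideal.mem_span_singleton.1 (Ideal.Quotient.eq_zero_iff_mem.1 h4)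
    obtain ⟨e', rfl⟩ := Ideal.Quotient.mk_surjective e1'
    rw [← map_mul, Ideal.Quotient.eq, Ideal.mem_span_singleton] at he
    obtain ⟨e, he⟩ := he
    exact ⟨e, e', by linear_combination he⟩

theorem cross {R : Type u} [CommRing R] [IsDomain R] {F G : R} (h : RS F G)
    {u x y a b a' b' : R} (h1 : a * F + b * G = x * u) (h2 : a' * F + b' * G = y * u) :
    ∃ c, x * b' - y * b = F * c ∧ y * a - x * a' = G * c := by
  obtain ⟨c, hc⟩ := h.2.2 (x * b' - y * b) (y * a - x * a') (by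
    linear_combination x * h2 - y * h1)
  exact ⟨c, hc, mul_left_cancel₀ h.1 (by linear_combination y * h1 - x * h2 + G * hc)⟩

end ZAvP

theorem pZ : S_Z.{u} := by
  intro R _ _ hd F G I h hI
  have := rDom R
  obtain ⟨x, hx, y, hy, w, hw, hx0, hxy, hxyw⟩ := ZAvP.three R hd
  refine ZAvP.avoid (BQ F G) _ I hI fun m hm => ?_
  obtain ⟨u, rfl⟩ := Ideal.Quotient.mk_surjective m
  obtain ⟨a1, b1, e1⟩ := (mk_eq_zero (r := x * u)).1 (hm x hx)
  obtain ⟨a2, b2, e2⟩ := (mk_eq_zero (r := y * u)).1 (hm y hy)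
  obtain ⟨a3, b3, e3⟩ := (mk_eq_zero (r := w * u)).1 (hm w hw)
  obtain ⟨c12, f12, g12⟩ := ZAvP.cross h e1 e2
  obtain ⟨c13, -, g13⟩ := ZAvP.cross h e1 e3
  obtain ⟨c23, -, g23⟩ := ZAvP.cross h e2 e3
  obtain ⟨e, e', he⟩ := hxyw c12 (-c23) c13 (mul_left_cancel₀ h.2.1 (by
    linear_combination y * g13 - x * g23 - w * g12))
  obtain ⟨a, ha⟩ := hxy (a1 - G * e') ⟨a2 + G * e, by linear_combination g12 + G * he⟩
  obtain ⟨b, hb⟩ := hxy (b1 + F * e') ⟨b2 - F * e, by linear_combination -f12 - F * he⟩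
  exact mk_eq_zero.2 ⟨a, b, mul_left_cancel₀ hx0 (by linear_combination e1 - F * ha - G * hb)⟩

theorem pAv : S_Av.{u} := by
  intro R _ _ _ 𝔟 F G r hF hG h hr
  have hmk : ∀ v : R, Ideal.Quotient.mk (Ideal.span {r}) v = 0 ↔ r ∣ v := fun v => by
    rw [Ideal.Quotient.eq_zero_iff_mem, Ideal.mem_span_singleton]
  obtain ⟨f, hf, hf0, hreg⟩ := ZAvP.avoid (R ⧸ Ideal.span {r}) 𝔟 ⊥
    (fun hle => h.1 (Ideal.mem_bot.1 (hle hF))) fun m hm => by
      obtain ⟨u, rfl⟩ := Ideal.Quotient.mk_surjective m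
      exact (hmk u).2 (h.dvd ((hmk (F * u)).1 (hm F hF)) ((hmk (G * u)).1 (hm G hG)))
  refine ⟨f, hf, hr, fun e => hf0 (Ideal.mem_bot.2 e), fun u v e => (hmk u).1 ?_⟩
  exact hreg.right_eq_zero_of_smul ((hmk (f * u)).2 ⟨v, e⟩)

end Pool.Agent.P.MP_46a8f8_ag.GU
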