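import Pool.Agent.P.MP_46a8f8_ag.GU.Top
import Pool.Agent.P.MP_46a8f8_ag.GU.Core
import Pool.Agent.P.MP_46a8f8_ag.GU.ZAv
import Pool.Agent.P.MP_46a8f8_ag.GU.DVR
import Pool.Agent.P.MP_46a8f8_ag.GU.C1
import Pool.Agent.P.MP_46a8f8_ag.GU.Inj
import Pool.Agent.P.MP_46a8f8_ag.GU.Hered
import Pool.Agent.P.MP_46a8f8_ag.GU.Primes
import Pool.Agent.P.MP_46a8f8_ag.GU.Tri
import Pool.Agent.P.MP_46a8f8_ag.GU.ModA
import Pool.Agent.P.MP_46a8f8_ag.GU.ModB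
import Pool.Agent.P.MP_46a8f8_ag.GU.Mod
import Pool.Agent.P.MP_46a8f8_ag.GU.Dual
import Pool.Agent.P.MP_46a8f8_ag.GU.Proj
import Pool.Agent.P.MP_46a8f8_ag.GU.Cover
import Pool.Agent.P.MP_46a8f8_ag.GU.Pair
import Pool.Agent.P.MP_46a8f8_ag.GU.Step0a
import Pool.Agent.P.MP_46a8f8_ag.GU.Step0
import Pool.Agent.P.MP_46a8f8_ag.GU.Surga
import Pool.Agent.P.MP_46a8f8_ag.GU.Surg
import Pool.Agent.P.MP_46a8f8_ag.GU.Red
import Pool.Agent.P.MP_46a8f8_ag.GU.Par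
import Pool.Agent.P.MP_46a8f8_ag.GU.Fld
import Pool.Agent.P.MP_46a8f8_ag.GU.W1loc
import Pool.Agent.P.MP_46a8f8_ag.GU.W1A
import Pool.Agent.P.MP_46a8f8_ag.GU.W1
import Pool.Agent.P.MP_46a8f8_ag.GU.Neutral
import Pool.Agent.P.MP_46a8f8_ag.GU.B1
import Pool.Agent.P.MP_46a8f8_ag.GU.B2
import Pool.Agent.P.MP_46a8f8_ag.GU.B3
import Pool.Agent.P.MP_46a8f8_ag.GU.Glue
import Pool.Agent.P.MP_46a8f8_ag.GU.B4
import Pool.Agent.P.MP_46a8f8_ag.GU.StepB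
import Pool.Agent.P.MP_46a8f8_ag.GU.Last
import Pool.Agent.P.MP_46a8f8_ag.GU.KC
import Pool.Agent.P.MP_46a8f8_ag.GU.FT
import Pool.Agent.P.MP_46a8f8_ag.GU.Fi
import Pool.Agent.P.MP_46a8f8_ag.GU.Fii
import Pool.Agent.P.MP_46a8f8_ag.GU.Lift
import Pool.Agent.P.MP_46a8f8_ag.GU.Bc
import Pool.Agent.P.MP_46a8f8_ag.GU.HC
import Pool.Agent.P.MP_46a8f8_ag.GU.HC2
import Pool.Agent.P.MP_46a8f8_ag.GU.Graph
import Pool.Agent.P.MP_46a8f8_ag.GU.Sep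
import Pool.Agent.P.MP_46a8f8_ag.GU.Tr0
import Pool.Agent.P.MP_46a8f8_ag.GU.Tr
import Pool.Agent.P.MP_46a8f8_ag.GU.Rk
import Pool.Agent.P.MP_46a8f8_ag.GU.Herm
import Pool.Agent.P.MP_46a8f8_ag.GU.TorH

/-!
All packages of the unitary case put together.
-/

namespace Pool.Agent.P.MP_46a8f8_ag.GU

universe u

theorem allW1 : S_W1.{u} :=
  pW1 pCover pLiftM (pW1A pLiftM pProj) (pW1loc pPar pFld)

theorem allNeutral : S_Neutral.{u} := pNeutral pLiftM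

theorem allCore : S_Core.{u} :=
  core pZ pAv pPrimes pNrm (pMod pTri pModA pModB) pPair pUni pSum
    (pStep0 pStep0a (pC1 pDVR) pCover) (pSurg pSurga pZ pCover pProj) (pRed pZ pInj)
    (pStepB pDual pB1 pB2 (pB4 pB3 pGlue allW1 allNeutral pHered pParH2))
    (pLast pZ allW1 allNeutral pParH2)

theorem allHC2 : S_HC2.{u} :=
  pHC2 (pHC (pFi (pKC pSSC) pFT pCmpl) pLift pBc pHypIso pProj) pHypIso pCover

theorem allGraph : S_Graph.{u} := pGraph (pFii (pKC pSSC) pFT pCmpl) pLift pBc pHypIso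

theorem allHerm : S_Herm.{u} := pHerm allHC2 allGraph

theorem allSep : S_Sep.{u} := pSep pAzS

theorem allTr : S_Tr.{u} := pTr pAzS pFreeS (pTr0 pAzS)

theorem allRk : S_Rk.{u} := pRk pAzS pFreeS allSep

end Pool.Agent.P.MP_46a8f8_ag.GU
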