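import Pool.Agent.P.MP_46a8f8_ag.GU.Ad

/-!
A prime element as a norm from a finite extension.
-/

namespace Pool.Agent.P.MP_46a8f8_ag.GU

open Function

universe u

namespace Fin1P

/-- a maximal ideal over the kernel of a surjection avoids the elements that become units -/
theorem not_mem {A D : Type*} [CommRing A] [CommRing D] (f : A →+* D) (hf : Surjective f)
    {𝔫 : Ideal A} (h : 𝔫.IsMaximal) (hk : RingHom.ker f ≤ 𝔫) {s : A} (hs : IsUnit (f s)) :
    s ∉ 𝔫 := fun hm => by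
  obtain ⟨u, hu⟩ := hs.exists_right_inv
  obtain ⟨t, rfl⟩ := hf u
  have h1 : 1 - s * t ∈ 𝔫 := hk (by rw [RingHom.mem_ker, map_sub, map_mul, hu, map_one, sub_self])
  exact h.ne_top ((Ideal.eq_top_iff_one _).2 (by simpa using 𝔫.add_mem h1 (𝔫.mul_mem_right t hm)))

theorem finite_max {A D : Type*} [CommRing A] [CommRing D] [Finite (MaximalSpectrum D)]
    (f : A →+* D) (hf : Surjective f) (y : A) (hy : ∀ w, IsUnit (1 + y * w))
    (hk : ∀ w, f w = 0 → y ∣ w) : Finite (MaximalSpectrum A) := by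
  have key : ∀ 𝔫 : MaximalSpectrum A, RingHom.ker f ≤ 𝔫.asIdeal := fun 𝔫 w hw => by
    obtain ⟨c, rfl⟩ := hk w hw
    refine Ideal.mul_mem_right c _ ?_
    by_contra hn
    obtain ⟨a, b, hb, hab⟩ := 𝔫.isMaximal.exists_inv hn
    have h1 : 1 + y * -a = b := by rw [← hab]; ring
    exact 𝔫.isMaximal.ne_top (Ideal.eq_top_of_isUnit_mem _ hb (h1 ▸ hy (-a)))
  have hc : ∀ 𝔫 : MaximalSpectrum A, (𝔫.asIdeal.map f).comap f = 𝔫.asIdeal := fun 𝔫 => by
    rw [Ideal.comap_map_of_surjective f hf, sup_eq_left]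
    exact key 𝔫
  refine Finite.of_injective (fun 𝔫 : MaximalSpectrum A => (⟨𝔫.asIdeal.map f, ?_⟩ :
    MaximalSpectrum D)) fun 𝔫 𝔫' h => ?_
  · refine (Ideal.map_eq_top_or_isMaximal_of_surjective f hf 𝔫.isMaximal).resolve_left fun h => ?_
    exact 𝔫.isMaximal.ne_top (by rw [← hc 𝔫, h, Ideal.comap_top])
  · have h1 : 𝔫.asIdeal.map f = 𝔫'.asIdeal.map f := congrArg MaximalSpectrum.asIdeal h
    exact MaximalSpectrum.ext (by rw [← hc 𝔫, h1, hc])

end Fin1P

theorem pFin1 (h1 : S_ZM.{u}) (h2 : S_Nm.{u}) (h3 : S_LP.{u}) : S_Fin1.{u} := by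
  intro R T W D K _ _ _ _ _ _ _ _ _ _ _ _ _ _ _ _ _ _ _ _ _ _ q y π hπ hy0 hy hq hD hW hRD hfr
  have fD : Module.Finite R D :=
    Module.Finite.of_surjective (IsScalarTower.toAlgHom R T D).toLinearMap hD
  have mD : Finite (MaximalSpectrum D) := finite_maximalSpectrum R D
  have hqs : Surjective q := fun d => by
    obtain ⟨t, rfl⟩ := hD d
    exact ⟨algebraMap T W t, q.commutes t⟩
  have mW : Finite (MaximalSpectrum W) :=
    Fin1P.finite_max (q : W →+* D) hqs y hy fun w hw => (hq w).1 hw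
  obtain ⟨T₁, fT, hT⟩ := h1 T W
  have fR : Module.Finite R T₁ := Module.Finite.trans T T₁
  have mT : Finite (MaximalSpectrum T₁) := finite_maximalSpectrum R T₁
  let q₁ : T₁ →ₐ[T] D := q.comp T₁.val
  have hq₁ : Surjective q₁ := fun d => by
    obtain ⟨t, rfl⟩ := hD d
    exact ⟨algebraMap T T₁ t, q₁.commutes t⟩
  have hqR : ∀ r, q₁ (algebraMap R T₁ r) = algebraMap R D r := fun r => by
    rw [IsScalarTower.algebraMap_apply R T T₁, q₁.commutes, ← IsScalarTower.algebraMap_apply]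
  obtain ⟨z, hz⟩ := h3 T₁ (RingHom.ker (q₁ : T₁ →+* D)) fun 𝔫 h𝔫 => by
    by_cases hk : RingHom.ker (q₁ : T₁ →+* D) ≤ 𝔫
    · obtain ⟨a, ha, s, hs, hsu, hsa⟩ := hT y
      refine ⟨⟨a, ha⟩, (hq a).2 ⟨s, by rw [← hsa, mul_comm]⟩, fun b hb => ?_⟩
      obtain ⟨w, hw⟩ := (hq b).1 hb
      obtain ⟨a', ha', s', hs', hsu', hsa'⟩ := hT w
      refine ⟨⟨s, hs⟩ * ⟨s', hs'⟩, Fin1P.not_mem (q₁ : T₁ →+* D) hq₁ h𝔫 hk ?_, ⟨a', ha'⟩,
        Subtype.ext ?_⟩
      · exact (hsu.mul hsu').map q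
      · change s * s' * b = a * a'
        rw [hw, ← hsa, ← hsa']
        ring
    · obtain ⟨g, hg, hg'⟩ := SetLike.not_le_iff_exists.1 hk
      exact ⟨g, hg, fun b _ => ⟨g, hg', dvd_mul_right g b⟩⟩
  have hzq : ∀ t : T₁, q₁ t = 0 ↔ z ∣ t := fun t => by
    rw [← Ideal.mem_span_singleton]
    change t ∈ RingHom.ker (q₁ : T₁ →+* D) ↔ _
    rw [hz]
  have hzπ : z ∣ algebraMap R T₁ π := (hzq _).1 (by rw [hqR, hRD])
  let L := FractionRing W
  have hWL : Injective (algebraMap W L) := IsFractionRing.injective W L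
  have hTL : Injective (algebraMap T₁ L) := hWL.comp Subtype.val_injective
  have hRL : Injective (algebraMap R L) := by
    rw [IsScalarTower.algebraMap_eq R W L]
    exact hWL.comp hW
  have : FaithfulSMul T₁ L := (faithfulSMul_iff_algebraMap_injective _ _).2 hTL
  have : IsFractionRing T₁ L := IsFractionRing.of_field _ _ fun x => by
    obtain ⟨w, w', hw', rfl⟩ := IsFractionRing.div_surjective (A := W) x
    obtain ⟨a, ha, s, hs, hsu, hsa⟩ := hT w
    obtain ⟨a', ha', s', hs', hsu', hsa'⟩ := hT w'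
    refine ⟨⟨a, ha⟩ * ⟨s', hs'⟩, ⟨a', ha'⟩ * ⟨s, hs⟩, ?_⟩
    change _ = algebraMap W L (a * s') / algebraMap W L (a' * s)
    have e1 : algebraMap W L s ≠ 0 := (hsu.map _).ne_zero
    have e2 : algebraMap W L s' ≠ 0 := (hsu'.map _).ne_zero
    have e3 : algebraMap W L w' ≠ 0 :=
      (map_ne_zero_iff _ hWL).2 (nonZeroDivisors.ne_zero hw')
    have e4 : a = s * w := hsa.symm
    have e5 : a' = s' * w' := hsa'.symm
    rw [div_eq_div_iff e3 (by rw [e5, map_mul, map_mul]; exact mul_ne_zero (mul_ne_zero e2 e3) e1),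
      ← map_mul, ← map_mul, e4, e5]
    congr 1
    ring
  letI : Algebra K L := (IsFractionRing.lift hRL : K →+* L).toAlgebra
  have hK : ∀ r, algebraMap R L r = algebraMap K L (algebraMap R K r) := fun r =>
    (IsFractionRing.lift_algebraMap hRL r).symm
  have : IsScalarTower R K L := IsScalarTower.of_algebraMap_eq hK
  have : IsScalarTower R T₁ L := IsScalarTower.of_algebraMap_eq fun r =>
    IsScalarTower.algebraMap_apply R W L r
  obtain ⟨hf, v, hv⟩ := h2 R T₁ K L z π hπ hzπ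
    (fun r hr => (hRD r).1 (by rw [← hqR, hzq]; exact hr)) fun t => by
      obtain ⟨r, r', hr', hr⟩ := hfr (q₁ t)
      refine ⟨r, r', hr', (hzq _).1 ?_⟩
      rw [map_sub, hqR, ← hr, Algebra.smul_def, map_mul, hqR, Algebra.smul_def, sub_self]
  refine ⟨L, inferInstance, inferInstance, inferInstance, hWL, fun r => ?_, hf,
    algebraMap T₁ L z, v, (map_ne_zero_iff _ hTL).2 ?_, hv⟩
  · rw [← IsScalarTower.algebraMap_apply, hK]
  · rintro rfl
    have h0 : algebraMap R T₁ π = 0 := zero_dvd_iff.1 hzπ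
    refine hπ.ne_zero (hRL ?_)
    rw [IsScalarTower.algebraMap_apply R T₁ L, h0, map_zero, map_zero]

end Pool.Agent.P.MP_46a8f8_ag.GU
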