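import Pool.Agent.P.MP_46a8f8_ag.GU.Qc

/-!
A prime element as the norm of an integral element; square roots.
-/

namespace Pool.Agent.P.MP_46a8f8_ag.GU

open TensorProduct Function IsLocalRing Polynomial

universe u

theorem pFin1i : S_Fin1i.{u} := by
  intro R T W D K _ _ _ _ _ _ _ _ _ _ _ _ _ _ _ _ _ _ _ _ _ _ q y π hπ hy0 hy hq hD hW hRD hfr
  have fD : Module.Finite R D :=
    Module.Finite.of_surjective (IsScalarTower.toAlgHom R T D).toLinearMap hD
  have mD : Finite (MaximalSpectrum D) := finite_maximalSpectrum R D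
  have hqs : Surjective q := fun d => by
    obtain ⟨t, rfl⟩ := hD d
    exact ⟨algebraMap T W t, q.commutes t⟩
  have mW : Finite (MaximalSpectrum W) :=
    Fin1P.finite_max (q : W →+* D) hqs y hy fun w hw => (hq w).1 hw
  obtain ⟨T₁, fT, hT⟩ := pZM T W
  have fR : Module.Finite R T₁ := Module.Finite.trans T T₁
  have mT : Finite (MaximalSpectrum T₁) := finite_maximalSpectrum R T₁
  let q₁ : T₁ →ₐ[T] D := q.comp T₁.val
  have hq₁ : Surjective q₁ := fun d => by
    obtain ⟨t, rfl⟩ := hD d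
    exact ⟨algebraMap T T₁ t, q₁.commutes t⟩
  have hqR : ∀ r, q₁ (algebraMap R T₁ r) = algebraMap R D r := fun r => by
    rw [IsScalarTower.algebraMap_apply R T T₁, q₁.commutes, ← IsScalarTower.algebraMap_apply]
  obtain ⟨z, hz⟩ := pLP T₁ (RingHom.ker (q₁ : T₁ →+* D)) fun 𝔫 h𝔫 => by
    by_cases hk : RingHom.ker (q₁ : T₁ →+* D) ≤ 𝔫
    · obtain ⟨a, ha, s, hs, hsu, hsa⟩ := hT y
      refine ⟨⟨a, ha⟩, (hq a).2 ⟨s, by rw [← hsa, mul_comm]⟩, fun b hb => ?_⟩
      obtain ⟨w, hw⟩ := (hq b).1 hb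
      obtain ⟨a', ha', s', hs', hsu', hsa'⟩ := hT w
      refine ⟨⟨s, hs⟩ * ⟨s', hs'⟩, Fin1P.not_mem (q₁ : T₁ →+* D) hq₁ h𝔫 hk ?_, ⟨a', ha'⟩,
        Subtype.ext ?_⟩
      · exact (hsu.mul hsu').map q
      · change s * s' * b = a * a'
        rw [hw, ← hsa, ← hsa']
        ring
    · obtain ⟨g, hg, hg'⟩ := SetLike.not_le_iff_exists.1 hk
      exact ⟨g, hg, fun b _ => ⟨g, hg', dvd_mul_right g b⟩⟩
  have hzq : ∀ t : T₁, q₁ t = 0 ↔ z ∣ t := fun t => by
    rw [← Ideal.mem_span_singleton]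
    change t ∈ RingHom.ker (q₁ : T₁ →+* D) ↔ _
    rw [hz]
  have hzπ : z ∣ algebraMap R T₁ π := (hzq _).1 (by rw [hqR, hRD])
  let L := FractionRing W
  have hWL : Injective (algebraMap W L) := IsFractionRing.injective W L
  have hTL : Injective (algebraMap T₁ L) := hWL.comp Subtype.val_injective
  have hRL : Injective (algebraMap R L) := by
    rw [IsScalarTower.algebraMap_eq R W L]
    exact hWL.comp hW
  have : FaithfulSMul T₁ L := (faithfulSMul_iff_algebraMap_injective _ _).2 hTL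
  have : IsFractionRing T₁ L := IsFractionRing.of_field _ _ fun x => by
    obtain ⟨w, w', hw', rfl⟩ := IsFractionRing.div_surjective (A := W) x
    obtain ⟨a, ha, s, hs, hsu, hsa⟩ := hT w
    obtain ⟨a', ha', s', hs', hsu', hsa'⟩ := hT w'
    refine ⟨⟨a, ha⟩ * ⟨s', hs'⟩, ⟨a', ha'⟩ * ⟨s, hs⟩, ?_⟩
    change _ = algebraMap W L (a * s') / algebraMap W L (a' * s)
    have e1 : algebraMap W L s ≠ 0 := (hsu.map _).ne_zero
    have e2 : algebraMap W L s' ≠ 0 := (hsu'.map _).ne_zero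
    have e3 : algebraMap W L w' ≠ 0 :=
      (map_ne_zero_iff _ hWL).2 (nonZeroDivisors.ne_zero hw')
    have e4 : a = s * w := hsa.symm
    have e5 : a' = s' * w' := hsa'.symm
    rw [div_eq_div_iff e3 (by rw [e5, map_mul, map_mul]; exact mul_ne_zero (mul_ne_zero e2 e3) e1),
      ← map_mul, ← map_mul, e4, e5]
    congr 1
    ring
  let : Algebra K L := (IsFractionRing.lift hRL : K →+* L).toAlgebra
  have hK : ∀ r, algebraMap R L r = algebraMap K L (algebraMap R K r) := fun r =>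
    (IsFractionRing.lift_algebraMap hRL r).symm
  have : IsScalarTower R K L := IsScalarTower.of_algebraMap_eq hK
  have : IsScalarTower R T₁ L := IsScalarTower.of_algebraMap_eq fun r =>
    IsScalarTower.algebraMap_apply R W L r
  obtain ⟨hf, v, hv⟩ := pNm R T₁ K L z π hπ hzπ
    (fun r hr => (hRD r).1 (by rw [← hqR, hzq]; exact hr)) fun t => by
      obtain ⟨r, r', hr', hr⟩ := hfr (q₁ t)
      refine ⟨r, r', hr', (hzq _).1 ?_⟩
      rw [map_sub, hqR, ← hr, Algebra.smul_def, map_mul, hqR, Algebra.smul_def, sub_self]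
  refine ⟨L, inferInstance, inferInstance, inferInstance, hWL, fun r => ?_, hf,
    algebraMap T₁ L z, v, (map_ne_zero_iff _ hTL).2 ?_, hv, ?_⟩
  · rw [← IsScalarTower.algebraMap_apply, hK]
  · rintro rfl
    have h0 : algebraMap R T₁ π = 0 := zero_dvd_iff.1 hzπ
    refine hπ.ne_zero (hRL ?_)
    rw [IsScalarTower.algebraMap_apply R T₁ L, h0, map_zero, map_zero]
  · rw [← IsScalarTower.algebraMap_eq R K L]
    exact (Algebra.IsIntegral.isIntegral (R := R) z).algebraMap

theorem pSqr : S_Sqr.{u} := by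
  intro T D _ _ _ _ _ _ y a c hq hc e
  have hm : (X ^ 2 - C a : T[X]).Monic := monic_X_pow_sub_C a two_ne_zero
  let P : StandardEtalePair T :=
    ⟨X ^ 2 - C a, hm, derivative (X ^ 2 - C a), 1, 0, 1, by simp⟩
  have h1 : P.HasMap c := ⟨by simp [P, ← e, pow_two], by
    have : aeval c P.g = 2 * c := by simp [P, one_add_one_eq_two, map_ofNat]
    rwa [this]⟩
  obtain ⟨T', _, _, g, q, h2, h3⟩ := pEN T D P.Ring y (P.lift c h1) hq
  let := q.toRingHom.toAlgebra
  refine ⟨T', inferInstance, inferInstance, inferInstance,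
    IsScalarTower.of_algebraMap_eq fun t => (q.commutes t).symm, h2, ⟨fun d => ?_, h3⟩, g P.X, ?_⟩
  · obtain ⟨t, rfl⟩ := hq.1 d
    exact ⟨algebraMap T T' t, q.commutes t⟩
  · have := (P.hasMap_X.map g).1
    simp only [P, map_sub, aeval_C, sub_eq_zero, pow_two] at this
    simpa using this.symm

end Pool.Agent.P.MP_46a8f8_ag.GU
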