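import Pool.Agent.P.MP_46a8f8_ag.GU.Ad
import Pool.Agent.P.MP_46a8f8_ag.GU.Tr
import Pool.Agent.P.MP_46a8f8_ag.GU.Sep

/-!
Hilbert 90 for the centre of an algebra with an involution of the second kind.
-/

namespace Pool.Agent.P.MP_46a8f8_ag.GU

open TensorProduct Function IsLocalRing

universe u

namespace H9P

variable {R S : Type u} [CommRing R] [CommRing S] [Algebra R S]

theorem exists_sys [IsDomain S] [Module.Finite R S] [Algebra.FormallyUnramified R S]
    (ι : S →ₐ[R] S) {s0 : S} (hs0 : ι s0 ≠ s0) :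
    ∃ F : Finset (S × S), ∑ p ∈ F, p.1 * p.2 = 1 ∧ ∑ p ∈ F, p.1 * ι p.2 = 0 := by
  obtain ⟨t, ht, ht1⟩ :=
    (Algebra.FormallyUnramified.iff_exists_tensorProduct (R := R) (S := S)).1 inferInstance
  obtain ⟨F, rfl⟩ := TensorProduct.exists_finset t
  refine ⟨F, ?_, ?_⟩
  · rw [← ht1, map_sum]
    exact Finset.sum_congr rfl fun p _ => (Algebra.TensorProduct.lmul'_apply_tmul _ _).symm
  · have := congrArg (Algebra.TensorProduct.productMap (AlgHom.id R S) ι) (ht s0)
    rw [map_mul, map_sub, map_sum, map_zero] at this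
    simp only [Algebra.TensorProduct.productMap_apply_tmul, AlgHom.id_apply, map_one, one_mul,
      mul_one] at this
    exact (mul_eq_zero.1 this).resolve_left (sub_ne_zero.2 hs0)

theorem main [IsLocalRing R] [IsDomain S] [Module.Finite R S] [Algebra.FormallyUnramified R S]
    (h2 : IsUnit (2 : R)) (ι : S →ₐ[R] S) (hιι : ∀ x, ι (ι x) = x)
    (hfix : ∀ x, ι x = x → ∃ r, algebraMap R S r = x) {s0 : S} (hs0 : ι s0 ≠ s0) {s : S}
    (hs : s * ι s = 1) : ∃ t : S, IsUnit t ∧ s * ι t = t := by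
  by_contra hne
  push Not at hne
  obtain ⟨n, hn⟩ := Ideal.exists_maximal S
  have hm : n.comap (algebraMap R S) = maximalIdeal R :=
    eq_maximalIdeal (Ideal.isMaximal_comap_of_isIntegral_of_isMaximal n)
  have h1 : ∀ t : S, s * ι t = t → t * ι t ∈ n := fun t ht => by
    obtain ⟨r, hr⟩ := hfix (t * ι t) (by rw [map_mul, hιι, mul_comm])
    have : r ∈ maximalIdeal R := fun hu =>
      hne t (isUnit_of_mul_isUnit_left (hr ▸ hu.map (algebraMap R S))) ht
    rw [← hm, Ideal.mem_comap, hr] at this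
    exact this
  have h3 : ∀ t t' : S, s * ι t = t → s * ι t' = t' → t * ι t' ∈ n := fun t t' ht ht' => by
    have e := h1 (t + t') (by rw [map_add, mul_add, ht, ht'])
    have e' := n.sub_mem (n.sub_mem e (h1 t ht)) (h1 t' ht')
    have e2 : (t + t') * ι (t + t') - t * ι t - t' * ι t' = 2 * (t * ι t') := by
      rw [map_add]
      linear_combination (ι t') * ht - (ι t) * ht'
    rw [e2] at e'
    have hu : IsUnit (2 : S) := by
      have := h2.map (algebraMap R S)
      rwa [map_ofNat] at this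
    exact (Ideal.unit_mul_mem_iff_mem n hu).1 e'
  obtain ⟨F, f1, f2⟩ := exists_sys ι hs0
  have hT : ∀ b : S, s * ι (b + s * ι b) = b + s * ι b := fun b => by
    rw [map_add, map_mul, hιι]
    linear_combination b * hs
  have f3 : ∑ p ∈ F, p.1 * (p.2 + s * ι p.2) = 1 := by
    have : ∑ p ∈ F, p.1 * (p.2 + s * ι p.2) =
        ∑ p ∈ F, p.1 * p.2 + s * ∑ p ∈ F, p.1 * ι p.2 := by
      rw [Finset.mul_sum, ← Finset.sum_add_distrib]
      exact Finset.sum_congr rfl fun p _ => by ring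
    rw [this, f1, f2, mul_zero, add_zero]
  have f4 := congrArg ι f3
  rw [map_one, map_sum] at f4
  refine hn.ne_top ((Ideal.eq_top_iff_one n).2 ?_)
  rw [← mul_one (1 : S)]
  nth_rewrite 1 [← f3]
  rw [← f4, Finset.sum_mul_sum]
  refine n.sum_mem fun p _ => n.sum_mem fun q _ => ?_
  rw [map_mul, mul_mul_mul_comm]
  exact n.mul_mem_left _ (h3 _ _ (hT _) (hT _))

end H9P

theorem pH9 : S_H9.{u} := by
  intro R S A _ _ _ _ _ _ _ _ s h hns hs
  obtain ⟨ι, hι⟩ := TrP.exists_iota pAzS h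
  have := h.az
  have := h.dom
  have := h.fin
  have := h.et
  have hi : Injective (algebraMap S A) := FaithfulSMul.algebraMap_injective S A
  have hιι : ∀ x, ι (ι x) = x := fun x => hi (by rw [hι, hι, star_star])
  have hfix : ∀ x, ι x = x → ∃ r, algebraMap R S r = x := fun x hx =>
    h.fix x (by rw [← hι, hx])
  obtain ⟨s0, hs0⟩ : ∃ s0, ι s0 ≠ s0 := by
    by_contra hc
    push Not at hc
    exact hns fun x => hfix x (hc x)
  obtain ⟨t, ⟨t, rfl⟩, ht⟩ := H9P.main h.two ι hιι hfix hs0 (s := s)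
    (hi (by rw [map_mul, hι, hs, map_one]))
  exact ⟨t, by rw [← hι, ← map_mul, ht]⟩

end Pool.Agent.P.MP_46a8f8_ag.GU
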