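import Pool.Agent.P.MP_46a8f8_ag.GU.Ad
import Pool.Agent.P.MP_46a8f8_ag.GU.GA
import Pool.Agent.P.MP_46a8f8_ag.GU.DomL
import Pool.Agent.P.MP_46a8f8_ag.GU.Sep

/-!
Comparison of two involutions that become isomorphic over the fraction field.
-/

namespace Pool.Agent.P.MP_46a8f8_ag.GU

open TensorProduct Function IsLocalRing

universe u

namespace InvP

section alg

variable {S A : Type u} [CommRing S] [Ring A] [Algebra S A] [StarRing A]

theorem star_comm (s : S) (x : A) : star (algebraMap S A s) * x = x * star (algebraMap S A s) := by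
  have := congrArg star (Algebra.commutes s (star x))
  rw [star_mul, star_mul, star_star] at this
  exact this.symm

/-- the multiplier of the element that intertwines two involutions -/
theorem cen_of {σ : A → A} (h2 : ∀ x, σ (σ x) = x) {g : Aˣ} (hg : ∀ y, σ y * g = g * star y)
    (y : A) : star (g : A) * (g⁻¹ : Aˣ) * y = y * (star (g : A) * (g⁻¹ : Aˣ)) := by
  have a1 := congrArg star (hg y)
  rw [star_mul, star_mul, star_star] at a1
  have a2 := hg (σ y)
  rw [h2] at a2
  have a3 : star (σ y) = (g⁻¹ : Aˣ) * (y * g) := by rw [a2, Units.inv_mul_cancel_left]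
  rw [a3] at a1
  rw [← mul_assoc y, ← a1]
  simp only [mul_assoc, Units.mul_inv, mul_one]

theorem cen_of' {σ : A → A} (h2 : ∀ x, σ (σ x) = x) {g : Aˣ} (hg : ∀ y, σ y * g = g * star y)
    {N : A} (hN : ∀ y, σ y * N = N * star y) (y : A) :
    N * (g⁻¹ : Aˣ) * y = y * (N * (g⁻¹ : Aˣ)) := by
  have a1 := hg (σ y)
  have a2 := hN (σ y)
  rw [h2] at a1 a2
  have a3 : star (σ y) = (g⁻¹ : Aˣ) * (y * g) := by rw [a1, Units.inv_mul_cancel_left]
  rw [← mul_assoc y, a2, a3]
  simp only [mul_assoc, Units.mul_inv, mul_one]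

end alg

section field

variable {R S A K : Type u} [CommRing R] [IsDomain R] [CommRing S] [Algebra R S] [Ring A]
  [Algebra S A] [Algebra R A] [Field K] [Algebra R K] [IsFractionRing R K]

attribute [local instance] GAP.alg

/-- an automorphism over the fraction field is inner -/
theorem inner (h1 : S_SN.{u}) (hG : GA R S A) [Module.Free R A] [Module.Finite R A]
    (φ : K ⊗[R] A ≃ₐ[K] K ⊗[R] A)
    (hφ : ∀ s : S, φ ((1 : K) ⊗ₜ[R] algebraMap S A s) = (1 : K) ⊗ₜ[R] algebraMap S A s) :
    ∃ (c c' : A) (d : R), d ≠ 0 ∧ c * c' = algebraMap R A d ∧ c' * c = algebraMap R A d ∧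
      ∀ x, φ x * (1 : K) ⊗ₜ[R] c = (1 : K) ⊗ₜ[R] c * x := by
  have := hG.tower
  have := hG.fin
  have := hG.freeA
  have hi : Injective (algebraMap R K) := IsFractionRing.injective R K
  have := finite_maximalSpectrum K (K ⊗[R] S)
  have : Module.Free (K ⊗[R] S) (K ⊗[R] A) := GAP.free_bc
  have : IsScalarTower K (K ⊗[R] S) (K ⊗[R] A) := GAP.tower_bc
  have : Module.Finite (K ⊗[R] S) (K ⊗[R] A) :=
    Module.Finite.of_restrictScalars_finite K (K ⊗[R] S) (K ⊗[R] A)
  have hc : ∀ z : K ⊗[R] S, φ (GAP.sm R S A K z) = GAP.sm R S A K z := fun z => by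
    induction z using TensorProduct.induction_on with
    | zero => simp
    | add z z' h h' => rw [map_add, map_add, h, h']
    | tmul o s =>
      have e : o ⊗ₜ[R] algebraMap S A s = o • ((1 : K) ⊗ₜ[R] algebraMap S A s) := by
        rw [smul_tmul', smul_eq_mul, mul_one]
      rw [GAP.sm_tmul, e, map_smul, hφ]
  obtain ⟨C, hC⟩ := h1 (K ⊗[R] S) (K ⊗[R] A) (AlgEquiv.ofRingEquiv (f := φ.toRingEquiv) hc)
    (GAP.az_bc hG.az)
  obtain ⟨s, c, hs⟩ := exists_smul_eq_one_tmul (A := A) (nonZeroDivisors R) K (C : K ⊗[R] A)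
  obtain ⟨s', c', hs'⟩ :=
    exists_smul_eq_one_tmul (A := A) (nonZeroDivisors R) K ((C⁻¹ : (K ⊗[R] A)ˣ) : K ⊗[R] A)
  have hal : ∀ r : R, (1 : K) ⊗ₜ[R] algebraMap R A r = algebraMap R K r • (1 : K ⊗[R] A) := by
    intro r
    rw [Algebra.algebraMap_eq_smul_one, tmul_smul, algebraMap_smul, Algebra.TensorProduct.one_def]
  refine ⟨c, c', s * s', mul_ne_zero (nonZeroDivisors.coe_ne_zero s)
    (nonZeroDivisors.coe_ne_zero s'), TorHP.one_tmul_inj hi ?_, TorHP.one_tmul_inj hi ?_,
    fun x => ?_⟩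
  · rw [← TorHP.one_tmul_mul, ← hs, ← hs', smul_mul_smul_comm, Units.mul_inv, hal, map_mul]
  · rw [← TorHP.one_tmul_mul, ← hs, ← hs', smul_mul_smul_comm, Units.inv_mul, hal, map_mul,
      mul_comm (algebraMap R K s')]
  · rw [← hs, mul_smul_comm, smul_mul_assoc]
    exact congrArg _ (hC x)

end field

end InvP

open InvP

theorem pInv (h1 : S_SN.{u}) (h2 : S_Cen.{u}) (h3 : S_H9.{u}) : S_Inv.{u} := by
  intro R S A K _ _ _ _ _ _ _ _ _ _ _ _ _ σ φ hA hσ hφ hcj
  have hG : GA R S A := pGA0 pAzS pFreeS R S A hA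
  have := hG.tower
  have := hG.dom
  have := hG.fin
  have := hG.free
  have := hG.freeA
  have := hA.az
  have := SA.free (R := R) (A := A)
  have := SA.fin (R := R) (A := A)
  have := finite_maximalSpectrum R S
  have hi : Injective (algebraMap R K) := IsFractionRing.injective R K
  have hiS : Injective (algebraMap S A) := FaithfulSMul.algebraMap_injective S A
  have hiR : Injective (algebraMap R A) := by
    rw [IsScalarTower.algebraMap_eq R S A, RingHom.coe_comp]
    exact hiS.comp (FaithfulSMul.algebraMap_injective R S)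
  have hct : ∀ a : A, conj σ ((1 : K) ⊗ₜ[R] a) = (1 : K) ⊗ₜ[R] σ a := fun a => rfl
  have hσS : ∀ s : S, σ (algebraMap S A s) = star (algebraMap S A s) := fun s => by
    obtain ⟨s', hs'⟩ := h2 S A _ hG.az (star_comm s)
    have e := hcj ((1 : K) ⊗ₜ[R] algebraMap S A s)
    rw [cj_tmul, hφ, hct, ← hs', hφ] at e
    exact (TorHP.one_tmul_inj hi e).symm.trans hs'
  have hψ : ∀ s : S, σ (star (algebraMap S A s)) = algebraMap S A s := fun s => by
    rw [← hσS, hσ.2]
  let ψ₀ : A ≃+* A :=
    { toFun := fun x => σ (star x)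
      invFun := fun x => star (σ x)
      left_inv := fun x => by simp only [hσ.2, star_star]
      right_inv := fun x => by simp only [hσ.2, star_star]
      map_mul' := fun x y => by rw [star_mul, hσ.1]
      map_add' := fun x y => by rw [star_add, map_add] }
  obtain ⟨g, hg0⟩ := h1 S A (AlgEquiv.ofRingEquiv (f := ψ₀) hψ) hG.az
  have hg : ∀ y, σ y * g = g * star y := fun y => by
    have e : σ (star (star y)) * g = g * star y := hg0 (star y)
    rwa [star_star] at e
  obtain ⟨s, hs⟩ := h2 S A _ hG.az (cen_of hσ.2 hg)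
  have hs1 : star (g : A) = algebraMap S A s * g := by rw [hs, Units.inv_mul_cancel_right]
  have hs2 : algebraMap S A s * star (algebraMap S A s) = 1 := by
    have e := congrArg star hs1
    rw [star_star, star_mul, hs1, mul_assoc, ← star_comm, ← mul_assoc] at e
    exact (Units.mul_left_inj g).1 (by rw [← e, one_mul])
  obtain ⟨c, c', d, hd, hc1, hc2, hc⟩ := inner h1 hG φ hφ
  have hN : ∀ y, σ y * (c * star c) = c * star c * star y := fun y => by
    obtain ⟨X, hX⟩ := φ.surjective ((1 : K) ⊗ₜ[R] y)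
    have e1 := congrArg (cj R A K) (hc X)
    rw [cj_mul, cj_mul, hX, cj_tmul, cj_tmul] at e1
    have e2 := hc (cj R A K X)
    rw [hcj, hX, hct] at e2
    refine TorHP.one_tmul_inj hi ?_
    rw [← TorHP.one_tmul_mul, ← TorHP.one_tmul_mul, ← mul_assoc, e2, mul_assoc, ← e1,
      ← mul_assoc, TorHP.one_tmul_mul, TorHP.one_tmul_mul]
  have hN0 : c * star c ≠ 0 := fun h0 => by
    have e : c' * (c * star c) * star c' = algebraMap R A (d * d) := by
      rw [← mul_assoc, hc2, mul_assoc, ← star_mul, hc2, SA.st, map_mul]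
    rw [h0, mul_zero, zero_mul] at e
    exact mul_ne_zero hd hd (hiR (by rw [← e, map_zero]))
  have hNs : star (c * star c) = c * star c := by rw [star_mul, star_star]
  obtain ⟨t, ht⟩ : ∃ t : Sˣ, algebraMap S A s * star (algebraMap S A t) = algebraMap S A t := by
    by_cases hsu : Surjective (algebraMap R S)
    · obtain ⟨l, hl⟩ := h2 S A _ hG.az (cen_of' hσ.2 hg hN)
      have e1 : c * star c = algebraMap S A l * g := by rw [hl, Units.inv_mul_cancel_right]
      have e2 : star (algebraMap S A l) = algebraMap S A l := by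
        obtain ⟨r, rfl⟩ := hsu l
        rw [← IsScalarTower.algebraMap_apply, SA.st]
      have e3 := hNs
      rw [e1, star_mul, e2, hs1, ← Algebra.commutes, ← mul_assoc, ← map_mul] at e3
      have e4 : l * s = l := hiS ((Units.mul_left_inj g).1 e3)
      have e5 : l ≠ 0 := fun h0 => hN0 (by rw [e1, h0, map_zero, zero_mul])
      have e6 : s = 1 := mul_left_cancel₀ e5 (by rw [e4, mul_one])
      exact ⟨1, by rw [e6, Units.val_one, map_one, star_one, mul_one]⟩
    · exact h3 R S A s hA hsu hs2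
  let h : Aˣ := Units.map (algebraMap S A : S →* A) t * g
  have hh : (h : A) = algebraMap S A t * g := rfl
  have hh1 : star (h : A) = h := by
    rw [hh, star_mul, hs1, mul_assoc, ← star_comm, ← mul_assoc, ht]
  have hh2 : ∀ y, σ y * h = h * star y := fun y => by
    rw [hh, ← mul_assoc, ← Algebra.commutes, mul_assoc, hg, mul_assoc]
  obtain ⟨l, hl⟩ := h2 S A _ hG.az (cen_of' hσ.2 hh2 hN)
  have e1 : c * star c = algebraMap S A l * h := by rw [hl, Units.inv_mul_cancel_right]
  have e3 := hNs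
  rw [e1, star_mul, hh1, ← star_comm] at e3
  obtain ⟨r, rfl⟩ := hA.fix l ((Units.mul_left_inj h).1 e3)
  rw [← IsScalarTower.algebraMap_apply, ← Algebra.smul_def] at e1
  refine ⟨h, c, c', r, d, hh1, fun h0 => hN0 ?_, hd, hh2, e1, hc1, hc2, hc⟩
  rw [e1, h0, zero_smul]

end Pool.Agent.P.MP_46a8f8_ag.GU
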