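import Pool.Agent.P.MP_46a8f8_ag.GU.Ad
import Pool.Agent.P.MP_46a8f8_ag.GU.GA
import Pool.Agent.P.MP_46a8f8_ag.GU.Sep

/-!
Isomorphisms of algebras with involution over the fraction field come from the ring.
-/

namespace Pool.Agent.P.MP_46a8f8_ag.GU

open TensorProduct Function IsLocalRing

universe u

namespace IsoPP

section

variable {R A : Type u} [CommRing R] [Ring A] [Algebra R A]

/-- the unit `1 ⊗ h` -/
noncomputable def ut (C : Type u) [CommRing C] [Algebra R C] (h : Aˣ) : (C ⊗[R] A)ˣ :=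
  Units.map (Algebra.TensorProduct.includeRight (R := R) (A := C) (B := A) : A →* C ⊗[R] A) h

theorem ut_val (C : Type u) [CommRing C] [Algebra R C] (h : Aˣ) :
    ((ut C h : (C ⊗[R] A)ˣ) : C ⊗[R] A) = (1 : C) ⊗ₜ[R] (h : A) := rfl

theorem one_tmul_alg (C : Type u) [CommRing C] [Algebra R C] (r : R) :
    (1 : C) ⊗ₜ[R] algebraMap R A r = algebraMap C (C ⊗[R] A) (algebraMap R C r) := by
  rw [Algebra.algebraMap_eq_smul_one, tmul_smul, Algebra.algebraMap_eq_smul_one (algebraMap R C r),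
    algebraMap_smul, Algebra.TensorProduct.one_def]

theorem one_tmul_smul (C : Type u) [CommRing C] [Algebra R C] (r : R) (a : A) :
    (1 : C) ⊗ₜ[R] (r • a) = algebraMap R C r • ((1 : C) ⊗ₜ[R] a) := by
  rw [tmul_smul, algebraMap_smul]

/-- the unit `1 ⊗ c` over the fraction field -/
noncomputable def uK (K : Type u) [Field K] [Algebra R K] (c c' : A) (d : R)
    (hd : algebraMap R K d ≠ 0) (h1 : c * c' = algebraMap R A d) (h2 : c' * c = algebraMap R A d) :
    (K ⊗[R] A)ˣ where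
  val := (1 : K) ⊗ₜ[R] c
  inv := (algebraMap R K d)⁻¹ • ((1 : K) ⊗ₜ[R] c')
  val_inv := by
    rw [mul_smul_comm, TorHP.one_tmul_mul, h1, one_tmul_alg,
      Algebra.algebraMap_eq_smul_one (algebraMap R K d), smul_smul, inv_mul_cancel₀ hd, one_smul]
  inv_val := by
    rw [smul_mul_assoc, TorHP.one_tmul_mul, h2, one_tmul_alg,
      Algebra.algebraMap_eq_smul_one (algebraMap R K d), smul_smul, inv_mul_cancel₀ hd, one_smul]

variable [StarRing A] [SA R A]

theorem star_smul (r : R) (a : A) : star (r • a) = r • star a :=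
  (HermP.stL R A).map_smul r a

/-- purity in terms of elements of `A` -/
theorem pur {K : Type u} [Field K] [Algebra R K] (hP : Pur R A R K) (h : Aˣ) (c : A) (F : R)
    (hh : star (h : A) = h) (hF : F ≠ 0) (hc : c * star c = F • (h : A)) :
    ∃ v : Rˣ, GP R A K (algebraMap R K (v * F)) := by
  refine hP (ut R h) ((1 : R) ⊗ₜ[R] c) F ?_ hF ?_
  · rw [ut_val, cj_tmul, hh]
  · rw [ut_val, cj_tmul, TorHP.one_tmul_mul, hc, tmul_smul]

/-- a hermitian unit which is a norm over the fraction field is a norm -/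
theorem herm [IsDomain R] {K : Type u} [Field K] [Algebra R K] [IsFractionRing R K]
    (hN : HermN R A) (h : Aˣ) (hh : star (h : A) = h) (y : (K ⊗[R] A)ˣ)
    (hy : (y : K ⊗[R] A) * cj R A K y = (1 : K) ⊗ₜ[R] (h : A)) :
    ∃ a : Aˣ, (a : A) * star (a : A) = h := by
  have := SA.free (R := R) (A := A)
  have hi : Injective (algebraMap R K) := IsFractionRing.injective R K
  obtain ⟨s, a, hs⟩ := exists_smul_eq_one_tmul (nonZeroDivisors R) K (y : K ⊗[R] A)
  obtain ⟨s', a', hs'⟩ := exists_smul_eq_one_tmul (nonZeroDivisors R) K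
    ((y⁻¹ : (K ⊗[R] A)ˣ) : K ⊗[R] A)
  refine hN h a a' s (s * s') hh (nonZeroDivisors.ne_zero s.2)
    (mul_ne_zero (nonZeroDivisors.ne_zero s.2) (nonZeroDivisors.ne_zero s'.2))
    (TorHP.one_tmul_inj hi ?_) (TorHP.one_tmul_inj hi ?_) (TorHP.one_tmul_inj hi ?_)
  · rw [← TorHP.one_tmul_mul, ← cj_tmul, ← hs, map_smul, smul_mul_smul_comm, hy, one_tmul_smul,
      map_mul]
  · rw [← TorHP.one_tmul_mul, ← hs, ← hs', smul_mul_smul_comm, Units.inv_mul, one_tmul_alg,
      Algebra.algebraMap_eq_smul_one (algebraMap R K _), map_mul, mul_comm]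
  · rw [← TorHP.one_tmul_mul, ← hs, ← hs', smul_mul_smul_comm, Units.mul_inv, one_tmul_alg,
      Algebra.algebraMap_eq_smul_one (algebraMap R K _), map_mul]

end

/-- conjugation by a unit as an algebra automorphism -/
def cjA (S : Type u) {A : Type u} [CommRing S] [Ring A] [Algebra S A] (a : Aˣ) : A ≃ₐ[S] A where
  toFun x := ((a⁻¹ : Aˣ) : A) * x * a
  invFun x := (a : A) * x * (a⁻¹ : Aˣ)
  left_inv x := by simp [mul_assoc]
  right_inv x := by simp [mul_assoc]
  map_mul' x y := by simp [mul_assoc]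
  map_add' x y := by simp [mul_add, add_mul]
  commutes' s := by
    rw [← Algebra.commutes, mul_assoc, Units.inv_mul, mul_one]

theorem cjA_apply (S : Type u) {A : Type u} [CommRing S] [Ring A] [Algebra S A] (a : Aˣ) (x : A) :
    cjA S a x = ((a⁻¹ : Aˣ) : A) * x * a := rfl

end IsoPP

open IsoPP in
theorem pIso (h1 : S_Br.{u}) (h2 : S_Inv.{u}) : S_Iso.{u} := by
  intro R S A K _ _ _ _ _ _ _ _ _ _ _ _ hA hN hP A' _ _ _ _ _ φ hA' hφ hφ'
  have := rDom R
  have := hA.tower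
  have := hA'.tower
  have hi : Injective (algebraMap R K) := IsFractionRing.injective R K
  obtain ⟨β⟩ := h1 R S A A' K φ hA hA' hφ
  let βR : A' ≃ₐ[R] A := β.restrictScalars R
  let σ : A →ₗ[R] A := βR.toLinearMap ∘ₗ HermP.stL R A' ∘ₗ βR.symm.toLinearMap
  have hσ : ∀ x, σ (β x) = β (star x) := fun x => by
    change β (star (β.symm (β x))) = _
    rw [AlgEquiv.symm_apply_apply]
  have hI : IsInvol σ := by
    refine ⟨fun x y => ?_, fun x => ?_⟩
    · obtain ⟨x, rfl⟩ := β.surjective x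
      obtain ⟨y, rfl⟩ := β.surjective y
      rw [← map_mul, hσ, hσ, hσ, star_mul, map_mul]
    · obtain ⟨x, rfl⟩ := β.surjective x
      rw [hσ, hσ, star_star]
  let βK : K ⊗[R] A' ≃ₐ[K] K ⊗[R] A :=
    Algebra.TensorProduct.congr (AlgEquiv.refl (R := K) (A₁ := K)) βR
  have hβK : ∀ (k : K) (x : A'), βK (k ⊗ₜ[R] x) = k ⊗ₜ[R] β x := fun k x => rfl
  have hc : ∀ y, βK (cj R A' K y) = conj σ (βK y) := fun y => by
    induction y using TensorProduct.induction_on with
    | zero => simp [conj]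
    | add x y hx hy =>
      rw [map_add, map_add, hx, hy, map_add]
      exact (map_add (σ.lTensor K) _ _).symm
    | tmul k x =>
      rw [cj_tmul, hβK, hβK, conj, LinearMap.lTensor_tmul, hσ]
  obtain ⟨h, c, c', F, d, hh, hF, hd, hσh, hcc, e1, e2, -⟩ :=
    h2 R S A K σ (φ.symm.trans βK) hA hI
      (fun s => by
        rw [AlgEquiv.trans_apply, ← hφ, AlgEquiv.symm_apply_apply, hβK, AlgEquiv.commutes, hφ])
      (fun x => by
        obtain ⟨x, rfl⟩ := φ.surjective x
        rw [AlgEquiv.trans_apply, AlgEquiv.trans_apply, ← hφ', AlgEquiv.symm_apply_apply,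
          AlgEquiv.symm_apply_apply, hc])
  obtain ⟨v, g, hg, -⟩ := pur hP h c F hh hF hcc
  have hd' : algebraMap R K d ≠ 0 := fun e => hd (hi (by rw [e, map_zero]))
  have hF' : algebraMap R K (v * F) ≠ 0 := fun e =>
    mul_ne_zero v.ne_zero hF (hi (by rw [e, map_zero]))
  have hg' := hg.inv (mul_inv_cancel₀ hF')
  let h' : Aˣ := Units.map (algebraMap R A : R →* A) v⁻¹ * h
  have hv : (h' : A) = ((v⁻¹ : Rˣ) : R) • (h : A) := by
    rw [Algebra.smul_def]
    rfl
  obtain ⟨a, ha⟩ := herm hN h' (by rw [hv, IsoPP.star_smul, hh]) (uK K c c' d hd' e1 e2 * g⁻¹) (by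
    have e : ((uK K c c' d hd' e1 e2 : (K ⊗[R] A)ˣ) : K ⊗[R] A) = (1 : K) ⊗ₜ[R] c := rfl
    rw [Units.val_mul, cj_mul, mul_assoc, ← mul_assoc ((g⁻¹ : (K ⊗[R] A)ˣ) : K ⊗[R] A), hg', e,
      ← Algebra.smul_def, mul_smul_comm, cj_tmul, TorHP.one_tmul_mul, hcc, hv, one_tmul_smul,
      one_tmul_smul, smul_smul]
    congr 1
    rw [inv_mul_eq_iff_eq_mul₀ hF', ← map_mul, mul_right_comm, Units.mul_inv, one_mul])
  refine ⟨β.trans (cjA S a), fun x => ?_⟩
  rw [AlgEquiv.trans_apply, AlgEquiv.trans_apply, cjA_apply, cjA_apply, ← hσ]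
  have k1 : σ (β x) * h' = h' * star (β x) := by
    rw [hv, mul_smul_comm, smul_mul_assoc, hσh]
  have k2 : star (a : A) * star ((a⁻¹ : Aˣ) : A) = 1 := by
    rw [← star_mul, Units.inv_mul, star_one]
  rw [← ha] at k1
  rw [star_mul, star_mul]
  calc ((a⁻¹ : Aˣ) : A) * σ (β x) * a
      = ((a⁻¹ : Aˣ) : A) * (σ (β x) * (a * star (a : A))) * star ((a⁻¹ : Aˣ) : A) := by
        rw [mul_assoc, mul_assoc, mul_assoc, mul_assoc, k2, mul_one]
    _ = star (a : A) * (star (β x) * star ((a⁻¹ : Aˣ) : A)) := by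
        rw [k1, mul_assoc (a : A), Units.inv_mul_cancel_left, mul_assoc]

open IsoPP in
theorem pAdA (h1 : S_Inv.{u}) (h2 : S_Cen.{u}) : S_AdA.{u} := by
  intro R S A K _ _ _ _ _ _ _ _ _ _ _ _ _ hA hP hG φ hφ hφ'
  have := hA.tower
  have := hA.dom
  have := hA.az
  have hi : Injective (algebraMap R K) := IsFractionRing.injective R K
  have hGA := pGA0 pAzS pFreeS R S A hA
  have := hGA.freeA
  obtain ⟨h, c, c', F, d, hh, hF, hd, hσh, hcc, e1, e2, hφc⟩ :=
    h1 R S A K (HermP.stL R A) φ hA ⟨fun x y => star_mul x y, fun x => star_star x⟩ hφ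
      (fun x => by rw [hφ', cj_eq_conj (fun _ => rfl)])
  obtain ⟨s, hs⟩ := h2 S A h hGA.az fun x => by
    have := hσh (star x)
    rw [star_star] at this
    rw [← this]
    exact congrArg (· * (h : A)) (star_star x)
  obtain ⟨r, hr⟩ := hA.fix s (by rw [hs, hh])
  have hr' : algebraMap R A r = h := by
    rw [IsScalarTower.algebraMap_apply R S A, hr, hs]
  have : Nontrivial A := (FaithfulSMul.algebraMap_injective S A).nontrivial
  have hr0 : r ≠ 0 := fun e => h.ne_zero (by rw [← hr', e, map_zero])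
  have hcc' : c * star c = (F * r) • ((1 : Aˣ) : A) := by
    rw [hcc, ← hr', Algebra.algebraMap_eq_smul_one, smul_smul, Units.val_one]
  obtain ⟨v, g, hg, hg1⟩ := pur hP 1 c (F * r) (by rw [Units.val_one, star_one])
    (mul_ne_zero hF hr0) hcc'
  have hd' : algebraMap R K d ≠ 0 := fun e => hd (hi (by rw [e, map_zero]))
  have hF' : algebraMap R K (F * r) ≠ 0 := fun e =>
    mul_ne_zero hF hr0 (hi (by rw [e, map_zero]))
  have e : ((uK K c c' d hd' e1 e2 : (K ⊗[R] A)ˣ) : K ⊗[R] A) = (1 : K) ⊗ₜ[R] c := rfl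
  have hy : Sml R A K (uK K c c' d hd' e1 e2) (algebraMap R K (F * r)) := by
    rw [Sml, e, cj_tmul, TorHP.one_tmul_mul, hcc', Units.val_one, ← Algebra.algebraMap_eq_smul_one,
      one_tmul_alg]
  have hy' := hy.inv (mul_inv_cancel₀ hF')
  have hu := hg.mul hy'
  rw [map_mul, mul_inv_cancel_right₀ hF'] at hu
  obtain ⟨a, ha, ha'⟩ := hG v _ v.isUnit hu
  refine ⟨a, v, ha, ?_⟩
  have k : φ.toLinearMap = inn K (uK K c c' d hd' e1 e2) := by
    refine LinearMap.ext fun x => ?_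
    rw [inn_apply, ← mul_assoc, e, ← hφc, ← e, Units.mul_inv_cancel_right]
    rfl
  rw [ha', dI_mul _ hy', hg1, one_mul, k]
  exact dI_inv hy

end Pool.Agent.P.MP_46a8f8_ag.GU
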