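import Pool.Agent.P.MP_46a8f8_ag.GU.Ad
import Pool.Agent.P.MP_46a8f8_ag.Model
import Pool.Agent.P.MP_46a8f8_ag.Dom
import Pool.Agent.P.MP_46a8f8_ag.CurveB

/-!
A curve of embedding dimension two is a principal divisor on a finite cover.
-/

namespace Pool.Agent.P.MP_46a8f8_ag.GU

open Function IsLocalRing

universe u

namespace Mod2P

theorem dim_le {R T : Type u} [CommRing R] [CommRing T] [Algebra R T] [Algebra.IsIntegral R T] :
    ringKrullDim T ≤ ringKrullDim R :=
  Order.krullDim_le_of_strictMono (PrimeSpectrum.comap (algebraMap R T)) fun I J h =>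
    Ideal.IsIntegral.comap_lt_comap (R := R) (I := I.asIdeal) (J := J.asIdeal) h

/-- a finite algebra of full dimension over a domain is faithful -/
theorem inj {O T : Type u} [CommRing O] [IsDomain O] [CommRing T] [Algebra O T]
    [Module.Finite O T] (hd : ringKrullDim O = 2) {𝔫 : Ideal T} (h𝔫 : 𝔫 ≠ ⊤)
    (hh : 𝔫.height = (2 : ℕ)) : Injective (algebraMap O T) := by
  refine (injective_iff_map_eq_zero _).2 fun r hr => by_contra fun h0 => ?_
  let ι : O ⧸ Ideal.span {r} →+* T := Ideal.Quotient.lift _ (algebraMap O T) fun a ha => by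
    obtain ⟨c, rfl⟩ := Ideal.mem_span_singleton.1 ha
    rw [map_mul, hr, zero_mul]
  letI : Algebra (O ⧸ Ideal.span {r}) T := ι.toAlgebra
  have : IsScalarTower O (O ⧸ Ideal.span {r}) T := IsScalarTower.of_algebraMap_eq fun _ => rfl
  have : Module.Finite (O ⧸ Ideal.span {r}) T := Module.Finite.of_restrictScalars_finite O _ _
  have h1 := ringKrullDim_quotient_succ_le_of_nonZeroDivisor (mem_nonZeroDivisors_of_ne_zero h0)
  have h2 := (Ideal.height_le_ringKrullDim_of_ne_top h𝔫).trans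
    (dim_le (R := O ⧸ Ideal.span {r}) (T := T))
  rw [hh] at h2
  have h3 := (add_le_add h2 (le_refl 1)).trans h1
  rw [hd] at h3
  exact absurd h3 (by decide)

/-- a prime inside a regular point of height two is locally principal -/
theorem loc (h1 : S_Ht1.{u}) {T : Type u} [CommRing T] [IsNoetherianRing T] {q 𝔫 : Ideal T}
    [q.IsPrime] [𝔫.IsPrime] (hle : q ≤ 𝔫) (hne : q ≠ 𝔫) (hr : RegAt T 𝔫 2) :
    ∃ g ∈ q, ∀ b ∈ q, ∃ s, s ∉ 𝔫 ∧ g ∣ s * b := by
  let L := Localization.AtPrime 𝔫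
  obtain ⟨a1, a2⟩ := (regAt T L 𝔫 2).1 hr
  have hdis : Disjoint (𝔫.primeCompl : Set T) q :=
    Set.disjoint_left.2 fun x hx hq => hx (hle hq)
  have hp : (q.map (algebraMap T L)).IsPrime :=
    IsLocalization.isPrime_of_isPrime_disjoint 𝔫.primeCompl L q inferInstance hdis
  obtain ⟨g', hg'⟩ := h1 L (q.map (algebraMap T L)) a2.le hp fun e => hne (by
    rw [← IsLocalization.under_map_of_isPrime_disjoint 𝔫.primeCompl L inferInstance hdis, e]
    exact Localization.AtPrime.under_maximalIdeal)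
  have h2 : g' ∈ q.map (algebraMap T L) := hg' ▸ Submodule.mem_span_singleton_self g'
  obtain ⟨⟨g, s⟩, h3⟩ := (IsLocalization.mem_map_algebraMap_iff 𝔫.primeCompl L).1 h2
  refine ⟨g, g.2, fun b hb => ?_⟩
  have h4 : algebraMap T L b ∈ Submodule.span L {g'} := hg' ▸ Ideal.mem_map_of_mem _ hb
  obtain ⟨c, hc⟩ := Submodule.mem_span_singleton.1 h4
  obtain ⟨⟨c1, c2⟩, h5⟩ := IsLocalization.surj 𝔫.primeCompl c
  have h6 : algebraMap T L (c2 * s * b) = algebraMap T L (g * c1) := by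
    rw [map_mul, map_mul, map_mul, ← hc, ← h3, ← h5, smul_eq_mul]
    ring
  obtain ⟨t, ht⟩ := (IsLocalization.eq_iff_exists 𝔫.primeCompl L).1 h6
  exact ⟨(t * c2 * s : 𝔫.primeCompl), (t * c2 * s).2, t * c1, by
    push_cast
    linear_combination ht⟩

end Mod2P

open Mod2P in
theorem pMod2 (h1 : S_Ht1.{u}) (h2 : S_LP.{u}) : S_Mod2.{u} := by
  intro O D _ _ _ _ _ _ hd hD hni hE
  have := rDom O
  have hO : RegAt O (maximalIdeal O) 2 := by
    have : IsLocalization.AtPrime O (maximalIdeal O) :=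
      IsLocalization.of_le_isUnit fun x hx =>
        (IsUnit.mem_submonoid_iff x).2 (by simpa using hx)
    exact (regAt O O (maximalIdeal O) 2).2 ⟨inferInstance, hd⟩
  obtain ⟨S, _, _, _, σ, hσ, hreg⟩ := model cut O D 2 hO hE
  have : IsNoetherianRing S := isNoetherianRing_alg O S
  letI : Algebra S D := (σ : S →+* D).toAlgebra
  obtain ⟨𝔰, d1, d2, d3⟩ := dom regAt regFlat rDom S S D (Algebra.ofId S D) 1 1 2 hσ
    (by simp) (map_one _) (fun z hz => by
      rw [one_mul]
      exact Ideal.mem_map_of_mem (algebraMap S S) hz) (fun 𝔫 _ _ => inferInstance) hreg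
  let T := S ⧸ 𝔰
  let mk : S →+* T := Ideal.Quotient.mk 𝔰
  let τ : T →ₐ[O] D := Ideal.Quotient.liftₐ 𝔰 σ fun a ha => d2 ha
  have hτ : (τ : T →+* D).comp mk = (Algebra.ofId S D : S →+* D) := RingHom.ext fun _ => rfl
  have hτs : Surjective (τ : T →+* D) := fun d => by
    obtain ⟨t, rfl⟩ := hσ d
    exact ⟨mk t, rfl⟩
  have : Module.Finite O T := Module.Finite.of_surjective
    (Ideal.Quotient.mkₐ O 𝔰).toLinearMap (Ideal.Quotient.mkₐ_surjective O 𝔰)
  have : IsNoetherianRing T := isNoetherianRing_alg O T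
  have : Finite (MaximalSpectrum T) := finite_maximalSpectrum O T
  have hT : ∀ 𝔫 : Ideal D, 𝔫.IsMaximal → RegAt T (𝔫.comap (τ : T →+* D)) 2 := fun 𝔫 h𝔫 => by
    have := d3 𝔫 h𝔫
    rwa [← hτ, ← Ideal.comap_comap,
      Ideal.map_comap_of_surjective mk Ideal.Quotient.mk_surjective] at this
  have hinj : Injective (algebraMap O T) := by
    obtain ⟨𝔫, h𝔫⟩ := Ideal.exists_maximal D
    exact inj hd (Ideal.comap_ne_top _ h𝔫.ne_top) (hT 𝔫 h𝔫).1
  have hq : (RingHom.ker (τ : T →+* D)).IsPrime := RingHom.ker_isPrime _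
  obtain ⟨z, hz⟩ := h2 T (RingHom.ker (τ : T →+* D)) fun 𝔫 h𝔫 => by
    by_cases h : RingHom.ker (τ : T →+* D) ≤ 𝔫
    · refine loc h1 h (fun e => CurveBP.not_max _ hτs hD (e ▸ h𝔫)) ?_
      have h3 := CurveBP.comap_map _ hτs h
      rcases Ideal.map_eq_top_or_isMaximal_of_surjective _ hτs h𝔫 with h4 | h4
      · rw [h4, Ideal.comap_top] at h3
        exact absurd h3.symm h𝔫.ne_top
      · rw [← h3]
        exact hT _ h4
    · obtain ⟨g, g1, g2⟩ := SetLike.not_le_iff_exists.1 h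
      exact ⟨g, g1, fun b _ => ⟨g, g2, dvd_mul_right g b⟩⟩
  have hz' : ∀ t : T, τ t = 0 ↔ z ∣ t := fun t => by
    rw [← Ideal.mem_span_singleton, ← Ideal.submodule_span_eq, ← hz]
    rfl
  letI : Algebra T D := (τ : T →+* D).toAlgebra
  refine ⟨T, inferInstance, inferInstance, inferInstance, inferInstance,
    IsScalarTower.of_algebraMap_eq fun r => (τ.commutes r).symm, z, inferInstance, hinj,
    fun h0 => hni ((injective_iff_map_eq_zero _).2 fun r hr => hinj ?_), hτs, hz'⟩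
  rw [map_zero, ← zero_dvd_iff, ← h0, ← hz', τ.commutes, hr]

end Pool.Agent.P.MP_46a8f8_ag.GU
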