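import Pool.Agent.P.MP_46a8f8_ag.GU.Ad
import Pool.Agent.P.MP_46a8f8_ag.GU.Fin2

/-!
Package NP: the norm principle for multipliers of similitudes over a field.
-/

namespace Pool.Agent.P.MP_46a8f8_ag.GU

open TensorProduct Function IntermediateField

universe u

namespace NPP

variable {K A : Type u} [Field K] [Ring A] [Algebra K A] [StarRing A] [SA K A]
  {τ : A →ₗ[K] K} {ε : ℤˣ}

/-- over a field a Lagrangian splits -/
theorem hyp_of_lag {E : FM K A K K} (h : E.Sp ε) (hl : E.HasLag) : E.Hyp := by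
  obtain ⟨N, hN⟩ := hl
  have := h.good.fin
  obtain ⟨e, he, -⟩ := pProj K A K E ε N h.good h.perf hN inferInstance inferInstance fun ψ => by
    obtain ⟨ψ', h'⟩ := LinearMap.exists_extend ψ
    obtain ⟨x, hx⟩ := h.perf.exists ψ'
    exact ⟨x, fun y => (hx y).trans (LinearMap.congr_fun h' y)⟩
  exact ⟨e, he⟩

theorem j_of_lag (ht : Trc τ ε) (hl : (HermP.Eh τ (1 : A)).HasLag) :
    ∃ j : A, star j = -j ∧ j * j = 1 := by
  obtain ⟨e, he, h2, h3⟩ := hyp_of_lag (HermP.eh_sp ht.comm ht.perf ht.st 1 (star_one A)) hl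
  have f1 : ∀ x : A, e x = x * e (1 : A) := fun x => by
    have : e (x * 1) = x * e (1 : A) := he x (1 : A)
    rwa [mul_one] at this
  obtain ⟨p, hp⟩ : ∃ p : A, e (1 : A) = p := ⟨_, rfl⟩
  have f2 : p * p = p := by
    have := h2 (1 : A)
    rwa [f1, hp] at this
  have f3 : p + star p = 1 := HermP.tr_ext ht.perf fun y => by
    have : τ (e (1 : A) * 1 * star y) + τ (1 * 1 * star (e y : A)) = τ (1 * 1 * star y) :=
      h3 (1 : A) y
    rw [f1 y, hp, star_mul, mul_one, mul_one, one_mul, one_mul, ← map_add, ← add_mul] at this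
    rw [this, one_mul]
  have f4 : star p = 1 - p := eq_sub_of_add_eq' f3
  refine ⟨p + p - 1, ?_, ?_⟩
  · rw [star_sub, star_add, star_one, f4]
    abel
  · simp only [mul_sub, sub_mul, mul_add, add_mul, f2, mul_one, one_mul]
    abel

theorem hy_map {C C' : Type u} [CommRing C] [Algebra K C] [CommRing C'] [Algebra K C']
    (f : C →ₐ[K] C') (h : Hy K A C) : Hy K A C' := by
  obtain ⟨j, h1, h2⟩ := h
  exact ⟨mp A f j, by rw [← mp_cj, h1, map_neg], by rw [← map_mul, h2, map_one]⟩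

theorem j_of_self (h : Hy K A K) : ∃ j : A, star j = -j ∧ j * j = 1 := by
  obtain ⟨j, h1, h2⟩ := h
  have e : ∀ x, Algebra.TensorProduct.lid K A (cj K A K x) =
      star (Algebra.TensorProduct.lid K A x) := fun x => by
    induction x using TensorProduct.induction_on with
    | zero => simp
    | add x y hx hy => simp only [map_add, hx, hy, star_add]
    | tmul c a =>
      rw [cj_tmul, Algebra.TensorProduct.lid_tmul, Algebra.TensorProduct.lid_tmul,
        HermP.star_smul']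
  exact ⟨Algebra.TensorProduct.lid K A j, by rw [← e, h1, map_neg],
    by rw [← map_mul, h2, map_one]⟩

/-- descent to an intermediate field -/
theorem down (F L : Type u) [Field F] [Algebra K F] [Field L] [Algebra K L] [Algebra F L]
    [IsScalarTower K F L] (ht : Trc τ ε) (h : Hy K A L)
    (H : ∀ (B : Type u) [Ring B] [Algebra F B] [StarRing B] [SA F B] (σ : B →ₗ[F] F),
      Trc σ ε → Hy F B L → ∃ j : B, star j = -j ∧ j * j = 1) : Hy K A F := by
  let := bcStar K A F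
  have := (pBcg K A F).1
  obtain ⟨σ, hσ⟩ := (pBcg K A F).2 τ ε ht
  obtain ⟨j, h1, h2⟩ := h
  refine H (F ⊗[K] A) σ hσ ⟨(can K A L F).symm j, (can K A L F).injective ?_, ?_⟩
  · rw [can_cj, map_neg, AlgEquiv.apply_symm_apply, h1]
  · rw [← map_mul, h2, map_one]

theorem of_j {j : A} (h1 : star j = -j) (h2 : j * j = 1) {μ : K} (hμ : μ ≠ 0) :
    ∃ g : Aˣ, (g : A) * star (g : A) = algebraMap K A μ := by
  have h0 : (2 : K) ≠ 0 := (SA.two (R := K) (A := A)).ne_zero
  have e : ∀ a b : K, (a • (1 : A) + b • j) * (a • (1 : A) + (-b) • j) = (a * a - b * b) • 1 :=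
    fun a b => by
      simp only [mul_add, add_mul, smul_mul_smul_comm, mul_one, one_mul, h2]
      module
  have e1 := e ((1 + μ) / 2) ((1 - μ) / 2)
  have e2 := e ((1 + μ) / 2) (-((1 - μ) / 2))
  rw [show (1 + μ) / 2 * ((1 + μ) / 2) - (1 - μ) / 2 * ((1 - μ) / 2) = μ by
    field_simp; ring] at e1
  rw [neg_neg, neg_mul_neg, show (1 + μ) / 2 * ((1 + μ) / 2) - (1 - μ) / 2 * ((1 - μ) / 2) = μ by
    field_simp; ring] at e2
  refine ⟨⟨_, μ⁻¹ • _, by rw [mul_smul_comm, e1, smul_smul, inv_mul_cancel₀ hμ, one_smul],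
    by rw [smul_mul_assoc, e2, smul_smul, inv_mul_cancel₀ hμ, one_smul]⟩, ?_⟩
  refine Eq.trans ?_ (e1.trans (Algebra.algebraMap_eq_smul_one μ).symm)
  simp only [star_add, HermP.star_smul', star_one, h1, smul_neg, neg_smul]

theorem of_lag (ht : Trc τ ε) (hrk : Rk K A) {μ : K} (hμ : μ ≠ 0)
    (hl : ((HermP.Eh τ (1 : A)).sum (HermP.Eh τ (algebraMap K A μ)).neg).HasLag) :
    ∃ g : Aˣ, (g : A) * star (g : A) = algebraMap K A μ := by
  have s1 : (HermP.Eh τ (1 : A)).Sp ε := HermP.eh_sp ht.comm ht.perf ht.st 1 (star_one A)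
  have s2 : (HermP.Eh τ (algebraMap K A μ)).Sp ε := HermP.eh_sp ht.comm ht.perf ht.st
    (Units.map (algebraMap K A : K →* A) (Units.mk0 μ hμ)) (SA.st μ)
  obtain ⟨e, he, hb⟩ := (allGraph K A _ _ ε hrk s1 s2 rfl (hyp_of_lag (s1.sum s2.neg) hl)).symm
  have f1 : ∀ x : A, e x = x * e (1 : A) := fun x => by
    have : e (x * 1) = x * e (1 : A) := he x (1 : A)
    rwa [mul_one] at this
  have f2 : ∀ x : A, e.symm x = x * e.symm (1 : A) := fun x => by
    have : e.symm (x * 1) = x * e.symm (1 : A) := he.symm x (1 : A)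
    rwa [mul_one] at this
  refine ⟨⟨e (1 : A), e.symm (1 : A), ?_, ?_⟩, HermP.tr_ext ht.perf fun y => ?_⟩
  · rw [← f2, e.symm_apply_apply]
  · rw [← f1, e.apply_symm_apply]
  · have : τ (e (1 : A) * 1 * star (e y : A)) = τ (1 * algebraMap K A μ * star y) := hb (1 : A) y
    rwa [f1 y, star_mul, mul_one, one_mul, ← mul_assoc] at this

theorem mul_sq {μ ν : K} (hν : ν ≠ 0)
    (h : ∃ g : Aˣ, (g : A) * star (g : A) = algebraMap K A μ) :
    ∃ g : Aˣ, (g : A) * star (g : A) = algebraMap K A (ν * ν * μ) := by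
  obtain ⟨g, hg⟩ := h
  refine ⟨Units.map (algebraMap K A : K →* A) (Units.mk0 ν hν) * g, ?_⟩
  change algebraMap K A ν * g * star (algebraMap K A ν * g) = _
  rw [star_mul, SA.st, mul_assoc, ← mul_assoc (g : A), hg, ← map_mul, ← map_mul, mul_comm μ,
    mul_assoc]

end NPP

open NPP

theorem pNP2 (h1 : S_NP1.{u}) : S_NP2.{u} := by
  intro K A L _ _ _ _ _ _ _ _ τ ε ht hy ho
  induction hn : Module.finrank K L using Nat.strong_induction_on generalizing K A with
  | _ n ih =>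
  by_cases hs : Surjective (algebraMap K L)
  · exact j_of_self (hy_map (AlgEquiv.ofBijective (Algebra.ofId K L)
      ⟨(algebraMap K L).injective, hs⟩).symm.toAlgHom hy)
  obtain ⟨a, ha⟩ := not_forall.1 hs
  have hi : IsIntegral K a := Algebra.IsIntegral.isIntegral a
  have e := Module.finrank_mul_finrank K K⟮a⟯ L
  rw [← e, Nat.odd_mul] at ho
  have h2 : Module.finrank K K⟮a⟯ ≠ 1 := fun h =>
    ha (mem_bot.1 (finrank_adjoin_simple_eq_one_iff.1 h))
  have h3 : Module.finrank K⟮a⟯ L < n := by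
    have a1 := ho.1.pos
    have a2 := ho.2.pos
    rw [← hn, ← e]
    exact (Nat.lt_mul_iff_one_lt_left a2).2 (by omega)
  refine j_of_lag ht ((h1 K A K⟮a⟯ τ ε (adjoin.powerBasis hi) ht
    (down K⟮a⟯ L ht hy fun B _ _ _ _ σ hσ hB => ih _ h3 K⟮a⟯ B σ hσ hB ho.2 rfl)).1 ?_)
  rw [← (adjoin.powerBasis hi).finrank]
  exact ho.1

theorem pNP (h1 : S_NP1.{u}) (h2 : S_NP2.{u}) : S_NP.{u} := by
  intro K A L _ _ _ _ _ _ _ _ τ ε f ht hrk hy hf
  have hi : IsIntegral K f := Algebra.IsIntegral.isIntegral f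
  have h0 : Algebra.norm K (AdjoinSimple.gen K f) ≠ 0 :=
    Algebra.norm_ne_zero_iff.2 fun h => hf (congrArg Subtype.val h)
  rw [Algebra.norm_eq_norm_adjoin K f]
  rcases Nat.even_or_odd (Module.finrank K⟮f⟯ L) with ⟨k, hk⟩ | ho
  · rw [hk, pow_add, ← mul_one (_ * _)]
    exact mul_sq (pow_ne_zero k h0) ⟨1, by simp⟩
  have hF := h1 K A K⟮f⟯ τ ε (adjoin.powerBasis hi) ht
    (down K⟮f⟯ L ht hy fun B _ _ _ _ σ hσ hB => h2 K⟮f⟯ B L σ ε hσ hB ho)
  obtain ⟨k, hk⟩ := ho
  rw [hk, pow_succ, two_mul, pow_add]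
  refine mul_sq (pow_ne_zero k h0) ?_
  rcases Nat.even_or_odd (adjoin.powerBasis hi).dim with he | ho
  · exact of_lag ht hrk h0 (hF.2 he)
  · obtain ⟨j, a1, a2⟩ := j_of_lag ht (hF.1 ho)
    exact of_j a1 a2 h0

end Pool.Agent.P.MP_46a8f8_ag.GU
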