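import Pool.Agent.P.MP_46a8f8_ag.GU.Ad

/-!
Package NP1: the transfer of a hyperbolic involution along a simple extension.
-/

namespace Pool.Agent.P.MP_46a8f8_ag.GU

open TensorProduct Function

universe u

namespace NP1P

variable {K A L : Type u} [Field K] [Ring A] [Algebra K A] [Field L] [Algebra K L]

theorem coord_pow (pb : PowerBasis K L) (i : Fin pb.dim) {j : ℕ} (hj : j < pb.dim) :
    pb.basis.coord i (pb.gen ^ j) = if j = i then 1 else 0 := by
  have e : pb.gen ^ j = pb.basis ⟨j, hj⟩ := (pb.basis_eq_pow ⟨j, hj⟩).symm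
  rw [e, Module.Basis.coord_apply, Module.Basis.repr_self, Finsupp.single_apply]
  simp only [Fin.ext_iff]

/-- the linear form which kills the positive powers of the generator -/
theorem ex_form (pb : PowerBasis K L) : ∃ s : L →ₗ[K] K, s 1 = 1 ∧
    (∀ j, 0 < j → j < pb.dim → s (pb.gen ^ j) = 0) ∧
    (Even pb.dim → s (pb.gen ^ pb.dim) = -Algebra.norm K pb.gen) := by
  refine ⟨pb.basis.coord ⟨0, pb.dim_pos⟩, ?_, fun j h0 hj => ?_, fun he => ?_⟩
  · rw [← pow_zero pb.gen, coord_pow pb _ pb.dim_pos, if_pos rfl]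
  · rw [coord_pow pb _ hj, if_neg h0.ne']
  · rw [Algebra.PowerBasis.norm_gen_eq_coeff_zero_minpoly, he.neg_one_pow, one_mul,
      ← pb.minpolyGen_eq, PowerBasis.minpolyGen, Polynomial.coeff_sub, Polynomial.coeff_X_pow,
      if_neg pb.dim_pos.ne, zero_sub, neg_neg, Polynomial.finsetSum_coeff,
      Finset.sum_eq_single ⟨0, pb.dim_pos⟩ (fun i _ hi => ?_) fun h => absurd (Finset.mem_univ _) h]
    · simp
    · rw [Polynomial.coeff_C_mul_X_pow, if_neg fun h => hi (Fin.ext h.symm)]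

variable (K A) in
/-- a free module -/
@[reducible] def piRM (p : ℕ) : RM K A K where
  M := Fin p → A
  ρ := Module.toModuleEnd K (Fin p → A)
  alg r m := algebraMap_smul A r m

variable {M : Type u} [AddCommGroup M] [Module K M]

/-- the map attached to a family of elements of `L` -/
def iF (t : L →ₗ[K] A →ₗ[K] M) {p : ℕ} (l : Fin p → L) : (Fin p → A) →ₗ[K] M :=
  ∑ j, t (l j) ∘ₗ LinearMap.proj j

theorem iF_apply (t : L →ₗ[K] A →ₗ[K] M) {p : ℕ} (l : Fin p → L) (x : Fin p → A) :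
    iF t l x = ∑ j, t (l j) (x j) := by
  simp [iF]

theorem iF_inj (pb : PowerBasis K L) {t : L →ₗ[K] A →ₗ[K] M}
    (ht : Injective (TensorProduct.lift t)) {p : ℕ} (c : ℕ) (hp : c + p ≤ pb.dim) :
    Injective (iF t fun j : Fin p => pb.gen ^ (c + j)) := by
  refine (injective_iff_map_eq_zero _).2 fun x hx => funext fun k => ?_
  have h1 : ∑ j : Fin p, (pb.gen ^ (c + j)) ⊗ₜ[K] x j = 0 := ht (by
    rw [map_zero, ← hx, iF_apply, map_sum]
    simp only [TensorProduct.lift.tmul])
  have h2 := congrArg (fun z => TensorProduct.lid K A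
    (LinearMap.rTensor A (pb.basis.coord ⟨c + k, by omega⟩) z)) h1
  simp only [map_sum, LinearMap.rTensor_tmul, TensorProduct.lid_tmul, map_zero] at h2
  rw [Finset.sum_eq_single k (fun j _ hj => ?_) fun h => absurd (Finset.mem_univ _) h,
    coord_pow pb _ (by omega), if_pos rfl, one_smul] at h2
  · exact h2
  · rw [coord_pow pb _ (by omega), if_neg fun h => hj (Fin.ext (by simpa using h)), zero_smul]

variable [StarRing A] [SA K A]

/-- reduction modulo the isotropic subspace spanned by the first powers -/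
theorem key (h1 : S_SubQ.{u}) (h2 : S_TrL.{u}) {τ : A →ₗ[K] K} {ε : ℤˣ} (pb : PowerBasis K L)
    (hτ : Trc τ ε) (hy : Hy K A L) {s : L →ₗ[K] K} (hs1 : s 1 = 1)
    (hs : ∀ j, 0 < j → j < pb.dim → s (pb.gen ^ j) = 0) {m p : ℕ} (hmp : m + p = pb.dim)
    (hp : m < p) (Y : FM K A K K) (hY : Y.Perf) (r : (Fin p → A) →ₗ[K] Y.M)
    (hr : Eqv (piRM K A p) Y.toRM r) (hr' : Surjective r)
    (hb : ∀ x x' : Fin p → A, Y.b (r x) (r x') =
      ∑ j : Fin p, ∑ k : Fin p, s (pb.gen ^ (j + k : ℕ)) * τ (x j * star (x' k))) : Y.HasLag := by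
  have := pb.finite
  have := SA.fin (R := K) (A := A)
  obtain ⟨Z, t, hg, hpf, hl, ht, hρ, hf⟩ := h2 K A L τ ε s hτ
    (fun h => one_ne_zero (hs1.symm.trans (by rw [h, LinearMap.zero_apply]))) hy
  have := hg.fin
  have hform : ∀ {p q : ℕ} (c d : ℕ) (x : Fin p → A) (x' : Fin q → A),
      Z.b (iF t (fun j : Fin p => pb.gen ^ (c + j)) x)
          (iF t (fun j : Fin q => pb.gen ^ (d + j)) x') =
        ∑ j : Fin p, ∑ k : Fin q, s (pb.gen ^ (c + j + (d + k))) * τ (x j * star (x' k)) := by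
    intro p q c d x x'
    rw [iF_apply, iF_apply, map_sum, Finset.sum_comm]
    refine Finset.sum_congr rfl fun k _ => ?_
    rw [map_sum, LinearMap.sum_apply]
    exact Finset.sum_congr rfl fun j _ => by rw [hf, pow_add pb.gen (c + j)]
  have hrk : ∀ (q c : ℕ), c + q ≤ pb.dim →
      Module.finrank K (LinearMap.range (iF t fun j : Fin q => pb.gen ^ (c + j))) =
        q * Module.finrank K A := fun q c h => by
    rw [LinearMap.finrank_range_of_inj (iF_inj pb ht.1 c h), Module.finrank_pi_fintype]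
    simp
  have hZ : Module.finrank K Z.M = pb.dim * Module.finrank K A := by
    rw [← (LinearEquiv.ofBijective _ ht).finrank_eq, Module.finrank_tensorProduct, pb.finrank]
  have hW : LinearMap.range (iF t fun j : Fin p => pb.gen ^ (0 + j : ℕ)) =
      Z.perp (LinearMap.range (iF t fun j : Fin m => pb.gen ^ (1 + j : ℕ))) := by
    refine Submodule.eq_of_le_of_finrank_eq ?_ ?_
    · rintro _ ⟨x, rfl⟩ _ ⟨x', rfl⟩
      rw [hform]
      refine Finset.sum_eq_zero fun j _ => Finset.sum_eq_zero fun k _ => ?_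
      rw [hs _ (by omega) (by omega), zero_mul]
    · have h3 := hg.finrank_perp hpf (LinearMap.range (iF t fun j : Fin m => pb.gen ^ (1 + j : ℕ)))
      rw [hrk m 1 (by omega), hZ, ← hmp, add_mul] at h3
      rw [hrk p 0 (by omega)]
      omega
  refine h1 K A K ε Z Y (piRM K A p) (iF t fun j : Fin p => pb.gen ^ (0 + j : ℕ)) r hg hpf hl hY
    (fun a (x : Fin p → A) => ?_) hr hr' (fun x x' => ?_) fun z hz => ?_
  · rw [iF_apply, iF_apply, map_sum]
    exact Finset.sum_congr rfl fun j _ => (hρ a _ _).symm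
  · rw [hb, hform]
    simp only [zero_add]
  · have h3 : z ∈ Z.perp (LinearMap.range (iF t fun j : Fin p => pb.gen ^ (0 + j : ℕ))) := by
      rintro _ ⟨x, rfl⟩
      exact hz x
    rw [hW, hg.perp_perp hpf] at h3
    obtain ⟨x, rfl⟩ := h3
    rw [iF_apply]
    refine (LinearMap.range (iF t fun j : Fin p => pb.gen ^ (0 + j : ℕ))).sum_mem fun j _ =>
      ⟨Pi.single ⟨1 + j, by omega⟩ (x j), ?_⟩
    rw [iF_apply, Finset.sum_eq_single ⟨1 + j, by omega⟩ (fun k _ hk => ?_)
      fun h => absurd (Finset.mem_univ _) h, Pi.single_eq_same, zero_add]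
    rw [Pi.single_eq_of_ne hk, map_zero]

end NP1P

open NP1P in
theorem pNP1 (h1 : S_SubQ.{u}) (h2 : S_TrL.{u}) : S_NP1.{u} := by
  intro K A L _ _ _ _ _ _ _ τ ε pb hτ hy
  obtain ⟨s, hs1, hs, hsn⟩ := ex_form pb
  have p1 : (HermP.Eh τ (1 : A)).Perf :=
    (HermP.eh_sp hτ.comm hτ.perf hτ.st 1 (star_one A)).perf
  refine ⟨fun ⟨m, hm⟩ => ?_, fun he => ?_⟩
  · refine key h1 h2 pb hτ hy hs1 hs (m := m) (p := m + 1) (by omega) (by omega) _ p1
      (LinearMap.proj 0) (fun _ _ => rfl) (fun y => ⟨fun _ => y, rfl⟩) fun x x' => ?_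
    rw [Finset.sum_eq_single 0 (fun j _ hj => Finset.sum_eq_zero fun k _ => ?_)
      fun h => absurd (Finset.mem_univ _) h, Finset.sum_eq_single 0 (fun k _ hk => ?_)
      fun h => absurd (Finset.mem_univ _) h]
    · change τ (x 0 * 1 * star (x' 0)) = s (pb.gen ^ 0) * _
      rw [pow_zero, hs1, one_mul, mul_one]
    · have := Fin.val_ne_of_ne hk
      rw [Fin.val_zero] at this
      rw [hs _ (by omega) (by rw [Fin.val_zero]; omega), zero_mul]
    · have := Fin.val_ne_of_ne hj
      rw [Fin.val_zero] at this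
      rw [hs _ (by omega) (by omega), zero_mul]
  · have h0 := pb.dim_pos
    obtain ⟨m, hm⟩ : ∃ m, pb.dim = 2 * m + 2 := by
      obtain ⟨k, hk⟩ := he
      exact ⟨k - 1, by omega⟩
    have := pb.finite
    have hN : Algebra.norm K pb.gen ≠ 0 := Algebra.norm_ne_zero_iff.2 fun h => by
      have h3 := pb.basis.ne_zero ⟨1, by omega⟩
      rw [pb.basis_eq_pow, pow_one] at h3
      exact h3 h
    have p2 : (HermP.Eh τ (algebraMap K A (Algebra.norm K pb.gen))).Perf :=
      (HermP.eh_sp hτ.comm hτ.perf hτ.st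
        (Units.map (algebraMap K A : K →* A) (Units.mk0 _ hN)) (SA.st _)).perf
    refine key h1 h2 pb hτ hy hs1 hs (m := m) (p := m + 2) (by omega) (by omega) _ (p1.sum p2.neg)
      ((LinearMap.proj 0).prod (LinearMap.proj (Fin.last (m + 1)))) (fun _ _ => rfl)
      (fun y => ⟨Fin.cons y.1 fun _ => y.2, rfl⟩) fun x x' => ?_
    have hz : ∀ j k : Fin (m + 2), ¬ (j = 0 ∧ k = 0) → ¬ (j = Fin.last _ ∧ k = Fin.last _) →
        s (pb.gen ^ (j + k : ℕ)) * τ (x j * star (x' k)) = 0 := fun j k e1 e2 => by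
      simp only [Fin.ext_iff, Fin.val_zero, Fin.val_last] at e1 e2
      rw [hs _ (by omega) (by omega), zero_mul]
    have hne : (0 : Fin (m + 2)) ≠ Fin.last _ := Fin.last_pos.ne
    rw [Finset.sum_eq_add_of_mem 0 (Fin.last _) (Finset.mem_univ _) (Finset.mem_univ _) hne
        fun j _ hj => Finset.sum_eq_zero fun k _ => hz j k (fun h => hj.1 h.1) fun h => hj.2 h.1,
      Finset.sum_eq_single 0 (fun k _ hk => hz 0 k (fun h => hk h.2) fun h => hne h.1)
        fun h => absurd (Finset.mem_univ _) h,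
      Finset.sum_eq_single (Fin.last _)
        (fun k _ hk => hz _ k (fun h => hne h.1.symm) fun h => hk h.2)
        fun h => absurd (Finset.mem_univ _) h]
    change τ (x 0 * 1 * star (x' 0)) + -τ (x (Fin.last _) * algebraMap K A (Algebra.norm K pb.gen) *
      star (x' (Fin.last _))) = s (pb.gen ^ 0) * _ + s (pb.gen ^ (m + 1 + (m + 1))) * _
    rw [pow_zero, hs1, one_mul, mul_one, show m + 1 + (m + 1) = pb.dim by omega, hsn he,
      ← Algebra.commutes, ← Algebra.smul_def, smul_mul_assoc, map_smul, smul_eq_mul, neg_mul]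

end Pool.Agent.P.MP_46a8f8_ag.GU
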