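import Pool.Agent.P.MP_46a8f8_ag.GU.Ad

/-!
The norm principle for proper similitudes, by specialisation from a rational function field.
-/

namespace Pool.Agent.P.MP_46a8f8_ag.GU

open TensorProduct Function IsLocalRing Polynomial

universe u

namespace NPpP

theorem ev (h2 : S_GD.{u}) (h4 : S_HR.{u}) (h5 : S_Dm.{u}) {R A K : Type u} [CommRing R] [Ring A]
    [Algebra R A] [StarRing A] [SA R A] [Field K] [Algebra R K] (hOk : Ok R A) (hTy : Ty R A)
    (hD : Dm R K) (ν : K[X]) (g : (FractionRing K[X] ⊗[R] A)ˣ)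
    (hg : Sml R A (FractionRing K[X]) g (algebraMap K[X] (FractionRing K[X]) ν)) (a : K)
    (ha : ν.eval a ≠ 0) : ∃ v : (K ⊗[R] A)ˣ, Sml R A K v (ν.eval a) ∧
      ∀ ε : ℤ, dI R A (FractionRing K[X]) g = ε → dI R A K v = ε := by
  let f : K[X] →ₐ[R] K := (Polynomial.aeval a).restrictScalars R
  have hf : ∀ p : K[X], f p = p.eval a := fun p => Polynomial.coe_aeval_eq_eval a ▸ rfl
  let P : Ideal K[X] := RingHom.ker f
  have hP : P.IsPrime := RingHom.ker_isPrime f
  have hP0 : P ≠ ⊥ := fun h => by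
    have : X - C a ∈ P := by
      rw [RingHom.mem_ker, hf]
      simp
    rw [h, Ideal.mem_bot] at this
    exact X_sub_C_ne_zero a this
  let O := Localization.AtPrime P
  have hO : IsDiscreteValuationRing O :=
    IsLocalization.AtPrime.isDiscreteValuationRing_of_dedekind_domain K[X] hP0 O
  have hT : IsScalarTower R O (FractionRing K[X]) := IsScalarTower.of_algebraMap_eq fun r => by
    rw [IsScalarTower.algebraMap_apply R K[X] O, ← IsScalarTower.algebraMap_apply K[X] O,
      ← IsScalarTower.algebraMap_apply R K[X]]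
  have hDO : Dm R O :=
    (h5 R K[X] (h5 R K hD).1).2 O P.primeCompl P.primeCompl_le_nonZeroDivisors
  have hl : IsLocalHom (algebraMap O O) := ⟨fun _ h => h⟩
  have hN : HN R A O := h4 R A O O
    (by rw [IsDiscreteValuationRing.ringKrullDim_eq_one]; norm_num) hOk hDO
  have hu : ∀ y : P.primeCompl, IsUnit (f y) := fun y => isUnit_iff_ne_zero.2 y.2
  obtain ⟨b, hb, hb'⟩ := h2 R A O (FractionRing K[X]) hOk hTy hN (algebraMap K[X] O ν) g
    (IsLocalization.map_units O (⟨ν, fun h => ha (by rw [← hf]; exact h)⟩ : P.primeCompl))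
    (by rw [← IsScalarTower.algebraMap_apply]; exact hg)
  let e : O →ₐ[R] K := IsLocalization.liftAlgHom hu
  have he : e (algebraMap K[X] O ν) = ν.eval a := by
    rw [IsLocalization.liftAlgHom_apply, IsLocalization.lift_eq]
    exact hf ν
  refine ⟨um e b, he ▸ hb.map e, fun ε hε => ?_⟩
  have : dI R A O b = ε := IsFractionRing.injective O (FractionRing K[X]) (by
    rw [hb', hε, map_intCast])
  rw [dI_map, this, map_intCast]

end NPpP

theorem pNPp (h1 : S_NPt.{u}) (h2 : S_GD.{u}) (h3 : S_Sq.{u}) (h4 : S_HR.{u}) (h5 : S_Dm.{u}) :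
    S_NPp.{u} := by
  intro R A K L _ _ _ _ _ _ _ _ _ _ _ _ f hOk hTy hD hH hf
  obtain ⟨ν, h0, h1', g, hg⟩ := h1 R A K L f hOk hD hH hf
  have hn : Algebra.norm K f ≠ 0 := Algebra.norm_ne_zero_iff.2 hf
  have hν : algebraMap K[X] (FractionRing K[X]) ν ≠ 0 := by
    rw [ne_eq, map_eq_zero_iff _ (IsFractionRing.injective K[X] _)]
    rintro rfl
    simp at h0
  obtain ⟨v, hv, hv'⟩ := NPpP.ev h2 h4 h5 hOk hTy hD ν g hg 0 (by rw [h0]; exact one_ne_zero)
  obtain ⟨w, hw, hw'⟩ := NPpP.ev h2 h4 h5 hOk hTy hD ν g hg 1 (by rw [h1']; exact hn)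
  rw [h0] at hv
  rw [h1'] at hw
  refine ⟨v * w, by simpa using hv.mul hw, ?_⟩
  rw [dI_mul _ hw]
  rcases h3 R A _ g _ hTy hν hg with h | h
  · rw [hv' 1 (by rw [h, Int.cast_one]), hw' 1 (by rw [h, Int.cast_one])]
    simp
  · rw [hv' (-1) (by rw [h]; simp), hw' (-1) (by rw [h]; simp)]
    simp

end Pool.Agent.P.MP_46a8f8_ag.GU
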