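import Pool.Agent.P.MP_46a8f8_ag.GU.Ad
import Pool.Agent.P.MP_46a8f8_ag.GU.Fin2

/-!
The norm principle over a rational function field.
-/

namespace Pool.Agent.P.MP_46a8f8_ag.GU

open TensorProduct Function Polynomial

universe u

namespace NPtP

theorem core (hNP : S_NP.{u}) {R A F L L' : Type u} [CommRing R] [Ring A] [Algebra R A]
    [StarRing A] [SA R A] [Field F] [Algebra R F] [CommRing L] [Algebra R L] [Field L']
    [Algebra R L'] [Algebra F L'] [IsScalarTower R F L'] [Module.Finite F L'] (ι : L →ₐ[R] L')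
    (y : L') (hO : Ok R A) (hD : Dm R F) (hH : Hy R A L) (hy : y ≠ 0) :
    ∃ g, Sml R A F g (Algebra.norm F y) := by
  let := bcStar R A F
  have : SA F (F ⊗[R] A) := (pBcg R A F).1
  have hO' : Ok F (F ⊗[R] A) := hO.bc pBcg pGAbc F hD
  have hR : Rk F (F ⊗[R] A) := hO'.rk (pRk2 pFreeS)
  obtain ⟨τ, ε, hτ⟩ := hO'.tr
  obtain ⟨j, hj, hj'⟩ := hH
  have hH' : Hy F (F ⊗[R] A) L' := by
    refine ⟨(can R A L' F).symm (mp A ι j), (can R A L' F).injective ?_, ?_⟩
    · rw [can_cj, map_neg, AlgEquiv.apply_symm_apply, ← mp_cj, hj, map_neg]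
    · rw [← map_mul, ← map_mul, hj', map_one, map_one]
  exact hNP F (F ⊗[R] A) L' τ ε y hτ hR hH' hy

theorem norm_mp {K L C C' : Type u} [Field K] [Field L] [Algebra K L] [Module.Finite K L]
    [CommRing C] [Algebra K C] [CommRing C'] [Algebra K C'] (e : C →ₐ[K] C') (y : C ⊗[K] L) :
    Algebra.norm C' (mp L e y) = e (Algebra.norm C y) := by
  rw [Algebra.norm_apply, Algebra.norm_apply]
  exact det_mp e fun x => (map_mul (mp L e) y x).symm

theorem eval_norm {K L : Type u} [Field K] [Field L] [Algebra K L] [Module.Finite K L] (f : L)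
    (a : K) : (Algebra.norm K[X] (1 + (X : K[X]) ⊗ₜ[K] (f - 1))).eval a =
      Algebra.norm K (1 + a • (f - 1)) := by
  rw [← coe_aeval_eq_eval, ← norm_mp (aeval a), map_add, map_one, H90P.mp_tmul, aeval_X,
    ← Algebra.norm_eq_of_algEquiv (Algebra.TensorProduct.lid K L), map_add, map_one,
    Algebra.TensorProduct.lid_tmul]

end NPtP

theorem pNPt (h1 : S_NP.{u}) (h2 : S_Dm.{u}) : S_NPt.{u} := by
  intro R A K L _ _ _ _ _ _ _ _ _ _ _ _ f hO hD hH hf
  have h0 : (Algebra.norm K[X] (1 + (X : K[X]) ⊗ₜ[K] (f - 1))).eval 0 = 1 := by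
    rw [NPtP.eval_norm, zero_smul, add_zero, map_one]
  refine ⟨_, h0, by rw [NPtP.eval_norm, one_smul, add_sub_cancel], ?_⟩
  have hD' : Dm R (FractionRing K[X]) :=
    (h2 R K[X] (h2 R K hD).1).2 (FractionRing K[X]) (nonZeroDivisors K[X]) le_rfl
  have : IsDomain (FractionRing K[X] ⊗[K] L) :=
    (pDomL K L (FractionRing K[X])).2 (nonZeroDivisors K[X]) le_rfl
  have e := NPtP.norm_mp (IsScalarTower.toAlgHom K K[X] (FractionRing K[X]))
    (1 + (X : K[X]) ⊗ₜ[K] (f - 1))
  rw [IsScalarTower.toAlgHom_apply] at e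
  have hy : mp L (IsScalarTower.toAlgHom K K[X] (FractionRing K[X]))
      (1 + (X : K[X]) ⊗ₜ[K] (f - 1)) ≠ 0 := fun h => by
    rw [h, Algebra.norm_zero, eq_comm, map_eq_zero_iff _ (IsFractionRing.injective _ _)] at e
    rw [e, eval_zero] at h0
    exact zero_ne_one h0
  rw [← e]
  let := fieldOfFiniteDimensional (FractionRing K[X]) (FractionRing K[X] ⊗[K] L)
  exact NPtP.core h1 ((Algebra.TensorProduct.includeRight :
    L →ₐ[K] FractionRing K[X] ⊗[K] L).restrictScalars R) _ hO hD' hH hy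

end Pool.Agent.P.MP_46a8f8_ag.GU
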