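import Pool.Agent.P.MP_46a8f8_ag.GU.Ad

/-!
An etale neighbourhood of a closed semilocal subscheme over which a homomorphism of rings with
involution extends.
-/

namespace Pool.Agent.P.MP_46a8f8_ag.GU

open TensorProduct Function

universe u

namespace NbhP

/-- a nonzero element is a power of `y` times an element not divisible by `y` -/
theorem exists_pow {W : Type u} [CommRing W] [IsNoetherianRing W] {y : W}
    (hu : ∀ w, IsUnit (1 + y * w)) {a : W} (ha : a ≠ 0) :
    ∃ (i : ℕ) (a' : W), a = y ^ i * a' ∧ ¬ y ∣ a' := by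
  classical
  have hJ : Ideal.span {y} ≤ (⊥ : Ideal W).jacobson := by
    rw [Ideal.span_singleton_le_iff_mem, Ideal.mem_jacobson_bot]
    intro w
    rw [add_comm]
    exact hu w
  have hb := Ideal.iInf_pow_smul_eq_bot_of_le_jacobson (M := W) (Ideal.span {y}) hJ
  have hex : ∃ i : ℕ, ¬ y ^ i ∣ a := by
    by_contra hn
    push Not at hn
    apply ha
    have : a ∈ (⨅ i : ℕ, (Ideal.span {y}) ^ i • ⊤ : Submodule W W) := by
      rw [Submodule.mem_iInf]
      intro i
      rw [smul_eq_mul, Ideal.mul_top, Ideal.span_singleton_pow, Ideal.mem_span_singleton]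
      exact hn i
    rw [hb] at this
    exact this
  have h0 : Nat.find hex ≠ 0 := by
    intro h
    have := Nat.find_spec hex
    rw [h, pow_zero] at this
    exact this (one_dvd a)
  obtain ⟨i, hi⟩ := Nat.exists_eq_succ_of_ne_zero h0
  have h1 : y ^ i ∣ a := by
    by_contra h
    have := Nat.find_min' hex h
    omega
  obtain ⟨a', rfl⟩ := h1
  refine ⟨i, a', rfl, fun h => ?_⟩
  have := Nat.find_spec hex
  rw [hi] at this
  apply this
  rw [Nat.succ_eq_add_one, pow_succ]
  exact mul_dvd_mul_left _ h

theorem dom {W D : Type u} [CommRing W] [IsNoetherianRing W] [CommRing D] [IsDomain D]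
    (q : W →+* D) {y : W} (hy : IsSMulRegular W y) (hu : ∀ w, IsUnit (1 + y * w))
    (hq : ∀ w, q w = 0 ↔ y ∣ w) : IsDomain W := by
  have : Nontrivial W := q.domain_nontrivial
  have : NoZeroDivisors W := ⟨fun {a b} h => by
    by_contra hn
    push Not at hn
    obtain ⟨i, a', rfl, ha⟩ := exists_pow hu hn.1
    obtain ⟨j, b', rfl, hb⟩ := exists_pow hu hn.2
    have h1 : a' * b' = 0 := by
      apply hy.pow (i + j)
      simp only [smul_eq_mul, mul_zero]
      rw [← h]
      ring
    have h2 : q a' * q b' = 0 := by rw [← map_mul, h1, map_zero]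
    rcases mul_eq_zero.1 h2 with h3 | h3
    · exact ha ((hq _).1 h3)
    · exact hb ((hq _).1 h3)⟩
  exact NoZeroDivisors.to_isDomain W

theorem unit_loc {T : Type u} [CommRing T] (y : T) (w : Localization (On y)) :
    IsUnit (1 + algebraMap T (Localization (On y)) y * w) := by
  obtain ⟨⟨t, s⟩, h⟩ := IsLocalization.surj (On y) w
  have hs : IsUnit (algebraMap T (Localization (On y)) s) := IsLocalization.map_units _ s
  have hm : (s : T) + y * t ∈ On y := by
    change y ∣ (s : T) + y * t - 1
    have : (s : T) + y * t - 1 = ((s : T) - 1) + y * t := by ring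
    rw [this]
    exact dvd_add s.2 (dvd_mul_right _ _)
  have h2 : IsUnit (algebraMap T (Localization (On y)) ((s : T) + y * t)) :=
    IsLocalization.map_units _ (⟨_, hm⟩ : On y)
  have e : (1 + algebraMap T (Localization (On y)) y * w) * algebraMap T (Localization (On y)) s =
      algebraMap T (Localization (On y)) ((s : T) + y * t) := by
    rw [map_add, map_mul, ← h]
    ring
  rw [← e] at h2
  exact isUnit_of_mul_isUnit_left h2

end NbhP

theorem pNbh (h1 : S_HomQ.{u}) (h2 : S_EN.{u}) : S_Nbh.{u} := by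
  intro R A R₀ A₀ T D _ _ _ _ _ _ _ _ _ _ _ _ _ _ _ _ _ _ _ y j φ' hy hQ hφ'
  obtain ⟨Q, _, _, _, _, φ, hft, hfs, hφ, hun⟩ := h1 R A R₀ A₀ T j
  obtain ⟨s⟩ := hun D φ' hφ'
  obtain ⟨T', _, _, g, q, het, hq⟩ := h2 T D Q y s hQ
  have hN : IsNoetherianRing T' := Algebra.FiniteType.isNoetherianRing T T'
  set y' : T' := algebraMap T T' y with hy'
  let W := Localization (On y')
  have hunit : ∀ m : On y', IsUnit (q m) := by
    intro m
    have : q ((m : T') - 1) = 0 := (hq _).2 m.2
    rw [map_sub, map_one, sub_eq_zero] at this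
    rw [this]
    exact isUnit_one
  let qW : W →ₐ[T] D := IsLocalization.liftAlgHom (M := On y') (f := q) hunit
  have hqW : ∀ t : T', qW (algebraMap T' W t) = q t := fun t => by
    simp [qW]
  have hyW : algebraMap T W y = algebraMap T' W y' := IsScalarTower.algebraMap_apply T T' W y
  have hflat : Module.Flat T W := Module.Flat.trans T T' W
  have hNW : IsNoetherianRing W := IsLocalization.isNoetherianRing (On y') W hN
  have hu : ∀ w, IsUnit (1 + algebraMap T W y * w) := fun w => by
    rw [hyW]
    exact NbhP.unit_loc y' w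
  have hker : ∀ w, qW w = 0 ↔ algebraMap T W y ∣ w := by
    intro w
    constructor
    · intro h
      obtain ⟨⟨t, m⟩, hm⟩ := IsLocalization.surj (On y') w
      have h3 : q t = 0 := by
        rw [← hqW, ← hm, map_mul, h, zero_mul]
      obtain ⟨c, hc⟩ := (hq t).1 h3
      have hs : IsUnit (algebraMap T' W m) := IsLocalization.map_units _ m
      rw [← hs.dvd_mul_right, hm, hyW]
      exact ⟨algebraMap T' W c, by rw [← map_mul, ← hc]⟩
    · rintro ⟨c, rfl⟩
      rw [map_mul, hyW, hqW, (hq y').2 dvd_rfl, zero_mul]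
  have hreg : IsSMulRegular W (algebraMap T W y) := hy.of_flat
  have hdom : IsDomain W := NbhP.dom (qW : W →+* D) hreg hu hker
  letI : Algebra R W := ((algebraMap T W).comp (algebraMap R T)).toAlgebra
  have : IsScalarTower R T W := IsScalarTower.of_algebraMap_eq fun _ => rfl
  let f : Q →ₐ[T] W := (IsScalarTower.toAlgHom T T' W).comp g
  let fR : Q →ₐ[R] W := f.restrictScalars R
  refine ⟨W, inferInstance, hdom, inferInstance, inferInstance, inferInstance, qW,
    (mp A fR : Q ⊗[R] A →+* W ⊗[R] A).comp φ, ?_, inferInstance, hflat, hu, hker, ?_, ?_⟩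
  · have := Algebra.EssFiniteType.of_isLocalization W (On y')
    exact Algebra.EssFiniteType.comp T T' W
  · intro r
    change mp A fR (φ _) = _
    rw [hφ.1, mp_alg]
    congr 1
    exact f.commutes _
  · intro a
    change mp A fR (φ _) = cj R A W (mp A fR (φ a))
    rw [hφ.2, mp_cj]

end Pool.Agent.P.MP_46a8f8_ag.GU
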