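import Pool.Agent.P.MP_46a8f8_ag.GU.Ad

/-!
The norm of a local generator of a prime of residue degree one.
-/

namespace Pool.Agent.P.MP_46a8f8_ag.GU

open Function Matrix IsLocalRing nonZeroDivisors

universe u

namespace NmP

section core

variable {V S : Type u} [CommRing V] [CommRing S] [Algebra V S] [Module.Free V S]
  [Module.Finite V S]

lemma dvd_norm (z : S) : z ∣ algebraMap V S (Algebra.norm V z) := by
  classical
  let b := Module.Free.chooseBasis V S
  refine ⟨b.equivFun.symm ((Algebra.leftMulMatrix b z).adjugate *ᵥ b.repr 1), ?_⟩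
  apply b.repr.injective
  apply DFunLike.coe_injective
  have h := Algebra.leftMulMatrix_mulVec_repr b z
    (b.equivFun.symm ((Algebra.leftMulMatrix b z).adjugate *ᵥ b.repr 1))
  have e : ⇑(b.repr (b.equivFun.symm ((Algebra.leftMulMatrix b z).adjugate *ᵥ b.repr 1))) =
      (Algebra.leftMulMatrix b z).adjugate *ᵥ b.repr 1 := b.equivFun.apply_symm_apply _
  rw [e, mulVec_mulVec, mul_adjugate, smul_mulVec, one_mulVec] at h
  rw [← h, Algebra.algebraMap_eq_smul_one, map_smul, Algebra.norm_eq_matrix_det b]
  rfl

lemma norm_dvd [IsLocalRing V] (z : S) (p : V) (hp : ¬ IsUnit p) (h1 : z ∣ algebraMap V S p)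
    (h2 : ∀ r, z ∣ algebraMap V S r → p ∣ r) (h3 : ∀ t : S, ∃ r, z ∣ t - algebraMap V S r) :
    Algebra.norm V z ∣ p := by
  let b := Module.Free.chooseBasis V S
  choose c0 hc0 using h3
  let c : Module.Dual V S := b.constr V fun i => c0 (b i)
  have hc : ∀ t, z ∣ t - algebraMap V S (c t) := fun t => by
    have ht : t ∈ Submodule.span V (Set.range b) := by rw [b.span_eq]; trivial
    induction ht using Submodule.span_induction with
    | mem x hx =>
      obtain ⟨i, rfl⟩ := hx
      simp only [c, Module.Basis.constr_basis]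
      exact hc0 _
    | zero => simp
    | add x y _ _ hx hy =>
      rw [map_add, map_add, add_sub_add_comm]
      exact dvd_add hx hy
    | smul a x _ hx =>
      rw [map_smul, smul_eq_mul, map_mul, Algebra.smul_def, ← mul_sub]
      exact hx.mul_left _
  obtain ⟨w, hw⟩ := h2 (1 - c 1) (by rw [map_sub, map_one]; exact hc 1)
  have hu : IsUnit (c 1) := by
    have := isUnit_or_isUnit_one_sub_self (c 1)
    refine this.resolve_right fun h => hp ?_
    rw [hw] at h
    exact isUnit_of_mul_isUnit_left h
  obtain ⟨e, he⟩ := hu.exists_right_inv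
  let g := LinearMap.transvection c ((p * ((1 - w) * e) - 1) • (1 : S))
  have hg : ∀ t, z ∣ g t := fun t => by
    have : g t = (t - algebraMap V S (c t)) +
        algebraMap V S p * algebraMap V S (c t * ((1 - w) * e)) := by
      simp only [g, LinearMap.transvection.apply, Algebra.smul_def, map_mul, map_sub, map_one]
      ring
    rw [this]
    exact dvd_add (hc t) (h1.mul_right _)
  choose h0 hh0 using hg
  have e1 : g = (Algebra.lmul V S z) ∘ₗ (b.constr V fun i => h0 (b i)) :=
    b.ext fun i => by
      rw [LinearMap.comp_apply, Module.Basis.constr_basis, hh0]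
      rfl
  have e2 : LinearMap.det g = p := by
    simp only [g, LinearMap.transvection.det, map_smul, smul_eq_mul]
    linear_combination hw + p * (1 - w) * he
  rw [e1, LinearMap.det_comp] at e2
  exact ⟨_, e2.symm⟩

end core

lemma mid {V K L : Type u} [CommRing V] [IsDomain V] [Field K] [Algebra V K] [IsFractionRing V K]
    [Field L] [Algebra K L] [Algebra V L] [IsScalarTower V K L] (S : Subalgebra V L)
    [Module.Free V S] [Module.Finite V S] (hfr : ∀ x : L, ∃ r : V, r ≠ 0 ∧ r • x ∈ S) (z : S) :
    Algebra.norm K (z : L) = algebraMap V K (Algebra.norm V z) := by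
  have inj : Injective (algebraMap V L) := by
    rw [IsScalarTower.algebraMap_eq V K L]
    exact (algebraMap K L).injective.comp (IsFractionRing.injective V K)
  have : IsLocalization (Algebra.algebraMapSubmonoid S V⁰) L := by
    refine ⟨?_, fun x => ?_, fun {x y} h => ⟨1, by rw [Subtype.ext h]⟩⟩
    · rintro ⟨_, r, hr, rfl⟩
      refine Ne.isUnit ?_
      rw [← IsScalarTower.algebraMap_apply]
      exact (map_ne_zero_iff _ inj).2 (nonZeroDivisors.ne_zero hr)
    · obtain ⟨r, hr, h⟩ := hfr x
      refine ⟨⟨⟨_, h⟩, ⟨_, r, mem_nonZeroDivisors_of_ne_zero hr, rfl⟩⟩, ?_⟩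
      rw [← IsScalarTower.algebraMap_apply, mul_comm, ← Algebra.smul_def]
      rfl
  exact Algebra.norm_localization V V⁰ z

section loc

variable {R T K L : Type u} [CommRing R] [IsDomain R] [CommRing T] [Algebra R T]
  [Field K] [Algebra R K] [IsFractionRing R K] [Field L] [Algebra T L]
  [Algebra R L] [Algebra K L] [IsScalarTower R T L] [IsScalarTower R K L]

/-- the localisation of `T` inside `L` -/
def locS (T L : Type u) [CommRing T] [Algebra R T] [Field L] [Algebra T L] [Algebra R L]
    [Algebra K L] [IsScalarTower R T L] [IsScalarTower R K L] (M : Submonoid R) (hM : M ≤ R⁰) :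
    Subalgebra (Localization.subalgebra.ofField K M hM) L where
  carrier := {x | ∃ (t : T) (s : R), s ∈ M ∧ algebraMap R L s * x = algebraMap T L t}
  mul_mem' := by
    rintro x y ⟨t, s, hs, h⟩ ⟨t', s', hs', h'⟩
    refine ⟨t * t', s * s', M.mul_mem hs hs', ?_⟩
    rw [map_mul, map_mul, ← h, ← h']
    ring
  add_mem' := by
    rintro x y ⟨t, s, hs, h⟩ ⟨t', s', hs', h'⟩
    refine ⟨algebraMap R T s' * t + algebraMap R T s * t', s * s', M.mul_mem hs hs', ?_⟩
    rw [map_add, map_mul, map_mul, map_mul, ← h, ← h', ← IsScalarTower.algebraMap_apply,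
      ← IsScalarTower.algebraMap_apply]
    ring
  algebraMap_mem' := by
    rintro ⟨_, a, s, hs, rfl⟩
    refine ⟨algebraMap R T a, s, hs, ?_⟩
    have h0 : algebraMap R K s ≠ 0 :=
      IsFractionRing.to_map_ne_zero_of_mem_nonZeroDivisors (hM hs)
    change _ * algebraMap K L (algebraMap R K a * (algebraMap R K s)⁻¹) = _
    rw [← IsScalarTower.algebraMap_apply R T L, IsScalarTower.algebraMap_apply R K L,
      IsScalarTower.algebraMap_apply R K L, ← map_mul, mul_left_comm, mul_inv_cancel₀ h0, mul_one]

lemma mem_locS (M : Submonoid R) (hM : M ≤ R⁰) (t : T) :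
    algebraMap T L t ∈ locS (K := K) T L M hM := ⟨t, 1, M.one_mem, by simp⟩

lemma fin_locS [Module.Finite R T] (M : Submonoid R) (hM : M ≤ R⁰) :
    Module.Finite (Localization.subalgebra.ofField K M hM) (locS (K := K) T L M hM) := by
  classical
  obtain ⟨G, hG⟩ := Module.Finite.fg_top (R := R) (M := T)
  refine Module.Finite.of_fg (N := (locS (K := K) T L M hM).toSubmodule)
    ⟨G.image (algebraMap T L), le_antisymm (Submodule.span_le.2 ?_) ?_⟩
  · intro x hx
    obtain ⟨t, -, rfl⟩ := Finset.mem_image.1 hx
    exact mem_locS (K := K) M hM t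
  · rintro x ⟨t, s, hs, h⟩
    have h1 : algebraMap T L t ∈ Submodule.span (Localization.subalgebra.ofField K M hM)
        (G.image (algebraMap T L) : Set L) := by
      have ht : t ∈ Submodule.span R (G : Set T) := by rw [hG]; trivial
      clear h
      induction ht using Submodule.span_induction with
      | mem y hy => exact Submodule.subset_span (Finset.mem_coe.2 (Finset.mem_image_of_mem _ hy))
      | zero => simp
      | add y y' _ _ hy hy' => rw [map_add]; exact add_mem hy hy'
      | smul a y _ hy =>
        have e : algebraMap T L (a • y) =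
            algebraMap R (Localization.subalgebra.ofField K M hM) a • algebraMap T L y := by
          rw [algebraMap_smul, Algebra.smul_def, Algebra.smul_def, map_mul,
            ← IsScalarTower.algebraMap_apply R T L]
        rw [e]
        exact Submodule.smul_mem _ _ hy
    obtain ⟨e, he⟩ := (IsLocalization.map_units (Localization.subalgebra.ofField K M hM)
      ⟨s, hs⟩).exists_left_inv
    have : x = e • algebraMap T L t := by
      rw [← h, IsScalarTower.algebraMap_apply R (Localization.subalgebra.ofField K M hM) L,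
        ← Algebra.smul_def, smul_smul]
      exact (one_smul _ x).symm.trans (congrArg (· • x) he.symm)
    rw [this]
    exact Submodule.smul_mem _ _ h1

end loc

end NmP

open NmP

theorem pNm : S_Nm.{u} := by
  intro R T K L _ _ _ _ _ _ _ _ _ _ _ _ _ _ _ _ _ _ z π hπ h1 h2 h3
  have injK := IsFractionRing.injective R K
  have injT := IsFractionRing.injective T L
  have inj : Injective (algebraMap R L) := by
    rw [IsScalarTower.algebraMap_eq R K L]
    exact (algebraMap K L).injective.comp injK
  have : FaithfulSMul R T := (faithfulSMul_iff_algebraMap_injective R T).2 fun a b h => inj (by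
    rw [IsScalarTower.algebraMap_apply R T L, h, ← IsScalarTower.algebraMap_apply])
  have hfin : Module.Finite K L := Module.Finite.of_isLocalization R T R⁰
  refine ⟨hfin, ?_⟩
  have hint : ∀ t : T, ∃ r : R, algebraMap R K r = Algebra.norm K (algebraMap T L t) := fun t =>
    IsIntegrallyClosed.isIntegral_iff.1 (Algebra.isIntegral_norm K
      ((Algebra.IsIntegral.isIntegral (R := R) t).map (IsScalarTower.toAlgHom R T L)))
  obtain ⟨ν, hν⟩ := hint z
  have hd : ν ∣ π ^ Module.finrank K L := by
    obtain ⟨z', hz'⟩ := h1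
    obtain ⟨ν', hν'⟩ := hint z'
    refine ⟨ν', injK ?_⟩
    rw [map_mul, hν, hν', ← map_mul, ← map_mul, ← hz', ← IsScalarTower.algebraMap_apply,
      IsScalarTower.algebraMap_apply R K L, Algebra.norm_algebraMap, map_pow]
  have hP : (Ideal.span {π}).IsPrime := (Ideal.span_singleton_prime hπ.ne_zero).2 hπ
  have hM : (Ideal.span {π}).primeCompl ≤ R⁰ := Ideal.primeCompl_le_nonZeroDivisors _
  have mem : ∀ s, s ∈ (Ideal.span {π}).primeCompl ↔ ¬ π ∣ s := fun s =>
    not_congr Ideal.mem_span_singleton
  set V := Localization.subalgebra.ofField K _ hM with hV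
  have : IsLocalization.AtPrime V (Ideal.span {π}) := inferInstance
  have : IsLocalRing V := IsLocalization.AtPrime.isLocalRing V (Ideal.span {π})
  have : IsNoetherianRing V :=
    IsLocalization.isNoetherianRing (Ideal.span {π}).primeCompl V inferInstance
  have : IsPrincipalIdealRing V := by
    refine ((tfae_of_isNoetherianRing_of_isLocalRing_of_isDomain V).out 4 0).1 ?_
    rw [← IsLocalization.AtPrime.map_eq_maximalIdeal (Ideal.span {π}) V, Ideal.map_span,
      Set.image_singleton]
    exact ⟨_, rfl⟩
  have injV : Injective (algebraMap R V) := IsLocalization.injective V hM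
  have un : ∀ s, ¬ π ∣ s → IsUnit (algebraMap R V s) := fun s hs =>
    IsLocalization.map_units V (⟨s, (mem s).2 hs⟩ : (Ideal.span {π}).primeCompl)
  have dv : ∀ r, algebraMap R V π ∣ algebraMap R V r → π ∣ r := fun r hr => by
    by_contra hn
    have := (IsLocalization.AtPrime.isUnit_to_map_iff V (Ideal.span {π}) π).1
      (isUnit_of_dvd_unit hr (un r hn))
    exact (mem π).1 this dvd_rfl
  let S := locS (K := K) T L _ hM
  have : Module.Finite V S := fin_locS _ hM
  have injS : Injective (algebraMap V S) := fun a b h => by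
    have : algebraMap K L a = algebraMap K L b := congrArg Subtype.val h
    exact Subtype.ext ((algebraMap K L).injective this)
  have : FaithfulSMul V S := (faithfulSMul_iff_algebraMap_injective V S).2 injS
  have : Module.Free V S := Module.free_of_finite_type_torsion_free'
  let j : T →+* S := (algebraMap T L).codRestrict S (mem_locS _ hM)
  have jr : ∀ r, j (algebraMap R T r) = algebraMap V S (algebraMap R V r) := fun r =>
    Subtype.ext (by
      change algebraMap T L (algebraMap R T r) = algebraMap K L (algebraMap R K r)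
      rw [← IsScalarTower.algebraMap_apply, ← IsScalarTower.algebraMap_apply])
  have sj : ∀ x : S, ∃ t s, ¬ π ∣ s ∧ j (algebraMap R T s) * x = j t := by
    rintro ⟨x, t, s, hs, h⟩
    refine ⟨t, s, (mem s).1 hs, Subtype.ext ?_⟩
    change algebraMap T L (algebraMap R T s) * x = algebraMap T L t
    rw [← IsScalarTower.algebraMap_apply, h]
  have ij : Injective j := fun a b h => injT (congrArg Subtype.val h)
  have k1 : j z ∣ algebraMap V S (algebraMap R V π) := jr π ▸ map_dvd j h1
  have k2 : ∀ r, j z ∣ algebraMap V S r → algebraMap R V π ∣ r := by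
    rintro r ⟨x, hx⟩
    obtain ⟨⟨a, s⟩, h⟩ := IsLocalization.surj (Ideal.span {π}).primeCompl r
    obtain ⟨t, s', hs', h'⟩ := sj x
    have e : algebraMap R T (s' * a) = z * (algebraMap R T s * t) := ij (by
      rw [map_mul, map_mul, map_mul, map_mul, ← h', jr a, ← h, map_mul, hx, ← jr]
      ring)
    have e' : π ∣ a := (hπ.dvd_or_dvd (h2 _ ⟨_, e⟩)).resolve_left hs'
    refine (un s ((mem s).1 s.2)).dvd_mul_right.1 ?_
    rw [h]
    exact map_dvd _ e'
  have k3 : ∀ x : S, ∃ r, j z ∣ x - algebraMap V S r := fun x => by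
    obtain ⟨t, s, hs, h⟩ := sj x
    obtain ⟨r, r', hr', e⟩ := h3 t
    obtain ⟨i, hi⟩ := (un (r' * s) fun hh => (hπ.dvd_or_dvd hh).elim hr' hs).exists_left_inv
    refine ⟨i * algebraMap R V r, ?_⟩
    have e' := (map_dvd j e).mul_left (algebraMap V S i)
    have hi' := congrArg (algebraMap V S) hi
    rw [map_mul, map_one, ← jr, map_mul, map_mul] at hi'
    rw [map_sub, Algebra.smul_def, map_mul, ← h] at e'
    convert e' using 1
    rw [map_mul, ← jr]
    linear_combination (-x) * hi'
  have hn := mid (K := K) S (fun x => by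
    obtain ⟨⟨a, _, r, hr, rfl⟩, h⟩ := IsLocalization.surj (Algebra.algebraMapSubmonoid T R⁰) x
    refine ⟨algebraMap R V r, (map_ne_zero_iff _ injV).2 (nonZeroDivisors.ne_zero hr), ?_⟩
    have : algebraMap R V r • x = algebraMap T L a := by
      rw [← h, mul_comm, algebraMap_smul, Algebra.smul_def, IsScalarTower.algebraMap_apply R T L]
    rw [this]
    exact mem_locS _ hM a) (j z)
  have hν' : Algebra.norm V (j z) = algebraMap R V ν :=
    Subtype.ext (hn.symm.trans hν.symm)
  obtain ⟨ν1, rfl⟩ := dv ν (hν' ▸ k2 _ (dvd_norm (j z)))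
  have pu : ¬ IsUnit (algebraMap R V π) := fun h => hπ.not_isUnit
    (isUnit_of_dvd_one (dv 1 (by rw [map_one]; exact h.dvd)))
  have k4 := norm_dvd (j z) _ pu k1 k2 k3
  have k5 : ¬ π ∣ ν1 := fun h => pu (by
    rw [hν', map_mul] at k4
    have p0 : algebraMap R V π ≠ 0 := (map_ne_zero_iff _ injV).2 hπ.ne_zero
    have : algebraMap R V ν1 ∣ 1 := (mul_dvd_mul_iff_left p0).1 (by rwa [mul_one])
    exact isUnit_of_dvd_one ((map_dvd _ h).trans this))
  obtain ⟨i, -, hi⟩ := (dvd_prime_pow hπ _).1 ((dvd_mul_left ν1 π).trans hd)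
  have hu : IsUnit ν1 := by
    rcases Nat.eq_zero_or_pos i with rfl | h0
    · exact associated_one_iff_isUnit.1 (by simpa using hi)
    · exact absurd ((dvd_pow_self π h0.ne').trans hi.symm.dvd) k5
  exact ⟨hu.unit, by rw [← hν, IsUnit.unit_spec, mul_comm]⟩

end Pool.Agent.P.MP_46a8f8_ag.GU
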