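import Pool.Agent.P.MP_46a8f8_ag.GU.Ad

/-!
A norm from a model of the curve.
-/

namespace Pool.Agent.P.MP_46a8f8_ag.GU

open TensorProduct Function IsLocalRing

universe u

namespace PPmP

/-- the exchange involution -/
@[reducible] def swStar (R : Type u) [CommRing R] : StarRing (R × R) where
  star := Prod.swap
  star_involutive := Prod.swap_swap
  star_mul a b := by
    change Prod.swap (a * b) = Prod.swap b * Prod.swap a
    rw [mul_comm a b]
    rfl
  star_add _ _ := rfl

theorem swSA (R : Type u) [CommRing R] (h2 : IsUnit (2 : R)) :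
    letI := swStar R
    SA R (R × R) := by
  let := swStar R
  refine ⟨inferInstance, inferInstance, ⟨2, ![(1, 0), (0, 1)], ![(1, 0), (0, 1)], ?_, ?_⟩,
    fun _ => rfl, h2⟩
  · simp [Fin.sum_univ_two, Prod.ext_iff]
  · intro c
    have e1 : c * ((1, 0) : R × R) = c.1 • ((1, 0) : R × R) := by simp [Prod.ext_iff]
    have e2 : c * ((0, 1) : R × R) = c.2 • ((0, 1) : R × R) := by simp [Prod.ext_iff]
    simp only [Fin.sum_univ_two, Matrix.cons_val_zero, Matrix.cons_val_one]
    rw [mul_comm ((1, 0) : R × R) c, mul_comm ((0, 1) : R × R) c, e1, e2, smul_tmul, smul_tmul]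

/-- the map given by an idempotent -/
def idm (R : Type u) {E : Type u} [CommRing R] [Ring E] [Algebra R E] (e : E) (he : e * e = e) :
    R × R →+* E where
  toFun a := a.1 • e + a.2 • (1 - e)
  map_one' := by simp
  map_zero' := by simp
  map_add' a b := by
    simp only [Prod.fst_add, Prod.snd_add, add_smul]
    abel
  map_mul' a b := by
    have e1 : e * (1 - e) = 0 := by rw [mul_sub, he, mul_one, sub_self]
    have e2 : (1 - e) * e = 0 := by rw [sub_mul, he, one_mul, sub_self]
    have e3 : (1 - e) * (1 - e) = 1 - e := by rw [mul_sub, e2, mul_one, sub_zero]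
    simp only [Prod.fst_mul, Prod.snd_mul, add_mul, mul_add, smul_mul_smul_comm, he, e1, e2, e3,
      smul_zero, add_zero, zero_add]

variable {R A C : Type u} [CommRing R] [Ring A] [Algebra R A] [StarRing A] [SA R A] [CommRing C]
  [Algebra R C]

theorem exists_idem (h : Hy R A C) : ∃ e : C ⊗[R] A, e * e = e ∧ cj R A C e = 1 - e := by
  obtain ⟨j, h1, h2⟩ := h
  have t := two_unit R A C
  refine ⟨Ring.inverse (2 : C) • (1 + j), ?_, ?_⟩
  · have e : (1 + j) * (1 + j) = (1 + j) + (1 + j) := by
      rw [add_mul, mul_add, mul_add, h2, one_mul, one_mul, mul_one]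
      abel
    rw [smul_mul_smul_comm, e, mul_smul, half_smul t]
  · rw [map_smul, map_add, cj_one, h1, eq_sub_iff_add_eq, ← smul_add]
    have e : 1 + -j + (1 + j) = (1 : C ⊗[R] A) + 1 := by abel
    rw [e, half_smul t]

theorem exists_sh (h : Hy R A C) :
    letI := swStar R
    ∃ φ : R × R →+* C ⊗[R] A, SH R A C (algebraMap R C) φ := by
  let := swStar R
  obtain ⟨e, h1, h2⟩ := exists_idem h
  refine ⟨idm R e h1, fun r => ?_, fun a => ?_⟩
  · change r • e + r • (1 - e) = _
    rw [← smul_add, add_sub_cancel, ← IsScalarTower.algebraMap_apply,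
      Algebra.algebraMap_eq_smul_one]
  · change a.2 • e + a.1 • (1 - e) = cj R A C (a.1 • e + a.2 • (1 - e))
    rw [map_add, LinearMap.map_smul_of_tower, LinearMap.map_smul_of_tower, map_sub, cj_one, h2,
      sub_sub_cancel, add_comm]

theorem hy_of_sh {j : R →+* C} {φ : R × R →+* C ⊗[R] A}
    (h : letI := swStar R; SH R A C j φ) : Hy R A C := by
  let := swStar R
  refine ⟨φ (1, -1), ?_, ?_⟩
  · rw [← h.2, ← map_neg]
    congr 1
    change ((-1, 1) : R × R) = -(1, -1)
    simp
  · rw [← map_mul, ← map_one φ]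
    congr 1
    simp [Prod.ext_iff]

theorem hy_map {C' : Type u} [CommRing C'] [Algebra R C'] (h : Hy R A C) (f : C →ₐ[R] C') :
    Hy R A C' := by
  obtain ⟨j, h1, h2⟩ := h
  exact ⟨mp A f j, by rw [← mp_cj, h1, map_neg], by rw [← map_mul, h2, map_one]⟩

theorem ne_zero_of_flat {T W : Type u} [CommRing T] [IsDomain T] [CommRing W] [Nontrivial W]
    [Algebra T W] [Module.Flat T W] {t : T} (ht : t ≠ 0) : algebraMap T W t ≠ 0 := by
  intro h
  have r : IsSMulRegular W t :=
    Module.Flat.isSMulRegular_of_nonZeroDivisors (mem_nonZeroDivisors_of_ne_zero ht)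
  refine one_ne_zero (α := W) (r ?_)
  change t • (1 : W) = t • (0 : W)
  rw [← Algebra.algebraMap_eq_smul_one, h, smul_zero]

end PPmP

open PPmP in
theorem pPPm (h1 : S_Nbh.{u}) (h2 : S_Fin1.{u}) : S_PPm.{u} := by
  intro R A O T D K _ _ _ _ _ _ _ _ _ _ _ _ _ _ _ _ _ _ _ _ _ _ _ _ _ _ _ π z hπ hOT hz hq hk hg hy
  let := swStar R
  have := swSA R (SA.two (R := R) (A := A))
  let : Algebra R T := ((algebraMap O T).comp (algebraMap R O)).toAlgebra
  have hRT : ∀ r, algebraMap R T r = algebraMap O T (algebraMap R O r) := fun _ => rfl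
  have : IsScalarTower R T D := IsScalarTower.of_algebraMap_eq fun r => by
    rw [hRT, ← IsScalarTower.algebraMap_apply, ← IsScalarTower.algebraMap_apply]
  have : IsNoetherianRing T := isNoetherian_of_tower O (inferInstance : IsNoetherian O T)
  have : Module.Finite O D :=
    Module.Finite.of_surjective (IsScalarTower.toAlgHom O T D).toLinearMap hq.1
  have : Finite (MaximalSpectrum D) := finite_maximalSpectrum O D
  obtain ⟨φ', hφ'⟩ := exists_sh hy
  obtain ⟨W, _, _, _, _, _, q, φ, _, _, _, w1, w2, w3⟩ := h1 R A R (R × R) T D z (algebraMap R T)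
    φ' (IsSMulRegular.of_ne_zero hz) hq (by rwa [← IsScalarTower.algebraMap_eq])
  let : Algebra O W := ((algebraMap T W).comp (algebraMap O T)).toAlgebra
  have hOW : ∀ r, algebraMap O W r = algebraMap T W (algebraMap O T r) := fun _ => rfl
  have : IsScalarTower O T W := IsScalarTower.of_algebraMap_eq hOW
  have hi : Injective (algebraMap O W) := (injective_iff_map_eq_zero _).2 fun r hr => by
    by_contra h
    exact ne_zero_of_flat ((map_ne_zero_iff _ hOT).2 h) hr
  obtain ⟨L, _, _, _, -, l1, l2, l3⟩ := h2 O T W D K q (algebraMap T W z) π hπ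
    (ne_zero_of_flat hz) w1 w2 hq.1 hi hk hg
  let : Algebra R L := ((algebraMap K L).comp (algebraMap R K)).toAlgebra
  have hRL : ∀ r, algebraMap R L r = algebraMap K L (algebraMap R K r) := fun _ => rfl
  refine ⟨L, inferInstance, inferInstance, inferInstance, IsScalarTower.of_algebraMap_eq hRL, l2,
    hy_map (hy_of_sh w3) ⟨algebraMap W L, fun r => ?_⟩, l3⟩
  change algebraMap W L (algebraMap R W r) = _
  rw [IsScalarTower.algebraMap_apply R T W, hRT, ← hOW, l1, hRL,
    ← IsScalarTower.algebraMap_apply R O K]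

end Pool.Agent.P.MP_46a8f8_ag.GU
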