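import Pool.Agent.P.MP_46a8f8_ag.GU.So
import Pool.Agent.P.MP_46a8f8_ag.SS

/-!
Free modules with a rank which is not divisible by a given number.
-/

namespace Pool.Agent.P.MP_46a8f8_ag.GU

open TensorProduct Function Matrix IsLocalRing

universe u

namespace K0P

open SSP

/-- a projective module which surjects onto `A` over `R` does so over `A` -/
theorem surj {R A V : Type u} [CommRing R] [IsLocalRing R] [Ring A] [Algebra R A]
    [Module.Finite R A] [AddCommGroup V] [Module A V] [Module R V] [IsScalarTower R A V]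
    [Module.Finite R V] [Module.Projective R V] (hA : Az R A) (φ : V →ₗ[R] A)
    (hφ : Surjective φ) : ∃ F : V →ₗ[A] A, Surjective F := by
  have := finite_quot (R := R) (A := A) (V := V)
  have := finite_quot (R := R) (A := A) (V := A)
  let q : V →ₗ[R] A ⧸ mS R A A := (mS R A A).mkQ.restrictScalars R ∘ₗ φ
  have hq : (mS R A V).restrictScalars R ≤ LinearMap.ker q := by
    intro x hx
    have h1 := Submodule.mem_map_of_mem (f := φ) (mem_mS.1 hx)
    rw [Submodule.map_smul''] at h1
    exact (Submodule.Quotient.mk_eq_zero _).2 (mem_mS.2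
      ((Submodule.smul_mono le_rfl le_top : _ ≤ (maximalIdeal R • ⊤ : Submodule R A)) h1))
  have hl : Module.length R (A ⧸ mS R A A) ≤ Module.length R (V ⧸ mS R A V) := by
    rw [← (Submodule.Quotient.restrictScalarsEquiv R (mS R A V)).length_eq]
    refine Module.length_le_of_surjective (Submodule.liftQ _ q hq) fun y => ?_
    obtain ⟨x, hx⟩ := ((mS R A A).mkQ_surjective.comp hφ) y
    exact ⟨Submodule.Quotient.mk x, hx⟩
  obtain ⟨f, hf⟩ := ss R A (A ⧸ mS R A A) (V ⧸ mS R A V) hA km_quot km_quot hl
  have := (km_quot (R := R) (A := A) (V := V)).semisimple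
  obtain ⟨g, hg⟩ := IsSemisimpleModule.extension_property (f.restrictScalars R) hf
    (LinearMap.id : (A ⧸ mS R A A) →ₗ[R] _)
  obtain ⟨p, hp⟩ := hA.extend f LinearMap.id g fun v => LinearMap.congr_fun hg v
  let g0 : V →ₗ[A] A ⧸ mS R A A := p ∘ₗ (mS R A V).mkQ
  have hg0 : Surjective g0 :=
    Surjective.comp (g := p) (fun y => ⟨f y, hp y⟩) (mS R A V).mkQ_surjective
  obtain ⟨G, hG⟩ := Module.projective_lifting_property ((mS R A A).mkQ.restrictScalars R)
    (g0.restrictScalars R) (mS R A A).mkQ_surjective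
  obtain ⟨F, hF⟩ := hA.lift (mS R A A).mkQ g0 G fun v => LinearMap.congr_fun hG v
  refine ⟨F, surj_of_mod (R := R) F ?_⟩
  rw [show (mS R A A).mkQ ∘ₗ F = g0 from LinearMap.ext hF]
  exact hg0

theorem surj_of_le {R V W : Type u} [CommRing R] [Nontrivial R] [AddCommGroup V] [Module R V]
    [AddCommGroup W] [Module R W] [Module.Free R V] [Module.Finite R V] [Module.Free R W]
    [Module.Finite R W] (h : Module.finrank R W ≤ Module.finrank R V) :
    ∃ φ : V →ₗ[R] W, Surjective φ :=
  ⟨(Module.finBasis R W).equivFun.symm.toLinearMap ∘ₗ LinearMap.funLeft R R (Fin.castLE h) ∘ₗ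
      (Module.finBasis R V).equivFun.toLinearMap,
    (Module.finBasis R W).equivFun.symm.surjective.comp
      ((LinearMap.funLeft_surjective_of_injective R R _ (Fin.castLE_injective h)).comp
        (Module.finBasis R V).equivFun.surjective)⟩

/-- an equivariant surjection onto the regular representation -/
theorem surj_reg {R A : Type u} [CommRing R] [IsLocalRing R] [Ring A] [Algebra R A]
    [StarRing A] [SA R A] (X : RM R A R) (hA : Az R A) (hX : X.FF)
    (h : Module.finrank R A ≤ Module.finrank R X.M) :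
    ∃ F : X.M →ₗ[R] A, Eqv X (RM.reg R A) F ∧ Surjective F := by
  obtain ⟨_, _⟩ := hX
  have := SA.free (R := R) (A := A)
  have := SA.fin (R := R) (A := A)
  let _ : Module A X.M := Module.compHom X.M X.ρ
  have : IsScalarTower R A X.M := ⟨fun r a m => by
    change X.ρ (r • a) m = r • X.ρ a m
    rw [Algebra.smul_def, map_mul, Module.End.mul_apply, X.alg]
    rfl⟩
  obtain ⟨φ, hφ⟩ := surj_of_le h
  obtain ⟨F, hF⟩ := surj hA φ hφ
  exact ⟨F.restrictScalars R, fun a m => F.map_smul a m, hF⟩

theorem ker_free {R V W : Type u} [CommRing R] [IsLocalRing R] [IsNoetherianRing R]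
    [AddCommGroup V] [Module R V] [AddCommGroup W] [Module R W] [Module.Free R V]
    [Module.Finite R V] [Module.Free R W] [Module.Finite R W] (F : V →ₗ[R] W)
    (hF : Surjective F) : Module.Free R (LinearMap.ker F) ∧
      Module.finrank R (LinearMap.ker F) + Module.finrank R W = Module.finrank R V := by
  have : Module.Projective R (LinearMap.ker F) :=
    pd_zero_iff.1 (PD.left (LinearMap.ker F).subtype F (LinearMap.ker F).injective_subtype
      (LinearMap.exact_subtype_ker_map F) hF (PD.of_projective 0) (PD.of_projective 1))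
  have : Module.Free R (LinearMap.ker F) := Module.free_of_flat_of_isLocalRing
  obtain ⟨s, hs⟩ := Module.projective_lifting_property F LinearMap.id hF
  have e := ((LinearMap.exact_subtype_ker_map F).splitSurjectiveEquiv
    (LinearMap.ker F).injective_subtype ⟨s, hs⟩).1
  exact ⟨this, by rw [e.finrank_eq, Module.finrank_prod]⟩

theorem euc {R A : Type u} [CommRing R] [IsLocalRing R] [IsNoetherianRing R] [Ring A]
    [Algebra R A] [StarRing A] [SA R A] (m : ℕ) (hA : Az R A) (hm : m ∣ Module.finrank R A)
    (n : ℕ) : ∀ X : RM R A R, Module.finrank R X.M = n → X.FF → ¬ m ∣ Module.finrank R X.M →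
      ∃ X' : RM R A R, X'.FF ∧ ¬ m ∣ Module.finrank R X'.M ∧
        Module.finrank R X'.M ≤ Module.finrank R A := by
  induction n using Nat.strong_induction_on with
  | _ n ih =>
  intro X hn hX h
  by_cases hle : Module.finrank R X.M ≤ Module.finrank R A
  · exact ⟨X, hX, h, hle⟩
  have := SA.free (R := R) (A := A)
  have := SA.fin (R := R) (A := A)
  have h0 : Module.finrank R A ≠ 0 := fun h0 => by
    have : Subsingleton A := (Module.finrank_eq_zero_iff_of_free R A).1 h0
    have : Subsingleton X.M := subsingleton_of_forall_eq 0 fun x => by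
      have e := congrArg (fun a => X.ρ a x) (Subsingleton.elim (1 : A) 0)
      simpa using e
    exact h (by rw [Module.finrank_zero_of_subsingleton]; exact dvd_zero m)
  obtain ⟨F, hF, hs⟩ := surj_reg X hA hX (not_le.1 hle).le
  obtain ⟨_, _⟩ := hX
  obtain ⟨h1, h2⟩ := ker_free F hs
  refine ih (Module.finrank R (LinearMap.ker F)) (by omega) (X.sub _ (Eqv.ker (Y := RM.reg R A) hF))
    rfl ⟨h1, inferInstanceAs (Module.Finite R (LinearMap.ker F))⟩ fun hd => h ?_
  rw [← h2]
  exact dvd_add hd hm

theorem k0 (hc : S_Cover.{u}) {R A : Type u} [CommRing R] [IsRegularLocalRing R] [Ring A]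
    [Algebra R A] [StarRing A] [SA R A] (m : ℕ) (hm : m ∣ Module.finrank R A) (r : ℕ) :
    ∀ X : RM R A R, Module.Finite R X.M → PD R X.M r → ¬ m ∣ Module.finrank R X.M →
      ∃ X' : RM R A R, X'.FF ∧ ¬ m ∣ Module.finrank R X'.M := by
  have := rDom R
  induction r with
  | zero =>
    intro X hX hp h
    have := pd_zero_iff.1 hp
    exact ⟨X, ⟨Module.free_of_flat_of_isLocalRing, hX⟩, h⟩
  | succ r ih =>
    intro X hX hp h
    obtain ⟨ι, _, _, ρ, π, hπ, he, hd⟩ := hc R A R X hX
    refine ih ((ρ.map (Algebra.ofId R R)).rm.sub _ (Eqv.ker he))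
      (inferInstanceAs (Module.Finite R (LinearMap.ker π)))
      (PD.left (LinearMap.ker π).subtype π (LinearMap.ker π).injective_subtype
        (LinearMap.exact_subtype_ker_map π) hπ (PD.of_projective r) hp) fun hk => h ?_
    have e := (LinearMap.ker π).finrank_quotient_add_finrank
    rw [(π.quotKerEquivOfSurjective hπ).finrank_eq, Module.finrank_fintype_fun_eq_card] at e
    have h1 := hm.trans hd
    rw [← e] at h1
    exact (Nat.dvd_add_left hk).1 h1

end K0P

theorem pK0 (hc : S_Cover.{u}) : S_K0.{u} := by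
  intro R A _ _ _ _ _ _ m X hm hX h
  exact K0P.k0 hc m hm _ X hX
    (rPd _ R (IsRegularLocalRing.spanFinrank_maximalIdeal (R := R)).symm X.M) h

theorem pEuc : S_Euc.{u} := by
  intro R A _ _ _ _ _ _ _ m X hA hm hX h
  exact K0P.euc m hA hm _ X rfl hX h

end Pool.Agent.P.MP_46a8f8_ag.GU
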