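import Pool.Agent.P.MP_46a8f8_ag.GU.Ad
import Pool.Agent.P.MP_46a8f8_ag.GU.Rk
import Pool.Agent.P.MP_46a8f8_ag.GU.K0
import Pool.Agent.P.MP_46a8f8_ag.GU.Sep

/-!
Every rank of a finite module over an Azumaya algebra is the rank of a free one.
-/

namespace Pool.Agent.P.MP_46a8f8_ag.GU

open TensorProduct Function IsLocalRing

universe u

namespace PrjP

open RkP

section az

variable {S A V W : Type u} [CommRing S] {𝔫 : Ideal S} [Ring A] [Algebra S A]
  [AddCommGroup V] [Module A V] [Module S V] [IsScalarTower S A V]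
  [AddCommGroup W] [Module A W] [Module S W] [IsScalarTower S A W]

/-- a map that is onto modulo one maximal ideal -/
theorem onto_mod' [Module.Finite S V] [Module.Projective S V] (h𝔫 : 𝔫.IsMaximal) (hA : Az S A)
    (φ : V →ₗ[S] W) (hφ : Surjective φ) :
    ∃ F : V →ₗ[A] W, ∀ w, ∃ v, F v - w ∈ (𝔫 • ⊤ : Submodule S W) := by
  have : Module.Finite S W := Module.Finite.of_surjective φ hφ
  have := finite_quot (𝔫 := 𝔫) (A := A) (V := V)
  have := finite_quot (𝔫 := 𝔫) (A := A) (V := W)
  let q : V →ₗ[S] W ⧸ mS A W 𝔫 := (mS A W 𝔫).mkQ.restrictScalars S ∘ₗ φ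
  have hq : (mS A V 𝔫).restrictScalars S ≤ LinearMap.ker q := by
    intro x hx
    have h1 := Submodule.mem_map_of_mem (f := φ) (mem_mS.1 hx)
    rw [Submodule.map_smul''] at h1
    exact (Submodule.Quotient.mk_eq_zero _).2 (mem_mS.2
      ((Submodule.smul_mono le_rfl le_top : _ ≤ (𝔫 • ⊤ : Submodule S W)) h1))
  have hl : Module.length S (W ⧸ mS A W 𝔫) ≤ Module.length S (V ⧸ mS A V 𝔫) := by
    rw [← (Submodule.Quotient.restrictScalarsEquiv S (mS A V 𝔫)).length_eq]
    refine Module.length_le_of_surjective (Submodule.liftQ _ q hq) fun y => ?_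
    obtain ⟨x, hx⟩ := ((mS A W 𝔫).mkQ_surjective.comp hφ) y
    exact ⟨Submodule.Quotient.mk x, hx⟩
  obtain ⟨f, hf⟩ := gen (V := W ⧸ mS A W 𝔫) (W := V ⧸ mS A V 𝔫) hA kn_quot kn_quot hl
  have := (kn_quot (𝔫 := 𝔫) (A := A) (V := V)).semisimple
  obtain ⟨g, hg⟩ := IsSemisimpleModule.extension_property (f.restrictScalars S) hf
    (LinearMap.id : (W ⧸ mS A W 𝔫) →ₗ[S] _)
  obtain ⟨p, hp⟩ := hA.extend f LinearMap.id g fun v => LinearMap.congr_fun hg v
  let g0 : V →ₗ[A] W ⧸ mS A W 𝔫 := p ∘ₗ (mS A V 𝔫).mkQ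
  have hg0 : Surjective g0 :=
    Surjective.comp (g := p) (fun y => ⟨f y, hp y⟩) (mS A V 𝔫).mkQ_surjective
  obtain ⟨G, hG⟩ := Module.projective_lifting_property ((mS A W 𝔫).mkQ.restrictScalars S)
    (g0.restrictScalars S) (mS A W 𝔫).mkQ_surjective
  obtain ⟨F, hF⟩ := hA.lift (mS A W 𝔫).mkQ g0 G fun v => LinearMap.congr_fun hG v
  refine ⟨F, fun w => ?_⟩
  obtain ⟨v, hv⟩ := hg0 ((mS A W 𝔫).mkQ w)
  exact ⟨v, mem_mS.1 ((Submodule.Quotient.eq _).1 ((hF v).trans hv))⟩

/-- a surjection over the centre gives one over the algebra -/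
theorem onto [Finite (MaximalSpectrum S)] [Module.Finite S V] [Module.Projective S V]
    (hA : Az S A) (φ : V →ₗ[S] W) (hφ : Surjective φ) : ∃ G : V →ₗ[A] W, Surjective G := by
  classical
  have : Module.Finite S W := Module.Finite.of_surjective φ hφ
  have := Fintype.ofFinite (MaximalSpectrum S)
  choose F hF using fun 𝔪 : MaximalSpectrum S => onto_mod' 𝔪.isMaximal hA φ hφ
  choose j hj hj1 using fun 𝔪 : MaximalSpectrum S => exists_mem_sub_one_mem 𝔪.asIdeal
  let G : V →ₗ[A] W := ∑ 𝔪, (1 - j 𝔪) • F 𝔪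
  have hG : ∀ (𝔪 : MaximalSpectrum S) w, ∃ v, G v - w ∈ (𝔪.asIdeal • ⊤ : Submodule S W) := by
    intro 𝔪 w
    obtain ⟨v, hv⟩ := hF 𝔪 w
    refine ⟨v, ?_⟩
    have e1 : G v - w = (F 𝔪 v - w) - j 𝔪 • F 𝔪 v +
        ∑ 𝔭 ∈ Finset.univ.erase 𝔪, (1 - j 𝔭) • F 𝔭 v := by
      simp only [G, LinearMap.sum_apply, LinearMap.smul_apply]
      rw [← Finset.add_sum_erase _ _ (Finset.mem_univ 𝔪), sub_smul, one_smul]
      abel
    rw [e1]
    refine Submodule.add_mem _ (Submodule.sub_mem _ hv
      (Submodule.smul_mem_smul (hj 𝔪) Submodule.mem_top)) (Submodule.sum_mem _ fun 𝔭 h𝔭 => ?_)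
    refine Submodule.smul_mem_smul ?_ Submodule.mem_top
    rw [← neg_sub]
    refine neg_mem (hj1 𝔭 _ 𝔪.isMaximal fun hle => Finset.ne_of_mem_erase h𝔭 ?_)
    exact MaximalSpectrum.ext (𝔭.isMaximal.eq_of_le 𝔪.isMaximal.ne_top hle)
  refine ⟨G, ?_⟩
  by_contra hn
  obtain ⟨𝔪, h𝔪, hle⟩ := Ideal.exists_le_maximal
    ((LinearMap.range (G.restrictScalars S)).colon Set.univ) (by
      intro h
      have h1 := (Ideal.eq_top_iff_one _).1 h
      exact hn fun w => by simpa using Submodule.mem_colon.1 h1 w (Set.mem_univ w))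
  obtain ⟨r, hr, hr2⟩ := Submodule.exists_sub_one_mem_and_smul_le_of_fg_of_le_sup
    (I := 𝔪) (N := LinearMap.range (G.restrictScalars S)) (N' := ⊤) (P := ⊤)
    Module.Finite.fg_top le_rfl fun w _ => by
      obtain ⟨v, hv⟩ := hG ⟨𝔪, h𝔪⟩ w
      rw [show w = G v - (G v - w) by abel]
      exact Submodule.sub_mem _ (Submodule.mem_sup_left ⟨v, rfl⟩) (Submodule.mem_sup_right hv)
  have h2 : r ∈ 𝔪 := hle (Submodule.mem_colon.2 fun w _ =>
    hr2 (Submodule.smul_mem_pointwise_smul w r ⊤ Submodule.mem_top))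
  exact h𝔪.ne_top ((Ideal.eq_top_iff_one _).2 (by simpa using sub_mem h2 hr))

end az

/-- the ranks of free finite modules with an action of `E` -/
def Good (S E : Type u) [CommRing S] [Ring E] [Algebra S E] (r : ℕ) : Prop :=
  ∃ (P : Type u) (_ : AddCommGroup P) (_ : Module E P) (_ : Module S P)
    (_ : IsScalarTower S E P), Module.Free S P ∧ Module.Finite S P ∧ Module.finrank S P = r

theorem diff {S E V W : Type u} [CommRing S] [IsDomain S] [Finite (MaximalSpectrum S)] [Ring E]
    [Algebra S E] [AddCommGroup V] [Module E V] [Module S V] [IsScalarTower S E V]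
    [AddCommGroup W] [Module E W] [Module S W] [IsScalarTower S E W] [Module.Free S V]
    [Module.Finite S V] [Module.Free S W] [Module.Finite S W] (hA : Az S E) (r : ℕ)
    (h : r + Module.finrank S W = Module.finrank S V) : Good S E r := by
  obtain ⟨φ, hφ⟩ := K0P.surj_of_le (R := S) (V := V) (W := W) (by omega)
  obtain ⟨G, hG⟩ := onto hA φ hφ
  have hex : Exact ((LinearMap.ker G).subtype.restrictScalars S) (G.restrictScalars S) :=
    LinearMap.exact_subtype_ker_map G
  obtain ⟨s, hs⟩ := Module.projective_lifting_property (G.restrictScalars S) LinearMap.id hG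
  have e := (hex.splitSurjectiveEquiv (LinearMap.ker G).injective_subtype ⟨s, hs⟩).1
  have h1 : Module.Finite S (LinearMap.ker G) :=
    Module.Finite.of_surjective (LinearMap.fst S _ W ∘ₗ e.toLinearMap)
      (Prod.fst_surjective.comp e.surjective)
  have h2 : Module.Projective S (LinearMap.ker G) :=
    Module.Projective.of_split (e.symm.toLinearMap ∘ₗ LinearMap.inl S _ W)
      (LinearMap.fst S _ W ∘ₗ e.toLinearMap) (LinearMap.ext fun x => by simp)
  have h3 : Module.Free S (LinearMap.ker G) := pFreeS S _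
  refine ⟨LinearMap.ker G, inferInstance, inferInstance, inferInstance, inferInstance, h3, h1, ?_⟩
  have h4 := e.finrank_eq
  rw [Module.finrank_prod] at h4
  omega

theorem main {R S E : Type u} [CommRing R] [IsRegularLocalRing R] [CommRing S] [IsDomain S]
    [Algebra R S] [Module.Finite R S] [Algebra.Etale R S] [Ring E] [Algebra S E] [Algebra R E]
    [IsScalarTower R S E] [Module.Free S E] [Module.Finite S E] (hA : Az S E) (r : ℕ) :
    ∀ (M : Type u) [AddCommGroup M] [Module E M] [Module S M] [IsScalarTower S E M]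
      [Module R M] [IsScalarTower R S M] [IsScalarTower R E M] [Module.Finite R M], PD R M r →
      Good S E (Module.finrank S M) := by
  have := finite_maximalSpectrum R S
  have : Module.Free R S := Module.free_of_flat_of_isLocalRing
  have : Module.Free R E := Module.Free.trans (R := R) (S := S) (M := E)
  have : Module.Finite R E := Module.Finite.trans S E
  induction r with
  | zero =>
    intro M _ _ _ _ _ _ _ _ hp
    have := pd_zero_iff.1 hp
    have : Module.Projective S M := Algebra.FormallyUnramified.projective_of_restrictScalars R S M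
    have : Module.Finite S M := Module.Finite.of_restrictScalars_finite R S M
    exact ⟨M, inferInstance, inferInstance, inferInstance, inferInstance, pFreeS S M, this, rfl⟩
  | succ r ih =>
    intro M _ _ _ _ _ _ _ _ hp
    have : Module.Finite E M := Module.Finite.of_restrictScalars_finite R E M
    obtain ⟨n, π, hπ⟩ := Module.Finite.exists_fin' E M
    have hf : Module.Finite R (LinearMap.ker π) :=
      Module.Finite.of_injective ((LinearMap.ker π).subtype.restrictScalars R)
        (LinearMap.ker π).injective_subtype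
    obtain ⟨P, _, _, _, _, _, _, hP⟩ := ih (LinearMap.ker π)
      (PD.left ((LinearMap.ker π).subtype.restrictScalars R) (π.restrictScalars R)
        (LinearMap.ker π).injective_subtype (LinearMap.exact_subtype_ker_map π) hπ
        (PD.of_projective r) hp)
    refine diff (V := Fin n → E) (W := P) hA _ ?_
    have e := (LinearMap.ker (π.restrictScalars S)).finrank_quotient_add_finrank
    rw [((π.restrictScalars S).quotKerEquivOfSurjective hπ).finrank_eq] at e
    rw [hP]
    exact e

end PrjP

theorem pPrj : S_Prj.{u} := by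
  intro R S E M _ _ _ _ _ _ _ _ _ _ _ _ _ _ _ _ hA
  let _ : Algebra R E := RingHom.toAlgebra' ((algebraMap S E).comp (algebraMap R S))
    fun r x => Algebra.commutes (algebraMap R S r) x
  have : IsScalarTower R S E := IsScalarTower.of_algebraMap_eq fun _ => rfl
  let _ : Module R M := Module.compHom M (algebraMap R S)
  have : IsScalarTower R S M := ⟨fun r s m => by
    change (r • s) • m = algebraMap R S r • s • m
    rw [Algebra.smul_def, mul_smul]⟩
  have : IsScalarTower R E M := ⟨fun r x m => by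
    change (algebraMap S E (algebraMap R S r) * x) • m = algebraMap R S r • x • m
    rw [mul_smul, algebraMap_smul]⟩
  have : Module.Finite R M := Module.Finite.trans S M
  exact PrjP.main hA _ M
    (rPd _ R (IsRegularLocalRing.spanFinrank_maximalIdeal (R := R)).symm M)

end Pool.Agent.P.MP_46a8f8_ag.GU
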