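import Pool.Agent.P.MP_46a8f8_ag.GU.Ad

/-!
Purity for multipliers without a condition on the residue field.
-/

namespace Pool.Agent.P.MP_46a8f8_ag.GU

open TensorProduct Function IsLocalRing Polynomial

universe u

namespace PurDP

/-- specialisation along a point with principal kernel -/
theorem spec (h2 : S_GD.{u}) (h3 : S_HR.{u}) (h4 : S_Dm.{u}) {R A O K : Type u} [CommRing R]
    [Ring A] [Algebra R A] [StarRing A] [SA R A] [CommRing O] [IsDomain O] [IsNoetherianRing O]
    [Algebra R O] [Field K] [Algebra R K] (hO : Ok R A) (hT : Ty R A) (hD : Dm R O)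
    (ev : O →ₐ[R] K) (x : O) (hx : RingHom.ker ev = Ideal.span {x}) (w : O) (hw : ev w ≠ 0)
    (h : GP R A (FractionRing O) (algebraMap O (FractionRing O) w)) : GP R A K (ev w) := by
  let p : Ideal O := RingHom.ker ev
  have : p.IsPrime := RingHom.ker_isPrime _
  let V := Localization.AtPrime p
  have : IsNoetherianRing V := IsLocalization.isNoetherianRing p.primeCompl V inferInstance
  have hm : (maximalIdeal V).IsPrincipal := by
    have h5 := congrArg (Ideal.map (algebraMap O V)) hx
    rw [Ideal.map_span, Set.image_singleton] at h5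
    exact ⟨_, Localization.AtPrime.map_eq_maximalIdeal.symm.trans h5⟩
  have : IsPrincipalIdealRing V :=
    ((tfae_of_isNoetherianRing_of_isLocalRing_of_isDomain V).out 0 4).2 hm
  have hd : ringKrullDim V ≤ 2 :=
    (Ring.krullDimLE_iff.1 (inferInstance : Ring.KrullDimLE 1 V)).trans (by norm_num)
  have : IsScalarTower R V (FractionRing O) := IsScalarTower.of_algebraMap_eq fun r => by
    rw [IsScalarTower.algebraMap_apply R O V, ← IsScalarTower.algebraMap_apply O V,
      ← IsScalarTower.algebraMap_apply R O]
  have hV : Dm R V := (h4 R O hD).2 V p.primeCompl p.primeCompl_le_nonZeroDivisors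
  have : IsLocalHom (algebraMap V V) := isLocalHom_id V
  obtain ⟨g, g1, g2⟩ := h
  obtain ⟨a, a1, a2⟩ := h2 R A V (FractionRing O) hO hT (h3 R A V V hd hO hV)
    (algebraMap O V w) g (IsLocalization.map_units V (⟨w, hw⟩ : p.primeCompl))
    (by rwa [← IsScalarTower.algebraMap_apply])
  have a3 : dI R A V a = 1 :=
    IsFractionRing.injective V (FractionRing O) (by rw [a2, g2, map_one])
  have hu : ∀ s : p.primeCompl, IsUnit (ev (s : O)) := fun s => isUnit_iff_ne_zero.2 s.2
  have := GP.map ⟨a, a1, a3⟩ (IsLocalization.liftAlgHom (S := V) (f := ev) hu)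
  rwa [IsLocalization.liftAlgHom_apply, IsLocalization.lift_eq] at this

theorem up (h1 : S_PurS.{u}) (h4 : S_Dm.{u}) {R A B O : Type u} [CommRing R] [Ring A]
    [Algebra R A] [StarRing A] [SA R A] [CommRing B] [IsRegularLocalRing B] [CommRing O]
    [IsDomain O] [IsLocalRing O] [Algebra B O] [IsLocalHom (algebraMap B O)]
    [Algebra.FormallySmooth B O] [Algebra.EssFiniteType B O] [Algebra R O]
    (hd : ringKrullDim B ≤ 2) (hO : Ok R A) (hT : Ty R A) (hD : Dm R O)
    (hI : Infinite (O ⧸ (maximalIdeal B).map (algebraMap B O))) : Pur R A O (FractionRing O) :=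
  h1 R A B O (FractionRing O) hd hO hT
    ((h4 R O hD).2 (FractionRing O) (nonZeroDivisors O) le_rfl) hI

theorem dm_self (R : Type u) [CommRing R] : Dm R R := fun S _ _ _ _ =>
  (Algebra.TensorProduct.lid R S).injective.isDomain _

end PurDP

theorem pPurD (h1 : S_PurS.{u}) (h2 : S_GD.{u}) (h3 : S_HR.{u}) (h4 : S_Dm.{u}) : S_PurD.{u} := by
  intro R A B K _ _ _ _ _ _ _ _ _ _ _ _ _ _ _ hd hO hT h c F hh hF e
  have : IsDomain R := (IsFractionRing.injective R K).isDomain _
  have : IsNoetherianRing R := Algebra.EssFiniteType.isNoetherianRing B R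
  let 𝔮 := (maximalIdeal R).comap (evalRingHom (0 : R))
  let O := Localization.AtPrime 𝔮
  have : IsNoetherianRing O := IsLocalization.isNoetherianRing 𝔮.primeCompl O inferInstance
  have : Algebra.EssFiniteType R O := Algebra.EssFiniteType.comp R R[X] O
  have : Algebra.EssFiniteType B O := Algebra.EssFiniteType.comp B R O
  have : Algebra.FormallySmooth R O := inferInstance
  have : Algebra.FormallySmooth B O := Algebra.FormallySmooth.comp B R O
  have hu : ∀ s : 𝔮.primeCompl, IsUnit (aeval (0 : R) (s : R[X])) := fun s => by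
    by_contra hn
    exact s.2 (show evalRingHom (0 : R) s ∈ maximalIdeal R by
      simpa [coe_aeval_eq_eval] using hn)
  let ev : O →ₐ[R] R := IsLocalization.liftAlgHom (M := 𝔮.primeCompl) (f := aeval (0 : R)) hu
  have hev : ∀ r : R, ev (algebraMap R O r) = r := ev.commutes
  have hev' : ∀ q : R[X], ev (algebraMap R[X] O q) = q.eval 0 := fun q => by
    rw [IsLocalization.liftAlgHom_apply, IsLocalization.lift_eq]
    exact congrFun (coe_aeval_eq_eval (0 : R)) q
  have : IsLocalHom (algebraMap B O) := ⟨fun b hb => by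
    have h5 := hb.map ev
    rw [IsScalarTower.algebraMap_apply B R O, hev] at h5
    exact IsUnit.of_map (algebraMap B R) b h5⟩
  have hD : Dm R O := (h4 R R[X] (h4 R R (PurDP.dm_self R)).1).2 O 𝔮.primeCompl
    𝔮.primeCompl_le_nonZeroDivisors
  have hI : Infinite (O ⧸ (maximalIdeal B).map (algebraMap B O)) := by
    let k := ResidueField R
    let χ : R[X] →+* FractionRing k[X] :=
      (algebraMap k[X] (FractionRing k[X])).comp (mapRingHom (residue R))
    have hχ : ∀ s : 𝔮.primeCompl, IsUnit (χ (s : R[X])) := fun s => by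
      refine isUnit_iff_ne_zero.2 fun h0 => s.2 ?_
      have h5 : (s : R[X]).map (residue R) = 0 :=
        IsFractionRing.injective k[X] (FractionRing k[X]) (h0.trans (map_zero _).symm)
      have h6 := congrArg (fun q => q.coeff 0) h5
      simp only [coeff_map, coeff_zero, residue_eq_zero_iff] at h6
      change eval 0 (s : R[X]) ∈ maximalIdeal R
      rwa [← coeff_zero_eq_eval_zero]
    let ψ : O →+* FractionRing k[X] := IsLocalization.lift hχ
    have hψ : (maximalIdeal B).map (algebraMap B O) ≤ RingHom.ker ψ := by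
      refine Ideal.map_le_iff_le_comap.2 fun b hb => ?_
      have h5 : residue R (algebraMap B R b) = 0 :=
        (residue_eq_zero_iff _).2 (map_nonunit (algebraMap B R) b hb)
      change ψ (algebraMap B O b) = 0
      rw [IsScalarTower.algebraMap_apply B R[X] O, IsLocalization.lift_eq,
        Polynomial.algebraMap_apply]
      simp [χ, h5]
    refine Infinite.of_injective (fun n : ℕ => Ideal.Quotient.mk _ (algebraMap R[X] O (X ^ n)))
      fun m n hmn => ?_
    have h5 := hψ (Ideal.Quotient.eq.1 hmn)
    rw [RingHom.mem_ker, map_sub, sub_eq_zero, IsLocalization.lift_eq,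
      IsLocalization.lift_eq] at h5
    have h6 : (X ^ m : R[X]).map (residue R) = (X ^ n : R[X]).map (residue R) :=
      IsFractionRing.injective k[X] (FractionRing k[X]) h5
    have h7 := congrArg natDegree h6
    simpa using h7
  have hF' : algebraMap R O F ≠ 0 := fun h0 => hF (by rw [← hev F, h0, map_zero])
  obtain ⟨v, hv⟩ := PurDP.up h1 h4 hd hO hT hD hI (um (Algebra.ofId R O) h)
    (mp A (Algebra.ofId R O) c) (algebraMap R O F)
    (by
      change cj R A O (mp A (Algebra.ofId R O) h) = mp A (Algebra.ofId R O) h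
      rw [← mp_cj, hh]) hF'
    (by
      rw [← mp_cj, ← map_mul, e, mp_smul]
      rfl)
  have hk : RingHom.ker ((Algebra.ofId R K).comp ev) = Ideal.span {algebraMap R[X] O X} := by
    refine le_antisymm (fun y hy => ?_) ((Ideal.span_singleton_le_iff_mem _).2 ?_)
    · obtain ⟨⟨q, s⟩, rfl⟩ := IsLocalization.mk'_surjective 𝔮.primeCompl y
      have h5 : ev (IsLocalization.mk' O q s) = 0 :=
        IsFractionRing.injective R K (hy.trans (map_zero _).symm)
      have h6 : q.eval 0 = 0 := by
        rw [← hev', ← IsLocalization.mk'_spec O q s, map_mul, h5, zero_mul]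
      obtain ⟨q', rfl⟩ : X ∣ q := X_dvd_iff.2 (by rwa [coeff_zero_eq_eval_zero])
      change IsLocalization.mk' O (X * q') s ∈ _
      rw [← IsLocalization.mul_mk'_eq_mk'_of_mul]
      exact Ideal.mul_mem_right _ _ (Ideal.mem_span_singleton_self _)
    · change algebraMap R K (ev _) = 0
      rw [hev', eval_X, map_zero]
  have e1 : ((Algebra.ofId R K).comp ev) (v * algebraMap R O F) =
      algebraMap R K (Units.map (ev : O →* R) v * F) := by
    change algebraMap R K (ev _) = _
    rw [map_mul ev, hev]
    rfl
  refine ⟨Units.map (ev : O →* R) v, e1 ▸ PurDP.spec h2 h3 h4 hO hT hD _ _ hk _ ?_ hv⟩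
  rw [e1]
  exact fun h0 => mul_ne_zero (Units.ne_zero _) hF
    (IsFractionRing.injective R K (h0.trans (map_zero _).symm))

end Pool.Agent.P.MP_46a8f8_ag.GU
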