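import Pool.Agent.P.MP_46a8f8_ag.GU.Ad

/-!
Purity for multipliers over a factorial ring, prime by prime.
-/

namespace Pool.Agent.P.MP_46a8f8_ag.GU

open TensorProduct

universe u

namespace PurFP

/-- a multiplicative property that holds for units, squares and the primes of odd order -/
theorem ind {O : Type u} [CommRing O] [IsDomain O] [UniqueFactorizationMonoid O] (Q : O → Prop)
    (hu : ∀ x, IsUnit x → Q x) (hm : ∀ x y, Q x → Q y → Q (x * y))
    (hs : ∀ x, x ≠ 0 → Q (x * x)) (G : O) : G ≠ 0 →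
    (∀ (π F : O) (k : ℕ), Prime π → ¬ π ∣ F → G = π ^ (2 * k + 1) * F → Q π) → Q G := by
  induction G using (wellFounded_dvdNotUnit (α := O)).induction with
  | _ G ih =>
    intro hG H
    by_cases hU : IsUnit G
    · exact hu G hU
    obtain ⟨π, hi, hd⟩ := WfDvdMonoid.exists_irreducible_factor hU hG
    have hp : Prime π := UniqueFactorizationMonoid.irreducible_iff_prime.1 hi
    obtain ⟨m, F, hF, e⟩ := WfDvdMonoid.max_power_factor hG hi
    have F0 : F ≠ 0 := by
      rintro rfl
      exact hF (dvd_zero _)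
    have m0 : m ≠ 0 := by
      rintro rfl
      rw [e, pow_zero, one_mul] at hd
      exact hF hd
    have h1 : Q F := by
      refine ih F ⟨F0, π ^ m, fun h => hp.not_isUnit ((isUnit_pow_iff m0).1 h), ?_⟩ F0
        fun ρ F' k hρ hn e' => H ρ (π ^ m * F') k hρ (fun h => ?_) ?_
      · rw [e, mul_comm]
      · rcases hρ.dvd_or_dvd h with h | h
        · have h2 : π ∣ ρ :=
            ((hρ.irreducible.associated_of_dvd hi (hρ.dvd_of_dvd_pow h)).symm).dvd
          refine hF (h2.trans ?_)
          rw [e', pow_succ, mul_assoc]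
          exact Dvd.dvd.mul_left (dvd_mul_right _ _) _
        · exact hn h
      · rw [e, e']
        ring
    rw [e]
    refine hm _ _ ?_ h1
    obtain ⟨k, hk | hk⟩ := Nat.even_or_odd' m
    · rw [hk, two_mul, pow_add]
      exact hs _ (pow_ne_zero _ hp.ne_zero)
    · rw [hk, pow_succ, two_mul, pow_add]
      exact hm _ _ (hs _ (pow_ne_zero _ hp.ne_zero)) (H π F k hp hF (by rw [e, hk]))

end PurFP

theorem pPurF (h1 : S_Res.{u}) : S_PurF.{u} := by
  intro R A O K _ _ _ _ _ _ _ _ _ _ _ _ _ _ _ h c G d hh hG hd hc H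
  have inj : Function.Injective (algebraMap O K) := IsFractionRing.injective O K
  refine PurFP.ind (fun x => ∃ v : Oˣ, GP R A K (algebraMap O K (v * x))) ?_ ?_ ?_ G hG ?_
  · rintro x ⟨v, rfl⟩
    refine ⟨v, ?_⟩
    rw [map_mul]
    exact GP.sq (v.isUnit.map _)
  · rintro x y ⟨v, hv⟩ ⟨w, hw⟩
    refine ⟨v * w, ?_⟩
    have := hv.mul hw
    rwa [← map_mul, mul_mul_mul_comm, ← Units.val_mul] at this
  · intro x hx
    refine ⟨1, ?_⟩
    rw [Units.val_one, one_mul, map_mul]
    exact GP.sq (IsUnit.mk0 _ ((map_ne_zero_iff _ inj).2 hx))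
  · intro π F k hp hF e
    obtain ⟨m, d', hd', e'⟩ := WfDvdMonoid.max_power_factor hd hp.irreducible
    refine H π hp ?_ (h1 R A O π (F * (d' * d')) (k + m) h c hp (fun h2 => ?_) hh ?_)
    · rw [e, pow_succ, mul_assoc]
      exact Dvd.dvd.mul_left (dvd_mul_right _ _) _
    · rcases hp.dvd_or_dvd h2 with h2 | h2
      · exact hF h2
      · exact hd' ((hp.dvd_or_dvd h2).elim id id)
    · rw [hc, e, e']
      congr 1
      ring

end Pool.Agent.P.MP_46a8f8_ag.GU
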