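import Pool.Agent.P.MP_46a8f8_ag.GU.Ad
import Pool.Agent.P.MP_46a8f8_ag.GU.G1
import Pool.Agent.P.MP_46a8f8_ag.GU.G2
import Pool.Agent.P.MP_46a8f8_ag.GU.G3
import Pool.Agent.P.MP_46a8f8_ag.GU.G3t

/-!
Purity for multipliers over essentially smooth algebras.
-/

namespace Pool.Agent.P.MP_46a8f8_ag.GU

open TensorProduct Function IsLocalRing

universe u

namespace PurSP

variable {R A C K : Type u} [CommRing R] [Ring A] [Algebra R A] [CommRing C] [Algebra R C]
  [Field K] [Algebra R K] [Algebra C K]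

omit [Algebra C K] in
theorem mp_inj [Module.Free R A] [Module.Finite R A] (f : C →ₐ[R] K) (hf : Injective f) :
    Injective (mp A f) := by
  intro x y h
  have := (algebraMap R K).domain_nontrivial
  let b := Module.finBasis R A
  refine (Algebra.TensorProduct.basis C b).repr.injective (Finsupp.ext fun i => hf ?_)
  rw [← TorHP.repr_mp b f, ← TorHP.repr_mp b f, h]

theorem clear [IsDomain C] [IsScalarTower R C K] [IsFractionRing C K] (x : K ⊗[R] A) :
    ∃ (d : C) (y : C ⊗[R] A), d ≠ 0 ∧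
      mp A (IsScalarTower.toAlgHom R C K) y = algebraMap C K d • x := by
  induction x using TensorProduct.induction_on with
  | zero => exact ⟨1, 0, one_ne_zero, by simp⟩
  | add x y hx hy =>
    obtain ⟨d, x', hd, hx⟩ := hx
    obtain ⟨e, y', he, hy⟩ := hy
    refine ⟨d * e, e • x' + d • y', mul_ne_zero hd he, ?_⟩
    rw [map_add, mp_smul, mp_smul, hx, hy, smul_smul, smul_smul, smul_add, map_mul,
      IsScalarTower.toAlgHom_apply, IsScalarTower.toAlgHom_apply, mul_comm]
  | tmul k a =>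
    obtain ⟨⟨c, s⟩, e⟩ := IsLocalization.surj (nonZeroDivisors C) k
    refine ⟨s, c ⊗ₜ[R] a, nonZeroDivisors.coe_ne_zero s, ?_⟩
    rw [H90P.mp_tmul, smul_tmul', smul_eq_mul, mul_comm, e, IsScalarTower.toAlgHom_apply]

variable [StarRing A] [SA R A]

omit [Algebra R C] in
theorem gp_of_nh (h : S_NPp.{u}) (hO : Ok R A) (hT : Ty R A) (hD : Dm R K) {π : C}
    (hn : NH R A C K π) : ∃ v : Cˣ, GP R A K (algebraMap C K (v * π)) := by
  obtain ⟨L, _, _, _, _, _, hy, f, v, hf, e⟩ := hn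
  exact ⟨v, e ▸ h R A K L f hO hT hD hy hf⟩

end PurSP

open PurSP in
theorem pPurS (h1 : S_RegR.{u}) (h2 : S_UFD.{u}) (h3 : S_PPa.{u}) (h4 : S_PPb.{u})
    (h5 : S_NPp.{u}) (h6 : S_PurF.{u}) : S_PurS.{u} := by
  intro R A B O K _ _ _ _ _ _ _ _ _ _ _ _ _ _ _ _ _ _ _ hd hO hT hD hinf h c F hh hF hc
  have := SA.free (R := R) (A := A)
  have := SA.fin (R := R) (A := A)
  have := Algebra.EssFiniteType.isNoetherianRing B O
  obtain ⟨e, he⟩ : ∃ e : ℕ, ringKrullDim B = e :=
    ⟨_, ((isRegularLocalRing_iff B).1 inferInstance).symm⟩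
  obtain ⟨m, φ, hφ⟩ := struct B O
  have := RegBP.selfLoc B
  obtain ⟨hR, h𝔓, hreg⟩ := regB regAt regFlat rDom B O m e φ hφ
    ((regAt B B (maximalIdeal B) e).2 ⟨inferInstance, he⟩)
  have : IsDomain O := rDom O
  have := h1 B O m φ hd hφ
  have := h2 O
  set 𝔓 := (maximalIdeal B).map (algebraMap B O) with h𝔓def
  let O' := Localization.AtPrime 𝔓
  obtain ⟨hO1, hO2⟩ := (regAt O O' 𝔓 e).1 hreg
  have : UniqueFactorizationMonoid O' := inferInstance
  have : Infinite (ResidueField O') :=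
    Infinite.of_injective _ 𝔓.injective_algebraMap_quotient_residueField
  have hK : ∀ x : O, x ≠ 0 → IsUnit (algebraMap O K x) := fun x hx =>
    ((map_ne_zero_iff _ (IsFractionRing.injective O K)).2 hx).isUnit
  have hn : ∀ x : O, x ∉ 𝔓 → x ≠ 0 := fun x hx e => hx (e ▸ 𝔓.zero_mem)
  let : Algebra O' K := (IsLocalization.lift (M := 𝔓.primeCompl) (g := algebraMap O K)
    fun y => hK y (hn y y.2)).toAlgebra
  have : IsScalarTower O O' K := IsScalarTower.of_algebraMap_eq fun x =>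
    (IsLocalization.lift_eq (M := 𝔓.primeCompl) _ x).symm
  have : IsScalarTower R O' K := IsScalarTower.of_algebraMap_eq fun x => by
    rw [IsScalarTower.algebraMap_apply R O O', ← IsScalarTower.algebraMap_apply O O' K,
      ← IsScalarTower.algebraMap_apply]
  have : IsFractionRing O' K :=
    IsFractionRing.isFractionRing_of_isDomain_of_isLocalization 𝔓.primeCompl O' K
  let f := IsScalarTower.toAlgHom R O O'
  have hi : Injective (algebraMap O O') :=
    IsLocalization.injective O' 𝔓.primeCompl_le_nonZeroDivisors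
  obtain ⟨v', hv'⟩ := h6 R A O' K (um f h) (mp A f c) (algebraMap O O' F) 1
    (by
      change cj R A O' (mp A f h) = mp A f h
      rw [← mp_cj, hh])
    ((map_ne_zero_iff _ hi).2 hF) one_ne_zero
    (by
      rw [← mp_cj, ← map_mul, hc, mp_smul, mul_one, mul_one]
      rfl)
    fun π hπ _ hp => gp_of_nh h5 hO hT hD (h4 R A O' K π (by rw [hO2, ← he]; exact hd) hπ hp)
  obtain ⟨⟨a, b⟩, hab⟩ := IsLocalization.surj 𝔓.primeCompl (v' : O')
  have ha : a ∉ 𝔓 := (IsLocalization.AtPrime.isUnit_to_map_iff O' 𝔓 a).1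
    (hab ▸ v'.isUnit.mul (IsLocalization.map_units O' b))
  have hG : a * b ∉ 𝔓 := fun hh => (h𝔓.mem_or_mem hh).elim ha b.2
  have hGF : GP R A K (algebraMap O K (a * b * F)) := by
    have e1 : algebraMap O K a = algebraMap O' K v' * algebraMap O K b := by
      rw [IsScalarTower.algebraMap_apply O O' K, IsScalarTower.algebraMap_apply O O' K b,
        ← map_mul, hab]
    have e2 := hv'.mul (GP.sq (hK b (hn b b.2)))
    rw [map_mul, ← IsScalarTower.algebraMap_apply O O' K] at e2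
    rw [map_mul, map_mul, e1]
    convert e2 using 1
    ring
  generalize a * b = G at hG hGF
  obtain ⟨g, hg, -⟩ := id hGF
  obtain ⟨d, y, hd0, hy⟩ := clear (C := O) (g : K ⊗[R] A)
  have hy2 : y * cj R A O y = (d * d * (G * F)) • 1 := by
    refine mp_inj (IsScalarTower.toAlgHom R O K) (IsFractionRing.injective O K) ?_
    rw [map_mul, mp_cj, hy, map_smul, smul_mul_smul_comm, hg, mp_smul, map_one,
      Algebra.algebraMap_eq_smul_one (R := K), smul_smul, IsScalarTower.toAlgHom_apply,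
      map_mul _ (d * d), map_mul _ d d]
  obtain ⟨w, hw⟩ := h6 R A O K h (c * y) G (d * F) hh (hn G hG) (mul_ne_zero hd0 hF)
    (by
      rw [cj_mul, mul_assoc, ← mul_assoc y, hy2, smul_mul_assoc, one_mul, mul_smul_comm, hc,
        smul_smul]
      congr 1
      ring)
    fun π hπ hπG hp => by
      have hm : π ∈ maximalIdeal O := hπ.not_isUnit
      obtain ⟨R', _, _, φ', hφ', Q, N, hQ, hQN⟩ := pG1 B O m φ π hφ h𝔓 hm
        fun hh => hG (Ideal.mem_of_dvd 𝔓 hπG hh)
      obtain ⟨T, _, _, _, g, g1, g2, g3, g4⟩ := pG2 O R' φ' _ Q N hφ' hm hQ hQN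
      exact gp_of_nh h5 hO hT hD (h3 R A O K π hπ (pG3 pG3t O T _ g hm g1 g2 g3 g4) hp)
  refine ⟨w, GP.of_mul_sq (hK G (hn G hG)) ?_⟩
  convert hw.mul hGF using 1
  simp only [map_mul]
  ring

end Pool.Agent.P.MP_46a8f8_ag.GU
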