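import Pool.Agent.P.MP_46a8f8_ag.GU.Ad

/-!
Rings that are flat, unramified and essentially of finite type over a polynomial ring over a
regular local ring of dimension at most two are regular.
-/

namespace Pool.Agent.P.MP_46a8f8_ag.GU

open IsLocalRing

universe u

namespace RegRP

/-- a regular local ring of dimension at most two is a regular ring -/
theorem reg_base (h1 : S_Ht1.{u}) (B : Type u) [CommRing B] [IsRegularLocalRing B]
    (hB : ringKrullDim B ≤ 2) : IsRegularRing B := by
  have : IsDomain B := rDom B
  rw [isRegularRing_iff]
  intro p hp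
  by_cases hm : p = maximalIdeal B
  · subst hm
    have := RegBP.selfLoc B
    exact IsRegularLocalRing.of_ringEquiv
      (IsLocalization.algEquiv (maximalIdeal B).primeCompl B
        (Localization.AtPrime (maximalIdeal B))).toRingEquiv
  · obtain ⟨x, hx⟩ := h1 B p hB hp hm
    have hx' : p = Ideal.span {x} := hx
    have : IsDomain (Localization.AtPrime p) :=
      IsLocalization.isDomain_localization p.primeCompl_le_nonZeroDivisors
    have hpr : (maximalIdeal (Localization.AtPrime p)).IsPrincipal := by
      refine ⟨algebraMap B _ x, ?_⟩
      change _ = Ideal.span {algebraMap B (Localization.AtPrime p) x}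
      rw [← Localization.AtPrime.map_eq_maximalIdeal, ← Set.image_singleton, ← Ideal.map_span,
        ← hx']
    have : IsPrincipalIdealRing (Localization.AtPrime p) :=
      ((tfae_of_isNoetherianRing_of_isLocalRing_of_isDomain (Localization.AtPrime p)).out 4 0).1
        hpr
    infer_instance

/-- flat unramified algebras essentially of finite type over regular rings are regular -/
theorem reg_up {C R : Type u} [CommRing C] [IsRegularRing C] [CommRing R] [IsNoetherianRing R]
    [Algebra C R] [Module.Flat C R] [Algebra.FormallyUnramified C R]
    [Algebra.EssFiniteType C R] : IsRegularRing R := by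
  rw [isRegularRing_iff]
  intro n hn
  set r := n.comap (algebraMap C R) with hr
  let L := Localization.AtPrime n
  have : Algebra.FormallyUnramified R L := Algebra.FormallyUnramified.of_isLocalization
    n.primeCompl
  have : Algebra.FormallyUnramified C L := Algebra.FormallyUnramified.comp C R L
  have : Algebra.EssFiniteType R L := Algebra.EssFiniteType.of_isLocalization L n.primeCompl
  have : Algebra.EssFiniteType C L := Algebra.EssFiniteType.comp C R L
  have hmax := RegBP.map_comap_max (C := C) (R := L)
  have hcm : (maximalIdeal L).comap (algebraMap C L) = r := by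
    have h0 : (maximalIdeal L).comap (algebraMap R L) = n :=
      Localization.AtPrime.under_maximalIdeal
    rw [IsScalarTower.algebraMap_eq C R L, ← Ideal.comap_comap, h0]
  rw [hcm] at hmax
  obtain ⟨d, hd⟩ : ∃ d : ℕ, r.height = d :=
    ⟨r.height.toNat, (ENat.natCast_toNat (r.height_ne_top Ideal.IsPrime.ne_top')).symm⟩
  have hCr : RegAt C r d := by
    refine (regAt C (Localization.AtPrime r) r d).2 ⟨inferInstance, ?_⟩
    rw [IsLocalization.AtPrime.ringKrullDim_eq_height r, hd]
    rfl
  have hRn : RegAt R n d := by
    refine regFlat C R n d (Module.Flat.trans C R _) (fun x hx => ?_) hCr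
    have hxL : algebraMap R L x ∈ (r.map (algebraMap C R)).map (algebraMap R L) := by
      rw [Ideal.map_map, ← IsScalarTower.algebraMap_eq, hmax,
        ← Localization.AtPrime.map_eq_maximalIdeal]
      exact Ideal.mem_map_of_mem _ hx
    obtain ⟨s, hs, hsx⟩ :=
      (IsLocalization.algebraMap_mem_map_algebraMap_iff n.primeCompl L _ x).1 hxL
    exact ⟨s, hs, hsx⟩
  exact ((regAt R L n d).1 hRn).1

end RegRP

theorem pRegR (h1 : S_Ht1.{u}) : S_RegR.{u} := by
  intro B R _ _ _ _ _ m φ hB hE
  obtain ⟨hfl, hun, hef⟩ := hE
  have : IsRegularRing B := RegRP.reg_base h1 B hB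
  let C := MvPolynomial (Fin m) B
  letI : Algebra C R := (φ : C →+* R).toAlgebra
  have : Module.Flat C R := hfl
  have : Algebra.FormallyUnramified C R := hun
  have : Algebra.EssFiniteType C R := hef
  have : IsRegularRing C := MvPolynomial.isRegularRing_of_isRegularRing B
  exact RegRP.reg_up (C := C)

end Pool.Agent.P.MP_46a8f8_ag.GU
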