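import Pool.Agent.P.MP_46a8f8_ag.GU.Ad
import Pool.Agent.P.MP_46a8f8_ag.GU.Bcg

/-!
Package Res: residues at a prime element, and hyperbolicity over a principal ideal domain.
-/

namespace Pool.Agent.P.MP_46a8f8_ag.GU

open TensorProduct Function Matrix IsLocalRing

universe u

namespace ResP

/-- the localisation at a nonzero principal prime is a discrete valuation ring -/
theorem dvr {O : Type u} [CommRing O] [IsDomain O] [IsNoetherianRing O] {x : O} (hx : x ≠ 0)
    [(Ideal.span {x}).IsPrime] :
    ∃ _ : IsDiscreteValuationRing (Localization.AtPrime (Ideal.span {x})),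
      Irreducible (algebraMap O (Localization.AtPrime (Ideal.span {x})) x) := by
  have h1 : maximalIdeal (Localization.AtPrime (Ideal.span {x})) =
      Ideal.span {algebraMap O (Localization.AtPrime (Ideal.span {x})) x} := by
    rw [← Localization.AtPrime.map_eq_maximalIdeal, Ideal.map_span, Set.image_singleton]
  have h2 : ¬ IsField (Localization.AtPrime (Ideal.span {x})) := fun h => by
    have h3 := isField_iff_maximalIdeal_eq.1 h
    rw [h1, Ideal.span_singleton_eq_bot] at h3
    exact hx (IsLocalization.injective (Localization.AtPrime (Ideal.span {x}))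
      (Ideal.span {x}).primeCompl_le_nonZeroDivisors (h3.trans (map_zero _).symm))
  have h4 : (maximalIdeal (Localization.AtPrime (Ideal.span {x}))).IsPrincipal := ⟨_, h1⟩
  have h5 : IsDiscreteValuationRing (Localization.AtPrime (Ideal.span {x})) :=
    ((IsDiscreteValuationRing.TFAE _ h2).out 0 4).2 h4
  exact ⟨h5, (IsDiscreteValuationRing.irreducible_iff_uniformizer _).2 h1⟩

section loc

variable {R A O V : Type u} [CommRing R] [Ring A] [Algebra R A] [CommRing O] [Algebra R O]
  [CommRing V] [Algebra R V]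

theorem mp_inj [Module.Free R A] (f : O →ₐ[R] V) (hf : Injective f) : Injective (mp A f) :=
  Module.Flat.rTensor_preserves_injective_linearMap (M := A) f.toLinearMap hf

theorem clear [Algebra O V] [IsScalarTower R O V] (M : Submonoid O) [IsLocalization M V]
    (x : V ⊗[R] A) : ∃ (d : M) (y : O ⊗[R] A),
      mp A (IsScalarTower.toAlgHom R O V) y = algebraMap O V d • x := by
  induction x using TensorProduct.induction_on with
  | zero => exact ⟨1, 0, by simp⟩
  | tmul v a =>
    obtain ⟨⟨o, d⟩, h⟩ := IsLocalization.surj M v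
    refine ⟨d, o ⊗ₜ[R] a, ?_⟩
    change algebraMap O V o ⊗ₜ[R] a = _
    rw [smul_tmul', smul_eq_mul, mul_comm, h]
  | add x x' h h' =>
    obtain ⟨d, y, h⟩ := h
    obtain ⟨d', y', h'⟩ := h'
    refine ⟨d * d', (d' : O) • y + (d : O) • y', ?_⟩
    rw [map_add, mp_smul, mp_smul, h, h', smul_smul, smul_smul, smul_add, Submonoid.coe_mul,
      map_mul, mul_comm (algebraMap O V d)]
    exact congrArg₂ _ rfl (by rw [mul_comm]; rfl)

end loc

theorem hyp {D B : Type u} [CommRing D] [IsDomain D] [IsPrincipalIdealRing D] [Ring B]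
    [Algebra D B] [StarRing B] [hB : SA D B] (s : B) (δ : D) (hδ : δ ≠ 0) (hs : star s = -s)
    (hss : s * s = algebraMap D B (δ * δ)) : ∃ j : B, star j = -j ∧ j * j = 1 := by
  have := hB.free
  have := hB.fin
  let L : B →ₗ[D] B := LinearMap.mulRight D s - δ • LinearMap.id
  have hL : ∀ x, x ∈ LinearMap.ker L ↔ x * s = δ • x := fun x => by
    rw [LinearMap.mem_ker, ← sub_eq_zero (a := x * s)]; rfl
  have hN : (RM.reg D B).Stab (LinearMap.ker L) := fun a x hx => by
    change a * x ∈ _
    rw [hL, mul_assoc, (hL x).1 hx, mul_smul_comm]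
  obtain ⟨g, hg⟩ := L.rangeRestrict.exists_rightInverse_of_surjective L.range_rangeRestrict
  have hg' : ∀ y, L (g y) = y := fun y => congrArg Subtype.val (LinearMap.congr_fun hg y)
  let r : B →ₗ[D] LinearMap.ker L :=
    (LinearMap.id - g.comp L.rangeRestrict).codRestrict _ fun x => by
      change L (x - g (L.rangeRestrict x)) = 0
      rw [map_sub, hg']
      exact sub_self _
  obtain ⟨e, he, he1, he2⟩ := hN.exists_proj r fun y => Subtype.ext (by
    have : L.rangeRestrict y = 0 := Subtype.ext y.2
    change (y : B) - g (L.rangeRestrict y) = y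
    rw [this, map_zero, sub_zero])
  obtain ⟨ε, hε⟩ : ∃ ε : B, ε = e 1 := ⟨_, rfl⟩
  have hεN : ε * s = δ • ε := (hL ε).1 (hε ▸ he1 1)
  have hfix : ∀ x : B, x * s = δ • x → x * ε = x := fun x hx => by
    have h1 : e (x * 1) = x * e 1 := he x 1
    rw [hε, ← h1, mul_one]
    exact he2 x ((hL x).2 hx)
  have hst : ∀ (d : D) (x : B), star (d • x) = d • star x := fun d x => by
    rw [Algebra.smul_def, star_mul, hB.st, ← Algebra.commutes, ← Algebra.smul_def]
  have hee : ε * ε = ε := hfix ε hεN
  have hηη : star ε * star ε = star ε := by rw [← star_mul, hee]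
  have h0 : ε * star ε = 0 := by
    have h1 : s * star ε = -(δ • star ε) := by
      have := congrArg star hεN
      rw [star_mul, hs, hst, neg_mul] at this
      rw [← this, neg_neg]
    have h2 : δ • (ε * star ε) = -(δ • (ε * star ε)) := by
      conv_lhs => rw [← smul_mul_assoc, ← hεN, mul_assoc, h1, mul_neg, mul_smul_comm]
    have h3 : (2 * δ) • (ε * star ε) = 0 := by
      rw [two_mul, add_smul]
      exact eq_neg_iff_add_eq_zero.1 h2
    exact (smul_eq_zero.1 h3).resolve_left (mul_ne_zero hB.two.ne_zero hδ)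
  have h1 : (1 - star ε) * ε = 1 - star ε := by
    refine hfix _ ?_
    have h2 : (algebraMap D B δ + s) * ε = algebraMap D B δ + s := hfix _ (by
      rw [add_mul, hss, map_mul, Algebra.smul_def, mul_add, add_comm])
    have h3 := congrArg star h2
    rw [star_mul, star_add, hB.st, hs] at h3
    have h4 : (1 - star ε) * (algebraMap D B δ + -s) = 0 := by
      rw [sub_mul, one_mul, h3, sub_self]
    rw [mul_add, mul_neg, ← Algebra.commutes, ← Algebra.smul_def, add_neg_eq_zero] at h4
    exact h4.symm
  refine ⟨ε - star ε, by rw [star_sub, star_star, neg_sub], ?_⟩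
  have h2 : star ε * ε = ε + star ε - 1 := by
    rw [sub_mul, one_mul] at h1
    rw [← sub_sub_cancel ε (star ε * ε), h1]
    abel
  rw [sub_mul, mul_sub, mul_sub, hee, h0, hηη, h2]
  abel

end ResP

theorem pRes (h1 : S_ResV.{u}) : S_Res.{u} := by
  intro R A O _ _ _ _ hA _ _ _ _ π F k h c hπ hF hh hc
  have := hA.free
  have hp : (Ideal.span {π}).IsPrime := (Ideal.span_singleton_prime hπ.ne_zero).2 hπ
  obtain ⟨_, hirr⟩ := ResP.dvr hπ.ne_zero
  have hinj := IsLocalization.injective (Localization.AtPrime (Ideal.span {π}))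
    (Ideal.span {π}).primeCompl_le_nonZeroDivisors
  have hFu : IsUnit (algebraMap O (Localization.AtPrime (Ideal.span {π})) F) :=
    IsLocalization.map_units _
      (⟨F, fun h => hF (Ideal.mem_span_singleton.1 h)⟩ : (Ideal.span {π}).primeCompl)
  have hcl := ResP.clear (R := R) (A := A) (V := Localization.AtPrime (Ideal.span {π}))
    (Ideal.span {π}).primeCompl
  generalize_proofs at *
  revert hcl hFu hinj hirr
  set V := Localization.AtPrime (Ideal.span {π})
  intro hirr hinj hFu hcl
  let f := IsScalarTower.toAlgHom R O V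
  have hf : ∀ o, f o = algebraMap O V o := fun _ => rfl
  have hi : Injective (mp A f) := ResP.mp_inj f hinj
  letI := bcStar R A V
  have := (pBcg R A V).1
  have hu : ((Units.map (algebraMap V (V ⊗[R] A) : V →* V ⊗[R] A) hFu.unit * um f h :
      (V ⊗[R] A)ˣ) : V ⊗[R] A) = f F • mp A f h := (Algebra.smul_def _ _).symm
  obtain ⟨s, a, a', e1, e2⟩ := h1 V (V ⊗[R] A) (f π) k
    (Units.map (algebraMap V (V ⊗[R] A) : V →* V ⊗[R] A) hFu.unit * um f h) (mp A f c) hirr
    (by
      change cj R A V _ = _
      rw [hu, map_smul, ← mp_cj, hh])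
    (by
      change _ * cj R A V _ = _
      rw [hu, ← mp_cj, ← map_mul, hc, mp_smul, map_mul, map_pow, smul_smul])
  change cj R A V s + s = _ at e1
  obtain ⟨d1, s0, k1⟩ := hcl s
  obtain ⟨d2, a0, k2⟩ := hcl a
  obtain ⟨d3, b0, k3⟩ := hcl a'
  rw [← hf] at k1 k2 k3
  change mp A f _ = _ at k1 k2 k3
  refine ⟨((d2 : O) * d3) • s0, ((d1 : O) * d3) • a0, ((d1 : O) * d1 * d2 * d2 * d3) • b0,
    (d1 * d2 * d3 : (Ideal.span {π}).primeCompl),
    fun h => (d1 * d2 * d3).2 (Ideal.mem_span_singleton.2 h), hi ?_, hi ?_⟩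
  · rw [map_add, mp_cj, mp_smul, mp_smul, mp_smul, k1, k2, smul_smul, map_smul, ← smul_add, e1]
    simp only [smul_smul, map_mul]
    congr 1
    ring
  · rw [map_mul, map_add, mp_alg, mp_smul, mp_smul, mp_smul, k1, k3, smul_smul,
      smul_mul_smul_comm, e2, smul_add, Algebra.algebraMap_eq_smul_one]
    simp only [smul_smul, map_mul, Submonoid.coe_mul]
    congr 2 <;> ring

theorem pHypD : S_HypD.{u} := by
  intro R A D _ _ _ _ _ _ _ _ _ s δ hδ hs hss
  letI := bcStar R A D
  have := (pBcg R A D).1
  exact ResP.hyp s δ hδ hs hss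

end Pool.Agent.P.MP_46a8f8_ag.GU
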