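import Pool.Agent.P.MP_46a8f8_ag.GU.Ad

/-!
Package ResV: the residue over a discrete valuation ring.
-/

namespace Pool.Agent.P.MP_46a8f8_ag.GU

open TensorProduct Function

universe u

namespace ResVP

theorem dvd_or {O : Type u} [CommRing O] [IsDomain O] [IsDiscreteValuationRing O] {π : O}
    (hπ : Irreducible π) (k : ℕ) (d : O) : d ∣ π ^ k ∨ π ^ (k + 1) ∣ d := by
  by_cases hd : d = 0
  · exact Or.inr (hd ▸ dvd_zero _)
  obtain ⟨m, v, rfl⟩ := IsDiscreteValuationRing.eq_unit_mul_pow_irreducible hd hπ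
  rcases le_or_gt m k with h | h
  · exact Or.inl (Units.mul_left_dvd.2 (pow_dvd_pow π h))
  · exact Or.inr (Dvd.dvd.mul_left (pow_dvd_pow π h) _)

/-- the two maps given by the Smith normal form -/
theorem smith {O M : Type u} [CommRing O] [IsDomain O] [IsDiscreteValuationRing O]
    [AddCommGroup M] [Module O M] [Module.Free O M] [Module.Finite O M] {π : O}
    (hπ : Irreducible π) (k : ℕ) (φ : M →ₗ[O] M) :
    ∃ g p : M →ₗ[O] M, (∀ y, φ (g y) = π ^ k • p y) ∧
      ∀ y, ∃ w, φ y - p (φ y) = π ^ (k + 1) • w := by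
  classical
  obtain ⟨n, bM, bN, f, d, snf⟩ :=
    (LinearMap.range φ).smithNormalForm (Module.Free.chooseBasis O M)
  let g := bM.constr O fun j => if h : ∃ e, φ e = π ^ k • bM j then h.choose else 0
  let p := bM.constr O fun j => if ∃ e, φ e = π ^ k • bM j then bM j else 0
  refine ⟨g, p, fun y => ?_, fun y => ?_⟩
  · have : φ ∘ₗ g = π ^ k • p := bM.ext fun j => by
      simp only [g, p, LinearMap.comp_apply, LinearMap.smul_apply, Module.Basis.constr_basis]
      split_ifs with h
      · exact h.choose_spec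
      · rw [map_zero, smul_zero]
    exact LinearMap.congr_fun this y
  · have key : ∀ i, ∃ w, (bN i : M) - p (bN i) = π ^ (k + 1) • w := by
      intro i
      rw [snf i, map_smul]
      simp only [p, Module.Basis.constr_basis]
      split_ifs with h
      · exact ⟨0, by rw [sub_self, smul_zero]⟩
      · rcases dvd_or hπ k (d i) with ⟨t, ht⟩ | ⟨t, ht⟩
        · obtain ⟨e, he⟩ := (bN i).2
          exact absurd ⟨t • e, by rw [map_smul, he, snf i, smul_smul, ht, mul_comm]⟩ h
        · exact ⟨t • bM (f i), by rw [smul_zero, sub_zero, smul_smul, ht]⟩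
    choose w hw using key
    have e : φ y = ∑ i, bN.repr ⟨φ y, y, rfl⟩ i • (bN i : M) := by
      have := congrArg Subtype.val (bN.sum_repr ⟨φ y, y, rfl⟩)
      rw [Submodule.coe_sum] at this
      exact this.symm
    refine ⟨∑ i, bN.repr ⟨φ y, y, rfl⟩ i • w i, ?_⟩
    generalize bN.repr ⟨φ y, y, rfl⟩ = r at e
    rw [e, map_sum, ← Finset.sum_sub_distrib, Finset.smul_sum]
    refine Finset.sum_congr rfl fun i _ => ?_
    rw [map_smul, ← smul_sub, hw, smul_comm]

/-- a right inverse up to a nonzero scalar is a left inverse up to that scalar -/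
theorem inv_comm {O A : Type u} [CommRing O] [IsDomain O] [Ring A] [Algebra O A]
    [Module.Free O A] [Module.Finite O A] {c c' : A} {r : O} (hr : r ≠ 0)
    (h : c * c' = r • (1 : A)) : c' * c = r • (1 : A) := by
  have e : LinearMap.mulLeft O c * LinearMap.mulLeft O c' = r • (1 : A →ₗ[O] A) := by
    ext x
    simp [← mul_assoc, h]
  have hd : LinearMap.det (LinearMap.mulLeft O c) ≠ 0 := by
    intro h0
    have := congrArg LinearMap.det e
    rw [map_mul, h0, zero_mul, LinearMap.det_smul, map_one, mul_one] at this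
    exact pow_ne_zero _ hr this.symm
  have hi : Injective (LinearMap.mulLeft O c) := by
    rw [← LinearMap.ker_eq_bot]
    by_contra hk
    exact hd (LinearMap.det_eq_zero_iff_ker_ne_bot.2 hk)
  apply hi
  simp only [LinearMap.mulLeft_apply]
  rw [← mul_assoc, h, smul_mul_assoc, mul_smul_comm, one_mul, mul_one]

/-- averaging the two maps -/
theorem eps {O A : Type u} [CommRing O] [IsDomain O] [IsDiscreteValuationRing O] [Ring A]
    [Algebra O A] [StarRing A] [SA O A] {π : O} (hπ : Irreducible π) (k : ℕ) (c : A) :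
    ∃ γ ε w : A, γ * c = π ^ k • ε ∧ c * (1 - ε) = π ^ (k + 1) • w := by
  have := SA.free (R := O) (A := A)
  have := SA.fin (R := O) (A := A)
  obtain ⟨n, a, b, h1, hc⟩ := SA.sep (R := O) (A := A)
  obtain ⟨g, p, hg, hp⟩ := smith hπ k (LinearMap.mulRight O c)
  simp only [LinearMap.mulRight_apply] at hg hp
  choose w hw using hp
  refine ⟨∑ i, a i * g (b i), ∑ i, a i * p (b i), ∑ i, a i * w (b i), ?_, ?_⟩
  · rw [Finset.sum_mul, Finset.smul_sum]
    refine Finset.sum_congr rfl fun i _ => ?_
    rw [mul_assoc, hg, mul_smul_comm]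
  · have e := congrArg (TensorProduct.lift ((LinearMap.mul O A).compl₂ p)) (hc c)
    simp only [map_sum, TensorProduct.lift.tmul, LinearMap.compl₂_apply,
      LinearMap.mul_apply'] at e
    have e1 : c * ∑ i, a i * p (b i) = ∑ i, a i * p (b i * c) := by
      rw [← e, Finset.mul_sum]
      exact Finset.sum_congr rfl fun i _ => (mul_assoc _ _ _).symm
    have e2 : c * 1 = ∑ i, a i * (b i * c) := by
      rw [mul_one]
      conv_lhs => rw [← one_mul c, ← h1, Finset.sum_mul]
      exact Finset.sum_congr rfl fun i _ => mul_assoc _ _ _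
    rw [mul_sub, e1, e2, ← Finset.sum_sub_distrib, Finset.smul_sum]
    refine Finset.sum_congr rfl fun i _ => ?_
    rw [← mul_sub, hw, mul_smul_comm]

end ResVP

open ResVP in
theorem pResV : S_ResV.{u} := by
  intro O A _ _ _ _ _ _ _ π k h c hπ hh hc
  have := SA.free (R := O) (A := A)
  have := SA.fin (R := O) (A := A)
  have hp : ∀ m : ℕ, π ^ m ≠ 0 := fun m => pow_ne_zero m hπ.ne_zero
  have can : ∀ (m : ℕ) (x y : A), π ^ m • x = π ^ m • y → x = y := fun m x y hxy =>
    smul_right_injective A (hp m) hxy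
  obtain ⟨γ, ε, w, h1, h2⟩ := eps hπ k c
  have h3 : star c * ↑h⁻¹ * c = π ^ (2 * k + 1) • (1 : A) := by
    refine inv_comm (hp _) ?_
    rw [← mul_assoc, hc, smul_mul_assoc, Units.mul_inv]
  have h1' : star c * star γ = π ^ k • star ε := by
    rw [← star_mul, h1, HermP.star_smul']
  have h2' : (1 - star ε) * star c = π ^ (k + 1) • star w := by
    have := congrArg star h2
    rwa [star_mul, star_sub, star_one, HermP.star_smul'] at this
  have a1 : ε * star ε = π • (γ * h * star γ) := by
    refine can (k + k) _ _ ?_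
    have : γ * c * (star c * star γ) = γ * (c * star c) * star γ := by
      simp only [mul_assoc]
    rw [h1, h1', hc, smul_mul_smul_comm, ← pow_add, mul_smul_comm, smul_mul_assoc] at this
    rw [this, smul_smul, ← pow_succ, two_mul]
  have a2 : ε * (1 - ε) = π • (γ * w) := by
    refine can k _ _ ?_
    rw [← smul_mul_assoc, ← h1, mul_assoc, h2, mul_smul_comm, smul_smul, pow_succ]
  have a3 : (1 - star ε) * star ε = π • star (γ * w) := by
    have := congrArg star a2
    rwa [star_mul, star_sub, star_one, HermP.star_smul'] at this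
  have a4 : (1 - star ε) * (1 - ε) = π • (star w * ↑h⁻¹ * w) := by
    refine can (2 * k + 1) _ _ ?_
    have : (1 - star ε) * star c * ↑h⁻¹ * (c * (1 - ε)) =
        (1 - star ε) * (star c * ↑h⁻¹ * c) * (1 - ε) := by
      simp only [mul_assoc]
    rw [h2', h2, h3, mul_smul_comm (π ^ (2 * k + 1)), mul_one, smul_mul_assoc (π ^ (2 * k + 1)),
      smul_mul_assoc (π ^ (k + 1)), smul_mul_smul_comm, ← pow_add] at this
    rw [← this, smul_smul, ← pow_succ]
    congr 2
    ring
  refine ⟨ε - star ε, 0,
    -(γ * w) - star (γ * w) - γ * h * star γ - star w * ↑h⁻¹ * w, ?_, ?_⟩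
  · rw [star_sub, star_star, smul_zero]
    abel
  · rw [smul_sub, smul_sub, smul_sub, smul_neg, ← a1, ← a2, ← a3, ← a4]
    noncomm_ring

end Pool.Agent.P.MP_46a8f8_ag.GU
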