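import Pool.Agent.P.MP_46a8f8_ag.GU.Ad
import Pool.Agent.P.MP_46a8f8_ag.GU.C1
import Pool.Agent.P.MP_46a8f8_ag.GU.Step0

/-!
In dimension two a Lagrangian is free and a direct summand away from the closed point.
-/

namespace Pool.Agent.P.MP_46a8f8_ag.GU

open TensorProduct Function Matrix IsLocalRing

universe u

namespace Step2P

theorem pid_of_principal {R : Type u} [CommRing R] [IsDomain R] [IsNoetherianRing R]
    (p : Ideal R) [p.IsPrime] (hp : p.IsPrincipal) :
    IsPrincipalIdealRing (Localization.AtPrime p) := by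
  have h : (maximalIdeal (Localization.AtPrime p)).IsPrincipal := by
    obtain ⟨π, hπ⟩ := hp
    rw [← Localization.AtPrime.map_eq_maximalIdeal]
    refine ⟨algebraMap R _ π, ?_⟩
    change Ideal.map _ p = Ideal.span {algebraMap R _ π}
    rw [← Set.image_singleton, ← Ideal.map_span]
    exact congrArg _ hπ
  exact ((tfae_of_isNoetherianRing_of_isLocalRing_of_isDomain (Localization.AtPrime p)).out 0 4).2 h

end Step2P

open Step2P in
theorem pStep2 (h1 : S_Ht1.{u}) : S_Step2.{u} := by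
  intro R A _ _ _ _ _ _ hd E ε hE ⟨L, hL⟩
  have := rDom R
  have := hE.good.fin
  have := hE.free
  have ht : ∀ (r : R) (y : E.M ⧸ L), r ≠ 0 → r • y = 0 → y = 0 := fun r y hr hy => by
    obtain ⟨e, rfl⟩ := Submodule.Quotient.mk_surjective _ y
    have h4 : r • e ∈ L := (Submodule.Quotient.mk_eq_zero _).1 hy
    rw [Submodule.Quotient.mk_eq_zero, hL.mem]
    intro l hl
    have h5 := hL.mem.1 h4 l hl
    rw [map_smul, LinearMap.smul_apply, smul_eq_mul] at h5
    exact (mul_eq_zero.1 h5).resolve_left hr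
  obtain ⟨z, hz, hz2⟩ := SetLike.not_le_iff_exists.1 (PdP.not_le_sq 1 hd)
  have hz0 : z ≠ 0 := fun e => hz2 (e ▸ Submodule.zero_mem _)
  have hreg : IsSMulRegular (E.M ⧸ L) z :=
    (injective_iff_map_eq_zero (DistribSMul.toAddMonoidHom _ z)).2 fun y hy => ht z y hz0 hy
  have hpd : PD R (E.M ⧸ L) 1 := pd_of_reg 1 hd hz hz2 _ hreg
  have : Module.Projective R L := pd_zero_iff.1 (PD.left L.subtype L.mkQ L.injective_subtype
    (LinearMap.exact_subtype_mkQ L) L.mkQ_surjective (PD.of_projective 0) hpd)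
  have hfree : Module.Free R L := Module.free_of_flat_of_isLocalRing
  have hrad : maximalIdeal R ≤ (C1P.fac L.mkQ).radical := by
    rw [Ideal.radical_eq_sInf]
    refine le_sInf fun p hp => ?_
    by_contra hne
    have hp2 : p.IsPrime := hp.2
    have hne' : p ≠ maximalIdeal R := fun e => hne (e ▸ le_rfl)
    exact C1P.not_le L.mkQ L.mkQ_surjective ht p
      (pid_of_principal p (h1 R p hd.le hp2 hne')) hp.1
  obtain ⟨N, hN⟩ := Ideal.exists_pow_le_of_le_radical_of_fg hrad (IsNoetherian.noetherian _)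
  have hm : ∀ e, e ∈ L ↔ L.mkQ e = 0 := fun e => (Submodule.Quotient.mk_eq_zero _).symm
  refine ⟨⟨E.toRM.sub L hL.1, ⟨hfree, inferInstanceAs (Module.Finite R L)⟩, L.subtype,
    E.toRM.eqv_subtype L hL.1, fun q q' => hL.isot _ q.2 _ q'.2,
    fun p hp => ⟨⟨p, hL.mem.2 fun l hl => hp ⟨l, hl⟩⟩, rfl⟩⟩, N, fun r hr ξ => ?_⟩
  obtain ⟨s, hs⟩ := Step0P.retr hm (hN hr)
  obtain ⟨e, he⟩ := hE.perf.exists (ξ ∘ₗ s)
  refine ⟨e, LinearMap.ext fun l => ?_⟩
  refine (he _).trans ?_
  exact (congrArg ξ (hs l)).trans (map_smul ξ r l)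

end Pool.Agent.P.MP_46a8f8_ag.GU
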