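import Pool.Agent.P.MP_46a8f8_ag.GU.Ad
import Pool.Agent.P.MP_46a8f8_ag.GU.Bcg

/-!
Package SubQ: Lagrangians of subquotients, and the transfer of a hyperbolic involution.
-/

namespace Pool.Agent.P.MP_46a8f8_ag.GU

open TensorProduct Function

universe u

theorem pSubQ : S_SubQ.{u} := by
  intro R A k _ _ _ _ _ _ _ ε Z Y X i r hg hp hL _ hi hr hs hb hW
  obtain ⟨L, hL1, hL2⟩ := hL
  let W := LinearMap.range i
  have hWs : Z.Stab W := by
    rintro a _ ⟨x, rfl⟩
    exact ⟨X.ρ a x, hi a x⟩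
  have hP : Z.Stab (Z.perp W) := hg.stab_perp hWs
  have hPW : ∀ p ∈ Z.perp W, p ∈ W := fun p h => hW p fun x => h _ ⟨x, rfl⟩
  refine ⟨((L ⊔ Z.perp W).comap i).map r, ?_, Submodule.ext fun y => ⟨fun hy => ?_, ?_⟩⟩
  · rintro a _ ⟨x, hx, rfl⟩
    refine ⟨X.ρ a x, ?_, hr a x⟩
    obtain ⟨l, hl, p, hp', e⟩ := Submodule.mem_sup.1 (Submodule.mem_comap.1 hx)
    refine Submodule.mem_comap.2 ?_
    rw [hi a x, ← e, map_add]
    exact Submodule.add_mem_sup (hL1 a l hl) (hP a p hp')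
  · obtain ⟨x, rfl⟩ := hs y
    refine ⟨x, Submodule.mem_comap.2 ?_, rfl⟩
    rw [← hL2, ← hg.perp_inf hp]
    rintro _ ⟨hu, x', rfl⟩
    rw [← hb]
    exact hy _ ⟨x', Submodule.mem_comap.2 (Submodule.mem_sup_left hu), rfl⟩
  · rintro ⟨x, hx, rfl⟩ _ ⟨x', hx', rfl⟩
    obtain ⟨l, hl, p, hp1, e⟩ := Submodule.mem_sup.1 (Submodule.mem_comap.1 hx)
    obtain ⟨l', hl', p', hp2, e'⟩ := Submodule.mem_sup.1 (Submodule.mem_comap.1 hx')
    have h1 : Z.b p (i x') = 0 := hp1 _ ⟨x', rfl⟩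
    have h2 : Z.b l l' = 0 := (hL2.ge hl) l' hl'
    have h3 : Z.b (i x) p' = 0 := hg.zero (hp2 _ ⟨x, rfl⟩)
    have h4 : Z.b p p' = 0 := hp1 _ (hPW p' hp2)
    have h5 : Z.b l p' = 0 := by
      rw [← e, map_add, LinearMap.add_apply, h4, add_zero] at h3
      exact h3
    rw [hb, ← e, map_add, LinearMap.add_apply, h1, add_zero, ← e', map_add, h2, h5, add_zero]

namespace SubQP

variable {K A L : Type u} [Field K] [Ring A] [Algebra K A] [StarRing A] [SA K A] [Field L]
  [Algebra K L]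

/-- the transfer of the trace form -/
@[reducible] noncomputable def tZ (τ : A →ₗ[K] K) (s : L →ₗ[K] K) : FM K A K K where
  M := L ⊗[K] A
  ρ := (Algebra.lmul K (L ⊗[K] A)).toRingHom.comp (BcgP.inc (R := K) (A := A) L).toRingHom
  alg r m := by
    change BcgP.inc L (algebraMap K A r) * m = _
    rw [AlgHom.commutes, ← Algebra.smul_def]
    rfl
  b := LinearMap.mk₂ K (fun x y : L ⊗[K] A => s (BcgP.ex L τ (x * cj K A L y)))
    (fun x x' y => by rw [add_mul, map_add, map_add])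
    (fun c x y => by rw [smul_mul_assoc, LinearMap.map_smul_of_tower, map_smul])
    (fun x y y' => by rw [map_add, mul_add, map_add, map_add])
    (fun c x y => by
      rw [LinearMap.map_smul_of_tower, mul_smul_comm, LinearMap.map_smul_of_tower, map_smul])

theorem tZ_b (τ : A →ₗ[K] K) (s : L →ₗ[K] K) (x y : L ⊗[K] A) :
    (tZ τ s).b x y = s (BcgP.ex L τ (x * cj K A L y)) := rfl

theorem tZ_ρ (τ : A →ₗ[K] K) (s : L →ₗ[K] K) (a : A) (x : L ⊗[K] A) :
    (tZ τ s).ρ a x = ((1 : L) ⊗ₜ[K] a) * x := rfl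

theorem ex_cj {τ : A →ₗ[K] K} {ε : ℤˣ} (h : Trc τ ε) (x : L ⊗[K] A) :
    BcgP.ex L τ (cj K A L x) = ε • BcgP.ex L τ x := by
  induction x using TensorProduct.induction_on with
  | zero => rw [map_zero, map_zero, smul_zero]
  | add x x' h1 h2 => rw [map_add, map_add, map_add, h1, h2, smul_add]
  | tmul o x =>
    rw [cj_tmul, BcgP.ex_tmul, BcgP.ex_tmul, h.st, Units.smul_def, Units.smul_def, map_zsmul,
      mul_smul_comm]

theorem tZ_zero {τ : A →ₗ[K] K} {ε : ℤˣ} (h : Trc τ ε) {s : L →ₗ[K] K} (hs : s ≠ 0)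
    {x : L ⊗[K] A} (hx : ∀ y, s (BcgP.ex L τ (x * cj K A L y)) = 0) : x = 0 := by
  have := SA.free (R := K) (A := A)
  have := SA.fin (R := K) (A := A)
  refine (injective_iff_map_eq_zero _).1 (BcgP.ex_perf (O := L) h.perf).1 x
    (LinearMap.ext fun z => ?_)
  change BcgP.ex L τ (x * z) = 0
  by_contra hz
  refine hs (LinearMap.ext fun l => ?_)
  have e := hx ((l * (BcgP.ex L τ (x * z))⁻¹) • cj K A L z)
  rw [map_smul, cj_cj, mul_smul_comm, map_smul, smul_eq_mul, inv_mul_cancel_right₀ hz] at e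
  exact e

end SubQP

open SubQP

theorem pTrL : S_TrL.{u} := by
  intro K A L _ _ _ _ hA _ _ _ τ ε s h hs hy
  obtain ⟨j, hj, hjj⟩ := hy
  have := hA.free
  have := hA.fin
  have hfin : Module.Finite K (L ⊗[K] A) := inferInstance
  refine ⟨tZ τ s, TensorProduct.mk K L A, ⟨hfin, fun a x y => ?_, fun x y => ?_⟩, ?_, ?_, ?_,
    fun a l x => ?_, fun l l' x x' => ?_⟩
  · rw [tZ_b, tZ_b, tZ_ρ, tZ_ρ, cj_mul, cj_tmul, star_star, mul_assoc, BcgP.ex_comm h.comm,
      mul_assoc]
  · have e := ex_cj (L := L) h (x * cj K A L y)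
    rw [cj_mul, cj_cj] at e
    rw [tZ_b, tZ_b, e, Units.smul_def, Units.smul_def, map_zsmul]
  · have hi : Injective (tZ τ s).b := (injective_iff_map_eq_zero _).2 fun x hx =>
      tZ_zero h hs fun y => LinearMap.congr_fun hx y
    exact ⟨hi, (LinearMap.injective_iff_surjective_of_finrank_eq_finrank
      (Subspace.dual_finrank_eq (K := K) (V := L ⊗[K] A)).symm).1 hi⟩
  · refine ⟨LinearMap.ker (LinearMap.mulRight K (1 - j)), fun a (x : L ⊗[K] A) hx => ?_,
      Submodule.ext fun (x : L ⊗[K] A) => ⟨fun hx => ?_, fun hx (y : L ⊗[K] A) hy => ?_⟩⟩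
    · change x * (1 - j) = 0 at hx
      change ((1 : L) ⊗ₜ[K] a) * x * (1 - j) = 0
      rw [mul_assoc, hx, mul_zero]
    · change x * (1 - j) = 0
      refine tZ_zero h hs fun y => ?_
      have e := hx (y * (1 + j)) (by
        change y * (1 + j) * (1 - j) = 0
        rw [mul_assoc, add_mul, one_mul, mul_sub, mul_one, hjj, sub_add_sub_cancel, sub_self,
          mul_zero])
      rw [tZ_b, cj_mul, map_add, cj_one, hj, ← sub_eq_add_neg, ← mul_assoc] at e
      exact e
    · change x * (1 - j) = 0 at hx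
      change y * (1 - j) = 0 at hy
      have e1 : x * j = x := by
        rw [mul_sub, mul_one, sub_eq_zero] at hx
        exact hx.symm
      have e2 : j * cj K A L y = -cj K A L y := by
        have e := congrArg (cj K A L) hy
        rw [cj_mul, map_sub, cj_one, hj, map_zero, sub_neg_eq_add, add_mul, one_mul] at e
        exact eq_neg_of_add_eq_zero_right e
      have e3 : x * cj K A L y = -(x * cj K A L y) := by
        conv_lhs => rw [← e1, mul_assoc, e2, mul_neg]
      have e4 := congrArg (fun z => s (BcgP.ex L τ z)) e3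
      simp only [map_neg] at e4
      rw [tZ_b]
      refine (hA.two.mul_right_eq_zero).1 ?_
      rw [two_mul]
      exact add_eq_zero_iff_eq_neg.2 e4
  · rw [TensorProduct.lift_mk]
    exact bijective_id
  · rw [tZ_ρ, TensorProduct.mk_apply, TensorProduct.mk_apply, Algebra.TensorProduct.tmul_mul_tmul,
      one_mul]
  · rw [tZ_b, TensorProduct.mk_apply, TensorProduct.mk_apply, cj_tmul,
      Algebra.TensorProduct.tmul_mul_tmul, BcgP.ex_tmul, mul_comm, ← Algebra.smul_def, map_smul,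
      smul_eq_mul, mul_comm]

end Pool.Agent.P.MP_46a8f8_ag.GU
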