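import Pool.Agent.P.MP_46a8f8_ag.GU.Ad
import Pool.Agent.P.MP_46a8f8_ag.GU.Sep

/-!
Torsors under the neutral component of the automorphism group.
-/

namespace Pool.Agent.P.MP_46a8f8_ag.GU

open TensorProduct Function IsLocalRing

universe u

namespace TorAP

/-- conjugation by a unit as an automorphism -/
def innE (C : Type u) {E : Type u} [CommRing C] [Ring E] [Algebra C E] (g : Eˣ) : E ≃ₐ[C] E where
  toFun x := g * (x * (g⁻¹ : Eˣ))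
  invFun x := (g⁻¹ : Eˣ) * (x * g)
  left_inv x := by simp [mul_assoc]
  right_inv x := by simp [mul_assoc]
  map_mul' x y := by simp [mul_assoc]
  map_add' x y := by rw [add_mul, mul_add]
  commutes' c := by rw [Algebra.commutes, Units.mul_inv_cancel_left]

variable {R A : Type u} [CommRing R] [Ring A] [Algebra R A] {T T' : Type u} [CommRing T]
  [Algebra R T] [CommRing T'] [Algebra R T']

theorem lin_ext {M : Type u} [AddCommGroup M] [Module T M] (l l' : T ⊗[R] A →ₗ[T] M)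
    (h : ∀ a, l ((1 : T) ⊗ₜ[R] a) = l' ((1 : T) ⊗ₜ[R] a)) (x : T ⊗[R] A) : l x = l' x := by
  induction x using TensorProduct.induction_on with
  | zero => simp
  | add x y hx hy => rw [map_add, map_add, hx, hy]
  | tmul t a =>
    have e : t ⊗ₜ[R] a = t • ((1 : T) ⊗ₜ[R] a) := by rw [smul_tmul', smul_eq_mul, mul_one]
    rw [e, map_smul, map_smul, h]

theorem mp1 (f : T →ₐ[R] T') (a : A) : mp A f ((1 : T) ⊗ₜ[R] a) = (1 : T') ⊗ₜ[R] a := by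
  rw [H90P.mp_tmul, map_one]

theorem cen {S : Type u} [CommRing S] [Algebra S A] (s : S) (x : T ⊗[R] A) :
    ((1 : T) ⊗ₜ[R] algebraMap S A s) * x = x * (1 : T) ⊗ₜ[R] algebraMap S A s := by
  induction x using TensorProduct.induction_on with
  | zero => simp
  | add x y hx hy => rw [mul_add, add_mul, hx, hy]
  | tmul t a =>
    rw [Algebra.TensorProduct.tmul_mul_tmul, Algebra.TensorProduct.tmul_mul_tmul, mul_comm t,
      Algebra.commutes]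

theorem bc_symm {f : T →ₐ[R] T'} {φ : T ⊗[R] A ≃ₐ[T] T ⊗[R] A} {φ' : T' ⊗[R] A ≃ₐ[T'] T' ⊗[R] A}
    (h : ∀ x, φ' (mp A f x) = mp A f (φ x)) (x : T ⊗[R] A) :
    φ'.symm (mp A f x) = mp A f (φ.symm x) := by
  rw [AlgEquiv.symm_apply_eq, h, AlgEquiv.apply_symm_apply]

variable [StarRing A] [SA R A]

theorem bc_cj {A' : Type u} [Ring A'] [Algebra R A'] [StarRing A'] [SA R A'] {f : T →ₐ[R] T'}
    {φ : T ⊗[R] A' ≃ₐ[T] T ⊗[R] A} {φ' : T' ⊗[R] A' ≃ₐ[T'] T' ⊗[R] A}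
    (h : ∀ x, φ' (mp A' f x) = mp A f (φ x))
    (h1 : ∀ a, φ ((1 : T) ⊗ₜ[R] star a) = cj R A T (φ ((1 : T) ⊗ₜ[R] a))) (x : T' ⊗[R] A') :
    φ' (cj R A' T' x) = cj R A T' (φ' x) :=
  lin_ext (φ'.toLinearMap ∘ₗ cj R A' T') (cj R A T' ∘ₗ φ'.toLinearMap) (fun a => by
    change φ' ((1 : T') ⊗ₜ[R] star a) = cj R A T' (φ' ((1 : T') ⊗ₜ[R] a))
    rw [← mp1 f, ← mp1 f, h, h, h1, mp_cj]) x

variable (S : Type u) [CommRing S] [Algebra S A]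

/-- commutes with the involution and fixes the centre -/
def Gd (φ : T ⊗[R] A ≃ₐ[T] T ⊗[R] A) : Prop :=
  (∀ x, φ (cj R A T x) = cj R A T (φ x)) ∧
    ∀ s : S, φ ((1 : T) ⊗ₜ[R] algebraMap S A s) = (1 : T) ⊗ₜ[R] algebraMap S A s

/-- lies in the neutral component -/
def Z (φ : T ⊗[R] A ≃ₐ[T] T ⊗[R] A) : Prop := Gd S φ ∧ skd (cj R A T) φ.toLinearMap = 1

variable {S}

theorem Gd.bc {f : T →ₐ[R] T'} {φ : T ⊗[R] A ≃ₐ[T] T ⊗[R] A} {φ' : T' ⊗[R] A ≃ₐ[T'] T' ⊗[R] A}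
    (H : Gd S φ) (h : ∀ x, φ' (mp A f x) = mp A f (φ x)) : Gd S φ' :=
  ⟨bc_cj h fun a => H.1 ((1 : T) ⊗ₜ[R] a), fun s => by rw [← mp1 f, h, H.2]⟩

theorem Gd.trans {φ ψ : T ⊗[R] A ≃ₐ[T] T ⊗[R] A} (H : Gd S φ) (H' : Gd S ψ) :
    Gd S (φ.trans ψ) :=
  ⟨fun x => by rw [AlgEquiv.trans_apply, AlgEquiv.trans_apply, H.1, H'.1],
    fun s => by rw [AlgEquiv.trans_apply, H.2, H'.2]⟩

theorem Gd.skd_eq {φ ψ χ : T ⊗[R] A ≃ₐ[T] T ⊗[R] A} (H : Gd S φ) (h : ∀ x, χ x = ψ (φ x)) :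
    skd (cj R A T) χ.toLinearMap =
      skd (cj R A T) ψ.toLinearMap * skd (cj R A T) φ.toLinearMap :=
  skd_comp (two_unit R A T) cj_cj H.1 h

theorem skd_bc {f : T →ₐ[R] T'} {φ : T ⊗[R] A ≃ₐ[T] T ⊗[R] A}
    {φ' : T' ⊗[R] A ≃ₐ[T'] T' ⊗[R] A} (h : ∀ x, φ' (mp A f x) = mp A f (φ x)) :
    skd (cj R A T') φ'.toLinearMap = f (skd (cj R A T) φ.toLinearMap) := skd_mp f h

theorem Z.bc {f : T →ₐ[R] T'} {φ : T ⊗[R] A ≃ₐ[T] T ⊗[R] A} {φ' : T' ⊗[R] A ≃ₐ[T'] T' ⊗[R] A}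
    (H : Z S φ) (h : ∀ x, φ' (mp A f x) = mp A f (φ x)) : Z S φ' :=
  ⟨H.1.bc h, by rw [skd_bc h, H.2, map_one]⟩

theorem Z.trans {φ ψ : T ⊗[R] A ≃ₐ[T] T ⊗[R] A} (H : Z S φ) (H' : Z S ψ) : Z S (φ.trans ψ) :=
  ⟨H.1.trans H'.1, by rw [H.1.skd_eq (ψ := ψ) fun _ => rfl, H.2, H'.2, mul_one]⟩

theorem Z.symm {φ : T ⊗[R] A ≃ₐ[T] T ⊗[R] A} (H : Z S φ) : Z S φ.symm := by
  refine ⟨⟨fun x => ?_, fun s => ?_⟩, ?_⟩
  · rw [AlgEquiv.symm_apply_eq, H.1.1, AlgEquiv.apply_symm_apply]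
  · rw [AlgEquiv.symm_apply_eq, H.1.2]
  · have h := H.1.skd_eq (ψ := φ.symm) (χ := AlgEquiv.refl) fun x => (φ.symm_apply_apply x).symm
    rw [H.2, mul_one] at h
    rw [← h]
    exact skd_id (two_unit R A T) cj_cj fun _ => rfl

theorem gd_inn {g : (T ⊗[R] A)ˣ} {w : T} (h : Sml R A T g w) : Gd S (innE T g) :=
  ⟨h.inn_cj, fun s => by
    change (g : T ⊗[R] A) * (_ * _) = _
    rw [cen, Units.mul_inv_cancel_left]⟩

variable {σ : A →ₗ[R] A}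

/-- the underlying automorphism -/
def eqv (g : AZero S σ T) : T ⊗[R] A ≃ₐ[T] T ⊗[R] A := g.1

theorem z_eqv (hσ : ∀ x, σ x = star x) (g : AZero S σ T) : Z S (eqv g) := by
  refine ⟨⟨fun x => ?_, g.2.2.1⟩, g.2.2.2 (skm (cj R A T) (eqv g).toLinearMap) (fun x hx => ?_)
    fun x hx => ?_⟩
  · rw [← cj_eq_conj hσ, ← cj_eq_conj hσ]
    exact g.2.1 x
  · exact skm_sym (two_unit R A T) (by rwa [cj_eq_conj hσ] at hx)
  · exact skm_skew (two_unit R A T) (by rwa [cj_eq_conj hσ] at hx)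

/-- an element of the neutral component -/
def zmk (hσ : ∀ x, σ x = star x) (φ : T ⊗[R] A ≃ₐ[T] T ⊗[R] A) (H : Z S φ) : AZero S σ T :=
  ⟨φ, fun x => by
    rw [cj_eq_conj hσ, cj_eq_conj hσ]
    exact H.1.1 x, H.1.2, fun ψ h h' => by
    have e := eq_skm (ι := cj R A T) (φ := φ.toLinearMap) (ψ := ψ) (two_unit R A T) cj_cj
      (fun x hx => h x (by rwa [cj_eq_conj hσ])) fun x hx => h' x (by rwa [cj_eq_conj hσ])
    exact (congrArg LinearMap.det e).trans H.2⟩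

omit [StarRing A] [SA R A] in
theorem coc {O : Type u} [CommRing O] [Algebra R O] {p q : O →ₐ[R] T}
    {ψ : O ⊗[R] A ≃ₐ[O] O ⊗[R] A} {c ψp ψq : T ⊗[R] A ≃ₐ[T] T ⊗[R] A}
    (h : ∀ a, c (mp A p (ψ ((1 : O) ⊗ₜ[R] a))) = mp A q (ψ ((1 : O) ⊗ₜ[R] a)))
    (hp : ∀ x, ψp (mp A p x) = mp A p (ψ x)) (hq : ∀ x, ψq (mp A q x) = mp A q (ψ x))
    (x : T ⊗[R] A) : ψq x = c (ψp x) :=
  lin_ext ψq.toLinearMap (c.toLinearMap ∘ₗ ψp.toLinearMap) (fun a => by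
    change ψq ((1 : T) ⊗ₜ[R] a) = c (ψp ((1 : T) ⊗ₜ[R] a))
    conv_rhs => rw [← mp1 p, hp, h]
    rw [← mp1 q, hq]) x

theorem point {R O : Type u} [CommRing R] [CommRing O] [Algebra R O] [Module.FaithfullyFlat R O]
    (t : O →ₐ[R] O) (key : (H90P.iL R O O).comp t = (H90P.iR R O O).comp t) :
    Nonempty (O →ₐ[R] R) := by
  have hinj : Injective (algebraMap R O) := FaithfulSMul.algebraMap_injective R O
  choose t' ht' using fun o => mem_range_of_eq (R := R) (t o) (AlgHom.congr_fun key o)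
  exact ⟨{
    toFun := t'
    map_one' := hinj (by rw [ht', map_one, map_one])
    map_mul' := fun a b => hinj (by rw [map_mul, ht', ht', ht', map_mul])
    map_zero' := hinj (by rw [ht', map_zero, map_zero])
    map_add' := fun a b => hinj (by rw [map_add, ht', ht', ht', map_add])
    commutes' := fun r => hinj (by rw [ht', AlgHom.commutes]; rfl) }⟩

end TorAP

open TorAP in
theorem pTorA (hTw : S_Tw.{u}) (hAz : S_AzD.{u}) : S_TorA.{u} := by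
  intro R S A K _ _ _ _ _ _ _ _ _ _ _ _ _ _ σ hσ hA hIso hAd O _ _ hT hK
  obtain ⟨hff, act, -, a2, a3, a4⟩ := hT
  obtain ⟨p₀⟩ := hK
  choose c hc hc' using a4
  dsimp only at hc hc'
  obtain ⟨A', _, _, _, _, μ, hfin, m1, m2, m3⟩ := hTw R S A O (fun T _ _ p q => eqv (c T p q))
    (fun T _ _ p q => (z_eqv hσ (c T p q)).1.1) (fun T _ _ p q => (z_eqv hσ (c T p q)).1.2)
    (fun T T' _ _ _ _ f p q x => by
      obtain ⟨φ, hφ⟩ := exists_bce f (eqv (c T p q))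
      rw [← hc' T' (f.comp p) (f.comp q) (zmk hσ φ ((z_eqv hσ _).bc hφ))
        (by rw [← a3 T T' f (c T p q) (zmk hσ φ ((z_eqv hσ _).bc hφ)) p hφ, hc])]
      exact hφ x)
    (fun T _ _ p q r x => by
      rw [← hc' T p r (zmk hσ _ ((z_eqv hσ (c T p q)).trans (z_eqv hσ (c T q r))))
        (by rw [a2 T (c T q r) (c T p q) _ p fun _ => rfl, hc, hc])]
      rfl)
  have hA' : AzI R S A' := hAz R S A A' O μ hA m1 m2
  have : SA R A' := pSep pAzS R S A' hA'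
  have := hA.tower
  have := hA'.tower
  obtain ⟨φ, hφ⟩ := exists_bce p₀ μ
  obtain ⟨α, hα⟩ := hIso A' φ hA' (fun s => by rw [← mp1 p₀, hφ, m2, mp1]) (bc_cj hφ m1)
  obtain ⟨ψ, hψ⟩ : ∃ ψ : O ⊗[R] A ≃ₐ[O] O ⊗[R] A,
      ∀ a, ψ ((1 : O) ⊗ₜ[R] a) = μ ((1 : O) ⊗ₜ[R] α.symm a) :=
    ⟨(Algebra.TensorProduct.congr (AlgEquiv.refl (R := O) (A₁ := O))
      (α.symm.restrictScalars R)).trans μ, fun _ => rfl⟩
  have g1 : Gd S ψ := ⟨bc_cj (f := AlgHom.id R O) (φ := ψ)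
      (fun x => by rw [H90P.mp_id, H90P.mp_id]) fun a => by
        rw [hψ, hψ, ← m1]
        congr 2
        rw [AlgEquiv.symm_apply_eq, hα, AlgEquiv.apply_symm_apply],
    fun s => by rw [hψ, AlgEquiv.commutes, m2]⟩
  have g2 : ∀ a, eqv (c _ (H90P.iL R O O) (H90P.iR R O O))
      (mp A (H90P.iL R O O) (ψ ((1 : O) ⊗ₜ[R] a))) = mp A (H90P.iR R O O) (ψ ((1 : O) ⊗ₜ[R] a)) :=
    fun a => by
      rw [hψ]
      exact m3 _ _ _ _
  obtain ⟨δ, hδ⟩ : ∃ δ, algebraMap R O δ = skd (cj R A O) ψ.toLinearMap := by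
    obtain ⟨ψ1, h1⟩ := exists_bce (H90P.iL R O O) ψ
    obtain ⟨ψ2, h2⟩ := exists_bce (H90P.iR R O O) ψ
    have h3 := (g1.bc h1).skd_eq (coc g2 h1 h2)
    rw [(z_eqv hσ _).2, one_mul, skd_bc h2, skd_bc h1] at h3
    exact mem_range_of_eq _ h3.symm
  obtain ⟨ψK, hK⟩ := exists_bce p₀ ψ
  obtain ⟨a, w, ha, hd⟩ := hAd ψK (g1.bc hK).2 (g1.bc hK).1
  rw [skd_bc hK, ← hδ, AlgHom.commutes, ← map_mul] at hd
  have hd' : dI R A R a * δ = 1 := IsFractionRing.injective R K (by rw [hd, map_one])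
  have g3 := gd_inn (S := S) (ha.map (Algebra.ofId R O))
  have g4 : Z S ((innE O (um (Algebra.ofId R O) a)).trans ψ) := ⟨g3.trans g1, by
    rw [g3.skd_eq (ψ := ψ) fun _ => rfl, ← hδ]
    change _ * dI R A O _ = 1
    rw [dI_map, Algebra.ofId_apply, ← map_mul, mul_comm, hd', map_one]⟩
  have g5 : ∀ b : A, ∃ b' : A, ((innE O (um (Algebra.ofId R O) a)).trans ψ) ((1 : O) ⊗ₜ[R] b) =
      ψ ((1 : O) ⊗ₜ[R] b') := fun b => by
    refine ⟨TensorProduct.lid R A (inn R a ((1 : R) ⊗ₜ[R] b)), ?_⟩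
    rw [AlgEquiv.trans_apply, ← mp1 (Algebra.ofId R O), ← mp1 (Algebra.ofId R O),
      ← TensorProduct.lid_symm_apply (R := R) (TensorProduct.lid R A _),
      LinearEquiv.symm_apply_apply, inn_apply, map_mul (mp A _), map_mul (mp A _)]
    rfl
  generalize (innE O (um (Algebra.ofId R O) a)).trans ψ = χ at g4 g5
  obtain ⟨χ1, h1⟩ := exists_bce (H90P.iL R O O) χ
  obtain ⟨χ2, h2⟩ := exists_bce (H90P.iR R O O) χ
  have h3 := coc (c := eqv (c _ (H90P.iL R O O) (H90P.iR R O O))) (fun b => by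
    obtain ⟨b', hb⟩ := g5 b
    rw [hb, g2]) h1 h2
  refine point (act O (zmk hσ _ g4.symm) (AlgHom.id R O)) ?_
  rw [a3 O _ (H90P.iL R O O) (zmk hσ _ g4.symm) (zmk hσ _ (g4.bc h1).symm) _ (bc_symm h1),
    a3 O _ (H90P.iR R O O) (zmk hσ _ g4.symm) (zmk hσ _ (g4.bc h2).symm) _ (bc_symm h2),
    AlgHom.comp_id, AlgHom.comp_id,
    a2 _ (zmk hσ _ (g4.bc h2).symm) (c _ (H90P.iL R O O) (H90P.iR R O O))
      (zmk hσ _ (g4.bc h1).symm) _ fun x => ?_, hc]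
  change χ1.symm x = χ2.symm (eqv (c _ (H90P.iL R O O) (H90P.iR R O O)) x)
  rw [AlgEquiv.eq_symm_apply, h3, AlgEquiv.apply_symm_apply]

end Pool.Agent.P.MP_46a8f8_ag.GU
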