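import Pool.Agent.P.MP_46a8f8_ag.GU.Ad

/-!
The twisted form of an algebra with involution along a cocycle.
-/

namespace Pool.Agent.P.MP_46a8f8_ag.GU

open TensorProduct Function H90P

universe u

namespace TwP

variable {R A O : Type u} [CommRing R] [Ring A] [Algebra R A] [CommRing O] [Algebra R O]
  (c : ∀ (T : Type u) [CommRing T] [Algebra R T], (O →ₐ[R] T) → (O →ₐ[R] T) →
    T ⊗[R] A ≃ₐ[T] T ⊗[R] A)

/-- the first map of the descent condition -/
noncomputable def fL : O ⊗[R] A →ₐ[R] (O ⊗[R] O) ⊗[R] A :=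
  ((c _ (iL R O O) (iR R O O)).toAlgHom.restrictScalars R).comp (mp A (iL R O O))

theorem fL_apply (z : O ⊗[R] A) : fL c z = c _ (iL R O O) (iR R O O) (mp A (iL R O O) z) := rfl

/-- the twisted form -/
noncomputable def tw : Subalgebra R (O ⊗[R] A) := AlgHom.equalizer (fL c) (mp A (iR R O O))

theorem mem_tw {z : O ⊗[R] A} :
    z ∈ tw c ↔ c _ (iL R O O) (iR R O O) (mp A (iL R O O) z) = mp A (iR R O O) z := Iff.rfl

/-- the descent condition -/
noncomputable def dl : O ⊗[R] A →ₗ[R] (O ⊗[R] O) ⊗[R] A :=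
  (fL c).toLinearMap - (mp A (iR R O O)).toLinearMap

theorem dl_apply (z : O ⊗[R] A) :
    dl c z = c _ (iL R O O) (iR R O O) (mp A (iL R O O) z) - mp A (iR R O O) z := rfl

theorem exact_dl : Exact (tw c).val.toLinearMap (dl c) := by
  intro z
  rw [dl_apply, sub_eq_zero, ← mem_tw]
  exact ⟨fun h => ⟨⟨z, h⟩, rfl⟩, fun ⟨y, hy⟩ => hy ▸ y.2⟩

/-- naturality of the cocycle -/
def Nt : Prop :=
  ∀ (T T' : Type u) [CommRing T] [Algebra R T] [CommRing T'] [Algebra R T'] (f : T →ₐ[R] T')
    (p q : O →ₐ[R] T) (x : T ⊗[R] A),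
    c T' (f.comp p) (f.comp q) (mp A f x) = mp A f (c T p q x)

/-- the comparison map -/
noncomputable def nu : O ⊗[R] tw c →ₐ[O] O ⊗[R] A :=
  Algebra.TensorProduct.lift (Algebra.ofId O (O ⊗[R] A)) (tw c).val
    fun o x => Algebra.commutes o (x : O ⊗[R] A)

theorem nu_tmul (o : O) (z : tw c) : nu c (o ⊗ₜ[R] z) = o • (z : O ⊗[R] A) := by
  rw [nu, Algebra.TensorProduct.lift_tmul, Algebra.smul_def]
  rfl

theorem nu_one (z : tw c) : nu c ((1 : O) ⊗ₜ[R] z) = z := by
  rw [nu_tmul, one_smul]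

theorem nu_eq (y : O ⊗[R] tw c) :
    nu c y = ev A (AlgHom.id R O) (AlgHom.id R O)
      (LinearMap.lTensor O (tw c).val.toLinearMap y) := by
  induction y using TensorProduct.induction_on with
  | zero => simp
  | tmul o y => rw [nu_tmul, LinearMap.lTensor_tmul, ev_tmul, mp_id]; rfl
  | add x y hx hy => simp only [map_add, hx, hy]

variable {c}

theorem mp_dl (hn : Nt c) {T : Type u} [CommRing T] [Algebra R T] (t : O ⊗[R] O →ₐ[R] T)
    (z : O ⊗[R] A) :
    mp A t (dl c z) =
      c T (t.comp (iL R O O)) (t.comp (iR R O O)) (mp A (t.comp (iL R O O)) z) -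
        mp A (t.comp (iR R O O)) z := by
  rw [dl_apply, map_sub, ← hn, mp_mp, mp_mp]

theorem ev_dl (hn : Nt c) {T : Type u} [CommRing T] [Algebra R T] (p : O →ₐ[R] T)
    (t : O ⊗[R] O →ₐ[R] T) (y : O ⊗[R] (O ⊗[R] A)) :
    ev A p t (LinearMap.lTensor O (dl c) y) =
      c T (t.comp (iL R O O)) (t.comp (iR R O O)) (ev A p (t.comp (iL R O O)) y) -
        ev A p (t.comp (iR R O O)) y := by
  induction y using TensorProduct.induction_on with
  | zero => simp
  | tmul o y =>
    rw [LinearMap.lTensor_tmul, ev_tmul, ev_tmul, ev_tmul, mp_dl hn, smul_sub, map_smul]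
  | add x y hx hy =>
    simp only [map_add, hx, hy]
    abel

theorem nu_injective [Module.Flat R O] (hn : Nt c) : Injective (nu c) := by
  refine (injective_iff_map_eq_zero _).2 fun y hy => ?_
  have hex := Module.Flat.lTensor_exact O (exact_dl c)
  have hinj := Module.Flat.lTensor_preserves_injective_linearMap (M := O)
    (tw c).val.toLinearMap Subtype.val_injective
  refine (injective_iff_map_eq_zero _).1 hinj y ?_
  rw [nu_eq] at hy
  set y' := LinearMap.lTensor O (tw c).val.toLinearMap y with hy'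
  have h0 : LinearMap.lTensor O (dl c) y' = 0 := hex.apply_apply_eq_zero y
  have h1 := ev_dl hn (iL R O O) (pr (iL R O O) (iR R O O)) y'
  rw [h0, map_zero, pr_iL, pr_iR] at h1
  have h2 := mp_ev A (iL R O O) (AlgHom.id R O) (AlgHom.id R O) y'
  rw [hy, map_zero, AlgHom.comp_id] at h2
  rw [← h2, map_zero, zero_sub, eq_comm, neg_eq_zero] at h1
  exact (injective_iff_map_eq_zero _).1 (ev_bijective A).1 y' h1

theorem nu_surjective [Module.Flat R O] (hn : Nt c)
    (hc : ∀ (T : Type u) [CommRing T] [Algebra R T] (p q r : O →ₐ[R] T) (x : T ⊗[R] A),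
      c T q r (c T p q x) = c T p r x) : Surjective (nu c) := by
  intro w
  have hex := Module.Flat.lTensor_exact O (exact_dl c)
  obtain ⟨y, hy⟩ := (ev_bijective A (O := O) (T := O)).2
    (c _ (iL R O O) (iR R O O) (mp A (iL R O O) w))
  have key : ∀ (T : Type u) [CommRing T] [Algebra R T] (p q : O →ₐ[R] T),
      ev A p q y = c T p q (mp A p w) := by
    intro T _ _ p q
    have := mp_ev A (pr p q) (iL R O O) (iR R O O) y
    rw [hy, ← hn, mp_mp, pr_iL, pr_iR] at this
    exact this.symm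
  have h0 : LinearMap.lTensor O (dl c) y = 0 := by
    refine (injective_iff_map_eq_zero _).1 (ev_bijective A (O := O) (T := O ⊗[R] O)).1 _ ?_
    rw [ev_dl hn, key, key, hc, sub_self]
  obtain ⟨x, hx⟩ := (hex y).1 h0
  refine ⟨x, ?_⟩
  rw [nu_eq, hx, key, mp_id]
  exact (c O (AlgHom.id R O) (AlgHom.id R O)).injective (hc O _ _ _ w)

variable (c) in
/-- the central subring acts on the twisted form -/
@[reducible] noncomputable def algS (S : Type u) [CommRing S] [Algebra S A]
    (hs : ∀ s : S, (1 : O) ⊗ₜ[R] algebraMap S A s ∈ tw c) : Algebra S (tw c) :=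
  RingHom.toAlgebra'
    (((Algebra.TensorProduct.includeRight : A →ₐ[R] O ⊗[R] A).toRingHom.comp
      (algebraMap S A)).codRestrict (tw c) hs)
    fun s x => Subtype.ext (by
      change ((1 : O) ⊗ₜ[R] algebraMap S A s) * (x : O ⊗[R] A) =
        (x : O ⊗[R] A) * ((1 : O) ⊗ₜ[R] algebraMap S A s)
      induction (x : O ⊗[R] A) using TensorProduct.induction_on with
      | zero => simp
      | tmul o a =>
        rw [Algebra.TensorProduct.tmul_mul_tmul, Algebra.TensorProduct.tmul_mul_tmul, one_mul,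
          mul_one, Algebra.commutes]
      | add x y hx hy => rw [mul_add, add_mul, hx, hy])

variable [StarRing A] [SA R A]

variable (c) in
/-- the involution of the twisted form -/
@[reducible] noncomputable def starTw (h : ∀ z ∈ tw c, cj R A O z ∈ tw c) : StarRing (tw c) where
  star z := ⟨cj R A O z, h _ z.2⟩
  star_involutive z := Subtype.ext (cj_cj (z : O ⊗[R] A))
  star_mul z z' := Subtype.ext (cj_mul (z : O ⊗[R] A) (z' : O ⊗[R] A))
  star_add z z' := Subtype.ext (map_add (cj R A O) (z : O ⊗[R] A) (z' : O ⊗[R] A))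

end TwP

open TwP in
theorem pTw : S_Tw.{u} := by
  intro R S A O _ _ _ _ _ _ _ _ _ _ _ _ c hj hs hn hc
  have hn' : Nt c := hn
  have hs' : ∀ s : S, (1 : O) ⊗ₜ[R] algebraMap S A s ∈ tw c := fun s => by
    rw [mem_tw, mp_tmul, mp_tmul, map_one, map_one, hs]
  have hj' : ∀ z ∈ tw c, cj R A O z ∈ tw c := fun z hz => by
    rw [mem_tw] at hz ⊢
    rw [mp_cj, mp_cj, hj, hz]
  let e : O ⊗[R] tw c ≃ₐ[O] O ⊗[R] A :=
    AlgEquiv.ofBijective (TwP.nu c) ⟨nu_injective hn', nu_surjective hn' hc⟩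
  have he : ∀ z : tw c, e ((1 : O) ⊗ₜ[R] z) = z := nu_one c
  have := SA.fin (R := R) (A := A)
  have : Module.Finite O (O ⊗[R] tw c) := Module.Finite.equiv e.symm.toLinearEquiv
  refine ⟨tw c, inferInstance, algS c S hs', inferInstance, starTw c hj', e,
    Module.Finite.of_finite_tensorProduct_of_faithfullyFlat O, fun a => ?_, fun s => ?_,
    fun T _ _ p q a => ?_⟩
  · rw [he, he]
    rfl
  · rw [he]
    rfl
  · have h0 : dl c a = 0 := (exact_dl c).apply_apply_eq_zero a
    have h2 := mp_dl hn' (pr p q) (a : O ⊗[R] A)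
    rw [h0, map_zero, pr_iL, pr_iR, eq_comm, sub_eq_zero] at h2
    rw [he]
    exact h2

end Pool.Agent.P.MP_46a8f8_ag.GU
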