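import Pool.Agent.P.MP_46a8f8_ag.GU.Ad

/-!
Regular local rings are unique factorisation domains.
-/

namespace Pool.Agent.P.MP_46a8f8_ag.GU

open TensorProduct Function IsLocalRing

universe u

namespace UFDP

/-- flat base change of an ideal -/
theorem tensor_ideal (R A : Type u) [CommRing R] [CommRing A] [Algebra R A] [Module.Flat R A]
    (I : Ideal R) : Nonempty (A ⊗[R] I ≃ₗ[A] I.map (algebraMap R A)) := by
  let φ : A ⊗[R] I →ₗ[A] A :=
    (TensorProduct.AlgebraTensorModule.rid R A A).toLinearMap ∘ₗ I.subtype.baseChange A
  have hφ : ∀ (a : A) (x : I), φ (a ⊗ₜ x) = a * algebraMap R A x := fun a x => by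
    simp [φ, Algebra.smul_def, mul_comm]
  have h1 : Injective φ := by
    refine (TensorProduct.AlgebraTensorModule.rid R A A).injective.comp ?_
    exact Module.Flat.lTensor_preserves_injective_linearMap (M := A) I.subtype I.subtype_injective
  have h2 : LinearMap.range φ = I.map (algebraMap R A) := by
    apply le_antisymm
    · rintro _ ⟨t, rfl⟩
      induction t using TensorProduct.induction_on with
      | zero => simp
      | tmul a x => rw [hφ]; exact Ideal.mul_mem_left _ _ (Ideal.mem_map_of_mem _ x.2)
      | add s t hs ht => rw [map_add]; exact Ideal.add_mem _ hs ht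
    · refine Ideal.map_le_iff_le_comap.2 fun x hx => ⟨1 ⊗ₜ ⟨x, hx⟩, ?_⟩
      rw [hφ, one_mul]
  exact ⟨(LinearEquiv.ofInjective φ h1).trans (LinearEquiv.ofEq _ _ h2)⟩

/-- a module of finite projective dimension over a local ring becomes stably free as soon as it
becomes projective -/
theorem stablyFree (R A : Type u) [CommRing R] [IsLocalRing R] [IsNoetherianRing R] [CommRing A]
    [Algebra R A] [Module.Flat R A] (r : ℕ) :
    ∀ (M : Type u) [AddCommGroup M] [Module R M] [Module.Finite R M], PD R M r →
      Module.Projective A (A ⊗[R] M) → Module.IsStablyFree A (A ⊗[R] M) := by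
  induction r with
  | zero =>
    intro M _ _ _ h _
    have : Module.Projective R M := pd_zero_iff.1 h
    have : Module.Free R M := Module.free_of_flat_of_isLocalRing
    infer_instance
  | succ r ih =>
    intro M _ _ _ h hP
    obtain ⟨n, g, hg⟩ := Module.Finite.exists_fin' R M
    let K := LinearMap.ker g
    have hK : PD R K r :=
      PD.left K.subtype g K.subtype_injective (LinearMap.exact_subtype_ker_map g) hg
        (PD.of_projective r) h
    let f' : A ⊗[R] K →ₗ[A] A ⊗[R] (Fin n → R) := K.subtype.baseChange A
    let g' : A ⊗[R] (Fin n → R) →ₗ[A] A ⊗[R] M := g.baseChange A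
    have hf' : Injective f' :=
      Module.Flat.lTensor_preserves_injective_linearMap (M := A) K.subtype K.subtype_injective
    have hg' : Surjective g' := LinearMap.lTensor_surjective A hg
    have hfg : Exact f' g' :=
      lTensor_exact A (LinearMap.exact_subtype_ker_map g) hg
    obtain ⟨s, hs⟩ := Module.projective_lifting_property g' LinearMap.id hg'
    let e : (A ⊗[R] (Fin n → R)) ≃ₗ[A] (A ⊗[R] K) × (A ⊗[R] M) :=
      (hfg.splitSurjectiveEquiv hf' ⟨s, hs⟩).1
    have hF : Module.Free A ((A ⊗[R] K) × (A ⊗[R] M)) := Module.Free.of_equiv e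
    have hPK : Module.Projective A (A ⊗[R] K) :=
      Module.Projective.of_split (LinearMap.inl A _ (A ⊗[R] M)) (LinearMap.fst A _ _)
        (LinearMap.ext fun _ => rfl)
    have hSK := ih K hK hPK
    obtain ⟨N, _, _, _, _, hN⟩ := Module.IsStablyFree.exist_free_prod A (A ⊗[R] K)
    have h3 : Module.Free A ((A ⊗[R] M) × ((A ⊗[R] K) × N)) :=
      Module.Free.of_equiv (R := A) (M := ((A ⊗[R] K) × (A ⊗[R] M)) × N)
        (((LinearEquiv.prodComm A _ _).prodCongr (LinearEquiv.refl A N)).trans
          (LinearEquiv.prodAssoc A _ _ _))
    exact Module.IsStablyFree.of_free_prod A (A ⊗[R] M) ((A ⊗[R] K) × N)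

section cof

variable {A M N : Type u} [CommRing A] [AddCommGroup M] [Module A M] [AddCommGroup N] [Module A N]
  {n : ℕ}

/-- the cofactor along the first summand -/
noncomputable def cof (b : Module.Basis (Fin n) A N) : M × N →ₗ[A] (M × N) [⋀^Fin n]→ₗ[A] M where
  toFun x := (b.det.compLinearMap (LinearMap.snd A M N)).smulRight x.1
  map_add' x y := AlternatingMap.ext fun _ => by simp
  map_smul' c x := AlternatingMap.ext fun _ => by simp [smul_smul, mul_comm]

/-- the cofactor expansion on the top exterior power -/
noncomputable def cofL (b : Module.Basis (Fin n) A N) : ⋀[A]^(n + 1) (M × N) →ₗ[A] M :=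
  exteriorPower.alternatingMapLinearEquiv (AlternatingMap.alternatizeUncurryFin (cof b))

theorem cofL_cons (b : Module.Basis (Fin n) A N) (m : M) :
    cofL b (exteriorPower.ιMulti A (n + 1) (Fin.cons (m, 0) fun i => (0, b i))) = m := by
  simp [cofL, cof, AlternatingMap.alternatizeUncurryFin_apply, Fin.sum_univ_succ,
    Module.Basis.det_self]

end cof

/-- a stably free ideal of a Noetherian domain is principal -/
theorem principal_of_stablyFree (A : Type u) [CommRing A] [IsDomain A] [IsNoetherianRing A]
    (P : Ideal A) (hP : P ≠ ⊥) [Module.IsStablyFree A P] : P.IsPrincipal := by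
  obtain ⟨N, _, _, _, _, _⟩ := Module.IsStablyFree.exist_free_prod A P
  let n := Module.finrank A N
  have h1 : Module.finrank A P = 1 := by
    apply le_antisymm
    · exact (Submodule.finrank_le P).trans (Module.finrank_self A).le
    · have : Nontrivial P := Submodule.nontrivial_iff_ne_bot.2 hP
      exact Module.finrank_pos
  have hp : Module.finrank A (P × N) = n + 1 := by
    have h2 := (LinearMap.ker (LinearMap.snd A P N)).finrank_quotient_add_finrank
    rw [((LinearMap.snd A P N).quotKerEquivOfSurjective LinearMap.snd_surjective).finrank_eq,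
      LinearMap.ker_snd, LinearMap.finrank_range_of_inj LinearMap.inl_injective, h1] at h2
    exact h2.symm
  let e : A ≃ₗ[A] ⋀[A]^(n + 1) (P × N) :=
    (Module.nonempty_linearEquiv_of_finrank_eq_one <| by simp [exteriorPower.finrank_eq, hp]).some
  let b : Module.Basis (Fin n) A N := Module.finBasis A N
  let f : A →ₗ[A] P := cofL b ∘ₗ e.toLinearMap
  have hf : Surjective f := fun x =>
    ⟨e.symm (exteriorPower.ιMulti A (n + 1) (Fin.cons (x, 0) fun i => (0, b i))), by
      simp [f, cofL_cons]⟩
  refine ⟨⟨(f 1 : A), le_antisymm (fun x hx => ?_) ?_⟩⟩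
  · obtain ⟨a, ha⟩ := hf ⟨x, hx⟩
    refine Submodule.mem_span_singleton.2 ⟨a, ?_⟩
    have : f a = a • f 1 := by rw [← map_smul, smul_eq_mul, mul_one]
    rw [← Submodule.coe_smul, ← this, ha]
  · exact (Submodule.span_singleton_le_iff_mem _ _).2 (f 1).2

/-- a localisation of a regular ring is regular -/
theorem reg_loc (R A : Type u) [CommRing R] [IsRegularRing R] [CommRing A] [Algebra R A]
    (S : Submonoid R) [IsLocalization S A] : IsRegularRing A := by
  have : IsNoetherianRing A := IsLocalization.isNoetherianRing S A inferInstance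
  refine isRegularRing_iff.2 fun p _ => ?_
  have := IsLocalization.isLocalization_isLocalization_atPrime_isLocalization S
    (Localization.AtPrime p) p
  exact IsRegularLocalRing.of_ringEquiv (IsLocalization.algEquiv
    (p.comap (algebraMap R A)).primeCompl (Localization.AtPrime (p.comap (algebraMap R A)))
    (Localization.AtPrime p)).toRingEquiv

/-- an ideal that is locally principal is projective -/
theorem proj_of_loc (A : Type u) [CommRing A] [IsDomain A] [IsNoetherianRing A] (P : Ideal A)
    (h : ∀ (n : Ideal A) [n.IsMaximal],
      (P.map (algebraMap A (Localization.AtPrime n))).IsPrincipal) : Module.Projective A P := by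
  have : Module.FinitePresentation A P := Module.finitePresentation_of_finite A P
  refine Module.projective_of_localization_maximal fun n hn => ?_
  obtain ⟨e⟩ := tensor_ideal A (Localization.AtPrime n) P
  have hp := h n
  have hF : Module.Free (Localization.AtPrime n)
      (P.map (algebraMap A (Localization.AtPrime n))) := by
    by_cases h0 : P.map (algebraMap A (Localization.AtPrime n)) = ⊥
    · rw [h0]; infer_instance
    · exact Module.Free.of_equiv (Ideal.isoBaseOfIsPrincipal h0)
  have := Module.Free.of_equiv
    (e.symm.trans (LocalizedModule.equivTensorProduct n.primeCompl P).symm)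
  infer_instance

theorem main (d : ℕ) : ∀ (R : Type u) [CommRing R] [IsDomain R] [IsLocalRing R] [IsRegularRing R],
    ringKrullDim R = d → UniqueFactorizationMonoid R := by
  induction d using Nat.strong_induction_on with
  | _ d ih =>
  intro R _ _ _ _ hd
  have hR : IsRegularLocalRing R := IsRegularLocalRing.of_isRegularRing_of_isLocalRing R
  by_cases hm : maximalIdeal R ≤ maximalIdeal R ^ 2
  · have h0 : maximalIdeal R = ⊥ := by
      refine Submodule.eq_bot_of_le_smul_of_le_jacobson_bot (maximalIdeal R) (maximalIdeal R)
        (IsNoetherian.noetherian _) ?_ (IsLocalRing.maximalIdeal_le_jacobson _)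
      rwa [smul_eq_mul, ← sq]
    have := (IsLocalRing.isField_iff_maximalIdeal_eq.2 h0).isPrincipalIdealRing
    infer_instance
  obtain ⟨x, hx, hx2⟩ := SetLike.not_le_iff_exists.1 hm
  have hx0 : x ≠ 0 := fun e => hx2 (e ▸ Submodule.zero_mem _)
  have hxp : Prime x := by
    obtain ⟨h1, -⟩ := rQuot R x hx hx2
    have := rDom (R ⧸ Ideal.span {x})
    exact (Ideal.span_singleton_prime hx0).1 ((Ideal.Quotient.isDomain_iff_prime _).1 this)
  rw [UniqueFactorizationMonoid.iff_localizationAway_of_prime hxp]
  let A := Localization.Away x
  have : IsDomain A := IsLocalization.Away.isDomain A hx0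
  have : IsNoetherianRing A := IsLocalization.isNoetherianRing (Submonoid.powers x) A inferInstance
  have : Module.Flat R A := IsLocalization.flat A (Submonoid.powers x)
  refine UniqueFactorizationMonoid.of_forall_isPrincipal_of_height_eq_one (R := A) fun P hP h1 => ?_
  have hproj : Module.Projective A P := by
    refine proj_of_loc A P fun n hn => ?_
    let B := Localization.AtPrime n
    by_cases hPn : P ≤ n
    · have hq : IsLocalization.AtPrime B (n.comap (algebraMap R A)) :=
        IsLocalization.isLocalization_isLocalization_atPrime_isLocalization (Submonoid.powers x) B n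
      have hB : IsRegularRing B := reg_loc R B (n.comap (algebraMap R A)).primeCompl
      have hlt : n.comap (algebraMap R A) < maximalIdeal R := by
        refine lt_of_le_of_ne (IsLocalRing.le_maximalIdeal Ideal.IsPrime.ne_top') fun e => ?_
        have h2 : algebraMap R A x ∈ n := by
          rw [← Ideal.mem_comap, e]; exact hx
        exact hn.ne_top (Ideal.eq_top_of_isUnit_mem _ h2 (IsLocalization.Away.algebraMap_isUnit x))
      have h3 := Ideal.height_strict_mono_of_isPrime_of_isPrime hlt
      have h4 : (maximalIdeal R).height = d := by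
        have := IsLocalRing.maximalIdeal_height_eq_ringKrullDim (R := R)
        rw [hd] at this
        exact WithBot.coe_injective this
      rw [h4] at h3
      obtain ⟨d', hd'⟩ := ENat.ne_top_iff_exists.1 (h3.trans_le le_top).ne
      have hU : UniqueFactorizationMonoid B := by
        refine ih d' ?_ B ?_
        · rw [← hd'] at h3
          exact_mod_cast h3
        · rw [IsLocalization.AtPrime.ringKrullDim_eq_height (n.comap (algebraMap R A)) B, ← hd']
          rfl
      have hdis : Disjoint (n.primeCompl : Set A) (P : Set A) :=
        Set.disjoint_left.2 fun a ha hb => ha (hPn hb)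
      have := IsLocalization.isPrime_of_isPrime_disjoint n.primeCompl B P hP hdis
      refine UniqueFactorizationMonoid.isPrincipal_of_height_eq_one ?_
      rw [IsLocalization.height_map_of_disjoint n.primeCompl P hdis, h1]
    · obtain ⟨a, ha, han⟩ := SetLike.not_le_iff_exists.1 hPn
      have : P.map (algebraMap A B) = ⊤ :=
        Ideal.eq_top_of_isUnit_mem _ (Ideal.mem_map_of_mem _ ha)
          (IsLocalization.map_units B (⟨a, han⟩ : n.primeCompl))
      rw [this]
      exact top_isPrincipal
  obtain ⟨e⟩ := tensor_ideal R A (P.under R)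
  rw [IsLocalization.map_under (Submonoid.powers x) A P] at e
  have hS := stablyFree R A d (P.under R) (rPd d R hd _)
    (Module.Projective.of_equiv' e.symm)
  have : Module.IsStablyFree A P := Module.IsStablyFree.equiv e
  exact principal_of_stablyFree A P (P.ne_bot_of_height_eq_one h1)

end UFDP

theorem pUFD : S_UFD.{u} := by
  intro R _ _ _ _
  obtain ⟨d, hd⟩ := ENat.ne_top_iff_exists.1 ((maximalIdeal R).height_ne_top Ideal.IsPrime.ne_top')
  refine UFDP.main d R ?_
  rw [← IsLocalRing.maximalIdeal_height_eq_ringKrullDim, ← hd]
  rfl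

end Pool.Agent.P.MP_46a8f8_ag.GU
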