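import Pool.Agent.P.MP_46a8f8_ag.GU.Ad

/-!
Flat base change of a complex and descent of stable hyperbolicity along a section.
-/

namespace Pool.Agent.P.MP_46a8f8_ag.GU

open TensorProduct Function

universe u

namespace UpP

section lin

variable {R : Type u} (O : Type u) [CommRing R] [CommRing O] [Algebra R O] {M Q : Type u}
  [AddCommGroup M] [Module R M] [AddCommGroup Q] [Module R Q]

/-- the dual of a finite free module commutes with base change -/
theorem exists_th [Module.Free R Q] [Module.Finite R Q] :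
    ∃ θ : O ⊗[R] Module.Dual R Q ≃ₗ[O] Module.Dual O (O ⊗[R] Q),
      ∀ (b : M →ₗ[R] M →ₗ[R] R) (f : Q →ₗ[R] M) (p : O ⊗[R] M) (q : O ⊗[R] Q),
        θ (LinearMap.baseChange O (b.compl₂ f) p) q =
          LinearMap.BilinForm.baseChange O b p (f.baseChange O q) := by
  refine ⟨(TensorProduct.isBaseChange R Q O).toDualBaseChange, fun b f p q => ?_⟩
  induction p using TensorProduct.induction_on with
  | zero => simp
  | add p p' h h' => simp only [map_add, LinearMap.add_apply, h, h']
  | tmul a m =>
    induction q using TensorProduct.induction_on with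
    | zero => simp
    | add q q' h h' => simp only [map_add, h, h']
    | tmul a' n =>
      have e : a' ⊗ₜ[R] n = a' • TensorProduct.mk R O Q 1 n := by
        rw [mk_apply, smul_tmul', smul_eq_mul, mul_one]
      rw [LinearMap.baseChange_tmul, LinearMap.baseChange_tmul,
        LinearMap.BilinForm.baseChange_tmul, e, map_smul, IsBaseChange.toDualBaseChange_tmul,
        LinearMap.compl₂_apply, smul_eq_mul, Algebra.smul_def]
      ring

theorem bij_bc [Module.Free R M] [Module.Finite R M] {b : M →ₗ[R] M →ₗ[R] R}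
    (h : Bijective b) : Bijective (LinearMap.BilinForm.baseChange O b) := by
  obtain ⟨θ, hθ⟩ := exists_th (R := R) O (M := M) (Q := M)
  have e : ∀ p, LinearMap.BilinForm.baseChange O b p =
      θ ((LinearEquiv.ofBijective b h).baseChange R O _ _ p) := fun p =>
    LinearMap.ext fun q => by
      have := hθ b LinearMap.id p q
      rw [LinearMap.baseChange_id] at this
      exact this.symm
  rw [show ⇑(LinearMap.BilinForm.baseChange O b) = _ from funext e]
  exact θ.bijective.comp (LinearEquiv.bijective _)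

end lin

section desc

variable {R A O A' : Type u} [CommRing R] [Ring A] [Algebra R A] [CommRing O] [Ring A']
  [Algebra O A']

/-- a projector descends along a semilinear surjection onto a perfect space -/
theorem hyp_desc (s : O →+* R) (hs : Surjective s) (j : A → A') (X : FM O A' O O)
    (Y : FM R A R R) (q : X.M →+ Y.M) (hq : Surjective q) (h1 : ∀ o x, q (o • x) = s o • q x)
    (h2 : ∀ a x, q (X.ρ (j a) x) = Y.ρ a (q x)) (h3 : ∀ x y, Y.b (q x) (q y) = s (X.b x y))
    (hY : Y.Perf) (hX : X.Hyp) : Y.Hyp := by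
  obtain ⟨e, he⟩ := hX
  have k0 : ∀ x x', q x = q x' → q (e x) = q (e x') := fun x x' h => hY.ext fun z => by
    obtain ⟨y, rfl⟩ := hq z
    rw [h3, h3, eq_sub_of_add_eq (he.2.2 x y), eq_sub_of_add_eq (he.2.2 x' y), map_sub, map_sub,
      ← h3, ← h3, ← h3, ← h3, h]
  have k1 : ∀ x, q (e (surjInv hq (q x))) = q (e x) := fun x => k0 _ _ (surjInv_eq hq _)
  let e0 : Y.M →ₗ[R] Y.M :=
    { toFun := fun y => q (e (surjInv hq y))
      map_add' := fun y y' => by
        obtain ⟨x, rfl⟩ := hq y
        obtain ⟨x', rfl⟩ := hq y'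
        rw [← map_add q x, k1, k1, k1, map_add, map_add]
      map_smul' := fun r y => by
        obtain ⟨x, rfl⟩ := hq y
        obtain ⟨o, rfl⟩ := hs r
        rw [← h1, k1, k1, map_smul, h1, RingHom.id_apply] }
  have k2 : ∀ x, e0 (q x) = q (e x) := k1
  refine ⟨e0, fun a y => ?_, fun y => ?_, fun y y' => ?_⟩
  · obtain ⟨x, rfl⟩ := hq y
    rw [← h2, k2, k2, he.1, h2]
  · obtain ⟨x, rfl⟩ := hq y
    rw [k2, k2, he.2.1]
  · obtain ⟨x, rfl⟩ := hq y
    obtain ⟨x', rfl⟩ := hq y'
    rw [k2, k2, h3, h3, h3, ← map_add, he.2.2]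

end desc

section up

variable {R A : Type u} [CommRing R] [Ring A] [Algebra R A] (O : Type u) [CommRing O]
  [Algebra R O]

/-- the action as a map of algebras -/
def ra (X : RM R A R) : A →ₐ[R] Module.End R X.M :=
  { X.ρ with commutes' := fun r => LinearMap.ext (X.alg r) }

/-- the action on the scalar extension -/
noncomputable def act (X : RM R A R) : O ⊗[R] A →ₐ[O] Module.End O (O ⊗[R] X.M) :=
  Algebra.TensorProduct.lift (Algebra.ofId O _)
    ((Module.End.baseChangeHom R O X.M).comp (ra X)) fun o _ => Algebra.commutes o _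

theorem act_tmul (X : RM R A R) (o : O) (a : A) (v : O ⊗[R] X.M) :
    act O X (o ⊗ₜ[R] a) v = o • (X.ρ a).baseChange O v := rfl

/-- extension of scalars of the module and of the algebra -/
@[reducible] noncomputable def upR (X : RM R A R) : RM O (O ⊗[R] A) O where
  M := O ⊗[R] X.M
  ρ := (act O X).toRingHom
  alg o m := LinearMap.congr_fun ((act O X).commutes o) m

/-- the same for a module with a form -/
@[reducible] noncomputable def upF (E : FM R A R R) : FM O (O ⊗[R] A) O O where
  toRM := upR O E.toRM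
  b := LinearMap.BilinForm.baseChange O E.b

theorem eqv_up {X Y : RM R A R} {f : X.M →ₗ[R] Y.M} (h : Eqv X Y f) :
    Eqv (upR O X) (upR O Y) (f.baseChange O) := by
  intro c v
  change f.baseChange O (act O X c v) = act O Y c (f.baseChange O v)
  induction c using TensorProduct.induction_on with
  | zero => simp
  | add c c' h1 h2 => simp only [map_add, LinearMap.add_apply, h1, h2]
  | tmul o a =>
    have e : f ∘ₗ X.ρ a = Y.ρ a ∘ₗ f := LinearMap.ext (h a)
    rw [act_tmul, act_tmul, map_smul, ← LinearMap.comp_apply, ← LinearMap.baseChange_comp, e,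
      LinearMap.baseChange_comp, LinearMap.comp_apply]

/-- identities between bilinear forms extend -/
theorem form_ext {M : Type u} [AddCommGroup M] [Module R M]
    (B B' : O ⊗[R] M →ₗ[O] O ⊗[R] M →ₗ[O] O)
    (h : ∀ x y : M, B (1 ⊗ₜ[R] x) (1 ⊗ₜ[R] y) = B' (1 ⊗ₜ[R] x) (1 ⊗ₜ[R] y)) (v w : O ⊗[R] M) :
    B v w = B' v w := by
  have : B = B' := by
    ext x y
    exact h x y
  rw [this]

theorem b_tmul {M : Type u} [AddCommGroup M] [Module R M] (b : M →ₗ[R] M →ₗ[R] R) (x y : M) :
    LinearMap.BilinForm.baseChange O b ((1 : O) ⊗ₜ[R] x) ((1 : O) ⊗ₜ[R] y) =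
      algebraMap R O (b x y) := by
  rw [LinearMap.BilinForm.baseChange_tmul, mul_one, Algebra.algebraMap_eq_smul_one]

/-- extension of scalars of the complex -/
noncomputable def upD [Module.Flat R O] {E : FM R A R R} (D : Dat E) : Dat (upF O E) where
  Q := upR O D.Q
  ff := by
    obtain ⟨_, _⟩ := D.ff
    exact ⟨inferInstanceAs (Module.Free O (O ⊗[R] D.Q.M)),
      inferInstanceAs (Module.Finite O (O ⊗[R] D.Q.M))⟩
  i := D.i.baseChange O
  eqv := eqv_up O D.eqv
  iso q q' := form_ext O ((LinearMap.BilinForm.baseChange O E.b).compl₁₂ (D.i.baseChange O)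
    (D.i.baseChange O)) 0 (fun x y => (b_tmul O E.b _ _).trans (by rw [D.iso, map_zero]; rfl)) q q'
  ex p hp := by
    obtain ⟨_, _⟩ := D.ff
    obtain ⟨θ, hθ⟩ := exists_th (R := R) O (M := E.M) (Q := D.Q.M)
    have h1 : Exact D.i D.β := fun x => ⟨D.ex', fun ⟨q, hq⟩ => hq ▸ D.β_i q⟩
    have h2 : LinearMap.baseChange O D.β p = 0 :=
      θ.map_eq_zero_iff.1 (LinearMap.ext fun q => (hθ E.b D.i p q).trans (hp q))
    exact (Module.Flat.lTensor_exact O h1 p).1 h2

theorem kil_up [Module.Flat R O] {E : FM R A R R} (D : Dat E) {r : R} (h : D.Kil r) :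
    (upD O D).Kil (algebraMap R O r) := by
  obtain ⟨_, _⟩ := D.ff
  obtain ⟨θ, hθ⟩ := exists_th (R := R) O (M := E.M) (Q := D.Q.M)
  have h1 : ∀ z : O ⊗[R] Module.Dual R D.Q.M, ∃ p, LinearMap.baseChange O D.β p = r • z := by
    intro z
    induction z using TensorProduct.induction_on with
    | zero => exact ⟨0, by simp⟩
    | add z z' h1 h2 =>
      obtain ⟨p, hp⟩ := h1
      obtain ⟨p', hp'⟩ := h2
      exact ⟨p + p', by rw [map_add, hp, hp', smul_add]⟩
    | tmul o ξ =>
      obtain ⟨p, hp⟩ := h ξ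
      exact ⟨o ⊗ₜ[R] p, by rw [LinearMap.baseChange_tmul, hp, tmul_smul]⟩
  intro ξ
  obtain ⟨z, rfl⟩ := θ.surjective ξ
  obtain ⟨p, hp⟩ := h1 z
  refine ⟨p, LinearMap.ext fun q => (hθ E.b D.i p q).symm.trans ?_⟩
  rw [show E.b.compl₂ D.i = D.β from rfl, hp, ← algebraMap_smul O, map_smul]
  rfl

variable [StarRing A] [SA R A]

theorem sp_up {E : FM R A R R} {ε : ℤˣ} (h : E.Sp ε) :
    letI := bcStar R A O
    (upF O E).Sp ε := by
  let := bcStar R A O
  have := h.free
  have := h.good.fin
  refine ⟨⟨inferInstanceAs (Module.Finite O (O ⊗[R] E.M)), fun c v w => ?_, fun v w => ?_⟩,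
    bij_bc O h.perf, inferInstanceAs (Module.Free O (O ⊗[R] E.M))⟩
  · change LinearMap.BilinForm.baseChange O E.b (act O E.toRM c v) w =
      LinearMap.BilinForm.baseChange O E.b v (act O E.toRM (cj R A O c) w)
    induction c using TensorProduct.induction_on with
    | zero => simp
    | add c c' h1 h2 => simp only [map_add, LinearMap.add_apply, h1, h2]
    | tmul o a =>
      rw [cj_tmul, act_tmul, act_tmul, map_smul, map_smul, LinearMap.smul_apply]
      congr 1
      exact form_ext O ((LinearMap.BilinForm.baseChange O E.b) ∘ₗ (E.ρ a).baseChange O)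
        (LinearMap.compl₂ (LinearMap.BilinForm.baseChange O E.b) ((E.ρ (star a)).baseChange O))
        (fun x y => (b_tmul O E.b _ _).trans
          ((congrArg _ (h.good.adj a x y)).trans (b_tmul O E.b _ _).symm)) v w
  · refine form_ext O (LinearMap.flip (LinearMap.BilinForm.baseChange O E.b))
      ((ε : ℤ) • LinearMap.BilinForm.baseChange O E.b) (fun x y => ?_) v w
    rw [LinearMap.flip_apply, LinearMap.smul_apply, LinearMap.smul_apply, b_tmul, b_tmul,
      h.good.sym, Units.smul_def, map_zsmul]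

end up

section down

variable {R A O : Type u} [CommRing R] [Ring A] [Algebra R A] [CommRing O] [Algebra R O]

/-- restriction of the action to `A` -/
@[reducible] noncomputable def pb [Algebra O R] (h : ∀ r, algebraMap O R (algebraMap R O r) = r)
    (Y : FM O (O ⊗[R] A) R R) : FM R A R R where
  M := Y.M
  ρ := Y.ρ.comp (Algebra.TensorProduct.includeRight : A →ₐ[R] O ⊗[R] A).toRingHom
  alg r m := by
    have e : (Algebra.TensorProduct.includeRight : A →ₐ[R] O ⊗[R] A) (algebraMap R A r) =
        algebraMap O (O ⊗[R] A) (algebraMap R O r) := by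
      rw [AlgHom.commutes, ← IsScalarTower.algebraMap_apply]
    exact (congrArg (fun c => Y.ρ c m) e).trans (by rw [Y.alg, h]; rfl)
  b := Y.b

/-- evaluation along a section -/
noncomputable def ev (s : O →ₐ[R] R) (M : Type u) [AddCommGroup M] [Module R M] :
    O ⊗[R] M →ₗ[R] M :=
  TensorProduct.lift (LinearMap.lsmul R M ∘ₗ s.toLinearMap)

theorem ev_tmul (s : O →ₐ[R] R) {M : Type u} [AddCommGroup M] [Module R M] (o : O) (m : M) :
    ev s M (o ⊗ₜ[R] m) = s o • m := rfl

theorem ev_smul (s : O →ₐ[R] R) {M : Type u} [AddCommGroup M] [Module R M] (o : O)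
    (v : O ⊗[R] M) : ev s M (o • v) = s o • ev s M v := by
  induction v using TensorProduct.induction_on with
  | zero => simp
  | add v w h h' => rw [smul_add, map_add, map_add, h, h', smul_add]
  | tmul o' m => rw [smul_tmul', ev_tmul, ev_tmul, smul_eq_mul, map_mul, mul_smul]

theorem ev_map (s : O →ₐ[R] R) {M : Type u} [AddCommGroup M] [Module R M] (f : M →ₗ[R] M)
    (v : O ⊗[R] M) : ev s M (f.baseChange O v) = f (ev s M v) := by
  induction v using TensorProduct.induction_on with
  | zero => simp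
  | add v w h h' => simp only [map_add, h, h']
  | tmul o m => rw [LinearMap.baseChange_tmul, ev_tmul, ev_tmul, map_smul]

theorem ev_b (s : O →ₐ[R] R) {M : Type u} [AddCommGroup M] [Module R M]
    (b : M →ₗ[R] M →ₗ[R] R) (v w : O ⊗[R] M) :
    b (ev s M v) (ev s M w) = s (LinearMap.BilinForm.baseChange O b v w) := by
  induction v using TensorProduct.induction_on with
  | zero => simp
  | add v v' h h' => simp only [map_add, LinearMap.add_apply, h, h']
  | tmul o m =>
    induction w using TensorProduct.induction_on with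
    | zero => simp
    | add w w' h h' => simp only [map_add, h, h']
    | tmul o' m' =>
      rw [ev_tmul, ev_tmul, LinearMap.BilinForm.baseChange_tmul, map_smul, map_smul, map_smul,
        LinearMap.smul_apply, map_mul, smul_eq_mul, smul_eq_mul, smul_eq_mul]
      ring

variable [StarRing A] [SA R A]

theorem down (s : O →ₐ[R] R) {E : FM R A R R} {ε : ℤˣ} (hE : E.Sp ε)
    (h : letI := bcStar R A O; (upF O E).WNull ε) : E.WNull ε := by
  let := bcStar R A O
  let : Algebra O R := s.toRingHom.toAlgebra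
  obtain ⟨H, hH, h1, h2⟩ := h
  have h0 : ∀ r, algebraMap O R (algebraMap R O r) = r := s.commutes
  have hs : Surjective (algebraMap O R) := fun r => ⟨_, h0 r⟩
  have := hH.free
  have := hH.good.fin
  have g := LiftP.good_bc hs hH.good
  have hP : (pb h0 (H.bc R)).Perf := bij_bc R hH.perf
  refine ⟨pb h0 (H.bc R), ⟨⟨g.fin, fun a x y => g.adj _ x y, g.sym⟩, hP,
    inferInstanceAs (Module.Free R (R ⊗[O] H.M))⟩, ?_, ?_⟩
  · obtain ⟨e, he⟩ := h1
    have k := LiftP.proj_bc hs he
    exact ⟨e.baseChange R, fun a => k.1 _, k.2⟩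
  · refine hyp_desc (algebraMap O R) hs (fun a => (1 : O) ⊗ₜ[R] a) ((upF O E).sum H)
      (E.sum (pb h0 (H.bc R)))
      ((ev s E.M).toAddMonoidHom.prodMap (TensorProduct.mk O R H.M 1).toAddMonoidHom)
      (Surjective.prodMap (fun m => ⟨(1 : O) ⊗ₜ[R] m, ?_⟩) (LiftP.q_surj hs H.M))
      (fun o x => Prod.ext (ev_smul s o x.1) ?_) (fun a x => Prod.ext ?_ rfl) (fun x y => ?_)
      (hE.perf.sum hP) h2
    · exact (ev_tmul s 1 m).trans (by rw [map_one, one_smul])
    · exact (tmul_smul o (1 : R) x.2).trans (algebraMap_smul R o _).symm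
    · exact (congrArg (ev s E.M) ((act_tmul O E.toRM 1 a x.1).trans (one_smul _ _))).trans
        (ev_map s _ _)
    · rw [FM.sum_b, FM.sum_b, map_add]
      exact congrArg₂ _ (ev_b s E.b x.1 y.1) (LiftP.bc_b H x.2 y.2)

end down

end UpP

open UpP in
theorem pUp : S_Up.{u} := by
  intro R A O _ _ _ _ _ _ _ _ _ ε E D hE
  exact ⟨upF O E, upD O D, sp_up O hE, fun _ h => kil_up O D h, fun s h => down s hE h⟩

end Pool.Agent.P.MP_46a8f8_ag.GU
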