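import Pool.Agent.P.MP_46a8f8_ag.GU.Ad

/-!
A semilocal unramified algebra essentially of finite type is a localisation of a finite algebra.
-/

namespace Pool.Agent.P.MP_46a8f8_ag.GU

open Function

universe u

namespace ZMP

variable {T W : Type u} [CommRing T] [CommRing W] [Algebra T W]

lemma at_prime [Algebra.EssFiniteType T W] [Algebra.FormallyUnramified T W] (n : Ideal W)
    [n.IsPrime] : ∃ r : W, r ∉ n ∧ IsIntegral T r ∧
      ∀ x ∈ Algebra.EssFiniteType.finset T W, ∃ m : ℕ, IsIntegral T (r ^ m * x) := by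
  let W0 := Algebra.EssFiniteType.subalgebra T W
  let q : Ideal W0 := n.comap (algebraMap W0 W)
  have h1 : IsLocalization.AtPrime (Localization.AtPrime n) q :=
    IsLocalization.isLocalization_isLocalization_atPrime_isLocalization
      (Algebra.EssFiniteType.submonoid T W) _ n
  let e : Localization.AtPrime q ≃ₐ[W0] Localization.AtPrime n :=
    IsLocalization.algEquiv q.primeCompl _ _
  have h2 : Algebra.QuasiFinite T (Localization.AtPrime n) := inferInstance
  have h3 : Algebra.QuasiFiniteAt T q :=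
    (Algebra.QuasiFinite.iff_of_algEquiv (e.restrictScalars T)).2 h2
  obtain ⟨r, hr, hi, hm⟩ := Algebra.zariskisMainProperty_iff.1
    (Algebra.ZariskisMainProperty.of_finiteType (R := T) q)
  refine ⟨r.1, hr, hi.map W0.val, fun x hx => ?_⟩
  obtain ⟨m, h⟩ := hm ⟨x, Algebra.subset_adjoin hx⟩
  exact ⟨m, h.map W0.val⟩

lemma sat (T₁ : Subalgebra T W) (s : Set W) (r : W) (hr : r ∈ T₁)
    (h : ∀ x ∈ s, ∃ m : ℕ, r ^ m * x ∈ T₁) {x : W} (hx : x ∈ Algebra.adjoin T s) :
    ∃ m : ℕ, r ^ m * x ∈ T₁ := by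
  induction hx using Algebra.adjoin_induction with
  | mem x hx => exact h x hx
  | algebraMap a => exact ⟨0, by simp⟩
  | add x y _ _ hx hy =>
    obtain ⟨a, ha⟩ := hx
    obtain ⟨b, hb⟩ := hy
    refine ⟨a + b, ?_⟩
    have : r ^ (a + b) * (x + y) = r ^ b * (r ^ a * x) + r ^ a * (r ^ b * y) := by ring
    rw [this]
    exact T₁.add_mem (T₁.mul_mem (T₁.pow_mem hr _) ha) (T₁.mul_mem (T₁.pow_mem hr _) hb)
  | mul x y _ _ hx hy =>
    obtain ⟨a, ha⟩ := hx
    obtain ⟨b, hb⟩ := hy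
    refine ⟨a + b, ?_⟩
    have : r ^ (a + b) * (x * y) = (r ^ a * x) * (r ^ b * y) := by ring
    rw [this]
    exact T₁.mul_mem ha hb

/-- the denominators of an element -/
def den (T₁ : Subalgebra T W) (w : W) : Ideal T₁ where
  carrier := {t | t.1 * w ∈ T₁}
  zero_mem' := by simp
  add_mem' := fun {a b} ha hb => by
    have := T₁.add_mem ha hb
    simpa [add_mul] using this
  smul_mem' := fun c a ha => by
    have := T₁.mul_mem c.2 ha
    simpa [mul_assoc] using this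

lemma avoid [Finite (MaximalSpectrum W)] (T₁ : Subalgebra T W) (w : W)
    (h : ∀ n : MaximalSpectrum W, ∃ t ∈ T₁, t ∉ n.asIdeal ∧ t * w ∈ T₁) :
    ∃ t ∈ T₁, IsUnit t ∧ t * w ∈ T₁ := by
  rcases subsingleton_or_nontrivial W with hW | hW
  · exact ⟨0, T₁.zero_mem, isUnit_of_subsingleton _, by simp⟩
  obtain ⟨n0, hn0⟩ := Ideal.exists_maximal W
  by_contra hc
  have h1 : ((den T₁ w : Ideal T₁) : Set T₁) ⊆ ⋃ n ∈ (Set.univ : Set (MaximalSpectrum W)),
      ((n.asIdeal.comap (algebraMap T₁ W) : Ideal T₁) : Set T₁) := by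
    intro t ht
    have h2 : ¬ IsUnit t.1 := fun hu => hc ⟨t.1, t.2, hu, ht⟩
    obtain ⟨n, hn, hnt⟩ := exists_max_ideal_of_mem_nonunits h2
    exact Set.mem_biUnion (Set.mem_univ (⟨n, hn⟩ : MaximalSpectrum W)) hnt
  obtain ⟨n, -, hn⟩ := (Ideal.subset_union_prime_finite Set.finite_univ
    (f := fun n : MaximalSpectrum W => n.asIdeal.comap (algebraMap T₁ W)) ⟨n0, hn0⟩ ⟨n0, hn0⟩
    (fun n _ _ _ => by
      have := n.isMaximal.isPrime
      infer_instance)).1 h1
  obtain ⟨t, ht, htn, htw⟩ := h n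
  exact htn (hn (show (⟨t, ht⟩ : T₁) ∈ den T₁ w from htw))

end ZMP

open ZMP

theorem pZM : S_ZM.{u} := by
  intro T W _ _ _ _ _ _
  have key : ∀ n : MaximalSpectrum W, ∃ r : W, r ∉ n.asIdeal ∧ IsIntegral T r ∧
      ∀ x ∈ Algebra.EssFiniteType.finset T W, ∃ m : ℕ, IsIntegral T (r ^ m * x) := fun n =>
    haveI := n.isMaximal.isPrime
    at_prime n.asIdeal
  choose r hr hi m hm using key
  let σ := Algebra.EssFiniteType.finset T W
  let s : Set W := Set.range r ∪
    Set.range fun p : MaximalSpectrum W × σ => r p.1 ^ m p.1 p.2.1 p.2.2 * p.2.1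
  have hs : s.Finite := (Set.finite_range _).union (Set.finite_range _)
  have hsi : ∀ x ∈ s, IsIntegral T x := by
    rintro x (⟨n, rfl⟩ | ⟨p, rfl⟩)
    · exact hi n
    · exact hm p.1 p.2.1 p.2.2
  refine ⟨Algebra.adjoin T s, Algebra.finite_adjoin_of_finite_of_isIntegral hs hsi, fun w => ?_⟩
  obtain ⟨d, hd, hdu, hdw⟩ := (Algebra.essFiniteType_cond_iff T W σ).1
    (Algebra.EssFiniteType.isLocalization T W) w
  obtain ⟨t, ht, htu, htw⟩ := avoid (Algebra.adjoin T s) w fun n => by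
    have h1 : r n ∈ Algebra.adjoin T s := Algebra.subset_adjoin (Or.inl ⟨n, rfl⟩)
    have h2 : ∀ x ∈ (σ : Set W), ∃ k : ℕ, r n ^ k * x ∈ Algebra.adjoin T s := fun x hx =>
      ⟨m n x hx, Algebra.subset_adjoin (Or.inr ⟨(n, ⟨x, hx⟩), rfl⟩)⟩
    obtain ⟨a, ha⟩ := sat _ _ _ h1 h2 hd
    obtain ⟨b, hb⟩ := sat _ _ _ h1 h2 hdw
    have hp := n.isMaximal.isPrime
    refine ⟨r n ^ b * (r n ^ a * d), Subalgebra.mul_mem _ (Subalgebra.pow_mem _ h1 _) ha, ?_, ?_⟩
    · intro h
      rcases hp.mem_or_mem h with h | h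
      · exact hr n (hp.mem_of_pow_mem _ h)
      · rcases hp.mem_or_mem h with h | h
        · exact hr n (hp.mem_of_pow_mem _ h)
        · exact hp.ne_top (Ideal.eq_top_of_isUnit_mem _ h hdu)
    · have : r n ^ b * (r n ^ a * d) * w = r n ^ a * (r n ^ b * (w * d)) := by ring
      rw [this]
      exact Subalgebra.mul_mem _ (Subalgebra.pow_mem _ h1 _) hb
  exact ⟨t * w, htw, t, ht, htu, rfl⟩

end Pool.Agent.P.MP_46a8f8_ag.GU
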