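import Pool.Agent.P.MP_46a8f8_ag.GU.AdTop
import Pool.Agent.P.MP_46a8f8_ag.GU.EN
import Pool.Agent.P.MP_46a8f8_ag.GU.ResV
import Pool.Agent.P.MP_46a8f8_ag.GU.Prj
import Pool.Agent.P.MP_46a8f8_ag.GU.AzD
import Pool.Agent.P.MP_46a8f8_ag.GU.TorA
import Pool.Agent.P.MP_46a8f8_ag.GU.Inv
import Pool.Agent.P.MP_46a8f8_ag.GU.UFD
import Pool.Agent.P.MP_46a8f8_ag.GU.Up
import Pool.Agent.P.MP_46a8f8_ag.GU.DA2
import Pool.Agent.P.MP_46a8f8_ag.GU.DA1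
import Pool.Agent.P.MP_46a8f8_ag.GU.DetC
import Pool.Agent.P.MP_46a8f8_ag.GU.Nm
import Pool.Agent.P.MP_46a8f8_ag.GU.Fin1
import Pool.Agent.P.MP_46a8f8_ag.GU.ZM
import Pool.Agent.P.MP_46a8f8_ag.GU.Ch2
import Pool.Agent.P.MP_46a8f8_ag.GU.Mod2
import Pool.Agent.P.MP_46a8f8_ag.GU.HomQ
import Pool.Agent.P.MP_46a8f8_ag.GU.Nbh
import Pool.Agent.P.MP_46a8f8_ag.GU.PPa
import Pool.Agent.P.MP_46a8f8_ag.GU.PPm
import Pool.Agent.P.MP_46a8f8_ag.GU.PPb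
import Pool.Agent.P.MP_46a8f8_ag.GU.Res
import Pool.Agent.P.MP_46a8f8_ag.GU.PurF
import Pool.Agent.P.MP_46a8f8_ag.GU.PurS
import Pool.Agent.P.MP_46a8f8_ag.GU.PurD
import Pool.Agent.P.MP_46a8f8_ag.GU.Tw
import Pool.Agent.P.MP_46a8f8_ag.GU.Br
import Pool.Agent.P.MP_46a8f8_ag.GU.Br3
import Pool.Agent.P.MP_46a8f8_ag.GU.Iso
import Pool.Agent.P.MP_46a8f8_ag.GU.AzT
import Pool.Agent.P.MP_46a8f8_ag.GU.H9
import Pool.Agent.P.MP_46a8f8_ag.GU.Imd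
import Pool.Agent.P.MP_46a8f8_ag.GU.SubQ
import Pool.Agent.P.MP_46a8f8_ag.GU.NP1
import Pool.Agent.P.MP_46a8f8_ag.GU.NP
import Pool.Agent.P.MP_46a8f8_ag.GU.NPt
import Pool.Agent.P.MP_46a8f8_ag.GU.NPp
import Pool.Agent.P.MP_46a8f8_ag.GU.Ht1
import Pool.Agent.P.MP_46a8f8_ag.GU.RegR
import Pool.Agent.P.MP_46a8f8_ag.GU.Step2
import Pool.Agent.P.MP_46a8f8_ag.GU.Dm

/-!
All packages for the adjoint groups put together.
-/

namespace Pool.Agent.P.MP_46a8f8_ag.GU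

universe u

theorem allStep2 : S_Step2.{u} := pStep2 pHt1

theorem allHR : S_HR.{u} := pHR allStep2 pUp

theorem allSN : S_SN.{u} := pSN pAzT

theorem allInv : S_Inv.{u} := pInv allSN pCen pH9

theorem allDA1 : S_DA1.{u} := pDA1 allSN pDetC

theorem allGD : S_GD.{u} := pGD (pImd allDA1)

theorem allNP1 : S_NP1.{u} := pNP1 pSubQ pTrL

theorem allNPp : S_NPp.{u} :=
  pNPp (pNPt (pNP allNP1 (pNP2 allNP1)) pDm) allGD (pSq allDA1) allHR pDm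

theorem allNbh : S_Nbh.{u} := pNbh (pHomQ pLiftH) pEN

theorem allFin1 : S_Fin1.{u} := pFin1 pZM pNm pLP

theorem allPurS : S_PurS.{u} :=
  pPurS (pRegR pHt1) pUFD (pPPa allNbh allFin1)
    (pPPb pHypD pCh2 (pMod2 pHt1 pLP) (pPPm allNbh allFin1)) allNPp (pPurF (pRes pResV))

theorem allPurD : S_PurD.{u} := pPurD allPurS allGD allHR pDm

theorem allIso : S_Iso.{u} := pIso (pBr pAzT pPrj (pBr3 pAzT)) allInv

end Pool.Agent.P.MP_46a8f8_ag.GU
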