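import Pool.Agent.P.MP_46a8f8_ag.GU.Su
import Pool.Agent.P.MP_46a8f8_ag.GU.Res
import Pool.Agent.P.MP_46a8f8_ag.Reg1
import Pool.Agent.P.MP_46a8f8_ag.Reg2
import Pool.Agent.P.MP_46a8f8_ag.RegB
import Pool.Agent.P.MP_46a8f8_ag.Struct

/-!
Package GNs: units which are reduced norms over the fraction field, smooth case.
-/

namespace Pool.Agent.P.MP_46a8f8_ag.GU

open TensorProduct Function IsLocalRing

universe u

namespace GNsP

variable {R S A O V : Type u} [CommRing R] [CommRing S] [Algebra R S] [Ring A] [Algebra S A]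
  [Algebra R A] [IsScalarTower R S A] [CommRing O] [Algebra R O] [CommRing V] [Algebra R V]
  {n : ℕ} {N : NFam R S A}

/-- clearing denominators -/
theorem down [Algebra O V] [IsScalarTower R O V] (M : Submonoid O) [IsLocalization M V]
    (hG : GB R S A) (hN : NF n N) (hi : Injective (algebraMap O V)) (v : O ⊗[R] S)
    (h : NK N V (mp S (IsScalarTower.toAlgHom R O V) v)) :
    ∃ (d : M) (a : O ⊗[R] A), N O a = v * algebraMap O (O ⊗[R] S) ((d : O) ^ n) := by
  have := hG.free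
  obtain ⟨g, hg⟩ := h
  obtain ⟨d, y, hy⟩ := ResP.clear (R := R) (A := A) M (g : V ⊗[R] A)
  refine ⟨d, y, ResP.mp_inj (A := S) (IsScalarTower.toAlgHom R O V) hi ?_⟩
  rw [hN.nat, hy, hN.smul, hg, map_mul, mp_alg, map_pow (IsScalarTower.toAlgHom R O V), mul_comm]
  rfl

omit [Algebra S A] [Algebra R A] [IsScalarTower R S A] [Ring A] in
theorem dom [Module.Free R S] (f : O →ₐ[R] V) (hf : Injective f) (h : IsDomain (V ⊗[R] S)) :
    IsDomain (O ⊗[R] S) :=
  Function.Injective.isDomain (mp S f) (ResP.mp_inj (A := S) f hf)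

end GNsP

open GNsP in
theorem pGNs (h1 : S_CmpN.{u}) (h2 : S_ClosedS.{u}) (h3 : S_QVS.{u}) : S_GNs.{u} := by
  intro R S A B O K _ _ _ _ _ _ _ _ _ _ _ _ _ _ _ _ _ _ _ _ _ n N hd hG hN hK v hv
  have := hG.free
  have := Algebra.EssFiniteType.isNoetherianRing B O
  obtain ⟨e, he⟩ : ∃ e : ℕ, ringKrullDim B = e :=
    ⟨_, ((isRegularLocalRing_iff B).1 inferInstance).symm⟩
  obtain ⟨m, φ, hφ⟩ := struct B O
  have := RegBP.selfLoc B
  obtain ⟨hR, h𝔓, hreg⟩ := regB regAt regFlat rDom B O m e φ hφ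
    ((regAt B B (maximalIdeal B) e).2 ⟨inferInstance, he⟩)
  have : IsDomain O := rDom O
  set 𝔓 := (maximalIdeal B).map (algebraMap B O) with h𝔓def
  let O' := Localization.AtPrime 𝔓
  obtain ⟨hO1, hO2⟩ := (regAt O O' 𝔓 e).1 hreg
  have hU : ∀ x : O, x ≠ 0 → IsUnit (algebraMap O K x) := fun x hx =>
    ((map_ne_zero_iff _ (IsFractionRing.injective O K)).2 hx).isUnit
  have hn : ∀ x : O, x ∉ 𝔓 → x ≠ 0 := fun x hx e => hx (e ▸ 𝔓.zero_mem)
  let : Algebra O' K := (IsLocalization.lift (M := 𝔓.primeCompl) (g := algebraMap O K)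
    fun y => hU y (hn y y.2)).toAlgebra
  have : IsScalarTower O O' K := IsScalarTower.of_algebraMap_eq fun x =>
    (IsLocalization.lift_eq (M := 𝔓.primeCompl) _ x).symm
  have : IsScalarTower R O' K := IsScalarTower.of_algebraMap_eq fun x => by
    rw [IsScalarTower.algebraMap_apply R O O', ← IsScalarTower.algebraMap_apply O O' K,
      ← IsScalarTower.algebraMap_apply]
  have : IsFractionRing O' K :=
    IsFractionRing.isFractionRing_of_isDomain_of_isLocalization 𝔓.primeCompl O' K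
  let f := IsScalarTower.toAlgHom R O O'
  have hi : Injective (algebraMap O O') :=
    IsLocalization.injective O' 𝔓.primeCompl_le_nonZeroDivisors
  have hDO : IsDomain (O ⊗[R] S) :=
    dom (IsScalarTower.toAlgHom R O K) (IsFractionRing.injective O K) hK
  have hDO' : IsDomain (O' ⊗[R] S) :=
    dom (IsScalarTower.toAlgHom R O' K) (IsFractionRing.injective O' K) hK
  have hv' : NK N K (mp S (IsScalarTower.toAlgHom R O' K) (um f v : (O' ⊗[R] S)ˣ)) := by
    have e1 : (IsScalarTower.toAlgHom R O' K).comp f = IsScalarTower.toAlgHom R O K :=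
      AlgHom.ext fun x => (IsScalarTower.algebraMap_apply O O' K x).symm
    change NK N K (mp S (IsScalarTower.toAlgHom R O' K) (mp S f v))
    rw [H90P.mp_mp, e1]
    exact hv
  obtain ⟨d, a, ha⟩ := down (nonZeroDivisors O') hG hN (IsFractionRing.injective O' K) _ hv'
  have hw : NK N O' (um f v : (O' ⊗[R] S)ˣ) :=
    h1 R S A O' n N (um f v) a d hG hN hDO' (nonZeroDivisors.coe_ne_zero d) ha
      fun Γ _ ψ hψ 𝔭 h𝔭 _ h2' => by
        have hm : (maximalIdeal O').height ≤ 2 := by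
          have h4 : ringKrullDim O' ≤ 2 := by rw [hO2, ← he]; exact hd
          rw [← maximalIdeal_height_eq_ringKrullDim] at h4
          exact WithBot.coe_le_coe.1 h4
        have h5 : (2 : ℕ∞) ≤ (maximalIdeal O').height :=
          h2'.trans (Ideal.height_mono (le_maximalIdeal h𝔭.ne_top))
        have hc : Van ψ (maximalIdeal O') := h2 O' (O' ⊗[R] A) Γ ψ (by
          rw [← maximalIdeal_height_eq_ringKrullDim]
          exact WithBot.coe_le_coe.2 h5) (hG.sep.bc O') hψ
        by_cases h𝔪 : 𝔭 = maximalIdeal O'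
        · exact h𝔪 ▸ hc
        · have hlt : 𝔭 < maximalIdeal O' := lt_of_le_of_ne (le_maximalIdeal h𝔭.ne_top) h𝔪
          have h6 : (3 : ℕ∞) ≤ 2 :=
            calc (3 : ℕ∞) = 2 + 1 := by norm_num
              _ ≤ 𝔭.height + 1 := by gcongr
              _ ≤ (maximalIdeal O').height := Ideal.height_add_one_le_of_lt_of_isPrime hlt
              _ ≤ 2 := hm
          exact absurd h6 (by norm_num)
  obtain ⟨s, b, hb⟩ := down 𝔓.primeCompl hG hN hi (v : O ⊗[R] S) hw
  exact h1 R S A O n N v b s hG hN hDO (hn s s.2) hb fun Γ _ ψ hψ 𝔭 h𝔭 hs h2' =>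
    h3 B O (O ⊗[R] A) Γ ψ m φ 𝔭 hφ h𝔓 (hG.sep.bc O) hψ h𝔭 h2' fun hle => s.2 (hle hs)

end Pool.Agent.P.MP_46a8f8_ag.GU
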