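import Pool.Agent.P.MP_46a8f8_ag.GU.Su

/-! The determinant on one block of a system of matrix units. -/

namespace Pool.Agent.P.MP_46a8f8_ag.GU

open Polynomial

universe u

namespace LAP

theorem mul2 {E : Type*} [Ring E] {a b p q : E} (h : p * q = 0) (hb : b * q = q * b) :
    (1 + a * p) * (1 + b * q) = 1 + a * p + b * q := by
  rw [mul_add, mul_one, add_mul, one_mul, hb, mul_assoc, ← mul_assoc p, h, zero_mul, mul_zero,
    add_zero]

variable {ι : Type} [Fintype ι] [DecidableEq ι]

theorem pow_det {R : Type*} [CommRing R] {n : ℕ} {e : Fin n → Fin n → Matrix ι ι R}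
    {B : Matrix ι ι R} (h : ∀ i j k l, e i j * e k l = if j = k then e i l else 0)
    (hB : ∀ i j, B * e i j = e i j * B) (i₀ : Fin n) (s : Finset (Fin n)) :
    (1 + B * ∑ i ∈ s, e i i).det = (1 + B * e i₀ i₀).det ^ s.card := by
  induction s using Finset.induction_on with
  | empty => simp
  | insert j s hj ih =>
    have h0 : (∑ i ∈ s, e i i) * e j j = 0 := by
      rw [Finset.sum_mul]
      exact Finset.sum_eq_zero fun i hi => by rw [h, if_neg fun e : i = j => hj (e ▸ hi)]
    have h1 : (1 + B * e j j).det = (1 + B * e i₀ i₀).det := by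
      rw [show B * e j j = B * e j i₀ * e i₀ j by rw [mul_assoc, h, if_pos rfl],
        Matrix.det_one_add_mul_comm, ← mul_assoc, ← hB, mul_assoc, h, if_pos rfl]
    rw [Finset.sum_insert hj, add_comm (e j j), mul_add, ← add_assoc, ← mul2 h0 (hB j j),
      Matrix.det_mul, ih, h1, Finset.card_insert_of_notMem hj, pow_succ]

variable {F : Type u} [Field F]

/-- the determinant of `X - f` on the block of `p` -/
noncomputable def w (f p : Matrix ι ι F) : F[X] :=
  (1 + (f.charmatrix - 1) * C.mapMatrix p).det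

theorem w_eval (f p : Matrix ι ι F) (c : F) :
    (w f p).eval c = (1 + (Matrix.scalar ι c - f - 1) * p).det := by
  rw [w, ← coe_evalRingHom, RingHom.map_det, map_add, map_mul, map_sub, map_one]
  congr 3
  · congr 1
    ext i j
    by_cases h : i = j
    · subst h
      simp
    · simp [h]
  · ext i j
    simp

theorem w_mul (f : Matrix ι ι F) {p : Matrix ι ι F} (hp : p * p = p) :
    w f p * w 0 (1 - p) = (f * p).charpoly := by
  rw [w, w, ← Matrix.det_mul, mul2, Matrix.charpoly]
  · congr 1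
    simp only [Matrix.charmatrix, map_sub, map_mul, map_one, map_zero]
    noncomm_ring
  · rw [← map_mul, mul_sub, hp, mul_one, sub_self, map_zero]
  · rw [Matrix.charmatrix, map_zero, sub_zero, sub_mul, mul_sub,
      (Matrix.scalar_commute _ (fun _ => Commute.all _ _) _).eq, one_mul, mul_one]

theorem w_zero {p : Matrix ι ι F} (hp : p * p = p) : ∃ k, w 0 p = X ^ k := by
  have h := w_mul 0 hp
  rw [zero_mul, Matrix.charpoly_zero] at h
  obtain ⟨k, -, v, hv⟩ := (dvd_prime_pow prime_X _).1 (Dvd.intro _ h)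
  obtain ⟨c, -, hc⟩ := Polynomial.isUnit_iff.1 v.isUnit
  have h1 := congrArg (eval 1) hv
  rw [← hc] at hv h1
  simp only [eval_mul, w_eval, eval_C, map_one, sub_zero, sub_self, zero_mul, add_zero,
    Matrix.det_one, one_mul, eval_pow, eval_X, one_pow] at h1
  exact ⟨k, by rwa [h1, C_1, mul_one] at hv⟩

theorem monic_eq {P Q : F[X]} {n : ℕ} (hn : n ≠ 0) (hP : P.Monic) (hQ : Q.Monic)
    (h : P ^ n = Q ^ n) : P = Q :=
  eq_of_monic_of_associated hP hQ (associated_of_dvd_dvd
    ((IsIntegrallyClosed.pow_dvd_pow_iff hn).1 h.dvd)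
    ((IsIntegrallyClosed.pow_dvd_pow_iff hn).1 h.symm.dvd))

end LAP

open LAP in
theorem pLA : S_LA.{u} := by
  intro F _ ι _ _ n e f Q i₀ h hs hf hQ hc
  have hp : e i₀ i₀ * e i₀ i₀ = e i₀ i₀ := by rw [h, if_pos rfl]
  have h1 : w f (e i₀ i₀) ^ n = Q ^ n := by
    have := pow_det (e := fun i j => C.mapMatrix (e i j)) (B := f.charmatrix - 1)
      (fun i j k l => by rw [← map_mul, h]; split_ifs <;> simp)
      (fun i j => by
        rw [Matrix.charmatrix, sub_mul, sub_mul, mul_sub, mul_sub, ← map_mul, ← map_mul, hf,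
          (Matrix.scalar_commute _ (fun _ => Commute.all _ _) _).eq, one_mul, mul_one])
      i₀ Finset.univ
    rw [← map_sum, hs, map_one, mul_one, add_sub_cancel, Finset.card_univ, Fintype.card_fin] at this
    rw [w, ← this, ← hc, Matrix.charpoly]
  have hfp := hf i₀ i₀
  generalize e i₀ i₀ = p at hp h1 hfp ⊢
  obtain ⟨k, hk⟩ := w_zero hp
  obtain ⟨l, hl⟩ := w_zero (p := 1 - p) (by rw [sub_mul, one_mul, mul_sub, hp, mul_one]; simp)
  have h2 := w_mul f hp
  have h3 := w_mul 0 hp
  rw [hl] at h2 h3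
  have hm : (w f p).Monic := (monic_X_pow l).of_mul_monic_right (h2 ▸ Matrix.charpoly_monic _)
  have h4 := congrArg natDegree h2
  have h5 := congrArg natDegree h3
  rw [hm.natDegree_mul (monic_X_pow l), Matrix.charpoly_natDegree_eq_dim] at h4
  rw [hk, ← pow_add, natDegree_X_pow, Matrix.charpoly_natDegree_eq_dim] at h5
  rw [natDegree_X_pow] at h4
  have h6 := w_eval 0 p (-1)
  rw [hk, eval_pow, eval_X] at h6
  rw [← monic_eq i₀.pos.ne' hm hQ h1, show (w f p).natDegree = k by omega, h6,
    coeff_zero_eq_eval_zero, w_eval, ← Matrix.det_mul]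
  congr 1
  have h7 : p * (f * p) = f * p := by rw [← mul_assoc, ← hfp, mul_assoc, hp]
  simp only [map_neg, map_one, map_zero, sub_zero, zero_sub, sub_mul, neg_mul, one_mul, mul_add,
    add_mul, mul_sub, mul_neg, mul_one, hp, h7]
  abel

end Pool.Agent.P.MP_46a8f8_ag.GU
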