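import Pool.Agent.P.MP_46a8f8_ag.GU.Su
import Pool.Agent.P.MP_46a8f8_ag.GU.PurS

/-!
Matrix units over the fraction field of a semilocal principal ideal domain descend.
-/

namespace Pool.Agent.P.MP_46a8f8_ag.GU

open TensorProduct Function Matrix

universe u

namespace LatSP

section core

variable {D E : Type u} [CommRing D] [Ring E] [Algebra D E] {n m : ℕ}

/-- the span of the rows -/
noncomputable def tot (c : Fin n → Fin n → Matrix (Fin m) (Fin m) E) :
    (Fin n → Fin n → Fin m → E) →ₗ[E] (Fin m → E) where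
  toFun w := ∑ i, ∑ j, w i j ᵥ* c i j
  map_add' w w' := by simp only [Pi.add_apply, add_vecMul, Finset.sum_add_distrib]
  map_smul' x w := by
    simp only [Pi.smul_apply, RingHom.id_apply, Finset.smul_sum, smul_vecMul]

theorem tot_apply (c : Fin n → Fin n → Matrix (Fin m) (Fin m) E)
    (w : Fin n → Fin n → Fin m → E) : tot c w = ∑ i, ∑ j, w i j ᵥ* c i j := rfl

theorem vecMul_dsmul (d : D) (y : Fin m → E) (M : Matrix (Fin m) (Fin m) E) :
    y ᵥ* (d • M) = d • (y ᵥ* M) := by
  funext j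
  simp only [vecMul, dotProduct, Matrix.smul_apply, Pi.smul_apply, Finset.smul_sum,
    mul_smul_comm]

theorem vecMul_sum' {ι : Type} (s : Finset ι) (y : Fin m → E) (M : ι → Matrix (Fin m) (Fin m) E) :
    y ᵥ* ∑ i ∈ s, M i = ∑ i ∈ s, y ᵥ* M i := by
  funext j
  simp only [vecMul, dotProduct, Matrix.sum_apply, Finset.sum_apply, Finset.mul_sum]
  exact Finset.sum_comm

theorem sum_vecMul' {ι : Type} (s : Finset ι) (y : ι → Fin m → E) (M : Matrix (Fin m) (Fin m) E) :
    (∑ i ∈ s, y i) ᵥ* M = ∑ i ∈ s, y i ᵥ* M := by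
  funext j
  simp only [vecMul, dotProduct, Finset.sum_apply, Finset.sum_mul]
  exact Finset.sum_comm

theorem mem_tot {d : D} {c : Fin n → Fin n → Matrix (Fin m) (Fin m) E}
    (h2 : ∑ i, c i i = d • (1 : Matrix (Fin m) (Fin m) E)) (y : Fin m → E) :
    d • y ∈ LinearMap.range (tot c) := by
  refine ⟨fun i j => if i = j then y else 0, ?_⟩
  have e : ∀ i : Fin n, ∑ j, (if i = j then y else 0) ᵥ* c i j = y ᵥ* c i i := fun i => by
    rw [Finset.sum_eq_single i (fun j _ h => by rw [if_neg h.symm, zero_vecMul])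
      fun h => absurd (Finset.mem_univ i) h, if_pos rfl]
  rw [tot_apply, Finset.sum_congr rfl fun i _ => e i, ← vecMul_sum', h2, vecMul_dsmul, vecMul_one]

theorem tot_mul {d : D} {c : Fin n → Fin n → Matrix (Fin m) (Fin m) E}
    (h1 : ∀ i j k l, c i j * c k l = if j = k then d • c i l else 0)
    (w : Fin n → Fin n → Fin m → E) (k l : Fin n) :
    tot c w ᵥ* c k l = d • tot c fun i j => if j = l then w i k else 0 := by
  rw [tot_apply, tot_apply, sum_vecMul', Finset.smul_sum]
  refine Finset.sum_congr rfl fun i _ => ?_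
  rw [sum_vecMul', Finset.sum_eq_single k
    (fun j _ h => by rw [vecMul_vecMul, h1, if_neg h, vecMul_zero])
    fun h => absurd (Finset.mem_univ k) h,
    Finset.sum_eq_single l (fun j _ h => by rw [if_neg h, zero_vecMul])
    fun h => absurd (Finset.mem_univ l) h, vecMul_vecMul, h1, if_pos rfl, if_pos rfl, vecMul_dsmul]

theorem core {d : D} (hd : IsSMulRegular E d) {c : Fin n → Fin n → Matrix (Fin m) (Fin m) E}
    (h1 : ∀ i j k l, c i j * c k l = if j = k then d • c i l else 0)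
    (h2 : ∑ i, c i i = d • (1 : Matrix (Fin m) (Fin m) E)) (β : (Fin m → E) →ₗ[E] (Fin m → E))
    (hi : Injective β) (hr : ∀ y, y ∈ LinearMap.range (tot c) ↔ ∃ z, β z = y) :
    MU n (Matrix (Fin m) (Fin m) E) := by
  let g : Matrix (Fin m) (Fin m) E := Matrix.of fun i => β (Pi.single i 1)
  have hg : ∀ y, y ᵥ* g = β y := fun y => by
    have e : y = ∑ i, y i • (Pi.single i 1 : Fin m → E) := by
      funext j
      simp [Finset.sum_apply, Pi.single_apply]
    conv_rhs => rw [e, map_sum]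
    funext j
    simp [vecMul, dotProduct, g, Finset.sum_apply]
  have hz : ∀ k l i, ∃ z, g i ᵥ* c k l = d • β z := fun k l i => by
    obtain ⟨w, hw⟩ := (hr (g i)).2 ⟨_, rfl⟩
    obtain ⟨z, hz⟩ := (hr _).1 (LinearMap.mem_range_self (tot c)
      fun i j => if j = l then w i k else 0)
    exact ⟨z, by rw [← hw, tot_mul h1, hz]⟩
  choose z hz using hz
  let ε : Fin n → Fin n → Matrix (Fin m) (Fin m) E := fun k l => Matrix.of (z k l)
  have hε : ∀ k l, g * c k l = d • (ε k l * g) := fun k l => by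
    funext i
    change g i ᵥ* c k l = d • (z k l i ᵥ* g)
    rw [hz, hg]
  have hc : ∀ M M' : Matrix (Fin m) (Fin m) E, d • M = d • M' → M = M' := fun M M' h => by
    ext i j
    exact hd (congrFun (congrFun h i) j)
  have hc' : ∀ M M' : Matrix (Fin m) (Fin m) E, M * g = M' * g → M = M' := fun M M' h => by
    funext i
    apply hi
    rw [← hg, ← hg]
    exact congrFun h i
  refine ⟨ε, fun i j k l => hc' _ _ (hc _ _ (hc _ _ ?_)), hc' _ _ (hc _ _ ?_)⟩
  · rw [mul_assoc, ← mul_smul_comm, ← hε, ← mul_assoc, ← smul_mul_assoc, ← hε, mul_assoc, h1]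
    split_ifs
    · rw [mul_smul_comm, hε]
    · simp
  · rw [Finset.sum_mul, Finset.smul_sum, Finset.sum_congr rfl fun i _ => (hε i i).symm,
      ← Finset.mul_sum, h2, mul_smul_comm, mul_one, one_mul]

end core

variable {R A D : Type u} [CommRing R] [Ring A] [Algebra R A] [CommRing D] [Algebra R D]

/-- row vectors -/
@[reducible] noncomputable def rows (R A D : Type u) [CommRing R] [Ring A] [Algebra R A]
    [CommRing D] [Algebra R D] (m : ℕ) : RM R A D where
  M := Fin m → D ⊗[R] A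
  ρ := (Module.toModuleEnd D (Fin m → D ⊗[R] A) : D ⊗[R] A →+* _).comp
    (Algebra.TensorProduct.includeRight : A →ₐ[R] D ⊗[R] A)
  alg r y := by
    change (Algebra.TensorProduct.includeRight : A →ₐ[R] D ⊗[R] A) (algebraMap R A r) • y = _
    rw [AlgHom.commutes, algebraMap_smul, algebraMap_smul]

theorem rows_rho {m : ℕ} (a : A) (y : Fin m → D ⊗[R] A) :
    (rows R A D m).ρ a y = ((1 : D) ⊗ₜ[R] a) • y := rfl

/-- an equivariant map is linear -/
noncomputable def lin {m : ℕ} (f : (Fin m → D ⊗[R] A) →ₗ[D] (Fin m → D ⊗[R] A))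
    (h : ∀ (a : A) y, f (((1 : D) ⊗ₜ[R] a) • y) = ((1 : D) ⊗ₜ[R] a) • f y) :
    (Fin m → D ⊗[R] A) →ₗ[D ⊗[R] A] (Fin m → D ⊗[R] A) where
  toFun := f
  map_add' := f.map_add
  map_smul' x y := by
    rw [RingHom.id_apply]
    induction x using TensorProduct.induction_on with
    | zero => simp
    | add x x' hx hx' => rw [add_smul, add_smul, map_add, hx, hx']
    | tmul o a =>
      have e : o ⊗ₜ[R] a = o • ((1 : D) ⊗ₜ[R] a) := by rw [smul_tmul', smul_eq_mul, mul_one]
      rw [e, smul_assoc, smul_assoc, map_smul, h]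

end LatSP

open LatSP in
theorem pLatS (hBN : S_BN.{u}) : S_LatS.{u} := by
  intro R A D F _ _ _ _ _ _ _ _ _ _ _ _ _ n m hS he
  obtain ⟨e, e1, e2⟩ := he
  have := hS.free
  have := hS.fin
  let j := IsScalarTower.toAlgHom R D F
  have hj : Injective (mp A j) := PurSP.mp_inj j (IsFractionRing.injective D F)
  choose d₀ y₀ hd₀ hy₀ using fun p : (Fin n × Fin n) × Fin m × Fin m =>
    PurSP.clear (C := D) (e p.1.1 p.1.2 p.2.1 p.2.2)
  let d : D := ∏ p, d₀ p
  have hd : d ≠ 0 := Finset.prod_ne_zero_iff.2 fun p _ => hd₀ p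
  have hx : ∀ a b s t, ∃ y : D ⊗[R] A, mp A j y = algebraMap D F d • e a b s t := by
    intro a b s t
    obtain ⟨q, hq⟩ : d₀ ((a, b), s, t) ∣ d := Finset.dvd_prod_of_mem _ (Finset.mem_univ _)
    refine ⟨q • y₀ ((a, b), s, t), ?_⟩
    rw [H90P.mp_smul, hy₀, smul_smul, hq, mul_comm (d₀ _), map_mul]
    rfl
  choose x hx using hx
  let c : Fin n → Fin n → Matrix (Fin m) (Fin m) (D ⊗[R] A) := fun a b => Matrix.of (x a b)
  let ψ : Matrix (Fin m) (Fin m) (D ⊗[R] A) →+* Matrix (Fin m) (Fin m) (F ⊗[R] A) :=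
    (mp A j : D ⊗[R] A →+* F ⊗[R] A).mapMatrix
  have hψ : Injective ψ := fun M M' h => by
    ext s t
    exact hj (congrFun (congrFun h s) t)
  have hc : ∀ a b, ψ (c a b) = algebraMap D F d • e a b := fun a b => by
    ext s t
    exact hx a b s t
  have hs : ∀ M, ψ (d • M) = algebraMap D F d • ψ M := fun M => by
    ext s t
    exact H90P.mp_smul A j d (M s t)
  have h1 : ∀ a b k l, c a b * c k l = if b = k then d • c a l else 0 := fun a b k l => hψ (by
    rw [map_mul, hc, hc, smul_mul_assoc, mul_smul_comm, e1]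
    split_ifs
    · rw [hs, hc]
    · simp)
  have h2 : ∑ a, c a a = d • (1 : Matrix (Fin m) (Fin m) (D ⊗[R] A)) := hψ (by
    rw [map_sum, hs, map_one, Finset.sum_congr rfl fun a _ => hc a a, ← Finset.smul_sum, e2])
  let N : Submodule D (Fin m → D ⊗[R] A) := (LinearMap.range (tot c)).restrictScalars D
  have hN : (rows R A D m).Stab N := fun a y hy => (LinearMap.range (tot c)).smul_mem _ hy
  obtain ⟨α, hα⟩ := (hBN R A D (rows R A D m) N hN d hS ⟨inferInstance, inferInstance⟩ hd
    (mem_tot h2)).symm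
  have hβ : ∀ (a : A) y, (N.subtype ∘ₗ α.toLinearMap) (((1 : D) ⊗ₜ[R] a) • y) =
      ((1 : D) ⊗ₜ[R] a) • (N.subtype ∘ₗ α.toLinearMap) y := fun a y =>
    congrArg Subtype.val (hα a y)
  refine core (IsSMulRegular.of_ne_zero hd) h1 h2 (lin _ hβ)
    (Subtype.val_injective.comp α.injective) fun y => ⟨fun hy => ?_, ?_⟩
  · exact ⟨α.symm ⟨y, hy⟩, congrArg Subtype.val (α.apply_symm_apply _)⟩
  · rintro ⟨z, rfl⟩
    exact (α z).2

end Pool.Agent.P.MP_46a8f8_ag.GU
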