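import Pool.Agent.P.MP_46a8f8_ag.GU.Su

/-! Units of a corner whose symmetric elements are zero or invertible. -/

namespace Pool.Agent.P.MP_46a8f8_ag.GU

universe u

namespace Ly0P

variable {E : Type u} [Ring E] {e : E}

theorem mul_ex (he : e * e = e) {x y : E} (hx : x * e = x) (hy : e * y = y) :
    (x + (1 - e)) * (y + (1 - e)) = x * y + (1 - e) := by
  simp only [add_mul, mul_add, mul_sub, sub_mul, mul_one, one_mul, hx, hy, he]
  abel

theorem exists_unit (he : e * e = e) {y : E} (hy : Cn e y) (h : Un e y) :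
    ∃ u : Eˣ, (u : E) = y + (1 - e) := by
  obtain ⟨y', h1, h2, h3⟩ := h
  exact ⟨⟨y + (1 - e), y' + (1 - e), by rw [mul_ex he hy.2 h1.1, h2, add_sub_cancel],
    by rw [mul_ex he h1.2 hy.1, h3, add_sub_cancel]⟩, rfl⟩

end Ly0P

open Ly0P in
theorem pLy0 : S_Ly0.{u} := by
  rintro k E _ _ _ _ hS e κ H ⟨⟨K, rfl⟩, hc, hk⟩ hB se he hU g ⟨d, hd, hg⟩
  have := hS.fin
  have ss : ∀ (r : k) (y : E), star (r • y) = r • star y := fun r y => by
    rw [Algebra.smul_def, star_mul, hS.st, ← Algebra.commutes, ← Algebra.smul_def]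
  have ci : ∀ x, (↑K⁻¹ : E) * x = x * ↑K⁻¹ := fun x => by
    rw [Units.inv_mul_eq_iff_eq_mul, ← mul_assoc, hc, Units.mul_inv_cancel_right]
  have si : star (↑K⁻¹ : E) = -↑K⁻¹ := by
    have := congrArg star K.inv_mul
    rw [star_mul, hk, star_one, neg_mul, neg_eq_iff_eq_neg, ← Units.eq_inv_mul_iff_mul_eq] at this
    rw [this, mul_neg, mul_one]
  have sk : ∀ z : E, star z = -z → star (↑K⁻¹ * z) = ↑K⁻¹ * z := fun z hz => by
    rw [star_mul, hz, si, neg_mul_neg, ci]
  have de : star d * e = star d := by rw [← se, ← star_mul, hd.1]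
  let W : Submodule k E :=
    { carrier := {y | star y = y ∧ Cn e y}
      add_mem' := fun {a b} ha hb => ⟨by rw [star_add, ha.1, hb.1],
        by rw [mul_add, ha.2.1, hb.2.1], by rw [add_mul, ha.2.2, hb.2.2]⟩
      zero_mem' := ⟨star_zero _, mul_zero _, zero_mul _⟩
      smul_mem' := fun r y hy => ⟨by rw [ss, hy.1], by rw [mul_smul_comm, hy.2.1],
        by rw [smul_mul_assoc, hy.2.2]⟩ }
  let L : W →ₗ[k] W := (LinearMap.mulLeft k d + LinearMap.mulRight k (star d)).restrict
    fun y hy => show star (d * y + y * star d) = d * y + y * star d ∧ Cn e (d * y + y * star d) from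
      ⟨by rw [star_add, star_mul, star_mul, star_star, hy.1, add_comm],
        by rw [mul_add, ← mul_assoc, ← mul_assoc, hd.1, hy.2.1],
        by rw [add_mul, mul_assoc, mul_assoc, de, hy.2.2]⟩
  have key : ∀ y : E, star y = y → Cn e y → Un e y →
      (∀ v : Eˣ, (v : E) = d * y + (1 - e) → v ∈ H) → g ∈ H := fun y h1 h2 h3 h4 => by
    obtain ⟨u, hu⟩ := exists_unit he h2 h3
    refine (H.mul_mem_cancel_right (hB.sym u ?_)).1 (h4 _ ?_)
    · rw [hu, star_add, star_sub, h1, star_one, se]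
    · rw [Units.val_mul, hg, hu, mul_ex he hd.2 h2.1]
  by_cases hi : Function.Injective L
  · obtain ⟨⟨y, h1, h2⟩, h3⟩ := LinearMap.injective_iff_surjective.1 hi
      ⟨e + e, add_mem ⟨se, he, he⟩ ⟨se, he, he⟩⟩
    have h4 : d * y + y * star d = e + e := congrArg Subtype.val h3
    refine key y h1 h2 ((hU y h1 h2).elim (fun h => ?_) id) fun v hv => ?_
    · rw [h, mul_zero, zero_mul, add_zero, ← two_smul k, eq_comm, hS.two.smul_eq_zero] at h4
      exact ⟨0, ⟨mul_zero _, zero_mul _⟩, by rw [mul_zero, h4], by rw [zero_mul, h4]⟩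
    · refine hB.skew v _ (sk (d * y - e) ?_) ?_
      · rw [star_sub, star_mul, h1, se, eq_sub_of_add_eq' h4]
        abel
      · rw [hv, Units.mul_inv_cancel_left]
        abel
  · rw [injective_iff_map_eq_zero] at hi
    push Not at hi
    obtain ⟨⟨y, h1, h2⟩, h3, h5⟩ := hi
    have h4 : d * y + y * star d = 0 := congrArg Subtype.val h3
    refine key y h1 h2 ((hU y h1 h2).resolve_left fun h => h5 (Subtype.ext h)) fun v hv => ?_
    have c1 : Cn e (↑K⁻¹ * e) := ⟨by rw [ci, ← mul_assoc, he], by rw [mul_assoc, he]⟩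
    have c2 : Cn e (K * e) := ⟨by rw [hc, ← mul_assoc, he], by rw [mul_assoc, he]⟩
    obtain ⟨m, hm⟩ := exists_unit he c2 ⟨_, c1,
      by rw [mul_assoc, c1.1, Units.mul_inv_cancel_left],
      by rw [mul_assoc, c2.1, Units.inv_mul_cancel_left]⟩
    have hm' := hB.mix m e se (by rw [hm, add_comm])
    refine (H.mul_mem_cancel_left (inv_mem hm')).1 (hB.sym _ ?_)
    have e1 : ((m⁻¹ * v : Eˣ) : E) = ↑K⁻¹ * (d * y) + (1 - e) := by
      rw [Units.val_mul, Units.inv_mul_eq_iff_eq_mul, hm, mul_ex he c2.2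
        (by rw [ci, ← mul_assoc, ← mul_assoc, hd.1]), mul_assoc, ← mul_assoc e, ← ci, mul_assoc,
        Units.mul_inv_cancel_left, ← mul_assoc, hd.1, hv]
    rw [e1, star_add, star_sub, star_one, se,
      sk _ (by rw [star_mul, h1, eq_neg_of_add_eq_zero_right h4])]

end Pool.Agent.P.MP_46a8f8_ag.GU
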