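import Pool.Agent.P.MP_46a8f8_ag.GU.Su

/-!
Generators of the group of units over a field.
-/

namespace Pool.Agent.P.MP_46a8f8_ag.GU

open TensorProduct Function IsLocalRing

universe u

namespace Ly1P

theorem lt (k : Type u) {E : Type u} [Field k] [Ring E] [Algebra k E] [Module.Finite k E] {e p : E}
    (hp : p * p = p) (h : Cn e p) (hne : p ≠ e) :
    Module.finrank k (LinearMap.range (LinearMap.mulLeft k p)) <
      Module.finrank k (LinearMap.range (LinearMap.mulLeft k e)) := by
  refine Submodule.finrank_lt_finrank_of_lt (lt_of_le_of_ne ?_ fun h0 => hne ?_)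
  · rintro _ ⟨x, rfl⟩
    exact ⟨p * x, by rw [LinearMap.mulLeft_apply, LinearMap.mulLeft_apply, ← mul_assoc, h.1]⟩
  · obtain ⟨x, hx⟩ : e ∈ LinearMap.range (LinearMap.mulLeft k p) := h0 ▸ ⟨1, mul_one e⟩
    rw [LinearMap.mulLeft_apply] at hx
    rw [← h.2, ← hx, ← mul_assoc, hp]

end Ly1P

theorem pLy1 (h1 : S_BassS.{u}) (h2 : S_SyU.{u}) (h3 : S_Ly0.{u}) (h4 : S_Blk.{u}) :
    S_Ly1.{u} := by
  intro k E _ _ _ _ _ κ H hκ hH
  have : Module.Finite k E := SA.fin
  have hB := h1 k E (SA.toSep k E)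
  have ht : IsUnit (2 : E) := by
    have := (SA.two (R := k) (A := E)).map (algebraMap k E)
    rwa [map_ofNat] at this
  have key : ∀ (n : ℕ) (e : E), Module.finrank k (LinearMap.range (LinearMap.mulLeft k e)) = n →
      star e = e → e * e = e → ∀ g, Ex e g → g ∈ H := by
    intro n
    induction n using Nat.strong_induction_on with
    | _ n ih =>
      intro e hn hs he
      by_cases hp : ∀ p, star p = p → p * p = p → Cn e p → p = 0 ∨ p = e
      · exact h3 k E e κ H hκ hH hs he (h2 k E e hs he hp)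
      push Not at hp
      obtain ⟨p, p1, p2, p3, p4, p5⟩ := hp
      have q2 : (e - p) * (e - p) = e - p := by
        rw [sub_mul, mul_sub, mul_sub, he, p2, p3.1, p3.2, sub_self, sub_zero]
      have q3 : Cn e (e - p) := ⟨by rw [mul_sub, he, p3.1], by rw [sub_mul, he, p3.2]⟩
      have := h4 E p (e - p) H hB ht p2 q2 (by rw [mul_sub, p2, p3.2, sub_self])
        (by rw [sub_mul, p2, p3.1, sub_self]) hH.comm
        (ih _ (hn ▸ Ly1P.lt k p2 p3 p5) p rfl p1 p2)
        (ih _ (hn ▸ Ly1P.lt k q2 q3 fun e0 => p4 (sub_eq_self.1 e0)) (e - p) rfl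
          (by rw [star_sub, hs, p1]) q2)
      rwa [add_sub_cancel] at this
  exact fun g => key _ 1 rfl (star_one E) (mul_one 1) g ⟨g, ⟨one_mul _, mul_one _⟩, by simp⟩

end Pool.Agent.P.MP_46a8f8_ag.GU
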