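import Pool.Agent.P.MP_46a8f8_ag.GU.Su
import Pool.Agent.P.MP_46a8f8_ag.GU.Bcg

/-! Generation of the unit group over a local ring from the residue field. -/

namespace Pool.Agent.P.MP_46a8f8_ag.GU

open TensorProduct Function IsLocalRing

universe u

namespace Ly2P

theorem skew {E : Type u} [Ring E] [StarRing E] {κ z : E} (h : Kap κ) (hz : star z = -z) :
    ∃ s, star s = s ∧ z = κ * s := by
  obtain ⟨⟨K, rfl⟩, hc, hk⟩ := h
  have ci : ∀ x, (↑K⁻¹ : E) * x = x * ↑K⁻¹ := fun x => by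
    rw [Units.inv_mul_eq_iff_eq_mul, ← mul_assoc, hc, Units.mul_inv_cancel_right]
  have si : star (↑K⁻¹ : E) = -↑K⁻¹ := by
    have := congrArg star K.inv_mul
    rw [star_mul, hk, star_one, neg_mul, neg_eq_iff_eq_neg, ← Units.eq_inv_mul_iff_mul_eq] at this
    rw [this, mul_neg, mul_one]
  exact ⟨↑K⁻¹ * z, by rw [star_mul, hz, si, neg_mul_neg, ci], (K.mul_inv_cancel_left z).symm⟩

variable {R A : Type u} [CommRing R] [IsLocalRing R] [Ring A] [Algebra R A]

variable (R) in
/-- reduction to the residue field -/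
noncomputable def rd : A →ₐ[R] ResidueField R ⊗[R] A := Algebra.TensorProduct.includeRight

theorem rd_onto : Surjective (rd R (A := A)) :=
  TensorProduct.mk_surjective R A (ResidueField R) residue_surjective

theorem onto [Module.Finite R A] (f : A →ₗ[R] A) (h : ∀ z, ∃ y, rd R (f y) = z) :
    Surjective f := by
  rw [← LinearMap.range_eq_top, ← map_tensorProduct_mk_eq_top, eq_top_iff]
  intro z _
  obtain ⟨y, hy⟩ := h z
  exact ⟨f y, ⟨y, rfl⟩, hy⟩

theorem unit_of [Module.Finite R A] {x : A} (h : IsUnit (rd R x)) : IsUnit x := by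
  obtain ⟨v, hv⟩ := h
  refine isUnit_iff_exists_and_exists.2 ⟨onto (LinearMap.mulLeft R x) (fun z => ?_) 1,
    onto (LinearMap.mulRight R x) (fun z => ?_) 1⟩
  · obtain ⟨y, hy⟩ := rd_onto (v⁻¹.val * z)
    exact ⟨y, by rw [LinearMap.mulLeft_apply, map_mul, hy, ← hv, Units.mul_inv_cancel_left]⟩
  · obtain ⟨y, hy⟩ := rd_onto (z * v⁻¹.val)
    exact ⟨y, by rw [LinearMap.mulRight_apply, map_mul, hy, ← hv, Units.inv_mul_cancel_right]⟩

end Ly2P

open Ly2P in
theorem pLy2 (h1 : S_Ly1.{u}) : S_Ly2.{u} := by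
  intro R A _ _ _ _ _ hS κ H hK hB g
  have := hS.fin
  let := bcStar R A (ResidueField R)
  have := (pBcg R A (ResidueField R)).1
  have st : ∀ a : A, star (rd R a) = rd R (star a) := fun _ => rfl
  obtain ⟨r, hr⟩ := hS.two.exists_left_inv
  have half : ∀ {M : Type u} [AddCommGroup M] [Module R M] (x : M), r • (x + x) = x := fun x => by
    rw [← two_smul R, smul_smul, hr, one_smul]
  have sy : ∀ a : A, star (r • (a + star a)) = r • (a + star a) := fun a => by
    rw [HermP.star_smul', star_add, star_star, add_comm]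
  have lift : ∀ s : ResidueField R ⊗[R] A, star s = s → ∃ a, star a = a ∧ rd R a = s :=
    fun s hs => by
      obtain ⟨a, rfl⟩ := rd_onto s
      exact ⟨_, sy a, by rw [map_smul, map_add, ← st, hs, half]⟩
  let φ : Aˣ →* (ResidueField R ⊗[R] A)ˣ := Units.map (rd R (A := A)).toRingHom.toMonoidHom
  have ul : ∀ (v : (ResidueField R ⊗[R] A)ˣ) (a : A), rd R a = v →
      ∃ w : Aˣ, (w : A) = a ∧ φ w = v := fun v a h => by
    obtain ⟨w, rfl⟩ := unit_of (h ▸ v.isUnit : IsUnit (rd R a))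
    exact ⟨w, rfl, Units.ext h⟩
  obtain ⟨h, hh, e⟩ := h1 (ResidueField R) _ (rd R κ) (H.map φ)
    ⟨hK.unit.map _, fun x => by
      obtain ⟨a, rfl⟩ := rd_onto x
      rw [← map_mul, ← map_mul, hK.cen], by rw [st, hK.skew, map_neg]⟩
    ⟨fun x y => by
      obtain ⟨a, ha⟩ := rd_onto (x : ResidueField R ⊗[R] A)
      obtain ⟨b, hb⟩ := rd_onto (y : ResidueField R ⊗[R] A)
      obtain ⟨a, -, rfl⟩ := ul x a ha
      obtain ⟨b, -, rfl⟩ := ul y b hb
      exact ⟨_, hB.comm a b, by simp only [map_mul, map_inv]⟩,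
    fun v hv => by
      obtain ⟨a, a1, a2⟩ := lift _ hv
      obtain ⟨w, rfl, rfl⟩ := ul v a a2
      exact ⟨w, hB.sym w a1, rfl⟩,
    fun v s hs hv => by
      obtain ⟨a, a1, rfl⟩ := lift _ hs
      obtain ⟨w, w1, rfl⟩ := ul v (1 + κ * a) (by rw [hv, map_add, map_one, map_mul])
      exact ⟨w, hB.skew w a a1 w1, rfl⟩,
    fun v s hs hv => by
      obtain ⟨a, a1, rfl⟩ := lift _ hs
      obtain ⟨w, w1, rfl⟩ := ul v (1 - a + κ * a) (by rw [hv, map_add, map_sub, map_one, map_mul])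
      exact ⟨w, hB.mix w a a1 w1, rfl⟩⟩ (φ g)
  refine (H.mul_mem_cancel_left (inv_mem hh)).1 ?_
  have e1 : rd R ((h⁻¹ * g : Aˣ) : A) = 1 := by
    change ((φ (h⁻¹ * g) : (ResidueField R ⊗[R] A)ˣ) : ResidueField R ⊗[R] A) = 1
    rw [map_mul, map_inv, e, inv_mul_cancel, Units.val_one]
  generalize h⁻¹ * g = d at e1
  let f : A →ₗ[R] A := LinearMap.mulLeft R (d : A) + LinearMap.mulRight R (star (d : A))
  have hf : ∀ y, f y = d * y + y * star (d : A) := fun _ => rfl
  have rf : ∀ y, rd R (f y) = rd R y + rd R y := fun y => by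
    rw [hf, map_add, map_mul, map_mul, ← st, e1, star_one, one_mul, mul_one]
  obtain ⟨y, hy⟩ := onto f (fun z => by
    obtain ⟨a, rfl⟩ := rd_onto z
    exact ⟨r • a, by rw [map_smul, map_smul, rf, half]⟩) (1 + 1)
  have hy' : f (star y) = 1 + 1 := by
    have := congrArg star hy
    rwa [hf, star_add, star_mul, star_mul, star_star, star_add, star_one, add_comm, ← hf] at this
  have h2 : f (r • (y + star y)) = 1 + 1 := by rw [map_smul, map_add, hy, hy', half]
  have h3 := sy y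
  generalize r • (y + star y) = s at h2 h3
  have h4 : rd R s = 1 := by rw [← half (rd R s), ← rf, h2, map_add, map_one, half]
  obtain ⟨w, rfl⟩ := unit_of (h4 ▸ isUnit_one : IsUnit (rd R s))
  obtain ⟨t, t1, t2⟩ := skew (z := d.val * w.val - 1) hK (by
    rw [star_sub, star_mul, h3, star_one, eq_sub_of_add_eq' ((hf _).symm.trans h2)]
    abel)
  exact (H.mul_mem_cancel_right (hB.sym w h3)).1
    (hB.skew _ t t1 (by rw [← t2, add_sub_cancel, Units.val_mul]))

end Pool.Agent.P.MP_46a8f8_ag.GU
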