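import Pool.Agent.P.MP_46a8f8_ag.GU.Su

/-!
Every unit differs from its conjugate by a unitary element, as seen by a commutative invariant.
-/

namespace Pool.Agent.P.MP_46a8f8_ag.GU

universe u

namespace LyNP

variable {A M : Type u} [Ring A] [StarRing A] [CommMonoid M] (ν : A →* M)

theorem st_inv (a : Aˣ) : star (a : A) * star ((a⁻¹ : Aˣ) : A) = 1 := by
  rw [← star_mul, Units.inv_mul, star_one]

theorem st_inv' (a : Aˣ) : star ((a⁻¹ : Aˣ) : A) * star (a : A) = 1 := by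
  rw [← star_mul, Units.mul_inv, star_one]

omit [StarRing A] in
theorem nu_inv (a : Aˣ) : ν a * ν ((a⁻¹ : Aˣ) : A) = 1 := by
  rw [← map_mul, Units.mul_inv, map_one]

theorem nu_st_inv (a : Aˣ) : ν (star (a : A)) * ν (star ((a⁻¹ : Aˣ) : A)) = 1 := by
  rw [← map_mul, st_inv, map_one]

/-- the units for which the statement holds -/
def H : Subgroup Aˣ where
  carrier := {a | ∃ u : A, u * star u = 1 ∧ star u * u = 1 ∧ ν u * ν (star (a : A)) = ν a}
  one_mem' := ⟨1, by simp, by simp, by simp⟩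
  mul_mem' := by
    rintro a b ⟨u, h1, h2, h3⟩ ⟨v, k1, k2, k3⟩
    refine ⟨u * v, ?_, ?_, ?_⟩
    · rw [star_mul, mul_assoc, ← mul_assoc v, k1, one_mul, h1]
    · rw [star_mul, mul_assoc, ← mul_assoc (star u), h2, one_mul, k2]
    · rw [Units.val_mul, star_mul, map_mul, map_mul, map_mul, ← h3, ← k3]
      ac_rfl
  inv_mem' := by
    rintro a ⟨u, h1, h2, h3⟩
    refine ⟨star u, by rw [star_star, h2], by rw [star_star, h1], ?_⟩
    have e1 : ν u * ν (star u) = 1 := by rw [← map_mul, h1, map_one]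
    calc ν (star u) * ν (star ((a⁻¹ : Aˣ) : A))
        = ν (star u) * ν (star ((a⁻¹ : Aˣ) : A)) * (ν a * ν ((a⁻¹ : Aˣ) : A)) := by
          rw [nu_inv, mul_one]
      _ = (ν u * ν (star u)) * (ν (star (a : A)) * ν (star ((a⁻¹ : Aˣ) : A))) *
          ν ((a⁻¹ : Aˣ) : A) := by
          rw [← h3]
          ac_rfl
      _ = ν ((a⁻¹ : Aˣ) : A) := by rw [e1, nu_st_inv, one_mul, one_mul]

theorem of_comm (g : Aˣ) (h : (g : A) * star (g : A) = star (g : A) * g) : g ∈ H ν := by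
  refine ⟨g * star ((g⁻¹ : Aˣ) : A), ?_, ?_, ?_⟩
  · rw [star_mul, star_star]
    have e : ((g⁻¹ : Aˣ) : A) * star (g : A) = star (g : A) * (g⁻¹ : Aˣ) := by
      rw [Units.inv_mul_eq_iff_eq_mul, ← mul_assoc, h, Units.mul_inv_cancel_right]
    rw [e, mul_assoc, ← mul_assoc (star _), st_inv', one_mul, Units.mul_inv]
  · rw [star_mul, star_star, mul_assoc, ← mul_assoc (star (g : A)), ← h, mul_assoc, st_inv,
      mul_one, Units.inv_mul]
  · rw [← map_mul, mul_assoc, st_inv', mul_one]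

theorem big {κ : A} (hκ : Kap κ) : Big κ (H ν) where
  comm x y := by
    refine ⟨1, by simp, by simp, ?_⟩
    simp only [Units.val_mul, star_mul, map_mul, map_one, one_mul]
    calc _ = (ν (star (x : A)) * ν (star ((x⁻¹ : Aˣ) : A))) *
          (ν (star (y : A)) * ν (star ((y⁻¹ : Aˣ) : A))) := by ac_rfl
      _ = (ν x * ν ((x⁻¹ : Aˣ) : A)) * (ν y * ν ((y⁻¹ : Aˣ) : A)) := by
          rw [nu_st_inv, nu_st_inv, nu_inv, nu_inv]
      _ = _ := by ac_rfl
  sym g h := of_comm ν g (by rw [h])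
  skew g s hs hg := by
    refine of_comm ν g ?_
    rw [hg, star_add, star_one, star_mul, hs, hκ.skew, mul_neg, ← hκ.cen]
    noncomm_ring
  mix g s hs hg := by
    refine of_comm ν g ?_
    have e : s * (κ * s) = κ * s * s := by rw [← mul_assoc, ← hκ.cen]
    rw [hg, star_add, star_sub, star_one, star_mul, hs, hκ.skew, mul_neg, ← hκ.cen]
    simp only [mul_add, add_mul, mul_sub, sub_mul, mul_neg, neg_mul, one_mul, mul_one, e]
    abel

end LyNP

theorem pLyN (h1 : S_Ly2.{u}) : S_LyN.{u} := by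
  intro R A M _ _ _ _ _ _ _ ν κ hκ a
  exact h1 R A κ (LyNP.H ν) hκ (LyNP.big ν hκ) a

end Pool.Agent.P.MP_46a8f8_ag.GU
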