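import Pool.Agent.P.MP_46a8f8_ag.GU.Su

/-!
Over a ring of stable range one the determinant of the image of an invertible matrix is the
determinant of the image of a unit.
-/

namespace Pool.Agent.P.MP_46a8f8_ag.GU

open TensorProduct Function Matrix IsLocalRing Polynomial

universe u

namespace MN2P

theorem det_one_add {Ω : Type u} [Field Ω] {κ : Type} [Fintype κ] [DecidableEq κ]
    (Y : Matrix κ κ Ω) (h : Y * Y = 0) : (1 + Y).det = 1 := by
  have h1 : IsNilpotent (-Y) := ⟨2, by rw [neg_sq, sq, h]⟩
  have h2 := (Matrix.isNilpotent_charpoly_sub_pow_of_isNilpotent h1).eq_zero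
  have h3 := Matrix.eval_charpoly (-Y) 1
  rw [sub_eq_zero.1 h2, map_one, sub_neg_eq_add] at h3
  rw [← h3]
  simp

variable {A Ω : Type u} [Ring A] [Field Ω] {n : ℕ} (Φ : A →+* Matrix (Fin n) (Fin n) Ω)
  {ι : Type} [Fintype ι] [DecidableEq ι]

/-- the block matrix -/
def bl : Matrix ι ι A →+* Matrix (ι × Fin n) (ι × Fin n) Ω :=
  (Matrix.compRingEquiv ι (Fin n) Ω).toRingHom.comp Φ.mapMatrix

theorem det_bl_one_add (Y : Matrix ι ι A) (h : Y * Y = 0) : (bl Φ (1 + Y)).det = 1 := by
  rw [map_add, map_one]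
  exact det_one_add _ (by rw [← map_mul, h, map_zero])

theorem det_bl_diag (d : ι → A) : (bl Φ (diagonal d)).det = ∏ i, (Φ (d i)).det := by
  rw [← Matrix.det_blockDiagonal, ← Matrix.det_submatrix_equiv_self (Equiv.prodComm ι (Fin n))]
  congr 1
  ext ⟨i, p⟩ ⟨j, q⟩
  change Φ (diagonal d i j) p q = blockDiagonal (fun i => Φ (d i)) (p, i) (q, j)
  rw [blockDiagonal_apply', diagonal_apply]
  split_ifs
  · rfl
  · rw [map_zero]
    rfl

theorem isUnit_one_add (Y : Matrix ι ι A) (h : Y * Y = 0) : IsUnit (1 + Y) :=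
  IsNilpotent.isUnit_one_add ⟨2, by rw [sq, h]⟩

/-- the matrix is the identity outside `s × s` -/
def Sup (s : Finset ι) (M : Matrix ι ι A) : Prop :=
  ∀ i j, i ∉ s ∨ j ∉ s → M i j = (1 : Matrix ι ι A) i j

/-- the matrix with one nonzero row -/
def rowM (k : ι) (a : ι → A) : Matrix ι ι A := Matrix.of fun i j => if i = k then a j else 0

/-- the matrix with one nonzero column -/
def colM (k : ι) (c : ι → A) : Matrix ι ι A := Matrix.of fun i j => if j = k then c i else 0

theorem rowM_mul (k : ι) (a : ι → A) (P : Matrix ι ι A) (i j : ι) :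
    (rowM k a * P) i j = if i = k then ∑ l, a l * P l j else 0 := by
  simp only [Matrix.mul_apply, rowM, Matrix.of_apply]
  split_ifs <;> simp

theorem mul_rowM (k : ι) (a : ι → A) (P : Matrix ι ι A) (i j : ι) :
    (P * rowM k a) i j = P i k * a j := by
  simp [Matrix.mul_apply, rowM]

theorem colM_mul (k : ι) (c : ι → A) (P : Matrix ι ι A) (i j : ι) :
    (colM k c * P) i j = c i * P k j := by
  simp [Matrix.mul_apply, colM]

theorem rowM_sq (k : ι) (a : ι → A) (h : a k = 0) : rowM k a * rowM k a = 0 := by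
  ext i j
  rw [mul_rowM]
  simp [rowM, h]

theorem colM_sq (k : ι) (c : ι → A) (h : c k = 0) : colM k c * colM k c = 0 := by
  ext i j
  rw [colM_mul]
  simp [colM, h]

/-- a row operation makes the corner entry a unit -/
theorem corner (hB : Bass A) {t : Finset ι} {k : ι} {M : Matrix ι ι A} (hM : IsUnit M)
    (hS : Sup (insert k t) M) :
    ∃ a : ι → A, (∀ i, i ∉ t → a i = 0) ∧ IsUnit (M k k + ∑ l, a l * M l k) := by
  obtain ⟨N, hN⟩ := hM.exists_left_inv
  have h1 : ∑ i, N k i * M i k = 1 := by
    have h := congrFun (congrFun hN k) k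
    rwa [Matrix.mul_apply, Matrix.one_apply_eq] at h
  obtain ⟨l, hl, hu⟩ := hB (M k k)
    (Submodule.span A (Set.range fun i => if i ∈ t then M i k else 0)) (by
      refine (Ideal.eq_top_iff_one _).2 ?_
      rw [← h1]
      refine Submodule.sum_mem _ fun i _ => Submodule.smul_mem _ (N k i) ?_
      by_cases hik : i = k
      · rw [hik]
        exact Submodule.mem_sup_left (Submodule.mem_span_singleton_self _)
      · by_cases hit : i ∈ t
        · exact Submodule.mem_sup_right (Submodule.subset_span ⟨i, if_pos hit⟩)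
        · rw [hS i k (Or.inl (by simp [hik, hit])), Matrix.one_apply_ne hik]
          exact Submodule.zero_mem _)
  obtain ⟨a, ha⟩ := (Submodule.mem_span_range_iff_exists_fun A).1 hl
  refine ⟨fun i => if i ∈ t then a i else 0, fun i hi => if_neg hi, ?_⟩
  rw [← ha] at hu
  convert hu using 3 with i
  by_cases hi : i ∈ t <;> simp [hi]

/-- elimination of the row and the column of a unit entry -/
theorem elim {t : Finset ι} {k : ι} {M : Matrix ι ι A} (hM : IsUnit M)
    (hS : Sup (insert k t) M) (v : Aˣ) (hv : M k k = v) :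
    ∃ P : Matrix ι ι A, IsUnit P ∧ Sup t P ∧ (bl Φ M).det = (Φ v).det * (bl Φ P).det := by
  let c : ι → A := fun i => if i = k then 0 else M i k * ↑v⁻¹
  let r : ι → A := fun j => if j = k then 0 else ↑v⁻¹ * M k j
  let d : ι → Aˣ := fun i => if i = k then v else 1
  let P : Matrix ι ι A := Matrix.of fun i j =>
    if i = k ∨ j = k then (1 : Matrix ι ι A) i j else M i j - M i k * ↑v⁻¹ * M k j
  have hc : colM k c * colM k c = 0 := colM_sq k c (if_pos rfl)
  have hr : rowM k r * rowM k r = 0 := rowM_sq k r (if_pos rfl)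
  have hd : IsUnit (diagonal fun i => (d i : A)) := by
    refine ⟨⟨diagonal fun i => (d i : A), diagonal fun i => (((d i)⁻¹ : Aˣ) : A), ?_, ?_⟩, rfl⟩ <;>
      simp [diagonal_mul_diagonal]
  have hE : M = (1 + colM k c) * ((diagonal fun i => (d i : A)) * P) * (1 + rowM k r) := by
    ext i j
    simp only [mul_add, add_mul, one_mul, mul_one, Matrix.add_apply, mul_rowM, colM_mul,
      diagonal_mul]
    by_cases hi : i = k <;> by_cases hj : j = k
    · simp [hi, hj, c, r, d, P, hv]
    · simp [hi, hj, c, r, d, P, Ne.symm hj]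
    · simp [hi, hj, c, r, d, P]
    · simp [hi, hj, c, r, d, P, Ne.symm hj, mul_assoc]
  refine ⟨P, ?_, fun i j hij => ?_, ?_⟩
  · rw [hE, (isUnit_one_add _ hr).mul_right_iff, (isUnit_one_add _ hc).mul_left_iff,
      hd.mul_left_iff] at hM
    exact hM
  · change (if i = k ∨ j = k then (1 : Matrix ι ι A) i j else _) = _
    split_ifs with h
    · rfl
    · rw [not_or] at h
      rcases hij with hi | hj
      · have hi' : i ∉ insert k t := by simp [h.1, hi]
        rw [hS i j (Or.inl hi'), hS i k (Or.inl hi'), Matrix.one_apply_ne h.1]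
        simp
      · have hj' : j ∉ insert k t := by simp [h.2, hj]
        rw [hS i j (Or.inr hj'), hS k j (Or.inr hj'), Matrix.one_apply_ne (Ne.symm h.2)]
        simp
  · have h1 : ∏ i, (Φ (d i : A)).det = (Φ v).det := by
      rw [Finset.prod_eq_single k]
      · simp [d]
      · intro i _ hi
        simp [d, hi]
      · simp
    rw [hE, map_mul, map_mul, map_mul, det_mul, det_mul, det_mul, det_bl_one_add Φ _ hc,
      det_bl_one_add Φ _ hr, det_bl_diag, h1, one_mul, mul_one]

theorem main (hB : Bass A) (s : Finset ι) :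
    ∀ M : Matrix ι ι A, IsUnit M → Sup s M → ∃ y : Aˣ, (bl Φ M).det = (Φ y).det := by
  induction s using Finset.induction_on with
  | empty =>
    intro M _ hS
    have h : M = 1 := by
      ext i j
      exact hS i j (Or.inl (Finset.notMem_empty i))
    exact ⟨1, by simp [h]⟩
  | insert k t hk ih =>
    intro M hM hS
    obtain ⟨a, ha, v, hv⟩ := corner hB hM hS
    have hr : rowM k a * rowM k a = 0 := rowM_sq k a (ha k hk)
    have hS1 : Sup (insert k t) ((1 + rowM k a) * M) := by
      intro i j hij
      rw [add_mul, one_mul, Matrix.add_apply, rowM_mul, hS i j hij]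
      split_ifs with hi
      · have hj : j ∉ insert k t := hij.resolve_left (by simp [hi])
        have h0 : ∑ l, a l * M l j = 0 := by
          refine Finset.sum_eq_zero fun l _ => ?_
          by_cases hl : l ∈ t
          · rw [hS l j (Or.inr hj), Matrix.one_apply_ne, mul_zero]
            rintro rfl
            exact hj (Finset.mem_insert_of_mem hl)
          · rw [ha l hl, zero_mul]
        rw [h0, add_zero]
      · rw [add_zero]
    obtain ⟨P, hP, hSP, hdet⟩ := elim Φ ((isUnit_one_add _ hr).mul hM) hS1 v (by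
      rw [add_mul, one_mul, Matrix.add_apply, rowM_mul, if_pos rfl, hv])
    obtain ⟨y, hy⟩ := ih P hP hSP
    refine ⟨v * y, ?_⟩
    rw [map_mul, det_mul, det_bl_one_add Φ _ hr, one_mul] at hdet
    rw [hdet, hy, Units.val_mul, map_mul, det_mul]

end MN2P

theorem pMN2 : S_MN2.{u} := by
  intro R A Ω _ _ _ _ _ n Φ ι _ _ M hB hM
  exact MN2P.main (Φ : A →+* Matrix (Fin n) (Fin n) Ω) hB Finset.univ M hM
    (fun i j h => by simp at h)

end Pool.Agent.P.MP_46a8f8_ag.GU
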