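import Pool.Agent.P.MP_46a8f8_ag.GU.Su

/-!
Matrix units and homomorphisms from a matrix algebra.
-/

namespace Pool.Agent.P.MP_46a8f8_ag.GU

open TensorProduct Function

universe u

namespace MUhP

variable (R : Type u) [CommRing R] (n : ℕ)

/-- the standard matrix units -/
theorem mu_std : MU n (Matrix (Fin n) (Fin n) R) := by
  refine ⟨fun i j => Matrix.single i j 1, fun i j k l => ?_, Matrix.sum_single_one⟩
  split_ifs with h
  · subst h
    rw [Matrix.single_mul_single_same, mul_one]
  · exact Matrix.single_mul_single_of_ne _ _ _ _ h _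

theorem mul_col (c : Matrix (Fin n) (Fin n) R) (i z : Fin n) :
    c * Matrix.single i z 1 = ∑ j, c j i • Matrix.single j z (1 : R) := by
  ext a b
  by_cases h : b = z
  · subst h
    rw [Matrix.mul_single_apply_same, mul_one, Matrix.sum_apply, Finset.sum_eq_single a]
    · simp
    · intro j _ hj
      simp [Matrix.single_apply, hj]
    · simp
  · rw [Matrix.mul_single_apply_of_ne _ _ _ _ _ h, Matrix.sum_apply]
    refine (Finset.sum_eq_zero fun j _ => ?_).symm
    simp [Matrix.single_apply, Ne.symm h]

theorem row_mul (c : Matrix (Fin n) (Fin n) R) (i z : Fin n) :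
    Matrix.single z i 1 * c = ∑ j, c i j • Matrix.single z j (1 : R) := by
  ext a b
  by_cases h : a = z
  · subst h
    rw [Matrix.single_mul_apply_same, one_mul, Matrix.sum_apply, Finset.sum_eq_single b]
    · simp
    · intro j _ hj
      simp [Matrix.single_apply, hj]
    · simp
  · rw [Matrix.single_mul_apply_of_ne _ _ _ _ _ h, Matrix.sum_apply]
    refine (Finset.sum_eq_zero fun j _ => ?_).symm
    simp [Matrix.single_apply, Ne.symm h]

theorem sep (hn : 0 < n) : Sep R (Matrix (Fin n) (Fin n) R) := by
  refine ⟨inferInstance, inferInstance, n, fun i => Matrix.single i ⟨0, hn⟩ 1,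
    fun i => Matrix.single ⟨0, hn⟩ i 1, ?_, fun c => ?_⟩
  · simp only [Matrix.single_mul_single_same, mul_one]
    exact Matrix.sum_single_one
  · simp only [mul_col, row_mul, TensorProduct.sum_tmul, TensorProduct.tmul_sum,
      TensorProduct.tmul_smul, TensorProduct.smul_tmul']
    exact Finset.sum_comm

variable {R n}

/-- a system of matrix units in an algebra gives an algebra homomorphism -/
theorem hom_of_mu {E : Type u} [Ring E] [Algebra R E] (h : MU n E) :
    Nonempty (Matrix (Fin n) (Fin n) R →ₐ[R] E) := by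
  obtain ⟨e, h1, h2⟩ := h
  let f : Matrix (Fin n) (Fin n) R →ₗ[R] E :=
    { toFun := fun M => ∑ i, ∑ j, M i j • e i j
      map_add' := fun M N => by
        simp only [Matrix.add_apply, add_smul, Finset.sum_add_distrib]
      map_smul' := fun r M => by
        simp only [Matrix.smul_apply, smul_eq_mul, mul_smul, RingHom.id_apply, Finset.smul_sum] }
  have hf : ∀ M, f M = ∑ i, ∑ j, M i j • e i j := fun _ => rfl
  refine ⟨AlgHom.ofLinearMap f ?_ fun M N => ?_⟩
  · rw [hf, ← h2]
    refine Finset.sum_congr rfl fun i _ => ?_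
    rw [Finset.sum_eq_single i]
    · simp
    · intro j _ hj
      rw [Matrix.one_apply_ne (Ne.symm hj), zero_smul]
    · simp
  · rw [hf, hf, hf, Finset.sum_mul]
    refine Finset.sum_congr rfl fun i _ => ?_
    have e1 : ∀ j, (M i j • e i j) * ∑ k, ∑ l, N k l • e k l =
        ∑ l, (M i j * N j l) • e i l := fun j => by
      rw [Finset.mul_sum, Finset.sum_eq_single j]
      · rw [Finset.mul_sum]
        refine Finset.sum_congr rfl fun l _ => ?_
        rw [smul_mul_smul_comm, h1, if_pos rfl]
      · intro k _ hk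
        rw [Finset.mul_sum]
        refine Finset.sum_eq_zero fun l _ => ?_
        rw [smul_mul_smul_comm, h1, if_neg (Ne.symm hk), smul_zero]
      · simp
    rw [Finset.sum_mul, Finset.sum_congr rfl fun j _ => e1 j, Finset.sum_comm]
    refine Finset.sum_congr rfl fun l _ => ?_
    rw [Matrix.mul_apply, Finset.sum_smul]

/-- matrices over a base change -/
noncomputable def iso (R A C : Type u) [CommRing R] [Ring A] [Algebra R A] [CommRing C]
    [Algebra R C] (m : ℕ) :
    Matrix (Fin m) (Fin m) (C ⊗[R] A) ≃ₐ[R] C ⊗[R] Matrix (Fin m) (Fin m) A :=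
  ((matrixEquivTensor (Fin m) R (C ⊗[R] A)).trans
    (Algebra.TensorProduct.assoc R R R C A (Matrix (Fin m) (Fin m) R))).trans
    (Algebra.TensorProduct.congr AlgEquiv.refl (matrixEquivTensor (Fin m) R A).symm)

end MUhP

theorem pMUh : S_MUh.{u} := by
  intro R A _ _ _ n m hn
  refine ⟨MUhP.sep R n hn, fun C _ _ => ⟨fun h => ?_, fun ⟨φ, _⟩ => ?_⟩⟩
  · obtain ⟨φ⟩ := MUhP.hom_of_mu (R := R)
      (MU.map h (MUhP.iso R A C m).toAlgHom.toRingHom)
    refine ⟨φ.toRingHom, fun r => ?_⟩
    rw [← IsScalarTower.algebraMap_apply]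
    exact φ.commutes r
  · exact ((MUhP.mu_std R n).map φ).map (MUhP.iso R A C m).symm.toAlgHom.toRingHom

end Pool.Agent.P.MP_46a8f8_ag.GU
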