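import Pool.Agent.P.MP_46a8f8_ag.GU.Su
import Pool.Agent.P.MP_46a8f8_ag.Nrd
import Pool.Agent.P.MP_46a8f8_ag.Wed

/-!
Existence of the reduced norm family.
-/

namespace Pool.Agent.P.MP_46a8f8_ag.GU

open TensorProduct Function

universe u

namespace NFeP

variable (R S : Type u) [CommRing R] [CommRing S] [Algebra R S]

/-- `T ⊗ S` as an algebra over `S` through the right factor -/
def TS (T : Type u) [CommRing T] [Algebra R T] : Type u := T ⊗[R] S

section ts

variable (T : Type u) [CommRing T] [Algebra R T]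

noncomputable instance : CommRing (TS R S T) := inferInstanceAs (CommRing (T ⊗[R] S))

noncomputable instance : Algebra R (TS R S T) := inferInstanceAs (Algebra R (T ⊗[R] S))

/-- the right inclusion -/
noncomputable def inr : S →ₐ[R] TS R S T := Algebra.TensorProduct.includeRight

/-- the left inclusion -/
noncomputable def inl : T →ₐ[R] TS R S T := Algebra.TensorProduct.includeLeft

noncomputable instance : Algebra S (TS R S T) := (inr R S T).toRingHom.toAlgebra

instance : IsScalarTower R S (TS R S T) :=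
  IsScalarTower.of_algebraMap_eq fun r => ((inr R S T).commutes r).symm

/-- the identity map -/
noncomputable def toTS : T ⊗[R] S →ₐ[R] TS R S T := AlgHom.id R (T ⊗[R] S)

theorem toTS_tmul (t : T) (s : S) :
    toTS R S T (t ⊗ₜ[R] s) = inl R S T t * algebraMap S (TS R S T) s := by
  change t ⊗ₜ[R] s = (t ⊗ₜ[R] (1 : S)) * ((1 : T) ⊗ₜ[R] s)
  rw [Algebra.TensorProduct.tmul_mul_tmul, mul_one, one_mul]

variable {T}

/-- functoriality -/
noncomputable def mpS {T' : Type u} [CommRing T'] [Algebra R T'] (f : T →ₐ[R] T') :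
    TS R S T →ₐ[S] TS R S T' :=
  { (mp S f : T ⊗[R] S →+* T' ⊗[R] S) with
    commutes' := fun s => by
      change mp S f ((1 : T) ⊗ₜ[R] s) = (1 : T') ⊗ₜ[R] s
      rw [NrdP.mp_tmul, map_one] }

variable (T)

/-- evaluation -/
noncomputable def evT [Algebra S T] [IsScalarTower R S T] : TS R S T →ₐ[S] T :=
  { (evS R S T : T ⊗[R] S →+* T) with
    commutes' := fun s => by
      change evS R S T ((1 : T) ⊗ₜ[R] s) = _
      rw [evS_tmul, one_mul] }

end ts

variable (A : Type u) [Ring A] [Algebra S A] [Algebra R A] [IsScalarTower R S A]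

theorem ov_nat {T T' : Type u} [CommRing T] [Algebra R T] [Algebra S T] [IsScalarTower R S T]
    [CommRing T'] [Algebra R T'] [Algebra S T'] [IsScalarTower R S T'] (g : T →ₐ[S] T')
    (x : T ⊗[R] A) :
    mp A g (ov R S A T x) = ov R S A T' (mp A (g.restrictScalars R) x) := by
  induction x using TensorProduct.induction_on with
  | zero => simp
  | tmul t a => rfl
  | add x y hx hy => simp only [map_add, hx, hy]

theorem ov_sm {T : Type u} [CommRing T] [Algebra R T] [Algebra S T] [IsScalarTower R S T]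
    (c : T ⊗[R] S) :
    ov R S A T (GAP.sm R S A T c) = algebraMap T (T ⊗[S] A) (evS R S T c) := by
  induction c using TensorProduct.induction_on with
  | zero => simp
  | tmul t s =>
    rw [GAP.sm_tmul, ov_tmul, evS_tmul, Algebra.TensorProduct.algebraMap_apply,
      Algebra.algebraMap_eq_smul_one s, Algebra.algebraMap_eq_smul_one s, ← smul_tmul,
      mul_smul_comm, mul_one]
    rfl
  | add x y hx hy => simp only [map_add, hx, hy]

theorem mp_sm {T T' : Type u} [CommRing T] [Algebra R T] [CommRing T'] [Algebra R T']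
    (f : T →ₐ[R] T') (c : T ⊗[R] S) :
    mp A f (GAP.sm R S A T c) = GAP.sm R S A T' (mp S f c) := by
  induction c using TensorProduct.induction_on with
  | zero => simp
  | tmul t s => rfl
  | add x y hx hy => simp only [map_add, hx, hy]

end NFeP

open NFeP in
theorem pNFe (h1 : S_SplS.{u}) : S_NFe.{u} := by
  intro R S A _ _ _ _ _ _ _ _ _ h
  have := h.dom
  have := h.fin
  have := h.freeA
  have := h.finA
  have := finite_maximalSpectrum R S
  have : IsNoetherianRing S := IsNoetherianRing.of_finite R S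
  obtain ⟨O, _, _, n, _, ⟨Φ0⟩, hn⟩ := h1 S A h.az
  obtain ⟨N0, n1, n2, -⟩ := nrd ud S A O n ⟨Φ0⟩
  let N : NFam R S A := fun T _ _ =>
    (N0 (TS R S T)).comp ((ov R S A (TS R S T) : TS R S T ⊗[R] A →* TS R S T ⊗[S] A).comp
      (mp A (inl R S T) : T ⊗[R] A →* TS R S T ⊗[R] A))
  have hN : ∀ (T : Type u) [CommRing T] [Algebra R T] (x : T ⊗[R] A),
      N T x = N0 (TS R S T) (ov R S A (TS R S T) (mp A (inl R S T) x)) := fun T _ _ x => rfl
  have nat : ∀ (T T' : Type u) [CommRing T] [Algebra R T] [CommRing T'] [Algebra R T']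
      (f : T →ₐ[R] T') (x : T ⊗[R] A), mp S f (N T x) = N T' (mp A f x) := by
    intro T T' _ _ _ _ f x
    have e := n1 (TS R S T) (TS R S T') (mpS R S f) (ov R S A (TS R S T) (mp A (inl R S T) x))
    rw [ov_nat, NrdP.mp_mp] at e
    have e2 : ((mpS R S f).restrictScalars R).comp (inl R S T) = (inl R S T').comp f := by
      refine AlgHom.ext fun t => ?_
      change mp S f (t ⊗ₜ[R] (1 : S)) = f t ⊗ₜ[R] (1 : S)
      rfl
    rw [e2] at e
    rw [hN, hN, NrdP.mp_mp]
    exact e
  have det : ∀ (T : Type u) [CommRing T] [Algebra R T] [Algebra S T] [IsScalarTower R S T]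
      (m : ℕ) (Ψ : T ⊗[S] A ≃ₐ[T] Matrix (Fin m) (Fin m) T) (x : T ⊗[R] A),
      evS R S T (N T x) = (Ψ (ov R S A T x)).det := by
    intro T _ _ _ _ m Ψ x
    have e := n1 (TS R S T) T (evT R S T) (ov R S A (TS R S T) (mp A (inl R S T) x))
    rw [ov_nat, NrdP.mp_mp] at e
    have e2 : ((evT R S T).restrictScalars R).comp (inl R S T) = AlgHom.id R T := by
      refine AlgHom.ext fun t => ?_
      change evS R S T (t ⊗ₜ[R] (1 : S)) = t
      rw [evS_tmul, map_one, mul_one]
    rw [e2, H90P.mp_id, n2 T m Ψ] at e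
    rw [hN]
    exact e
  have sep : ∀ (T : Type u) [CommRing T] [Algebra R T] (c c' : T ⊗[R] S),
      (∀ (T' : Type u) [CommRing T'] [Algebra R T'] [Algebra S T'] [IsScalarTower R S T']
        (f : T →ₐ[R] T'), Nonempty (T' ⊗[S] A ≃ₐ[T'] Matrix (Fin n) (Fin n) T') →
        evS R S T' (mp S f c) = evS R S T' (mp S f c')) → c = c' := by
    intro T _ _ c c' hc
    let f : T →ₐ[R] TS R S T ⊗[S] O :=
      (IsScalarTower.toAlgHom R (TS R S T) (TS R S T ⊗[S] O)).comp (inl R S T)
    have hf : ∀ d : T ⊗[R] S, evS R S (TS R S T ⊗[S] O) (mp S f d) =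
        algebraMap (TS R S T) (TS R S T ⊗[S] O) (toTS R S T d) := fun d => by
      induction d using TensorProduct.induction_on with
      | zero => simp
      | tmul t s =>
        rw [NrdP.mp_tmul, evS_tmul, toTS_tmul, map_mul,
          ← IsScalarTower.algebraMap_apply S (TS R S T) (TS R S T ⊗[S] O)]
        rfl
      | add x y hx hy => simp only [map_add, hx, hy]
    obtain ⟨Φ, -⟩ := NrdP.exists_bc
      (Algebra.TensorProduct.includeRight : O →ₐ[S] TS R S T ⊗[S] O) Φ0
    have e := hc (TS R S T ⊗[S] O) f ⟨Φ⟩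
    rw [hf, hf] at e
    exact FaithfulSMul.algebraMap_injective (TS R S T) (TS R S T ⊗[S] O) e
  refine ⟨n, N, ?_, hn, nat, det, sep, fun T _ _ c => sep T _ _ fun T' _ _ _ _ f ⟨Ψ⟩ => ?_⟩
  · have := h.pos
    rw [hn] at this
    exact Nat.pos_of_ne_zero fun e => by simp [e] at this
  · rw [nat, det T' n Ψ, mp_sm, ov_sm, Ψ.commutes, map_pow, map_pow,
      Matrix.algebraMap_eq_diagonal, Matrix.det_diagonal]
    simp

end Pool.Agent.P.MP_46a8f8_ag.GU
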