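import Pool.Agent.P.MP_46a8f8_ag.GU.Su
import Pool.Agent.P.MP_46a8f8_ag.GU.AzT

namespace Pool.Agent.P.MP_46a8f8_ag.GU

open TensorProduct Function Matrix

universe u

namespace NFsP

section tw

variable {S A T U : Type u} [CommRing S] [Ring A] [Algebra S A] [StarRing A] [CommRing T]
  [Algebra S T] [CommRing U] [Algebra S U] {ι : S → S}
  (hι : ∀ s, star (algebraMap S A s) = algebraMap S A (ι s)) (e : U ≃+* T)
  (he : ∀ s, e (algebraMap S U s) = algebraMap S T (ι s))

/-- the involution between the two scalar extensions -/
noncomputable def be : U ⊗[S] A →+ T ⊗[S] A :=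
  TensorProduct.liftAddHom
    { toFun := fun u =>
        { toFun := fun a => e u ⊗ₜ[S] star a
          map_zero' := by rw [star_zero, tmul_zero]
          map_add' := fun a b => by rw [star_add, tmul_add] }
      map_zero' := AddMonoidHom.ext fun a => by simp
      map_add' := fun u v => AddMonoidHom.ext fun a => by simp [add_tmul] }
    fun s u a => by
      change e (s • u) ⊗ₜ[S] star a = e u ⊗ₜ[S] star (s • a)
      rw [Algebra.smul_def, Algebra.smul_def, map_mul, he, star_mul, hι, ← Algebra.smul_def,
        smul_tmul, ← Algebra.commutes, ← Algebra.smul_def]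

theorem be_tmul (u : U) (a : A) : be hι e he (u ⊗ₜ[S] a) = e u ⊗ₜ[S] star a := rfl

theorem be_mul (x y : U ⊗[S] A) : be hι e he (x * y) = be hι e he y * be hι e he x := by
  induction x using TensorProduct.induction_on with
  | zero => simp
  | add x x' h h' => rw [add_mul, map_add, map_add, h, h', mul_add]
  | tmul u a =>
    induction y using TensorProduct.induction_on with
    | zero => simp
    | add y y' h h' => rw [mul_add, map_add, map_add, h, h', add_mul]
    | tmul v b =>
      simp only [Algebra.TensorProduct.tmul_mul_tmul, be_tmul, map_mul, star_mul, mul_comm (e u)]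

theorem be_be (he' : ∀ s, e.symm (algebraMap S T s) = algebraMap S U (ι s)) (x : U ⊗[S] A) :
    be hι e.symm he' (be hι e he x) = x := by
  induction x using TensorProduct.induction_on with
  | zero => simp
  | add x x' h h' => rw [map_add, map_add, h, h']
  | tmul u a => rw [be_tmul, be_tmul, star_star, e.symm_apply_apply]

/-- the twisted splitting -/
theorem exists_split (he' : ∀ s, e.symm (algebraMap S T s) = algebraMap S U (ι s)) {n : ℕ}
    (Ψ : T ⊗[S] A ≃ₐ[T] Matrix (Fin n) (Fin n) T) :
    ∃ Ψ' : U ⊗[S] A ≃ₐ[U] Matrix (Fin n) (Fin n) U,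
      ∀ x, e (Ψ' x).det = (Ψ (be hι e he x)).det := by
  have h1 : ∀ u : U, be hι e he (algebraMap U _ u) = algebraMap T _ (e u) := fun u => by
    rw [Algebra.TensorProduct.algebraMap_apply, be_tmul, star_one]
    rfl
  let φ : U ⊗[S] A →ₐ[U] Matrix (Fin n) (Fin n) U :=
    { toFun := fun x => e.symm.mapMatrix (Ψ (be hι e he x))ᵀ
      map_one' := by
        rw [← map_one (algebraMap U (U ⊗[S] A)), h1, map_one, map_one, map_one, transpose_one,
          map_one]
      map_mul' := fun x y => by rw [be_mul, map_mul, transpose_mul, map_mul]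
      map_zero' := by rw [map_zero, map_zero, transpose_zero, map_zero]
      map_add' := fun x y => by rw [map_add, map_add, transpose_add, map_add]
      commutes' := fun u => by
        rw [h1, Ψ.commutes]
        ext i j
        simp only [RingEquiv.mapMatrix_apply, Matrix.map_apply, transpose_apply,
          Matrix.algebraMap_matrix_apply, Algebra.algebraMap_self, RingHom.id_apply, eq_comm (a := j)]
        split_ifs
        · exact e.symm_apply_apply u
        · exact map_zero _ }
  have hb : Bijective (be hι e he) :=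
    bijective_iff_has_inverse.2 ⟨be hι e.symm he', be_be hι e he he', be_be hι e.symm he' he⟩
  refine ⟨AlgEquiv.ofBijective φ (e.symm.mapMatrix.bijective.comp
    ((transposeAddEquiv _ _ T).bijective.comp (Ψ.bijective.comp hb))), fun x => ?_⟩
  change e (e.symm.mapMatrix (Ψ (be hι e he x))ᵀ).det = _
  rw [← RingEquiv.map_det, e.apply_symm_apply, det_transpose]

end tw

theorem exists_tw {R S T : Type u} [CommRing R] [CommRing S] [Algebra R S] [CommRing T]
    [Algebra R T] [Algebra S T] [IsScalarTower R S T] (ι : S →ₐ[R] S) :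
    ∃ (U : Type u) (_ : CommRing U) (_ : Algebra R U) (_ : Algebra S U) (_ : IsScalarTower R S U)
      (e : U ≃ₐ[R] T), ∀ s, e (algebraMap S U s) = algebraMap S T (ι s) :=
  ⟨T, _, _, ((algebraMap S T).comp (ι : S →+* S)).toAlgebra,
    @IsScalarTower.of_algebraMap_eq R S T _ _ _ _ ((algebraMap S T).comp (ι : S →+* S)).toAlgebra _
      fun r => by
        change _ = algebraMap S T (ι (algebraMap R S r))
        rw [ι.commutes, ← IsScalarTower.algebraMap_apply],
    AlgEquiv.refl, fun _ => rfl⟩

theorem exists_iota {R S A : Type u} [CommRing R] [CommRing S] [Algebra R S] [Ring A] [Algebra S A]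
    [Algebra R A] [IsScalarTower R S A] [StarRing A] [SA R A] (h : GB R S A) :
    ∃ ι : S →ₐ[R] S, ∀ s, star (algebraMap S A s) = algebraMap S A (ι s) := by
  have := h.freeA
  choose ι hι using fun s : S => pCen S A (star (algebraMap S A s)) h.az fun x => by
    rw [← star_star x, ← star_mul, ← star_mul, Algebra.commutes]
  refine ⟨{ toFun := ι
            map_one' := h.injA (by rw [hι, map_one, star_one])
            map_mul' := fun a b => h.injA (by
              rw [hι, map_mul, star_mul, ← hι, ← hι, ← map_mul, mul_comm])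
            map_zero' := h.injA (by rw [hι, map_zero, star_zero])
            map_add' := fun a b => h.injA (by rw [hι, map_add, star_add, map_add, hι, hι])
            commutes' := fun r => h.injA (by
              rw [hι, ← IsScalarTower.algebraMap_apply, SA.st]) }, fun s => (hι s).symm⟩

end NFsP

open NFsP

theorem pNFs : S_NFs.{u} := by
  intro R S A _ _ _ _ _ _ _ _ _ n N hG h T _ _ x
  obtain ⟨ι, hι⟩ := exists_iota hG
  have hιι : ∀ s, ι (ι s) = s := fun s => hG.injA (by rw [← hι, ← hι, star_star])
  let κ : T ⊗[R] S →ₐ[R] T ⊗[R] S := Algebra.TensorProduct.map (AlgHom.id R T) ι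
  have h1 : ∀ c, GAP.sm R S A T (κ c) = cj R A T (GAP.sm R S A T c) := fun c => by
    induction c using TensorProduct.induction_on with
    | zero => simp
    | add x y hx hy => rw [map_add, map_add, map_add, map_add, hx, hy]
    | tmul t s =>
      rw [GAP.sm_tmul, cj_tmul, hι]
      rfl
  rw [← h1]
  refine congrArg _ (h.sep T _ _ fun T' _ _ _ _ f ⟨Ψ⟩ => ?_)
  obtain ⟨U, _, _, _, _, e, he⟩ := exists_tw (T := T') ι
  have he' : ∀ s, e.toRingEquiv.symm (algebraMap S T' s) = algebraMap S U (ι s) := fun s =>
    e.symm_apply_eq.2 (by rw [he, hιι])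
  obtain ⟨Ψ', hΨ⟩ := exists_split hι e.toRingEquiv he he' Ψ
  let g : T →ₐ[R] U := (e.symm : T' →ₐ[R] U).comp f
  have hg : ∀ t, e (g t) = f t := fun t => e.apply_symm_apply _
  have h2 : ∀ c, evS R S T' (mp S f (κ c)) = e (evS R S U (mp S g c)) := fun c => by
    induction c using TensorProduct.induction_on with
    | zero => simp
    | add x y hx hy => simp only [map_add, hx, hy]
    | tmul t s =>
      rw [H90P.mp_tmul, evS_tmul, map_mul, hg, he]
      rfl
  have h3 : ∀ y, ov R S A T' (mp A f (cj R A T y)) =
      be hι e.toRingEquiv he (ov R S A U (mp A g y)) := fun y => by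
    induction y using TensorProduct.induction_on with
    | zero => simp
    | add x y hx hy => simp only [map_add, hx, hy]
    | tmul t a =>
      rw [cj_tmul, H90P.mp_tmul, H90P.mp_tmul, ov_tmul, ov_tmul, be_tmul, ← hg]
      rfl
  rw [h2, h.nat, h.nat, h.det T' n Ψ, h.det U n Ψ', h3]
  exact (hΨ _).symm

end Pool.Agent.P.MP_46a8f8_ag.GU
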