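import Pool.Agent.P.MP_46a8f8_ag.GU.Su

/-!
The norm principle for the reduced norm.
-/

namespace Pool.Agent.P.MP_46a8f8_ag.GU

open TensorProduct Function Matrix Polynomial

universe u

namespace NPNP

/-- characteristic polynomial of a repeated block -/
theorem cp_block {F : Type u} [CommRing F] {ρ o : Type} [Fintype ρ] [DecidableEq ρ] [Fintype o]
    [DecidableEq o] (T : Matrix ρ ρ F) :
    (Matrix.blockDiagonal fun _ : o => T).charpoly = T.charpoly ^ Fintype.card o := by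
  have e : (Matrix.blockDiagonal fun _ : o => T).charmatrix =
      Matrix.blockDiagonal fun _ : o => T.charmatrix := by
    ext1 ⟨a, k⟩ ⟨b, l⟩
    by_cases hkl : k = l
    · subst hkl
      by_cases hab : a = b
      · subst hab
        rw [charmatrix_apply_eq, blockDiagonal_apply_eq, blockDiagonal_apply_eq,
          charmatrix_apply_eq]
      · rw [charmatrix_apply_ne _ _ _ fun h => hab (congrArg Prod.fst h), blockDiagonal_apply_eq,
          blockDiagonal_apply_eq, charmatrix_apply_ne _ _ _ hab]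
    · rw [charmatrix_apply_ne _ _ _ fun h => hkl (congrArg Prod.snd h),
        blockDiagonal_apply_ne _ _ _ hkl, blockDiagonal_apply_ne _ _ _ hkl, map_zero, neg_zero]
  rw [Matrix.charpoly, e, det_blockDiagonal, Finset.prod_const, Finset.card_univ, Matrix.charpoly]

theorem cp_tens {F : Type u} [CommRing F] {μ ρ ν : Type} [Fintype μ] [DecidableEq μ] [Fintype ρ]
    [DecidableEq ρ] [Fintype ν] [DecidableEq ν] (T : Matrix ρ ρ F)
    (M : Matrix ((μ × ρ) × ν) ((μ × ρ) × ν) F)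
    (hM : ∀ i a k j b l, M ((i, a), k) ((j, b), l) = if (i, k) = (j, l) then T a b else 0) :
    M.charpoly = (T.charpoly ^ Fintype.card μ) ^ Fintype.card ν := by
  let e : ρ × (μ × ν) ≃ (μ × ρ) × ν :=
    ⟨fun x => ((x.2.1, x.1), x.2.2), fun y => (y.1.2, (y.1.1, y.2)), fun _ => rfl, fun _ => rfl⟩
  have h : M = reindex e e (Matrix.blockDiagonal fun _ : μ × ν => T) := by
    ext ⟨⟨i, a⟩, k⟩ ⟨⟨j, b⟩, l⟩
    rw [hM]
    rfl
  rw [h, charpoly_reindex, cp_block, Fintype.card_prod, pow_mul]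

/-- the regular representation with coefficients -/
theorem exists_th (R A : Type u) {K L : Type u} [CommRing R] [Ring A] [Algebra R A] [Field K]
    [Algebra R K] [Field L] [Algebra R L] [Algebra K L] [IsScalarTower R K L] {ρ : Type}
    [Fintype ρ] [DecidableEq ρ] (b : Module.Basis ρ K L) :
    ∃ Θ : L ⊗[R] A →+* Matrix ρ ρ (K ⊗[R] A), ∀ l, Θ (algebraMap L (L ⊗[R] A) l) =
      (Algebra.leftMulMatrix b l).map (algebraMap K (K ⊗[R] A)) := by
  let al : L →ₐ[R] Matrix ρ ρ (K ⊗[R] A) :=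
    (((Algebra.ofId K (K ⊗[R] A)).mapMatrix).comp (Algebra.leftMulMatrix b)).restrictScalars R
  let be : A →ₐ[R] Matrix ρ ρ (K ⊗[R] A) :=
    (Matrix.scalarAlgHom ρ R).comp Algebra.TensorProduct.includeRight
  have hal : ∀ l, al l = (Algebra.leftMulMatrix b l).map (algebraMap K (K ⊗[R] A)) :=
    fun _ => rfl
  have hbe : ∀ a, be a = Matrix.diagonal fun _ => (1 : K) ⊗ₜ[R] a := fun _ => rfl
  have hc : ∀ l a, Commute (al l) (be a) := fun l a => by
    rw [hal, hbe]
    ext i j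
    rw [mul_diagonal, diagonal_mul, map_apply, Algebra.commutes]
  refine ⟨(Algebra.TensorProduct.lift al be hc).toRingHom, fun l => ?_⟩
  rw [Algebra.TensorProduct.algebraMap_apply, ← hal]
  change Algebra.TensorProduct.lift al be hc (l ⊗ₜ[R] 1) = al l
  rw [Algebra.TensorProduct.lift_tmul, map_one, mul_one]

/-- an elementary unit -/
theorem unit_g {B : Type u} [Ring B] (e x x' : B) (he : e * e = e) (hx : x * e = e * x)
    (hx' : x' * e = e * x') (h1 : x * x' = 1) (h2 : x' * x = 1) : IsUnit (1 - e + x * e) := by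
  have k : ∀ y y' : B, y' * e = e * y' → y * y' = 1 →
      (1 - e + y * e) * (1 - e + y' * e) = 1 := fun y y' hy' h => by
    have a1 : (1 - e) * (1 - e) = 1 - e := by
      rw [mul_sub, mul_one, sub_mul, one_mul, he, sub_self, sub_zero]
    have a2 : (1 - e) * (y' * e) = 0 := by
      rw [hy', ← mul_assoc, sub_mul, one_mul, he, sub_self, zero_mul]
    have a3 : y * e * (1 - e) = 0 := by
      rw [mul_assoc, mul_sub, mul_one, he, sub_self, mul_zero]
    have a4 : y * e * (y' * e) = e := by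
      rw [mul_assoc, ← mul_assoc e, ← hy', mul_assoc y', he, ← mul_assoc, h, one_mul]
    rw [add_mul, mul_add, mul_add, a1, a2, a3, a4, add_zero, zero_add, sub_add_cancel]
  exact ⟨⟨_, _, k x x' hx' h1, k x' x hx h2⟩, rfl⟩

theorem core (h3 : S_LA.{u}) (h4 : S_MN2.{u}) {L B Z E Ω : Type u} [Field L] [Ring B]
    [Algebra L B] [CommRing Z] [Ring E] [Algebra Z E] [Field Ω] [Algebra Z Ω] {n m : ℕ}
    {ρ : Type} [Fintype ρ] [DecidableEq ρ] (Φ : E →ₐ[Z] Matrix (Fin n) (Fin n) Ω)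
    (Θ : B →+* Matrix ρ ρ E) (f : L) (t : Matrix ρ ρ Z) (hn : 0 < n) (hf : f ≠ 0) (hb : Bass E)
    (ht : Θ (algebraMap L B f) = t.map (algebraMap Z E))
    (hu : MU n (Matrix (Fin m) (Fin m) B)) :
    ∃ y : Eˣ, (Φ y).det = algebraMap Z Ω (t.det ^ m) := by
  obtain ⟨e, he1, he2⟩ := hu
  let Θ' : Matrix (Fin m) (Fin m) B →+* Matrix (Fin m × ρ) (Fin m × ρ) E :=
    (compRingEquiv (Fin m) ρ E).toRingHom.comp Θ.mapMatrix
  let Ψ : Matrix (Fin m) (Fin m) B →+* Matrix ((Fin m × ρ) × Fin n) ((Fin m × ρ) × Fin n) Ω :=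
    (compRingEquiv (Fin m × ρ) (Fin n) Ω).toRingHom.comp (Φ.toRingHom.mapMatrix.comp Θ')
  let i₀ : Fin n := ⟨0, hn⟩
  let x : Matrix (Fin m) (Fin m) B := algebraMap L _ f
  have hg : IsUnit (1 - e i₀ i₀ + x * e i₀ i₀) := by
    refine unit_g _ x (algebraMap L _ f⁻¹) (by rw [he1, if_pos rfl]) (Algebra.commutes _ _)
      (Algebra.commutes _ _) ?_ ?_
    · rw [← map_mul, mul_inv_cancel₀ hf, map_one]
    · rw [← map_mul, inv_mul_cancel₀ hf, map_one]
  obtain ⟨y, hy⟩ := h4 Z E Ω n Φ (Fin m × ρ) (Θ' (1 - e i₀ i₀ + x * e i₀ i₀)) hb (hg.map Θ')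
  refine ⟨y, ?_⟩
  let T : Matrix ρ ρ Ω := t.map (algebraMap Z Ω)
  have hx : (Ψ x).charpoly = (T.charpoly ^ m) ^ n := by
    have := cp_tens T (Ψ x) fun i a k j b l => by
      change Φ (Θ (x i j) a b) k l = _
      by_cases hij : i = j
      · subst hij
        have e1 : x i i = algebraMap L B f := by
          simp only [x, algebraMap_matrix_apply, if_true]
        rw [e1, ht, map_apply, Φ.commutes, algebraMap_matrix_apply]
        simp only [Prod.mk.injEq, true_and, T, map_apply]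
      · have e1 : x i j = 0 := by
          simp only [x, algebraMap_matrix_apply, if_neg hij]
        rw [e1, map_zero, Matrix.zero_apply, map_zero, Matrix.zero_apply,
          if_neg fun h => hij (congrArg Prod.fst h)]
    simpa only [Fintype.card_fin] using this
  have hl := h3 Ω ((Fin m × ρ) × Fin n) n (fun i j => Ψ (e i j)) (Ψ x) (T.charpoly ^ m) i₀
    (fun i j k l => by
      rw [← map_mul, he1]
      split_ifs
      · rfl
      · exact map_zero Ψ)
    (by rw [← map_sum, he2, map_one])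
    (fun i j => by rw [← map_mul, ← map_mul, Algebra.commutes])
    (T.charpoly_monic.pow m) hx
  have e2 : Ψ (1 - e i₀ i₀ + x * e i₀ i₀) = 1 - Ψ (e i₀ i₀) + Ψ x * Ψ (e i₀ i₀) := by
    rw [map_add, map_sub, map_one, map_mul]
  rw [← hy]
  change (Ψ (1 - e i₀ i₀ + x * e i₀ i₀)).det = _
  rw [e2, hl, T.charpoly_monic.natDegree_pow, charpoly_natDegree_eq_dim, coeff_zero_eq_eval_zero,
    eval_pow, ← coeff_zero_eq_eval_zero, mul_comm m, pow_mul, ← mul_pow,
    ← det_eq_sign_charpoly_coeff, map_pow, RingHom.map_det]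
  rfl

end NPNP

theorem pNPN (h1 : S_SetN.{u}) (h2 : S_BassS.{u}) (h3 : S_LA.{u}) (h4 : S_MN2.{u}) :
    S_NPN.{u} := by
  intro R S A K L _ _ _ _ _ _ _ _ _ _ _ _ _ _ n m N f hG hN hd hu hf
  letI := GAP.alg R S A K
  obtain ⟨Ω, _, _, Φ, hS, hΦ⟩ := h1 R S A K n N hG hN hd
  let b := Module.finBasis K L
  obtain ⟨Θ, hΘ⟩ := NPNP.exists_th R A b
  obtain ⟨y, hy⟩ := NPNP.core h3 h4 Φ Θ f
    ((Algebra.leftMulMatrix b f).map (algebraMap K (K ⊗[R] S))) hN.pos hf
    (h2 K (K ⊗[R] A) (hG.sep.bc K))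
    (by
      rw [hΘ]
      ext i j
      exact ((GAP.sm R S A K).commutes _).symm) hu
  refine ⟨y, hS.inj ?_⟩
  rw [← hΦ, hy, map_pow (algebraMap K (K ⊗[R] S)), Algebra.norm_eq_matrix_det b, RingHom.map_det]
  rfl

end Pool.Agent.P.MP_46a8f8_ag.GU
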