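import Pool.Agent.P.MP_46a8f8_ag.GU.Su
import Pool.Agent.P.MP_46a8f8_ag.GU.H9
import Pool.Agent.P.MP_46a8f8_ag.GU.DomL
import Pool.Agent.P.MP_46a8f8_ag.Asm2

/-!
Norms of unitary elements.
-/

namespace Pool.Agent.P.MP_46a8f8_ag.GU

open TensorProduct Function IsLocalRing

universe u

namespace NUP

variable {R S A : Type u} [CommRing R] [CommRing S] [Algebra R S] [Ring A] [Algebra S A]
  [Algebra R A] [IsScalarTower R S A]

theorem sm_inj (h : GB R S A) (T : Type u) [CommRing T] [Algebra R T] [Module.Flat R T] :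
    Injective (GAP.sm R S A T) :=
  Module.Flat.lTensor_preserves_injective_linearMap (M := T)
    (IsScalarTower.toAlgHom R S A).toLinearMap h.injA

theorem one_inj (K : Type u) [CommRing K] [Algebra R K] [Module.Free R A]
    (hK : Injective (algebraMap R K)) {a b : A} (h : (1 : K) ⊗ₜ[R] a = (1 : K) ⊗ₜ[R] b) : a = b :=
  Algebra.TensorProduct.includeRight_injective (A := K) (B := A) hK h

end NUP

theorem pNU (h1 : S_NFs.{u}) (h2 : S_Cay.{u}) (h3 : S_LyN.{u}) : S_NU.{u} := by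
  intro R S A K _ _ _ _ _ _ _ _ _ _ _ _ _ _ _ n N hI hG hN hns hF s x hx hx' hs
  have := hG.dom
  have := hG.free
  have := hG.fin
  have := SA.free (R := R) (A := A)
  have := SA.fin (R := R) (A := A)
  have hRK : Injective (algebraMap R K) := IsFractionRing.injective R K
  have : Module.Flat R K := IsLocalization.flat K (nonZeroDivisors R)
  have hD : IsDomain (K ⊗[R] S) := (pDomL R S K).1 (nonZeroDivisors R) le_rfl
  have cK := h1 R S A n N hG hN K
  have cR := h1 R S A n N hG hN R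
  -- the norm one condition
  have e1 : algebraMap S A s * star (algebraMap S A s) = 1 := by
    have a1 : N K x * N K (cj R A K x) = 1 := by rw [← map_mul, hx, map_one]
    have a2 := congrArg (GAP.sm R S A K) a1
    rw [map_mul, cK, hs, GAP.sm_tmul, cj_tmul, Algebra.TensorProduct.tmul_mul_tmul, one_mul,
      map_one, Algebra.TensorProduct.one_def] at a2
    exact NUP.one_inj K hRK a2
  obtain ⟨t, ht⟩ := pH9 R S A s hI hns e1
  obtain ⟨k, hk⟩ := pH9 R S A (-1) hI hns (by simp)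
  have hk' : star (algebraMap S A k) = -algebraMap S A k := by
    rw [map_neg, map_one, neg_one_mul] at hk
    exact neg_eq_iff_eq_neg.1 hk
  have hκ : Kap (algebraMap S A k) :=
    ⟨k.isUnit.map _, fun y => Algebra.commutes _ y, hk'⟩
  -- the Cayley transform
  obtain ⟨w, hw⟩ : ∃ w : (K ⊗[R] A)ˣ, x * cj R A K w = w := by
    let := GAP.alg R S A K
    have : IsScalarTower K (K ⊗[R] S) (K ⊗[R] A) := GAP.tower_bc
    have : Module.Finite (K ⊗[R] S) (K ⊗[R] A) :=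
      Module.Finite.of_restrictScalars_finite K (K ⊗[R] S) (K ⊗[R] A)
    have a1 : (2 : K) ≠ 0 := by
      have := (hI.two.map (algebraMap R K)).ne_zero
      rwa [map_ofNat] at this
    have a2 : (1 : K) ⊗ₜ[R] (k : S) ≠ 0 :=
      (k.isUnit.map (Algebra.TensorProduct.includeRight (R := R) (A := K) (B := S))).ne_zero
    obtain ⟨c, w, hw⟩ := h2 K (K ⊗[R] S) (K ⊗[R] A) ((1 : K) ⊗ₜ[R] (k : S)) x a1 a2
    refine ⟨w, ?_⟩
    have a3 : ∀ y, algebraMap (K ⊗[R] S) (K ⊗[R] A) y = GAP.sm R S A K y := fun _ => rfl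
    rw [a3] at hw
    have a4 := GAP.sm_comm R S A K (algebraMap K (K ⊗[R] S) c * (1 : K) ⊗ₜ[R] (k : S))
    have a5 : cj R A K (GAP.sm R S A K (algebraMap K (K ⊗[R] S) c * (1 : K) ⊗ₜ[R] (k : S))) =
        -GAP.sm R S A K (algebraMap K (K ⊗[R] S) c * (1 : K) ⊗ₜ[R] (k : S)) := by
      rw [← Algebra.smul_def, map_smul, map_smul, GAP.sm_tmul, cj_tmul, hk', tmul_neg, smul_neg]
    generalize GAP.sm R S A K (algebraMap K (K ⊗[R] S) c * (1 : K) ⊗ₜ[R] (k : S)) = γ at *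
    rw [hw, map_add, map_add, cj_mul, a5, map_sub, cj_one, mul_add, mul_add, hx, ← mul_assoc,
      mul_sub, hx, mul_one, mul_neg, ← a4, mul_sub, mul_sub, mul_one]
    abel
  -- the quotient is fixed by the involution
  let iK := Algebra.TensorProduct.includeRight (R := R) (A := K) (B := S)
  let τ : (K ⊗[R] S)ˣ := Units.map (iK : S →* K ⊗[R] S) t
  have hτ : (τ : K ⊗[R] S) = (1 : K) ⊗ₜ[R] (t : S) := rfl
  obtain ⟨ρ, hρ⟩ : ∃ ρ : K ⊗[R] S, N K w = τ * ρ := ⟨τ⁻¹ * N K w, by simp⟩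
  have e2 : cj R A K (GAP.sm R S A K ρ) = GAP.sm R S A K ρ := by
    have a1 : N K x * N K (cj R A K w) = N K w := by rw [← map_mul, hw]
    have a2 := congrArg (GAP.sm R S A K) a1
    rw [map_mul, cK, hs, hρ, mul_comm, map_mul, cj_mul, ← mul_assoc, hτ, GAP.sm_tmul, GAP.sm_tmul,
      cj_tmul, Algebra.TensorProduct.tmul_mul_tmul, one_mul, ht, GAP.sm_comm R S A K ρ,
      ← GAP.sm_tmul, ← hτ] at a2
    exact (τ.isUnit.map (GAP.sm R S A K)).mul_left_cancel a2
  obtain ⟨μ, hμ⟩ : ∃ μ : K, ρ = algebraMap K (K ⊗[R] S) μ := by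
    obtain ⟨d, σ, hd⟩ := exists_smul_eq_one_tmul (A := S) (nonZeroDivisors R) K ρ
    have a1 : cj R A K (GAP.sm R S A K ((1 : K) ⊗ₜ[R] σ)) = GAP.sm R S A K ((1 : K) ⊗ₜ[R] σ) := by
      rw [← hd, map_smul, map_smul, e2]
    rw [GAP.sm_tmul, cj_tmul] at a1
    obtain ⟨r, rfl⟩ := hI.fix σ (NUP.one_inj K hRK a1)
    have a2 : algebraMap R K d ≠ 0 := (map_ne_zero_iff _ hRK).2 (nonZeroDivisors.coe_ne_zero d)
    refine ⟨(algebraMap R K d)⁻¹ * algebraMap R K r, ?_⟩
    rw [map_mul, ← Algebra.smul_def, eq_inv_smul_iff₀ a2, hd,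
      Algebra.TensorProduct.algebraMap_apply, Algebra.algebraMap_self, RingHom.id_apply,
      Algebra.algebraMap_eq_smul_one r, Algebra.algebraMap_eq_smul_one r, smul_tmul]
  have μ0 : μ ≠ 0 := by
    rintro rfl
    refine (w.isUnit.map (N K)).ne_zero ?_
    rw [hρ, hμ, map_zero, mul_zero]
  -- descent to the base
  let iR := Algebra.TensorProduct.includeRight (R := R) (A := R) (B := S)
  obtain ⟨v, g, hg⟩ := hF (Units.map (iR : S →* R ⊗[R] S) t) (Units.mk0 μ μ0) ⟨w, by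
    rw [hρ, hμ, pow_one, hτ]
    change _ = mp S _ ((1 : R) ⊗ₜ[R] (t : S)) * _
    rw [H90P.mp_tmul, map_one]
    rfl⟩
  change N R g = (1 : R) ⊗ₜ[R] (t : S) * _ at hg
  let jR := Algebra.TensorProduct.includeRight (R := R) (A := R) (B := A)
  let a : Aˣ := Units.map (Algebra.TensorProduct.lid R A : R ⊗[R] A →* A) g
  have ha : (1 : R) ⊗ₜ[R] (a : A) = g := (Algebra.TensorProduct.lid R A).symm_apply_apply g
  obtain ⟨u, u1, u2, u3⟩ := h3 R A (R ⊗[R] S) ((N R).comp (jR : A →* R ⊗[R] A)) _ hκ a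
  refine ⟨u, u1, u2, ?_⟩
  change N R ((1 : R) ⊗ₜ[R] u) * N R ((1 : R) ⊗ₜ[R] star (a : A)) = N R ((1 : R) ⊗ₜ[R] (a : A))
    at u3
  have e3 : IsUnit (N R ((1 : R) ⊗ₜ[R] star (a : A))) := (a.isUnit.star.map jR).map (N R)
  refine e3.mul_right_cancel (u3.trans (NUP.sm_inj hG R ?_))
  rw [← cj_tmul, map_mul, cR, ha, hg, mul_comm, ← Algebra.smul_def, map_smul, map_smul,
    GAP.sm_tmul, GAP.sm_tmul, cj_tmul, mul_smul_comm, Algebra.TensorProduct.tmul_mul_tmul, one_mul,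
    ht]

end Pool.Agent.P.MP_46a8f8_ag.GU
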