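import Pool.Agent.P.MP_46a8f8_ag.GU.Su
import Pool.Agent.P.MP_46a8f8_ag.GU.Nbh
import Pool.Agent.P.MP_46a8f8_ag.GU.EN

/-!
An etale neighbourhood of a closed semilocal subscheme over which a homomorphism of rings extends.
-/

namespace Pool.Agent.P.MP_46a8f8_ag.GU

open TensorProduct Function

universe u

theorem pNbh0 (h1 : S_HomQ0.{u}) : S_Nbh0.{u} := by
  intro R A R₀ A₀ T D _ _ _ _ _ _ _ _ _ _ _ _ _ _ _ _ _ y j φ' hS hy hQ hφ'
  obtain ⟨Q, _, _, _, _, φ, hft, hfs, hφ, hun⟩ := h1 R A R₀ A₀ T j hS
  obtain ⟨s⟩ := hun D φ' hφ'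
  obtain ⟨T', _, _, g, q, het, hq⟩ := pEN T D Q y s hQ
  have hN : IsNoetherianRing T' := Algebra.FiniteType.isNoetherianRing T T'
  set y' : T' := algebraMap T T' y with hy'
  let W := Localization (On y')
  have hunit : ∀ m : On y', IsUnit (q m) := by
    intro m
    have : q ((m : T') - 1) = 0 := (hq _).2 m.2
    rw [map_sub, map_one, sub_eq_zero] at this
    rw [this]
    exact isUnit_one
  let qW : W →ₐ[T] D := IsLocalization.liftAlgHom (M := On y') (f := q) hunit
  have hqW : ∀ t : T', qW (algebraMap T' W t) = q t := fun t => by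
    simp [qW]
  have hyW : algebraMap T W y = algebraMap T' W y' := IsScalarTower.algebraMap_apply T T' W y
  have hflat : Module.Flat T W := Module.Flat.trans T T' W
  have hNW : IsNoetherianRing W := IsLocalization.isNoetherianRing (On y') W hN
  have hu : ∀ w, IsUnit (1 + algebraMap T W y * w) := fun w => by
    rw [hyW]
    exact NbhP.unit_loc y' w
  have hker : ∀ w, qW w = 0 ↔ algebraMap T W y ∣ w := by
    intro w
    constructor
    · intro h
      obtain ⟨⟨t, m⟩, hm⟩ := IsLocalization.surj (On y') w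
      have h3 : q t = 0 := by
        rw [← hqW, ← hm, map_mul, h, zero_mul]
      obtain ⟨c, hc⟩ := (hq t).1 h3
      have hs : IsUnit (algebraMap T' W m) := IsLocalization.map_units _ m
      rw [← hs.dvd_mul_right, hm, hyW]
      exact ⟨algebraMap T' W c, by rw [← map_mul, ← hc]⟩
    · rintro ⟨c, rfl⟩
      rw [map_mul, hyW, hqW, (hq y').2 dvd_rfl, zero_mul]
  have hreg : IsSMulRegular W (algebraMap T W y) := hy.of_flat
  have hdom : IsDomain W := NbhP.dom (qW : W →+* D) hreg hu hker
  letI : Algebra R W := ((algebraMap T W).comp (algebraMap R T)).toAlgebra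
  have : IsScalarTower R T W := IsScalarTower.of_algebraMap_eq fun _ => rfl
  let f : Q →ₐ[T] W := (IsScalarTower.toAlgHom T T' W).comp g
  let fR : Q →ₐ[R] W := f.restrictScalars R
  refine ⟨W, inferInstance, hdom, inferInstance, inferInstance, inferInstance, qW,
    (mp A fR : Q ⊗[R] A →+* W ⊗[R] A).comp φ, ?_, inferInstance, hflat, hu, hker, ?_⟩
  · have := Algebra.EssFiniteType.of_isLocalization W (On y')
    exact Algebra.EssFiniteType.comp T T' W
  · intro r
    change mp A fR (φ _) = _
    rw [hφ, mp_alg]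
    congr 1
    exact f.commutes _

end Pool.Agent.P.MP_46a8f8_ag.GU
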