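import Pool.Agent.P.MP_46a8f8_ag.GU.Su

/-!
From prime elements to fractions.
-/

namespace Pool.Agent.P.MP_46a8f8_ag.GU

universe u

namespace PF0P

variable {O K : Type u} [CommRing O] [IsDomain O] [UniqueFactorizationMonoid O] [Field K]
  [Algebra O K] [IsFractionRing O K]

variable (O) in
/-- a unit multiple has its power in `H` -/
def Gd (H : Subgroup Kˣ) (e : ℕ) (y : K) : Prop :=
  ∃ (v : Oˣ) (x : Kˣ), x ∈ H ∧ (x : K) = (algebraMap O K v * y) ^ e

omit [IsDomain O] [UniqueFactorizationMonoid O] [IsFractionRing O K] in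
theorem Gd.mul {H : Subgroup Kˣ} {e : ℕ} {y z : K} (h : Gd O H e y) (k : Gd O H e z) :
    Gd O H e (y * z) := by
  obtain ⟨v, x, hx, e1⟩ := h
  obtain ⟨w, x', hx', e2⟩ := k
  exact ⟨v * w, x * x', H.mul_mem hx hx', by
    rw [Units.val_mul, Units.val_mul, e1, e2, map_mul, ← mul_pow]; congr 1; ring⟩

theorem mm {p a b : O} (hp : Prime p) (ha : a ≠ 0) (hb : b ≠ 0) :
    multiplicity p (a * b) = multiplicity p a + multiplicity p b :=
  multiplicity_mul hp (.of_prime_left hp (mul_ne_zero ha hb))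

theorem mp' {p a : O} (hp : Prime p) (ha : a ≠ 0) (k : ℕ) :
    multiplicity p (a ^ k) = k * multiplicity p a :=
  (FiniteMultiplicity.of_prime_left hp ha).multiplicity_pow hp

theorem ind (H : Subgroup Kˣ) (e : ℕ) (d : O) : ∀ a b : O, a * b = d → d ≠ 0 →
    (∀ p, Prime p → p ∣ a * b →
      Gd O H e (algebraMap O K p ^ ((multiplicity p a : ℤ) - multiplicity p b))) →
    Gd O H e (algebraMap O K a / algebraMap O K b) := by
  induction d using (wellFounded_dvdNotUnit (α := O)).induction with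
  | _ d ih =>
  rintro a b rfl h0 h
  have inj := IsFractionRing.injective O K
  by_cases hu : IsUnit (a * b)
  · obtain ⟨a, rfl⟩ := isUnit_of_mul_isUnit_left hu
    obtain ⟨b, rfl⟩ := isUnit_of_mul_isUnit_right hu
    refine ⟨b * a⁻¹, 1, H.one_mem, ?_⟩
    rw [← mul_div_assoc, ← map_mul, ← Units.val_mul, inv_mul_cancel_right, div_self, one_pow,
      Units.val_one]
    exact (map_ne_zero_iff _ inj).2 b.ne_zero
  obtain ⟨p, hi, hd⟩ := WfDvdMonoid.exists_irreducible_factor hu h0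
  have hp : Prime p := UniqueFactorizationMonoid.irreducible_iff_prime.1 hi
  obtain ⟨a', ea, na⟩ :=
    (FiniteMultiplicity.of_prime_left hp (left_ne_zero_of_mul h0)).exists_eq_pow_mul_and_not_dvd
  obtain ⟨b', eb, nb⟩ :=
    (FiniteMultiplicity.of_prime_left hp (right_ne_zero_of_mul h0)).exists_eq_pow_mul_and_not_dvd
  have h1 := h p hp hd
  generalize multiplicity p a = i at ea h1
  generalize multiplicity p b = j at eb h1
  have a0 : a' ≠ 0 := fun e => na (by simp [e])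
  have b0 : b' ≠ 0 := fun e => nb (by simp [e])
  have nab : ¬ p ∣ a' * b' := fun e => (hp.dvd_or_dvd e).elim na nb
  have e1 : a * b = a' * b' * p ^ (i + j) := by rw [ea, eb]; ring
  have h2 := ih (a' * b') ⟨mul_ne_zero a0 b0, p ^ (i + j), fun hu' =>
    nab ((hu'.dvd_mul_right).1 (e1 ▸ hd)), e1⟩ a' b' rfl (mul_ne_zero a0 b0) fun q hq hq' => by
      have z : ∀ k : ℕ, multiplicity q (p ^ k) = 0 := fun k => multiplicity_eq_zero.2 fun e =>
        nab (((hq.dvd_prime_iff_associated hp).1 (hq.dvd_of_dvd_pow e)).symm.dvd.trans hq')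
      have h3 := h q hq (e1 ▸ hq'.mul_right _)
      rwa [ea, eb, mm hq (pow_ne_zero _ hp.ne_zero) a0, mm hq (pow_ne_zero _ hp.ne_zero) b0, z, z,
        zero_add, zero_add] at h3
  have h4 := h1.mul h2
  rwa [zpow_sub₀ ((map_ne_zero_iff _ inj).2 hp.ne_zero), zpow_natCast, zpow_natCast,
    div_mul_div_comm, ← map_pow, ← map_pow, ← map_mul, ← map_mul, ← ea, ← eb] at h4

end PF0P

open PF0P in
theorem pPF0 : S_PF0.{u} := by
  intro O K _ _ _ _ _ _ H n e F μ₁ μ₂ μ ν hn h2 hμ hF h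
  have inj := IsFractionRing.injective O K
  have nz : ∀ {x : O}, x ≠ 0 → algebraMap O K x ≠ 0 := fun hx => (map_ne_zero_iff _ inj).2 hx
  obtain ⟨ν₁, ν₂, n2, hν⟩ := IsFractionRing.div_surjective (A := O) (ν : K)
  replace n2 := nonZeroDivisors.ne_zero n2
  have n1 : ν₁ ≠ 0 := fun e => ν.ne_zero (by simp [← hν, e])
  have h1 : μ₁ ≠ 0 := fun e => mul_ne_zero (nz h2) μ.ne_zero (by simp [hμ, e])
  have F0 : F ≠ 0 := fun e =>
    mul_ne_zero (pow_ne_zero _ μ.ne_zero) (pow_ne_zero _ ν.ne_zero) (by rw [← hF, e, map_zero])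
  have eμ : (μ : K) = algebraMap O K μ₁ / algebraMap O K μ₂ := by
    rw [← hμ, mul_div_cancel_left₀ _ (nz h2)]
  have E : F * (μ₂ ^ e * ν₂ ^ n) = μ₁ ^ e * ν₁ ^ n := inj (by
    have := nz h2
    have := nz n2
    simp only [map_mul, map_pow, hF, eμ, ← hν, div_pow]
    field_simp)
  rw [eμ]
  refine ind H e _ μ₁ μ₂ rfl (mul_ne_zero h1 h2) fun p hp hd => ?_
  obtain ⟨F', eF, nF⟩ := (FiniteMultiplicity.of_prime_left hp F0).exists_eq_pow_mul_and_not_dvd
  obtain ⟨v, x, hx, ex⟩ := h p F' _ hp hd nF eF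
  have c := congrArg (fun z => (multiplicity p z : ℤ)) E
  simp only [mm hp F0 (mul_ne_zero (pow_ne_zero _ h2) (pow_ne_zero _ n2)),
    mm hp (pow_ne_zero _ h2) (pow_ne_zero _ n2), mm hp (pow_ne_zero _ h1) (pow_ne_zero _ n1),
    mp' hp h1, mp' hp h2, mp' hp n1, mp' hp n2] at c
  push_cast at c
  have w0 : algebraMap O K (v * p) ≠ 0 := nz (mul_ne_zero v.ne_zero hp.ne_zero)
  refine ⟨v ^ ((multiplicity p μ₁ : ℤ) - multiplicity p μ₂), x * (Units.mk0 _ w0 ^
    ((multiplicity p ν₂ : ℤ) - multiplicity p ν₁)) ^ n, H.mul_mem hx (hn _), ?_⟩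
  have ev : ∀ k : ℤ, algebraMap O K (v ^ k : Oˣ) = algebraMap O K v ^ k := fun k => by
    have := congrArg Units.val (map_zpow (Units.map (algebraMap O K : O →* K)) v k)
    rwa [Units.val_zpow_eq_zpow_val] at this
  rw [ev, ← mul_zpow, ← map_mul, Units.val_mul, ex, Units.val_pow_eq_pow_val,
    Units.val_zpow_eq_zpow_val, Units.val_mk0, ← zpow_natCast, ← zpow_natCast, ← zpow_natCast,
    ← zpow_mul, ← zpow_mul, ← zpow_add₀ w0]
  congr 1
  linear_combination c

end Pool.Agent.P.MP_46a8f8_ag.GU
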