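import Pool.Agent.P.MP_46a8f8_ag.GU.Su
import Pool.Agent.P.MP_46a8f8_ag.GU.PurS

/-!
Purity for reduced norms over a factorial ring, from the norm principle at each prime.
-/

namespace Pool.Agent.P.MP_46a8f8_ag.GU

open TensorProduct Function IsLocalRing

universe u

namespace PFNP

variable {R S A : Type u} [CommRing R] [CommRing S] [Algebra R S] [Ring A] [Algebra R A]

/-- the scalars which are reduced norms -/
def sub (N : NFam R S A) (K : Type u) [Field K] [Algebra R K] : Subgroup Kˣ where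
  carrier := {x | NK N K (algebraMap K (K ⊗[R] S) (x : K))}
  one_mem' := ⟨1, by rw [Units.val_one, Units.val_one, map_one, map_one]⟩
  mul_mem' {x y} hx hy := by
    change NK N K (algebraMap K (K ⊗[R] S) ((x * y : Kˣ) : K))
    rw [Units.val_mul, map_mul]
    exact NK.mul hx hy
  inv_mem' {x} hx := NK.inv hx (by rw [← map_mul, Units.mul_inv, map_one])

theorem mem_sub {N : NFam R S A} {K : Type u} [Field K] [Algebra R K] {x : Kˣ} :
    x ∈ sub N K ↔ NK N K (algebraMap K (K ⊗[R] S) (x : K)) := Iff.rfl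

end PFNP

theorem pPFN (h1 : S_ResO.{u}) (h2 : S_PF0.{u}) : S_PFN.{u} := by
  intro R S A O K _ _ _ _ _ _ _ _ _ _ _ _ _ _ _ _ _ n e N s μ μ₁ μ₂ hG hN hD h0 hμ hg hP
  have := hG.free
  have := hG.fin
  obtain ⟨g, hg⟩ := hg
  have hι : Injective (algebraMap O K) := IsFractionRing.injective O K
  have hm : Injective (mp S (IsScalarTower.toAlgHom R O K)) := PurSP.mp_inj _ hι
  have hO : IsDomain (O ⊗[R] S) :=
    Function.Injective.isDomain (mp S (IsScalarTower.toAlgHom R O K)).toRingHom hm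
  obtain ⟨d, b, hd, hb⟩ := PurSP.clear (C := O) (g : K ⊗[R] A)
  obtain ⟨k, rfl⟩ : ∃ k, n = k + 1 := ⟨n - 1, by have := hN.pos; omega⟩
  have hν : algebraMap O K (d * μ₂ ^ e) ≠ 0 :=
    (map_ne_zero_iff _ hι).2 (mul_ne_zero hd (pow_ne_zero _ h0))
  have hF : algebraMap O K (d ^ (k + 1) * μ₂ ^ (e * k) * μ₁ ^ e) =
      (μ : K) ^ e * algebraMap O K (d * μ₂ ^ e) ^ (k + 1) := by
    simp only [map_mul, map_pow, ← hμ]
    ring
  have hc : N O ((μ₂ ^ e) • b) =
      s * algebraMap O (O ⊗[R] S) (d ^ (k + 1) * μ₂ ^ (e * k) * μ₁ ^ e) := by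
    refine hm ?_
    rw [hN.nat, mp_smul, hb, smul_smul, hN.smul, hg, map_mul (mp S _), mp_alg,
      IsScalarTower.toAlgHom_apply, IsScalarTower.toAlgHom_apply, hF, mul_left_comm, ← map_mul,
      ← map_mul, mul_comm (μ₂ ^ e) d, mul_comm ((μ : K) ^ e)]
  obtain ⟨v, x, hx, hv⟩ := h2 O K (PFNP.sub N K) (k + 1) e _ μ₁ μ₂ μ (Units.mk0 _ hν)
    (fun x => PFNP.mem_sub.2 (by
      rw [Units.val_pow_eq_pow_val]
      exact hN.nk_pow x.isUnit)) h0 hμ hF (fun π F' m hπ hdv hF' he => by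
      obtain ⟨v, hv⟩ := hP π m hπ hdv (h1 R S A O (k + 1) m N π F' _ s hG hN hO hπ hF'
        (by rw [hc, he]))
      exact ⟨v, Units.mk0 _ (pow_ne_zero m ((map_ne_zero_iff _ hι).2
        (mul_ne_zero v.ne_zero hπ.ne_zero))), hv, rfl⟩)
  exact ⟨v, hv ▸ PFNP.mem_sub.1 hx⟩

end Pool.Agent.P.MP_46a8f8_ag.GU
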