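import Pool.Agent.P.MP_46a8f8_ag.GU.Su
import Pool.Agent.P.MP_46a8f8_ag.GU.Fin3

/-!
A prime with a geometric presentation is a norm from an extension with matrix units.
-/

namespace Pool.Agent.P.MP_46a8f8_ag.GU

open TensorProduct Function IsLocalRing

universe u

open D1P

theorem pPPa0 (h1 : S_Nbh0.{u}) : S_PPa0.{u} := by
  intro R A O K _ _ _ _ _ _ _ _ _ _ _ _ _ _ n m π hS hπ hG hP
  have := hS.free
  have := hS.fin
  obtain ⟨T, _, _, τ, y, y', hF, j, hjF, hj⟩ := hG
  have := hF.free
  have := hF.fin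
  have : IsNoetherianRing T := Algebra.FiniteType.isNoetherianRing O T
  have : IsNoetherianRing (Localization (On y)) :=
    IsLocalization.isNoetherianRing (On y) _ inferInstance
  have hy : IsSMulRegular T y := IsSMulRegular.of_right_eq_zero_of_smul fun t ht => by
    have h1 : π • t = 0 := by
      rw [Algebra.smul_def, ← hF.mul, mul_right_comm, ← smul_eq_mul y, ht, zero_mul]
    exact (smul_eq_zero.1 h1).resolve_left hπ.ne_zero
  let : Algebra R T := ((algebraMap O T).comp (algebraMap R O)).toAlgebra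
  have : IsScalarTower R O T := IsScalarTower.of_algebraMap_eq fun _ => rfl
  let T0 := Localization (On y)
  let I : Ideal T0 := Ideal.span {algebraMap T T0 y}
  have hQ : ∀ t : T0, algebraMap T0 (T0 ⧸ I) t = 0 ↔ algebraMap T T0 y ∣ t := fun t => by
    rw [Ideal.Quotient.algebraMap_eq, Ideal.Quotient.eq_zero_iff_mem, Ideal.mem_span_singleton]
  have hO : ∀ r : O, algebraMap O (T0 ⧸ I) r =
      algebraMap T0 (T0 ⧸ I) (algebraMap T T0 (algebraMap O T r)) := fun r => rfl
  have hT : ∀ t : T, algebraMap T (T0 ⧸ I) t = algebraMap T0 (T0 ⧸ I) (algebraMap T T0 t) :=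
    fun r => rfl
  have hk : ∀ r : O, algebraMap O (T0 ⧸ I) r = 0 ↔ π ∣ r := fun r => by
    rw [hO, hQ]
    constructor
    · intro hr
      obtain ⟨c, hc⟩ := dvd_of_map hr
      have h1 : r • y' = π • c := by
        rw [Algebra.smul_def, Algebra.smul_def, ← hF.mul, hc]
        ring
      have h2 := congrArg τ h1
      rw [map_smul, map_smul, hF.one, smul_eq_mul, mul_one] at h2
      exact ⟨_, h2⟩
    · rintro ⟨c, rfl⟩
      refine map_dvd _ ?_
      rw [map_mul, ← hF.mul, mul_assoc]
      exact dvd_mul_right _ _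
  have hjq : ∀ r : O, algebraMap T0 (T0 ⧸ I) (j r) = algebraMap O (T0 ⧸ I) r := fun r => by
    rw [hO, ← sub_eq_zero, ← map_sub, hQ]
    exact hj r
  have hsur : Surjective (algebraMap O (T0 ⧸ I)) := fun d => by
    obtain ⟨t, rfl⟩ := Ideal.Quotient.mk_surjective d
    obtain ⟨t', ht'⟩ := near (y := y) t
    obtain ⟨r, hr⟩ := hF.gen t'
    have h1 := map_dvd (algebraMap T T0) hr
    rw [map_sub] at h1
    refine ⟨r, ?_⟩
    rw [hO, ← Ideal.Quotient.algebraMap_eq, eq_comm, ← sub_eq_zero, ← map_sub, hQ]
    convert dvd_add ht' h1 using 1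
    ring
  have : Nontrivial (T0 ⧸ I) := ⟨1, 0, fun h => hπ.not_dvd_one ((hk 1).1 (by rwa [map_one]))⟩
  have : NoZeroDivisors (T0 ⧸ I) := ⟨fun {c d} h => by
    obtain ⟨c, rfl⟩ := hsur c
    obtain ⟨d, rfl⟩ := hsur d
    rw [← map_mul, hk] at h
    rw [hk, hk]
    exact hπ.dvd_or_dvd h⟩
  have : IsDomain (T0 ⧸ I) := NoZeroDivisors.to_isDomain _
  have : IsLocalRing (T0 ⧸ I) := IsLocalRing.of_surjective' _ hsur
  obtain ⟨W, _, _, _, _, _, q, φ, hW1, hW2, hW3, hu, hq, hφ⟩ :=
    h1 R A R A T0 (T0 ⧸ I) (algebraMap T T0 y) (j.comp (algebraMap R O))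
      (Algebra.TensorProduct.includeRight (R := R) (A := T0 ⧸ I) (B := A)).toRingHom hS (reg_map hy)
      ⟨Ideal.Quotient.mk_surjective, hQ⟩ fun r => by
        rw [RingHom.comp_apply, RingHom.comp_apply, hjq, ← IsScalarTower.algebraMap_apply,
          ← IsScalarTower.algebraMap_apply]
        exact AlgHom.commutes _ r
  let : Algebra T W := ((algebraMap T0 W).comp (algebraMap T T0)).toAlgebra
  have : IsScalarTower T T0 W := IsScalarTower.of_algebraMap_eq fun _ => rfl
  let : Algebra O W := ((algebraMap T W).comp (algebraMap O T)).toAlgebra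
  have : IsScalarTower O T W := IsScalarTower.of_algebraMap_eq fun _ => rfl
  have : Algebra.EssFiniteType T T0 := Algebra.EssFiniteType.of_isLocalization T0 (On y)
  have : Algebra.EssFiniteType T W := Algebra.EssFiniteType.comp T T0 W
  have : Algebra.FormallyUnramified T T0 := Algebra.FormallyUnramified.of_isLocalization (On y)
  have : Algebra.FormallyUnramified T W := Algebra.FormallyUnramified.comp T T0 W
  have : Module.Flat T T0 := IsLocalization.flat T0 (On y)
  have : Module.Flat T W := Module.Flat.trans T T0 W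
  have : Module.Flat O W := Module.Flat.trans O T W
  have hinj : Injective (algebraMap O W) := by
    rw [injective_iff_map_eq_zero]
    intro r hr
    by_contra h
    have h3 : IsSMulRegular W r :=
      Module.Flat.isSMulRegular_of_nonZeroDivisors (mem_nonZeroDivisors_of_ne_zero h)
    exact one_ne_zero (h3.right_eq_zero_of_smul (by rw [Algebra.smul_def, hr, zero_mul] :
      r • (1 : W) = 0))
  have hy0 : algebraMap T0 W (algebraMap T T0 y) ≠ 0 := fun h => by
    have h3 : algebraMap O W π = algebraMap T W y * algebraMap T W y' := by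
      rw [← map_mul, hF.mul]
      rfl
    have h4 : algebraMap T W y = 0 := h
    rw [h4, zero_mul, ← map_zero (algebraMap O W)] at h3
    exact hπ.ne_zero (hinj h3)
  obtain ⟨L, _, _, _, hL1, hL2, hL3, hL4⟩ :=
    allFin1 O T W (T0 ⧸ I) K (q.restrictScalars T) (algebraMap T0 W (algebraMap T T0 y)) π hπ hy0 hu hq
      (fun d => by
        obtain ⟨r, rfl⟩ := hsur d
        exact ⟨algebraMap O T r, rfl⟩) hinj hk
      (fun d => by
        obtain ⟨r, rfl⟩ := hsur d
        exact ⟨r, 1, hπ.not_dvd_one, one_smul _ _⟩)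
  let : Algebra R L := ((algebraMap K L).comp (algebraMap R K)).toAlgebra
  have : IsScalarTower R K L := IsScalarTower.of_algebraMap_eq fun _ => rfl
  let g : W →ₐ[R] L :=
    { algebraMap W L with
      commutes' := fun r => by
        have h3 : algebraMap R W r = algebraMap O W (algebraMap R O r) := by
          rw [IsScalarTower.algebraMap_apply R T0 W, IsScalarTower.algebraMap_apply R T T0]
          rfl
        change algebraMap W L (algebraMap R W r) = algebraMap K L (algebraMap R K r)
        rw [h3, hL2, ← IsScalarTower.algebraMap_apply R O K] }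
  refine ⟨L, inferInstance, inferInstance, inferInstance, inferInstance, hL3,
    hP L (L ⊗[R] A) ((algebraMap W L).comp ((algebraMap T0 W).comp j))
      ((mp A g).toRingHom.comp φ) (fun c => ⟨fun h => ?_, ?_⟩) fun r => ?_, hL4⟩
  · have h3 : algebraMap T0 W (j c) = 0 := hL1 (h.trans (map_zero _).symm)
    have h4 := congrArg q h3
    rw [AlgHom.commutes, map_zero, hjq] at h4
    exact (hk c).1 h4
  · rintro ⟨c, rfl⟩
    rw [RingHom.comp_apply, RingHom.comp_apply, map_mul, hjF, zero_mul, map_zero, map_zero]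
  · rw [RingHom.comp_apply, hφ r]
    exact mp_alg g _

end Pool.Agent.P.MP_46a8f8_ag.GU
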