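import Pool.Agent.P.MP_46a8f8_ag.GU.Ad
import Pool.Agent.P.MP_46a8f8_ag.Dom
import Pool.Agent.P.MP_46a8f8_ag.Reg1

/-!
A prime of a regular local ring of dimension at most two with hyperbolic residue is a norm.
-/

namespace Pool.Agent.P.MP_46a8f8_ag.GU

open TensorProduct Function IsLocalRing

universe u

namespace PPbP

variable {R A : Type u} [CommRing R] [Ring A] [Algebra R A] [StarRing A] [SA R A]

/-- hyperbolic over a principal ideal domain containing the quotient -/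
theorem hy (h1 : S_HypD.{u}) {O C : Type u} [CommRing O] [Algebra R O] [CommRing C] [IsDomain C]
    [IsPrincipalIdealRing C] [Algebra R C] [Algebra O C] [IsScalarTower R O C] {π : O}
    (hker : ∀ r, algebraMap O C r = 0 ↔ π ∣ r) (h : HP R A O π) : Hy R A C := by
  obtain ⟨s, a, a', δ, hδ, e1, e2⟩ := h
  let f : O →ₐ[R] C := IsScalarTower.toAlgHom R O C
  have hπ : f π = 0 := (hker π).2 dvd_rfl
  refine h1 R A C (mp A f s) (f δ) (fun h0 => hδ ((hker δ).1 h0)) ?_ ?_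
  · have := congrArg (mp A f) e1
    rw [map_add, mp_cj, mp_smul, hπ, zero_smul] at this
    exact eq_neg_of_add_eq_zero_left this
  · have := congrArg (mp A f) e2
    rwa [map_mul, map_add, mp_smul, hπ, zero_smul, add_zero, mp_alg, map_mul f] at this

/-- a hyperbolic structure lives over a subring containing finitely many elements -/
theorem hy_sub {C : Type u} [CommRing C] [Algebra R C] (h : Hy R A C) :
    ∃ W : Finset C, ∀ (C' : Type u) [CommRing C'] [Algebra R C'] (f : C' →ₐ[R] C),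
      Injective f → (∀ w ∈ W, ∃ x, f x = w) → Hy R A C' := by
  classical
  have := SA.free (R := R) (A := A)
  have := SA.fin (R := R) (A := A)
  obtain ⟨j, e1, e2⟩ := h
  cases subsingleton_or_nontrivial R
  · refine ⟨∅, fun C' _ _ _ _ _ => ?_⟩
    have := Module.subsingleton R (C' ⊗[R] A)
    exact ⟨0, Subsingleton.elim _ _, Subsingleton.elim _ _⟩
  let b := Module.finBasis R A
  refine ⟨Finset.univ.image fun i => (Algebra.TensorProduct.basis C b).repr j i,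
    fun C' _ _ f hf hW => ?_⟩
  have hx : ∀ i, ∃ x, f x = (Algebra.TensorProduct.basis C b).repr j i := fun i =>
    hW _ (Finset.mem_image.2 ⟨i, Finset.mem_univ _, rfl⟩)
  choose x hx using hx
  have hinj : Injective (mp A f) := fun y z hyz => by
    refine (Algebra.TensorProduct.basis C' b).ext_elem fun i => hf ?_
    rw [← TorHP.repr_mp b f, ← TorHP.repr_mp b f, hyz]
  let j' : C' ⊗[R] A := (Algebra.TensorProduct.basis C' b).equivFun.symm x
  have hj : mp A f j' = j := by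
    refine (Algebra.TensorProduct.basis C b).ext_elem fun i => ?_
    rw [TorHP.repr_mp b f, ← hx]
    congr 1
    exact congrFun ((Algebra.TensorProduct.basis C' b).equivFun.apply_symm_apply x) i
  refine ⟨j', hinj ?_, hinj ?_⟩
  · rw [mp_cj, map_neg, hj, e1]
  · rw [map_mul, map_one, hj, e2]

/-- dimension count -/
theorem dims {O : Type u} [CommRing O] [IsDomain O] [IsLocalRing O] {𝔭 : Ideal O} [𝔭.IsPrime]
    (hd : ringKrullDim O ≤ 2) (h0 : 𝔭 ≠ ⊥) (hm : 𝔭 ≠ maximalIdeal O) :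
    ringKrullDim O = 2 ∧ ∀ 𝔮 : Ideal O, 𝔮.IsPrime → 𝔭 < 𝔮 → 𝔮 = maximalIdeal O := by
  have a0 : (1 : ℕ∞) ≤ 𝔭.height :=
    le_add_self.trans (Ideal.height_add_one_le_of_lt_of_isPrime (bot_lt_iff_ne_bot.2 h0))
  have hlt : ∀ 𝔮 : Ideal O, 𝔮.IsPrime → 𝔮 ≠ maximalIdeal O → 𝔮 < maximalIdeal O :=
    fun 𝔮 h𝔮 hne => lt_of_le_of_ne (le_maximalIdeal h𝔮.ne_top) hne
  have e := IsLocalRing.maximalIdeal_height_eq_ringKrullDim (R := O)
  have hd' : (maximalIdeal O).height ≤ 2 := by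
    rw [← e] at hd
    exact WithBot.coe_le_coe.1 hd
  constructor
  · refine le_antisymm hd ?_
    rw [← e]
    have : (2 : ℕ∞) ≤ (maximalIdeal O).height :=
      (add_le_add_left a0 1).trans
        (Ideal.height_add_one_le_of_lt_of_isPrime (hlt 𝔭 inferInstance hm))
    exact WithBot.coe_le_coe.2 this
  · intro 𝔮 h𝔮 hpq
    by_contra hne
    have a1 : (1 : ℕ∞) + 1 ≤ 𝔮.height :=
      (add_le_add_left a0 1).trans (Ideal.height_add_one_le_of_lt_of_isPrime hpq)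
    have a2 : (1 : ℕ∞) + 1 + 1 ≤ 2 :=
      ((add_le_add_left a1 1).trans
        (Ideal.height_add_one_le_of_lt_of_isPrime (hlt 𝔮 h𝔮 hne))).trans hd'
    exact absurd a2 (by decide)

end PPbP

open PPbP in
theorem pPPb (h1 : S_HypD.{u}) (h2 : S_Ch2.{u}) (h3 : S_Mod2.{u}) (h4 : S_PPm.{u}) :
    S_PPb.{u} := by
  intro R A O K _ _ _ _ _ _ _ _ _ _ _ _ _ _ _ _ π hd hπ hHP
  classical
  let 𝔭 : Ideal O := Ideal.span {π}
  have hp : 𝔭.IsPrime := (Ideal.span_singleton_prime hπ.ne_zero).2 hπ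
  have hp0 : 𝔭 ≠ ⊥ := fun h => hπ.ne_zero (Ideal.span_singleton_eq_bot.1 h)
  have hsurj : Surjective (algebraMap O (O ⧸ 𝔭)) := Ideal.Quotient.mk_surjective
  have hker : ∀ r, algebraMap O (O ⧸ 𝔭) r = 0 ↔ π ∣ r := fun r =>
    Ideal.Quotient.eq_zero_iff_mem.trans Ideal.mem_span_singleton
  by_cases hpm : 𝔭 = maximalIdeal O
  · have hmax : 𝔭.IsMaximal := hpm ▸ inferInstance
    have : IsPrincipalIdealRing (O ⧸ 𝔭) := by
      let _ := Ideal.Quotient.field 𝔭
      infer_instance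
    refine h4 R A O O (O ⧸ 𝔭) K π π hπ (fun x y h => h) hπ.ne_zero ⟨hsurj, hker⟩ hker
      (fun d => ?_) (hy h1 hker hHP)
    obtain ⟨r, rfl⟩ := hsurj d
    exact ⟨r, 1, hπ.not_dvd_one, one_smul _ _⟩
  obtain ⟨hd2, hq⟩ := dims hd hp0 hpm
  have : IsLocalRing (O ⧸ 𝔭) := IsLocalRing.of_surjective' (algebraMap O (O ⧸ 𝔭)) hsurj
  have hcm : ∀ 𝔫 : Ideal (O ⧸ 𝔭), 𝔫.IsMaximal →
      𝔫.comap (algebraMap O (O ⧸ 𝔭)) = maximalIdeal O := fun 𝔫 h𝔫 =>
    IsLocalRing.eq_maximalIdeal (Ideal.comap_isMaximal_of_surjective _ hsurj)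
  have : Ring.KrullDimLE 1 (O ⧸ 𝔭) := by
    refine Ring.KrullDimLE.mk₁' fun I hI0 hI => ?_
    refine Ideal.isMaximal_of_isIntegral_of_isMaximal_comap (R := O) I ?_
    have a1 : 𝔭 ≤ I.comap (algebraMap O (O ⧸ 𝔭)) := fun r hr => by
      rw [Ideal.mem_comap, (hker r).2 (Ideal.mem_span_singleton.1 hr)]
      exact I.zero_mem
    have a2 : 𝔭 ≠ I.comap (algebraMap O (O ⧸ 𝔭)) := by
      intro e
      refine hI0 (eq_bot_iff.2 fun x hx => ?_)
      obtain ⟨r, rfl⟩ := hsurj x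
      exact (hker r).2 (Ideal.mem_span_singleton.1 (e.ge hx))
    rw [hq (I.comap (algebraMap O (O ⧸ 𝔭))) inferInstance (lt_of_le_of_ne a1 a2)]
    infer_instance
  have hnf : ¬ IsField (O ⧸ 𝔭) := fun h =>
    hpm (IsLocalRing.eq_maximalIdeal (Ideal.Quotient.maximal_of_isField 𝔭 h))
  have hinf : ∀ 𝔫 : Ideal (O ⧸ 𝔭), 𝔫.IsMaximal → Infinite ((O ⧸ 𝔭) ⧸ 𝔫) := by
    intro 𝔫 h𝔫
    have : Infinite (O ⧸ 𝔫.comap (algebraMap O (O ⧸ 𝔭))) := by
      rw [hcm 𝔫 h𝔫]
      exact inferInstanceAs (Infinite (ResidueField O))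
    exact Infinite.of_injective _ (Ideal.quotientMap_injective (I := 𝔫) (f := algebraMap O (O ⧸ 𝔭)))
  have hreg : RegAt O (maximalIdeal O) 2 := by
    have : IsLocalization.AtPrime O (maximalIdeal O) :=
      IsLocalization.self fun x hx => show IsUnit x by simpa using hx
    exact (regAt O O (maximalIdeal O) 2).2 ⟨inferInstance, hd2⟩
  have hemb : Emb (O ⧸ 𝔭) 2 := by
    intro 𝔫 h𝔫
    obtain ⟨-, a, ha, hb⟩ := hreg
    refine ⟨fun i => algebraMap O (O ⧸ 𝔭) (a i), fun i => ?_, fun x hx => ?_⟩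
    · rw [← Ideal.mem_comap, hcm 𝔫 h𝔫]
      exact ha i
    · obtain ⟨y, rfl⟩ := hsurj x
      rw [← Ideal.mem_comap, hcm 𝔫 h𝔫] at hx
      obtain ⟨s, hs, hsy⟩ := hb y hx
      have hu : IsUnit s := by simpa using hs
      rw [Ideal.unit_mul_mem_iff_mem _ hu] at hsy
      refine Submodule.mem_sup_left ?_
      have := Ideal.mem_map_of_mem (algebraMap O (O ⧸ 𝔭)) hsy
      rwa [Ideal.map_span, ← Set.range_comp] at this
  obtain ⟨Dt, _, _, _, _, hinj, hint, hfin, hfrac⟩ := ka (O ⧸ 𝔭)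
  let _ : Algebra O Dt := ((algebraMap (O ⧸ 𝔭) Dt).comp (algebraMap O (O ⧸ 𝔭))).toAlgebra
  let _ : Algebra R Dt := ((algebraMap O Dt).comp (algebraMap R O)).toAlgebra
  have : IsScalarTower R O Dt := IsScalarTower.of_algebraMap_eq fun _ => rfl
  have hkt : ∀ r, algebraMap O Dt r = 0 ↔ π ∣ r := fun r =>
    (map_eq_zero_iff _ hinj).trans (hker r)
  obtain ⟨W, hW⟩ := hy_sub (hy h1 hkt hHP)
  obtain ⟨D', hD'fin, hW', hemb'⟩ := h2 (O ⧸ 𝔭) Dt W hinj hfrac hinf hemb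
  let _ : Algebra O D' := ((algebraMap (O ⧸ 𝔭) D').comp (algebraMap O (O ⧸ 𝔭))).toAlgebra
  let _ : Algebra R D' := ((algebraMap O D').comp (algebraMap R O)).toAlgebra
  have : IsScalarTower R O D' := IsScalarTower.of_algebraMap_eq fun _ => rfl
  have : IsScalarTower O (O ⧸ 𝔭) D' := IsScalarTower.of_algebraMap_eq fun _ => rfl
  have : Module.Finite O D' := Module.Finite.trans (O ⧸ 𝔭) D'
  have hinj' : Injective (algebraMap (O ⧸ 𝔭) D') := fun x y hxy =>
    hinj (congrArg Subtype.val hxy)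
  have hk' : ∀ r, algebraMap O D' r = 0 ↔ π ∣ r := fun r =>
    (map_eq_zero_iff _ hinj').trans (hker r)
  have hnf' : ¬ IsField D' := fun h => hnf (isField_of_isIntegral_of_isField hinj' h)
  have hHy : Hy R A D' :=
    hW D' { D'.val.toRingHom with commutes' := fun _ => rfl } Subtype.val_injective
      fun w hw => ⟨⟨w, hW' w hw⟩, rfl⟩
  obtain ⟨T, _, _, _, _, _, z, _, hT, hz, hQ⟩ := h3 O D' hd2 hnf'
    (fun h => hπ.ne_zero (h (((hk' π).2 dvd_rfl).trans (map_zero _).symm))) hemb'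
  refine h4 R A O T D' K π z hπ hT hz hQ hk' (fun d => ?_) hHy
  obtain ⟨a, b, hb, e⟩ := hfrac d
  obtain ⟨r, rfl⟩ := hsurj a
  obtain ⟨r', rfl⟩ := hsurj b
  refine ⟨r, r', fun h => hb ((hker r').2 h), Subtype.ext ?_⟩
  rw [Algebra.smul_def]
  exact e

end Pool.Agent.P.MP_46a8f8_ag.GU
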