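import Pool.Agent.P.MP_46a8f8_ag.GU.Su
import Pool.Agent.P.MP_46a8f8_ag.GU.PPb
import Pool.Agent.P.MP_46a8f8_ag.GU.Ch2
import Pool.Agent.P.MP_46a8f8_ag.GU.Mod2
import Pool.Agent.P.MP_46a8f8_ag.GU.Ht1

/-!
A prime of a regular local ring of dimension at most two with matrix units over the residue
field is a norm from an extension with matrix units.
-/

namespace Pool.Agent.P.MP_46a8f8_ag.GU

open TensorProduct Function IsLocalRing

universe u

namespace PPb0P

variable {R A : Type u} [CommRing R] [Ring A] [Algebra R A] {n m : ℕ}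

/-- matrix units over a semilocal principal ideal domain containing the quotient -/
theorem ms (h1 : S_LatS.{u}) {O C : Type u} [CommRing O] [Algebra R O] [CommRing C] [IsDomain C]
    [IsPrincipalIdealRing C] [Finite (MaximalSpectrum C)] [Algebra R C] [Algebra O C]
    [IsScalarTower R O C] {π : O} (hS : Sep R A)
    (hker : ∀ r, algebraMap O C r = 0 ↔ π ∣ r) (h : MPt R A n m π) : MS R A n m C := by
  let F := FractionRing C
  refine h1 R A C F n m hS ?_
  refine h F (F ⊗[R] A) ((algebraMap C F).comp (algebraMap O C))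
    (Algebra.TensorProduct.includeRight (R := R) (A := F) (B := A)).toRingHom
    (fun c => (map_eq_zero_iff _ (IsFractionRing.injective C F)).trans (hker c)) fun r => ?_
  have e : (algebraMap C F).comp (algebraMap O C) (algebraMap R O r) = algebraMap R F r := by
    rw [RingHom.comp_apply, ← IsScalarTower.algebraMap_apply, ← IsScalarTower.algebraMap_apply]
  rw [e, ← IsScalarTower.algebraMap_apply]
  exact (Algebra.TensorProduct.includeRight (R := R) (A := F) (B := A)).commutes r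

/-- matrix units live over a subring containing finitely many elements -/
theorem ms_sub {C : Type u} [CommRing C] [Algebra R C] (hS : Sep R A) (h : MS R A n m C) :
    ∃ W : Finset C, ∀ (C' : Type u) [CommRing C'] [Algebra R C'] (f : C' →ₐ[R] C),
      Injective f → (∀ w ∈ W, ∃ x, f x = w) → MS R A n m C' := by
  classical
  have := hS.free
  have := hS.fin
  obtain ⟨e, e1, e2⟩ := h
  cases subsingleton_or_nontrivial R
  · refine ⟨∅, fun C' _ _ _ _ _ => ?_⟩
    have := Module.subsingleton R (C' ⊗[R] A)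
    refine ⟨fun _ _ => 0, fun _ _ _ _ => Subsingleton.elim _ _, Subsingleton.elim _ _⟩
  let b := Module.finBasis R A
  refine ⟨Finset.univ.image fun p : (Fin n × Fin n) × (Fin m × Fin m) × Fin (Module.finrank R A) =>
    (Algebra.TensorProduct.basis C b).repr (e p.1.1 p.1.2 p.2.1.1 p.2.1.2) p.2.2,
    fun C' _ _ f hf hW => ?_⟩
  have hx : ∀ i j a a' k, ∃ x, f x = (Algebra.TensorProduct.basis C b).repr (e i j a a') k :=
    fun i j a a' k => hW _ (Finset.mem_image.2 ⟨⟨(i, j), (a, a'), k⟩, Finset.mem_univ _, rfl⟩)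
  choose x hx using hx
  have hinj : Injective (mp A f) := fun y z hyz => by
    refine (Algebra.TensorProduct.basis C' b).ext_elem fun i => hf ?_
    rw [← TorHP.repr_mp b f, ← TorHP.repr_mp b f, hyz]
  let Φ : Matrix (Fin m) (Fin m) (C' ⊗[R] A) →+* Matrix (Fin m) (Fin m) (C ⊗[R] A) :=
    (mp A f).toRingHom.mapMatrix
  have hΦ : Injective Φ := fun y z hyz => by
    ext a a'
    exact hinj (congrFun (congrFun hyz a) a')
  let e' : Fin n → Fin n → Matrix (Fin m) (Fin m) (C' ⊗[R] A) := fun i j =>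
    Matrix.of fun a a' => (Algebra.TensorProduct.basis C' b).equivFun.symm (x i j a a')
  have he : ∀ i j, Φ (e' i j) = e i j := fun i j => by
    ext a a'
    change mp A f ((Algebra.TensorProduct.basis C' b).equivFun.symm (x i j a a')) = e i j a a'
    refine (Algebra.TensorProduct.basis C b).ext_elem fun k => ?_
    rw [TorHP.repr_mp b f, ← hx]
    congr 1
    exact congrFun ((Algebra.TensorProduct.basis C' b).equivFun.apply_symm_apply (x i j a a')) k
  refine ⟨e', fun i j k l => hΦ ?_, hΦ ?_⟩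
  · rw [map_mul, he, he, e1]
    split_ifs
    · exact (he i l).symm
    · exact (map_zero Φ).symm
  · rw [map_sum, map_one, ← e2]
    exact Finset.sum_congr rfl fun i _ => he i i

end PPb0P

open PPbP PPb0P in
theorem pPPb0 (h1 : S_LatS.{u}) (h4 : S_PPm0.{u}) : S_PPb0.{u} := by
  intro R A O K _ _ _ _ _ _ _ _ _ _ _ _ _ _ n m π hn hS hd hπ hHP
  classical
  have h2 : S_Ch2.{u} := pCh2
  have h3 : S_Mod2.{u} := pMod2 pHt1 pLP
  let 𝔭 : Ideal O := Ideal.span {π}
  have hp : 𝔭.IsPrime := (Ideal.span_singleton_prime hπ.ne_zero).2 hπ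
  have hp0 : 𝔭 ≠ ⊥ := fun h => hπ.ne_zero (Ideal.span_singleton_eq_bot.1 h)
  have hsurj : Surjective (algebraMap O (O ⧸ 𝔭)) := Ideal.Quotient.mk_surjective
  have hker : ∀ r, algebraMap O (O ⧸ 𝔭) r = 0 ↔ π ∣ r := fun r =>
    Ideal.Quotient.eq_zero_iff_mem.trans Ideal.mem_span_singleton
  by_cases hpm : 𝔭 = maximalIdeal O
  · have hmax : 𝔭.IsMaximal := hpm ▸ inferInstance
    have : IsPrincipalIdealRing (O ⧸ 𝔭) := by
      let _ := Ideal.Quotient.field 𝔭
      infer_instance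
    have : Finite (MaximalSpectrum (O ⧸ 𝔭)) := by
      let _ := Ideal.Quotient.field 𝔭
      infer_instance
    refine h4 R A O O (O ⧸ 𝔭) K n m π π hn hS hπ (fun x y h => h) hπ.ne_zero ⟨hsurj, hker⟩ hker
      (fun d => ?_) (ms h1 hS hker hHP)
    obtain ⟨r, rfl⟩ := hsurj d
    exact ⟨r, 1, hπ.not_dvd_one, one_smul _ _⟩
  obtain ⟨hd2, hq⟩ := dims hd hp0 hpm
  have : IsLocalRing (O ⧸ 𝔭) := IsLocalRing.of_surjective' (algebraMap O (O ⧸ 𝔭)) hsurj
  have hcm : ∀ 𝔫 : Ideal (O ⧸ 𝔭), 𝔫.IsMaximal →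
      𝔫.comap (algebraMap O (O ⧸ 𝔭)) = maximalIdeal O := fun 𝔫 h𝔫 =>
    IsLocalRing.eq_maximalIdeal (Ideal.comap_isMaximal_of_surjective _ hsurj)
  have : Ring.KrullDimLE 1 (O ⧸ 𝔭) := by
    refine Ring.KrullDimLE.mk₁' fun I hI0 hI => ?_
    refine Ideal.isMaximal_of_isIntegral_of_isMaximal_comap (R := O) I ?_
    have a1 : 𝔭 ≤ I.comap (algebraMap O (O ⧸ 𝔭)) := fun r hr => by
      rw [Ideal.mem_comap, (hker r).2 (Ideal.mem_span_singleton.1 hr)]
      exact I.zero_mem
    have a2 : 𝔭 ≠ I.comap (algebraMap O (O ⧸ 𝔭)) := by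
      intro e
      refine hI0 (eq_bot_iff.2 fun x hx => ?_)
      obtain ⟨r, rfl⟩ := hsurj x
      exact (hker r).2 (Ideal.mem_span_singleton.1 (e.ge hx))
    rw [hq (I.comap (algebraMap O (O ⧸ 𝔭))) inferInstance (lt_of_le_of_ne a1 a2)]
    infer_instance
  have hnf : ¬ IsField (O ⧸ 𝔭) := fun h =>
    hpm (IsLocalRing.eq_maximalIdeal (Ideal.Quotient.maximal_of_isField 𝔭 h))
  have hinf : ∀ 𝔫 : Ideal (O ⧸ 𝔭), 𝔫.IsMaximal → Infinite ((O ⧸ 𝔭) ⧸ 𝔫) := by
    intro 𝔫 h𝔫
    have : Infinite (O ⧸ 𝔫.comap (algebraMap O (O ⧸ 𝔭))) := by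
      rw [hcm 𝔫 h𝔫]
      exact inferInstanceAs (Infinite (ResidueField O))
    exact Infinite.of_injective _ (Ideal.quotientMap_injective (I := 𝔫) (f := algebraMap O (O ⧸ 𝔭)))
  have hreg : RegAt O (maximalIdeal O) 2 := by
    have : IsLocalization.AtPrime O (maximalIdeal O) :=
      IsLocalization.self fun x hx => show IsUnit x by simpa using hx
    exact (regAt O O (maximalIdeal O) 2).2 ⟨inferInstance, hd2⟩
  have hemb : Emb (O ⧸ 𝔭) 2 := by
    intro 𝔫 h𝔫
    obtain ⟨-, a, ha, hb⟩ := hreg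
    refine ⟨fun i => algebraMap O (O ⧸ 𝔭) (a i), fun i => ?_, fun x hx => ?_⟩
    · rw [← Ideal.mem_comap, hcm 𝔫 h𝔫]
      exact ha i
    · obtain ⟨y, rfl⟩ := hsurj x
      rw [← Ideal.mem_comap, hcm 𝔫 h𝔫] at hx
      obtain ⟨s, hs, hsy⟩ := hb y hx
      have hu : IsUnit s := by simpa using hs
      rw [Ideal.unit_mul_mem_iff_mem _ hu] at hsy
      refine Submodule.mem_sup_left ?_
      have := Ideal.mem_map_of_mem (algebraMap O (O ⧸ 𝔭)) hsy
      rwa [Ideal.map_span, ← Set.range_comp] at this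
  obtain ⟨Dt, _, _, _, _, hinj, hint, hfin, hfrac⟩ := ka (O ⧸ 𝔭)
  let _ : Algebra O Dt := ((algebraMap (O ⧸ 𝔭) Dt).comp (algebraMap O (O ⧸ 𝔭))).toAlgebra
  let _ : Algebra R Dt := ((algebraMap O Dt).comp (algebraMap R O)).toAlgebra
  have : IsScalarTower R O Dt := IsScalarTower.of_algebraMap_eq fun _ => rfl
  have hkt : ∀ r, algebraMap O Dt r = 0 ↔ π ∣ r := fun r =>
    (map_eq_zero_iff _ hinj).trans (hker r)
  obtain ⟨W, hW⟩ := ms_sub hS (ms h1 hS hkt hHP)
  obtain ⟨D', hD'fin, hW', hemb'⟩ := h2 (O ⧸ 𝔭) Dt W hinj hfrac hinf hemb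
  let _ : Algebra O D' := ((algebraMap (O ⧸ 𝔭) D').comp (algebraMap O (O ⧸ 𝔭))).toAlgebra
  let _ : Algebra R D' := ((algebraMap O D').comp (algebraMap R O)).toAlgebra
  have : IsScalarTower R O D' := IsScalarTower.of_algebraMap_eq fun _ => rfl
  have : IsScalarTower O (O ⧸ 𝔭) D' := IsScalarTower.of_algebraMap_eq fun _ => rfl
  have : Module.Finite O D' := Module.Finite.trans (O ⧸ 𝔭) D'
  have hinj' : Injective (algebraMap (O ⧸ 𝔭) D') := fun x y hxy =>
    hinj (congrArg Subtype.val hxy)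
  have hk' : ∀ r, algebraMap O D' r = 0 ↔ π ∣ r := fun r =>
    (map_eq_zero_iff _ hinj').trans (hker r)
  have hnf' : ¬ IsField D' := fun h => hnf (isField_of_isIntegral_of_isField hinj' h)
  have hHy : MS R A n m D' :=
    hW D' { D'.val.toRingHom with commutes' := fun _ => rfl } Subtype.val_injective
      fun w hw => ⟨⟨w, hW' w hw⟩, rfl⟩
  obtain ⟨T, _, _, _, _, _, z, _, hT, hz, hQ⟩ := h3 O D' hd2 hnf'
    (fun h => hπ.ne_zero (h (((hk' π).2 dvd_rfl).trans (map_zero _).symm))) hemb'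
  refine h4 R A O T D' K n m π z hn hS hπ hT hz hQ hk' (fun d => ?_) hHy
  obtain ⟨a, b, hb, e⟩ := hfrac d
  obtain ⟨r, rfl⟩ := hsurj a
  obtain ⟨r', rfl⟩ := hsurj b
  refine ⟨r, r', fun h => hb ((hker r').2 h), Subtype.ext ?_⟩
  rw [Algebra.smul_def]
  exact e

end Pool.Agent.P.MP_46a8f8_ag.GU
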