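import Pool.Agent.P.MP_46a8f8_ag.GU.Su
import Pool.Agent.P.MP_46a8f8_ag.GU.PPm
import Pool.Agent.P.MP_46a8f8_ag.GU.Fin1
import Pool.Agent.P.MP_46a8f8_ag.GU.ZM
import Pool.Agent.P.MP_46a8f8_ag.GU.Nm
import Pool.Agent.P.MP_46a8f8_ag.GU.Ht1

/-!
A norm from a model of the curve, for matrix units.
-/

namespace Pool.Agent.P.MP_46a8f8_ag.GU

open TensorProduct Function IsLocalRing

universe u

open PPmP in
theorem pPPm0 (h1 : S_Nbh0.{u}) (h2 : S_MUh.{u}) : S_PPm0.{u} := by
  intro R A O T D K _ _ _ _ _ _ _ _ _ _ _ _ _ _ _ _ _ _ _ _ _ _ _ _ _ n m π z hn hs hπ hOT hz hq hk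
    hg hy
  obtain ⟨s0, hiff⟩ := h2 R A n m hn
  have := hs.free
  have := hs.fin
  let : Algebra R T := ((algebraMap O T).comp (algebraMap R O)).toAlgebra
  have hRT : ∀ r, algebraMap R T r = algebraMap O T (algebraMap R O r) := fun _ => rfl
  have : IsScalarTower R T D := IsScalarTower.of_algebraMap_eq fun r => by
    rw [hRT, ← IsScalarTower.algebraMap_apply, ← IsScalarTower.algebraMap_apply]
  have : IsNoetherianRing T := isNoetherian_of_tower O (inferInstance : IsNoetherian O T)
  have : Module.Finite O D :=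
    Module.Finite.of_surjective (IsScalarTower.toAlgHom O T D).toLinearMap hq.1
  have : Finite (MaximalSpectrum D) := finite_maximalSpectrum O D
  obtain ⟨φ', hφ'⟩ := (hiff D).1 hy
  obtain ⟨W, _, _, _, _, _, q, φ, _, _, _, w1, w2, w3⟩ := h1 R (Matrix (Fin m) (Fin m) A) R
    (Matrix (Fin n) (Fin n) R) T D z (algebraMap R T) φ' s0 (IsSMulRegular.of_ne_zero hz) hq
    (by rwa [← IsScalarTower.algebraMap_eq])
  let : Algebra O W := ((algebraMap T W).comp (algebraMap O T)).toAlgebra
  have hOW : ∀ r, algebraMap O W r = algebraMap T W (algebraMap O T r) := fun _ => rfl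
  have : IsScalarTower O T W := IsScalarTower.of_algebraMap_eq hOW
  have hi : Injective (algebraMap O W) := (injective_iff_map_eq_zero _).2 fun r hr => by
    by_contra h
    exact ne_zero_of_flat ((map_ne_zero_iff _ hOT).2 h) hr
  obtain ⟨L, _, _, _, -, l1, l2, l3⟩ := pFin1 pZM pNm pLP O T W D K q (algebraMap T W z) π hπ
    (ne_zero_of_flat hz) w1 w2 hq.1 hi hk hg
  let : Algebra R L := ((algebraMap K L).comp (algebraMap R K)).toAlgebra
  have hRL : ∀ r, algebraMap R L r = algebraMap K L (algebraMap R K r) := fun _ => rfl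
  have hW : MS R A n m W := (hiff W).2 ⟨φ, by rwa [← IsScalarTower.algebraMap_eq] at w3⟩
  refine ⟨L, inferInstance, inferInstance, inferInstance, IsScalarTower.of_algebraMap_eq hRL, l2,
    hW.map ⟨algebraMap W L, fun r => ?_⟩, l3⟩
  change algebraMap W L (algebraMap R W r) = _
  rw [IsScalarTower.algebraMap_apply R T W, hRT, ← hOW, l1, hRL,
    ← IsScalarTower.algebraMap_apply R O K]

end Pool.Agent.P.MP_46a8f8_ag.GU
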