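import Pool.Agent.P.MP_46a8f8_ag.GU.Su
import Pool.Agent.P.MP_46a8f8_ag.GU.PurS
import Pool.Agent.P.MP_46a8f8_ag.GU.RegR
import Pool.Agent.P.MP_46a8f8_ag.GU.Ht1
import Pool.Agent.P.MP_46a8f8_ag.GU.UFD

/-!
Purity for reduced norms over essentially smooth algebras.
-/

namespace Pool.Agent.P.MP_46a8f8_ag.GU

open TensorProduct Function IsLocalRing

universe u

namespace PSNP

theorem npw_of_nhm (h : S_NPN.{u}) {R S A C K : Type u} [CommRing R] [CommRing S] [Algebra R S]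
    [Ring A] [Algebra S A] [Algebra R A] [IsScalarTower R S A] [CommRing C] [Field K]
    [Algebra R K] [Algebra C K] {n m : ℕ} {N : NFam R S A} (hG : GB R S A) (hN : NF n N)
    (hD : IsDomain (K ⊗[R] S)) {π : C} (hn : NHm R A n m K π) : NPw N K m π := by
  obtain ⟨L, _, _, _, _, _, hy, f, v, hf, e⟩ := hn
  exact ⟨v, e ▸ h R S A K L n m N f hG hN hD hy hf⟩

end PSNP

open PSNP in
theorem pPSN (h1 : S_PPa0.{u}) (h2 : S_PPb0.{u}) (h3 : S_NPN.{u}) (h4 : S_PFN.{u}) :
    S_PSN.{u} := by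
  intro R S A B O K _ _ _ _ _ _ _ _ _ _ _ _ _ _ _ _ _ _ _ _ _ n e N hd hG hN hD hinf s μ hs
  have := Algebra.EssFiniteType.isNoetherianRing B O
  obtain ⟨d, he⟩ : ∃ d : ℕ, ringKrullDim B = d :=
    ⟨_, ((isRegularLocalRing_iff B).1 inferInstance).symm⟩
  obtain ⟨m, φ, hφ⟩ := struct B O
  have := RegBP.selfLoc B
  obtain ⟨hR, h𝔓, hreg⟩ := regB regAt regFlat rDom B O m d φ hφ
    ((regAt B B (maximalIdeal B) d).2 ⟨inferInstance, he⟩)
  have : IsDomain O := rDom O
  have := pRegR pHt1 B O m φ hd hφ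
  have := pUFD O
  set 𝔓 := (maximalIdeal B).map (algebraMap B O) with h𝔓def
  let O' := Localization.AtPrime 𝔓
  obtain ⟨hO1, hO2⟩ := (regAt O O' 𝔓 d).1 hreg
  have : UniqueFactorizationMonoid O' := inferInstance
  have : Infinite (ResidueField O') :=
    Infinite.of_injective _ 𝔓.injective_algebraMap_quotient_residueField
  have hK : ∀ x : O, x ≠ 0 → IsUnit (algebraMap O K x) := fun x hx =>
    ((map_ne_zero_iff _ (IsFractionRing.injective O K)).2 hx).isUnit
  have hn : ∀ x : O, x ∉ 𝔓 → x ≠ 0 := fun x hx e => hx (e ▸ 𝔓.zero_mem)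
  let : Algebra O' K := (IsLocalization.lift (M := 𝔓.primeCompl) (g := algebraMap O K)
    fun y => hK y (hn y y.2)).toAlgebra
  have : IsScalarTower O O' K := IsScalarTower.of_algebraMap_eq fun x =>
    (IsLocalization.lift_eq (M := 𝔓.primeCompl) _ x).symm
  have : IsScalarTower R O' K := IsScalarTower.of_algebraMap_eq fun x => by
    rw [IsScalarTower.algebraMap_apply R O O', ← IsScalarTower.algebraMap_apply O O' K,
      ← IsScalarTower.algebraMap_apply]
  have : IsFractionRing O' K :=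
    IsFractionRing.isFractionRing_of_isDomain_of_isLocalization 𝔓.primeCompl O' K
  let f := IsScalarTower.toAlgHom R O O'
  obtain ⟨⟨μ₁, μ₂⟩, hμ⟩ := IsLocalization.surj (nonZeroDivisors O') (μ : K)
  have hf : (IsScalarTower.toAlgHom R O' K).comp f = IsScalarTower.toAlgHom R O K :=
    AlgHom.ext fun x => (IsScalarTower.algebraMap_apply O O' K x).symm
  obtain ⟨v', hv'⟩ := h4 R S A O' K n e N (um f s) μ μ₁ μ₂ hG hN hD
    (nonZeroDivisors.coe_ne_zero μ₂) (by rw [mul_comm]; exact hμ)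
    (by
      change NK N K (mp S _ (mp S f s) * _)
      rw [H90P.mp_mp, hf]
      exact hs)
    fun π k hπ _ hp => npw_of_nhm h3 hG hN hD
      (h2 R A O' K n k π hN.pos hG.sep (by rw [hO2, ← he]; exact hd) hπ hp)
  obtain ⟨⟨a, b⟩, hab⟩ := IsLocalization.surj 𝔓.primeCompl (v' : O')
  have ha : a ∉ 𝔓 := (IsLocalization.AtPrime.isUnit_to_map_iff O' 𝔓 a).1
    (hab ▸ v'.isUnit.mul (IsLocalization.map_units O' b))
  have hG' : (b : O) * a ∉ 𝔓 := fun hh => (h𝔓.mem_or_mem hh).elim b.2 ha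
  let ν : Kˣ := Units.map (algebraMap O' K : O' →* K) v'⁻¹
  have hν : (ν : K) * algebraMap O' K v' = 1 := by
    change algebraMap O' K (v'⁻¹ : O'ˣ) * _ = 1
    rw [← map_mul, Units.inv_mul, map_one]
  have e1 : algebraMap O K a = algebraMap O' K v' * algebraMap O K b := by
    rw [IsScalarTower.algebraMap_apply O O' K, IsScalarTower.algebraMap_apply O O' K b,
      ← map_mul, hab]
  have hi : NK N K (algebraMap K (K ⊗[R] S) (((ν : K) * (μ⁻¹ : Kˣ)) ^ e)) := by
    refine hv'.inv ?_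
    rw [← map_mul, ← mul_pow, mul_mul_mul_comm, Units.mul_inv, mul_comm _ (ν : K), hν, one_mul,
      one_pow, map_one]
  obtain ⟨w, hw⟩ := h4 R S A O K n e N s ν b a hG hN hD (hn a ha)
    (by rw [e1, mul_comm, ← mul_assoc, hν, one_mul])
    (by
      have e2 := hs.mul hi
      rwa [mul_assoc, ← map_mul, ← mul_pow, mul_comm (ν : K), ← mul_assoc, Units.mul_inv,
        one_mul] at e2)
    fun π k hπ hπG hp => by
      have hm : π ∈ maximalIdeal O := hπ.not_isUnit
      obtain ⟨R', _, _, φ', hφ', Q, M, hQ, hQN⟩ := pG1 B O m φ π hφ h𝔓 hm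
        fun hh => hG' (Ideal.mem_of_dvd 𝔓 hπG hh)
      obtain ⟨T, _, _, _, g, g1, g2, g3, g4⟩ := pG2 O R' φ' _ Q M hφ' hm hQ hQN
      exact npw_of_nhm h3 hG hN hD
        (h1 R A O K n k π hG.sep hπ (pG3 pG3t O T _ g hm g1 g2 g3 g4) hp)
  refine ⟨w, ?_⟩
  have e3 := hw.mul hv'
  rwa [← map_mul, ← mul_pow, mul_assoc, ← mul_assoc (ν : K), hν, one_mul] at e3

end Pool.Agent.P.MP_46a8f8_ag.GU
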