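import Pool.Agent.P.MP_46a8f8_ag.GU.Su
import Pool.Agent.P.MP_46a8f8_ag.CoreA
import Pool.Agent.P.MP_46a8f8_ag.CoreB
import Pool.Agent.P.MP_46a8f8_ag.Fac
import Pool.Agent.P.MP_46a8f8_ag.QGeo
import Pool.Agent.P.MP_46a8f8_ag.QLift
import Pool.Agent.P.MP_46a8f8_ag.Struct

/-!
Vanishing on primes not contained in the extension of the maximal ideal of the base, for
separable algebras.
-/

namespace Pool.Agent.P.MP_46a8f8_ag.GU

open TensorProduct Polynomial IsLocalRing Function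

universe u

namespace QVSP

open CoreA in
theorem coreS {R A T D M E : Type u} [CommRing R] [Ring A] [Algebra R A] [CommRing T]
    [Algebra R T] [CommRing D] [Algebra T D] [AddCommGroup M] [Module A M] [Module D M]
    [SMulCommClass A D M] [AddCommGroup E] [Module T E] (π : E →ₛₗ[algebraMap T D] M)
    (hS : Sep R A)
    (h : ∀ (r : R) (m : M), algebraMap R A r • m = algebraMap T D (algebraMap R T r) • m)
    (hsurj : Surjective π)
    (hker : ∀ e, π e = 0 ↔ e ∈ RingHom.ker (algebraMap T D) • (⊤ : Submodule T E))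
    (hlift : ∀ β₀ : M →ₗ[D] M, ∃ β : E →ₗ[T] E, ∀ e, π (β e) = β₀ (π e)) :
    ∃ (k : ℕ) (ρ : A →+* Module.End T (Fin k → E)) (ε : Module.End T (Fin k → E))
      (μ : (Fin k → E) →ₛₗ[algebraMap T D] M),
      (∀ r y, ρ (algebraMap R A r) y = algebraMap R T r • y) ∧ (∀ a, Commute (ρ a) ε) ∧
      Surjective μ ∧ (∀ a y, μ (ρ a y) = a • μ y) ∧ (∀ y, μ (ε y) = μ y) ∧
      ∀ y, μ y = 0 → ε y ∈ RingHom.ker (algebraMap T D) • (⊤ : Submodule T (Fin k → E)) := by
  classical
  have := hS.free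
  have := hS.fin
  obtain ⟨n, a, b, h1, hc⟩ := hS.sep
  obtain ⟨k, ⟨e⟩⟩ : ∃ k : ℕ, Nonempty (Module.Basis (Fin k) R A) :=
    ⟨_, ⟨(Module.Free.chooseBasis R A).reindex (Fintype.equivFin _)⟩⟩
  choose β hβ using fun l : Fin n => hlift (DistribSMul.toLinearMap D M (b l))
  have hβ' : ∀ l x, π (β l x) = b l • π x := fun l x => hβ l x
  let ρ : A →+* Module.End T (Fin k → E) := (Psi T E e).comp (Algebra.lmul R A).toRingHom
  have hρ : ∀ c, ρ c = Psi T E e (LinearMap.mulLeft R c) := fun c => rfl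
  let ε : Module.End T (Fin k → E) :=
    ∑ l, Psi T E e (LinearMap.mulRight R (a l)) * (β l).compLeft (Fin k)
  refine ⟨k, ρ, ε, mu e π, fun r y => ?_, fun c => ?_, fun m => ?_, fun c y => ?_, fun y => ?_,
    fun y hy => ?_⟩
  · funext i
    rw [hρ, Psi_apply, Finset.sum_eq_single i]
    · simp [← Algebra.smul_def]
    · intro j _ hj
      simp [← Algebra.smul_def, Finsupp.single_eq_of_ne hj.symm]
    · simp
  · refine Commute.sum_right _ _ _ fun l _ => Commute.mul_right ?_ ?_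
    · rw [hρ]
      exact (LinearMap.commute_mulLeft_right c (a l)).map (Psi T E e)
    · rw [hρ]
      exact Psi_comm _ _ _
  · obtain ⟨x, rfl⟩ := hsurj m
    refine ⟨fun j => algebraMap R T (e.repr 1 j) • x, ?_⟩
    rw [mu_apply]
    simp only [map_smulₛₗ, ← h, smul_smul]
    rw [← Finset.sum_smul, sum_basis, one_smul]
  · rw [hρ, mu_Psi e π h, mu_apply, Finset.smul_sum]
    simp [mul_smul]
  · simp only [ε, LinearMap.sum_apply, map_sum, Module.End.mul_apply, mu_Psi e π h]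
    rw [Finset.sum_comm, mu_apply]
    refine Finset.sum_congr rfl fun j _ => ?_
    simp only [LinearMap.mulRight_apply, LinearMap.compLeft_apply, comp_apply, hβ', smul_smul]
    rw [← Finset.sum_smul]
    simp only [mul_assoc]
    rw [← Finset.mul_sum, h1, mul_one]
  · have hco : ∀ i, ε y i ∈ RingHom.ker (algebraMap T D) • (⊤ : Submodule T E) := by
      intro i
      rw [← hker]
      have key : ∀ j, ∑ l, algebraMap R A (e.repr (e j * a l) i) * b l =
          ∑ l, algebraMap R A (e.repr (a l) i) * b l * e j := by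
        intro j
        have := congrArg (TensorProduct.lift ((LinearMap.lsmul R A).comp (e.coord i))) (hc (e j))
        simpa [map_sum, Algebra.smul_def, mul_assoc] using this
      simp only [ε, LinearMap.sum_apply, Finset.sum_apply, map_sum, Module.End.mul_apply,
        pi_Psi e π h]
      rw [Finset.sum_comm]
      simp only [LinearMap.mulRight_apply, LinearMap.compLeft_apply, comp_apply, hβ', smul_smul]
      simp only [← Finset.sum_smul, key]
      simp only [Finset.sum_smul, mul_smul]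
      rw [Finset.sum_comm]
      simp only [← Finset.smul_sum]
      rw [mu_apply] at hy
      simp [hy]
    rw [← Finset.univ_sum_single (ε y)]
    refine Submodule.sum_mem _ fun i _ => ?_
    exact Submodule.smul_top_le_comap_smul_top _ (LinearMap.single T (fun _ => E) i) (hco i)

theorem core
    {R A T D M E Γ : Type u} [CommRing R] [IsDomain R] [IsNoetherianRing R] [IsLocalRing R]
    [Ring A] [Algebra R A] [CommRing T] [Algebra R T]
    [Module.Finite R T] [CommRing D] [Nontrivial D] [Algebra T D] [AddCommGroup M] [Module A M]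
    [Module D M] [SMulCommClass A D M] [AddCommGroup E] [Module T E] [Module.Finite T E]
    [CommGroup Γ] (ψ : Inv A Γ) (π : E →ₛₗ[algebraMap T D] M) (g : T) (r₀ : R) (hS : Sep R A)
    (hψ : IsAdd R ψ)
    (hAD : ∀ (r : R) (m : M), algebraMap R A r • m = algebraMap T D (algebraMap R T r) • m)
    (hs : Surjective (algebraMap T D)) (hπ : Surjective π)
    (hker : ∀ e, π e = 0 ↔ e ∈ RingHom.ker (algebraMap T D) • (⊤ : Submodule T E))
    (hβ : ∀ β₀ : M →ₗ[D] M, ∃ β : E →ₗ[T] E, ∀ e, π (β e) = β₀ (π e))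
    (hg : g ∈ RingHom.ker (algebraMap T D))
    (hq : RingHom.ker (algebraMap T D) ≤ Ideal.span {g} ⊔ RingHom.ker (algebraMap T D) ^ 2)
    (hreg : IsSMulRegular E g) (hr₀ : r₀ ≠ 0) (hr : ∀ e : E, algebraMap R T r₀ • e = 0) :
    ψ M = 1 := by
  obtain ⟨k, ρ, ε, μ, a1, a2, a3, a4, a5, a6⟩ := coreS π hS hAD hπ hker hβ
  obtain ⟨N₀, H, hH, hH2, hcl⟩ := coreB R A T D M (Fin k → E) ρ ε μ hs a1 a2 a3 a4 a5 a6
  have : IsNoetherianRing T := isNoetherianRing_alg R T
  have hm1 : ((X - 1) ^ N₀ : D[X]).Monic := by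
    rw [← C_1]
    exact (monic_X_sub_C 1).pow _
  have hco : IsCoprime (X ^ N₀ : D[X]) ((X - 1) ^ N₀) :=
    IsCoprime.pow ⟨1, -1, by ring⟩
  obtain ⟨T₂, _, _, _, σ, f, g', v, w, δ, δ', b1, b2, b3, b4, b5, b6, -, b8⟩ :=
    fac T D H (X ^ N₀) ((X - 1) ^ N₀) hs hH (monic_X_pow _) hm1 hco hH2
  let _ : Algebra R T₂ := ((algebraMap T T₂).comp (algebraMap R T)).toAlgebra
  have : IsScalarTower R T T₂ := IsScalarTower.of_algebraMap_eq fun _ => rfl
  have : Module.Finite R T₂ := Module.Finite.trans T T₂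
  have : IsNoetherianRing T₂ := isNoetherianRing_alg R T₂
  have : Finite (MaximalSpectrum T₂) := finite_maximalSpectrum R T₂
  obtain ⟨N, _, _, _, _, c1, c2, i, j, π', c3, -, c5, c6⟩ := hcl T₂ σ f g' v w δ b1 b2 b3 b4
  set q₂ := RingHom.ker (σ : T₂ →+* D) with hq₂
  have hmem : ∀ z, z ∈ q₂ ↔ σ z = 0 := fun z => Iff.rfl
  have hmap : (RingHom.ker (algebraMap T D)).map (algebraMap T T₂) ≤ q₂ := by
    rw [Ideal.map_le_iff_le_comap]
    intro t ht
    rw [Ideal.mem_comap, hmem, AlgHom.commutes]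
    exact ht
  have d1 : algebraMap T T₂ g ∈ q₂ := hmap (Ideal.mem_map_of_mem _ hg)
  have d2 : q₂ ≤ Ideal.span {algebraMap T T₂ g} ⊔ q₂ ^ 2 := by
    intro z hz
    have e : z = δ' * z + (1 - δ') * z := by ring
    rw [e]
    refine Submodule.add_mem _ ?_ (Ideal.mem_sup_right ?_)
    · have h1 := Ideal.map_mono (f := algebraMap T T₂) hq (b6 z hz)
      rw [Ideal.map_sup, Ideal.map_pow, Ideal.map_span, Set.image_singleton] at h1
      exact sup_le_sup_left (Ideal.pow_right_mono hmap 2) _ h1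
    · rw [pow_two]
      refine Ideal.mul_mem_mul ?_ hz
      rw [hmem, map_sub, map_one, b5, sub_self]
  obtain ⟨t, ht⟩ := hs (b3.unit⁻¹ : Dˣ)
  have d3 : δ * algebraMap T T₂ t - 1 ∈ q₂ := by
    rw [hmem, map_sub, map_mul, AlgHom.commutes, ht, map_one, IsUnit.mul_val_inv, sub_self]
  have hreg' : IsSMulRegular (Fin k → E) g := fun x y hxy =>
    funext fun l => hreg (congrFun hxy l)
  have d4 : ∀ y : N, algebraMap T T₂ g • y = 0 → ∃ l : ℕ, δ ^ l • y = 0 := fun y hy => by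
    obtain ⟨l, hl⟩ := b8 (Fin k → E) g hreg' (i y) (by rw [← map_smul, hy, map_zero])
    exact ⟨l, c3 (by rw [map_smul, hl, map_zero])⟩
  obtain ⟨g₀, e1, e2⟩ := prin q₂ (algebraMap T T₂ g) δ (algebraMap T T₂ t) d1 d2 d3 d4
  have hT : Tors R A N := by
    refine ⟨c1, r₀, hr₀, fun y => c3 ?_⟩
    rw [c2, map_smul, map_zero, IsScalarTower.algebraMap_apply R T T₂, algebraMap_smul]
    induction i y using TensorProduct.induction_on with
    | zero => exact smul_zero _
    | tmul s x =>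
      have : algebraMap R T r₀ • x = 0 := funext fun l => hr (x l)
      rw [← TensorProduct.tmul_smul, this, TensorProduct.tmul_zero]
    | add x y hx hy => rw [smul_add, hx, hy, add_zero]
  refine hψ.coker (sA A N g₀) π' e2 (fun y => ?_) c5 hT rfl
  rw [c6, e1, Submodule.ideal_span_singleton_smul, Submodule.mem_smul_pointwise_iff_exists]
  exact ⟨fun ⟨x, _, hx⟩ => ⟨x, hx⟩, fun ⟨x, hx⟩ => ⟨x, trivial, hx⟩⟩

end QVSP

open QVSP in
theorem pQVS : S_QVS.{u} := by
  intro B R A Γ _ _ _ _ _ _ _ _ _ _ _ _ ψ m φ 𝔭 hE hP hS hψ h𝔭 hht hle M _ _ hM hK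
  obtain ⟨R', _, _, φ', ⟨f1, f2, f3⟩, ⟨Q, N, hQ, hQN⟩, r, hr1, hr2⟩ :=
    qgeo nagata B R m φ 𝔭 hE hP h𝔭 hht hle
  let _ : Algebra R'[X] R := φ'.toAlgebra
  let _ : Algebra R' R := (φ'.comp C).toAlgebra
  have : IsScalarTower R' R'[X] R := IsScalarTower.of_algebraMap_eq fun _ => rfl
  have : Module.Flat R'[X] R := f1
  have : Algebra.FormallyUnramified R'[X] R := f2
  have : Algebra.EssFiniteType R'[X] R := f3
  have : Nontrivial (R ⧸ 𝔭) := Ideal.Quotient.nontrivial_iff.2 h𝔭.ne_top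
  have : IsLocalRing (R ⧸ 𝔭) :=
    IsLocalRing.of_surjective' (Ideal.Quotient.mk 𝔭) Ideal.Quotient.mk_surjective
  have : Algebra.EssFiniteType R'[X] (R ⧸ 𝔭) := Algebra.EssFiniteType.comp R'[X] R (R ⧸ 𝔭)
  have hloc : (maximalIdeal (R ⧸ 𝔭)).comap (Ideal.Quotient.mk 𝔭) = maximalIdeal R :=
    IsLocalRing.eq_maximalIdeal
      (Ideal.comap_isMaximal_of_surjective _ Ideal.Quotient.mk_surjective)
  have hQD : algebraMap R'[X] (R ⧸ 𝔭) Q ^ N ∈
      ((maximalIdeal (R ⧸ 𝔭)).comap (algebraMap R' (R ⧸ 𝔭))).map (algebraMap R' (R ⧸ 𝔭)) := by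
    have e := Ideal.mem_map_of_mem (Ideal.Quotient.mk 𝔭) hQN
    rw [Ideal.map_sup, Ideal.map_quotient_self, bot_sup_eq, Ideal.map_map, ← hloc,
      Ideal.comap_comap, map_pow] at e
    exact e
  obtain ⟨Db, hDb, hDs⟩ := zmt R' (R ⧸ 𝔭) Q N hQ hQD
  have := hS.fin
  let _ : Module R M := Module.compHom M (algebraMap R A)
  have : IsScalarTower R A M := ⟨fun r a m => by rw [Algebra.smul_def, mul_smul]; rfl⟩
  have : Module.Finite R M := Module.Finite.trans A M
  have hTB : Module.IsTorsionBySet R M 𝔭 := fun x a => hK a.1 a.2 x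
  let _ : Module (R ⧸ 𝔭) M := hTB.module
  have hsm : ∀ (a : R) (x : M), Ideal.Quotient.mk 𝔭 a • x = algebraMap R A a • x :=
    fun a x => rfl
  have : IsScalarTower R (R ⧸ 𝔭) M := hTB.isScalarTower
  have : Module.Finite (R ⧸ 𝔭) M := Module.Finite.of_restrictScalars_finite R _ M
  have : SMulCommClass A (R ⧸ 𝔭) M := ⟨fun a d x => by
    obtain ⟨d, rfl⟩ := Ideal.Quotient.mk_surjective d
    rw [hsm, hsm, smul_smul, smul_smul, Algebra.commutes]⟩
  obtain ⟨T, _, _, _, _, _, E, _, _, _, π, g, k1, k2, k3, k4, k5, k6, k7⟩ :=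
    qlift R' R (R ⧸ 𝔭) M Db Ideal.Quotient.mk_surjective hDb hDs
  refine core ψ π g (φ' (C r)) hS hψ (fun a x => ?_) (fun d => ?_) k1 k2 k3 k4 k5 k6
    hr2 (k7 r (Ideal.Quotient.eq_zero_iff_mem.2 hr1))
  · rw [← IsScalarTower.algebraMap_apply]
    exact (hsm a x).symm
  · obtain ⟨d, rfl⟩ := Ideal.Quotient.mk_surjective d
    exact ⟨algebraMap R T d, (IsScalarTower.algebraMap_apply R T (R ⧸ 𝔭) d).symm⟩

end Pool.Agent.P.MP_46a8f8_ag.GU
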