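import Pool.Agent.P.MP_46a8f8_ag.GU.Su

/-!
Matrix units over an algebra over a reduced Artinian ring are glued from the residue fields.
-/

namespace Pool.Agent.P.MP_46a8f8_ag.GU

open TensorProduct

universe u

namespace ResGP

/-- matrix units in a product of rings -/
theorem mu_pi {n : ℕ} {ι : Type u} (M : ι → Type u) [∀ i, Ring (M i)] (h : ∀ i, MU n (M i)) :
    MU n (∀ i, M i) := by
  choose e h1 h2 using h
  refine ⟨fun i j a => e a i j, fun i j k l => ?_, ?_⟩
  · funext a
    rw [Pi.mul_apply, h1]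
    split_ifs <;> rfl
  · funext a
    rw [Finset.sum_apply, h2]
    rfl

/-- an algebra over a reduced Artinian ring is the product of its fibres -/
noncomputable def fib (Z E : Type u) [CommRing Z] [IsArtinianRing Z] [IsReduced Z] [Ring E]
    [Algebra Z E] : E ≃ₐ[Z] ∀ I : MaximalSpectrum Z, (Z ⧸ I.asIdeal) ⊗[Z] E := by
  classical
  haveI : Fintype (MaximalSpectrum Z) := Fintype.ofFinite _
  exact ((Algebra.TensorProduct.rid Z Z E).symm.trans
    ((Algebra.TensorProduct.congr (AlgEquiv.refl : E ≃ₐ[Z] E) (IsArtinianRing.equivPi Z)).trans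
      (Algebra.TensorProduct.piRight Z Z E fun I : MaximalSpectrum Z => Z ⧸ I.asIdeal))).trans
    (AlgEquiv.piCongrRight fun I => Algebra.TensorProduct.comm Z E (Z ⧸ I.asIdeal))

end ResGP

theorem pResG : S_ResG.{u} := by
  intro Z E _ _ _ _ _ n m h
  have h1 := ResGP.mu_pi
    (fun I : MaximalSpectrum Z => Matrix (Fin m) (Fin m) ((Z ⧸ I.asIdeal) ⊗[Z] E))
    fun I => h I.asIdeal I.isMaximal
  have h2 := h1.map (Matrix.piRingEquiv (n := Fin m)
    (β := fun I : MaximalSpectrum Z => (Z ⧸ I.asIdeal) ⊗[Z] E)).symm.toRingHom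
  exact h2.map ((ResGP.fib Z E).symm.toRingEquiv.toRingHom.mapMatrix)

end Pool.Agent.P.MP_46a8f8_ag.GU
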