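import Pool.Agent.P.MP_46a8f8_ag.GU.Su
import Pool.Agent.P.MP_46a8f8_ag.SS

/-!
Package ResN: the residue of a reduced norm over a discrete valuation ring.
-/

namespace Pool.Agent.P.MP_46a8f8_ag.GU

open Function IsLocalRing

universe u

namespace ResNP

theorem ord_prod {D ι : Type*} [CommRing D] [IsDomain D] (a : ι → D) (ha : ∀ i, a i ≠ 0)
    (s : Finset ι) : Ring.ord D (∏ i ∈ s, a i) = ∑ i ∈ s, Ring.ord D (a i) := by
  classical
  induction s using Finset.induction_on with
  | empty => simp
  | insert i s hi ih =>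
    rw [Finset.prod_insert hi, Finset.sum_insert hi,
      Ring.ord_mul' D (mem_nonZeroDivisors_of_ne_zero (ha i)), ih]

/-- the length of a cokernel is the valuation of the determinant -/
theorem len_coker {D M : Type u} [CommRing D] [IsDomain D] [IsDiscreteValuationRing D]
    [AddCommGroup M] [Module D M] [Module.Free D M] [Module.Finite D M] {π : D}
    (hπ : Irreducible π) (k : ℕ) (f : M →ₗ[D] M) (h : Associated (LinearMap.det f) (π ^ k)) :
    Module.length D (M ⧸ LinearMap.range f) = k := by
  classical
  have hi : Injective f := by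
    rw [← LinearMap.ker_eq_bot]
    by_contra hk
    exact (h.ne_zero_iff.2 (pow_ne_zero _ hπ.ne_zero)) (LinearMap.det_eq_zero_iff_ker_ne_bot.2 hk)
  let N := LinearMap.range f
  let e : M ≃ₗ[D] N := LinearEquiv.ofInjective f hi
  let b := Module.Free.chooseBasis D M
  have hr : Module.finrank D N = Module.finrank D M := e.symm.finrank_eq
  let a := Submodule.smithNormalFormCoeffs b hr
  let b' := Submodule.smithNormalFormTopBasis b hr
  let e' : M ≃ₗ[D] N := b'.equiv (Submodule.smithNormalFormBotBasis b hr) (Equiv.refl _)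
  have h1 : Associated (LinearMap.det f) (LinearMap.det (N.subtype ∘ₗ e'.toLinearMap)) :=
    LinearMap.associated_det_comp_equiv N.subtype e e'
  have h2 : LinearMap.toMatrix b' b' (N.subtype ∘ₗ e'.toLinearMap) = Matrix.diagonal a := by
    ext i j
    have : (N.subtype ∘ₗ e'.toLinearMap) (b' j) = a j • b' j := by
      change ((e' (b' j) : N) : M) = _
      rw [b'.equiv_apply]
      exact Submodule.smithNormalFormBotBasis_def b hr j
    rw [LinearMap.toMatrix_apply, this, map_smul, Module.Basis.repr_self, Finsupp.smul_single,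
      smul_eq_mul, mul_one]
    by_cases h : i = j
    · rw [h, Matrix.diagonal_apply_eq, Finsupp.single_eq_same]
    · rw [Matrix.diagonal_apply_ne _ h, Finsupp.single_eq_of_ne h]
  rw [← LinearMap.det_toMatrix b' (N.subtype ∘ₗ e'.toLinearMap), h2, Matrix.det_diagonal] at h1
  have h3 := Ring.ord_eq_of_associated (h1.symm.trans h)
  rw [ord_prod a (Submodule.smithNormalFormCoeffs_ne_zero b hr),
    Ring.ord_pow (mem_nonZeroDivisors_of_ne_zero hπ.ne_zero), Ring.ord_of_irreducible hπ] at h3
  rw [(N.quotientEquivPiSpan b hr).length_eq, Module.length_pi_of_fintype]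
  exact h3.trans (by simp)

variable {D A : Type u} [CommRing D] [Ring A] [Algebra D A]

theorem len_quot [IsDomain D] [IsDiscreteValuationRing D] [Module.Free D A] [Module.Finite D A]
    {π : D} (hπ : Irreducible π) (k : ℕ) (c : A)
    (h : Associated (LinearMap.det (LinearMap.mulRight D c)) (π ^ k)) :
    Module.length D (A ⧸ Submodule.span A {c}) = k := by
  rw [← len_coker hπ k _ h,
    ← (Submodule.Quotient.restrictScalarsEquiv D (Submodule.span A {c})).length_eq]
  refine (Submodule.quotEquivOfEq _ _ ?_).length_eq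
  ext x
  rw [Submodule.restrictScalars_mem, Submodule.mem_span_singleton]
  rfl

/-- a module killed by the maximal ideal of a given length -/
theorem ex_km [IsLocalRing D] [IsNoetherianRing D] (k : ℕ) : ∀ (V : Type u) [AddCommGroup V]
    [Module A V] [Module D V] [IsScalarTower D A V] [Module.Finite D V],
    Module.length D V ≤ k → ∃ (U : Type u) (_ : AddCommGroup U) (_ : Module A U) (_ : Module D U)
      (_ : IsScalarTower D A U) (_ : Module.Finite D U), SSP.Km D U ∧
      Module.length D U = Module.length D V := by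
  induction k with
  | zero =>
    intro V _ _ _ _ _ h
    have : Subsingleton V := Module.length_eq_zero_iff.1 (nonpos_iff_eq_zero.1 h)
    exact ⟨V, _, inferInstance, inferInstance, inferInstance, inferInstance,
      fun _ _ _ => Subsingleton.elim _ _, rfl⟩
  | succ k ih =>
    intro V _ _ _ _ _ h
    let N := SSP.mS D A V
    have : Module.Finite D N := Module.Finite.of_injective (N.subtype.restrictScalars D)
      N.injective_subtype
    have := SSP.finite_quot (R := D) (A := A) (V := V)
    have e : Module.length D V = Module.length D N + Module.length D (V ⧸ N) :=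
      Module.length_eq_add_of_exact (N.subtype.restrictScalars D) (N.mkQ.restrictScalars D)
        N.injective_subtype N.mkQ_surjective (LinearMap.exact_subtype_mkQ N)
    by_cases h0 : Module.length D (V ⧸ N) = 0
    · have h1 : Subsingleton (V ⧸ N) := Module.length_eq_zero_iff.1 h0
      have h2 := SSP.surj_of_mod (R := D) (0 : V →ₗ[A] V) fun y => ⟨0, Subsingleton.elim _ _⟩
      refine ⟨V, _, inferInstance, inferInstance, inferInstance, inferInstance, fun r _ v => ?_, rfl⟩
      obtain ⟨w, rfl⟩ := h2 v
      exact smul_zero r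
    · have h1 : Module.length D N + 1 ≤ (k : ℕ∞) + 1 := by
        refine le_trans ?_ (e ▸ h : _ ≤ ((k + 1 : ℕ) : ℕ∞))
        exact add_le_add le_rfl (Order.one_le_iff_ne_zero.2 h0)
      obtain ⟨U, _, _, _, _, _, hU, hl⟩ := ih N ((ENat.add_le_add_iff_right ENat.one_ne_top).1 h1)
      refine ⟨U × (V ⧸ N), _, inferInstance, inferInstance, inferInstance, inferInstance,
        fun r hr v => Prod.ext (hU r hr _) (SSP.km_quot r hr _), ?_⟩
      rw [Module.length_prod, hl, e]

/-- matrix units from an isomorphism -/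
theorem mu_of {E U Q : Type u} [Ring E] [AddCommGroup U] [Module A U] [AddCommGroup Q] [Module A Q]
    (φ : A →+* E) (ψ : Q →+ E) (q : Q) (hq : ∀ x, ∃ a : A, a • q = x) (h1 : ψ q = 1)
    (hψ : ∀ (a : A) x, ψ (a • x) = φ a * ψ x) {n m : ℕ} (e : (Fin n → U) ≃ₗ[A] (Fin m → Q)) :
    MU n (Matrix (Fin m) (Fin m) E) := by
  let Θ : Module.End A (Fin m → Q) →+ Matrix (Fin m) (Fin m) E :=
    { toFun := fun T => Matrix.of fun i j => ψ (T (Pi.single i q) j)
      map_zero' := by ext i j; simp
      map_add' := fun S T => by ext i j; simp }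
  have hΘ : ∀ T i j, Θ T i j = ψ (T (Pi.single i q) j) := fun _ _ _ => rfl
  have hm : ∀ S T, Θ (T * S) = Θ S * Θ T := fun S T => by
    ext i j
    choose a ha using fun k => hq (S (Pi.single i q) k)
    have e1 : S (Pi.single i q) = ∑ k, a k • Pi.single k q := by
      rw [← Finset.univ_sum_single (S (Pi.single i q))]
      exact Finset.sum_congr rfl fun k _ => by rw [← Pi.single_smul, ha]
    rw [Matrix.mul_apply, hΘ, Module.End.mul_apply, e1, map_sum, Finset.sum_apply, map_sum]
    refine Finset.sum_congr rfl fun k _ => ?_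
    rw [map_smul, Pi.smul_apply, hψ, hΘ, hΘ, ← ha, hψ, h1, mul_one]
  let ε : Fin n → Fin n → Module.End A (Fin n → U) := fun i j =>
    LinearMap.single A (fun _ => U) i ∘ₗ LinearMap.proj j
  have hε : ∀ i j x, ε i j x = Pi.single i (x j) := fun _ _ _ => rfl
  refine ⟨fun i j => Θ (e.conjRingEquiv (ε j i)), fun i j k l => ?_, ?_⟩
  · rw [← hm, ← map_mul]
    split_ifs with h
    · subst h
      congr 2
      exact LinearMap.ext fun x => by rw [Module.End.mul_apply, hε, hε, hε, Pi.single_eq_same]
    · rw [show ε l k * ε j i = 0 from LinearMap.ext fun x => by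
        rw [Module.End.mul_apply, hε, hε, Pi.single_eq_of_ne' h, Pi.single_zero]; rfl,
        map_zero, map_zero]
  · rw [← map_sum, ← map_sum, show ∑ i, ε i i = 1 from LinearMap.ext fun x => by
      rw [LinearMap.sum_apply]; exact Finset.univ_sum_single x, map_one]
    ext i j
    rw [hΘ, Module.End.one_apply]
    by_cases h : i = j
    · rw [h, Pi.single_eq_same, h1, Matrix.one_apply_eq]
    · rw [Pi.single_eq_of_ne' h, map_zero, Matrix.one_apply_ne h]

end ResNP

open ResNP in
theorem pResN : S_ResN.{u} := by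
  intro D A E _ _ _ _ _ _ _ _ n m π c φ _ hπ hA hr hc h0
  let N := Submodule.span A {algebraMap D A π}
  have hfin : ∀ N : Submodule A A, Module.Finite D (A ⧸ N) := fun N =>
    Module.Finite.of_surjective (N.mkQ.restrictScalars D) N.mkQ_surjective
  have l1 := len_quot hπ (m * n) c (by rwa [pow_mul])
  have l2 : Module.length D (A ⧸ N) = (n ^ 2 : ℕ) := len_quot hπ (n ^ 2) _ (by
    have : LinearMap.mulRight D (algebraMap D A π) = π • LinearMap.id :=
      LinearMap.ext fun x => by
        rw [LinearMap.mulRight_apply, ← Algebra.commutes, ← Algebra.smul_def]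
        rfl
    rw [this, LinearMap.det_smul, LinearMap.det_id, mul_one, hr])
  obtain ⟨U, _, _, _, _, _, hU, hl⟩ := ex_km (D := D) (A := A) _ _ l1.le
  have k1 : SSP.Km D (Fin n → U) := fun r hr v => funext fun i => hU r hr _
  have k2 : SSP.Km D (Fin m → A ⧸ N) := fun r hr v => funext fun i => by
    rw [hπ.maximalIdeal_eq, Ideal.mem_span_singleton'] at hr
    obtain ⟨t, rfl⟩ := hr
    obtain ⟨a, ha⟩ := N.mkQ_surjective (v i)
    rw [Pi.smul_apply, ← ha, Submodule.mkQ_apply, ← Submodule.Quotient.mk_smul, Pi.zero_apply,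
      Submodule.Quotient.mk_eq_zero, Submodule.mem_span_singleton]
    exact ⟨t • a, by
      rw [smul_eq_mul, ← Algebra.commutes, ← Algebra.smul_def, smul_smul, mul_comm]⟩
  have l3 : Module.length D (Fin n → U) = Module.length D (Fin m → A ⧸ N) := by
    rw [Module.length_pi_of_fintype, Module.length_pi_of_fintype]
    simp only [hl, l1, l2, Finset.sum_const, Finset.card_univ, Fintype.card_fin, nsmul_eq_mul]
    push_cast
    ring
  obtain ⟨f, hf⟩ := ss D A _ _ hA k1 k2 l3.le
  have hs := SSP.surj_of_inj (f.restrictScalars D) hf k1.length_ne_top l3.ge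
  let _ := Module.compHom E φ
  let φ' : A →ₗ[A] E := ⟨⟨φ, map_add φ⟩, map_mul φ⟩
  let ψ := N.liftQ φ' (by
    rw [Submodule.span_singleton_le_iff_mem]
    exact h0)
  exact mu_of φ ψ.toAddMonoidHom (N.mkQ 1) (fun x => by
    obtain ⟨a, rfl⟩ := N.mkQ_surjective x
    exact ⟨a, by rw [← map_smul, smul_eq_mul, mul_one]⟩) (map_one φ) (fun a x => ψ.map_smul a x)
    (LinearEquiv.ofBijective f ⟨hf, hs⟩)

end Pool.Agent.P.MP_46a8f8_ag.GU
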