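import Pool.Agent.P.MP_46a8f8_ag.GU.Su

/-!
Matrix units over the residue fields from an element of the given reduced norm.
-/

namespace Pool.Agent.P.MP_46a8f8_ag.GU

open TensorProduct Function

universe u

namespace ResOP

variable {R S A : Type u} [CommRing R] [CommRing S] [Algebra R S] [Ring A] [Algebra S A]
  [Algebra R A] [IsScalarTower R S A]

theorem mp_sm {C C' : Type u} [CommRing C] [Algebra R C] [CommRing C'] [Algebra R C']
    (f : C →ₐ[R] C') (c : C ⊗[R] S) :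
    mp A f (GAP.sm R S A C c) = GAP.sm R S A C' (mp S f c) := by
  induction c using TensorProduct.induction_on with
  | zero => simp
  | add x y hx hy => simp only [map_add, hx, hy]
  | tmul o s => rfl

theorem ms (h1 : S_ResQ.{u}) (h2 : S_ResG.{u}) (h3 : S_SetN.{u}) (h4 : S_GBbc.{u})
    {O : Type u} [CommRing O] [IsDomain O] [IsNoetherianRing O] [Algebra R O] {n m : ℕ}
    {N : NFam R S A} {π F : O} {c : O ⊗[R] A} {s : (O ⊗[R] S)ˣ} (hG : GB R S A) (hN : NF n N)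
    (hd : IsDomain (O ⊗[R] S)) (hπ : Prime π) (hF : ¬ π ∣ F)
    (hc : N O c = s * algebraMap O (O ⊗[R] S) (π ^ m * F)) (K : Type u) [Field K] [Algebra R K]
    (j : O →ₐ[R] K) (hj : ∀ r, j r = 0 ↔ π ∣ r) : MS R A n m K := by
  have := hG.fin
  have := hG.et
  letI := GAP.alg R S A O
  obtain ⟨hG', hr⟩ := h4 R S A O hG hd
  obtain ⟨Ω, _, _, Φ, hS, hΦ⟩ := h3 R S A O n N hG hN hd
  have hdet : LinearMap.det (LinearMap.mulRight (O ⊗[R] S) c) = N O c ^ n :=
    hS.inj (by rw [detR _ _ Ω n Φ hS c, hΦ, map_pow])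
  have hass : Associated (LinearMap.det (LinearMap.mulRight (O ⊗[R] S) c))
      (algebraMap O (O ⊗[R] S) (π ^ m * F) ^ n) := by
    rw [hdet, hc]
    exact (associated_unit_mul_left _ _ s.isUnit).pow_pow
  letI := GAP.alg R S A K
  have : IsArtinianRing (K ⊗[R] S) := IsArtinianRing.of_finite K _
  have : IsReduced (K ⊗[R] S) := Algebra.FormallyUnramified.isReduced_of_field K _
  refine h2 (K ⊗[R] S) (K ⊗[R] A) n m fun 𝔫 h𝔫 => ?_
  letI := Ideal.Quotient.field 𝔫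
  refine h1 O (O ⊗[R] S) (O ⊗[R] A) ((K ⊗[R] S) ⧸ 𝔫)
    (((K ⊗[R] S) ⧸ 𝔫) ⊗[K ⊗[R] S] (K ⊗[R] A)) n m π F c
    ((Ideal.Quotient.mk 𝔫).comp (mp S j).toRingHom)
    ((Algebra.TensorProduct.includeRight (R := K ⊗[R] S) (A := (K ⊗[R] S) ⧸ 𝔫)
      (B := K ⊗[R] A)).toRingHom.comp (mp A j).toRingHom) hN.pos hG' (hr.trans hN.rank) hπ hF
    hass (fun z => ?_) fun r => ?_
  · change Algebra.TensorProduct.includeRight (R := K ⊗[R] S) (A := (K ⊗[R] S) ⧸ 𝔫)
      (B := K ⊗[R] A) (mp A j (GAP.sm R S A O z)) = _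
    rw [mp_sm]
    exact AlgHom.commutes _ (mp S j z)
  · change Ideal.Quotient.mk 𝔫 (mp S j (algebraMap O (O ⊗[R] S) r)) = 0 ↔ _
    rw [mp_alg, ← hj]
    exact map_eq_zero ((Ideal.Quotient.mk 𝔫).comp (algebraMap K (K ⊗[R] S)))

end ResOP

theorem pResO (h1 : S_ResQ.{u}) (h2 : S_ResG.{u}) (h3 : S_SetN.{u}) (h4 : S_GBbc.{u}) :
    S_ResO.{u} := by
  intro R S A O _ _ _ _ _ _ _ _ _ _ _ n m N π F c s hG hN hd hπ hF hc K E _ _ _ j φ hj hφ
  letI : Algebra R K := (j.comp (algebraMap R O)).toAlgebra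
  letI : Algebra R E := ((algebraMap K E).comp (algebraMap R K)).toAlgebra'
    fun r x => Algebra.commutes _ x
  have : IsScalarTower R K E := IsScalarTower.of_algebraMap_eq fun _ => rfl
  let j' : O →ₐ[R] K := { j with commutes' := fun _ => rfl }
  let φ' : A →ₐ[R] E := { φ with commutes' := hφ }
  let ψ : K ⊗[R] A →ₐ[R] E := Algebra.TensorProduct.lift (IsScalarTower.toAlgHom R K E) φ'
    fun k a => Algebra.commutes k (φ' a)
  exact MU.map (ResOP.ms h1 h2 h3 h4 hG hN hd hπ hF hc K j' hj) ψ.toRingHom.mapMatrix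

end Pool.Agent.P.MP_46a8f8_ag.GU
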