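import Pool.Agent.P.MP_46a8f8_ag.GU.Su
import Pool.Agent.P.MP_46a8f8_ag.RegB
import Pool.Agent.P.MP_46a8f8_ag.Wed

/-!
Matrix units at a prime of the centre, by localisation.
-/

namespace Pool.Agent.P.MP_46a8f8_ag.GU

open TensorProduct Function IsLocalRing

universe u

namespace ResQP

theorem det_bc {S A : Type u} (D : Type u) [CommRing S] [Ring A] [Algebra S A] [Module.Free S A]
    [Module.Finite S A] [CommRing D] [Algebra S D] (c : A) :
    LinearMap.det (LinearMap.mulRight D ((1 : D) ⊗ₜ[S] c)) =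
      algebraMap S D (LinearMap.det (LinearMap.mulRight S c)) := by
  rw [← LinearMap.det_baseChange]
  congr 1
  ext a
  simp

theorem max_eq {O S : Type u} [CommRing O] [CommRing S] [Algebra O S] [Algebra.Etale O S]
    (𝔫 : Ideal S) [𝔫.IsPrime] {π : O} (h : ∀ r, algebraMap O S r ∈ 𝔫 ↔ π ∣ r) :
    maximalIdeal (Localization.AtPrime 𝔫) =
      Ideal.span {algebraMap S (Localization.AtPrime 𝔫) (algebraMap O S π)} := by
  let L := Localization.AtPrime 𝔫
  have : Algebra.FormallyUnramified S L := Algebra.FormallyUnramified.of_isLocalization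
    𝔫.primeCompl
  have : Algebra.FormallyUnramified O L := Algebra.FormallyUnramified.comp O S L
  have : Algebra.EssFiniteType S L := Algebra.EssFiniteType.of_isLocalization L 𝔫.primeCompl
  have : Algebra.EssFiniteType O L := Algebra.EssFiniteType.comp O S L
  have hmax := RegBP.map_comap_max (C := O) (R := L)
  have hcm : (maximalIdeal L).comap (algebraMap O L) = Ideal.span {π} := by
    have h0 : (maximalIdeal L).comap (algebraMap S L) = 𝔫 :=
      Localization.AtPrime.under_maximalIdeal
    rw [IsScalarTower.algebraMap_eq O S L, ← Ideal.comap_comap, h0]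
    ext r
    rw [Ideal.mem_comap, h, Ideal.mem_span_singleton]
  rw [hcm, Ideal.map_span, Set.image_singleton, IsScalarTower.algebraMap_apply O S L] at hmax
  exact hmax.symm

end ResQP

theorem pResQ (h1 : S_ResN.{u}) : S_ResQ.{u} := by
  intro O S A Z E _ _ _ _ _ _ _ _ _ _ _ n m π F c j φ hn hG hr hπ hF hd hφ hj
  have := hG.dom
  have := hG.fin
  have := hG.freeA
  have := hG.finA
  have := hG.et
  have : IsNoetherianRing S := IsNoetherianRing.of_finite O S
  let 𝔫 := RingHom.ker j
  have : 𝔫.IsPrime := RingHom.ker_isPrime j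
  let D := Localization.AtPrime 𝔫
  have : IsDomain D := IsLocalization.isDomain_localization 𝔫.primeCompl_le_nonZeroDivisors
  have hinj : Injective (algebraMap S D) :=
    IsLocalization.injective D 𝔫.primeCompl_le_nonZeroDivisors
  have hmax : maximalIdeal D = Ideal.span {algebraMap S D (algebraMap O S π)} :=
    ResQP.max_eq 𝔫 hj
  have hπ0 : algebraMap S D (algebraMap O S π) ≠ 0 :=
    (map_ne_zero_iff _ hinj).2 ((map_ne_zero_iff _ hG.inj).2 hπ.ne_zero)
  have h2 : ¬ IsField D := fun h => by
    have h3 := isField_iff_maximalIdeal_eq.1 h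
    rw [hmax, Ideal.span_singleton_eq_bot] at h3
    exact hπ0 h3
  have h4 : (maximalIdeal D).IsPrincipal := ⟨_, hmax⟩
  have : IsDiscreteValuationRing D := ((IsDiscreteValuationRing.TFAE _ h2).out 0 4).2 h4
  have hirr : Irreducible (algebraMap S D (algebraMap O S π)) :=
    (IsDiscreteValuationRing.irreducible_iff_uniformizer _).2 hmax
  have hFu : IsUnit (algebraMap S D (algebraMap O S F)) :=
    IsLocalization.map_units D (⟨algebraMap O S F, fun h => hF ((hj F).1 h)⟩ : 𝔫.primeCompl)
  have hu : ∀ y : 𝔫.primeCompl, IsUnit (j y) := fun y => isUnit_iff_ne_zero.2 y.2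
  let jD : D →+* Z := IsLocalization.lift hu
  have hjD : ∀ s, jD (algebraMap S D s) = j s := IsLocalization.lift_eq hu
  let : Algebra S E := ((algebraMap Z E).comp j).toAlgebra' fun s x => Algebra.commutes _ _
  let f : D →ₐ[S] E := ⟨(algebraMap Z E).comp jD, fun s => congrArg (algebraMap Z E) (hjD s)⟩
  let g : A →ₐ[S] E := ⟨φ, hφ⟩
  let ψ : D ⊗[S] A →ₐ[S] E :=
    Algebra.TensorProduct.lift f g fun x y => Algebra.commutes (jD x) (φ y)
  refine h1 D (D ⊗[S] A) E n m _ ((1 : D) ⊗ₜ[S] c) (ψ : D ⊗[S] A →+* E) hn hirr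
    (azBC S A D hG.az) (by rw [Module.finrank_baseChange, hr]) ?_ ?_
  · rw [ResQP.det_bc]
    refine (hd.map (algebraMap S D)).trans ?_
    rw [map_pow, map_mul, map_mul, map_pow, map_pow]
    exact (associated_mul_unit_left _ _ hFu).pow_pow
  · have e : ψ (algebraMap S D (algebraMap O S π) ⊗ₜ[S] (1 : A)) =
        algebraMap Z E (jD (algebraMap S D (algebraMap O S π))) * φ 1 :=
      Algebra.TensorProduct.lift_tmul _ _ _ _ _
    rw [hjD, (hj π).2 dvd_rfl, map_zero, zero_mul] at e
    exact e

end Pool.Agent.P.MP_46a8f8_ag.GU
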