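import Pool.Agent.P.MP_46a8f8_ag.GU.Su
import Pool.Agent.P.MP_46a8f8_ag.Wed
import Pool.Agent.P.MP_46a8f8_ag.SS

/-!
A splitting over an algebraically closed field which computes the reduced norm.
-/

namespace Pool.Agent.P.MP_46a8f8_ag.GU

open TensorProduct Function

universe u

namespace SetNP

attribute [local instance] GAP.alg

theorem core {R S A C : Type u} [CommRing R] [CommRing S] [Algebra R S] [Ring A] [Algebra S A]
    [Algebra R A] [IsScalarTower R S A] [CommRing C] [Algebra R C] {n : ℕ} {N : NFam R S A}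
    (h : GB R S A) (hN : NF n N) (Ω : Type u) [Field Ω] [IsAlgClosed Ω]
    [Algebra (C ⊗[R] S) Ω] :
    ∃ Φ : C ⊗[R] A →ₐ[C ⊗[R] S] Matrix (Fin n) (Fin n) Ω,
      Submodule.span Ω (Set.range Φ) = ⊤ ∧
        ∀ x, (Φ x).det = algebraMap (C ⊗[R] S) Ω (N C x) := by
  have := h.freeA
  have := h.finA
  have := h.dom
  let _ : Algebra R Ω := ((algebraMap (C ⊗[R] S) Ω).comp (algebraMap R (C ⊗[R] S))).toAlgebra
  let _ : Algebra S Ω := ((algebraMap (C ⊗[R] S) Ω).comp
    (Algebra.TensorProduct.includeRight : S →ₐ[R] C ⊗[R] S).toRingHom).toAlgebra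
  have hS : ∀ s : S, algebraMap S Ω s = algebraMap (C ⊗[R] S) Ω ((1 : C) ⊗ₜ[R] s) := fun s => rfl
  have hR : ∀ r : R, algebraMap R Ω r = algebraMap (C ⊗[R] S) Ω (algebraMap R _ r) :=
    fun r => rfl
  have : IsScalarTower R S Ω := IsScalarTower.of_algebraMap_eq fun r => by
    rw [hS, hR, ← (Algebra.TensorProduct.includeRight : S →ₐ[R] C ⊗[R] S).commutes r]
    rfl
  let f : C →ₐ[R] Ω :=
    { toRingHom := (algebraMap (C ⊗[R] S) Ω).comp Algebra.TensorProduct.includeLeftRingHom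
      commutes' := fun r => rfl }
  have hf : ∀ c : C, f c = algebraMap (C ⊗[R] S) Ω (c ⊗ₜ[R] (1 : S)) := fun c => rfl
  have hfs : ∀ (c : C) (s : S),
      f c * algebraMap S Ω s = algebraMap (C ⊗[R] S) Ω (c ⊗ₜ[R] s) := fun c s => by
    rw [hf, hS, ← map_mul, Algebra.TensorProduct.tmul_mul_tmul, mul_one, one_mul]
  have hev : ∀ c : C ⊗[R] S, evS R S Ω (mp S f c) = algebraMap (C ⊗[R] S) Ω c := fun c => by
    induction c using TensorProduct.induction_on with
    | zero => simp only [map_zero]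
    | add c c' h1 h2 => simp only [map_add, h1, h2]
    | tmul c s => exact hfs c s
  obtain ⟨m, ⟨Ψ⟩⟩ := wed ss Ω (Ω ⊗[S] A) (azBC S A Ω h.az)
  have hm : m = n := by
    have e := Ψ.toLinearEquiv.finrank_eq
    rw [Module.finrank_baseChange, hN.rank, Module.finrank_matrix, Fintype.card_fin,
      Module.finrank_self, mul_one, sq] at e
    exact (Nat.mul_self_inj.1 e).symm
  subst hm
  let φ : C ⊗[R] A →+* Matrix (Fin m) (Fin m) Ω :=
    (Ψ.toAlgHom.toRingHom.comp (ov R S A Ω).toRingHom).comp (mp A f).toRingHom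
  have hφ : ∀ x, φ x = Ψ (ov R S A Ω (mp A f x)) := fun x => rfl
  have hφt : ∀ (c : C) (a : A), φ (c ⊗ₜ[R] a) = Ψ (f c ⊗ₜ[S] a) := fun c a => rfl
  have hc : ∀ c : C ⊗[R] S, φ (algebraMap (C ⊗[R] S) (C ⊗[R] A) c) =
      algebraMap (C ⊗[R] S) (Matrix (Fin m) (Fin m) Ω) c := fun c => by
    induction c using TensorProduct.induction_on with
    | zero => simp only [map_zero]
    | add c c' h1 h2 => simp only [map_add, h1, h2]
    | tmul c s =>
      have e : algebraMap (C ⊗[R] S) (C ⊗[R] A) (c ⊗ₜ[R] s) = c ⊗ₜ[R] algebraMap S A s := rfl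
      have e2 : f c ⊗ₜ[S] algebraMap S A s =
          algebraMap Ω (Ω ⊗[S] A) (algebraMap (C ⊗[R] S) Ω (c ⊗ₜ[R] s)) := by
        rw [← hfs, Algebra.algebraMap_eq_smul_one s, ← TensorProduct.smul_tmul,
          Algebra.TensorProduct.algebraMap_apply, Algebra.smul_def, mul_comm]
        rfl
      rw [e, hφt, e2, Ψ.commutes, ← IsScalarTower.algebraMap_apply]
  refine ⟨{ toRingHom := φ, commutes' := hc }, ?_, fun x => ?_⟩
  · rw [eq_top_iff]
    rintro M -
    obtain ⟨y, rfl⟩ := Ψ.surjective M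
    induction y using TensorProduct.induction_on with
    | zero => rw [map_zero]; exact zero_mem _
    | add y y' h1 h2 => rw [map_add]; exact add_mem h1 h2
    | tmul w a =>
      have e : w ⊗ₜ[S] a = w • (f 1 ⊗ₜ[S] a) := by
        rw [map_one, TensorProduct.smul_tmul', smul_eq_mul, mul_one]
      rw [e, map_smul]
      exact Submodule.smul_mem _ _ (Submodule.subset_span ⟨(1 : C) ⊗ₜ[R] a, rfl⟩)
  · change (φ x).det = _
    rw [hφ, ← hN.det Ω m Ψ, ← hN.nat, hev]

end SetNP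

theorem pSetN (h1 : S_GBbc.{u}) : S_SetN.{u} := by
  intro R S A C _ _ _ _ _ _ _ _ _ n N h hN hd
  let _ := GAP.alg R S A C
  obtain ⟨hb, hr⟩ := h1 R S A C h hd
  obtain ⟨Φ, h2, h3⟩ := SetNP.core (C := C) h hN (AlgebraicClosure (FractionRing (C ⊗[R] S)))
  refine ⟨AlgebraicClosure (FractionRing (C ⊗[R] S)), inferInstance, inferInstance, Φ,
    ⟨?_, hb.freeA, hb.finA, hr.trans hN.rank, h2, hb.az⟩, h3⟩
  rw [IsScalarTower.algebraMap_eq (C ⊗[R] S) (FractionRing (C ⊗[R] S))]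
  exact (algebraMap (FractionRing (C ⊗[R] S)) _).injective.comp (IsFractionRing.injective _ _)

end Pool.Agent.P.MP_46a8f8_ag.GU
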