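import Pool.Agent.P.MP_46a8f8_ag.GU.Su
import Pool.Agent.P.MP_46a8f8_ag.Split
import Pool.Agent.P.MP_46a8f8_ag.Wed
import Pool.Agent.P.MP_46a8f8_ag.SS

/-!
A faithfully flat splitting of an Azumaya algebra over a semilocal Noetherian domain.
-/

namespace Pool.Agent.P.MP_46a8f8_ag.GU

open TensorProduct Function Matrix IsLocalRing

universe u

namespace SplSP

theorem loc {S A : Type u} [CommRing S] [IsNoetherianRing S] [Ring A] [Algebra S A]
    [Module.Free S A] [Module.Finite S A] (hA : Az S A) (m : Ideal S) [m.IsMaximal] :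
    ∃ (O : Type u) (_ : CommRing O) (_ : Algebra S O) (n : ℕ), Module.Flat S O ∧
      m.map (algebraMap S O) ≠ ⊤ ∧ Nonempty (O ⊗[S] A ≃ₐ[O] Matrix (Fin n) (Fin n) O) ∧
      Module.finrank S A = n ^ 2 := by
  let L := Localization.AtPrime m
  obtain ⟨O, _, _, n, hO, ⟨Φ⟩⟩ := split azBC (wed ss) L (L ⊗[S] A) (azBC S A L hA)
  letI : Algebra S O := ((algebraMap L O).comp (algebraMap S L)).toAlgebra
  haveI : IsScalarTower S L O := IsScalarTower.of_algebraMap_eq fun _ => rfl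
  have hm : m.map (algebraMap S O) ≠ ⊤ := by
    rw [IsScalarTower.algebraMap_eq S L O, ← Ideal.map_map,
      Localization.AtPrime.map_eq_maximalIdeal]
    intro h
    apply hO.submodule_ne_top (maximalIdeal.isMaximal L)
    rw [Ideal.smul_top_eq_map, h]
    rfl
  haveI : Nontrivial O := by
    by_contra h
    rw [not_nontrivial_iff_subsingleton] at h
    exact hm (Subsingleton.elim _ _)
  haveI : Nontrivial S := (algebraMap S O).domain_nontrivial
  let Ψ : O ⊗[S] A ≃ₐ[O] Matrix (Fin n) (Fin n) O := (can S A O L).symm.trans Φ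
  refine ⟨O, inferInstance, inferInstance, n, Module.Flat.trans S L O, hm, ⟨Ψ⟩, ?_⟩
  rw [← Module.finrank_baseChange (R := O), Ψ.toLinearEquiv.finrank_eq, Module.finrank_matrix]
  simp [sq]

theorem prod {S A : Type u} [CommRing S] [Ring A] [Algebra S A] {ι : Type u} [Finite ι]
    (O : ι → Type u) [∀ i, CommRing (O i)] [∀ i, Algebra S (O i)] {n : ℕ}
    (Φ : ∀ i, O i ⊗[S] A ≃ₐ[O i] Matrix (Fin n) (Fin n) (O i)) :
    Nonempty ((∀ i, O i) ⊗[S] A ≃ₐ[∀ i, O i] Matrix (Fin n) (Fin n) (∀ i, O i)) := by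
  classical
  haveI := Fintype.ofFinite ι
  let E : (∀ i, O i) ⊗[S] A ≃ₐ[S] Matrix (Fin n) (Fin n) (∀ i, O i) :=
    (Algebra.TensorProduct.comm S _ A).trans <| (Algebra.TensorProduct.piRight S S A O).trans <|
      (AlgEquiv.piCongrRight fun i =>
        (Algebra.TensorProduct.comm S A (O i)).trans ((Φ i).restrictScalars S)).trans
        (Matrix.piAlgEquiv S).symm
  refine ⟨AlgEquiv.ofRingEquiv (f := E.toRingEquiv) fun o => ?_⟩
  ext j k i
  have h : E.toRingEquiv (algebraMap _ _ o) j k i = Φ i (algebraMap _ _ (o i)) j k := rfl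
  rw [h, AlgEquiv.commutes, Matrix.algebraMap_matrix_apply, Matrix.algebraMap_matrix_apply]
  split_ifs <;> rfl

end SplSP

theorem pSplS : S_SplS.{u} := by
  intro S A _ _ _ _ _ _ _ _ hA
  classical
  haveI := Fintype.ofFinite (MaximalSpectrum S)
  have H : ∀ m : MaximalSpectrum S, ∃ (O : Type u) (_ : CommRing O) (_ : Algebra S O),
      Module.Flat S O ∧ m.asIdeal.map (algebraMap S O) ≠ ⊤ ∧
      Nonempty (O ⊗[S] A ≃ₐ[O] Matrix (Fin (Nat.sqrt (Module.finrank S A)))
        (Fin (Nat.sqrt (Module.finrank S A))) O) ∧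
      Module.finrank S A = Nat.sqrt (Module.finrank S A) ^ 2 := by
    intro m
    haveI := m.isMaximal
    obtain ⟨O, _, _, n, h1, h2, h3, h4⟩ := SplSP.loc hA m.asIdeal
    have h5 : Nat.sqrt (Module.finrank S A) = n := by rw [h4, Nat.sqrt_eq']
    exact ⟨O, inferInstance, inferInstance, h1, h2, h5 ▸ h3, h5 ▸ h4⟩
  choose O _ _ h1 h2 h3 h4 using H
  obtain ⟨m0, hm0⟩ := Ideal.exists_maximal S
  haveI : Module.Flat S (∀ m, O m) :=
    Module.Flat.of_linearEquiv (DFinsupp.linearEquivFunOnFintype (R := S) (M := O)).symm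
  refine ⟨∀ m, O m, inferInstance, inferInstance, _, ⟨fun m hm h => h2 ⟨m, hm⟩ ?_⟩,
    SplSP.prod O fun m => (h3 m).some, h4 ⟨m0, hm0⟩⟩
  rw [Ideal.smul_top_eq_map] at h
  have h5 : m.map (algebraMap S (∀ m, O m)) = ⊤ :=
    (Ideal.eq_top_iff_one _).2 (show (1 : ∀ m, O m) ∈ Submodule.restrictScalars S
      (m.map (algebraMap S (∀ m, O m))) from h ▸ trivial)
  have h6 := congrArg (Ideal.map (Pi.evalRingHom O ⟨m, hm⟩)) h5
  rw [Ideal.map_map, Ideal.map_top] at h6
  exact h6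

end Pool.Agent.P.MP_46a8f8_ag.GU
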