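import Pool.Agent.P.MP_46a8f8_ag.GU.Su

/-!
Symmetric elements of a minimal symmetric corner are zero or invertible.
-/

namespace Pool.Agent.P.MP_46a8f8_ag.GU

open Polynomial

universe u

namespace SyUP

set_option linter.unusedSectionVars false

variable {k E : Type u} [Field k] [Ring E] [Algebra k E] [StarRing E] [SA k E]

theorem star_sm (c : k) (x : E) : star (c • x) = c • star x := by
  rw [Algebra.smul_def, star_mul, SA.st (R := k) (A := E) c, Algebra.smul_def, Algebra.commutes]

theorem star_aeval {s : E} (hs : star s = s) (P : k[X]) : star (aeval s P) = aeval s P := by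
  induction P using Polynomial.induction_on' with
  | add p q hp hq => rw [map_add, star_add, hp, hq]
  | monomial n a =>
    rw [aeval_monomial, ← Algebra.smul_def, star_sm, star_pow, hs]

/-- the algebra is regular -/
theorem reg (k : Type u) {E : Type u} [Field k] [Ring E] [Algebra k E] [StarRing E] [SA k E]
    (s : E) : ∃ y : E, s * y * s = s := by
  let V : Submodule E E := Submodule.span E {s}
  obtain ⟨f, hf⟩ := LinearMap.exists_leftInverse_of_injective (K := k)
    (V.subtype.restrictScalars k) (LinearMap.ker_eq_bot.2 Subtype.val_injective)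
  obtain ⟨g, hg⟩ := (SA.toSep k E).extend (V := E) (W := V) V.subtype LinearMap.id f
    fun v => LinearMap.congr_fun hf v
  obtain ⟨y, hy⟩ := Submodule.mem_span_singleton.1 (g 1).2
  refine ⟨y, ?_⟩
  have h1 := hg ⟨s, Submodule.mem_span_singleton_self s⟩
  have h2 : g s = s • g 1 := by rw [← map_smul, smul_eq_mul, mul_one]
  have h3 : ((g s : V) : E) = s := congrArg Subtype.val h1
  rw [h2, Submodule.coe_smul, ← hy, smul_eq_mul, smul_eq_mul] at h3
  rw [mul_assoc, h3]

variable (k) in
theorem fit (s : E) : ∃ (m : ℕ) (P : k[X]), s ^ m = s ^ (m + 1) * aeval s P := by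
  have : Module.Finite k E := SA.fin
  have hi : IsIntegral k s := Algebra.IsIntegral.isIntegral s
  obtain ⟨Q, hQ, hd⟩ := exists_eq_pow_rootMultiplicity_mul_and_not_dvd (minpoly k s)
    (minpoly.ne_zero hi) 0
  simp only [map_zero, sub_zero] at hQ hd
  have hc : Q.coeff 0 ≠ 0 := fun h => hd (X_dvd_iff.2 h)
  set m := rootMultiplicity 0 (minpoly k s)
  refine ⟨m, C (-(Q.coeff 0)⁻¹) * Q.divX, ?_⟩
  have h1 : s ^ m * (s * aeval s Q.divX + algebraMap k E (Q.coeff 0)) = 0 := by
    have h2 := minpoly.aeval k s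
    rw [hQ] at h2
    conv at h2 => rw [← X_mul_divX_add Q]
    simpa only [map_mul, map_pow, map_add, aeval_X, aeval_C] using h2
  rw [mul_add, ← Algebra.commutes, ← Algebra.smul_def, ← mul_assoc, ← pow_succ] at h1
  rw [map_mul, aeval_C, ← Algebra.smul_def, mul_smul_comm, eq_neg_of_add_eq_zero_left h1,
    smul_neg, neg_smul, neg_neg, smul_smul, inv_mul_cancel₀ hc, one_smul]

theorem cn_mul {e a b : E} (ha : Cn e a) (hb : Cn e b) : Cn e (a * b) :=
  ⟨by rw [← mul_assoc, ha.1], by rw [mul_assoc, hb.2]⟩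

theorem cn_add {e a b : E} (ha : Cn e a) (hb : Cn e b) : Cn e (a + b) :=
  ⟨by rw [mul_add, ha.1, hb.1], by rw [add_mul, ha.2, hb.2]⟩

theorem cn_sub {e a b : E} (ha : Cn e a) (hb : Cn e b) : Cn e (a - b) :=
  ⟨by rw [mul_sub, ha.1, hb.1], by rw [sub_mul, ha.2, hb.2]⟩

theorem cn_sm {e a : E} (c : k) (ha : Cn e a) : Cn e (c • a) :=
  ⟨by rw [mul_smul_comm, ha.1], by rw [smul_mul_assoc, ha.2]⟩

theorem half (x : E) : (2 : k)⁻¹ • (x + x) = x := by
  have h2 : (2 : k) ≠ 0 := (SA.two (R := k) (A := E)).ne_zero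
  rw [← two_smul k x, smul_smul, inv_mul_cancel₀ h2, one_smul]

theorem half' (x : E) : (2 : k)⁻¹ • x + (2 : k)⁻¹ • x = x := by
  rw [← smul_add, half]

/-- a symmetric element of square zero vanishes -/
theorem sq0 (k : Type u) {E : Type u} [Field k] [Ring E] [Algebra k E] [StarRing E] [SA k E]
    {e s : E} (he : star e = e) (hee : e * e = e)
    (hmin : ∀ p, star p = p → p * p = p → Cn e p → p = 0 ∨ p = e) (hs : star s = s)
    (hc : Cn e s) (hss : s * s = 0) : s = 0 := by
  obtain ⟨y₀, hy₀⟩ := reg k s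
  have hy₀' : s * star y₀ * s = s := by
    have := congrArg star hy₀
    rwa [star_mul, star_mul, hs, ← mul_assoc] at this
  obtain ⟨y, hy, hcy, hsy⟩ : ∃ y : E, star y = y ∧ Cn e y ∧ s * y * s = s := by
    refine ⟨(2 : k)⁻¹ • (e * (y₀ + star y₀) * e), ?_, cn_sm _ ⟨?_, ?_⟩, ?_⟩
    · rw [star_sm, star_mul, star_mul, he, star_add, star_star, add_comm, mul_assoc]
    · rw [← mul_assoc, ← mul_assoc, hee]
    · rw [mul_assoc, hee]
    · rw [mul_smul_comm, smul_mul_assoc, ← mul_assoc, ← mul_assoc, hc.2, mul_assoc _ e, hc.1,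
        mul_add, add_mul, hy₀, hy₀', half]
  have hss' : ∀ x, s * (s * x) = 0 := fun x => by rw [← mul_assoc, hss, zero_mul]
  have hsy' : s * (y * s) = s := by rw [← mul_assoc, hsy]
  have hsy'' : ∀ x, s * (y * (s * x)) = s * x := fun x => by
    rw [← mul_assoc, ← mul_assoc, hsy]
  have hw := hmin (s * y + y * s - s * (y * (y * s)))
    (by simp only [star_sub, star_add, star_mul, hs, hy, mul_assoc, add_comm])
    (by
      simp only [mul_add, add_mul, mul_sub, sub_mul, mul_assoc, hss', hsy', hsy'', mul_zero]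
      abel)
    (cn_sub (cn_add (cn_mul hc hcy) (cn_mul hcy hc)) (cn_mul hc (cn_mul hcy (cn_mul hcy hc))))
  rcases hw with hw | hw
  · have := congrArg (· * s) hw
    simpa only [add_mul, sub_mul, mul_assoc, hss, hsy', mul_zero, add_zero, sub_zero, zero_mul]
      using this
  obtain ⟨z, hz, hcz, hsz⟩ : ∃ z : E, star z = z ∧ Cn e z ∧ s * z + z * s = e := by
    refine ⟨y - (2 : k)⁻¹ • (s * (y * y) + y * (y * s)), ?_,
      cn_sub hcy (cn_sm _ (cn_add (cn_mul hc (cn_mul hcy hcy)) (cn_mul hcy (cn_mul hcy hc)))), ?_⟩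
    · simp only [star_sub, star_sm, star_add, star_mul, hs, hy, mul_assoc, add_comm]
    · rw [← hw]
      simp only [mul_sub, sub_mul, mul_smul_comm, smul_mul_assoc, mul_add, add_mul, mul_assoc,
        hss, hss', mul_zero, zero_add, add_zero]
      have := half' (k := k) (s * (y * (y * s)))
      generalize (2 : k)⁻¹ • (s * (y * (y * s))) = a at this ⊢
      rw [← this]
      abel
  have h1 : s * z = e - z * s := eq_sub_of_add_eq hsz
  have h1' : ∀ x, s * (z * x) = e * x - z * (s * x) := fun x => by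
    rw [← mul_assoc, h1, sub_mul, mul_assoc]
  have hez : ∀ x, e * (z * x) = z * x := fun x => by rw [← mul_assoc, hcz.1]
  have hze : ∀ x, z * (e * x) = z * x := fun x => by rw [← mul_assoc, hcz.2]
  have hcm : s * (z * z) = z * (z * s) := by
    rw [h1', h1, mul_sub, hcz.1, hcz.2]
    abel
  obtain ⟨j, hj, hcj, hjj, hsj⟩ : ∃ j : E, star j = j ∧ Cn e j ∧ j * j = e ∧ s * j + j * s = e := by
    refine ⟨z + s - z * (z * s), ?_, cn_sub (cn_add hcz hc) (cn_mul hcz (cn_mul hcz hc)), ?_, ?_⟩
    · simp only [star_sub, star_add, star_mul, hs, hz, mul_assoc, hcm]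
    · simp only [mul_add, add_mul, mul_sub, sub_mul, mul_assoc, h1, h1', hss, hss', hez, hze,
        hc.1, hcz.1, hcz.2, mul_zero]
      abel
    · simp only [mul_add, add_mul, mul_sub, sub_mul, mul_assoc, h1, h1', hss, hss', hez,
        hc.1, mul_zero]
      abel
  have hp := hmin ((2 : k)⁻¹ • (e + j)) (by rw [star_sm, star_add, he, hj])
    (by
      rw [smul_mul_assoc, mul_smul_comm]
      congr 1
      rw [mul_add, add_mul, add_mul, hee, hcj.1, hcj.2, hjj, add_comm j e, half])
    (cn_sm _ (cn_add ⟨hee, hee⟩ hcj))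
  have hfin : e * e = 0 := by
    have h3 := half' (k := k) (e + j)
    rcases hp with hp | hp
    · rw [hp, add_zero] at h3
      have h4 : j = -e := (neg_eq_of_add_eq_zero_right h3.symm).symm
      rw [h4, mul_neg, neg_mul, hc.1, hc.2] at hsj
      rw [← hsj]
      simp only [mul_add, add_mul, mul_neg, neg_mul, hss, neg_zero, add_zero]
    · rw [hp] at h3
      have h4 : j = e := (add_left_cancel h3).symm
      rw [h4, hc.1, hc.2] at hsj
      rw [← hsj]
      simp only [mul_add, add_mul, hss, add_zero]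
  rw [← hc.1, ← hee, hfin, zero_mul]

theorem nil0 (k : Type u) {E : Type u} [Field k] [Ring E] [Algebra k E] [StarRing E] [SA k E]
    {e : E} (he : star e = e) (hee : e * e = e)
    (hmin : ∀ p, star p = p → p * p = p → Cn e p → p = 0 ∨ p = e) (i : ℕ) :
    ∀ s : E, star s = s → Cn e s → s ^ (2 ^ i) = 0 → s = 0 := by
  induction i with
  | zero => intro s _ _ h; simpa using h
  | succ i ih =>
    intro s hs hc h
    refine sq0 k he hee hmin hs hc (ih (s * s) (by rw [star_mul, hs]) (cn_mul hc hc) ?_)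
    rw [← sq, ← pow_mul, ← pow_succ', h]

end SyUP

open SyUP in
theorem pSyU : S_SyU.{u} := by
  intro k E _ _ _ _ _ e he hee hmin s hs hc
  obtain ⟨m, P, hm⟩ := fit k s
  have ht : star (aeval s P) = aeval s P := star_aeval hs P
  have hst : Commute s (aeval s P) := by
    have := (Commute.all X P).map (aeval s)
    rwa [aeval_X] at this
  generalize aeval s P = t at hm ht hst
  have h1 : ∀ i, s ^ (m + 1) = s ^ (m + 1 + i) * t ^ i := by
    intro i
    induction i with
    | zero => simp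
    | succ i ih =>
      have h2 : s ^ (m + 1 + i) = s ^ (m + 1 + (i + 1)) * t := by
        have h3 := congrArg (s ^ (i + 1) * ·) hm
        simp only [← mul_assoc, ← pow_add] at h3
        rw [show m + 1 + i = i + 1 + m by ring, show m + 1 + (i + 1) = i + 1 + (m + 1) by ring, h3]
      rw [ih, h2, mul_assoc, ← pow_succ']
  have hcm : Commute (s ^ (m + 1)) (t ^ (m + 1)) := hst.pow_pow _ _
  have h2 : s ^ (m + 1) * (s ^ (m + 1) * t ^ (m + 1)) = s ^ (m + 1) := by
    rw [← mul_assoc, ← pow_add, ← h1]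
  have hp := hmin (s ^ (m + 1) * t ^ (m + 1))
    (by rw [star_mul, star_pow, star_pow, hs, ht, hcm.eq])
    (by
      calc s ^ (m + 1) * t ^ (m + 1) * (s ^ (m + 1) * t ^ (m + 1))
          = t ^ (m + 1) * (s ^ (m + 1) * (s ^ (m + 1) * t ^ (m + 1))) := by
            rw [← mul_assoc (t ^ (m + 1)), ← hcm.eq]
        _ = _ := by rw [h2, hcm.eq])
    ⟨by rw [← mul_assoc, pow_succ' s, ← mul_assoc, hc.1],
      by rw [hcm.eq, mul_assoc, pow_succ s, mul_assoc, hc.2]⟩
  rcases hp with hp | hp
  · left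
    rw [hp, mul_zero] at h2
    exact nil0 k he hee hmin (m + 1) s hs hc
      (pow_eq_zero_of_le Nat.lt_two_pow_self.le h2.symm)
  · right
    have h3 : s * (s ^ m * t ^ (m + 1)) = e := by rw [← mul_assoc, ← pow_succ', hp]
    have h4 : s ^ m * t ^ (m + 1) * s = e := by
      rw [mul_assoc, ← (hst.pow_right (m + 1)).eq, ← mul_assoc, ← pow_succ, hp]
    refine ⟨e * (s ^ m * t ^ (m + 1)) * e, ⟨?_, ?_⟩, ?_, ?_⟩
    · rw [← mul_assoc, ← mul_assoc, hee]
    · rw [mul_assoc, hee]
    · rw [← mul_assoc, ← mul_assoc, hc.2, h3, hee]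
    · rw [mul_assoc, hc.1, mul_assoc, h4, hee]

end Pool.Agent.P.MP_46a8f8_ag.GU
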