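import Pool.Agent.P.MP_46a8f8_ag.GU.Su

/-!
Torsors under the group of pairs `(a, t)` with reduced norm of `a` equal to `t ^ e`.
-/

namespace Pool.Agent.P.MP_46a8f8_ag.GU

open TensorProduct Function IsLocalRing

universe u

namespace TorDP

section comp

variable {R A T T' : Type u} [CommRing R] [Ring A] [Algebra R A] [CommRing T] [Algebra R T]
  [CommRing T'] [Algebra R T']

variable (R A T) in
/-- the first projection as a map of rings -/
noncomputable def p1 : T ⊗[R] (A × R) →ₐ[T] T ⊗[R] A :=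
  Algebra.TensorProduct.map (AlgHom.id T T) (AlgHom.fst R A R)

variable (R A T) in
/-- the second projection as a map of rings -/
noncomputable def p2 : T ⊗[R] (A × R) →ₐ[T] T ⊗[R] R :=
  Algebra.TensorProduct.map (AlgHom.id T T) (AlgHom.snd R A R)

variable (R T) in
/-- the map `T ⊗ R → T` as a map of rings -/
noncomputable def un : T ⊗[R] R →ₐ[T] T := Algebra.TensorProduct.rid R T T

variable (R A T) in
/-- the second coordinate -/
noncomputable def p3 : T ⊗[R] (A × R) →ₐ[T] T := (un R T).comp (p2 R A T)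

theorem p1_tmul (t : T) (x : A × R) : p1 R A T (t ⊗ₜ[R] x) = t ⊗ₜ[R] x.1 := rfl

theorem p2_tmul (t : T) (x : A × R) : p2 R A T (t ⊗ₜ[R] x) = t ⊗ₜ[R] x.2 := rfl

theorem un_tmul (t : T) (r : R) : un R T (t ⊗ₜ[R] r) = r • t := by
  simp [un]

theorem p3_tmul (t : T) (x : A × R) : p3 R A T (t ⊗ₜ[R] x) = x.2 • t := un_tmul t x.2

theorem fst_eq (g : T ⊗[R] (A × R)) : fstT g = p1 R A T g := by
  unfold fstT onT
  induction g using TensorProduct.induction_on with
  | zero => simp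
  | tmul t x => rfl
  | add x y hx hy => rw [map_add, map_add, hx, hy]

theorem snd_eq (g : T ⊗[R] (A × R)) : sndT g = p3 R A T g := by
  unfold sndT unT onT
  induction g using TensorProduct.induction_on with
  | zero => simp
  | tmul t x => rw [p3_tmul, LinearMap.lTensor_tmul, TensorProduct.rid_tmul]; rfl
  | add x y hx hy => rw [map_add, map_add, map_add, hx, hy]

theorem p1_mp (f : T →ₐ[R] T') (g : T ⊗[R] (A × R)) :
    p1 R A T' (mp (A × R) f g) = mp A f (p1 R A T g) := by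
  induction g using TensorProduct.induction_on with
  | zero => simp
  | tmul t x => rfl
  | add x y hx hy => simp only [map_add, hx, hy]

theorem p2_mp (f : T →ₐ[R] T') (g : T ⊗[R] (A × R)) :
    p2 R A T' (mp (A × R) f g) = mp R f (p2 R A T g) := by
  induction g using TensorProduct.induction_on with
  | zero => simp
  | tmul t x => rfl
  | add x y hx hy => simp only [map_add, hx, hy]

theorem un_mp (f : T →ₐ[R] T') (x : T ⊗[R] R) : un R T' (mp R f x) = f (un R T x) := by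
  induction x using TensorProduct.induction_on with
  | zero => simp
  | tmul t r => rw [H90P.mp_tmul, un_tmul, un_tmul, map_smul]
  | add x y hx hy => simp only [map_add, hx, hy]

theorem p3_mp (f : T →ₐ[R] T') (g : T ⊗[R] (A × R)) :
    p3 R A T' (mp (A × R) f g) = f (p3 R A T g) := by
  change un R T' (p2 R A T' _) = f (un R T (p2 R A T g))
  rw [p2_mp, un_mp]

/-- the element with given components -/
noncomputable def pair (x : T ⊗[R] A) (t : T) : T ⊗[R] (A × R) :=
  (LinearMap.inl R A R).lTensor T x + t ⊗ₜ[R] ((0 : A), (1 : R))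

theorem p1_pair (x : T ⊗[R] A) (t : T) : p1 R A T (pair x t) = x := by
  rw [pair, map_add, p1_tmul, tmul_zero, add_zero]
  induction x using TensorProduct.induction_on with
  | zero => simp
  | tmul t x => rfl
  | add x y hx hy => rw [map_add, map_add, hx, hy]

theorem p3_pair (x : T ⊗[R] A) (t : T) : p3 R A T (pair x t) = t := by
  have h : p3 R A T ((LinearMap.inl R A R).lTensor T x) = 0 := by
    induction x using TensorProduct.induction_on with
    | zero => simp
    | tmul t x => rw [LinearMap.lTensor_tmul, p3_tmul]; simp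
    | add x y hx hy => rw [map_add, map_add, hx, hy, add_zero]
  rw [pair, map_add, h, p3_tmul, zero_add, one_smul]

theorem pair_eq (g : T ⊗[R] (A × R)) : pair (p1 R A T g) (p3 R A T g) = g := by
  unfold pair
  induction g using TensorProduct.induction_on with
  | zero => simp
  | tmul t x =>
    rw [p1_tmul, p3_tmul, LinearMap.lTensor_tmul, smul_tmul, ← tmul_add]
    congr 1
    ext <;> simp
  | add x y hx hy =>
    rw [map_add, map_add, map_add, add_tmul, add_add_add_comm, hx, hy]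

theorem ext2 {g g' : T ⊗[R] (A × R)} (h1 : p1 R A T g = p1 R A T g')
    (h2 : p3 R A T g = p3 R A T g') : g = g' := by
  rw [← pair_eq g, h1, h2, pair_eq]

theorem unit_pair (x : (T ⊗[R] A)ˣ) (t : Tˣ) : IsUnit (pair (x : T ⊗[R] A) (t : T)) := by
  refine ⟨⟨pair (x : T ⊗[R] A) (t : T), pair ((x⁻¹ : (T ⊗[R] A)ˣ) : T ⊗[R] A) ((t⁻¹ : Tˣ) : T),
    ext2 ?_ ?_, ext2 ?_ ?_⟩, rfl⟩
  · rw [map_mul, p1_pair, p1_pair, map_one, Units.mul_inv]
  · rw [map_mul, p3_pair, p3_pair, map_one, Units.mul_inv]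
  · rw [map_mul, p1_pair, p1_pair, map_one, Units.inv_mul]
  · rw [map_mul, p3_pair, p3_pair, map_one, Units.inv_mul]

end comp

theorem rk_self (R : Type u) [CommRing R] [Nontrivial R] : Rk R R := by
  intro X Y hX hY h
  have := hX.1
  have := hX.2
  have := hY.1
  have := hY.2
  refine ⟨LinearEquiv.ofFinrankEq X.M Y.M h, fun a m => ?_⟩
  have h1 : X.ρ a m = a • m := X.alg a m
  have h2 : ∀ y, Y.ρ a y = a • y := Y.alg a
  rw [h1, h2, map_smul]

variable {R S A : Type u} [CommRing R] [CommRing S] [Algebra R S] [Ring A] [Algebra S A]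
  [Algebra R A] [IsScalarTower R S A] {n e : ℕ} {N : NFam R S A}

theorem mem_iff (h : NF n N) {T : Type u} [CommRing T] [Algebra R T] (g : T ⊗[R] (A × R)) :
    NrdPow R S A e T g ↔
      IsUnit g ∧ N T (p1 R A T g) = algebraMap T (T ⊗[R] S) (p3 R A T g ^ e) := by
  rw [← fst_eq, ← snd_eq, ← h.nrdIs]
  rfl

theorem grp (h : NF n N) : Grp (NrdPow R S A e) where
  one T _ _ := (mem_iff h 1).2 ⟨isUnit_one, by simp only [map_one, one_pow]⟩
  mul T _ _ g g' hg hg' := by
    rw [mem_iff h] at hg hg' ⊢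
    refine ⟨hg.1.mul hg'.1, ?_⟩
    rw [map_mul, map_mul, map_mul, hg.2, hg'.2, mul_pow, map_mul]
  map T T' _ _ _ _ f g hg := by
    rw [mem_iff h] at hg ⊢
    refine ⟨hg.1.map _, ?_⟩
    rw [p1_mp, p3_mp, ← h.nat, hg.2, mp_alg, map_pow]

end TorDP

open TorDP TorHP in
theorem pTorD (h1 : S_TorG.{u}) (h2 : S_RkS.{u}) : S_TorD.{u} := by
  intro R S A K O _ _ _ _ _ _ _ _ _ _ _ _ _ _ n e N hB hN hF hT hK
  obtain ⟨p₀⟩ := hK
  obtain ⟨c, hc, hm, hfin⟩ := h1 R (A × R) O _ (grp hN) hT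
  have := hT.1
  have := hB.sep.free
  have := hB.sep.fin
  have := hB.free
  have := hB.fin
  have hinj : Injective (algebraMap R O) := FaithfulSMul.algebraMap_injective R O
  obtain ⟨z, hz⟩ := TorHP.h90 (fun T _ _ p q => p1 R A T (c T p q)) (h2 R S A hB)
    (fun T T' _ _ _ _ f p q => by rw [← p1_mp, hc.nat])
    (fun T _ _ p => by rw [hc.one, map_one])
    (fun T _ _ p q r => by rw [← map_mul, hc.mul])
  obtain ⟨t', ht'⟩ := TorHP.h90 (fun T _ _ p q => p2 R A T (c T p q)) (rk_self R)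
    (fun T T' _ _ _ _ f p q => by rw [← p2_mp, hc.nat])
    (fun T _ _ p => by rw [hc.one, map_one])
    (fun T _ _ p q r => by rw [← map_mul, hc.mul])
  let i₁ := H90P.iL R O O
  let i₂ := H90P.iR R O O
  let t : Oˣ := Units.map (un R O : O ⊗[R] R →* O) t'
  have ht : i₂ (t : O) * p3 R A _ (c _ i₁ i₂) = i₁ (t : O) := by
    have := congrArg (un R (O ⊗[R] O)) (ht' _ i₁ i₂)
    rw [map_mul, un_mp, un_mp] at this
    exact this
  have hz' : mp A i₂ z * p1 R A _ (c _ i₁ i₂) = mp A i₁ z := hz _ i₁ i₂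
  have hcm := ((mem_iff hN _).1 (hm _ i₁ i₂)).2
  let w : O ⊗[R] S := N O z * algebraMap O (O ⊗[R] S) (((t⁻¹ : Oˣ) : O) ^ e)
  let w' : O ⊗[R] S := N O (z⁻¹ : (O ⊗[R] A)ˣ) * algebraMap O (O ⊗[R] S) ((t : O) ^ e)
  have ww : w * w' = 1 := by
    rw [mul_mul_mul_comm, ← map_mul, ← map_mul, Units.mul_inv, ← mul_pow, Units.inv_mul, one_pow,
      map_one, map_one, mul_one]
  have hw : w * algebraMap O (O ⊗[R] S) ((t : O) ^ e) = N O z := by
    rw [mul_assoc, ← map_mul, ← mul_pow, Units.inv_mul, one_pow, map_one, mul_one]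
  have d1 : mp S i₁ w = mp S i₂ w := by
    have k : i₂ ((t⁻¹ : Oˣ) : O) = p3 R A _ (c _ i₁ i₂) * i₁ ((t⁻¹ : Oˣ) : O) := by
      have k1 : i₂ ((t⁻¹ : Oˣ) : O) * i₂ (t : O) = 1 := by rw [← map_mul, Units.inv_mul, map_one]
      refine left_inv_eq_right_inv k1 ?_
      rw [← mul_assoc, ht, ← map_mul, Units.mul_inv, map_one]
    rw [map_mul, map_mul, hN.nat, hN.nat, mp_alg, mp_alg, ← hz', map_mul, hcm, map_pow i₁,
      map_pow i₂, k, mul_pow, map_mul, mul_assoc]
  have d2 : mp S i₁ w' = mp S i₂ w' := by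
    have g1 := congrArg (mp S i₁) ((mul_comm _ _).trans ww)
    have g2 := congrArg (mp S i₂) ww
    rw [map_mul, map_one] at g1 g2
    rw [d1] at g1
    exact left_inv_eq_right_inv g1 g2
  obtain ⟨s, hs⟩ := descend _ d1
  obtain ⟨s', hs'⟩ := descend _ d2
  have k1 : s * s' = 1 := one_tmul_inj hinj (by
    rw [← one_tmul_mul, ← hs, ← hs', ww, Algebra.TensorProduct.one_def])
  have k2 : ((1 : R) ⊗ₜ[R] s) * ((1 : R) ⊗ₜ[R] s') = 1 := by
    rw [one_tmul_mul, k1, Algebra.TensorProduct.one_def]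
  obtain ⟨v, a, ha⟩ := hF ⟨(1 : R) ⊗ₜ[R] s, (1 : R) ⊗ₜ[R] s', k2, (mul_comm _ _).trans k2⟩
    (Units.map (p₀ : O →* K) t) ⟨um p₀ z, by
      change N K (mp A p₀ z) = mp S _ ((1 : R) ⊗ₜ[R] s) * algebraMap K (K ⊗[R] S) (p₀ t ^ e)
      rw [← hN.nat, ← hw, map_mul, hs, mp_one_tmul, mp_one_tmul, mp_alg, map_pow]⟩
  let j : R →ₐ[R] O := Algebra.ofId R O
  let b : (O ⊗[R] A)ˣ := um j a
  let y : Oˣ := Units.map (j : R →* O) v
  have hb : N O b = (1 : O) ⊗ₜ[R] s * algebraMap O (O ⊗[R] S) ((y : O) ^ e) := by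
    have := congrArg (mp S j) ha
    rw [hN.nat, map_mul, mp_alg, map_pow] at this
    exact this.trans (congrArg (· * _) (mp_one_tmul j s))
  have ij : i₁.comp j = i₂.comp j := Subsingleton.elim _ _
  refine hfin (pair ((b⁻¹ * z : (O ⊗[R] A)ˣ) : O ⊗[R] A) ((y⁻¹ * t : Oˣ) : O))
    ((mem_iff hN _).2 ⟨unit_pair _ _, ?_⟩) (ext2 ?_ ?_)
  · rw [p1_pair, p3_pair]
    refine (b.isUnit.map (N O)).mul_left_cancel ?_
    rw [← map_mul, ← Units.val_mul, mul_inv_cancel_left, hb, mul_assoc, ← map_mul, ← mul_pow,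
      ← Units.val_mul, mul_inv_cancel_left, ← hs, hw]
  · rw [map_mul, p1_mp, p1_mp, p1_pair, Units.val_mul, map_mul, map_mul, mul_assoc, hz']
    congr 1
    change mp A i₁ (mp A j (a⁻¹ : (R ⊗[R] A)ˣ)) = mp A i₂ (mp A j (a⁻¹ : (R ⊗[R] A)ˣ))
    rw [H90P.mp_mp, H90P.mp_mp, ij]
  · rw [map_mul, p3_mp, p3_mp, p3_pair, Units.val_mul, map_mul, map_mul, mul_assoc, ht]
    congr 1
    exact AlgHom.congr_fun ij ((v⁻¹ : Rˣ) : R)

end Pool.Agent.P.MP_46a8f8_ag.GU
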