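import Pool.Agent.P.MP_46a8f8_ag.GU.Su

/-!
The cocycle of a torsor under a group of units, and the point given by a trivialisation.
-/

namespace Pool.Agent.P.MP_46a8f8_ag.GU

open TensorProduct Function

universe u

namespace TorGP

variable {R E : Type u} [CommRing R] [Ring E] [Algebra R E] {G : Fam R E}
  {T T' : Type u} [CommRing T] [Algebra R T] [CommRing T'] [Algebra R T']

/-- base change of points -/
noncomputable def gmap (hG : Grp G) (f : T →ₐ[R] T') (g : Pts G T) : Pts G T' :=
  ⟨mp E f g.1, hG.map T T' f g.1 g.2⟩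

/-- the unit element -/
noncomputable def gone (hG : Grp G) : Pts G T := ⟨1, hG.one T⟩

/-- the product -/
noncomputable def gmul (hG : Grp G) (g h : Pts G T) : Pts G T :=
  ⟨g.1 * h.1, hG.mul T g.1 h.1 g.2 h.2⟩

end TorGP

open TorGP in
theorem pTorG : S_TorG.{u} := by
  intro R E O _ _ _ _ _ G hG hT
  obtain ⟨hff, act, a1, a2, a3, a4⟩ := hT
  choose c hc hc' using a4
  dsimp only at hc hc'
  refine ⟨fun T _ _ p q => (c T p q).1, ⟨fun T T' _ _ _ _ f p q => ?_, fun T _ _ p => ?_,
    fun T _ _ p q r => ?_⟩, fun T _ _ p q => (c T p q).2, fun z hz h4 => ?_⟩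
  · have := hc' T' (f.comp p) (f.comp q) (gmap hG f (c T p q))
      (by rw [← a3 T T' f (c T p q) _ p rfl, hc])
    exact congrArg Subtype.val this
  · rw [← hc' T p p (gone hG) (a1 T _ p rfl)]
    rfl
  · rw [← hc' T p r (gmul hG (c T q r) (c T p q))
      (by rw [a2 T (c T q r) (c T p q) _ p rfl, hc, hc])]
    rfl
  · have hinj : Injective (algebraMap R O) := FaithfulSMul.algebraMap_injective R O
    let i₁ := H90P.iL R O O
    let i₂ := H90P.iR R O O
    let z' : Pts G O := ⟨z, hz⟩
    let t := act O z' (AlgHom.id R O)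
    have key : i₁.comp t = i₂.comp t := by
      rw [a3 O _ i₁ z' (gmap hG i₁ z') _ rfl, a3 O _ i₂ z' (gmap hG i₂ z') _ rfl,
        AlgHom.comp_id, AlgHom.comp_id]
      have h5 : (gmap hG i₁ z').1 = (gmap hG i₂ z').1 * (c _ i₁ i₂).1 := h4
      rw [a2 _ _ _ _ i₁ h5, hc]
    choose t' ht' using fun o => mem_range_of_eq (R := R) (t o) (AlgHom.congr_fun key o)
    exact ⟨{
      toFun := t'
      map_one' := hinj (by rw [ht', map_one, map_one])
      map_mul' := fun a b => hinj (by rw [map_mul, ht', ht', ht', map_mul])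
      map_zero' := hinj (by rw [ht', map_zero, map_zero])
      map_add' := fun a b => hinj (by rw [map_add, ht', ht', ht', map_add])
      commutes' := fun r => hinj (by rw [ht', AlgHom.commutes]; rfl) }⟩

end Pool.Agent.P.MP_46a8f8_ag.GU
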