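import Pool.Agent.P.MP_46a8f8_ag.GU.Su

/-!
Torsors under the special unitary group.
-/

namespace Pool.Agent.P.MP_46a8f8_ag.GU

open TensorProduct Function IsLocalRing

universe u

namespace TorSUP

variable {R S A : Type u} [CommRing R] [CommRing S] [Algebra R S] [Ring A] [Algebra S A]
  [Algebra R A] [IsScalarTower R S A] [StarRing A] [SA R A] {n : ℕ} {N : NFam R S A}
  {σ : A →ₗ[R] A}

theorem spec_iff (hσ : ∀ x, σ x = star x) (hN : NF n N) {T : Type u} [CommRing T] [Algebra R T]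
    (g : T ⊗[R] A) :
    SpecU S σ T g ↔ (g * cj R A T g = 1 ∧ cj R A T g * g = 1) ∧ N T g = 1 := by
  change (g * conj σ g = 1 ∧ conj σ g * g = 1) ∧ NrdIs S g 1 ↔ _
  rw [cj_eq_conj hσ, hN.nrdIs, map_one]

theorem grp (hσ : ∀ x, σ x = star x) (hN : NF n N) : Grp (SpecU S σ) where
  one T _ _ := (spec_iff hσ hN 1).2 ⟨⟨by rw [cj_one, one_mul], by rw [cj_one, one_mul]⟩,
    map_one _⟩
  mul T _ _ g h hg hh := by
    obtain ⟨⟨a1, a2⟩, a3⟩ := (spec_iff hσ hN g).1 hg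
    obtain ⟨⟨b1, b2⟩, b3⟩ := (spec_iff hσ hN h).1 hh
    refine (spec_iff hσ hN _).2 ⟨⟨?_, ?_⟩, by rw [map_mul, a3, b3, one_mul]⟩
    · rw [cj_mul, mul_assoc, ← mul_assoc h, b1, one_mul, a1]
    · rw [cj_mul, mul_assoc, ← mul_assoc _ g, a2, one_mul, b2]
  map T T' _ _ _ _ f g hg := by
    obtain ⟨⟨a1, a2⟩, a3⟩ := (spec_iff hσ hN g).1 hg
    refine (spec_iff hσ hN _).2 ⟨⟨?_, ?_⟩, by rw [← hN.nat, a3, map_one]⟩
    · rw [← mp_cj, ← map_mul, a1, map_one]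
    · rw [← mp_cj, ← map_mul, a2, map_one]

end TorSUP

open TorHP TorSUP in
theorem pTorSU (h1 : S_TorG.{u}) (h2 : S_UniX.{u}) (h3 : S_RkS.{u}) : S_TorSU.{u} := by
  intro R S A K O _ _ _ _ _ _ _ _ _ _ _ _ _ _ _ _ n N σ hσ hG hN hH hU hT hK
  have := hT.1
  have := hG.free
  have := hG.fin
  obtain ⟨c, hc, hcG, hz⟩ := h1 R A O _ (grp hσ hN) hT
  obtain ⟨x, x1, x2, x3⟩ := h2 R A K O c (h3 R S A hG) hH hc
    (fun T _ _ p q => ((spec_iff hσ hN _).1 (hcG T p q)).1.1) hK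
  obtain ⟨p₀⟩ := hK
  obtain ⟨s, hs⟩ := descend (N O x) (by
    rw [hN.nat, hN.nat, x3, map_mul, ((spec_iff hσ hN _).1 (hcG _ _ _)).2, mul_one])
  obtain ⟨v, v1, v2, v3⟩ := hU s (mp A p₀ x) (by rw [← mp_cj, ← map_mul, x1, map_one])
    (by rw [← mp_cj, ← map_mul, x2, map_one]) (by rw [← hN.nat, hs, mp_one_tmul])
  have e : N O ((1 : O) ⊗ₜ[R] v) = N O x := by
    rw [← mp_one_tmul (Algebra.ofId R O) v, ← hN.nat, v3, mp_one_tmul, hs]
  refine hz ((1 : O) ⊗ₜ[R] star v * x) ((spec_iff hσ hN _).2 ⟨⟨?_, ?_⟩, ?_⟩) ?_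
  · rw [cj_mul, mul_assoc, ← mul_assoc x, x1, one_mul, cj_tmul, one_tmul_mul, star_star, v2,
      Algebra.TensorProduct.one_def]
  · rw [cj_mul, mul_assoc, ← mul_assoc _ _ x, cj_tmul, one_tmul_mul, star_star, v1,
      ← Algebra.TensorProduct.one_def, one_mul, x2]
  · rw [map_mul, ← e, ← map_mul, one_tmul_mul, v2, ← Algebra.TensorProduct.one_def, map_one]
  · rw [map_mul, map_mul, mp_one_tmul, mp_one_tmul, mul_assoc, x3]

end Pool.Agent.P.MP_46a8f8_ag.GU
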