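import Pool.Agent.P.MP_46a8f8_ag.GU.Su
import Pool.Agent.P.MP_46a8f8_ag.GU.TorH

/-!
A unitary trivialisation of a unitary cocycle.
-/

namespace Pool.Agent.P.MP_46a8f8_ag.GU

open TensorProduct Function IsLocalRing

universe u

open TorHP in
theorem pUniX : S_UniX.{u} := by
  intro R A K O _ _ _ _ _ _ _ _ _ _ _ _ _ c hRk hH hc hu₀ hK
  have : Module.Free R A := SA.free
  have : Module.Finite R A := SA.fin
  obtain ⟨p₀⟩ := hK
  obtain ⟨σ, hσ, hcj⟩ : ∃ σ : A →ₗ[R] A, (∀ x, σ x = star x) ∧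
      ∀ (T : Type u) [CommRing T] [Algebra R T] (x : T ⊗[R] A), cj R A T x = σ.lTensor T x :=
    ⟨HermP.stL R A, fun _ => rfl, fun _ _ _ _ => rfl⟩
  have hu : ∀ {T : Type u} [CommRing T] [Algebra R T] (p q : O →ₐ[R] T),
      c T p q * σ.lTensor T (c T p q) = 1 := fun p q => by rw [← hcj, hu₀]
  obtain ⟨z, hz⟩ := TorHP.h90 c hRk hc.nat hc.one hc.mul
  have hinj : Injective (algebraMap R O) := FaithfulSMul.algebraMap_injective R O
  have hiK : Injective (algebraMap R K) := IsFractionRing.injective R K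
  let i₁ := H90P.iL R O O
  let i₂ := H90P.iR R O O
  let y : O ⊗[R] A := z
  let y' : O ⊗[R] A := (z⁻¹ : (O ⊗[R] A)ˣ)
  have e1 : y * y' = 1 := z.mul_inv
  have e2 : y' * y = 1 := z.inv_mul
  have f1 : (y * σ.lTensor O y) * (σ.lTensor O y' * y') = 1 := by
    rw [mul_assoc, ← mul_assoc (σ.lTensor O y), ← sg_mul hσ, e2, sg_one hσ, one_mul, e1]
  have f2 : (σ.lTensor O y' * y') * (y * σ.lTensor O y) = 1 := by
    rw [mul_assoc, ← mul_assoc y', e2, one_mul, ← sg_mul hσ, e1, sg_one hσ]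
  have d1 : mp A i₁ (y * σ.lTensor O y) = mp A i₂ (y * σ.lTensor O y) := by
    rw [map_mul, map_mul, mp_sg, mp_sg, ← hz _ i₁ i₂, sg_mul hσ, mul_assoc,
      ← mul_assoc (c _ i₁ i₂), hu, one_mul]
  have d2 : mp A i₁ (σ.lTensor O y' * y') = mp A i₂ (σ.lTensor O y' * y') := by
    have g1 := congrArg (mp A i₁) f2
    have g2 := congrArg (mp A i₂) f1
    rw [map_mul, map_one] at g1 g2
    rw [d1] at g1
    exact left_inv_eq_right_inv g1 g2
  obtain ⟨h, hh⟩ := descend _ d1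
  obtain ⟨h', hh'⟩ := descend _ d2
  have k1 : h * h' = 1 := one_tmul_inj hinj (by
    rw [← one_tmul_mul, ← hh, ← hh', f1, Algebra.TensorProduct.one_def])
  have k2 : h' * h = 1 := one_tmul_inj hinj (by
    rw [← one_tmul_mul, ← hh, ← hh', f2, Algebra.TensorProduct.one_def])
  have k3 : star h = h := one_tmul_inj hinj (by
    rw [← hσ, ← sg_tmul, ← hh, sg_mul hσ, sg_sg hσ])
  obtain ⟨s, a, hsa⟩ := exists_smul_eq_one_tmul (nonZeroDivisors R) K (mp A p₀ y)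
  obtain ⟨s', a', hsa'⟩ := exists_smul_eq_one_tmul (nonZeroDivisors R) K (mp A p₀ y')
  have hs0 : (s : R) ≠ 0 := nonZeroDivisors.coe_ne_zero s
  have hs0' : (s' : R) ≠ 0 := nonZeroDivisors.coe_ne_zero s'
  have hal : ∀ r : R, (1 : K) ⊗ₜ[R] algebraMap R A r = algebraMap R K r • (1 : K ⊗[R] A) := by
    intro r
    rw [Algebra.algebraMap_eq_smul_one, tmul_smul, algebraMap_smul,
      Algebra.TensorProduct.one_def]
  obtain ⟨b, hb⟩ := hH ⟨h, h', k1, k2⟩ a a' s (s * s') k3 hs0 (mul_ne_zero hs0 hs0')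
    (one_tmul_inj hiK (by
      rw [← one_tmul_mul, ← hσ, ← sg_tmul, ← hsa, sg_smul, smul_mul_smul_comm, ← mp_sg,
        ← map_mul (mp A p₀), hh, mp_one_tmul, ← map_mul, tmul_smul, algebraMap_smul]))
    (one_tmul_inj hiK (by
      rw [← one_tmul_mul, ← hsa, ← hsa', smul_mul_smul_comm, ← map_mul (mp A p₀), e2, map_one,
        hal, ← map_mul, mul_comm]))
    (one_tmul_inj hiK (by
      rw [← one_tmul_mul, ← hsa, ← hsa', smul_mul_smul_comm, ← map_mul (mp A p₀), e1, map_one,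
        hal, ← map_mul]))
  have hb' : (b : A) * star (b : A) = h := hb
  let x : O ⊗[R] A := (1 : O) ⊗ₜ[R] ((b⁻¹ : Aˣ) : A) * y
  have u1 : x * σ.lTensor O x = 1 := by
    rw [sg_mul hσ, mul_assoc, ← mul_assoc y, hh, sg_tmul, one_tmul_mul, one_tmul_mul, hσ, ← hb',
      mul_assoc, ← star_mul, Units.inv_mul, star_one, mul_one, Units.inv_mul,
      Algebra.TensorProduct.one_def]
  have u0 : (y' * (1 : O) ⊗ₜ[R] (b : A)) * x = 1 := by
    rw [mul_assoc, ← mul_assoc _ _ y, one_tmul_mul, Units.mul_inv,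
      ← Algebra.TensorProduct.one_def, one_mul, e2]
  have u2 : σ.lTensor O x * x = 1 := by
    rw [← left_inv_eq_right_inv u0 u1, u0]
  have h4 : mp A i₁ x = mp A i₂ x * c _ i₁ i₂ := by
    change mp A i₁ ((1 : O) ⊗ₜ[R] ((b⁻¹ : Aˣ) : A) * y) =
      mp A i₂ ((1 : O) ⊗ₜ[R] ((b⁻¹ : Aˣ) : A) * y) * _
    rw [map_mul, map_mul, mp_one_tmul, mp_one_tmul, mul_assoc]
    congr 1
    exact (hz _ i₁ i₂).symm
  exact ⟨x, by rw [hcj, u1], by rw [hcj, u2], h4⟩

end Pool.Agent.P.MP_46a8f8_ag.GU
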