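import Pool.Agent.P.MP_46a8f8_ag.GU.SuTop
import Pool.Agent.P.MP_46a8f8_ag.GU.NPN
import Pool.Agent.P.MP_46a8f8_ag.GU.ResN
import Pool.Agent.P.MP_46a8f8_ag.GU.NU
import Pool.Agent.P.MP_46a8f8_ag.GU.TorD
import Pool.Agent.P.MP_46a8f8_ag.GU.NFe
import Pool.Agent.P.MP_46a8f8_ag.GU.ChiS
import Pool.Agent.P.MP_46a8f8_ag.GU.LatS
import Pool.Agent.P.MP_46a8f8_ag.GU.BN
import Pool.Agent.P.MP_46a8f8_ag.GU.QVS
import Pool.Agent.P.MP_46a8f8_ag.GU.HomQ0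
import Pool.Agent.P.MP_46a8f8_ag.GU.ResO
import Pool.Agent.P.MP_46a8f8_ag.GU.ResQ
import Pool.Agent.P.MP_46a8f8_ag.GU.PPb0
import Pool.Agent.P.MP_46a8f8_ag.GU.PPa0
import Pool.Agent.P.MP_46a8f8_ag.GU.PPm0
import Pool.Agent.P.MP_46a8f8_ag.GU.MUh
import Pool.Agent.P.MP_46a8f8_ag.GU.LA
import Pool.Agent.P.MP_46a8f8_ag.GU.MN2
import Pool.Agent.P.MP_46a8f8_ag.GU.CmpS
import Pool.Agent.P.MP_46a8f8_ag.GU.GNs
import Pool.Agent.P.MP_46a8f8_ag.GU.GB0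
import Pool.Agent.P.MP_46a8f8_ag.GU.SplS
import Pool.Agent.P.MP_46a8f8_ag.GU.SetN
import Pool.Agent.P.MP_46a8f8_ag.GU.NFs
import Pool.Agent.P.MP_46a8f8_ag.GU.BassS
import Pool.Agent.P.MP_46a8f8_ag.GU.ClosedS
import Pool.Agent.P.MP_46a8f8_ag.GU.PF0
import Pool.Agent.P.MP_46a8f8_ag.GU.PFN
import Pool.Agent.P.MP_46a8f8_ag.GU.PSN
import Pool.Agent.P.MP_46a8f8_ag.GU.FNd
import Pool.Agent.P.MP_46a8f8_ag.GU.SyU
import Pool.Agent.P.MP_46a8f8_ag.GU.Blk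
import Pool.Agent.P.MP_46a8f8_ag.GU.Ly2
import Pool.Agent.P.MP_46a8f8_ag.GU.Ly0
import Pool.Agent.P.MP_46a8f8_ag.GU.Ly1
import Pool.Agent.P.MP_46a8f8_ag.GU.LyN
import Pool.Agent.P.MP_46a8f8_ag.GU.TorSU
import Pool.Agent.P.MP_46a8f8_ag.GU.TorG
import Pool.Agent.P.MP_46a8f8_ag.GU.UniX
import Pool.Agent.P.MP_46a8f8_ag.GU.ResG
import Pool.Agent.P.MP_46a8f8_ag.GU.Nbh0
import Pool.Agent.P.MP_46a8f8_ag.GU.Cay

/-!
All packages for the groups given by the reduced norm put together.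
-/

namespace Pool.Agent.P.MP_46a8f8_ag.GU

universe u

theorem allNFe : S_NFe.{u} := pNFe pSplS

theorem allSetN : S_SetN.{u} := pSetN pGBbc

theorem allBN : S_BN.{u} := pBN pBNg

theorem allGNs : S_GNs.{u} :=
  pGNs (pCmpN (pCmpS (pChiS pBassS pRkS)) allSetN pGBbc) (pClosedS allBN) pQVS

theorem allNbh0 : S_Nbh0.{u} := pNbh0 (pHomQ0 pLiftH0)

theorem allPPm0 : S_PPm0.{u} := pPPm0 allNbh0 pMUh

theorem allNPN : S_NPN.{u} := pNPN allSetN pBassS pLA pMN2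

theorem allResO : S_ResO.{u} := pResO (pResQ pResN) pResG allSetN pGBbc

theorem allFNd : S_FNd.{u} :=
  pFNd (pPSN (pPPa0 allNbh0) (pPPb0 (pLatS allBN) allPPm0) allNPN (pPFN allResO pPF0)) allGNs

theorem allLyN : S_LyN.{u} := pLyN (pLy2 (pLy1 pBassS pSyU pLy0 pBlk))

theorem allNU : S_NU.{u} := pNU pNFs pCay allLyN

theorem allTorD : S_TorD.{u} := pTorD pTorG pRkS

theorem allTorSU : S_TorSU.{u} := pTorSU pTorG pUniX pRkS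

end Pool.Agent.P.MP_46a8f8_ag.GU
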