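import Pool.Agent.P.MP_46a8f8_ag.GU.Sp

/-!
Unit generators in the square class of a unit, over a semilocal ring.
-/

namespace Pool.Agent.P.MP_46a8f8_ag.GU

open TensorProduct Function IsLocalRing Polynomial

universe u

namespace GnP

/-- the matrix of the remainders -/
noncomputable def Mx {T : Type u} [CommRing T] (f : T[X]) (N : ℕ) (g : Fin N → T[X]) :
    Matrix (Fin N) (Fin N) T := Matrix.of fun i j => (g j %ₘ f).coeff i

/-- the polynomial with given coefficients -/
noncomputable def be {T : Type u} [CommRing T] {N : ℕ} (b : Fin N → T) : T[X] :=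
  ∑ i : Fin N, monomial i (b i)

/-- the determinant -/
noncomputable def G {T : Type u} [CommRing T] (f a : T[X]) {N : ℕ} (b : Fin N → T) : T :=
  (Mx f N fun j => be b * (a * be b ^ 2) ^ (j : ℕ)).det

theorem map_G {T T' : Type u} [CommRing T] [CommRing T'] (θ : T →+* T') {f : T[X]} (hf : f.Monic)
    (a : T[X]) {N : ℕ} (b : Fin N → T) : θ (G f a b) = G (f.map θ) (a.map θ) (θ ∘ b) := by
  have h1 : (be b).map θ = be (θ ∘ b) := by
    simp [be, Polynomial.map_sum]
  rw [G, G, RingHom.map_det]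
  congr 1
  ext i j
  simp only [RingHom.mapMatrix_apply, Matrix.map_apply, Mx, Matrix.of_apply]
  rw [← coeff_map, map_modByMonic θ hf, Polynomial.map_mul, Polynomial.map_pow, Polynomial.map_mul,
    Polynomial.map_pow, h1]

theorem det_eq {T : Type u} [CommRing T] {f : T[X]} (hf : f.Monic) (g : Fin f.natDegree → T[X]) :
    (Mx f _ g).det = (AdjoinRoot.powerBasisAux' hf).det fun j => AdjoinRoot.mk f (g j) := by
  rw [Module.Basis.det_apply]
  congr 1

theorem span_of_unit {T : Type u} [CommRing T] {f : T[X]} (hf : f.Monic)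
    (g : Fin f.natDegree → T[X]) (h : IsUnit (Mx f _ g).det) :
    Submodule.span T (Set.range fun j => AdjoinRoot.mk f (g j)) = ⊤ := by
  rw [det_eq hf] at h
  exact ((Module.Basis.is_basis_iff_det _).2 h).2

theorem unit_of_span {K : Type u} [Field K] {f : K[X]} (hf : f.Monic)
    (g : Fin f.natDegree → K[X])
    (h : Submodule.span K (Set.range fun j => AdjoinRoot.mk f (g j)) = ⊤) :
    IsUnit (Mx f _ g).det := by
  rw [det_eq hf]
  refine (Module.Basis.is_basis_iff_det _).1 ⟨?_, h⟩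
  refine linearIndependent_of_top_le_span_of_card_eq_finrank h.ge ?_
  rw [(AdjoinRoot.powerBasis' hf).finrank, Fintype.card_fin]
  rfl

theorem of_span {T A : Type u} [CommRing T] [CommRing A] [Algebra T A] {N : ℕ} (β γ : A)
    (h1 : Submodule.span T (Set.range fun j : Fin N => β * γ ^ (j : ℕ)) = ⊤) :
    IsUnit β ∧ Algebra.adjoin T {γ} = ⊤ := by
  have h2 : ∀ y : A, ∃ z ∈ Algebra.adjoin T {γ}, y = β * z := by
    intro y
    have hy : y ∈ Submodule.span T (Set.range fun j : Fin N => β * γ ^ (j : ℕ)) := by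
      rw [h1]; trivial
    induction hy using Submodule.span_induction with
    | mem x hx =>
      obtain ⟨j, rfl⟩ := hx
      exact ⟨γ ^ (j : ℕ), Subalgebra.pow_mem _ (Algebra.self_mem_adjoin_singleton T γ) _, rfl⟩
    | zero => exact ⟨0, zero_mem _, by simp⟩
    | add x y _ _ hx hy =>
      obtain ⟨z, hz, rfl⟩ := hx
      obtain ⟨z', hz', rfl⟩ := hy
      exact ⟨z + z', add_mem hz hz', by ring⟩
    | smul r x _ hx =>
      obtain ⟨z, hz, rfl⟩ := hx
      exact ⟨r • z, Subalgebra.smul_mem _ hz _, by rw [mul_smul_comm]⟩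
  have hu : IsUnit β := by
    obtain ⟨z, -, hz⟩ := h2 1
    exact IsUnit.of_mul_eq_one z hz.symm
  refine ⟨hu, eq_top_iff.2 fun y _ => ?_⟩
  obtain ⟨z, hz, he⟩ := h2 (β * y)
  rwa [hu.mul_left_cancel he]

theorem of_unit {T : Type u} [CommRing T] {f : T[X]} (hf : f.Monic) (a : T[X])
    (b : Fin f.natDegree → T) (h : IsUnit (G f a b)) :
    IsUnit (AdjoinRoot.mk f (be b)) ∧
      Algebra.adjoin T {AdjoinRoot.mk f a * AdjoinRoot.mk f (be b) ^ 2} = ⊤ := by
  have h1 := span_of_unit hf _ h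
  simp only [map_mul, map_pow] at h1
  exact of_span _ _ h1

theorem exists_ne {K : Type u} [Field K] {f : K[X]} (hf : f.Monic) (a : K[X]) {N : ℕ}
    (hN : f.natDegree = N) {β : AdjoinRoot f} (hβ : IsUnit β)
    (h : Algebra.adjoin K {AdjoinRoot.mk f a * β ^ 2} = ⊤) : ∃ b : Fin N → K, G f a b ≠ 0 := by
  subst hN
  obtain ⟨p, rfl⟩ := AdjoinRoot.mk_surjective β
  have he : AdjoinRoot.mk f (be fun i : Fin f.natDegree => (p %ₘ f).coeff i) =
      AdjoinRoot.mk f p := by
    rw [be, sum_modByMonic_coeff hf degree_le_natDegree, AdjoinRoot.mk_eq_mk]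
    exact dvd_modByMonic_sub p f
  refine ⟨fun i => (p %ₘ f).coeff i, (unit_of_span hf _ ?_).ne_zero⟩
  simp only [map_mul, map_pow, he]
  set β := AdjoinRoot.mk f p with hβd
  set γ := AdjoinRoot.mk f a * β ^ 2 with hγ
  have : Module.Finite K (AdjoinRoot f) := (AdjoinRoot.powerBasis' hf).finite
  have hc : (Algebra.lmul K (AdjoinRoot f) γ).charpoly.natDegree = f.natDegree := by
    rw [LinearMap.charpoly_natDegree, (AdjoinRoot.powerBasis' hf).finrank]
    rfl
  have h1 := Submodule.span_range_natDegree_eq_adjoin (LinearMap.charpoly_monic _)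
    (Algebra.aeval_self_charpoly_lmul (R := K) γ)
  rw [hc, h] at h1
  obtain ⟨β', hβ'⟩ := hβ.exists_right_inv
  refine eq_top_iff.2 fun y _ => ?_
  have h2 : β' * y ∈ Submodule.span K
      ((Finset.image (γ ^ ·) (Finset.range f.natDegree) : Finset _) : Set (AdjoinRoot f)) := by
    rw [h1]; trivial
  have h3 := Submodule.mem_map_of_mem (f := LinearMap.mulLeft K β) h2
  rw [Submodule.map_span, LinearMap.mulLeft_apply, ← mul_assoc, hβ', one_mul] at h3
  refine Submodule.span_mono ?_ h3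
  rintro _ ⟨x, hx, rfl⟩
  simp only [Finset.coe_image, Finset.coe_range, Set.mem_image, Set.mem_Iio] at hx
  obtain ⟨j, hj, rfl⟩ := hx
  exact ⟨⟨j, hj⟩, rfl⟩

end GnP

open GnP in
theorem pGn (h1 : S_Avm.{u}) (h2 : S_Gna.{u}) : S_Gn.{u} := by
  intro R _ _ f α hL htwo hf hα
  obtain ⟨a, rfl⟩ := AdjoinRoot.mk_surjective α
  obtain ⟨v, hv⟩ := hα.exists_right_inv
  obtain ⟨a', rfl⟩ := AdjoinRoot.mk_surjective v
  have hd : f ∣ a * a' - 1 := by
    rw [← AdjoinRoot.mk_eq_zero, map_sub, map_mul, hv, map_one, sub_self]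
  let F : MaximalSpectrum R → Type u := fun k => AlgebraicClosure k.asIdeal.ResidueField
  let φ : ∀ k, R →+* F k := fun k =>
    (algebraMap k.asIdeal.ResidueField (F k)).comp (algebraMap R k.asIdeal.ResidueField)
  let Ψ : ∀ k, MvPolynomial (Fin f.natDegree) (F k) := fun k =>
    G ((f.map (φ k)).map MvPolynomial.C) ((a.map (φ k)).map MvPolynomial.C) MvPolynomial.X
  have hev : ∀ k (x : Fin f.natDegree → F k),
      MvPolynomial.eval x (Ψ k) = G (f.map (φ k)) (a.map (φ k)) x := by
    intro k x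
    have e1 : (MvPolynomial.eval x).comp MvPolynomial.C = RingHom.id (F k) := by
      ext r; simp
    have e2 : (MvPolynomial.eval x) ∘ MvPolynomial.X = x := by
      ext i; simp
    rw [map_G _ ((hf.map _).map _), e2, Polynomial.map_map _ (MvPolynomial.eval x),
      Polynomial.map_map _ (MvPolynomial.eval x), e1, Polynomial.map_id, Polynomial.map_id]
  have hΨ : ∀ k, Ψ k ≠ 0 := by
    intro k h0
    have hu : IsUnit (AdjoinRoot.mk (f.map (φ k)) (a.map (φ k))) := by
      refine IsUnit.of_mul_eq_one (AdjoinRoot.mk _ (a'.map (φ k))) ?_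
      have := Polynomial.map_dvd (φ k) hd
      rw [← AdjoinRoot.mk_eq_zero, Polynomial.map_sub, Polynomial.map_mul, Polynomial.map_one,
        map_sub, map_mul, map_one, sub_eq_zero] at this
      exact this
    have ht : (2 : F k) ≠ 0 := by
      have := (htwo.map (φ k)).ne_zero
      rwa [map_ofNat] at this
    obtain ⟨β, hβ, hg⟩ := h2 (F k) (f.map (φ k)) _ ht (hf.map _) hu
    obtain ⟨b, hb⟩ := exists_ne (hf.map _) _ (hf.natDegree_map (φ k)) hβ hg
    rw [← hev, h0, map_zero] at hb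
    exact hb rfl
  obtain ⟨w, hw⟩ := h1 R (Fin f.natDegree) (MaximalSpectrum R) F φ Ψ hL hΨ
  have hu : IsUnit (G f a w) := by
    refine isUnit_of_max fun m hm hmem => hw ⟨m, hm⟩ ?_
    rw [hev, ← map_G _ hf]
    change algebraMap _ _ (algebraMap R m.ResidueField _) = 0
    rw [Ideal.algebraMap_residueField_eq_zero.2 hmem, map_zero]
  exact ⟨_, of_unit hf a w hu⟩

end Pool.Agent.P.MP_46a8f8_ag.GU
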