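import Pool.Agent.P.MP_46a8f8_ag.GU.Sp

/-!
Unit generators in the square class of a unit.
-/

namespace Pool.Agent.P.MP_46a8f8_ag.GU

open TensorProduct Function IsLocalRing Polynomial

universe u

namespace GnaP

theorem quad {K : Type u} [Field K] [IsAlgClosed K] (a b c : K) (h : a ≠ 0 ∨ b ≠ 0) :
    ∃ t : K, c + b * t + a * t ^ 2 = 0 := by
  by_cases ha : a = 0
  · have hb : b ≠ 0 := h.resolve_left (fun h' => h' ha)
    exact ⟨-c / b, by rw [ha]; field_simp; ring⟩
  · have hd : (C a * X ^ 2 + C b * X + C c : K[X]).degree ≠ 0 := by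
      rw [degree_quadratic ha]; decide
    obtain ⟨t, ht⟩ := IsAlgClosed.exists_root _ hd
    refine ⟨t, ?_⟩
    simp only [IsRoot, eval_add, eval_mul, eval_C, eval_pow, eval_X] at ht
    linear_combination ht

theorem sqrt_mod {K : Type u} [Field K] [IsAlgClosed K] (h2 : (2 : K) ≠ 0) (a : K[X]) :
    ∀ (N : ℕ) (f : K[X]), f.natDegree = N → f.Monic → (∀ r, f.IsRoot r → a.eval r ≠ 0) →
      ∃ d : K[X], f ∣ d ^ 2 - a := by
  intro N
  induction N with
  | zero =>
    intro f hN hf _
    rw [hf.natDegree_eq_zero.1 hN]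
    exact ⟨0, one_dvd _⟩
  | succ N ih =>
    intro f hN hf hr
    have hd : f.degree ≠ 0 := by
      rw [degree_eq_natDegree hf.ne_zero, hN]; exact_mod_cast Nat.succ_ne_zero N
    obtain ⟨r, hr0⟩ := IsAlgClosed.exists_root f hd
    obtain ⟨g, hg⟩ := dvd_iff_isRoot.2 hr0
    have hgm : g.Monic := (monic_X_sub_C r).of_mul_monic_left (hg ▸ hf)
    have hgd : g.natDegree = N := by
      have := (monic_X_sub_C r).natDegree_mul hgm
      rw [← hg, natDegree_X_sub_C, hN] at this
      omega
    obtain ⟨d, h, hh⟩ := ih g hgd hgm (fun s hs => hr s (by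
      rw [hg, IsRoot, eval_mul, hs.eq_zero, mul_zero]))
    have hne : g.eval r ≠ 0 ∨ 2 * d.eval r ≠ 0 := by
      by_cases h0 : g.eval r = 0
      · right
        have := congrArg (Polynomial.eval r) hh
        simp only [eval_sub, eval_pow, eval_mul, h0, zero_mul] at this
        refine mul_ne_zero h2 (fun h1 => hr r hr0 ?_)
        rw [h1] at this
        linear_combination -this
      · exact Or.inl h0
    obtain ⟨t, ht⟩ := quad (g.eval r) (2 * d.eval r) (h.eval r) hne
    have hdv : X - C r ∣ h + 2 * d * C t + g * C t ^ 2 := by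
      rw [dvd_iff_isRoot]
      simp only [IsRoot, eval_add, eval_mul, eval_C, eval_pow, eval_ofNat]
      exact ht
    obtain ⟨k, hk⟩ := hdv
    refine ⟨d + g * C t, k, ?_⟩
    rw [hg]
    linear_combination hh + g * hk

theorem unit_root_add {R : Type u} [CommRing R] (f : R[X]) (s : R) (hs : IsUnit (f.eval s)) :
    IsUnit (AdjoinRoot.root f - algebraMap R (AdjoinRoot f) s) := by
  obtain ⟨q, hq⟩ := X_sub_C_dvd_sub_C_eval (a := s) (p := f)
  have h1 := congrArg (AdjoinRoot.mk f) hq
  rw [map_sub, map_mul, map_sub, AdjoinRoot.mk_self, AdjoinRoot.mk_X, AdjoinRoot.mk_C,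
    AdjoinRoot.mk_C, zero_sub] at h1
  have h2 : IsUnit (-(AdjoinRoot.of f (f.eval s))) := (hs.map _).neg
  rw [h1] at h2
  exact isUnit_of_mul_isUnit_left h2

theorem top_of_res {R : Type u} [CommRing R] [IsLocalRing R] (f : R[X]) (hf : f.Monic)
    (x : AdjoinRoot f)
    (hx : Algebra.adjoin (ResidueField R)
      {AdjoinRoot.map (residue R) f (f.map (residue R)) dvd_rfl x} = ⊤) :
    Algebra.adjoin R {x} = ⊤ := by
  set π := AdjoinRoot.map (residue R) f (f.map (residue R)) dvd_rfl with hπ
  have hmk : ∀ g : R[X], π (AdjoinRoot.mk f g) = AdjoinRoot.mk _ (g.map (residue R)) := by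
    intro g
    induction g using Polynomial.induction_on' with
    | add p q hp hq => rw [map_add, map_add, hp, hq, Polynomial.map_add, map_add]
    | monomial n a =>
      rw [← C_mul_X_pow_eq_monomial]
      simp [hπ]
  have hae : ∀ (P : R[X]), π (aeval x P) = aeval (π x) (P.map (residue R)) := by
    intro g
    induction g using Polynomial.induction_on' with
    | add p q hp hq => rw [map_add, map_add, hp, hq, Polynomial.map_add, map_add]
    | monomial n a =>
      rw [← C_mul_X_pow_eq_monomial]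
      simp [hπ, AdjoinRoot.algebraMap_eq]
  have hsur : Surjective (Polynomial.map (residue R)) :=
    map_surjective _ residue_surjective
  have hker : ∀ z, π z = 0 → z ∈ maximalIdeal R • (⊤ : Submodule R (AdjoinRoot f)) := by
    intro z hz
    obtain ⟨g, rfl⟩ := AdjoinRoot.mk_surjective z
    rw [hmk, AdjoinRoot.mk_eq_zero] at hz
    obtain ⟨q, hq⟩ := hz
    obtain ⟨q, rfl⟩ := hsur q
    have h0 : (g - f * q).map (residue R) = 0 := by
      rw [Polynomial.map_sub, Polynomial.map_mul, hq, sub_self]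
    have h1 : AdjoinRoot.mk f g = aeval (AdjoinRoot.root f) (g - f * q) := by
      rw [AdjoinRoot.aeval_eq, map_sub, map_mul, AdjoinRoot.mk_self, zero_mul, sub_zero]
    rw [h1, aeval_eq_sum_range]
    refine Submodule.sum_mem _ (fun i _ => Submodule.smul_mem_smul ?_ Submodule.mem_top)
    have := congrArg (fun p => coeff p i) h0
    simp only [coeff_map, coeff_zero] at this
    exact (residue_eq_zero_iff _).1 this
  have : Module.Finite R (AdjoinRoot f) := (AdjoinRoot.powerBasis' hf).finite
  have hle : (⊤ : Submodule R (AdjoinRoot f)) ≤ Subalgebra.toSubmodule (Algebra.adjoin R {x}) := by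
    refine Submodule.le_of_le_smul_of_le_jacobson_bot (I := maximalIdeal R)
      Module.Finite.fg_top (maximalIdeal_le_jacobson _) ?_
    intro y _
    have hy : π y ∈ Algebra.adjoin (ResidueField R) {π x} := hx ▸ Algebra.mem_top
    rw [Algebra.adjoin_singleton_eq_range_aeval] at hy
    obtain ⟨P, hP⟩ := hy
    obtain ⟨P, rfl⟩ := hsur P
    have hz : π (y - aeval x P) = 0 := by
      rw [map_sub, hae, sub_eq_zero]; exact hP.symm
    have : y = aeval x P + (y - aeval x P) := by ring
    rw [this]
    exact Submodule.add_mem_sup (Polynomial.aeval_mem_adjoin_singleton R x) (hker _ hz)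
  rw [eq_top_iff]
  intro y _
  exact hle Submodule.mem_top

theorem gen_of_not_mem {k : Type u} [Field k] (g : k[X]) (hg : Irreducible g)
    (hp : g.natDegree.Prime) (x : AdjoinRoot g) (hx : x ∉ (⊥ : Subalgebra k (AdjoinRoot g))) :
    Algebra.adjoin k {x} = ⊤ := by
  have := Fact.mk hg
  have hr : (Module.finrank k (AdjoinRoot g)).Prime := by
    rw [(AdjoinRoot.powerBasis hg.ne_zero).finrank]; exact hp
  rcases (Subalgebra.isSimpleOrder_of_finrank_prime k _ hr).eq_bot_or_eq_top
    (Algebra.adjoin k {x}) with h | h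
  · exact absurd (h ▸ Algebra.subset_adjoin (Set.mem_singleton x)) hx
  · exact h

end GnaP

theorem pGna : S_Gna.{u} := by
  intro K _ _ f α h2 hf hα
  obtain ⟨s, hs⟩ : ∃ s : K, f.eval s ≠ 0 := by
    by_contra h
    push Not at h
    exact hf.ne_zero (Polynomial.funext (fun r => by rw [h r, eval_zero]))
  have hγ := GnaP.unit_root_add f s hs.isUnit
  set γ := AdjoinRoot.root f - algebraMap K (AdjoinRoot f) s with hγd
  obtain ⟨α', hα'⟩ := hα.exists_right_inv
  have hu : IsUnit (γ * α') := hγ.mul (IsUnit.of_mul_eq_one_right α hα')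
  obtain ⟨a, ha⟩ := AdjoinRoot.mk_surjective (γ * α')
  obtain ⟨v, hv⟩ := hu.exists_right_inv
  obtain ⟨b, rfl⟩ := AdjoinRoot.mk_surjective v
  have hab : f ∣ a * b - 1 := by
    rw [← AdjoinRoot.mk_eq_zero, map_sub, map_mul, ha, hv, map_one, sub_self]
  obtain ⟨d, hd⟩ := GnaP.sqrt_mod h2 a _ f rfl hf (fun r hr h0 => by
    have := hr.dvd hab
    simp only [IsRoot, eval_sub, eval_mul, h0, zero_mul, eval_one, zero_sub] at this
    exact one_ne_zero (neg_eq_zero.1 this))
  rw [← AdjoinRoot.mk_eq_zero, map_sub, map_pow, ha, sub_eq_zero] at hd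
  refine ⟨AdjoinRoot.mk f d, ?_, ?_⟩
  · rw [← hd] at hu
    exact (isUnit_pow_iff two_ne_zero).1 hu
  · have : α * AdjoinRoot.mk f d ^ 2 = γ := by
      rw [hd]; linear_combination γ * hα'
    rw [this, eq_top_iff, ← AdjoinRoot.adjoinRoot_eq_top, Algebra.adjoin_le_iff]
    rintro _ rfl
    have h1 : AdjoinRoot.root f = γ + algebraMap K (AdjoinRoot f) s := by rw [hγd]; ring
    rw [h1]
    exact Subalgebra.add_mem _ (Algebra.subset_adjoin rfl) (Subalgebra.algebraMap_mem _ s)

theorem pGnp : S_Gnp.{u} := by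
  intro R _ _ f α hf hp ho hi hα
  have hdeg : (f.map (residue R)).natDegree = f.natDegree := hf.natDegree_map _
  have h3 : 3 ≤ f.natDegree := by
    have := hp.two_le
    obtain ⟨m, hm⟩ := ho
    omega
  set π := AdjoinRoot.map (residue R) f (f.map (residue R)) dvd_rfl with hπ
  by_cases hx : π α ∈ (⊥ : Subalgebra (ResidueField R) (AdjoinRoot (f.map (residue R))))
  · refine ⟨AdjoinRoot.root f, ?_, GnaP.top_of_res f hf _
      (GnaP.gen_of_not_mem _ hi (hdeg ▸ hp) _ ?_)⟩
    · have h0 : IsUnit (f.eval 0) := by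
        by_contra hn
        have h1 : (f.map (residue R)).IsRoot 0 := by
          rw [IsRoot, ← (residue R).map_zero, eval_map, eval₂_at_apply, map_zero,
            residue_eq_zero_iff]
          exact hn
        have h4 := degree_eq_one_of_irreducible_of_root hi h1
        have := natDegree_eq_of_degree_eq_some (n := 1) h4
        omega
      simpa using GnaP.unit_root_add f 0 h0
    · intro hy
      obtain ⟨a, ha⟩ := Algebra.mem_bot.1 hx
      obtain ⟨b, hb⟩ := Algebra.mem_bot.1 hy
      have := Fact.mk hi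
      have ha0 : a ≠ 0 := by
        rintro rfl
        rw [map_zero] at ha
        exact (hα.map π).ne_zero ha.symm
      rw [← hπ, map_mul, map_pow, ← ha, hπ, AdjoinRoot.map_root] at hb
      have hdv : f.map (residue R) ∣ C a * X ^ 2 - C b := by
        rw [← AdjoinRoot.mk_eq_zero, map_sub, map_mul, map_pow, AdjoinRoot.mk_X, AdjoinRoot.mk_C,
          AdjoinRoot.mk_C, sub_eq_zero]
        exact hb.symm
      have hnd : (C a * X ^ 2 - C b).natDegree = 2 := by
        rw [natDegree_sub_C, natDegree_C_mul_X_pow 2 a ha0]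
      have hne : (C a * X ^ 2 - C b) ≠ 0 := by
        intro h; rw [h, natDegree_zero] at hnd; omega
      have := natDegree_le_of_dvd hdv hne
      omega
  · refine ⟨1, isUnit_one, GnaP.top_of_res f hf _ (GnaP.gen_of_not_mem _ hi (hdeg ▸ hp) _ ?_)⟩
    rwa [one_pow, mul_one]

end Pool.Agent.P.MP_46a8f8_ag.GU
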