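import Pool.Agent.P.MP_46a8f8_ag.GU.Sp

/-!
The spin groups form a functor in groups, and act on vectors by orthogonal matrices.
-/

namespace Pool.Agent.P.MP_46a8f8_ag.GU

open TensorProduct Function

universe u

namespace GrSP

variable {R E : Type u} [CommRing R] [Ring E] [Algebra R E] {n : ℕ} {c : Ix n → R}
  {e : Ix n → E} {α : E →ₐ[R] E} {ρ : E →ₗ[R] E}

theorem iv_e (e : Ix n → E) (i : Ix n) : iv e (Pi.single i (1 : R)) = e i := by
  rw [iv_single, one_smul]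

theorem vec_conj {a b : E} (h : ∀ i, ∃ v : Ix n → R, iv e v = a * e i * b) (w : Ix n → R) :
    ∃ v : Ix n → R, iv e v = a * iv e w * b := by
  choose v hv using h
  refine ⟨∑ i, w i • v i, ?_⟩
  have e1 : iv e (∑ i, w i • v i) = ∑ i, w i • iv e (v i) := by
    simp only [iv, Finset.sum_apply, Pi.smul_apply, smul_eq_mul, Finset.sum_smul,
      Finset.smul_sum, smul_smul]
    exact Finset.sum_comm
  rw [e1]
  conv_rhs => rw [iv, Finset.mul_sum, Finset.sum_mul]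
  exact Finset.sum_congr rfl fun i _ => by rw [hv, mul_smul_comm, smul_mul_assoc]

theorem nm_iff {a b : E} (h1 : a * b = 1) (h2 : b * a = 1) :
    (∀ x, (∃ v : Ix n → R, iv e v = x) ↔ ∃ v : Ix n → R, iv e v = a * x * b) ↔
      (∀ i, ∃ v : Ix n → R, iv e v = a * e i * b) ∧
        ∀ i, ∃ v : Ix n → R, iv e v = b * e i * a := by
  constructor
  · intro h
    refine ⟨fun i => (h _).1 ⟨_, iv_e e i⟩, fun i => (h _).2 ⟨Pi.single i 1, ?_⟩⟩
    rw [iv_e, show a * (b * e i * a) * b = (a * b) * e i * (a * b) by simp only [mul_assoc], h1,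
      one_mul, mul_one]
  · rintro ⟨k1, k2⟩ x
    constructor
    · rintro ⟨v, rfl⟩
      exact vec_conj k1 v
    · rintro ⟨v, hv⟩
      obtain ⟨w, hw⟩ := vec_conj k2 v
      refine ⟨w, ?_⟩
      rw [hw, hv, show b * (a * x * b) * a = (b * a) * x * (b * a) by simp only [mul_assoc], h2,
        one_mul, mul_one]

theorem tw_eq {a b : E} (h1 : a * b = 1) {ψ : Matrix (Ix n) (Ix n) R} (h : Tw e α a ψ)
    (v : Ix n → R) : iv e (ψ.mulVec v) = a * iv e v * b := by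
  rw [← h.2, mul_assoc, h1, mul_one]

theorem tw_uniq (hc : ClD c e α ρ) {a b : E} (h1 : a * b = 1) {ψ ψ' : Matrix (Ix n) (Ix n) R}
    (h : Tw e α a ψ) (h' : Tw e α a ψ') : ψ = ψ' := by
  ext i j
  have := hc.iv_inj ((tw_eq h1 h (Pi.single j 1)).trans (tw_eq h1 h' (Pi.single j 1)).symm)
  simpa only [Matrix.mulVec_single_one, Matrix.col_apply] using congrFun this i

theorem tw_ort (hc : ClD c e α ρ) {a b : E} (h1 : a * b = 1) (h2 : b * a = 1)
    {ψ : Matrix (Ix n) (Ix n) R} (h : Tw e α a ψ) : Ort c ψ := by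
  refine Ort.of_bv hc.ok fun v w => hc.alg_inj ?_
  have k : ∀ x y : E, a * x * b * (a * y * b) = a * (x * y) * b := fun x y => by
    rw [show a * x * b * (a * y * b) = a * x * (b * a) * y * b by simp only [mul_assoc], h2,
      mul_one, mul_assoc a x y]
  rw [← hc.iv_mul_add, tw_eq h1 h, tw_eq h1 h, k, k, ← add_mul, ← mul_add, hc.iv_mul_add,
    ← Algebra.commutes, mul_assoc, h1, mul_one]

theorem tw_one : Tw e α 1 (1 : Matrix (Ix n) (Ix n) R) :=
  ⟨map_one α, fun v => by rw [Matrix.one_mulVec, mul_one, one_mul]⟩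

theorem mp_eT {T T' : Type u} [CommRing T] [Algebra R T] [CommRing T'] [Algebra R T']
    (f : T →ₐ[R] T') (i : Ix n) : mp E f (eT e T i) = eT e T' i := by
  simp only [eT, H90P.mp_tmul, map_one]

theorem ex_tw {T : Type u} [CommRing T] [Algebra R T] {g : T ⊗[R] E} (h : SpD e α ρ T g) :
    ∃ ψ : Matrix (Ix n) (Ix n) T, Tw (eT e T) (aT α T) g ψ := by
  obtain ⟨h1, ⟨h2, h3⟩, h4⟩ := h
  choose w hw using ((nm_iff h2 h3).1 h4).1
  refine ⟨Matrix.of fun j i => w i j, tw_of_basis h1 fun i => ?_⟩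
  change iv (eT e T) (w i) * g = _
  rw [hw, mul_assoc, h3, mul_one]

end GrSP

open GrSP in
theorem pGrS : S_GrS.{u} := by
  intro R E _ _ _ n c e α ρ h
  refine ⟨fun T _ _ => ?_, fun T _ _ g g' hg hg' => ?_, fun T T' _ _ _ _ f g hg => ?_⟩
  · have k : conj ρ (1 : T ⊗[R] E) = 1 := (h.bc T).rh_one
    refine ⟨map_one _, ⟨by rw [k, mul_one], by rw [k, mul_one]⟩, fun x => ?_⟩
    rw [k, mul_one, one_mul]
  · obtain ⟨h1, ⟨h2, h3⟩, h4⟩ := hg
    obtain ⟨k1, ⟨k2, k3⟩, k4⟩ := hg'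
    have k : conj ρ (g * g') = conj ρ g' * conj ρ g := (h.bc T).rh_mul g g'
    refine ⟨by rw [map_mul, h1, k1], ⟨?_, ?_⟩, fun x => ?_⟩
    · rw [k, mul_assoc, ← mul_assoc g', k2, one_mul, h2]
    · rw [k, mul_assoc, ← mul_assoc (conj ρ g), h3, one_mul, k3]
    · rw [k4, h4, k]
      simp only [mul_assoc]
  · obtain ⟨h1, ⟨h2, h3⟩, h4⟩ := hg
    have k : conj ρ (mp E f g) = mp E f (conj ρ g) := (mp_bc ρ f g).symm
    have k2 : mp E f g * conj ρ (mp E f g) = 1 := by rw [k, ← map_mul, h2, map_one]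
    have k3 : conj ρ (mp E f g) * mp E f g = 1 := by rw [k, ← map_mul, h3, map_one]
    obtain ⟨h5, h6⟩ := (nm_iff h2 h3).1 h4
    refine ⟨by rw [← mp_aT, h1], ⟨k2, k3⟩, (nm_iff k2 k3).2 ⟨fun i => ?_, fun i => ?_⟩⟩
    · obtain ⟨v, hv⟩ := h5 i
      exact ⟨f ∘ v, by rw [← mp_iv, hv, map_mul, map_mul, mp_eT, k]⟩
    · obtain ⟨v, hv⟩ := h6 i
      exact ⟨f ∘ v, by rw [← mp_iv, hv, map_mul, map_mul, mp_eT, k]⟩

open GrSP in
theorem pPiS : S_PiS.{u} := by
  intro R E O _ _ _ _ _ n c e α ρ g h hg hs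
  have key : ∀ (T : Type u) [CommRing T] [Algebra R T] (p q : O →ₐ[R] T),
      ∃ ψ : Matrix (Ix n) (Ix n) T, Tw (eT e T) (aT α T) (g T p q) ψ :=
    fun T _ _ p q => ex_tw (hs T p q)
  choose d hd using key
  refine ⟨d, ⟨fun T T' _ _ _ _ f p q => ?_, fun T _ _ p => ?_, fun T _ _ p q r => ?_⟩,
    fun T _ _ p q => ⟨tw_ort (h.bc T) (hs T p q).2.1.1 (hs T p q).2.1.2 (hd T p q), hd T p q⟩⟩
  · refine tw_uniq (h.bc T') (hs T' (f.comp p) (f.comp q)).2.1.1 ?_ (hd T' _ _)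
    rw [← hg.nat]
    exact (hd T p q).mp f
  · refine tw_uniq (h.bc T) (hs T p p).2.1.1 (hd T p p) ?_
    rw [hg.one]
    exact tw_one
  · refine tw_uniq (h.bc T) (hs T p r).2.1.1 ?_ (hd T p r)
    rw [← hg.mul T p q r]
    exact (hd T q r).mul (hd T p q)

end Pool.Agent.P.MP_46a8f8_ag.GU
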