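import Pool.Agent.P.MP_46a8f8_ag.GU.Sp

/-!
Homotopy invariance for spinor norms.
-/

namespace Pool.Agent.P.MP_46a8f8_ag.GU

open Polynomial

universe u

namespace HomP

variable {R : Type u} [CommRing R]

theorem hv01 (e : ℕ) (g : R[X]) : hv 0 1 e g = g.coeff 0 := by
  rw [hv_eq, Finset.sum_eq_single 0]
  · simp
  · intro k _ hk
    simp [hk]
  · simp

theorem norm_X (h3 : S_Hn.{u}) {G : R[X]} (hG : G.Monic) (he : Even G.natDegree) :
    Algebra.norm R (AdjoinRoot.mk G X) = G.coeff 0 := by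
  have := h3 R G 0 1 hG
  rwa [Yp, C_1, C_0, one_mul, sub_zero, hv01, he.neg_one_pow, one_mul] at this

theorem unit_of_cop {f g : R[X]} (h : IsCoprime f g) : IsUnit (AdjoinRoot.mk f g) := by
  obtain ⟨a, b, hab⟩ := h
  have := congrArg (AdjoinRoot.mk f) hab
  rw [map_add, map_mul, map_mul, AdjoinRoot.mk_self, mul_zero, zero_add, map_one] at this
  exact IsUnit.of_mul_eq_one_right _ this

/-- a monic polynomial inverse to `X` modulo `G` and coprime to `H` -/
theorem exists_xi [Nontrivial R] [Finite (MaximalSpectrum R)] {G H : R[X]} (hG : G.Monic)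
    (hH : H.Monic) (h0 : IsUnit (G.coeff 0)) :
    ∃ ξ k : R[X], ξ.Monic ∧ X * ξ + k * G = 1 ∧ IsCoprime ξ H := by
  obtain ⟨v, hv⟩ := h0.exists_left_inv
  have e0 : X * (-(C v * G.divX)) + C v * G = 1 := by
    have e1 := X_mul_divX_add G
    have e2 : C v * C (G.coeff 0) = (1 : R[X]) := by rw [← C_mul, hv, C_1]
    linear_combination e2 - C v * e1
  have : Module.Finite R (AdjoinRoot H) := (AdjoinRoot.powerBasis' hH).finite
  have := semi_fin R (AdjoinRoot H)
  obtain ⟨r, hr, hu⟩ := lift_unit (Ideal.span {AdjoinRoot.mk H G})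
    (a := AdjoinRoot.mk H (-(C v * G.divX))) fun m hm hle ha => by
      have e1 := congrArg (AdjoinRoot.mk H) e0
      rw [map_add, map_mul, map_mul, map_one] at e1
      refine hm.ne_top ((Ideal.eq_top_iff_one _).2 (e1 ▸ m.add_mem (m.mul_mem_left _ ha)
        (m.mul_mem_left _ (hle (Ideal.mem_span_singleton_self _)))))
  obtain ⟨r', hr'⟩ := Ideal.mem_span_singleton'.1 hr
  obtain ⟨r0, rfl⟩ := AdjoinRoot.mk_surjective r'
  obtain ⟨w', hw'⟩ := hu.exists_left_inv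
  obtain ⟨w, rfl⟩ := AdjoinRoot.mk_surjective w'
  have e3 : AdjoinRoot.mk H (w * (-(C v * G.divX) + r0 * G)) = AdjoinRoot.mk H 1 := by
    rw [map_mul, map_add, map_mul (AdjoinRoot.mk H) r0, hr', add_sub_cancel, hw', map_one]
  obtain ⟨k, hk⟩ := AdjoinRoot.mk_eq_mk.1 e3
  set N := (-(C v * G.divX) + r0 * G).natDegree + 1 with hN
  have m1 : (G * H * X ^ N).Monic := (hG.mul hH).mul (monic_X_pow N)
  refine ⟨-(C v * G.divX) + r0 * G + G * H * X ^ N, C v - X * (r0 + H * X ^ N), ?_, ?_,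
    w, -k - w * G * X ^ N, ?_⟩
  · refine m1.add_of_right (degree_lt_degree ?_)
    rw [(hG.mul hH).natDegree_mul (monic_X_pow N), natDegree_X_pow]
    omega
  · linear_combination e0
  · linear_combination hk

end HomP

open Pool.Agent.P.MP_46a8f8_ag.GU.HomP in
theorem pHom (h1 : S_NPi.{u}) (h2 : S_Rcp.{u}) (h3 : S_Hn.{u}) : S_Hom.{u} := by
  intro R _ _ _ n c L H G hl hc hL e hG
  obtain ⟨P, ℓ, p1, p2, -, p4, p5⟩ := exists_G hL
  have e1 : H ^ 2 * G = C (c 0 ^ L.length * ℓ) * P := by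
    rw [← e, vp_eq, p4, C_mul, C_pow, mul_assoc]
    rfl
  have ua := p5.isUnit hc
  have e2 : H.leadingCoeff ^ 2 * G.leadingCoeff = c 0 ^ L.length * ℓ := by
    have := congrArg leadingCoeff e1
    rwa [leadingCoeff_mul, leadingCoeff_pow, leadingCoeff_mul, leadingCoeff_C, p1.leadingCoeff,
      mul_one] at this
  have uh : IsUnit H.leadingCoeff :=
    (isUnit_pow_iff two_ne_zero).1 (isUnit_of_mul_isUnit_left (e2 ▸ ua))
  have ug : IsUnit G.leadingCoeff := isUnit_of_mul_isUnit_right (e2 ▸ ua)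
  have ev : Even G.natDegree := by
    have := congrArg natDegree e1
    rw [natDegree_mul (pow_ne_zero 2 (leadingCoeff_ne_zero.1 uh.ne_zero))
      (leadingCoeff_ne_zero.1 ug.ne_zero), natDegree_pow, natDegree_C_mul ua.ne_zero, p2] at this
    exact ⟨(L.map dg).sum - H.natDegree, by omega⟩
  obtain ⟨G0, g1, g2, g3⟩ := exists_monic (g := G) le_rfl ug
  obtain ⟨H0, k1, -, k3⟩ := exists_monic (g := H) le_rfl uh
  rw [coeff_natDegree] at g3 k3
  have sg : Sn c G.leadingCoeff := (Sn.sq hc uh).of_eq hc p5 e2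
  have e3 : G.coeff 0 = G.leadingCoeff * G0.coeff 0 := by
    conv_lhs => rw [g3]
    rw [coeff_C_mul]
  rw [e3] at hG ⊢
  refine sg.mul ?_
  rw [← g2] at ev
  obtain ⟨ξ, k, x1, x2, x3⟩ := exists_xi g1 k1 (isUnit_of_mul_isUnit_right hG)
  have hc' : Ok2 (algebraMap R (AdjoinRoot ξ) ∘ c) := hc.map _
  have u1 : IsUnit (AdjoinRoot.mk ξ G0) := unit_of_cop ⟨X, k, x2⟩
  have u2 : IsUnit (AdjoinRoot.mk ξ H) := by
    rw [k3, map_mul]
    exact (uh.map (algebraMap R (AdjoinRoot ξ))).mul (unit_of_cop x3)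
  have e4 : AdjoinRoot.mk ξ H ^ 2 * algebraMap R (AdjoinRoot ξ) G.leadingCoeff *
      AdjoinRoot.mk ξ G0 =
      vp (algebraMap R (AdjoinRoot ξ) ∘ c) (L.map (AdjoinRoot.mk ξ ∘ ·)) := by
    have := map_vp (C ∘ c) (AdjoinRoot.mk ξ) L
    rw [e, map_mul, map_pow, g3, map_mul, ← mul_assoc] at this
    exact this
  have s1 : Sn (algebraMap R (AdjoinRoot ξ) ∘ c) (AdjoinRoot.mk ξ G0) :=
    ((Sn.sq hc' u2).mul (sg.map _)).of_eq hc'
      (Sn.of_vp (e4 ▸ ((u2.pow 2).mul (ug.map _)).mul u1)) e4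
  have s2 := h1 R n c ξ hl hc x1 _ s1
  rw [h2 R ξ G0 x1 g1, (ev.mul_left _).neg_one_pow, one_mul] at s2
  refine s2.inv hc ?_
  have e5 := congrArg (AdjoinRoot.mk G0) x2
  rw [map_add, map_mul, map_mul, AdjoinRoot.mk_self, mul_zero, add_zero, map_one] at e5
  rw [← norm_X h3 g1 ev, ← map_mul, mul_comm, e5, map_one]

end Pool.Agent.P.MP_46a8f8_ag.GU
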