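import Pool.Agent.P.MP_46a8f8_ag.GU.Sp

/-!
Elements of the Clifford algebra which act trivially.
-/

namespace Pool.Agent.P.MP_46a8f8_ag.GU

open TensorProduct Function IsLocalRing Polynomial

universe u

theorem pKer : S_Ker.{u} := by
  intro R E _ _ _ n c e α ρ x h hx
  have k1 : ∀ (S : Finset (Ix n)), ∀ a ∈ Algebra.adjoin R (e '' S),
      α a ∈ Algebra.adjoin R (e '' S) ∧ ∀ i ∉ S, a * e i = e i * α a := by
    intro S a ha
    induction ha using Algebra.adjoin_induction with
    | mem a ha =>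
      obtain ⟨j, hj, rfl⟩ := ha
      refine ⟨h.al j ▸ neg_mem (Algebra.subset_adjoin ⟨j, hj, rfl⟩), fun i hi => ?_⟩
      rw [h.al, mul_neg, h.anti j i fun e => hi (e ▸ hj)]
    | algebraMap r =>
      rw [α.commutes]
      exact ⟨Subalgebra.algebraMap_mem _ _, fun i _ => Algebra.commutes _ _⟩
    | add a b _ _ ha hb =>
      rw [map_add]
      exact ⟨add_mem ha.1 hb.1, fun i hi => by rw [add_mul, mul_add, ha.2 i hi, hb.2 i hi]⟩
    | mul a b _ _ ha hb =>
      rw [map_mul]
      exact ⟨mul_mem ha.1 hb.1, fun i hi => by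
        rw [mul_assoc, hb.2 i hi, ← mul_assoc, ha.2 i hi, mul_assoc]⟩
  have k2 : ∀ (S : Finset (Ix n)) (i : Ix n), i ∉ S →
      ∀ y ∈ Algebra.adjoin R (e '' (insert i S : Finset (Ix n))),
      ∃ a ∈ Algebra.adjoin R (e '' S), ∃ a' ∈ Algebra.adjoin R (e '' S), y = a + e i * a' := by
    intro S i hi y hy
    induction hy using Algebra.adjoin_induction with
    | mem a ha =>
      obtain ⟨j, hj, rfl⟩ := ha
      rcases Finset.mem_insert.1 hj with rfl | hj
      · exact ⟨0, zero_mem _, 1, one_mem _, by simp⟩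
      · exact ⟨e j, Algebra.subset_adjoin ⟨j, hj, rfl⟩, 0, zero_mem _, by simp⟩
    | algebraMap r => exact ⟨_, Subalgebra.algebraMap_mem _ r, 0, zero_mem _, by simp⟩
    | add _ _ _ _ ha hb =>
      obtain ⟨a, ha, a', ha', rfl⟩ := ha
      obtain ⟨b, hb, b', hb', rfl⟩ := hb
      exact ⟨a + b, add_mem ha hb, a' + b', add_mem ha' hb', by noncomm_ring⟩
    | mul _ _ _ _ ha hb =>
      obtain ⟨a, ha, a', ha', rfl⟩ := ha
      obtain ⟨b, hb, b', hb', rfl⟩ := hb
      refine ⟨a * b + algebraMap R E (c i) * (α a' * b'), add_mem (mul_mem ha hb)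
        (mul_mem (Subalgebra.algebraMap_mem _ _) (mul_mem (k1 S a' ha').1 hb')),
        α a * b' + a' * b, add_mem (mul_mem (k1 S a ha).1 hb') (mul_mem ha' hb), ?_⟩
      have e1 := (k1 S a ha).2 i hi
      have e2 := (k1 S a' ha').2 i hi
      calc (a + e i * a') * (b + e i * b')
          = a * b + (a * e i) * b' + e i * a' * b + e i * (a' * e i) * b' := by noncomm_ring
        _ = _ := by
          rw [e1, e2, ← h.sq]
          noncomm_ring
  have k3 : ∀ S : Finset (Ix n), x ∈ Algebra.adjoin R (e '' S) → ∃ r, x = algebraMap R E r := by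
    intro S
    induction S using Finset.induction_on with
    | empty =>
      intro hS
      rw [Finset.coe_empty, Set.image_empty, Algebra.adjoin_empty, Algebra.mem_bot] at hS
      obtain ⟨r, hr⟩ := hS
      exact ⟨r, hr.symm⟩
    | insert i S hi ih =>
      intro hS
      obtain ⟨a, ha, a', ha', e0⟩ := k2 S i hi x hS
      have e1 := (k1 S _ (k1 S a ha).1).2 i hi
      have e2 := (k1 S _ (k1 S a' ha').1).2 i hi
      rw [h.al_al] at e1 e2
      have e3 := hx i
      rw [e0, map_add, map_mul, h.al, add_mul, e1, mul_assoc, e2, mul_add, add_right_inj, neg_mul,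
        ← mul_assoc, h.sq, eq_neg_iff_add_eq_zero, ← two_smul R, ← Algebra.smul_def, smul_smul]
        at e3
      have e4 : a' = 0 := (h.ok.two.mul (h.ok.un i)).smul_eq_zero.1 e3
      exact ih (by rw [e0, e4, mul_zero, add_zero]; exact ha)
  refine k3 Finset.univ ?_
  rw [Finset.coe_univ, Set.image_univ, h.gen]
  exact Algebra.mem_top

end Pool.Agent.P.MP_46a8f8_ag.GU
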