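import Pool.Agent.P.MP_46a8f8_ag.GU.Sp

/-!
Lifting an orthogonal trivialisation to the Clifford group.
-/

namespace Pool.Agent.P.MP_46a8f8_ag.GU

open TensorProduct Function IsLocalRing

universe u

namespace LftP

section one

variable {R E : Type u} [CommRing R] [Ring E] [Algebra R E] {n : ℕ}

/-- the commuting involutions -/
noncomputable def tau (c' : Ix n → R) (e : Ix n → E) (α : E →ₐ[R] E)
    (φ : Matrix (Ix n) (Ix n) R) : Option (Ix n) → E →ₗ[R] E
  | none => α.toLinearMap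
  | some i => c' i • (LinearMap.mulLeft R (e i) ∘ₗ
      LinearMap.mulRight R (iv e (φ.mulVec (Pi.single i 1))))

theorem tau_none (c' : Ix n → R) (e : Ix n → E) (α : E →ₐ[R] E) (φ : Matrix (Ix n) (Ix n) R)
    (y : E) : tau c' e α φ none y = α y := rfl

theorem tau_some (c' : Ix n → R) (e : Ix n → E) (α : E →ₐ[R] E) (φ : Matrix (Ix n) (Ix n) R)
    (i : Ix n) (y : E) :
    tau c' e α φ (some i) y = c' i • (e i * (y * iv e (φ.mulVec (Pi.single i 1)))) := rfl

variable {c c' : Ix n → R} {e : Ix n → E} {α : E →ₐ[R] E} {ρ : E →ₗ[R] E}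
  {φ ψ : Matrix (Ix n) (Ix n) R}

theorem f_sq (h : ClD c e α ρ) (hφ : Ort c φ) (i : Ix n) :
    iv e (φ.mulVec (Pi.single i 1)) * iv e (φ.mulVec (Pi.single i 1)) = algebraMap R E (c i) := by
  rw [h.iv_sq, hφ.qv h.ok, ← h.iv_sq, iv_single, one_smul, h.sq]

theorem f_anti (h : ClD c e α ρ) (hφ : Ort c φ) {i j : Ix n} (hij : i ≠ j) :
    iv e (φ.mulVec (Pi.single i 1)) * iv e (φ.mulVec (Pi.single j 1)) =
      -(iv e (φ.mulVec (Pi.single j 1)) * iv e (φ.mulVec (Pi.single i 1))) := by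
  rw [eq_neg_iff_add_eq_zero, h.iv_mul_add, hφ.bv, ← h.iv_mul_add, iv_single, iv_single, one_smul,
    one_smul, h.anti i j hij, neg_add_cancel]

theorem tau_tau (h : ClD c e α ρ) (hφ : Ort c φ) (hc : ∀ i, c' i * c i = 1) (j : Option (Ix n))
    (y : E) : tau c' e α φ j (tau c' e α φ j y) = y := by
  cases j with
  | none => exact h.al_al y
  | some i =>
    simp only [tau_some, smul_mul_assoc, mul_smul_comm, mul_assoc]
    rw [f_sq h hφ, ← mul_assoc (e i), h.sq, ← Algebra.commutes, ← Algebra.smul_def,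
      ← Algebra.smul_def, smul_smul, smul_smul, smul_smul]
    have : c' i * c' i * c i * c i = 1 := by
      calc _ = (c' i * c i) * (c' i * c i) := by ring
        _ = 1 := by rw [hc, one_mul]
    rw [this, one_smul]

theorem tau_al (h : ClD c e α ρ) (i : Ix n) (y : E) :
    α (tau c' e α φ (some i) y) = tau c' e α φ (some i) (α y) := by
  simp only [tau_some, map_smul, map_mul, h.al, h.al_iv, mul_neg, neg_mul, neg_neg]

theorem tau_comm (h : ClD c e α ρ) (hφ : Ort c φ) (i j : Option (Ix n)) (y : E) :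
    tau c' e α φ i (tau c' e α φ j y) = tau c' e α φ j (tau c' e α φ i y) := by
  cases i with
  | none =>
    cases j with
    | none => rfl
    | some j => exact tau_al h j y
  | some i =>
    cases j with
    | none => exact (tau_al h i y).symm
    | some j =>
      by_cases hij : i = j
      · rw [hij]
      · simp only [tau_some, smul_mul_assoc, mul_smul_comm, mul_assoc]
        rw [f_anti h hφ hij, ← mul_assoc (e i), h.anti i j hij, smul_comm]
        simp only [mul_neg, neg_mul, mul_assoc]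

theorem fix_of_tw (h : ClD c e α ρ) (hφ : Ort c φ) (hc : ∀ i, c' i * c i = 1) (h1 : ψ * φ = 1)
    {y : E} (hy : Tw e α y ψ) (j : Option (Ix n)) : tau c' e α φ j y = y := by
  cases j with
  | none => exact hy.1
  | some i =>
    have := hy.2 (φ.mulVec (Pi.single i 1))
    rw [Matrix.mulVec_mulVec, h1, Matrix.one_mulVec, iv_single, one_smul] at this
    rw [tau_some, ← mul_assoc, this, mul_assoc, f_sq h hφ, ← Algebra.commutes, ← Algebra.smul_def,
      smul_smul, hc, one_smul]

theorem tw_of_fix (h : ClD c e α ρ) (hφ : Ort c φ) (hc : ∀ i, c' i * c i = 1) (h1 : φ * ψ = 1)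
    {y : E} (hy : ∀ j, tau c' e α φ j y = y) : Tw e α y ψ := by
  have k : ∀ i, e i * y = y * iv e (φ.mulVec (Pi.single i 1)) := by
    intro i
    have := congrArg (· * iv e (φ.mulVec (Pi.single i 1))) (hy (some i))
    simp only [tau_some, smul_mul_assoc, mul_assoc] at this
    rw [f_sq h hφ, ← Algebra.commutes, ← Algebra.smul_def, mul_smul_comm, smul_smul, hc,
      one_smul] at this
    exact this
  have k2 : ∀ w, iv e w * y = y * iv e (φ.mulVec w) := by
    intro w
    have hw : φ.mulVec w = ∑ i, w i • φ.mulVec (Pi.single i 1) := by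
      funext j
      simp [Matrix.mulVec, dotProduct, mul_comm]
    have e1 : iv e (φ.mulVec w) = ∑ i, w i • iv e (φ.mulVec (Pi.single i 1)) := by
      rw [hw]
      simp only [iv, Finset.sum_apply, Pi.smul_apply, smul_eq_mul, Finset.sum_smul,
        Finset.smul_sum, smul_smul]
      exact Finset.sum_comm
    rw [e1, Finset.mul_sum]
    conv_lhs => rw [iv, Finset.sum_mul]
    exact Finset.sum_congr rfl fun i _ => by rw [smul_mul_assoc, k, mul_smul_comm]
  refine ⟨hy none, fun v => ?_⟩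
  rw [k2, Matrix.mulVec_mulVec, h1, Matrix.one_mulVec]

theorem s0_map {R' : Type u} [CommRing R'] {F : Type*} [FunLike F R R'] [RingHomClass F R R']
    (f : F) (ε : ℤˣ) : (s0 R n ε).map f = s0 R' n ε := by
  rw [s0, s0, Matrix.diagonal_map (map_zero _)]
  congr 1
  funext i
  split_ifs <;> simp

theorem ort_inv (hψ : Ort c ψ) (h1 : ψ * φ = 1) : Ort c φ := by
  have e : φ.transpose * (ψ.transpose * Matrix.diagonal c * ψ) * φ =
      (ψ * φ).transpose * Matrix.diagonal c * (ψ * φ) := by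
    simp only [Matrix.transpose_mul, Matrix.mul_assoc]
  rw [hψ, h1] at e
  rw [Ort, e]
  simp

end one

section two

variable {R E : Type u} [CommRing R] [Ring E] [Algebra R E] {n : ℕ}
  {T T' : Type u} [CommRing T] [Algebra R T] [CommRing T'] [Algebra R T']

theorem comp_col (f : T →ₐ[R] T') (φ : Matrix (Ix n) (Ix n) T) (i : Ix n) :
    f ∘ φ.mulVec (Pi.single i 1) = (φ.map f).mulVec (Pi.single i 1) := by
  rw [Matrix.mulVec_single_one, Matrix.mulVec_single_one]
  rfl

theorem mp_tau (c' : Ix n → R) (e : Ix n → E) (α : E →ₐ[R] E) (φ : Matrix (Ix n) (Ix n) T)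
    (f : T →ₐ[R] T') (j : Option (Ix n)) (y : T ⊗[R] E) :
    mp E f (tau (algebraMap R T ∘ c') (eT e T) (aT α T) φ j y) =
      tau (algebraMap R T' ∘ c') (eT e T') (aT α T') (φ.map f) j (mp E f y) := by
  cases j with
  | none => exact mp_aT α f y
  | some i =>
    rw [tau_some, tau_some, H90P.mp_smul, map_mul, map_mul, mp_iv, comp_col]
    simp only [Function.comp, AlgHom.commutes, eT, H90P.mp_tmul, map_one]

theorem mp_alg (f : T →ₐ[R] T') (t : T) :
    mp E f (algebraMap T (T ⊗[R] E) t) = algebraMap T' (T' ⊗[R] E) (f t) := rfl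

theorem mp_surj {f : T →ₐ[R] T'} (hf : Surjective f) : Surjective (mp E f) := by
  intro x
  induction x using TensorProduct.induction_on with
  | zero => exact ⟨0, map_zero _⟩
  | tmul t a =>
    obtain ⟨s, rfl⟩ := hf t
    exact ⟨s ⊗ₜ a, rfl⟩
  | add x y hx hy =>
    obtain ⟨x, rfl⟩ := hx
    obtain ⟨y, rfl⟩ := hy
    exact ⟨x + y, map_add _ _ _⟩

theorem map_mul' (f : T →ₐ[R] T') (A B : Matrix (Ix n) (Ix n) T) :
    (A * B).map f = A.map f * B.map f := Matrix.map_mul (f := (f : T →+* T'))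

theorem map_one' (f : T →ₐ[R] T') : (1 : Matrix (Ix n) (Ix n) T).map f = 1 :=
  Matrix.map_one _ (map_zero _) (map_one _)

theorem comp_alg (f : T →ₐ[R] T') (c : Ix n → R) :
    f ∘ (algebraMap R T ∘ c) = algebraMap R T' ∘ c := by
  funext i
  exact f.commutes _

end two

end LftP

open LftP in
theorem pLft (h1 : S_TwE.{u}) (h2 : S_TwU.{u}) (h3 : S_Avg.{u}) : S_Lft.{u} := by
  intro R E O _ _ _ _ _ _ _ n c e α ρ g d ψ h hg hu hd hψ hc
  have hne : (maximalIdeal R).map (algebraMap R O) ≠ ⊤ := by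
    have := Module.FaithfullyFlat.submodule_ne_top (R := R) (M := O) (m := maximalIdeal R)
      (maximalIdeal.isMaximal R)
    intro ht
    apply this
    rw [Ideal.smul_top_eq_map, ht]
    rfl
  obtain ⟨N, hN, hle⟩ := Ideal.exists_le_maximal _ hne
  let _ : Field (O ⧸ N) := Ideal.Quotient.field N
  let f : O →ₐ[R] O ⧸ N := Ideal.Quotient.mkₐ R N
  have hf : Surjective f := Ideal.Quotient.mkₐ_surjective R N
  have hO := h.bc O
  have hK := h.bc (O ⧸ N)
  have hOO := h.bc (O ⊗[R] O)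
  have hψK : Ort (algebraMap R (O ⧸ N) ∘ c) (ψ.map f) := comp_alg f c ▸ hψ.map f
  obtain ⟨ε, γ, hγ0, hγ, hall⟩ := h1 (O ⧸ N) _ n _ _ _ _ (ψ.map f) hK hψK
  choose c' hc' using fun i => (h.ok.un i).exists_left_inv
  have hcT : ∀ (T : Type u) [CommRing T] [Algebra R T] (i : Ix n),
      (algebraMap R T ∘ c') i * (algebraMap R T ∘ c) i = 1 := by
    intro T _ _ i
    rw [Function.comp, Function.comp, ← map_mul, hc', map_one]
  set ψ' := s0 O n ε * ψ with hψ'
  have hψ'o : Ort (algebraMap R O ∘ c) ψ' := (Ort.s0 ε).mul hψ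
  obtain ⟨φ, hφ1, hφ2⟩ : ∃ φ, ψ' * φ = 1 ∧ φ * ψ' = 1 := by
    obtain ⟨w, hw⟩ := hψ'o.isUnit hO.ok
    exact ⟨(w⁻¹ : _ˣ), by rw [← hw, Units.mul_inv], by rw [← hw, Units.inv_mul]⟩
  have hφo : Ort (algebraMap R O ∘ c) φ := ort_inv hψ'o hφ1
  have hφK : Ort (algebraMap R (O ⧸ N) ∘ c) (φ.map f) := comp_alg f c ▸ hφo.map f
  have hψ'K : ψ'.map f = s0 (O ⧸ N) n ε * ψ.map f := by rw [hψ', map_mul', s0_map]
  have hdφ : d * φ.map (H90P.iL R O O) = φ.map (H90P.iR R O O) := by
    have e1 : ψ'.map (H90P.iL R O O) = ψ'.map (H90P.iR R O O) * d := by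
      rw [hψ', map_mul', map_mul', s0_map, s0_map, hc, Matrix.mul_assoc]
    calc d * φ.map (H90P.iL R O O)
        = (φ * ψ').map (H90P.iR R O O) * d * φ.map (H90P.iL R O O) := by
          rw [hφ2, map_one', Matrix.one_mul]
      _ = φ.map (H90P.iR R O O) * (ψ' * φ).map (H90P.iL R O O) := by
          rw [map_mul' _ φ ψ', map_mul' _ ψ' φ, e1]
          simp only [Matrix.mul_assoc]
      _ = _ := by rw [hφ1, map_one', Matrix.mul_one]
  have hmem : ∀ y : O ⊗[R] E, y ∈ LinearMap.ker (H90P.del g) ↔ mp E (H90P.iL R O O) y =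
      mp E (H90P.iR R O O) y * g (O ⊗[R] O) (H90P.iL R O O) (H90P.iR R O O) := by
    intro y
    rw [LinearMap.mem_ker, H90P.del_apply, sub_eq_zero, eq_comm]
  obtain ⟨y, hyN, hyf, hy0⟩ := h3 R (O ⧸ N) (O ⊗[R] E) ((O ⧸ N) ⊗[R] E) (Option (Ix n))
    (fun j => (tau (algebraMap R O ∘ c') (eT e O) (aT α O) φ j).restrictScalars R)
    (tau (algebraMap R (O ⧸ N) ∘ c') (eT e (O ⧸ N)) (aT α (O ⧸ N)) (φ.map f))
    (mp E f).toLinearMap.toAddMonoidHom (LinearMap.ker (H90P.del g)) γ h.ok.two hK.ok.two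
    (fun j y => tau_tau hO hφo (hcT O) j y) (fun i j y => tau_comm hO hφo i j y)
    (fun j y hy => by
      rw [hmem] at hy ⊢
      rw [LinearMap.restrictScalars_apply, mp_tau, mp_tau, hy]
      cases j with
      | none => rw [tau_none, tau_none, map_mul, hd.1]
      | some i =>
        rw [tau_some, tau_some, ← hdφ, ← Matrix.mulVec_mulVec, smul_mul_assoc]
        simp only [mul_assoc]
        rw [hd.2])
    (fun j y => mp_tau c' e α φ f j y)
    (fix_of_tw hK hφK (hcT _) (by rw [← hψ'K, ← map_mul', hφ1, map_one']) hγ) hγ0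
    (by
      obtain ⟨w, rfl⟩ := mp_surj (E := E) hf γ
      obtain ⟨x, rfl⟩ := H90P.mu_surjective (c := g) hg.nat hg.one hg.mul w
      clear hγ0 hγ
      induction x using TensorProduct.induction_on with
      | zero => simp
      | tmul o z =>
        rw [H90P.mu_tmul, H90P.mp_smul]
        exact Submodule.smul_mem _ _ (Submodule.subset_span ⟨z, z.2, rfl⟩)
      | add x x' hx hx' =>
        rw [map_add, map_add]
        exact add_mem hx hx')
  have hyT : Tw (eT e O) (aT α O) y ψ' := tw_of_fix hO hφo (hcT O) hφ2 hyf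
  rw [hmem] at hyN
  obtain ⟨u₀, hu1, hu2⟩ := h2 O _ n _ _ _ _ y ψ' hO hψ'o hyT
  have hdesc : H90P.iL R O O u₀ = H90P.iR R O O u₀ := by
    apply hOO.alg_inj
    have hg1 := hu.1
    rw [conj_eq] at hg1
    rw [← mp_alg, ← mp_alg, ← hu1, map_mul, map_mul, mp_bc, mp_bc, hyN, hOO.rh_mul, mul_assoc,
      ← mul_assoc (g _ _ _), hg1, one_mul]
  obtain ⟨u, rfl⟩ := mem_range_of_eq (R := R) u₀ hdesc
  have huU : IsUnit u := by
    by_contra hnu
    have hyK := hyT.mp f
    rw [hψ'K] at hyK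
    apply hall _ hyK hy0
    rw [← mp_bc, ← map_mul, hu1, mp_alg]
    have : f (algebraMap R O u) = 0 :=
      Ideal.Quotient.eq_zero_iff_mem.2 (hle (Ideal.mem_map_of_mem _ hnu))
    rw [this, map_zero]
  exact ⟨y, ψ', u, huU, hψ'o, hyT, hu1, hu2 (huU.map _), hyN⟩

end Pool.Agent.P.MP_46a8f8_ag.GU
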