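import Pool.Agent.P.MP_46a8f8_ag.GU.Sp

/-!
Homogeneous coordinates, and lengths on a finite cover.
-/

namespace Pool.Agent.P.MP_46a8f8_ag.GU

open TensorProduct Function IsLocalRing Polynomial

universe u

theorem pLnA : S_LnA.{u} := by
  intro R _ _ n c y m s t j hc hP hi hj h1 h2
  have : Nontrivial R :=
    nontrivial_of_ne 1 0 fun e => hP.max.ne_top ((Ideal.eq_top_iff_one m).2 (e ▸ m.zero_mem))
  obtain ⟨j, rfl⟩ := Nat.exists_eq_add_of_le' hj
  choose g hg hg' using fun i => exists_hv s t (hP.gen ▸ ct_le.1 h1 i)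
  have hs : s ∈ m := hP.gen ▸ Ideal.subset_span (by simp)
  have ht : t ∈ m := hP.gen ▸ Ideal.subset_span (by simp)
  have h3 : ¬ ct (cf g (j + 1)) ≤ m := fun h => h2 (ct_le.2 fun i => by
    rw [← hg' i, hv_eq, Finset.sum_range_succ, Nat.sub_self, pow_zero, mul_one]
    refine Submodule.add_mem_sup (Ideal.sum_mem _ fun k hk => Ideal.mul_mem_left _ _
      (Ideal.pow_mem_of_mem _ (Ideal.mem_span_singleton_self t) _
        (Nat.sub_pos_of_lt (Finset.mem_range.1 hk)))) ?_
    rw [pow_succ' m]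
    exact Ideal.mul_mem_mul (ct_le.1 h i) (Ideal.pow_mem_pow hs _))
  obtain ⟨x, hx, hx'⟩ := lift_vec hc (Ideal.span {t}) (x := cf g (j + 1)) fun m' hm' hI h => by
    obtain rfl : m' = m := by
      by_contra hn
      exact (hP.oth m' hm' hn).2 (hI (Ideal.mem_span_singleton_self t))
    exact hi ⟨_, h, h3⟩
  choose r hr using fun i => Ideal.mem_span_singleton'.1 (hx i)
  have hd : ∀ i, (C (r i) * X ^ j : R[X]).natDegree ≤ j := fun i => natDegree_C_mul_X_pow_le _ _
  have hd' : ∀ i, (g i + Yp s t * (C (r i) * X ^ j)).natDegree ≤ j + 1 := fun i =>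
    (natDegree_add_le _ _).trans (max_le (hg i) (natDegree_mul_le.trans
      ((add_le_add (natDegree_Yp s t) (hd i)).trans (add_comm _ _).le)))
  have e : cf (fun i => g i + Yp s t * (C (r i) * X ^ j)) (j + 1) = x := funext fun i => by
    have : (Yp s t * (C (r i) * X ^ j)).coeff (j + 1) = r i * t := by
      rw [add_comm j, coeff_mul_add_eq_of_natDegree_le (natDegree_Yp s t) (hd i)]
      rw [mul_comm]
      simp [Yp]
    rw [cf, coeff_add, this, hr]
    exact add_sub_cancel _ _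
  obtain ⟨e1, e2⟩ := tp_of hd' (e ▸ hx')
  refine ⟨_, e2, e1, funext fun i => ?_⟩
  rw [hvv, e1, hv_add, hv_Yp_mul s t (hd i), add_zero, hg']

theorem pBlL : S_BlL.{u} := by
  intro R _ n s t f p h
  have h1 : Module.length (AdjoinRoot f) (AdjoinRoot f ⧸ ct (AdjoinRoot.mk f ∘ p)) ≤
      Module.length R (AdjoinRoot f ⧸ ct (AdjoinRoot.mk f ∘ p)) := by
    rw [← WithBot.coe_le_coe, Module.coe_length, Module.coe_length]
    exact Order.krullDim_le_of_strictMono (Submodule.restrictScalars R)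
      (Submodule.restrictScalarsEmbedding R _ _).strictMono
  refine h1.trans (Module.length_le_of_surjective (Ideal.Quotient.liftₐ _
    ((Ideal.Quotient.mkₐ R (ct (AdjoinRoot.mk f ∘ p))).comp (AdjoinRoot.mkₐ f))
    fun a ha => ?_).toLinearMap fun x => ?_)
  · have k : ∀ b ∈ ct p, AdjoinRoot.mk f b ∈ ct (AdjoinRoot.mk f ∘ p) := fun b hb =>
      ct_map p (AdjoinRoot.mk f) ▸ Ideal.mem_map_of_mem _ hb
    obtain ⟨b, hb, d, hd, rfl⟩ := Submodule.mem_sup.1 ha
    obtain ⟨b, rfl⟩ := Ideal.mem_span_singleton'.1 hb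
    refine Ideal.Quotient.eq_zero_iff_mem.2 ?_
    have := k _ (Ideal.sub_mem _ hd (Ideal.mul_mem_left _ b h))
    convert this using 1
    simp [add_comm]
  · obtain ⟨x, rfl⟩ := Ideal.Quotient.mk_surjective x
    obtain ⟨x, rfl⟩ := AdjoinRoot.mk_surjective x
    exact ⟨Ideal.Quotient.mk _ x, rfl⟩

end Pool.Agent.P.MP_46a8f8_ag.GU
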