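import Pool.Agent.P.MP_46a8f8_ag.GU.Sp

/-!
Clearing denominators, and norms of regular elements.
-/

namespace Pool.Agent.P.MP_46a8f8_ag.GU

open TensorProduct Function IsLocalRing Polynomial

universe u

theorem pLoc : S_Loc.{u} := by
  intro R O _ _ _ M _ n c u hM ⟨l, _, h⟩
  suffices H : ∃ l', ∃ z ∈ M, algebraMap R O (vp c l') =
      vp (algebraMap R O ∘ c) l * algebraMap R O z ^ 2 by
    obtain ⟨l', z, hz, e⟩ := H
    exact ⟨l', z, hz, IsLocalization.injective O hM (by rw [e, ← h, map_mul, map_pow])⟩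
  clear h
  rename_i h0
  clear h0
  induction l with
  | nil => exact ⟨[], 1, one_mem _, by simp [vp]⟩
  | cons x l ih =>
    obtain ⟨l', z, hz, e⟩ := ih
    obtain ⟨b, hb⟩ := IsLocalization.exist_integer_multiples_of_finite M x
    choose y hy using hb
    refine ⟨y :: l', b * z, mul_mem b.2 hz, ?_⟩
    have : algebraMap R O ∘ y = algebraMap R O b • x := funext fun i => by
      rw [Function.comp, hy, Pi.smul_apply, smul_eq_mul, Algebra.smul_def]
    rw [vp_cons, vp_cons, map_mul, e, map_vl, this, vl_smul, map_mul]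
    ring

theorem pNz : S_Nz.{u} := by
  intro R S _ _ _ _ _ α
  classical
  let b := Module.Free.chooseBasis R S
  obtain ⟨β, hβ⟩ : ∃ β, α * β = algebraMap R S (Algebra.norm R α) := by
    refine ⟨Matrix.toLin b b (Algebra.leftMulMatrix b α).adjugate 1, ?_⟩
    have h := congrArg (fun M => Matrix.toLin b b M 1)
      (Matrix.mul_adjugate (Algebra.leftMulMatrix b α))
    simp only [Matrix.toLin_mul b b b, map_smul, Matrix.toLin_one, LinearMap.comp_apply,
      LinearMap.smul_apply, LinearMap.id_apply] at h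
    rw [Algebra.norm_eq_matrix_det b, Algebra.algebraMap_eq_smul_one, ← h,
      Algebra.leftMulMatrix_apply, Matrix.toLin_toMatrix]
    rfl
  refine ⟨fun h => isUnit_of_mul_isUnit_left (hβ ▸ h.map (algebraMap R S)), fun h => ?_⟩
  refine mem_nonZeroDivisors_iff_left.2 fun x hx => b.ext_elem fun i => ?_
  have : Algebra.norm R α • x = 0 := by
    rw [Algebra.smul_def, ← hβ, mul_right_comm, hx, zero_mul]
  have := congrArg (b.repr · i) this
  simp only [map_smul, Finsupp.smul_apply, smul_eq_mul, map_zero, Finsupp.zero_apply] at this ⊢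
  exact mem_nonZeroDivisors_iff_left.1 h _ this

end Pool.Agent.P.MP_46a8f8_ag.GU
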