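import Pool.Agent.P.MP_46a8f8_ag.GU.Sp

/-!
The norm principle for a generator.
-/

namespace Pool.Agent.P.MP_46a8f8_ag.GU

open TensorProduct Function IsLocalRing Polynomial

universe u

theorem pNP0 (h1 : S_Cl.{u}) : S_NP0.{u} := by
  intro R S _ _ _ _ _ _ n c x hc hx hg
  rcases subsingleton_or_nontrivial R with hR | hR
  · exact Sn.triv _
  set γ := vl (algebraMap R S ∘ c) x with hγ
  set χ := (Algebra.lmul R S γ).charpoly with hχ
  have hm : χ.Monic := LinearMap.charpoly_monic _
  have h0 : aeval γ χ = 0 := Algebra.aeval_self_charpoly_lmul γ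
  have hd : χ.natDegree = Module.finrank R S := LinearMap.charpoly_natDegree _
  have hN : Algebra.norm R γ = (-1) ^ χ.natDegree * χ.coeff 0 := by
    rw [hd]
    exact LinearMap.det_eq_sign_charpoly_coeff _
  have hs : Surjective (aeval γ : R[X] →ₐ[R] S) := by
    rw [← AlgHom.range_eq_top, ← Algebra.adjoin_singleton_eq_range_aeval, hg]
  let l : AdjoinRoot χ →ₐ[R] S := AdjoinRoot.liftAlgHom χ (Algebra.ofId R S) γ h0
  have hl : ∀ P : R[X], l (AdjoinRoot.mk χ P) = aeval γ P := fun _ => rfl
  have := hm.free_adjoinRoot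
  have := hm.finite_adjoinRoot
  have hr : Module.finrank R S = Module.finrank R (AdjoinRoot χ) := by
    rw [(AdjoinRoot.powerBasis' hm).finrank, AdjoinRoot.powerBasis'_dim, hd]
  have hi : Injective l := OrzechProperty.injective_of_surjective_of_injective
    (LinearEquiv.ofFinrankEq _ _ hr.symm).toLinearMap l.toLinearMap
    (LinearEquiv.injective _) fun s => by
      obtain ⟨P, rfl⟩ := hs s
      exact ⟨AdjoinRoot.mk χ P, hl P⟩
  choose p hp using fun i => hs (x i)
  have hu : IsUnit γ := ((hc.map (algebraMap R S)).un 0).mul hx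
  rw [hN]
  refine h1 R n c χ p hc hm (isUnit_of_mul_isUnit_right (hN ▸ hu.map (Algebra.norm R))) ?_
  rw [← AdjoinRoot.mk_eq_zero]
  refine hi ?_
  rw [hl, map_zero, map_sub, map_vl, aeval_X, sub_eq_zero, hγ]
  congr 1
  · exact funext fun i => aeval_C _ _
  · exact funext hp

end Pool.Agent.P.MP_46a8f8_ag.GU
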