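import Pool.Agent.P.MP_46a8f8_ag.GU.Sp

/-!
Normalising an element of the Clifford group.
-/

namespace Pool.Agent.P.MP_46a8f8_ag.GU

open TensorProduct Function IsLocalRing Polynomial

universe u

namespace NrzP

variable {R E : Type u} [CommRing R] [Ring E] [Algebra R E] {n : ℕ} {c : Ix n → R} {e : Ix n → E}
  {α : E →ₐ[R] E} {ρ : E →ₗ[R] E}

/-- `y` moves vectors to vectors in both directions -/
def Nv (e : Ix n → E) (R : Type u) [CommRing R] [Algebra R E] (y : E) : Prop :=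
  (∀ v : Ix n → R, ∃ w : Ix n → R, iv e w * y = y * iv e v) ∧
    ∀ w : Ix n → R, ∃ v : Ix n → R, iv e w * y = y * iv e v

theorem Nv.mul {y y' : E} (h : Nv e R y) (h' : Nv e R y') : Nv e R (y * y') := by
  refine ⟨fun v => ?_, fun w => ?_⟩
  · obtain ⟨w, hw⟩ := h'.1 v
    obtain ⟨w', hw'⟩ := h.1 w
    exact ⟨w', by rw [← mul_assoc, hw', mul_assoc, hw, mul_assoc]⟩
  · obtain ⟨v, hv⟩ := h.2 w
    obtain ⟨v', hv'⟩ := h'.2 v
    exact ⟨v', by rw [← mul_assoc, hv, mul_assoc, hv', mul_assoc]⟩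

theorem Nv.smul {y : E} (h : Nv e R y) (a : R) : Nv e R (a • y) :=
  ⟨fun v => (h.1 v).imp fun w hw => by rw [mul_smul_comm, hw, smul_mul_assoc],
    fun w => (h.2 w).imp fun v hv => by rw [mul_smul_comm, hv, smul_mul_assoc]⟩

theorem nv_iv (h : ClD c e α ρ) {w : Ix n → R} (hw : IsUnit (qv c w)) : Nv e R (iv e w) := by
  have k : ∀ v : Ix n → R, iv e ((-1 : R) • v) = -iv e v := fun v => by rw [iv_smul, neg_one_smul]
  refine ⟨fun v => ⟨(-1 : R) • rf c w v, by rw [k, neg_mul, h.iv_rf hw, neg_neg]⟩,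
    fun v => ⟨(-1 : R) • rf c w v, ?_⟩⟩
  rw [k, mul_neg, ← h.iv_rf hw, rf_rf hw]

theorem nv_tw (hc : Ok2 c) {y : E} {ψ : Matrix (Ix n) (Ix n) R} (hψ : Ort c ψ)
    (h : Tw e α y ψ) : Nv e R y := by
  obtain ⟨φ, hφ⟩ := (hψ.isUnit hc).exists_right_inv
  refine ⟨fun v => ⟨_, h.2 v⟩, fun w => ⟨φ.mulVec w, ?_⟩⟩
  rw [← h.2, Matrix.mulVec_mulVec, hφ, Matrix.one_mulVec]

/-- an element with a given spinor norm -/
theorem exists_a (h : ClD c e α ρ) {u : R} (hu : Sn c u) :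
    ∃ l : List (Ix n → R), (∀ w ∈ l, IsUnit (qv c w)) ∧ Even l.length ∧ qp c l = u := by
  obtain ⟨l, hl, rfl⟩ := hu
  induction l with
  | nil => exact ⟨[], by simp, by simp, rfl⟩
  | cons x l ih =>
    obtain ⟨l', h1, h2, h3⟩ := ih fun w hw => hl w (List.mem_cons_of_mem _ hw)
    have e0 : qv c (Pi.single 0 1) = c 0 := by rw [qv_single, one_pow, mul_one]
    refine ⟨Pi.single 0 1 :: x :: l', ?_, ?_, ?_⟩
    · simpa [e0, h.ok.un 0, hl x List.mem_cons_self] using h1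
    · simpa [Nat.even_add_one] using h2
    · rw [qp_cons, qp_cons, vp_cons, h3, e0, vl, mul_assoc]

end NrzP

open NrzP in
theorem pNrz : S_Nrz.{u} := by
  intro R E O _ _ _ _ _ n c e α ρ y ψ u h hu hψ hy e1 e2
  have h' := h.bc O
  obtain ⟨l, l1, l2, rfl⟩ := exists_a h hu
  obtain ⟨v, hv⟩ := (hu.isUnit h.ok).exists_left_inv
  let l' := l.map (algebraMap R O ∘ ·)
  have l3 : ∀ w ∈ l', IsUnit (qv (algebraMap R O ∘ c) w) := fun w hw => by
    obtain ⟨x, hx, rfl⟩ := List.mem_map.1 hw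
    exact map_qv c x (algebraMap R O) ▸ (l1 x hx).map _
  set γ := (l'.map (iv (eT (R := R) e O))).prod with hγ
  have e0 : (1 : O) ⊗ₜ[R] (v • (l.map (iv e)).prod) = algebraMap R O v • γ := by
    rw [tmul_smul, algebraMap_smul, hγ]
    congr 1
    change (Algebra.TensorProduct.includeRight : E →ₐ[R] O ⊗[R] E) _ = _
    rw [map_list_prod, List.map_map, List.map_map]
    congr 1
    refine List.map_congr_left fun x _ => ?_
    simp [iv, eT]
  have hv' : algebraMap R O v * algebraMap R O (qp c l) = 1 := by rw [← map_mul, hv, map_one]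
  obtain ⟨n1, n2⟩ := h'.norm l'
  rw [← hγ, ← map_qp] at n1 n2
  have a1 : aT α O γ = γ := by
    have := (h'.ref l3).2
    rwa [List.length_map, l2.neg_one_pow, one_smul] at this
  have a2 : Nv (eT (R := R) e O) O γ := List.prod_induction _ (fun _ _ => Nv.mul)
    ⟨fun v => ⟨v, by simp⟩, fun v => ⟨v, by simp⟩⟩ fun x hx => by
      obtain ⟨w, hw, rfl⟩ := List.mem_map.1 hx
      exact nv_iv h' (l3 w hw)
  have a3 := (a2.smul (algebraMap R O v)).mul (nv_tw h'.ok hψ hy)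
  rw [conj_eq] at e1 e2
  refine ⟨v • (l.map (iv e)).prod, ?_⟩
  rw [e0]
  set z := algebraMap R O v • γ * y with hz
  have u1 : z * conj ρ z = 1 := by
    rw [conj_eq, hz, h'.rh_mul, map_smul, mul_assoc, ← mul_assoc y, e1, ← Algebra.smul_def,
      smul_smul, mul_comm (algebraMap R O _), hv', one_smul, smul_mul_assoc, n1, Algebra.smul_def,
      ← map_mul, hv', map_one]
  have u2 : conj ρ z * z = 1 := by
    rw [conj_eq, hz, h'.rh_mul, map_smul, mul_assoc, ← mul_assoc _ _ y, smul_mul_smul_comm, n2,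
      Algebra.smul_def, ← map_mul, mul_assoc, hv', mul_one, ← Algebra.smul_def, mul_smul_comm, e2,
      Algebra.smul_def, ← map_mul, hv', map_one]
  refine ⟨by rw [hz, map_mul, map_smul, a1, hy.1], ⟨u1, u2⟩, fun x => ⟨?_, ?_⟩⟩
  · rintro ⟨v, rfl⟩
    obtain ⟨w, hw⟩ := a3.1 v
    exact ⟨w, by rw [← hw, mul_assoc, u1, mul_one]⟩
  · rintro ⟨w, hw⟩
    obtain ⟨v, hv⟩ := a3.2 w
    refine ⟨v, ?_⟩
    rw [hw, mul_assoc, u2, mul_one] at hv
    rw [← one_mul x, ← u2, mul_assoc, hv, ← mul_assoc, u2, one_mul]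

end Pool.Agent.P.MP_46a8f8_ag.GU
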