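import Pool.Agent.P.MP_46a8f8_ag.GU.Sp

/-!
Orthogonal bases of nondegenerate quadratic forms over local rings.
-/

namespace Pool.Agent.P.MP_46a8f8_ag.GU

open Function IsLocalRing

universe u

namespace OrBP

variable {R V : Type u} [CommRing R] [AddCommGroup V] [Module R V]

theorem sym (Q : QuadraticForm R V) (x y : V) : Q.polarBilin x y = Q.polarBilin y x := by
  simp only [QuadraticMap.polarBilin_apply_apply, QuadraticMap.polar_comm Q x y]

theorem exists_unit [IsLocalRing R] (Q : QuadraticForm R V) (hQ : Surjective Q.polarBilin)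
    (t : V →ₗ[R] R) (v : V) (ht : t v = 1) : ∃ x, IsUnit (Q x) := by
  by_contra h
  push Not at h
  have h1 : ∀ x, Q x ∈ maximalIdeal R := fun x => (mem_maximalIdeal _).2 (h x)
  obtain ⟨y, rfl⟩ := hQ t
  have h2 : Q.polarBilin y v ∈ maximalIdeal R := by
    rw [QuadraticMap.polarBilin_apply_apply, QuadraticMap.polar]
    exact sub_mem (sub_mem (h1 _) (h1 _)) (h1 _)
  rw [ht] at h2
  exact (maximalIdeal.isMaximal R).ne_top ((Ideal.eq_top_iff_one _).2 h2)

/-- the projection to the orthogonal complement -/
theorem exists_proj (Q : QuadraticForm R V) (x : V) (hx : IsUnit (Q.polarBilin x x)) :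
    ∃ (π : V →ₗ[R] LinearMap.ker (Q.polarBilin x)) (s : V → R),
      (∀ v, (π v : V) = v + s v • x) ∧ (∀ y : LinearMap.ker (Q.polarBilin x), π y = y) ∧
      π x = 0 := by
  obtain ⟨a, ha⟩ := hx.exists_left_inv
  refine ⟨LinearMap.codRestrict _ (LinearMap.id - (a • Q.polarBilin x).smulRight x) fun v => ?_,
    fun v => -(a * Q.polarBilin x v), fun v => ?_, fun y => Subtype.ext ?_, Subtype.ext ?_⟩
  · simp only [LinearMap.mem_ker, LinearMap.sub_apply, LinearMap.id_apply,
      LinearMap.smulRight_apply, LinearMap.smul_apply, map_sub, map_smul, smul_eq_mul]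
    rw [mul_right_comm, ha, one_mul, sub_self]
  · simp only [LinearMap.codRestrict_apply, LinearMap.sub_apply, LinearMap.id_apply,
      LinearMap.smulRight_apply, LinearMap.smul_apply, smul_eq_mul, neg_smul]
    rw [sub_eq_add_neg]
  · have : Q.polarBilin x y = 0 := y.2
    simp only [LinearMap.codRestrict_apply, LinearMap.sub_apply, LinearMap.id_apply,
      LinearMap.smulRight_apply, LinearMap.smul_apply, smul_eq_mul, this, mul_zero, zero_smul,
      sub_zero]
  · simp only [LinearMap.codRestrict_apply, LinearMap.sub_apply, LinearMap.id_apply,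
      LinearMap.smulRight_apply, LinearMap.smul_apply, smul_eq_mul, ha, one_smul, sub_self,
      ZeroMemClass.coe_zero]

theorem bij_res (Q : QuadraticForm R V) (hQ : Bijective Q.polarBilin) (x : V)
    (hx : IsUnit (Q.polarBilin x x)) :
    Bijective (Q.comp (LinearMap.ker (Q.polarBilin x)).subtype).polarBilin := by
  obtain ⟨π, s, h1, h2, h3⟩ := exists_proj Q x hx
  have e : ∀ y z : LinearMap.ker (Q.polarBilin x),
      (Q.comp (LinearMap.ker (Q.polarBilin x)).subtype).polarBilin y z = Q.polarBilin y z := by
    intro y z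
    rw [QuadraticMap.polarBilin_comp]
    rfl
  have e2 : ∀ (y : LinearMap.ker (Q.polarBilin x)) (v : V),
      Q.polarBilin y (π v) = Q.polarBilin y v := by
    intro y v
    have : Q.polarBilin x y = 0 := y.2
    rw [h1, map_add, map_smul, sym Q y x, this, smul_zero, add_zero]
  constructor
  · rw [injective_iff_map_eq_zero]
    intro y hy
    refine Subtype.ext (hQ.1 ?_)
    ext v
    rw [← e2, ← e, hy]
    simp
  · intro φ
    obtain ⟨y, hy⟩ := hQ.2 (φ ∘ₗ π)
    have hy0 : y ∈ LinearMap.ker (Q.polarBilin x) := by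
      rw [LinearMap.mem_ker, sym, hy, LinearMap.comp_apply, h3, map_zero]
    refine ⟨⟨y, hy0⟩, ?_⟩
    ext z
    rw [e]
    change Q.polarBilin y z = _
    rw [hy, LinearMap.comp_apply, h2]

end OrBP

open OrBP in
theorem pOrB : S_OrB := by
  intro R V _ _ _ _ _ _ Q m h2 hQ hm
  induction m generalizing V with
  | zero =>
    exact ⟨Module.finBasisOfFinrankEq R V hm, fun i => i.elim0, fun i => i.elim0⟩
  | succ m ih =>
    have b0 := Module.finBasisOfFinrankEq R V hm
    obtain ⟨x, hx⟩ := exists_unit Q hQ.2 (b0.coord 0) (b0 0) (by simp)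
    have hx2 : IsUnit (Q.polarBilin x x) := by
      rw [QuadraticMap.polarBilin_apply_apply, QuadraticMap.polar_self, two_nsmul, ← two_mul]
      exact h2.mul hx
    have hb := bij_res Q hQ x hx2
    have hp := exists_proj Q x hx2
    set N := LinearMap.ker (Q.polarBilin x) with hN
    obtain ⟨π, s, h1, h3, -⟩ := hp
    have : Module.Finite R N := Module.Finite.of_surjective π fun y => ⟨y, h3 y⟩
    have : Module.Projective R N :=
      Module.Projective.of_split N.subtype π (LinearMap.ext fun y => h3 y)
    have : Module.Free R N := Module.free_of_flat_of_isLocalRing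
    have hli : ∀ c : R, ∀ y ∈ N, c • x + y = 0 → c = 0 := by
      intro c y hy h
      have h4 := congrArg (Q.polarBilin x) h
      rw [map_add, map_smul, LinearMap.mem_ker.1 hy, add_zero, map_zero, smul_eq_mul] at h4
      exact hx2.mul_left_eq_zero.1 h4
    have hsp : ∀ z : V, ∃ c : R, z + c • x ∈ N := fun z => ⟨s z, h1 z ▸ (π z).2⟩
    have hr : Module.finrank R N = m := by
      have := Module.finrank_eq_card_basis
        (Module.Basis.mkFinCons x (Module.finBasis R N) hli hsp)
      rw [hm, Fintype.card_fin] at this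
      omega
    obtain ⟨b, hb1, hb2⟩ := ih N (Q.comp N.subtype) hb hr
    have o : ∀ j, QuadraticMap.polar Q x (b j) = 0 := fun j => (b j).2
    refine ⟨Module.Basis.mkFinCons x b hli hsp, fun i => ?_, fun i j hij => ?_⟩
    · rw [Module.Basis.coe_mkFinCons]
      refine Fin.cases ?_ (fun i => ?_) i
      · exact hx
      · exact hb1 i
    · rw [Module.Basis.coe_mkFinCons]
      revert hij
      refine Fin.cases ?_ (fun i => ?_) i <;> refine Fin.cases ?_ (fun j => ?_) j <;> intro hij
      · exact absurd rfl hij
      · exact o j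
      · rw [QuadraticMap.polar_comm]
        exact o i
      · have := hb2 i j fun h => hij (congrArg _ h)
        rw [← QuadraticMap.polarBilin_apply_apply, QuadraticMap.polarBilin_comp] at this
        exact this

end Pool.Agent.P.MP_46a8f8_ag.GU
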