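import Pool.Agent.P.MP_46a8f8_ag.GU.Sp

namespace Pool.Agent.P.MP_46a8f8_ag.GU

universe u

open Polynomial

namespace PertP

variable {R : Type u} [CommRing R]

/-- an element of all maximal ideals outside finitely many non maximal primes -/
theorem exists_j [Finite (MaximalSpectrum R)] (s : Set (Ideal R)) (hs : s.Finite)
    (hp : ∀ p ∈ s, p.IsPrime) (hm : ∀ p ∈ s, ¬ p.IsMaximal) :
    ∃ j : R, (∀ m : Ideal R, m.IsMaximal → j ∈ m) ∧ ∀ p ∈ s, j ∉ p := by
  classical
  have := Fintype.ofFinite (MaximalSpectrum R)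
  by_contra hn
  have h : ((Finset.univ.inf fun m : MaximalSpectrum R => m.asIdeal : Ideal R) : Set R) ⊆
      ⋃ p ∈ s, ((id p : Ideal R) : Set R) := by
    intro j hj
    by_contra hj'
    refine hn ⟨j, fun m hm => ?_, fun p hp h => hj' ?_⟩
    · exact (Finset.inf_le (f := fun m : MaximalSpectrum R => m.asIdeal)
        (Finset.mem_univ (⟨m, hm⟩ : MaximalSpectrum R))) hj
    · exact Set.mem_biUnion hp h
  obtain ⟨p, hps, hle⟩ := (Ideal.subset_union_prime_finite hs ⊤ ⊤ fun p h _ _ => hp p h).1 h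
  obtain ⟨m, -, hm'⟩ := ((hp p hps).inf_le').1 hle
  have e : m.asIdeal = p := m.isMaximal.eq_of_le (hp p hps).ne_top hm'
  exact hm p hps (e ▸ m.isMaximal)

theorem step (h : S_Av1.{u}) [IsNoetherianRing R] [Finite (MaximalSpectrum R)] (hL : Lam R)
    (I : Ideal R) (b y : R) : ∃ δ : R, (∀ m : Ideal R, m.IsMaximal → δ ∈ m) ∧
      ∀ p ∈ I.minimalPrimes, ¬ p.IsMaximal → y ∉ p → b - y * δ ∉ p := by
  set s : Set (Ideal R) := {p | p ∈ I.minimalPrimes ∧ ¬ p.IsMaximal ∧ y ∉ p} with hs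
  have hf : s.Finite := (I.finite_minimalPrimes_of_isNoetherianRing R).subset fun p hp => hp.1
  have hp : ∀ p ∈ s, p.IsPrime := fun p hp => hp.1.1.1
  obtain ⟨j, hj, hj'⟩ := exists_j s hf hp fun p hp => hp.2.1
  have := hf.to_subtype
  obtain ⟨a, ha⟩ := h R s (fun p => p.1) (fun _ => C b - C (y * j) * X) hL (fun p => hp p.1 p.2)
    fun p => ⟨1, by
      intro hc
      have e : (C b - C (y * j) * X : R[X]).coeff 1 = -(y * j) := by
        rw [coeff_sub, coeff_C_mul, coeff_X_one, coeff_C]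
        simp
      rw [e, neg_mem_iff] at hc
      rcases (hp p.1 p.2).mem_or_mem hc with h1 | h1
      · exact p.2.2.2 h1
      · exact hj' p.1 p.2 h1⟩
  refine ⟨j * a, fun m hm => m.mul_mem_right _ (hj m hm), fun p h1 h2 h3 hc => ?_⟩
  refine ha ⟨p, h1, h2, h3⟩ ?_
  have e : (C b - C (y * j) * X : R[X]).eval a = b - y * (j * a) := by
    rw [eval_sub, eval_mul, eval_C, eval_C, eval_X, mul_assoc]
  rw [e]
  exact hc

/-- no chain of four primes in dimension two -/
theorem no_chain (hd : ringKrullDim R ≤ 2) (p₀ p₁ p₂ p₃ : PrimeSpectrum R) (h₀ : p₀ < p₁)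
    (h₁ : p₁ < p₂) (h₂ : p₂ < p₃) : False := by
  have a₀ := Order.height_add_one_le h₀
  have a₁ := Order.height_add_one_le h₁
  have a₂ := Order.height_add_one_le h₂
  have a : (3 : ℕ∞) ≤ Order.height p₃ := by
    calc (3 : ℕ∞) = 0 + 1 + 1 + 1 := by norm_num
      _ ≤ Order.height p₀ + 1 + 1 + 1 := by gcongr; exact zero_le
      _ ≤ Order.height p₁ + 1 + 1 := by gcongr
      _ ≤ Order.height p₂ + 1 := by gcongr
      _ ≤ Order.height p₃ := a₂
  have b : ((Order.height p₃ : ℕ∞) : WithBot ℕ∞) ≤ 2 := (Order.height_le_krullDim p₃).trans hd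
  have c : ((3 : ℕ∞) : WithBot ℕ∞) ≤ ((2 : ℕ∞) : WithBot ℕ∞) := (WithBot.coe_le_coe.2 a).trans b
  have d := WithBot.coe_le_coe.1 c
  norm_num at d

end PertP

theorem pPert (h : S_Av1.{u}) : S_Pert.{u} := by
  intro R _ _ _ n y w hd hL hZ hw
  obtain ⟨δ₁, h1, h1'⟩ := PertP.step h hL ⊥ (y 1 * w 0 - y 0 * w 1) (y 0)
  obtain ⟨δ₂, h2, h2'⟩ := PertP.step h hL (Ideal.span {y 1 * w 0 - y 0 * w 1 - y 0 * δ₁})
    (y 2 * w 0 - y 0 * w 2) (y 0)
  have n01 : (0 : Ix n) ≠ 1 := by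
    intro e
    simpa using congrArg Fin.val e
  have n02 : (0 : Ix n) ≠ 2 := by
    intro e
    have := congrArg Fin.val e
    rw [Fin.val_two, Fin.val_zero] at this
    omega
  have n21 : (2 : Ix n) ≠ 1 := by
    intro e
    have := congrArg Fin.val e
    rw [Fin.val_two, Fin.val_one] at this
    omega
  refine ⟨fun i => w i + if i = 1 then δ₁ else if i = 2 then δ₂ else 0, fun m hm i => ?_,
    fun q hq hP => ?_⟩
  · rw [add_sub_cancel_left]
    split_ifs
    · exact h1 m hm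
    · exact h2 m hm
    · exact m.zero_mem
  · by_contra hn
    by_cases h0 : y 0 ∈ q
    · refine hn (hZ q hq (Ideal.span_le.2 ?_))
      rintro _ ⟨i, rfl⟩
      have a := hP i 0
      simp only [if_neg n01, if_neg n02, add_zero] at a
      have b : y i * w 0 ∈ q := by
        have b' := q.add_mem a
          (q.mul_mem_right (w i + if i = 1 then δ₁ else if i = 2 then δ₂ else 0) h0)
        rwa [sub_add_cancel] at b'
      rcases hq.mem_or_mem b with c | c
      · exact c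
      · exact absurd (q.eq_top_of_isUnit_mem c hw) hq.ne_top
    · have a1 := hP 1 0
      have a2 := hP 2 0
      simp only [if_neg n01, if_neg n02, if_neg n21, add_zero, if_true] at a1 a2
      have b1 : y 1 * w 0 - y 0 * w 1 - y 0 * δ₁ ∈ q := by
        have e : y 1 * w 0 - y 0 * w 1 - y 0 * δ₁ = y 1 * w 0 - y 0 * (w 1 + δ₁) := by ring
        rw [e]
        exact a1
      have b2 : y 2 * w 0 - y 0 * w 2 - y 0 * δ₂ ∈ q := by
        have e : y 2 * w 0 - y 0 * w 2 - y 0 * δ₂ = y 2 * w 0 - y 0 * (w 2 + δ₂) := by ring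
        rw [e]
        exact a2
      obtain ⟨p₁, hp₁, l₁⟩ := Ideal.exists_minimalPrimes_le
        ((Ideal.span_singleton_le_iff_mem q).2 b1)
      have i₁ : p₁.IsPrime := hp₁.1.1
      obtain ⟨p₀, hp₀, l₀⟩ := Ideal.exists_minimalPrimes_le (bot_le : (⊥ : Ideal R) ≤ p₁)
      have i₀ : p₀.IsPrime := hp₀.1.1
      have m₁ : ¬ p₁.IsMaximal := fun hm => hn (hm.eq_of_le hq.ne_top l₁ ▸ hm)
      have m₀ : ¬ p₀.IsMaximal := fun hm => m₁ (hm.eq_of_le i₁.ne_top l₀ ▸ hm)
      have c₂ := h2' p₁ hp₁ m₁ fun hc => h0 (l₁ hc)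
      have c₁ := h1' p₀ hp₀ m₀ fun hc => h0 (l₁ (l₀ hc))
      obtain ⟨m, hm, lm⟩ := q.exists_le_maximal hq.ne_top
      refine PertP.no_chain hd ⟨p₀, i₀⟩ ⟨p₁, i₁⟩ ⟨q, hq⟩ ⟨m, hm.isPrime⟩ ?_ ?_ ?_
      · refine lt_of_le_of_ne l₀ fun e => c₁ ?_
        have e' : p₀ = p₁ := congrArg PrimeSpectrum.asIdeal e
        rw [e']
        exact hp₁.1.2 (Ideal.mem_span_singleton_self _)
      · refine lt_of_le_of_ne l₁ fun e => c₂ ?_
        have e' : p₁ = q := congrArg PrimeSpectrum.asIdeal e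
        rw [e']
        exact b2
      · refine lt_of_le_of_ne lm fun e => hn ?_
        have e' : q = m := congrArg PrimeSpectrum.asIdeal e
        rw [e']
        exact hm

end Pool.Agent.P.MP_46a8f8_ag.GU
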