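import Pool.Agent.P.MP_46a8f8_ag.GU.Sp
import Pool.Agent.P.MP_46a8f8_ag.GU.Ht1

namespace Pool.Agent.P.MP_46a8f8_ag.GU

universe u

open QuadraticAlgebra

namespace Pr1P

variable {T : Type u} [CommRing T]

/-- the ideal of one of the two roots is principal -/
theorem exists_gen (g k : T) [Finite (MaximalSpectrum (QuadraticAlgebra T (1 + g * k) 0))]
    (h2 : IsUnit (2 : QuadraticAlgebra T (1 + g * k) 0)) :
    ∃ g' x y : QuadraticAlgebra T (1 + g * k) 0, g' ∣ algebraMap T _ g ∧ g' ∣ omega - 1 ∧
      g' = x * algebraMap T _ g + y * (omega - 1) := by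
  have hw : (omega - 1 : QuadraticAlgebra T (1 + g * k) 0) * (omega + 1) =
      algebraMap T _ g * algebraMap T _ k := by
    ext <;> simp [algebraMap_re, algebraMap_im]
  obtain ⟨g', hg'⟩ := pLP (QuadraticAlgebra T (1 + g * k) 0)
    (Ideal.span {algebraMap T _ g, omega - 1}) fun 𝔫 h𝔫 => by
      by_cases h : (omega + 1 : QuadraticAlgebra T (1 + g * k) 0) ∈ 𝔫
      · refine ⟨omega - 1, Ideal.subset_span (by simp), fun b _ => ⟨omega - 1, fun h' => ?_,
          dvd_mul_right _ _⟩⟩
        refine h𝔫.ne_top (𝔫.eq_top_of_isUnit_mem ?_ h2)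
        have e : (2 : QuadraticAlgebra T (1 + g * k) 0) = omega + 1 - (omega - 1) := by ring
        rw [e]
        exact 𝔫.sub_mem h h'
      · refine ⟨algebraMap T _ g, Ideal.subset_span (by simp), fun b hb => ⟨omega + 1, h, ?_⟩⟩
        obtain ⟨x, y, rfl⟩ := Ideal.mem_span_pair.1 hb
        exact ⟨(omega + 1) * x + y * algebraMap T _ k, by linear_combination y * hw⟩
  have hg : Ideal.span {algebraMap T (QuadraticAlgebra T (1 + g * k) 0) g, omega - 1} =
      Ideal.span {g'} := hg'
  obtain ⟨x, y, e⟩ := Ideal.mem_span_pair.1 (hg.ge (Ideal.mem_span_singleton_self g'))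
  exact ⟨g', x, y, Ideal.mem_span_singleton.1 (hg.le (Ideal.subset_span (by simp))),
    Ideal.mem_span_singleton.1 (hg.le (Ideal.subset_span (by simp))), e.symm⟩

theorem dvd_of_gen {g k t : T} {g' x y : QuadraticAlgebra T (1 + g * k) 0}
    (e : g' = x * algebraMap T _ g + y * (omega - 1)) (h : g' ∣ algebraMap T _ t) : g ∣ t := by
  obtain ⟨z, hz⟩ := h
  have e' : algebraMap T (QuadraticAlgebra T (1 + g * k) 0) t =
      z * x * algebraMap T _ g + z * y * (omega - 1) := by
    rw [hz, e]
    ring
  generalize z * x = p at e'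
  generalize z * y = q at e'
  have e1 := congrArg QuadraticAlgebra.re e'
  have e2 := congrArg QuadraticAlgebra.im e'
  simp [algebraMap_re, algebraMap_im] at e1 e2
  exact ⟨p.re + p.im + k * q.im, by linear_combination e1 + e2⟩

end Pr1P

theorem pPr1 : S_Pr1.{u} := by
  intro R T _ _ _ _ F g a h2 hP ha
  obtain ⟨⟨a₀, s⟩, rfl⟩ := IsLocalization.mk'_surjective (On g) a
  have hs : g ∣ (s : T) - 1 := s.2
  have ha' : IsLocalization.mk' (Localization (On g)) a₀ s * toW g s = toW g a₀ :=
    IsLocalization.mk'_spec _ a₀ s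
  have h0 : g ∣ a₀ - s := dvd_of_toW (by
    have e : toW g (a₀ - s) = (IsLocalization.mk' (Localization (On g)) a₀ s - 1) * toW g s := by
      rw [map_sub, sub_mul, ha', one_mul]
    rw [e]
    exact Dvd.dvd.mul_right ha _)
  obtain ⟨k, hk⟩ : g ∣ a₀ * s - 1 := by
    have e : a₀ * s - 1 = (a₀ - s) * s + ((s : T) - 1) * (s + 1) := by ring
    rw [e]
    exact dvd_add (h0.mul_right _) (hs.mul_right _)
  have := hP.fin
  have hT : IsScalarTower R T (QuadraticAlgebra T (1 + g * k) 0) := inferInstance
  have hf : Module.Finite R (QuadraticAlgebra T (1 + g * k) 0) := Module.Finite.trans T _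
  have := semi_fin R (QuadraticAlgebra T (1 + g * k) 0)
  have h2' : IsUnit (2 : QuadraticAlgebra T (1 + g * k) 0) := by
    have := h2.map (algebraMap R (QuadraticAlgebra T (1 + g * k) 0))
    rwa [map_ofNat] at this
  obtain ⟨g', x, y, d1, d2, e⟩ := Pr1P.exists_gen g k h2'
  have hle : On g ≤ (On g').comap (algebraMap T (QuadraticAlgebra T (1 + g * k) 0)) := by
    intro t ht
    have h1 : g ∣ t - 1 := ht
    have h3 := d1.trans (map_dvd (algebraMap T (QuadraticAlgebra T (1 + g * k) 0)) h1)
    rw [map_sub, map_one] at h3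
    exact h3
  have hφ : ∀ t, IsLocalization.map (Localization (On g')) _ hle (toW g t) =
      toW g' (algebraMap T _ t) := fun t => IsLocalization.map_eq hle t
  have hu : IsUnit (toW g' (algebraMap T (QuadraticAlgebra T (1 + g * k) 0) s)) :=
    IsLocalization.map_units (Localization (On g')) (⟨_, hle s.2⟩ : On g')
  have hρ : IsLocalization.mk' (Localization (On g')) omega (⟨_, hle s.2⟩ : On g') *
      toW g' (algebraMap T _ s) = toW g' omega := IsLocalization.mk'_spec _ _ _
  refine ⟨QuadraticAlgebra T (1 + g * k) 0, inferInstance, inferInstance, g',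
    IsLocalization.map (Localization (On g')) _ hle,
    IsLocalization.mk' (Localization (On g')) omega (⟨_, hle s.2⟩ : On g'),
    ⟨hf, fun p q h => ?_, fun t => ?_, fun r => ?_⟩, fun r => ?_, ?_, ?_, ?_⟩
  · obtain ⟨z, hz⟩ := d1
    have h' : g' * p = g' * q := h
    have e1 : algebraMap T _ g * p = algebraMap T _ g * q := by
      rw [hz]
      linear_combination z * h'
    have e2 := congrArg QuadraticAlgebra.re e1
    have e3 := congrArg QuadraticAlgebra.im e1
    simp [algebraMap_re, algebraMap_im] at e2 e3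
    exact QuadraticAlgebra.ext (hP.reg e2) (hP.reg e3)
  · obtain ⟨r, m, hm⟩ := hP.gen (t.re + t.im)
    refine ⟨r, ?_⟩
    have e1 : t - algebraMap R _ r = algebraMap T _ g * algebraMap T _ m +
        (omega - 1) * algebraMap T _ t.im := by
      rw [IsScalarTower.algebraMap_apply R T]
      ext
      · simp [algebraMap_re, algebraMap_im]
        linear_combination hm
      · simp [algebraMap_re, algebraMap_im]
    rw [e1]
    exact dvd_add (d1.mul_right _) (d2.mul_right _)
  · rw [IsScalarTower.algebraMap_apply R T, ← hP.ker]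
    exact ⟨Pr1P.dvd_of_gen e, fun h => d1.trans (map_dvd _ h)⟩
  · rw [hφ, ← IsScalarTower.algebraMap_apply]
  · rw [hφ]
    exact map_dvd _ d1
  · have e1 := congrArg (IsLocalization.map (Localization (On g')) _ hle) ha'
    rw [map_mul, hφ, hφ] at e1
    have e2 : (omega : QuadraticAlgebra T (1 + g * k) 0) * omega =
        algebraMap T _ a₀ * algebraMap T _ s := by
      rw [← map_mul, omega_mul_omega_eq_algebraMap, map_zero, zero_mul, add_zero]
      congr 1
      linear_combination -hk
    have e3 := congrArg (toW g') e2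
    rw [map_mul, map_mul, ← hρ, ← e1] at e3
    refine (hu.mul hu).mul_right_cancel ?_
    linear_combination e3
  · refine hu.dvd_mul_right.1 ?_
    rw [sub_mul, hρ, one_mul, ← map_sub]
    refine map_dvd _ ?_
    have e1 : (omega : QuadraticAlgebra T (1 + g * k) 0) - algebraMap T _ s =
        omega - 1 - (algebraMap T _ s - 1) := by ring
    rw [e1]
    exact dvd_sub d2 (hle s.2)

theorem pPr0 (h : S_Pr1.{u}) : S_Pr0.{u} := by
  intro R T _ _ _ _ n c F g hc hP hS
  classical
  have key : ∀ A : Finset (Ix n), ∃ (T' : Type u) (_ : CommRing T') (_ : Algebra R T') (g' : T')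
      (j : R →+* Localization (On g')) (ρ : Ix n → Localization (On g')), Prs F g' ∧ j F = 0 ∧
      (∀ r, toW g' g' ∣ j r - toW g' (algebraMap R T' r)) ∧ ∀ i ∈ A,
        toW g' (algebraMap R T' (c i)) * ρ i ^ 2 = j (c i) ∧ toW g' g' ∣ ρ i - 1 := by
    intro A
    induction A using Finset.induction_on with
    | empty =>
      obtain ⟨j, h0, h1⟩ := hS
      exact ⟨T, inferInstance, inferInstance, g, j, 0, hP, h0, h1, by simp⟩
    | insert i A _ ih =>
      obtain ⟨T₁, _, _, g₁, j, ρ, p1, p2, p3, p4⟩ := ih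
      obtain ⟨v, hv⟩ := (((hc.un i).map (algebraMap R T₁)).map (toW g₁)).exists_right_inv
      have ha : toW g₁ g₁ ∣ j (c i) * v - 1 := by
        have e : j (c i) * v - 1 = (j (c i) - toW g₁ (algebraMap R T₁ (c i))) * v := by
          rw [sub_mul, hv]
        rw [e]
        exact (p3 _).mul_right _
      obtain ⟨T₂, _, _, g₂, φ, σ, q1, q2, q3, q4, q5⟩ := h R T₁ F g₁ _ hc.two p1 ha
      refine ⟨T₂, inferInstance, inferInstance, g₂, φ.comp j, Function.update (φ ∘ ρ) i σ, q1,
        by rw [RingHom.comp_apply, p2, map_zero], fun r => ?_, fun l hl => ?_⟩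
      · rw [RingHom.comp_apply, ← q2, ← map_sub]
        exact q3.trans (map_dvd φ (p3 r))
      · by_cases e : l = i
        · subst e
          rw [Function.update_self, q4, ← q2, ← map_mul, RingHom.comp_apply]
          refine ⟨congrArg φ ?_, q5⟩
          linear_combination j (c l) * hv
        · obtain ⟨r1, r2⟩ := p4 l ((Finset.mem_insert.1 hl).resolve_left e)
          rw [Function.update_of_ne e, Function.comp_apply, ← q2, ← map_pow, ← map_mul, r1]
          refine ⟨rfl, q3.trans ?_⟩
          have := map_dvd φ r2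
          rwa [map_sub, map_one] at this
  obtain ⟨T', _, _, g', j, ρ, p1, p2, p3, p4⟩ := key Finset.univ
  exact ⟨T', inferInstance, inferInstance, g', j, ρ, p1, p2, p3,
    fun i => (p4 i (Finset.mem_univ i)).1, fun i => (p4 i (Finset.mem_univ i)).2⟩

end Pool.Agent.P.MP_46a8f8_ag.GU
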