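import Pool.Agent.P.MP_46a8f8_ag.GU.Sp
import Pool.Agent.P.MP_46a8f8_ag.GU.G3

/-!
Polynomial representatives near the section.
-/

namespace Pool.Agent.P.MP_46a8f8_ag.GU

open TensorProduct Function IsLocalRing Polynomial

universe u

open G3P in
theorem pPr2 : S_Pr2.{u} := by
  intro R T _ _ _ _ _ F g h
  classical
  have := h.fin
  obtain ⟨s, hs, hs'⟩ := exists_s g h.gen
  obtain ⟨Q, hQm, -, hQc, hQ⟩ := exists_Q hs hs' ((h.ker F).2 dvd_rfl)
  obtain ⟨u, hu, hu'⟩ := exists_u h.reg (fun r => (h.ker r).1) hQc hQ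
  have hu0 : u.coeff 0 = 1 := by
    have := X_dvd_iff.1 hu
    rwa [coeff_sub, coeff_one_zero, sub_eq_zero] at this
  have adj : ∀ (P : R[X]) (r : R), g ∣ aeval g P - algebraMap R T r →
      ∃ P' : R[X], P'.coeff 0 = r ∧ aeval g P' = aeval g P := fun P r hP => by
    obtain ⟨k, hk⟩ := (h.ker (P.coeff 0 - r)).1 (by
      have := dvd_sub hP (dvd_aeval_sub g P)
      rwa [sub_sub_sub_cancel_left, ← map_sub] at this)
    refine ⟨P - C k * Q, ?_, by simp [hQ]⟩
    rw [coeff_sub, coeff_C_mul, hQc]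
    linear_combination hk
  have one : ∀ w : Localization (On g), ∃ σ P : R[X], σ.coeff 0 = 1 ∧
      toW g (aeval g P) = toW g (aeval g σ) * w := fun w => by
    obtain ⟨⟨t, m⟩, rfl⟩ := IsLocalization.mk'_surjective (On g) w
    obtain ⟨P, hP⟩ := hs' t
    obtain ⟨P', hP'⟩ := hs' m
    obtain ⟨σ, h1, h2⟩ := adj P' 1 (by
      rw [hP', map_one]
      exact mul_mem (show aeval g s ∈ On g from one_mod hs) m.2)
    refine ⟨σ, P, h1, ?_⟩
    rw [h2, hP, hP', map_mul, map_mul, mul_assoc]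
    exact congrArg _ (IsLocalization.mk'_spec' (Localization (On g)) t m).symm
  choose σ P hσ hP using one
  refine ⟨Q, u, hQm, hQc, hu0, hQ, hu', fun A => ⟨∏ w ∈ A, σ w, by
    rw [← constantCoeff_apply, map_prod]
    exact Finset.prod_eq_one fun w _ => hσ w, fun w hw r hr => ?_⟩⟩
  have e : toW g (aeval g ((∏ w' ∈ A.erase w, σ w') * P w)) =
      toW g (aeval g (∏ w ∈ A, σ w)) * w := by
    rw [← Finset.prod_erase_mul A σ hw, map_mul, map_mul, map_mul, map_mul, hP, mul_assoc]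
  have h1 : g ∣ aeval g (∏ w ∈ A, σ w) - 1 := by
    have := dvd_aeval_sub g (∏ w ∈ A, σ w)
    rwa [← constantCoeff_apply, map_prod constantCoeff,
      Finset.prod_eq_one (f := fun w => constantCoeff (σ w)) fun w _ => hσ w, map_one] at this
  obtain ⟨P', h2, h3⟩ := adj ((∏ w' ∈ A.erase w, σ w') * P w) r (dvd_of_toW (by
    rw [map_sub, e]
    have := dvd_add ((map_dvd (toW g) h1).mul_right w) hr
    rw [map_sub, map_one] at this
    convert this using 1
    ring))
  exact ⟨P', h2, by rw [h3, e]⟩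

end Pool.Agent.P.MP_46a8f8_ag.GU
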