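import Pool.Agent.P.MP_46a8f8_ag.GU.Sp
import Pool.Agent.P.MP_46a8f8_ag.GU.UFD
import Pool.Agent.P.MP_46a8f8_ag.GU.Ht1
import Pool.Agent.P.MP_46a8f8_ag.GU.RegR

/-!
Over a regular local ring of dimension at most two the vectors can be taken primitive.
-/

namespace Pool.Agent.P.MP_46a8f8_ag.GU

open TensorProduct Function IsLocalRing Polynomial

universe u

namespace PrimP

theorem ln_ne_top {O : Type u} [CommRing O] [IsNoetherianRing O] {n : ℕ} (y : Ix n → O)
    (h : Zd y) : ln y ≠ ⊤ := by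
  have hk : Ring.KrullDimLE 0 (O ⧸ ct y) := by
    refine Ring.krullDimLE_zero_iff.mpr fun J hJ => ?_
    have h1 : (J.comap (Ideal.Quotient.mk (ct y))).IsMaximal := by
      refine h _ (Ideal.comap_isPrime _ J) ?_
      intro a ha
      rw [Ideal.mem_comap, Ideal.Quotient.eq_zero_iff_mem.2 ha]
      exact J.zero_mem
    rcases Ideal.map_eq_top_or_isMaximal_of_surjective _
      (Ideal.Quotient.mk_surjective (I := ct y)) h1 with h2 | h2
    · rw [Ideal.map_comap_of_surjective _ Ideal.Quotient.mk_surjective] at h2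
      exact absurd h2 hJ.ne_top
    · rwa [Ideal.map_comap_of_surjective _ Ideal.Quotient.mk_surjective] at h2
  have ha : IsArtinianRing (O ⧸ ct y) := isArtinianRing_iff_krullDimLE_zero.2 hk
  rw [ln, Module.length_eq_of_surjective (R := O ⧸ ct y) Ideal.Quotient.mk_surjective,
    Module.length_ne_top_iff]
  exact (isArtinianRing_iff_isFiniteLength _).1 ha

theorem prim {O : Type u} [CommRing O] [IsRegularLocalRing O] (hd : ringKrullDim O ≤ 2) {n : ℕ}
    (i : Ix n) (a : O) : ∀ y : Ix n → O, y i = a → a ≠ 0 →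
      ∃ (d : O) (y' : Ix n → O), y = d • y' ∧ Zd y' := by
  have : IsDomain O := rDom O
  induction a using (wellFounded_dvdNotUnit (α := O)).induction with
  | _ a ih =>
    intro y hy ha
    by_cases hz : Zd y
    · exact ⟨1, y, (one_smul _ _).symm, hz⟩
    · simp only [Zd, not_forall] at hz
      obtain ⟨p, hp, hle, hm⟩ := hz
      have hpm : p ≠ maximalIdeal O := by
        rintro rfl
        exact hm (maximalIdeal.isMaximal O)
      obtain ⟨π, rfl⟩ := pHt1 O p hd hp hpm
      have hdv : ∀ j, ∃ b, y j = π * b := fun j =>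
        Ideal.mem_span_singleton.1 (hle (Ideal.subset_span ⟨j, rfl⟩))
      choose y1 hy1 using hdv
      have hu : ¬ IsUnit π := fun h => hp.ne_top (Ideal.span_singleton_eq_top.2 h)
      have h0 : y1 i ≠ 0 := by
        intro h
        apply ha
        rw [← hy, hy1, h, mul_zero]
      obtain ⟨d, y', h1, h2⟩ := ih (y1 i) ⟨h0, π, hu, by rw [← hy, hy1]; exact mul_comm _ _⟩ y1 rfl h0
      refine ⟨π * d, y', ?_, h2⟩
      funext j
      rw [hy1 j, h1]
      simp [mul_assoc]

theorem list {O : Type u} [CommRing O] [IsRegularLocalRing O] (hd : ringKrullDim O ≤ 2) {n : ℕ}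
    (c : Ix n → O) (l : List (Ix n → O)) (h : vp c l ≠ 0) :
    ∃ (D : O) (l' : List (Ix n → O)), vp c l = D ^ 2 * vp c l' ∧ (l'.map ln).sum ≠ ⊤ := by
  induction l with
  | nil => exact ⟨1, [], by simp, by simp⟩
  | cons y l ih =>
    rw [vp_cons] at h ⊢
    obtain ⟨D, l', h1, h2⟩ := ih (right_ne_zero_of_mul h)
    have hy : y ≠ 0 := by
      rintro rfl
      apply h
      rw [vl, qv_zero, mul_zero, zero_mul]
    obtain ⟨i, hi⟩ := Function.ne_iff.1 hy
    obtain ⟨d, y', rfl, hz⟩ := prim hd i (y i) y rfl hi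
    refine ⟨d * D, y' :: l', ?_, ?_⟩
    · rw [vp_cons, vl_smul, h1]
      ring
    · rw [List.map_cons, List.sum_cons]
      exact WithTop.add_ne_top.2 ⟨ln_ne_top y' hz, h2⟩

end PrimP

theorem pPrim : S_Prim.{u} := by
  intro O _ _ n c l u z hd _ hu hz h
  have : IsDomain O := rDom O
  have : IsRegularRing O := RegRP.reg_base pHt1 O hd
  have : UniqueFactorizationMonoid O := pUFD O
  have h0 : vp c l ≠ 0 := by
    rw [h]
    exact mul_ne_zero hu.ne_zero (pow_ne_zero 2 hz)
  obtain ⟨D, l', h1, h2⟩ := PrimP.list hd c l h0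
  have hD : D ≠ 0 := by
    rintro rfl
    apply h0
    rw [h1]
    simp
  have hdv : D ^ 2 ∣ z ^ 2 := hu.dvd_mul_left.1 ⟨vp c l', by rw [← h, h1]⟩
  obtain ⟨z', rfl⟩ := (IsIntegrallyClosed.pow_dvd_pow_iff two_ne_zero).1 hdv
  refine ⟨l', z', right_ne_zero_of_mul hz, ?_, h2⟩
  apply mul_left_cancel₀ (pow_ne_zero 2 hD)
  rw [← h1, h]
  ring

end Pool.Agent.P.MP_46a8f8_ag.GU
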