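import Pool.Agent.P.MP_46a8f8_ag.GU.Sp

/-!
Choice of regular parameters transversal to finitely many vectors.
-/

namespace Pool.Agent.P.MP_46a8f8_ag.GU

open Polynomial

universe u

namespace PrmP

variable {R : Type u} [CommRing R]

theorem not_sq_le {m m' : Ideal R} (hm : m.IsMaximal) (hm' : m'.IsMaximal) (h : m' ≠ m) :
    ¬ m ^ 2 ≤ m' := fun e =>
  h (hm.eq_of_le hm'.ne_top (hm'.isPrime.le_of_pow_le e)).symm

theorem exists_ps [IsNoetherianRing R] [Finite (MaximalSpectrum R)] {m : Ideal R}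
    (hm : m.IsMaximal) (h : RegAt R m 2) : ∃ s t, PS m s t := by
  obtain ⟨-, a, ha, hg⟩ := h
  obtain ⟨s, hs, hs'⟩ := crt (m ^ 2) (a 0) fun _ => 1
  obtain ⟨t, ht, ht'⟩ := crt (m ^ 2) (a 1) fun _ => 1
  have h2 : m ^ 2 ≤ m := Ideal.pow_le_self two_ne_zero
  have oth : ∀ m' : Ideal R, m'.IsMaximal → m' ≠ m → s ∉ m' ∧ t ∉ m' := fun m' hm' e =>
    ⟨fun k => hm'.ne_top ((Ideal.eq_top_iff_one _).2
        (by simpa using m'.sub_mem k (hs' m' hm' (not_sq_le hm hm' e)))),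
      fun k => hm'.ne_top ((Ideal.eq_top_iff_one _).2
        (by simpa using m'.sub_mem k (ht' m' hm' (not_sq_le hm hm' e))))⟩
  have sm : s ∈ Ideal.span {s, t} := Ideal.subset_span (by simp)
  have tm : t ∈ Ideal.span {s, t} := Ideal.subset_span (by simp)
  have k1 : Ideal.span (Set.range a) ≤ Ideal.span {s, t} ⊔ m • m := by
    rw [Ideal.span_le, Set.range_subset_iff, smul_eq_mul, ← pow_two]
    intro i
    fin_cases i
    · have := sub_mem (Ideal.mem_sup_left sm) (Ideal.mem_sup_right (S := Ideal.span {s, t}) hs)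
      simpa using this
    · have := sub_mem (Ideal.mem_sup_left tm) (Ideal.mem_sup_right (S := Ideal.span {s, t}) ht)
      simpa using this
  have k2 : m ≤ Ideal.span {s, t} ⊔ m • m := fun x hx => by
    obtain ⟨σ, hσ, hx'⟩ := hg x hx
    obtain ⟨τ, b, hb, e⟩ := hm.exists_inv hσ
    have e' : x = τ * (σ * x) + b * x := by linear_combination (-x) * e
    rw [e']
    exact add_mem (Ideal.mul_mem_left _ _ (k1 hx'))
      (Ideal.mem_sup_right (Ideal.mul_mem_mul hb hx))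
  obtain ⟨r, hr, hr'⟩ := Submodule.exists_sub_one_mem_and_smul_le_of_fg_of_le_sup
    (IsNoetherian.noetherian m) le_rfl k2
  refine ⟨s, t, hm, le_antisymm (fun x hx => mem_of_max fun m' hm' => ?_) ?_, oth⟩
  · by_cases e : m' = m
    · subst e
      refine ⟨r, fun k => hm'.ne_top ((Ideal.eq_top_iff_one _).2 ?_),
        hr' (Submodule.smul_mem_pointwise_smul x r _ hx)⟩
      simpa using m'.sub_mem k hr
    · exact ⟨s, (oth m' hm' e).1, Ideal.mul_mem_right _ _ sm⟩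
  · rw [Ideal.span_le]
    rintro x (rfl | rfl)
    · simpa using m.add_mem (h2 hs) (ha 0)
    · simpa using m.add_mem (h2 ht) (ha 1)

theorem exists_ord [IsNoetherianRing R] {m I : Ideal R} (hm : m ≠ ⊤) {a : R} (ha : a ∈ I)
    (ha' : a ∈ nonZeroDivisors R) : ∃ j, I ≤ m ^ j ∧ ¬ I ≤ m ^ (j + 1) := by
  classical
  have ex : ∃ j, ¬ I ≤ m ^ (j + 1) := by
    by_contra hn
    push Not at hn
    have : a ∈ (⨅ i : ℕ, m ^ i • ⊤ : Submodule R R) := by
      refine (Submodule.mem_iInf _).2 fun i => ?_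
      rw [smul_eq_mul, Ideal.mul_top]
      exact Ideal.pow_le_pow_right (Nat.le_succ i) (hn i ha)
    obtain ⟨r, hr⟩ := (Ideal.mem_iInf_smul_pow_eq_bot_iff m a).1 this
    have e : (1 - (r : R)) * a = 0 := by
      rw [smul_eq_mul] at hr
      linear_combination -hr
    have e' := (mem_nonZeroDivisors_iff_right.1 ha') _ e
    exact hm ((Ideal.eq_top_iff_one _).2 (by rw [sub_eq_zero.1 e']; exact r.2))
  refine ⟨Nat.find ex, ?_, Nat.find_spec ex⟩
  rcases h : Nat.find ex with _ | j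
  · simp
  · exact not_not.1 (Nat.find_min ex (by omega))

theorem dvd_hv (s t l : R) (e : ℕ) (g : R[X]) :
    t ∣ hv s (t + l * s) e g - hv 1 l e g * s ^ e := by
  rw [hv_eq, hv_eq, Finset.sum_mul, ← Finset.sum_sub_distrib]
  refine Finset.dvd_sum fun k hk => ?_
  obtain ⟨j, rfl⟩ := Nat.exists_eq_add_of_le (Nat.lt_succ_iff.1 (Finset.mem_range.1 hk))
  rw [Nat.add_sub_cancel_left]
  have := (sub_dvd_pow_sub_pow (t + l * s) (l * s) j).mul_left (g.coeff k * s ^ k)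
  rw [add_sub_cancel_right] at this
  refine this.trans (dvd_of_eq ?_)
  ring

theorem eval_reflect (l : R) {e : ℕ} {g : R[X]} (hg : g.natDegree ≤ e) :
    (reflect e g).eval l = hv 1 l e g := by
  rw [hv_eq]
  conv_lhs => rw [g.as_sum_range_C_mul_X_pow' (Nat.lt_succ_of_le hg)]
  have : ∀ A : Finset ℕ, reflect e (∑ k ∈ A, C (g.coeff k) * X ^ k) =
      ∑ k ∈ A, C (g.coeff k) * X ^ revAt e k := by
    intro A
    induction A using Finset.cons_induction with
    | empty => simp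
    | cons k A hk ih => rw [Finset.sum_cons, Finset.sum_cons, reflect_add, ih, reflect_C_mul_X_pow]
  rw [this, eval_finsetSum]
  refine Finset.sum_congr rfl fun k hk => ?_
  rw [revAt_le (Nat.lt_succ_iff.1 (Finset.mem_range.1 hk))]
  simp

theorem hv_mem_succ {m : Ideal R} {s t : R} (hs : s ∈ m) (ht : t ∈ m) (e : ℕ) {g : R[X]}
    (hg : ∀ k, g.coeff k ∈ m) : hv s t e g ∈ m ^ (e + 1) := by
  rw [hv_eq]
  refine Ideal.sum_mem _ fun k hk => ?_
  obtain ⟨j, rfl⟩ := Nat.exists_eq_add_of_le (Nat.lt_succ_iff.1 (Finset.mem_range.1 hk))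
  rw [Nat.add_sub_cancel_left, pow_succ', pow_add, mul_assoc]
  exact Ideal.mul_mem_mul (hg k)
    (Ideal.mul_mem_mul (Ideal.pow_mem_pow hs k) (Ideal.pow_mem_pow ht j))

theorem cancel {s t : R} (h : Rq t s) (e : ℕ) {r : R} (hr : t ∣ s ^ e * r) : t ∣ r := by
  induction e with
  | zero => simpa using hr
  | succ e ih => exact ih (h.two _ (by rwa [pow_succ', mul_assoc] at hr))

theorem last {s t : R} (h : Rq t s) (a : R) (j : ℕ) (g : R[X])
    (hm : hv s (t + a * s) j g ∈ Ideal.span {t} ⊔ Ideal.span {s, t} ^ (j + 1)) :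
    hv 1 a j g ∈ Ideal.span {s, t} := by
  obtain ⟨b, hb, x, hx, e⟩ := Submodule.mem_sup.1 hm
  obtain ⟨g', -, e'⟩ := exists_hv _ _ hx
  have d1 := dvd_hv s t a j g
  have d2 := dvd_hv s t 0 (j + 1) g'
  rw [zero_mul, add_zero, e'] at d2
  rw [← e] at d1
  have d3 := Ideal.mem_span_singleton.1 hb
  have d4 : t ∣ s ^ j * (hv 1 a j g - hv 1 0 (j + 1) g' * s) :=
    (dvd_sub (dvd_add d3 d2) d1).trans (dvd_of_eq (by ring))
  obtain ⟨c, hc⟩ := cancel h _ d4
  exact Ideal.mem_span_pair.2 ⟨hv 1 0 (j + 1) g', c, by linear_combination -hc⟩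

end PrmP

open PrmP in
theorem pPrm (h1 : S_RS2.{u}) (h2 : S_Av1.{u}) : S_Prm.{u} := by
  intro R _ _ _ n m l hL hm hR hl
  obtain ⟨s, t0, hps⟩ := exists_ps hm hR
  have sm : s ∈ m := hps.gen ▸ Ideal.subset_span (by simp)
  have tm : t0 ∈ m := hps.gen ▸ Ideal.subset_span (by simp)
  have key : ∀ y : {y // y ∈ l}, ∃ (j : ℕ) (i : Ix n) (g : R[X]), ct y.1 ≤ m ^ j ∧
      g.natDegree ≤ j ∧ hv s t0 j g = y.1 i ∧ ∃ k, (reflect j g).coeff k ∉ m := by
    rintro ⟨y, hy⟩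
    obtain ⟨a, ha, ha'⟩ := hl y hy
    obtain ⟨j, k1, k2⟩ := exists_ord hm.ne_top ha ha'
    obtain ⟨i, hi⟩ := not_forall.1 (mt ct_le.2 k2)
    obtain ⟨g, hg, e⟩ := exists_hv s t0 (hps.gen ▸ k1 (mem_ct y i))
    refine ⟨j, i, g, k1, hg, e, ?_⟩
    by_contra hn
    push Not at hn
    refine hi (e ▸ hv_mem_succ sm tm j fun k => ?_)
    simpa using hn (revAt j k)
  choose j i g k1 k2 k3 k4 using key
  have : Finite {y // y ∈ l} := l.finite_toSet.to_subtype
  obtain ⟨a, ha1, ha2⟩ : ∃ a : R,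
      (∀ m' : Ideal R, m'.IsMaximal → m' ≠ m → t0 - a * s ∉ m') ∧
      ∀ y : {y // y ∈ l}, hv 1 a (j y) (g y) ∉ m := by
    obtain ⟨a, ha⟩ := h2 R ({m' : MaximalSpectrum R // m'.asIdeal ≠ m} ⊕ {y // y ∈ l})
      (Sum.elim (fun m' => m'.1.asIdeal) fun _ => m)
      (Sum.elim (fun _ => C t0 - X * C s) fun y => reflect (j y) (g y)) hL
      (by
        rintro (m' | y)
        · exact m'.1.isMaximal.isPrime
        · exact hm.isPrime)
      (by
        rintro (m' | y)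
        · exact ⟨0, by simpa using (hps.oth _ m'.1.isMaximal m'.2).2⟩
        · exact k4 y)
    refine ⟨a, fun m' hm' e => ?_, fun y => ?_⟩
    · have := ha (Sum.inl ⟨⟨m', hm'⟩, e⟩)
      rwa [Sum.elim_inl, Sum.elim_inl, eval_sub, eval_mul, eval_C, eval_C, eval_X] at this
    · have := ha (Sum.inr y)
      rwa [Sum.elim_inr, Sum.elim_inr, eval_reflect a (k2 y)] at this
  have gen : m = Ideal.span {s, t0 - a * s} := by
    refine le_antisymm ?_ ?_
    · rw [hps.gen, Ideal.span_le]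
      rintro x (rfl | rfl)
      · exact Ideal.subset_span (by simp)
      · exact Ideal.mem_span_pair.2 ⟨a, 1, by ring⟩
    · rw [Ideal.span_le]
      rintro x (rfl | rfl)
      · exact sm
      · exact m.sub_mem tm (m.mul_mem_left _ sm)
  have ps : PS m s (t0 - a * s) :=
    ⟨hm, gen, fun m' hm' e => ⟨(hps.oth m' hm' e).1, ha1 m' hm' e⟩⟩
  have rq := h1 R m s _ ps hR
  refine ⟨s, _, ps, fun y hy => ⟨j ⟨y, hy⟩, k1 ⟨y, hy⟩, fun hle => ha2 ⟨y, hy⟩ ?_⟩⟩
  have k5 := hle (mem_ct y (i ⟨y, hy⟩))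
  have k6 := last rq a (j ⟨y, hy⟩) (g ⟨y, hy⟩)
  rw [sub_add_cancel, k3, ← gen] at k6
  exact k6 k5

end Pool.Agent.P.MP_46a8f8_ag.GU
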