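import Pool.Agent.P.MP_46a8f8_ag.GU.Sp
import Pool.Agent.P.MP_46a8f8_ag.GU.Ht1
import Pool.Agent.P.MP_46a8f8_ag.GU.RegR
import Pool.Agent.P.MP_46a8f8_ag.GU.UFD

/-!
Regular parameters form a regular sequence; square roots of associated squares.
-/

namespace Pool.Agent.P.MP_46a8f8_ag.GU

open IsLocalRing

universe u

namespace RS2P

theorem prime_par {O : Type u} [CommRing O] [IsRegularLocalRing O] {x : O}
    (hx : x ∈ maximalIdeal O) (hx2 : x ∉ maximalIdeal O ^ 2) : Prime x := by
  obtain ⟨h1, -⟩ := rQuot O x hx hx2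
  have := rDom (O ⧸ Ideal.span {x})
  exact (Ideal.span_singleton_prime fun e : x = 0 => hx2 (e ▸ Submodule.zero_mem _)).1
    ((Ideal.Quotient.isDomain_iff_prime _).1 this)

/-- the maximal ideal of a local ring of dimension two is not principal -/
theorem not_le {O : Type u} [CommRing O] [IsLocalRing O] [IsNoetherianRing O]
    (hd : ringKrullDim O = (2 : ℕ)) {x : O} (hx : x ∈ maximalIdeal O) :
    ¬ maximalIdeal O ≤ Ideal.span {x} := by
  intro h
  have h1 : (maximalIdeal O).height ≤ 1 :=
    (Ideal.height_mono h).trans (Ideal.height_span_singleton_le_one hx)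
  rw [← IsLocalRing.maximalIdeal_height_eq_ringKrullDim] at hd
  have h2 : (maximalIdeal O).height = (2 : ℕ) := WithBot.coe_inj.1 hd
  rw [h2] at h1
  have h3 : (2 : ℕ) ≤ 1 := by exact_mod_cast h1
  omega

/-- two generators of the maximal ideal of a regular local ring of dimension two -/
theorem par {O : Type u} [CommRing O] [IsRegularLocalRing O]
    (hd : ringKrullDim O = (2 : ℕ)) {s t : O} (h : maximalIdeal O = Ideal.span {s, t}) :
    Prime t ∧ ¬ t ∣ s := by
  have hs : s ∈ maximalIdeal O := h ▸ Ideal.subset_span (by simp)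
  have ht : t ∈ maximalIdeal O := h ▸ Ideal.subset_span (by simp)
  refine ⟨prime_par ht fun h2 => not_le hd hs ?_, fun h2 => not_le hd ht ?_⟩
  · refine Submodule.le_of_le_smul_of_le_jacobson_bot (maximalIdeal O).fg_of_isNoetherianRing
      (maximalIdeal_le_jacobson _) ?_
    rw [smul_eq_mul, ← pow_two]
    refine h.le.trans (Ideal.span_le.2 ?_)
    rintro x (rfl | rfl)
    · exact Ideal.mem_sup_left (Ideal.mem_span_singleton_self _)
    · exact Ideal.mem_sup_right h2
  · refine h.le.trans (Ideal.span_le.2 ?_)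
    rintro x (rfl | rfl)
    · exact Ideal.mem_span_singleton.2 h2
    · exact Ideal.mem_span_singleton_self _

/-- divisibility in the localisation -/
theorem dvd_loc {R : Type u} [CommRing R] (m : Ideal R) [m.IsPrime] {a b : R}
    (h : algebraMap R (Localization.AtPrime m) a ∣ algebraMap R (Localization.AtPrime m) b) :
    ∃ s, s ∉ m ∧ s * b ∈ Ideal.span {a} := by
  have h1 : algebraMap R (Localization.AtPrime m) b ∈
      (Ideal.span {a}).map (algebraMap R (Localization.AtPrime m)) := by
    rw [Ideal.map_span, Set.image_singleton]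
    exact Ideal.mem_span_singleton.2 h
  obtain ⟨s, hs, h2⟩ :=
    (IsLocalization.algebraMap_mem_map_algebraMap_iff m.primeCompl _ _ _).1 h1
  exact ⟨s, hs, h2⟩

/-- square roots of a divisibility at a regular point of dimension two -/
theorem sq_loc {R : Type u} [CommRing R] [IsNoetherianRing R] (m : Ideal R) [m.IsPrime]
    (hm : RegAt R m 2) {a b : R} (h : a ^ 2 ∣ b ^ 2) : ∃ s, s ∉ m ∧ s * b ∈ Ideal.span {a} := by
  obtain ⟨h1, h2⟩ := (regAt R (Localization.AtPrime m) m 2).1 hm
  have := rDom (Localization.AtPrime m)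
  have := RegRP.reg_base pHt1 (Localization.AtPrime m) (by rw [h2]; exact le_rfl)
  have := pUFD (Localization.AtPrime m)
  have : IsIntegrallyClosed (Localization.AtPrime m) :=
    UniqueFactorizationMonoid.instIsIntegrallyClosed
  refine dvd_loc m ((IsIntegrallyClosed.pow_dvd_pow_iff two_ne_zero).1 ?_)
  rw [← map_pow, ← map_pow]
  exact map_dvd _ h

end RS2P

open RS2P

theorem pRS2 : S_RS2.{u} := by
  intro R _ _ m s t hP hm
  have hmax := hP.max
  obtain ⟨h1, h2⟩ := (regAt R (Localization.AtPrime m) m 2).1 hm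
  have hg : maximalIdeal (Localization.AtPrime m) = Ideal.span
      {algebraMap R (Localization.AtPrime m) s, algebraMap R (Localization.AtPrime m) t} := by
    rw [← Localization.AtPrime.map_eq_maximalIdeal, ← Set.image_pair, ← Ideal.map_span, ← hP.gen]
  obtain ⟨hp, hn⟩ := par h2 hg
  have := rDom (Localization.AtPrime m)
  refine ⟨fun r hr => ?_, fun r hr => ?_⟩
  · refine (Submodule.mem_bot R).1 (mem_of_max (I := ⊥) fun m' hm' => ?_)
    by_cases e : m' = m
    · subst e
      have h3 : algebraMap R (Localization.AtPrime m') r = 0 := by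
        refine (mul_eq_zero.1 ?_).resolve_left hp.ne_zero
        rw [← map_mul, hr, map_zero]
      obtain ⟨v, hv⟩ := (IsLocalization.map_eq_zero_iff m'.primeCompl _ _).1 h3
      exact ⟨v, v.2, by rw [hv]; exact Submodule.zero_mem _⟩
    · exact ⟨t, (hP.oth m' hm' e).2, by rw [hr]; exact Submodule.zero_mem _⟩
  · refine Ideal.mem_span_singleton.1 (mem_of_max fun m' hm' => ?_)
    by_cases e : m' = m
    · subst e
      refine dvd_loc m' ((hp.dvd_or_dvd ?_).resolve_left hn)
      rw [← map_mul]
      exact map_dvd _ hr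
    · exact ⟨s, (hP.oth m' hm' e).1, Ideal.mem_span_singleton.2 hr⟩

theorem pNb : S_Nb.{u} := by
  intro R _ _ a b ε hε h ha hR
  obtain ⟨ε, rfl⟩ := hε
  have hab : a ∣ b := by
    refine Ideal.mem_span_singleton.1 (mem_of_max fun m hm => ?_)
    by_cases e : a ∈ m
    · refine sq_loc m (hR m hm e) ⟨↑ε⁻¹, ?_⟩
      rw [h, mul_comm, Units.inv_mul_cancel_left]
    · exact ⟨a, e, Ideal.mem_span_singleton.2 (dvd_mul_right _ _)⟩
  have hba : b ∣ a := by
    refine Ideal.mem_span_singleton.1 (mem_of_max fun m hm => ?_)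
    by_cases e : a ∈ m
    · exact sq_loc m (hR m hm e) ⟨ε, by rw [h, mul_comm]⟩
    · refine ⟨b, fun hb => e (hm.isPrime.mem_of_pow_mem 2 ?_),
        Ideal.mem_span_singleton.2 (dvd_mul_right _ _)⟩
      rw [h]
      exact m.mul_mem_left _ (m.pow_mem_of_mem hb 2 two_pos)
  obtain ⟨v, rfl⟩ := hab
  obtain ⟨w, hw⟩ := hba
  have h1 : v * w = 1 := by
    have h2 : a * (1 - v * w) = 0 := by linear_combination hw
    have h3 := (mem_nonZeroDivisors_iff.1 ha).1 _ h2
    linear_combination -h3
  exact ⟨⟨v, w, h1, by rw [mul_comm, h1]⟩, rfl⟩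

end Pool.Agent.P.MP_46a8f8_ag.GU
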