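import Pool.Agent.P.MP_46a8f8_ag.GU.Sp

/-!
Norms from `AdjoinRoot f` are resultants; reciprocity and the norm of a linear polynomial.
-/

namespace Pool.Agent.P.MP_46a8f8_ag.GU

open Polynomial

universe u

namespace RcpP

/-- the determinant of the multiplication by `g` modulo `f` -/
noncomputable def Nm {R : Type u} [CommRing R] (n : ℕ) (f g : R[X]) : R :=
  (Matrix.of fun i j : Fin n => ((g * X ^ (j : ℕ)) %ₘ f).coeff i).det

theorem Nm_map {R S : Type u} [CommRing R] [CommRing S] (φ : R →+* S) (n : ℕ) {f : R[X]}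
    (hf : f.Monic) (g : R[X]) : Nm n (f.map φ) (g.map φ) = φ (Nm n f g) := by
  rw [Nm, Nm, RingHom.map_det]
  congr 1
  ext i j
  simp only [Matrix.of_apply, RingHom.mapMatrix_apply, Matrix.map_apply]
  rw [← coeff_map, map_modByMonic φ hf]
  simp

theorem norm_eq {R : Type u} [CommRing R] {f : R[X]} (hf : f.Monic) (g : R[X]) :
    Algebra.norm R (AdjoinRoot.mk f g) = Nm f.natDegree f g := by
  rw [Algebra.norm_eq_matrix_det (AdjoinRoot.powerBasis' hf).basis, Nm]
  congr 1
  ext i j
  rw [Algebra.leftMulMatrix_eq_repr_mul, (AdjoinRoot.powerBasis' hf).basis_eq_pow]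
  have : AdjoinRoot.mk f g * (AdjoinRoot.powerBasis' hf).gen ^ (j : ℕ) =
      AdjoinRoot.mk f (g * X ^ (j : ℕ)) := by
    rw [map_mul, map_pow, AdjoinRoot.mk_X]
    rfl
  rw [this]
  rfl

theorem norm_lin {K : Type u} [Field K] {f : K[X]} (hf : f.Monic) (a : K) :
    Algebra.norm K (AdjoinRoot.mk f (X + C a)) = (-1) ^ f.natDegree * f.eval (-a) := by
  let pb := AdjoinRoot.powerBasis hf.ne_zero
  have h1 : (Algebra.leftMulMatrix pb.basis pb.gen).charpoly = f := by
    rw [charpoly_leftMulMatrix, AdjoinRoot.minpoly_powerBasis_gen_of_monic hf]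
  have h2 := Matrix.eval_charpoly (Algebra.leftMulMatrix pb.basis pb.gen) (-a)
  rw [h1] at h2
  have h3 : AdjoinRoot.mk f (X + C a) = -(algebraMap K (AdjoinRoot f) (-a) - pb.gen) := by
    rw [map_add, AdjoinRoot.mk_X, AdjoinRoot.mk_C, map_neg]
    simp [pb, AdjoinRoot.algebraMap_eq]
  rw [Algebra.norm_eq_matrix_det pb.basis, h3, map_neg, Matrix.det_neg, h2, map_sub,
    AlgHom.commutes, Fintype.card_fin]
  rfl

theorem norm_C {R : Type u} [CommRing R] {f : R[X]} (hf : f.Monic) (a : R) :
    Algebra.norm R (AdjoinRoot.mk f (C a)) = a ^ f.natDegree := by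
  rw [AdjoinRoot.mk_C, ← AdjoinRoot.algebraMap_eq,
    Algebra.norm_algebraMap_of_basis (AdjoinRoot.powerBasis' hf).basis, Fintype.card_fin]
  rfl

theorem res_deg {R : Type u} [CommRing R] {f : R[X]} (hf : f.Monic) (g : R[X]) {m : ℕ}
    (hm : g.natDegree ≤ m) :
    resultant f g f.natDegree m = resultant f g f.natDegree g.natDegree := by
  obtain ⟨k, rfl⟩ := le_iff_exists_add.mp hm
  rw [resultant_add_right_deg _ _ _ _ _ le_rfl]
  simp [hf.coeff_natDegree]

theorem norm_split {K : Type u} [Field K] {f : K[X]} (hf : f.Monic) {g : K[X]} (hg : g.Splits) :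
    Algebra.norm K (AdjoinRoot.mk f g) = resultant f g f.natDegree g.natDegree := by
  unfold Polynomial.Splits at hg
  induction hg using Submonoid.closure_induction with
  | mem x hx =>
    rcases hx with ⟨a, rfl⟩ | ⟨a, rfl⟩
    · rw [norm_C hf]
      simp
    · rw [norm_lin hf, natDegree_X_add_C, resultant_X_add_C_right _ _ _ le_rfl]
  | one => simp
  | mul x y _ _ hx hy =>
    rw [map_mul, map_mul, hx, hy, ← resultant_mul_right f x y _ le_rfl,
      res_deg hf _ natDegree_mul_le]

theorem Nm_res {R : Type u} [CommRing R] (g : R[X]) : ∀ (f : R[X]) (m : ℕ), f.Monic →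
    g.natDegree ≤ m → Nm f.natDegree f g = resultant f g f.natDegree m := by
  induction g using induction_of_Splits_of_injective_of_surjective with
  | Splits R g hg =>
    intro f m hf hm
    rw [← norm_eq hf, norm_split hf hg, res_deg hf g hm]
  | injective R S φ hφ g IH =>
    intro f m hf hm
    apply hφ
    have := IH (f.map φ) m (hf.map φ) (natDegree_map_le.trans hm)
    rwa [natDegree_map_eq_of_injective hφ, Nm_map φ _ hf, resultant_map_map] at this
  | surjective R S φ hφ g IH =>
    intro f m hf hm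
    obtain ⟨g', hg', e⟩ := exists_degree_eq_of_mem_lifts (Polynomial.map_surjective φ hφ g)
    obtain ⟨f', hf', e', hmo⟩ :=
      lifts_and_natDegree_eq_and_monic (Polynomial.map_surjective φ hφ f) hf
    have := congrArg φ (IH g' f' m hmo ((natDegree_eq_natDegree e).le.trans hm))
    rwa [← Nm_map φ _ hmo, ← resultant_map_map, hg', hf', e'] at this

theorem norm_res {R : Type u} [CommRing R] {f : R[X]} (hf : f.Monic) (g : R[X]) {m : ℕ}
    (hm : g.natDegree ≤ m) :
    Algebra.norm R (AdjoinRoot.mk f g) = resultant f g f.natDegree m := by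
  rw [norm_eq hf, Nm_res g f m hf hm]

theorem hv_map' {R S : Type u} [CommRing R] [CommRing S] (φ : R →+* S) (s t : R) (n : ℕ)
    (G : R[X]) : hv (φ s) (φ t) n (G.map φ) = φ (hv s t n G) := by
  simp [hv_eq, map_sum]

theorem Yp_map' {R S : Type u} [CommRing R] [CommRing S] (φ : R →+* S) (s t : R) :
    (Yp s t).map φ = Yp (φ s) (φ t) := by
  simp [Yp]

theorem res_Yp {R : Type u} [CommRing R] (G : R[X]) : ∀ (s t : R) (n : ℕ), G.natDegree ≤ n →
    resultant G (Yp s t) n 1 = (-1) ^ n * hv s t n G := by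
  induction G using induction_of_Splits_of_injective_of_surjective with
  | Splits R G _ =>
    intro s t n hn
    by_cases ht : t = 0
    · subst ht
      have : Yp s (0 : R) = C (-s) := by simp [Yp]
      rw [this, resultant_C_right, hv_eq, Finset.sum_range_succ, Finset.sum_eq_zero]
      · rw [neg_pow]
        simp
        ring
      · intro k hk
        rw [Finset.mem_range] at hk
        rw [zero_pow (by omega), mul_zero]
    · have : Yp s t = C t * (X - C (s / t)) := by
        rw [Yp, mul_sub, ← C_mul, mul_div_cancel₀ _ ht]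
      rw [this, resultant_C_mul_right, resultant_X_sub_C_right _ _ _ hn, hv_eq,
        eval_eq_sum_range' (Nat.lt_succ_of_le hn), mul_left_comm, Finset.mul_sum]
      congr 1
      refine Finset.sum_congr rfl fun k hk => ?_
      rw [Finset.mem_range] at hk
      obtain ⟨j, rfl⟩ := Nat.exists_eq_add_of_le (Nat.lt_succ_iff.mp hk)
      rw [Nat.add_sub_cancel_left, div_pow, pow_add]
      field_simp
  | injective R S φ hφ G IH =>
    intro s t n hn
    apply hφ
    have := IH (φ s) (φ t) n (natDegree_map_le.trans hn)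
    rw [← Yp_map', resultant_map_map, hv_map'] at this
    rw [this]
    simp
  | surjective R S φ hφ G IH =>
    intro s t n hn
    obtain ⟨G', hG', e⟩ := exists_degree_eq_of_mem_lifts (Polynomial.map_surjective φ hφ G)
    obtain ⟨s', rfl⟩ := hφ s
    obtain ⟨t', rfl⟩ := hφ t
    have := congrArg φ (IH G' s' t' n ((natDegree_eq_natDegree e).le.trans hn))
    rw [← resultant_map_map, Yp_map', map_mul, ← hv_map', hG'] at this
    rw [this]
    simp

end RcpP

theorem pRcp : S_Rcp.{u} := by
  intro R _ f g hf hg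
  rw [RcpP.norm_res hf g le_rfl, RcpP.norm_res hg f le_rfl, resultant_comm]

theorem pHn : S_Hn.{u} := by
  intro R _ G s t hG
  have h : (Yp s t).natDegree ≤ 1 := by
    unfold Yp
    compute_degree
  rw [RcpP.norm_res hG _ h, RcpP.res_Yp G s t _ le_rfl]

end Pool.Agent.P.MP_46a8f8_ag.GU
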