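import Pool.Agent.P.MP_46a8f8_ag.GU.Sp

/-!
Homogeneous coordinates for a list of vectors.
-/

namespace Pool.Agent.P.MP_46a8f8_ag.GU

open TensorProduct Function IsLocalRing Polynomial

universe u

theorem pRep (h1 : S_LnA.{u}) (h2 : S_LnB.{u}) (h3 : S_Trz.{u}) : S_Rep.{u} := by
  intro R _ _ _ n c l m s t hL hc hP hR hi hfin hm hj
  have hne : Ideal.span {s, t} ≠ ⊤ := hP.gen ▸ hP.max.ne_top
  suffices H : ∃ (L : List (Ix n → R[X])) (σ ζ : R), (∀ p ∈ L, Tp c p) ∧ Sn c σ ∧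
      ζ ∈ nonZeroDivisors R ∧ (∀ m' : Ideal R, m'.IsMaximal → ζ ∈ m' → m' = m) ∧
      vp c (L.map (hvv s t)) = vp c l * σ * ζ ^ 2 ∧ (L.map (lp s t)).sum ≤ (l.map ln).sum ∧
      (qp c l ∈ m → 0 < (L.map dg).sum ∧ (L.map (lp s t)).sum < (l.map ln).sum) by
    obtain ⟨L, σ, ζ, a1, a2, a3, a4, a5, -, a7⟩ := H
    exact ⟨L, σ, ζ, a1, (a7 hm).1, a2, a3, a4, a5, (a7 hm).2⟩
  clear hm
  induction l with
  | nil =>
    have h1m : (1 : R) ∉ m := (Ideal.ne_top_iff_one m).1 hP.max.ne_top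
    exact ⟨[], 1, 1, by simp, Sn.one, one_mem _,
      fun m' hm' h => absurd h ((Ideal.ne_top_iff_one m').1 hm'.ne_top), by simp, by simp,
      fun h => absurd h h1m⟩
  | cons y l ih =>
    rw [List.map_cons, List.sum_cons] at hfin
    have hy : ln y ≠ ⊤ := fun e => hfin (by rw [e, top_add])
    have hl : (l.map ln).sum ≠ ⊤ := fun e => hfin (by rw [e, add_top])
    obtain ⟨L, σ, ζ, a1, a2, a3, a4, a5, a6, a7⟩ :=
      ih hl fun y hy => hj y (List.mem_cons_of_mem _ hy)
    obtain ⟨j, j1, j2⟩ := hj y List.mem_cons_self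
    rcases Nat.eq_zero_or_pos j with rfl | hpos
    · have hym : ¬ ct y ≤ m := fun h => j2 (h.trans (by simp))
      obtain ⟨p₁, p₂, σ', ζ', b1, b2, b3, b4, b5, b6, b7⟩ := h3 R n c y m s t hL hc hP hR hi hym
      refine ⟨p₁ :: p₂ :: L, σ' * σ, ζ' * ζ, by simpa [b1, b2] using a1, b3.mul a2, mul_mem b4 a3,
        fun m' hm' h => (hm'.isPrime.mem_or_mem h).elim (b5 m' hm') (a4 m' hm'), ?_, ?_,
        fun h => ?_⟩
      · simp only [List.map_cons, vp_cons]
        rw [← mul_assoc, b6, a5]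
        ring
      · simp only [List.map_cons, List.sum_cons]
        rw [← add_assoc]
        exact add_le_add b7 a6
      · rw [qp_cons] at h
        obtain ⟨k1, k2⟩ := a7 ((hP.max.isPrime.mem_or_mem h).resolve_left fun e => hi ⟨y, e, hym⟩)
        simp only [List.map_cons, List.sum_cons]
        refine ⟨by omega, ?_⟩
        rw [← add_assoc]
        exact WithTop.add_lt_add_of_le_of_lt (ne_top_of_le_ne_top hy b7) b7 k2
    · obtain ⟨p, b1, b2, rfl⟩ := h1 R n c y m s t j hc hP hi hpos j1 j2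
      have b3 := h2 R n c s t p hc hne hR b1 (b2 ▸ hpos) hy
      have k : lp s t p + (L.map (lp s t)).sum < ln (hvv s t p) + (l.map ln).sum :=
        WithTop.add_lt_add_of_lt_of_le (ne_top_of_le_ne_top hl a6) b3 a6
      refine ⟨p :: L, σ, ζ, by simpa [b1] using a1, a2, a3, a4, ?_, by simpa using k.le,
        fun _ => ⟨?_, by simpa using k⟩⟩
      · simp only [List.map_cons, vp_cons]
        rw [a5]
        ring
      · simp only [List.map_cons, List.sum_cons]
        omega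

end Pool.Agent.P.MP_46a8f8_ag.GU
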