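import Pool.Agent.P.MP_46a8f8_ag.GU.Sp
import Pool.Agent.P.MP_46a8f8_ag.GU.Fin3
import Pool.Agent.P.MP_46a8f8_ag.GU.UniX

/-!
Orthogonal cocycles with a point over the fraction field are trivial.
-/

namespace Pool.Agent.P.MP_46a8f8_ag.GU

open TensorProduct Function IsLocalRing

universe u

namespace SOxP

variable {R : Type u} [CommRing R] {n : ℕ}

/-- the adjoint with respect to a diagonal form -/
def ad (c c' : Ix n → R) : Matrix (Ix n) (Ix n) R →ₗ[R] Matrix (Ix n) (Ix n) R where
  toFun M := Matrix.diagonal c' * M.transpose * Matrix.diagonal c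
  map_add' M N := by rw [Matrix.transpose_add, Matrix.mul_add, Matrix.add_mul]
  map_smul' r M := by
    rw [Matrix.transpose_smul, Matrix.mul_smul, Matrix.smul_mul, RingHom.id_apply]

theorem ad_apply (c c' : Ix n → R) (M : Matrix (Ix n) (Ix n) R) :
    ad c c' M = Matrix.diagonal c' * M.transpose * Matrix.diagonal c := rfl

variable {c c' : Ix n → R}

theorem dd (h : ∀ i, c i * c' i = 1) : Matrix.diagonal c * Matrix.diagonal c' = 1 := by
  rw [Matrix.diagonal_mul_diagonal, ← Matrix.diagonal_one]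
  exact congrArg _ (funext h)

theorem dd' (h : ∀ i, c i * c' i = 1) : Matrix.diagonal c' * Matrix.diagonal c = 1 :=
  dd fun i => by rw [mul_comm, h]

theorem ad_inv (h : ∀ i, c i * c' i = 1) : IsInvol (ad c c') := by
  refine ⟨fun x y => ?_, fun x => ?_⟩
  · simp only [ad_apply, Matrix.transpose_mul, Matrix.mul_assoc]
    rw [← Matrix.mul_assoc (Matrix.diagonal c), dd h, Matrix.one_mul]
  · simp only [ad_apply, Matrix.transpose_mul, Matrix.mul_assoc, Matrix.diagonal_transpose,
      Matrix.transpose_transpose]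
    rw [← Matrix.mul_assoc (Matrix.diagonal c'), dd' h, Matrix.one_mul, Matrix.mul_one]

theorem ort_iff (h : ∀ i, c i * c' i = 1) (ψ : Matrix (Ix n) (Ix n) R) :
    Ort c ψ ↔ ψ * ad c c' ψ = 1 := by
  rw [mul_eq_one_comm, ad_apply, Ort]
  refine ⟨fun e => ?_, fun e => ?_⟩
  · rw [Matrix.mul_assoc (Matrix.diagonal c'), Matrix.mul_assoc (Matrix.diagonal c'), e, dd' h]
  · have := congrArg (Matrix.diagonal c * ·) e
    simp only [← Matrix.mul_assoc, dd h, Matrix.one_mul, Matrix.mul_one] at this
    exact this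

variable (R n) in
/-- matrices after a change of rings -/
noncomputable def eq (T : Type u) [CommRing T] [Algebra R T] :
    T ⊗[R] Matrix (Ix n) (Ix n) R ≃ₐ[R] Matrix (Ix n) (Ix n) T :=
  (matrixEquivTensor (Ix n) R T).symm

theorem eq_tmul {T : Type u} [CommRing T] [Algebra R T] (a : T) (M : Matrix (Ix n) (Ix n) R) :
    eq R n T (a ⊗ₜ[R] M) = a • M.map (algebraMap R T) := rfl

theorem eq_mp {T T' : Type u} [CommRing T] [Algebra R T] [CommRing T'] [Algebra R T']
    (f : T →ₐ[R] T') (x : T ⊗[R] Matrix (Ix n) (Ix n) R) :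
    eq R n T' (mp (Matrix (Ix n) (Ix n) R) f x) = (eq R n T x).map f := by
  induction x using TensorProduct.induction_on with
  | zero => rw [map_zero, map_zero, map_zero, Matrix.map_zero _ (map_zero f)]
  | add x y hx hy => rw [map_add, map_add, map_add, hx, hy, Matrix.map_add _ (map_add f)]
  | tmul a M =>
    rw [H90P.mp_tmul, eq_tmul, eq_tmul]
    ext i j
    simp

theorem eq_ad {T : Type u} [CommRing T] [Algebra R T] (x : T ⊗[R] Matrix (Ix n) (Ix n) R) :
    eq R n T (conj (ad c c') x) =
      ad (algebraMap R T ∘ c) (algebraMap R T ∘ c') (eq R n T x) := by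
  unfold conj
  induction x using TensorProduct.induction_on with
  | zero => rw [map_zero, map_zero, map_zero]
  | add x y hx hy => rw [map_add, map_add, map_add, hx, hy, map_add]
  | tmul a M =>
    rw [LinearMap.lTensor_tmul, eq_tmul, eq_tmul, map_smul, ad_apply, ad_apply, Matrix.map_mul,
      Matrix.map_mul, Matrix.diagonal_map (map_zero _), Matrix.diagonal_map (map_zero _)]
    rfl

end SOxP

open SOxP in
theorem pSOx : S_SOx.{u} := by
  intro B R K _ _ _ _ _ _ _ _ _ _ _ n c hd hc O _ _ _ d hcoc hort hK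
  have := Algebra.EssFiniteType.isNoetherianRing B R
  obtain ⟨e, he⟩ : ∃ e : ℕ, ringKrullDim B = e :=
    ⟨_, ((isRegularLocalRing_iff B).1 inferInstance).symm⟩
  obtain ⟨m, φ, hφ⟩ := struct B R
  have := RegBP.selfLoc B
  obtain ⟨hR, -, -⟩ := regB regAt regFlat rDom B R m e φ hφ
    ((regAt B B (maximalIdeal B) e).2 ⟨inferInstance, he⟩)
  have : IsDomain R := rDom R
  choose c' hc' using fun i => (hc.un i).exists_right_inv
  have hT : ∀ (T : Type u) [CommRing T] [Algebra R T] (i : Ix n),
      (algebraMap R T ∘ c) i * (algebraMap R T ∘ c') i = 1 := fun T _ _ i => by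
    rw [comp_apply, comp_apply, ← map_mul, hc', map_one]
  have hσ := ad_inv hc'
  let A := Matrix (Ix n) (Ix n) R
  let : StarRing A := starOf (ad c c') hσ.1 hσ.2
  have h1 : ad c c' 1 = 1 := star_one A
  have hA : AzI R R A :=
    { tower := inferInstance
      dom := inferInstance
      fin := inferInstance
      et := inferInstance
      az := IsAzumaya.matrix R (Ix n)
      st := fun r => by
        change ad c c' (algebraMap R A r) = _
        rw [Algebra.algebraMap_eq_smul_one, map_smul, h1]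
      fix := fun s _ => ⟨s, rfl⟩
      two := hc.two }
  have : SA R A := allSep R R A hA
  obtain ⟨τ, ε, hτ, hp, hs⟩ := allTr R R A hA
  have hOk : Ok R A := ⟨⟨τ, ε, ⟨hτ, hp, hs⟩⟩, R, _, _, _, pGA0 pAzS pFreeS R R A hA⟩
  have hcj : ∀ (T : Type u) [CommRing T] [Algebra R T] (x : T ⊗[R] A),
      x * cj R A T x = 1 ↔ Ort (algebraMap R T ∘ c) (eq R n T x) := fun T _ _ x => by
    rw [ort_iff (hT T), ← eq_ad, ← map_mul, ← cj_eq_conj (σ := ad c c') (fun _ => rfl),
      map_eq_one_iff _ (eq R n T).injective]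
  obtain ⟨x, x1, -, x3⟩ := pUniX R A K O (fun T _ _ p q => (eq R n T).symm (d T p q))
    (hOk.rk (pRk2 pFreeS)) (smooth2 allStep2 pUp B R hd A hOk)
    { nat := fun T T' _ _ _ _ f p q => (eq R n T').injective (by
        rw [eq_mp, AlgEquiv.apply_symm_apply, AlgEquiv.apply_symm_apply, hcoc.nat])
      one := fun T _ _ p => by rw [hcoc.one, map_one]
      mul := fun T _ _ p q r => by rw [← map_mul, hcoc.mul] }
    (fun T _ _ p q => (hcj T _).2 (by rw [AlgEquiv.apply_symm_apply]; exact hort T p q)) hK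
  refine ⟨eq R n O x, (hcj O x).1 x1, ?_⟩
  rw [← eq_mp, ← eq_mp, x3, map_mul, AlgEquiv.apply_symm_apply]

end Pool.Agent.P.MP_46a8f8_ag.GU
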