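import Pool.Agent.P.MP_46a8f8_ag.GU.Sp

/-!
A vector which does not vanish at the centre is replaced by two vectors of degree one.
-/

namespace Pool.Agent.P.MP_46a8f8_ag.GU

open Polynomial

universe u

namespace TrzP

variable {R : Type u} [CommRing R] {n : ℕ}

theorem deg_ln1 (y w : Ix n → R) (i : Ix n) : (ln1 y w i).natDegree ≤ 1 := by
  rw [ln1]
  compute_degree

theorem cf_ln1 (y w : Ix n → R) : cf (ln1 y w) 1 = w := by
  funext i
  simp [cf, ln1, coeff_C]

theorem tp_ln1 [Nontrivial R] {c : Ix n → R} (y : Ix n → R) {w : Ix n → R}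
    (h : IsUnit (qv c w)) : dg (ln1 y w) = 1 ∧ Tp c (ln1 y w) :=
  tp_of (deg_ln1 y w) (by rwa [cf_ln1])

theorem hvv_ln1 [Nontrivial R] {c : Ix n → R} (s t : R) (y : Ix n → R) {w : Ix n → R}
    (h : IsUnit (qv c w)) : hvv s t (ln1 y w) = t • y + s • w := by
  funext i
  rw [hvv, (tp_ln1 y h).1, ln1, hv_add, hv_C, mul_comm X, hv_C_mul, hv_X]
  simp only [Pi.add_apply, Pi.smul_apply, smul_eq_mul]
  ring

/-- the scheme of zeros of a vector of degree one is a closed subscheme of the base -/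
theorem quot {c : Ix n → R} (hc : Ok2 c) (s t : R) (y : Ix n → R) {w : Ix n → R}
    (h : IsUnit (qv c w)) : ∃ (ρ : R) (I : Ideal R), t * ρ - s ∈ I ∧ (∀ k, y k + ρ * w k ∈ I) ∧
      ∀ I' : Ideal R, I' ≤ I → lp s t (ln1 y w) ≤ Module.length R (R ⧸ I') := by
  set J : Ideal R[X] := Ideal.span {Yp s t} ⊔ ct (ln1 y w) with hJ
  have h1 : (1 : R) ∈ ct w :=
    (Ideal.eq_top_iff_one _).1 ((ct w).eq_top_of_isUnit_mem (qv_mem_ct c w) h)
  obtain ⟨f, hf⟩ := hc.exists_bv h1
  have hp : ∀ k, ln1 y w k ∈ J := fun k => Ideal.mem_sup_right (mem_ct _ k)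
  have hX : X - C (-bv c y f) ∈ J := by
    have e : ln1 y w = C ∘ y + (X : R[X]) • (C ∘ w) := rfl
    have := bv_mem_ct (C ∘ c) (ln1 y w) (C ∘ f)
    rw [e, bv_add_left, bv_smul_left, ← map_bv, ← map_bv, hf, C_1, mul_one, ← e] at this
    rw [C_neg, sub_neg_eq_add, add_comm]
    exact Ideal.mem_sup_right this
  have hg : ∀ g : R[X], g - C (g.eval (-bv c y f)) ∈ J := fun g => by
    obtain ⟨k, hk⟩ := X_sub_C_dvd_sub_C_eval (p := g) (a := -bv c y f)
    rw [hk]
    exact J.mul_mem_right _ hX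
  have hg' : ∀ g : R[X], g ∈ J → g.eval (-bv c y f) ∈ J.comap C := fun g h => by
    have := J.sub_mem h (hg g)
    rwa [sub_sub_cancel] at this
  refine ⟨-bv c y f, J.comap C, ?_, fun k => ?_, fun I' hI => ?_⟩
  · have := hg' _ (Ideal.mem_sup_left (Ideal.mem_span_singleton_self (Yp s t)))
    simpa [Yp] using this
  · have := hg' _ (hp k)
    rwa [ln1, eval_add, eval_mul, eval_C, eval_C, eval_X] at this
  · let φ : R →ₗ[R] R[X] ⧸ J := (J.mkQ.restrictScalars R) ∘ₗ (Algebra.linearMap R R[X])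
    have hφ : ∀ r, φ r = Ideal.Quotient.mk J (C r) := fun r => rfl
    have hk : I' ≤ LinearMap.ker φ := fun r hr => by
      rw [LinearMap.mem_ker, hφ, Ideal.Quotient.eq_zero_iff_mem]
      exact hI hr
    refine Module.length_le_of_surjective (Submodule.liftQ I' φ hk) fun z => ?_
    obtain ⟨g, rfl⟩ := Ideal.Quotient.mk_surjective z
    refine ⟨Submodule.Quotient.mk (g.eval (-bv c y f)), ?_⟩
    rw [Submodule.liftQ_apply, hφ, eq_comm, Ideal.Quotient.eq]
    exact hg g

/-- cancellation of an element which is a unit modulo an ideal -/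
theorem canc {I : Ideal R} {a b : R} (h : ∀ M : Ideal R, M.IsMaximal → I ≤ M → a ∉ M)
    (hab : a * b ∈ I) : b ∈ I := by
  refine mem_of_max fun M hM => ?_
  by_cases hI : I ≤ M
  · exact ⟨a, h M hM hI, hab⟩
  · obtain ⟨z, hz, hz'⟩ := SetLike.not_le_iff_exists.1 hI
    exact ⟨z, hz', I.mul_mem_right _ hz⟩

/-- regularity -/
theorem reg [IsNoetherianRing R] {m : Ideal R} {s t ζ b v : R} (ht : t ∈ m) (hm : m.IsMaximal)
    (hr : Rq t s) (hv : IsUnit v) (e : ζ = t * b + s ^ 2 * v)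
    (ho : ∀ m' : Ideal R, m'.IsMaximal → ζ ∈ m' → m' = m) : ζ ∈ nonZeroDivisors R := by
  let N : Ideal R := LinearMap.ker (LinearMap.mul R R ζ)
  have hN : ∀ r, r ∈ N ↔ ζ * r = 0 := fun r => Iff.rfl
  have hle : N ≤ Ideal.span {t} • N := fun r h => by
    have h0 := (hN r).1 h
    have h1 : t ∣ s * (s * (v * r)) := ⟨-(b * r), by rw [e] at h0; linear_combination h0⟩
    obtain ⟨r', rfl⟩ := hv.dvd_mul_left.1 (hr.two _ (hr.two _ h1))
    exact Submodule.smul_mem_smul (Ideal.mem_span_singleton_self t)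
      ((hN r').2 (hr.one _ (by linear_combination h0)))
  obtain ⟨g, hg, hg'⟩ := Submodule.exists_sub_one_mem_and_smul_eq_zero_of_fg_of_le_smul
    (Ideal.span {t}) N (IsNoetherian.noetherian N) hle
  rw [mem_nonZeroDivisors_iff_left]
  intro r h0
  refine (Ideal.mem_bot).1 (mem_of_max fun M hM => ?_)
  by_cases hz : ζ ∈ M
  · obtain rfl := ho M hM hz
    refine ⟨g, fun h => hm.ne_top ((Ideal.eq_top_iff_one _).2 ?_), hg' r ((hN r).2 h0)⟩
    have := M.sub_mem h ((Ideal.span_singleton_le_iff_mem _).2 ht hg)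
    rwa [sub_sub_cancel] at this
  · exact ⟨ζ, hz, h0⟩

end TrzP

open TrzP in
theorem pTrz (h1 : S_Av1.{u}) : S_Trz.{u} := by
  classical
  intro R _ _ _ n c y m s t hL hc hP hR hI hy
  have hm := hP.max
  have : Nontrivial R := by
    by_contra hn
    rw [not_nontrivial_iff_subsingleton] at hn
    exact hm.ne_top (Subsingleton.elim _ _)
  have nu : ∀ {M : Ideal R}, M.IsMaximal → ∀ {v : R}, IsUnit v → v ∉ M := fun hM _ hv h =>
    hM.ne_top (Ideal.eq_top_of_isUnit_mem _ h hv)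
  have ha : qv c y ∉ m := fun h => hI ⟨y, h, hy⟩
  have htm : t ∈ m := hP.gen ▸ Ideal.subset_span (by simp)
  obtain ⟨j, hj⟩ : ∃ j, y j ∉ m := by
    by_contra hn
    push Not at hn
    exact hy (ct_le.2 hn)
  obtain ⟨i, hi⟩ := exists_ne j
  obtain ⟨x, hx⟩ : ∃ x : Ix n → R, x = Pi.single i 1 := ⟨_, rfl⟩
  have xi : x i = 1 := by rw [hx, Pi.single_eq_same]
  have xj : x j = 0 := by rw [hx, Pi.single_eq_of_ne hi.symm]
  have qx : IsUnit (qv c x) := by
    rw [hx, qv_single, one_pow, mul_one]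
    exact hc.un i
  -- the choice of the parameter
  obtain ⟨l, hl⟩ := h1 R (MaximalSpectrum R ⊕ {k : MaximalSpectrum R // k.asIdeal ≠ m})
    (Sum.elim (fun k => k.asIdeal) fun k => k.1.asIdeal)
    (Sum.elim (fun _ => X) fun _ => qv (C ∘ c) (ln1 (t • y) (s • x))) hL
    (by rintro (k | k); exacts [k.isMaximal.isPrime, k.1.isMaximal.isPrime]) (by
      rintro (k | k)
      · exact ⟨1, by simpa using nu k.isMaximal isUnit_one⟩
      · refine ⟨2 * 1, ?_⟩
        simp only [Sum.elim_inr]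
        rw [(qv_deg c (deg_ln1 _ _)).2, cf_ln1, qv_smul]
        intro h
        have hk := k.1.isMaximal
        exact (hk.isPrime.mem_or_mem h).elim
          (fun h => (hP.oth _ hk k.2).1 (hk.isPrime.mem_of_pow_mem 2 h)) (nu hk qx))
  have ul : IsUnit l := isUnit_of_max fun M hM => by simpa using hl (Sum.inl ⟨M, hM⟩)
  obtain ⟨ζ, hζ⟩ : ∃ ζ, ζ = qv c (t • y + (l * s) • x) := ⟨_, rfl⟩
  have ez : ζ = t * (t * qv c y + l * s * bv c y x) + s ^ 2 * (l ^ 2 * qv c x) := by
    simp only [hζ, qv_add, qv_smul, bv_smul_left, bv_smul_right]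
    ring
  have ho : ∀ m' : Ideal R, m'.IsMaximal → ζ ∈ m' → m' = m := fun M hM hz => by
    by_contra hn
    refine hl (Sum.inr ⟨⟨M, hM⟩, hn⟩) ?_
    simp only [Sum.elim_inr, qv_ln1, eval_add, eval_mul, eval_C, eval_X, eval_pow, qv_smul,
      bv_smul_left, bv_smul_right]
    convert hz using 1
    rw [ez]
    ring
  -- the two vectors
  have q1 : IsUnit (qv c (l • x)) := by
    rw [qv_smul]
    exact (ul.pow 2).mul qx
  obtain ⟨w, hw, q2⟩ := lift_vec hc (Ideal.span {t}) (x := (l * qv c x) • y) fun M hM hle h => by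
    have e : M = m := by
      by_contra hn
      exact (hP.oth M hM hn).2 (hle (Ideal.mem_span_singleton_self t))
    rw [qv_smul, e] at h
    exact (hm.isPrime.mem_or_mem h).elim (nu hm ((ul.mul qx).pow 2)) ha
  choose r hr using fun k => Ideal.mem_span_singleton'.1 (hw k)
  have ew : ∀ k, w k = l * qv c x * y k + t * r k := fun k => by
    have := hr k
    simp only [Pi.smul_apply, smul_eq_mul] at this
    linear_combination -this
  have v1 : hvv s t (ln1 y (l • x)) = t • y + (l * s) • x := by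
    rw [hvv_ln1 s t y q1, smul_smul, mul_comm s]
  have v2 : hvv s t (ln1 (qv c y • x - s • r) w) =
      (l * s * qv c x) • y + (t * qv c y) • x := by
    rw [hvv_ln1 s t _ q2]
    funext k
    simp only [Pi.add_apply, Pi.smul_apply, Pi.sub_apply, smul_eq_mul, ew]
    ring
  refine ⟨ln1 y (l • x), ln1 (qv c y • x - s • r) w, vl c x, ζ, (tp_ln1 _ q1).2, (tp_ln1 _ q2).2,
    Sn.vl qx, reg htm hm hR ((ul.pow 2).mul qx) ez ho, ho, ?_, ?_⟩
  · rw [v1, v2, vl, vl, vl, vl, qv_comp, ← hζ]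
    ring
  obtain ⟨ρ₁, I₁, a1, b1, d1⟩ := quot hc s t y q1
  obtain ⟨ρ₂, I₂, a2, b2, d2⟩ := quot hc s t (qv c y • x - s • r) q2
  have t1 : I₁ = ⊤ := top_of_max fun M hM hle => by
    have hz : ζ ∈ I₁ := by
      rw [hζ]
      refine ct_le.2 (fun k => ?_) (qv_mem_ct c _)
      have := I₁.sub_mem (I₁.mul_mem_left t (b1 k)) (I₁.mul_mem_left (l * x k) a1)
      convert this using 1
      simp only [Pi.add_apply, Pi.smul_apply, smul_eq_mul]
      ring
    have e := ho M hM (hle hz)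
    have := hle (b1 j)
    simp only [Pi.smul_apply, smul_eq_mul, xj, mul_zero, add_zero, e] at this
    exact hj this
  have b3 : ∀ k, qv c y * x k + ρ₂ * (l * qv c x) * y k ∈ I₂ := fun k => by
    have := I₂.sub_mem (b2 k) (I₂.mul_mem_left (r k) a2)
    convert this using 1
    simp only [Pi.sub_apply, Pi.smul_apply, smul_eq_mul, ew]
    ring
  have n2 : ∀ M : Ideal R, M.IsMaximal → I₂ ≤ M → M ≠ m := by
    rintro M hM hle rfl
    have k1 := hle (b3 j)
    rw [xj, mul_zero, zero_add] at k1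
    have k2 := (hM.isPrime.mem_or_mem k1).resolve_right hj
    have k3 := M.sub_mem (hle (b3 i)) (M.mul_mem_right (y i) k2)
    rw [xi, mul_one, add_sub_cancel_right] at k3
    exact ha k3
  have b4 : ∀ k, ((l * s * qv c x) • y + (t * qv c y) • x) k ∈ I₂ := fun k => by
    have := I₂.sub_mem (I₂.mul_mem_left t (b3 k)) (I₂.mul_mem_left (l * qv c x * y k) a2)
    convert this using 1
    simp only [Pi.add_apply, Pi.smul_apply, smul_eq_mul]
    ring
  have b5 : qv c y ∈ I₂ := by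
    have := ct_le.2 b4 (qv_mem_ct c _)
    rw [qv_comp, ← hζ, mul_right_comm] at this
    exact canc (fun M hM hle h => (hM.isPrime.mem_or_mem h).elim (nu hM qx)
      fun h => n2 M hM hle (ho M hM h)) this
  have b6 : ct y ≤ I₂ := ct_le.2 fun k => by
    have := I₂.sub_mem (b4 k) (I₂.mul_mem_left (t * x k) b5)
    refine canc (a := s * (l * qv c x)) (fun M hM hle h => (hM.isPrime.mem_or_mem h).elim
      (hP.oth M hM (n2 M hM hle)).1 (nu hM (ul.mul qx))) ?_
    convert this using 1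
    simp only [Pi.add_apply, Pi.smul_apply, smul_eq_mul]
    ring
  have z1 : lp s t (ln1 y (l • x)) = 0 := by
    have := d1 ⊤ t1.ge
    rwa [Module.length_eq_zero, nonpos_iff_eq_zero] at this
  rw [z1, zero_add]
  exact d2 _ b6

end Pool.Agent.P.MP_46a8f8_ag.GU
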