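import Pool.Agent.P.MP_46a8f8_ag.GU.Sp

/-!
Norms from the algebra of the isotropic points of a line.
-/

namespace Pool.Agent.P.MP_46a8f8_ag.GU

open Function Polynomial

universe u

namespace TwAP

/-- over a ring of dimension zero, with isotropic residue forms, every unit is a spinor norm -/
theorem dim0 (h1 : S_Ap0.{u}) (h2 : S_Uu.{u}) {D : Type u} [CommRing D] [IsNoetherianRing D]
    [Finite (MaximalSpectrum D)] {n : ℕ} {c : Ix n → D} (hc : Ok2 c)
    (h : ∀ P : Ideal D, P.IsPrime → P.IsMaximal ∧ IsoAt c P) {a : D} (ha : IsUnit a) :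
    Sn c a := by
  obtain ⟨y, hy, hy'⟩ := h1 D n c hc fun p hp => (h p hp.1.1).2
  have ht : ct y = ⊤ := top_of_max fun m hm hle => by
    have := hm.isPrime
    obtain ⟨p, hp, hpm⟩ := Ideal.exists_minimalPrimes_le (I := ⊥) (J := m) bot_le
    refine hy' p hp ?_
    rwa [(h p hp.1.1).1.eq_of_le hm.ne_top hpm]
  refine h2 D n c y a hc hy ha ?_
  have : Subsingleton (D ⧸ ct y) := Ideal.Quotient.subsingleton_iff.2 ht
  exact Sn.triv _

theorem quot (h1 : S_Ap0.{u}) (h2 : S_Uu.{u}) {R D : Type u} [CommRing R] [IsNoetherianRing R]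
    [Finite (MaximalSpectrum R)] [CommRing D] [Algebra R D] [Module.Finite R D] {n : ℕ}
    {c y w : Ix n → R} (hc : Ok2 c) (x : D)
    (hx : ∀ i, algebraMap R D (y i) + x * algebraMap R D (w i) = 0)
    (h : ∀ p : Ideal R, p.IsPrime → Pl y w p → p.IsMaximal ∧ IsoAt c p) {a : D} (ha : IsUnit a) :
    Sn (algebraMap R D ∘ c) a := by
  have := semi_fin R D
  have : IsNoetherianRing D := Algebra.FiniteType.isNoetherianRing R D
  refine dim0 h1 h2 (hc.map _) (fun P hP => ?_) ha
  obtain ⟨hm, v, hv, hv'⟩ := h (P.comap (algebraMap R D)) inferInstance fun i j => by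
    have e : algebraMap R D (y i * w j - y j * w i) = 0 := by
      rw [map_sub, map_mul, map_mul]
      linear_combination algebraMap R D (w j) * hx i - algebraMap R D (w i) * hx j
    rw [Ideal.mem_comap, e]
    exact P.zero_mem
  refine ⟨Ideal.isMaximal_of_isIntegral_of_isMaximal_comap P hm, algebraMap R D ∘ v, ?_,
    fun hle => hv' (ct_le.2 fun i => ct_le.1 hle i)⟩
  rw [← map_qv]
  exact hv

end TwAP

open TwAP in
theorem pTwA (h1 : S_Ap0.{u}) (h2 : S_Uu.{u}) (h3 : S_NPi.{u}) : S_TwA.{u} := by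
  intro R _ _ _ n c y w g κ hL hc hg hd hκ h
  have := hg.finite_adjoinRoot
  have := semi_fin R (AdjoinRoot g)
  have ha : IsUnit (AdjoinRoot.mk g κ) := by
    obtain ⟨a, b, e⟩ := hκ
    have := congrArg (AdjoinRoot.mk g) e
    rw [map_add, map_mul, map_mul, AdjoinRoot.mk_self, mul_zero, add_zero, map_one] at this
    exact IsUnit.of_mul_eq_one_right _ this
  refine h3 R n c g hL hc hg _ ?_
  have hY : qv (algebraMap R (AdjoinRoot g) ∘ c) (AdjoinRoot.mk g ∘ ln1 y w) = 0 :=
    (map_qv (C ∘ c) (ln1 y w) (AdjoinRoot.mk g)).symm.trans (AdjoinRoot.mk_eq_zero.2 hd)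
  refine h2 _ n _ _ _ (hc.map _) hY ha ?_
  set I := ct (AdjoinRoot.mk g ∘ ln1 y w) with hI
  have : Module.Finite R (AdjoinRoot g ⧸ I) :=
    Module.Finite.of_surjective (Ideal.Quotient.mkₐ R I).toLinearMap Ideal.Quotient.mk_surjective
  refine quot (D := AdjoinRoot g ⧸ I) h1 h2 hc (Ideal.Quotient.mk I (AdjoinRoot.mk g X))
    (fun i => ?_) h (ha.map _)
  have := Ideal.Quotient.eq_zero_iff_mem.2 (mem_ct (AdjoinRoot.mk g ∘ ln1 y w) i)
  simp only [Function.comp, ln1, map_add, map_mul] at this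
  exact this

end Pool.Agent.P.MP_46a8f8_ag.GU
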