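import Pool.Agent.P.MP_46a8f8_ag.GU.Sp

/-!
Elements of the Clifford group over a given orthogonal matrix and their norms.
-/

namespace Pool.Agent.P.MP_46a8f8_ag.GU

open Function

universe u

namespace TwEP

variable {R E : Type u} [CommRing R] [Ring E] [Algebra R E] {n : ℕ} {c : Ix n → R}
  {e : Ix n → E} {α : E →ₐ[R] E} {ρ : E →ₗ[R] E} {ψ : Matrix (Ix n) (Ix n) R}

theorem surj (hc : Ok2 c) (hψ : Ort c ψ) (w : Ix n → R) : ∃ v, ψ.mulVec v = w := by
  obtain ⟨φ, hφ⟩ := (hψ.isUnit hc).exists_right_inv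
  exact ⟨φ.mulVec w, by rw [Matrix.mulVec_mulVec, hφ, Matrix.one_mulVec]⟩

theorem scal (hK : S_Ker.{u}) (h : ClD c e α ρ) {x : E}
    (hx : ∀ w : Ix n → R, iv e w * x = α x * iv e w) : ∃ r, x = algebraMap R E r := by
  refine hK R E n c e α ρ x h fun i => ?_
  have := hx (Pi.single i 1)
  rwa [iv_single, one_smul] at this

theorem rel (h : ClD c e α ρ) {γ : E} {s : R} (hs : s * s = 1) {v w : Ix n → R}
    (hγ : iv e w * γ = s • (γ * iv e v)) : iv e v * ρ γ = s • (ρ γ * iv e w) := by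
  have := congrArg ρ hγ
  rw [map_smul, h.rh_mul, h.rh_mul, h.rh_iv, h.rh_iv] at this
  rw [this, smul_smul, hs, one_smul]

theorem key (hK : S_Ker.{u}) (h : ClD c e α ρ) (hψ : Ort c ψ) {y γ : E} {s : R} (hs : s * s = 1)
    (hy : Tw e α y ψ) (h1 : ∀ v, iv e (ψ.mulVec v) * γ = s • (γ * iv e v)) (h2 : α γ = s • γ) :
    ∃ r, y * ρ γ = algebraMap R E r ∧ r = s * r := by
  have ha : α (y * ρ γ) = s • (y * ρ γ) := by
    rw [map_mul, hy.1, h.al_rh, h2, map_smul, mul_smul_comm]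
  obtain ⟨r, hr⟩ := scal hK h (x := y * ρ γ) fun w => by
    obtain ⟨v, rfl⟩ := surj h.ok hψ w
    rw [ha, ← mul_assoc, hy.2, mul_assoc, rel h hs (h1 v), mul_smul_comm, smul_mul_assoc,
      mul_assoc]
  refine ⟨r, hr, h.alg_inj ?_⟩
  rw [hr, AlgHom.commutes, Algebra.smul_def, ← map_mul] at ha
  exact ha

theorem core (hK : S_Ker.{u}) (h : ClD c e α ρ) (hψ : Ort c ψ) {l : List (Ix n → R)}
    (hl : ∀ w ∈ l, IsUnit (qv c w)) (hl' : ∀ v, ψ.mulVec v = l.foldr (rf c) v) {y : E}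
    (hy : Tw e α y ψ) : ∃ r, r = (-1) ^ l.length * r ∧ qp c l • y = r • (l.map (iv e)).prod ∧
      qp c l ^ 2 • (y * ρ y) = algebraMap R E (r ^ 2 * qp c l) := by
  obtain ⟨h1, h2⟩ := h.ref hl
  obtain ⟨h3, h4⟩ := h.norm l
  obtain ⟨r, hr, hr'⟩ := key hK h hψ (s := (-1) ^ l.length)
    (by rw [← mul_pow, neg_mul_neg, one_mul, one_pow]) hy (fun v => by rw [hl', h1]) h2
  have h5 : qp c l • y = r • (l.map (iv e)).prod := by
    rw [Algebra.smul_def, Algebra.smul_def, Algebra.commutes, ← h4, ← mul_assoc, hr]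
  refine ⟨r, hr', h5, ?_⟩
  rw [sq, ← smul_mul_smul_comm, ← map_smul, h5, map_smul, smul_mul_smul_comm, h3,
    Algebra.smul_def, ← map_mul, sq]

theorem qp_unit {l : List (Ix n → R)} (hl : ∀ w ∈ l, IsUnit (qv c w)) : IsUnit (qp c l) := by
  refine List.prod_isUnit fun b hb => ?_
  obtain ⟨y, hy, rfl⟩ := List.mem_map.1 hb
  exact hl y hy

theorem rf_zero (hc : Ok2 c) (v : Ix n → R) :
    (s0 R n (-1)).mulVec v = rf c (Pi.single 0 1) v := by
  have := Ring.inverse_mul_cancel _ (hc.un 0)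
  funext i
  rw [s0, Matrix.mulVec_diagonal, rf, qv_single, bv_single]
  simp only [Pi.sub_apply, Pi.smul_apply, smul_eq_mul, one_pow, mul_one]
  split_ifs with hi
  · subst hi
    simp only [Pi.single_eq_same, Units.val_neg, Units.val_one, Int.cast_neg, Int.cast_one]
    linear_combination (2 * v 0) * this
  · rw [Pi.single_eq_of_ne hi]
    ring

theorem s0_one : s0 R n 1 = 1 := by
  simp [s0]

end TwEP

open TwEP

theorem pTwU (hK : S_Ker.{u}) : S_TwU.{u} := by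
  intro R E _ _ _ n c e α ρ y ψ h hψ hy
  obtain ⟨r, hr, -⟩ := key hK h hψ (s := 1) (one_mul 1) hy
    (fun v => by rw [hy.2, one_smul]) (by rw [hy.1, one_smul])
  refine ⟨r, hr, fun hu => ?_⟩
  have ha : α (ρ y * y) = ρ y * y := by rw [map_mul, h.al_rh, hy.1]
  obtain ⟨r', hr'⟩ := scal hK h (x := ρ y * y) fun v => by
    rw [ha, ← mul_assoc, rel h (s := 1) (one_mul 1) (by rw [hy.2, one_smul]), one_smul,
      mul_assoc, hy.2, mul_assoc]
  have h1 : algebraMap R E (r' * r) = algebraMap R E (r * r) := by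
    rw [map_mul, map_mul]
    calc algebraMap R E r' * algebraMap R E r = y * (ρ y * y) * ρ y := by
          rw [hr', ← Algebra.commutes r' y, mul_assoc, hr]
      _ = algebraMap R E r * algebraMap R E r := by
          rw [← mul_assoc, hr, mul_assoc, hr]
  rw [hr', hu.mul_right_cancel (h.alg_inj h1)]

theorem pTwE (hK : S_Ker.{u}) (hC : S_CD.{u}) : S_TwE.{u} := by
  intro k E _ _ _ n c e α ρ ψ h hψ
  obtain ⟨l, hl, hl'⟩ := hC k n c ψ h.ok hψ
  obtain ⟨ε, l, hl, hl', hev⟩ : ∃ (ε : ℤˣ) (l : List (Ix n → k)), (∀ w ∈ l, IsUnit (qv c w)) ∧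
      (∀ v, (s0 k n ε * ψ).mulVec v = l.foldr (rf c) v) ∧ Even l.length := by
    rcases Nat.even_or_odd l.length with h1 | h1
    · exact ⟨1, l, hl, by rwa [s0_one, one_mul], h1⟩
    · refine ⟨-1, Pi.single 0 1 :: l, fun w hw => ?_, fun v => ?_, h1.add_one⟩
      · rcases List.mem_cons.1 hw with rfl | hw
        · rw [qv_single, one_pow, mul_one]
          exact h.ok.un 0
        · exact hl w hw
      · rw [← Matrix.mulVec_mulVec, rf_zero h.ok, hl', List.foldr_cons]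
  obtain ⟨h1, h2⟩ := h.ref hl
  have hN := (qp_unit hl).ne_zero
  have inj : ∀ r : k, algebraMap k E r = 0 → r = 0 := fun r hr =>
    h.alg_inj (by rw [hr, map_zero])
  rw [hev.neg_one_pow] at h1 h2
  refine ⟨ε, (l.map (iv e)).prod, fun h0 => hN (inj _ ?_), ⟨by rw [h2, one_smul], fun v => ?_⟩,
    fun y hy hy0 h0 => ?_⟩
  · rw [← (h.norm l).1, h0, zero_mul]
  · rw [hl', h1, one_smul]
  · obtain ⟨r, -, h3, h4⟩ := core hK h ((Ort.s0 ε).mul hψ) hl hl' hy
    rw [h0, smul_zero] at h4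
    have hr : r = 0 := pow_eq_zero_iff two_ne_zero |>.1
      ((mul_eq_zero.1 (inj _ h4.symm)).resolve_right hN)
    rw [hr, zero_smul] at h3
    exact hy0 ((smul_eq_zero.1 h3).resolve_left hN)

theorem pSnK (hK : S_Ker.{u}) (hC : S_CD.{u}) : S_SnK.{u} := by
  intro k E _ _ _ n c e α ρ y ψ u h hψ hy hu hyu
  obtain ⟨l, hl, hl'⟩ := hC k n c ψ h.ok hψ
  obtain ⟨r, h1, -, h4⟩ := core hK h hψ hl hl' hy
  have hN := (qp_unit hl).ne_zero
  rw [hyu, Algebra.smul_def, ← map_mul] at h4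
  have h5 : qp c l * u = r ^ 2 :=
    mul_left_cancel₀ hN (by linear_combination h.alg_inj h4)
  have hr : r ≠ 0 := by
    rintro rfl
    exact mul_ne_zero hN hu (by rw [h5]; ring)
  have hev : Even l.length := by
    by_contra hn
    rw [(Nat.not_even_iff_odd.1 hn).neg_one_pow] at h1
    exact mul_ne_zero h.ok.two.ne_zero hr (by linear_combination h1)
  obtain ⟨j, hj⟩ := hev
  have h6 : Sn c (qp c l) := by
    refine (Sn.sq h.ok ((h.ok.un 0).pow j)).of_eq h.ok ⟨l, hl, rfl⟩ ?_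
    rw [vp_eq, hj]
    ring
  exact h6.of_eq h.ok (Sn.sq h.ok hr.isUnit) h5

end Pool.Agent.P.MP_46a8f8_ag.GU
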