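import Pool.Agent.P.MP_46a8f8_ag.GU.Sp

/-!
Good directions over an infinite field.
-/

namespace Pool.Agent.P.MP_46a8f8_ag.GU

open Polynomial

universe u

namespace TwFP

variable {k : Type u} [Field k] [Infinite k]

theorem av (p : k[X]) (hp : p ≠ 0) : ∃ τ, p.eval τ ≠ 0 := by
  by_contra h
  push Not at h
  exact hp (Polynomial.funext fun r => by rw [h r, eval_zero])

theorem av3 (a b a' b' a'' b'' : k) (h : a ≠ 0) (h' : a' ≠ 0) (h'' : b'' ≠ 0) :
    ∃ τ, a + b * τ ^ 2 ≠ 0 ∧ a' + b' * τ ≠ 0 ∧ a'' + b'' * τ ≠ 0 := by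
  have e1 : (C a + C b * X ^ 2 : k[X]) ≠ 0 := fun e => h (by simpa using congrArg (eval 0) e)
  have e2 : (C a' + C b' * X : k[X]) ≠ 0 := fun e => h' (by simpa using congrArg (eval 0) e)
  have e3 : (C a'' + C b'' * X : k[X]) ≠ 0 := fun e =>
    h'' (by simpa [coeff_C] using congrArg (coeff · 1) e)
  obtain ⟨τ, hτ⟩ := av _ (mul_ne_zero (mul_ne_zero e1 e2) e3)
  simp only [eval_mul, eval_add, eval_C, eval_pow, eval_X] at hτ
  exact ⟨τ, left_ne_zero_of_mul (left_ne_zero_of_mul hτ),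
    right_ne_zero_of_mul (left_ne_zero_of_mul hτ), right_ne_zero_of_mul hτ⟩

theorem av5 (a0 a1 a2 a3 a4 : k) (h : a2 ≠ 0 ∨ a3 ≠ 0 ∨ a4 ≠ 0) :
    ∃ τ, τ ≠ 0 ∧ a0 + a1 * τ + a2 * τ ^ 2 + a3 * τ ^ 3 + a4 * τ ^ 4 ≠ 0 := by
  have e : (C a0 + C a1 * X + C a2 * X ^ 2 + C a3 * X ^ 3 + C a4 * X ^ 4 : k[X]) ≠ 0 := by
    intro e
    have e2 : a2 = 0 := by simpa [coeff_C, coeff_X, coeff_X_pow] using congrArg (coeff · 2) e
    have e3 : a3 = 0 := by simpa [coeff_C, coeff_X, coeff_X_pow] using congrArg (coeff · 3) e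
    have e4 : a4 = 0 := by simpa [coeff_C, coeff_X, coeff_X_pow] using congrArg (coeff · 4) e
    rcases h with h | h | h
    exacts [h e2, h e3, h e4]
  obtain ⟨τ, hτ⟩ := av _ (mul_ne_zero X_ne_zero e)
  simp only [eval_mul, eval_add, eval_C, eval_pow, eval_X] at hτ
  exact ⟨τ, left_ne_zero_of_mul hτ, right_ne_zero_of_mul hτ⟩

omit [Infinite k] in
theorem qv_two {n : ℕ} (c : Ix n → k) {i j : Ix n} (hij : i ≠ j) (τ : k) :
    qv c (Pi.single i 1 + Pi.single j τ) = c i + c j * τ ^ 2 := by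
  rw [qv_add, qv_single, qv_single, bv_single, Pi.single_eq_of_ne hij.symm]
  ring

theorem one {n : ℕ} (c y : Ix n → k) (hc : Ok2 c) :
    ∃ w : Ix n → k, qv c w ≠ 0 ∧ w 0 ≠ 0 ∧ (y = 0 ∨ ¬ Pl y w ⊥) := by
  have h01 : (0 : Ix n) ≠ 1 := by
    intro e
    have := congrArg Fin.val e
    simp at this
  have key : ∀ τ : k, (Pi.single 0 1 + Pi.single 1 τ : Ix n → k) 0 = 1 ∧
      (Pi.single 0 1 + Pi.single 1 τ : Ix n → k) 1 = τ := fun τ => by
    constructor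
    · rw [Pi.add_apply, Pi.single_eq_same, Pi.single_eq_of_ne h01, add_zero]
    · rw [Pi.add_apply, Pi.single_eq_same, Pi.single_eq_of_ne h01.symm, zero_add]
  by_cases h0 : y 0 = 0
  · refine ⟨Pi.single 0 1, by rw [qv_single]; simpa using (hc.un 0).ne_zero, by simp, ?_⟩
    by_cases hy : y = 0
    · exact Or.inl hy
    · refine Or.inr fun hp => hy (funext fun i => ?_)
      have := hp i 0
      rw [Ideal.mem_bot, h0, Pi.single_eq_same] at this
      simpa using this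
  · obtain ⟨τ, h1, -, h3⟩ := av3 (c 0) (c 1) 1 0 (-y 1) (y 0) (hc.un 0).ne_zero one_ne_zero h0
    refine ⟨Pi.single 0 1 + Pi.single 1 τ, by rwa [qv_two c h01], by simp [(key τ).1],
      Or.inr fun hp => h3 ?_⟩
    have := hp 0 1
    rw [Ideal.mem_bot, (key τ).1, (key τ).2] at this
    linear_combination this

theorem two {n : ℕ} (c x : Ix n → k) (hc : Ok2 c) (hx : x ≠ 0) :
    ∃ w : Ix n → k, qv c w ≠ 0 ∧ bv c x w ≠ 0 ∧ ∃ i j, x i * w j - x j * w i ≠ 0 := by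
  obtain ⟨i, hi⟩ := Function.ne_iff.1 hx
  obtain ⟨j, hj⟩ := exists_ne i
  have hi' : x i ≠ 0 := hi
  obtain ⟨τ, h1, h2, h3⟩ := av3 (c i) (c j) (2 * c i * x i) (2 * c j * x j) (-x j) (x i)
    (hc.un i).ne_zero (mul_ne_zero (mul_ne_zero hc.two.ne_zero (hc.un i).ne_zero) hi') hi'
  refine ⟨Pi.single i 1 + Pi.single j τ, by rwa [qv_two c hj.symm], ?_, i, j, ?_⟩
  · rw [bv_add_right, bv_single, bv_single]
    simpa only [mul_one] using h2
  · rw [Pi.add_apply, Pi.add_apply, Pi.single_eq_same, Pi.single_eq_same, Pi.single_eq_of_ne hj,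
      Pi.single_eq_of_ne hj.symm]
    intro e
    exact h3 (by linear_combination e)

end TwFP

theorem pTwF : S_TwF.{u} := by
  intro k _ _ n c x y ε hc hx _ _
  obtain ⟨w₁, h1, h2, h3⟩ := TwFP.one c y hc
  obtain ⟨w, k1, k2, i, j, k3⟩ := TwFP.two c x hc hx
  have hco : -2 * qv c y * qv c w * ε * qv c w₁ + ε * bv c y w₁ ^ 2 * qv c w +
        qv c w₁ * bv c x w ^ 2 ≠ 0 ∨
      -(bv c y w₁ * bv c x w * qv c w) ≠ 0 ∨ qv c y * qv c w ^ 2 ≠ 0 := by
    by_cases hA : qv c y = 0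
    · by_cases hB : bv c y w₁ = 0
      · refine Or.inl ?_
        rw [hA, hB]
        simpa using ⟨h1, k2⟩
      · exact Or.inr (Or.inl (neg_ne_zero.2 (mul_ne_zero (mul_ne_zero hB k2) k1)))
    · exact Or.inr (Or.inr (mul_ne_zero hA (pow_ne_zero 2 k1)))
  obtain ⟨τ, t0, t1⟩ := TwFP.av5 (ε ^ 2 * qv c y * qv c w₁ ^ 2)
    (-(ε * bv c y w₁ * bv c x w * qv c w₁)) _ _ _ hco
  refine ⟨w₁, τ • w, h1, h2, ?_, h3, fun hp => k3 ?_, fun e => t1 ?_⟩
  · rw [qv_smul]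
    exact mul_ne_zero (pow_ne_zero 2 t0) k1
  · have := hp i j
    rw [Ideal.mem_bot, Pi.smul_apply, Pi.smul_apply, smul_eq_mul, smul_eq_mul] at this
    exact (mul_eq_zero.1 (show τ * (x i * w j - x j * w i) = 0 by
      linear_combination this)).resolve_left t0
  · rw [rs, qv_smul, bv_smul_right] at e
    linear_combination e

end Pool.Agent.P.MP_46a8f8_ag.GU
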