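import Pool.Agent.P.MP_46a8f8_ag.GU.Sp

/-!
Comparison of two vectors whose values differ by a unit.
-/

namespace Pool.Agent.P.MP_46a8f8_ag.GU

open Polynomial

universe u

namespace TwoP

variable {R : Type u} [CommRing R] {n : ℕ}

theorem map_rs {R' : Type u} [CommRing R'] (f : R →+* R') (c x y w₁ w₂ : Ix n → R) (ε : R) :
    f (rs c x y w₁ w₂ ε) = rs (f ∘ c) (f ∘ x) (f ∘ y) (f ∘ w₁) (f ∘ w₂) (f ε) := by
  simp only [rs, map_add, map_sub, map_mul, map_pow, map_qv, map_bv]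

theorem pl_map {y w : Ix n → R} {m : Ideal R} (h : Pl y w m) :
    Pl (Ideal.Quotient.mk m ∘ y) (Ideal.Quotient.mk m ∘ w) ⊥ := fun i j => by
  have := Ideal.Quotient.eq_zero_iff_mem.2 (h i j)
  rw [map_sub, map_mul, map_mul] at this
  exact Ideal.mem_bot.2 this

/-- the conditions over a residue field -/
def GQ {k : Type u} [CommRing k] (c x y w₁ w₂ : Ix n → k) (ε : k) : Prop :=
  qv c w₁ ≠ 0 ∧ w₁ 0 ≠ 0 ∧ qv c w₂ ≠ 0 ∧ (y = 0 ∨ ¬ Pl y w₁ ⊥) ∧ ¬ Pl x w₂ ⊥ ∧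
    rs c x y w₁ w₂ ε ≠ 0

/-- the conditions at an ideal -/
def GM (c x y w₁ w₂ : Ix n → R) (ε : R) (m : Ideal R) : Prop :=
  GQ (Ideal.Quotient.mk m ∘ c) (Ideal.Quotient.mk m ∘ x) (Ideal.Quotient.mk m ∘ y)
    (Ideal.Quotient.mk m ∘ w₁) (Ideal.Quotient.mk m ∘ w₂) (Ideal.Quotient.mk m ε)

theorem comp_eq {v w : Ix n → R} {m : Ideal R} (h : ∀ i, v i - w i ∈ m) :
    Ideal.Quotient.mk m ∘ v = Ideal.Quotient.mk m ∘ w :=
  funext fun i => Ideal.Quotient.eq.2 (h i)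

theorem loc (h1 : S_TwF.{u}) {c x y : Ix n → R} {ε : R} (hl : Lam R) (hc : Ok2 c)
    (hx : ct x = ⊤) (hε : IsUnit ε) (e : qv c x = ε * qv c y) (m : Ideal R) :
    ∃ v₁ v₂ : Ix n → R, m.IsMaximal → GM c x y v₁ v₂ ε m := by
  by_cases hm : m.IsMaximal
  · let _ := Ideal.Quotient.field m
    have : Infinite (R ⧸ m) := (hl.map (Ideal.Quotient.mk m)).infinite
    obtain ⟨w₁, w₂, hw⟩ := h1 (R ⧸ m) n (Ideal.Quotient.mk m ∘ c) (Ideal.Quotient.mk m ∘ x)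
      (Ideal.Quotient.mk m ∘ y) (Ideal.Quotient.mk m ε) (hc.map _)
      (fun e0 => hm.ne_top (top_le_iff.1 (hx ▸ ct_le.2 fun i =>
        Ideal.Quotient.eq_zero_iff_mem.1 (congrFun e0 i))))
      (fun e0 => hm.ne_top (m.eq_top_of_isUnit_mem (Ideal.Quotient.eq_zero_iff_mem.1 e0) hε))
      (by rw [← map_qv, ← map_qv, e, map_mul])
    choose s hs using Ideal.Quotient.mk_surjective (I := m)
    refine ⟨s ∘ w₁, s ∘ w₂, fun _ => ?_⟩
    have e1 : ∀ w : Ix n → R ⧸ m, Ideal.Quotient.mk m ∘ s ∘ w = w := fun w =>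
      funext fun i => hs _
    rw [GM, e1, e1]
    exact hw
  · exact ⟨0, 0, fun h => absurd h hm⟩

theorem norm_C {G : R[X]} (hG : G.Monic) (h2 : G.natDegree = 2) (r : R) :
    Algebra.norm R (AdjoinRoot.mk G (C r)) = r ^ 2 := by
  have := Algebra.norm_algebraMap_of_basis (AdjoinRoot.powerBasis' hG).basis r
  rwa [Fintype.card_fin, AdjoinRoot.powerBasis'_dim, h2] at this

theorem norm_X (h5 : S_Hn.{u}) {G : R[X]} (hG : G.Monic) (h2 : G.natDegree = 2) :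
    Algebra.norm R (AdjoinRoot.mk G X) = G.coeff 0 := by
  have := h5 R G 0 1 hG
  rw [Yp, C_1, C_0, one_mul, sub_zero, h2, hv_eq] at this
  rw [this]
  simp [Finset.sum_range_succ]

theorem mon [Nontrivial R] {a b q : R} (hq : IsUnit q) :
    ∃ G : R[X], G.Monic ∧ G.natDegree = 2 ∧ C a + C b * X + C q * X ^ 2 = C q * G ∧
      q * G.coeff 0 = a := by
  have e : (C a + C b * X + C q * X ^ 2 : R[X]).coeff 2 = q := by
    simp
  obtain ⟨G, g1, g2, g3⟩ := exists_monic (g := C a + C b * X + C q * X ^ 2) (e := 2)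
    (by compute_degree) (e.symm ▸ hq)
  rw [e] at g3
  refine ⟨G, g1, g2, g3, ?_⟩
  have := congrArg (·.coeff 0) g3
  simpa using this.symm

end TwoP

open Pool.Agent.P.MP_46a8f8_ag.GU.TwoP in
theorem pTwo (h1 : S_TwF.{u}) (h2 : S_Pert.{u}) (h3 : S_TwA.{u}) (h4 : S_Rcp.{u})
    (h5 : S_Hn.{u}) : S_Two.{u} := by
  intro R _ _ _ n c x y ε hd hl hc hx hε e hy hz hi
  rcases subsingleton_or_nontrivial R with hR | hR
  · exact Sn.triv ε
  choose v₁ v₂ hv using loc h1 hl hc hx hε e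
  obtain ⟨w₀, hw₀⟩ := crtv' v₁
  obtain ⟨w₂, hw₂⟩ := crtv' v₂
  have k0 : ∀ m : Ideal R, m.IsMaximal → GM c x y w₀ w₂ ε m := fun m hm => by
    rw [GM, comp_eq (hw₀ m hm), comp_eq (hw₂ m hm)]
    exact hv m hm
  obtain ⟨w₁, hw₁, hp⟩ := h2 R n y w₀ hd hl hz (isUnit_of_max fun m hm h =>
    (k0 m hm).2.1 (Ideal.Quotient.eq_zero_iff_mem.2 h))
  have k1 : ∀ m : Ideal R, m.IsMaximal → GM c x y w₁ w₂ ε m := fun m hm => by
    rw [GM, comp_eq (hw₁ m hm)]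
    exact k0 m hm
  have u1 : IsUnit (qv c w₁) := isUnit_of_max fun m hm h =>
    (k1 m hm).1 (by rw [← map_qv]; exact Ideal.Quotient.eq_zero_iff_mem.2 h)
  have u2 : IsUnit (qv c w₂) := isUnit_of_max fun m hm h =>
    (k1 m hm).2.2.1 (by rw [← map_qv]; exact Ideal.Quotient.eq_zero_iff_mem.2 h)
  have u3 : IsUnit (rs c x y w₁ w₂ ε) := isUnit_of_max fun m hm h =>
    (k1 m hm).2.2.2.2.2 (by rw [← map_rs]; exact Ideal.Quotient.eq_zero_iff_mem.2 h)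
  obtain ⟨G₁, m1, d1, e1, c1⟩ := mon (a := qv c y) (b := bv c y w₁) u1
  obtain ⟨G₂, m2, d2, e2, c2⟩ := mon (a := qv c x) (b := bv c x w₂) u2
  obtain ⟨ρ, hρ⟩ := u3.exists_left_inv
  obtain ⟨η, hη⟩ := hε.exists_left_inv
  set κ : R[X] := C (bv c x w₂ - ε * bv c y w₁) + C (qv c w₂ - ε * qv c w₁) * X with hκ
  have e' := congrArg (C : R →+* R[X]) e
  have hρ' := congrArg (C : R →+* R[X]) hρ
  have hη' := congrArg (C : R →+* R[X]) hη
  simp only [rs, map_mul, map_sub, map_add, map_pow, map_one] at e' hρ' hη' hκ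
  have ek : C (qv c w₂) * G₂ = C ε * (C (qv c w₁) * G₁) + X * κ := by
    rw [← e1, ← e2, hκ, e']
    ring
  have co1 : IsCoprime κ (C (qv c w₁) * G₁) := by
    refine ⟨-(C ρ * (C (bv c y w₁) * (C (qv c w₂) - C ε * C (qv c w₁)) + C (qv c w₁) *
      (κ - 2 * (C (bv c x w₂) - C ε * C (bv c y w₁))))),
      C ρ * (C (qv c w₂) - C ε * C (qv c w₁)) ^ 2, ?_⟩
    rw [← e1, ← hρ', hκ]
    ring
  have co2 : IsCoprime κ (C (qv c w₂) * G₂) := by
    obtain ⟨a, b, hab⟩ := co1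
    refine ⟨a - b * C η * X, b * C η, ?_⟩
    rw [ek]
    linear_combination hab + b * (C (qv c w₁) * G₁) * hη'
  have s1 := h3 R n c y w₁ G₁ κ hl hc m1 (by rw [qv_ln1, e1]; exact dvd_mul_left _ _)
    co1.of_mul_right_right fun p hpp hpl => by
      have hm := hp p hpp hpl
      refine ⟨hm, hi p hm (ct_le.2 fun i => ?_)⟩
      exact Ideal.Quotient.eq_zero_iff_mem.1
        (congrFun ((k1 p hm).2.2.2.1.resolve_right fun h => h (pl_map hpl)) i)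
  have s2 := h3 R n c x w₂ G₂ κ hl hc m2 (by rw [qv_ln1, e2]; exact dvd_mul_left _ _)
    co2.of_mul_right_right fun p hpp hpl => by
      obtain ⟨m, hm, hle⟩ := p.exists_le_maximal hpp.ne_top
      exact absurd (pl_map fun i j => hle (hpl i j)) (k1 m hm).2.2.2.2.1
  have n0 := h4 R G₁ G₂ m1 m2
  rw [d1, d2, show ((-1 : R)) ^ (2 * 2) = 1 by norm_num, one_mul] at n0
  have n1 := congrArg (fun g => Algebra.norm R (AdjoinRoot.mk G₁ g)) ek
  simp only [map_add, map_mul (AdjoinRoot.mk G₁), AdjoinRoot.mk_self, mul_zero, zero_add,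
    map_mul (Algebra.norm R), norm_C m1 d1, norm_X h5 m1 d1] at n1
  have ek' : C ε * (C (qv c w₁) * G₁) = C (-1) * (X * κ) + C (qv c w₂) * G₂ := by
    rw [ek, map_neg, map_one]
    ring
  have n2 := congrArg (fun g => Algebra.norm R (AdjoinRoot.mk G₂ g)) ek'
  simp only [map_add, map_mul (AdjoinRoot.mk G₂), AdjoinRoot.mk_self, mul_zero, add_zero,
    map_mul (Algebra.norm R), norm_C m2 d2, norm_X h5 m2 d2] at n2
  have n3 : qv c w₁ ^ 2 * Algebra.norm R (AdjoinRoot.mk G₁ κ) * ε =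
      qv c w₁ * qv c w₂ * Algebra.norm R (AdjoinRoot.mk G₂ κ) := by
    refine sub_eq_zero.1 ((mem_nonZeroDivisors_iff.1 hy).1 _ ?_)
    linear_combination qv c w₁ ^ 3 * ε * qv c w₂ ^ 2 * n0 - qv c w₁ ^ 3 * ε * n1 -
      qv c w₁ ^ 2 * Algebra.norm R (AdjoinRoot.mk G₁ κ) * ε * c1 +
      η * qv c w₁ * qv c w₂ ^ 2 * n2 +
      η * qv c w₁ * qv c w₂ * Algebra.norm R (AdjoinRoot.mk G₂ κ) * (c2 + e) +
      (qv c y * qv c w₁ * qv c w₂ * Algebra.norm R (AdjoinRoot.mk G₂ κ) -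
        ε * qv c w₁ ^ 3 * qv c w₂ ^ 2 * Algebra.norm R (AdjoinRoot.mk G₂ G₁)) * hη
  exact ((Sn.sq hc u1).mul s1).of_eq hc ((Sn.qq hc u1 u2).mul s2) n3

end Pool.Agent.P.MP_46a8f8_ag.GU
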