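import Pool.Agent.P.MP_46a8f8_ag.GU.Sp

/-!
Units in the presence of an isotropic vector.
-/

namespace Pool.Agent.P.MP_46a8f8_ag.GU

open TensorProduct Function IsLocalRing Polynomial

universe u

namespace UuP

variable {S : Type u} [CommRing S] [Finite (MaximalSpectrum S)] {n : ℕ} {c Y : Ix n → S}

theorem one_mod (hc : Ok2 c) (hY : qv c Y = 0) (A : Finset (Ix n)) :
    ∀ α : S, IsUnit α → α - 1 ∈ Ideal.span (Y '' A) → Sn c α := by
  induction A using Finset.induction_on with
  | empty =>
    intro α _ h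
    rw [Finset.coe_empty, Set.image_empty, Ideal.span_empty, Ideal.mem_bot, sub_eq_zero] at h
    exact h ▸ Sn.one
  | insert i A _ ih =>
    intro α hα h
    rw [Finset.coe_insert, Set.image_insert_eq, Ideal.mem_span_insert] at h
    obtain ⟨r, a, ha, e⟩ := h
    obtain ⟨u, hu, hu'⟩ := lift_unit (Ideal.span (Y '' A) ⊓ Ideal.span {Y i}) (a := 1 + r * Y i)
      fun m hm hI h => by
        rcases hm.isPrime.inf_le.1 hI with h1 | h1
        · refine hm.ne_top (m.eq_top_of_isUnit_mem ?_ hα)
          convert m.add_mem h (h1 ha) using 1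
          linear_combination e
        · have := m.sub_mem h (m.mul_mem_left r (h1 (Ideal.mem_span_singleton_self _)))
          exact hm.ne_top ((Ideal.eq_top_iff_one _).2 (by simpa using this))
    obtain ⟨k, hk⟩ := Ideal.mem_span_singleton'.1 hu.2
    obtain ⟨t, ht⟩ := hc.two.exists_right_inv
    have e1 : qv c (Pi.single i 1 + (t * (r + k)) • Y) = c i * u := by
      rw [qv_add, qv_smul, hY, bv_smul_right, bv_comm, bv_single, qv_single]
      linear_combination (c i * (r + k) * Y i) * ht + c i * hk
    have h1 : Sn c u := by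
      have h2 := Sn.qq hc (x := Pi.single i 1) (y := Pi.single i 1 + (t * (r + k)) • Y)
        (by rw [qv_single]; simpa using hc.un i) (e1 ▸ (hc.un i).mul hu')
      refine (Sn.sq hc (hc.un i)).of_eq hc h2 ?_
      rw [e1, qv_single]
      ring
    obtain ⟨v, hv⟩ := hu'.exists_right_inv
    have h2 := ih (α * v) (hα.mul (IsUnit.of_mul_eq_one_right _ hv)) (by
      convert Ideal.mul_mem_right v _ (Ideal.sub_mem _ ha hu.1) using 1
      linear_combination v * e + hv)
    convert h1.mul h2 using 1
    linear_combination -α * hv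

end UuP

theorem pUu : S_Uu.{u} := by
  intro S _ _ n c Y α hc hY hα ⟨l, hl, h⟩
  obtain ⟨β, hβ, e⟩ : ∃ β, Sn c β ∧
      Ideal.Quotient.mk (ct Y) β = vp (Ideal.Quotient.mk (ct Y) ∘ c) l := by
    clear h
    induction l with
    | nil => exact ⟨1, Sn.one, rfl⟩
    | cons x l ih =>
      obtain ⟨β, hβ, e⟩ := ih fun y hy => hl y (List.mem_cons_of_mem _ hy)
      choose x₀ hx₀ using fun i => Ideal.Quotient.mk_surjective (x i)
      obtain rfl : x = Ideal.Quotient.mk (ct Y) ∘ x₀ := funext fun i => (hx₀ i).symm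
      obtain ⟨x', h1, h2⟩ := lift_vec hc (ct Y) (x := x₀) fun m hm hI h => by
        obtain ⟨b, hb⟩ := (hl _ List.mem_cons_self).exists_right_inv
        obtain ⟨b, rfl⟩ := Ideal.Quotient.mk_surjective b
        rw [← map_qv, ← map_mul, ← map_one (Ideal.Quotient.mk (ct Y)), Ideal.Quotient.eq] at hb
        exact hm.ne_top ((Ideal.eq_top_iff_one _).2
          (by simpa using m.sub_mem (m.mul_mem_right b h) (hI hb)))
      refine ⟨vl c x' * β, (Sn.vl h2).mul hβ, ?_⟩
      rw [map_mul, e, vp_cons, map_vl]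
      congr 2
      exact funext fun i => Ideal.Quotient.eq.2 (h1 i)
  obtain ⟨v, hv⟩ := (hβ.isUnit hc).exists_right_inv
  have h2 := UuP.one_mod hc hY Finset.univ (α * v) (hα.mul (IsUnit.of_mul_eq_one_right _ hv)) (by
    rw [Finset.coe_univ, Set.image_univ]
    change _ ∈ ct Y
    convert Ideal.mul_mem_right v _ (Ideal.Quotient.eq.1 (h.trans e.symm)) using 1
    linear_combination hv)
  convert hβ.mul h2 using 1
  linear_combination -α * hv

end Pool.Agent.P.MP_46a8f8_ag.GU
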