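import Pool.Agent.P.MP_46a8f8_ag.GU.Sp

/-!
Lifting points of a sphere.
-/

namespace Pool.Agent.P.MP_46a8f8_ag.GU

open TensorProduct Function IsLocalRing Polynomial

universe u

theorem pWt : S_Wt.{u} := by
  intro S _ _ n c x z I hc hx hz
  have h1 : ∀ m : Ideal S, ∃ v : Ix n → S, m.IsMaximal → qv c v ∉ m ∧
      qv c v * (2 * qv c x - bv c x z) + bv c x v * bv c v z ∉ m := fun m => by
    by_cases hm : m.IsMaximal
    swap
    · exact ⟨0, fun h => absurd h hm⟩
    have hp := hm.isPrime
    have ha : qv c x ∉ m := fun h => hm.ne_top (m.eq_top_of_isUnit_mem h hx)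
    have h2 := (hc.not_mem hm.ne_top).1
    by_cases hb : 2 * qv c x - bv c x z ∈ m
    · refine ⟨x, fun _ => ⟨ha, fun h => ?_⟩⟩
      have := m.add_mem h (m.mul_mem_left (qv c x) hb)
      rw [bv_self, show qv c x * (2 * qv c x - bv c x z) + 2 * qv c x * bv c x z +
        qv c x * (2 * qv c x - bv c x z) = 2 * (2 * (qv c x * qv c x)) by ring] at this
      exact (hp.mem_or_mem ((hp.mem_or_mem ((hp.mem_or_mem this).resolve_left h2)).resolve_left
        h2)).elim ha ha
    · obtain ⟨y, hy⟩ := hc.exists_disc (x := x) hp fun h => ha (h (qv_mem_ct c x))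
      have e1 : qv c ((2 * qv c x) • y - bv c x y • x) =
          -qv c x * (bv c x y ^ 2 - 4 * qv c x * qv c y) := by
        rw [qv_sub, qv_smul, qv_smul, bv_smul_left, bv_smul_right, bv_comm c y x]
        ring
      have e2 : bv c x ((2 * qv c x) • y - bv c x y • x) = 0 := by
        rw [bv_sub_right, bv_smul_right, bv_smul_right, bv_self]
        ring
      have k : qv c ((2 * qv c x) • y - bv c x y • x) ∉ m := fun h => by
        rw [e1] at h
        exact (hp.mem_or_mem h).elim (fun h => ha (m.neg_mem_iff.1 h)) hy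
      refine ⟨_, fun _ => ⟨k, fun h => ?_⟩⟩
      rw [e2, zero_mul, add_zero] at h
      exact (hp.mem_or_mem h).elim k hb
  choose v hv using h1
  obtain ⟨V, hV⟩ := crtv' v
  have hVu : IsUnit (qv c V) := isUnit_of_max fun m hm h => (hv m hm).1 (by
    simpa using m.sub_mem h (qv_sub_mem c V _ (hV m hm)))
  have e : qv c V * qv c (rf c V x - z) = qv c V * (qv c z - qv c x) +
      (qv c V * (2 * qv c x - bv c x z) + bv c x V * bv c V z) := by
    have := congrArg (bv c · z) (rf_eq hVu x)
    simp only [bv_smul_left, bv_sub_left] at this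
    rw [qv_sub, qv_rf hVu]
    linear_combination -this
  obtain ⟨W, hW, hWu⟩ := lift_vec hc I (x := rf c V x - z) fun m hm hI h => (hv m hm).2 (by
    have k := m.sub_mem (e ▸ m.mul_mem_left (qv c V) h) (m.mul_mem_left (qv c V) (hI hz))
    have k1 := qv_sub_mem c V _ (hV m hm)
    have k2 := bv_sub_mem c x V (x' := x) (I := m) (by simp) (hV m hm)
    have k3 := bv_sub_mem c V z (y' := z) (I := m) (hV m hm) (by simp)
    convert m.sub_mem (m.sub_mem (m.sub_mem k (m.mul_mem_right (2 * qv c x - bv c x z) k1))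
      (m.mul_mem_right (bv c V z) k2)) (m.mul_mem_left (bv c x (v m)) k3) using 1
    ring)
  refine ⟨rf c W (rf c V x), by rw [qv_rf hWu, qv_rf hVu], fun i => ?_⟩
  let π := Ideal.Quotient.mk I
  have e1 : π ∘ W = π ∘ rf c V x - π ∘ z := funext fun i => by
    simpa using Ideal.Quotient.eq.2 (hW i)
  have e2 := map_rf π hWu (rf c V x)
  rw [e1, rf_sub] at e2
  · exact Ideal.Quotient.eq.1 (congrFun e2 i)
  · rw [← map_qv, ← map_qv, qv_rf hVu]
    exact (Ideal.Quotient.eq.2 hz).symm
  · rw [← e1, ← map_qv]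
    exact hWu.map π

end Pool.Agent.P.MP_46a8f8_ag.GU
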