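import Pool.Agent.P.MP_46a8f8_ag.GU.Sp

/-!
Package Z1: vectors with prescribed values in a nondegenerate plane.
-/

namespace Pool.Agent.P.MP_46a8f8_ag.GU

open QuadraticAlgebra

universe u

namespace Z1P

variable {R : Type u} [CommRing R]

/-- the elements of the ideal generated by `A` and `ω` have first coordinate divisible by `A` -/
theorem dvd_re {A B D : R} {ξ : QuadraticAlgebra R (-(A * D)) B}
    (h : ξ ∈ Ideal.span {algebraMap R (QuadraticAlgebra R (-(A * D)) B) A, omega}) :
    A ∣ ξ.re := by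
  obtain ⟨u, v, rfl⟩ := Ideal.mem_span_pair.1 h
  refine ⟨u.re - D * v.im, ?_⟩
  simp only [re_add, re_mul, algebraMap_re, algebraMap_im, omega_re, omega_im]
  ring

/-- the norm form on that ideal is the quadratic form of the plane -/
theorem norm_eq {n : ℕ} (c x w : Ix n → R)
    (ξ : QuadraticAlgebra R (-(qv c x * qv c w)) (bv c x w)) (al : R)
    (h : ξ.re = qv c x * al) : norm ξ = qv c x * qv c (al • x + ξ.im • w) := by
  rw [norm_def, h, qv_add, qv_smul, qv_smul, bv_smul_left, bv_smul_right]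
  ring

/-- the coordinates in the plane lie in the ideal of the coordinates of the vector -/
theorem coord_mem {n : ℕ} (c x w : Ix n → R) (al be : R)
    (h : IsUnit (bv c x w ^ 2 - 4 * qv c x * qv c w)) :
    al ∈ ct (al • x + be • w) ∧ be ∈ ct (al • x + be • w) := by
  have h1 := bv_mem_ct c (al • x + be • w) x
  have h2 := bv_mem_ct c (al • x + be • w) w
  rw [bv_add_left, bv_smul_left, bv_smul_left, bv_self, bv_comm c w x] at h1
  rw [bv_add_left, bv_smul_left, bv_smul_left, bv_self] at h2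
  constructor
  · refine (Ideal.unit_mul_mem_iff_mem _ h).1 ?_
    have := Ideal.sub_mem _ (Ideal.mul_mem_left _ (bv c x w) h2)
      (Ideal.mul_mem_left _ (2 * qv c w) h1)
    convert this using 1
    ring
  · refine (Ideal.unit_mul_mem_iff_mem _ h).1 ?_
    have := Ideal.sub_mem _ (Ideal.mul_mem_left _ (bv c x w) h1)
      (Ideal.mul_mem_left _ (2 * qv c x) h2)
    convert this using 1
    ring

/-- a multiplicative family up to units is multiplicative on lists -/
theorem prod_assoc {Z : Type u} [CommRing Z] {A : R} (ϖ : R → Z) (h1 : IsUnit (ϖ 1))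
    (h : ∀ d d', d * d' ∣ A → Associated (ϖ d * ϖ d') (ϖ (d * d'))) (a : List R)
    (ha : a.prod ∣ A) : Associated (a.map ϖ).prod (ϖ a.prod) := by
  induction a with
  | nil => simpa using (associated_one_iff_isUnit.2 h1).symm
  | cons d a ih =>
    rw [List.prod_cons] at ha
    rw [List.map_cons, List.prod_cons, List.prod_cons]
    exact ((Associated.refl _).mul_mul (ih (Dvd.dvd.trans (Dvd.intro_left _ rfl) ha))).trans
      (h _ _ ha)

theorem vp_map {Z : Type u} [CommRing Z] {n : ℕ} (c : Ix n → R) (N : Z →* R) (η : R)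
    (Φ : Z → Ix n → R) (h : ∀ ζ, qv c (Φ ζ) = η * N ζ) (l : List Z) :
    vp c (l.map Φ) = (c 0 * η) ^ l.length * N l.prod := by
  induction l with
  | nil => simp [vp_nil]
  | cons ζ l ih =>
    rw [List.map_cons, vp_cons, ih, vl, h, List.prod_cons, map_mul, List.length_cons]
    ring

end Z1P

open Z1P in
theorem pZ1 (h1 : S_Z1a.{u}) : S_Z1.{u} := by
  intro R _ _ n c x w a z hc hd hA ha hz
  obtain ⟨ϖ, hs, hm⟩ := h1 R (qv c x) (bv c x w) (qv c w) hd hA
  obtain ⟨hπ, η, hη⟩ : Ideal.span {ϖ (qv c x)} = Ideal.span {algebraMap R _ (qv c x), omega} ∧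
      ∃ η : Rˣ, qv c x * η = norm (ϖ (qv c x)) :=
    ⟨(hs _ dvd_rfl).1, (hs _ dvd_rfl).2.symm⟩
  have hre : ∀ ζ, ∃ al, (ϖ (qv c x) * ζ).re = qv c x * al := fun ζ =>
    dvd_re (hπ ▸ Ideal.mul_mem_right _ _ (Ideal.mem_span_singleton_self _))
  choose al hal using hre
  have hq : ∀ ζ, qv c (al ζ • x + (ϖ (qv c x) * ζ).im • w) = η * norm ζ := by
    intro ζ
    have e := norm_eq c x w _ _ (hal ζ)
    rw [map_mul, ← hη, mul_assoc] at e
    exact (mul_cancel_left_mem_nonZeroDivisors hA).1 e.symm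
  have hreg : ϖ (qv c x) ∈ nonZeroDivisors _ := by
    rw [← norm_mem_nonZeroDivisors_iff, ← hη]
    exact mul_mem hA η.isUnit.mem_nonZeroDivisors
  have hu : ∀ ε : R, IsUnit ε → IsUnit (ϖ ε) := by
    intro ε hε
    rw [← Ideal.span_singleton_eq_top, (hs ε hε.dvd).1]
    exact Ideal.eq_top_of_isUnit_mem _ (Ideal.subset_span (by simp)) (hε.map (algebraMap R _))
  -- the vectors attached to the divisors of `q x` are unimodular
  have huni : ∀ d, d ∣ qv c x →
      ct (al (ϖ d) • x + (ϖ (qv c x) * ϖ d).im • w) = ⊤ := by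
    intro d hdA
    obtain ⟨m1, m2⟩ := coord_mem c x w (al (ϖ d)) (ϖ (qv c x) * ϖ d).im hd
    obtain ⟨s1, e1⟩ : ϖ (qv c x) ∣ algebraMap R _ (qv c x) :=
      Ideal.mem_span_singleton.1 (hπ ▸ Ideal.subset_span (by simp))
    obtain ⟨s2, e2⟩ : ϖ (qv c x) ∣ omega :=
      Ideal.mem_span_singleton.1 (hπ ▸ Ideal.subset_span (by simp))
    obtain ⟨t, e3⟩ : ϖ d ∣ omega :=
      Ideal.mem_span_singleton.1 ((hs d hdA).1 ▸ Ideal.subset_span (by simp))
    have e4 : ϖ (qv c x) * ϖ d =
        al (ϖ d) • algebraMap R _ (qv c x) + (ϖ (qv c x) * ϖ d).im • omega := by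
      ext
      · rw [hal]
        simp only [re_add, re_smul, algebraMap_re, omega_re, smul_eq_mul]
        ring
      · simp only [im_add, im_smul, algebraMap_im, omega_im, smul_eq_mul]
        ring
    have e5 : ϖ d = al (ϖ d) • s1 + (ϖ (qv c x) * ϖ d).im • s2 := by
      refine (mul_cancel_left_mem_nonZeroDivisors hreg).1 ?_
      rw [mul_add, mul_smul_comm, mul_smul_comm, ← e1, ← e2]
      exact e4
    have e6 : (1 : R) = al (ϖ d) * (s1 * t).im + (ϖ (qv c x) * ϖ d).im * (s2 * t).im := by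
      have := congrArg QuadraticAlgebra.im e3
      rw [omega_im] at this
      rw [this]
      conv_lhs => rw [e5]
      rw [add_mul, smul_mul_assoc, smul_mul_assoc, im_add, im_smul, im_smul, smul_eq_mul,
        smul_eq_mul]
    rw [Ideal.eq_top_iff_one, e6]
    exact Ideal.add_mem _ (Ideal.mul_mem_right _ _ m1) (Ideal.mul_mem_right _ _ m2)
  refine ⟨(a.map ϖ).map fun ζ => al ζ • x + (ϖ (qv c x) * ζ).im • w, ?_, ?_⟩
  · rw [List.map_map, List.forall₂_map_right_iff, List.forall₂_same]
    intro d hda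
    have hdA : d ∣ qv c x := (List.dvd_prod hda).trans ha
    refine ⟨huni d hdA, ?_⟩
    simp only [Function.comp_apply]
    rw [hq]
    exact (hs d hdA).2.symm.trans (associated_unit_mul_right _ _ η.isUnit)
  · obtain ⟨ε, hε⟩ := hz.symm
    have e0 : z * (z * ε) = a.prod := by
      rw [← hε]
      ring
    have d1 : z * (z * ε) ∣ qv c x := e0 ▸ ha
    have d2 : z * ε ∣ qv c x := (Dvd.intro_left _ rfl).trans d1
    have d3 : z ∣ qv c x := (Dvd.intro _ rfl).trans d2
    have a1 : Associated (ϖ z * ϖ z) (a.map ϖ).prod := by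
      refine Associated.trans ?_ (prod_assoc ϖ (hu 1 isUnit_one) hm a ha).symm
      rw [← e0]
      refine Associated.trans ?_ (hm _ _ d1)
      exact (Associated.refl _).mul_mul
        ((associated_mul_unit_right _ _ (hu _ ε.isUnit)).trans (hm _ _ d2))
    obtain ⟨υ, hυ⟩ := a1
    obtain ⟨κ, hκ⟩ := (hs z d3).2.symm
    have s1 : Sn c (c 0 * η) := by
      have := Sn.vl (c := c) (x := al 1 • x + (ϖ (qv c x) * 1).im • w)
        (by rw [hq, map_one, mul_one]; exact η.isUnit)
      rwa [vl, hq, map_one, mul_one] at this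
    have s2 : Sn c (norm (υ : QuadraticAlgebra R (-(qv c x * qv c w)) (bv c x w))) := by
      have := Sn.vl (c := c) (x := al υ • x + (ϖ (qv c x) * υ).im • w)
        (by rw [hq]; exact η.isUnit.mul (υ.isUnit.map QuadraticAlgebra.norm))
      rw [vl, hq, ← mul_assoc] at this
      exact Sn.cancel hc s1 this
    refine ⟨_, ((s1.pow (a.map ϖ).length).mul (Sn.sq hc κ.isUnit)).mul s2, ?_⟩
    rw [vp_map c QuadraticAlgebra.norm η _ hq, ← hυ, map_mul, map_mul, ← hκ]
    ring

end Pool.Agent.P.MP_46a8f8_ag.GU
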