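import Pool.Agent.P.MP_46a8f8_ag.GU.Sp
import Pool.Agent.P.MP_46a8f8_ag.GU.Ht1

/-!
Generators of the ideals `(d, omega)` in a quadratic etale algebra over a semilocal ring.
-/

namespace Pool.Agent.P.MP_46a8f8_ag.GU

universe u

namespace Z1aP

variable {T : Type u} [CommRing T]

theorem assoc_of_dvd {a b : T} (ha : a ∈ nonZeroDivisors T) (h : a ∣ b) (h' : b ∣ a) :
    Associated a b := by
  obtain ⟨x, rfl⟩ := h
  obtain ⟨y, hy⟩ := h'
  have e : x * y = 1 := by
    have : a * (x * y - 1) = 0 := by linear_combination -hy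
    exact sub_eq_zero.1 ((mem_nonZeroDivisors_iff.1 ha).1 _ this)
  exact ⟨(IsUnit.of_mul_eq_one y e).unit, rfl⟩

theorem nzd_of_dvd {a b : T} (hb : b ∈ nonZeroDivisors T) (h : a ∣ b) :
    a ∈ nonZeroDivisors T := by
  obtain ⟨x, rfl⟩ := h
  exact (mul_mem_nonZeroDivisors.1 hb).1

theorem princ [Finite (MaximalSpectrum T)] {w w' v d : T} (hv : v * (w - w') = 1)
    (hd : d ∣ w * w') : ∃ g : T, Ideal.span {g} = Ideal.span {d, w} := by
  have : (Ideal.span {d, w} : Ideal T).IsPrincipal := by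
    refine pLP T _ fun n hn => ?_
    by_cases hw : w ∈ n
    · refine ⟨d, Ideal.subset_span (by simp), fun b hb => ⟨w', fun hw' => ?_, ?_⟩⟩
      · exact hn.ne_top ((Ideal.eq_top_iff_one _).2 (hv ▸ n.mul_mem_left v (n.sub_mem hw hw')))
      · obtain ⟨x, y, rfl⟩ := Ideal.mem_span_pair.1 hb
        obtain ⟨e, he⟩ := hd
        exact ⟨w' * x + y * e, by linear_combination y * he⟩
    · exact ⟨w, Ideal.subset_span (by simp), fun b _ => ⟨w, hw, dvd_mul_right w b⟩⟩
  obtain ⟨g, hg⟩ := this
  exact ⟨g, hg.symm⟩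

theorem gen {g d w : T} (h : Ideal.span {g} = Ideal.span {d, w}) :
    g ∣ d ∧ g ∣ w ∧ ∃ x y, x * d + y * w = g :=
  ⟨Ideal.mem_span_singleton.1 (h ▸ Ideal.subset_span (by simp)),
    Ideal.mem_span_singleton.1 (h ▸ Ideal.subset_span (by simp)),
    Ideal.mem_span_pair.1 (h ▸ Ideal.mem_span_singleton_self g)⟩

theorem prod {w w' v d d' g g' k : T} (hv : v * (w - w') = 1) (hd : d * d' ∣ w * w')
    (hr : d * d' ∈ nonZeroDivisors T) (h : Ideal.span {g} = Ideal.span {d, w})
    (h' : Ideal.span {g'} = Ideal.span {d', w}) (hk : Ideal.span {k} = Ideal.span {d * d', w}) :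
    Associated (g * g') k := by
  obtain ⟨a1, a2, x, y, rfl⟩ := gen h
  obtain ⟨b1, b2, x', y', rfl⟩ := gen h'
  obtain ⟨c1, c2, x'', y'', hk'⟩ := gen hk
  have e1 := mul_dvd_mul a1 b1
  refine assoc_of_dvd (nzd_of_dvd hr e1) ?_ ?_
  · have e2 := mul_dvd_mul a2 b2
    have e3 : w = v * (w * w) - v * (w * w') := by linear_combination (-w) * hv
    rw [← hk']
    refine dvd_add (e1.mul_left _) (Dvd.dvd.mul_left ?_ _)
    conv_rhs => rw [e3]
    exact dvd_sub (e2.mul_left _) ((e1.trans hd).mul_left _)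
  · have e : (x * d + y * w) * (x' * d' + y' * w) =
        x * x' * (d * d') + (x * d * y' + y * (x' * d' + y' * w)) * w := by ring
    rw [e]
    exact dvd_add (c1.mul_left _) (c2.mul_left _)

end Z1aP

open Z1aP QuadraticAlgebra in
theorem pZ1a : S_Z1a.{u} := by
  intro R _ _ A B D hu hA
  have := semi_fin R (QuadraticAlgebra R (-(A * D)) B)
  set w : QuadraticAlgebra R (-(A * D)) B := omega with hw
  have hww : w * star w = algebraMap R _ (A * D) := by
    ext <;> simp [hw]
  obtain ⟨v, hv⟩ : ∃ v, v * (w - star w) = 1 := by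
    have e : (w - star w) * (w - star w) = algebraMap R _ (B ^ 2 - 4 * A * D) := by
      rw [algebraMap_eq]
      ext <;> simp [hw] <;> ring
    have h1 : IsUnit ((w - star w) * (w - star w)) := e ▸ hu.map _
    exact (isUnit_of_mul_isUnit_left h1).exists_left_inv
  have hd : ∀ d, d ∣ A → algebraMap R (QuadraticAlgebra R (-(A * D)) B) d ∣ w * star w :=
    fun d h => hww ▸ map_dvd _ (h.mul_right D)
  have hr : ∀ d, d ∣ A →
      algebraMap R (QuadraticAlgebra R (-(A * D)) B) d ∈ nonZeroDivisors _ :=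
    fun d h => algebraMap_mem_nonZeroDivisors_iff.2 (nzd_of_dvd hA h)
  have hp : ∀ d, ∃ g : QuadraticAlgebra R (-(A * D)) B,
      d ∣ A → Ideal.span {g} = Ideal.span {algebraMap R _ d, w} := fun d => by
    by_cases h : d ∣ A
    · obtain ⟨g, hg⟩ := princ hv (hd d h)
      exact ⟨g, fun _ => hg⟩
    · exact ⟨0, fun h' => absurd h' h⟩
  choose g hg using hp
  refine ⟨g, fun d h => ⟨hg d h, ?_⟩, fun d d' h => ?_⟩
  · obtain ⟨a1, a2, x, y, hxy⟩ := gen (hg d h)
    have hs : star (algebraMap R (QuadraticAlgebra R (-(A * D)) B) d) = algebraMap R _ d := by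
      ext <;> simp
    have s1 : star (g d) ∣ algebraMap R _ d := by
      obtain ⟨z, hz⟩ := a1
      exact ⟨star z, by rw [← star_mul', ← hz, hs]⟩
    have s2 : star (g d) ∣ star w := by
      obtain ⟨z, hz⟩ := a2
      exact ⟨star z, by rw [← star_mul', ← hz]⟩
    refine (assoc_of_dvd (nzd_of_dvd hA h) ?_ ?_).symm
    · rw [← algebraMap_dvd_iff_dvd (a := -(A * D)) (b := B), algebraMap_norm_eq_mul_star, ← hxy,
        star_add, star_mul', star_mul', hs]
      obtain ⟨e, he⟩ := hd d h
      exact ⟨x * (star x * algebraMap R _ d + star y * star w) + y * w * star x + y * star y * e,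
        by linear_combination (y * star y) * he⟩
    · rw [← algebraMap_dvd_iff_dvd (a := -(A * D)) (b := B), algebraMap_norm_eq_mul_star]
      have e : algebraMap R (QuadraticAlgebra R (-(A * D)) B) d =
          v * (w * algebraMap R _ d) - v * (algebraMap R _ d * star w) := by
        linear_combination (-algebraMap R (QuadraticAlgebra R (-(A * D)) B) d) * hv
      conv_rhs => rw [e]
      exact dvd_sub ((mul_dvd_mul a2 s1).mul_left _) ((mul_dvd_mul a1 s2).mul_left _)
  · refine prod hv (d := algebraMap R _ d) (d' := algebraMap R _ d') ?_ ?_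
      (hg d (dvd_of_mul_right_dvd h)) (hg d' (dvd_of_mul_left_dvd h)) ?_
    · rw [← map_mul]
      exact hd _ h
    · rw [← map_mul]
      exact hr _ h
    · rw [← map_mul]
      exact hg _ h

end Pool.Agent.P.MP_46a8f8_ag.GU
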