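import Pool.Agent.P.MP_46a8f8_ag.GU.SpTop
import Pool.Agent.P.MP_46a8f8_ag.GU.Avg
import Pool.Agent.P.MP_46a8f8_ag.GU.Fc
import Pool.Agent.P.MP_46a8f8_ag.GU.Ap2
import Pool.Agent.P.MP_46a8f8_ag.GU.Rep
import Pool.Agent.P.MP_46a8f8_ag.GU.Loc
import Pool.Agent.P.MP_46a8f8_ag.GU.Ker
import Pool.Agent.P.MP_46a8f8_ag.GU.NP0
import Pool.Agent.P.MP_46a8f8_ag.GU.Wt
import Pool.Agent.P.MP_46a8f8_ag.GU.Uu
import Pool.Agent.P.MP_46a8f8_ag.GU.Ap0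
import Pool.Agent.P.MP_46a8f8_ag.GU.LnA
import Pool.Agent.P.MP_46a8f8_ag.GU.BlZ
import Pool.Agent.P.MP_46a8f8_ag.GU.Pr2
import Pool.Agent.P.MP_46a8f8_ag.GU.CD
import Pool.Agent.P.MP_46a8f8_ag.GU.Nrz
import Pool.Agent.P.MP_46a8f8_ag.GU.Two
import Pool.Agent.P.MP_46a8f8_ag.GU.Gna
import Pool.Agent.P.MP_46a8f8_ag.GU.F2i
import Pool.Agent.P.MP_46a8f8_ag.GU.TwE
import Pool.Agent.P.MP_46a8f8_ag.GU.OrB
import Pool.Agent.P.MP_46a8f8_ag.GU.Ap1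
import Pool.Agent.P.MP_46a8f8_ag.GU.Lft
import Pool.Agent.P.MP_46a8f8_ag.GU.F2a
import Pool.Agent.P.MP_46a8f8_ag.GU.Trz
import Pool.Agent.P.MP_46a8f8_ag.GU.Gn
import Pool.Agent.P.MP_46a8f8_ag.GU.Cl
import Pool.Agent.P.MP_46a8f8_ag.GU.Rcp
import Pool.Agent.P.MP_46a8f8_ag.GU.SOx
import Pool.Agent.P.MP_46a8f8_ag.GU.Prm
import Pool.Agent.P.MP_46a8f8_ag.GU.Z1
import Pool.Agent.P.MP_46a8f8_ag.GU.Cs2
import Pool.Agent.P.MP_46a8f8_ag.GU.Pr3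
import Pool.Agent.P.MP_46a8f8_ag.GU.Pr1
import Pool.Agent.P.MP_46a8f8_ag.GU.Hom
import Pool.Agent.P.MP_46a8f8_ag.GU.Cl0
import Pool.Agent.P.MP_46a8f8_ag.GU.Pert
import Pool.Agent.P.MP_46a8f8_ag.GU.GrS
import Pool.Agent.P.MP_46a8f8_ag.GU.TwF
import Pool.Agent.P.MP_46a8f8_ag.GU.BlR
import Pool.Agent.P.MP_46a8f8_ag.GU.Z1a
import Pool.Agent.P.MP_46a8f8_ag.GU.RS2
import Pool.Agent.P.MP_46a8f8_ag.GU.LnB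
import Pool.Agent.P.MP_46a8f8_ag.GU.Dsc
import Pool.Agent.P.MP_46a8f8_ag.GU.Avm
import Pool.Agent.P.MP_46a8f8_ag.GU.Cs1
import Pool.Agent.P.MP_46a8f8_ag.GU.TwA
import Pool.Agent.P.MP_46a8f8_ag.GU.Prim

/-!
The packages for the spin groups put together.
-/

namespace Pool.Agent.P.MP_46a8f8_ag.GU

universe u

theorem allNP0 : S_NP0.{u} := pNP0 (pCl (glF2 pF2i pF2a pCW) pWt)

theorem allNPi : S_NPi.{u} := glNPi allNP0 (pGn pAvm pGna)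

theorem allNPo : S_NPo.{u} := glNPo allNP0 pGnp

theorem allCs1 : S_Cs1.{u} := pCs1 pAp0 (pAp1 pAvm) pAp2 (pZ1 pZ1a)
  (pTwo pTwF (pPert pAv1) (pTwA pAp0 pUu allNPi) pRcp pHn)

theorem allCs2 : S_Cs2.{u} := pCs2 pRS2 (pPrm pRS2 pAv1) (pRep pLnA pLnB (pTrz pAv1)) pBlR pBlZ
  pBlL pNb pNz pRcp pHn allNPi

theorem allSn : SnPk.{u} := ⟨allCs1, allCs2, pPrim, pLoc, pPr0 pPr1, pPr3 pPr2, pFc,
  pHom allNPi pRcp pHn, pDsc allNPo⟩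

theorem allCl : ClPk.{u} := ⟨pOrB, pCl0, pGrS, pPiS, pSOx,
  pLft (pTwE pKer pCD) (pTwU pKer) pAvg, pSnK pKer pCD, pNrz⟩

end Pool.Agent.P.MP_46a8f8_ag.GU
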