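import Pool.Agent.P.MP_46a8f8_ag.GU.Qc

/-!
The `m`-th power of a central gerbe is a cocycle.
-/

namespace Pool.Agent.P.MP_46a8f8_ag.GU

open TensorProduct Function

universe u

namespace GbCP

variable {R S O : Type u} [CommRing R] [CommRing S] [Algebra R S] [CommRing O] [Algebra R O]

/-- `c` is the `m`-th power of every local value -/
def Good (m : ℕ) (l : Rel R S O) {T : Type u} [CommRing T] [Algebra R T] (p q : O →ₐ[R] T)
    (c : T ⊗[R] S) : Prop :=
  ∀ (T' : Type u) [CommRing T'] [Algebra R T'] (f : T →ₐ[R] T') (z : T' ⊗[R] S),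
    l T' (f.comp p) (f.comp q) z → mp S f c = z ^ m

variable {m : ℕ} {l : Rel R S O} {T : Type u} [CommRing T] [Algebra R T]

theorem Good.map {p q : O →ₐ[R] T} {c : T ⊗[R] S} (h : Good m l p q c) {T' : Type u}
    [CommRing T'] [Algebra R T'] (f : T →ₐ[R] T') : Good m l (f.comp p) (f.comp q) (mp S f c) :=
  fun W _ _ g z hz => by
    rw [H90P.mp_mp]
    exact h W (g.comp f) z hz

theorem Good.val {p q : O →ₐ[R] T} {c z : T ⊗[R] S} (h : Good m l p q c) (hz : l T p q z) :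
    c = z ^ m := by
  have := h T (AlgHom.id R T) z hz
  rwa [H90P.mp_id] at this

variable [Module.Free R S] [Module.Finite R S]

/-- base change of a faithfully flat extension -/
theorem cov (T' T'' : Type u) [CommRing T'] [Algebra R T'] [Algebra T T'] [IsScalarTower R T T']
    [Module.FaithfullyFlat T T'] [CommRing T''] [Algebra R T''] (f : T →ₐ[R] T'') :
    ∃ (W : Type u) (_ : CommRing W) (_ : Algebra R W) (j : T'' →ₐ[R] W) (k : T' →ₐ[R] W),
      Injective (mp S j) ∧ j.comp f = k.comp (IsScalarTower.toAlgHom R T T') := by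
  let := f.toRingHom.toAlgebra
  have : IsScalarTower R T T'' := IsScalarTower.of_algebraMap_eq fun r => (f.commutes r).symm
  refine ⟨T'' ⊗[T] T', inferInstance, inferInstance,
    IsScalarTower.toAlgHom R T'' (T'' ⊗[T] T'), (H90P.iR T T'' T').restrictScalars R,
    mp_inj_ff, ?_⟩
  ext t
  change algebraMap T T'' t ⊗ₜ[T] (1 : T') = (1 : T'') ⊗ₜ[T] algebraMap T T' t
  rw [Algebra.algebraMap_eq_smul_one, Algebra.algebraMap_eq_smul_one, smul_tmul]

theorem ex (hl : Gb l) (hw : Pw m l) (p q : O →ₐ[R] T) : ∃ c, Good m l p q c := by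
  obtain ⟨T', _, _, _, _, h, _, hh⟩ := hl.loc T p q
  have e : ((H90P.iL T T' T').restrictScalars R).comp (IsScalarTower.toAlgHom R T T') =
      ((H90P.iR T T' T').restrictScalars R).comp (IsScalarTower.toAlgHom R T T') := by
    ext t
    exact ((H90P.iL T T' T').commutes t).trans ((H90P.iR T T' T').commutes t).symm
  obtain ⟨c, hc⟩ := desc_mp (R := R) (T := T) (h ^ m) (by
    have h1 := hl.map _ _ ((H90P.iL T T' T').restrictScalars R) _ _ _ hh
    have h2 := hl.map _ _ ((H90P.iR T T' T').restrictScalars R) _ _ _ hh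
    rw [← AlgHom.comp_assoc, ← AlgHom.comp_assoc, e] at h1
    rw [← AlgHom.comp_assoc, ← AlgHom.comp_assoc] at h2
    rw [map_pow, map_pow]
    exact hw _ _ _ _ _ h1 h2)
  refine ⟨c, fun T'' _ _ f z hz => ?_⟩
  obtain ⟨W, _, _, j, k, hj, e2⟩ := cov (S := S) T' T'' f
  have h1 := hl.map _ _ j _ _ _ hz
  have h2 := hl.map _ _ k _ _ _ hh
  rw [← AlgHom.comp_assoc, ← AlgHom.comp_assoc, e2] at h1
  rw [← AlgHom.comp_assoc, ← AlgHom.comp_assoc] at h2
  refine hj ?_
  rw [H90P.mp_mp, e2, ← H90P.mp_mp, hc, map_pow, map_pow]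
  exact hw _ _ _ _ _ h2 h1

theorem uniq (hl : Gb l) {p q : O →ₐ[R] T} {c c' : T ⊗[R] S} (h : Good m l p q c)
    (h' : Good m l p q c') : c = c' := by
  obtain ⟨T', _, _, _, _, z, _, hz⟩ := hl.loc T p q
  exact mp_inj_ff (T' := T') ((h _ _ z hz).trans (h' _ _ z hz).symm)

theorem mul (hl : Gb l) {p q r : O →ₐ[R] T} {a b c : T ⊗[R] S} (ha : Good m l q r a)
    (hb : Good m l p q b) (hc : Good m l p r c) : a * b = c := by
  obtain ⟨T₁, _, _, _, _, g, _, hg⟩ := hl.loc T p q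
  obtain ⟨T₂, _, _, _, _, h, _, hh⟩ := hl.loc T₁ ((IsScalarTower.toAlgHom R T T₁).comp q)
    ((IsScalarTower.toAlgHom R T T₁).comp r)
  have h1 := hl.map _ _ (IsScalarTower.toAlgHom R T₁ T₂) _ _ _ hg
  have h2 := hl.mul _ _ _ _ _ _ hh h1
  refine mp_inj_ff (T' := T₁) (mp_inj_ff (T' := T₂) ?_)
  rw [map_mul, map_mul, ((ha.map _).map _).val hh, ((hb.map _).map _).val h1,
    ((hc.map _).map _).val h2, mul_pow]

end GbCP

theorem pGbC : S_GbC := by
  intro R S O _ _ _ _ _ _ _ m l hl hw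
  refine ⟨fun T _ _ p q => (GbCP.ex hl hw p q).choose, ⟨fun T T' _ _ _ _ f p q => ?_,
    fun T _ _ p => ?_, fun T _ _ p q r => ?_⟩, fun T _ _ p q z hz => ?_⟩
  · exact GbCP.uniq hl ((GbCP.ex hl hw p q).choose_spec.map f) (GbCP.ex hl hw _ _).choose_spec
  · exact ((GbCP.ex hl hw p p).choose_spec.val (hl.one T p)).trans (one_pow m)
  · exact GbCP.mul hl (GbCP.ex hl hw q r).choose_spec (GbCP.ex hl hw p q).choose_spec
      (GbCP.ex hl hw p r).choose_spec
  · exact (GbCP.ex hl hw p q).choose_spec.val hz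

end Pool.Agent.P.MP_46a8f8_ag.GU
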