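import Pool.Agent.P.MP_46a8f8_ag.GU.Qc

/-! A prime polynomial is a norm from the constant extension by its residue field. -/

namespace Pool.Agent.P.MP_46a8f8_ag.GU

open TensorProduct Function Polynomial

universe u

namespace NHpP

theorem core {R A O K L : Type u} [CommRing R] [Ring A] [Algebra R A] [CommRing O] [IsDomain O]
    [Algebra R O] [Field K] [Algebra R K] [Algebra O K] [IsFractionRing O K] [Field L]
    [Algebra R L] [Algebra K L] [IsScalarTower R K L] [Module.Finite K L] {n j : ℕ} {δ : R}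
    {π : O} (hπ : π ≠ 0) (h1 : MPt R A n j π) (h2 : SqP (algebraMap R O δ) π) (g : O →+* L)
    (g0 : ∀ c, g c = 0 ↔ π ∣ c) (g1 : ∀ r, g (algebraMap R O r) = algebraMap R L r) (f : L)
    (v : Oˣ) (hf : Algebra.norm K f = algebraMap O K (v * π))
    (hi : ((algebraMap K L).comp (algebraMap O K)).IsIntegralElem f) : NHs R A n j δ K π := by
  refine ⟨L, inferInstance, inferInstance, inferInstance, inferInstance, inferInstance,
    h1 L (L ⊗[R] A) g (Algebra.TensorProduct.includeRight : A →ₐ[R] L ⊗[R] A).toRingHom g0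
      fun r => ?_, ?_, f, v, fun h => ?_, hf, hi⟩
  · rw [g1, ← IsScalarTower.algebraMap_apply]
    exact AlgHom.commutes _ r
  · obtain ⟨r, r', h3, h4⟩ := h2
    have h5 : g r' ≠ 0 := mt (g0 r').1 h3
    have h6 := (g0 _).2 h4
    rw [map_sub, map_mul, map_mul, map_mul, g1, sub_eq_zero] at h6
    exact ⟨g r / g r', by rw [div_mul_div_comm, h6, mul_div_cancel_right₀ _ (mul_ne_zero h5 h5)]⟩
  · rw [h, Algebra.norm_zero, eq_comm, map_eq_zero_iff _ (IsFractionRing.injective O K)] at hf
    exact mul_ne_zero v.ne_zero hπ hf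

theorem norm_gen {K k F : Type u} [Field K] [CommRing k] [Algebra K k] (b : PowerBasis K k)
    [CommRing F] [Algebra K F] (x : F) :
    Algebra.norm F (algebraMap F (F ⊗[K] k) x - (1 : F) ⊗ₜ[K] b.gen) =
      aeval x (minpoly K b.gen) := by
  rw [← charpoly_leftMulMatrix, Matrix.charpoly, AlgHom.map_det,
    Algebra.norm_eq_matrix_det (Algebra.TensorProduct.basis F b.basis), map_sub, AlgHom.commutes]
  congr 1
  ext i j
  rw [AlgHom.mapMatrix_apply, Matrix.map_apply, Matrix.charmatrix_apply, map_sub, aeval_C,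
    Matrix.sub_apply, Algebra.leftMulMatrix_eq_repr_mul, Algebra.leftMulMatrix_eq_repr_mul,
    Algebra.TensorProduct.basis_apply, Algebra.TensorProduct.tmul_mul_tmul, mul_one,
    Algebra.TensorProduct.basis_repr_tmul, one_smul, Finsupp.mapRange_apply,
    Matrix.algebraMap_matrix_apply, Matrix.diagonal_apply]
  split_ifs <;> simp

end NHpP

theorem pNHp : S_NHp.{u} := by
  intro R A K _ _ _ _ _ n j δ π hπ h1 h2
  have : Fact (Irreducible π) := ⟨hπ.irreducible⟩
  let b := AdjoinRoot.powerBasis hπ.ne_zero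
  have : Module.Finite K (AdjoinRoot π) := b.finite
  have : IsDomain (FractionRing K[X] ⊗[K] AdjoinRoot π) :=
    (pDomL K (AdjoinRoot π) (FractionRing K[X])).2 (nonZeroDivisors K[X]) le_rfl
  let i : AdjoinRoot π →ₐ[K] FractionRing K[X] ⊗[K] AdjoinRoot π :=
    Algebra.TensorProduct.includeRight
  have hl : π.leadingCoeff⁻¹ ≠ 0 := inv_ne_zero (leadingCoeff_ne_zero.2 hπ.ne_zero)
  have hn := NHpP.norm_gen b (algebraMap K[X] (FractionRing K[X]) X)
  rw [aeval_algebraMap_apply, aeval_X_left_apply, AdjoinRoot.powerBasis_gen,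
    AdjoinRoot.minpoly_root hπ.ne_zero, mul_comm π] at hn
  have hi : ((algebraMap (FractionRing K[X]) (FractionRing K[X] ⊗[K] AdjoinRoot π)).comp
      (algebraMap K[X] (FractionRing K[X]))).IsIntegralElem
      (algebraMap _ _ (algebraMap K[X] (FractionRing K[X]) X) -
        (1 : FractionRing K[X]) ⊗ₜ[K] AdjoinRoot.root π) := by
    refine RingHom.IsIntegralElem.sub _ (RingHom.isIntegralElem_map _) ?_
    obtain ⟨p, hp, hp'⟩ := (Algebra.IsIntegral.isIntegral (R := K) (AdjoinRoot.root π)).map i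
    refine ⟨p.map C, hp.map _, ?_⟩
    rw [eval₂_map]
    exact hp'
  have g0 : ∀ c, (i.toRingHom.comp (AdjoinRoot.mk π)) c = 0 ↔ π ∣ c := fun c => by
    rw [RingHom.comp_apply, map_eq_zero_iff _ i.toRingHom.injective, AdjoinRoot.mk_eq_zero]
  have g1 : ∀ r, (i.toRingHom.comp (AdjoinRoot.mk π)) (algebraMap R K[X] r) =
      algebraMap R _ r := fun r => by
    rw [IsScalarTower.algebraMap_apply R K (FractionRing K[X] ⊗[K] AdjoinRoot π)]
    exact i.commutes (algebraMap R K r)
  let := fieldOfFiniteDimensional (FractionRing K[X]) (FractionRing K[X] ⊗[K] AdjoinRoot π)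
  exact NHpP.core hπ.ne_zero h1 h2 _ g0 g1 _ (isUnit_C.2 hl.isUnit).unit hn hi

end Pool.Agent.P.MP_46a8f8_ag.GU
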