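import Pool.Agent.P.MP_46a8f8_ag.GU.Qc

/-!
The norm principle for similitudes whose reduced norm is the power of the multiplier.
-/

namespace Pool.Agent.P.MP_46a8f8_ag.GU

open TensorProduct Function IsLocalRing Polynomial

universe u

namespace NPJP

variable {R S A K : Type u} [CommRing R] [CommRing S] [Algebra R S] [Ring A] [Algebra S A]
  [Algebra R A] [IsScalarTower R S A] [StarRing A] [SA R A] [Field K] [Algebra R K]
  {n : ℕ} {N : NFam R S A} {ι : S →ₐ[R] S} {κ : S} {δ : Rˣ}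

/-- evaluation at a point -/
noncomputable def at' (R : Type u) {K : Type u} [CommRing R] [Field K] [Algebra R K] (a : K) :
    K[X] →ₐ[R] K :=
  (Polynomial.aeval a).restrictScalars R

theorem at'_apply (a : K) (p : K[X]) : at' R a p = p.eval a :=
  Polynomial.coe_aeval_eq_eval a ▸ rfl

theorem ev [Infinite K] (h : S_GNu.{u}) (hU : UC A n N ι) (hq : Qd ι κ δ) (hTy : Ty R A)
    (hD : Dm R K) (ν : K[X]) (x : K[X] ⊗[R] S) (g : (FractionRing K[X] ⊗[R] A)ˣ)
    (hg : Sml R A (FractionRing K[X]) g (algebraMap K[X] (FractionRing K[X]) ν))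
    (hx : N _ g = mp S (IsScalarTower.toAlgHom R K[X] (FractionRing K[X])) x) (a : K)
    (ha : ν.eval a ≠ 0) :
    ∃ v : (K ⊗[R] A)ˣ, Sml R A K v (ν.eval a) ∧ N K v = mp S (at' R a) x := by
  let f : K[X] →ₐ[R] K := at' R a
  have hf : ∀ p : K[X], f p = p.eval a := at'_apply a
  let P : Ideal K[X] := RingHom.ker f
  have hP : P.IsPrime := RingHom.ker_isPrime f
  have hP0 : P ≠ ⊥ := fun h => by
    have : X - C a ∈ P := by
      rw [RingHom.mem_ker, hf]
      simp
    rw [h, Ideal.mem_bot] at this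
    exact X_sub_C_ne_zero a this
  let O := Localization.AtPrime P
  have hO : IsDiscreteValuationRing O :=
    IsLocalization.AtPrime.isDiscreteValuationRing_of_dedekind_domain K[X] hP0 O
  have hT : IsScalarTower R O (FractionRing K[X]) := IsScalarTower.of_algebraMap_eq fun r => by
    rw [IsScalarTower.algebraMap_apply R K[X] O, ← IsScalarTower.algebraMap_apply K[X] O,
      ← IsScalarTower.algebraMap_apply R K[X]]
  have hDO : Dm R O :=
    (pDm R K[X] (pDm R K hD).1).2 O P.primeCompl P.primeCompl_le_nonZeroDivisors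
  have hl : IsLocalHom (algebraMap O O) := ⟨fun _ h => h⟩
  have hI : Infinite (O ⧸ (maximalIdeal O).map (algebraMap O O)) := by
    have : Nontrivial (O ⧸ (maximalIdeal O).map (algebraMap O O)) := by
      rw [Ideal.Quotient.nontrivial_iff, Algebra.algebraMap_self, Ideal.map_id]
      exact (maximalIdeal.isMaximal O).ne_top
    exact Infinite.of_injective _ ((Ideal.Quotient.mk _).comp
      ((algebraMap K[X] O).comp (C : K →+* K[X]))).injective
  have hu : ∀ y : P.primeCompl, IsUnit (f y) := fun y => isUnit_iff_ne_zero.2 y.2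
  obtain ⟨w, hw⟩ : IsUnit (algebraMap K[X] O ν) :=
    IsLocalization.map_units O (⟨ν, fun h => ha (by rw [← hf]; exact h)⟩ : P.primeCompl)
  obtain ⟨b, hb, hb'⟩ := h R S A O O (FractionRing K[X]) n N ι κ δ
    (by rw [IsDiscreteValuationRing.ringKrullDim_eq_one]; norm_num) hU hq hTy hDO hI w
    (mp S (IsScalarTower.toAlgHom R K[X] O) x) g
    (by rw [hw, ← IsScalarTower.algebraMap_apply]; exact hg)
    (by
      rw [hx, H90P.mp_mp]
      congr 2
      exact AlgHom.ext fun p => IsScalarTower.algebraMap_apply K[X] O _ p)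
  let e : O →ₐ[R] K := IsLocalization.liftAlgHom hu
  have he : ∀ p, e (algebraMap K[X] O p) = f p := fun p => by
    rw [IsLocalization.liftAlgHom_apply, IsLocalization.lift_eq]
    rfl
  refine ⟨um e b, by rw [← hf, ← he, ← hw]; exact hb.map e, ?_⟩
  change N K (mp A e b) = _
  rw [← hU.nf.nat, hb', H90P.mp_mp]
  congr 2
  exact AlgHom.ext he

theorem sq {L : Type u} [Field L] [Algebra R L] [Algebra K L] [IsScalarTower R K L]
    [Module.Finite K L] {d : R} {z : K[X]} (hz : Prime z) {l : L} (hl : aeval l z = 0)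
    (h : SqP (algebraMap R K[X] d) z) : IsSquare (algebraMap R L d) := by
  obtain ⟨r, r', h1, c, h2⟩ := h
  have h3 : aeval l r' ≠ 0 := fun h0 => h1
    (((minpoly.irreducible (Algebra.IsIntegral.isIntegral l)).associated_of_dvd hz.irreducible
      (minpoly.dvd K l hl)).symm.dvd.trans (minpoly.dvd K l h0))
  have h4 := congrArg (aeval l) h2
  rw [map_mul _ z, hl, zero_mul, map_sub, map_mul, map_mul, map_mul,
    IsScalarTower.algebraMap_apply R K K[X], AlgHom.commutes,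
    ← IsScalarTower.algebraMap_apply] at h4
  refine ⟨aeval l r / aeval l r', ?_⟩
  field_simp
  linear_combination -h4

end NPJP

open NPJP in
theorem pNPJ (h1 : S_NPu.{u}) (h2 : S_PFT.{u}) (h3 : S_NSp.{u}) (h4 : S_NHp.{u})
    (h5 : S_Dich.{u}) (h6 : S_UFX.{u}) (h7 : S_GNu.{u}) : S_NPJ.{u} := by
  intro R S A K L _ _ _ _ _ _ _ _ _ _ _ _ _ _ _ _ _ n k N ι κ δ f hU hq hTy hn hD hH hsq hf
  have := hU.gb.dom
  have := hU.gb.free
  have := hU.gb.fin
  obtain ⟨ν, h0, h1', hr, g, hg⟩ := h1 R A K L f hU.ok hD hH hf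
  have hDX : Dm R K[X] := (pDm R K hD).1
  have hDF : Dm R (FractionRing K[X]) :=
    (pDm R K[X] hDX).2 (FractionRing K[X]) (nonZeroDivisors K[X]) le_rfl
  obtain ⟨hUF, hc⟩ := h6 R S K (hD S)
  obtain ⟨d1, -, d3⟩ := h5 R S K[X] ι κ δ hq (hDX S)
  have hν : algebraMap K[X] (FractionRing K[X]) ν ≠ 0 := by
    rw [ne_eq, map_eq_zero_iff _ (IsFractionRing.injective K[X] _)]
    rintro rfl
    simp at h0
  obtain ⟨c, hc1⟩ : ∃ c, algebraMap K[X] (FractionRing K[X]) ν ^ k * c = 1 :=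
    ⟨_, mul_inv_cancel₀ (pow_ne_zero k hν)⟩
  obtain ⟨t, ht⟩ : ∃ t, t = N _ g * algebraMap _ (FractionRing K[X] ⊗[R] S) c := ⟨_, rfl⟩
  have e1 : N _ g = mp S (IsScalarTower.toAlgHom R K[X] (FractionRing K[X]))
      (algebraMap K[X] (K[X] ⊗[R] S) (ν ^ k)) * t := by
    rw [ht, mp_alg, IsScalarTower.toAlgHom_apply, map_pow, mul_left_comm, ← map_mul, hc1, map_one,
      mul_one]
  obtain ⟨d, t₀, hd, hd'⟩ := PurSP.clear (C := K[X]) t
  obtain ⟨s, w, hw, hw', -⟩ := h2 R S A K[X] (FractionRing K[X]) n 0 1 N ι κ δ 1 1 (ν ^ k) d g t t₀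
    hU hq (hDF S) hUF (by rw [Units.val_one, one_mul, pow_one]; exact e1)
    (by
      rw [ht, map_mul, io_alg, mul_mul_mul_comm, hU.nrd_sml hg, ← map_mul, ← map_mul, hn, two_mul,
        pow_add, mul_mul_mul_comm, hc1, one_mul, Units.val_one, map_one, map_one, map_one])
    hd hd'.symm
    (fun π hπ hp => (d1 π hUF hπ).resolve_right fun ⟨ϖ, hϖ⟩ => by
      obtain ⟨l, hl⟩ := hr π hπ (hπ.dvd_of_dvd_pow hp)
      exact hsq (sq hπ hl (d3 π ϖ hπ hϖ).1))
    (fun π ϖ j hπ _ hϖ hM => h3 R S A K[X] (FractionRing K[X]) n j N ι κ δ π ϖ hU hq (hDF S) hϖ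
      (h4 R A K n j δ π hπ hM (d3 π ϖ hπ hϖ).1))
  obtain ⟨s₀, hs⟩ := hc s⁻¹
  have hg' : Sml R A (FractionRing K[X]) (g * w⁻¹) (algebraMap K[X] (FractionRing K[X]) ν) :=
    mul_one (algebraMap K[X] (FractionRing K[X]) ν) ▸ hg.mul (hw.inv (one_mul 1))
  have hN : N _ (g * w⁻¹ : (FractionRing K[X] ⊗[R] A)ˣ) =
      mp S (IsScalarTower.toAlgHom R K[X] (FractionRing K[X]))
        (algebraMap K[X] (K[X] ⊗[R] S) (ν ^ k) * (s⁻¹ : (K[X] ⊗[R] S)ˣ)) := by
    refine (w.isUnit.map (N _)).mul_right_cancel ?_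
    rw [← map_mul, Units.val_mul, Units.inv_mul_cancel_right, hw', pow_one, ← mul_assoc, ← map_mul,
      Units.inv_mul_cancel_right, e1]
  have key : ∀ a : K, mp S (at' R a) (algebraMap K[X] (K[X] ⊗[R] S) (ν ^ k) *
      (s⁻¹ : (K[X] ⊗[R] S)ˣ)) = algebraMap K (K ⊗[R] S) (ν.eval a ^ k) * s₀ := fun a => by
    rw [map_mul, mp_alg, map_pow, at'_apply, ← hs, H90P.mp_mp,
      show (at' R a).comp (IsScalarTower.toAlgHom R K K[X]) = AlgHom.id R K from
        AlgHom.ext fun r => (at'_apply (R := R) a _).trans eval_C, H90P.mp_id]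
  obtain ⟨a₀, b0, c0⟩ := ev h7 hU hq hTy hD ν _ _ hg' hN 0 (by rw [h0]; exact one_ne_zero)
  obtain ⟨a₁, b1, c1⟩ := ev h7 hU hq hTy hD ν _ _ hg' hN 1
    (by rw [h1']; exact Algebra.norm_ne_zero_iff.2 hf)
  rw [key, h0, one_pow, map_one, one_mul] at c0
  rw [key, h1'] at c1
  rw [h0] at b0
  rw [h1'] at b1
  refine ⟨a₁ * a₀⁻¹, mul_one (Algebra.norm K f) ▸ b1.mul (b0.inv (one_mul 1)), ?_⟩
  refine (a₀.isUnit.map (N K)).mul_right_cancel ?_
  rw [← map_mul, Units.val_mul, Units.inv_mul_cancel_right, c1, c0]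

end Pool.Agent.P.MP_46a8f8_ag.GU
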