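import Pool.Agent.P.MP_46a8f8_ag.GU.Qc

/-!
The norm principle for an extension of the centre.
-/

namespace Pool.Agent.P.MP_46a8f8_ag.GU

open TensorProduct Function IsLocalRing Polynomial

universe u

theorem pNPS : S_NPS.{u} := by
  intro R S A K L _ _ _ _ _ _ _ _ _ _ _ _ _ _ _ n j N f hG hN hd hu hf
  let := GAP.alg R S A K
  obtain ⟨Ω, _, _, Φ, hS, hΦ⟩ := allSetN R S A K n N hG hN hd
  let b := Module.finBasis (K ⊗[R] S) L
  let al : L →ₐ[R] Matrix (Fin (Module.finrank (K ⊗[R] S) L)) (Fin (Module.finrank (K ⊗[R] S) L))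
      (K ⊗[R] A) :=
    ((GAP.sm R S A K).restrictScalars R).mapMatrix.comp
      ((Algebra.leftMulMatrix b).restrictScalars R)
  let be : A →ₐ[R] Matrix (Fin (Module.finrank (K ⊗[R] S) L)) (Fin (Module.finrank (K ⊗[R] S) L))
      (K ⊗[R] A) :=
    (Matrix.scalarAlgHom _ R).comp Algebra.TensorProduct.includeRight
  have hal : ∀ l, al l = (Algebra.leftMulMatrix b l).map (GAP.sm R S A K) := fun _ => rfl
  have hbe : ∀ a, be a = Matrix.diagonal fun _ => (1 : K) ⊗ₜ[R] a := fun _ => rfl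
  have hc : ∀ l a, Commute (al l) (be a) := fun l a => by
    rw [hal, hbe]
    ext i k
    rw [Matrix.mul_diagonal, Matrix.diagonal_mul, Matrix.map_apply, GAP.sm_comm]
  obtain ⟨y, hy⟩ := NPNP.core pLA pMN2 Φ (Algebra.TensorProduct.lift al be hc).toRingHom f
    (Algebra.leftMulMatrix b f) hN.pos hf (pBassS K (K ⊗[R] A) (hG.sep.bc K))
    (by
      rw [Algebra.TensorProduct.algebraMap_apply]
      change Algebra.TensorProduct.lift al be hc (f ⊗ₜ[R] 1) = al f
      rw [Algebra.TensorProduct.lift_tmul, map_one, mul_one]) hu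
  refine ⟨y, hS.inj ?_⟩
  rw [← hΦ, hy, Algebra.norm_eq_matrix_det b]

end Pool.Agent.P.MP_46a8f8_ag.GU
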