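import Pool.Agent.P.MP_46a8f8_ag.GU.Qc

/-!
The norm principle over a rational function field, with the prime factors of the multiplier.
-/

namespace Pool.Agent.P.MP_46a8f8_ag.GU

open TensorProduct Function Polynomial

universe u

namespace NPuP

theorem dv {K L C : Type u} [Field K] [Field L] [Algebra K L] [CommRing C] [Algebra K C] (c : L)
    (hc : c ≠ 0) (x : C) (p : K[X]) (hp : aeval (-c⁻¹) p = 0) :
    1 + x ⊗ₜ[K] c ∣ algebraMap C (C ⊗[K] L) (aeval x p) := by
  have h1 := sub_dvd_eval_sub (x ⊗ₜ[K] (1 : L)) ((1 : C) ⊗ₜ[K] (-c⁻¹))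
    (p.map (algebraMap K (C ⊗[K] L)))
  have h2 := aeval_algHom_apply
    (Algebra.TensorProduct.includeLeft : C →ₐ[K] C ⊗[K] L) x p
  have h3 := aeval_algHom_apply
    (Algebra.TensorProduct.includeRight : L →ₐ[K] C ⊗[K] L) (-c⁻¹) p
  rw [Algebra.TensorProduct.includeLeft_apply, Algebra.TensorProduct.includeLeft_apply] at h2
  rw [hp, map_zero, Algebra.TensorProduct.includeRight_apply] at h3
  rw [eval_map_algebraMap, eval_map_algebraMap, h2, h3, sub_zero] at h1
  refine Dvd.dvd.trans ⟨(1 : C) ⊗ₜ[K] c⁻¹, ?_⟩ h1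
  rw [add_mul, one_mul, Algebra.TensorProduct.tmul_mul_tmul, mul_one, mul_inv_cancel₀ hc,
    tmul_neg, sub_neg_eq_add, add_comm]

theorem nd {K L C : Type u} [Field K] [Field L] [Algebra K L] [CommRing C] [Algebra K C]
    (y : C ⊗[K] L) (p z : C) (hz : Prime z) (h : z ∣ Algebra.norm C y)
    (hy : y ∣ algebraMap C (C ⊗[K] L) p) : z ∣ p := by
  have h5 := h.trans (map_dvd (Algebra.norm C) hy)
  rw [Algebra.norm_algebraMap] at h5
  exact hz.dvd_of_dvd_pow h5

theorem root {K L : Type u} [Field K] [Field L] [Algebra K L] [Module.Finite K L] (c : L)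
    (z : K[X]) (hz : Prime z) (h : z ∣ Algebra.norm K[X] (1 + (X : K[X]) ⊗ₜ[K] c)) :
    ∃ l : L, aeval l z = 0 := by
  by_cases hc : c = 0
  · rw [hc, tmul_zero, add_zero, map_one] at h
    exact absurd (isUnit_of_dvd_one h) hz.not_isUnit
  have hp := minpoly.irreducible (Algebra.IsIntegral.isIntegral (R := K) (-c⁻¹))
  have h1 := nd _ _ z hz h (dv c hc X _ (minpoly.aeval K (-c⁻¹)))
  rw [aeval_X_left_apply] at h1
  exact ⟨-c⁻¹, minpoly.dvd_iff.1 (hz.irreducible.associated_of_dvd hp h1).symm.dvd⟩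

end NPuP

theorem pNPu : S_NPu.{u} := by
  intro R A K L _ _ _ _ _ _ _ _ _ _ _ _ f hO hD hH hf
  have h0 : (Algebra.norm K[X] (1 + (X : K[X]) ⊗ₜ[K] (f - 1))).eval 0 = 1 := by
    rw [NPtP.eval_norm, zero_smul, add_zero, map_one]
  refine ⟨_, h0, by rw [NPtP.eval_norm, one_smul, add_sub_cancel], NPuP.root (f - 1), ?_⟩
  have hD' : Dm R (FractionRing K[X]) :=
    (pDm R K[X] (pDm R K hD).1).2 (FractionRing K[X]) (nonZeroDivisors K[X]) le_rfl
  have : IsDomain (FractionRing K[X] ⊗[K] L) :=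
    (pDomL K L (FractionRing K[X])).2 (nonZeroDivisors K[X]) le_rfl
  have e := NPtP.norm_mp (IsScalarTower.toAlgHom K K[X] (FractionRing K[X]))
    (1 + (X : K[X]) ⊗ₜ[K] (f - 1))
  rw [IsScalarTower.toAlgHom_apply] at e
  have hy : mp L (IsScalarTower.toAlgHom K K[X] (FractionRing K[X]))
      (1 + (X : K[X]) ⊗ₜ[K] (f - 1)) ≠ 0 := fun h => by
    rw [h, Algebra.norm_zero, eq_comm, map_eq_zero_iff _ (IsFractionRing.injective _ _)] at e
    rw [e, eval_zero] at h0
    exact zero_ne_one h0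
  rw [← e]
  let := fieldOfFiniteDimensional (FractionRing K[X]) (FractionRing K[X] ⊗[K] L)
  exact NPtP.core (pNP allNP1 (pNP2 allNP1)) ((Algebra.TensorProduct.includeRight :
    L →ₐ[K] FractionRing K[X] ⊗[K] L).restrictScalars R) _ hO hD' hH hy

end Pool.Agent.P.MP_46a8f8_ag.GU
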