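import Pool.Agent.P.MP_46a8f8_ag.GU.Qc

/-!
Split and inert primes of a quadratic centre.
-/

namespace Pool.Agent.P.MP_46a8f8_ag.GU

open TensorProduct Function

universe u

namespace NSpP

variable {R S T : Type u} [CommRing R] [CommRing S] [Algebra R S] [CommRing T] [Algebra R T]
  {ι : S →ₐ[R] S} {κ : S} {δ : Rˣ}

theorem ioio (h : Qd ι κ δ) (c : T ⊗[R] S) : io ι T (io ι T c) = c := by
  obtain ⟨a, b, rfl⟩ := h.dec c
  rw [h.io_dec, h.io_dec, neg_neg]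

theorem alg_mul (x a b : T) :
    algebraMap T (T ⊗[R] S) x * (algebraMap T _ a + b ⊗ₜ[R] κ) =
      algebraMap T _ (x * a) + (x * b) ⊗ₜ[R] κ := by
  rw [mul_add, map_mul, Algebra.TensorProduct.algebraMap_apply x,
    Algebra.TensorProduct.tmul_mul_tmul, one_mul]
  rfl

theorem alg_inj (h : Qd ι κ δ) : Injective (algebraMap T (T ⊗[R] S)) := fun a a' e =>
  (h.ext (b := 0) (b' := 0) (by rw [e])).1

theorem dvd_alg (h : Qd ι κ δ) {p a : T}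
    (e : algebraMap T (T ⊗[R] S) p ∣ algebraMap T (T ⊗[R] S) a) : p ∣ a := by
  obtain ⟨d, hd⟩ := e
  obtain ⟨x, y, rfl⟩ := h.dec d
  rw [alg_mul] at hd
  exact ⟨x, (h.ext (b := 0) (((congrArg _ (zero_tmul _ _)).trans (add_zero _)).trans hd)).1⟩

theorem unit_alg (h : Qd ι κ δ) {p : T} (e : IsUnit (algebraMap T (T ⊗[R] S) p)) : IsUnit p :=
  isUnit_of_dvd_one (dvd_alg h e.dvd)

theorem nrm (h : Qd ι κ δ) (c : T ⊗[R] S) :
    ∃ p : T, c * io ι T c = algebraMap T (T ⊗[R] S) p := by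
  obtain ⟨a, b, rfl⟩ := h.dec c
  exact ⟨_, h.nrm a b⟩

theorem ne0 [IsDomain (T ⊗[R] S)] (h : Qd ι κ δ) {c : T ⊗[R] S} (hc : c ≠ 0) :
    c * io ι T c ≠ 0 :=
  mul_ne_zero hc fun e => hc (by rw [← ioio h c, e, map_zero])

theorem key [IsDomain (T ⊗[R] S)] (h : Qd ι κ δ) {ϖ β : T ⊗[R] S} (h0 : ϖ ≠ 0)
    (ha : Associated (ϖ * io ι T ϖ) (β * io ι T β)) (hd : ϖ ∣ β) :
    ∃ s : (T ⊗[R] S)ˣ, s * ϖ = β := by
  obtain ⟨c, rfl⟩ := hd
  obtain ⟨u, hu⟩ := ha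
  rw [map_mul, mul_mul_mul_comm] at hu
  have hc : IsUnit (c * io ι T c) := mul_left_cancel₀ (ne0 h h0) hu ▸ u.isUnit
  obtain ⟨s, rfl⟩ := isUnit_of_mul_isUnit_left hc
  exact ⟨s, mul_comm _ _⟩

end NSpP

open NSpP

theorem pNSp (h1 : S_QN.{u}) (h2 : S_NPS.{u}) : S_NSp.{u} := by
  intro R S A O K _ _ _ _ _ _ _ _ _ _ _ _ _ _ _ _ _ _ n j N ι κ δ π ϖ hU hq hK hs hN
  obtain ⟨L, _, _, _, _, hfin, hM, hsq, f, v, f0, hf, hint⟩ := hN
  obtain ⟨_, _, _, _, h3⟩ := h1 R S K L ι κ δ hq hK hsq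
  obtain ⟨e1, e2⟩ := h3 f
  obtain ⟨β, hβ⟩ := e2 O hint
  obtain ⟨g, hg⟩ := h2 R S A K L n j N f hU.gb hU.nf hK hM f0
  obtain ⟨b, -, -⟩ := hq.bas
  have := Module.Free.of_basis b
  have := Module.Finite.of_basis b
  have hi : Injective (mp S (IsScalarTower.toAlgHom R O K)) :=
    mp_inj_of (IsFractionRing.injective O K)
  have : IsDomain (O ⊗[R] S) := hi.isDomain _
  have e3 : β * io ι O β = algebraMap O (O ⊗[R] S) (v * π) := hi (by
    rw [map_mul, mp_io, hβ, e1, hf, mp_alg]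
    rfl)
  have ha : Associated (ϖ * io ι O ϖ) (β * io ι O β) := by
    rw [e3, map_mul]
    exact hs.2.trans (associated_unit_mul_right _ _ (v.isUnit.map _))
  rcases hs.1.dvd_or_dvd ((dvd_mul_right ϖ _).trans ha.dvd) with hd | hd
  · obtain ⟨s, hs⟩ := key hq hs.1.ne_zero ha hd
    exact ⟨s, g, by rw [hs, hβ, hg]⟩
  · obtain ⟨s, hs⟩ := key hq hs.1.ne_zero (by rwa [ioio hq, mul_comm _ β]) hd
    refine ⟨s, ⟨cj R A K g, cj R A K (g⁻¹ : (K ⊗[R] A)ˣ),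
      by rw [← cj_mul, Units.inv_mul, cj_one], by rw [← cj_mul, Units.mul_inv, cj_one]⟩, ?_⟩
    change N K (cj R A K g) = _
    rw [hU.cj.nrd_cj hU.gb hU.nf, hg, hs, mp_io, hβ, map_pow]

theorem pDich : S_Dich.{u} := by
  intro R S O _ _ _ _ _ _ ι κ δ hq hO
  refine ⟨fun π _ hπ => ?_, fun ϖ hϖ hn => ?_, fun π ϖ hπ hs => ?_⟩
  · obtain ⟨ϖ, hϖ, c, hc⟩ := WfDvdMonoid.exists_irreducible_factor
      (fun e => hπ.not_isUnit (unit_alg hq e))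
      (fun e => hπ.ne_zero (alg_inj hq (e.trans (map_zero _).symm)))
    have hp := UniqueFactorizationMonoid.irreducible_iff_prime.1 hϖ
    obtain ⟨p, e1⟩ := nrm hq ϖ
    obtain ⟨q, e2⟩ := nrm hq c
    have e3 : π ^ 2 = p * q := alg_inj hq (by
      rw [map_mul, ← e1, ← e2, mul_mul_mul_comm, ← map_mul, ← hc, io_alg, sq, map_mul])
    obtain ⟨i, hi, ha⟩ := (dvd_prime_pow hπ 2).1 ⟨q, e3⟩
    interval_cases i
    · rw [pow_zero, associated_one_iff_isUnit] at ha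
      exact absurd (isUnit_of_mul_isUnit_left (e1 ▸ ha.map (algebraMap O (O ⊗[R] S))))
        hp.not_isUnit
    · rw [pow_one] at ha
      exact Or.inr ⟨ϖ, hp, e1 ▸ ha.map (algebraMap O (O ⊗[R] S))⟩
    · obtain ⟨w, hw⟩ := ha
      have p0 : p ≠ 0 := fun e => pow_ne_zero 2 hπ.ne_zero (by rw [e3, e, zero_mul])
      have hq' : IsUnit q := mul_left_cancel₀ p0 (hw.trans e3) ▸ w.isUnit
      have hc' : IsUnit c :=
        isUnit_of_mul_isUnit_left (e2 ▸ hq'.map (algebraMap O (O ⊗[R] S)))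
      exact Or.inl (hc ▸ (associated_mul_unit_right ϖ c hc').prime hp)
  · obtain ⟨p, e1⟩ := nrm hq ϖ
    have k : ∀ a : O, ϖ ∣ algebraMap O (O ⊗[R] S) a → p ∣ a := by
      rintro a ⟨c, hc⟩
      have e2 := congrArg (io ι O) hc
      rw [io_alg, map_mul] at e2
      obtain ⟨d, hd⟩ := (hϖ.dvd_or_dvd ⟨c, e2.symm.trans hc⟩).resolve_left hn
      exact dvd_alg hq ⟨d, by rw [e2, hd, ← e1]; ring⟩
    refine ⟨p, ⟨fun e => ne0 hq hϖ.ne_zero (by rw [e1, e, map_zero]), fun e => hϖ.not_isUnit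
      (isUnit_of_mul_isUnit_left (e1 ▸ e.map (algebraMap O (O ⊗[R] S)))), fun a b hab => ?_⟩,
      hϖ, e1 ▸ Associated.refl _⟩
    have e2 : ϖ ∣ algebraMap O (O ⊗[R] S) a * algebraMap O (O ⊗[R] S) b := by
      rw [← map_mul]
      exact (dvd_mul_right ϖ _).trans (e1 ▸ map_dvd _ hab)
    exact (hϖ.dvd_or_dvd e2).imp (k a) (k b)
  · obtain ⟨a, b, rfl⟩ := hq.dec ϖ
    obtain ⟨-, w, hw⟩ := hs
    obtain ⟨x, y, e1⟩ := hq.dec (w : O ⊗[R] S)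
    rw [hq.nrm] at hw ⊢
    generalize hp : a * a - algebraMap R O δ * (b * b) = p at hw
    rw [e1, alg_mul] at hw
    obtain ⟨e2, e3⟩ := hq.ext (b' := 0) (hw.trans (by rw [zero_tmul, add_zero]))
    have p0 : p ≠ 0 := fun e => hπ.ne_zero (by rw [← e2, e, zero_mul])
    rw [(mul_eq_zero.1 e3).resolve_left p0, zero_tmul, add_zero] at e1
    obtain ⟨x, rfl⟩ := unit_alg hq (e1 ▸ w.isUnit)
    have e4 : p = (x⁻¹ : Oˣ) * π := by rw [← e2, mul_comm, Units.mul_inv_cancel_right]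
    refine ⟨⟨a, b, fun hb => ?_, by rw [hp, e4]; exact dvd_mul_left _ _⟩, x⁻¹, by rw [e4]⟩
    obtain ⟨b', rfl⟩ := hb
    have ha : π ∣ a * a := ⟨(x⁻¹ : Oˣ) + algebraMap R O δ * (π * b' * b'), by
      linear_combination hp + e4⟩
    obtain ⟨a', rfl⟩ := (hπ.dvd_or_dvd ha).elim id id
    refine hπ.not_isUnit (IsUnit.of_mul_eq_one
      ((a' * a' - algebraMap R O δ * (b' * b')) * x) (mul_left_cancel₀ hπ.ne_zero ?_))
    linear_combination (x : O) * hp + e2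

end Pool.Agent.P.MP_46a8f8_ag.GU
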