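import Pool.Agent.P.MP_46a8f8_ag.GU.Qc

/-!
Involutions of the first kind: norms of unitary elements and purity.
-/

namespace Pool.Agent.P.MP_46a8f8_ag.GU

open TensorProduct Function IsLocalRing

universe u

theorem pNUf (h1 : S_UD0.{u}) : S_NUf.{u} := by
  intro R S A O K _ _ _ _ _ _ _ _ _ _ _ _ _ _ _ _ _ n N hU hs s x x1 x2 hx
  have := hU.gb.free
  have := hU.gb.fin
  have : IsDomain O := (IsFractionRing.injective O K).isDomain _
  let f : O →ₐ[R] K := IsScalarTower.toAlgHom R O K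
  have hf : Injective (mp S f) := mp_inj_of (IsFractionRing.injective O K)
  let g : (K ⊗[R] A)ˣ := ⟨x, _, x1, x2⟩
  have hg : Sml R A K g 1 := x1.trans (map_one _).symm
  obtain ⟨k, hk | hk⟩ := Nat.even_or_odd' n
  · obtain ⟨τ, ε, hτ⟩ := hU.tr
    obtain ⟨v, v1, v2⟩ := pImd allDA1 R A O K τ ε g hτ (Or.inl (pAzR R S A hs hU.gb.az)) hg
    refine ⟨v, v1.trans (map_one _), v1.comm.trans (map_one _), hf ?_⟩
    rw [← hx, h1 R S A O n k N v 1 hU.gb hU.nf hs hk v1, mp_alg, map_mul, one_pow, map_one]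
    have := h1 R S A K n k N g 1 hU.gb hU.nf hs hk hg
    rw [one_pow, ← v2] at this
    exact this.symm
  · have e := hU.nrd_sml hg
    obtain ⟨c, hc⟩ := surj_bc hs K (N K x)
    rw [io_id, show N K g = algebraMap K _ c from hc.symm, ← map_mul, one_pow] at e
    rcases mul_self_eq_one_iff.1 (hU.gb.alg_inj K e) with h | h
    · refine ⟨1, by rw [cj_one, mul_one], by rw [cj_one, mul_one], hf ?_⟩
      rw [← hx, ← hc, h, map_one, map_one, map_one]
    · refine ⟨algebraMap O _ (-1), ?_, ?_, hf ?_⟩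
      · rw [cj_alg, ← map_mul, neg_mul_neg, mul_one, map_one]
      · rw [cj_alg, ← map_mul, neg_mul_neg, mul_one, map_one]
      · rw [← hx, ← hc, h, hU.nf.alg, Odd.neg_one_pow ⟨k, hk⟩, mp_alg, map_neg f, map_one]

theorem pPTf : S_PTf.{u} := by
  intro R S A O K _ _ _ _ _ _ _ _ _ _ _ _ _ _ _ _ _ _ m e N hG hs x y g t _ ht
  obtain ⟨c, rfl⟩ := surj_bc hs K t
  rw [io_id, ← map_mul] at ht
  have hc := hG.alg_inj K ht
  obtain ⟨τ, rfl⟩ : ∃ τ : O, algebraMap O K τ = c :=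
    IsIntegrallyClosed.exists_algebraMap_eq_of_isIntegral_pow two_pos
      (by rw [sq, hc]; exact isIntegral_algebraMap)
  rw [← map_mul] at hc
  obtain ⟨w, rfl⟩ : IsUnit τ :=
    isUnit_of_mul_isUnit_left ((IsFractionRing.injective O K hc).symm ▸ y.isUnit)
  refine ⟨Units.map (algebraMap O (O ⊗[R] S) : O →* O ⊗[R] S) w⁻¹, ?_⟩
  have e1 : mp S (IsScalarTower.toAlgHom R O K) (algebraMap O (O ⊗[R] S) (w⁻¹ : Oˣ)) *
      algebraMap K (K ⊗[R] S) (algebraMap O K w) = 1 := by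
    rw [mp_alg, IsScalarTower.toAlgHom_apply, ← map_mul, ← map_mul, Units.inv_mul, map_one,
      map_one]
  exact e1.symm ▸ HQ.one

theorem pPCf (h1 : S_UD0.{u}) : S_PCf.{u} := by
  intro R S A O K _ _ _ _ _ _ _ _ _ _ _ _ _ _ _ _ _ n k N hG hN hs hk hP hD x g μ hg hx
  have := hG.free
  have := hG.fin
  have : Module.Free R A := SA.free
  let f : O →ₐ[R] K := IsScalarTower.toAlgHom R O K
  have hi := IsFractionRing.injective O K
  have hf : Injective (mp S f) := mp_inj_of hi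
  have hμ := hG.unit_sml hg
  have e1 : mp S f x = algebraMap K _ (dI R A K g) := by
    refine ((hμ.pow k).map (algebraMap K (K ⊗[R] S))).mul_right_cancel ?_
    rw [← hx, h1 R S A K n k N g μ hG hN hs hk hg, map_mul]
  obtain ⟨d, c, hd, hc⟩ := ImdP.clear (O := O) (g : K ⊗[R] A)
  obtain ⟨p, q, hq, hpq⟩ := IsFractionRing.div_surjective O μ
  have q0 : q ≠ 0 := nonZeroDivisors.ne_zero hq
  have q1 : algebraMap O K q ≠ 0 := (map_ne_zero_iff _ hi).2 q0
  have d1 : algebraMap O K d ≠ 0 := (map_ne_zero_iff _ hi).2 hd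
  have hp : algebraMap O K p = μ * algebraMap O K q := by rw [← hpq, div_mul_cancel₀ _ q1]
  have p0 : p ≠ 0 := fun h => mul_ne_zero hμ.ne_zero q1 (by rw [← hp, h, map_zero])
  obtain ⟨v, hv⟩ := hP 1 (q • c) (q * (d * d) * p) cj_one
    (mul_ne_zero (mul_ne_zero q0 (mul_ne_zero hd hd)) p0) (ImdP.inj (K := K) (by
      rw [map_mul, mp_cj, mp_smul, hc, map_smul, map_smul, smul_mul_smul_comm, smul_mul_smul_comm,
        hg, mp_smul, Units.val_one, map_one, Algebra.algebraMap_eq_smul_one μ, smul_smul,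
        smul_smul]
      simp only [IsScalarTower.toAlgHom_apply, map_mul, hp]
      congr 1
      ring))
  have v0 : algebraMap O K v ≠ 0 := (map_ne_zero_iff _ hi).2 v.ne_zero
  have m0 := hμ.ne_zero
  obtain ⟨g1, g2, g3⟩ := (hv.inv (w' := (algebraMap O K (v * (q * (d * d) * p)))⁻¹)
    (mul_inv_cancel₀ (by simp only [map_mul, hp]; positivity))).mul
      (GP.sq (mul_ne_zero q1 d1).isUnit)
  have g4 := hg.mul g2
  have e2 : μ * ((algebraMap O K (v * (q * (d * d) * p)))⁻¹ *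
      (algebraMap O K q * algebraMap O K d * (algebraMap O K q * algebraMap O K d))) =
      algebraMap O K (v⁻¹ : Oˣ) := by
    rw [map_units_inv]
    simp only [map_mul, hp]
    field_simp
  rw [e2] at g4
  obtain ⟨a, a1, a2⟩ := hD _ _ (v⁻¹).isUnit g4
  refine ⟨a, v⁻¹, a1, ?_⟩
  rw [h1 R S A O n k N a _ hG hN hs hk a1, map_mul]
  congr 1
  refine hf ?_
  rw [e1, mp_alg, IsScalarTower.toAlgHom_apply, a2, dI_mul _ g2, g3, mul_one]

end Pool.Agent.P.MP_46a8f8_ag.GU
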