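import Pool.Agent.P.MP_46a8f8_ag.GU.Qc

/-!
Norms of unitary elements over a local ring above the base.
-/

namespace Pool.Agent.P.MP_46a8f8_ag.GU

open TensorProduct Function IsLocalRing

universe u

namespace NUrP

variable {R S A : Type u} [CommRing R] [CommRing S] [Algebra R S] [Ring A] [Algebra S A]
  [Algebra R A] [IsScalarTower R S A] {ι : S →ₐ[R] S} {κ : S} {δ : Rˣ}

theorem kap_unit (hq : Qd ι κ δ) (T : Type u) [CommRing T] [Algebra R T] :
    IsUnit ((1 : T) ⊗ₜ[R] κ) :=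
  IsUnit.map (Algebra.TensorProduct.includeRight (R := R) (A := T) (B := S))
    (isUnit_of_mul_isUnit_left (hq.sq ▸ δ.isUnit.map _))

/-- Hilbert 90 for a quadratic centre over a local ring -/
theorem h90 (hq : Qd ι κ δ) {O : Type u} [CommRing O] [IsLocalRing O] [Algebra R O]
    {s : O ⊗[R] S} (hs : s * io ι O s = 1) :
    ∃ t : (O ⊗[R] S)ˣ, s * io ι O t = t := by
  obtain ⟨a, b, hab⟩ := hq.dec s
  have h2 : IsUnit (2 : O) := by
    have := hq.two.map (algebraMap R O)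
    rwa [map_ofNat] at this
  have e : s + io ι O s = algebraMap O (O ⊗[R] S) (2 * a) := by
    rw [hab, hq.io_dec, neg_tmul, two_mul, map_add]
    abel
  have h3 : IsUnit ((1 + a) + (1 - a)) := by
    rwa [show (1 + a) + (1 - a) = 2 by ring]
  rcases isUnit_or_isUnit_of_isUnit_add h3 with h | h
  · have h4 : IsUnit ((1 + s) * (1 + io ι O s)) := by
      have : (1 + s) * (1 + io ι O s) = algebraMap O (O ⊗[R] S) (2 * (1 + a)) := by
        rw [mul_add 2, map_add, ← e, mul_one, map_ofNat]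
        linear_combination hs
      rw [this]
      exact (h2.mul h).map _
    obtain ⟨t, ht⟩ := isUnit_of_mul_isUnit_left h4
    refine ⟨t, ?_⟩
    rw [ht, map_add, map_one]
    linear_combination hs
  · have h4 : IsUnit ((1 - s) * (1 - io ι O s)) := by
      have : (1 - s) * (1 - io ι O s) = algebraMap O (O ⊗[R] S) (2 * (1 - a)) := by
        rw [mul_sub 2, map_sub, ← e, mul_one, map_ofNat]
        linear_combination hs
      rw [this]
      exact (h2.mul h).map _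
    obtain ⟨t, ht⟩ := (kap_unit hq O).mul (isUnit_of_mul_isUnit_left h4)
    refine ⟨t, ?_⟩
    rw [ht, map_mul, map_sub, map_one, io_tmul, hq.skew, tmul_neg]
    linear_combination ((1 : O) ⊗ₜ[R] κ) * hs

omit [Algebra S A] [IsScalarTower R S A] in
/-- purity and the statement for units give the norm statement -/
theorem fn_of {O K : Type u} [CommRing O] [Algebra R O] [Field K] [Algebra R K] [Algebra O K]
    [IsScalarTower R O K] {e : ℕ} {N : NFam R S A} (hP : PurN N e O K) (hG : GN N O K) :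
    FN N e O K := by
  intro s μ h
  obtain ⟨v, hv⟩ := hP s μ h
  have h3 : NK N K (algebraMap K (K ⊗[R] S)
      ((algebraMap O K (v⁻¹ : Oˣ) * (μ⁻¹ : Kˣ)) ^ e)) := by
    refine hv.inv ?_
    rw [← map_mul, ← mul_pow, mul_mul_mul_comm, ← map_mul, Units.mul_inv, Units.mul_inv, map_one,
      one_mul, one_pow, map_one]
  let w : (O ⊗[R] S)ˣ := s * Units.map (algebraMap O (O ⊗[R] S) : O →* O ⊗[R] S) (v⁻¹ ^ e)
  have hw : (w : O ⊗[R] S) = s * algebraMap O (O ⊗[R] S) (((v⁻¹ : Oˣ) : O) ^ e) := by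
    rw [← Units.val_pow_eq_pow_val]
    rfl
  have h4 : NK N K (mp S (IsScalarTower.toAlgHom R O K) w) := by
    have h5 := h.mul h3
    rw [mul_assoc, ← map_mul, ← mul_pow, mul_left_comm, Units.mul_inv, mul_one] at h5
    rw [hw, map_mul, mp_alg, map_pow]
    exact h5
  exact ⟨v⁻¹, hw ▸ hG w h4⟩

end NUrP

theorem pNUr : S_NUr.{u} := by
  intro R S A O K _ _ _ _ _ _ _ _ _ _ _ _ _ _ _ _ _ _ n N ι κ δ hU hq hD hF s x hx hx' hs
  have hG := hU.gb
  have hN := hU.nf
  have := hG.free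
  have := hG.fin
  have := SA.free (R := R) (A := A)
  have := SA.fin (R := R) (A := A)
  let f := IsScalarTower.toAlgHom R O K
  have hf : Injective (mp S f) := mp_inj_of (IsFractionRing.injective O K)
  have cK := hU.cj.nrd_cj hG hN (T := K)
  have e1 : s * io ι O s = 1 := hf (by
    rw [map_mul, mp_io, ← hs, ← cK, ← map_mul, hx, map_one, map_one])
  obtain ⟨t, ht⟩ := NUrP.h90 hq e1
  -- the Cayley transform
  obtain ⟨w, hw⟩ : ∃ w : (K ⊗[R] A)ˣ, x * cj R A K w = w := by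
    let := GAP.alg R S A K
    have : IsScalarTower K (K ⊗[R] S) (K ⊗[R] A) := GAP.tower_bc
    have : Module.Finite (K ⊗[R] S) (K ⊗[R] A) :=
      Module.Finite.of_restrictScalars_finite K (K ⊗[R] S) (K ⊗[R] A)
    have a1 : (2 : K) ≠ 0 := by
      have := (hq.two.map (algebraMap R K)).ne_zero
      rwa [map_ofNat] at this
    have a2 : (1 : K) ⊗ₜ[R] κ ≠ 0 := (NUrP.kap_unit hq K).ne_zero
    obtain ⟨c, w, hw⟩ := pCay K (K ⊗[R] S) (K ⊗[R] A) ((1 : K) ⊗ₜ[R] κ) x a1 a2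
    refine ⟨w, ?_⟩
    have a3 : ∀ y, algebraMap (K ⊗[R] S) (K ⊗[R] A) y = GAP.sm R S A K y := fun _ => rfl
    rw [a3] at hw
    have a4 := GAP.sm_comm R S A K (algebraMap K (K ⊗[R] S) c * (1 : K) ⊗ₜ[R] κ)
    have a5 : cj R A K (GAP.sm R S A K (algebraMap K (K ⊗[R] S) c * (1 : K) ⊗ₜ[R] κ)) =
        -GAP.sm R S A K (algebraMap K (K ⊗[R] S) c * (1 : K) ⊗ₜ[R] κ) := by
      rw [hU.cj.cj_sm, map_mul (io ι K), io_alg, io_tmul, hq.skew, tmul_neg, mul_neg, map_neg]
    generalize GAP.sm R S A K (algebraMap K (K ⊗[R] S) c * (1 : K) ⊗ₜ[R] κ) = γ at *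
    rw [hw, map_add, map_add, cj_mul, a5, map_sub, cj_one, mul_add, mul_add, hx, ← mul_assoc,
      mul_sub, hx, mul_one, mul_neg, ← a4, mul_sub, mul_sub, mul_one]
    abel
  -- the quotient is fixed by the involution
  have hτ : IsUnit (mp S f t) := t.isUnit.map _
  obtain ⟨ρ, hρ⟩ : ∃ ρ : K ⊗[R] S, N K w = mp S f t * ρ :=
    ⟨hτ.unit⁻¹ * N K w, by rw [← mul_assoc, IsUnit.mul_val_inv, one_mul]⟩
  have e2 : io ι K ρ = ρ := by
    have a1 : N K x * N K (cj R A K w) = N K w := by rw [← map_mul, hw]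
    rw [cK, hs, hρ, map_mul, ← mul_assoc, ← mp_io, ← map_mul, ht] at a1
    exact hτ.mul_left_cancel a1
  obtain ⟨μ, hμ⟩ := hU.cj.fix K ρ e2
  have μ0 : μ ≠ 0 := by
    rintro rfl
    refine (w.isUnit.map (N K)).ne_zero ?_
    rw [hρ, ← hμ, map_zero, mul_zero]
  -- descent
  obtain ⟨v, g, hg⟩ := hF t (Units.mk0 μ μ0) ⟨w, by rw [hρ, ← hμ, pow_one]; rfl⟩
  obtain ⟨u, u1, u2⟩ := hU.lyN hq g
  refine ⟨u, u1.trans (map_one _), u1.comm.trans (map_one _), ?_⟩
  have e3 : IsUnit (io ι O (N O g)) := (g.isUnit.map (N O)).map _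
  refine e3.mul_right_cancel (u2.trans ?_)
  rw [hg, map_mul, io_alg, ← mul_assoc, ht]

theorem pGNu (h1 : S_NUr.{u}) : S_GNu.{u} := by
  intro R S A B O K _ _ _ _ _ _ _ _ _ _ _ _ _ _ _ _ _ _ _ _ _ _ _ n N ι κ δ hd hU hq hT hD hI
  have hG := hU.gb
  have := hG.dom
  have := hG.free
  obtain ⟨hR, hO, -, -⟩ := lev B O hd
  have hK : IsDomain (K ⊗[R] S) := (pDm R O hD).2 K (nonZeroDivisors O) le_rfl S
  have : Infinite O := Infinite.of_surjective _
    (Ideal.Quotient.mk_surjective (I := (maximalIdeal B).map (algebraMap B O)))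
  have : Infinite K := Infinite.of_injective _ (IsFractionRing.injective O K)
  have hF : FN N 1 O K := NUrP.fn_of
    (pPSN (pPPa0 allNbh0) (pPPb0 (pLatS allBN) allPPm0) allNPN (pPFN allResO pPF0)
      R S A B O K n 1 N hd hG hU.nf hK hI)
    (allGNs R S A B O K n N hd hG hU.nf hK)
  exact gnu_of hU.nf (allGD R A O K hU.ok hT (allHR R A B O hd hU.ok hD))
    (h1 R S A O K n N ι κ δ hU hq hK hF)

end Pool.Agent.P.MP_46a8f8_ag.GU
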