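import Pool.Agent.P.MP_46a8f8_ag.GU.Qc

/-!
The point which trivialises the gerbe, for involutions of the first kind.
-/

namespace Pool.Agent.P.MP_46a8f8_ag.GU

open TensorProduct Function

universe u

namespace OutFP

variable {R S A O : Type u} [CommRing R] [CommRing S] [Algebra R S] [Ring A] [Algebra S A]
  [Algebra R A] [IsScalarTower R S A] [StarRing A] [SA R A] [CommRing O] [Algebra R O]
  {n : ℕ} {N : NFam R S A} {a : (O ⊗[R] A)ˣ} {μ : O} {l : Rel R S O}

/-- the two equations given by the link -/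
theorem key (hU : UC A n N (AlgHom.id R S)) (hs : Sml R A O a μ) (hl : Lnk (SUn N) a l)
    {T : Type u} [CommRing T] [Algebra R T] {i j : O →ₐ[R] T} {z : T ⊗[R] S} (hz : l T i j z) :
    mp S i (N O a) = mp S j (N O a) * z ^ n ∧
      algebraMap T (T ⊗[R] S) (i μ) = algebraMap T (T ⊗[R] S) (j μ) * (z * z) := by
  obtain ⟨h, ⟨-, h2, h3⟩, e⟩ := hl T i j z hz
  constructor
  · have := congrArg (N T) e
    rwa [map_mul, map_mul, h3, one_mul, hU.nf.cen, ← hU.nf.nat, ← hU.nf.nat] at this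
  · have ei : cj R A T (mp A i a) * mp A i a = algebraMap T _ (i μ) := (hs.map i).comm
    have ej : cj R A T (mp A j a) * mp A j a = algebraMap T _ (j μ) := (hs.map j).comm
    have e2 : cj R A T (h * mp A i a) * (h * mp A i a) =
        cj R A T (mp A j a * GAP.sm R S A T z) * (mp A j a * GAP.sm R S A T z) := by rw [e]
    rw [cj_mul, cj_mul, mul_assoc, ← mul_assoc (cj R A T h), h2, one_mul, ei, mul_assoc,
      ← mul_assoc (cj R A T (mp A j a)), ej, hU.cj.cj_sm, io_id,
      ← (GAP.sm R S A T).commutes, ← (GAP.sm R S A T).commutes, ← map_mul, ← map_mul] at e2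
    rw [hU.gb.sm_inj T e2]
    ring

omit [StarRing A] [SA R A] in
theorem mp_lid {T : Type u} [CommRing T] [Algebra R T] (f : R →ₐ[R] T) (y : R ⊗[R] A) :
    mp A f y = (1 : T) ⊗ₜ[R] TensorProduct.lid R A y := by
  induction y using TensorProduct.induction_on with
  | zero => simp
  | tmul r x =>
    rw [H90P.mp_tmul, lid_tmul, ← smul_tmul, ← Algebra.algebraMap_eq_smul_one, ← f.commutes]
    rfl
  | add x y hx hy => simp only [map_add, hx, hy, tmul_add]

/-- the norm divided by the power of the multiplier descends -/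
theorem desc [Module.FaithfullyFlat R O] {k : ℕ} {μ : Oˣ} (hU : UC A n N (AlgHom.id R S))
    (hn : n = 2 * k) (hs : Sml R A O a μ) (hg : Gb l) (hl : Lnk (SUn N) a l) :
    ∃ x : R ⊗[R] S, N O a = mp S (IsScalarTower.toAlgHom R R O) x *
      algebraMap O (O ⊗[R] S) ((μ : O) ^ k) := by
  have := hU.gb.free
  have := hU.gb.fin
  obtain ⟨x, hx⟩ := desc_mp (R := R) (E := S) (T := R) (T' := O)
    (N O a * algebraMap O (O ⊗[R] S) (((μ⁻¹ : Oˣ) : O) ^ k)) (by
      obtain ⟨T', _, _, _, _, z, _, hz⟩ := hg.loc (O ⊗[R] O)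
        ((H90P.iL R O O).restrictScalars R) ((H90P.iR R O O).restrictScalars R)
      refine mp_inj_ff (R := R) (E := S) (T := O ⊗[R] O) (T' := T') ?_
      rw [H90P.mp_mp, H90P.mp_mp]
      obtain ⟨e1, e2⟩ := key hU hs hl hz
      generalize (IsScalarTower.toAlgHom R (O ⊗[R] O) T').comp
        ((H90P.iL R O O).restrictScalars R) = i at e1 e2 ⊢
      generalize (IsScalarTower.toAlgHom R (O ⊗[R] O) T').comp
        ((H90P.iR R O O).restrictScalars R) = j at e1 e2 ⊢
      have u1 : algebraMap T' (T' ⊗[R] S) (i μ) * algebraMap T' _ (i (μ⁻¹ : Oˣ)) = 1 := by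
        rw [← map_mul, ← map_mul, μ.mul_inv, map_one, map_one]
      have u2 : algebraMap T' (T' ⊗[R] S) (j μ) * algebraMap T' _ (j (μ⁻¹ : Oˣ)) = 1 := by
        rw [← map_mul, ← map_mul, μ.mul_inv, map_one, map_one]
      have e3 : z * z * algebraMap T' (T' ⊗[R] S) (i (μ⁻¹ : Oˣ)) =
          algebraMap T' _ (j (μ⁻¹ : Oˣ)) := by
        rw [e2] at u1
        linear_combination algebraMap T' (T' ⊗[R] S) (j (μ⁻¹ : Oˣ)) * u1 -
          z * z * algebraMap T' (T' ⊗[R] S) (i (μ⁻¹ : Oˣ)) * u2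
      rw [map_mul, map_mul, mp_alg, mp_alg, e1, map_pow, map_pow, map_pow, map_pow, ← e3, hn,
        pow_mul, mul_pow, sq, mul_assoc])
  refine ⟨x, ?_⟩
  rw [hx, mul_assoc, ← map_mul, ← mul_pow, μ.inv_mul, one_pow, map_one, mul_one]

end OutFP

theorem pOutF (h : S_Rt0.{u}) : S_OutF.{u} := by
  intro R S A K O _ _ _ _ _ _ _ _ _ _ _ _ _ _ n m k N a μ l hU hn hm hP ⟨p⟩ hs hg hl
  obtain ⟨x, hx⟩ := OutFP.desc hU hn hs hg hl
  obtain ⟨a₁, v, h1, h2⟩ := hP x (um p a) (p μ) (hs.map p) (by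
    change N K (mp A p a) = _
    rw [← hU.nf.nat, hx, map_mul, H90P.mp_mp, mp_alg, map_pow,
      Subsingleton.elim (p.comp _) (IsScalarTower.toAlgHom R R K)])
  obtain ⟨O', _, _, w, hff, hw⟩ :=
    h O (μ * (Units.map (algebraMap R O : R →* O) v)⁻¹) 2 two_pos
  let : Algebra R O' := ((algebraMap O O').comp (algebraMap R O)).toAlgebra
  have : IsScalarTower R O O' := IsScalarTower.of_algebraMap_eq fun _ => rfl
  let r := IsScalarTower.toAlgHom R O O'
  let φ := IsScalarTower.toAlgHom R R O'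
  have hv : φ v * (w * w) = r μ := by
    rw [← sq, hw]
    change r (algebraMap R O v) * r _ = _
    rw [← map_mul, Units.val_mul, mul_left_comm]
    exact congrArg r (by
      rw [show algebraMap R O v = Units.map (algebraMap R O : R →* O) v from rfl, Units.mul_inv,
        mul_one])
  let W : (O' ⊗[R] S)ˣ := Units.map (algebraMap O' (O' ⊗[R] S) : O' →* O' ⊗[R] S) w
  let W' : (O' ⊗[R] A)ˣ := Units.map (algebraMap O' (O' ⊗[R] A) : O' →* O' ⊗[R] A) w
  have hW : GAP.sm R S A O' W = W' := (GAP.sm R S A O').commutes (w : O')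
  have sW : Sml R A O' W' (w * w) := by
    change algebraMap O' _ (w : O') * cj R A O' (algebraMap O' _ (w : O')) = _
    rw [cj_alg, map_mul]
  have s1 : Sml R A O' (um r a * (W' * um φ a₁)⁻¹) 1 := by
    have := (hs.map r).mul ((sW.mul (h1.map φ)).inv (w' := r (μ⁻¹ : Oˣ)) (by
      rw [mul_comm (w * w : O'), hv, ← map_mul, μ.mul_inv, map_one]))
    rwa [← map_mul, μ.mul_inv, map_one] at this
  have n1 : N O' (um r a : (O' ⊗[R] A)ˣ) = N O' (W' * um φ a₁ : (O' ⊗[R] A)ˣ) := by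
    change N O' (mp A r a) = N O' (algebraMap O' _ (w : O') * mp A φ a₁)
    rw [map_mul, hU.nf.alg, ← hU.nf.nat, ← hU.nf.nat, hx, h2, map_mul, map_mul, H90P.mp_mp,
      mp_alg, mp_alg, Subsingleton.elim (r.comp _) φ, mul_left_comm, ← map_mul, map_pow r,
      map_pow φ, ← hv, hn, pow_mul, sq, mul_pow, mul_comm (φ v ^ k)]
  refine ⟨O', _, _, r, TensorProduct.lid R A (a₁⁻¹ : (R ⊗[R] A)ˣ), W,
    (um r a * (W' * um φ a₁)⁻¹ : (O' ⊗[R] A)ˣ), Module.FaithfullyFlat.trans R O O',
    ⟨s1.trans (map_one _), s1.comm.trans (map_one _), ?_⟩, ?_, fun T _ _ i j z hz => ?_⟩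
  · rw [Units.val_mul, map_mul, n1, ← map_mul, Units.mul_inv, map_one]
  · rw [hW, ← OutFP.mp_lid φ, ← Units.val_mul, mul_inv_rev, mul_assoc, inv_mul_cancel_right]
    rfl
  · obtain ⟨m', rfl⟩ := hm.two_dvd
    have e := (OutFP.key hU hs hl hz).2
    have ei : i (φ v) = algebraMap R T v := i.commutes v
    have ej : j (φ v) = algebraMap R T v := j.commutes v
    rw [AlgHom.comp_apply, AlgHom.comp_apply, ← hv] at e
    simp only [map_mul, ei, ej, mul_assoc] at e
    have e' := ((v.isUnit.map (algebraMap R T)).map (algebraMap T (T ⊗[R] S))).mul_left_cancel e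
    have ki : mp S i W = algebraMap T _ (i w) := mp_alg i (w : O')
    have kj : mp S j W = algebraMap T _ (j w) := mp_alg j (w : O')
    rw [pow_mul, pow_mul, ki, kj, sq (algebraMap T _ (i w)), e']
    congr 1
    ring

end Pool.Agent.P.MP_46a8f8_ag.GU
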