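import Pool.Agent.P.MP_46a8f8_ag.GU.Qc

/-!
The point which trivialises the gerbe, for the elements of reduced norm one.
-/

namespace Pool.Agent.P.MP_46a8f8_ag.GU

open TensorProduct Function

universe u

namespace OutLP

variable {R S A O : Type u} [CommRing R] [CommRing S] [Algebra R S] [Ring A] [Algebra S A]
  [Algebra R A] [IsScalarTower R S A] [CommRing O] [Algebra R O]
  {n : ℕ} {N : NFam R S A} {a : (O ⊗[R] A)ˣ} {l : Rel R S O}

/-- the equation given by the link -/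
theorem key (hN : NF n N) (hl : Lnk (SLn N) a l)
    {T : Type u} [CommRing T] [Algebra R T] {i j : O →ₐ[R] T} {z : T ⊗[R] S} (hz : l T i j z) :
    mp S i (N O a) = mp S j (N O a) * z ^ n := by
  obtain ⟨h, ⟨-, h3⟩, e⟩ := hl T i j z hz
  have := congrArg (N T) e
  rwa [map_mul, map_mul, h3, one_mul, hN.cen, ← hN.nat, ← hN.nat] at this

theorem mp_lid {T : Type u} [CommRing T] [Algebra R T] (f : R →ₐ[R] T) (y : R ⊗[R] A) :
    mp A f y = (1 : T) ⊗ₜ[R] TensorProduct.lid R A y := by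
  induction y using TensorProduct.induction_on with
  | zero => simp
  | tmul r x =>
    rw [H90P.mp_tmul, lid_tmul, ← smul_tmul, ← Algebra.algebraMap_eq_smul_one, ← f.commutes]
    rfl
  | add x y hx hy => simp only [map_add, hx, hy, tmul_add]

/-- descent of units -/
theorem descU [Module.FaithfullyFlat R O] [Module.Free R S] [Module.Finite R S]
    (hg : Gb l) (y : (O ⊗[R] S)ˣ)
    (hy : ∀ (T : Type u) [CommRing T] [Algebra R T] (i j : O →ₐ[R] T) (z : T ⊗[R] S),
      l T i j z → mp S i y = mp S j y) :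
    ∃ x : (R ⊗[R] S)ˣ, mp S (IsScalarTower.toAlgHom R R O) x = y := by
  have d1 : mp S ((H90P.iL R O O).restrictScalars R) y =
      mp S ((H90P.iR R O O).restrictScalars R) y := by
    obtain ⟨T', _, _, _, _, z, _, hz⟩ := hg.loc (O ⊗[R] O)
      ((H90P.iL R O O).restrictScalars R) ((H90P.iR R O O).restrictScalars R)
    refine mp_inj_ff (R := R) (E := S) (T := O ⊗[R] O) (T' := T') ?_
    rw [H90P.mp_mp, H90P.mp_mp]
    exact hy _ _ _ z hz
  have d2 : mp S ((H90P.iL R O O).restrictScalars R) (y⁻¹ : (O ⊗[R] S)ˣ) =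
      mp S ((H90P.iR R O O).restrictScalars R) (y⁻¹ : (O ⊗[R] S)ˣ) := by
    refine left_inv_eq_right_inv (a := mp S ((H90P.iL R O O).restrictScalars R) y) ?_ ?_
    · rw [← map_mul, y.inv_mul, map_one]
    · rw [d1, ← map_mul, y.mul_inv, map_one]
  obtain ⟨x, hx⟩ := desc_mp (R := R) (E := S) (T := R) (T' := O) _ d1
  obtain ⟨x', hx'⟩ := desc_mp (R := R) (E := S) (T := R) (T' := O) _ d2
  have k : x * x' = 1 := mp_inj_ff (R := R) (E := S) (T := R) (T' := O) (by
    rw [map_mul, hx, hx', y.mul_inv, map_one])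
  exact ⟨⟨x, x', k, (mul_comm _ _).trans k⟩, hx⟩

end OutLP

theorem pOutL (h1 : S_GbC.{u}) (h2 : S_Rt0.{u}) : S_OutL.{u} := by
  intro R S A K O _ _ _ _ _ _ _ _ _ _ _ _ _ n m e N a l hB hN hs hn hF ⟨p⟩ hg hp hl
  have := hB.free
  have := hB.fin
  have := hB.dom
  have := hB.et
  obtain ⟨c, hc, hcz⟩ := h1 R S O m l hg hp
  obtain ⟨w₀, hw₀⟩ := TorHP.h90 c (pRkS R S S (pGB0 R S S)) hc.nat hc.one hc.mul
  obtain ⟨t₀, ht₀⟩ := surj_bc hs O w₀
  obtain ⟨t, rfl⟩ : IsUnit t₀ := hB.unitS (ht₀ ▸ w₀.isUnit)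
  have hw₁ : ∀ (T : Type u) [CommRing T] [Algebra R T] (i j : O →ₐ[R] T) (z : T ⊗[R] S),
      l T i j z → mp S i w₀ = mp S j w₀ * z ^ m := fun T _ _ i j z hz => by
    rw [← hcz T i j z hz, hw₀]
  obtain ⟨x, hx⟩ := OutLP.descU hg (Units.map (N O) a * (w₀ ^ e)⁻¹) fun T _ _ i j z hz => by
    refine ((w₀ ^ e).isUnit.map (mp S i)).mul_right_cancel ?_
    rw [← map_mul, ← Units.val_mul, inv_mul_cancel_right, Units.val_pow_eq_pow_val, map_pow,
      hw₁ T i j z hz, mul_pow, ← mul_assoc, ← map_pow, ← map_mul, ← Units.val_pow_eq_pow_val,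
      ← Units.val_mul, inv_mul_cancel_right, ← pow_mul, ← hn]
    exact OutLP.key hN hl hz
  have hx' : N O a = mp S (IsScalarTower.toAlgHom R R O) x *
      algebraMap O (O ⊗[R] S) ((t : O) ^ e) := by
    rw [hx, map_pow, ht₀, ← Units.val_pow_eq_pow_val, ← Units.val_mul, inv_mul_cancel_right]
    rfl
  obtain ⟨v, a₁, h3⟩ := hF x (Units.map (p : O →* K) t) ⟨um p a, by
    change N K (mp A p a) = _ * algebraMap K (K ⊗[R] S) (p t ^ e)
    rw [← hN.nat, hx', map_mul, H90P.mp_mp, mp_alg, map_pow,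
      Subsingleton.elim (p.comp _) (IsScalarTower.toAlgHom R R K)]⟩
  obtain ⟨O', _, _, w, hff, hw⟩ := h2 O (t * (Units.map (algebraMap R O : R →* O) v)⁻¹) m
    (Nat.pos_of_mul_pos_right (hn ▸ hN.pos))
  let : Algebra R O' := ((algebraMap O O').comp (algebraMap R O)).toAlgebra
  have : IsScalarTower R O O' := IsScalarTower.of_algebraMap_eq fun _ => rfl
  let r := IsScalarTower.toAlgHom R O O'
  let φ := IsScalarTower.toAlgHom R R O'
  have hv : φ v * w ^ m = r t := by
    rw [hw]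
    change r (algebraMap R O v) * r _ = _
    rw [← map_mul, Units.val_mul, mul_left_comm]
    exact congrArg r (by
      rw [show algebraMap R O v = Units.map (algebraMap R O : R →* O) v from rfl, Units.mul_inv,
        mul_one])
  let W : (O' ⊗[R] S)ˣ := Units.map (algebraMap O' (O' ⊗[R] S) : O' →* O' ⊗[R] S) w
  let W' : (O' ⊗[R] A)ˣ := Units.map (algebraMap O' (O' ⊗[R] A) : O' →* O' ⊗[R] A) w
  have hW : GAP.sm R S A O' W = W' := (GAP.sm R S A O').commutes (w : O')
  have n1 : N O' (um r a : (O' ⊗[R] A)ˣ) = N O' (W' * um φ a₁ : (O' ⊗[R] A)ˣ) := by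
    change N O' (mp A r a) = N O' (algebraMap O' _ (w : O') * mp A φ a₁)
    rw [map_mul, hN.alg, ← hN.nat, ← hN.nat, hx', h3, map_mul, map_mul, H90P.mp_mp,
      mp_alg, mp_alg, Subsingleton.elim (r.comp _) φ, mul_left_comm, ← map_mul, map_pow r,
      map_pow φ, ← hv, hn, pow_mul, mul_pow, mul_comm (φ v ^ e)]
  refine ⟨O', _, _, r, TensorProduct.lid R A (a₁⁻¹ : (R ⊗[R] A)ˣ), W,
    (um r a * (W' * um φ a₁)⁻¹ : (O' ⊗[R] A)ˣ), Module.FaithfullyFlat.trans R O O',
    ⟨Units.isUnit _, ?_⟩, ?_, fun T _ _ i j z hz => ?_⟩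
  · rw [Units.val_mul, map_mul, n1, ← map_mul, Units.mul_inv, map_one]
  · rw [hW, ← OutLP.mp_lid φ, ← Units.val_mul, mul_inv_rev, mul_assoc, inv_mul_cancel_right]
    rfl
  · have e := hw₁ T _ _ z hz
    have ei : i (φ v) = algebraMap R T v := i.commutes v
    have ej : j (φ v) = algebraMap R T v := j.commutes v
    rw [← ht₀, mp_alg, mp_alg, AlgHom.comp_apply, AlgHom.comp_apply, ← hv, map_mul i, map_mul j,
      ei, ej, map_mul, map_mul, mul_assoc, map_pow i, map_pow j, map_pow, map_pow] at e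
    have e' := ((v.isUnit.map (algebraMap R T)).map (algebraMap T (T ⊗[R] S))).mul_left_cancel e
    have ki : mp S i W = algebraMap T _ (i w) := mp_alg i (w : O')
    have kj : mp S j W = algebraMap T _ (j w) := mp_alg j (w : O')
    rw [ki, kj, e', mul_pow, mul_comm]

end Pool.Agent.P.MP_46a8f8_ag.GU
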