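import Pool.Agent.P.MP_46a8f8_ag.GU.Qc

/-!
Trivialisation of the central gerbe in the unitary case.
-/

namespace Pool.Agent.P.MP_46a8f8_ag.GU

open TensorProduct Function IsLocalRing

universe u

namespace OutUP

variable {R S O : Type u} [CommRing R] [CommRing S] [Algebra R S] [CommRing O] [Algebra R O]

theorem desc0 [Module.FaithfullyFlat R O] (Y : Oˣ)
    (h : H90P.iL R O O (Y : O) = H90P.iR R O O (Y : O)) : ∃ y : Rˣ, algebraMap R O y = Y := by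
  have h' : H90P.iL R O O ((Y⁻¹ : Oˣ) : O) = H90P.iR R O O ((Y⁻¹ : Oˣ) : O) :=
    left_inv_eq_right_inv (a := H90P.iL R O O (Y : O)) (by rw [← map_mul, Units.inv_mul, map_one])
      (by rw [h, ← map_mul, Units.mul_inv, map_one])
  obtain ⟨y, hy⟩ := mem_range_of_eq (R := R) (Y : O) h
  obtain ⟨y', hy'⟩ := mem_range_of_eq (R := R) ((Y⁻¹ : Oˣ) : O) h'
  have e : y * y' = 1 := FaithfulSMul.algebraMap_injective R O (by
    rw [map_mul, hy, hy', Units.mul_inv, map_one])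
  exact ⟨⟨y, y', e, (mul_comm _ _).trans e⟩, hy⟩

theorem desc1 [Module.FaithfullyFlat R O] [Module.Free R S] [Module.Finite R S] (X : (O ⊗[R] S)ˣ)
    (h : mp S (H90P.iL R O O) X = mp S (H90P.iR R O O) X) :
    ∃ x : (R ⊗[R] S)ˣ, mp S (IsScalarTower.toAlgHom R R O) x = X := by
  have h' : mp S (H90P.iL R O O) (X⁻¹ : (O ⊗[R] S)ˣ) = mp S (H90P.iR R O O) (X⁻¹ : (O ⊗[R] S)ˣ) :=
    left_inv_eq_right_inv (a := mp S (H90P.iL R O O) X)
      (by rw [← map_mul, Units.inv_mul, map_one]) (by rw [h, ← map_mul, Units.mul_inv, map_one])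
  obtain ⟨y, hy⟩ := desc_mp (R := R) (T := R) (X : O ⊗[R] S) h
  obtain ⟨y', hy'⟩ := desc_mp (R := R) (T := R) ((X⁻¹ : (O ⊗[R] S)ˣ) : O ⊗[R] S) h'
  have e : y * y' = 1 := mp_inj_ff (T' := O) (by rw [map_mul, hy, hy', Units.mul_inv, map_one])
  exact ⟨⟨y, y', e, (mul_comm _ _).trans e⟩, hy⟩

variable {A : Type u} [Ring A] [Algebra S A] [Algebra R A] [IsScalarTower R S A] [StarRing A]
  [SA R A] {n : ℕ} {N : NFam R S A} {ι : S →ₐ[R] S}

theorem key (hU : UC A n N ι) {a : (O ⊗[R] A)ˣ} {μ : O} (ha : Sml R A O a μ) {l : Rel R S O}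
    (hl : Lnk (SUn N) a l) {T : Type u} [CommRing T] [Algebra R T] {i j : O →ₐ[R] T}
    {z : T ⊗[R] S} (h : l T i j z) : mp S i (N O a) = mp S j (N O a) * z ^ n ∧
      algebraMap T (T ⊗[R] S) (i μ) = algebraMap T (T ⊗[R] S) (j μ) * (z * io ι T z) := by
  obtain ⟨g, ⟨-, g2, g3⟩, hg⟩ := hl T i j z h
  constructor
  · have := congrArg (N T) hg
    rwa [map_mul, map_mul, g3, one_mul, hU.nf.cen, ← hU.nf.nat, ← hU.nf.nat] at this
  · have e1 : cj R A T (mp A i a) * mp A i a = algebraMap T _ (i μ) := (ha.map i).comm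
    have e2 : cj R A T (mp A j a) * mp A j a = algebraMap T _ (j μ) := (ha.map j).comm
    have e3 : cj R A T (g * mp A i a) * (g * mp A i a) = algebraMap T _ (i μ) := by
      rw [cj_mul, mul_assoc, ← mul_assoc _ g, g2, one_mul, e1]
    rw [hg, cj_mul, hU.cj.cj_sm, mul_assoc, ← mul_assoc (cj R A T _), e2,
      ← (GAP.sm R S A T).commutes, ← (GAP.sm R S A T).commutes, ← map_mul, ← map_mul] at e3
    rw [← hU.gb.sm_inj T e3]
    ring

end OutUP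

open OutUP in
theorem pOutU (h1 : S_GbC.{u}) : S_OutU.{u} := by
  intro R S A K O _ _ _ _ _ _ _ _ _ _ _ _ _ _ _ n m e N ι a μ l hU hn hR hP ⟨p₀⟩ ha hG hW hl
  have := hU.gb.free
  have := hU.gb.fin
  have := hU.gb.dom
  have := hU.gb.et
  obtain ⟨c, hc, hcz⟩ := h1 R S O m l hG hW
  obtain ⟨w₀, hw₀⟩ := TorHP.h90 c (pRkS R S S (pGB0 R S S)) hc.nat hc.one hc.mul
  have k3 : ∀ (T : Type u) [CommRing T] [Algebra R T] (i j : O →ₐ[R] T) (z : T ⊗[R] S),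
      l T i j z → mp S j w₀ * z ^ m = mp S i w₀ := fun T _ _ i j z h => by
    rw [← hcz T i j z h, hw₀]
  obtain ⟨y₀, hy₀⟩ := hU.cj.fix O (w₀ * io ι O w₀) (by rw [map_mul, hU.cj.io_io, mul_comm])
  obtain ⟨y₀, rfl⟩ : IsUnit y₀ := hU.gb.unitS (hy₀ ▸ w₀.isUnit.mul (w₀.isUnit.map _))
  let X : (O ⊗[R] S)ˣ := Units.map (N O) a * (w₀ ^ e)⁻¹
  let Y : Oˣ := μ ^ m * y₀⁻¹
  have hX : N O a = X * (w₀ : O ⊗[R] S) ^ e := by
    rw [← Units.val_pow_eq_pow_val, ← Units.val_mul, inv_mul_cancel_right]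
    rfl
  have hY : (μ : O) ^ m = Y * y₀ := by
    rw [← Units.val_pow_eq_pow_val, ← Units.val_mul, inv_mul_cancel_right]
  clear_value X Y
  obtain ⟨T, _, _, _, _, z, _, hz⟩ := hG.loc _ (H90P.iL R O O) (H90P.iR R O O)
  set f := IsScalarTower.toAlgHom R (O ⊗[R] O) T
  obtain ⟨q1, q2⟩ := key hU ha hl hz
  have q3 := k3 _ _ _ _ hz
  obtain ⟨x, hx⟩ := desc1 X (mp_inj_ff (T' := T) (by
    rw [H90P.mp_mp, H90P.mp_mp]
    refine ((w₀.isUnit.map (mp S (f.comp (H90P.iL R O O)))).pow e).mul_right_cancel ?_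
    rw [hX, map_mul, map_mul, map_pow, map_pow] at q1
    rw [q1, ← q3, hn]
    ring))
  obtain ⟨y, hy⟩ := desc0 (R := R) Y (FaithfulSMul.algebraMap_injective _ T (hU.gb.alg_inj T (by
    change algebraMap T _ (f.comp (H90P.iL R O O) Y) = algebraMap T _ (f.comp (H90P.iR R O O) Y)
    refine ((y₀.isUnit.map (f.comp (H90P.iL R O O))).map
      (algebraMap T (T ⊗[R] S))).mul_right_cancel ?_
    have e1 : algebraMap T (T ⊗[R] S) (f.comp (H90P.iL R O O) y₀) =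
        algebraMap T (T ⊗[R] S) (f.comp (H90P.iR R O O) y₀) * (z * io ι T z) ^ m := by
      rw [← mp_alg, ← mp_alg, hy₀, map_mul, map_mul, mp_io, mp_io, ← q3, map_mul, map_pow]
      ring
    rw [← map_mul, ← map_mul, ← hY, map_pow, map_pow, q2, e1, mul_pow, ← mul_assoc, ← map_mul,
      ← map_mul, ← hY, map_pow, map_pow])))
  set j := IsScalarTower.toAlgHom R R O
  have hE : EQ N ι m e O X Y := ⟨a, μ, w₀, ha, hX, by rw [hY, map_mul, hy₀]⟩
  obtain ⟨a₁, μ₁, t₁, b1, b2, b3⟩ := hP x y (by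
    have := hE.map hU.nf p₀
    rwa [← hx, ← hy, H90P.mp_mp, AlgHom.commutes,
      Subsingleton.elim (p₀.comp j) (IsScalarTower.toAlgHom R R K)] at this)
  obtain ⟨μ₁, rfl⟩ := hU.gb.unit_sml b1
  let μ₂ : Oˣ := Units.map (j : R →* O) μ₁
  let t : (O ⊗[R] S)ˣ := w₀ * (um j t₁)⁻¹
  let ν : Oˣ := μ * μ₂⁻¹
  have ht : (w₀ : O ⊗[R] S) = t * mp S j t₁ := by
    change _ = ((t * um j t₁ : (O ⊗[R] S)ˣ) : O ⊗[R] S)
    rw [inv_mul_cancel_right]
  have hν : (μ : O) = ν * μ₂ := by rw [← Units.val_mul, inv_mul_cancel_right]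
  have c1 : Sml R A O (um j a₁) μ₂ := b1.map j
  have c2 : N O (um j a₁) = X * mp S j t₁ ^ e := by
    change N O (mp A j a₁) = _
    rw [← hU.nf.nat, b2, map_mul, map_pow, hx]
  have c3 : algebraMap O (O ⊗[R] S) ((μ₂ : O) ^ m) =
      algebraMap O (O ⊗[R] S) Y * (mp S j t₁ * io ι O (mp S j t₁)) := by
    have := congrArg (mp S j) b3
    rw [mp_alg, map_mul, map_mul, mp_alg, mp_io, map_pow] at this
    rw [← hy]
    exact this
  have d1 : Sml R A O (a * (um j a₁)⁻¹) ν := ha.mul (c1.inv μ₂.mul_inv)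
  have d2 : N O (a * (um j a₁)⁻¹ : (O ⊗[R] A)ˣ) = (t : O ⊗[R] S) ^ e := by
    refine ((um j a₁).isUnit.map (N O)).mul_right_cancel ?_
    rw [← map_mul, ← Units.val_mul, inv_mul_cancel_right, hX, c2, ht]
    ring
  obtain ⟨O', _, _, _, _, w, _, w1, w2⟩ := hR O t ν (by
    refine ((μ₂.isUnit.pow m).map (algebraMap O (O ⊗[R] S))).mul_right_cancel ?_
    rw [← map_mul, ← mul_pow, ← hν, hY, map_mul, hy₀, c3, ht, map_mul]
    ring)
  set r := IsScalarTower.toAlgHom R O O'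
  let W : (O' ⊗[R] A)ˣ := Units.map (GAP.sm R S A O' : O' ⊗[R] S →* O' ⊗[R] A) w
  have e1 : Sml R A O' W (r ν) := by
    change GAP.sm R S A O' w * cj R A O' (GAP.sm R S A O' w) = _
    rw [hU.cj.cj_sm, ← map_mul, w2, AlgHom.commutes]
    rfl
  have e0 : r ν * r (ν⁻¹ : Oˣ) = 1 := by rw [← map_mul, Units.mul_inv, map_one]
  have e2 : Sml R A O' (um r (a * (um j a₁)⁻¹) * W⁻¹) 1 := e0 ▸ (d1.map r).mul (e1.inv e0)
  have e3 : ((um r (a * (um j a₁)⁻¹) * W⁻¹ : (O' ⊗[R] A)ˣ) : O' ⊗[R] A) * GAP.sm R S A O' w =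
      mp A r (a * (um j a₁)⁻¹ : (O ⊗[R] A)ˣ) := Units.inv_mul_cancel_right _ W
  refine ⟨O', _, _, r, TensorProduct.lid R A (a₁⁻¹ : (R ⊗[R] A)ˣ), w,
    (um r (a * (um j a₁)⁻¹) * W⁻¹ : (O' ⊗[R] A)ˣ), Module.FaithfullyFlat.trans R O O',
    ⟨e2.trans (map_one _), e2.comm.trans (map_one _), ?_⟩, ?_, fun T _ _ i i' z hz => ?_⟩
  · refine (w.isUnit.pow n).mul_right_cancel ?_
    rw [one_mul, ← hU.nf.cen, ← map_mul, e3, ← hU.nf.nat, d2, hU.nf.cen, hn, pow_mul, w1, map_pow]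
  · rw [e3, Units.val_mul, map_mul]
    congr 1
    change mp A r (mp A j (a₁⁻¹ : (R ⊗[R] A)ˣ)) = _
    conv_lhs => rw [← (TensorProduct.lid R A).symm_apply_apply (a₁⁻¹ : (R ⊗[R] A)ˣ)]
    rw [lid_symm_apply, H90P.mp_mp]
    exact congrArg (· ⊗ₜ[R] _) (map_one (r.comp j))
  · have := k3 T _ _ z hz
    rw [ht, map_mul, map_mul, H90P.mp_mp, H90P.mp_mp,
      Subsingleton.elim ((i'.comp r).comp j) ((i.comp r).comp j)] at this
    rw [mul_pow, ← map_pow, ← map_pow, w1, H90P.mp_mp, H90P.mp_mp]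
    refine (t₁.isUnit.map (mp S ((i.comp r).comp j))).mul_right_cancel ?_
    rw [← this]
    ring

end Pool.Agent.P.MP_46a8f8_ag.GU
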