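import Pool.Agent.P.MP_46a8f8_ag.GU.Qc

/-!
Two facts on unique factorisation domains.
-/

namespace Pool.Agent.P.MP_46a8f8_ag.GU

open TensorProduct Function IsLocalRing Polynomial

universe u

theorem pPF1 : S_PF1.{u} := by
  intro C _ _ _
  refine ⟨fun j t d y hj hd hjd h => ?_, fun M _ φ H e a => ?_⟩
  · obtain ⟨a, b, g, hab, rfl, rfl⟩ := UniqueFactorizationMonoid.exists_reduced_factors' t d hd
    have hg : g ≠ 0 := left_ne_zero_of_mul hd
    have hg' : j g ≠ 0 := fun h0 => hg (by rw [← hj g, h0, map_zero])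
    have h1 : a * j a = b * j b * y := by
      refine mul_left_cancel₀ (mul_ne_zero hg hg') ?_
      rw [map_mul] at h hjd
      linear_combination h - g * b * y * hjd
    have h2 : IsRelPrime (j a) (j b) := fun x hx hx' => by
      have a1 := map_dvd j hx
      have a2 := map_dvd j hx'
      rw [hj] at a1 a2
      exact hj x ▸ (hab a1 a2).map j
    have h3 : b ∣ j a := hab.symm.dvd_of_dvd_mul_left ⟨j b * y, by rw [h1, mul_assoc]⟩
    have h4 : j a ∣ b := h2.dvd_of_dvd_mul_right
      (Units.dvd_mul_right.1 (show j a ∣ b * j b * y from ⟨a, by rw [← h1, mul_comm]⟩))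
    obtain ⟨s, hs⟩ := associated_of_dvd_dvd h3 h4
    exact ⟨a, s, fun x hx hx' => hab hx (hx'.trans h4), by rw [← hs]; ring⟩
  · have h1 : ∀ x : C, IsUnit x → ∃ s : Cˣ, φ (s * x) ^ e ∈ H := by
      rintro _ ⟨x, rfl⟩
      exact ⟨x⁻¹, by rw [x.inv_mul, map_one, one_pow]; exact H.one_mem⟩
    induction a using UniqueFactorizationMonoid.induction_on_coprime with
    | h0 => exact fun h => absurd rfl h
    | h1 hx => exact fun _ _ => h1 _ hx
    | @hpr p i hp =>
      intro _ h
      rcases i.eq_zero_or_pos with rfl | hi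
      · exact h1 _ (by simp)
      obtain ⟨s, hs⟩ := h p 1 i hp (dvd_pow_self p hi.ne') hp.not_dvd_one (mul_one _).symm
      exact ⟨s ^ i, by rwa [Units.val_pow_eq_pow_val, ← mul_pow, map_pow, ← pow_mul, mul_comm i]⟩
    | @hcp x y hxy hx hy =>
      intro h0 h
      obtain ⟨s, hs⟩ := hx (left_ne_zero_of_mul h0) fun p a' k hp h2 h3 h4 =>
        h p (a' * y) k hp (h2.mul_right _)
          (fun h5 => (hp.dvd_or_dvd h5).elim h3 fun h6 => hp.not_isUnit (hxy h2 h6))
          (by rw [h4, mul_assoc])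
      obtain ⟨s', hs'⟩ := hy (right_ne_zero_of_mul h0) fun p a' k hp h2 h3 h4 =>
        h p (a' * x) k hp (h2.mul_left _)
          (fun h5 => (hp.dvd_or_dvd h5).elim h3 fun h6 => hp.not_isUnit (hxy h6 h2))
          (by rw [h4, mul_comm, mul_assoc])
      refine ⟨s * s', ?_⟩
      rw [Units.val_mul, mul_mul_mul_comm, map_mul, mul_pow]
      exact H.mul_mem hs hs'

end Pool.Agent.P.MP_46a8f8_ag.GU
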