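import Pool.Agent.P.MP_46a8f8_ag.GU.Qc

/-!
Purity for the multiplier over a factorial ring, from the norm principle at each prime.
-/

namespace Pool.Agent.P.MP_46a8f8_ag.GU

open TensorProduct Function IsLocalRing Polynomial

universe u

namespace PFMP

variable {R S A : Type u} [CommRing R] [CommRing S] [Algebra R S] [Ring A] [Algebra R A]
  [StarRing A] [SA R A]

/-- the multipliers -/
def sub (N : NFam R S A) (ι : S →ₐ[R] S) (m e : ℕ) (K : Type u) [Field K] [Algebra R K] :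
    Subgroup Kˣ where
  carrier := {x | ∃ t, HQ N ι m e K (x : K) t}
  one_mem' := ⟨1, HQ.one⟩
  mul_mem' := fun ⟨_, h⟩ ⟨_, h'⟩ => ⟨_, h.mul h'⟩
  inv_mem' := fun {x} ⟨t, h⟩ => by
    obtain ⟨-, -, -, e3⟩ := id h
    obtain ⟨t₁, ht₁⟩ := (isUnit_of_mul_isUnit_left
      (e3 ▸ (x.isUnit.pow m).map _)).exists_right_inv
    exact ⟨t₁, h.inv x.mul_inv ht₁⟩

end PFMP

theorem pPFM (h1 : S_Dich.{u}) : S_PFM.{u} := by
  intro R S A O K _ _ _ _ _ _ _ _ _ _ _ _ _ _ _ _ _ _ _ n m e k N ι κ δ g μ μ₁ μ₂ hU hq hD hu hn hk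
    hm hg h0 hμ hP
  have := hU.gb.free
  have := hU.gb.fin
  have := SA.free (R := R) (A := A)
  have := SA.fin (R := R) (A := A)
  have hι : Injective (algebraMap O K) := IsFractionRing.injective O K
  let i := IsScalarTower.toAlgHom R O K
  have hO : IsDomain (O ⊗[R] S) := Function.Injective.isDomain (mp S i).toRingHom (mp_inj_of hι)
  obtain ⟨d, b, hd, hb⟩ := PurSP.clear (C := O) (g : K ⊗[R] A)
  have hν : algebraMap O K (μ₂ * d) ≠ 0 := (map_ne_zero_iff _ hι).2 (mul_ne_zero h0 hd)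
  have μ0 : μ ≠ 0 := (hU.gb.unit_sml hg).ne_zero
  have hF : algebraMap O K (μ₂ * d * d * μ₁) = μ ^ 1 * algebraMap O K (μ₂ * d) ^ 2 := by
    simp only [map_mul, ← hμ]
    ring
  have hc : (μ₂ • b) * cj R A O (μ₂ • b) = (μ₂ * d * d * μ₁) • (1 : O ⊗[R] A) := by
    refine mp_inj_of (f := i) hι ?_
    rw [map_mul, mp_cj, mp_smul, hb, smul_smul, map_smul, smul_mul_smul_comm, hg, mp_smul, map_one,
      Algebra.algebraMap_eq_smul_one (R := K), smul_smul]
    congr 1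
    change algebraMap O K μ₂ * _ * (algebraMap O K μ₂ * _) * _ = algebraMap O K _
    rw [hF, map_mul]
    ring
  have hsq : ∀ x : Kˣ, x ^ 2 ∈ PFMP.sub N ι m e K := fun x =>
    ⟨_, HQ.scal hU hn (x.isUnit.map (algebraMap K (K ⊗[R] S))) (by
      rw [io_alg, ← map_mul, Units.val_pow_eq_pow_val, pow_two])⟩
  obtain ⟨v, x, ⟨t, hx⟩, hv⟩ := pPF0 O K (PFMP.sub N ι m e K) 2 1 _ μ₁ μ₂ (Units.mk0 μ μ0)
    (Units.mk0 _ hν) hsq h0 hμ hF (fun π F' j hπ hdv hF' he => by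
      have w0 : ∀ v : Oˣ, algebraMap O K (v * π) ≠ 0 := fun v =>
        (map_ne_zero_iff _ hι).2 (mul_ne_zero v.ne_zero hπ.ne_zero)
      rcases Nat.even_or_odd' j with ⟨l, rfl | rfl⟩
      · refine ⟨1, (Units.mk0 _ (w0 1) ^ l) ^ 2, hsq _, ?_⟩
        rw [← pow_mul, mul_comm l, Units.val_pow_eq_pow_val, Units.val_mk0]
      suffices ∃ v : Oˣ, Units.mk0 _ (w0 v) ∈ PFMP.sub N ι m e K from
        this.elim fun v hv => ⟨v, _, pow_mem hv _, Units.val_pow_eq_pow_val _ _⟩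
      rcases (h1 R S O ι κ δ hq hO).1 π hu hπ with hp | ⟨ϖ, hϖ⟩
      · obtain ⟨v, g', g1, g2⟩ := hP π hπ hdv hp
          (pRes pResV R A O π F' l 1 (μ₂ • b) hπ hF' cj_one (by rw [hc, he, Units.val_one]))
        obtain ⟨m', rfl⟩ := hm
        refine ⟨v, algebraMap K _ (algebraMap O K (v * π) ^ m'), g', g1, ?_, ?_⟩
        · rw [g2, show k = m' * e by nlinarith, pow_mul, map_pow]
        · rw [io_alg, ← map_mul, ← pow_add, Units.val_mk0]
      · obtain ⟨-, v, hv⟩ := (h1 R S O ι κ δ hq hO).2.2 π ϖ hπ hϖ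
        have e1 := congrArg (mp S i) hv
        rw [map_mul, mp_io, mp_alg] at e1
        exact ⟨v, _, HQ.scal hU hn (isUnit_of_mul_isUnit_left
          (e1 ▸ (w0 v).isUnit.map (algebraMap K (K ⊗[R] S)))) e1.symm⟩)
  rw [hv, pow_one] at hx
  exact ⟨v, t, hx⟩

end Pool.Agent.P.MP_46a8f8_ag.GU
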