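import Pool.Agent.P.MP_46a8f8_ag.GU.Qc

/-!
Purity for the norm one torus over a factorial ring, from the norm principle at each split prime.
-/

namespace Pool.Agent.P.MP_46a8f8_ag.GU

open TensorProduct Function IsLocalRing

universe u

namespace PFTP

theorem exp_eq {C : Type u} [CommRing C] [IsDomain C] {ϖ a b : C} {p q : ℕ} (h : Prime ϖ)
    (ha : ¬ ϖ ∣ a) (hb : ¬ ϖ ∣ b) (e : ϖ ^ p * a = ϖ ^ q * b) : p = q := by
  have key : ∀ {a b : C} {p q : ℕ}, ¬ ϖ ∣ a → ϖ ^ p * a = ϖ ^ q * b → q ≤ p := by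
    intro a b p q ha e
    by_contra hl
    obtain ⟨r, rfl⟩ : ∃ r, q = p + (r + 1) := ⟨q - p - 1, by omega⟩
    rw [pow_add, mul_assoc] at e
    have := mul_left_cancel₀ (pow_ne_zero p h.ne_zero) e
    exact ha ⟨ϖ ^ r * b, by rw [this]; ring⟩
  exact le_antisymm (key hb e.symm) (key ha e)

variable {R S O : Type u} [CommRing R] [CommRing S] [Algebra R S] [CommRing O] [Algebra R O]
  {ι : S →ₐ[R] S} {κ : S} {δ : Rˣ}

theorem dvd_desc (hq : Qd ι κ δ) {π d : O}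
    (h : algebraMap O (O ⊗[R] S) π ∣ algebraMap O (O ⊗[R] S) d) : π ∣ d := by
  obtain ⟨z, hz⟩ := h
  obtain ⟨a, b, rfl⟩ := hq.dec z
  have h1 := hq.mul_dec π 0 a b
  rw [zero_tmul, add_zero, ← hz] at h1
  rw [← add_zero (algebraMap O (O ⊗[R] S) d), ← zero_tmul O κ] at h1
  exact ⟨a, by rw [(hq.ext h1).1]; ring⟩

theorem spl_dvd (hq : Qd ι κ δ) {π d : O} {ϖ : O ⊗[R] S} (hs : Spl ι π ϖ)
    (hn : ¬ ϖ ∣ io ι O ϖ) (h : ϖ ∣ algebraMap O (O ⊗[R] S) d) : π ∣ d := by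
  have h1 := map_dvd (io ι O) h
  rw [io_alg] at h1
  obtain ⟨q, hq'⟩ := h1
  obtain ⟨r, rfl⟩ := (hs.1.dvd_or_dvd (hq' ▸ h)).resolve_left hn
  exact dvd_desc hq (hs.2.symm.dvd.trans ⟨r, by rw [hq']; ring⟩)

end PFTP

open PFTP in
theorem pPFT (h1 : S_PF1.{u}) (h2 : S_Dich.{u}) (h3 : S_ResS.{u}) : S_PFT.{u} := by
  intro R S A O K _ _ _ _ _ _ _ _ _ _ _ _ _ _ _ _ _ _ _ n m e N ι κ δ x y F d g t t₀ hU hq hD hUF
    hg ht hd ht0 hF hP
  have := hU.gb.free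
  have := hU.gb.fin
  have hι : Injective (algebraMap O K) := IsFractionRing.injective O K
  obtain ⟨φ, hφ⟩ : ∃ φ, φ = mp S (IsScalarTower.toAlgHom R O K) := ⟨_, rfl⟩
  have hm : Injective φ := hφ ▸ mp_inj_of hι
  have hO : IsDomain (O ⊗[R] S) := Function.Injective.isDomain φ.toRingHom hm
  have φa : ∀ c : O, φ (algebraMap O _ c) = algebraMap K _ (algebraMap O K c) := fun c => by
    rw [hφ, mp_alg]
    rfl
  have φi : ∀ c, φ (io ι O c) = io ι K (φ c) := fun c => by rw [hφ, mp_io]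
  have ii : ∀ c, io ι O (io ι O c) = c := hU.cj.io_io
  have n0 : ∀ c : O, c ≠ 0 → algebraMap O (O ⊗[R] S) c ≠ 0 := fun c hc =>
    (map_ne_zero_iff _ (hU.gb.alg_inj O)).2 hc
  have φ0 : ∀ c, c ≠ 0 → φ c ≠ 0 := fun c hc => (map_ne_zero_iff _ hm).2 hc
  have φu : ∀ c, c ≠ 0 → IsUnit (φ c) := fun c hc =>
    (Algebra.IsIntegral.isIntegral (R := K) (φ c)).isUnit (φ0 c hc)
  rw [← hφ] at hg ht0 ⊢
  rw [Algebra.smul_def, ← φa] at ht0
  obtain ⟨h1a, h1b⟩ := h1 (O ⊗[R] S)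
  obtain ⟨a, s0, hr, ha⟩ := h1a (io ι O).toRingHom t₀ (algebraMap O _ d)
    (Units.map (algebraMap O (O ⊗[R] S) : O →* O ⊗[R] S) y) ii (n0 d hd) (io_alg d) (hm (by
      change φ (t₀ * io ι O t₀) = φ (_ * algebraMap O _ (y : O))
      rw [map_mul, φi, ← ht0, map_mul, ← φi, io_alg, map_mul, map_mul, φa (y : O), ← ht]
      ring))
  change IsRelPrime a (io ι O a) at hr
  change t₀ * io ι O a = _ at ha
  have a0 : a ≠ 0 := by
    rintro rfl
    exact not_isUnit_zero (hr dvd_rfl (by rw [map_zero]))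
  have ja0 : io ι O a ≠ 0 := fun h => a0 (by rw [← ii a, h, map_zero])
  have hja : io ι O a ∣ algebraMap O _ d := by
    refine hr.symm.dvd_of_dvd_mul_right (s0.dvd_mul_right.1 ⟨t₀, ?_⟩)
    rw [mul_comm _ t₀, ha]
    ring
  have hta : t * φ (io ι O a) = φ (s0 * a) := by
    refine mul_left_cancel₀ (φ0 _ (n0 d hd)) ?_
    rw [← mul_assoc, ht0, ← map_mul, ha, map_mul]
  obtain ⟨d', c, hd', hc⟩ := PurSP.clear (C := O) (g : K ⊗[R] A)
  have hNc : φ (N O c) = φ (algebraMap O _ d') ^ n * N K g := by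
    rw [hφ, hU.nf.nat, hc, hU.nf.smul, ← hφ, φa, map_pow]
  have hG : N O c * io ι O a ^ e =
      algebraMap O _ d' ^ n * (x * algebraMap O _ F) * (s0 * a) ^ e := hm (by
    rw [map_mul, hNc, hg, map_pow, mul_assoc, mul_assoc, ← mul_pow, hta, map_mul φ _ (_ ^ e),
      map_mul φ (_ ^ n), map_pow, map_pow, mul_assoc])
  have G0 : N O c ≠ 0 := fun h => by
    rw [h, map_zero] at hNc
    exact mul_ne_zero (pow_ne_zero n (φ0 _ (n0 d' hd'))) (g.isUnit.map (N K)).ne_zero hNc.symm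
  obtain ⟨s1, b, hb⟩ := h1b (K ⊗[R] S) (φ : O ⊗[R] S →* K ⊗[R] S)
    (MonoidHom.mrange ((N K).comp (Units.coeHom _))) e a a0 fun ϖ a' k hϖ h4 h5 h6 => by
      have h7 : ¬ ϖ ∣ io ι O a := fun h => hϖ.not_isUnit (hr h4 h)
      have h8 : ¬ ϖ ∣ io ι O ϖ := fun h => h7 (h.trans (map_dvd _ h4))
      obtain ⟨π, hπ, hs⟩ := (h2 R S O ι κ δ hq hO).2.1 ϖ hϖ h8
      have h9 : π ∣ d := spl_dvd hq hs h8 (by
        have := map_dvd (io ι O) hja
        rw [ii, io_alg] at this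
        exact h4.trans this)
      have h10 : ¬ ϖ ∣ algebraMap O _ F := fun h => by
        have h11 := (hs.2.symm.prime (hF π hπ (spl_dvd hq hs h8 h))).irreducible
        rcases h11.isUnit_or_isUnit rfl with h12 | h12
        · exact hϖ.not_isUnit h12
        · exact hϖ.not_isUnit (ii ϖ ▸ h12.map (io ι O))
      obtain ⟨j, G', h11, h12⟩ := WfDvdMonoid.max_power_factor G0 hϖ.irreducible
      obtain ⟨i, D', h13, h14⟩ := WfDvdMonoid.max_power_factor (n0 d' hd') hϖ.irreducible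
      have h15 : j = i * n + e * k := by
        refine exp_eq (a := G' * io ι O a ^ e)
          (b := D' ^ n * (x * algebraMap O _ F) * (s0 * a') ^ e) hϖ (fun h => ?_) (fun h => ?_) ?_
        · exact (hϖ.dvd_or_dvd h).elim h11 fun h => h7 (hϖ.dvd_of_dvd_pow h)
        · rcases hϖ.dvd_or_dvd h with h | h
          · rcases hϖ.dvd_or_dvd h with h | h
            · exact h13 (hϖ.dvd_of_dvd_pow h)
            · exact h10 (x.dvd_mul_left.1 h)
          · exact h5 (s0.dvd_mul_left.1 (hϖ.dvd_of_dvd_pow h))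
        · rw [← mul_assoc, ← h12, hG, h14]
          conv_lhs => rw [h6]
          ring
      obtain ⟨s, hs'⟩ := hP π ϖ j hπ h9 hs
        (h3 R S A O n j N ι π ϖ G' c hU hO hπ hs h11 h12)
      rw [← hφ] at hs'
      obtain ⟨w, hw⟩ := φu (s * ϖ) (mul_ne_zero s.ne_zero hϖ.ne_zero)
      have h16 : NK N K ((w ^ i : (K ⊗[R] S)ˣ) ^ n) :=
        ⟨Units.map (GAP.sm R S A K : K ⊗[R] S →* K ⊗[R] A) (w ^ i), hU.nf.cen K _⟩
      have h17 := hs'.mul (h16.inv (y := (((w ^ i)⁻¹ : (K ⊗[R] S)ˣ) : K ⊗[R] S) ^ n)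
        (by rw [← mul_pow, Units.mul_inv, one_pow]))
      refine ⟨s, ?_⟩
      obtain ⟨b, hb⟩ := h17
      refine ⟨b, hb.trans ?_⟩
      change _ = φ (s * ϖ) ^ (e * k)
      rw [h15, ← hw, pow_add, pow_mul, mul_right_comm, ← mul_pow, ← Units.val_pow_eq_pow_val,
        Units.mul_inv, one_pow, one_mul]
  change N K b = φ (s1 * a) ^ e at hb
  obtain ⟨u, u1, u2⟩ := hU.lyN hq b
  let s2 := Units.map (io ι O : O ⊗[R] S →* O ⊗[R] S) s1
  have hz : φ (s1 * (s0 * s2)⁻¹ : (O ⊗[R] S)ˣ) * t * io ι K (φ (s1 * a)) = φ (s1 * a) := by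
    rw [← φi, map_mul (io ι O), map_mul φ (io ι O s1), mul_mul_mul_comm, hta, ← map_mul,
      ← map_mul]
    congr 1
    change _ * (s2 : O ⊗[R] S) * _ = _
    rw [← mul_assoc, ← Units.val_mul, ← Units.val_mul, mul_assoc s1, mul_assoc s1,
      mul_assoc _ s2, mul_comm s2 s0, inv_mul_cancel, mul_one]
  have z0 : φ (s1 * a) ≠ 0 := φ0 _ (mul_ne_zero s1.ne_zero a0)
  have z1 : io ι K (φ (s1 * a)) ≠ 0 := fun h => z0 (by rw [← hz, h, mul_zero])
  refine ⟨s1 * (s0 * s2)⁻¹, u, u1, ?_, ?_⟩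
  · refine mul_right_cancel₀ (pow_ne_zero e z1) ?_
    rw [← mul_pow, hz, ← map_pow, ← hb, u2]
  · have h4 := congrArg (io ι K) hz
    rw [map_mul, hU.cj.io_io] at h4
    refine mul_right_cancel₀ z0 ?_
    rw [one_pow, map_one, one_mul, mul_assoc, h4, hz]

end Pool.Agent.P.MP_46a8f8_ag.GU
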