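import Pool.Agent.P.MP_46a8f8_ag.GU.Qc

/-!
Norms from extensions with matrix units and a square root, in dimension two.
-/

namespace Pool.Agent.P.MP_46a8f8_ag.GU

open TensorProduct Function IsLocalRing Polynomial

universe u

open PPmP in
theorem pPPms (h1 : S_Fin1i.{u}) (h2 : S_Sqr.{u}) : S_PPms.{u} := by
  intro R A O T D K _ _ _ _ _ _ _ _ _ _ _ _ _ _ _ _ _ _ _ _ _ _ _ _ _ n m δ π z h2u hn hs hπ hOT
    hz hq hk hg hy ⟨c, hc⟩
  obtain ⟨s0, hiff⟩ := pMUh R A n m hn
  have := hs.free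
  have := hs.fin
  let : Algebra R T := ((algebraMap O T).comp (algebraMap R O)).toAlgebra
  have hRT : ∀ r, algebraMap R T r = algebraMap O T (algebraMap R O r) := fun _ => rfl
  have : IsScalarTower R T D := IsScalarTower.of_algebraMap_eq fun r => by
    rw [hRT, ← IsScalarTower.algebraMap_apply, ← IsScalarTower.algebraMap_apply]
  have : IsNoetherianRing T := isNoetherian_of_tower O (inferInstance : IsNoetherian O T)
  have : Module.Finite O D :=
    Module.Finite.of_surjective (IsScalarTower.toAlgHom O T D).toLinearMap hq.1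
  have : Finite (MaximalSpectrum D) := finite_maximalSpectrum O D
  obtain ⟨φ', hφ'⟩ := (hiff D).1 hy
  have hcu : IsUnit (2 * c) := by
    have := (h2u.map (algebraMap R D)).mul (isUnit_of_mul_isUnit_left (hc ▸ δ.isUnit.map _))
    rwa [map_ofNat] at this
  obtain ⟨T', _, _, _, _, _, hq', hsq⟩ := h2 T D z (algebraMap R T δ) c hq hcu
    (by rw [← hc, ← IsScalarTower.algebraMap_apply])
  have : IsNoetherianRing T' := Algebra.FiniteType.isNoetherianRing T T'
  let : Algebra R T' := ((algebraMap T T').comp (algebraMap R T)).toAlgebra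
  have : IsScalarTower R T T' := IsScalarTower.of_algebraMap_eq fun _ => rfl
  have : IsScalarTower R T' D := IsScalarTower.of_algebraMap_eq fun r => by
    rw [IsScalarTower.algebraMap_apply R T T', ← IsScalarTower.algebraMap_apply,
      ← IsScalarTower.algebraMap_apply]
  obtain ⟨W, _, _, _, _, _, q, φ, _, _, _, w1, w2, w3⟩ := allNbh0 R (Matrix (Fin m) (Fin m) A) R
    (Matrix (Fin n) (Fin n) R) T' D (algebraMap T T' z) (algebraMap R T') φ' s0
    (IsSMulRegular.of_ne_zero hz).of_flat hq' (by rwa [← IsScalarTower.algebraMap_eq])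
  let : Algebra T W := ((algebraMap T' W).comp (algebraMap T T')).toAlgebra
  have : IsScalarTower T T' W := IsScalarTower.of_algebraMap_eq fun _ => rfl
  have : IsScalarTower R T W := IsScalarTower.of_algebraMap_eq fun r =>
    IsScalarTower.algebraMap_apply R T' W r
  have : Algebra.EssFiniteType T W := Algebra.EssFiniteType.comp T T' W
  have : Algebra.FormallyUnramified T W := Algebra.FormallyUnramified.comp T T' W
  have : Module.Flat T W := Module.Flat.trans T T' W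
  let : Algebra O W := ((algebraMap T W).comp (algebraMap O T)).toAlgebra
  have hOW : ∀ r, algebraMap O W r = algebraMap T W (algebraMap O T r) := fun _ => rfl
  have : IsScalarTower O T W := IsScalarTower.of_algebraMap_eq hOW
  have hi : Injective (algebraMap O W) := (injective_iff_map_eq_zero _).2 fun r hr => by
    by_contra h
    exact ne_zero_of_flat ((map_ne_zero_iff _ hOT).2 h) hr
  obtain ⟨L, _, _, _, -, l1, l2, l3⟩ := h1 O T W D K (q.restrictScalars T) (algebraMap T W z) π hπ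
    (ne_zero_of_flat hz) w1 w2 hq.1 hi hk hg
  let : Algebra R L := ((algebraMap K L).comp (algebraMap R K)).toAlgebra
  have hRL : ∀ r, algebraMap R L r = algebraMap K L (algebraMap R K r) := fun _ => rfl
  have hW : MS R A n m W := (hiff W).2 ⟨φ, by rwa [← IsScalarTower.algebraMap_eq] at w3⟩
  let g : W →ₐ[R] L := ⟨algebraMap W L, fun r => by
    change algebraMap W L (algebraMap R W r) = _
    rw [IsScalarTower.algebraMap_apply R T W, hRT, ← hOW, l1, hRL,
      ← IsScalarTower.algebraMap_apply R O K]⟩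
  refine ⟨L, inferInstance, inferInstance, inferInstance, IsScalarTower.of_algebraMap_eq hRL, l2,
    hW.map g, ?_, l3⟩
  have := hsq.map (g.comp (IsScalarTower.toAlgHom R T' W))
  rwa [← IsScalarTower.algebraMap_apply, AlgHom.commutes] at this

theorem PPmsP.sq {R O C : Type u} [CommRing R] [CommRing O] [Algebra R O] [CommRing C]
    [IsDomain C] [IsPrincipalIdealRing C] [Algebra R C] [Algebra O C] [IsScalarTower R O C]
    {π : O} {δ : R} (hk : ∀ r, algebraMap O C r = 0 ↔ π ∣ r) (h : SqP (algebraMap R O δ) π) :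
    IsSquare (algebraMap R C δ) := by
  obtain ⟨r, r', h1, h2⟩ := h
  have e := (hk _).2 h2
  rw [map_sub, map_mul, map_mul, map_mul, ← IsScalarTower.algebraMap_apply, sub_eq_zero] at e
  obtain ⟨c, hc⟩ : algebraMap O C r' ∣ algebraMap O C r :=
    (IsIntegrallyClosed.pow_dvd_pow_iff two_ne_zero).1 ⟨algebraMap R C δ, by
      rw [pow_two, pow_two, e, mul_comm]⟩
  have h0 : algebraMap O C r' ≠ 0 := fun h => h1 ((hk _).1 h)
  refine ⟨c, mul_left_cancel₀ (mul_ne_zero h0 h0) ?_⟩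
  rw [mul_comm, ← e, hc]
  ring

open PPbP PPb0P in
theorem pPPbs (h4 : S_PPms.{u}) : S_PPbs.{u} := by
  intro R A O K _ _ _ _ _ _ _ _ _ _ _ _ _ _ n m δ π h2u hn hS hd hπ hHP hsq
  classical
  have h1 : S_LatS.{u} := pLatS allBN
  have h2 : S_Ch2.{u} := pCh2
  have h3 : S_Mod2.{u} := pMod2 pHt1 pLP
  let 𝔭 : Ideal O := Ideal.span {π}
  have hp : 𝔭.IsPrime := (Ideal.span_singleton_prime hπ.ne_zero).2 hπ
  have hp0 : 𝔭 ≠ ⊥ := fun h => hπ.ne_zero (Ideal.span_singleton_eq_bot.1 h)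
  have hsurj : Surjective (algebraMap O (O ⧸ 𝔭)) := Ideal.Quotient.mk_surjective
  have hker : ∀ r, algebraMap O (O ⧸ 𝔭) r = 0 ↔ π ∣ r := fun r =>
    Ideal.Quotient.eq_zero_iff_mem.trans Ideal.mem_span_singleton
  by_cases hpm : 𝔭 = maximalIdeal O
  · have hmax : 𝔭.IsMaximal := hpm ▸ inferInstance
    have : IsPrincipalIdealRing (O ⧸ 𝔭) := by
      let _ := Ideal.Quotient.field 𝔭
      infer_instance
    have : Finite (MaximalSpectrum (O ⧸ 𝔭)) := by
      let _ := Ideal.Quotient.field 𝔭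
      infer_instance
    refine h4 R A O O (O ⧸ 𝔭) K n m δ π π h2u hn hS hπ (fun x y h => h) hπ.ne_zero ⟨hsurj, hker⟩ hker
      (fun d => ?_) (ms h1 hS hker hHP) (PPmsP.sq hker hsq)
    obtain ⟨r, rfl⟩ := hsurj d
    exact ⟨r, 1, hπ.not_dvd_one, one_smul _ _⟩
  obtain ⟨hd2, hq⟩ := dims hd hp0 hpm
  have : IsLocalRing (O ⧸ 𝔭) := IsLocalRing.of_surjective' (algebraMap O (O ⧸ 𝔭)) hsurj
  have hcm : ∀ 𝔫 : Ideal (O ⧸ 𝔭), 𝔫.IsMaximal →
      𝔫.comap (algebraMap O (O ⧸ 𝔭)) = maximalIdeal O := fun 𝔫 h𝔫 =>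
    IsLocalRing.eq_maximalIdeal (Ideal.comap_isMaximal_of_surjective _ hsurj)
  have : Ring.KrullDimLE 1 (O ⧸ 𝔭) := by
    refine Ring.KrullDimLE.mk₁' fun I hI0 hI => ?_
    refine Ideal.isMaximal_of_isIntegral_of_isMaximal_comap (R := O) I ?_
    have a1 : 𝔭 ≤ I.comap (algebraMap O (O ⧸ 𝔭)) := fun r hr => by
      rw [Ideal.mem_comap, (hker r).2 (Ideal.mem_span_singleton.1 hr)]
      exact I.zero_mem
    have a2 : 𝔭 ≠ I.comap (algebraMap O (O ⧸ 𝔭)) := by
      intro e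
      refine hI0 (eq_bot_iff.2 fun x hx => ?_)
      obtain ⟨r, rfl⟩ := hsurj x
      exact (hker r).2 (Ideal.mem_span_singleton.1 (e.ge hx))
    rw [hq (I.comap (algebraMap O (O ⧸ 𝔭))) inferInstance (lt_of_le_of_ne a1 a2)]
    infer_instance
  have hnf : ¬ IsField (O ⧸ 𝔭) := fun h =>
    hpm (IsLocalRing.eq_maximalIdeal (Ideal.Quotient.maximal_of_isField 𝔭 h))
  have hinf : ∀ 𝔫 : Ideal (O ⧸ 𝔭), 𝔫.IsMaximal → Infinite ((O ⧸ 𝔭) ⧸ 𝔫) := by
    intro 𝔫 h𝔫
    have : Infinite (O ⧸ 𝔫.comap (algebraMap O (O ⧸ 𝔭))) := by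
      rw [hcm 𝔫 h𝔫]
      exact inferInstanceAs (Infinite (ResidueField O))
    exact Infinite.of_injective _ (Ideal.quotientMap_injective (I := 𝔫) (f := algebraMap O (O ⧸ 𝔭)))
  have hreg : RegAt O (maximalIdeal O) 2 := by
    have : IsLocalization.AtPrime O (maximalIdeal O) :=
      IsLocalization.self fun x hx => show IsUnit x by simpa using hx
    exact (regAt O O (maximalIdeal O) 2).2 ⟨inferInstance, hd2⟩
  have hemb : Emb (O ⧸ 𝔭) 2 := by
    intro 𝔫 h𝔫
    obtain ⟨-, a, ha, hb⟩ := hreg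
    refine ⟨fun i => algebraMap O (O ⧸ 𝔭) (a i), fun i => ?_, fun x hx => ?_⟩
    · rw [← Ideal.mem_comap, hcm 𝔫 h𝔫]
      exact ha i
    · obtain ⟨y, rfl⟩ := hsurj x
      rw [← Ideal.mem_comap, hcm 𝔫 h𝔫] at hx
      obtain ⟨s, hs, hsy⟩ := hb y hx
      have hu : IsUnit s := by simpa using hs
      rw [Ideal.unit_mul_mem_iff_mem _ hu] at hsy
      refine Submodule.mem_sup_left ?_
      have := Ideal.mem_map_of_mem (algebraMap O (O ⧸ 𝔭)) hsy
      rwa [Ideal.map_span, ← Set.range_comp] at this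
  obtain ⟨Dt, _, _, _, _, hinj, hint, hfin, hfrac⟩ := ka (O ⧸ 𝔭)
  let _ : Algebra O Dt := ((algebraMap (O ⧸ 𝔭) Dt).comp (algebraMap O (O ⧸ 𝔭))).toAlgebra
  let _ : Algebra R Dt := ((algebraMap O Dt).comp (algebraMap R O)).toAlgebra
  have : IsScalarTower R O Dt := IsScalarTower.of_algebraMap_eq fun _ => rfl
  have hkt : ∀ r, algebraMap O Dt r = 0 ↔ π ∣ r := fun r =>
    (map_eq_zero_iff _ hinj).trans (hker r)
  obtain ⟨W, hW⟩ := ms_sub hS (ms h1 hS hkt hHP)
  obtain ⟨c, hc⟩ := PPmsP.sq hkt hsq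
  obtain ⟨D', hD'fin, hW', hemb'⟩ := h2 (O ⧸ 𝔭) Dt (insert c W) hinj hfrac hinf hemb
  let _ : Algebra O D' := ((algebraMap (O ⧸ 𝔭) D').comp (algebraMap O (O ⧸ 𝔭))).toAlgebra
  let _ : Algebra R D' := ((algebraMap O D').comp (algebraMap R O)).toAlgebra
  have : IsScalarTower R O D' := IsScalarTower.of_algebraMap_eq fun _ => rfl
  have : IsScalarTower O (O ⧸ 𝔭) D' := IsScalarTower.of_algebraMap_eq fun _ => rfl
  have : Module.Finite O D' := Module.Finite.trans (O ⧸ 𝔭) D'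
  have hinj' : Injective (algebraMap (O ⧸ 𝔭) D') := fun x y hxy =>
    hinj (congrArg Subtype.val hxy)
  have hk' : ∀ r, algebraMap O D' r = 0 ↔ π ∣ r := fun r =>
    (map_eq_zero_iff _ hinj').trans (hker r)
  have hnf' : ¬ IsField D' := fun h => hnf (isField_of_isIntegral_of_isField hinj' h)
  have hHy : MS R A n m D' :=
    hW D' { D'.val.toRingHom with commutes' := fun _ => rfl } Subtype.val_injective
      fun w hw => ⟨⟨w, hW' w (Finset.mem_insert_of_mem hw)⟩, rfl⟩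
  obtain ⟨T, _, _, _, _, _, z, _, hT, hz, hQ⟩ := h3 O D' hd2 hnf'
    (fun h => hπ.ne_zero (h (((hk' π).2 dvd_rfl).trans (map_zero _).symm))) hemb'
  refine h4 R A O T D' K n m δ π z h2u hn hS hπ hT hz hQ hk' (fun d => ?_) hHy
    ⟨⟨c, hW' c (Finset.mem_insert_self _ _)⟩, Subtype.ext hc⟩
  obtain ⟨a, b, hb, e⟩ := hfrac d
  obtain ⟨r, rfl⟩ := hsurj a
  obtain ⟨r', rfl⟩ := hsurj b
  refine ⟨r, r', fun h => hb ((hker r').2 h), Subtype.ext ?_⟩
  rw [Algebra.smul_def]
  exact e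


end Pool.Agent.P.MP_46a8f8_ag.GU
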