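import Pool.Agent.P.MP_46a8f8_ag.GU.Qc

/-!
Values over the fraction field are values over the ring.
-/

namespace Pool.Agent.P.MP_46a8f8_ag.GU

open TensorProduct Function IsLocalRing Polynomial

universe u

namespace PQaP

variable {R S A : Type u} [CommRing R] [CommRing S] [Algebra R S] [Ring A] [Algebra R A]
  [StarRing A] [SA R A] (N : NFam R S A) (ι : S →ₐ[R] S) (m e : ℕ) {T : Type u} [CommRing T]
  [Algebra R T]

/-- a value with given multiplier and given root -/
def E (x y : T ⊗[R] S) (μ : T) (t : T ⊗[R] S) : Prop :=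
  ∃ g : (T ⊗[R] A)ˣ, Sml R A T g μ ∧ N T g = x * t ^ e ∧
    algebraMap T (T ⊗[R] S) (μ ^ m) = y * (t * io ι T t)

variable {N ι m e}

theorem E.mul {x y t t' : T ⊗[R] S} {μ μ' : T} (h : E N ι m e x y μ t)
    (h' : HQ N ι m e T μ' t') : E N ι m e x y (μ * μ') (t * t') := by
  obtain ⟨g, h1, h2, h3⟩ := h
  obtain ⟨g', k1, k2, k3⟩ := h'
  refine ⟨g * g', h1.mul k1, by rw [Units.val_mul, map_mul, h2, k2, mul_pow, mul_assoc], ?_⟩
  rw [mul_pow, map_mul, h3, k3, map_mul]
  ring

theorem unit {t : T ⊗[R] S} {μ : T} (h : HQ N ι m e T μ t) (hμ : IsUnit μ) : IsUnit t := by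
  obtain ⟨-, -, -, h3⟩ := h
  exact isUnit_of_mul_isUnit_left (h3 ▸ (hμ.pow m).map _)

end PQaP

open PQaP in
theorem pPQa : S_PQa.{u} := by
  intro R S A O K _ _ _ _ _ _ _ _ _ _ _ _ _ _ _ _ n m e N ι hU hn hM hT hG x y ⟨g, μ, t, h1, h2, h3⟩
  have := hU.gb.free
  have := hU.gb.fin
  let f := IsScalarTower.toAlgHom R O K
  obtain ⟨μ, rfl⟩ := hU.gb.unit_sml h1
  obtain ⟨v, t', h4⟩ : ∃ (v : Oˣ) (t' : K ⊗[R] S), HQ N ι m e K (algebraMap O K v * μ) t' := by
    rcases hM with ⟨k, rfl⟩ | hM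
    · refine ⟨y⁻¹, _, HQ.scal hU hn
        (z := (t : K ⊗[R] S) * algebraMap K (K ⊗[R] S) (((μ⁻¹ : Kˣ) : K) ^ k))
        (t.isUnit.mul ((μ⁻¹.isUnit.pow k).map _)) ?_⟩
      have u1 : algebraMap K (K ⊗[R] S) (algebraMap O K y) *
          algebraMap K (K ⊗[R] S) (algebraMap O K (y⁻¹ : Oˣ)) = 1 := by
        rw [← map_mul, ← map_mul, y.mul_inv, map_one, map_one]
      have u2 : algebraMap K (K ⊗[R] S) ((μ : K) ^ k) *
          algebraMap K (K ⊗[R] S) (((μ⁻¹ : Kˣ) : K) ^ k) = 1 := by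
        rw [← map_mul, ← mul_pow, μ.mul_inv, one_pow, map_one]
      rw [pow_succ, two_mul, pow_add, map_mul, map_mul] at h3
      rw [map_mul, map_mul, io_alg]
      generalize algebraMap K (K ⊗[R] S) (algebraMap O K (y⁻¹ : Oˣ)) = Y' at *
      generalize algebraMap K (K ⊗[R] S) (((μ⁻¹ : Kˣ) : K) ^ k) = M' at *
      generalize algebraMap K (K ⊗[R] S) ((μ : K) ^ k) = M at *
      generalize algebraMap K (K ⊗[R] S) (μ : K) = μ₁ at *
      linear_combination (Y' * M' * M') * h3 + (t * io ι K t * M' * M') * u1 -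
        (Y' * μ₁ * (M * M' + 1)) * u2
    · exact hM g μ h1
  obtain ⟨t', rfl⟩ := unit h4 ((v.isUnit.map _).mul μ.isUnit)
  have h5 : E N ι m e (mp S f x) (algebraMap K _ (algebraMap O K y)) _ _ :=
    E.mul ⟨g, h1, h2, h3⟩ (h4.inv (μ' := algebraMap O K (v⁻¹ : Oˣ) * (μ⁻¹ : Kˣ)) (by
      rw [mul_mul_mul_comm, ← map_mul, v.mul_inv, μ.mul_inv, map_one, mul_one]) t'.mul_inv)
  rw [mul_left_comm, μ.mul_inv, mul_one, ← Units.val_mul] at h5
  generalize t * t'⁻¹ = t₁ at h5
  obtain ⟨s, h6⟩ : ∃ s : (O ⊗[R] S)ˣ, HQ N ι m e K 1 (mp S f s * t₁) := by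
    obtain ⟨g₁, -, k2, k3⟩ := h5
    refine hT x (y⁻¹ * v⁻¹ ^ m) g₁ t₁ k2 ?_
    rw [Units.val_mul, map_mul, map_mul, Units.val_pow_eq_pow_val, map_pow (algebraMap O K), k3,
      ← mul_assoc, ← map_mul, ← map_mul, y.inv_mul, map_one, map_one, one_mul]
  have h7 := h5.mul (h6.inv (t' := mp S f (s⁻¹ : (O ⊗[R] S)ˣ) * ((t₁⁻¹ : (K ⊗[R] S)ˣ) : K ⊗[R] S))
    (mul_one 1) (by
      rw [mul_mul_mul_comm, ← map_mul, s.mul_inv, t₁.mul_inv, map_one, mul_one]))
  rw [mul_one, mul_left_comm, t₁.mul_inv, mul_one] at h7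
  obtain ⟨g₂, k1, k2, k3⟩ := h7
  obtain ⟨a, a1, a2⟩ := hG v⁻¹ (x * (s⁻¹ : (O ⊗[R] S)ˣ) ^ e) g₂ k1 (by
    rw [k2, map_mul, map_pow])
  refine ⟨a, _, s⁻¹, a1, a2, mp_inj_of (f := f) (IsFractionRing.injective O K) ?_⟩
  rw [mp_alg, map_mul, map_mul, mp_alg, mp_io, map_pow]
  exact k3

namespace PQaP

/-- descent along a section -/
theorem core {R S A O K L : Type u} [CommRing R] [CommRing S] [Algebra R S] [Ring A]
    [Algebra S A] [Algebra R A] [IsScalarTower R S A] [StarRing A] [SA R A] [CommRing O]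
    [Algebra R O] [CommRing K] [Algebra R K] [CommRing L] [Algebra R L] [Algebra O L]
    [IsScalarTower R O L] {n m e : ℕ} {N : NFam R S A} {ι : S →ₐ[R] S} (hN : NF n N)
    (φ : K →ₐ[R] L) (ev : O →ₐ[R] R) (hP : PQ N ι m e O L) : PQ N ι m e R K := by
  intro x y h
  let j : R →ₐ[R] O := IsScalarTower.toAlgHom R R O
  have e1 : φ.comp (IsScalarTower.toAlgHom R R K) = (IsScalarTower.toAlgHom R O L).comp j :=
    Subsingleton.elim _ _
  have e2 : ev.comp j = AlgHom.id R R := Subsingleton.elim _ _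
  have h1 := h.map hN φ
  rw [H90P.mp_mp, e1, ← H90P.mp_mp, φ.commutes, IsScalarTower.algebraMap_apply R O L] at h1
  have h2 : EQ N ι m e O (mp S j x) (algebraMap R O y) :=
    hP (um j x) (Units.map (j : R →* O) y) h1
  have h3 := h2.map hN ev
  rwa [H90P.mp_mp, e2, H90P.mp_id, ev.commutes] at h3

/-- an extension with a section and an infinite special fibre -/
theorem cov (R B : Type u) [CommRing R] [IsDomain R] [IsLocalRing R] [CommRing B] [IsLocalRing B]
    [Algebra B R] [IsLocalHom (algebraMap B R)] [Algebra.FormallySmooth B R]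
    [Algebra.EssFiniteType B R] :
    ∃ (O : Type u) (_ : CommRing O) (_ : IsDomain O) (_ : IsLocalRing O) (_ : Algebra B O)
      (_ : Algebra R O) (_ : O →ₐ[R] R), IsLocalHom (algebraMap B O) ∧
      Algebra.FormallySmooth B O ∧ Algebra.EssFiniteType B O ∧ Dm R O ∧
      Infinite (O ⧸ (maximalIdeal B).map (algebraMap B O)) := by
  let 𝔮 := (maximalIdeal R).comap (evalRingHom (0 : R))
  let O := Localization.AtPrime 𝔮
  have : Algebra.EssFiniteType R O := Algebra.EssFiniteType.comp R R[X] O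
  have : Algebra.FormallySmooth R O := inferInstance
  have hu : ∀ s : 𝔮.primeCompl, IsUnit (aeval (0 : R) (s : R[X])) := fun s => by
    by_contra hn
    exact s.2 (show evalRingHom (0 : R) s ∈ maximalIdeal R by
      simpa [coe_aeval_eq_eval] using hn)
  let ev : O →ₐ[R] R := IsLocalization.liftAlgHom (M := 𝔮.primeCompl) (f := aeval (0 : R)) hu
  have hev : ∀ r : R, ev (algebraMap R O r) = r := ev.commutes
  refine ⟨O, _, inferInstance, inferInstance, inferInstance, inferInstance, ev, ⟨fun b hb => ?_⟩,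
    Algebra.FormallySmooth.comp B R O, Algebra.EssFiniteType.comp B R O,
    (pDm R R[X] (pDm R R (FNdP.dm_self R)).1).2 O 𝔮.primeCompl
      𝔮.primeCompl_le_nonZeroDivisors, ?_⟩
  · have h5 := hb.map ev
    rw [IsScalarTower.algebraMap_apply B R O, hev] at h5
    exact IsUnit.of_map (algebraMap B R) b h5
  let k := ResidueField R
  let χ : R[X] →+* FractionRing k[X] :=
    (algebraMap k[X] (FractionRing k[X])).comp (mapRingHom (residue R))
  have hχ : ∀ s : 𝔮.primeCompl, IsUnit (χ (s : R[X])) := fun s => by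
    refine isUnit_iff_ne_zero.2 fun h0 => s.2 ?_
    have h5 : (s : R[X]).map (residue R) = 0 :=
      IsFractionRing.injective k[X] (FractionRing k[X]) (h0.trans (map_zero _).symm)
    have h6 := congrArg (fun q => q.coeff 0) h5
    simp only [coeff_map, coeff_zero, residue_eq_zero_iff] at h6
    change eval 0 (s : R[X]) ∈ maximalIdeal R
    rwa [← coeff_zero_eq_eval_zero]
  let ψ : O →+* FractionRing k[X] := IsLocalization.lift hχ
  have hψ : (maximalIdeal B).map (algebraMap B O) ≤ RingHom.ker ψ := by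
    refine Ideal.map_le_iff_le_comap.2 fun b hb => ?_
    have h5 : residue R (algebraMap B R b) = 0 :=
      (residue_eq_zero_iff _).2 (map_nonunit (algebraMap B R) b hb)
    change ψ (algebraMap B O b) = 0
    rw [IsScalarTower.algebraMap_apply B R[X] O, IsLocalization.lift_eq,
      Polynomial.algebraMap_apply]
    simp [χ, h5]
  refine Infinite.of_injective (fun n : ℕ => Ideal.Quotient.mk _ (algebraMap R[X] O (X ^ n)))
    fun m n hmn => ?_
  have h5 := hψ (Ideal.Quotient.eq.1 hmn)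
  rw [RingHom.mem_ker, map_sub, sub_eq_zero, IsLocalization.lift_eq,
    IsLocalization.lift_eq] at h5
  have h6 : (X ^ m : R[X]).map (residue R) = (X ^ n : R[X]).map (residue R) :=
    IsFractionRing.injective k[X] (FractionRing k[X]) h5
  have h7 := congrArg natDegree h6
  simpa using h7

end PQaP

theorem pPQu (h1 : S_PQa.{u}) (h2 : S_PurM.{u}) (h3 : S_PurT.{u}) (h4 : S_GNu.{u}) :
    S_PQu.{u} := by
  intro R S A B K _ _ _ _ _ _ _ _ _ _ _ _ _ _ _ _ _ _ _ n m e N ι κ δ hd hU hq hy hn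
  have : IsDomain R := (IsFractionRing.injective R K).isDomain _
  obtain ⟨O, _, _, _, _, _, ev, _, _, _, hD, hI⟩ := PQaP.cov R B
  have := hU.gb.dom
  have := hU.gb.free
  have hL : Dm R (FractionRing O) := (pDm R O hD).2 (FractionRing O) (nonZeroDivisors O) le_rfl
  have hi : Injective (Algebra.ofId R (FractionRing O)) := fun a b hab => by
    have h5 : algebraMap O (FractionRing O) (algebraMap R O a) =
        algebraMap O (FractionRing O) (algebraMap R O b) := by
      rw [← IsScalarTower.algebraMap_apply, ← IsScalarTower.algebraMap_apply]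
      exact hab
    have h6 := congrArg ev (IsFractionRing.injective O (FractionRing O) h5)
    rwa [ev.commutes, ev.commutes] at h6
  exact PQaP.core hU.nf (IsFractionRing.liftAlgHom (K := K) hi) ev
    (h1 R S A O (FractionRing O) n m e N ι hU hn
      ((Nat.even_or_odd m).symm.imp_right fun hm =>
        h2 R S A B O (FractionRing O) n m e N ι κ δ hd hU hq hy hL hn hm hI)
      (h3 R S A B O (FractionRing O) n m e N ι κ δ hd hU hq (hL S) hI)
      (h4 R S A B O (FractionRing O) n N ι κ δ hd hU hq hy hD hI))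

end Pool.Agent.P.MP_46a8f8_ag.GU
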