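import Pool.Agent.P.MP_46a8f8_ag.GU.Qc

/-!
From a trivialised cocycle of inner automorphisms to a central gerbe.
-/

namespace Pool.Agent.P.MP_46a8f8_ag.GU

open TensorProduct Function IsLocalRing

universe u

namespace PipeP

theorem semi (R T : Type u) [CommRing R] [Finite (MaximalSpectrum R)] [CommRing T]
    [Algebra R T] [Module.Finite R T] : Finite (MaximalSpectrum T) := by
  have : ∀ m : MaximalSpectrum R, Finite (m.asIdeal.primesOver T) := fun m => by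
    have := m.isMaximal
    exact (Algebra.QuasiFinite.finite_primesOver (R := R) (S := T) m.asIdeal).to_subtype
  exact Finite.of_injective (fun 𝔫 : MaximalSpectrum T =>
    (⟨⟨𝔫.asIdeal.comap (algebraMap R T), by
      have := 𝔫.isMaximal
      exact Ideal.isMaximal_comap_of_isIntegral_of_isMaximal _⟩,
      ⟨𝔫.asIdeal, 𝔫.isMaximal.isPrime, ⟨rfl⟩⟩⟩ : Σ m : MaximalSpectrum R, m.asIdeal.primesOver T))
    fun a b hab => MaximalSpectrum.ext
      (congrArg (fun x : Σ m : MaximalSpectrum R, m.asIdeal.primesOver T => x.2.1) hab)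

variable {R S A O O₁ : Type u} [CommRing R] [CommRing S] [Algebra R S] [Ring A] [Algebra S A]
  [Algebra R A] [IsScalarTower R S A] [CommRing O] [Algebra R O] [CommRing O₁] [Algebra R O₁]

omit [IsScalarTower R S A] in
theorem mp1 {T T' : Type u} [CommRing T] [Algebra R T] [CommRing T'] [Algebra R T']
    (f : T →ₐ[R] T') (a : A) : mp A f ((1 : T) ⊗ₜ[R] a) = (1 : T') ⊗ₜ[R] a := by
  rw [H90P.mp_tmul, map_one]

/-- the automorphism is inner over a semilocal ring -/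
theorem inner [Finite (MaximalSpectrum O₁)] (hG : GB R S A) (r : O →ₐ[R] O₁)
    (ψ : O ⊗[R] A ≃ₐ[O] O ⊗[R] A)
    (hψ : ∀ s : S, ψ ((1 : O) ⊗ₜ[R] algebraMap S A s) = (1 : O) ⊗ₜ[R] algebraMap S A s) :
    ∃ a : (O₁ ⊗[R] A)ˣ, ∀ x, mp A r (ψ x) * a = a * mp A r x := by
  obtain ⟨ψ', h'⟩ := exists_bce r ψ
  have := hG.fin
  have := hG.finA
  have := hG.freeA
  have : Module.Finite R A := Module.Finite.trans S A
  have := semi O₁ (O₁ ⊗[R] S)
  let := GAP.alg R S A O₁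
  have : Module.Free (O₁ ⊗[R] S) (O₁ ⊗[R] A) := GAP.free_bc
  have := GAP.tower_bc (R := R) (S := S) (A := A) (O := O₁)
  have : Module.Finite (O₁ ⊗[R] S) (O₁ ⊗[R] A) :=
    Module.Finite.of_restrictScalars_finite O₁ _ _
  let φ : (O₁ ⊗[R] A) ≃ₐ[O₁ ⊗[R] S] (O₁ ⊗[R] A) :=
    AlgEquiv.ofRingEquiv (f := ψ'.toRingEquiv) <| by
      intro c
      change ψ' (GAP.sm R S A O₁ c) = GAP.sm R S A O₁ c
      induction c using TensorProduct.induction_on with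
      | zero => simp
      | add c c' e e' => rw [map_add, map_add, e, e']
      | tmul o s =>
        rw [GAP.sm_tmul, tmul_eq_smul_one_tmul, map_smul, ← mp1 r, h', hψ]
  obtain ⟨a, ha⟩ := allSN (O₁ ⊗[R] S) (O₁ ⊗[R] A) φ (GAP.az_bc hG.az)
  exact ⟨a, fun x => by rw [← h']; exact ha _⟩

/-- the central element attached to an arrow -/
theorem key (hG : GB R S A) {ρ : Rel R A O} {c : AutF R A O} {ψ : O ⊗[R] A ≃ₐ[O] O ⊗[R] A}
    (hA : AC ρ c) (hC : Cob c ψ) {r : O →ₐ[R] O₁} {a : (O₁ ⊗[R] A)ˣ}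
    (ha : ∀ x, mp A r (ψ x) * a = a * mp A r x) {T : Type u} [CommRing T] [Algebra R T]
    (i j : O₁ →ₐ[R] T) {h : T ⊗[R] A} (hρ : ρ T (i.comp r) (j.comp r) h) :
    ∃ z, h * mp A i a = mp A j a * GAP.sm R S A T z := by
  have e : ∀ (i : O₁ →ₐ[R] T) (x : A), mp A (i.comp r) (ψ ((1 : O) ⊗ₜ[R] x)) * um i a =
      um i a * (1 : T) ⊗ₜ[R] x := fun i x => by
    have := congrArg (mp A i) (ha ((1 : O) ⊗ₜ[R] x))
    rwa [map_mul, map_mul, H90P.mp_mp, mp1, mp1] at this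
  obtain ⟨z, hz⟩ := hG.cen (z := (((um j a)⁻¹ : (T ⊗[R] A)ˣ) : T ⊗[R] A) *
      (h * (um i a : T ⊗[R] A))) fun x => by
    have e1 := hA.inn T _ _ h (mp A (i.comp r) (ψ ((1 : O) ⊗ₜ[R] x))) hρ
    rw [hC] at e1
    refine (Units.mul_right_inj (um j a)).1 ?_
    rw [← mul_assoc, Units.mul_inv_cancel_left, ← mul_assoc, ← e j, mul_assoc, ← e i, ← mul_assoc,
      ← e1, mul_assoc _ (um j a : T ⊗[R] A), Units.mul_inv_cancel_left, mul_assoc]
  refine ⟨z, ?_⟩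
  rw [hz]
  exact (Units.mul_inv_cancel_left (um j a) _).symm

end PipeP

theorem pPipe (h1 : S_Semi.{u}) : S_Pipe.{u} := by
  intro R S A K O _ _ _ _ _ _ _ _ _ _ _ _ _ G m ρ c ψ hG hQ hA hC hψ hK H
  obtain ⟨O₁, _, _, r, _, _, hK₁⟩ := h1 R O K hK
  obtain ⟨a, ha⟩ := PipeP.inner hG r ψ hψ
  let l : Rel R S O₁ := fun T _ _ i j z =>
    ∃ h, ρ T (i.comp r) (j.comp r) h ∧ h * mp A i a = mp A j a * GAP.sm R S A T z
  have hb : Gb l := by
    refine ⟨?_, ?_, ?_, ?_⟩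
    · rintro T T' _ _ _ _ f p q z ⟨h, h2, h3⟩
      refine ⟨mp A f h, hQ.map T T' f _ _ h h2, ?_⟩
      have := congrArg (mp A f) h3
      rwa [map_mul, map_mul, H90P.mp_mp, H90P.mp_mp, mp_sm] at this
    · rintro T _ _ p q t g z ⟨h, h2, h3⟩ ⟨h', h2', h3'⟩
      refine ⟨h * h', hQ.mul T _ _ _ _ _ h2 h2', ?_⟩
      rw [mul_assoc, h3', ← mul_assoc, h3, map_mul, mul_assoc]
    · intro T _ _ p
      exact ⟨1, hQ.one T _, by rw [map_one, one_mul, mul_one]⟩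
    · intro T _ _ p q
      obtain ⟨T', _, _, _, _, h, hf, h2⟩ := hQ.loc T (p.comp r) (q.comp r)
      obtain ⟨z, hz⟩ := PipeP.key hG hA hC ha ((IsScalarTower.toAlgHom R T T').comp p)
        ((IsScalarTower.toAlgHom R T T').comp q) h2
      exact ⟨T', inferInstance, inferInstance, inferInstance, inferInstance, z, hf, h, h2, hz⟩
  have hw : Pw m l := by
    rintro T _ _ p q z z' ⟨h, h2, h3⟩ ⟨h', h2', h3'⟩
    obtain ⟨ζ, ⟨z1, z2⟩, rfl⟩ := hQ.uniq T _ _ h h' h2 h2'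
    rw [mul_assoc, z2, ← mul_assoc, h3, mul_assoc] at h3'
    have e : GAP.sm R S A T z * ζ = GAP.sm R S A T z' := (Units.mul_right_inj (um q a)).1 h3'
    refine hG.sm_inj T ?_
    rw [map_pow, map_pow, ← e, Commute.mul_pow (z2 _).symm, z1, mul_one]
  obtain ⟨O', _, _, r', a₀, w, b, _, hb1, hb2, hb3⟩ := H O₁ r a l hK₁ ha hb hw
    fun T _ _ i j z ⟨h, h2, h3⟩ => ⟨h, hQ.mem T _ _ h h2, h3⟩
  refine hQ.fin O' (r'.comp r) b hb1 fun T _ _ i j h h2 => ?_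
  obtain ⟨z, hz⟩ := PipeP.key hG hA hC ha (i.comp r') (j.comp r') h2
  have e1 := hb3 T i j z ⟨h, h2, hz⟩
  have e2 : ∀ i : O' →ₐ[R] T, mp A i b * GAP.sm R S A T (mp S i w) =
      mp A (i.comp r') a * (1 : T) ⊗ₜ[R] a₀ := fun i => by
    have := congrArg (mp A i) hb2
    rwa [map_mul, map_mul, H90P.mp_mp, mp_sm, PipeP.mp1] at this
  have e3 : mp S i w * mp S i (w⁻¹ : (O' ⊗[R] S)ˣ) = 1 := by
    rw [← map_mul, Units.mul_inv, map_one]
  refine ⟨GAP.sm R S A T (z * mp S j w * mp S i (w⁻¹ : (O' ⊗[R] S)ˣ)),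
    ⟨?_, GAP.sm_comm R S A T _⟩, ?_⟩
  · rw [← map_pow, mul_pow, e1, ← mul_pow, e3, one_pow, map_one]
  · rw [map_mul, mul_comm z, map_mul, ← mul_assoc, ← mul_assoc, e2 j, mul_assoc (mp A _ _),
      ← GAP.sm_comm R S A T z, ← mul_assoc, ← hz, mul_assoc h, ← e2 i, mul_assoc h, mul_assoc,
      ← map_mul, e3, map_one, mul_one]

theorem pSim : S_Sim.{u} := by
  intro R S A O O₁ _ _ _ _ _ _ _ _ _ _ _ _ _ ι ψ r a hG hC hψ ha
  obtain ⟨z, hz⟩ := hG.cen (z := cj R A O₁ a * (a : O₁ ⊗[R] A)) fun y => by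
    have e1 := ha ((1 : O) ⊗ₜ[R] y)
    have e2 := congrArg (cj R A O₁) (ha (cj R A O ((1 : O) ⊗ₜ[R] y)))
    rw [cj_mul, cj_mul, hψ, mp_cj, mp_cj, cj_cj, cj_cj, PipeP.mp1] at e2
    rw [PipeP.mp1] at e1
    rw [mul_assoc, ← e1, ← mul_assoc, e2, mul_assoc]
  obtain ⟨t, rfl⟩ := hC.fix O₁ z (hG.sm_inj O₁ (by rw [← hC.cj_sm, hz, cj_mul, cj_cj]))
  rw [AlgHom.commutes] at hz
  have hs : Sml R A O₁ a t :=
    (Units.mul_left_inj a).1 (by rw [mul_assoc, ← hz, Algebra.commutes])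
  obtain ⟨μ, rfl⟩ := hG.unit_sml hs
  exact ⟨μ, hs⟩

end Pool.Agent.P.MP_46a8f8_ag.GU
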