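import Pool.Agent.P.MP_46a8f8_ag.GU.Qc

/-!
Purity for the multiplier over essentially smooth algebras.
-/

namespace Pool.Agent.P.MP_46a8f8_ag.GU

open TensorProduct Function IsLocalRing Polynomial

universe u

theorem PurMP.npi (h2 : S_NPJ.{u}) (h3 : S_NSq.{u}) {R S A O K : Type u} [CommRing R] [CommRing S]
    [Algebra R S] [Ring A] [Algebra S A] [Algebra R A] [IsScalarTower R S A] [StarRing A] [SA R A]
    [CommRing O] [IsDomain O] [UniqueFactorizationMonoid O] [Algebra R O] [Field K] [Infinite K]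
    [Algebra R K] [Algebra O K] [IsScalarTower R O K] [IsFractionRing O K] {n k : ℕ}
    {N : NFam R S A} {ι : S →ₐ[R] S} {κ : S} {δ : Rˣ} (hU : UC A n N ι) (hq : Qd ι κ δ)
    (hT : Ty R A) (hk : n = 2 * k) (hD : Dm R K) {π : O} (hπ : Prime π)
    (hp : Prime (algebraMap O (O ⊗[R] S) π)) (h : NH R A O K π) : NPI N k K π := by
  have := hU.gb.free
  have := hU.gb.dom
  obtain ⟨L, _, _, _, _, _, hy, f, v, hf, e⟩ := h
  obtain ⟨g, g1, g2⟩ := h2 R S A K L n k N ι κ δ f hU hq hT hk hD hy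
    (h3 R S O K L ι κ δ π v f hq (hD S) hπ hp e) hf
  exact ⟨v, g, e ▸ g1, e ▸ g2⟩

theorem pPurM (h1 : S_PFM.{u}) (h2 : S_NPJ.{u}) (h3 : S_NSq.{u}) (h6 : S_UFO.{u})
    (h7 : S_UFL.{u}) : S_PurM.{u} := by
  intro R S A B O K _ _ _ _ _ _ _ _ _ _ _ _ _ _ _ _ _ _ _ _ _ _ _ n m e N ι κ δ hd hU hq hT hD hn'
    hm hinf g μ hg
  obtain ⟨_, _, _, h𝔓, hgeo, hO1, hO2⟩ := lev B O hd
  have := hU.gb.free
  have := hU.gb.fin
  have := hU.gb.et
  have := hU.gb.dom
  obtain ⟨k, hk⟩ : 2 ∣ n := hn' ▸ hm.two_dvd.mul_right e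
  have : Infinite O := Infinite.of_surjective _
    (Ideal.Quotient.mk_surjective (I := (maximalIdeal B).map (algebraMap B O)))
  have : Infinite K := Infinite.of_injective _ (IsFractionRing.injective O K)
  set 𝔓 := (maximalIdeal B).map (algebraMap B O) with h𝔓def
  let O' := Localization.AtPrime 𝔓
  have : UniqueFactorizationMonoid O' := inferInstance
  have : Infinite (ResidueField O') :=
    Infinite.of_injective _ 𝔓.injective_algebraMap_quotient_residueField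
  have hK : ∀ x : O, x ≠ 0 → IsUnit (algebraMap O K x) := fun x hx =>
    ((map_ne_zero_iff _ (IsFractionRing.injective O K)).2 hx).isUnit
  have hn : ∀ x : O, x ∉ 𝔓 → x ≠ 0 := fun x hx e => hx (e ▸ 𝔓.zero_mem)
  let : Algebra O' K := (IsLocalization.lift (M := 𝔓.primeCompl) (g := algebraMap O K)
    fun y => hK y (hn y y.2)).toAlgebra
  have : IsScalarTower O O' K := IsScalarTower.of_algebraMap_eq fun x =>
    (IsLocalization.lift_eq (M := 𝔓.primeCompl) _ x).symm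
  have : IsScalarTower R O' K := IsScalarTower.of_algebraMap_eq fun x => by
    rw [IsScalarTower.algebraMap_apply R O O', ← IsScalarTower.algebraMap_apply O O' K,
      ← IsScalarTower.algebraMap_apply]
  have : IsFractionRing O' K :=
    IsFractionRing.isFractionRing_of_isDomain_of_isLocalization 𝔓.primeCompl O' K
  have hD' := hD S
  have d1 : IsDomain (O ⊗[R] S) := Function.Injective.isDomain
    (mp S (IsScalarTower.toAlgHom R O K)).toRingHom (mp_inj_of (IsFractionRing.injective O K))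
  have d2 : IsDomain (O' ⊗[R] S) := Function.Injective.isDomain
    (mp S (IsScalarTower.toAlgHom R O' K)).toRingHom (mp_inj_of (IsFractionRing.injective O' K))
  have u1 := h6 R S B O hd d1
  have u2 := h7 R S O O' 𝔓.primeCompl d1 d2 u1
  obtain ⟨⟨μ₁, μ₂⟩, hμ⟩ := IsLocalization.surj (nonZeroDivisors O') μ
  obtain ⟨v', t', hv'⟩ := h1 R S A O' K n m e k N ι κ δ g μ μ₁ μ₂ hU hq hD' u2 hn' hk hm hg
    (nonZeroDivisors.coe_ne_zero μ₂) (by rw [mul_comm]; exact hμ)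
    fun π hπ _ hp hH => PurMP.npi h2 h3 hU hq hT hk hD hπ hp
      (pPPb pHypD pCh2 (pMod2 pHt1 pLP) (pPPm allNbh allFin1) R A O' K π hO2 hπ hH)
  obtain ⟨⟨a, b⟩, hab⟩ := IsLocalization.surj 𝔓.primeCompl (v' : O')
  have ha : a ∉ 𝔓 := (IsLocalization.AtPrime.isUnit_to_map_iff O' 𝔓 a).1
    (hab ▸ v'.isUnit.mul (IsLocalization.map_units O' b))
  have hG' : a * (b : O) ∉ 𝔓 := fun hh => (h𝔓.mem_or_mem hh).elim ha b.2
  have e1 : algebraMap O K b * algebraMap O' K v' = algebraMap O K a := by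
    rw [IsScalarTower.algebraMap_apply O O' K, IsScalarTower.algebraMap_apply O O' K a,
      ← map_mul, mul_comm, hab]
  obtain ⟨g', g1, -⟩ := id hv'
  have μ0 : μ ≠ 0 := (hU.gb.unit_sml hg).ne_zero
  have e2 := g1.mul (hg.inv (mul_inv_cancel₀ μ0))
  rw [mul_inv_cancel_right₀ μ0] at e2
  obtain ⟨v, t, hv⟩ := h1 R S A O K n m e k N ι κ δ _ _ a b hU hq hD' u1 hn' hk hm e2 (hn b b.2) e1
    fun π hπ hb hp hH => PurMP.npi h2 h3 hU hq hT hk hD hπ hp
      (pPPa allNbh allFin1 R A O K π hπ (hgeo π hπ fun hh => hG' (Ideal.mem_of_dvd 𝔓 hb hh)) hH)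
  have v0 : algebraMap O' K v' ≠ 0 := (v'.isUnit.map _).ne_zero
  have w0 : algebraMap O K v ≠ 0 := (v.isUnit.map _).ne_zero
  obtain ⟨-, -, -, e3⟩ := id hv
  obtain ⟨t₁, ht₁⟩ := (isUnit_of_mul_isUnit_left
    (e3 ▸ ((mul_ne_zero w0 v0).isUnit.pow m).map _)).exists_right_inv
  have e4 := (hv.inv (mul_inv_cancel₀ (mul_ne_zero w0 v0)) ht₁).mul hv'
  refine ⟨v⁻¹, t₁ * t', ?_⟩
  rwa [mul_inv, mul_assoc, inv_mul_cancel_left₀ v0, ← map_units_inv] at e4

end Pool.Agent.P.MP_46a8f8_ag.GU
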