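import Pool.Agent.P.MP_46a8f8_ag.GU.Qc

/-!
Purity for the norm one torus over essentially smooth algebras.
-/

namespace Pool.Agent.P.MP_46a8f8_ag.GU

open TensorProduct Function IsLocalRing Polynomial

universe u

theorem pPurT (h1 : S_PFT.{u}) (h2 : S_NSp.{u}) (h3 : S_Dich.{u}) (h4 : S_PPas.{u})
    (h5 : S_PPbs.{u}) (h6 : S_UFO.{u}) (h7 : S_UFL.{u}) : S_PurT.{u} := by
  intro R S A B O K _ _ _ _ _ _ _ _ _ _ _ _ _ _ _ _ _ _ _ _ _ _ _ n m e N ι κ δ hd hU hq hD hinf
    x y g t hg ht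
  obtain ⟨_, _, _, h𝔓, hgeo, hO1, hO2⟩ := lev B O hd
  have := hU.gb.free
  have := hU.gb.fin
  have := hU.gb.et
  set 𝔓 := (maximalIdeal B).map (algebraMap B O) with h𝔓def
  let O' := Localization.AtPrime 𝔓
  have : UniqueFactorizationMonoid O' := inferInstance
  have : Infinite (ResidueField O') :=
    Infinite.of_injective _ 𝔓.injective_algebraMap_quotient_residueField
  have hK : ∀ x : O, x ≠ 0 → IsUnit (algebraMap O K x) := fun x hx =>
    ((map_ne_zero_iff _ (IsFractionRing.injective O K)).2 hx).isUnit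
  have hn : ∀ x : O, x ∉ 𝔓 → x ≠ 0 := fun x hx e => hx (e ▸ 𝔓.zero_mem)
  let : Algebra O' K := (IsLocalization.lift (M := 𝔓.primeCompl) (g := algebraMap O K)
    fun y => hK y (hn y y.2)).toAlgebra
  have : IsScalarTower O O' K := IsScalarTower.of_algebraMap_eq fun x =>
    (IsLocalization.lift_eq (M := 𝔓.primeCompl) _ x).symm
  have : IsScalarTower R O' K := IsScalarTower.of_algebraMap_eq fun x => by
    rw [IsScalarTower.algebraMap_apply R O O', ← IsScalarTower.algebraMap_apply O O' K,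
      ← IsScalarTower.algebraMap_apply]
  have : IsFractionRing O' K :=
    IsFractionRing.isFractionRing_of_isDomain_of_isLocalization 𝔓.primeCompl O' K
  let f := IsScalarTower.toAlgHom R O O'
  let i := IsScalarTower.toAlgHom R O' K
  have hf : i.comp f = IsScalarTower.toAlgHom R O K :=
    AlgHom.ext fun x => (IsScalarTower.algebraMap_apply O O' K x).symm
  have d1 : IsDomain (O ⊗[R] S) := Function.Injective.isDomain
    (mp S (IsScalarTower.toAlgHom R O K)).toRingHom (mp_inj_of (IsFractionRing.injective O K))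
  have d2 : IsDomain (O' ⊗[R] S) := Function.Injective.isDomain (mp S i).toRingHom
    (mp_inj_of (IsFractionRing.injective O' K))
  have u1 := h6 R S B O hd d1
  have u2 := h7 R S O O' 𝔓.primeCompl d1 d2 u1
  obtain ⟨d, t₀, hd0, ht₀⟩ := PurSP.clear (C := O') t
  obtain ⟨s', hs'⟩ := h1 R S A O' K n m e N ι κ δ (um f x) (Units.map (f : O →* O') y) 1 d g t t₀
    hU hq hD u2
    (by
      rw [map_one, mul_one, hg]
      change _ = mp S i (mp S f x) * _
      rw [H90P.mp_mp, hf])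
    (by rw [ht, IsScalarTower.algebraMap_apply O O' K]; rfl) hd0 ht₀.symm
    (fun π hπ h => (hπ.not_dvd_one h).elim)
    fun π ϖ j hπ _ hs hp => h2 R S A O' K n j N ι κ δ π ϖ hU hq hD hs
      (h5 R A O' K n j δ π hq.two hU.nf.pos hU.gb.sep hO2 hπ hp
        ((h3 R S O' ι κ δ hq d2).2.2 π ϖ hπ hs).1)
  obtain ⟨v, v1, v2, v3⟩ := id hs'
  obtain ⟨b, t₁, ht₁⟩ := ResP.clear 𝔓.primeCompl ((s'⁻¹ : (O' ⊗[R] S)ˣ) : O' ⊗[R] S)
  have e1 : mp S i (s'⁻¹ : (O' ⊗[R] S)ˣ) * mp S i s' = 1 := by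
    rw [← map_mul, Units.inv_mul, map_one]
  generalize hw : mp S i (s'⁻¹ : (O' ⊗[R] S)ˣ) = w at e1
  have e2 : t = w * (mp S i s' * t) := by rw [← mul_assoc, e1, one_mul]
  obtain ⟨s, hs⟩ := h1 R S A O K n m e N ι κ δ x y 1 b (g * v⁻¹) w t₁ hU hq hD u1
    (by
      refine (v.isUnit.map (N K)).mul_right_cancel ?_
      rw [← map_mul, ← Units.val_mul, inv_mul_cancel_right, map_one, mul_one, v2, mul_assoc,
        ← mul_pow, ← e2, hg])
    (by
      rw [← ht, e2, map_mul, mul_mul_mul_comm, ← v3, one_pow, map_one, mul_one]) (hn b b.2)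
    (by
      rw [← hf, ← H90P.mp_mp, ht₁, mp_smul, hw, IsScalarTower.algebraMap_apply O O' K]
      rfl)
    (fun π hπ h => (hπ.not_dvd_one h).elim)
    fun π ϖ j hπ hb hs hp => h2 R S A O K n j N ι κ δ π ϖ hU hq hD hs
      (h4 R A O K n j δ π hq.two hU.gb.sep hπ
        (hgeo π hπ fun hh => b.2 (Ideal.mem_of_dvd 𝔓 hb hh)) hp
        ((h3 R S O ι κ δ hq d1).2.2 π ϖ hπ hs).1)
  have e3 := hs.mul hs'
  rw [one_mul, mul_assoc, ← e2] at e3
  exact ⟨s, e3⟩

end Pool.Agent.P.MP_46a8f8_ag.GU
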