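import Pool.Agent.P.MP_46a8f8_ag.GU.Qc

/-! Norms to a quadratic centre. -/

namespace Pool.Agent.P.MP_46a8f8_ag.GU

open TensorProduct Function

universe u

namespace QNP

variable {R S T : Type u} [CommRing R] [CommRing S] [Algebra R S] [CommRing T] [Algebra R T]
  {ι : S →ₐ[R] S} {κ : S} {δ : Rˣ}

theorem norm_dec (h : Qd ι κ δ) (a b : T) :
    Algebra.norm T (algebraMap T (T ⊗[R] S) a + b ⊗ₜ[R] κ) =
      a * a - algebraMap R T δ * (b * b) := by
  obtain ⟨e, e0, e1⟩ := h.bas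
  let v := Algebra.TensorProduct.basis T e
  have v0 : v 0 = algebraMap T (T ⊗[R] S) 1 + (0 : T) ⊗ₜ[R] κ := by
    rw [Algebra.TensorProduct.basis_apply, e0, zero_tmul, add_zero]
    rfl
  have v1 : v 1 = algebraMap T (T ⊗[R] S) 0 + (1 : T) ⊗ₜ[R] κ := by
    rw [Algebra.TensorProduct.basis_apply, e1, map_zero, zero_add]
  have key : ∀ p q : T, v.repr (algebraMap T (T ⊗[R] S) p + q ⊗ₜ[R] κ) 0 = p ∧
      v.repr (algebraMap T (T ⊗[R] S) p + q ⊗ₜ[R] κ) 1 = q := fun p q => by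
    have e2 : algebraMap T (T ⊗[R] S) p + q ⊗ₜ[R] κ = p • v 0 + q • v 1 := by
      rw [Algebra.TensorProduct.basis_apply, Algebra.TensorProduct.basis_apply, e0, e1,
        smul_tmul', smul_tmul', smul_eq_mul, smul_eq_mul, mul_one, mul_one]
      rfl
    rw [e2]
    simp
  rw [Algebra.norm_eq_matrix_det v, Matrix.det_fin_two]
  simp only [Algebra.leftMulMatrix_eq_repr_mul]
  rw [v0, v1, h.mul_dec, h.mul_dec, (key _ _).1, (key _ _).1, (key _ _).2, (key _ _).2]
  ring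

theorem mp_dec {T' : Type u} [CommRing T'] [Algebra R T'] (f : T →ₐ[R] T') (a b : T) :
    mp S f (algebraMap T (T ⊗[R] S) a + b ⊗ₜ[R] κ) =
      algebraMap T' (T' ⊗[R] S) (f a) + f b ⊗ₜ[R] κ := by
  rw [map_add]
  rfl

/-- integral elements of the generic fibre come from the ring -/
theorem int_dec (h : Qd ι κ δ) {O K : Type u} [CommRing O] [IsDomain O] [IsIntegrallyClosed O]
    [Algebra R O] [Field K] [Algebra R K] [Algebra O K] [IsScalarTower R O K]
    [IsFractionRing O K] (c : K ⊗[R] S) (hc : IsIntegral O c) :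
    ∃ β, mp S (IsScalarTower.toAlgHom R O K) β = c := by
  obtain ⟨a, b, rfl⟩ := h.dec c
  have hi : Injective (algebraMap K (K ⊗[R] S)) := fun x y e =>
    (h.ext (b := 0) (b' := 0) (congrArg (· + (0 : K) ⊗ₜ[R] κ) e)).1
  have h1 := hc.map ((io ι K).restrictScalars O)
  rw [AlgHom.restrictScalars_apply, h.io_dec] at h1
  have hk : IsIntegral O (algebraMap K (K ⊗[R] S) 0 + (1 : K) ⊗ₜ[R] κ) := by
    refine IsIntegral.of_pow two_pos ?_
    rw [sq, h.mul_dec]
    simp only [mul_zero, mul_one, add_zero, zero_add, zero_tmul]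
    rw [IsScalarTower.algebraMap_apply R O K, ← IsScalarTower.algebraMap_apply]
    exact isIntegral_algebraMap
  have h2 : IsIntegral O (algebraMap K (K ⊗[R] S) (2 * a)) := by
    refine (congrArg (IsIntegral O) ?_).mp (hc.add h1)
    rw [neg_tmul, two_mul, map_add]
    abel
  have h3 : IsIntegral O (algebraMap K (K ⊗[R] S) (2 * (algebraMap R K δ * b))) := by
    refine (congrArg (IsIntegral O) ?_).mp ((hc.mul hk).sub (h1.mul hk))
    rw [h.mul_dec, h.mul_dec, add_sub_add_comm, ← map_sub, ← sub_tmul]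
    simp only [mul_zero, mul_one, add_zero, zero_add, sub_self, zero_tmul]
    congr 1
    ring
  obtain ⟨a0, ha⟩ := IsIntegrallyClosed.isIntegral_iff.1 ((isIntegral_algebraMap_iff hi).1 h2)
  obtain ⟨b0, hb⟩ := IsIntegrallyClosed.isIntegral_iff.1 ((isIntegral_algebraMap_iff hi).1 h3)
  obtain ⟨t, ht⟩ := h.two.exists_left_inv
  have ht' : algebraMap R K t * 2 = 1 := by
    rw [← map_ofNat (algebraMap R K), ← map_mul, ht, map_one]
  have hd : algebraMap R K (δ⁻¹ : Rˣ) * algebraMap R K δ = 1 := by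
    rw [← map_mul, Units.inv_mul, map_one]
  refine ⟨algebraMap O _ (t • a0) + ((t * (δ⁻¹ : Rˣ)) • b0) ⊗ₜ[R] κ, ?_⟩
  rw [mp_dec, map_smul (IsScalarTower.toAlgHom R O K), map_smul (IsScalarTower.toAlgHom R O K),
    IsScalarTower.toAlgHom_apply, IsScalarTower.toAlgHom_apply, ha, hb, Algebra.smul_def,
    Algebra.smul_def, map_mul (algebraMap R K)]
  congr 2
  · rw [← mul_assoc, ht', one_mul]
  · linear_combination (algebraMap R K (δ⁻¹ : Rˣ) * algebraMap R K δ * b) * ht' + b * hd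

/-- an inert prime is not a norm -/
theorem desc (h : Qd ι κ δ) [IsDomain T] [WfDvdMonoid T] {π : T} (v : Tˣ) (hπ : Prime π)
    (hp : Prime (algebraMap T (T ⊗[R] S) π)) (d : T) :
    d ≠ 0 → ∀ a b : T, a * a - algebraMap R T δ * (b * b) ≠ d * d * (v * π) := by
  induction d using (wellFounded_dvdNotUnit (α := T)).induction with
  | _ d ih =>
  intro hd a b e
  have h1 : algebraMap T (T ⊗[R] S) π ∣ (algebraMap T (T ⊗[R] S) a + b ⊗ₜ[R] κ) *
      io ι T (algebraMap T _ a + b ⊗ₜ[R] κ) := by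
    rw [h.nrm, e]
    exact map_dvd _ ((dvd_mul_left _ _).mul_left _)
  have h2 : ∀ b' : T, algebraMap T (T ⊗[R] S) π ∣ algebraMap T (T ⊗[R] S) a + b' ⊗ₜ[R] κ →
      π ∣ a ∧ π ∣ b' := by
    rintro b' ⟨c, hc⟩
    obtain ⟨p, q, rfl⟩ := h.dec c
    have e2 := h.mul_dec π 0 p q
    rw [zero_tmul, add_zero, ← hc] at e2
    have e3 := h.ext e2
    exact ⟨⟨p, by rw [e3.1]; ring⟩, ⟨q, by rw [e3.2]; ring⟩⟩
  have h3 : π ∣ a ∧ π ∣ b := by
    rcases hp.dvd_or_dvd h1 with h4 | h4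
    · exact h2 b h4
    · rw [h.io_dec] at h4
      exact ⟨(h2 _ h4).1, dvd_neg.1 (h2 _ h4).2⟩
  obtain ⟨⟨p, rfl⟩, ⟨q, rfl⟩⟩ := h3
  have h4 : π * (p * p - algebraMap R T δ * (q * q)) = d * d * v :=
    mul_left_cancel₀ hπ.ne_zero (by linear_combination e)
  have h5 : π ∣ d := by
    have : π ∣ d * d := Units.dvd_mul_right.1 ⟨_, h4.symm⟩
    exact (hπ.dvd_or_dvd this).elim id id
  obtain ⟨d', rfl⟩ := h5
  have hd' : d' ≠ 0 := right_ne_zero_of_mul hd
  refine ih d' ⟨hd', π, hπ.not_isUnit, mul_comm _ _⟩ hd' p q ?_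
  exact mul_left_cancel₀ hπ.ne_zero (by linear_combination h4)

end QNP


theorem pQN : S_QN.{u} := by
  intro R S K L _ _ _ _ _ _ _ _ _ _ ι κ δ h hD ⟨ε, hε⟩
  obtain ⟨θ, hθ⟩ := h.lift (T := K) (algebraMap K L) ε
    (by rw [← hε, IsScalarTower.algebraMap_apply R K L])
  obtain ⟨e, -, -⟩ := h.bas
  have : Module.Finite R S := Module.Finite.of_basis e
  have : Module.Free R S := Module.Free.of_basis e
  have hF : IsField (K ⊗[R] S) := isField_of_isIntegral_of_isField' (Field.toIsField K)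
  let : Algebra (K ⊗[R] S) L := θ.toAlgebra
  have hK : ∀ a : K, algebraMap (K ⊗[R] S) L (algebraMap K _ a) = algebraMap K L a := fun a => by
    have := hθ a 0
    rwa [zero_tmul, add_zero, map_zero, zero_mul, add_zero] at this
  have t1 : IsScalarTower K (K ⊗[R] S) L := IsScalarTower.of_algebraMap_eq fun a => (hK a).symm
  have t2 : IsScalarTower R (K ⊗[R] S) L := IsScalarTower.of_algebraMap_eq fun r => by
    rw [IsScalarTower.algebraMap_apply R K (K ⊗[R] S), hK, ← IsScalarTower.algebraMap_apply]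
  have fr : Module.Free (K ⊗[R] S) L := by
    let := hF.toField
    exact Module.Free.of_divisionRing _ _
  refine ⟨inferInstance, t2, fr, Module.Finite.of_restrictScalars_finite K _ _, fun f => ⟨?_, ?_⟩⟩
  · rw [← Algebra.norm_norm (R := K) (S := K ⊗[R] S) (a := f)]
    obtain ⟨a, b, hab⟩ := h.dec (Algebra.norm (K ⊗[R] S) f)
    rw [hab, h.nrm, QNP.norm_dec h]
  · intro O _ _ _ _ _ _ _ hf
    let : Algebra O L := ((algebraMap K L).comp (algebraMap O K)).toAlgebra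
    have : IsScalarTower O (K ⊗[R] S) L := IsScalarTower.of_algebraMap_eq fun r => by
      rw [IsScalarTower.algebraMap_apply O K (K ⊗[R] S), hK]
      rfl
    refine QNP.int_dec h _ ?_
    let := hF.toField
    exact Algebra.isIntegral_norm (K ⊗[R] S) (show IsIntegral O f from hf)


theorem pNSq (h1 : S_QN.{u}) : S_NSq.{u} := by
  intro R S O K L _ _ _ _ _ _ _ _ _ _ _ _ _ _ _ _ _ ι κ δ π v f h hD hπ hp hf hs
  obtain ⟨_, -, -, -, h2⟩ := h1 R S K L ι κ δ h hD hs
  have h3 := (h2 f).1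
  obtain ⟨a, b, hab⟩ := h.dec (Algebra.norm (K ⊗[R] S) f)
  rw [hab, h.nrm, hf] at h3
  have h4 := (h.ext (b := 0) (b' := 0) (congrArg (· + (0 : K) ⊗ₜ[R] κ) h3)).1
  obtain ⟨⟨a1, s⟩, ha⟩ := IsLocalization.surj (nonZeroDivisors O) a
  obtain ⟨⟨b1, t⟩, hb⟩ := IsLocalization.surj (nonZeroDivisors O) b
  refine QNP.desc h v hπ hp (s * t) (nonZeroDivisors.coe_ne_zero (s * t)) (a1 * t) (b1 * s)
    (IsFractionRing.injective O K ?_)
  simp only [map_sub, map_mul, ← IsScalarTower.algebraMap_apply] at h4 ha hb ⊢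
  rw [← ha, ← hb, ← h4]
  ring

end Pool.Agent.P.MP_46a8f8_ag.GU
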