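import Pool.Agent.P.MP_46a8f8_ag.GU.Qc

/-!
The gerbe of a torsor under a quotient, and semilocal covers.
-/

namespace Pool.Agent.P.MP_46a8f8_ag.GU

open TensorProduct Function IsLocalRing Polynomial

universe u

namespace QT0P

theorem point {R O O' : Type u} [CommRing R] [CommRing O] [Algebra R O] [CommRing O']
    [Algebra R O'] [Module.FaithfullyFlat R O'] (t : O →ₐ[R] O')
    (key : (H90P.iL R O' O').comp t = (H90P.iR R O' O').comp t) : Nonempty (O →ₐ[R] R) := by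
  have hinj : Injective (algebraMap R O') := FaithfulSMul.algebraMap_injective R O'
  choose t' ht' using fun o => mem_range_of_eq (R := R) (t o) (AlgHom.congr_fun key o)
  exact ⟨{
    toFun := t'
    map_one' := hinj (by rw [ht', map_one, map_one])
    map_mul' := fun a b => hinj (by rw [map_mul, ht', ht', ht', map_mul])
    map_zero' := hinj (by rw [ht', map_zero, map_zero])
    map_add' := fun a b => hinj (by rw [map_add, ht', ht', ht', map_add])
    commutes' := fun r => hinj (by rw [ht', AlgHom.commutes]; rfl) }⟩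

end QT0P

open QT0P

theorem pQT0 : S_QT0.{u} := by
  rintro R E O _ _ _ _ _ G m hG hI ⟨-, act, a1, a2, a3, a4, a5⟩
  refine ⟨fun T _ _ p q h => ∃ hh : G T h, act T ⟨h, hh⟩ p = q, ⟨⟨?_, ?_, ?_, ?_⟩, ?_, ?_, ?_⟩⟩
  · rintro T T' _ _ _ _ f p _ h ⟨hh, rfl⟩
    exact ⟨hG.map T T' f h hh, (a3 T T' f ⟨h, hh⟩ ⟨_, hG.map T T' f h hh⟩ p rfl).symm⟩
  · rintro T _ _ p _ _ g h ⟨hh, rfl⟩ ⟨hg, rfl⟩
    exact ⟨hG.mul T h g hh hg, a2 T ⟨h, hh⟩ ⟨g, hg⟩ _ p rfl⟩
  · exact fun T _ _ p => ⟨hG.one T, a1 T _ p rfl⟩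
  · intro T _ _ p q
    obtain ⟨T', _, _, f, g, hf, hg⟩ := a5 T p q
    let := f.toRingHom.toAlgebra
    have : IsScalarTower R T T' := .of_algebraMap_eq fun x => (f.commutes x).symm
    exact ⟨T', inferInstance, inferInstance, inferInstance, this, g.1, hf, g.2, hg⟩
  · exact fun T _ _ p q h hh => hh.1
  · rintro T _ _ p _ h h' ⟨hh, rfl⟩ ⟨hh', e⟩
    obtain ⟨g, hg, e1, e2⟩ := hI T h hh
    refine ⟨g * h', (a4 T ⟨_, hG.mul T g h' hg hh'⟩ p).1 ?_, by rw [← mul_assoc, e1, one_mul]⟩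
    rw [a2 T ⟨g, hg⟩ ⟨h', hh'⟩ ⟨_, hG.mul T g h' hg hh'⟩ p rfl, e,
      ← a2 T ⟨g, hg⟩ ⟨h, hh⟩ ⟨1, hG.one T⟩ p e2.symm]
    exact a1 T _ p rfl
  · intro O' _ _ _ p' b hb H
    obtain ⟨b', hb', e1, e2⟩ := hI O' b hb
    obtain ⟨T, _, _, f, g, hf, hg⟩ :=
      a5 (O' ⊗[R] O') ((H90P.iL R O' O').comp p') ((H90P.iR R O' O').comp p')
    obtain ⟨i, hi⟩ : ∃ i, i = f.comp (H90P.iL R O' O') := ⟨_, rfl⟩
    obtain ⟨j, hj⟩ : ∃ j, j = f.comp (H90P.iR R O' O') := ⟨_, rfl⟩
    have hg' : act T g (i.comp p') = j.comp p' := by rw [hi, hj]; exact hg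
    obtain ⟨ζ, hζ, e⟩ := H T i j g.1 ⟨g.2, hg'⟩
    have e3 : ζ = mp E j b' * g.1 * mp E i b := by
      rw [mul_assoc, e, ← mul_assoc, ← map_mul, e2, map_one, one_mul]
    have g1 := hG.map O' T i b' hb'
    have g2 := hG.map O' T j b' hb'
    have g3 : G T ζ := e3 ▸ hG.mul T _ _ (hG.mul T _ _ g2 g.2) (hG.map O' T i b hb)
    have key : i.comp (act O' ⟨b', hb'⟩ p') = j.comp (act O' ⟨b', hb'⟩ p') := by
      rw [a3 O' T j ⟨b', hb'⟩ ⟨_, g2⟩ p' rfl, ← hg',
        ← a2 T ⟨_, g2⟩ g ⟨_, hG.mul T _ _ g2 g.2⟩ _ rfl,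
        a2 T ⟨ζ, g3⟩ ⟨_, g1⟩ ⟨_, hG.mul T _ _ g2 g.2⟩ _ (by
          change mp E j b' * g.1 = ζ * mp E i b'
          rw [e3, mul_assoc _ (mp E i b), ← map_mul, e1, map_one, mul_one]),
        (a4 T ⟨ζ, g3⟩ _).2 hζ, a3 O' T i ⟨b', hb'⟩ ⟨_, g1⟩ p' rfl]
    subst hi hj
    exact point (act O' ⟨b', hb'⟩ p') (AlgHom.ext fun o => hf.injective (AlgHom.congr_fun key o))

theorem pSemi : S_Semi.{u} := by
  rintro R O K _ _ _ _ _ _ _ ⟨p⟩
  obtain ⟨⟨n, hn⟩, e⟩ := PrimeSpectrum.comap_surjective_of_faithfullyFlat (A := R) (B := O)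
    (closedPoint R)
  have e' : n.comap (algebraMap R O) = maximalIdeal R := congrArg PrimeSpectrum.asIdeal e
  have hP : (RingHom.ker p).IsPrime := RingHom.ker_isPrime p
  let M : Submonoid O := n.primeCompl ⊓ (RingHom.ker p).primeCompl
  let φ := algebraMap O (Localization M)
  have h1 : (n.map φ).IsPrime := IsLocalization.isPrime_of_isPrime_disjoint M _ n hn
    (Set.disjoint_left.2 fun x hx => hx.1)
  have h2 : ((RingHom.ker p).map φ).IsPrime := IsLocalization.isPrime_of_isPrime_disjoint M _ _ hP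
    (Set.disjoint_left.2 fun x hx => hx.2)
  have : Module.Flat R (Localization M) := .trans R O _
  refine ⟨Localization M, inferInstance, inferInstance, IsScalarTower.toAlgHom R O _,
    ⟨fun m hm h => h1.ne_top ?_⟩, ?_, ⟨IsLocalization.liftAlgHom (M := M) (f := p)
      fun y => IsUnit.mk0 _ y.2.2⟩⟩
  · have h3 : m • (⊤ : Submodule R (Localization M)) ≤ (n.map φ).restrictScalars R := by
      refine Submodule.smul_le.2 fun r hr x _ => ?_
      rw [eq_maximalIdeal hm, ← e'] at hr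
      rw [Algebra.smul_def, IsScalarTower.algebraMap_apply R O]
      exact Ideal.mul_mem_right _ _ (Ideal.mem_map_of_mem _ hr)
    rw [h] at h3
    exact (Ideal.eq_top_iff_one _).2 (h3 Submodule.mem_top)
  · have h3 : ∀ I : MaximalSpectrum (Localization M),
        I.asIdeal ∈ ({n.map φ, (RingHom.ker p).map φ} : Set (Ideal (Localization M))) := by
      intro I
      have h4 := ((IsLocalization.isPrime_iff_isPrime_disjoint M _ I.asIdeal).1
        I.isMaximal.isPrime).2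
      have h5 : ((I.asIdeal.comap φ : Ideal O) : Set O) ⊆ n ∪ RingHom.ker p := fun x hx => by
        by_contra h6
        rw [Set.mem_union, not_or] at h6
        exact Set.disjoint_left.1 h4 (show x ∈ M from h6) hx
      have h6 := IsLocalization.map_under M (Localization M) I.asIdeal
      exact (Ideal.subset_union.1 h5).imp
        (fun h => I.isMaximal.eq_of_le h1.ne_top (h6.ge.trans (Ideal.map_mono h)))
        fun h => I.isMaximal.eq_of_le h2.ne_top (h6.ge.trans (Ideal.map_mono h))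
    exact Finite.of_injective (fun I => (⟨_, h3 I⟩ : ({_, _} : Set _)))
      fun I J h => MaximalSpectrum.ext (congrArg Subtype.val h)

end Pool.Agent.P.MP_46a8f8_ag.GU
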