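import Pool.Agent.P.MP_46a8f8_ag.GU.Qc

/-!
Matrix units at a prime of the centre which lies over a split prime.
-/

namespace Pool.Agent.P.MP_46a8f8_ag.GU

open TensorProduct Function IsLocalRing

universe u

theorem pResP : S_ResP.{u} := by
  intro S A Z E _ _ _ _ _ _ _ _ _ _ n m ϖ F c j φ hn hA hr hπ hF hd hφ hj
  let 𝔫 := RingHom.ker j
  have : 𝔫.IsPrime := RingHom.ker_isPrime j
  let D := Localization.AtPrime 𝔫
  have : IsDomain D := IsLocalization.isDomain_localization 𝔫.primeCompl_le_nonZeroDivisors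
  have hinj : Injective (algebraMap S D) :=
    IsLocalization.injective D 𝔫.primeCompl_le_nonZeroDivisors
  have h𝔫 : 𝔫 = Ideal.span {ϖ} := Ideal.ext fun s => (hj s).trans Ideal.mem_span_singleton.symm
  have hmax : maximalIdeal D = Ideal.span {algebraMap S D ϖ} := by
    rw [← Localization.AtPrime.map_eq_maximalIdeal, ← Set.image_singleton, ← Ideal.map_span, ← h𝔫]
  have hπ0 : algebraMap S D ϖ ≠ 0 := (map_ne_zero_iff _ hinj).2 hπ.ne_zero
  have h2 : ¬ IsField D := fun h => by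
    have h3 := isField_iff_maximalIdeal_eq.1 h
    rw [hmax, Ideal.span_singleton_eq_bot] at h3
    exact hπ0 h3
  have h4 : (maximalIdeal D).IsPrincipal := ⟨_, hmax⟩
  have : IsDiscreteValuationRing D := ((IsDiscreteValuationRing.TFAE _ h2).out 0 4).2 h4
  have hirr : Irreducible (algebraMap S D ϖ) :=
    (IsDiscreteValuationRing.irreducible_iff_uniformizer _).2 hmax
  have hFu : IsUnit (algebraMap S D F) :=
    IsLocalization.map_units D (⟨F, fun h => hF ((hj F).1 h)⟩ : 𝔫.primeCompl)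
  have hu : ∀ y : 𝔫.primeCompl, IsUnit (j y) := fun y => isUnit_iff_ne_zero.2 y.2
  let jD : D →+* Z := IsLocalization.lift hu
  have hjD : ∀ s, jD (algebraMap S D s) = j s := IsLocalization.lift_eq hu
  let : Algebra S E := ((algebraMap Z E).comp j).toAlgebra' fun s x => Algebra.commutes _ _
  let f : D →ₐ[S] E := ⟨(algebraMap Z E).comp jD, fun s => congrArg (algebraMap Z E) (hjD s)⟩
  let g : A →ₐ[S] E := ⟨φ, hφ⟩
  let ψ : D ⊗[S] A →ₐ[S] E :=
    Algebra.TensorProduct.lift f g fun x y => Algebra.commutes (jD x) (φ y)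
  refine pResN D (D ⊗[S] A) E n m _ ((1 : D) ⊗ₜ[S] c) (ψ : D ⊗[S] A →+* E) hn hirr
    (azBC S A D hA) (by rw [Module.finrank_baseChange, hr]) ?_ ?_
  · rw [ResQP.det_bc]
    refine (hd.map (algebraMap S D)).trans ?_
    rw [map_pow, map_mul, map_pow]
    exact (associated_mul_unit_left _ _ hFu).pow_pow
  · have e : ψ (algebraMap S D ϖ ⊗ₜ[S] (1 : A)) =
        algebraMap Z E (jD (algebraMap S D ϖ)) * φ 1 :=
      Algebra.TensorProduct.lift_tmul _ _ _ _ _
    rw [hjD, (hj ϖ).2 dvd_rfl, map_zero, zero_mul] at e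
    exact e

namespace ResSP

/-- incomparability -/
theorem ker_eq {O B Z : Type u} [CommRing O] [CommRing B] [Algebra O B] [Algebra.IsIntegral O B]
    [CommRing Z] (J : B →+* Z) {π : O} {w : B} (hw : Prime w) (hd : w ∣ algebraMap O B π)
    (hJ : ∀ r, J (algebraMap O B r) = 0 → π ∣ r) (h0 : J w = 0) (s : B) : J s = 0 ↔ w ∣ s := by
  refine ⟨fun hs => ?_, fun ⟨t, ht⟩ => by rw [ht, map_mul, h0, zero_mul]⟩
  by_contra hn
  have : (Ideal.span {w}).IsPrime := (Ideal.span_singleton_prime hw.ne_zero).2 hw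
  have h1 := Ideal.comap_lt_comap_of_integral_mem_sdiff (R := O) (I := Ideal.span {w})
    (J := RingHom.ker J) ((Ideal.span_singleton_le_iff_mem _).2 h0) (x := s)
    ⟨hs, fun h => hn (Ideal.mem_span_singleton.1 h)⟩ (Algebra.IsIntegral.isIntegral s)
  exact h1.not_ge fun r hr => Ideal.mem_comap.2 (Ideal.mem_span_singleton.2
    (hd.trans (map_dvd _ (hJ r hr))))

variable {R S A : Type u} [CommRing R] [CommRing S] [Algebra R S] [Ring A] [Algebra S A]
  [Algebra R A] [IsScalarTower R S A] [StarRing A] [SA R A]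

theorem ms (h1 : S_ResP.{u}) {O : Type u} [CommRing O] [IsDomain O] [IsNoetherianRing O]
    [Algebra R O] {n m : ℕ} {N : NFam R S A} {ι : S →ₐ[R] S} {π : O} {ϖ F : O ⊗[R] S}
    {c : O ⊗[R] A} (hU : UC A n N ι) (hd : IsDomain (O ⊗[R] S)) (hs : Spl ι π ϖ) (hF : ¬ ϖ ∣ F)
    (hc : N O c = ϖ ^ m * F) (K : Type u) [Field K] [Algebra R K]
    (j : O →ₐ[R] K) (hj : ∀ r, j r = 0 ↔ π ∣ r) : MS R A n m K := by
  have hG := hU.gb
  have hN := hU.nf
  have := hG.fin
  have := hG.et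
  letI := GAP.alg R S A O
  obtain ⟨hG', hr⟩ := pGBbc R S A O hG hd
  obtain ⟨Ω, _, _, Φ, hS, hΦ⟩ := allSetN R S A O n N hG hN hd
  have hdet : ∀ c, LinearMap.det (LinearMap.mulRight (O ⊗[R] S) c) = N O c ^ n := fun c =>
    hS.inj (by rw [detR _ _ Ω n Φ hS c, hΦ, map_pow])
  have := hG'.freeA
  have := hG'.finA
  have : IsNoetherianRing (O ⊗[R] S) := IsNoetherianRing.of_finite O _
  letI := GAP.alg R S A K
  have : IsArtinianRing (K ⊗[R] S) := IsArtinianRing.of_finite K _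
  have : IsReduced (K ⊗[R] S) := Algebra.FormallyUnramified.isReduced_of_field K _
  refine pResG (K ⊗[R] S) (K ⊗[R] A) n m fun 𝔫 h𝔫 => ?_
  letI := Ideal.Quotient.field 𝔫
  let J : O ⊗[R] S →+* (K ⊗[R] S) ⧸ 𝔫 := (Ideal.Quotient.mk 𝔫).comp (mp S j).toRingHom
  have hJ : ∀ r, J (algebraMap O (O ⊗[R] S) r) = 0 ↔ π ∣ r := fun r => by
    change Ideal.Quotient.mk 𝔫 (mp S j (algebraMap O (O ⊗[R] S) r)) = 0 ↔ _
    rw [mp_alg, ← hj]
    exact map_eq_zero ((Ideal.Quotient.mk 𝔫).comp (algebraMap K (K ⊗[R] S)))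
  have key : ∀ (w F' : O ⊗[R] S) (c' : O ⊗[R] A), Prime w → w ∣ algebraMap O (O ⊗[R] S) π →
      ¬ w ∣ F' → N O c' = w ^ m * F' → J w = 0 →
      MU n (Matrix (Fin m) (Fin m) (((K ⊗[R] S) ⧸ 𝔫) ⊗[K ⊗[R] S] (K ⊗[R] A))) :=
    fun w F' c' hw hwd hwF hc' h0 => by
    refine h1 (O ⊗[R] S) (O ⊗[R] A) ((K ⊗[R] S) ⧸ 𝔫)
      (((K ⊗[R] S) ⧸ 𝔫) ⊗[K ⊗[R] S] (K ⊗[R] A)) n m w F' c' J
      ((Algebra.TensorProduct.includeRight (R := K ⊗[R] S) (A := (K ⊗[R] S) ⧸ 𝔫)
        (B := K ⊗[R] A)).toRingHom.comp (mp A j).toRingHom) hN.pos hG'.az (hr.trans hN.rank) hw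
      hwF (by rw [hdet, hc']) (fun z => ?_) (ker_eq J hw hwd (fun r => (hJ r).1) h0)
    change Algebra.TensorProduct.includeRight (R := K ⊗[R] S) (A := (K ⊗[R] S) ⧸ 𝔫)
      (B := K ⊗[R] A) (mp A j (GAP.sm R S A O z)) = _
    rw [mp_sm]
    exact AlgHom.commutes _ (mp S j z)
  have h0 : J ϖ * J (io ι O ϖ) = 0 := by
    obtain ⟨t, ht⟩ := hs.2.symm.dvd
    rw [← map_mul, ht, map_mul, (hJ π).2 dvd_rfl, zero_mul]
  rcases mul_eq_zero.1 h0 with h | h
  · exact key ϖ F c hs.1 ((dvd_mul_right _ _).trans hs.2.dvd) hF hc h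
  · let σ : O ⊗[R] S ≃* O ⊗[R] S :=
      { toFun := io ι O, invFun := io ι O, left_inv := hU.cj.io_io, right_inv := hU.cj.io_io
        map_mul' := map_mul _ }
    refine key (io ι O ϖ) (io ι O F) (cj R A O c) ((MulEquiv.prime_iff σ).2 hs.1)
      ((dvd_mul_left _ _).trans hs.2.dvd) (fun hd => hF ?_)
      (by rw [hU.cj.nrd_cj hG hN, hc, map_mul, map_pow]) h
    simpa only [hU.cj.io_io] using map_dvd (io ι O) hd

end ResSP

theorem pResS (h1 : S_ResP.{u}) : S_ResS.{u} := by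
  intro R S A O _ _ _ _ _ _ _ _ _ _ _ _ _ n m N ι π ϖ F c hU hd _ hs hF hc K E _ _ _ j φ hj hφ
  letI : Algebra R K := (j.comp (algebraMap R O)).toAlgebra
  letI : Algebra R E := ((algebraMap K E).comp (algebraMap R K)).toAlgebra'
    fun r x => Algebra.commutes _ x
  have : IsScalarTower R K E := IsScalarTower.of_algebraMap_eq fun _ => rfl
  let j' : O →ₐ[R] K := { j with commutes' := fun _ => rfl }
  let φ' : A →ₐ[R] E := { φ with commutes' := hφ }
  let ψ : K ⊗[R] A →ₐ[R] E := Algebra.TensorProduct.lift (IsScalarTower.toAlgHom R K E) φ'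
    fun k a => Algebra.commutes k (φ' a)
  exact MU.map (ResSP.ms h1 hU hd hs hF hc K j' hj) ψ.toRingHom.mapMatrix

end Pool.Agent.P.MP_46a8f8_ag.GU
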