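import Pool.Agent.P.MP_46a8f8_ag.GU.Qc

/-!
Roots after a faithfully flat extension.
-/

namespace Pool.Agent.P.MP_46a8f8_ag.GU

open TensorProduct Function IsLocalRing Polynomial

universe u

theorem pRt0 : S_Rt0.{u} := by
  intro T _ t m hm
  cases subsingleton_or_nontrivial T
  · exact ⟨T, inferInstance, inferInstance, 1, inferInstance, Subsingleton.elim _ _⟩
  have hg : (X ^ m - C (t : T)).Monic := monic_X_pow_sub_C _ hm.ne'
  have := hg.free_adjoinRoot
  have : Nontrivial (AdjoinRoot (X ^ m - C (t : T))) :=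
    Module.nontrivial_of_finrank_pos (R := T) (by
      rw [(AdjoinRoot.powerBasis' hg).finrank, AdjoinRoot.powerBasis'_dim, natDegree_X_pow_sub_C]
      exact hm)
  have h : AdjoinRoot.root (X ^ m - C (t : T)) ^ m = algebraMap T _ (t : T) := by
    have := AdjoinRoot.eval₂_root (X ^ m - C (t : T))
    rwa [eval₂_sub, eval₂_X_pow, eval₂_C, sub_eq_zero] at this
  have hu := t.isUnit.map (algebraMap T (AdjoinRoot (X ^ m - C (t : T))))
  rw [← h, isUnit_pow_iff hm.ne'] at hu
  exact ⟨AdjoinRoot (X ^ m - C (t : T)), inferInstance, inferInstance, hu.unit, inferInstance, h⟩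

namespace RtP

variable {R S T : Type u} [CommRing R] [CommRing S] [Algebra R S] [CommRing T] [Algebra R T]
  {ι : S →ₐ[R] S} {κ : S} {δ : Rˣ}

theorem sep (h : Qd ι κ δ) {θ : T ⊗[R] S →+* T} {ε : T} (hε : IsUnit ε)
    (hθ : ∀ a b : T, θ (algebraMap T _ a + b ⊗ₜ[R] κ) = a + b * ε) {c c' : T ⊗[R] S}
    (h1 : θ c = θ c') (h2 : θ (io ι T c) = θ (io ι T c')) : c = c' := by
  obtain ⟨a, b, rfl⟩ := h.dec c
  obtain ⟨a', b', rfl⟩ := h.dec c'
  have h3 : IsUnit (2 : T) := by
    have := h.two.map (algebraMap R T)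
    rwa [map_ofNat] at this
  rw [h.io_dec, h.io_dec, hθ, hθ] at h2
  rw [hθ, hθ] at h1
  rw [show a = a' from h3.mul_left_cancel (by linear_combination h1 + h2),
    show b = b' from (h3.mul hε).mul_left_cancel (by linear_combination h1 - h2)]

theorem mp_self (c : T ⊗[R] S) : mp S (IsScalarTower.toAlgHom R T T) c = c := by
  induction c using TensorProduct.induction_on with
  | zero => simp
  | tmul t s => rfl
  | add x y hx hy => rw [map_add, hx, hy]

end RtP

open RtP

theorem pRt (h0 : S_Rt0.{u}) : S_Rt.{u} := by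
  intro R S _ _ _ m
  refine ⟨fun ι κ δ h hm T _ _ t μ ht => ?_, fun ⟨k, hk⟩ T _ _ t μ ht => ?_⟩
  · obtain ⟨T1, _, _, ε, f1, hε⟩ := h0 T (Units.map (algebraMap R T).toMonoidHom δ) 2 two_pos
    obtain ⟨θ1, hθ1⟩ := h.lift (algebraMap T T1) ε (by rw [← sq, hε]; rfl)
    obtain ⟨T', _, _, w1, f2, hw⟩ := h0 T1 (Units.map θ1.toMonoidHom t) m hm
    let : Algebra T T' := ((algebraMap T1 T').comp (algebraMap T T1)).toAlgebra
    have : IsScalarTower T T1 T' := .of_algebraMap_eq fun _ => rfl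
    let : Algebra R T' := ((algebraMap T T').comp (algebraMap R T)).toAlgebra
    have : IsScalarTower R T T' := .of_algebraMap_eq fun _ => rfl
    obtain ⟨ε', he⟩ := ε.isUnit.map (algebraMap T1 T')
    have hε' : (ε' : T') * ε' = algebraMap R T' δ := by
      rw [he, ← map_mul, ← sq, hε]
      rfl
    obtain ⟨θ, hθ⟩ := h.lift (RingHom.id T') (ε' : T') hε'
    have hc : ∀ c, θ (mp S (IsScalarTower.toAlgHom R T T') c) = algebraMap T1 T' (θ1 c) := by
      intro c
      obtain ⟨a, b, rfl⟩ := h.dec c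
      rw [hθ1, map_add (mp S _), map_add (algebraMap T1 T'), map_mul, ← he]
      exact hθ (algebraMap T T' a) (algebraMap T T' b)
    obtain ⟨d, hd⟩ : IsUnit (2 : T') := by
      have := h.two.map (algebraMap R T')
      rwa [map_ofNat] at this
    obtain ⟨w2, h2⟩ : ∃ w2 : T', w1 * w2 = algebraMap T T' μ :=
      ⟨(w1⁻¹ : T'ˣ) * algebraMap T T' μ, w1.mul_inv_cancel_left _⟩
    obtain ⟨a, b, e1, e2⟩ : ∃ a b : T', a + b * ε' = w1 ∧ a + -b * ε' = w2 :=
      ⟨(d⁻¹ : T'ˣ) * (w1 + w2), (d⁻¹ : T'ˣ) * (w1 - w2) * (ε'⁻¹ : T'ˣ), by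
        linear_combination (d⁻¹ : T'ˣ) * (w1 - w2) * ε'.inv_mul + w1 * d.inv_mul -
          (d⁻¹ : T'ˣ) * w1 * hd, by
        linear_combination -(d⁻¹ : T'ˣ) * (w1 - w2) * ε'.inv_mul + w2 * d.inv_mul -
          (d⁻¹ : T'ˣ) * w2 * hd⟩
    have hn := h.nrm a b
    rw [show a * a - algebraMap R T' δ * (b * b) = algebraMap T T' μ by
      rw [← h2, ← e1, ← e2, ← hε']; ring] at hn
    have hu : IsUnit (algebraMap T' (T' ⊗[R] S) a + b ⊗ₜ[R] κ) :=
      isUnit_of_mul_isUnit_left (hn ▸ (μ.isUnit.map _).map _)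
    have hw' : (w1 : T') ^ m = algebraMap T1 T' (θ1 t) := hw
    refine ⟨T', inferInstance, inferInstance, inferInstance, inferInstance, hu.unit,
      .trans T T1 T', sep h ε'.isUnit hθ ?_ ?_, hn⟩
    · rw [map_pow, IsUnit.unit_spec, hθ, hc, ← hw']
      exact congrArg (· ^ m) e1
    · rw [map_pow, map_pow, IsUnit.unit_spec, h.io_dec, hθ, ← mp_io, hc]
      refine (w1.isUnit.pow m).mul_left_cancel ?_
      have h3 := hθ1 ((μ : T) ^ m) 0
      rw [zero_tmul, add_zero, map_zero, zero_mul, add_zero, ht] at h3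
      rw [← mul_pow, show (RingHom.id T') a + (RingHom.id T') (-b) * ε' = w2 from e2, h2, hw',
        ← map_mul, ← map_mul, h3, ← map_pow]
      rfl
  · obtain ⟨v, hv⟩ := μ.isUnit.map (algebraMap T (T ⊗[R] S))
    rw [io_id, map_pow, ← hv] at ht
    have h1 : v ^ m = t * t := Units.ext ht
    have h2 : t * (v ^ k)⁻¹ * (t * (v ^ k)⁻¹) = v := by
      rw [mul_mul_mul_comm, ← h1, hk, ← mul_inv, ← pow_add, ← two_mul, pow_succ',
        mul_inv_cancel_right]
    refine ⟨T, inferInstance, inferInstance, inferInstance, inferInstance, t * (v ^ k)⁻¹,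
      inferInstance, ?_, ?_⟩
    · rw [mp_self, ← Units.val_pow_eq_pow_val, hk, pow_succ', pow_mul, sq, h2,
        inv_mul_cancel_right]
    · rw [io_id, ← Units.val_mul, h2, hv]
      rfl

end Pool.Agent.P.MP_46a8f8_ag.GU
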