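import Pool.Agent.P.MP_46a8f8_ag.GU.Qc

/-!
An algebra with involution whose centre is split.
-/

namespace Pool.Agent.P.MP_46a8f8_ag.GU

open TensorProduct Function MulOpposite

universe u

namespace SplAP

section az

variable {R S A A₁ : Type u} [CommRing R] [CommRing S] [Algebra R S] [Ring A] [Algebra S A]
  [Algebra R A] [IsScalarTower R S A] [Ring A₁] [Algebra R A₁] {σ : A →ₗ[R] A} {ι : S →ₐ[R] S}
  {e : S} {pr : S →ₐ[R] R} {π : A →ₐ[R] A₁} {s : A₁ →ₗ[R] A}

omit [IsScalarTower R S A] in
theorem pi_smul (h : SD σ ι e pr π s) (x : S) (a : A) : π (x • a) = pr x • π a := by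
  rw [Algebra.smul_def, map_mul, h.pa, ← Algebra.smul_def]

omit [IsScalarTower R S A] in
theorem e_s (h : SD σ ι e pr π s) (y : A₁) : algebraMap S A e * s y = s y := by
  rw [← h.sp, h.ps]

theorem smul_s (h : SD σ ι e pr π s) (x : S) (y : A₁) : x • s y = pr x • s y := by
  conv_lhs => rw [← e_s h y, ← Algebra.smul_def, smul_smul, h.em, smul_assoc, Algebra.smul_def e,
    e_s h]

/-- the image of the enveloping algebra -/
noncomputable def env (h : SD σ ι e pr π s) : A ⊗[S] Aᵐᵒᵖ →+ A₁ ⊗[R] A₁ᵐᵒᵖ :=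
  TensorProduct.liftAddHom
    { toFun := fun a =>
        { toFun := fun b => π a ⊗ₜ[R] op (π b.unop)
          map_zero' := by rw [unop_zero, map_zero, op_zero, tmul_zero]
          map_add' := fun b b' => by rw [unop_add, map_add, op_add, tmul_add] }
      map_zero' := AddMonoidHom.ext fun b => by
        change π 0 ⊗ₜ[R] _ = 0
        rw [map_zero, zero_tmul]
      map_add' := fun a a' => AddMonoidHom.ext fun b => by
        change π (a + a') ⊗ₜ[R] _ = π a ⊗ₜ[R] _ + π a' ⊗ₜ[R] _
        rw [map_add, add_tmul] }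
    fun x a b => by
      change π (x • a) ⊗ₜ[R] op (π b.unop) = π a ⊗ₜ[R] op (π (x • b.unop))
      rw [pi_smul h, pi_smul h, smul_tmul, op_smul]

omit [IsScalarTower R S A] in
theorem env_tmul (h : SD σ ι e pr π s) (a : A) (b : Aᵐᵒᵖ) :
    env h (a ⊗ₜ[S] b) = π a ⊗ₜ[R] op (π b.unop) := rfl

omit [IsScalarTower R S A] in
theorem env_act (h : SD σ ι e pr π s) (t : A ⊗[S] Aᵐᵒᵖ) (a : A) :
    AlgHom.mulLeftRight R A₁ (env h t) (π a) = π (AlgHom.mulLeftRight S A t a) := by
  induction t using TensorProduct.induction_on with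
  | zero => simp
  | tmul x y =>
    rw [env_tmul, AlgHom.mulLeftRight_apply, AlgHom.mulLeftRight_apply, map_mul, map_mul, unop_op]
  | add x y hx hy => simp only [map_add, LinearMap.add_apply, hx, hy]

omit [IsScalarTower R S A] in
theorem env_lift (h : SD σ ι e pr π s) (t₁ : A₁ ⊗[R] A₁ᵐᵒᵖ) : ∃ t, env h t = t₁ ∧
    ∀ a, AlgHom.mulLeftRight S A t a = s (AlgHom.mulLeftRight R A₁ t₁ (π a)) := by
  induction t₁ using TensorProduct.induction_on with
  | zero => exact ⟨0, map_zero _, fun a => by simp⟩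
  | tmul y z =>
    refine ⟨s y ⊗ₜ[S] op (s z.unop), by rw [env_tmul, unop_op, h.ps, h.ps, op_unop], fun a => ?_⟩
    rw [AlgHom.mulLeftRight_apply, AlgHom.mulLeftRight_apply, unop_op]
    conv_rhs => rw [← h.ps y, ← h.ps z.unop, ← map_mul, ← map_mul, h.sp, ← mul_assoc, ← mul_assoc,
      e_s h]
  | add x y hx hy =>
    obtain ⟨t, h1, h2⟩ := hx
    obtain ⟨t', h3, h4⟩ := hy
    exact ⟨t + t', by rw [map_add, h1, h3], fun a => by
      simp only [map_add, LinearMap.add_apply, h2, h4]⟩

theorem az [IsAzumaya S A] [Module.Free R S] [Module.Finite R S] (h : SD σ ι e pr π s) :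
    IsAzumaya R A₁ := by
  have hb : Bijective (AlgHom.mulLeftRight S A) := IsAzumaya.bij
  have p1 : Module.Projective R A := by
    obtain ⟨g, hg⟩ := (inferInstance : Module.Projective S A)
    exact Module.Projective.of_split (g.restrictScalars R)
      ((Finsupp.linearCombination S id).restrictScalars R) (LinearMap.ext hg)
  have p2 : Module.Projective R A₁ :=
    Module.Projective.of_split s π.toLinearMap (LinearMap.ext h.ps)
  have f1 : Module.Finite R A := Module.Finite.trans S A
  have f2 : Module.Finite R A₁ :=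
    Module.Finite.of_surjective π.toLinearMap fun y => ⟨s y, h.ps y⟩
  have f3 : FaithfulSMul R A₁ := ⟨fun {c c'} hc => by
    have h1 := congrArg s (hc (π 1))
    rw [map_smul, map_smul, h.sp, mul_one, Algebra.algebraMap_eq_smul_one, ← smul_assoc,
      ← smul_assoc, ← Algebra.algebraMap_eq_smul_one, ← Algebra.algebraMap_eq_smul_one] at h1
    have h2 := congrArg pr (FaithfulSMul.algebraMap_injective S A h1)
    rwa [map_smul, map_smul, h.pe, smul_eq_mul, smul_eq_mul, mul_one, mul_one] at h2⟩
  refine ⟨(injective_iff_map_eq_zero _).2 fun t₁ h0 => ?_, fun f => ?_⟩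
  · obtain ⟨t, h1, h2⟩ := env_lift h t₁
    have h3 : t = 0 := (injective_iff_map_eq_zero _).1 hb.1 t (LinearMap.ext fun a => by
      rw [h2, h0, LinearMap.zero_apply, map_zero, LinearMap.zero_apply])
    rw [← h1, h3, map_zero]
  · let F : A →ₗ[S] A :=
      { toFun := fun a => s (f (π a))
        map_add' := fun a b => by rw [map_add, map_add, map_add]
        map_smul' := fun x a => by
          rw [pi_smul h, map_smul, map_smul, RingHom.id_apply, smul_s h] }
    obtain ⟨t, ht⟩ := hb.2 F
    refine ⟨env h t, LinearMap.ext fun y => ?_⟩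
    rw [← h.ps y, env_act, ht]
    exact h.ps _

end az

section cen

variable {R S : Type u} [CommRing R] [CommRing S] [Algebra R S] {ι : S →ₐ[R] S} {κ : S} {δ : Rˣ}

theorem dec (h : Qd ι κ δ) (x : S) : ∃ a b : R, x = algebraMap R S a + algebraMap R S b * κ := by
  obtain ⟨v, v0, v1⟩ := h.bas
  refine ⟨v.repr x 0, v.repr x 1, ?_⟩
  conv_lhs => rw [← v.sum_repr x, Fin.sum_univ_two, v0, v1, Algebra.smul_def, Algebra.smul_def,
    mul_one]

theorem exists_pr (h : Qd ι κ δ) {r : R} (hr : r * r = δ) : ∃ pr : S →ₐ[R] R, pr κ = r := by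
  obtain ⟨v, v0, v1⟩ := h.bas
  let l : S →ₗ[R] R := v.constr R ![1, r]
  have l0 : l 1 = 1 := by
    rw [← v0]
    exact v.constr_basis R _ 0
  have l1 : l κ = r := by
    rw [← v1]
    exact v.constr_basis R _ 1
  have l2 : ∀ a b : R, l (algebraMap R S a + algebraMap R S b * κ) = a + b * r := fun a b => by
    rw [map_add, Algebra.algebraMap_eq_smul_one, ← Algebra.smul_def, map_smul, map_smul, l0, l1,
      smul_eq_mul, smul_eq_mul, mul_one]
  refine ⟨AlgHom.ofLinearMap l l0 fun x y => ?_, l1⟩
  obtain ⟨a, b, rfl⟩ := dec h x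
  obtain ⟨c, d, rfl⟩ := dec h y
  have : (algebraMap R S a + algebraMap R S b * κ) * (algebraMap R S c + algebraMap R S d * κ) =
      algebraMap R S (a * c + b * d * δ) + algebraMap R S (a * d + b * c) * κ := by
    simp only [map_add, map_mul, ← h.sq]
    ring
  rw [this, l2, l2, l2, ← hr]
  ring

theorem exists_e (h : Qd ι κ δ) {r : R} (hr : r * r = δ) {pr : S →ₐ[R] R} (hp : pr κ = r) :
    ∃ e : S, ι e = 1 - e ∧ pr e = 1 ∧ ∀ x : S, x * e = pr x • e := by
  obtain ⟨t, ht⟩ := h.two.exists_left_inv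
  obtain ⟨q, hq⟩ := (isUnit_of_mul_isUnit_left (hr ▸ δ.isUnit : IsUnit (r * r))).exists_left_inv
  have t1 : algebraMap R S t * 2 = 1 := by
    have := congrArg (algebraMap R S) ht
    rwa [map_mul, map_ofNat, map_one] at this
  have q1 : algebraMap R S q * algebraMap R S r = 1 := by rw [← map_mul, hq, map_one]
  have k1 : κ * κ = algebraMap R S r * algebraMap R S r := by rw [← map_mul, hr, h.sq]
  refine ⟨algebraMap R S t * (1 + algebraMap R S q * κ), ?_, ?_, fun x => ?_⟩
  · simp only [map_mul, map_add, map_one, AlgHom.commutes, h.skew]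
    linear_combination t1
  · simp only [map_mul, map_add, map_one, AlgHom.commutes, hp, Algebra.algebraMap_self,
      RingHom.id_apply]
    linear_combination ht + t * hq
  · obtain ⟨a, b, rfl⟩ := dec h x
    simp only [Algebra.smul_def, map_mul, map_add, AlgHom.commutes, hp, Algebra.algebraMap_self,
      RingHom.id_apply]
    linear_combination (algebraMap R S b * algebraMap R S t * algebraMap R S q) * k1 +
      (algebraMap R S b * algebraMap R S t * (algebraMap R S r - κ)) * q1

theorem ii (h : Qd ι κ δ) (x : S) : ι (ι x) = x := by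
  obtain ⟨a, b, rfl⟩ := dec h x
  simp only [map_add, map_mul, map_neg, AlgHom.commutes, h.skew, neg_neg]

end cen

end SplAP

open SplAP in
theorem pSplA : S_SplA.{u} := by
  intro R S A _ _ _ _ _ _ _ _ σ ι κ δ r h hr hσ hs
  obtain ⟨pr, hp⟩ := exists_pr h hr
  obtain ⟨e, e1, e2, e3⟩ := exists_e h hr hp
  obtain ⟨v, -, -⟩ := h.bas
  have : Module.Free R S := Module.Free.of_basis v
  have : Module.Finite R S := Module.Finite.of_basis v
  let : Algebra S R := pr.toRingHom.toAlgebra
  have hsm : ∀ (x : S) (c : R), x • c = pr x * c := fun _ _ => rfl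
  have : IsScalarTower R S R := IsScalarTower.of_algebraMap_eq fun x => (pr.commutes x).symm
  let j : R →ₗ[S] S :=
    { toFun := fun c => c • e
      map_add' := fun c d => add_smul c d e
      map_smul' := fun x c => by
        rw [hsm, RingHom.id_apply, smul_eq_mul, mul_smul_comm, e3, smul_smul, mul_comm] }
  let s : R ⊗[S] A →ₗ[R] A :=
    ((TensorProduct.lid S A).toLinearMap ∘ₗ j.rTensor A).restrictScalars R
  have s1 : ∀ (c : R) (a : A), s (c ⊗ₜ[S] a) = (c • e) • a := fun _ _ => rfl
  have pa : ∀ x : S, (1 : R) ⊗ₜ[S] algebraMap S A x = algebraMap R (R ⊗[S] A) (pr x) := fun x => by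
    rw [Algebra.algebraMap_eq_smul_one, ← smul_tmul, hsm, mul_one]
    rfl
  let π : A →ₐ[R] R ⊗[S] A :=
    { (Algebra.TensorProduct.includeRight : A →ₐ[S] R ⊗[S] A).toRingHom with
      commutes' := fun c => by
        have := pa (algebraMap R S c)
        rwa [← IsScalarTower.algebraMap_apply, AlgHom.commutes] at this }
  have p1 : ∀ a, π a = (1 : R) ⊗ₜ[S] a := fun _ => rfl
  have H : SD σ ι e pr π s := by
    refine ⟨hσ, hs, ii h, e1, e2, e3, fun y => ?_, fun a => ?_, pa⟩
    · induction y using TensorProduct.induction_on with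
      | zero => rw [map_zero, map_zero]
      | tmul c a => rw [s1, p1, ← smul_tmul, hsm, map_smul, e2, smul_eq_mul, mul_one, mul_one]
      | add x y hx hy => rw [map_add, map_add, hx, hy]
    · rw [p1, s1, one_smul, Algebra.smul_def]
  exact ⟨R ⊗[S] A, inferInstance, inferInstance, e, pr, π, s, az H, H⟩

end Pool.Agent.P.MP_46a8f8_ag.GU
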