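import Pool.Agent.P.MP_46a8f8_ag.GU.Qc

/-!
Base change of a splitting and the two components of an algebra with split centre.
-/

namespace Pool.Agent.P.MP_46a8f8_ag.GU

open TensorProduct Function MulOpposite

universe u

namespace SplBP

/-- base change of a matrix algebra -/
noncomputable def mb (n : ℕ) (T T' : Type u) [CommRing T] [CommRing T'] [Algebra T T'] :
    T' ⊗[T] Matrix (Fin n) (Fin n) T ≃ₐ[T'] Matrix (Fin n) (Fin n) T' :=
  AlgEquiv.ofRingEquiv (f := (matrixEquivTensor (Fin n) T T').symm.toRingEquiv) fun c => by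
    change (matrixEquivTensor (Fin n) T T').symm (c ⊗ₜ[T] 1) = _
    rw [matrixEquivTensor_apply_symm, Matrix.map_one _ (map_zero _) (map_one _),
      Algebra.algebraMap_eq_smul_one]

theorem mb_tmul (n : ℕ) (T T' : Type u) [CommRing T] [CommRing T'] [Algebra T T'] (c : T')
    (M : Matrix (Fin n) (Fin n) T) : mb n T T' (c ⊗ₜ[T] M) = c • M.map (algebraMap T T') :=
  matrixEquivTensor_apply_symm _ _ _ c M

variable {R S A A₁ : Type u} [CommRing R] [CommRing S] [Algebra R S] [Ring A] [Algebra S A]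
  [Algebra R A] [Ring A₁] [Algebra R A₁] {σ : A →ₗ[R] A} {ι : S →ₐ[R] S}
  {e : S} {pr : S →ₐ[R] R} {π : A →ₐ[R] A₁} {s : A₁ →ₗ[R] A}

/-- the second component -/
theorem opp (h : SD σ ι e pr π s) : ∃ (π' : A →ₐ[R] A₁ᵐᵒᵖ) (s' : A₁ᵐᵒᵖ →ₗ[R] A),
    SD σ ι (ι e) (pr.comp ι) π' s' ∧ ∀ a, π' a = op (π (σ a)) := by
  have h1 : σ 1 = 1 := by
    have := h.st 1
    rwa [map_one ι, map_one (algebraMap S A)] at this
  let π' : A →ₐ[R] A₁ᵐᵒᵖ := AlgHom.ofLinearMap
    ((opLinearEquiv R).toLinearMap ∘ₗ π.toLinearMap ∘ₗ σ)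
    (by
      change op (π (σ 1)) = 1
      rw [h1, map_one, op_one])
    fun x y => by
      change op (π (σ (x * y))) = op (π (σ x)) * op (π (σ y))
      rw [h.inv.1, map_mul, op_mul]
  let s' : A₁ᵐᵒᵖ →ₗ[R] A := σ ∘ₗ s ∘ₗ (opLinearEquiv R).symm.toLinearMap
  refine ⟨π', s', ⟨h.inv, h.st, h.ii, ?_, ?_, fun x => ?_, fun y => ?_, fun a => ?_, fun x => ?_⟩,
    fun _ => rfl⟩
  · rw [h.ii, h.ie, sub_sub_cancel]
  · rw [AlgHom.comp_apply, h.ii, h.pe]
  · rw [AlgHom.comp_apply, ← map_smul, ← h.em, map_mul, h.ii]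
  · change op (π (σ (σ (s y.unop)))) = y
    rw [h.inv.2, h.ps, op_unop]
  · change σ (s (π (σ a))) = _
    rw [h.sp, h.inv.1, h.inv.2, h.st, Algebra.commutes]
  · change op (π (σ _)) = _
    rw [h.st, h.pa]
    rfl

variable [IsScalarTower R S A] {T : Type u} [CommRing T] [Algebra R T] [Algebra S T]
  [IsScalarTower R S T]

/-- the first component -/
theorem first (h : SD σ ι e pr π s) (he : algebraMap S T e = 1) :
    ∃ Ψ : T ⊗[S] A ≃ₐ[T] T ⊗[R] A₁, ∀ t a, Ψ (t ⊗ₜ[S] a) = t ⊗ₜ[R] π a := by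
  have k : ∀ x : S, algebraMap S T x = algebraMap R T (pr x) := fun x => by
    have := congrArg (algebraMap S T) (h.em x)
    rwa [map_mul, Algebra.smul_def, map_mul, he, mul_one, mul_one,
      ← IsScalarTower.algebraMap_apply] at this
  let g : A →ₐ[S] T ⊗[R] A₁ :=
    { ((Algebra.TensorProduct.includeRight : A₁ →ₐ[R] T ⊗[R] A₁).comp π).toRingHom with
      commutes' := fun x => by
        change (1 : T) ⊗ₜ[R] π (algebraMap S A x) = algebraMap S T x ⊗ₜ[R] (1 : A₁)
        rw [h.pa, k, Algebra.algebraMap_eq_smul_one, ← smul_tmul,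
          ← Algebra.algebraMap_eq_smul_one] }
  let F : T ⊗[S] A →ₐ[T] T ⊗[R] A₁ := Algebra.TensorProduct.lift (Algebra.ofId T _) g
    fun x y => Algebra.commute_algebraMap_left x _
  have hF : ∀ t a, F (t ⊗ₜ[S] a) = t ⊗ₜ[R] π a := fun t a => by
    change (t ⊗ₜ[R] (1 : A₁)) * ((1 : T) ⊗ₜ[R] π a) = _
    rw [Algebra.TensorProduct.tmul_mul_tmul, mul_one, one_mul]
  let G : T ⊗[R] A₁ →ₗ[T] T ⊗[S] A := (ov R S A T).toLinearMap ∘ₗ s.baseChange T
  have hG : ∀ t y, G (t ⊗ₜ[R] y) = t ⊗ₜ[S] s y := fun _ _ => rfl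
  refine ⟨AlgEquiv.ofBijective F (bijective_iff_has_inverse.2 ⟨G, fun x => ?_, fun y => ?_⟩), hF⟩
  · induction x using TensorProduct.induction_on with
    | zero => rw [map_zero, map_zero]
    | tmul t a =>
      rw [hF, hG, h.sp, ← Algebra.smul_def, ← smul_tmul, Algebra.smul_def, he, one_mul]
    | add x y hx hy => rw [map_add, map_add, hx, hy]
  · induction y using TensorProduct.induction_on with
    | zero => rw [map_zero, map_zero]
    | tmul t y => rw [hG, hF, h.ps]
    | add x y hx hy => rw [map_add, map_add, hx, hy]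

end SplBP

open SplBP in
theorem pSplB : S_SplB.{u} := by
  intro S A T T' _ _ _ _ _ _ _ f n Φ
  let := f.toRingHom.toAlgebra
  have : IsScalarTower S T T' := IsScalarTower.of_algebraMap_eq fun r => (f.commutes r).symm
  have e : IsScalarTower.toAlgHom S T T' = f := rfl
  refine ⟨((can S A T' T).symm.trans
    (Algebra.TensorProduct.congr (AlgEquiv.refl (R := T') (A₁ := T')) Φ)).trans (mb n T T'),
    fun x => ?_⟩
  have h : (can S A T' T).symm (mp A f x) = (1 : T') ⊗ₜ[T] x := by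
    rw [AlgEquiv.symm_apply_eq, can_tmul, one_smul, e]
  rw [AlgEquiv.trans_apply, AlgEquiv.trans_apply, h, Algebra.TensorProduct.congr_apply,
    Algebra.TensorProduct.map_tmul, mb_tmul, map_one, one_smul]
  rfl

open SplBP in
theorem pSplC : S_SplC.{u} := by
  intro R S A A₁ T _ _ _ _ _ _ _ _ _ _ _ _ _ σ ι e pr π s h
  refine ⟨fun he => ?_, fun he => ?_⟩
  · obtain ⟨Ψ, hΨ⟩ := first (T := T) h he
    refine ⟨Ψ, fun x => ?_⟩
    induction x using TensorProduct.induction_on with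
    | zero => rw [map_zero, map_zero, map_zero]
    | tmul t a => exact hΨ t a
    | add x y hx hy => rw [map_add, map_add, map_add, hx, hy]
  · obtain ⟨π', s', h', hπ⟩ := opp h
    obtain ⟨Ψ, hΨ⟩ := first (T := T) h' (by rw [h.ie, map_sub, map_one, he, sub_zero])
    refine ⟨(Ψ.trans (Algebra.TensorProduct.congr (AlgEquiv.toOpposite T T) AlgEquiv.refl)).trans
      (Algebra.TensorProduct.opAlgEquiv R T T A₁), fun x => ?_⟩
    unfold conj
    induction x using TensorProduct.induction_on with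
    | zero => simp only [map_zero, op_zero]
    | tmul t a =>
      rw [ov_tmul, AlgEquiv.trans_apply, AlgEquiv.trans_apply, hΨ, hπ]
      rfl
    | add x y hx hy => simp only [map_add, hx, hy, op_add]

end Pool.Agent.P.MP_46a8f8_ag.GU
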