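import Pool.Agent.P.MP_46a8f8_ag.GU.Qc

/-!
Torsors for an algebra with involution whose centre is split.
-/

namespace Pool.Agent.P.MP_46a8f8_ag.GU

open TensorProduct Function

universe u

namespace SplTP

variable {R S A A₁ : Type u} [CommRing R] [CommRing S] [Algebra R S] [Ring A] [Algebra S A]
  [Algebra R A] [Ring A₁] [Algebra R A₁] {σ : A →ₗ[R] A} {ι : S →ₐ[R] S}
  {e : S} {pr : S →ₐ[R] R} {π : A →ₐ[R] A₁} {s : A₁ →ₗ[R] A}
  {T T' : Type u} [CommRing T] [Algebra R T] [CommRing T'] [Algebra R T']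

theorem c_tmul (t : T) (a : A) : conj σ (t ⊗ₜ[R] a) = t ⊗ₜ[R] σ a := rfl

theorem c_add (x y : T ⊗[R] A) : conj σ (x + y) = conj σ x + conj σ y := map_add (σ.lTensor T) x y

theorem c_zero : conj σ (0 : T ⊗[R] A) = 0 := map_zero (σ.lTensor T)

theorem c_mul (h : IsInvol σ) (x y : T ⊗[R] A) : conj σ (x * y) = conj σ y * conj σ x := by
  induction x using TensorProduct.induction_on with
  | zero => rw [zero_mul, c_zero, mul_zero]
  | tmul s a =>
    induction y using TensorProduct.induction_on with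
    | zero => rw [mul_zero, c_zero, zero_mul]
    | tmul t b =>
      rw [Algebra.TensorProduct.tmul_mul_tmul, c_tmul, c_tmul, c_tmul,
        Algebra.TensorProduct.tmul_mul_tmul, h.1, mul_comm s t]
    | add x y hx hy => simp only [mul_add, add_mul, c_add, hx, hy]
  | add x x' hx hx' => simp only [mul_add, add_mul, c_add, hx, hx']

theorem c_c (h : IsInvol σ) (x : T ⊗[R] A) : conj σ (conj σ x) = x := by
  induction x using TensorProduct.induction_on with
  | zero => rw [c_zero, c_zero]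
  | tmul s a => rw [c_tmul, c_tmul, h.2]
  | add x y hx hy => simp only [c_add, hx, hy]

theorem c_one (h : IsInvol σ) : conj σ (1 : T ⊗[R] A) = 1 := by
  have := c_mul h (conj σ (1 : T ⊗[R] A)) 1
  rw [mul_one, c_c h, mul_one] at this
  exact this.symm

theorem c_map (f : T →ₐ[R] T') (x : T ⊗[R] A) :
    conj σ (mp A f x) = mp A f (conj σ x) := by
  induction x using TensorProduct.induction_on with
  | zero => rw [map_zero, c_zero, c_zero, map_zero]
  | tmul s a => rfl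
  | add x y hx hy => simp only [map_add, c_add, hx, hy]

theorem p_map (f : T →ₐ[R] T') (x : T ⊗[R] A) :
    bcA π T' (mp A f x) = mp A₁ f (bcA π T x) := by
  induction x using TensorProduct.induction_on with
  | zero => simp only [map_zero]
  | tmul s a => rfl
  | add x y hx hy => simp only [map_add, hx, hy]

theorem uni_one (h : IsInvol σ) : IsUni σ (1 : T ⊗[R] A) :=
  ⟨by rw [c_one h, mul_one], by rw [c_one h, mul_one]⟩

theorem uni_mul (h : IsInvol σ) {g g' : T ⊗[R] A} (hg : IsUni σ g) (hg' : IsUni σ g') :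
    IsUni σ (g * g') :=
  ⟨by rw [c_mul h, mul_assoc, ← mul_assoc g', hg'.1, one_mul, hg.1],
    by rw [c_mul h, mul_assoc, ← mul_assoc _ g, hg.2, one_mul, hg'.2]⟩

theorem uni_pow (h : IsInvol σ) {g : T ⊗[R] A} (hg : IsUni σ g) (m : ℕ) : IsUni σ (g ^ m) := by
  induction m with
  | zero => rw [pow_zero]; exact uni_one h
  | succ m ih => rw [pow_succ]; exact uni_mul h ih hg

theorem uni_map (f : T →ₐ[R] T') {g : T ⊗[R] A} (hg : IsUni σ g) : IsUni σ (mp A f g) :=
  ⟨by rw [c_map, ← map_mul, hg.1, map_one], by rw [c_map, ← map_mul, hg.2, map_one]⟩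

theorem p_s (h : SD σ ι e pr π s) (y : T ⊗[R] A₁) : bcA π T (s.lTensor T y) = y := by
  induction y using TensorProduct.induction_on with
  | zero => simp only [map_zero]
  | tmul t y => exact congrArg (t ⊗ₜ[R] ·) (h.ps y)
  | add x y hx hy => simp only [map_add, hx, hy]

theorem s_p (h : SD σ ι e pr π s) (x : T ⊗[R] A) :
    s.lTensor T (bcA π T x) = (1 : T) ⊗ₜ[R] algebraMap S A e * x := by
  induction x using TensorProduct.induction_on with
  | zero => simp only [map_zero, mul_zero]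
  | tmul t a =>
    rw [Algebra.TensorProduct.tmul_mul_tmul, one_mul, ← h.sp]
    rfl
  | add x y hx hy => simp only [map_add, mul_add, hx, hy]

omit [Algebra R S] in
theorem e_comm (x : T ⊗[R] A) :
    (1 : T) ⊗ₜ[R] algebraMap S A e * x = x * (1 : T) ⊗ₜ[R] algebraMap S A e := by
  induction x using TensorProduct.induction_on with
  | zero => rw [mul_zero, zero_mul]
  | tmul t a =>
    rw [Algebra.TensorProduct.tmul_mul_tmul, Algebra.TensorProduct.tmul_mul_tmul, mul_comm,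
      Algebra.commutes]
  | add x y hx hy => rw [mul_add, add_mul, hx, hy]

theorem c_e (h : SD σ ι e pr π s) : conj σ ((1 : T) ⊗ₜ[R] algebraMap S A e) =
    1 - (1 : T) ⊗ₜ[R] algebraMap S A e := by
  rw [c_tmul, h.st, h.ie, map_sub, map_one, tmul_sub, Algebra.TensorProduct.one_def]

theorem p_e (h : SD σ ι e pr π s) : bcA π T ((1 : T) ⊗ₜ[R] algebraMap S A e) = 1 := by
  change (1 : T) ⊗ₜ[R] π (algebraMap S A e) = 1
  rw [h.pa, h.pe, map_one, Algebra.TensorProduct.one_def]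

/-- an element is determined by its two components -/
theorem inj (h : SD σ ι e pr π s) {x x' : T ⊗[R] A} (h1 : bcA π T x = bcA π T x')
    (h2 : bcA π T (conj σ x) = bcA π T (conj σ x')) : x = x' := by
  have h3 := congrArg (s.lTensor T) h1
  have h4 := congrArg (fun y => conj σ (s.lTensor T y)) h2
  simp only [s_p h, c_mul h.inv, c_c h.inv, c_e h, mul_sub, mul_one] at h3 h4
  rw [← e_comm, ← e_comm, h3] at h4
  exact sub_left_injective h4

theorem p_c_s (h : SD σ ι e pr π s) (y : T ⊗[R] A₁) : bcA π T (conj σ (s.lTensor T y)) = 0 := by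
  conv_lhs => rw [← p_s h y, s_p h, c_mul h.inv, c_e h, map_mul, map_sub, map_one, p_e h, sub_self,
    mul_zero]

theorem uniq (h : SD σ ι e pr π s) {g g' : T ⊗[R] A} (hg : IsUni σ g) (hg' : IsUni σ g')
    (h1 : bcA π T g = bcA π T g') : g = g' := by
  refine inj h h1 (left_inv_eq_right_inv (a := bcA π T g) ?_ ?_)
  · rw [← map_mul, hg.2, map_one]
  · rw [h1, ← map_mul, hg'.1, map_one]

theorem exu (h : SD σ ι e pr π s) {y : T ⊗[R] A₁} (hy : IsUnit y) :
    ∃ g, IsUni σ g ∧ bcA π T g = y := by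
  obtain ⟨u, rfl⟩ := hy
  obtain ⟨g, h1, h2⟩ : ∃ g, bcA π T g = u ∧ bcA π T (conj σ g) = (u⁻¹ : (T ⊗[R] A₁)ˣ) :=
    ⟨s.lTensor T u + conj σ (s.lTensor T (u⁻¹ : (T ⊗[R] A₁)ˣ)),
      by rw [map_add, p_s h, p_c_s h, add_zero],
      by rw [c_add, c_c h.inv, map_add, p_s h, p_c_s h, zero_add]⟩
  refine ⟨g, ⟨inj h ?_ ?_, inj h ?_ ?_⟩, h1⟩
  · rw [map_mul, h1, h2, u.mul_inv, map_one]
  · rw [c_mul h.inv, c_c h.inv, map_mul, h1, h2, u.mul_inv, c_one h.inv, map_one]
  · rw [map_mul, h1, h2, u.inv_mul, map_one]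
  · rw [c_mul h.inv, c_c h.inv, map_mul, h1, h2, u.inv_mul, c_one h.inv, map_one]

theorem unit_p {g : T ⊗[R] A} (hg : IsUni σ g) : IsUnit (bcA π T g) :=
  IsUnit.map _ ⟨⟨g, conj σ g, hg.1, hg.2⟩, rfl⟩

theorem mu_iff (h : SD σ ι e pr π s) {g : T ⊗[R] A} (hg : IsUni σ g) (m : ℕ) :
    Mu R A m T g ↔ Mu R A₁ m T (bcA π T g) := by
  refine ⟨fun h1 => ⟨by rw [← map_pow, h1.1, map_one], fun y => ?_⟩, fun h1 =>
    ⟨uniq h (uni_pow h.inv hg m) (uni_one h.inv) (by rw [map_pow, h1.1, map_one]),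
      fun x => inj h (by rw [map_mul, map_mul, h1.2]) ?_⟩⟩
  · rw [← p_s h y, ← map_mul, h1.2, map_mul]
  · have h2 : bcA π T g * bcA π T (conj σ g) = 1 := by rw [← map_mul, hg.1, map_one]
    rw [c_mul h.inv, c_mul h.inv, map_mul, map_mul]
    refine (unit_p (π := π) hg).mul_left_cancel ?_
    rw [← mul_assoc, h1.2, mul_assoc, h2, ← mul_assoc, h2, mul_one, one_mul]

end SplTP

open SplTP in
theorem pSplT (h1 : S_SplN.{u}) : S_SplT.{u} := by
  intro R S A A₁ O _ _ _ _ _ _ _ _ _ _ _ σ ι e pr π s n m N h hN ⟨hO, a, a1, a2, a3, a4, a5⟩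
  have hF : ∀ (T : Type u) [CommRing T] [Algebra R T] (g : Pts (SLn N) T),
      ∃ g' : Pts (SpecU S σ) T, bcA π T g'.1 = g.1 := fun T _ _ g => by
    obtain ⟨x, hx, hx'⟩ := exu h g.2.1
    exact ⟨⟨x, hx, (h1 R S A A₁ T σ ι e pr π s n N x h hN hx).2 (hx' ▸ g.2.2)⟩, hx'⟩
  choose F hF using hF
  refine ⟨hO, fun T _ _ g p => a T (F T g) p, fun T _ _ g p hg => a1 T _ p ?_,
    fun T _ _ g g' k p hk => a2 T _ _ _ p ?_, fun T T' _ _ _ _ f g g' p hg => a3 T T' f _ _ p ?_,
    fun T _ _ g p => (a4 T _ p).trans ?_, fun T _ _ p q => ?_⟩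
  · exact uniq h (F T g).2.1 (uni_one h.inv) (by rw [hF, hg, map_one])
  · exact uniq h (F T k).2.1 (uni_mul h.inv (F T g).2.1 (F T g').2.1)
      (by rw [map_mul, hF, hF, hF, hk])
  · exact uniq h (F T' g').2.1 (uni_map f (F T g).2.1) <| by
      rw [hF, hg, ← hF T g]
      exact (p_map f _).symm
  · rw [mu_iff h (F T g).2.1, hF]
  · obtain ⟨T', _, _, f, g, hf, hg⟩ := a5 T p q
    refine ⟨T', _, _, f, ⟨bcA π T' g.1, unit_p g.2.1,
      (h1 R S A A₁ T' σ ι e pr π s n N g.1 h hN g.2.1).1 g.2.2⟩, hf, ?_⟩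
    rw [← hg]
    exact congrArg (a T' · _) (Subtype.ext (uniq h (F T' _).2.1 g.2.1 (hF T' _)))

end Pool.Agent.P.MP_46a8f8_ag.GU
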