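import Pool.Agent.P.MP_46a8f8_ag.GU.Qc

/-!
Twisted forms of Azumaya algebras.
-/

namespace Pool.Agent.P.MP_46a8f8_ag.GU

open TensorProduct Function IsLocalRing Polynomial

universe u

open TwP H90P in
theorem pTw0 : S_Tw0.{u} := by
  intro R A O _ _ _ _ _ _ _ ρ c hc
  have hn' : Nt c := hc.nat
  let e : O ⊗[R] tw c ≃ₐ[O] O ⊗[R] A :=
    AlgEquiv.ofBijective (TwP.nu c) ⟨nu_injective hn', nu_surjective hn' hc.mul⟩
  have he : ∀ z : tw c, e ((1 : O) ⊗ₜ[R] z) = z := nu_one c
  have : Module.Finite O (O ⊗[R] tw c) := Module.Finite.equiv e.symm.toLinearEquiv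
  refine ⟨tw c, inferInstance, inferInstance, e,
    Module.Finite.of_finite_tensorProduct_of_faithfullyFlat O, fun T _ _ p q a => ?_⟩
  have h0 : dl c a = 0 := (exact_dl c).apply_apply_eq_zero a
  have h2 := TwP.mp_dl hn' (pr p q) (a : O ⊗[R] A)
  rw [h0, map_zero, pr_iL, pr_iR, eq_comm, sub_eq_zero] at h2
  rw [he]
  exact h2

namespace Tw0P

theorem bij_bc {R A : Type u} (O : Type u) [CommRing R] [Ring A] [Algebra R A] [CommRing O]
    [Algebra R O] [Module.Free R A] [Module.Finite R A] :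
    ∃ d : R, (Bijective (AlgHom.mulLeftRight R A) ↔ IsUnit d) ∧
      (Bijective (AlgHom.mulLeftRight O (O ⊗[R] A)) ↔ IsUnit (algebraMap R O d)) := by
  classical
  let e := Module.Free.chooseBasis R A
  refine ⟨(AzDP.mat e).det, AzDP.bij_iff e,
    (AzDP.bij_iff (Algebra.TensorProduct.basis O e)).trans ?_⟩
  have h : AzDP.mat (Algebra.TensorProduct.basis O e) =
      (algebraMap R O).mapMatrix (AzDP.mat e) := by
    ext kl ij
    simp [AzDP.mat, Algebra.TensorProduct.basis_apply, Algebra.TensorProduct.basis_repr_tmul]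
  rw [h, ← RingHom.map_det]

end Tw0P

theorem pAzD0 : S_AzD0.{u} := by
  intro R A A' O _ _ _ _ _ _ _ _ _ _ _ ⟨μ⟩
  have : Module.Free R A := Module.free_of_flat_of_isLocalRing
  have : Module.Flat O (O ⊗[R] A') := Module.Flat.of_linearEquiv μ.toLinearEquiv
  have : Module.Flat R A' := Module.Flat.of_flat_tensorProduct R A' O
  have : Module.Free R A' := Module.free_of_flat_of_isLocalRing
  have : Nontrivial A := (FaithfulSMul.algebraMap_injective R A).nontrivial
  have : Nontrivial A' := by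
    by_contra hn
    have : Subsingleton A' := not_nontrivial_iff_subsingleton.1 hn
    have : Subsingleton (O ⊗[R] A) := μ.symm.injective.subsingleton
    exact one_ne_zero (Module.FaithfullyFlat.tensorProduct_mk_injective (A := R) (B := O) A
      (Subsingleton.elim _ _) : (1 : A) = 0)
  obtain ⟨d, d1, d2⟩ := Tw0P.bij_bc (R := R) (A := A) O
  obtain ⟨d', d1', d2'⟩ := Tw0P.bij_bc (R := R) (A := A') O
  have h1 := d2'.1 (AzDP.bij_equiv μ.symm (d2.2 ((d1.1 IsAzumaya.bij).map _)))
  refine { bij := d1'.2 ?_ }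
  by_contra hn
  have h2 : (maximalIdeal R).map (algebraMap R O) = ⊤ :=
    Ideal.eq_top_of_isUnit_mem _ (Ideal.mem_map_of_mem _ hn) h1
  refine Module.FaithfullyFlat.submodule_ne_top (R := R) (M := O) (maximalIdeal.isMaximal R) ?_
  rw [Ideal.smul_top_eq_map, h2]
  rfl

end Pool.Agent.P.MP_46a8f8_ag.GU
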