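import Pool.Agent.P.MP_46a8f8_ag.GU.Qc

/-!
The reduced norm of a similitude for an involution of the first kind.
-/

namespace Pool.Agent.P.MP_46a8f8_ag.GU

open TensorProduct Function IsLocalRing

universe u

theorem pUD0 : S_UD0.{u} := by
  intro R S A C _ _ _ _ _ _ _ _ _ _ _ _ n k N g μ hG hN hs hn hg
  have := hG.fin
  have := hG.free
  have := hG.freeA
  have := hG.finA
  have := hG.dom
  let Ω := AlgebraicClosure (FractionRing C)
  let f : C →ₐ[R] Ω := IsScalarTower.toAlgHom R C Ω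
  have hf : Injective f := by
    change Injective (algebraMap C Ω)
    rw [IsScalarTower.algebraMap_eq C (FractionRing C) Ω, RingHom.coe_comp]
    exact (algebraMap (FractionRing C) Ω).injective.comp (IsFractionRing.injective C _)
  let e : R ≃+* S := RingEquiv.ofBijective (algebraMap R S) ⟨hG.inj, hs⟩
  letI : Algebra S Ω := ((algebraMap R Ω).comp e.symm.toRingHom).toAlgebra
  have : IsScalarTower R S Ω := IsScalarTower.of_algebraMap_eq fun r =>
    congrArg (algebraMap R Ω) (e.symm_apply_apply r).symm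
  have : CompatibleSMul R S Ω A := ⟨fun s t a => by
    obtain ⟨r, rfl⟩ := hs s
    rw [algebraMap_smul, algebraMap_smul, smul_tmul]⟩
  obtain ⟨n', ⟨Ψ₀⟩⟩ := wed ss Ω (Ω ⊗[S] A) (azBC S A Ω hG.az)
  obtain rfl : n = n' := by
    have h := Ψ₀.toLinearEquiv.finrank_eq
    rw [Module.finrank_baseChange, hN.rank, Module.finrank_matrix, Fintype.card_fin,
      Module.finrank_self, mul_one, ← sq] at h
    exact Nat.pow_left_injective two_ne_zero h
  let Ψ := (Algebra.TensorProduct.equivOfCompatibleSMul S R Ω Ω A).trans Ψ₀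
  have hd : ∀ x, N Ω x = algebraMap Ω (Ω ⊗[R] S) (Ψ x).det := fun x => by
    obtain ⟨t, ht⟩ := surj_bc hs Ω (N Ω x)
    have h := hN.det Ω n Ψ₀ x
    rw [← ht, evS_alg] at h
    rw [← ht, h]
    rfl
  obtain ⟨l, hl⟩ := IsAlgClosed.exists_eq_mul_self (f μ)
  have l0 : l ≠ 0 := by
    rintro rfl
    exact (hG.unit_sml hg).ne_zero (hf (by rw [hl, mul_zero, map_zero]))
  let c : (Ω ⊗[R] A)ˣ :=
    Units.map (algebraMap Ω (Ω ⊗[R] A) : Ω →* Ω ⊗[R] A) (Units.mk0 l⁻¹ (inv_ne_zero l0))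
  have hc0 : (c : Ω ⊗[R] A) = algebraMap Ω _ l⁻¹ := rfl
  have hc : Sml R A Ω c (l⁻¹ * l⁻¹) := by rw [Sml, hc0, cj_alg, map_mul]
  have hcd : dI R A Ω c = 1 := dI_cen fun x => Algebra.commutes l⁻¹ x
  have h2 := hc.mul (hg.map f)
  rw [hl, mul_mul_mul_comm, inv_mul_cancel₀ l0, mul_one] at h2
  have h3 := (allDA1 R A Ω n Ψ).2 _ h2
  have hp : ∀ x : Ω, x ^ n = (x * x) ^ k := fun x => by rw [hn, pow_mul, sq]
  rw [dI_mul _ (hg.map f), hcd, one_mul, dI_map, pow_succ, hp,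
    DA1P.det_sq Ψ h2, one_pow, one_mul, Units.val_mul, map_mul, hc0, AlgEquiv.commutes,
    Matrix.det_mul, Algebra.algebraMap_eq_smul_one, Matrix.det_smul, Matrix.det_one, mul_one,
    Fintype.card_fin] at h3
  refine mp_inj_of hf ?_
  rw [hN.nat, hd, mp_alg, map_mul, map_pow, h3, hl, ← hp, mul_right_comm,
    ← mul_pow, inv_mul_cancel₀ l0, one_pow, one_mul]
  rfl

end Pool.Agent.P.MP_46a8f8_ag.GU
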