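import Pool.Agent.P.MP_46a8f8_ag.GU.Tor5

/-!
The spin group of a quadratic form.
-/

namespace Pool.Agent.P.MP_46a8f8_ag.GU

open TensorProduct

universe u

variable {R V : Type u} [CommRing R] [AddCommGroup V] [Module R V]

/-- `x` lies in the image of `T ⊗ V` in `T ⊗ C(V,Q)` -/
def IsVec (Q : QuadraticForm R V) {T : Type u} [CommRing T] [Algebra R T]
    (x : T ⊗[R] CliffordAlgebra Q) : Prop :=
  ∃ v : T ⊗[R] V, onT (CliffordAlgebra.ι Q) v = x

/-- the spin group `Spin(Q)`: the even elements `g` of the Clifford algebra such that the reverse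
of `g` is its inverse and conjugation by `g` maps the set of vectors onto itself -/
def SpinF (Q : QuadraticForm R V) : Fam R (CliffordAlgebra Q) :=
  fun _ _ _ g => onT (CliffordAlgebra.involute (Q := Q)).toLinearMap g = g ∧
    IsUni (CliffordAlgebra.reverse (Q := Q)) g ∧
    ∀ x, IsVec Q x ↔ IsVec Q (g * x * conj (CliffordAlgebra.reverse (Q := Q)) g)

end Pool.Agent.P.MP_46a8f8_ag.GU
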