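import Pool.Agent.P.MP_46a8f8_ag.GU.SuBase
import Pool.Agent.P.MP_46a8f8_ag.GU.Tor7

/-!
Definitions and basic facts for the spin groups.
-/

namespace Pool.Agent.P.MP_46a8f8_ag.GU

open TensorProduct Function IsLocalRing Polynomial

universe u

/-- the index set of the coordinates -/
abbrev Ix (n : ℕ) : Type := Fin (n + 3)

section form

variable {R R' : Type u} [CommRing R] [CommRing R'] {n : ℕ}

/-- the diagonal quadratic form -/
def qv (c x : Ix n → R) : R := ∑ i, c i * x i ^ 2

/-- its polar form -/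
def bv (c x y : Ix n → R) : R := 2 * ∑ i, c i * x i * y i

/-- the spinor norm of the product of the reflections in the first basis vector and in `x` -/
def vl (c x : Ix n → R) : R := c 0 * qv c x

/-- the product of the values on a list -/
def vp (c : Ix n → R) (l : List (Ix n → R)) : R := (l.map (vl c)).prod

/-- the product of the values of the form on a list -/
def qp (c : Ix n → R) (l : List (Ix n → R)) : R := (l.map (qv c)).prod

/-- spinor norms -/
def Sn (c : Ix n → R) (u : R) : Prop := ∃ l, (∀ x ∈ l, IsUnit (qv c x)) ∧ u = vp c l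

/-- the ideal generated by the coordinates -/
def ct (y : Ix n → R) : Ideal R := Ideal.span (Set.range y)

/-- the form is nondegenerate and two is a unit -/
structure Ok2 (c : Ix n → R) : Prop where
  two : IsUnit (2 : R)
  un : ∀ i, IsUnit (c i)

/-- there is a unimodular isotropic vector -/
def Iso (c : Ix n → R) : Prop := ∃ x, qv c x = 0 ∧ ct x = ⊤

/-- the form is isotropic over the residue field of the prime `p` -/
def IsoAt (c : Ix n → R) (p : Ideal R) : Prop := ∃ x, qv c x ∈ p ∧ ¬ ct x ≤ p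

/-- the zeros of `y` are closed points -/
def Zd (y : Ix n → R) : Prop := ∀ p : Ideal R, p.IsPrime → ct y ≤ p → p.IsMaximal

/-- `y` and `w` are parallel modulo `p` -/
def Pl (y w : Ix n → R) (p : Ideal R) : Prop := ∀ i j, y i * w j - y j * w i ∈ p

/-- a unit which is a spinor norm over the fraction field is a spinor norm -/
def SnI (c : Ix n → R) : Prop :=
  ∀ (l : List (Ix n → R)) (u z : R), IsUnit u → z ≠ 0 → vp c l = u * z ^ 2 → Sn c u

/-- the reflection in `w` -/
noncomputable def rf (c w v : Ix n → R) : Ix n → R := v - (Ring.inverse (qv c w) * bv c v w) • w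

variable (R) in
/-- an infinite set with unit differences -/
def Lam : Prop := ∃ Λ : ℕ → R, ∀ i j, i ≠ j → IsUnit (Λ i - Λ j)

variable (c x y z : Ix n → R)

theorem qv_add : qv c (x + y) = qv c x + qv c y + bv c x y := by
  simp only [qv, bv, Pi.add_apply, Finset.mul_sum, ← Finset.sum_add_distrib]
  exact Finset.sum_congr rfl fun i _ => by ring

theorem qv_sub : qv c (x - y) = qv c x + qv c y - bv c x y := by
  simp only [qv, bv, Pi.sub_apply, Finset.mul_sum, ← Finset.sum_add_distrib,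
    ← Finset.sum_sub_distrib]
  exact Finset.sum_congr rfl fun i _ => by ring

theorem qv_smul (a : R) : qv c (a • x) = a ^ 2 * qv c x := by
  simp only [qv, Pi.smul_apply, smul_eq_mul, Finset.mul_sum]
  exact Finset.sum_congr rfl fun i _ => by ring

theorem qv_neg : qv c (-x) = qv c x := by simp [qv]

theorem qv_zero : qv c 0 = 0 := by simp [qv]

theorem qv_single (i : Ix n) (a : R) : qv c (Pi.single i a) = c i * a ^ 2 := by
  rw [qv, Finset.sum_eq_single i]
  · simp
  · intro j _ h
    simp [Pi.single_eq_of_ne h]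
  · simp

theorem bv_comm : bv c x y = bv c y x := by
  simp only [bv]
  congr 1
  exact Finset.sum_congr rfl fun i _ => by ring

theorem bv_self : bv c x x = 2 * qv c x := by
  simp only [bv, qv]
  congr 1
  exact Finset.sum_congr rfl fun i _ => by ring

theorem bv_add_left : bv c (x + y) z = bv c x z + bv c y z := by
  simp only [bv, Pi.add_apply, Finset.mul_sum, ← Finset.sum_add_distrib]
  exact Finset.sum_congr rfl fun i _ => by ring

theorem bv_add_right : bv c x (y + z) = bv c x y + bv c x z := by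
  rw [bv_comm, bv_add_left, bv_comm c y, bv_comm c z]

theorem bv_sub_left : bv c (x - y) z = bv c x z - bv c y z := by
  simp only [bv, Pi.sub_apply, Finset.mul_sum, ← Finset.sum_sub_distrib]
  exact Finset.sum_congr rfl fun i _ => by ring

theorem bv_sub_right : bv c x (y - z) = bv c x y - bv c x z := by
  rw [bv_comm, bv_sub_left, bv_comm c y, bv_comm c z]

theorem bv_smul_left (a : R) : bv c (a • x) y = a * bv c x y := by
  simp only [bv, Pi.smul_apply, smul_eq_mul, Finset.mul_sum]
  exact Finset.sum_congr rfl fun i _ => by ring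

theorem bv_smul_right (a : R) : bv c x (a • y) = a * bv c x y := by
  rw [bv_comm, bv_smul_left, bv_comm]

theorem bv_neg_left : bv c (-x) y = -bv c x y := by
  rw [← neg_one_smul R x, bv_smul_left, neg_one_mul]

theorem bv_neg_right : bv c x (-y) = -bv c x y := by
  rw [bv_comm, bv_neg_left, bv_comm]

theorem bv_zero_left : bv c 0 x = 0 := by simp [bv]

theorem bv_zero_right : bv c x 0 = 0 := by simp [bv]

theorem bv_single (i : Ix n) (a : R) : bv c x (Pi.single i a) = 2 * c i * x i * a := by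
  rw [bv, Finset.sum_eq_single i]
  · simp only [Pi.single_eq_same]
    ring
  · intro j _ h
    simp [Pi.single_eq_of_ne h]
  · simp

theorem map_qv {F : Type*} [FunLike F R R'] [RingHomClass F R R'] (f : F) :
    f (qv c x) = qv (f ∘ c) (f ∘ x) := by
  simp [qv, map_sum]

theorem map_bv {F : Type*} [FunLike F R R'] [RingHomClass F R R'] (f : F) :
    f (bv c x y) = bv (f ∘ c) (f ∘ x) (f ∘ y) := by
  simp only [bv, map_mul, map_sum, Function.comp, map_ofNat]

theorem map_vl {F : Type*} [FunLike F R R'] [RingHomClass F R R'] (f : F) :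
    f (vl c x) = vl (f ∘ c) (f ∘ x) := by
  rw [vl, map_mul, map_qv]
  rfl

theorem vl_smul (a : R) : vl c (a • x) = a ^ 2 * vl c x := by
  rw [vl, vl, qv_smul]
  ring

theorem vp_nil : vp c [] = 1 := rfl

theorem vp_cons (l : List (Ix n → R)) : vp c (x :: l) = vl c x * vp c l := by simp [vp]

theorem vp_append (l l' : List (Ix n → R)) : vp c (l ++ l') = vp c l * vp c l' := by simp [vp]

theorem qp_nil : qp c [] = 1 := rfl

theorem qp_cons (l : List (Ix n → R)) : qp c (x :: l) = qv c x * qp c l := by simp [qp]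

theorem qp_append (l l' : List (Ix n → R)) : qp c (l ++ l') = qp c l * qp c l' := by simp [qp]

theorem vp_eq (l : List (Ix n → R)) : vp c l = c 0 ^ l.length * qp c l := by
  induction l with
  | nil => simp [vp, qp]
  | cons x l ih =>
    rw [vp_cons, qp_cons, ih, vl, List.length_cons]
    ring

theorem map_vp {F : Type*} [FunLike F R R'] [RingHomClass F R R'] (f : F)
    (l : List (Ix n → R)) : f (vp c l) = vp (f ∘ c) (l.map (f ∘ ·)) := by
  induction l with
  | nil => simp [vp]
  | cons x l ih => rw [List.map_cons, vp_cons, vp_cons, map_mul, ih, map_vl]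

theorem map_qp {F : Type*} [FunLike F R R'] [RingHomClass F R R'] (f : F)
    (l : List (Ix n → R)) : f (qp c l) = qp (f ∘ c) (l.map (f ∘ ·)) := by
  induction l with
  | nil => simp [qp]
  | cons x l ih => rw [List.map_cons, qp_cons, qp_cons, map_mul, ih, map_qv]

theorem qv_dvd_qp {l : List (Ix n → R)} (h : x ∈ l) : qv c x ∣ qp c l :=
  List.dvd_prod (List.mem_map_of_mem h)

/-- the composition identity -/
theorem qv_comp (μ ν : R) :
    qv c ((μ * qv c x) • y + (ν * qv c y) • x) = qv c x * qv c y * qv c (ν • y + μ • x) := by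
  simp only [qv_add, qv_smul, bv_smul_left, bv_smul_right]
  ring

theorem mem_ct (i : Ix n) : y i ∈ ct y := Ideal.subset_span ⟨i, rfl⟩

variable {y} in
theorem ct_le {I : Ideal R} : ct y ≤ I ↔ ∀ i, y i ∈ I := by
  rw [ct, Ideal.span_le, Set.range_subset_iff]
  rfl

theorem bv_mem_ct : bv c x y ∈ ct x :=
  Ideal.mul_mem_left _ _ (Ideal.sum_mem _ fun i _ =>
    Ideal.mul_mem_right _ _ (Ideal.mul_mem_left _ _ (mem_ct x i)))

theorem qv_mem_ct : qv c x ∈ ct x :=
  Ideal.sum_mem _ fun i _ => Ideal.mul_mem_left _ _ (Ideal.pow_mem_of_mem _ (mem_ct x i) 2 two_pos)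

theorem ct_map (f : R →+* R') : (ct y).map f = ct (f ∘ y) := by
  rw [ct, Ideal.map_span, ← Set.range_comp]
  rfl

/-- congruent vectors have congruent values -/
theorem qv_sub_mem {I : Ideal R} (h : ∀ i, x i - y i ∈ I) : qv c x - qv c y ∈ I := by
  rw [qv, qv, ← Finset.sum_sub_distrib]
  refine I.sum_mem fun i _ => ?_
  have : c i * x i ^ 2 - c i * y i ^ 2 = c i * (x i + y i) * (x i - y i) := by ring
  rw [this]
  exact I.mul_mem_left _ (h i)

theorem bv_sub_mem {x' y' : Ix n → R} {I : Ideal R} (h : ∀ i, x i - x' i ∈ I)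
    (h' : ∀ i, y i - y' i ∈ I) : bv c x y - bv c x' y' ∈ I := by
  have : bv c x y - bv c x' y' = bv c (x - x') y + bv c (y - y') x' := by
    rw [bv_sub_left, bv_sub_left, bv_comm c y, bv_comm c y']
    ring
  rw [this]
  exact I.add_mem (ct_le.2 h (bv_mem_ct c _ _)) (ct_le.2 h' (bv_mem_ct c _ _))

variable {c x y z}

theorem Ok2.map (h : Ok2 c) {F : Type*} [FunLike F R R'] [RingHomClass F R R'] (f : F) :
    Ok2 (f ∘ c) :=
  ⟨by simpa only [map_ofNat] using h.two.map f, fun i => (h.un i).map f⟩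

theorem Ok2.exists_bv (h : Ok2 c) {a : R} (ha : a ∈ ct x) : ∃ f, bv c x f = a := by
  induction ha using Submodule.span_induction with
  | mem a ha =>
    obtain ⟨i, rfl⟩ := ha
    obtain ⟨v, hv⟩ := (h.two.mul (h.un i)).exists_right_inv
    exact ⟨Pi.single i v, by rw [bv_single]; linear_combination x i * hv⟩
  | zero => exact ⟨0, bv_zero_right c x⟩
  | add a b _ _ ha hb =>
    obtain ⟨f, rfl⟩ := ha
    obtain ⟨g, rfl⟩ := hb
    exact ⟨f + g, bv_add_right c x f g⟩
  | smul r a _ ha =>
    obtain ⟨f, rfl⟩ := ha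
    exact ⟨r • f, bv_smul_right c x f r⟩

theorem Ok2.not_mem (h : Ok2 c) {p : Ideal R} (hp : p ≠ ⊤) : (2 : R) ∉ p ∧ ∀ i, c i ∉ p :=
  ⟨fun e => hp (p.eq_top_of_isUnit_mem e h.two),
    fun i e => hp (p.eq_top_of_isUnit_mem e (h.un i))⟩

/-- modulo a prime not containing `q x` there is a plane through `x` which is nondegenerate -/
theorem Ok2.exists_disc (h : Ok2 c) {p : Ideal R} (hp : p.IsPrime) (hx : ¬ ct x ≤ p) :
    ∃ w, bv c x w ^ 2 - 4 * qv c x * qv c w ∉ p := by
  obtain ⟨h2, hc⟩ := h.not_mem hp.ne_top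
  by_contra hn
  push Not at hn
  have h4 : (4 : R) ∉ p := fun e => by
    rw [show (4 : R) = 2 * 2 by norm_num] at e
    exact (hp.mem_or_mem e).elim h2 h2
  have k1 : ∀ i, c i * x i ^ 2 - qv c x ∈ p := fun i => by
    have := hn (Pi.single i 1)
    rw [bv_single, qv_single, show (2 * c i * x i * 1) ^ 2 - 4 * qv c x * (c i * 1 ^ 2) =
      4 * (c i * (c i * x i ^ 2 - qv c x)) by ring] at this
    exact ((hp.mem_or_mem ((hp.mem_or_mem this).resolve_left h4)).resolve_left (hc i))
  have h01 : (0 : Ix n) ≠ 1 := by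
    intro e
    have := congrArg Fin.val e
    simp at this
  have k2 : x 0 * x 1 ∈ p := by
    have := hn (Pi.single 0 1 + Pi.single 1 1)
    rw [bv_add_right, qv_add, bv_single, bv_single, bv_single, qv_single, qv_single,
      Pi.single_eq_of_ne h01.symm] at this
    have e := p.sub_mem this (p.add_mem (p.mul_mem_left (4 * c 0) (k1 0))
      (p.mul_mem_left (4 * c 1) (k1 1)))
    rw [show (2 * c 0 * x 0 * 1 + 2 * c 1 * x 1 * 1) ^ 2 -
      4 * qv c x * (c 0 * 1 ^ 2 + c 1 * 1 ^ 2 + 2 * c 1 * 0 * 1) -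
      (4 * c 0 * (c 0 * x 0 ^ 2 - qv c x) + 4 * c 1 * (c 1 * x 1 ^ 2 - qv c x)) =
      4 * (2 * (c 0 * (c 1 * (x 0 * x 1)))) by ring] at e
    exact (hp.mem_or_mem ((hp.mem_or_mem ((hp.mem_or_mem ((hp.mem_or_mem e).resolve_left
      h4)).resolve_left h2)).resolve_left (hc 0))).resolve_left (hc 1)
  have k3 : qv c x ∈ p := by
    have e : ∀ i, x i ∈ p → qv c x ∈ p := fun i hi => by
      have := p.sub_mem (p.mul_mem_left (c i * x i) hi) (k1 i)
      rwa [show c i * x i * x i - (c i * x i ^ 2 - qv c x) = qv c x by ring] at this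
    exact (hp.mem_or_mem k2).elim (e 0) (e 1)
  refine hx (ct_le.2 fun i => ?_)
  have := p.add_mem (k1 i) k3
  rw [sub_add_cancel] at this
  exact hp.mem_of_pow_mem 2 ((hp.mem_or_mem this).resolve_left (hc i))

/-- a form of rank at least three is not a product of two linear forms -/
theorem Ok2.rk3 {k : Type u} [Field k] {c a b : Ix n → k} {β : k} (hc : Ok2 c)
    (h : ∀ v, β * qv c v = bv c v a * bv c v b) : β = 0 ∧ (a = 0 ∨ b = 0) := by
  have h2 : (2 : k) ≠ 0 := hc.two.ne_zero
  have h3 : ∀ i, c i ≠ 0 := fun i => (hc.un i).ne_zero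
  have hβ : β = 0 := by
    let L : (Ix n → k) →ₗ[k] k × k :=
      { toFun := fun v => (bv c v a, bv c v b)
        map_add' := fun v w => by simp [bv_add_left]
        map_smul' := fun r v => by simp [bv_smul_left] }
    have hk : LinearMap.ker L ≠ ⊥ := LinearMap.ker_ne_bot_of_finrank_lt (by simp)
    obtain ⟨v, hv, hv0⟩ := (Submodule.ne_bot_iff _).1 hk
    have e1 : bv c v a = 0 := congrArg Prod.fst hv
    have e2 : bv c v b = 0 := congrArg Prod.snd hv
    obtain ⟨i, hi⟩ := Function.ne_iff.1 hv0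
    have k1 := h (v + Pi.single i 1)
    rw [qv_add, bv_add_left, bv_add_left, e1, e2, zero_add, zero_add, ← h, mul_add, mul_add, h v,
      e1, bv_single] at k1
    have k2 : β * (2 * c i * v i) = 0 := by linear_combination k1
    exact (mul_eq_zero.1 k2).resolve_right (mul_ne_zero (mul_ne_zero h2 (h3 i)) hi)
  refine ⟨hβ, ?_⟩
  by_contra hn
  push Not at hn
  obtain ⟨i, hi⟩ := Function.ne_iff.1 hn.1
  obtain ⟨j, hj⟩ := Function.ne_iff.1 hn.2
  have k1 := h (Pi.single i 1)
  have k2 := h (Pi.single j 1)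
  have k3 := h (Pi.single i 1 + Pi.single j 1)
  simp only [hβ, zero_mul, bv_add_left, bv_comm c (Pi.single _ _), bv_single, mul_one] at k1 k2 k3
  have e1 := (mul_eq_zero.1 k1.symm).resolve_left (mul_ne_zero (mul_ne_zero h2 (h3 i)) hi)
  have e2 := (mul_eq_zero.1 k2.symm).resolve_right (mul_ne_zero (mul_ne_zero h2 (h3 j)) hj)
  rw [e1, e2, add_zero, zero_add] at k3
  exact mul_ne_zero (mul_ne_zero (mul_ne_zero h2 (h3 i)) hi)
    (mul_ne_zero (mul_ne_zero h2 (h3 j)) hj) k3.symm

theorem rf_eq {w : Ix n → R} (hw : IsUnit (qv c w)) (v : Ix n → R) :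
    qv c w • rf c w v = qv c w • v - bv c v w • w := by
  rw [rf, smul_sub, smul_smul, ← mul_assoc, Ring.mul_inverse_cancel _ hw, one_mul]

theorem bv_rf {w : Ix n → R} (hw : IsUnit (qv c w)) (v v' : Ix n → R) :
    bv c (rf c w v) (rf c w v') = bv c v v' := by
  have := Ring.mul_inverse_cancel _ hw
  simp only [rf, bv_sub_left, bv_sub_right, bv_smul_left, bv_smul_right, bv_self]
  rw [bv_comm c w v']
  linear_combination (2 * Ring.inverse (qv c w) * bv c v w * bv c v' w) * this

theorem qv_rf {w : Ix n → R} (hw : IsUnit (qv c w)) (v : Ix n → R) :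
    qv c (rf c w v) = qv c v := by
  have := Ring.mul_inverse_cancel _ hw
  simp only [rf, qv_sub, qv_smul, bv_smul_right]
  linear_combination (Ring.inverse (qv c w) * bv c v w ^ 2) * this

theorem rf_rf {w : Ix n → R} (hw : IsUnit (qv c w)) (v : Ix n → R) :
    rf c w (rf c w v) = v := by
  have := Ring.mul_inverse_cancel _ hw
  funext i
  simp only [rf, bv_sub_left, bv_smul_left, bv_self, Pi.sub_apply, Pi.smul_apply, smul_eq_mul]
  linear_combination (2 * Ring.inverse (qv c w) * bv c v w * w i) * this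

theorem rf_sub (h : qv c x = qv c y) (hw : IsUnit (qv c (x - y))) : rf c (x - y) x = y := by
  have e : bv c x (x - y) = qv c (x - y) := by
    rw [bv_sub_right, bv_self, qv_sub, ← h]
    ring
  rw [rf, e, Ring.inverse_mul_cancel _ hw, one_smul, sub_sub_cancel]

theorem map_rf {F : Type*} [FunLike F R R'] [RingHomClass F R R'] (f : F) {w : Ix n → R}
    (hw : IsUnit (qv c w)) (v : Ix n → R) :
    f ∘ rf c w v = rf (f ∘ c) (f ∘ w) (f ∘ v) := by
  have e : f (Ring.inverse (qv c w)) = Ring.inverse (qv (f ∘ c) (f ∘ w)) := by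
    rw [← map_qv]
    obtain ⟨a, ha⟩ := hw
    rw [← ha, Ring.inverse_unit]
    exact (Ring.inverse_unit (Units.map (f : R →* R') a)).symm
  funext i
  simp only [rf, Function.comp, Pi.sub_apply, Pi.smul_apply, smul_eq_mul, map_sub, map_mul, e,
    map_bv]

theorem Sn.one : Sn c 1 := ⟨[], by simp, rfl⟩

theorem Sn.mul {a b : R} (h : Sn c a) (h' : Sn c b) : Sn c (a * b) := by
  obtain ⟨l, h1, rfl⟩ := h
  obtain ⟨l', h2, rfl⟩ := h'
  exact ⟨l ++ l', fun x hx => (List.mem_append.1 hx).elim (h1 x) (h2 x), (vp_append c l l').symm⟩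

theorem Sn.vl (h : IsUnit (qv c x)) : Sn c (vl c x) :=
  ⟨[x], by simpa using h, by simp [vp]⟩

theorem Sn.pow {a : R} (h : Sn c a) (k : ℕ) : Sn c (a ^ k) := by
  induction k with
  | zero => simpa using Sn.one
  | succ k ih => exact pow_succ a k ▸ ih.mul h

theorem Sn.list {l : List R} (h : ∀ a ∈ l, Sn c a) : Sn c l.prod :=
  List.prod_induction _ (fun _ _ => Sn.mul) Sn.one h

theorem Sn.triv [Subsingleton R] (a : R) : Sn c a := Subsingleton.elim 1 a ▸ Sn.one

theorem Sn.map {a : R} (h : Sn c a) {F : Type*} [FunLike F R R'] [RingHomClass F R R'] (f : F) :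
    Sn (f ∘ c) (f a) := by
  obtain ⟨l, h1, rfl⟩ := h
  refine ⟨_, fun x hx => ?_, map_vp c f l⟩
  obtain ⟨y, hy, rfl⟩ := List.mem_map.1 hx
  exact map_qv c y f ▸ (h1 y hy).map f

theorem Sn.isUnit {a : R} (h : Sn c a) (hc : Ok2 c) : IsUnit a := by
  obtain ⟨l, h1, rfl⟩ := h
  refine List.prod_isUnit fun b hb => ?_
  obtain ⟨y, hy, rfl⟩ := List.mem_map.1 hb
  exact (hc.un 0).mul (h1 y hy)

theorem Sn.sq (hc : Ok2 c) {a : R} (h : IsUnit a) : Sn c (a ^ 2) := by
  obtain ⟨v, hv⟩ := (hc.un 0).exists_right_inv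
  have h1 : IsUnit (qv c (Pi.single 0 (a * v))) := by
    rw [qv_single]
    exact (hc.un 0).mul ((h.mul (IsUnit.of_mul_eq_one_right _ hv)).pow 2)
  have := Sn.vl h1
  rwa [GU.vl, qv_single, show c 0 * (c 0 * (a * v) ^ 2) = a ^ 2 * (c 0 * v) ^ 2 by ring, hv,
    one_pow, mul_one] at this

theorem Sn.cancel (hc : Ok2 c) {a b : R} (h : Sn c a) (h' : Sn c (a * b)) : Sn c b := by
  obtain ⟨v, hv⟩ := (h.isUnit hc).exists_right_inv
  have := (h.mul h').mul (Sn.sq hc (IsUnit.of_mul_eq_one_right _ hv))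
  rwa [show a * (a * b) * v ^ 2 = (a * v) ^ 2 * b by ring, hv, one_pow, one_mul] at this

theorem Sn.of_eq (hc : Ok2 c) {a b d : R} (h : Sn c a) (h' : Sn c d) (e : a * b = d) : Sn c b :=
  h.cancel hc (e ▸ h')

theorem Sn.inv (hc : Ok2 c) {a b : R} (h : Sn c a) (e : a * b = 1) : Sn c b :=
  h.of_eq hc Sn.one e

theorem Sn.of_odd (hc : Ok2 c) {a : R} {k : ℕ} (hk : Odd k) (h : Sn c (a ^ k)) : Sn c a := by
  obtain ⟨j, rfl⟩ := hk
  have ha : IsUnit a := (isUnit_pow_iff (by omega)).1 (h.isUnit hc)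
  exact (Sn.sq hc (ha.pow j)).of_eq hc h (by ring)

/-- a product of two values -/
theorem Sn.qq (hc : Ok2 c) (h : IsUnit (qv c x)) (h' : IsUnit (qv c y)) :
    Sn c (qv c x * qv c y) :=
  (Sn.sq hc (hc.un 0)).of_eq hc ((Sn.vl h).mul (Sn.vl h')) (by rw [GU.vl, GU.vl]; ring)

theorem Sn.of_vp {l : List (Ix n → R)} (h : IsUnit (vp c l)) : Sn c (vp c l) :=
  ⟨l, fun x hx => isUnit_of_dvd_unit ((qv_dvd_qp c x hx).trans ⟨c 0 ^ l.length, by
    rw [vp_eq, mul_comm]⟩) h, rfl⟩

theorem Lam.map (h : Lam R) (f : R →+* R') : Lam R' := by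
  obtain ⟨Λ, h⟩ := h
  exact ⟨f ∘ Λ, fun i j e => by simpa using (h i j e).map f⟩

theorem Lam.of_inf [IsLocalRing R] [Infinite (ResidueField R)] : Lam R := by
  choose s hs using residue_surjective (R := R)
  refine ⟨fun i => s (Infinite.natEmbedding _ i), fun i j e => ?_⟩
  by_contra hn
  have : residue R (s (Infinite.natEmbedding _ i) - s (Infinite.natEmbedding _ j)) = 0 :=
    (residue_eq_zero_iff _).2 hn
  rw [map_sub, hs, hs, sub_eq_zero] at this
  exact e ((Infinite.natEmbedding _).injective this)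

theorem Lam.infinite [Nontrivial R] (h : Lam R) : Infinite R := by
  obtain ⟨Λ, h⟩ := h
  refine Infinite.of_injective Λ fun i j e => ?_
  by_contra hn
  have := h i j hn
  rw [e, sub_self] at this
  exact not_isUnit_zero this

end form

section semi

variable {R : Type u} [CommRing R]

theorem isUnit_of_max {a : R} (h : ∀ m : Ideal R, m.IsMaximal → a ∉ m) : IsUnit a := by
  by_contra hn
  obtain ⟨m, hm, ha⟩ := exists_max_ideal_of_mem_nonunits hn
  exact h m hm ha

theorem top_of_max {I : Ideal R} (h : ∀ m : Ideal R, m.IsMaximal → ¬ I ≤ m) : I = ⊤ := by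
  by_contra hn
  obtain ⟨m, hm, ha⟩ := I.exists_le_maximal hn
  exact h m hm ha

/-- membership in an ideal is a local question -/
theorem mem_of_max {I : Ideal R} {a : R}
    (h : ∀ m : Ideal R, m.IsMaximal → ∃ s, s ∉ m ∧ s * a ∈ I) : a ∈ I := by
  have : I.colon {a} = ⊤ := top_of_max fun m hm hle => by
    obtain ⟨s, hs, hs'⟩ := h m hm
    exact hs (hle (Submodule.mem_colon_singleton.2 hs'))
  simpa using Submodule.mem_colon_singleton.1 ((Ideal.eq_top_iff_one _).1 this)

/-- a finite algebra over a semilocal ring is semilocal -/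
theorem semi_fin (R T : Type u) [CommRing R] [Finite (MaximalSpectrum R)] [CommRing T]
    [Algebra R T] [Module.Finite R T] : Finite (MaximalSpectrum T) := by
  have : ∀ m : MaximalSpectrum R, Finite (m.asIdeal.primesOver T) := fun m => by
    have := m.isMaximal
    exact (Algebra.QuasiFinite.finite_primesOver (R := R) (S := T) m.asIdeal).to_subtype
  exact Finite.of_injective (fun 𝔫 : MaximalSpectrum T =>
    (⟨⟨𝔫.asIdeal.comap (algebraMap R T), by
      have := 𝔫.isMaximal
      exact Ideal.isMaximal_comap_of_isIntegral_of_isMaximal _⟩,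
      ⟨𝔫.asIdeal, 𝔫.isMaximal.isPrime, ⟨rfl⟩⟩⟩ : Σ m : MaximalSpectrum R, m.asIdeal.primesOver T))
    fun a b hab => MaximalSpectrum.ext
      (congrArg (fun z : Σ m : MaximalSpectrum R, m.asIdeal.primesOver T => (z.2 : Ideal T)) hab)

/-- the dimension does not grow in an integral extension -/
theorem dim_le (R T : Type u) [CommRing R] [CommRing T] [Algebra R T] [Algebra.IsIntegral R T] :
    ringKrullDim T ≤ ringKrullDim R :=
  Order.krullDim_le_of_strictMono (PrimeSpectrum.comap (algebraMap R T)) fun _ _ h =>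
    Ideal.IsIntegral.comap_lt_comap (R := R) (show _ < _ from h)

variable [Finite (MaximalSpectrum R)]

/-- the chinese remainder theorem in a semilocal ring -/
theorem crt (I : Ideal R) (a : R) (v : Ideal R → R) :
    ∃ r, r - a ∈ I ∧ ∀ m : Ideal R, m.IsMaximal → ¬ I ≤ m → r - v m ∈ m := by
  classical
  have := Fintype.ofFinite (MaximalSpectrum R)
  obtain ⟨j, hj, hj'⟩ := exists_mem_sub_one_mem I
  obtain ⟨r, hr⟩ := Ideal.exists_forall_sub_mem_ideal
    (I := fun m : MaximalSpectrum R => m.asIdeal)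
    (fun m m' e => Ideal.isCoprime_iff_sup_eq.2 (m.isMaximal.coprime_of_ne m'.isMaximal
      fun h => e (MaximalSpectrum.ext h))) fun m => v m.asIdeal
  refine ⟨a + j * (r - a), by simpa using I.mul_mem_right _ hj, fun m hm hI => ?_⟩
  have e : a + j * (r - a) - v m = (j - 1) * (r - a) + (r - v m) := by ring
  rw [e]
  exact m.add_mem (m.mul_mem_right _ (hj' m hm hI)) (hr ⟨m, hm⟩)

theorem crtv {κ : Type*} (I : Ideal R) (a : κ → R) (v : Ideal R → κ → R) :
    ∃ r : κ → R, (∀ i, r i - a i ∈ I) ∧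
      ∀ m : Ideal R, m.IsMaximal → ¬ I ≤ m → ∀ i, r i - v m i ∈ m := by
  choose r h1 h2 using fun i => crt I (a i) fun m => v m i
  exact ⟨r, h1, fun m hm hI i => h2 i m hm hI⟩

theorem crtv' {κ : Type*} (v : Ideal R → κ → R) :
    ∃ r : κ → R, ∀ m : Ideal R, m.IsMaximal → ∀ i, r i - v m i ∈ m := by
  obtain ⟨r, -, h⟩ := crtv ⊤ 0 v
  exact ⟨r, fun m hm => h m hm fun e => hm.ne_top (top_le_iff.1 e)⟩

/-- units lift -/
theorem lift_unit (I : Ideal R) {a : R} (h : ∀ m : Ideal R, m.IsMaximal → I ≤ m → a ∉ m) :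
    ∃ r, r - a ∈ I ∧ IsUnit r := by
  obtain ⟨r, h1, h2⟩ := crt I a fun _ => 1
  refine ⟨r, h1, isUnit_of_max fun m hm hr => ?_⟩
  by_cases hI : I ≤ m
  · exact h m hm hI (by simpa using m.sub_mem hr (hI h1))
  · exact hm.ne_top ((Ideal.eq_top_iff_one _).2 (by simpa using m.sub_mem hr (h2 m hm hI)))

/-- vectors with a unit value lift -/
theorem lift_vec {n : ℕ} {c : Ix n → R} (hc : Ok2 c) (I : Ideal R) {x : Ix n → R}
    (h : ∀ m : Ideal R, m.IsMaximal → I ≤ m → qv c x ∉ m) :
    ∃ x' : Ix n → R, (∀ i, x' i - x i ∈ I) ∧ IsUnit (qv c x') := by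
  obtain ⟨r, h1, h2⟩ := crtv I x fun _ => Pi.single 0 1
  refine ⟨r, h1, isUnit_of_max fun m hm hr => ?_⟩
  by_cases hI : I ≤ m
  · exact h m hm hI (by simpa using m.sub_mem hr (qv_sub_mem c r x fun i => hI (h1 i)))
  · have := m.sub_mem hr (qv_sub_mem c r _ (h2 m hm hI))
    rw [sub_sub_cancel, qv_single, one_pow, mul_one] at this
    exact (hc.not_mem hm.ne_top).2 0 this

end semi

section poly

variable {R : Type u} [CommRing R] {n : ℕ}

/-- the value at `(s, t)` of the homogenisation in degree `e` -/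
noncomputable def hv (s t : R) (e : ℕ) (g : R[X]) : R := MvPolynomial.eval ![s, t] (g.homogenize e)

/-- the equation of the chart of the blow up -/
noncomputable def Yp (s t : R) : R[X] := C t * X - C s

/-- the degree of a vector of polynomials -/
noncomputable def dg (p : Ix n → R[X]) : ℕ := Finset.univ.sup fun i => (p i).natDegree

/-- the vector of the coefficients in degree `e` -/
def cf (p : Ix n → R[X]) (e : ℕ) : Ix n → R := fun i => (p i).coeff e

/-- the value of the top coefficient is a unit -/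
def Tp (c : Ix n → R) (p : Ix n → R[X]) : Prop := IsUnit (qv c (cf p (dg p)))

/-- the vector with the homogeneous coordinates `p` -/
noncomputable def hvv (s t : R) (p : Ix n → R[X]) : Ix n → R := fun i => hv s t (dg p) (p i)

/-- the length of the scheme of zeros -/
noncomputable def ln (y : Ix n → R) : ℕ∞ := Module.length R (R ⧸ ct y)

/-- the length of the scheme of zeros on the blow up -/
noncomputable def lp (s t : R) (p : Ix n → R[X]) : ℕ∞ :=
  Module.length R (R[X] ⧸ (Ideal.span {Yp s t} ⊔ ct p))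

/-- `s, t` generate `m` and are units at the other maximal ideals -/
structure PS (m : Ideal R) (s t : R) : Prop where
  max : m.IsMaximal
  gen : m = Ideal.span {s, t}
  oth : ∀ m' : Ideal R, m'.IsMaximal → m' ≠ m → s ∉ m' ∧ t ∉ m'

/-- a regular sequence -/
structure Rq (t s : R) : Prop where
  one : ∀ r, t * r = 0 → r = 0
  two : ∀ r, t ∣ s * r → t ∣ r

/-- the configurations in dimension two -/
structure Cf (c : Ix n → R) (l : List (Ix n → R)) : Prop where
  noeth : IsNoetherianRing R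
  semi : Finite (MaximalSpectrum R)
  dim : ringKrullDim R ≤ 2
  lam : Lam R
  ok : Ok2 c
  nzd : qp c l ∈ nonZeroDivisors R
  reg : ∀ m : Ideal R, m.IsMaximal → qp c l ∈ m → RegAt R m 2

/-- a point of the sphere with good extreme coefficients -/
def Gd (c : Ix n → R) (χ : R[X]) : Prop :=
  ∃ p : Ix n → R[X], (∀ i, (p i).natDegree ≤ χ.natDegree - 1) ∧ χ ∣ vl (C ∘ c) p - X ∧
    qv c (cf p (χ.natDegree - 1)) ≠ 0 ∧ qv c (cf p 0) ≠ 0

/-- the vector `y + X w` -/
noncomputable def ln1 (y w : Ix n → R) : Ix n → R[X] := fun i => C (y i) + X * C (w i)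

theorem zd_of_ln {y : Ix n → R} (h : ln y ≠ ⊤) : Zd y := by
  intro p hp hle
  have h1 := (isFiniteLength_iff_isNoetherian_isArtinian.1 (Module.length_ne_top_iff.1 h)).2
  have : IsArtinianRing (R ⧸ ct y) := isArtinian_of_tower R h1
  have h2 : (p.map (Ideal.Quotient.mk (ct y))).IsPrime :=
    Ideal.map_isPrime_of_surjective Ideal.Quotient.mk_surjective (by rwa [Ideal.mk_ker])
  have h3 := Ideal.comap_isMaximal_of_surjective (Ideal.Quotient.mk (ct y))
    Ideal.Quotient.mk_surjective (K := p.map (Ideal.Quotient.mk (ct y)))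
  rwa [Ideal.comap_map_of_surjective _ Ideal.Quotient.mk_surjective, ← RingHom.ker_eq_comap_bot,
    Ideal.mk_ker, sup_eq_left.2 hle] at h3

theorem qv_ln1 (c y w : Ix n → R) : qv (C ∘ c) (ln1 y w) =
    C (qv c y) + C (bv c y w) * X + C (qv c w) * X ^ 2 := by
  have : ln1 y w = C ∘ y + (X : R[X]) • (C ∘ w) := rfl
  rw [this, qv_add, qv_smul, bv_smul_right, ← map_qv, ← map_qv, ← map_bv]
  ring

variable (s t : R)

theorem hv_eq (e : ℕ) (g : R[X]) :
    hv s t e g = ∑ k ∈ Finset.range (e + 1), g.coeff k * s ^ k * t ^ (e - k) := by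
  rw [hv, homogenize, map_sum, Finset.Nat.sum_antidiagonal_eq_sum_range_succ_mk]
  refine Finset.sum_congr rfl fun k _ => ?_
  simp [MvPolynomial.eval_monomial, Finsupp.prod_fintype, mul_assoc]

theorem hv_add (e : ℕ) (g h : R[X]) : hv s t e (g + h) = hv s t e g + hv s t e h := by
  simp [hv]

theorem hv_sub (e : ℕ) (g h : R[X]) : hv s t e (g - h) = hv s t e g - hv s t e h := by
  simp [hv]

theorem hv_C_mul (e : ℕ) (a : R) (g : R[X]) : hv s t e (C a * g) = a * hv s t e g := by
  simp [hv]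

theorem hv_C (e : ℕ) (a : R) : hv s t e (C a) = a * t ^ e := by simp [hv]

theorem hv_mul {e e' : ℕ} {g h : R[X]} (hg : g.natDegree ≤ e) (hh : h.natDegree ≤ e') :
    hv s t (e + e') (g * h) = hv s t e g * hv s t e' h := by
  rw [hv, homogenize_mul _ _ hg hh, map_mul]
  rfl

theorem hv_X : hv s t 1 X = s := by simp [hv, homogenize_X]

theorem natDegree_Yp : (Yp s t).natDegree ≤ 1 := by
  rw [Yp]
  compute_degree

theorem hv_Yp : hv s t 1 (Yp s t) = 0 := by
  rw [Yp, hv_sub, hv_C_mul, hv_X, hv_C]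
  ring

theorem hv_Yp_mul {e : ℕ} {g : R[X]} (hg : g.natDegree ≤ e) :
    hv s t (e + 1) (Yp s t * g) = 0 := by
  rw [add_comm, hv_mul s t (natDegree_Yp s t) hg, hv_Yp, zero_mul]

theorem hv_mem (e : ℕ) (g : R[X]) : hv s t e g ∈ Ideal.span {s, t} ^ e := by
  rw [hv_eq]
  refine Ideal.sum_mem _ fun k hk => ?_
  have hk' : k ≤ e := Nat.lt_succ_iff.1 (Finset.mem_range.1 hk)
  have := Ideal.mul_mem_mul (Ideal.pow_mem_pow (Ideal.subset_span (by simp) :
    s ∈ Ideal.span {s, t}) k) (Ideal.pow_mem_pow (Ideal.subset_span (by simp) :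
    t ∈ Ideal.span {s, t}) (e - k))
  rw [← pow_add, Nat.add_sub_cancel' hk'] at this
  rw [mul_assoc]
  exact Ideal.mul_mem_left _ _ this

theorem exists_hv {e : ℕ} {a : R} (h : a ∈ Ideal.span {s, t} ^ e) :
    ∃ g : R[X], g.natDegree ≤ e ∧ hv s t e g = a := by
  induction e generalizing a with
  | zero => exact ⟨C a, by simp, by simp [hv_C]⟩
  | succ e ih =>
    rw [pow_succ] at h
    refine Submodule.mul_induction_on h (fun b hb d hd => ?_) ?_
    · obtain ⟨g, hg, rfl⟩ := ih hb
      obtain ⟨x, y, rfl⟩ := Ideal.mem_span_pair.1 hd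
      have h1 : (C x * X + C y : R[X]).natDegree ≤ 1 := by compute_degree
      refine ⟨g * (C x * X + C y), natDegree_mul_le.trans (add_le_add hg h1), ?_⟩
      rw [hv_mul s t hg h1, hv_add, hv_C_mul, hv_X, hv_C, pow_one]
    · rintro _ _ ⟨g, hg, rfl⟩ ⟨g', hg', rfl⟩
      exact ⟨g + g', (natDegree_add_le _ _).trans (max_le hg hg'), hv_add s t _ g g'⟩

theorem Yp_dvd {e : ℕ} {g : R[X]} (hg : g.natDegree ≤ e) :
    Yp s t ∣ C t ^ e * g - C (hv s t e g) := by
  rw [hv_eq, map_sum]
  conv_rhs => rw [g.as_sum_range_C_mul_X_pow' (Nat.lt_succ_of_le hg)]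
  simp only [finsetSum_coeff, coeff_C_mul_X_pow, Finset.sum_ite_eq, Finset.mul_sum,
    ← Finset.sum_sub_distrib]
  refine Finset.dvd_sum fun k hk => ?_
  have hk' : k ≤ e := Nat.lt_succ_iff.1 (Finset.mem_range.1 hk)
  obtain ⟨j, rfl⟩ := Nat.exists_eq_add_of_le hk'
  rw [if_pos hk, Nat.add_sub_cancel_left]
  have := (sub_dvd_pow_sub_pow (C t * X) (C s) k).mul_left (C (g.coeff k) * C t ^ j)
  refine (show Yp s t ∣ _ from this).trans (dvd_of_eq ?_)
  simp only [map_mul, map_pow]
  ring

variable {s t}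

theorem Rq.poly (h : Rq t s) : Rq (C t) (C s) := by
  refine ⟨fun r hr => ?_, fun r hr => ?_⟩
  · ext i
    exact h.one _ (by simpa using congrArg (·.coeff i) hr)
  · rw [C_dvd_iff_dvd_coeff] at hr ⊢
    exact fun i => h.two _ (by simpa using hr i)

theorem Rq.cancel (h : Rq t s) {g : R[X]} (hg : Yp s t ∣ C t * g) : Yp s t ∣ g := by
  obtain ⟨k, hk⟩ := hg
  obtain ⟨k', rfl⟩ := h.poly.two k ⟨X * k - g, by rw [Yp] at hk; linear_combination hk⟩
  exact ⟨k', sub_eq_zero.1 (h.poly.one _ (by linear_combination hk))⟩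

theorem Rq.cancel_pow (h : Rq t s) (e : ℕ) {g : R[X]} (hg : Yp s t ∣ C t ^ e * g) :
    Yp s t ∣ g := by
  induction e with
  | zero => simpa using hg
  | succ e ih => exact ih (h.cancel (by rwa [pow_succ', mul_assoc] at hg))

theorem le_dg (p : Ix n → R[X]) (i : Ix n) : (p i).natDegree ≤ dg p :=
  Finset.le_sup (f := fun i => (p i).natDegree) (Finset.mem_univ i)

theorem dg_le {p : Ix n → R[X]} {e : ℕ} (h : ∀ i, (p i).natDegree ≤ e) : dg p ≤ e :=
  Finset.sup_le fun i _ => h i

theorem dg_eq {p : Ix n → R[X]} {e : ℕ} (h : ∀ i, (p i).natDegree ≤ e) (h' : cf p e ≠ 0) :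
    dg p = e := by
  obtain ⟨i, hi⟩ := Function.ne_iff.1 h'
  exact le_antisymm (dg_le h) ((le_natDegree_of_ne_zero hi).trans (le_dg p i))

theorem tp_of [Nontrivial R] {c : Ix n → R} {p : Ix n → R[X]} {e : ℕ}
    (h : ∀ i, (p i).natDegree ≤ e) (h' : IsUnit (qv c (cf p e))) : dg p = e ∧ Tp c p := by
  have e1 : dg p = e := dg_eq h fun e0 => by
    rw [e0, qv_zero] at h'
    exact not_isUnit_zero h'
  exact ⟨e1, by rwa [Tp, e1]⟩

theorem qv_deg (c : Ix n → R) {p : Ix n → R[X]} {e : ℕ} (h : ∀ i, (p i).natDegree ≤ e) :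
    (qv (C ∘ c) p).natDegree ≤ 2 * e ∧ (qv (C ∘ c) p).coeff (2 * e) = qv c (cf p e) := by
  constructor
  · refine natDegree_sum_le_of_forall_le _ _ fun i _ => (natDegree_C_mul_le _ _).trans ?_
    exact natDegree_pow_le.trans (Nat.mul_le_mul_left 2 (h i))
  · rw [qv, finsetSum_coeff]
    refine Finset.sum_congr rfl fun i _ => ?_
    rw [Function.comp, coeff_C_mul, coeff_pow_of_natDegree_le (h i)]
    rfl

theorem hv_qv (c : Ix n → R) (p : Ix n → R[X]) :
    hv s t (2 * dg p) (qv (C ∘ c) p) = qv c (hvv s t p) := by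
  rw [qv, qv, hv, homogenize_finsetSum, map_sum]
  refine Finset.sum_congr rfl fun i _ => ?_
  change hv s t _ (C (c i) * p i ^ 2) = c i * hv s t (dg p) (p i) ^ 2
  rw [hv_C_mul, pow_two, two_mul, hv_mul s t (le_dg p i) (le_dg p i), pow_two]

theorem qp_deg (c : Ix n → R) (L : List (Ix n → R[X])) :
    (qp (C ∘ c) L).natDegree ≤ 2 * (L.map dg).sum ∧
      (qp (C ∘ c) L).coeff (2 * (L.map dg).sum) = qp c (L.map fun p => cf p (dg p)) ∧
      ∀ s t : R, hv s t (2 * (L.map dg).sum) (qp (C ∘ c) L) = qp c (L.map (hvv s t)) := by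
  induction L with
  | nil => simp [qp, hv]
  | cons p L ih =>
    obtain ⟨h1, h2⟩ := qv_deg c (le_dg p)
    simp only [List.map_cons, List.sum_cons, qp_cons, mul_add]
    exact ⟨natDegree_mul_le.trans (add_le_add h1 ih.1),
      by rw [coeff_mul_add_eq_of_natDegree_le h1 ih.1, h2, ih.2.1],
      fun s t => by rw [hv_mul s t h1 ih.1, hv_qv, ih.2.2]⟩

/-- a polynomial with a unit top coefficient is a multiple of a monic polynomial -/
theorem exists_monic [Nontrivial R] {g : R[X]} {e : ℕ} (h : g.natDegree ≤ e)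
    (h' : IsUnit (g.coeff e)) : ∃ G : R[X], G.Monic ∧ G.natDegree = e ∧ g = C (g.coeff e) * G := by
  obtain ⟨v, hv⟩ := h'.exists_left_inv
  have h1 : (C v * g).natDegree ≤ e := (natDegree_C_mul_le _ _).trans h
  have h2 : (C v * g).coeff e = 1 := by rw [coeff_C_mul, hv]
  refine ⟨C v * g, monic_of_natDegree_le_of_coeff_eq_one e h1 h2,
    natDegree_eq_of_le_of_coeff_ne_zero h1 (h2 ▸ one_ne_zero), ?_⟩
  rw [← mul_assoc, ← C_mul, mul_comm _ v, hv, C_1, one_mul]

/-- the monic polynomial attached to a list of vectors with good top coefficients -/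
theorem exists_G [Nontrivial R] {c : Ix n → R} {L : List (Ix n → R[X])} (h : ∀ p ∈ L, Tp c p) :
    ∃ (G : R[X]) (ℓ : R), G.Monic ∧ G.natDegree = 2 * (L.map dg).sum ∧ IsUnit ℓ ∧
      qp (C ∘ c) L = C ℓ * G ∧ Sn c (c 0 ^ L.length * ℓ) := by
  obtain ⟨h1, h2, -⟩ := qp_deg c L
  have h3 : ∀ x ∈ L.map fun p => cf p (dg p), IsUnit (qv c x) := fun x hx => by
    obtain ⟨p, hp, rfl⟩ := List.mem_map.1 hx
    exact h p hp
  have h4 : IsUnit ((qp (C ∘ c) L).coeff (2 * (L.map dg).sum)) := by
    rw [h2]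
    refine List.prod_isUnit fun b hb => ?_
    obtain ⟨y, hy, rfl⟩ := List.mem_map.1 hb
    exact h3 y hy
  obtain ⟨G, g1, g2, g3⟩ := exists_monic h1 h4
  exact ⟨G, _, g1, g2, h4, g3, _, h3, by rw [vp_eq, List.length_map, h2]⟩

end poly

section pres

variable {R T : Type u} [CommRing R] [CommRing T] [Algebra R T]

/-- a finite algebra with `T ⧸ g = R ⧸ F` -/
structure Prs (F : R) (g : T) : Prop where
  fin : Module.Finite R T
  reg : IsSMulRegular T g
  gen : ∀ t : T, ∃ r : R, g ∣ t - algebraMap R T r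
  ker : ∀ r : R, g ∣ algebraMap R T r ↔ F ∣ r

/-- the structure map of the localisation near `g = 0` -/
noncomputable def toW (g : T) : T →+* Localization (On g) := algebraMap T _

theorem dvd_of_toW {g t : T} (h : toW g g ∣ toW g t) : g ∣ t := by
  obtain ⟨w, hw⟩ := h
  obtain ⟨⟨a, m⟩, rfl⟩ := IsLocalization.mk'_surjective (On g) w
  have h1 : algebraMap T (Localization (On g)) (t * m) = algebraMap T _ (g * a) := by
    rw [map_mul, map_mul, ← IsLocalization.mk'_spec (Localization (On g)) a m, ← mul_assoc]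
    exact congrArg (· * _) hw
  obtain ⟨m', hm'⟩ := (IsLocalization.eq_iff_exists (On g) _).1 h1
  obtain ⟨k, hk⟩ := (m' * m).2
  rw [Submonoid.coe_mul] at hk
  exact ⟨m' * a - k * t, by linear_combination hm' - t * hk⟩

/-- a second structure near `g = 0` with square roots comparing the two forms -/
structure Prq {n : ℕ} (c : Ix n → R) (F : R) (g : T) (j : R →+* Localization (On g))
    (ρ : Ix n → Localization (On g)) : Prop extends Prs F g where
  j0 : j F = 0
  jc : ∀ r, toW g g ∣ j r - toW g (algebraMap R T r)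
  rt : ∀ i, toW g (algebraMap R T (c i)) * ρ i ^ 2 = j (c i)
  r1 : ∀ i, toW g g ∣ ρ i - 1

end pres

section cliff

variable {R E : Type u} [CommRing R] [Ring E] [Algebra R E] {n : ℕ}

/-- the vector with coordinates `v` -/
def iv (e : Ix n → E) (v : Ix n → R) : E := ∑ i, v i • e i

/-- what is used of the Clifford algebra -/
structure ClD (c : Ix n → R) (e : Ix n → E) (α : E →ₐ[R] E) (ρ : E →ₗ[R] E) : Prop where
  ok : Ok2 c
  free : Module.Free R E
  fin : Module.Finite R E
  sq : ∀ i, e i * e i = algebraMap R E (c i)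
  anti : ∀ i j, i ≠ j → e i * e j = -(e j * e i)
  gen : Algebra.adjoin R (Set.range e) = ⊤
  al : ∀ i, α (e i) = -e i
  inv : IsInvol ρ
  rh : ∀ i, ρ (e i) = e i
  t0 : ∃ t : E →ₗ[R] R, t 1 = 1
  t1 : ∃ t : E →ₗ[R] (Ix n → R), ∀ i, t (e i) = Pi.single i 1

/-- the generators after a change of rings -/
noncomputable def eT (e : Ix n → E) (T : Type u) [CommRing T] [Algebra R T] :
    Ix n → T ⊗[R] E := fun i => (1 : T) ⊗ₜ[R] e i

/-- the grading automorphism after a change of rings -/
noncomputable def aT (α : E →ₐ[R] E) (T : Type u) [CommRing T] [Algebra R T] :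
    T ⊗[R] E →ₐ[T] T ⊗[R] E := Algebra.TensorProduct.map (AlgHom.id T T) α

/-- the spin group in coordinates -/
def SpD (e : Ix n → E) (α : E →ₐ[R] E) (ρ : E →ₗ[R] E) : Fam R E :=
  fun T _ _ g => aT α T g = g ∧ IsUni ρ g ∧
    ∀ x, (∃ v : Ix n → T, iv (eT e T) v = x) ↔ ∃ v : Ix n → T, iv (eT e T) v = g * x * conj ρ g

/-- orthogonal matrices -/
def Ort (c : Ix n → R) (ψ : Matrix (Ix n) (Ix n) R) : Prop :=
  ψ.transpose * Matrix.diagonal c * ψ = Matrix.diagonal c

/-- `y` is even and acts on vectors as `ψ` -/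
def Tw (e : Ix n → E) (α : E →ₐ[R] E) (y : E) (ψ : Matrix (Ix n) (Ix n) R) : Prop :=
  α y = y ∧ ∀ v, iv e (ψ.mulVec v) * y = y * iv e v

variable (R) in
/-- the identity or the reflection in the first basis vector -/
def s0 (n : ℕ) (ε : ℤˣ) : Matrix (Ix n) (Ix n) R :=
  Matrix.diagonal fun i => if i = 0 then ((ε : ℤ) : R) else 1

/-- a cocycle of matrices -/
structure CocM {O : Type u} [CommRing O] [Algebra R O]
    (d : ∀ (T : Type u) [CommRing T] [Algebra R T], (O →ₐ[R] T) → (O →ₐ[R] T) →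
      Matrix (Ix n) (Ix n) T) : Prop where
  nat : ∀ (T T' : Type u) [CommRing T] [Algebra R T] [CommRing T'] [Algebra R T']
    (f : T →ₐ[R] T') (p q : O →ₐ[R] T), (d T p q).map f = d T' (f.comp p) (f.comp q)
  one : ∀ (T : Type u) [CommRing T] [Algebra R T] (p : O →ₐ[R] T), d T p p = 1
  mul : ∀ (T : Type u) [CommRing T] [Algebra R T] (p q r : O →ₐ[R] T),
    d T q r * d T p q = d T p r

/-- orthogonal cocycles with a point over `K` are trivial -/
def SOP (c : Ix n → R) (K : Type u) [CommRing K] [Algebra R K] : Prop :=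
  ∀ (O : Type u) [CommRing O] [Algebra R O] [Module.FaithfullyFlat R O]
    (d : ∀ (T : Type u) [CommRing T] [Algebra R T], (O →ₐ[R] T) → (O →ₐ[R] T) →
      Matrix (Ix n) (Ix n) T), CocM d →
    (∀ (T : Type u) [CommRing T] [Algebra R T] (p q : O →ₐ[R] T),
      Ort (algebraMap R T ∘ c) (d T p q)) → Nonempty (O →ₐ[R] K) →
    ∃ ψ : Matrix (Ix n) (Ix n) O, Ort (algebraMap R O ∘ c) ψ ∧ ψ.map (H90P.iL R O O) =
      ψ.map (H90P.iR R O O) * d (O ⊗[R] O) (H90P.iL R O O) (H90P.iR R O O)

variable (e : Ix n → E)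

theorem iv_add (v w : Ix n → R) : iv e (v + w) = iv e v + iv e w := by
  simp [iv, add_smul, Finset.sum_add_distrib]

theorem iv_sub (v w : Ix n → R) : iv e (v - w) = iv e v - iv e w := by
  simp [iv, sub_smul, Finset.sum_sub_distrib]

theorem iv_smul (a : R) (v : Ix n → R) : iv e (a • v) = a • iv e v := by
  simp [iv, Finset.smul_sum, smul_smul]

theorem iv_single (i : Ix n) (a : R) : iv e (Pi.single i a) = a • e i := by
  rw [iv, Finset.sum_eq_single i]
  · simp
  · intro j _ h
    simp [Pi.single_eq_of_ne h]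
  · simp

theorem mp_iv {T T' : Type u} [CommRing T] [Algebra R T] [CommRing T'] [Algebra R T']
    (f : T →ₐ[R] T') (v : Ix n → T) : mp E f (iv (eT e T) v) = iv (eT e T') (f ∘ v) := by
  simp only [iv, map_sum, H90P.mp_smul, eT, H90P.mp_tmul, map_one, Function.comp]

theorem mp_aT (α : E →ₐ[R] E) {T T' : Type u} [CommRing T] [Algebra R T] [CommRing T']
    [Algebra R T'] (f : T →ₐ[R] T') (x : T ⊗[R] E) :
    mp E f (aT α T x) = aT α T' (mp E f x) := by
  induction x using TensorProduct.induction_on with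
  | zero => simp
  | tmul t a => rfl
  | add x y hx hy => simp only [map_add, hx, hy]

theorem conj_eq (ρ : E →ₗ[R] E) {T : Type u} [CommRing T] [Algebra R T] (x : T ⊗[R] E) :
    conj ρ x = ρ.baseChange T x := rfl

theorem mp_bc (ρ : E →ₗ[R] E) {T T' : Type u} [CommRing T] [Algebra R T] [CommRing T']
    [Algebra R T'] (f : T →ₐ[R] T') (x : T ⊗[R] E) :
    mp E f (ρ.baseChange T x) = ρ.baseChange T' (mp E f x) := by
  induction x using TensorProduct.induction_on with
  | zero => simp
  | tmul t a => rfl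
  | add x y hx hy => simp only [map_add, hx, hy]

variable {e} {c : Ix n → R} {α : E →ₐ[R] E} {ρ : E →ₗ[R] E}

theorem ClD.iv_mul_add (h : ClD c e α ρ) (v w : Ix n → R) :
    iv e v * iv e w + iv e w * iv e v = algebraMap R E (bv c v w) := by
  have k : ∀ i j, e i * e j + e j * e i = if i = j then algebraMap R E (2 * c i) else 0 := by
    intro i j
    split_ifs with hij
    · rw [← hij, h.sq, two_mul, map_add]
    · rw [h.anti i j hij, neg_add_cancel]
  simp only [iv, Finset.sum_mul, Finset.mul_sum, smul_mul_smul_comm]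
  rw [Finset.sum_comm (f := fun i j => (w j * v i) • (e j * e i)), ← Finset.sum_add_distrib, bv,
    Finset.mul_sum, map_sum]
  refine Finset.sum_congr rfl fun i _ => ?_
  rw [← Finset.sum_add_distrib, Finset.sum_eq_single i]
  · rw [mul_comm (w i), ← smul_add, k, if_pos rfl, Algebra.smul_def, ← map_mul]
    congr 1
    ring
  · intro j _ hj
    rw [mul_comm (w i), ← smul_add, k, if_neg hj, smul_zero]
  · simp

theorem ClD.iv_sq (h : ClD c e α ρ) (v : Ix n → R) :
    iv e v * iv e v = algebraMap R E (qv c v) := by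
  obtain ⟨a, ha⟩ := h.ok.two.exists_left_inv
  have := congrArg (a • ·) (h.iv_mul_add v v)
  simp only [bv_self] at this
  rwa [← two_smul R, smul_smul, ha, one_smul, Algebra.smul_def, ← map_mul, ← mul_assoc, ha,
    one_mul] at this

theorem ClD.al_iv (h : ClD c e α ρ) (v : Ix n → R) : α (iv e v) = -iv e v := by
  simp [iv, map_sum, h.al]

theorem ClD.rh_iv (h : ClD c e α ρ) (v : Ix n → R) : ρ (iv e v) = iv e v := by
  simp [iv, map_sum, h.rh]

theorem ClD.rh_mul (h : ClD c e α ρ) (x y : E) : ρ (x * y) = ρ y * ρ x := h.inv.1 x y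

theorem ClD.rh_rh (h : ClD c e α ρ) (x : E) : ρ (ρ x) = x := h.inv.2 x

theorem ClD.rh_one (h : ClD c e α ρ) : ρ 1 = 1 := by
  have := h.rh_mul (ρ 1) 1
  rw [mul_one, h.rh_rh, mul_one] at this
  exact this.symm

theorem ClD.rh_alg (h : ClD c e α ρ) (r : R) : ρ (algebraMap R E r) = algebraMap R E r := by
  rw [Algebra.algebraMap_eq_smul_one, map_smul, h.rh_one]

theorem ClD.ind (h : ClD c e α ρ) {P : E → Prop} (h1 : ∀ i, P (e i))
    (h2 : ∀ r, P (algebraMap R E r)) (h3 : ∀ x y, P x → P y → P (x + y))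
    (h4 : ∀ x y, P x → P y → P (x * y)) (x : E) : P x := by
  have hx : x ∈ Algebra.adjoin R (Set.range e) := h.gen ▸ Algebra.mem_top
  induction hx using Algebra.adjoin_induction with
  | mem x hx =>
    obtain ⟨i, rfl⟩ := hx
    exact h1 i
  | algebraMap r => exact h2 r
  | add x y _ _ hx hy => exact h3 x y hx hy
  | mul x y _ _ hx hy => exact h4 x y hx hy

theorem ClD.al_al (h : ClD c e α ρ) (x : E) : α (α x) = x :=
  h.ind (P := fun x => α (α x) = x) (fun i => by simp [h.al]) (fun r => by simp)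
    (fun x y hx hy => by simp only [map_add, hx, hy])
    (fun x y hx hy => by simp only [map_mul, hx, hy]) x

theorem ClD.al_rh (h : ClD c e α ρ) (x : E) : α (ρ x) = ρ (α x) :=
  h.ind (P := fun x => α (ρ x) = ρ (α x)) (fun i => by simp [h.al, h.rh])
    (fun r => by simp [h.rh_alg]) (fun x y hx hy => by simp only [map_add, hx, hy])
    (fun x y hx hy => by simp only [map_mul, h.rh_mul, hx, hy]) x

theorem ClD.iv_inj (h : ClD c e α ρ) : Injective (iv e : (Ix n → R) → E) := by
  obtain ⟨t, ht⟩ := h.t1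
  refine LeftInverse.injective (g := t) fun v => ?_
  funext j
  simp [iv, map_sum, ht, Pi.single_apply]

theorem ClD.alg_inj (h : ClD c e α ρ) : Injective (algebraMap R E) := by
  obtain ⟨t, ht⟩ := h.t0
  refine LeftInverse.injective (g := t) fun r => ?_
  rw [Algebra.algebraMap_eq_smul_one, map_smul, ht, smul_eq_mul, mul_one]

/-- a reflection in the Clifford algebra -/
theorem ClD.iv_rf (h : ClD c e α ρ) {w : Ix n → R} (hw : IsUnit (qv c w)) (v : Ix n → R) :
    iv e (rf c w v) * iv e w = -(iv e w * iv e v) := by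
  rw [rf, iv_sub, iv_smul, sub_mul, smul_mul_assoc, h.iv_sq, Algebra.smul_def, ← map_mul,
    mul_right_comm, Ring.inverse_mul_cancel _ hw, one_mul, ← h.iv_mul_add]
  abel

/-- products of vectors -/
theorem ClD.ref (h : ClD c e α ρ) {l : List (Ix n → R)} (hl : ∀ w ∈ l, IsUnit (qv c w)) :
    (∀ v, iv e (l.foldr (rf c) v) * (l.map (iv e)).prod =
      (-1 : R) ^ l.length • ((l.map (iv e)).prod * iv e v)) ∧
    α (l.map (iv e)).prod = (-1 : R) ^ l.length • (l.map (iv e)).prod := by
  induction l with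
  | nil => simp
  | cons w l ih =>
    obtain ⟨h1, h2⟩ := ih fun w hw => hl w (List.mem_cons_of_mem _ hw)
    simp only [List.map_cons, List.prod_cons, List.foldr_cons, List.length_cons, pow_succ]
    refine ⟨fun v => ?_, ?_⟩
    · rw [← mul_assoc, h.iv_rf (hl w List.mem_cons_self), neg_mul, mul_assoc, h1, mul_smul_comm,
        mul_neg_one, neg_smul, mul_assoc]
    · rw [map_mul, h.al_iv, h2, mul_smul_comm, neg_mul, smul_neg, mul_neg_one, neg_smul]

theorem ClD.norm (h : ClD c e α ρ) (l : List (Ix n → R)) :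
    (l.map (iv e)).prod * ρ (l.map (iv e)).prod = algebraMap R E (qp c l) ∧
    ρ (l.map (iv e)).prod * (l.map (iv e)).prod = algebraMap R E (qp c l) := by
  induction l with
  | nil => simp [h.rh_one, qp]
  | cons w l ih =>
    simp only [List.map_cons, List.prod_cons, h.rh_mul, h.rh_iv, qp_cons, map_mul]
    constructor
    · rw [mul_assoc, ← mul_assoc _ (ρ _), ih.1, Algebra.commutes, ← mul_assoc, h.iv_sq]
    · rw [mul_assoc, ← mul_assoc (iv e w), h.iv_sq, ← mul_assoc, ← Algebra.commutes, mul_assoc,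
        ih.2]

/-- change of rings -/
theorem ClD.bc (h : ClD c e α ρ) (T : Type u) [CommRing T] [Algebra R T] :
    ClD (algebraMap R T ∘ c) (eT e T) (aT α T) (ρ.baseChange T) := by
  have := h.free
  have := h.fin
  obtain ⟨t, ht⟩ := h.t0
  obtain ⟨t', ht'⟩ := h.t1
  refine ⟨h.ok.map _, inferInstance, inferInstance, fun i => ?_, fun i j hij => ?_, ?_,
    fun i => ?_, ⟨fun x y => ?_, fun x => ?_⟩, fun i => ?_, ?_, ?_⟩
  · rw [eT, Algebra.TensorProduct.tmul_mul_tmul, h.sq, one_mul, Algebra.algebraMap_eq_smul_one,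
      tmul_smul, Algebra.algebraMap_eq_smul_one, Function.comp, algebraMap_smul,
      Algebra.TensorProduct.one_def]
  · simp only [eT, Algebra.TensorProduct.tmul_mul_tmul, h.anti i j hij, tmul_neg]
  · refine top_le_iff.1 fun x hx => ?_
    clear hx
    induction x using TensorProduct.induction_on with
    | zero => exact zero_mem _
    | add x y hx hy => exact add_mem hx hy
    | tmul a x =>
      have : a ⊗ₜ[R] x = a • ((1 : T) ⊗ₜ[R] x) := by rw [smul_tmul', smul_eq_mul, mul_one]
      rw [this]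
      refine Subalgebra.smul_mem _ ?_ a
      refine h.ind (P := fun x => (1 : T) ⊗ₜ[R] x ∈ Algebra.adjoin T (Set.range (eT e T)))
        (fun i => Algebra.subset_adjoin ⟨i, rfl⟩) (fun r => ?_) (fun x y hx hy => ?_)
        (fun x y hx hy => ?_) x
      · rw [Algebra.algebraMap_eq_smul_one, tmul_smul, ← algebraMap_smul T]
        exact Subalgebra.smul_mem _ (one_mem _) _
      · rw [tmul_add]
        exact add_mem hx hy
      · have := mul_mem hx hy
        rwa [Algebra.TensorProduct.tmul_mul_tmul, one_mul] at this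
  · change (1 : T) ⊗ₜ[R] α (e i) = _
    rw [h.al, tmul_neg]
    rfl
  · induction x using TensorProduct.induction_on with
    | zero => simp
    | add x x' h1 h2 => simp only [add_mul, map_add, h1, h2, mul_add]
    | tmul o a =>
      induction y using TensorProduct.induction_on with
      | zero => simp
      | add y y' h1 h2 => simp only [mul_add, map_add, h1, h2, add_mul]
      | tmul o' a' =>
        simp only [Algebra.TensorProduct.tmul_mul_tmul, LinearMap.baseChange_tmul, h.rh_mul,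
          mul_comm o o']
  · induction x using TensorProduct.induction_on with
    | zero => simp
    | add x x' h1 h2 => simp only [map_add, h1, h2]
    | tmul o a => simp only [LinearMap.baseChange_tmul, h.rh_rh]
  · rw [eT, LinearMap.baseChange_tmul, h.rh]
  · refine ⟨(Algebra.linearMap R T ∘ₗ t).liftBaseChange T, ?_⟩
    rw [Algebra.TensorProduct.one_def, LinearMap.liftBaseChange_tmul]
    simp [ht]
  · refine ⟨((Algebra.linearMap R T).compLeft (Ix n) ∘ₗ t').liftBaseChange T, fun i => ?_⟩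
    rw [eT, LinearMap.liftBaseChange_tmul]
    funext j
    simp [ht', Pi.single_apply]

theorem Ort.map {R' : Type u} [CommRing R'] {ψ : Matrix (Ix n) (Ix n) R} (h : Ort c ψ)
    {F : Type*} [FunLike F R R'] [RingHomClass F R R'] (f : F) : Ort (f ∘ c) (ψ.map f) := by
  have := congrArg (fun M => M.map (f : R →+* R')) h
  simp only [Matrix.map_mul, Matrix.diagonal_map (map_zero _)] at this
  exact this

theorem Ort.mul {ψ ψ' : Matrix (Ix n) (Ix n) R} (h : Ort c ψ) (h' : Ort c ψ') :
    Ort c (ψ * ψ') := by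
  have e : (ψ * ψ').transpose * Matrix.diagonal c * (ψ * ψ') =
      ψ'.transpose * (ψ.transpose * Matrix.diagonal c * ψ) * ψ' := by
    simp only [Matrix.transpose_mul, Matrix.mul_assoc]
  rw [Ort, e, h, h']

theorem Ort.one : Ort c 1 := by simp [Ort]

theorem Ort.s0 (ε : ℤˣ) : Ort c (s0 R n ε) := by
  rw [Ort, GU.s0, Matrix.diagonal_transpose, Matrix.diagonal_mul_diagonal,
    Matrix.diagonal_mul_diagonal]
  congr 1
  funext i
  split_ifs
  · rcases Int.units_eq_one_or ε with rfl | rfl <;> simp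
  · simp

theorem bv_eq (c v w : Ix n → R) : bv c v w = 2 * (v ⬝ᵥ (Matrix.diagonal c).mulVec w) := by
  simp only [bv, dotProduct, Matrix.mulVec_diagonal]
  congr 1
  exact Finset.sum_congr rfl fun i _ => by ring

theorem Ort.bv {ψ : Matrix (Ix n) (Ix n) R} (h : Ort c ψ) (v w : Ix n → R) :
    bv c (ψ.mulVec v) (ψ.mulVec w) = bv c v w := by
  rw [bv_eq, bv_eq, ← Matrix.vecMul_transpose, ← Matrix.dotProduct_mulVec, Matrix.mulVec_mulVec,
    Matrix.mulVec_mulVec, h]

theorem Ort.qv (hc : Ok2 c) {ψ : Matrix (Ix n) (Ix n) R} (h : Ort c ψ) (v : Ix n → R) :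
    qv c (ψ.mulVec v) = qv c v :=
  hc.two.mul_left_cancel (by rw [← bv_self, ← bv_self, h.bv])

theorem Ort.of_bv (hc : Ok2 c) {ψ : Matrix (Ix n) (Ix n) R}
    (h : ∀ v w, GU.bv c (ψ.mulVec v) (ψ.mulVec w) = GU.bv c v w) : Ort c ψ := by
  ext i j
  have := h (Pi.single i 1) (Pi.single j 1)
  rw [bv_eq, bv_eq] at this
  have := hc.two.mul_left_cancel this
  rw [← Matrix.vecMul_transpose, ← Matrix.dotProduct_mulVec, Matrix.mulVec_mulVec,
    Matrix.mulVec_mulVec] at this
  simpa only [Matrix.mulVec_single_one, single_one_dotProduct, Matrix.col_apply] using this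

theorem Ort.isUnit (hc : Ok2 c) {ψ : Matrix (Ix n) (Ix n) R} (h : Ort c ψ) : IsUnit ψ := by
  have h1 : IsUnit (Matrix.diagonal c) := Matrix.isUnit_diagonal.2 (Pi.isUnit_iff.2 hc.un)
  rw [← h] at h1
  exact isUnit_of_mul_isUnit_right h1

theorem Tw.mul {y y' : E} {ψ ψ' : Matrix (Ix n) (Ix n) R} (h : Tw e α y ψ) (h' : Tw e α y' ψ') :
    Tw e α (y * y') (ψ * ψ') :=
  ⟨by rw [map_mul, h.1, h'.1], fun v => by
    rw [← Matrix.mulVec_mulVec, ← mul_assoc, h.2, mul_assoc, h'.2, mul_assoc]⟩

theorem tw_of_basis {y : E} {ψ : Matrix (Ix n) (Ix n) R} (h : α y = y)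
    (h' : ∀ i, iv e (fun j => ψ j i) * y = y * e i) : Tw e α y ψ := by
  refine ⟨h, fun v => ?_⟩
  have : ψ.mulVec v = ∑ i, v i • fun j => ψ j i := by
    funext j
    simp [Matrix.mulVec, dotProduct, mul_comm]
  have e1 : iv e (ψ.mulVec v) = ∑ i, v i • iv e fun j => ψ j i := by
    simp only [this, iv, Finset.sum_apply, Pi.smul_apply, smul_eq_mul, Finset.sum_smul,
      Finset.smul_sum, smul_smul]
    exact Finset.sum_comm
  rw [e1, Finset.sum_mul]
  conv_rhs => rw [iv, Finset.mul_sum]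
  exact Finset.sum_congr rfl fun i _ => by rw [smul_mul_assoc, h', mul_smul_comm]

theorem Tw.mp {T T' : Type u} [CommRing T] [Algebra R T] [CommRing T'] [Algebra R T']
    {y : T ⊗[R] E} {ψ : Matrix (Ix n) (Ix n) T} (h : Tw (eT e T) (aT α T) y ψ)
    (f : T →ₐ[R] T') : Tw (eT e T') (aT α T') (mp E f y) (ψ.map f) := by
  refine tw_of_basis (by rw [← mp_aT, h.1]) fun i => ?_
  have := congrArg (P.MP_46a8f8_ag.mp E f) (h.2 (Pi.single i 1))
  rw [map_mul, map_mul, mp_iv, iv_single, one_smul, Matrix.mulVec_single_one] at this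
  rw [eT, H90P.mp_tmul, map_one] at this
  exact this

end cliff

end Pool.Agent.P.MP_46a8f8_ag.GU
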