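import Pool.Agent.P.MP_46a8f8_ag.GU.Qc
import Pool.Agent.P.MP_46a8f8_ag.GU.SpBase

/-!
A finite etale domain over an essentially smooth local algebra is factorial.
-/

namespace Pool.Agent.P.MP_46a8f8_ag.GU

open TensorProduct Function IsLocalRing

universe u

namespace UFOP

theorem glue (T : Type u) [CommRing T] [IsDomain T] [IsNoetherianRing T]
    [Finite (MaximalSpectrum T)]
    (h : ∀ (n : Ideal T) [n.IsMaximal], UniqueFactorizationMonoid (Localization.AtPrime n)) :
    UniqueFactorizationMonoid T := by
  refine UniqueFactorizationMonoid.of_forall_isPrincipal_of_height_eq_one fun q hq h1 => ?_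
  refine pLP T q fun n hn => ?_
  by_cases hle : q ≤ n
  · have := h n
    have hd : Disjoint (n.primeCompl : Set T) (q : Set T) :=
      Set.disjoint_left.2 fun a ha hb => ha (hle hb)
    have := IsLocalization.isPrime_of_isPrime_disjoint n.primeCompl (Localization.AtPrime n) q
      hq hd
    obtain ⟨G, hG⟩ : (q.map (algebraMap T (Localization.AtPrime n))).IsPrincipal :=
      UniqueFactorizationMonoid.isPrincipal_of_height_eq_one (by
        rw [← IsLocalization.height_under n.primeCompl,
          IsLocalization.under_map_of_isPrime_disjoint n.primeCompl _ hq hd, h1])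
    have hGm : G ∈ q.map (algebraMap T (Localization.AtPrime n)) :=
      hG ▸ Submodule.mem_span_singleton_self G
    obtain ⟨⟨g, s⟩, hgs⟩ := (IsLocalization.mem_map_algebraMap_iff n.primeCompl _).1 hGm
    refine ⟨g, g.2, fun b hb => ?_⟩
    have hb' := Ideal.mem_map_of_mem (algebraMap T (Localization.AtPrime n)) hb
    rw [hG] at hb'
    obtain ⟨c, hc⟩ := Ideal.mem_span_singleton'.1 hb'
    obtain ⟨⟨a, t⟩, hat⟩ := IsLocalization.surj n.primeCompl c
    refine ⟨s * t, (s * t).2, a, ?_⟩
    apply IsLocalization.injective (Localization.AtPrime n) n.primeCompl_le_nonZeroDivisors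
    simp only [map_mul] at hgs hat ⊢
    rw [← hc, ← hgs, ← hat]
    ring
  · obtain ⟨g, hg, hgn⟩ := SetLike.not_le_iff_exists.1 hle
    exact ⟨g, hg, fun b _ => ⟨g, hgn, dvd_mul_right g b⟩⟩

end UFOP

theorem pUFO : S_UFO.{u} := by
  intro R S B O _ _ _ _ _ _ _ _ _ _ _ _ _ _ hd hD
  have := Algebra.EssFiniteType.isNoetherianRing B O
  have : IsNoetherianRing (O ⊗[R] S) := IsNoetherianRing.of_finite O _
  have : Finite (MaximalSpectrum (O ⊗[R] S)) := semi_fin O _
  have : Algebra.FormallySmooth B (O ⊗[R] S) := Algebra.FormallySmooth.comp B O _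
  have : Algebra.EssFiniteType B (O ⊗[R] S) := Algebra.EssFiniteType.comp B O _
  refine UFOP.glue _ fun n hn => ?_
  have : Algebra.FormallySmooth (O ⊗[R] S) (Localization.AtPrime n) :=
    Algebra.FormallySmooth.of_isLocalization n.primeCompl
  have : Algebra.FormallySmooth B (Localization.AtPrime n) :=
    Algebra.FormallySmooth.comp B (O ⊗[R] S) _
  have : Algebra.EssFiniteType (O ⊗[R] S) (Localization.AtPrime n) :=
    Algebra.EssFiniteType.of_isLocalization _ n.primeCompl
  have : Algebra.EssFiniteType B (Localization.AtPrime n) :=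
    Algebra.EssFiniteType.comp B (O ⊗[R] S) _
  have : IsLocalHom (algebraMap B (Localization.AtPrime n)) := ⟨fun a ha => by
    by_contra hna
    have h1 : algebraMap B O a ∈ maximalIdeal O := map_nonunit _ a hna
    have h2 : (n.comap (algebraMap O (O ⊗[R] S))).IsMaximal :=
      Ideal.isMaximal_comap_of_isIntegral_of_isMaximal n
    rw [← eq_maximalIdeal h2] at h1
    rw [IsScalarTower.algebraMap_apply B (O ⊗[R] S),
      IsLocalization.AtPrime.isUnit_to_map_iff _ n] at ha
    exact ha h1⟩
  exact (lev B _ hd).2.2.1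

end Pool.Agent.P.MP_46a8f8_ag.GU
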