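import Pool.Agent.P.MP_46a8f8_ag.GU.QcTop
import Pool.Agent.P.MP_46a8f8_ag.GU.PFT
import Pool.Agent.P.MP_46a8f8_ag.GU.OutU
import Pool.Agent.P.MP_46a8f8_ag.GU.Pipe
import Pool.Agent.P.MP_46a8f8_ag.GU.QN
import Pool.Agent.P.MP_46a8f8_ag.GU.SplA
import Pool.Agent.P.MP_46a8f8_ag.GU.Cls
import Pool.Agent.P.MP_46a8f8_ag.GU.NPJ
import Pool.Agent.P.MP_46a8f8_ag.GU.PPms
import Pool.Agent.P.MP_46a8f8_ag.GU.ResP
import Pool.Agent.P.MP_46a8f8_ag.GU.QAC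
import Pool.Agent.P.MP_46a8f8_ag.GU.SplT
import Pool.Agent.P.MP_46a8f8_ag.GU.SplB
import Pool.Agent.P.MP_46a8f8_ag.GU.PPas
import Pool.Agent.P.MP_46a8f8_ag.GU.Fin1i
import Pool.Agent.P.MP_46a8f8_ag.GU.QT0
import Pool.Agent.P.MP_46a8f8_ag.GU.NSp
import Pool.Agent.P.MP_46a8f8_ag.GU.PQa
import Pool.Agent.P.MP_46a8f8_ag.GU.NUr
import Pool.Agent.P.MP_46a8f8_ag.GU.NUf
import Pool.Agent.P.MP_46a8f8_ag.GU.Rt
import Pool.Agent.P.MP_46a8f8_ag.GU.SplN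
import Pool.Agent.P.MP_46a8f8_ag.GU.PFM
import Pool.Agent.P.MP_46a8f8_ag.GU.PurT
import Pool.Agent.P.MP_46a8f8_ag.GU.PurM
import Pool.Agent.P.MP_46a8f8_ag.GU.NHp
import Pool.Agent.P.MP_46a8f8_ag.GU.UD0
import Pool.Agent.P.MP_46a8f8_ag.GU.OutL
import Pool.Agent.P.MP_46a8f8_ag.GU.OutF
import Pool.Agent.P.MP_46a8f8_ag.GU.Tw0
import Pool.Agent.P.MP_46a8f8_ag.GU.Br0
import Pool.Agent.P.MP_46a8f8_ag.GU.UFO
import Pool.Agent.P.MP_46a8f8_ag.GU.UFL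
import Pool.Agent.P.MP_46a8f8_ag.GU.NPu
import Pool.Agent.P.MP_46a8f8_ag.GU.PF1
import Pool.Agent.P.MP_46a8f8_ag.GU.GbC
import Pool.Agent.P.MP_46a8f8_ag.GU.CobS
import Pool.Agent.P.MP_46a8f8_ag.GU.NPS

/-!
The packages for the quotients by central subgroups put together.
-/

namespace Pool.Agent.P.MP_46a8f8_ag.GU

universe u

theorem allTq : TqPk.{u} := ⟨pQT0, pQAC, pPipe pSemi, pSim, pCobS, pCob0 pTw0 pAzD0 pBr0,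
  pRt pRt0, pOutU pGbC, pOutF pRt0, pOutL pGbC pRt0, pCls, pQdD, pSplA,
  pSplT (pSplN pSplB pSplC)⟩

theorem allPFT : S_PFT.{u} := pPFT pPF1 pDich (pResS pResP)

theorem allNSp : S_NSp.{u} := pNSp pQN pNPS

theorem allGNu : S_GNu.{u} := pGNu pNUr

theorem allPurT : S_PurT.{u} := pPurT allPFT allNSp pDich (pPPas pFin1i pSqr)
  (pPPbs (pPPms pFin1i pSqr)) pUFO pUFL

theorem allPurM : S_PurM.{u} := pPurM (pPFM pDich)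
  (pNPJ pNPu allPFT allNSp pNHp pDich pUFX allGNu) (pNSq pQN) pUFO pUFL

theorem allAq : AqPk.{u} := ⟨pPQa, pPQu pPQa allPurM allPurT allGNu, pNUf pUD0, pPTf, pPCf pUD0⟩

end Pool.Agent.P.MP_46a8f8_ag.GU
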