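import Pool.Agent.P.MP_46a8f8_ag.GU.Su
import Pool.Agent.P.MP_46a8f8_ag.GU.Sep

/-!
The data of the centre without involution: construction, base change and the rank lemma.
-/

namespace Pool.Agent.P.MP_46a8f8_ag.GU

open TensorProduct Function IsLocalRing

universe u

namespace GB0P

theorem sep (R S A : Type u) [CommRing R] [IsLocalRing R] [CommRing S] [Algebra R S]
    [Module.Finite R S] [Algebra.Etale R S] [Ring A] [Algebra S A] [IsAzumaya S A] [Algebra R A]
    [IsScalarTower R S A] : Sep R A := by
  have hfin : Module.Finite R A := Module.Finite.trans S A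
  have : Module.Flat R A := Module.Flat.trans R S A
  refine ⟨Module.free_of_flat_of_isLocalRing, hfin, ?_⟩
  obtain ⟨τ, k, a, b, hτ, hab, hc⟩ := pAzS S A
  obtain ⟨t, ht, ht1⟩ := (Algebra.FormallyUnramified.iff_exists_tensorProduct (R := R)
    (S := S)).1 inferInstance
  obtain ⟨l, s, s', rfl⟩ := exists_sum_tmul_eq t
  have hs1 : ∑ j, s j * s' j = 1 := by simpa [map_sum] using ht1
  have hbal : ∀ (r : S) (x y : A), ∑ j, (s j • r • x) ⊗ₜ[R] (s' j • y) =
      ∑ j, (s j • x) ⊗ₜ[R] (s' j • r • y) := by
    intro r x y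
    have h1 := ht r
    rw [sub_mul, sub_eq_zero, Finset.mul_sum, Finset.mul_sum] at h1
    have h2 := congrArg (TensorProduct.map ((LinearMap.toSpanSingleton S A x).restrictScalars R)
      ((LinearMap.toSpanSingleton S A y).restrictScalars R)) h1
    simp only [map_sum, Algebra.TensorProduct.tmul_mul_tmul, one_mul, TensorProduct.map_tmul,
      LinearMap.coe_restrictScalars, LinearMap.toSpanSingleton_apply] at h2
    simp only [← mul_smul, mul_comm _ r]
    exact h2.symm
  let Θ : A ⊗[S] A →+ A ⊗[R] A := TensorProduct.liftAddHom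
    (AddMonoidHom.mk' (fun x => AddMonoidHom.mk' (fun y => ∑ j, (s j • x) ⊗ₜ[R] (s' j • y))
      fun y y' => by simp only [smul_add, tmul_add, Finset.sum_add_distrib])
      fun x x' => AddMonoidHom.ext fun y => by
        simp only [AddMonoidHom.mk'_apply, AddMonoidHom.add_apply, smul_add, add_tmul,
          Finset.sum_add_distrib]) hbal
  have hΘ : ∀ x y : A, Θ (x ⊗ₜ[S] y) = ∑ j, (s j • x) ⊗ₜ[R] (s' j • y) := fun x y => rfl
  let q := (finProdFinEquiv (m := k) (n := l)).symm
  refine ⟨k * l, fun p => s (q p).2 • a (q p).1, fun p => s' (q p).2 • b (q p).1, ?_, fun c => ?_⟩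
  · rw [q.sum_comp fun p => (s p.2 • a p.1) * (s' p.2 • b p.1), Fintype.sum_prod_type]
    have h1 := hab 1
    simp only [mul_one, hτ, map_one] at h1
    simp only [smul_mul_smul_comm, ← Finset.sum_smul, hs1, one_smul]
    exact h1
  · rw [q.sum_comp fun p => (c * (s p.2 • a p.1)) ⊗ₜ[R] (s' p.2 • b p.1),
      q.sum_comp fun p => (s p.2 • a p.1) ⊗ₜ[R] ((s' p.2 • b p.1) * c), Fintype.sum_prod_type,
      Fintype.sum_prod_type]
    have h1 := congrArg Θ (hc c)
    simp only [map_sum, hΘ] at h1
    simp only [mul_smul_comm, smul_mul_assoc]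
    exact h1

section bc

variable {R S A O : Type u} [CommRing R] [CommRing S] [Algebra R S] [Ring A] [Algebra S A]
  [Algebra R A] [IsScalarTower R S A] [CommRing O] [Algebra R O]

attribute [local instance] GAP.alg

theorem basis_bc {ι : Type u} (e : Module.Basis ι S A) :
    Nonempty (Module.Basis ι (O ⊗[R] S) (O ⊗[R] A)) := by
  classical
  let E : O ⊗[R] A ≃ₗ[R] (ι →₀ O ⊗[R] S) :=
    (LinearEquiv.lTensor O (e.repr.restrictScalars R)).trans (finsuppRight R R O S _)
  have hE : ∀ (o : O) (a : A) i, E (o ⊗ₜ[R] a) i = o ⊗ₜ[R] e.repr a i := fun o a i => by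
    simp only [E, LinearEquiv.trans_apply, LinearEquiv.lTensor_tmul]
    rw [finsuppRight_apply_tmul_apply]
    rfl
  refine ⟨Module.Basis.ofRepr { E.toAddEquiv with map_smul' := fun c x => ?_ }⟩
  change E (c • x) = c • E x
  induction c using TensorProduct.induction_on with
  | zero => rw [zero_smul, zero_smul, map_zero]
  | add c c' h h' => rw [add_smul, add_smul, map_add, h, h']
  | tmul o s =>
    induction x using TensorProduct.induction_on with
    | zero => rw [smul_zero, map_zero, smul_zero]
    | add x x' h h' => rw [smul_add, map_add, map_add, smul_add, h, h']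
    | tmul o' a =>
      ext i
      rw [GAP.smul_tmul, hE, Finsupp.smul_apply, hE, map_smul, Finsupp.smul_apply, smul_eq_mul,
        smul_eq_mul, Algebra.TensorProduct.tmul_mul_tmul]

end bc

theorem proj {R S A V : Type u} [CommRing R] [CommRing S] [Ring A] [Algebra R A] [Algebra S A]
    (h : Sep R A) [Module.Free S A] [AddCommGroup V] [Module A V] [Module R V]
    [Module S V] [IsScalarTower R A V] [IsScalarTower S A V] [Module.Finite R V]
    [Module.Projective R V] : Module.Projective S V := by
  have : Module.Finite A V := Module.Finite.of_restrictScalars_finite R A V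
  obtain ⟨n, π, hπ⟩ := Module.Finite.exists_fin' A V
  obtain ⟨s, hs⟩ := Module.projective_lifting_property (π.restrictScalars R) LinearMap.id hπ
  obtain ⟨s', hs'⟩ := h.lift π LinearMap.id s fun v => LinearMap.congr_fun hs v
  exact Module.Projective.of_split (s'.restrictScalars S) (π.restrictScalars S)
    (LinearMap.ext hs')

theorem main {R S A V W : Type u} [CommRing R] [IsLocalRing R] [CommRing S] [Algebra R S] [Ring A]
    [Algebra S A] [Algebra R A] (h : GB R S A)
    [AddCommGroup V] [Module A V] [Module R V] [Module S V] [IsScalarTower R A V]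
    [IsScalarTower S A V] [IsScalarTower R S V] [Module.Finite R V] [Module.Free R V]
    [AddCommGroup W] [Module A W] [Module R W] [Module S W] [IsScalarTower R A W]
    [IsScalarTower S A W] [IsScalarTower R S W] [Module.Finite R W] [Module.Free R W]
    (hr : Module.finrank R V = Module.finrank R W) : Nonempty (V ≃ₗ[A] W) := by
  have := h.dom
  have := h.fin
  have := h.free
  have := h.freeA
  have := finite_maximalSpectrum R S
  have : Module.Finite S V := Module.Finite.of_restrictScalars_finite R S V
  have : Module.Finite S W := Module.Finite.of_restrictScalars_finite R S W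
  have : Module.Projective S V := proj h.sep
  have : Module.Projective S W := proj h.sep
  have : Module.Free S V := pFreeS S V
  have : Module.Free S W := pFreeS S W
  have hp : 0 < Module.finrank R S := (Module.finrank_pos_iff_of_free R S).2 inferInstance
  rw [← Module.finrank_mul_finrank R S V, ← Module.finrank_mul_finrank R S W] at hr
  exact RkP.iso h.az (LinearEquiv.ofFinrankEq V W (Nat.eq_of_mul_eq_mul_left hp hr))

end GB0P

theorem pGB0 : S_GB0.{u} := by
  intro R S A _ _ _ _ _ _ _ _ _ _ _ _
  have := finite_maximalSpectrum R S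
  have : Module.Free S A := pFreeS S A
  have : Nontrivial A := (FaithfulSMul.algebraMap_injective S A).nontrivial
  obtain ⟨τ, k, a, b, hτ, hab, hc⟩ := pAzS S A
  exact ⟨⟨inferInstance, inferInstance, inferInstance, Module.free_of_flat_of_isLocalRing,
    inferInstance, RkP.az_of S A hτ hab hc⟩, inferInstance, inferInstance,
    (Module.finrank_pos_iff_of_free S A).2 inferInstance, GB0P.sep R S A⟩

theorem pGBbc : S_GBbc.{u} := by
  intro R S A O _ _ _ _ _ _ _ _ _ h hd
  have := h.dom
  have := h.fin
  have := h.free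
  have := h.freeA
  have := h.et
  have := h.finA
  letI := GAP.alg R S A O
  let e := Module.Free.chooseBasis S A
  obtain ⟨e'⟩ := GB0P.basis_bc (R := R) (O := O) e
  have hr : Module.finrank (O ⊗[R] S) (O ⊗[R] A) = Module.finrank S A := by
    rw [Module.finrank_eq_card_basis e, Module.finrank_eq_card_basis e']
  exact ⟨⟨⟨GAP.tower_bc, hd, inferInstance, inferInstance, GAP.free_bc, GAP.az_bc h.az⟩,
    inferInstance, Module.Finite.of_basis e', hr ▸ h.pos, h.sep.bc O⟩, hr⟩

theorem pRkS : S_RkS.{u} := by
  intro R S A _ _ _ _ _ _ _ h X Y hX hY hr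
  have := h.tower
  have tw : ∀ Z : RM R A R,
      letI : Module A Z.M := Module.compHom Z.M Z.ρ
      letI : Module S Z.M := Module.compHom Z.M (algebraMap S A)
      IsScalarTower R A Z.M ∧ IsScalarTower S A Z.M ∧ IsScalarTower R S Z.M := fun Z => by
    letI : Module A Z.M := Module.compHom Z.M Z.ρ
    letI : Module S Z.M := Module.compHom Z.M (algebraMap S A)
    refine ⟨⟨fun r a v => ?_⟩, ⟨fun s a v => ?_⟩, ⟨fun r s v => ?_⟩⟩
    · change Z.ρ (r • a) v = r • Z.ρ a v
      rw [Algebra.smul_def, map_mul, Module.End.mul_apply, Z.alg]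
      rfl
    · change Z.ρ (s • a) v = Z.ρ (algebraMap S A s) (Z.ρ a v)
      rw [Algebra.smul_def, map_mul, Module.End.mul_apply]
    · change Z.ρ (algebraMap S A (r • s)) v = r • Z.ρ (algebraMap S A s) v
      rw [Algebra.smul_def, map_mul, map_mul, Module.End.mul_apply,
        ← IsScalarTower.algebraMap_apply, Z.alg]
      rfl
  letI : Module A X.M := Module.compHom X.M X.ρ
  letI : Module S X.M := Module.compHom X.M (algebraMap S A)
  letI : Module A Y.M := Module.compHom Y.M Y.ρ
  letI : Module S Y.M := Module.compHom Y.M (algebraMap S A)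
  obtain ⟨x1, x2, x3⟩ := tw X
  obtain ⟨y1, y2, y3⟩ := tw Y
  obtain ⟨x4, x5⟩ := hX
  obtain ⟨y4, y5⟩ := hY
  obtain ⟨e⟩ := GB0P.main (V := X.M) (W := Y.M) h hr
  exact ⟨e.restrictScalars R, fun a m => e.map_smul a m⟩

end Pool.Agent.P.MP_46a8f8_ag.GU
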