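import Pool.Agent.P.MP_46a8f8_ag.GU.Su
import Pool.Agent.P.MP_46a8f8_ag.GU.HomQ

/-!
The scheme of homomorphisms from a separable algebra is smooth.
-/

namespace Pool.Agent.P.MP_46a8f8_ag.GU

open TensorProduct Function

universe u

namespace HomQ0P

/-- algebra maps from a separable algebra lift along square zero extensions -/
theorem lift_alg {R A : Type u} [CommRing R] [Ring A] [Algebra R A] (hS : Sep R A)
    {B B' : Type u} [Ring B] [Algebra R B] [Ring B'] [Algebra R B'] (π : B →ₐ[R] B')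
    (hπ : Surjective π) (h2 : ∀ x y, π x = 0 → π y = 0 → x * y = 0) (f : A →ₐ[R] B') :
    ∃ ψ : A →ₐ[R] B, ∀ a, π (ψ a) = f a := by
  have := hS.free
  obtain ⟨k, a, b, h1, hc⟩ := hS.sep
  obtain ⟨φ, hφ⟩ := Module.projective_lifting_property π.toLinearMap f.toLinearMap hπ
  replace hφ : ∀ x, π (φ x) = f x := LinearMap.congr_fun hφ
  let c : A → A → B := fun x y => φ (x * y) - φ x * φ y
  have c0 : ∀ x y, π (c x y) = 0 := fun x y => by simp [c, hφ]
  have cr : ∀ x y z z', π z = π z' → c x y * z = c x y * z' := fun x y z z' e =>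
    sub_eq_zero.1 ((mul_sub _ _ _).symm.trans (h2 _ _ (c0 x y) (by rw [map_sub, e, sub_self])))
  let H : A → B := fun x => ∑ i, c x (a i) * φ (b i)
  have H0 : ∀ x, π (H x) = 0 := fun x => by simp [H, c0]
  let ψ : A →ₗ[R] B := φ + ∑ i, LinearMap.mulRight R (φ (b i)) ∘ₗ
    (φ ∘ₗ LinearMap.mulRight R (a i) - LinearMap.mulRight R (φ (a i)) ∘ₗ φ)
  have hψ : ∀ x, ψ x = φ x + H x := fun x => by simp [ψ, H, c]
  have e1 : ∀ x y, ∑ i, c x (y * a i) * φ (b i) = H x * φ y := fun x y => by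
    have := congrArg (LinearMap.mul' R B ∘ₗ TensorProduct.map
      (φ ∘ₗ LinearMap.mulLeft R x - LinearMap.mulLeft R (φ x) ∘ₗ φ) φ) (hc y)
    simp only [map_sum] at this
    refine this.trans ?_
    rw [Finset.sum_mul]
    refine Finset.sum_congr rfl fun i _ => ?_
    rw [mul_assoc]
    exact cr x (a i) _ _ (by simp [hφ])
  have e2 : ∀ x y, ∑ i, c x y * (φ (a i) * φ (b i)) = c x y := fun x y => by
    rw [← Finset.mul_sum, cr x y _ 1, mul_one]
    simp only [map_sum, map_mul, hφ, map_one]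
    simp only [← map_mul, ← map_sum, h1, map_one]
  have hm : ∀ x y, ψ (x * y) = ψ x * ψ y := fun x y => by
    have e3 : H (x * y) = φ x * H y + H x * φ y - c x y := by
      rw [← e1, ← e2 x y, Finset.mul_sum, ← Finset.sum_add_distrib, ← Finset.sum_sub_distrib]
      refine Finset.sum_congr rfl fun i _ => ?_
      simp only [c, mul_assoc x y]
      noncomm_ring
    rw [hψ, hψ, hψ, e3, add_mul, mul_add, mul_add, h2 _ _ (H0 x) (H0 y)]
    simp only [c]
    abel
  have hp : ∀ x, π (ψ x) = f x := fun x => by rw [hψ, map_add, H0, hφ, add_zero]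
  have ho : ψ 1 = 1 := by
    have e : π (ψ 1 - 1) = 0 := by rw [map_sub, hp, map_one, map_one, sub_self]
    have e' := h2 _ _ e e
    rw [sub_mul, mul_sub, ← hm, one_mul, mul_one, one_mul, sub_self, zero_sub, neg_eq_zero] at e'
    exact sub_eq_zero.1 e'
  exact ⟨AlgHom.ofLinearMap ψ ho hm, hp⟩

/-- ring maps over a common base lift -/
theorem lift_ring {R₀ A₀ : Type u} [CommRing R₀] [Ring A₀] [Algebra R₀ A₀] (hS : Sep R₀ A₀)
    {B B' : Type u} [Ring B] [Ring B'] (π : B →+* B')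
    (hπ : Surjective π) (h2 : ∀ x y, π x = 0 → π y = 0 → x * y = 0) (i : R₀ →+* B)
    (hi : ∀ r x, i r * x = x * i r) (f : A₀ →+* B') (hf : ∀ r, f (algebraMap R₀ A₀ r) = π (i r)) :
    ∃ ψ : A₀ →+* B, (∀ r, ψ (algebraMap R₀ A₀ r) = i r) ∧ ∀ a, π (ψ a) = f a := by
  let : Algebra R₀ B := i.toAlgebra' hi
  let : Algebra R₀ B' := (π.comp i).toAlgebra' fun r x => by
    obtain ⟨y, rfl⟩ := hπ x
    rw [RingHom.comp_apply, ← map_mul, ← map_mul, hi]
  obtain ⟨ψ, hψ⟩ := lift_alg hS (B := B) (B' := B') ⟨π, fun _ => rfl⟩ hπ h2 ⟨f, hf⟩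
  exact ⟨ψ, ψ.commutes, hψ⟩

theorem ex_basis (R A : Type u) [CommRing R] [Ring A] [Algebra R A] [Module.Free R A]
    [Module.Finite R A] : ∃ n, Nonempty (Module.Basis (Fin n) R A) :=
  ⟨_, ⟨(Module.Free.chooseBasis R A).reindex (Fintype.equivFin _)⟩⟩

end HomQ0P

open HomQP hiding lift_alg lift_ring
open HomQ0P

theorem pLiftH0 : S_LiftH0.{u} := by
  intro R A R₀ A₀ C C' _ _ _ _ _ _ _ _ _ _ _ _ q j φ' hS hq h2 hφ
  obtain ⟨n, ⟨b⟩⟩ := ex_basis R A
  obtain ⟨ψ, h0, hψ⟩ := lift_ring hS (mp A q).toRingHom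
    (Algebra.TensorProduct.map_surjective q (AlgHom.id R A) hq surjective_id) (mp_sq b q h2)
    ((algebraMap C (C ⊗[R] A)).comp j) (fun r x => Algebra.commutes (j r) x) φ'
    fun r => (hφ r).trans (mp_alg q (j r)).symm
  exact ⟨ψ, h0, hψ⟩

theorem pHomQ0 (hL : S_LiftH0.{u}) : S_HomQ0.{u} := by
  intro R A R₀ A₀ T _ _ _ _ _ _ _ _ _ _ j hS
  have := hS.free
  have := hS.fin
  obtain ⟨n, ⟨b⟩⟩ := ex_basis R A
  obtain ⟨m, ⟨e⟩⟩ := ex_basis R₀ A₀
  let P := MvPolynomial (Fin m × Fin n) T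
  let φ₀ : A₀ → P ⊗[R] A := Ph e b ((algebraMap T P).comp j) MvPolynomial.X
  let X : Set (P ⊗[R] A) := {x | x = φ₀ 1 - 1 ∨ ∃ a a', x = φ₀ (a * a') - φ₀ a * φ₀ a'}
  let I : Ideal P := Ideal.span {z | ∃ i, ∃ x ∈ X, z = (Algebra.TensorProduct.basis P b).repr x i}
  let π := Ideal.Quotient.mkₐ R I
  have hπ : ∀ x y, x - y ∈ X → mp A π x = mp A π y := fun x y h => by
    rw [← sub_eq_zero, ← map_sub, mp_eq_zero b]
    exact fun i => Ideal.Quotient.eq_zero_iff_mem.2 (Ideal.subset_span ⟨i, _, h, rfl⟩)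
  have h1 : mp A π (φ₀ 1) = 1 := (hπ _ _ (Or.inl rfl)).trans (map_one _)
  let φ : A₀ →+* (P ⧸ I) ⊗[R] A := RingHom.mk'
    { toFun := fun a => mp A π (φ₀ a)
      map_one' := h1
      map_mul' := fun a a' => (hπ _ _ (Or.inr ⟨a, a', rfl⟩)).trans (map_mul _ _ _) }
    fun a a' => (congrArg (mp A π) (Ph_add e b _ _ a a')).trans (map_add _ _ _)
  have hφ : SH0 R A (P ⧸ I) ((algebraMap T (P ⧸ I)).comp j) φ := fun r => by
    change mp A π (Ph _ _ _ _ _) = _
    rw [Algebra.algebraMap_eq_smul_one, Ph_smul, mp_smul, h1, Algebra.algebraMap_eq_smul_one]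
    rfl
  have hex : ∀ (C : Type u) [CommRing C] [Algebra T C] [Algebra R C] [IsScalarTower R T C]
      (φ' : A₀ →+* C ⊗[R] A), SH0 R A C ((algebraMap T C).comp j) φ' →
      ∃ g : (P ⧸ I) →ₐ[T] C, ∀ a, mp A (g.restrictScalars R) (φ a) = φ' a := by
    intro C _ _ _ _ φ' h
    let g₀ : P →ₐ[T] C :=
      MvPolynomial.aeval fun t => (Algebra.TensorProduct.basis C b).repr (φ' (e t.1)) t.2
    have h0 : ∀ a, mp A (g₀.restrictScalars R) (φ₀ a) = φ' a := fun a => by
      rw [mp_Ph e b _ _ _ ((algebraMap T C).comp j) fun r => g₀.commutes _, ← eq_Ph e b _ φ' h]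
      congr 1
      exact funext fun t => MvPolynomial.aeval_X _ t
    refine ⟨Ideal.Quotient.liftₐ I g₀ fun z hz => ?_, fun a => (H90P.mp_mp A _ π _).trans (h0 a)⟩
    refine (Ideal.span_le (I := RingHom.ker g₀)).2 ?_ hz
    rintro _ ⟨i, x, hx, rfl⟩
    refine (mp_eq_zero b (g₀.restrictScalars R) x).1 ?_ i
    rcases hx with rfl | ⟨a, a', rfl⟩
    · rw [map_sub, h0, map_one, map_one, sub_self]
    · rw [map_sub, h0, map_mul, map_mul, h0, h0, sub_self]
  have hun : ∀ (C : Type u) [CommRing C] [Algebra T C] [Algebra R C] [IsScalarTower R T C]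
      (g g' : (P ⧸ I) →ₐ[T] C),
      (∀ a, mp A (g.restrictScalars R) (φ a) = mp A (g'.restrictScalars R) (φ a)) → g = g' := by
    intro C _ _ _ _ g g' h
    refine Ideal.Quotient.algHom_ext T (MvPolynomial.algHom_ext fun t => ?_)
    have := congrArg (fun x => (Algebra.TensorProduct.basis C b).repr x t.2) (h (e t.1))
    simp only [TorHP.repr_mp] at this
    change g ((Algebra.TensorProduct.basis _ b).repr (mp A π (Ph _ _ _ _ _)) _) =
      g' ((Algebra.TensorProduct.basis _ b).repr (mp A π (Ph _ _ _ _ _)) _) at this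
    rw [TorHP.repr_mp, repr_Ph] at this
    exact this
  refine ⟨P ⧸ I, inferInstance, inferInstance, inferInstance, inferInstance, φ, inferInstance,
    Algebra.FormallySmooth.of_comp_surjective fun S _ _ J hJ f => ?_, hφ,
    fun C _ _ _ _ φ' h => ⟨(hex C φ' h).choose⟩⟩
  let : Algebra R S := ((algebraMap T S).comp (algebraMap R T)).toAlgebra
  have : IsScalarTower R T S := IsScalarTower.of_algebraMap_eq fun _ => rfl
  obtain ⟨ψ, h3, h4⟩ := hL R A R₀ A₀ S (S ⧸ J) (Ideal.Quotient.mkₐ R J) ((algebraMap T S).comp j)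
    ((mp A (f.restrictScalars R)).toRingHom.comp φ) hS Ideal.Quotient.mk_surjective
    (fun x y hx hy => by
      rw [← Ideal.mem_bot, ← hJ, pow_two]
      exact Ideal.mul_mem_mul (Ideal.Quotient.eq_zero_iff_mem.1 hx)
        (Ideal.Quotient.eq_zero_iff_mem.1 hy))
    fun r => (congrArg (mp A (f.restrictScalars R)) (hφ r)).trans
      ((mp_alg _ _).trans (congrArg _ (f.commutes (j r))))
  obtain ⟨g, hg⟩ := hex S ψ h3
  exact ⟨g, hun _ _ _ fun a => (H90P.mp_mp A (Ideal.Quotient.mkₐ R J) (g.restrictScalars R) _).symm.trans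
    ((congrArg _ (hg a)).trans (h4 a))⟩

end Pool.Agent.P.MP_46a8f8_ag.GU
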