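import Pool.Agent.P.MP_46a8f8_ag.GU.Ad
import Pool.Agent.P.MP_46a8f8_ag.GU.Fin2

/-!
Improper isometries and similitudes with a unit multiplier come from the ring.
-/

namespace Pool.Agent.P.MP_46a8f8_ag.GU

open TensorProduct Function IsLocalRing

universe u

namespace ImdP

variable {R A O K : Type u} [CommRing R] [Ring A] [Algebra R A] [CommRing O] [Algebra R O]
  [Field K] [Algebra R K] [Algebra O K] [IsScalarTower R O K] [IsFractionRing O K]

theorem clear (y : K ⊗[R] A) : ∃ (d : O) (c : O ⊗[R] A), d ≠ 0 ∧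
    mp A (IsScalarTower.toAlgHom R O K) c = algebraMap O K d • y := by
  have : Nontrivial O := (algebraMap O K).domain_nontrivial
  obtain ⟨y, rfl⟩ := (can R A K O).surjective y
  obtain ⟨s, c, h⟩ := exists_smul_eq_one_tmul (nonZeroDivisors O) K y
  refine ⟨s, c, nonZeroDivisors.coe_ne_zero s, ?_⟩
  rw [← map_smul, h, can_tmul, one_smul]

theorem inj [Module.Free R A] : Injective (mp A (IsScalarTower.toAlgHom R O K)) := fun x y h => by
  refine TorHP.one_tmul_inj (S := K) (IsFractionRing.injective O K)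
    ((can R A K O).injective ?_)
  rw [can_tmul, can_tmul, h]

variable [StarRing A] [SA R A]

theorem sml_one : Sml R A O 1 1 := by
  rw [Sml, Units.val_one, cj_one, one_mul, map_one]

theorem dI_one : dI R A O 1 = 1 := dI_cen fun x => by simp

end ImdP

open ImdP

theorem pImd (h1 : S_DA1.{u}) : S_Imd.{u} := by
  intro R A O K _ _ _ _ _ _ _ _ _ _ _ _ _ τ ε g hτ hT hg
  have triv : dI R A K g = 1 →
      ∃ v : (O ⊗[R] A)ˣ, Sml R A O v 1 ∧ algebraMap O K (dI R A O v) = dI R A K g := fun h =>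
    ⟨1, sml_one, by rw [dI_one, map_one, h]⟩
  rcases hT with hA | hT
  swap
  · exact triv (hT K g 1 hg)
  have : Module.Free R A := SA.free
  have : Module.Finite R A := SA.fin
  let Ω := AlgebraicClosure K
  let ι : K →ₐ[R] Ω := IsScalarTower.toAlgHom R K Ω
  let f : O →ₐ[R] K := IsScalarTower.toAlgHom R O K
  have hι : Injective ι := (algebraMap K Ω).injective
  have hιf : ι.comp f = IsScalarTower.toAlgHom R O Ω :=
    AlgHom.ext fun o => (IsScalarTower.algebraMap_apply O K Ω o).symm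
  obtain ⟨n, ⟨Ψ⟩⟩ := wed ss Ω (Ω ⊗[R] A) (azBC R A Ω hA)
  obtain ⟨e1, e2⟩ := h1 R A Ω n Ψ
  have hg' := hg.map ι
  rw [map_one] at hg'
  have e3 : ι (dI R A K g) = (Ψ (mp A ι g)).det ^ (n + 1) := by
    rw [← dI_map, e2 _ hg']
    rfl
  have e4 : (Ψ (mp A ι g)).det * (Ψ (mp A ι g)).det = 1 := by
    have := congrArg (fun x => (Ψ x).det) hg'
    simp only [map_mul, Matrix.det_mul, e1, map_one, Matrix.det_one] at this
    exact this
  rcases mul_self_eq_one_iff.1 e4 with h | h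
  · exact triv (hι (by rw [e3, h, one_pow, map_one]))
  letI := bcStar R A O
  obtain ⟨hSA, hτ'⟩ := pBcg R A O
  obtain ⟨τ', hτ'⟩ := hτ' τ ε hτ
  have hi : Injective (algebraMap O Ω) := by
    rw [IsScalarTower.algebraMap_eq O K Ω]
    exact (algebraMap K Ω).injective.comp (IsFractionRing.injective O K)
  have hS := setup_of_equiv hi (azBC R A O hA) ((can R A Ω O).trans Ψ)
  have hΦ : ∀ x : O ⊗[R] A, ((((can R A Ω O).trans Ψ).toAlgHom.restrictScalars O).comp
      Algebra.TensorProduct.includeRight) x = Ψ (mp A (ι.comp f) x) := fun x => by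
    change Ψ (can R A Ω O ((1 : Ω) ⊗ₜ[O] x)) = _
    rw [can_tmul, one_smul, hιf]
  obtain ⟨d, c, hd, hc⟩ := clear (O := O) (g : K ⊗[R] A)
  have c1 : c * cj R A O c = algebraMap O _ (d * d) := inj (K := K) (by
    rw [map_mul, mp_cj, hc, map_smul, smul_mul_smul_comm, hg, mp_alg, map_one, ← map_mul,
      ← Algebra.algebraMap_eq_smul_one]
    rfl)
  have c2 : cj R A O c * c = algebraMap O _ (d * d) := inj (K := K) (by
    rw [map_mul, mp_cj, hc, map_smul, smul_mul_smul_comm, hg.comm, mp_alg, map_one, ← map_mul,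
      ← Algebra.algebraMap_eq_smul_one]
    rfl)
  obtain ⟨u, u1, u2, u3⟩ := allImp O (O ⊗[R] A) Ω n _ τ' ε c d hS hτ' hd c1 c2 (by
    rw [hΦ, ← mp_mp, hc, mp_smul, map_smul, Matrix.det_smul, h, Fintype.card_fin, mul_neg_one,
      IsScalarTower.algebraMap_apply O K Ω]
    rfl)
  let v : (O ⊗[R] A)ˣ := ⟨u, star u, u1, u2⟩
  have hv : Sml R A O v 1 := u1.trans (map_one _).symm
  refine ⟨v, hv, hι ?_⟩
  have hv' := hv.map (ι.comp f)
  rw [map_one] at hv'
  have e5 := e2 _ hv'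
  rw [dI_map] at e5
  rw [hΦ] at u3
  rw [e3, h, ← u3]
  exact e5

theorem pGD (h1 : S_Imd.{u}) : S_GD.{u} := by
  intro R A O K _ _ _ _ _ _ _ _ _ _ _ _ _ hO hT hN w g hw hg
  have : Module.Free R A := SA.free
  have : IsDomain O := (IsFractionRing.injective O K).isDomain _
  let f : O →ₐ[R] K := IsScalarTower.toAlgHom R O K
  obtain ⟨τ, ε, hτ⟩ := hO.tr
  obtain ⟨w, rfl⟩ := hw
  obtain ⟨d, c, hd, hc⟩ := clear (O := O) (g : K ⊗[R] A)
  obtain ⟨d', c', hd', hc'⟩ := clear (O := O) ((g⁻¹ : (K ⊗[R] A)ˣ) : K ⊗[R] A)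
  obtain ⟨a, ha⟩ := hN (Units.map (algebraMap O (O ⊗[R] A) : O →* O ⊗[R] A) w) c c' d (d * d')
    (cj_alg (w : O)) hd (mul_ne_zero hd hd')
    (inj (K := K) (by
      change mp A _ (c * cj R A O c) = mp A _ ((d * d) • algebraMap O _ (w : O))
      rw [map_mul, mp_cj, hc, map_smul, smul_mul_smul_comm, hg, mp_smul, mp_alg, ← map_mul]
      rfl))
    (inj (K := K) (by
      rw [map_mul, hc, hc', smul_mul_smul_comm, Units.inv_mul, mp_alg, ← map_mul, mul_comm d',
        ← Algebra.algebraMap_eq_smul_one]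
      rfl))
    (inj (K := K) (by
      rw [map_mul, hc, hc', smul_mul_smul_comm, Units.mul_inv, mp_alg, ← map_mul,
        ← Algebra.algebraMap_eq_smul_one]
      rfl))
  have ha' : Sml R A O a w := ha
  have e1 : f w * f (w⁻¹ : Oˣ) = 1 := by rw [← map_mul, Units.mul_inv, map_one]
  have hu := hg.mul ((ha'.map f).inv e1)
  rw [show algebraMap O K w = f w from rfl, e1] at hu
  obtain ⟨v, v1, v2⟩ := h1 R A O K τ ε _ hτ hT hu
  have hva := v1.mul ha'
  rw [one_mul] at hva
  refine ⟨v * a, hva, ?_⟩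
  rw [dI_mul _ ha', map_mul, v2, show algebraMap O K (dI R A O a) = f (dI R A O a) from rfl,
    ← dI_map, ← dI_mul _ (ha'.map f), inv_mul_cancel_right]

end Pool.Agent.P.MP_46a8f8_ag.GU
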