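import Pool.Agent.P.MP_46a8f8_ag.GU.Sm

/-!
A self dual matrix representation which contains the regular one as a summand.
-/

namespace Pool.Agent.P.MP_46a8f8_ag.GU

open TensorProduct Function Matrix IsLocalRing

universe u

namespace IndP

variable {R A : Type u} [CommRing R] [Ring A] [Algebra R A] {n : ℕ}

/-- the matrices of left multiplication -/
noncomputable def lm (e : Module.Basis (Fin n) R A) : MRep R A R (Fin n) where
  ρ := (Algebra.leftMulMatrix e).toRingHom
  alg r := by
    change Algebra.leftMulMatrix e (algebraMap R A r) = _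
    rw [AlgHom.commutes, Algebra.algebraMap_eq_smul_one]
    rfl

theorem lm_apply (e : Module.Basis (Fin n) R A) (c : A) (i j : Fin n) :
    (lm e).ρ c i j = e.repr (c * e j) i := Algebra.leftMulMatrix_eq_repr_mul e c i j

theorem sum_lm (e : Module.Basis (Fin n) R A) (c x : A) (i : Fin n) :
    ∑ j, (lm e).ρ c i j * e.repr x j = e.repr (c * x) i := by
  conv_rhs => rw [← e.sum_repr x, Finset.mul_sum, map_sum, Finset.sum_apply']
  refine Finset.sum_congr rfl fun j _ => ?_
  rw [lm_apply, mul_smul_comm, map_smul, Finsupp.smul_apply, smul_eq_mul, mul_comm]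

theorem left {k : ℕ} {a b : Fin k → A}
    (hc : ∀ c : A, ∑ t, (c * a t) ⊗ₜ[R] b t = ∑ t, a t ⊗ₜ[R] (b t * c))
    (e : Module.Basis (Fin n) R A) (c : A) (i : Fin n) :
    ∑ j, (lm e).ρ c i j • ∑ t, e.repr (a t) j • b t = (∑ t, e.repr (a t) i • b t) * c := by
  have h := congrArg (TensorProduct.lift ((LinearMap.lsmul R A).comp (e.coord i))) (hc c)
  simp only [map_sum, TensorProduct.lift.tmul, LinearMap.comp_apply, Module.Basis.coord_apply,
    LinearMap.lsmul_apply] at h
  simp only [Finset.smul_sum, smul_smul, Finset.sum_mul, smul_mul_assoc]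
  rw [Finset.sum_comm, ← h]
  refine Finset.sum_congr rfl fun t _ => ?_
  rw [← Finset.sum_smul, sum_lm]

theorem one {k : ℕ} {a b : Fin k → A} (h1 : ∑ t, a t * b t = 1) (e : Module.Basis (Fin n) R A) :
    ∑ i, e i * ∑ t, e.repr (a t) i • b t = 1 := by
  simp only [Finset.mul_sum, mul_smul_comm]
  rw [Finset.sum_comm, ← h1]
  refine Finset.sum_congr rfl fun t _ => ?_
  conv_rhs => rw [← e.sum_repr (a t), Finset.sum_mul]
  simp only [smul_mul_assoc]

variable [StarRing A] [SA R A]

theorem star_sm (r : R) (x : A) : star (r • x) = r • star x := by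
  rw [Algebra.smul_def, star_mul, SA.st, Algebra.smul_def, Algebra.commutes]

theorem right (e : Module.Basis (Fin n) R A) (h : R) (c : A) (i : Fin n) :
    ∑ j, (lm e).ρ (star c) j i • h • star (e j) = (h • star (e i)) * c := by
  have h1 := congrArg star (e.sum_repr (star c * e i))
  rw [star_mul, star_star, star_sum] at h1
  rw [smul_mul_assoc, ← h1, Finset.smul_sum]
  refine Finset.sum_congr rfl fun j _ => ?_
  rw [lm_apply, star_sm, smul_comm]

end IndP

open IndP in
theorem pInd : S_Ind.{u} := by
  intro R A _ _ _ _ _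
  obtain ⟨k, a, b, h1, hc⟩ := SA.sep (R := R) (A := A)
  obtain ⟨h, hh⟩ := (SA.two (R := R) (A := A)).exists_left_inv
  have := SA.free (R := R) (A := A)
  have := SA.fin (R := R) (A := A)
  obtain ⟨n, e⟩ : ∃ n, Nonempty (Module.Basis (Fin n) R A) :=
    ⟨_, ⟨(Module.Free.chooseBasis R A).reindex (Fintype.equivFin _)⟩⟩
  obtain ⟨e⟩ := e
  refine ⟨Fin n ⊕ Fin n, inferInstance, inferInstance, (lm e).sum (lm e).dual, Sum.swap,
    Sum.elim (fun i => ∑ t, e.repr (a t) i • b t) fun i => h • star (e i), Sum.swap_swap,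
    fun c k k' => ?_, fun c k => ?_, ?_⟩
  · rw [MRep.sum_apply, MRep.sum_apply, MRep.dual_apply, MRep.dual_apply, star_star]
    cases k <;> cases k' <;> rfl
  · rw [MRep.sum_apply, MRep.dual_apply, Fintype.sum_sum_type]
    cases k with
    | inl i =>
      simp only [fromBlocks_apply₁₁, fromBlocks_apply₁₂, Matrix.zero_apply, zero_smul,
        Finset.sum_const_zero, add_zero, Sum.elim_inl]
      exact left hc e c i
    | inr i =>
      simp only [fromBlocks_apply₂₁, fromBlocks_apply₂₂, Matrix.zero_apply, zero_smul,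
        Finset.sum_const_zero, zero_add, Sum.elim_inr, transpose_apply]
      exact right e h c i
  · have e1 : ∑ i, star (h • star (e i)) * ∑ t, e.repr (a t) i • b t = h • (1 : A) := by
      rw [← one h1 e, Finset.smul_sum]
      refine Finset.sum_congr rfl fun i _ => ?_
      rw [star_sm, star_star, smul_mul_assoc]
    have e2 : ∑ i, star (∑ t, e.repr (a t) i • b t) * (h • star (e i)) = h • (1 : A) := by
      have := congrArg star e1
      rw [star_sum, star_sm, star_one] at this
      rw [← this]
      refine Finset.sum_congr rfl fun i _ => ?_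
      rw [star_mul, star_star]
    rw [Fintype.sum_sum_type]
    simp only [Sum.swap_inl, Sum.swap_inr, Sum.elim_inl, Sum.elim_inr]
    rw [e1, e2, ← add_smul, ← mul_two, hh, one_smul]

end Pool.Agent.P.MP_46a8f8_ag.GU
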