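import Pool.Agent.P.MP_46a8f8_ag.GU.Sp

/-!
The length drops on the blow up.
-/

namespace Pool.Agent.P.MP_46a8f8_ag.GU

open TensorProduct Function IsLocalRing Polynomial

universe u

namespace LnBP

variable {R : Type u} [CommRing R] {n : ℕ}

/-- homogeneous evaluation as a linear map -/
noncomputable def hvL (s t : R) (e : ℕ) : R[X] →ₗ[R] R where
  toFun := hv s t e
  map_add' := hv_add s t e
  map_smul' a g := by rw [smul_eq_C_mul, hv_C_mul]; rfl

theorem hvL_apply (s t : R) (e : ℕ) (g : R[X]) : hvL s t e g = hv s t e g := rfl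

theorem exists_G1 [Nontrivial R] {c : Ix n → R} {p : Ix n → R[X]} (hc : Ok2 c) (hp : Tp c p) :
    ∃ G : R[X], G.Monic ∧ G.natDegree = dg p ∧ G ∈ ct p := by
  have h1 : (bv (C ∘ c) p (C ∘ cf p (dg p))).natDegree ≤ dg p := by
    rw [bv, show (2 : R[X]) = C 2 from rfl]
    refine (natDegree_C_mul_le _ _).trans (natDegree_sum_le_of_forall_le _ _ fun i _ => ?_)
    exact (natDegree_mul_C_le _ _).trans ((natDegree_C_mul_le _ _).trans (le_dg p i))
  have h2 : (bv (C ∘ c) p (C ∘ cf p (dg p))).coeff (dg p) = 2 * qv c (cf p (dg p)) := by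
    rw [← bv_self, bv, bv, show (2 : R[X]) = C 2 from rfl, coeff_C_mul, finsetSum_coeff]
    congr 1
    refine Finset.sum_congr rfl fun i _ => ?_
    simp only [Function.comp, coeff_mul_C, coeff_C_mul]
    rfl
  have h3 : IsUnit ((bv (C ∘ c) p (C ∘ cf p (dg p))).coeff (dg p)) := h2 ▸ hc.two.mul hp
  obtain ⟨G, hG, hd, he⟩ := exists_monic h1 h3
  refine ⟨G, hG, hd, ?_⟩
  have h4 : bv (C ∘ c) p (C ∘ cf p (dg p)) ∈ ct p := bv_mem_ct _ _ _
  rw [he] at h4
  exact (Ideal.unit_mul_mem_iff_mem _ (h3.map C)).1 h4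

theorem mem_of_hv {s t : R} (hq : Rq t s) (p : Ix n → R[X]) {g : R[X]} (hg : g.natDegree ≤ dg p)
    (h : hv s t (dg p) g ∈ ct (hvv s t p)) : g ∈ Ideal.span {Yp s t} ⊔ ct p := by
  obtain ⟨r, hr⟩ := (Ideal.mem_span_range_iff_exists_fun).1 h
  have h1 : (g - ∑ i, r i • p i).natDegree ≤ dg p :=
    (natDegree_sub_le _ _).trans (max_le hg (natDegree_sum_le_of_forall_le _ _ fun i _ =>
      (natDegree_smul_le _ _).trans (le_dg p i)))
  have h2 : hv s t (dg p) (g - ∑ i, r i • p i) = 0 := by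
    rw [← hvL_apply, map_sub, map_sum, hvL_apply, ← hr, sub_eq_zero]
    refine Finset.sum_congr rfl fun i _ => ?_
    rw [map_smul]; rfl
  have h3 := Yp_dvd s t h1
  rw [h2, C_0, sub_zero] at h3
  have h4 := hq.cancel_pow _ h3
  have h5 : g = (g - ∑ i, r i • p i) + ∑ i, r i • p i := by ring
  rw [h5]
  refine Submodule.add_mem_sup (Ideal.mem_span_singleton.2 h4) (Ideal.sum_mem _ fun i _ => ?_)
  rw [smul_eq_C_mul]
  exact Ideal.mul_mem_left _ _ (mem_ct _ i)

end LnBP

open LnBP in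
theorem pLnB : S_LnB.{u} := by
  intro R _ n c s t p hc hst hq hp hj hl
  have hnt : Nontrivial R := by
    by_contra h
    rw [not_nontrivial_iff_subsingleton] at h
    exact hst (Subsingleton.elim _ _)
  obtain ⟨G, hG, hGd, hGm⟩ := exists_G1 hc hp
  let P : Submodule R R[X] := degreeLE R (dg p : WithBot ℕ)
  have hP : ∀ g : R[X], g ∈ P ↔ g.natDegree ≤ dg p := fun g => by
    rw [mem_degreeLE, natDegree_le_iff_degree_le]
  let I : Ideal R[X] := Ideal.span {Yp s t} ⊔ ct p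
  let h : P →ₗ[R] R ⧸ ct (hvv s t p) :=
    (Submodule.mkQ (ct (hvv s t p))) ∘ₗ hvL s t (dg p) ∘ₗ P.subtype
  let k : P →ₗ[R] R[X] ⧸ I := (Ideal.Quotient.mkₐ R I).toLinearMap ∘ₗ P.subtype
  have hker : LinearMap.ker h ≤ LinearMap.ker k := by
    intro g hg
    have h1 : hv s t (dg p) g.1 ∈ ct (hvv s t p) := (Submodule.Quotient.mk_eq_zero _).1 hg
    exact Ideal.Quotient.eq_zero_iff_mem.2 (mem_of_hv hq p ((hP _).1 g.2) h1)
  have hk : Surjective k := by
    intro z
    obtain ⟨g, rfl⟩ := Ideal.Quotient.mk_surjective z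
    refine ⟨⟨g %ₘ G, (hP _).2 (hGd ▸ natDegree_modByMonic_le g hG)⟩, ?_⟩
    refine Ideal.Quotient.eq.2 ?_
    have h1 : g %ₘ G - g = -(g /ₘ G) * G := by
      linear_combination modByMonic_add_div g G
    change g %ₘ G - g ∈ I
    rw [h1]
    exact Ideal.mul_mem_left _ _ (Ideal.mem_sup_right hGm)
  have hle : Ideal.span {s, t} ^ dg p ≤ Ideal.span {s, t} := Ideal.pow_le_self hj.ne'
  have hne : LinearMap.range h ≠ ⊤ := by
    intro he
    obtain ⟨g, hg⟩ : Submodule.Quotient.mk (1 : R) ∈ LinearMap.range h := he ▸ Submodule.mem_top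
    have h1 : hv s t (dg p) g.1 - 1 ∈ ct (hvv s t p) := (Submodule.Quotient.eq _).1 hg
    have h2 : ct (hvv s t p) ≤ Ideal.span {s, t} := ct_le.2 fun i => hle (hv_mem s t _ _)
    have h3 := Ideal.sub_mem _ (hle (hv_mem s t _ g.1)) (h2 h1)
    rw [sub_sub_cancel] at h3
    exact hst ((Ideal.eq_top_iff_one _).2 h3)
  obtain ⟨hN, hA⟩ := isFiniteLength_iff_isNoetherian_isArtinian.1 (Module.length_ne_top_iff.1 hl)
  have h1 := Submodule.length_lt hne
  have h2 := (LinearMap.quotKerEquivRange h).length_eq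
  have h3 : Surjective ((LinearMap.ker h).liftQ k hker) := by
    intro z
    obtain ⟨g, rfl⟩ := hk z
    exact ⟨Submodule.Quotient.mk g, rfl⟩
  have h4 := Module.length_le_of_surjective _ h3
  exact (h4.trans h2.le).trans_lt h1

end Pool.Agent.P.MP_46a8f8_ag.GU
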