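import Pool.Agent.P.MP_46a8f8_ag.GU.Base2
import Pool.Agent.P.MP_46a8f8_ag.Model

/-!
A regular surface through the curve.
-/

namespace Pool.Agent.P.MP_46a8f8_ag.GU

open Function IsLocalRing

universe u

namespace ModBP

theorem mem_map {C P : Type u} [CommRing C] [CommRing P] {φ : C →+* P} (hφ : Surjective φ)
    {m : Ideal C} (hm : ∀ c, φ c = 0 → c ∈ m) (c : C) : φ c ∈ m.map φ ↔ c ∈ m := by
  refine ⟨fun h => ?_, Ideal.mem_map_of_mem φ⟩
  obtain ⟨y, hy, e⟩ := (Ideal.mem_map_iff_of_surjective φ hφ).1 h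
  have h1 : c - y ∈ m := hm _ (by rw [map_sub, e, sub_self])
  have : c = y + (c - y) := by ring
  rw [this]
  exact m.add_mem hy h1

theorem map_max {C P : Type u} [CommRing C] [CommRing P] {φ : C →+* P} (hφ : Surjective φ)
    {m : Ideal C} (h : m.IsMaximal) (hm : ∀ c, φ c = 0 → c ∈ m) : (m.map φ).IsMaximal := by
  refine (Ideal.map_eq_top_or_isMaximal_of_surjective φ hφ h).resolve_left fun e => h.ne_top ?_
  rw [Ideal.eq_top_iff_one, ← mem_map hφ hm, e]
  trivial

/-- two presentations of the same quotient -/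
theorem transfer {C P Q : Type u} [CommRing C] [CommRing P] [CommRing Q] {φ : C →+* P}
    {ψ : C →+* Q} (hφ : Surjective φ) (hψ : Surjective ψ) (hk : ∀ c, ψ c = 0 ↔ φ c = 0)
    {m : Ideal C} (hm : ∀ c, φ c = 0 → c ∈ m) {d : ℕ} (h : RegAt P (m.map φ) d) :
    RegAt Q (m.map ψ) d := by
  have hk' : RingHom.ker ψ = RingHom.ker φ := Ideal.ext hk
  let e : Q ≃+* P := (RingHom.quotientKerEquivOfSurjective hψ).symm.trans
    ((Ideal.quotEquivOfEq hk').trans (RingHom.quotientKerEquivOfSurjective hφ))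
  have he : ∀ c, e (ψ c) = φ c := fun c => by
    have : (RingHom.quotientKerEquivOfSurjective hψ).symm (ψ c) = Ideal.Quotient.mk _ c :=
      (RingEquiv.symm_apply_eq _).2 rfl
    change RingHom.quotientKerEquivOfSurjective hφ (Ideal.quotEquivOfEq hk'
      ((RingHom.quotientKerEquivOfSurjective hψ).symm (ψ c))) = _
    rw [this]
    rfl
  have e1 : m.map ψ = (m.map φ).comap (e : Q →+* P) := by
    ext y
    obtain ⟨c, rfl⟩ := hψ y
    rw [mem_map hψ fun c h => hm c ((hk c).1 h), Ideal.mem_comap, RingEquiv.coe_toRingHom, he,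
      mem_map hφ hm]
  rw [e1]
  exact ModelP.regAt_equiv e h

theorem ht_le {P : Type u} [CommRing P] [IsNoetherianRing P] (N : Ideal P) [hp : N.IsPrime]
    {d : ℕ} (b : Fin d → P) (hb : ∀ i, b i ∈ N)
    (h : ∀ x ∈ N, ∃ s, s ∉ N ∧ s * x ∈ Ideal.span (Set.range b)) : N.height ≤ d := by
  have hle : Ideal.span (Set.range b) ≤ N := by
    rw [Ideal.span_le]
    rintro _ ⟨i, rfl⟩
    exact hb i
  have hmin : N ∈ (Ideal.span (Set.range b)).minimalPrimes := by
    refine ⟨⟨hp, hle⟩, fun q hq hq' x hx => ?_⟩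
    obtain ⟨s, hs, h1⟩ := h x hx
    exact (hq.1.mem_or_mem (hq.2 h1)).resolve_left fun h => hs (hq' h)
  have h6 := Ideal.height_le_card_of_mem_minimalPrimes_span (Set.finite_range b) hmin
  have h7 : (Set.range b).ncard ≤ d := by
    have := Set.ncard_image_le (f := b) (s := Set.univ)
    rwa [Set.image_univ, Set.ncard_univ, Nat.card_eq_fintype_card, Fintype.card_fin] at this
  exact h6.trans (Nat.cast_le.2 h7)

theorem ht_le_one {P : Type u} [CommRing P] [IsNoetherianRing P] (N : Ideal P) [hp : N.IsPrime]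
    (b : P) (hb : b ∈ N) (h : N ≤ Ideal.span {b} ⊔ N ^ 2) : N.height ≤ (1 : ℕ) := by
  have h2 : N ≤ Ideal.span {b} ⊔ N • N := by rwa [smul_eq_mul, ← pow_two]
  obtain ⟨r, hr1, hr2⟩ := Submodule.exists_sub_one_mem_and_smul_le_of_fg_of_le_sup
    (I := N) (N := Ideal.span {b}) (N' := N) (P := N) N.fg_of_isNoetherianRing le_rfl h2
  have hr : r ∉ N := fun h => hp.ne_top ((Ideal.eq_top_iff_one _).2 (by
    have : (1 : P) = r - (r - 1) := by ring
    rw [this]
    exact Submodule.sub_mem _ h hr1))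
  refine ht_le N (fun _ : Fin 1 => b) (fun _ => hb) fun x hx => ⟨r, hr, ?_⟩
  rw [Set.range_const]
  exact hr2 (Submodule.smul_mem_pointwise_smul x r _ hx)

/-- the kernel is not inside the square -/
theorem not_sq {C P S : Type u} [CommRing C] [CommRing P] [IsNoetherianRing P] [CommRing S]
    [IsPrincipalIdealRing S] {σ : C →+* S} (hσ : Surjective σ) {φ : C →+* P}
    (hφ : Surjective φ) {m : Ideal C} (hm : ∀ c, σ c = 0 → c ∈ m) [(m.map φ).IsPrime]
    (h : (m.map φ).height = (2 : ℕ)) : ∃ f, σ f = 0 ∧ φ f ∉ m.map φ ^ 2 := by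
  by_contra hne
  push Not at hne
  obtain ⟨π, hπ⟩ := (IsPrincipalIdealRing.principal (m.map σ)).principal
  obtain ⟨b, rfl⟩ := hσ π
  have hb : b ∈ m := (mem_map hσ hm b).1 (hπ ▸ Submodule.mem_span_singleton_self _)
  have h1 := ht_le_one (m.map φ) (φ b) (Ideal.mem_map_of_mem φ hb) fun y hy => by
    obtain ⟨c, hc, rfl⟩ := (Ideal.mem_map_iff_of_surjective φ hφ).1 hy
    have h2 : σ c ∈ m.map σ := Ideal.mem_map_of_mem σ hc
    rw [hπ] at h2
    obtain ⟨s, hs⟩ := Submodule.mem_span_singleton.1 h2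
    obtain ⟨s, rfl⟩ := hσ s
    have h3 := hne (c - s * b) (by rw [map_sub, map_mul, ← hs, smul_eq_mul, sub_self])
    have : φ c = φ s * φ b + φ (c - s * b) := by rw [map_sub, map_mul]; ring
    rw [this]
    exact Submodule.add_mem_sup (Ideal.mul_mem_left _ _ (Ideal.mem_span_singleton_self _)) h3
  rw [h] at h1
  exact absurd (Nat.cast_le.1 h1) (by omega)

/-- patching elements of an ideal -/
theorem patch {C : Type u} [CommRing C] [Finite (MaximalSpectrum C)] (J : Ideal C)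
    (f : MaximalSpectrum C → C) (hf : ∀ m, f m ∈ J) :
    ∃ g ∈ J, ∀ m : MaximalSpectrum C, g - f m ∈ m.asIdeal * J := by
  classical
  have := Fintype.ofFinite (MaximalSpectrum C)
  have hc : Pairwise (IsCoprime on fun 𝔫 : MaximalSpectrum C => 𝔫.asIdeal) :=
    fun _ _ h => MaximalSpectrum.isCoprime_of_ne h
  choose e he using fun k : MaximalSpectrum C =>
    Ideal.exists_forall_sub_mem_ideal hc fun j => if j = k then 1 else 0
  refine ⟨∑ k, e k * f k, Submodule.sum_mem _ fun k _ => J.mul_mem_left _ (hf k), fun m => ?_⟩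
  have h2 : ∑ k, e k * f k - f m = ∑ k, (e k - if m = k then 1 else 0) * f k := by
    simp [sub_mul]
  rw [h2]
  exact Submodule.sum_mem _ fun k _ => Ideal.mul_mem_mul (he k m) (hf k)

/-- the local ring is a domain -/
theorem dom {P : Type u} [CommRing P] [IsNoetherianRing P] {N : Ideal P} [N.IsPrime] {d : ℕ}
    (h : RegAt P N d) {u v : P} (e : u * v = 0) :
    (∃ s, s ∉ N ∧ s * u = 0) ∨ ∃ s, s ∉ N ∧ s * v = 0 := by
  have h1 := ((regAt P (Localization.AtPrime N) N d).1 h).1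
  have h2 := rDom (Localization.AtPrime N)
  have h3 := congrArg (algebraMap P (Localization.AtPrime N)) e
  rw [map_mul, map_zero, mul_eq_zero, IsLocalization.map_eq_zero_iff N.primeCompl,
    IsLocalization.map_eq_zero_iff N.primeCompl] at h3
  exact h3.imp (fun ⟨s, hs⟩ => ⟨s, s.2, hs⟩) fun ⟨s, hs⟩ => ⟨s, s.2, hs⟩

/-- divisibility can be checked at the maximal ideals -/
theorem dvd_of_loc {C : Type u} [CommRing C] {z c : C}
    (h : ∀ m : Ideal C, m.IsMaximal → (∀ a, z ∣ a * c → a ∈ m) → False) : z ∣ c := by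
  by_contra hc
  let A : Ideal C := (Ideal.span {z}).colon {c}
  have hA : ∀ a, a ∈ A ↔ z ∣ a * c := fun a => by
    rw [← Ideal.mem_span_singleton]
    exact Submodule.mem_colon_singleton
  have h1 : A ≠ ⊤ := fun e => hc (by
    have := (hA 1).1 (e ▸ Submodule.mem_top)
    rwa [one_mul] at this)
  obtain ⟨m, hm, h2⟩ := Ideal.exists_le_maximal A h1
  exact h m hm fun a ha => h2 ((hA a).2 ha)

theorem mk_zero {C : Type u} [CommRing C] {z c : C} :
    Ideal.Quotient.mk (Ideal.span {z}) c = 0 ↔ z ∣ c := by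
  rw [Ideal.Quotient.eq_zero_iff_mem, Ideal.mem_span_singleton]

theorem k1 {C : Type u} [CommRing C] (z w c : C) :
    ((Ideal.Quotient.mk (Ideal.span {Ideal.Quotient.mk (Ideal.span {z}) w})).comp
      (Ideal.Quotient.mk (Ideal.span {z}))) c = 0 ↔ ∃ a b, c = z * a + w * b := by
  rw [RingHom.comp_apply, mk_zero]
  constructor
  · rintro ⟨b, hb⟩
    obtain ⟨b, rfl⟩ := Ideal.Quotient.mk_surjective b
    rw [← map_mul, ← sub_eq_zero, ← map_sub, mk_zero] at hb
    obtain ⟨a, ha⟩ := hb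
    exact ⟨a, b, by linear_combination ha⟩
  · rintro ⟨a, b, rfl⟩
    rw [map_add, mk_zero.2 (dvd_mul_right z a), zero_add, map_mul]
    exact dvd_mul_right _ _

theorem surj2 {C : Type u} [CommRing C] (z : C) (w : C ⧸ Ideal.span {z}) :
    Surjective ((Ideal.Quotient.mk (Ideal.span {w})).comp
      (Ideal.Quotient.mk (Ideal.span {z}))) := by
  rw [RingHom.coe_comp]
  exact Ideal.Quotient.mk_surjective.comp Ideal.Quotient.mk_surjective

/-- the two orders of cutting -/
theorem swap {C : Type u} [CommRing C] {z w : C} {m : Ideal C} (hz : z ∈ m) (hw : w ∈ m) {d : ℕ}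
    (h : RegAt _ (m.map ((Ideal.Quotient.mk (Ideal.span {Ideal.Quotient.mk (Ideal.span {z}) w})).comp
      (Ideal.Quotient.mk (Ideal.span {z})))) d) :
    RegAt _ (m.map ((Ideal.Quotient.mk (Ideal.span {Ideal.Quotient.mk (Ideal.span {w}) z})).comp
      (Ideal.Quotient.mk (Ideal.span {w})))) d := by
  refine transfer (surj2 z _) (surj2 w _) (fun c => ?_) (fun c hc => ?_) h
  · refine (k1 w z c).trans (Iff.trans ?_ (k1 z w c).symm)
    exact ⟨fun ⟨a, b, e⟩ => ⟨b, a, by rw [e, add_comm]⟩,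
      fun ⟨a, b, e⟩ => ⟨b, a, by rw [e, add_comm]⟩⟩
  · obtain ⟨a, b, rfl⟩ := (k1 z w c).1 hc
    exact m.add_mem (m.mul_mem_right _ hz) (m.mul_mem_right _ hw)

/-- lifting regularity along a regular element -/
theorem lift_reg {T : Type u} [CommRing T] [IsNoetherianRing T] (N : Ideal T) [hN : N.IsMaximal]
    {z : T} (hz : z ∈ N) (hz0 : z ∈ nonZeroDivisors T)
    (h : RegAt (T ⧸ Ideal.span {z}) (N.map (Ideal.Quotient.mk _)) 1) : RegAt T N 2 := by
  obtain ⟨h1, a, ha, h2⟩ := h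
  have hs : Surjective (Ideal.Quotient.mk (Ideal.span {z})) := Ideal.Quotient.mk_surjective
  have hk : ∀ c, Ideal.Quotient.mk (Ideal.span {z}) c = 0 → c ∈ N := fun c hc =>
    Ideal.mem_of_dvd N (mk_zero.1 hc) hz
  have hM := map_max hs hN hk
  obtain ⟨b, hb⟩ := hs (a 0)
  have hbN : b ∈ N := (mem_map hs hk b).1 (hb ▸ ha 0)
  have hmem : ∀ i, (![z, b] : Fin 2 → T) i ∈ N := fun i => by
    fin_cases i
    · exact hz
    · exact hbN
  have key : ∀ x ∈ N, ∃ s, s ∉ N ∧ s * x ∈ Ideal.span (Set.range (![z, b] : Fin 2 → T)) := by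
    intro x hx
    obtain ⟨s, hs1, hs2⟩ := h2 _ (Ideal.mem_map_of_mem _ hx)
    obtain ⟨s, rfl⟩ := hs s
    refine ⟨s, fun h => hs1 (Ideal.mem_map_of_mem _ h), ?_⟩
    obtain ⟨c, hc⟩ := Ideal.mem_span_range_iff_exists_fun.1 hs2
    obtain ⟨c0, hc0⟩ := hs (c 0)
    rw [Fin.sum_univ_one, ← hc0, ← hb, ← map_mul, ← map_mul, eq_comm, ← sub_eq_zero, ← map_sub,
      mk_zero] at hc
    obtain ⟨w, hw⟩ := hc
    refine Ideal.mem_span_range_iff_exists_fun.2 ⟨![w, c0], ?_⟩
    rw [Fin.sum_univ_two]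
    change w * z + c0 * b = _
    linear_combination -hw
  refine ⟨le_antisymm (ht_le N _ hmem key) ?_, _, hmem, key⟩
  obtain ⟨q, hq, hq'⟩ : ∃ q : Ideal (T ⧸ Ideal.span {z}), q.IsPrime ∧
      q < N.map (Ideal.Quotient.mk _) := by
    by_contra hcon
    have : (N.map (Ideal.Quotient.mk (Ideal.span {z}))).height ≤ (0 : ℕ) :=
      Ideal.height_le_iff.2 fun q hq hlt => (hcon ⟨q, hq, hlt⟩).elim
    rw [h1] at this
    exact absurd (Nat.cast_le.1 this) (by omega)
  have hq1 : q.comap (Ideal.Quotient.mk (Ideal.span {z})) < N := by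
    refine lt_of_le_of_ne (fun c hc => (mem_map hs hk c).1 (hq'.le hc)) fun e => hq'.ne ?_
    rw [← e, Ideal.map_comap_of_surjective _ hs]
  have hq2 : Ideal.span {z} ≤ q.comap (Ideal.Quotient.mk (Ideal.span {z})) := by
    rw [Ideal.span_singleton_le_iff_mem, Ideal.mem_comap, mk_zero.2 dvd_rfl]
    exact q.zero_mem
  have h3 := (Ideal.one_le_height_span_singleton_of_mem_nonZeroDivisors hz0).trans
    (Ideal.height_mono hq2)
  have h4 := Ideal.height_add_one_le_of_lt_of_isPrime hq1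
  refine le_trans ?_ h4
  have : ((2 : ℕ) : ℕ∞) = 1 + 1 := by norm_num
  rw [this]
  exact add_le_add_left h3 1

/-- the curve is a principal divisor on the surface -/
theorem principal {T S : Type u} [CommRing T] [IsNoetherianRing T] [Finite (MaximalSpectrum T)]
    [CommRing S] [IsDomain S] [IsPrincipalIdealRing S] (hS : ¬ IsField S) {τ : T →+* S}
    (hτ : Surjective τ) (hk : ∀ N : Ideal T, N.IsMaximal → ∀ c, τ c = 0 → c ∈ N)
    (hr : ∀ N : Ideal T, N.IsMaximal → RegAt T N 2) : ∃ t, ∀ c, τ c = 0 ↔ t ∣ c := by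
  have h1 : ∀ N : MaximalSpectrum T, ∃ f, τ f = 0 ∧ f ∉ N.asIdeal ^ 2 := fun N => by
    have hp : (N.asIdeal.map (RingHom.id T)).IsPrime := by
      rw [Ideal.map_id]
      exact N.isMaximal.isPrime
    have := not_sq hτ (φ := RingHom.id T) surjective_id (hk _ N.isMaximal)
      (by rw [Ideal.map_id]; exact (hr _ N.isMaximal).1)
    rwa [Ideal.map_id] at this
  choose f hf hf' using h1
  obtain ⟨t, ht, ht'⟩ := patch (RingHom.ker τ) f hf
  have ht0 : τ t = 0 := ht
  have ht2 : ∀ N : Ideal T, N.IsMaximal → t ∉ N ^ 2 := fun N hN h => by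
    refine hf' ⟨N, hN⟩ ?_
    have h2 : N * RingHom.ker τ ≤ N ^ 2 := by
      rw [pow_two]
      exact Ideal.mul_mono_right (hk N hN)
    have := Submodule.sub_mem _ h (h2 (ht' ⟨N, hN⟩))
    rwa [sub_sub_cancel] at this
  refine ⟨t, fun c => ⟨fun hc => dvd_of_loc fun N hN hA => ?_, ?_⟩⟩
  swap
  · rintro ⟨w, rfl⟩
    rw [map_mul, ht0, zero_mul]
  have htN := hk N hN t ht0
  have h2 := cut T N 1 t (hr N hN) htN fun s hs h => ht2 N hN (ModelP.cancel hN hs htN h)
  have hs : Surjective (Ideal.Quotient.mk (Ideal.span {t})) := Ideal.Quotient.mk_surjective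
  have hkN : ∀ c, Ideal.Quotient.mk (Ideal.span {t}) c = 0 → c ∈ N := fun c hc =>
    Ideal.mem_of_dvd N (mk_zero.1 hc) htN
  have hkK : ∀ c, Ideal.Quotient.mk (Ideal.span {t}) c = 0 → c ∈ RingHom.ker τ := fun c hc =>
    Ideal.mem_of_dvd _ (mk_zero.1 hc) ht
  have hM := map_max hs hN hkN
  have hKp : ((RingHom.ker τ).map (Ideal.Quotient.mk (Ideal.span {t}))).IsPrime := by
    have := RingHom.ker_isPrime τ
    exact Ideal.map_isPrime_of_surjective hs hkK
  have hKN : (RingHom.ker τ).map (Ideal.Quotient.mk (Ideal.span {t})) <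
      N.map (Ideal.Quotient.mk _) := by
    refine lt_of_le_of_ne (Ideal.map_mono (hk N hN)) fun e => hS ?_
    have e1 : RingHom.ker τ = N := le_antisymm (hk N hN) fun y hy =>
      (mem_map hs hkK y).1 (e ▸ Ideal.mem_map_of_mem _ hy)
    have h3 : (RingHom.ker τ).IsMaximal := e1 ▸ hN
    exact (RingHom.quotientKerEquivOfSurjective hτ).symm.toMulEquiv.isField
      ((Ideal.Quotient.maximal_ideal_iff_isField_quotient _).1 h3)
  have hZ : ∀ w, w ∈ ModelP.sat (N.map (Ideal.Quotient.mk (Ideal.span {t}))) ⊥ ↔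
      ∃ s, s ∉ N.map (Ideal.Quotient.mk (Ideal.span {t})) ∧ s * w = 0 := fun w => Iff.rfl
  have hZp : (ModelP.sat (N.map (Ideal.Quotient.mk (Ideal.span {t}))) ⊥).IsPrime := by
    refine ⟨fun e => ?_, fun {u v} h => ?_⟩
    · obtain ⟨s, h3, h4⟩ := (hZ 1).1 (e ▸ Submodule.mem_top)
      rw [mul_one] at h4
      exact h3 (h4 ▸ Submodule.zero_mem _)
    · obtain ⟨s, h3, h4⟩ := (hZ _).1 h
      rw [← mul_assoc] at h4
      refine (dom h2 h4).imp (fun ⟨s', h5, h6⟩ => (hZ u).2 ⟨s' * s, fun h7 => ?_, ?_⟩)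
        fun h5 => (hZ v).2 h5
      · exact (hM.isPrime.mem_or_mem h7).elim h5 h3
      · rw [mul_assoc, h6]
  have hZK : ModelP.sat (N.map (Ideal.Quotient.mk (Ideal.span {t}))) ⊥ ≤
      (RingHom.ker τ).map (Ideal.Quotient.mk (Ideal.span {t})) := fun w hw => by
    obtain ⟨s, h3, h4⟩ := (hZ w).1 hw
    exact (hKp.mem_or_mem (h4 ▸ Submodule.zero_mem _)).resolve_left fun h => h3 (hKN.le h)
  have hZK' : ModelP.sat (N.map (Ideal.Quotient.mk (Ideal.span {t}))) ⊥ =
      (RingHom.ker τ).map (Ideal.Quotient.mk (Ideal.span {t})) := by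
    by_contra hne
    have h3 := Ideal.height_add_one_le_of_lt_of_isPrime (lt_of_le_of_ne hZK hne)
    have h4 := Ideal.height_add_one_le_of_lt_of_isPrime hKN
    rw [h2.1] at h4
    have h5 : (1 : ℕ∞) + 1 ≤ (1 : ℕ) := (add_le_add_left (le_add_self.trans h3) 1).trans h4
    exact absurd h5 (by norm_num)
  obtain ⟨s, h3, h4⟩ := (hZ _).1 (hZK' ▸ Ideal.mem_map_of_mem _ (show c ∈ RingHom.ker τ from hc))
  obtain ⟨s, rfl⟩ := hs s
  rw [← map_mul, mk_zero] at h4
  exact h3 (Ideal.mem_map_of_mem _ (hA s h4))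

end ModBP

open ModBP in
theorem pModB : S_ModB.{u} := by
  intro R _ _ _ x hx S C _ _ _ _ _ _ _ hS hσ hreg H
  have hN : IsNoetherianRing C := Algebra.FiniteType.isNoetherianRing R C
  have hF := finite_maximalSpectrum R C
  have hxm : ∀ m : Ideal C, m.IsMaximal → algebraMap R C x ∈ m := fun m hm => by
    have := IsLocalRing.eq_maximalIdeal (Ideal.isMaximal_comap_of_isIntegral_of_isMaximal (R := R) m)
    rw [← this] at hx
    exact hx
  have hφ : Surjective (Ideal.Quotient.mk (Ideal.span {algebraMap R C x})) :=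
    Ideal.Quotient.mk_surjective
  have hφk : ∀ m : Ideal C, m.IsMaximal → ∀ c,
      Ideal.Quotient.mk (Ideal.span {algebraMap R C x}) c = 0 → c ∈ m := fun m hm c hc =>
    Ideal.mem_of_dvd m (mk_zero.1 hc) (hxm m hm)
  have H' : ∀ m : Ideal C, m.IsMaximal → (∀ c, algebraMap C S c = 0 → c ∈ m) →
      RegAt (C ⧸ Ideal.span {algebraMap R C x}) (m.map (Ideal.Quotient.mk _)) 2 := by
    intro m hm hk
    have h1 := H _ (map_max hσ hm hk)
    have e : (m.map (algebraMap C S)).comap (algebraMap C S) = m :=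
      Ideal.ext fun c => mem_map hσ hk c
    rwa [e] at h1
  have h1 : ∀ m : MaximalSpectrum C, ∃ f, algebraMap C S f = 0 ∧
      ((∀ c, algebraMap C S c = 0 → c ∈ m.asIdeal) →
        Ideal.Quotient.mk (Ideal.span {algebraMap R C x}) f ∉
          m.asIdeal.map (Ideal.Quotient.mk _) ^ 2) ∧
      (f ∈ m.asIdeal → ∀ c, algebraMap C S c = 0 → c ∈ m.asIdeal) := fun m => by
    by_cases hk : ∀ c, algebraMap C S c = 0 → c ∈ m.asIdeal
    · have := (map_max hφ m.isMaximal (hφk _ m.isMaximal)).isPrime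
      obtain ⟨f, h2, h3⟩ := not_sq hσ hφ hk (H' _ m.isMaximal hk).1
      exact ⟨f, h2, fun _ => h3, fun _ => hk⟩
    · have hk' := hk
      push Not at hk'
      obtain ⟨f, h2, h3⟩ := hk'
      exact ⟨f, h2, fun h => (hk h).elim, fun h => (h3 h).elim⟩
  choose f hf hf1 hf2 using h1
  obtain ⟨g, hg, hg'⟩ := patch (RingHom.ker (algebraMap C S)) f hf
  have hg0 : algebraMap C S g = 0 := hg
  have g1 : ∀ m : Ideal C, m.IsMaximal → g ∈ m → ∀ c, algebraMap C S c = 0 → c ∈ m := by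
    intro m hm h
    refine hf2 ⟨m, hm⟩ ?_
    have h3 : m * RingHom.ker (algebraMap C S) ≤ m := Ideal.mul_le_left
    have := Submodule.sub_mem _ h (h3 (hg' ⟨m, hm⟩))
    rwa [sub_sub_cancel] at this
  have g2 : ∀ m : Ideal C, m.IsMaximal → g ∈ m →
      Ideal.Quotient.mk (Ideal.span {algebraMap R C x}) g ∉ m.map (Ideal.Quotient.mk _) ^ 2 := by
    intro m hm h h2
    refine hf1 ⟨m, hm⟩ (g1 m hm h) ?_
    have h3 : m * RingHom.ker (algebraMap C S) ≤ m ^ 2 := by
      rw [pow_two]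
      exact Ideal.mul_mono_right (g1 m hm h)
    have h4 := Ideal.mem_map_of_mem (Ideal.Quotient.mk (Ideal.span {algebraMap R C x}))
      (h3 (hg' ⟨m, hm⟩))
    rw [Ideal.map_pow, map_sub] at h4
    have := Submodule.sub_mem _ h2 h4
    rwa [sub_sub_cancel] at this
  have greg : ∀ c : C, algebraMap R C x ∣ g * c → algebraMap R C x ∣ c := by
    intro c hc
    refine dvd_of_loc fun m hm hA => ?_
    have hgm := hA g hc
    have hM := map_max hφ hm (hφk m hm)
    have h2 := mk_zero.2 hc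
    rw [map_mul] at h2
    rcases dom (H' m hm (g1 m hm hgm)) h2 with ⟨s, h3, h4⟩ | ⟨s, h3, h4⟩
    · exact g2 m hm hgm (ModelP.cancel hM h3 (Ideal.mem_map_of_mem _ hgm)
        (h4 ▸ Submodule.zero_mem _))
    · obtain ⟨s, rfl⟩ := hφ s
      rw [← map_mul, mk_zero] at h4
      exact h3 (Ideal.mem_map_of_mem _ (hA s h4))
  have hψ : Surjective (Ideal.Quotient.mk (Ideal.span {g})) := Ideal.Quotient.mk_surjective
  have hxT : algebraMap R (C ⧸ Ideal.span {g}) x = Ideal.Quotient.mk _ (algebraMap R C x) := rfl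
  have reg1 : ∀ m : Ideal C, m.IsMaximal → g ∈ m →
      RegAt ((C ⧸ Ideal.span {g}) ⧸ Ideal.span {algebraMap R (C ⧸ Ideal.span {g}) x})
        (m.map ((Ideal.Quotient.mk _).comp (Ideal.Quotient.mk _))) 1 := by
    intro m hm hgm
    have hM := map_max hφ hm (hφk m hm)
    have h2 := cut _ _ 1 _ (H' m hm (g1 m hm hgm)) (Ideal.mem_map_of_mem _ hgm) fun s hs h =>
      g2 m hm hgm (ModelP.cancel hM hs (Ideal.mem_map_of_mem _ hgm) h)
    rw [Ideal.map_map] at h2
    exact swap (hxm m hm) hgm h2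
  have hcm : ∀ N : Ideal (C ⧸ Ideal.span {g}), N.IsMaximal →
      (N.comap (Ideal.Quotient.mk _)).IsMaximal ∧ g ∈ N.comap (Ideal.Quotient.mk _) := by
    intro N hN
    refine ⟨Ideal.comap_isMaximal_of_surjective _ hψ, ?_⟩
    rw [Ideal.mem_comap, mk_zero.2 dvd_rfl]
    exact N.zero_mem
  have hx0 : algebraMap R (C ⧸ Ideal.span {g}) x ∈ nonZeroDivisors (C ⧸ Ideal.span {g}) := by
    rw [mem_nonZeroDivisors_iff_right, hxT]
    intro c hc
    obtain ⟨c, rfl⟩ := hψ c
    rw [← map_mul, mk_zero] at hc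
    obtain ⟨e, he⟩ := hc
    obtain ⟨e', rfl⟩ := greg e ⟨c, by rw [← he, mul_comm]⟩
    refine mk_zero.2 ⟨e', hreg ?_⟩
    change algebraMap R C x * c = algebraMap R C x * (g * e')
    linear_combination he
  have reg2 : ∀ N : Ideal (C ⧸ Ideal.span {g}), N.IsMaximal → RegAt _ N 2 := by
    intro N hN
    obtain ⟨h2, h3⟩ := hcm N hN
    have h4 := reg1 _ h2 h3
    rw [← Ideal.map_map, Ideal.map_comap_of_surjective _ hψ] at h4
    exact lift_reg N (hxm _ h2) hx0 h4
  let τ : (C ⧸ Ideal.span {g}) →+* S := Ideal.Quotient.lift _ (algebraMap C S) fun a ha => by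
    obtain ⟨b, rfl⟩ := Ideal.mem_span_singleton'.1 ha
    rw [map_mul, hg0, mul_zero]
  have hτ : Surjective τ := fun s => by
    obtain ⟨c, rfl⟩ := hσ s
    exact ⟨Ideal.Quotient.mk _ c, rfl⟩
  have hF' := finite_maximalSpectrum R (C ⧸ Ideal.span {g})
  obtain ⟨t, ht⟩ := principal hS hτ (fun N hN c hc => by
    obtain ⟨c, rfl⟩ := hψ c
    exact g1 _ (hcm N hN).1 (hcm N hN).2 c hc) reg2
  obtain ⟨t, rfl⟩ := hψ t
  refine ⟨g, t, fun c => (ht (Ideal.Quotient.mk _ c)).trans ?_, reg2, fun N hN => ?_, greg⟩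
  · rw [Ideal.mem_span_pair]
    constructor
    · rintro ⟨b, hb⟩
      obtain ⟨b, rfl⟩ := hψ b
      rw [← map_mul, ← sub_eq_zero, ← map_sub, mk_zero] at hb
      obtain ⟨a, ha⟩ := hb
      exact ⟨a, b, by linear_combination -ha⟩
    · rintro ⟨a, b, rfl⟩
      rw [map_add, mk_zero.2 (dvd_mul_left g a), zero_add, map_mul]
      exact dvd_mul_left _ _
  · have hs := surj2 g (algebraMap R (C ⧸ Ideal.span {g}) x)
    have h2 := reg1 _ (Ideal.comap_isMaximal_of_surjective _ hs (K := N)) (by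
      rw [Ideal.mem_comap, RingHom.comp_apply, mk_zero.2 dvd_rfl, map_zero]
      exact N.zero_mem)
    rwa [Ideal.map_comap_of_surjective _ hs] at h2

end Pool.Agent.P.MP_46a8f8_ag.GU
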