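import Pool.Agent.P.MP_46a8f8_ag.GU.Base2

/-!
Parity over a discrete valuation ring.
-/

namespace Pool.Agent.P.MP_46a8f8_ag.GU

open Function Matrix IsLocalRing

universe u

namespace ParP

section fld

variable {R A κ : Type u} [CommRing R] [Ring A] [Algebra R A] [StarRing A] [Field κ]
  [Algebra R κ] {ι : Type} [Fintype ι] [DecidableEq ι] {ρ : MRep R A κ ι} {δ : ℤˣ}

theorem mat_ext {M N : Matrix ι ι κ} (h : ∀ η ξ : ι → κ, η ⬝ᵥ M *ᵥ ξ = η ⬝ᵥ N *ᵥ ξ) : M = N := by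
  ext i j
  simpa using h (Pi.single i 1) (Pi.single j 1)

omit [DecidableEq ι] in
theorem tdot (M : Matrix ι ι κ) (η ξ : ι → κ) : (Mᵀ *ᵥ η) ⬝ᵥ ξ = η ⬝ᵥ M *ᵥ ξ := by
  rw [mulVec_transpose, dotProduct_mulVec]

/-- the matrix of an adjoint symmetric form -/
theorem mk_sym (B : (ι → κ) →ₗ[κ] (ι → κ) →ₗ[κ] κ) (hs : ∀ η ξ, B η ξ = δ • B ξ η)
    (ha : ∀ a η ξ, B ((ρ.ρ a)ᵀ *ᵥ η) ξ = B η ((ρ.ρ (star a))ᵀ *ᵥ ξ)) :
    ∃ ω : Matrix ι ι κ, SymAdj δ ρ ω ∧ ∀ η ξ, η ⬝ᵥ ω *ᵥ ξ = B η ξ := by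
  have h : ∀ η ξ, η ⬝ᵥ (LinearMap.toMatrix₂' κ B) *ᵥ ξ = B η ξ := fun η ξ => by
    rw [← Matrix.toLinearMap₂'_apply', Matrix.toLinearMap₂'_toMatrix']
  refine ⟨_, ⟨mat_ext fun η ξ => ?_, fun a => mat_ext fun η ξ => ?_⟩, h⟩
  · rw [dotProduct_comm, tdot, h, smul_mulVec, dotProduct_smul, h, hs]
  · rw [← mulVec_mulVec, ← mulVec_mulVec, ← tdot, h, h, ha]

variable [SA R A]

theorem fld {L : Submodule κ ((ι → κ) × (ι → κ))} (hL : MLag δ ρ L) {ω' : Matrix ι ι κ}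
    (h' : SymAdj δ ρ ω')
    (nd : ∀ ξ, (0, ξ) ∈ L → (∀ η, (0, η) ∈ L → η ⬝ᵥ ω' *ᵥ ξ = 0) → ξ = 0) :
    ∃ ω : Matrix ι ι κ, SymAdj δ ρ ω ∧
      ∀ u ∈ L, (∀ v ∈ L, v.2 ⬝ᵥ ω *ᵥ u.2 = 0) → u.2 = 0 := by
  have hst : (ρ.rm.prod ρ.dual.rm).Stab L := hL.1
  have hsnd : Eqv ((ρ.rm.prod ρ.dual.rm).sub L hst) ρ.dual.rm
      (LinearMap.snd κ (ι → κ) (ι → κ) ∘ₗ L.subtype) := fun _ _ => rfl
  have hinr : Eqv ρ.dual.rm (ρ.rm.prod ρ.dual.rm) (LinearMap.inr κ (ι → κ) (ι → κ)) :=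
    fun a m => Prod.ext (map_zero (ρ.rm.ρ a)).symm rfl
  obtain ⟨p, p1, p2, p3⟩ := hsnd.range.proj
  obtain ⟨p', p1', p2', p3'⟩ := (hinr.comap hst).proj
  obtain ⟨g, g1, g2⟩ := hsnd.lift_proj p1 p2
  let γ : (ι → κ) →ₗ[κ] (ι → κ) := LinearMap.fst κ (ι → κ) (ι → κ) ∘ₗ L.subtype ∘ₗ g
  have γ1 : ∀ a ξ, γ ((ρ.ρ (star a))ᵀ *ᵥ ξ) = ρ.ρ a *ᵥ γ ξ := fun a ξ =>
    congrArg (fun z => z.1.1) (g1 a ξ)
  have γ2 : ∀ ξ, (γ ξ, p ξ) ∈ L := fun ξ => by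
    rw [← g2]
    exact (g ξ).2
  have q1 : ∀ a ξ, p ((ρ.ρ a)ᵀ *ᵥ ξ) = (ρ.ρ a)ᵀ *ᵥ p ξ := fun a ξ => by
    have := p1 (star a) ξ
    change p ((ρ.ρ (star (star a)))ᵀ *ᵥ ξ) = (ρ.ρ (star (star a)))ᵀ *ᵥ p ξ at this
    rwa [star_star] at this
  have q1' : ∀ a ξ, p' ((ρ.ρ a)ᵀ *ᵥ ξ) = (ρ.ρ a)ᵀ *ᵥ p' ξ := fun a ξ => by
    have := p1' (star a) ξ
    change p' ((ρ.ρ (star (star a)))ᵀ *ᵥ ξ) = (ρ.ρ (star (star a)))ᵀ *ᵥ p' ξ at this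
    rwa [star_star] at this
  have q2' : ∀ ξ, ((0 : ι → κ), p' ξ) ∈ L := p2'
  have q3 : ∀ v ∈ L, p v.2 = v.2 := fun v hv => p3 _ ⟨⟨v, hv⟩, rfl⟩
  have q3' : ∀ ξ, ((0 : ι → κ), ξ) ∈ L → p' ξ = ξ := p3'
  let B : (ι → κ) →ₗ[κ] (ι → κ) →ₗ[κ] κ := LinearMap.mk₂ κ
    (fun η ξ => p η ⬝ᵥ γ ξ + p' η ⬝ᵥ ω' *ᵥ p' ξ)
    (fun η η' ξ => by simp only [map_add, add_dotProduct]; abel)
    (fun c η ξ => by simp only [map_smul, smul_dotProduct, smul_add])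
    (fun η ξ ξ' => by simp only [map_add, mulVec_add, dotProduct_add]; abel)
    (fun c η ξ => by simp only [map_smul, mulVec_smul, dotProduct_smul, smul_add])
  have hB : ∀ η ξ, B η ξ = p η ⬝ᵥ γ ξ + p' η ⬝ᵥ ω' *ᵥ p' ξ := fun _ _ => rfl
  obtain ⟨ω, w1, w2⟩ := mk_sym (δ := δ) (ρ := ρ) B
    (fun η ξ => by
      have := (hL.2 _).1 (γ2 η) _ (γ2 ξ)
      rw [hf, sub_eq_zero] at this
      rw [hB, hB, smul_add, ← h'.dot]
      exact congrArg (· + _) this)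
    (fun a η ξ => by
      rw [hB, hB, q1, q1', q1', γ1, tdot, tdot, mulVec_mulVec, mulVec_mulVec, h'.2])
  refine ⟨ω, w1, fun u hu H => ?_⟩
  have e1 : p' u.2 = 0 := nd _ (q2' _) fun η hη => by
    have h1 := H _ hη
    have h2 := (hL.2 _).1 hη _ (γ2 u.2)
    rw [w2, hB, q3 _ hη, q3' _ hη] at h1
    simp only [hf, dotProduct_zero, smul_zero, sub_zero] at h2
    simpa [h2] using h1
  have e2 : (γ u.2, (0 : ι → κ)) ∈ L := (hL.2 _).2 fun v hv => by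
    have h1 := H v hv
    rw [w2, hB, q3 _ hv, e1, mulVec_zero, dotProduct_zero, add_zero] at h1
    simp [hf, h1]
  have e3 : ((0 : ι → κ), u.2) ∈ L := by
    have := L.sub_mem (γ2 u.2) e2
    rw [q3 _ hu] at this
    simpa using this
  rw [← q3' _ e3, e1]

end fld

section dvr

variable {R A D κ : Type u} [CommRing R] [Ring A] [Algebra R A] [StarRing A] [CommRing D]
  [Algebra R D] [Field κ] [Algebra R κ] {ι : Type} [Fintype ι] [DecidableEq ι]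
  {ρ : MRep R A D ι} {δ : ℤˣ} {Λ : Submodule D ((ι → D) × (ι → D))} {π : D}

omit [DecidableEq ι] in
theorem hf_smul (δ : ℤˣ) (c : D) (u v : (ι → D) × (ι → D)) :
    hf δ (c • u) v = c * hf δ u v := by
  simp [hf, mul_sub, Units.smul_def, mul_left_comm]

omit [DecidableEq ι] in
theorem hf_sub (δ : ℤˣ) (u u' v : (ι → D) × (ι → D)) :
    hf δ (u - u') v = hf δ u v - hf δ u' v := by
  simp only [hf, Prod.fst_sub, Prod.snd_sub, sub_dotProduct, dotProduct_sub, smul_sub]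
  abel

/-- the shifted lattice -/
def sh (π : D) (Λ : Submodule D ((ι → D) × (ι → D))) : Submodule D ((ι → D) × (ι → D)) :=
  Λ.comap (LinearMap.prodMap (π • LinearMap.id) LinearMap.id)

omit [Fintype ι] [DecidableEq ι] in
theorem mem_sh {u : (ι → D) × (ι → D)} : u ∈ sh π Λ ↔ (π • u.1, u.2) ∈ Λ := Iff.rfl

theorem sh_lag [IsDomain D] (hπ : π ≠ 0) (h : MLag δ ρ Λ) : MLag δ ρ (sh π Λ) := by
  refine ⟨fun a u hu => ?_, fun u => ⟨fun hu v hv => ?_, fun H => ?_⟩⟩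
  · have := h.1 a _ (mem_sh.1 hu)
    rw [mem_sh]
    simpa only [mulVec_smul] using this
  · have := (h.2 _).1 (mem_sh.1 hu) _ (mem_sh.1 hv)
    refine mul_left_cancel₀ hπ ?_
    rw [mul_zero, ← this]
    simp [hf, mul_sub, Units.smul_def, mul_left_comm]
  · refine mem_sh.2 ((h.2 _).2 fun v hv => ?_)
    have := H (v.1, π • v.2) (mem_sh.2 (Λ.smul_mem π hv))
    rw [← this]
    simp [hf]

theorem div_lin {M : Type u} [AddCommGroup M] [Module D M] [Module.Projective D M]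
    (ψ : M →ₗ[D] D) (h : ∀ y, π ∣ ψ y) : ∃ φ : M →ₗ[D] D, ∀ y, π * φ y = ψ y := by
  let p : D →ₗ[D] D := π • LinearMap.id
  obtain ⟨f, hf⟩ := Module.projective_lifting_property p.rangeRestrict
    (ψ.codRestrict (LinearMap.range p) fun y => (h y).imp fun _ e => e.symm)
    p.surjective_rangeRestrict
  exact ⟨f, fun x => congrArg Subtype.val (LinearMap.congr_fun hf x)⟩

theorem retr [IsDomain D] [IsPrincipalIdealRing D] (h : MLag δ ρ Λ) :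
    ∃ r : ((ι → D) × (ι → D)) →ₗ[D] ((ι → D) × (ι → D)), (∀ y, r y ∈ Λ) ∧ ∀ y ∈ Λ, r y = y := by
  have : Module.IsTorsionFree D (((ι → D) × (ι → D)) ⧸ Λ) := by
    refine Module.IsTorsionFree.of_smul_eq_zero fun c y e => ?_
    obtain ⟨y, rfl⟩ := Submodule.Quotient.mk_surjective Λ y
    rw [← Submodule.Quotient.mk_smul, Submodule.Quotient.mk_eq_zero] at e
    rw [Submodule.Quotient.mk_eq_zero]
    refine or_iff_not_imp_left.2 fun hc => (h.2 _).2 fun v hv => ?_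
    have := (h.2 _).1 e v hv
    rw [hf_smul] at this
    exact (mul_eq_zero.1 this).resolve_left hc
  obtain ⟨s, hs⟩ := Module.projective_lifting_property Λ.mkQ LinearMap.id Λ.mkQ_surjective
  refine ⟨LinearMap.id - s ∘ₗ Λ.mkQ, fun y => ?_, fun y hy => ?_⟩
  · rw [← Submodule.Quotient.mk_eq_zero]
    change Λ.mkQ (y - s (Λ.mkQ y)) = 0
    rw [map_sub, sub_eq_zero]
    exact (LinearMap.congr_fun hs _).symm
  · change y - s (Submodule.Quotient.mk y) = y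
    rw [(Submodule.Quotient.mk_eq_zero Λ).2 hy, map_zero, sub_zero]

theorem key [SA R A] [IsDomain D] [IsPrincipalIdealRing D] (h : MLag δ ρ Λ)
    {v : (ι → D) × (ι → D)} (hv : ∀ y ∈ Λ, π ∣ hf δ v y) : ∃ w, v - π • w ∈ Λ := by
  obtain ⟨r, r1, r2⟩ := retr h
  obtain ⟨φ, hφ⟩ := div_lin (π := π) ((ρ.hfm δ).b v ∘ₗ r) fun y => hv _ (r1 y)
  obtain ⟨w, hw⟩ := (ρ.hfm_sp δ).perf.exists φ
  refine ⟨w, (h.2 _).2 fun y hy => ?_⟩
  have h1 : hf δ w y = φ y := hw y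
  have h2 : π * φ y = hf δ v (r y) := hφ y
  rw [hf_sub, hf_smul, h1, h2, r2 y hy, sub_self]

variable (q : D →ₐ[R] κ)

omit [DecidableEq ι] in
theorem q_mulVec (M : Matrix ι ι D) (v : ι → D) : q ∘ (M *ᵥ v) = M.map q *ᵥ (q ∘ v) :=
  funext fun i => RingHom.map_mulVec (q : D →+* κ) M v i

omit [DecidableEq ι] in
theorem q_hf (δ : ℤˣ) (u v : (ι → D) × (ι → D)) :
    q (hf δ u v) = hf δ (q ∘ u.1, q ∘ u.2) (q ∘ v.1, q ∘ v.2) := by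
  have h : ∀ a b : ι → D, q (a ⬝ᵥ b) = (q ∘ a) ⬝ᵥ (q ∘ b) :=
    RingHom.map_dotProduct (q : D →+* κ)
  rw [hf, hf, map_sub, Units.smul_def, Units.smul_def, map_zsmul, h, h]

/-- the reduction of a lattice -/
def red (hq : Surjective q) (Λ : Submodule D ((ι → D) × (ι → D))) :
    Submodule κ ((ι → κ) × (ι → κ)) where
  carrier := {z | ∃ y ∈ Λ, (q ∘ y.1, q ∘ y.2) = z}
  add_mem' := by
    rintro _ _ ⟨y, hy, rfl⟩ ⟨y', hy', rfl⟩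
    exact ⟨y + y', Λ.add_mem hy hy', Prod.ext (funext fun i => map_add q _ _)
      (funext fun i => map_add q _ _)⟩
  zero_mem' := ⟨0, Λ.zero_mem, Prod.ext (funext fun _ => map_zero q) (funext fun _ => map_zero q)⟩
  smul_mem' := by
    rintro c _ ⟨y, hy, rfl⟩
    obtain ⟨c, rfl⟩ := hq c
    exact ⟨c • y, Λ.smul_mem c hy, Prod.ext (funext fun i => map_mul q _ _)
      (funext fun i => map_mul q _ _)⟩

theorem red_lag [SA R A] [IsDomain D] [IsPrincipalIdealRing D] (hq : Surjective q)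
    (hk : ∀ d, q d = 0 ↔ π ∣ d) (h : MLag δ ρ Λ) : MLag δ (ρ.map q) (red q hq Λ) := by
  refine ⟨?_, fun u => ⟨?_, fun H => ?_⟩⟩
  · rintro a _ ⟨y, hy, rfl⟩
    refine ⟨_, h.1 a y hy, Prod.ext (q_mulVec q _ _) ?_⟩
    exact q_mulVec q _ _
  · rintro ⟨y, hy, rfl⟩ _ ⟨y', hy', rfl⟩
    rw [← q_hf, (h.2 _).1 hy _ hy', map_zero]
  · obtain ⟨u1, u2⟩ := u
    obtain ⟨v1, rfl⟩ := hq.comp_left u1
    obtain ⟨v2, rfl⟩ := hq.comp_left u2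
    obtain ⟨w, hw⟩ := key (π := π) h (v := (v1, v2)) fun y hy =>
      (hk _).1 ((q_hf q δ _ _).trans (H _ ⟨y, hy, rfl⟩))
    have h0 : q π = 0 := (hk π).2 dvd_rfl
    exact ⟨_, hw, Prod.ext (funext fun i => by simp [h0]) (funext fun i => by simp [h0])⟩

omit [Fintype ι] [DecidableEq ι] in
theorem div_vec (hk : ∀ d, q d = 0 ↔ π ∣ d) {x : ι → D} (h : q ∘ x = 0) : ∃ w, x = π • w := by
  choose w hw using fun i => (hk (x i)).1 (congrFun h i)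
  exact ⟨w, funext hw⟩

theorem main [SA R A] [IsDomain D] [IsPrincipalIdealRing D] (hq : Surjective q) (hπ : π ≠ 0)
    (hk : ∀ d, q d = 0 ↔ π ∣ d) (k : ℕ) : ∀ Λ : Submodule D ((ι → D) × (ι → D)), MLag δ ρ Λ →
    (∀ x : ι → D, ∃ ξ, (π ^ k • x, ξ) ∈ Λ) → ∃ ω : Matrix ι ι κ, SymAdj δ (ρ.map q) ω ∧
      ∀ u ∈ Λ, q ∘ u.1 = 0 → (∀ v ∈ Λ, q ∘ v.1 = 0 → (q ∘ v.2) ⬝ᵥ ω *ᵥ (q ∘ u.2) = 0) →
        q ∘ u.2 = 0 := by
  have h0 : q π = 0 := (hk π).2 dvd_rfl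
  induction k with
  | zero =>
    intro Λ h hx
    refine ⟨0, ⟨by simp, fun a => by simp⟩, fun u hu hu1 _ => funext fun i => ?_⟩
    obtain ⟨w, hw⟩ := div_vec q hk hu1
    obtain ⟨ξ, hξ⟩ := hx (Pi.single i 1)
    have := congrArg q ((h.2 _).1 hu _ hξ)
    rw [q_hf, hu1] at this
    simpa [hf, dotProduct, Pi.single_apply] using this
  | succ k ih =>
    intro Λ h hx
    have h' := sh_lag hπ h
    obtain ⟨ω', w1, w2⟩ := ih (sh π Λ) h' fun x => (hx x).imp fun ξ hξ => by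
      rw [mem_sh, smul_smul, ← pow_succ']
      exact hξ
    obtain ⟨ω, v1, v2⟩ := fld (red_lag q hq hk h') w1 (by
      rintro ξ ⟨y, hy, e⟩ H
      obtain ⟨e1, rfl⟩ := Prod.mk.inj e
      exact w2 y hy e1 fun v hv e2 => H _ ⟨v, hv, Prod.ext e2 rfl⟩)
    refine ⟨ω, v1, fun u hu hu1 H => ?_⟩
    obtain ⟨w, hw⟩ := div_vec q hk hu1
    refine v2 (q ∘ w, q ∘ u.2) ⟨(w, u.2), mem_sh.2 (by rw [← hw]; exact hu), rfl⟩ ?_
    rintro _ ⟨y, hy, rfl⟩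
    exact H (π • y.1, y.2) (mem_sh.1 hy) (funext fun i => by simp [h0])

end dvr

end ParP

theorem pPar : S_Par.{u} := by
  intro R A D κ _ _ _ _ _ _ _ _ _ _ _ q ι _ _ ρ δ Λ f hq hk hΛ hf hx
  obtain ⟨π, hπ⟩ := IsDiscreteValuationRing.exists_irreducible D
  obtain ⟨k, c, rfl⟩ := IsDiscreteValuationRing.eq_unit_mul_pow_irreducible hf hπ
  refine ParP.main q hq hπ.ne_zero (fun d => ?_) k Λ hΛ fun x => ?_
  · rw [hk, hπ.maximalIdeal_eq, Ideal.mem_span_singleton]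
  · obtain ⟨ξ, hξ⟩ := hx ((c⁻¹ : Dˣ) • x)
    refine ⟨ξ, ?_⟩
    rwa [Units.smul_def, smul_smul, mul_right_comm, Units.mul_inv, one_mul] at hξ

end Pool.Agent.P.MP_46a8f8_ag.GU
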