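import Pool.Agent.P.MP_46a8f8_ag.GU.Sp

/-!
Package Pr3: the spinor norm spreads out to a family over the line.
-/

namespace Pool.Agent.P.MP_46a8f8_ag.GU

open Polynomial

universe u

namespace Pr3P

variable {R W : Type u} [CommRing R] [CommRing W] {n : ℕ}

/-- the top coefficient is corrected by a multiple of a monic polynomial -/
theorem topc [Nontrivial R] {c : Ix n → R} (hc : Ok2 c) {Q : R[X]} (hQ : Q.Monic)
    (p : Ix n → R[X]) : ∃ p' : Ix n → R[X], Tp c p' ∧ ∀ i, X * Q ∣ p' i - p i := by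
  have hm : (X ^ (dg p + 1) * Q).Monic := (monic_X_pow _).mul hQ
  have hd : dg p < (X ^ (dg p + 1) * Q).natDegree := by
    rw [(monic_X_pow _).natDegree_mul hQ, natDegree_X_pow]
    omega
  refine ⟨p + Pi.single 0 (X ^ (dg p + 1) * Q),
    (tp_of (e := (X ^ (dg p + 1) * Q).natDegree) (fun i => ?_) ?_).2, fun i => ?_⟩
  · rw [Pi.add_apply]
    by_cases h : i = 0
    · rw [h, Pi.single_eq_same]
      exact natDegree_add_le_of_degree_le ((le_dg p 0).trans hd.le) le_rfl
    · rw [Pi.single_eq_of_ne h, add_zero]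
      exact (le_dg p i).trans hd.le
  · have e : cf (p + Pi.single 0 (X ^ (dg p + 1) * Q)) (X ^ (dg p + 1) * Q).natDegree =
        Pi.single 0 1 := by
      funext i
      rw [cf, Pi.add_apply, coeff_add, coeff_eq_zero_of_natDegree_lt ((le_dg p i).trans_lt hd),
        zero_add]
      by_cases h : i = 0
      · rw [h, Pi.single_eq_same, Pi.single_eq_same, hm.coeff_natDegree]
      · rw [Pi.single_eq_of_ne h, Pi.single_eq_of_ne h, coeff_zero]
    rw [e, qv_single, one_pow, mul_one]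
    exact hc.un 0
  · rw [Pi.add_apply, add_sub_cancel_left]
    by_cases h : i = 0
    · rw [h, Pi.single_eq_same]
      exact ⟨X ^ dg p, by ring⟩
    · rw [Pi.single_eq_of_ne h]
      exact dvd_zero _

theorem lst {c : Ix n → R} (ψ : R[X] →+* W) (j : R →+* W) (a b : W) (l : List (Ix n → R))
    (h : ∀ y ∈ l, ∃ p : Ix n → R[X], Tp c p ∧ constantCoeff (vl (C ∘ c) p) = vl c y ∧
      ψ (vl (C ∘ c) p) * a = b * j (vl c y)) :
    ∃ L : List (Ix n → R[X]), (∀ p ∈ L, Tp c p) ∧ constantCoeff (vp (C ∘ c) L) = vp c l ∧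
      ψ (vp (C ∘ c) L) * a ^ l.length = b ^ l.length * j (vp c l) := by
  induction l with
  | nil => exact ⟨[], by simp, by simp [vp], by simp [vp]⟩
  | cons y l ih =>
    obtain ⟨L, h1, h2, h3⟩ := ih fun x hx => h x (List.mem_cons_of_mem _ hx)
    obtain ⟨p, k1, k2, k3⟩ := h y List.mem_cons_self
    refine ⟨p :: L, fun q hq => ?_, ?_, ?_⟩
    · rcases List.mem_cons.1 hq with rfl | hq
      exacts [k1, h1 q hq]
    · rw [vp_cons, vp_cons, map_mul, h2, k2]
    · rw [vp_cons, vp_cons, map_mul, map_mul, List.length_cons]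
      linear_combination (ψ (vp (C ∘ c) L) * a ^ l.length) * k3 + (b * j (vl c y)) * h3

end Pr3P

open Pr3P in
theorem pPr3 (h2 : S_Pr2.{u}) : S_Pr3.{u} := by
  classical
  intro R T _ _ _ _ _ n c l u z g j ρ hc hz hl P
  obtain ⟨Q, u₀, hQ, hQ0, hu0, hQg, hker, hA⟩ := h2 R T (z ^ 3) g P.toPrs
  obtain ⟨σ, hσ0, hσ⟩ := hA
    ((l.toFinset.biUnion fun y => Finset.univ.image fun i => ρ i * j (y i)) ∪ {j z, j u, ρ 0})
  let ψ : R[X] →+* Localization (On g) := (toW g).comp (aeval g : R[X] →ₐ[R] T).toRingHom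
  have hψ : ∀ p, ψ p = toW g (aeval g p) := fun _ => rfl
  have hC : ∀ r, ψ (C r) = toW g (algebraMap R T r) := fun r => by rw [hψ, aeval_C]
  have hψQ : ψ Q = 0 := by rw [hψ, hQg, map_zero]
  obtain ⟨ζ, hζ0, hζ⟩ := hσ (j z) (by simp) z (P.jc z)
  obtain ⟨U, -, hU⟩ := hσ (j u) (by simp) u (P.jc u)
  obtain ⟨r₀, hr0, hr⟩ := hσ (ρ 0) (by simp) 1 (by rw [map_one, map_one]; exact P.r1 0)
  rw [← hψ, ← hψ] at hζ hU hr
  obtain ⟨L, h1, h2, h3⟩ := lst (c := c) ψ j (ρ 0 ^ 2) (ψ σ ^ 2) l fun y hy => by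
    have ex : ∀ i, ∃ p : R[X], p.coeff 0 = y i ∧ ψ p = ψ σ * (ρ i * j (y i)) := fun i =>
      hσ _ (Finset.mem_union_left _ (Finset.mem_biUnion.2 ⟨y, List.mem_toFinset.2 hy,
        Finset.mem_image.2 ⟨i, Finset.mem_univ _, rfl⟩⟩)) (y i) (by
          have e : ρ i * j (y i) - toW g (algebraMap R T (y i)) =
              (ρ i - 1) * j (y i) + (j (y i) - toW g (algebraMap R T (y i))) := by ring
          rw [e]
          exact dvd_add ((P.r1 i).mul_right _) (P.jc _))
    choose p p0 p1 using ex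
    obtain ⟨p', k1, k2⟩ := topc hc hQ p
    have q0 : ∀ i, constantCoeff (p' i) = y i := fun i => by
      obtain ⟨w, hw⟩ := k2 i
      rw [eq_add_of_sub_eq hw, map_add, map_mul, map_mul, constantCoeff_apply X, coeff_X_zero,
        zero_mul, zero_mul, zero_add, constantCoeff_apply, p0]
    have q1 : ∀ i, ψ (p' i) = ψ σ * (ρ i * j (y i)) := fun i => by
      obtain ⟨w, hw⟩ := k2 i
      rw [eq_add_of_sub_eq hw, map_add, map_mul, map_mul, hψQ, mul_zero, zero_mul, zero_add, p1]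
    refine ⟨p', k1, ?_, ?_⟩
    · rw [map_vl]
      congr 1
      · funext i
        simp
      · exact funext q0
    · have e : ψ (qv (C ∘ c) p') = ψ σ ^ 2 * j (qv c y) := by
        rw [qv, qv, map_sum, map_sum, Finset.mul_sum]
        refine Finset.sum_congr rfl fun i _ => ?_
        rw [map_mul, map_mul, map_pow, map_pow, q1, Function.comp, hC, ← P.rt i]
        ring
      rw [vl, vl, map_mul, map_mul, e, Function.comp, hC, ← P.rt 0]
      ring
  obtain ⟨h₁, e1⟩ := hker (vp (C ∘ c) L * r₀ ^ (2 * l.length) * σ ^ 3 -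
      σ ^ (4 * l.length) * U * ζ ^ 2) (by
    rw [← hψ, map_sub, map_mul, map_mul, map_mul, map_mul, map_pow, map_pow, map_pow, map_pow, hζ,
      hU, hr]
    rw [hl, map_mul, map_pow] at h3
    have e4 : ψ σ ^ (4 * l.length) = (ψ σ ^ 2) ^ l.length * (ψ σ ^ 2) ^ l.length := by
      rw [← pow_add, ← pow_mul]
      congr 1
      ring
    have e5 : (ψ σ * ρ 0) ^ (2 * l.length) = (ψ σ ^ 2) ^ l.length * (ρ 0 ^ 2) ^ l.length := by
      rw [mul_pow, pow_mul, pow_mul]
    rw [e4, e5]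
    linear_combination ((ψ σ ^ 2) ^ l.length * ψ σ ^ 3) * h3)
  obtain ⟨h, e2⟩ := hker (ζ ^ 3) (by
    rw [← hψ, map_pow, hζ, mul_pow, ← map_pow j, P.j0, mul_zero])
  have hh : h.coeff 0 = 1 := by
    have := congrArg constantCoeff e2
    simp only [map_mul, map_pow, constantCoeff_apply, hu0, hζ0, hQ0, one_mul] at this
    exact (mul_left_cancel₀ (pow_ne_zero 3 hz) (this.symm.trans (mul_one _).symm))
  have hS : (h * u₀ * r₀ ^ (2 * l.length) * σ ^ 3).coeff 0 = 1 := by
    rw [← constantCoeff_apply]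
    simp only [map_mul, map_pow, constantCoeff_apply, hu0, hh, hr0, hσ0, one_pow, one_mul]
  have key : h * u₀ * r₀ ^ (2 * l.length) * σ ^ 3 * vp (C ∘ c) L =
      ζ ^ 2 * (u₀ * (h * σ ^ (4 * l.length) * U + ζ * h₁)) := by
    linear_combination h * e1 - h₁ * e2
  refine ⟨L, _, ζ, _, h1, hS, ?_, fun e => hz (by rw [← hζ0, e, coeff_zero]), key⟩
  have := congrArg constantCoeff key
  rw [map_mul, map_mul _ (ζ ^ 2), h2, hl, map_pow, constantCoeff_apply, constantCoeff_apply,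
    constantCoeff_apply, hS, hζ0, one_mul, mul_comm] at this
  exact (mul_left_cancel₀ (pow_ne_zero 2 hz) this).symm

end Pool.Agent.P.MP_46a8f8_ag.GU
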