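import Pool.Agent.P.MP_46a8f8_ag.GU.Qc

/-!
The cocycle of inner automorphisms attached to a torsor under a central quotient.
-/

namespace Pool.Agent.P.MP_46a8f8_ag.GU

open TensorProduct Function

universe u

namespace QACP

variable {R E O : Type u} [CommRing R] [Ring E] [Algebra R E] [CommRing O] [Algebra R O]
  {G : Fam R E} {m : ℕ} {ρ : Rel R E O} {T : Type u} [CommRing T] [Algebra R T]

variable (ρ) in
/-- `y` is the conjugate of `x` -/
def Good (p q : O →ₐ[R] T) (x y : T ⊗[R] E) : Prop :=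
  ∀ (T' : Type u) [CommRing T'] [Algebra R T'] (f : T →ₐ[R] T') (h : T' ⊗[R] E),
    ρ T' (f.comp p) (f.comp q) h → mp E f y * h = h * mp E f x

variable {p q r : O →ₐ[R] T} {x y x' y' : T ⊗[R] E}

theorem swap (hQ : QT G m ρ) {h h' : T ⊗[R] E} (h1 : ρ T p q h) (h2 : ρ T p q h')
    (e : y * h = h * x) : y * h' = h' * x := by
  obtain ⟨ζ, hζ, rfl⟩ := hQ.uniq T p q h h' h1 h2
  rw [← mul_assoc, e, mul_assoc, mul_assoc, hζ.2]

theorem canc (hG : GInv G) (hQ : QT G m ρ) {h : T ⊗[R] E} (h1 : ρ T p q h)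
    (e : y * h = y' * h) : y = y' := by
  obtain ⟨g, -, hg, -⟩ := hG T h (hQ.mem T p q h h1)
  rw [← mul_one y, ← hg, ← mul_assoc, e, mul_assoc, hg, mul_one]

theorem Good.add (h1 : Good ρ p q x y) (h2 : Good ρ p q x' y') :
    Good ρ p q (x + x') (y + y') := fun T' _ _ f h hh => by
  rw [map_add, map_add, add_mul, mul_add, h1 T' f h hh, h2 T' f h hh]

theorem Good.mul (h1 : Good ρ p q x y) (h2 : Good ρ p q x' y') :
    Good ρ p q (x * x') (y * y') := fun T' _ _ f h hh => by
  rw [map_mul, map_mul, mul_assoc, h2 T' f h hh, ← mul_assoc, h1 T' f h hh, mul_assoc]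

theorem good_alg (t : T) : Good ρ p q (algebraMap T _ t) (algebraMap T _ t) :=
  fun T' _ _ f h _ => by
    rw [mp_alg]
    exact Algebra.commutes _ _

theorem Good.map (h1 : Good ρ p q x y) {T' : Type u} [CommRing T'] [Algebra R T']
    (f : T →ₐ[R] T') : Good ρ (f.comp p) (f.comp q) (mp E f x) (mp E f y) :=
  fun T'' _ _ g h hh => by
    rw [H90P.mp_mp, H90P.mp_mp]
    exact h1 T'' (g.comp f) h hh

theorem good_self (hQ : QT G m ρ) : Good ρ p p x x := fun T' _ _ f _ hh =>
  swap hQ (hQ.one T' (f.comp p)) hh (by rw [mul_one, one_mul])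

variable [Module.Free R E] [Module.Finite R E]

theorem Good.uniq (hG : GInv G) (hQ : QT G m ρ) (h1 : Good ρ p q x y) (h2 : Good ρ p q x y') :
    y = y' := by
  obtain ⟨T', _, _, _, _, h, _, hh⟩ := hQ.loc T p q
  exact mp_inj_ff (T' := T') (canc hG hQ hh ((h1 T' _ h hh).trans (h2 T' _ h hh).symm))

theorem good_of (hQ : QT G m ρ) {T' : Type u} [CommRing T'] [Algebra R T'] [Algebra T T']
    [IsScalarTower R T T'] [Module.FaithfullyFlat T T'] {h : T' ⊗[R] E}
    (hh : ρ T' ((IsScalarTower.toAlgHom R T T').comp p) ((IsScalarTower.toAlgHom R T T').comp q) h)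
    (e : mp E (IsScalarTower.toAlgHom R T T') y * h = h * mp E (IsScalarTower.toAlgHom R T T') x) :
    Good ρ p q x y := by
  intro T'' _ _ f g hg
  let := f.toRingHom.toAlgebra
  have : IsScalarTower R T T'' := IsScalarTower.of_algebraMap_eq fun r => (f.commutes r).symm
  let a := IsScalarTower.toAlgHom R T'' (T'' ⊗[T] T')
  let b := (H90P.iR T T'' T').restrictScalars R
  have ab : b.comp (IsScalarTower.toAlgHom R T T') = a.comp f := by
    ext t
    exact ((H90P.iR T T'' T').commutes t).trans rfl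
  have h1 := hQ.map T' _ b _ _ h hh
  have h2 := hQ.map T'' _ a _ _ g hg
  rw [← AlgHom.comp_assoc, ← AlgHom.comp_assoc, ab] at h1
  have e1 := congrArg (mp E b) e
  rw [map_mul, map_mul, H90P.mp_mp, H90P.mp_mp, ab] at e1
  refine mp_inj_ff (T' := T'' ⊗[T] T') ?_
  rw [map_mul, map_mul, H90P.mp_mp, H90P.mp_mp]
  exact swap hQ h1 h2 e1

theorem good_ex (hG : GInv G) (hQ : QT G m ρ) (p q : O →ₐ[R] T) (x : T ⊗[R] E) :
    ∃ y, Good ρ p q x y := by
  obtain ⟨T', _, _, _, _, h, _, hh⟩ := hQ.loc T p q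
  obtain ⟨g, -, -, hg⟩ := hG T' h (hQ.mem T' _ _ h hh)
  let φ := IsScalarTower.toAlgHom R T T'
  have e : h * mp E φ x * g * h = h * mp E φ x := by rw [mul_assoc, hg, mul_one]
  let a := (H90P.iL T T' T').restrictScalars R
  let b := (H90P.iR T T' T').restrictScalars R
  have ab : a.comp φ = b.comp φ := by
    ext t
    exact ((H90P.iL T T' T').commutes t).trans ((H90P.iR T T' T').commutes t).symm
  obtain ⟨y, hy⟩ := desc_mp (T := T) (h * mp E φ x * g) (by
    have h1 := hQ.map T' _ a _ _ h hh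
    have h2 := hQ.map T' _ b _ _ h hh
    rw [← AlgHom.comp_assoc, ← AlgHom.comp_assoc] at h1 h2
    rw [ab] at h1
    have e1 := congrArg (mp E a) e
    have e2 := congrArg (mp E b) e
    rw [map_mul _ _ h, map_mul _ h (mp E φ x), H90P.mp_mp] at e1 e2
    rw [ab] at e1
    exact canc hG hQ h2 ((swap hQ h1 h2 e1).trans e2.symm))
  exact ⟨y, good_of hQ hh (by rw [hy, e])⟩

theorem Good.comp (hG : GInv G) (hQ : QT G m ρ) {z z' : T ⊗[R] E} (h1 : Good ρ p q x y)
    (h2 : Good ρ q r y z) (h3 : Good ρ p r x z') : z = z' := by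
  obtain ⟨T', _, _, _, _, h, _, hh⟩ := hQ.loc T p q
  let φ := IsScalarTower.toAlgHom R T T'
  obtain ⟨T'', _, _, _, _, k, _, hk⟩ := hQ.loc T' (φ.comp q) (φ.comp r)
  let ψ := IsScalarTower.toAlgHom R T' T''
  have hh' := hQ.map T' T'' ψ _ _ h hh
  have hm := hQ.mul T'' _ _ _ _ _ hk hh'
  refine mp_inj_ff (T' := T') (mp_inj_ff (T' := T'') ?_)
  rw [H90P.mp_mp, H90P.mp_mp]
  refine canc hG hQ hm ?_
  rw [h3 T'' (ψ.comp φ) _ hm, ← mul_assoc, h2 T'' (ψ.comp φ) k hk, mul_assoc,
    h1 T'' (ψ.comp φ) _ hh', mul_assoc]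

end QACP

open QACP in
theorem pQAC : S_QAC.{u} := by
  intro R E O _ _ _ _ _ _ _ G m ρ hG hQ
  have ex : ∀ (T : Type u) [CommRing T] [Algebra R T] (p q : O →ₐ[R] T),
      ∃ c : T ⊗[R] E →ₐ[T] T ⊗[R] E, ∀ x, QACP.Good ρ p q x (c x) := fun T _ _ p q => by
    choose c hc using good_ex hG hQ p q
    have al : ∀ t : T, c (algebraMap T _ t) = algebraMap T _ t := fun t =>
      (hc _).uniq hG hQ (good_alg t)
    exact ⟨{ toFun := c
             map_one' := by simpa only [map_one] using al 1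
             map_mul' := fun x y => (hc _).uniq hG hQ ((hc x).mul (hc y))
             map_zero' := by simpa only [map_zero] using al 0
             map_add' := fun x y => (hc _).uniq hG hQ ((hc x).add (hc y))
             commutes' := al }, hc⟩
  choose c hc using ex
  have inv : ∀ (T : Type u) [CommRing T] [Algebra R T] (p q : O →ₐ[R] T),
      (c T q p).comp (c T p q) = AlgHom.id T _ := fun T _ _ p q =>
    AlgHom.ext fun x => (hc T p q x).comp hG hQ (hc T q p _) (good_self hQ)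
  refine ⟨fun T _ _ p q => AlgEquiv.ofAlgHom (c T p q) (c T q p) (inv T q p) (inv T p q),
    fun T T' _ _ _ _ f p q x => ?_, fun T _ _ p q r x => ?_, fun T _ _ p q h x hh => ?_⟩
  · exact (hc T' _ _ _).uniq hG hQ ((hc T p q x).map f)
  · exact (hc T p q x).comp hG hQ (hc T q r _) (hc T p r x)
  · have := hc T p q x T (AlgHom.id R T) h hh
    rw [H90P.mp_id, H90P.mp_id] at this
    exact this

end Pool.Agent.P.MP_46a8f8_ag.GU
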