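import Pool.Agent.P.MP_46a8f8_ag.GU.QcBase

/-!
Statements for the quotients by central subgroups.
-/

namespace Pool.Agent.P.MP_46a8f8_ag.GU

open TensorProduct Function IsLocalRing Polynomial

universe u

/-! ### torsors -/

def S_QT0 : Prop :=
  ∀ (R E O : Type u) [CommRing R] [Ring E] [Algebra R E] [CommRing O] [Algebra R O]
    (G : Fam R E) (m : ℕ), Grp G → GInv G → IsQTorsor G O (Mu R E m) →
    ∃ ρ : Rel R E O, QT G m ρ

def S_QAC : Prop :=
  ∀ (R E O : Type u) [CommRing R] [Ring E] [Algebra R E] [Module.Free R E] [Module.Finite R E]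
    [CommRing O] [Algebra R O] (G : Fam R E) (m : ℕ) (ρ : Rel R E O), GInv G → QT G m ρ →
    ∃ c : AutF R E O, AC ρ c

def S_GbC : Prop :=
  ∀ (R S O : Type u) [CommRing R] [CommRing S] [Algebra R S] [Module.Free R S]
    [Module.Finite R S] [CommRing O] [Algebra R O] (m : ℕ) (l : Rel R S O), Gb l → Pw m l →
    ∃ c : ∀ (T : Type u) [CommRing T] [Algebra R T], (O →ₐ[R] T) → (O →ₐ[R] T) → T ⊗[R] S,
      Coc c ∧ ∀ (T : Type u) [CommRing T] [Algebra R T] (p q : O →ₐ[R] T) (z : T ⊗[R] S),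
        l T p q z → c T p q = z ^ m

def S_Semi : Prop :=
  ∀ (R O K : Type u) [CommRing R] [IsLocalRing R] [CommRing O] [Algebra R O]
    [Module.FaithfullyFlat R O] [Field K] [Algebra R K], Nonempty (O →ₐ[R] K) →
    ∃ (O₁ : Type u) (_ : CommRing O₁) (_ : Algebra R O₁) (_ : O →ₐ[R] O₁),
      Module.FaithfullyFlat R O₁ ∧ Finite (MaximalSpectrum O₁) ∧ Nonempty (O₁ →ₐ[R] K)

def S_Pipe : Prop :=
  ∀ (R S A K O : Type u) [CommRing R] [IsLocalRing R] [CommRing S] [Algebra R S] [Ring A]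
    [Algebra S A] [Algebra R A] [IsScalarTower R S A] [Field K] [Algebra R K] [CommRing O]
    [Algebra R O] [Module.FaithfullyFlat R O] (G : Fam R A) (m : ℕ) (ρ : Rel R A O)
    (c : AutF R A O) (ψ : O ⊗[R] A ≃ₐ[O] O ⊗[R] A), GB R S A → QT G m ρ → AC ρ c → Cob c ψ →
    (∀ s : S, ψ ((1 : O) ⊗ₜ[R] algebraMap S A s) = (1 : O) ⊗ₜ[R] algebraMap S A s) →
    Nonempty (O →ₐ[R] K) →
    (∀ (O₁ : Type u) [CommRing O₁] [Algebra R O₁] [Module.FaithfullyFlat R O₁] (r : O →ₐ[R] O₁)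
      (a : (O₁ ⊗[R] A)ˣ) (l : Rel R S O₁), Nonempty (O₁ →ₐ[R] K) →
      (∀ x, mp A r (ψ x) * a = a * mp A r x) → Gb l → Pw m l → Lnk G a l → Out G m a l) →
    Nonempty (O →ₐ[R] R)

def S_Sim : Prop :=
  ∀ (R S A O O₁ : Type u) [CommRing R] [CommRing S] [Algebra R S] [Ring A] [Algebra S A]
    [Algebra R A] [IsScalarTower R S A] [StarRing A] [SA R A] [CommRing O] [Algebra R O]
    [CommRing O₁] [Algebra R O₁] (ι : S →ₐ[R] S) (ψ : O ⊗[R] A ≃ₐ[O] O ⊗[R] A)
    (r : O →ₐ[R] O₁) (a : (O₁ ⊗[R] A)ˣ), GB R S A → Cj A ι →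
    (∀ x, ψ (cj R A O x) = cj R A O (ψ x)) → (∀ x, mp A r (ψ x) * a = a * mp A r x) →
    ∃ μ : O₁ˣ, Sml R A O₁ a μ

def S_CobS : Prop :=
  ∀ (R S A K O : Type u) [CommRing R] [IsLocalRing R] [IsNoetherianRing R] [CommRing S]
    [Algebra R S] [Ring A] [Algebra S A] [Algebra R A] [StarRing A] [SA R A] [Field K]
    [Algebra R K] [CommRing O] [Algebra R O] [Module.FaithfullyFlat R O] (ρ : Rel R A O)
    (c : AutF R A O), AzI R S A → IsoP R S A K → Gb ρ → AC ρ c →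
    (∀ (T : Type u) [CommRing T] [Algebra R T] (p q : O →ₐ[R] T) (h : T ⊗[R] A), ρ T p q h →
      h * cj R A T h = 1 ∧ cj R A T h * h = 1) → Nonempty (O →ₐ[R] K) →
    ∃ ψ : O ⊗[R] A ≃ₐ[O] O ⊗[R] A, Cob c ψ ∧
      (∀ s : S, ψ ((1 : O) ⊗ₜ[R] algebraMap S A s) = (1 : O) ⊗ₜ[R] algebraMap S A s) ∧
      ∀ x, ψ (cj R A O x) = cj R A O (ψ x)

def S_Tw0 : Prop :=
  ∀ (R A O : Type u) [CommRing R] [Ring A] [Algebra R A] [Module.Finite R A] [CommRing O]
    [Algebra R O] [Module.FaithfullyFlat R O] (ρ : Rel R A O) (c : AutF R A O), AC ρ c →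
    ∃ (A' : Type u) (_ : Ring A') (_ : Algebra R A') (μ : O ⊗[R] A' ≃ₐ[O] O ⊗[R] A),
      Module.Finite R A' ∧ ∀ (T : Type u) [CommRing T] [Algebra R T] (p q : O →ₐ[R] T) (a : A'),
        c T p q (mp A p (μ ((1 : O) ⊗ₜ[R] a))) = mp A q (μ ((1 : O) ⊗ₜ[R] a))

def S_AzD0 : Prop :=
  ∀ (R A A' O : Type u) [CommRing R] [IsLocalRing R] [Ring A] [Algebra R A] [IsAzumaya R A]
    [Ring A'] [Algebra R A'] [Module.Finite R A'] [CommRing O] [Algebra R O]
    [Module.FaithfullyFlat R O], Nonempty (O ⊗[R] A' ≃ₐ[O] O ⊗[R] A) → IsAzumaya R A'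

def S_Br0 : Prop :=
  ∀ (R A A' K : Type u) [CommRing R] [IsRegularLocalRing R] [Ring A] [Algebra R A]
    [IsAzumaya R A] [Ring A'] [Algebra R A'] [IsAzumaya R A'] [Field K] [Algebra R K]
    [IsFractionRing R K], Nonempty (K ⊗[R] A' ≃ₐ[K] K ⊗[R] A) → Nonempty (A' ≃ₐ[R] A)

def S_Cob0 : Prop :=
  ∀ (R A K O : Type u) [CommRing R] [IsRegularLocalRing R] [Ring A] [Algebra R A]
    [IsAzumaya R A] [Field K] [Algebra R K] [IsFractionRing R K] [CommRing O] [Algebra R O]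
    [Module.FaithfullyFlat R O] (ρ : Rel R A O) (c : AutF R A O), AC ρ c →
    Nonempty (O →ₐ[R] K) → ∃ ψ : O ⊗[R] A ≃ₐ[O] O ⊗[R] A, Cob c ψ

/-- roots of units -/
def S_Rt0 : Prop :=
  ∀ (T : Type u) [CommRing T] (t : Tˣ) (m : ℕ), 0 < m →
    ∃ (T' : Type u) (_ : CommRing T') (_ : Algebra T T') (w : T'ˣ),
      Module.FaithfullyFlat T T' ∧ (w : T') ^ m = algebraMap T T' t

def S_Rt : Prop :=
  ∀ (R S : Type u) [CommRing R] [CommRing S] [Algebra R S] (m : ℕ),
    (∀ (ι : S →ₐ[R] S) (κ : S) (δ : Rˣ), Qd ι κ δ → 0 < m → Rt ι m) ∧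
      (Odd m → Rt (AlgHom.id R S) m)

def S_OutU : Prop :=
  ∀ (R S A K O : Type u) [CommRing R] [IsLocalRing R] [CommRing S] [Algebra R S] [Ring A]
    [Algebra S A] [Algebra R A] [IsScalarTower R S A] [StarRing A] [SA R A] [Field K]
    [Algebra R K] [CommRing O] [Algebra R O] [Module.FaithfullyFlat R O] (n m e : ℕ)
    (N : NFam R S A) (ι : S →ₐ[R] S) (a : (O ⊗[R] A)ˣ) (μ : Oˣ) (l : Rel R S O), UC A n N ι →
    n = m * e → Rt ι m → PQ N ι m e R K → Nonempty (O →ₐ[R] K) → Sml R A O a μ → Gb l →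
    Pw m l → Lnk (SUn N) a l → Out (SUn N) m a l

def S_OutF : Prop :=
  ∀ (R S A K O : Type u) [CommRing R] [CommRing S] [Algebra R S] [Ring A]
    [Algebra S A] [Algebra R A] [IsScalarTower R S A] [StarRing A] [SA R A] [Field K]
    [Algebra R K] [CommRing O] [Algebra R O] [Module.FaithfullyFlat R O] (n m k : ℕ)
    (N : NFam R S A) (a : (O ⊗[R] A)ˣ) (μ : Oˣ) (l : Rel R S O), UC A n N (AlgHom.id R S) →
    n = 2 * k → Even m → PC N R K k → Nonempty (O →ₐ[R] K) → Sml R A O a μ → Gb l →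
    Lnk (SUn N) a l → Out (SUn N) m a l

def S_OutL : Prop :=
  ∀ (R S A K O : Type u) [CommRing R] [IsLocalRing R] [CommRing S] [Algebra R S] [Ring A]
    [Algebra S A] [Algebra R A] [IsScalarTower R S A] [Field K]
    [Algebra R K] [CommRing O] [Algebra R O] [Module.FaithfullyFlat R O] (n m e : ℕ)
    (N : NFam R S A) (a : (O ⊗[R] A)ˣ) (l : Rel R S O), GB R S A → NF n N →
    Surjective (algebraMap R S) → n = m * e → FN N e R K → Nonempty (O →ₐ[R] K) → Gb l →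
    Pw m l → Lnk (SLn N) a l → Out (SLn N) m a l

/-! ### the centre -/

def S_Cls : Prop :=
  ∀ (R S A : Type u) [CommRing R] [IsLocalRing R] [CommRing S] [Nontrivial S] [Algebra R S]
    [Module.Finite R S] [Algebra.Etale R S] [Ring A] [Algebra S A] [IsAzumaya S A] [Algebra R A]
    [IsScalarTower R S A] (σ : A →ₗ[R] A), IsUnit (2 : R) → IsInvol σ →
    (∀ s : S, σ (algebraMap S A s) = algebraMap S A s → ∃ r, algebraMap R S r = s) →
    Bijective (algebraMap R S) ∨ ∃ (ι : S →ₐ[R] S) (κ : S) (δ : Rˣ), Qd ι κ δ ∧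
      ∀ s, σ (algebraMap S A s) = algebraMap S A (ι s)

def S_QdD : Prop :=
  ∀ (R S : Type u) [CommRing R] [IsDomain R] [IsIntegrallyClosed R] [CommRing S] [Algebra R S]
    (ι : S →ₐ[R] S) (κ : S) (δ : Rˣ), Qd ι κ δ → IsDomain S ∨ ∃ r : R, r * r = δ

def S_SplA : Prop :=
  ∀ (R S A : Type u) [CommRing R] [CommRing S] [Algebra R S] [Ring A] [Algebra S A]
    [IsAzumaya S A] [Algebra R A] [IsScalarTower R S A] (σ : A →ₗ[R] A) (ι : S →ₐ[R] S) (κ : S)
    (δ : Rˣ) (r : R), Qd ι κ δ → r * r = δ → IsInvol σ →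
    (∀ s, σ (algebraMap S A s) = algebraMap S A (ι s)) →
    ∃ (A₁ : Type u) (_ : Ring A₁) (_ : Algebra R A₁) (e : S) (pr : S →ₐ[R] R) (π : A →ₐ[R] A₁)
      (s : A₁ →ₗ[R] A), IsAzumaya R A₁ ∧ SD σ ι e pr π s

/-- base change of a splitting -/
def S_SplB : Prop :=
  ∀ (S A T T' : Type u) [CommRing S] [Ring A] [Algebra S A] [CommRing T] [Algebra S T]
    [CommRing T'] [Algebra S T'] (f : T →ₐ[S] T') (n : ℕ)
    (Φ : T ⊗[S] A ≃ₐ[T] Matrix (Fin n) (Fin n) T),
    ∃ Φ' : T' ⊗[S] A ≃ₐ[T'] Matrix (Fin n) (Fin n) T', ∀ x, Φ' (mp A f x) = (Φ x).map f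

/-- the two components -/
def S_SplC : Prop :=
  ∀ (R S A A₁ T : Type u) [CommRing R] [CommRing S] [Algebra R S] [Ring A] [Algebra S A]
    [Algebra R A] [IsScalarTower R S A] [Ring A₁] [Algebra R A₁] [CommRing T] [Algebra R T]
    [Algebra S T] [IsScalarTower R S T] (σ : A →ₗ[R] A) (ι : S →ₐ[R] S) (e : S)
    (pr : S →ₐ[R] R) (π : A →ₐ[R] A₁) (s : A₁ →ₗ[R] A), SD σ ι e pr π s →
    (algebraMap S T e = 1 →
      ∃ Ψ : T ⊗[S] A ≃ₐ[T] T ⊗[R] A₁, ∀ x, Ψ (ov R S A T x) = bcA π T x) ∧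
    (algebraMap S T e = 0 → ∃ Ψ : T ⊗[S] A ≃ₐ[T] (T ⊗[R] A₁)ᵐᵒᵖ,
      ∀ x, Ψ (ov R S A T x) = MulOpposite.op (bcA π T (conj σ x)))

def S_SplN : Prop :=
  ∀ (R S A A₁ T : Type u) [CommRing R] [CommRing S] [Algebra R S] [Ring A] [Algebra S A]
    [Algebra R A] [IsScalarTower R S A] [Ring A₁] [Algebra R A₁] [CommRing T] [Algebra R T]
    (σ : A →ₗ[R] A) (ι : S →ₐ[R] S) (e : S) (pr : S →ₐ[R] R) (π : A →ₐ[R] A₁)
    (s : A₁ →ₗ[R] A) (n : ℕ) (N : NFam R R A₁) (g : T ⊗[R] A), SD σ ι e pr π s → NF n N →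
    IsUni σ g → (NrdIs S g 1 ↔ N T (bcA π T g) = 1)

def S_SplT : Prop :=
  ∀ (R S A A₁ O : Type u) [CommRing R] [CommRing S] [Algebra R S] [Ring A] [Algebra S A]
    [Algebra R A] [IsScalarTower R S A] [Ring A₁] [Algebra R A₁] [CommRing O] [Algebra R O]
    (σ : A →ₗ[R] A) (ι : S →ₐ[R] S) (e : S) (pr : S →ₐ[R] R) (π : A →ₐ[R] A₁)
    (s : A₁ →ₗ[R] A) (n m : ℕ) (N : NFam R R A₁), SD σ ι e pr π s → NF n N →
    IsQTorsor (SpecU S σ) O (Mu R A m) → IsQTorsor (SLn N) O (Mu R A₁ m)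

/-! ### primes which split -/

def S_Fin1i : Prop :=
  ∀ (R T W D K : Type u) [CommRing R] [IsDomain R] [IsLocalRing R] [IsNoetherianRing R]
    [UniqueFactorizationMonoid R] [CommRing T] [Algebra R T] [Module.Finite R T] [CommRing W]
    [IsDomain W] [Algebra T W] [Algebra R W] [IsScalarTower R T W] [Algebra.EssFiniteType T W]
    [Algebra.FormallyUnramified T W] [CommRing D] [Algebra T D] [Algebra R D]
    [IsScalarTower R T D] [Field K] [Algebra R K] [IsFractionRing R K] (q : W →ₐ[T] D) (y : W)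
    (π : R), Prime π → y ≠ 0 → (∀ w, IsUnit (1 + y * w)) → (∀ w, q w = 0 ↔ y ∣ w) →
    Surjective (algebraMap T D) → Injective (algebraMap R W) →
    (∀ r, algebraMap R D r = 0 ↔ π ∣ r) →
    (∀ d : D, ∃ r r' : R, ¬ π ∣ r' ∧ r' • d = algebraMap R D r) →
    ∃ (L : Type u) (_ : Field L) (_ : Algebra W L) (_ : Algebra K L), Injective (algebraMap W L) ∧
      (∀ r, algebraMap W L (algebraMap R W r) = algebraMap K L (algebraMap R K r)) ∧
      Module.Finite K L ∧ ∃ (f : L) (v : Rˣ), f ≠ 0 ∧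
        Algebra.norm K f = algebraMap R K (v * π) ∧
        ((algebraMap K L).comp (algebraMap R K)).IsIntegralElem f

/-- a square root in an etale neighbourhood -/
def S_Sqr : Prop :=
  ∀ (T D : Type u) [CommRing T] [IsNoetherianRing T] [CommRing D] [IsDomain D]
    [Finite (MaximalSpectrum D)] [Algebra T D] (y a : T) (c : D), Quo y D → IsUnit (2 * c) →
    c * c = algebraMap T D a →
    ∃ (T' : Type u) (_ : CommRing T') (_ : Algebra T T') (_ : Algebra T' D)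
      (_ : IsScalarTower T T' D), Algebra.Etale T T' ∧ Quo (algebraMap T T' y) D ∧
      IsSquare (algebraMap T T' a)

def S_PPas : Prop :=
  ∀ (R A O K : Type u) [CommRing R] [Ring A] [Algebra R A] [CommRing O]
    [IsDomain O] [IsLocalRing O] [IsNoetherianRing O] [UniqueFactorizationMonoid O]
    [Algebra R O] [Field K] [Algebra R K] [Algebra O K] [IsScalarTower R O K]
    [IsFractionRing O K] (n j : ℕ) (δ : Rˣ) (π : O), IsUnit (2 : R) → Sep R A → Prime π →
    Geo π → MPt R A n j π → SqP (algebraMap R O δ) π → NHs R A n j δ K π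

def S_PPms : Prop :=
  ∀ (R A O T D K : Type u) [CommRing R] [Ring A] [Algebra R A] [CommRing O]
    [IsDomain O] [IsLocalRing O] [IsNoetherianRing O] [UniqueFactorizationMonoid O]
    [Algebra R O] [CommRing T] [IsDomain T] [Algebra O T] [Module.Finite O T] [CommRing D]
    [IsDomain D] [Algebra T D] [Algebra O D] [Algebra R D] [IsScalarTower O T D]
    [IsScalarTower R O D] [Field K] [Algebra R K] [Algebra O K] [IsScalarTower R O K]
    [IsFractionRing O K] (n j : ℕ) (δ : Rˣ) (π : O) (z : T), IsUnit (2 : R) → 0 < n → Sep R A →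
    Prime π → Injective (algebraMap O T) → z ≠ 0 → Quo z D →
    (∀ r, algebraMap O D r = 0 ↔ π ∣ r) →
    (∀ d : D, ∃ r r' : O, ¬ π ∣ r' ∧ r' • d = algebraMap O D r) → MS R A n j D →
    IsSquare (algebraMap R D δ) → NHs R A n j δ K π

def S_PPbs : Prop :=
  ∀ (R A O K : Type u) [CommRing R] [Ring A] [Algebra R A] [CommRing O]
    [IsRegularLocalRing O] [IsDomain O] [UniqueFactorizationMonoid O]
    [Infinite (ResidueField O)] [Algebra R O] [Field K] [Algebra R K] [Algebra O K]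
    [IsScalarTower R O K] [IsFractionRing O K] (n j : ℕ) (δ : Rˣ) (π : O), IsUnit (2 : R) →
    0 < n → Sep R A → ringKrullDim O ≤ 2 → Prime π → MPt R A n j π →
    SqP (algebraMap R O δ) π → NHs R A n j δ K π

def S_NHp : Prop :=
  ∀ (R A K : Type u) [CommRing R] [Ring A] [Algebra R A] [Field K] [Algebra R K] (n j : ℕ)
    (δ : R) (π : K[X]), Prime π → MPt R A n j π → SqP (algebraMap R K[X] δ) π →
    NHs R A n j δ (FractionRing K[X]) π

/-- the norm principle over the centre -/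
def S_NPS : Prop :=
  ∀ (R S A K L : Type u) [CommRing R] [CommRing S] [Algebra R S] [Ring A] [Algebra S A]
    [Algebra R A] [IsScalarTower R S A] [Field K] [Algebra R K] [Field L] [Algebra R L]
    [Algebra (K ⊗[R] S) L] [IsScalarTower R (K ⊗[R] S) L] [Module.Free (K ⊗[R] S) L]
    [Module.Finite (K ⊗[R] S) L] (n j : ℕ) (N : NFam R S A) (f : L), GB R S A → NF n N →
    IsDomain (K ⊗[R] S) → MS R A n j L → f ≠ 0 → NK N K (Algebra.norm (K ⊗[R] S) f ^ j)

/-- an extension which contains the centre -/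
def S_QN : Prop :=
  ∀ (R S K L : Type u) [CommRing R] [CommRing S] [Algebra R S] [Field K] [Algebra R K] [Field L]
    [Algebra R L] [Algebra K L] [IsScalarTower R K L] [Module.Finite K L] (ι : S →ₐ[R] S)
    (κ : S) (δ : Rˣ), Qd ι κ δ → IsDomain (K ⊗[R] S) → IsSquare (algebraMap R L δ) →
    ∃ _ : Algebra (K ⊗[R] S) L, IsScalarTower R (K ⊗[R] S) L ∧ Module.Free (K ⊗[R] S) L ∧
      Module.Finite (K ⊗[R] S) L ∧ ∀ f : L,
        Algebra.norm (K ⊗[R] S) f * io ι K (Algebra.norm (K ⊗[R] S) f) =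
          algebraMap K (K ⊗[R] S) (Algebra.norm K f) ∧
        ∀ (O : Type u) [CommRing O] [IsDomain O] [IsIntegrallyClosed O] [Algebra R O]
          [Algebra O K] [IsScalarTower R O K] [IsFractionRing O K],
          ((algebraMap K L).comp (algebraMap O K)).IsIntegralElem f →
          ∃ β, mp S (IsScalarTower.toAlgHom R O K) β = Algebra.norm (K ⊗[R] S) f

def S_NSp : Prop :=
  ∀ (R S A O K : Type u) [CommRing R] [CommRing S] [Algebra R S] [Ring A] [Algebra S A]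
    [Algebra R A] [IsScalarTower R S A] [StarRing A] [SA R A] [CommRing O] [IsDomain O]
    [UniqueFactorizationMonoid O] [Algebra R O] [Field K] [Algebra R K] [Algebra O K]
    [IsScalarTower R O K] [IsFractionRing O K] (n j : ℕ) (N : NFam R S A) (ι : S →ₐ[R] S) (κ : S)
    (δ : Rˣ) (π : O) (ϖ : O ⊗[R] S), UC A n N ι → Qd ι κ δ → IsDomain (K ⊗[R] S) →
    Spl ι π ϖ → NHs R A n j δ K π → NSp N K j ϖ

def S_Dich : Prop :=
  ∀ (R S O : Type u) [CommRing R] [CommRing S] [Algebra R S] [CommRing O] [IsDomain O]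
    [Algebra R O] (ι : S →ₐ[R] S) (κ : S) (δ : Rˣ), Qd ι κ δ → IsDomain (O ⊗[R] S) →
    (∀ π : O, UniqueFactorizationMonoid (O ⊗[R] S) → Prime π →
      Prime (algebraMap O (O ⊗[R] S) π) ∨ ∃ ϖ, Spl ι π ϖ) ∧
    (∀ ϖ : O ⊗[R] S, Prime ϖ → ¬ ϖ ∣ io ι O ϖ → ∃ π : O, Prime π ∧ Spl ι π ϖ) ∧
    ∀ (π : O) (ϖ : O ⊗[R] S), Prime π → Spl ι π ϖ → SqP (algebraMap R O δ) π ∧
      ∃ v : Oˣ, ϖ * io ι O ϖ = algebraMap O (O ⊗[R] S) (v * π)

def S_NSq : Prop :=
  ∀ (R S O K L : Type u) [CommRing R] [CommRing S] [Algebra R S] [CommRing O] [IsDomain O]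
    [UniqueFactorizationMonoid O] [Algebra R O] [Field K] [Algebra R K] [Algebra O K]
    [IsScalarTower R O K] [IsFractionRing O K] [Field L] [Algebra R L] [Algebra K L]
    [IsScalarTower R K L] [Module.Finite K L] (ι : S →ₐ[R] S) (κ : S) (δ : Rˣ) (π : O) (v : Oˣ)
    (f : L), Qd ι κ δ → IsDomain (K ⊗[R] S) → Prime π → Prime (algebraMap O (O ⊗[R] S) π) →
    Algebra.norm K f = algebraMap O K (v * π) → ¬ IsSquare (algebraMap R L δ)

/-! ### factorial rings -/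

def S_UFO : Prop :=
  ∀ (R S B O : Type u) [CommRing R] [CommRing S] [Algebra R S] [Module.Finite R S]
    [Algebra.Etale R S] [CommRing B] [IsRegularLocalRing B] [CommRing O] [IsLocalRing O]
    [Algebra B O] [IsLocalHom (algebraMap B O)] [Algebra.FormallySmooth B O]
    [Algebra.EssFiniteType B O] [Algebra R O], ringKrullDim B ≤ 2 → IsDomain (O ⊗[R] S) →
    UniqueFactorizationMonoid (O ⊗[R] S)

def S_UFL : Prop :=
  ∀ (R S O O' : Type u) [CommRing R] [CommRing S] [Algebra R S] [CommRing O] [Algebra R O]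
    [CommRing O'] [Algebra R O'] [Algebra O O'] [IsScalarTower R O O'] (M : Submonoid O)
    [IsLocalization M O'], IsDomain (O ⊗[R] S) → IsDomain (O' ⊗[R] S) →
    UniqueFactorizationMonoid (O ⊗[R] S) → UniqueFactorizationMonoid (O' ⊗[R] S)

def S_UFX : Prop :=
  ∀ (R S K : Type u) [CommRing R] [CommRing S] [Algebra R S] [Module.Finite R S] [Field K]
    [Algebra R K], IsDomain (K ⊗[R] S) → UniqueFactorizationMonoid (K[X] ⊗[R] S) ∧
      ∀ s : (K[X] ⊗[R] S)ˣ, ∃ s₀ : (K ⊗[R] S)ˣ, mp S (IsScalarTower.toAlgHom R K K[X]) s₀ = s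

def S_PF1 : Prop :=
  ∀ (C : Type u) [CommRing C] [IsDomain C] [UniqueFactorizationMonoid C],
    (∀ (j : C →+* C) (t d : C) (y : Cˣ), (∀ x, j (j x) = x) → d ≠ 0 → j d = d →
      t * j t = d * d * y → ∃ (a : C) (s : Cˣ), IsRelPrime a (j a) ∧ t * j a = d * (s * a)) ∧
    ∀ (M : Type u) [CommMonoid M] (φ : C →* M) (H : Submonoid M) (e : ℕ) (a : C), a ≠ 0 →
      (∀ (ϖ a' : C) (k : ℕ), Prime ϖ → ϖ ∣ a → ¬ ϖ ∣ a' → a = ϖ ^ k * a' →
        ∃ s : Cˣ, φ (s * ϖ) ^ (e * k) ∈ H) → ∃ s : Cˣ, φ (s * a) ^ e ∈ H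

/-! ### residues -/

def S_ResP : Prop :=
  ∀ (S A Z E : Type u) [CommRing S] [IsDomain S] [IsNoetherianRing S] [Ring A] [Algebra S A]
    [Module.Free S A] [Module.Finite S A] [Field Z] [Ring E] [Algebra Z E] (n m : ℕ) (ϖ F : S)
    (c : A) (j : S →+* Z) (φ : A →+* E), 0 < n → Az S A → Module.finrank S A = n ^ 2 →
    Prime ϖ → ¬ ϖ ∣ F →
    Associated (LinearMap.det (LinearMap.mulRight S c)) ((ϖ ^ m * F) ^ n) →
    (∀ s, φ (algebraMap S A s) = algebraMap Z E (j s)) → (∀ s, j s = 0 ↔ ϖ ∣ s) →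
    MU n (Matrix (Fin m) (Fin m) E)

def S_ResS : Prop :=
  ∀ (R S A O : Type u) [CommRing R] [CommRing S] [Algebra R S] [Ring A] [Algebra S A]
    [Algebra R A] [IsScalarTower R S A] [StarRing A] [SA R A] [CommRing O] [IsDomain O]
    [IsNoetherianRing O] [Algebra R O] (n m : ℕ) (N : NFam R S A) (ι : S →ₐ[R] S) (π : O)
    (ϖ F : O ⊗[R] S) (c : O ⊗[R] A), UC A n N ι → IsDomain (O ⊗[R] S) → Prime π → Spl ι π ϖ →
    ¬ ϖ ∣ F → N O c = ϖ ^ m * F → MPt R A n m π

/-! ### purity -/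

def S_PFT : Prop :=
  ∀ (R S A O K : Type u) [CommRing R] [CommRing S] [Algebra R S] [Ring A] [Algebra S A]
    [Algebra R A] [IsScalarTower R S A] [StarRing A] [SA R A] [CommRing O] [IsDomain O]
    [IsNoetherianRing O] [UniqueFactorizationMonoid O] [Algebra R O] [Field K] [Algebra R K]
    [Algebra O K] [IsScalarTower R O K] [IsFractionRing O K] (n m e : ℕ) (N : NFam R S A)
    (ι : S →ₐ[R] S) (κ : S) (δ : Rˣ) (x : (O ⊗[R] S)ˣ) (y : Oˣ) (F d : O) (g : (K ⊗[R] A)ˣ)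
    (t : K ⊗[R] S) (t₀ : O ⊗[R] S), UC A n N ι → Qd ι κ δ → IsDomain (K ⊗[R] S) →
    UniqueFactorizationMonoid (O ⊗[R] S) →
    N K g = mp S (IsScalarTower.toAlgHom R O K) (x * algebraMap O (O ⊗[R] S) F) * t ^ e →
    t * io ι K t = algebraMap K (K ⊗[R] S) (algebraMap O K y) → d ≠ 0 →
    algebraMap O K d • t = mp S (IsScalarTower.toAlgHom R O K) t₀ →
    (∀ π : O, Prime π → π ∣ F → Prime (algebraMap O (O ⊗[R] S) π)) →
    (∀ (π : O) (ϖ : O ⊗[R] S) (j : ℕ), Prime π → π ∣ d → Spl ι π ϖ → MPt R A n j π →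
      NSp N K j ϖ) →
    ∃ s : (O ⊗[R] S)ˣ, HQ N ι m e K 1 (mp S (IsScalarTower.toAlgHom R O K) s * t)

def S_PurT : Prop :=
  ∀ (R S A B O K : Type u) [CommRing R] [CommRing S] [Algebra R S] [Ring A] [Algebra S A]
    [Algebra R A] [IsScalarTower R S A] [StarRing A] [SA R A] [CommRing B]
    [IsRegularLocalRing B] [CommRing O] [IsLocalRing O] [Algebra B O]
    [IsLocalHom (algebraMap B O)] [Algebra.FormallySmooth B O] [Algebra.EssFiniteType B O]
    [Algebra R O] [Field K] [Algebra R K] [Algebra O K] [IsScalarTower R O K]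
    [IsFractionRing O K] (n m e : ℕ) (N : NFam R S A) (ι : S →ₐ[R] S) (κ : S) (δ : Rˣ),
    ringKrullDim B ≤ 2 → UC A n N ι → Qd ι κ δ → IsDomain (K ⊗[R] S) →
    Infinite (O ⧸ (maximalIdeal B).map (algebraMap B O)) → PurT N ι m e O K

def S_NUr : Prop :=
  ∀ (R S A O K : Type u) [CommRing R] [CommRing S] [Algebra R S] [Ring A] [Algebra S A]
    [Algebra R A] [IsScalarTower R S A] [StarRing A] [SA R A] [CommRing O] [IsLocalRing O]
    [Algebra R O] [Field K] [Infinite K] [Algebra R K] [Algebra O K] [IsScalarTower R O K]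
    [IsFractionRing O K] (n : ℕ) (N : NFam R S A) (ι : S →ₐ[R] S) (κ : S) (δ : Rˣ),
    UC A n N ι → Qd ι κ δ → IsDomain (K ⊗[R] S) → FN N 1 O K → NUr N O K

def S_GNu : Prop :=
  ∀ (R S A B O K : Type u) [CommRing R] [CommRing S] [Algebra R S] [Ring A] [Algebra S A]
    [Algebra R A] [IsScalarTower R S A] [StarRing A] [SA R A] [CommRing B]
    [IsRegularLocalRing B] [CommRing O] [IsLocalRing O] [Algebra B O]
    [IsLocalHom (algebraMap B O)] [Algebra.FormallySmooth B O] [Algebra.EssFiniteType B O]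
    [Algebra R O] [Field K] [Algebra R K] [Algebra O K] [IsScalarTower R O K]
    [IsFractionRing O K] (n : ℕ) (N : NFam R S A) (ι : S →ₐ[R] S) (κ : S) (δ : Rˣ),
    ringKrullDim B ≤ 2 → UC A n N ι → Qd ι κ δ → Ty R A → Dm R O →
    Infinite (O ⧸ (maximalIdeal B).map (algebraMap B O)) → GNU N O K

def S_NPu : Prop :=
  ∀ (R A K L : Type u) [CommRing R] [Ring A] [Algebra R A] [StarRing A] [SA R A] [Field K]
    [Algebra R K] [Field L] [Algebra R L] [Algebra K L] [IsScalarTower R K L]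
    [Module.Finite K L] (f : L), Ok R A → Dm R K → Hy R A L → f ≠ 0 →
    ∃ ν : K[X], ν.eval 0 = 1 ∧ ν.eval 1 = Algebra.norm K f ∧
      (∀ z : K[X], Prime z → z ∣ ν → ∃ l : L, aeval l z = 0) ∧
      ∃ g, Sml R A (FractionRing K[X]) g (algebraMap K[X] (FractionRing K[X]) ν)

/-- the norm principle for the similitudes whose norm is the power of the multiplier -/
def S_NPJ : Prop :=
  ∀ (R S A K L : Type u) [CommRing R] [CommRing S] [Algebra R S] [Ring A] [Algebra S A]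
    [Algebra R A] [IsScalarTower R S A] [StarRing A] [SA R A] [Field K] [Infinite K]
    [Algebra R K] [Field L] [Algebra R L] [Algebra K L] [IsScalarTower R K L]
    [Module.Finite K L] (n k : ℕ) (N : NFam R S A) (ι : S →ₐ[R] S) (κ : S) (δ : Rˣ) (f : L),
    UC A n N ι → Qd ι κ δ → Ty R A → n = 2 * k → Dm R K → Hy R A L →
    ¬ IsSquare (algebraMap R L δ) → f ≠ 0 →
    ∃ g : (K ⊗[R] A)ˣ, Sml R A K g (Algebra.norm K f) ∧
      N K g = algebraMap K (K ⊗[R] S) (Algebra.norm K f ^ k)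

def S_PFM : Prop :=
  ∀ (R S A O K : Type u) [CommRing R] [CommRing S] [Algebra R S] [Ring A] [Algebra S A]
    [Algebra R A] [IsScalarTower R S A] [StarRing A] [SA R A] [CommRing O] [IsDomain O]
    [IsNoetherianRing O] [UniqueFactorizationMonoid O] [Algebra R O] [Field K] [Algebra R K]
    [Algebra O K] [IsScalarTower R O K] [IsFractionRing O K] (n m e k : ℕ) (N : NFam R S A)
    (ι : S →ₐ[R] S) (κ : S) (δ : Rˣ) (g : (K ⊗[R] A)ˣ) (μ : K) (μ₁ μ₂ : O), UC A n N ι →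
    Qd ι κ δ → IsDomain (K ⊗[R] S) → UniqueFactorizationMonoid (O ⊗[R] S) → n = m * e →
    n = 2 * k → Even m → Sml R A K g μ → μ₂ ≠ 0 → algebraMap O K μ₂ * μ = algebraMap O K μ₁ →
    (∀ π : O, Prime π → π ∣ μ₁ * μ₂ → Prime (algebraMap O (O ⊗[R] S) π) → HP R A O π →
      NPI N k K π) →
    ∃ (v : Oˣ) (t : K ⊗[R] S), HQ N ι m e K (algebraMap O K v * μ) t

def S_PurM : Prop :=
  ∀ (R S A B O K : Type u) [CommRing R] [CommRing S] [Algebra R S] [Ring A] [Algebra S A]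
    [Algebra R A] [IsScalarTower R S A] [StarRing A] [SA R A] [CommRing B]
    [IsRegularLocalRing B] [CommRing O] [IsLocalRing O] [Algebra B O]
    [IsLocalHom (algebraMap B O)] [Algebra.FormallySmooth B O] [Algebra.EssFiniteType B O]
    [Algebra R O] [Field K] [Algebra R K] [Algebra O K] [IsScalarTower R O K]
    [IsFractionRing O K] (n m e : ℕ) (N : NFam R S A) (ι : S →ₐ[R] S) (κ : S) (δ : Rˣ),
    ringKrullDim B ≤ 2 → UC A n N ι → Qd ι κ δ → Ty R A → Dm R K → n = m * e → Even m →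
    Infinite (O ⧸ (maximalIdeal B).map (algebraMap B O)) → PurM N ι m e O K

def S_PQa : Prop :=
  ∀ (R S A O K : Type u) [CommRing R] [CommRing S] [Algebra R S] [Ring A] [Algebra S A]
    [Algebra R A] [IsScalarTower R S A] [StarRing A] [SA R A] [CommRing O] [Algebra R O]
    [Field K] [Algebra R K] [Algebra O K] [IsScalarTower R O K] [IsFractionRing O K]
    (n m e : ℕ) (N : NFam R S A) (ι : S →ₐ[R] S), UC A n N ι → n = m * e →
    (Odd m ∨ PurM N ι m e O K) → PurT N ι m e O K → GNU N O K → PQ N ι m e O K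

def S_PQu : Prop :=
  ∀ (R S A B K : Type u) [CommRing R] [IsLocalRing R] [CommRing S] [Algebra R S] [Ring A]
    [Algebra S A] [Algebra R A] [IsScalarTower R S A] [StarRing A] [SA R A] [CommRing B]
    [IsRegularLocalRing B] [Algebra B R] [IsLocalHom (algebraMap B R)]
    [Algebra.FormallySmooth B R] [Algebra.EssFiniteType B R] [Field K] [Algebra R K]
    [IsFractionRing R K] (n m e : ℕ) (N : NFam R S A) (ι : S →ₐ[R] S) (κ : S) (δ : Rˣ),
    ringKrullDim B ≤ 2 → UC A n N ι → Qd ι κ δ → Ty R A → n = m * e → PQ N ι m e R K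

/-! ### involutions of the first kind -/

def S_UD0 : Prop :=
  ∀ (R S A C : Type u) [CommRing R] [CommRing S] [Algebra R S] [Ring A] [Algebra S A]
    [Algebra R A] [IsScalarTower R S A] [StarRing A] [SA R A] [CommRing C] [IsDomain C]
    [Algebra R C] (n k : ℕ) (N : NFam R S A) (g : (C ⊗[R] A)ˣ) (μ : C), GB R S A → NF n N →
    Surjective (algebraMap R S) → n = 2 * k → Sml R A C g μ →
    N C g = algebraMap C (C ⊗[R] S) (dI R A C g * μ ^ k)

def S_NUf : Prop :=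
  ∀ (R S A O K : Type u) [CommRing R] [CommRing S] [Algebra R S] [Ring A] [Algebra S A]
    [Algebra R A] [IsScalarTower R S A] [StarRing A] [SA R A] [CommRing O]
    [IsRegularLocalRing O] [Algebra R O] [Field K] [Algebra R K] [Algebra O K]
    [IsScalarTower R O K] [IsFractionRing O K] (n : ℕ) (N : NFam R S A),
    UC A n N (AlgHom.id R S) → Surjective (algebraMap R S) → NUr N O K

def S_PTf : Prop :=
  ∀ (R S A O K : Type u) [CommRing R] [CommRing S] [Algebra R S] [Ring A] [Algebra S A]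
    [Algebra R A] [IsScalarTower R S A] [StarRing A] [SA R A] [CommRing O] [IsDomain O]
    [IsIntegrallyClosed O] [Algebra R O] [Field K] [Algebra R K] [Algebra O K]
    [IsScalarTower R O K] [IsFractionRing O K] (m e : ℕ) (N : NFam R S A), GB R S A →
    Surjective (algebraMap R S) → PurT N (AlgHom.id R S) m e O K

def S_PCf : Prop :=
  ∀ (R S A O K : Type u) [CommRing R] [CommRing S] [Algebra R S] [Ring A] [Algebra S A]
    [Algebra R A] [IsScalarTower R S A] [StarRing A] [SA R A] [CommRing O] [IsDomain O]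
    [Algebra R O] [Field K] [Algebra R K] [Algebra O K] [IsScalarTower R O K]
    [IsFractionRing O K] (n k : ℕ) (N : NFam R S A), GB R S A → NF n N →
    Surjective (algebraMap R S) → n = 2 * k → Pur R A O K → GD R A O K → PC N O K k

end Pool.Agent.P.MP_46a8f8_ag.GU
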