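import Pool.Agent.P.MP_46a8f8_ag.GU.Tor5

/-!
Torsors under the quotient of a group of units by a central subgroup.
-/

namespace Pool.Agent.P.MP_46a8f8_ag.GU

open TensorProduct

universe u

section torsor

variable {R E : Type u} [CommRing R] [Ring E] [Algebra R E] {G : Fam R E} {O : Type u}
  [CommRing O] [Algebra R O]

/-- `g • p = p` if and only if `g` lies in `Z` -/
def GAction.Stabilizer (a : GAction G O) (Z : Fam R E) : Prop :=
  ∀ (T : Type u) [CommRing T] [Algebra R T] (g : Pts G T) (p : O →ₐ[R] T), a T g p = p ↔ Z T g.1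

/-- any two points become conjugate after a faithfully flat base change -/
def GAction.LocallyTransitive (a : GAction G O) : Prop :=
  ∀ (T : Type u) [CommRing T] [Algebra R T] (p q : O →ₐ[R] T),
    ∃ (T' : Type u) (_ : CommRing T') (_ : Algebra R T') (f : T →ₐ[R] T') (g : Pts G T'),
      f.toRingHom.FaithfullyFlat ∧ a T' g (f.comp p) = f.comp q

variable (G O) in
/-- `Spec O` is a torsor under the quotient sheaf of `G` by `G ∩ Z`: `O` is faithfully flat over
`R`, and `G(T)` acts on the set of `T`-points of `Spec O`, naturally in `T`, with all stabilisers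
equal to `G(T) ∩ Z(T)`, and transitively after faithfully flat base change. -/
def IsQTorsor (Z : Fam R E) : Prop :=
  Module.FaithfullyFlat R O ∧
    ∃ a : GAction G O, a.One ∧ a.Mul ∧ a.Natural ∧ a.Stabilizer Z ∧ a.LocallyTransitive

variable (R E) in
/-- the central elements `g` with `g ^ m = 1` -/
def Mu (m : ℕ) : Fam R E :=
  fun _ _ _ g => g ^ m = 1 ∧ ∀ x, g * x = x * g

end torsor

end Pool.Agent.P.MP_46a8f8_ag.GU
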