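import Pool.Agent.P.MP_46a8f8_ag.GU.Su
import Pool.Agent.P.MP_46a8f8_ag.GU.Tor6
import Pool.Agent.P.MP_46a8f8_ag.GU.Fin4

/-!
Definitions and basic facts for the quotients by central subgroups.
-/

namespace Pool.Agent.P.MP_46a8f8_ag.GU

open TensorProduct Function IsLocalRing

universe u

section io

variable {R S : Type u} [CommRing R] [CommRing S] [Algebra R S]

/-- the involution of the centre after base change -/
noncomputable def io (ι : S →ₐ[R] S) (T : Type u) [CommRing T] [Algebra R T] :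
    T ⊗[R] S →ₐ[T] T ⊗[R] S :=
  Algebra.TensorProduct.map (AlgHom.id T T) ι

variable {ι : S →ₐ[R] S} {T T' : Type u} [CommRing T] [Algebra R T] [CommRing T'] [Algebra R T']

theorem io_tmul (t : T) (s : S) : io ι T (t ⊗ₜ[R] s) = t ⊗ₜ[R] ι s := rfl

theorem io_alg (t : T) : io ι T (algebraMap T _ t) = algebraMap T _ t := (io ι T).commutes t

theorem mp_io (f : T →ₐ[R] T') (c : T ⊗[R] S) : mp S f (io ι T c) = io ι T' (mp S f c) := by
  induction c using TensorProduct.induction_on with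
  | zero => simp
  | tmul t s => rfl
  | add x y hx hy => simp only [map_add, hx, hy]

/-- a quadratic centre -/
structure Qd (ι : S →ₐ[R] S) (κ : S) (δ : Rˣ) : Prop where
  skew : ι κ = -κ
  sq : κ * κ = algebraMap R S δ
  two : IsUnit (2 : R)
  bas : ∃ b : Module.Basis (Fin 2) R S, b 0 = 1 ∧ b 1 = κ

variable {κ : S} {δ : Rˣ}

theorem Qd.dec (h : Qd ι κ δ) (c : T ⊗[R] S) :
    ∃ a b : T, c = algebraMap T _ a + b ⊗ₜ[R] κ := by
  obtain ⟨e, e0, e1⟩ := h.bas
  refine ⟨(Algebra.TensorProduct.basis T e).repr c 0,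
    (Algebra.TensorProduct.basis T e).repr c 1, ?_⟩
  conv_lhs => rw [← (Algebra.TensorProduct.basis T e).sum_repr c]
  rw [Fin.sum_univ_two, Algebra.TensorProduct.basis_apply, Algebra.TensorProduct.basis_apply,
    e0, e1, smul_tmul', smul_tmul', smul_eq_mul, smul_eq_mul, mul_one, mul_one]
  rfl

theorem Qd.ind (h : Qd ι κ δ) {a b : T} (e : algebraMap T (T ⊗[R] S) a + b ⊗ₜ[R] κ = 0) :
    a = 0 ∧ b = 0 := by
  obtain ⟨v, e0, e1⟩ := h.bas
  have h1 := Fintype.linearIndependent_iff.1 (Algebra.TensorProduct.basis T v).linearIndependent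
    ![a, b] (by
      rw [Fin.sum_univ_two, Algebra.TensorProduct.basis_apply, Algebra.TensorProduct.basis_apply,
        e0, e1, smul_tmul', smul_tmul', smul_eq_mul, smul_eq_mul, mul_one, mul_one]
      exact e)
  exact ⟨h1 0, h1 1⟩

theorem Qd.ext (h : Qd ι κ δ) {a b a' b' : T}
    (e : algebraMap T (T ⊗[R] S) a + b ⊗ₜ[R] κ = algebraMap T (T ⊗[R] S) a' + b' ⊗ₜ[R] κ) :
    a = a' ∧ b = b' := by
  have := h.ind (a := a - a') (b := b - b') (by
    rw [map_sub, sub_tmul, sub_add_sub_comm, e, sub_self])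
  exact ⟨sub_eq_zero.1 this.1, sub_eq_zero.1 this.2⟩

theorem Qd.io_dec (h : Qd ι κ δ) (a b : T) :
    io ι T (algebraMap T _ a + b ⊗ₜ[R] κ) = algebraMap T _ a + (-b) ⊗ₜ[R] κ := by
  rw [map_add, io_alg, io_tmul, h.skew, tmul_neg, neg_tmul]

theorem Qd.mul_dec (h : Qd ι κ δ) (a b a' b' : T) :
    (algebraMap T (T ⊗[R] S) a + b ⊗ₜ[R] κ) * (algebraMap T _ a' + b' ⊗ₜ[R] κ) =
      algebraMap T _ (a * a' + algebraMap R T δ * (b * b')) + (a * b' + b * a') ⊗ₜ[R] κ := by
  have e : ∀ x : T, algebraMap T (T ⊗[R] S) x = x ⊗ₜ[R] 1 := fun _ => rfl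
  have e2 : (b * b') ⊗ₜ[R] (κ * κ) = (algebraMap R T δ * (b * b')) ⊗ₜ[R] (1 : S) := by
    rw [h.sq, Algebra.algebraMap_eq_smul_one, tmul_smul, smul_tmul', Algebra.smul_def]
  simp only [e, add_mul, mul_add, Algebra.TensorProduct.tmul_mul_tmul, one_mul, mul_one, e2,
    add_tmul]
  abel

theorem Qd.nrm (h : Qd ι κ δ) (a b : T) :
    (algebraMap T (T ⊗[R] S) a + b ⊗ₜ[R] κ) * io ι T (algebraMap T _ a + b ⊗ₜ[R] κ) =
      algebraMap T _ (a * a - algebraMap R T δ * (b * b)) := by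
  rw [h.io_dec, h.mul_dec, show a * -b + b * a = 0 by ring, zero_tmul, add_zero]
  congr 1
  ring

/-- ring homomorphisms out of a quadratic centre -/
theorem Qd.lift (h : Qd ι κ δ) {F : Type u} [CommRing F] (j : T →+* F) (ε : F)
    (hε : ε * ε = j (algebraMap R T δ)) :
    ∃ θ : T ⊗[R] S →+* F, ∀ a b : T, θ (algebraMap T _ a + b ⊗ₜ[R] κ) = j a + j b * ε := by
  choose p q hpq using h.dec (T := T)
  have key : ∀ a b : T, p (algebraMap T _ a + b ⊗ₜ[R] κ) = a ∧
      q (algebraMap T _ a + b ⊗ₜ[R] κ) = b := fun a b => h.ext (hpq _).symm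
  have k0 : ∀ a : T, p (algebraMap T _ a) = a ∧ q (algebraMap T _ a) = 0 := fun a => by
    have := key a 0
    rwa [zero_tmul, add_zero] at this
  refine ⟨{ toFun := fun c => j (p c) + j (q c) * ε
            map_one' := by
              have := k0 1
              rw [map_one] at this
              rw [this.1, this.2, map_one, map_zero, zero_mul, add_zero]
            map_mul' := fun c d => ?_
            map_zero' := by
              have := k0 0
              rw [map_zero] at this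
              rw [this.1, this.2, map_zero, zero_mul, add_zero]
            map_add' := fun c d => ?_ }, fun a b => ?_⟩
  · have e : c * d = _ := congrArg₂ (· * ·) (hpq c) (hpq d)
    rw [h.mul_dec] at e
    rw [e, (key _ _).1, (key _ _).2]
    simp only [map_add, map_mul, ← hε]
    ring
  · have e : c + d = algebraMap T _ (p c + p d) + (q c + q d) ⊗ₜ[R] κ := by
      conv_lhs => rw [hpq c, hpq d]
      rw [map_add, add_tmul]
      abel
    rw [e, (key _ _).1, (key _ _).2, map_add, map_add]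
    ring
  · change j (p _) + j (q _) * ε = _
    rw [(key a b).1, (key a b).2]

end io

section cj

variable {R S A : Type u} [CommRing R] [CommRing S] [Algebra R S] [Ring A] [Algebra S A]
  [Algebra R A] [IsScalarTower R S A] {T T' : Type u} [CommRing T] [Algebra R T] [CommRing T']
  [Algebra R T']

theorem mp_sm (f : T →ₐ[R] T') (c : T ⊗[R] S) :
    mp A f (GAP.sm R S A T c) = GAP.sm R S A T' (mp S f c) := by
  induction c using TensorProduct.induction_on with
  | zero => simp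
  | tmul t s => rfl
  | add x y hx hy => simp only [map_add, hx, hy]

theorem GB.sm_inj (h : GB R S A) (T : Type u) [CommRing T] [Algebra R T] :
    Injective (GAP.sm R S A T) := by
  have := h.freeA
  have := h.dom
  have : Nontrivial A := Module.nontrivial_of_finrank_pos h.pos
  let e := Module.Free.chooseBasis S A
  obtain ⟨t⟩ := e.index_nonempty
  obtain ⟨k, a, b, h1, hc, l, x, z, w, h3⟩ := h.az
  let τ : A →ₗ[S] S := e.coord t ∘ₗ LinearMap.mulLeft S (e t)
  have hτ : τ 1 = 1 := by simp [τ]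
  refine LeftInverse.injective (g := (τ.restrictScalars R).lTensor T) fun c => ?_
  induction c using TensorProduct.induction_on with
  | zero => simp
  | tmul t s =>
    rw [GAP.sm_tmul, LinearMap.lTensor_tmul, LinearMap.restrictScalars_apply,
      Algebra.algebraMap_eq_smul_one, map_smul, hτ, smul_eq_mul, mul_one]
  | add x y hx hy => simp only [map_add, hx, hy]

/-- central elements come from the centre -/
theorem GB.cen (h : GB R S A) {z : T ⊗[R] A} (hz : ∀ a : A, z * (1 : T) ⊗ₜ[R] a =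
    (1 : T) ⊗ₜ[R] a * z) : ∃ c, GAP.sm R S A T c = z := by
  have := h.freeA
  let := GAP.alg R S A T
  have : Module.Free (T ⊗[R] S) (T ⊗[R] A) := GAP.free_bc
  refine pCen (T ⊗[R] S) (T ⊗[R] A) z (GAP.az_bc h.az) fun x => ?_
  induction x using TensorProduct.induction_on with
  | zero => simp
  | tmul t a =>
    have e : t ⊗ₜ[R] a = t • ((1 : T) ⊗ₜ[R] a) := by rw [smul_tmul', smul_eq_mul, mul_one]
    rw [e, mul_smul_comm, smul_mul_assoc, hz]
  | add x y hx hy => rw [mul_add, add_mul, hx, hy]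

variable [StarRing A]

variable (A) in
/-- the involution restricted to the centre -/
structure Cj (ι : S →ₐ[R] S) : Prop where
  st : ∀ s, star (algebraMap S A s) = algebraMap S A (ι s)
  inv : ∀ s, ι (ι s) = s
  fix : ∀ (T : Type u) [CommRing T] [Algebra R T] (c : T ⊗[R] S), io ι T c = c →
    ∃ t : T, algebraMap T (T ⊗[R] S) t = c

variable {ι : S →ₐ[R] S}

omit [Algebra R A] [IsScalarTower R S A] in
theorem Cj.io_io (h : Cj A ι) (c : T ⊗[R] S) : io ι T (io ι T c) = c := by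
  induction c using TensorProduct.induction_on with
  | zero => simp
  | tmul t s => rw [io_tmul, io_tmul, h.inv]
  | add x y hx hy => simp only [map_add, hx, hy]

variable [SA R A]

theorem Cj.cj_sm (h : Cj A ι) (c : T ⊗[R] S) :
    cj R A T (GAP.sm R S A T c) = GAP.sm R S A T (io ι T c) := by
  induction c using TensorProduct.induction_on with
  | zero => simp
  | tmul t s => rw [GAP.sm_tmul, cj_tmul, h.st, io_tmul, GAP.sm_tmul]
  | add x y hx hy => simp only [map_add, hx, hy]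

theorem Cj.nrd_cj (h : Cj A ι) (hG : GB R S A) {n : ℕ} {N : NFam R S A} (hN : NF n N)
    (x : T ⊗[R] A) : N T (cj R A T x) = io ι T (N T x) :=
  hG.sm_inj T (by rw [pNFs R S A n N hG hN T x, h.cj_sm])

variable (A) in
/-- all the data of an involution -/
structure UC (n : ℕ) (N : NFam R S A) (ι : S →ₐ[R] S) : Prop where
  gb : GB R S A
  nf : NF n N
  cj : Cj A ι
  tr : ∃ (τ : A →ₗ[R] R) (ε : ℤˣ), Trc τ ε

omit [SA R A] in
theorem UC.ok {n : ℕ} {N : NFam R S A} (h : UC A n N ι) : Ok R A :=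
  ⟨h.tr, S, _, _, _, h.gb.toGA⟩

end cj

section defs

variable {R S A : Type u} [CommRing R] [CommRing S] [Algebra R S] [Ring A] [Algebra R A]
  (N : NFam R S A)

/-- units of reduced norm one -/
def SLn : Fam R A := fun T _ _ g => IsUnit g ∧ N T g = 1

/-- up to a unit, a power of `ϖ` is a reduced norm -/
def NSp (K : Type u) [CommRing K] [Algebra R K] (j : ℕ) {O : Type u} [CommRing O] [Algebra R O]
    [Algebra O K] [IsScalarTower R O K] (ϖ : O ⊗[R] S) : Prop :=
  ∃ s : (O ⊗[R] S)ˣ, NK N K (mp S (IsScalarTower.toAlgHom R O K) (s * ϖ) ^ j)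

variable [StarRing A] [SA R A]

/-- unitary elements of reduced norm one -/
def SUn : Fam R A := fun T _ _ g => g * cj R A T g = 1 ∧ cj R A T g * g = 1 ∧ N T g = 1

variable (ι : S →ₐ[R] S) (m e : ℕ)

/-- `(μ, t)` comes from a similitude -/
def HQ (T : Type u) [CommRing T] [Algebra R T] (μ : T) (t : T ⊗[R] S) : Prop :=
  ∃ g : (T ⊗[R] A)ˣ, Sml R A T g μ ∧ N T g = t ^ e ∧
    algebraMap T (T ⊗[R] S) (μ ^ m) = t * io ι T t

/-- `(x, y)` is a value -/
def EQ (T : Type u) [CommRing T] [Algebra R T] (x : T ⊗[R] S) (y : T) : Prop :=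
  ∃ (g : (T ⊗[R] A)ˣ) (μ : T) (t : (T ⊗[R] S)ˣ), Sml R A T g μ ∧
    N T g = x * (t : T ⊗[R] S) ^ e ∧
    algebraMap T (T ⊗[R] S) (μ ^ m) = algebraMap T (T ⊗[R] S) y * (t * io ι T t)

/-- a similitude with multiplier `v π` and norm `(v π) ^ k` -/
def NPI (k : ℕ) (K : Type u) [CommRing K] [Algebra R K] {O : Type u} [CommRing O] [Algebra O K]
    (π : O) : Prop :=
  ∃ (v : Oˣ) (g : (K ⊗[R] A)ˣ), Sml R A K g (algebraMap O K (v * π)) ∧
    N K g = algebraMap K (K ⊗[R] S) (algebraMap O K (v * π) ^ k)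

variable (O K : Type u) [CommRing O] [Algebra R O] [CommRing K] [Algebra R K] [Algebra O K]
  [IsScalarTower R O K]

/-- values over `K` are values over `O` -/
def PQ : Prop :=
  ∀ (x : (O ⊗[R] S)ˣ) (y : Oˣ),
    EQ N ι m e K (mp S (IsScalarTower.toAlgHom R O K) x) (algebraMap O K y) → EQ N ι m e O x y

/-- purity for the multiplier -/
def PurM : Prop :=
  ∀ (g : (K ⊗[R] A)ˣ) (μ : K), Sml R A K g μ →
    ∃ (v : Oˣ) (t : K ⊗[R] S), HQ N ι m e K (algebraMap O K v * μ) t

/-- purity for the norm one torus -/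
def PurT : Prop :=
  ∀ (x : (O ⊗[R] S)ˣ) (y : Oˣ) (g : (K ⊗[R] A)ˣ) (t : K ⊗[R] S),
    N K g = mp S (IsScalarTower.toAlgHom R O K) x * t ^ e →
    t * io ι K t = algebraMap K (K ⊗[R] S) (algebraMap O K y) →
    ∃ s : (O ⊗[R] S)ˣ, HQ N ι m e K 1 (mp S (IsScalarTower.toAlgHom R O K) s * t)

/-- norms of unitary elements -/
def NUr : Prop :=
  ∀ (s : O ⊗[R] S) (x : K ⊗[R] A), x * cj R A K x = 1 → cj R A K x * x = 1 →
    N K x = mp S (IsScalarTower.toAlgHom R O K) s →
    ∃ u : O ⊗[R] A, u * cj R A O u = 1 ∧ cj R A O u * u = 1 ∧ N O u = s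

/-- similitudes with a unit multiplier and an integral norm -/
def GNU : Prop :=
  ∀ (v : Oˣ) (x : O ⊗[R] S) (g : (K ⊗[R] A)ˣ), Sml R A K g (algebraMap O K v) →
    N K g = mp S (IsScalarTower.toAlgHom R O K) x →
    ∃ a : (O ⊗[R] A)ˣ, Sml R A O a v ∧ N O a = x

/-- improper similitudes -/
def PC (k : ℕ) : Prop :=
  ∀ (x : O ⊗[R] S) (g : (K ⊗[R] A)ˣ) (μ : K), Sml R A K g μ →
    N K g = mp S (IsScalarTower.toAlgHom R O K) x * algebraMap K (K ⊗[R] S) (μ ^ k) →
    ∃ (a : (O ⊗[R] A)ˣ) (v : Oˣ), Sml R A O a v ∧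
      N O a = x * algebraMap O (O ⊗[R] S) ((v : O) ^ k)

end defs

/-- roots exist after a faithfully flat extension -/
def Rt {R S : Type u} [CommRing R] [CommRing S] [Algebra R S] (ι : S →ₐ[R] S) (m : ℕ) : Prop :=
  ∀ (T : Type u) [CommRing T] [Algebra R T] (t : (T ⊗[R] S)ˣ) (μ : Tˣ),
    algebraMap T (T ⊗[R] S) ((μ : T) ^ m) = t * io ι T t →
    ∃ (T' : Type u) (_ : CommRing T') (_ : Algebra R T') (_ : Algebra T T')
      (_ : IsScalarTower R T T') (w : (T' ⊗[R] S)ˣ), Module.FaithfullyFlat T T' ∧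
      (w : T' ⊗[R] S) ^ m = mp S (IsScalarTower.toAlgHom R T T') t ∧
      w * io ι T' w = algebraMap T' (T' ⊗[R] S) (algebraMap T T' μ)

section hq

variable {R S A : Type u} [CommRing R] [CommRing S] [Algebra R S] [Ring A] [Algebra R A]
  {N : NFam R S A} [StarRing A] [SA R A] {ι : S →ₐ[R] S} {n m e : ℕ} {T T' : Type u} [CommRing T]
  [Algebra R T] [CommRing T'] [Algebra R T'] {μ μ' : T} {t t' : T ⊗[R] S}

theorem HQ.one : HQ N ι m e T 1 1 :=
  ⟨1, by rw [Sml, Units.val_one, cj_one, one_mul, map_one], by simp,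
    by rw [one_pow, map_one, map_one, mul_one]⟩

theorem HQ.mul (h : HQ N ι m e T μ t) (h' : HQ N ι m e T μ' t') :
    HQ N ι m e T (μ * μ') (t * t') := by
  obtain ⟨g, h1, h2, h3⟩ := h
  obtain ⟨g', k1, k2, k3⟩ := h'
  refine ⟨g * g', h1.mul k1, by rw [Units.val_mul, map_mul, h2, k2, mul_pow], ?_⟩
  rw [mul_pow, map_mul, h3, k3, map_mul]
  ring

theorem HQ.pow (h : HQ N ι m e T μ t) (k : ℕ) : HQ N ι m e T (μ ^ k) (t ^ k) := by
  induction k with
  | zero => simpa using HQ.one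
  | succ k ih =>
    rw [pow_succ, pow_succ]
    exact ih.mul h

theorem HQ.inv (h : HQ N ι m e T μ t) (e1 : μ * μ' = 1) (e2 : t * t' = 1) :
    HQ N ι m e T μ' t' := by
  obtain ⟨g, h1, h2, h3⟩ := h
  refine ⟨g⁻¹, h1.inv e1, left_inv_eq_right_inv (a := t ^ e) ?_ ?_,
    left_inv_eq_right_inv (a := t * io ι T t) ?_ ?_⟩
  · rw [← h2, ← map_mul, Units.inv_mul, map_one]
  · rw [← mul_pow, e2, one_pow]
  · rw [← h3, ← map_mul, ← mul_pow, mul_comm, e1, one_pow, map_one]
  · rw [mul_mul_mul_comm, ← map_mul, e2, map_one, one_mul]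

variable [Algebra S A] [IsScalarTower R S A]

theorem HQ.scal (hU : UC A n N ι) (hn : n = m * e) {z : T ⊗[R] S} (hz : IsUnit z)
    (h : algebraMap T (T ⊗[R] S) μ = z * io ι T z) : HQ N ι m e T μ (z ^ m) := by
  obtain ⟨z, rfl⟩ := hz
  refine ⟨Units.map (GAP.sm R S A T : T ⊗[R] S →* T ⊗[R] A) z, ?_, ?_, ?_⟩
  · change GAP.sm R S A T z * cj R A T (GAP.sm R S A T z) = _
    rw [hU.cj.cj_sm, ← map_mul, ← h, AlgHom.commutes]
  · change N T (GAP.sm R S A T z) = _
    rw [hU.nf.cen, hn, pow_mul]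
  · rw [map_pow, h, map_pow, mul_pow]

theorem HQ.map (hN : NF n N) (h : HQ N ι m e T μ t) (f : T →ₐ[R] T') :
    HQ N ι m e T' (f μ) (mp S f t) := by
  obtain ⟨g, h1, h2, h3⟩ := h
  refine ⟨um f g, h1.map f, ?_, ?_⟩
  · change N T' (mp A f g) = _
    rw [← hN.nat, h2, map_pow]
  · rw [← map_pow, ← mp_alg, h3, map_mul, mp_io]

theorem EQ.map (hN : NF n N) {x : T ⊗[R] S} {y : T} (h : EQ N ι m e T x y) (f : T →ₐ[R] T') :
    EQ N ι m e T' (mp S f x) (f y) := by
  obtain ⟨g, μ, t, h1, h2, h3⟩ := h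
  refine ⟨um f g, f μ, um f t, h1.map f, ?_, ?_⟩
  · change N T' (mp A f g) = _ * mp S f t ^ e
    rw [← hN.nat, h2, map_mul, map_pow]
  · change _ = _ * (mp S f t * io ι T' (mp S f t))
    rw [← map_pow, ← mp_alg, h3, map_mul, map_mul, mp_io, mp_alg]

end hq

/-- up to a unit, `π` is the norm of an integral element of an extension which contains a square
root of `δ` and has matrix units -/
def NHs (R A : Type u) [CommRing R] [Ring A] [Algebra R A] (n j : ℕ) (δ : R) (K : Type u)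
    [Field K] [Algebra R K] {O : Type u} [CommRing O] [Algebra O K] (π : O) : Prop :=
  ∃ (L : Type u) (_ : Field L) (_ : Algebra R L) (_ : Algebra K L) (_ : IsScalarTower R K L),
    Module.Finite K L ∧ MS R A n j L ∧ IsSquare (algebraMap R L δ) ∧
      ∃ (f : L) (v : Oˣ), f ≠ 0 ∧ Algebra.norm K f = algebraMap O K (v * π) ∧
        ((algebraMap K L).comp (algebraMap O K)).IsIntegralElem f

/-- `δ` is a square in the fraction field of `O ⧸ π` -/
def SqP {O : Type u} [CommRing O] (δ π : O) : Prop :=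
  ∃ r r' : O, ¬ π ∣ r' ∧ π ∣ r * r - δ * (r' * r')

/-- `π` splits as `ϖ ι(ϖ)` -/
def Spl {R S : Type u} [CommRing R] [CommRing S] [Algebra R S] (ι : S →ₐ[R] S) {O : Type u}
    [CommRing O] [Algebra R O] (π : O) (ϖ : O ⊗[R] S) : Prop :=
  Prime ϖ ∧ Associated (ϖ * io ι O ϖ) (algebraMap O (O ⊗[R] S) π)

section torsor

/-- a relation between two points and an element -/
def Rel (R E O : Type u) [CommRing R] [Ring E] [Algebra R E] [CommRing O] [Algebra R O] :
    Type (u + 1) :=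
  ∀ (T : Type u) [CommRing T] [Algebra R T], (O →ₐ[R] T) → (O →ₐ[R] T) → T ⊗[R] E → Prop

variable {R E O : Type u} [CommRing R] [Ring E] [Algebra R E] [CommRing O] [Algebra R O]

/-- inverses exist in `G` -/
def GInv (G : Fam R E) : Prop :=
  ∀ (T : Type u) [CommRing T] [Algebra R T] (g : T ⊗[R] E), G T g →
    ∃ g', G T g' ∧ g * g' = 1 ∧ g' * g = 1

/-- a gerbe -/
structure Gb (ρ : Rel R E O) : Prop where
  map : ∀ (T T' : Type u) [CommRing T] [Algebra R T] [CommRing T'] [Algebra R T']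
    (f : T →ₐ[R] T') (p q : O →ₐ[R] T) (h : T ⊗[R] E), ρ T p q h →
    ρ T' (f.comp p) (f.comp q) (mp E f h)
  mul : ∀ (T : Type u) [CommRing T] [Algebra R T] (p q r : O →ₐ[R] T) (g h : T ⊗[R] E),
    ρ T q r h → ρ T p q g → ρ T p r (h * g)
  one : ∀ (T : Type u) [CommRing T] [Algebra R T] (p : O →ₐ[R] T), ρ T p p 1
  loc : ∀ (T : Type u) [CommRing T] [Algebra R T] (p q : O →ₐ[R] T),
    ∃ (T' : Type u) (_ : CommRing T') (_ : Algebra R T') (_ : Algebra T T')
      (_ : IsScalarTower R T T') (h : T' ⊗[R] E), Module.FaithfullyFlat T T' ∧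
      ρ T' ((IsScalarTower.toAlgHom R T T').comp p) ((IsScalarTower.toAlgHom R T T').comp q) h

/-- the `m`-th power is well defined -/
def Pw (m : ℕ) (ρ : Rel R E O) : Prop :=
  ∀ (T : Type u) [CommRing T] [Algebra R T] (p q : O →ₐ[R] T) (z z' : T ⊗[R] E),
    ρ T p q z → ρ T p q z' → z ^ m = z' ^ m

/-- what is used of a torsor under a quotient -/
structure QT (G : Fam R E) (m : ℕ) (ρ : Rel R E O) : Prop extends Gb ρ where
  mem : ∀ (T : Type u) [CommRing T] [Algebra R T] (p q : O →ₐ[R] T) (h : T ⊗[R] E),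
    ρ T p q h → G T h
  uniq : ∀ (T : Type u) [CommRing T] [Algebra R T] (p q : O →ₐ[R] T) (h h' : T ⊗[R] E),
    ρ T p q h → ρ T p q h' → ∃ ζ, Mu R E m T ζ ∧ h' = h * ζ
  fin : ∀ (O' : Type u) [CommRing O'] [Algebra R O'] [Module.FaithfullyFlat R O']
    (p' : O →ₐ[R] O') (b : O' ⊗[R] E), G O' b →
    (∀ (T : Type u) [CommRing T] [Algebra R T] (i j : O' →ₐ[R] T) (h : T ⊗[R] E),
      ρ T (i.comp p') (j.comp p') h → ∃ ζ, Mu R E m T ζ ∧ h * mp E i b = mp E j b * ζ) →
    Nonempty (O →ₐ[R] R)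

/-- families of automorphisms -/
def AutF (R E O : Type u) [CommRing R] [Ring E] [Algebra R E] [CommRing O] [Algebra R O] :
    Type (u + 1) :=
  ∀ (T : Type u) [CommRing T] [Algebra R T], (O →ₐ[R] T) → (O →ₐ[R] T) →
    T ⊗[R] E ≃ₐ[T] T ⊗[R] E

/-- the cocycle of inner automorphisms -/
structure AC (ρ : Rel R E O) (c : AutF R E O) : Prop where
  nat : ∀ (T T' : Type u) [CommRing T] [Algebra R T] [CommRing T'] [Algebra R T']
    (f : T →ₐ[R] T') (p q : O →ₐ[R] T) (x : T ⊗[R] E),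
    c T' (f.comp p) (f.comp q) (mp E f x) = mp E f (c T p q x)
  mul : ∀ (T : Type u) [CommRing T] [Algebra R T] (p q r : O →ₐ[R] T) (x : T ⊗[R] E),
    c T q r (c T p q x) = c T p r x
  inn : ∀ (T : Type u) [CommRing T] [Algebra R T] (p q : O →ₐ[R] T) (h x : T ⊗[R] E),
    ρ T p q h → c T p q x * h = h * x

/-- `ψ` trivialises the cocycle -/
def Cob (c : AutF R E O) (ψ : O ⊗[R] E ≃ₐ[O] O ⊗[R] E) : Prop :=
  ∀ (T : Type u) [CommRing T] [Algebra R T] (p q : O →ₐ[R] T) (a : E),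
    c T p q (mp E p (ψ ((1 : O) ⊗ₜ[R] a))) = mp E q (ψ ((1 : O) ⊗ₜ[R] a))

variable {S A : Type u} [CommRing S] [Algebra R S] [Ring A] [Algebra S A] [Algebra R A]
  [IsScalarTower R S A]

/-- the central gerbe comes from the group `G` -/
def Lnk (G : Fam R A) (a : (O ⊗[R] A)ˣ) (l : Rel R S O) : Prop :=
  ∀ (T : Type u) [CommRing T] [Algebra R T] (i j : O →ₐ[R] T) (z : T ⊗[R] S), l T i j z →
    ∃ h, G T h ∧ h * mp A i a = mp A j a * GAP.sm R S A T z

/-- the conclusion: a point of `G` which trivialises the gerbe -/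
def Out (G : Fam R A) (m : ℕ) (a : (O ⊗[R] A)ˣ) (l : Rel R S O) : Prop :=
  ∃ (O' : Type u) (_ : CommRing O') (_ : Algebra R O') (r : O →ₐ[R] O') (a₀ : A)
    (w : (O' ⊗[R] S)ˣ) (b : O' ⊗[R] A), Module.FaithfullyFlat R O' ∧ G O' b ∧
    b * GAP.sm R S A O' w = mp A r a * (1 : O') ⊗ₜ[R] a₀ ∧
    ∀ (T : Type u) [CommRing T] [Algebra R T] (i j : O' →ₐ[R] T) (z : T ⊗[R] S),
      l T (i.comp r) (j.comp r) z → (z * mp S j w) ^ m = mp S i w ^ m

end torsor

section desc

variable {R E T T' : Type u} [CommRing R] [Ring E] [Algebra R E] [Module.Free R E]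
  [Module.Finite R E] [CommRing T] [Algebra R T] [CommRing T'] [Algebra R T']

theorem mp_inj_of {f : T →ₐ[R] T'} (hf : Injective f) : Injective (mp E f) := by
  cases subsingleton_or_nontrivial R
  · have := Module.subsingleton R (T ⊗[R] E)
    exact fun _ _ _ => Subsingleton.elim _ _
  intro y z hyz
  refine (Algebra.TensorProduct.basis T (Module.finBasis R E)).ext_elem fun i => hf ?_
  rw [← TorHP.repr_mp _ f, ← TorHP.repr_mp _ f, hyz]

variable [Algebra T T'] [IsScalarTower R T T'] [Module.FaithfullyFlat T T']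

theorem mp_inj_ff : Injective (mp E (IsScalarTower.toAlgHom R T T')) :=
  mp_inj_of (FaithfulSMul.algebraMap_injective T T')

/-- faithfully flat descent of elements -/
theorem desc_mp (y : T' ⊗[R] E)
    (h : mp E ((H90P.iL T T' T').restrictScalars R) y =
      mp E ((H90P.iR T T' T').restrictScalars R) y) :
    ∃ x, mp E (IsScalarTower.toAlgHom R T T') x = y := by
  cases subsingleton_or_nontrivial R
  · have := Module.subsingleton R (T' ⊗[R] E)
    exact ⟨0, Subsingleton.elim _ _⟩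
  let b := Module.finBasis R E
  have hr : ∀ i, ∃ r : T, algebraMap T T' r = (Algebra.TensorProduct.basis T' b).repr y i :=
    fun i => mem_range_of_eq _ (by
      have := congrArg (fun w => (Algebra.TensorProduct.basis (T' ⊗[T] T') b).repr w i) h
      rw [TorHP.repr_mp, TorHP.repr_mp] at this
      exact this)
  choose r hr using hr
  refine ⟨(Algebra.TensorProduct.basis T b).equivFun.symm r, ?_⟩
  refine (Algebra.TensorProduct.basis T' b).ext_elem fun k => ?_
  rw [TorHP.repr_mp b, ← hr]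
  exact congrArg (algebraMap T T')
    (congrFun ((Algebra.TensorProduct.basis T b).equivFun.apply_symm_apply r) k)

end desc

section more

variable {R S A : Type u} [CommRing R] [CommRing S] [Algebra R S] [Ring A] [Algebra R A]
  [Algebra S A] [IsScalarTower R S A] [StarRing A] {ι : S →ₐ[R] S} {κ : S} {δ : Rˣ}

theorem io_id (T : Type u) [CommRing T] [Algebra R T] (c : T ⊗[R] S) :
    io (AlgHom.id R S) T c = c := by
  induction c using TensorProduct.induction_on with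
  | zero => simp
  | tmul t s => rfl
  | add x y hx hy => rw [map_add, hx, hy]

omit [Algebra R A] [IsScalarTower R S A] in
theorem Qd.cj (h : Qd ι κ δ) (hs : ∀ s, star (algebraMap S A s) = algebraMap S A (ι s)) :
    Cj A ι := by
  refine ⟨hs, fun s => ?_, fun T _ _ c hc => ?_⟩
  · obtain ⟨b, b0, b1⟩ := h.bas
    rw [← b.sum_repr s, Fin.sum_univ_two, b0, b1]
    simp [h.skew]
  · obtain ⟨a, b, rfl⟩ := h.dec c
    rw [h.io_dec] at hc
    have h2 : IsUnit (2 : T) := by
      have := h.two.map (algebraMap R T)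
      rwa [map_ofNat] at this
    have : b = 0 := h2.mul_left_cancel (by linear_combination -(h.ext hc).2)
    exact ⟨a, by rw [this, zero_tmul, add_zero]⟩

theorem surj_bc (hs : Surjective (algebraMap R S)) (T : Type u) [CommRing T] [Algebra R T] :
    Surjective (algebraMap T (T ⊗[R] S)) := fun c => by
  induction c using TensorProduct.induction_on with
  | zero => exact ⟨0, map_zero _⟩
  | tmul t s =>
    obtain ⟨r, rfl⟩ := hs s
    exact ⟨r • t, by rw [Algebra.algebraMap_eq_smul_one r, ← smul_tmul]; rfl⟩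
  | add x y hx hy =>
    obtain ⟨a, rfl⟩ := hx
    obtain ⟨b, rfl⟩ := hy
    exact ⟨a + b, map_add _ _ _⟩

variable [SA R A]

theorem cj_of_surj (hs : Surjective (algebraMap R S)) : Cj A (AlgHom.id R S) :=
  ⟨fun s => by
    obtain ⟨r, rfl⟩ := hs s
    rw [← IsScalarTower.algebraMap_apply, SA.st, AlgHom.id_apply,
      ← IsScalarTower.algebraMap_apply], fun _ => rfl, fun T _ _ c _ => surj_bc hs T c⟩

variable {n : ℕ} {N : NFam R S A} {T : Type u} [CommRing T] [Algebra R T]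

omit [StarRing A] [SA R A] [IsScalarTower R S A] in
theorem GB.retS (h : GB R S A) : ∃ τ : S →ₗ[R] R, τ 1 = 1 := by
  have := h.free
  have := h.dom
  let e := Module.Free.chooseBasis R S
  obtain ⟨t⟩ := e.index_nonempty
  exact ⟨e.coord t ∘ₗ LinearMap.mulLeft R (e t), by simp⟩

omit [StarRing A] [SA R A] in
theorem GB.retA (h : GB R S A) : ∃ τ : A →ₗ[R] R, τ 1 = 1 := by
  have := h.freeA
  have := h.dom
  have : Nontrivial A := Module.nontrivial_of_finrank_pos h.pos
  let e := Module.Free.chooseBasis S A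
  obtain ⟨t⟩ := e.index_nonempty
  obtain ⟨τ, hτ⟩ := h.retS
  exact ⟨τ ∘ₗ (e.coord t ∘ₗ LinearMap.mulLeft S (e t)).restrictScalars R, by simp [hτ]⟩

omit [StarRing A] [SA R A] in
theorem ret_alg {τ : A →ₗ[R] R} (hτ : τ 1 = 1) (T : Type u) [CommRing T] [Algebra R T] :
    Injective (algebraMap T (T ⊗[R] A)) ∧ ∀ t : T, IsUnit (algebraMap T (T ⊗[R] A) t) → IsUnit t := by
  let l : T ⊗[R] A →ₗ[T] T := (TensorProduct.AlgebraTensorModule.rid R T T).toLinearMap ∘ₗ
    τ.baseChange T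
  have h1 : l 1 = 1 := by simp [l, Algebra.TensorProduct.one_def, hτ]
  refine ⟨LeftInverse.injective (g := l) fun t => ?_, fun t ht => ?_⟩
  · rw [Algebra.algebraMap_eq_smul_one, map_smul, h1, smul_eq_mul, mul_one]
  · obtain ⟨y, hy⟩ := ht.exists_right_inv
    refine IsUnit.of_mul_eq_one (l y) ?_
    rw [← smul_eq_mul, ← map_smul, Algebra.smul_def, hy, h1]

omit [StarRing A] [SA R A] [IsScalarTower R S A] in
theorem GB.alg_inj (h : GB R S A) (T : Type u) [CommRing T] [Algebra R T] :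
    Injective (algebraMap T (T ⊗[R] S)) :=
  h.retS.elim fun _ hτ => (ret_alg hτ T).1

omit [StarRing A] [SA R A] [IsScalarTower R S A] in
theorem GB.unitS (h : GB R S A) {t : T} (ht : IsUnit (algebraMap T (T ⊗[R] S) t)) : IsUnit t :=
  h.retS.elim fun _ hτ => (ret_alg hτ T).2 t ht

omit [StarRing A] [SA R A] in
theorem GB.unitA (h : GB R S A) {t : T} (ht : IsUnit (algebraMap T (T ⊗[R] A) t)) : IsUnit t :=
  h.retA.elim fun _ hτ => (ret_alg hτ T).2 t ht

/-- multipliers are units -/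
theorem GB.unit_sml (h : GB R S A) {g : (T ⊗[R] A)ˣ} {μ : T} (hg : Sml R A T g μ) : IsUnit μ := by
  refine h.unitA (hg ▸ g.isUnit.mul ?_)
  exact ⟨⟨_, cj R A T (g⁻¹ : (T ⊗[R] A)ˣ), by rw [← cj_mul, Units.inv_mul, cj_one],
    by rw [← cj_mul, Units.mul_inv, cj_one]⟩, rfl⟩

theorem UC.nrd_sml (h : UC A n N ι) {g : (T ⊗[R] A)ˣ} {μ : T} (hg : Sml R A T g μ) :
    N T g * io ι T (N T g) = algebraMap T (T ⊗[R] S) (μ ^ n) := by
  rw [← h.cj.nrd_cj h.gb h.nf, ← map_mul, hg, h.nf.alg]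

/-- `Nrd b / ι (Nrd b)` is the reduced norm of a unitary element -/
theorem UC.lyN [IsLocalRing T] (h : UC A n N ι) (hq : Qd ι κ δ) (b : (T ⊗[R] A)ˣ) :
    ∃ u : (T ⊗[R] A)ˣ, Sml R A T u 1 ∧ N T u * io ι T (N T b) = N T b := by
  let := bcStar R A T
  have : SA T (T ⊗[R] A) := (pBcg R A T).1
  have hκ : Kap (GAP.sm R S A T ((1 : T) ⊗ₜ[R] κ)) := by
    refine ⟨IsUnit.map _ (IsUnit.map Algebra.TensorProduct.includeRight
      (isUnit_of_mul_isUnit_left (hq.sq ▸ δ.isUnit.map _))), GAP.sm_comm R S A T _, ?_⟩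
    change GU.cj R A T _ = _
    rw [h.cj.cj_sm, io_tmul, hq.skew, tmul_neg, map_neg]
  obtain ⟨u, h1, h2, h3⟩ := allLyN T (T ⊗[R] A) (T ⊗[R] S) (N T) _ hκ b
  refine ⟨⟨u, star u, h1, h2⟩, h1.trans (map_one _).symm, ?_⟩
  rw [← h.cj.nrd_cj h.gb h.nf]
  exact h3

theorem gnu_of {O K : Type u} [CommRing O] [Algebra R O] [Field K] [Algebra R K] [Algebra O K]
    [IsScalarTower R O K] (h : NF n N) (h1 : GD R A O K) (h2 : NUr N O K) : GNU N O K := by
  intro v x g hg hx
  obtain ⟨a, ha, -⟩ := h1 v g v.isUnit hg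
  let f := IsScalarTower.toAlgHom R O K
  have h3 : Sml R A K (g * (um f a)⁻¹) 1 := by
    have := hg.mul ((ha.map f).inv (w' := f (v⁻¹ : Oˣ)) (by rw [← map_mul, v.mul_inv, map_one]))
    rwa [IsScalarTower.toAlgHom_apply, ← map_mul, v.mul_inv, map_one] at this
  obtain ⟨u, u1, u2, u3⟩ := h2 (x * N O (a⁻¹ : (O ⊗[R] A)ˣ)) _ (h3.trans (map_one _))
    (h3.comm.trans (map_one _)) (by
      rw [Units.val_mul, map_mul, hx, map_mul, h.nat]
      rfl)
  have h4 : Sml R A O ⟨u, _, u1, u2⟩ 1 := u1.trans (map_one _).symm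
  refine ⟨_ * a, one_mul (v : O) ▸ h4.mul ha, ?_⟩
  rw [Units.val_mul, map_mul, u3, mul_assoc, ← map_mul, Units.inv_mul, map_one, mul_one]

theorem sun_grp (h : NF n N) : Grp (SUn N) ∧ GInv (SUn N) := by
  refine ⟨⟨fun T _ _ => ⟨by rw [cj_one, mul_one], by rw [cj_one, mul_one], map_one _⟩,
    fun T _ _ g g' hg hg' => ⟨?_, ?_, by rw [map_mul, hg.2.2, hg'.2.2, mul_one]⟩,
    fun T T' _ _ _ _ f g hg => ⟨by rw [← mp_cj, ← map_mul, hg.1, map_one],
      by rw [← mp_cj, ← map_mul, hg.2.1, map_one], by rw [← h.nat, hg.2.2, map_one]⟩⟩,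
    fun T _ _ g hg => ⟨cj R A T g, ⟨by rw [cj_cj, hg.2.1], by rw [cj_cj, hg.1], ?_⟩, hg.1, hg.2.1⟩⟩
  · rw [cj_mul, mul_assoc, ← mul_assoc g', hg'.1, one_mul, hg.1]
  · rw [cj_mul, mul_assoc, ← mul_assoc _ g, hg.2.1, one_mul, hg'.2.1]
  · rw [← one_mul (N T _), ← hg.2.2, ← map_mul, hg.1, map_one, hg.2.2]

omit [StarRing A] [SA R A] in
theorem sln_grp (h : NF n N) : Grp (SLn N) ∧ GInv (SLn N) := by
  refine ⟨⟨fun T _ _ => ⟨isUnit_one, map_one _⟩,
    fun T _ _ g g' hg hg' => ⟨hg.1.mul hg'.1, by rw [map_mul, hg.2, hg'.2, mul_one]⟩,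
    fun T T' _ _ _ _ f g hg => ⟨hg.1.map _, by rw [← h.nat, hg.2, map_one]⟩⟩, ?_⟩
  rintro T _ _ _ ⟨⟨g, rfl⟩, hg⟩
  refine ⟨(g⁻¹ : (T ⊗[R] A)ˣ), ⟨Units.isUnit _, ?_⟩, g.mul_inv, g.inv_mul⟩
  rw [← one_mul (N T _), ← hg, ← map_mul, g.mul_inv, map_one, hg]

end more

/-- the two levels of primes -/
theorem lev (B O : Type u) [CommRing B] [IsRegularLocalRing B] [CommRing O] [IsLocalRing O]
    [Algebra B O] [IsLocalHom (algebraMap B O)] [Algebra.FormallySmooth B O]
    [Algebra.EssFiniteType B O] (hd : ringKrullDim B ≤ 2) :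
    IsRegularLocalRing O ∧ IsDomain O ∧ UniqueFactorizationMonoid O ∧
      ∃ _ : ((maximalIdeal B).map (algebraMap B O)).IsPrime,
        (∀ π : O, Prime π → π ∉ (maximalIdeal B).map (algebraMap B O) → Geo π) ∧
        IsRegularLocalRing (Localization.AtPrime ((maximalIdeal B).map (algebraMap B O))) ∧
        ringKrullDim (Localization.AtPrime ((maximalIdeal B).map (algebraMap B O))) ≤ 2 := by
  have := Algebra.EssFiniteType.isNoetherianRing B O
  obtain ⟨d, he⟩ : ∃ d : ℕ, ringKrullDim B = d :=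
    ⟨_, ((isRegularLocalRing_iff B).1 inferInstance).symm⟩
  obtain ⟨m, φ, hφ⟩ := struct B O
  have := RegBP.selfLoc B
  obtain ⟨hR, h𝔓, hreg⟩ := regB regAt regFlat rDom B O m d φ hφ
    ((regAt B B (maximalIdeal B) d).2 ⟨inferInstance, he⟩)
  have : IsDomain O := rDom O
  have := pRegR pHt1 B O m φ hd hφ
  obtain ⟨hO1, hO2⟩ := (regAt O (Localization.AtPrime ((maximalIdeal B).map (algebraMap B O)))
    ((maximalIdeal B).map (algebraMap B O)) d).1 hreg
  refine ⟨hR, inferInstance, pUFD O, h𝔓, fun π hπ hp => ?_, hO1, by rw [hO2, ← he]; exact hd⟩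
  have hm : π ∈ maximalIdeal O := hπ.not_isUnit
  obtain ⟨R', _, _, φ', hφ', Q, M, hQ, hQN⟩ := pG1 B O m φ π hφ h𝔓 hm hp
  obtain ⟨T, _, _, _, g, g1, g2, g3, g4⟩ := pG2 O R' φ' _ Q M hφ' hm hQ hQN
  exact pG3 pG3t O T _ g hm g1 g2 g3 g4

section split

variable {R S A A₁ : Type u} [CommRing R] [CommRing S] [Algebra R S] [Ring A] [Algebra R A]
  [Algebra S A] [Ring A₁] [Algebra R A₁]

/-- the data of a split centre -/
structure SD (σ : A →ₗ[R] A) (ι : S →ₐ[R] S) (e : S) (pr : S →ₐ[R] R) (π : A →ₐ[R] A₁)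
    (s : A₁ →ₗ[R] A) : Prop where
  inv : IsInvol σ
  st : ∀ x : S, σ (algebraMap S A x) = algebraMap S A (ι x)
  ii : ∀ x, ι (ι x) = x
  ie : ι e = 1 - e
  pe : pr e = 1
  em : ∀ x : S, x * e = pr x • e
  ps : ∀ y, π (s y) = y
  sp : ∀ a, s (π a) = algebraMap S A e * a
  pa : ∀ x : S, π (algebraMap S A x) = algebraMap R A₁ (pr x)

/-- base change of a homomorphism -/
noncomputable def bcA (π : A →ₐ[R] A₁) (T : Type u) [CommRing T] [Algebra R T] :
    T ⊗[R] A →ₐ[T] T ⊗[R] A₁ :=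
  Algebra.TensorProduct.map (AlgHom.id T T) π

end split

end Pool.Agent.P.MP_46a8f8_ag.GU
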