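import Pool.Agent.P.MP_46a8f8_ag.GU.Qc

/-!
The quotients by central subgroups from their packages.
-/

namespace Pool.Agent.P.MP_46a8f8_ag.GU

open TensorProduct Function IsLocalRing

universe u

/-- the packages about torsors -/
structure TqPk : Prop where
  qt : S_QT0.{u}
  ac : S_QAC.{u}
  pipe : S_Pipe.{u}
  sim : S_Sim.{u}
  cobS : S_CobS.{u}
  cob0 : S_Cob0.{u}
  rt : S_Rt.{u}
  outU : S_OutU.{u}
  outF : S_OutF.{u}
  outL : S_OutL.{u}
  cls : S_Cls.{u}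
  qdD : S_QdD.{u}
  splA : S_SplA.{u}
  splT : S_SplT.{u}

/-- the arithmetic packages -/
structure AqPk : Prop where
  pqa : S_PQa.{u}
  pqu : S_PQu.{u}
  nuf : S_NUf.{u}
  ptf : S_PTf.{u}
  pcf : S_PCf.{u}

theorem mu_gcd {R S A O : Type u} [CommRing R] [CommRing S] [Algebra R S] [Ring A] [Algebra S A]
    [Algebra R A] [IsScalarTower R S A] [CommRing O] [Algebra R O] {n m : ℕ} {N : NFam R S A}
    {G : Fam R A} (hG : GB R S A) (hN : NF n N)
    (hg : ∀ (T : Type u) [CommRing T] [Algebra R T] (g : T ⊗[R] A), G T g → N T g = 1)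
    (h : IsQTorsor G O (Mu R A m)) : IsQTorsor G O (Mu R A (m.gcd n)) := by
  obtain ⟨h0, a, a1, a2, a3, a4, a5⟩ := h
  refine ⟨h0, a, a1, a2, a3, fun T _ _ g p => (a4 T g p).trans ?_, a5⟩
  refine and_congr_left fun hc => ⟨fun h1 => ?_, fun h1 => (pow_gcd_eq_one.1 h1).1⟩
  obtain ⟨c, hc'⟩ := hG.cen fun a => hc ((1 : T) ⊗ₜ[R] a)
  have h2 := hg T g.1 g.2
  rw [← hc', hN.cen] at h2
  exact pow_gcd_eq_one.2 ⟨h1, by rw [← hc', ← map_pow, h2, map_one]⟩

theorem pt_triv {R A O : Type u} [CommRing R] [Ring A] [Subsingleton A] [Algebra R A]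
    [CommRing O] [Algebra R O] {G Z : Fam R A} (h : IsQTorsor G O Z) : Nonempty (O →ₐ[R] R) := by
  obtain ⟨h0, a, a1, -, -, -, a5⟩ := h
  refine TorAP.point (AlgHom.id R O) ?_
  obtain ⟨T', _, _, f, g, hf, hg⟩ := a5 _ (H90P.iL R O O) (H90P.iR R O O)
  rw [a1 T' g _ (Subsingleton.elim _ _)] at hg
  exact AlgHom.ext fun x => hf.injective (AlgHom.congr_fun hg x)

theorem coreS (h : TqPk.{u}) {R S A K O : Type u} [CommRing R] [IsLocalRing R]
    [IsNoetherianRing R] [CommRing S] [Algebra R S] [Ring A] [Algebra S A] [Algebra R A]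
    [IsScalarTower R S A] [StarRing A] [SA R A] [Field K] [Algebra R K] [CommRing O] [Algebra R O]
    {n m : ℕ} {N : NFam R S A} {ι : S →ₐ[R] S} (hA : AzI R S A) (hI : IsoP R S A K)
    (hU : UC A n N ι) (hO : IsQTorsor (SUn N) O (Mu R A m)) (hK : Nonempty (O →ₐ[R] K))
    (hout : ∀ (O₁ : Type u) [CommRing O₁] [Algebra R O₁] [Module.FaithfullyFlat R O₁]
      (a : (O₁ ⊗[R] A)ˣ) (μ : O₁ˣ) (l : Rel R S O₁), Nonempty (O₁ →ₐ[R] K) → Sml R A O₁ a μ →
      Gb l → Pw m l → Lnk (SUn N) a l → Out (SUn N) m a l) : Nonempty (O →ₐ[R] R) := by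
  have := hO.1
  have := SA.free (R := R) (A := A)
  have := SA.fin (R := R) (A := A)
  obtain ⟨g1, g2⟩ := sun_grp hU.nf
  obtain ⟨ρ, hρ⟩ := h.qt R A O _ m g1 g2 hO
  obtain ⟨c, hc⟩ := h.ac R A O _ m ρ g2 hρ
  obtain ⟨ψ, p1, p2, p3⟩ := h.cobS R S A K O ρ c hA hI hρ.toGb hc
    (fun T _ _ p q x hx => ⟨(hρ.mem T p q x hx).1, (hρ.mem T p q x hx).2.1⟩) hK
  refine h.pipe R S A K O _ m ρ c ψ hU.gb hρ hc p1 p2 hK fun O₁ _ _ _ r a l k1 k2 k3 k4 k5 => ?_
  obtain ⟨μ, hμ⟩ := h.sim R S A O O₁ ι ψ r a hU.gb hU.cj p3 k2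
  exact hout O₁ a μ l k1 hμ k3 k4 k5

section

variable (B R : Type u) [CommRing B] [IsRegularLocalRing B] [CommRing R]
  [IsLocalRing R] [Algebra B R] [IsLocalHom (algebraMap B R)] [Algebra.FormallySmooth B R]
  [Algebra.EssFiniteType B R] (K : Type u) [Field K] [Algebra R K] [IsFractionRing R K]
  (O : Type u) [CommRing O] [Algebra R O]

include B

/-- the inner forms -/
theorem topL (h : TqPk.{u}) (hd : ringKrullDim B ≤ 2) (A : Type u) [Ring A] [Algebra R A]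
    [IsAzumaya R A] {n m : ℕ} {N : NFam R R A} (hN : NF n N)
    (hO : IsQTorsor (SLn N) O (Mu R A m)) (hK : Nonempty (O →ₐ[R] K)) :
    Nonempty (O →ₐ[R] R) := by
  obtain ⟨hR, _, -⟩ := lev B R hd
  have hG := pGB0 R R A
  have := hO.1
  have := hG.sep.free
  replace hO := mu_gcd hG hN (fun _ _ _ _ hg => hg.2) hO
  obtain ⟨e, he⟩ := Nat.gcd_dvd_right m n
  obtain ⟨g1, g2⟩ := sln_grp hN
  obtain ⟨ρ, hρ⟩ := h.qt R A O _ _ g1 g2 hO
  obtain ⟨c, hc⟩ := h.ac R A O _ _ ρ g2 hρ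
  obtain ⟨ψ, p1⟩ := h.cob0 R A K O ρ c hc hK
  refine h.pipe R R A K O _ _ ρ c ψ hG hρ hc p1 (fun s => ?_) hK
    fun O₁ _ _ _ r a l k1 k2 k3 k4 k5 => h.outL R R A K O₁ n _ e N a l hG hN surjective_id he
      (allFNd R R A B K n e N hd hG hN) k1 k3 k4 k5
  have e1 : (1 : O) ⊗ₜ[R] algebraMap R A s = algebraMap O (O ⊗[R] A) (algebraMap R O s) := by
    rw [← IsScalarTower.algebraMap_apply]
    exact (Algebra.TensorProduct.includeRight (R := R) (A := O) (B := A)).commutes s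
  rw [e1, AlgEquiv.commutes]

/-- the centre is a domain -/
theorem topD (h : TqPk.{u}) (k : AqPk.{u}) (hd : ringKrullDim B ≤ 2) (ht : IsUnit (2 : R))
    (S : Type u) [CommRing S] [IsDomain S] [Algebra R S] [Module.Finite R S] [Algebra.Etale R S]
    (A : Type u) [Ring A] [Algebra S A] [IsAzumaya S A] [Algebra R A] [IsScalarTower R S A]
    (σ : A →ₗ[R] A) (hσ : IsInvol σ)
    (hfix : ∀ s : S, σ (algebraMap S A s) = algebraMap S A s → ∃ r, algebraMap R S r = s)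
    (hS : Surjective (algebraMap R S) ∨ ∃ (ι : S →ₐ[R] S) (κ : S) (δ : Rˣ), Qd ι κ δ ∧
      ∀ s, σ (algebraMap S A s) = algebraMap S A (ι s))
    {m : ℕ} (hO : IsQTorsor (SpecU S σ) O (Mu R A m)) (hK : Nonempty (O →ₐ[R] K)) :
    Nonempty (O →ₐ[R] R) := by
  obtain ⟨hR, _, _, -⟩ := lev B R hd
  let : StarRing A := starOf σ hσ.1 hσ.2
  have h1 : σ 1 = 1 := star_one A
  have hA : AzI R S A :=
    { tower := inferInstance
      dom := inferInstance
      fin := inferInstance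
      et := inferInstance
      az := inferInstance
      st := fun r => by
        change σ (algebraMap R A r) = _
        rw [Algebra.algebraMap_eq_smul_one, map_smul, h1]
      fix := hfix
      two := ht }
  have : SA R A := allSep R S A hA
  obtain ⟨τ, ε, hτ, hp, hs⟩ := allTr R S A hA
  have hG := pGB0 R S A
  obtain ⟨n, N, hN⟩ := allNFe R S A hG
  have hOk : Ok R A := ⟨⟨τ, ε, ⟨hτ, hp, hs⟩⟩, S, _, _, _, hG.toGA⟩
  have hTy : Ty R A := by
    by_cases hsu : Surjective (algebraMap R S)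
    · exact Or.inl (pAzR R S A hsu hG.az)
    · exact Or.inr (pDA2 pH9 R S A hA hsu)
  have hPur := allPurD R A B K hd hOk hTy
  have hI := allIso R S A K hA (smooth2 allStep2 pUp B R hd A hOk) hPur
  have e0 : SpecU S σ = SUn N := by
    funext T _ _ g
    exact propext ((TorSUP.spec_iff (fun _ => rfl) hN g).trans and_assoc)
  rw [e0] at hO
  replace hO := mu_gcd hG hN (fun _ _ _ _ hg => hg.2.2) hO
  obtain ⟨e, he⟩ := Nat.gcd_dvd_right m n
  generalize m.gcd n = m at hO he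
  rcases hS with hS | ⟨ι, κ, δ, hq, hι⟩
  · have hU : UC A n N (AlgHom.id R S) := ⟨hG, hN, cj_of_surj hS, hOk.tr⟩
    have hGD := allGD R A R K hOk hTy (allHR R A B R hd hOk (PurDP.dm_self R))
    rcases Nat.even_or_odd m with hm | hm
    · obtain ⟨j, hj⟩ : 2 ∣ n := he ▸ hm.two_dvd.mul_right e
      exact coreS h hA hI hU hO hK fun O₁ _ _ _ a μ l k1 k2 k3 _ k5 =>
        h.outF R S A K O₁ n m j N a μ l hU hj hm
          (k.pcf R S A R K n j N hG hN hS hj hPur hGD) k1 k2 k3 k5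
    · exact coreS h hA hI hU hO hK fun O₁ _ _ _ a μ l k1 k2 k3 k4 k5 =>
        h.outU R S A K O₁ n m e N _ a μ l hU he ((h.rt R S m).2 hm)
          (k.pqa R S A R K n m e N _ hU he (Or.inl hm) (k.ptf R S A R K m e N hG hS)
            (gnu_of hN hGD (k.nuf R S A R K n N hU hS))) k1 k2 k3 k4 k5
  · have hU : UC A n N ι := ⟨hG, hN, hq.cj hι, hOk.tr⟩
    have hm : 0 < m := Nat.pos_of_mul_pos_right (he ▸ hN.pos)
    exact coreS h hA hI hU hO hK fun O₁ _ _ _ a μ l k1 k2 k3 k4 k5 =>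
      h.outU R S A K O₁ n m e N _ a μ l hU he ((h.rt R S m).1 ι κ δ hq hm)
        (k.pqu R S A B K n m e N ι κ δ hd hU hq hTy he) k1 k2 k3 k4 k5

theorem topQ (h : TqPk.{u}) (k : AqPk.{u}) (hd : ringKrullDim B ≤ 2) (ht : IsUnit (2 : R))
    (S : Type u) [CommRing S] [Algebra R S] [Module.Finite R S] [Algebra.Etale R S]
    (A : Type u) [Ring A] [Algebra S A] [IsAzumaya S A] [Algebra R A] [IsScalarTower R S A]
    (σ : A →ₗ[R] A) (hσ : IsInvol σ)
    (hfix : ∀ s : S, σ (algebraMap S A s) = algebraMap S A s → ∃ r, algebraMap R S r = s)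
    {m : ℕ} (hO : IsQTorsor (SpecU S σ) O (Mu R A m)) (hK : Nonempty (O →ₐ[R] K)) :
    Nonempty (O →ₐ[R] R) := by
  obtain ⟨hR, _, _, -⟩ := lev B R hd
  cases subsingleton_or_nontrivial S
  · have := Module.subsingleton S A
    exact pt_triv hO
  rcases h.cls R S A σ ht hσ hfix with hb | ⟨ι, κ, δ, hq, hι⟩
  · have : IsDomain S := (RingEquiv.ofBijective _ hb).symm.toMulEquiv.isDomain R
    exact topD B R K O h k hd ht S A σ hσ hfix (Or.inl hb.2) hO hK
  rcases h.qdD R S ι κ δ hq with hD | ⟨r, hr⟩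
  · exact topD B R K O h k hd ht S A σ hσ hfix (Or.inr ⟨ι, κ, δ, hq, hι⟩) hO hK
  obtain ⟨A₁, _, _, e, pr, π, s, _, hs⟩ := h.splA R S A σ ι κ δ r hq hr hσ hι
  obtain ⟨n, N, hN⟩ := allNFe R R A₁ (pGB0 R R A₁)
  exact topL B R K O h hd A₁ hN (h.splT R S A A₁ O σ ι e pr π s n m N hs hN hO) hK

end

end Pool.Agent.P.MP_46a8f8_ag.GU
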