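import Pool.Agent.P.MP_46a8f8_ag.GU.Top
import Pool.Agent.P.MP_46a8f8_ag.GU.Herm

/-!
Definitions and statements for smooth algebras over a regular local ring of small dimension.
-/

namespace Pool.Agent.P.MP_46a8f8_ag.GU

open TensorProduct Function Matrix IsLocalRing Polynomial

universe u

/-- the elements congruent to one -/
def On {T : Type u} [CommRing T] (y : T) : Submonoid T where
  carrier := {s | y ∣ s - 1}
  mul_mem' := fun {a b} ha hb => by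
    have : a * b - 1 = (a - 1) * b + (b - 1) := by ring
    change y ∣ a * b - 1
    rw [this]
    exact dvd_add (Dvd.dvd.mul_right ha b) hb
  one_mem' := by simp

/-- near `y = 0` the ring `T` has a second structure of an algebra over `R ⧸ F` -/
def Sec {R T : Type u} [CommRing R] [CommRing T] [Algebra R T] (F : R) (y : T) : Prop :=
  ∃ j : R →+* Localization (On y), j F = 0 ∧ ∀ r, algebraMap T (Localization (On y)) y ∣
    j r - algebraMap T (Localization (On y)) (algebraMap R T r)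

/-- a finite free algebra with a perfect trace such that `T ⧸ y = R ⧸ F` -/
structure Fr {R T : Type u} [CommRing R] [CommRing T] [Algebra R T] (F : R) (τ : T →ₗ[R] R)
    (y y' : T) : Prop where
  free : Module.Free R T
  fin : Module.Finite R T
  perf : PerfTr τ
  mul : y * y' = algebraMap R T F
  one : τ y' = 1
  gen : ∀ t : T, ∃ r : R, y ∣ t - algebraMap R T r

/-- the geometric presentation of `R ⧸ F` -/
def Geo {R : Type u} [CommRing R] (F : R) : Prop :=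
  ∃ (T : Type u) (_ : CommRing T) (_ : Algebra R T) (τ : T →ₗ[R] R) (y y' : T),
    Fr F τ y y' ∧ Sec F y

/-- a ring map applied to a pair of vectors -/
def vm {C C' : Type u} [CommRing C] [CommRing C'] {ι : Type} (q : C →+* C')
    (v : (ι → C) × (ι → C)) : (ι → C') × (ι → C') := (q ∘ v.1, q ∘ v.2)

section

variable {R A T : Type u} [CommRing R] [Ring A] [Algebra R A] [StarRing A] [CommRing T]
  [Algebra R T]

/-- the transfer along a linear form -/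
@[reducible] def FM.trf (U : FM R A T T) (τ : T →ₗ[R] R) : FM R A R R :=
  U.tr R τ.toAddMonoidHom fun c v => by
    rw [algebraMap_smul]
    exact map_smul τ c v

/-- a deformation over `T` of the hyperbolic space `H` and of the image of `φ` -/
structure Cm (ε : ℤˣ) {E H : FM R A R R} (φ : E.M →ₗ[R] H.M) (π₀ : H.M →ₗ[R] H.M) (y : T)
    (U : FM R A T T) (π : U.M →ₗ[T] U.M) (ι : H.M →ₛₗ[algebraMap R T] U.M)
    (N : Submodule T U.M) : Prop where
  sp : U.Sp ε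
  proj : U.IsProj π
  eqv : Eqv H.toRM U.toRM ι
  comm : ∀ v, π (ι v) = ι (π₀ v)
  form : ∀ v v', U.b (ι v) (ι v') = algebraMap R T (H.b v v')
  iso : U.Isot N
  n1 : ∀ x, ∃ n ∈ N, ∃ w, ι (φ x) = n + y • w

/-- before induction: `N` is stable under lifts of the action -/
structure Pre (ε : ℤˣ) {E H : FM R A R R} (φ : E.M →ₗ[R] H.M) (π₀ : H.M →ₗ[R] H.M) (y : T)
    (U : FM R A T T) (π : U.M →ₗ[T] U.M) (ι : H.M →ₛₗ[algebraMap R T] U.M)
    (N : Submodule T U.M) : Prop extends Cm ε φ π₀ y U π ι N where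
  onto : ∀ u, ∃ v w, u = ι v + y • w
  n2 : ∀ n ∈ N, ∃ x w, n = ι (φ x) + y • w
  sat : ∃ s : T, y ∣ s - 1 ∧ ∀ v ∈ U.perp N, s • v ∈ N
  th : ∀ a : A, ∃ Θ Θ' : U.M →ₗ[T] U.M, (∀ u v, U.b (Θ u) v = U.b u (Θ' v)) ∧
    (∀ n ∈ N, Θ n ∈ N) ∧ (∀ n ∈ N, Θ' n ∈ N) ∧ (∀ u, Θ (π u) = π (Θ u)) ∧
    ∀ u, ∃ w, Θ u = U.ρ a u + y • w

/-- multiplication by `s` on `N` extends to an `R`-linear map to `N` -/
structure Kp (y : T) (U : FM R A T T) (N : Submodule T U.M) (s : T) (κ : U.M →+ U.M) : Prop where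
  one : y ∣ s - 1
  sat : ∀ v ∈ U.perp N, s • v ∈ N
  lin : ∀ (r : R) (u : U.M), κ (algebraMap R T r • u) = algebraMap R T r • κ u
  mem : ∀ u, κ u ∈ N
  res : ∀ n ∈ N, κ n = s • n

/-- after induction: `N` is stable and `e` lifts the projector onto `H` -/
structure Post (ε : ℤˣ) {E H : FM R A R R} (φ : E.M →ₗ[R] H.M) (π₀ : H.M →ₗ[R] H.M) (y : T)
    (U : FM R A T T) (π : U.M →ₗ[T] U.M) (ι : H.M →ₛₗ[algebraMap R T] U.M)
    (N : Submodule T U.M) (s : T) (κ : U.M →+ U.M) (e : U.M →ₗ[T] U.M) : Prop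
    extends Cm ε φ π₀ y U π ι N where
  stab : U.Stab N
  kp : Kp y U N s κ
  keqv : Eqv U.toRM U.toRM κ
  eeqv : Eqv U.toRM U.toRM e
  eadj : ∀ u v, U.b (e u) v = U.b u (e v)
  epi : ∀ u, e (π u) = π (e u)
  emem : ∀ n ∈ N, e n ∈ N
  e1 : ∀ v, ∃ w, e (ι v) = ι v + y • w
  e2 : ∀ u, ∃ v w, e u = ι v + y • w
  e3 : ∀ n ∈ N, ∃ x w, e n = ι (φ x) + y • w

/-- `φ` is an equivariant similitude with multiplier `F` and adjoint `ψ` -/
structure Sim (ε : ℤˣ) (E H : FM R A R R) (φ : E.M →ₗ[R] H.M) (ψ : H.M →ₗ[R] E.M) (F : R) :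
    Prop where
  spE : E.Sp ε
  spH : H.Sp ε
  eqv : Eqv E.toRM H.toRM φ
  form : ∀ x x', H.b (φ x) (φ x') = F * E.b x x'
  inv : ∀ v, φ (ψ v) = F • v
  ne : F ≠ 0

/-- a perfect trace compatible with the involution -/
structure Trc (τ : A →ₗ[R] R) (ε : ℤˣ) : Prop where
  comm : ∀ x y, τ (x * y) = τ (y * x)
  perf : PerfTr τ
  st : ∀ x, τ (star x) = ε • τ x

variable (R A) in
/-- the involution on a scalar extension -/
@[reducible] noncomputable def bcStar [SA R A] (O : Type u) [CommRing O] [Algebra R O] :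
    StarRing (O ⊗[R] A) :=
  starOf ((HermP.stL R A).baseChange O)
    (fun x y => by
      induction x using TensorProduct.induction_on with
      | zero => simp
      | add x x' h h' => simp only [add_mul, map_add, h, h', mul_add]
      | tmul o a =>
        induction y using TensorProduct.induction_on with
        | zero => simp
        | add y y' h h' => simp only [mul_add, map_add, h, h', add_mul]
        | tmul o' a' =>
          simp only [Algebra.TensorProduct.tmul_mul_tmul, LinearMap.baseChange_tmul]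
          rw [mul_comm o o']
          exact congrArg _ (star_mul a a'))
    (fun x => by
      induction x using TensorProduct.induction_on with
      | zero => simp
      | add x x' h h' => simp only [map_add, h, h']
      | tmul o a =>
        simp only [LinearMap.baseChange_tmul]
        exact congrArg _ (star_star a))

end

/-- what is used of the centre -/
structure GA (R S A : Type u) [CommRing R] [CommRing S] [Algebra R S] [Ring A] [Algebra S A]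
    [Algebra R A] : Prop where
  tower : IsScalarTower R S A
  dom : IsDomain S
  fin : Module.Finite R S
  free : Module.Free R S
  freeA : Module.Free S A
  az : Az S A

/-! ### geometry -/

def S_G1 : Prop :=
  ∀ (B R : Type u) [CommRing B] [IsNoetherianRing B] [IsLocalRing B] [CommRing R]
    [IsNoetherianRing R] [IsLocalRing R] [Algebra B R] [IsLocalHom (algebraMap B R)] (m : ℕ)
    (φ : MvPolynomial (Fin m) B →ₐ[B] R) (F : R), EE (φ : MvPolynomial (Fin m) B →+* R) →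
    ((maximalIdeal B).map (algebraMap B R)).IsPrime → F ∈ maximalIdeal R →
    F ∉ (maximalIdeal B).map (algebraMap B R) →
    ∃ (R' : Type u) (_ : CommRing R') (_ : IsNoetherianRing R') (φ' : R'[X] →+* R), EE φ' ∧
      ∃ (Q : R'[X]) (N : ℕ), Q.Monic ∧
        φ' Q ^ N ∈ Ideal.span {F} ⊔ ((maximalIdeal R).comap (φ'.comp C)).map (φ'.comp C)

def S_G2 : Prop :=
  ∀ (R R' : Type u) [CommRing R] [IsNoetherianRing R] [IsLocalRing R] [CommRing R']
    [IsNoetherianRing R'] (φ' : R'[X] →+* R) (F : R) (Q : R'[X]) (N : ℕ), EE φ' →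
    F ∈ maximalIdeal R → Q.Monic →
    φ' Q ^ N ∈ Ideal.span {F} ⊔ ((maximalIdeal R).comap (φ'.comp C)).map (φ'.comp C) →
    ∃ (T : Type u) (_ : CommRing T) (_ : Algebra R T) (_ : Module.Finite R T) (g : T),
      IsSMulRegular T g ∧ (∀ t : T, ∃ r : R, g ∣ t - algebraMap R T r) ∧
      (∀ r : R, g ∣ algebraMap R T r ↔ F ∣ r) ∧ Sec F g

def S_G3t : Prop :=
  ∀ (R : Type u) [CommRing R] [Nontrivial R] (Q : R[X]), Q.Monic → 0 < Q.natDegree →
    ∃ τ : AdjoinRoot Q →ₗ[R] R, PerfTr τ ∧ τ (AdjoinRoot.mk Q Q.divX) = 1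

def S_G3 : Prop :=
  ∀ (R T : Type u) [CommRing R] [IsNoetherianRing R] [IsLocalRing R] [CommRing T] [Algebra R T]
    [Module.Finite R T] (F : R) (g : T), F ∈ maximalIdeal R → IsSMulRegular T g →
    (∀ t : T, ∃ r : R, g ∣ t - algebraMap R T r) → (∀ r : R, g ∣ algebraMap R T r ↔ F ∣ r) →
    Sec F g → Geo F

/-! ### deformation of a Lagrangian -/

def S_D0 : Prop :=
  ∀ (R A T : Type u) [CommRing R] [IsDomain R] [Ring A] [Algebra R A] [StarRing A] [SA R A]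
    [CommRing T] [IsNoetherianRing T] (j : R →+* T) (y : T) (ι : Type) [Fintype ι]
    [DecidableEq ι] (ρ : MRep R A R ι) (δ : ℤˣ) (E : FM R A R R)
    (φ : E.M →ₗ[R] (ρ.hfm δ).M) (ψ : (ρ.hfm δ).M →ₗ[R] E.M) (F : R)
    (N : Submodule T ((ι → T) × (ι → T))), Sim (-δ) E (ρ.hfm δ) φ ψ F → j F = 0 →
    IsSMulRegular T y → (∀ t, IsUnit (1 + y * t)) → (∀ t, ∃ r, y ∣ t - j r) →
    (∀ r, y ∣ j r → F ∣ r) → N = Submodule.span T (Set.range fun x => vm j (φ x)) →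
    (∀ u, u ∈ N ↔ ∀ v ∈ N, hf δ u v = 0) ∧
    (∀ (a : A), ∀ u ∈ N, ((ρ.ρ a).map j *ᵥ u.1, ((ρ.ρ (star a)).map j)ᵀ *ᵥ u.2) ∈ N) ∧
    ∀ u ∈ N, ∃ x w, u = vm j (φ x) + y • w

def S_D1 : Prop :=
  ∀ (R A T : Type u) [CommRing R] [IsDomain R] [IsNoetherianRing R] [Ring A] [Algebra R A]
    [StarRing A] [SA R A] [CommRing T] [Algebra R T] (τ : T →ₗ[R] R) (y y' : T) (ι : Type)
    [Fintype ι] [DecidableEq ι] (ρ : MRep R A R ι) (δ : ℤˣ) (E : FM R A R R)
    (φ : E.M →ₗ[R] (ρ.hfm δ).M) (ψ : (ρ.hfm δ).M →ₗ[R] E.M) (F : R),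
    Sim (-δ) E (ρ.hfm δ) φ ψ F → Fr F τ y y' → Sec F y →
    ∃ (π₀ : (ρ.hfm δ).M →ₗ[R] (ρ.hfm δ).M) (U : FM R A T T) (π : U.M →ₗ[T] U.M)
      (i : (ρ.hfm δ).M →ₛₗ[algebraMap R T] U.M) (N : Submodule T U.M),
      (ρ.hfm δ).IsProj π₀ ∧ Pre (-δ) φ π₀ y U π i N

/-- a lemma of Nakayama type -/
def S_Nak : Prop :=
  ∀ (R T U : Type u) [CommRing R] [IsNoetherianRing R] [CommRing T] [Algebra R T]
    [AddCommGroup U] [Module T U] [Module R U] [IsScalarTower R T U] [Module.Finite R U]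
    (N P : Submodule T U) (y s₀ : T), y ∣ s₀ - 1 → (∀ v : U, y • v ∈ N → s₀ • v ∈ N) →
    (∀ z, z ∈ P ↔ ∃ n ∈ N, ∃ w : U, z = n + y • w) → Module.Projective R P →
    ∃ (s : T) (κ : U →ₗ[R] U), y ∣ s - 1 ∧ (∀ u, κ u ∈ N) ∧ ∀ n ∈ N, κ n = s • n

def S_Kap0 : Prop :=
  ∀ (R A T : Type u) [CommRing R] [IsDomain R] [IsNoetherianRing R] [Ring A] [Algebra R A]
    [StarRing A] [SA R A] [CommRing T] [Algebra R T] (τ : T →ₗ[R] R) (y y' : T) (ε : ℤˣ)
    (E H : FM R A R R) (φ : E.M →ₗ[R] H.M) (ψ : H.M →ₗ[R] E.M) (F : R) (π₀ : H.M →ₗ[R] H.M)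
    (U : FM R A T T) (π : U.M →ₗ[T] U.M) (i : H.M →ₛₗ[algebraMap R T] U.M)
    (N : Submodule T U.M), Sim ε E H φ ψ F → Fr F τ y y' → Pre ε φ π₀ y U π i N →
    ∃ s κ, Kp y U N s κ

/-- every module is an orthogonal summand of an induced module -/
def S_Ind : Prop :=
  ∀ (R A : Type u) [CommRing R] [Ring A] [Algebra R A] [StarRing A] [SA R A],
    ∃ (K : Type) (_ : Fintype K) (_ : DecidableEq K) (l : MRep R A R K) (κ : K → K) (p : K → A),
      Involutive κ ∧ (∀ a k k', l.ρ a k k' = l.ρ (star a) (κ k') (κ k)) ∧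
      (∀ a k, ∑ k', l.ρ a k k' • p k' = p k * a) ∧ ∑ k, star (p (κ k)) * p k = 1

def S_IndM : Prop :=
  ∀ (R A T : Type u) [CommRing R] [Ring A] [Algebra R A] [StarRing A] [SA R A] [CommRing T]
    [Algebra R T] (y : T) (ε : ℤˣ) (E H : FM R A R R) (φ : E.M →ₗ[R] H.M) (π₀ : H.M →ₗ[R] H.M)
    (U : FM R A T T) (π : U.M →ₗ[T] U.M) (i : H.M →ₛₗ[algebraMap R T] U.M)
    (N : Submodule T U.M) (s : T) (κ : U.M →+ U.M), H.Good ε → Eqv E.toRM H.toRM φ →
    Eqv H.toRM H.toRM π₀ → Pre ε φ π₀ y U π i N → Kp y U N s κ →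
    ∃ (U' : FM R A T T) (π' : U'.M →ₗ[T] U'.M) (i' : H.M →ₛₗ[algebraMap R T] U'.M)
      (N' : Submodule T U'.M) (κ' : U'.M →+ U'.M) (e : U'.M →ₗ[T] U'.M),
      Post ε φ π₀ y U' π' i' N' s κ' e

def S_Pick : Prop :=
  ∀ (T M : Type u) [CommRing T] [Finite (MaximalSpectrum T)] [AddCommGroup M] [Module T M]
    [Module.Free T M] [Module.Finite T M] (y s : T) (e : Module.End T M), IsSMulRegular T y →
    y ∣ s - 1 → (∀ w, ∃ w', e (e w) = e w + y • w') →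
    ∃ c g γ : Module.End T M, c ∈ Algebra.adjoin T {e} ∧ (∀ w, g w = w - s ^ 3 • c w) ∧
      (∀ w, g (γ w) = y • w) ∧ (∀ w, γ (g w) = y • w) ∧
      (∀ w, ∃ w', g w = w - e w + y • w') ∧ ∀ w, ∃ w', γ w = e w + y • w'

def S_Kap : Prop :=
  ∀ (R A : Type u) [CommRing R] [IsDomain R] [Ring A] [Algebra R A] [StarRing A] [SA R A]
    (ε : ℤˣ) (W : FM R A R R) (N : Submodule R W.M) (s c g γ κ : W.M →ₗ[R] W.M) (F : R),
    W.Sp ε → W.Isot N → F ≠ 0 → Eqv W.toRM W.toRM s → Eqv W.toRM W.toRM c →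
    Eqv W.toRM W.toRM κ → (∀ u v, W.b (s u) v = W.b u (s v)) →
    (∀ u v, W.b (c u) v = W.b u (c v)) → (∀ u v, W.b (γ u) v = W.b u (γ v)) →
    (∀ u, s (c u) = c (s u)) → (∀ n ∈ N, s n ∈ N) → (∀ n ∈ N, c n ∈ N) → (∀ u, κ u ∈ N) →
    (∀ n ∈ N, κ n = s n) → (∀ v ∈ W.perp N, s v ∈ N) → (∀ w, g w = w - s (c (s (s w)))) →
    (∀ w, γ (g w) = F • w) →
    ∃ Φ : W.M →ₗ[R] W.M, Eqv W.toRM W.toRM Φ ∧ (∀ z z', W.b (γ (Φ z)) (Φ z') = F * W.b z z') ∧
      (∀ z, ∃ n ∈ N, Φ z = n + g z) ∧ ∀ n ∈ N, ∀ w, ∃ z, Φ z = n + g w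

def S_MidG : Prop :=
  ∀ (R A : Type u) [CommRing R] [IsDomain R] [Ring A] [Algebra R A] [StarRing A] [SA R A]
    (ε : ℤˣ) (H W : FM R A R R) (π₀ : H.M →ₗ[R] H.M) (π g γ : W.M →ₗ[R] W.M)
    (i : H.M →ₗ[R] W.M) (F : R), H.Sp ε → W.Sp ε → H.IsProj π₀ → W.IsProj π → F ≠ 0 →
    Eqv H.toRM W.toRM i → Eqv W.toRM W.toRM g → (∀ u v, W.b (γ u) v = W.b u (γ v)) →
    (∀ w, g (γ w) = F • w) → (∀ w, γ (g w) = F • w) → (∀ w, π (g w) = g (π w)) →
    (∀ v, π (i v) = i (π₀ v)) → (∀ v v', F ∣ W.b (γ (i v)) (i v') - H.b v v') →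
    (∀ w, ∃ v w', w = i v + g w') →
    ∃ b : (H.M × W.M) →ₗ[R] (H.M × W.M) →ₗ[R] R,
      (FM.mk (H.toRM.prod W.toRM) b).Sp ε ∧ (FM.mk (H.toRM.prod W.toRM) b).Hyp ∧
      ∀ z z' : H.M × W.M,
        F * b z z' = W.b (γ (i z.1 + g z.2)) (i z'.1 + g z'.2) - H.b z.1 z'.1

/-- reduction along a coisotropic summand -/
def S_SubLag : Prop :=
  ∀ (R A : Type u) [CommRing R] [Ring A] [Algebra R A] [StarRing A] [SA R A] (ε : ℤˣ)
    (Z Y : FM R A R R) (X : RM R A R) (i : X.M →ₗ[R] Z.M) (p : Z.M →ₗ[R] X.M)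
    (r : X.M →ₗ[R] Y.M), Z.Sp ε → Y.Sp ε → Y.Hyp → Eqv X Z.toRM i → Eqv X Y.toRM r →
    (∀ x, p (i x) = x) → Surjective r → (∀ x x', Y.b (r x) (r x') = Z.b (i x) (i x')) →
    (∀ z, (∀ x, Z.b z (i x) = 0) → ∃ x, i x = z) → Z.Hyp

def S_Mid : Prop :=
  ∀ (R A : Type u) [CommRing R] [IsDomain R] [Ring A] [Algebra R A] [StarRing A] [SA R A]
    (ε : ℤˣ) (E H W : FM R A R R) (φ : E.M →ₗ[R] H.M) (ψ : H.M →ₗ[R] E.M) (π₀ : H.M →ₗ[R] H.M)
    (π g γ Φ : W.M →ₗ[R] W.M) (i : H.M →ₗ[R] W.M) (F : R), Sim ε E H φ ψ F → W.Sp ε →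
    H.IsProj π₀ → W.IsProj π → Eqv H.toRM W.toRM i → Eqv W.toRM W.toRM g →
    Eqv W.toRM W.toRM Φ → (∀ u v, W.b (γ u) v = W.b u (γ v)) →
    (∀ w, g (γ w) = F • w) → (∀ w, γ (g w) = F • w) → (∀ w, π (g w) = g (π w)) →
    (∀ v, π (i v) = i (π₀ v)) → (∀ v v', F ∣ W.b (γ (i v)) (i v') - H.b v v') →
    (∀ w, ∃ v w', w = i v + g w') → (∀ z z', W.b (γ (Φ z)) (Φ z') = F * W.b z z') →
    (∀ z, ∃ x w, Φ z = i (φ x) + g w) → (∀ x w, ∃ z, Φ z = i (φ x) + g w) → E.WNull ε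

def S_TrSp : Prop :=
  ∀ (R A T : Type u) [CommRing R] [Ring A] [Algebra R A] [StarRing A] [SA R A] [CommRing T]
    [Algebra R T] [Module.Free R T] [Module.Finite R T] (τ : T →ₗ[R] R) (ε : ℤˣ)
    (U : FM R A T T), PerfTr τ → U.Sp ε → (U.trf τ).Sp ε

def S_Hfm : Prop :=
  ∀ (R A : Type u) [CommRing R] [Ring A] [Algebra R A] [StarRing A] [SA R A] (δ : ℤˣ)
    (X : RM R A R), X.FF → ∃ (ι : Type) (_ : Fintype ι) (_ : DecidableEq ι) (ρ : MRep R A R ι),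
      (X.hyp (-δ)).Iso (ρ.hfm δ)

def S_Post : Prop :=
  ∀ (R A T : Type u) [CommRing R] [IsDomain R] [IsLocalRing R] [Ring A] [Algebra R A]
    [StarRing A] [SA R A] [CommRing T] [Algebra R T] (τ : T →ₗ[R] R) (y y' : T) (ε : ℤˣ)
    (E H : FM R A R R) (φ : E.M →ₗ[R] H.M) (ψ : H.M →ₗ[R] E.M) (F : R) (π₀ : H.M →ₗ[R] H.M)
    (U : FM R A T T) (π : U.M →ₗ[T] U.M) (i : H.M →ₛₗ[algebraMap R T] U.M)
    (N : Submodule T U.M) (s : T) (κ : U.M →+ U.M) (e : U.M →ₗ[T] U.M), Sim ε E H φ ψ F →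
    Fr F τ y y' → H.IsProj π₀ → Post ε φ π₀ y U π i N s κ e → E.WNull ε

/-- a space which is hyperbolic away from a divisor with a geometric presentation -/
def S_SM : Prop :=
  ∀ (R A : Type u) [CommRing R] [IsDomain R] [IsLocalRing R] [IsNoetherianRing R] [Ring A]
    [Algebra R A] [StarRing A] [SA R A] (ε : ℤˣ) (E : FM R A R R) (X : RM R A R)
    (φ : E.M →ₗ[R] (X.hyp ε).M) (F r : R), E.Sp ε → X.FF → Eqv E.toRM (X.hyp ε).toRM φ →
    (∀ x x', (X.hyp ε).b (φ x) (φ x') = F * E.b x x') → F ≠ 0 → r ≠ 0 →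
    (∀ v, ∃ x, φ x = r • v) → Geo F → E.WNull ε

def S_Herm2 : Prop :=
  ∀ (R A : Type u) [CommRing R] [IsDomain R] [IsLocalRing R] [IsNoetherianRing R] [Ring A]
    [Algebra R A] [StarRing A] [SA R A] (τ : A →ₗ[R] R) (ε : ℤˣ), Trc τ ε → Rk R A →
    ∀ (h : Aˣ) (c c' : A) (d d' : R), star (h : A) = h → d ≠ 0 → d' ≠ 0 →
    c * star c = (d * d) • (h : A) → c' * c = algebraMap R A d' → Geo (d * d) →
    ∃ a : Aˣ, (a : A) * star (a : A) = h

/-! ### change of the ground ring -/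

def S_Bcg : Prop :=
  ∀ (R A O : Type u) [CommRing R] [Ring A] [Algebra R A] [StarRing A] [SA R A] [CommRing O]
    [Algebra R O], letI := bcStar R A O
    SA O (O ⊗[R] A) ∧ ∀ (τ : A →ₗ[R] R) (ε : ℤˣ), Trc τ ε → ∃ τ' : O ⊗[R] A →ₗ[O] O, Trc τ' ε

def S_GA0 : Prop :=
  ∀ (R S A : Type u) [CommRing R] [IsLocalRing R] [CommRing S] [Algebra R S] [Ring A]
    [Algebra S A] [Algebra R A] [StarRing A], AzI R S A → GA R S A

def S_Rk2 : Prop :=
  ∀ (R S A : Type u) [CommRing R] [IsLocalRing R] [CommRing S] [Algebra R S] [Ring A]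
    [Algebra S A] [Algebra R A] [StarRing A] [SA R A], GA R S A → Rk R A

def S_GAbc : Prop :=
  ∀ (R S A O : Type u) [CommRing R] [CommRing S] [Algebra R S] [Ring A] [Algebra S A]
    [Algebra R A] [CommRing O] [Algebra R O], GA R S A → IsDomain (O ⊗[R] S) →
    ∃ _ : Algebra (O ⊗[R] S) (O ⊗[R] A), GA O (O ⊗[R] S) (O ⊗[R] A)

def S_DomL : Prop :=
  ∀ (R S O : Type u) [CommRing R] [CommRing S] [IsDomain S] [Algebra R S] [Module.Free R S]
    [CommRing O] [Algebra R O],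
    (∀ (M : Submonoid R) [IsLocalization M O], M ≤ nonZeroDivisors R → IsDomain (O ⊗[R] S)) ∧
    ∀ [Algebra R[X] O] [IsScalarTower R R[X] O] (M : Submonoid R[X]) [IsLocalization M O],
      M ≤ nonZeroDivisors R[X] → IsDomain (O ⊗[R] S)

def S_RegUp : Prop :=
  ∀ (R : Type u) [CommRing R] [IsRegularLocalRing R] (e : ℕ), ringKrullDim R = e →
    ∀ (O : Type u) [CommRing O] [Algebra R[X] O]
      [IsLocalization.AtPrime O ((maximalIdeal R).comap (evalRingHom (0 : R)))],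
      IsRegularLocalRing O ∧ ringKrullDim O = (e + 1 : ℕ)

def S_HDown : Prop :=
  ∀ (R A O : Type u) [CommRing R] [Ring A] [Algebra R A] [StarRing A] [SA R A] [CommRing O]
    [Algebra R O] (_ : O →ₐ[R] R), letI := bcStar R A O
    HermN O (O ⊗[R] A) → HermN R A

def S_HLoc : Prop :=
  ∀ (R A O : Type u) [CommRing R] [IsDomain R] [Ring A] [Algebra R A] [StarRing A] [SA R A]
    (p : Ideal R) [p.IsPrime] [CommRing O] [Algebra R O] [IsLocalization.AtPrime O p],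
    letI := bcStar R A O
    HermN O (O ⊗[R] A) → ∀ (h : Aˣ) (c c' : A) (d d' : R), star (h : A) = h → d ≠ 0 → d' ≠ 0 →
      c * star c = (d * d) • (h : A) → c' * c = algebraMap R A d' → c * c' = algebraMap R A d' →
      ∃ (c c' : A) (d d' : R), d ∉ p ∧ d' ∉ p ∧ c * star c = (d * d) • (h : A) ∧
        c' * c = algebraMap R A d' ∧ c * c' = algebraMap R A d'

end Pool.Agent.P.MP_46a8f8_ag.GU
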