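import Pool.Agent.P.MP_46a8f8_ag.Tor2

/-!
The neutral component of the unitary group of an algebra with involution, and torsors under it.
-/

namespace Pool.Agent.P.MP_46a8f8_ag.GU

open TensorProduct

universe u

/-- the normalisation of the domain `D` is a finite `D`-module -/
def FinNorm (D : Type u) [CommRing D] : Prop :=
  Module.Finite D (integralClosure D (FractionRing D))

variable {R A : Type u} [CommRing R] [Ring A] [Algebra R A]

/-- `σ` is an involution: `σ (x y) = σ y σ x` and `σ (σ x) = x` -/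
def IsInvol (σ : A →ₗ[R] A) : Prop :=
  (∀ x y, σ (x * y) = σ y * σ x) ∧ ∀ x, σ (σ x) = x

/-- the extension `1 ⊗ σ` of `σ` to `T ⊗ A` -/
noncomputable def conj (σ : A →ₗ[R] A) {T : Type u} [CommRing T] [Algebra R T] (x : T ⊗[R] A) :
    T ⊗[R] A :=
  σ.lTensor T x

/-- `g σ(g) = σ(g) g = 1` -/
def IsUni (σ : A →ₗ[R] A) {T : Type u} [CommRing T] [Algebra R T] (g : T ⊗[R] A) : Prop :=
  g * conj σ g = 1 ∧ conj σ g * g = 1

/-- The set `U⁰(A,σ)(T)`: the unitary elements of `T ⊗ A` which have determinant one in every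
splitting `T' ⊗ A ≃ Mₙ(T')` over every `T`-algebra `T'`. -/
def UZero (σ : A →ₗ[R] A) (T : Type u) [CommRing T] [Algebra R T] : Type u :=
  {g : T ⊗[R] A // IsUni σ g ∧ ∀ (T' : Type u) [CommRing T'] [Algebra R T'] (f : T →ₐ[R] T'),
    DetOne A (baseMap A f g)}

/-- For each commutative `R`-algebra `T`, a map `U⁰(A,σ)(T) × (Spec O)(T) → (Spec O)(T)`. -/
def ZAction (σ : A →ₗ[R] A) (O : Type u) [CommRing O] [Algebra R O] : Type (u + 1) :=
  ∀ (T : Type u) [CommRing T] [Algebra R T], UZero σ T → (O →ₐ[R] T) → (O →ₐ[R] T)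

variable {σ : A →ₗ[R] A} {O : Type u} [CommRing O] [Algebra R O]

/-- `1 • p = p` -/
def ZAction.One (a : ZAction σ O) : Prop :=
  ∀ (T : Type u) [CommRing T] [Algebra R T] (g : UZero σ T) (p : O →ₐ[R] T), g.1 = 1 → a T g p = p

/-- `(g h) • p = g • h • p` -/
def ZAction.Mul (a : ZAction σ O) : Prop :=
  ∀ (T : Type u) [CommRing T] [Algebra R T] (g h k : UZero σ T) (p : O →ₐ[R] T),
    k.1 = g.1 * h.1 → a T k p = a T g (a T h p)

/-- the action is natural in `T` -/
def ZAction.Natural (a : ZAction σ O) : Prop :=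
  ∀ (T T' : Type u) [CommRing T] [Algebra R T] [CommRing T'] [Algebra R T'] (f : T →ₐ[R] T')
    (g : UZero σ T) (g' : UZero σ T') (p : O →ₐ[R] T),
    g'.1 = baseMap A f g.1 → f.comp (a T g p) = a T' g' (f.comp p)

/-- the action is simply transitive -/
def ZAction.SimplyTransitive (a : ZAction σ O) : Prop :=
  ∀ (T : Type u) [CommRing T] [Algebra R T] (p q : O →ₐ[R] T), ∃! g : UZero σ T, a T g p = q

variable (σ O) in
/-- `Spec O` is a `U⁰(A,σ)`-torsor over `R`: `O` is faithfully flat over `R`, and for every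
commutative `R`-algebra `T` the group `U⁰(A,σ)(T)` acts simply transitively on the set of
`T`-points of `Spec O`, naturally in `T`. -/
def IsZTorsor : Prop :=
  Module.FaithfullyFlat R O ∧
    ∃ a : ZAction σ O, a.One ∧ a.Mul ∧ a.Natural ∧ a.SimplyTransitive

end Pool.Agent.P.MP_46a8f8_ag.GU
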