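import Pool.Agent.P.MP_46a8f8_ag.GU.Sm
import Pool.Agent.P.MP_46a8f8_ag.GU.Tor3
import Pool.Agent.P.MP_46a8f8_ag.St2

/-!
Statements for the neutral component of the unitary group.
-/

namespace Pool.Agent.P.MP_46a8f8_ag.GU

open TensorProduct Function Matrix IsLocalRing

universe u

/-- some perfect form over the field `L` has a dimension which is not divisible by `m` -/
def PF (R A : Type u) [CommRing R] [Ring A] [Algebra R A] [StarRing A] (ε : ℤˣ) (m : ℕ)
    (L : Type u) [Field L] [Algebra R L] : Prop :=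
  ∃ W : FM R A L L, W.Good ε ∧ W.Perf ∧ ¬ m ∣ Module.finrank L W.M

/-- a minimal nonzero stable submodule -/
def RM.Min {R A C : Type u} [CommRing R] [Ring A] [Algebra R A] [CommRing C] [Algebra R C]
    (X : RM R A C) (U : Submodule C X.M) : Prop :=
  X.Stab U ∧ U ≠ ⊥ ∧ ∀ U', X.Stab U' → U' ≤ U → U' = ⊥ ∨ U' = U

/-- every nonzero perfect form is not zero on some simple submodule -/
def NAlt (R A : Type u) [CommRing R] [Ring A] [Algebra R A] [StarRing A] (ε : ℤˣ)
    (k : Type u) [Field k] [Algebra R k] : Prop :=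
  ∀ V : FM R A k k, V.Good ε → V.Perf → Nontrivial V.M → ∃ U, V.toRM.Min U ∧ ¬ V.Isot U

/-- a unitary trivialisation can be moved into the neutral component -/
def Adj {R A : Type u} [CommRing R] [Ring A] [Algebra R A] (σ : A →ₗ[R] A) (K : Type u)
    [CommRing K] [Algebra R K] : Prop :=
  ∀ (O : Type u) [CommRing O] [Algebra R O] [Module.FaithfullyFlat R O] (x : O ⊗[R] A)
    (c : UZero σ (O ⊗[R] O)) (_ : O →ₐ[R] K), IsUni σ x →
    mp A (Algebra.TensorProduct.includeLeft : O →ₐ[R] O ⊗[R] O) x =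
      mp A (Algebra.TensorProduct.includeRight : O →ₐ[R] O ⊗[R] O) x * c.1 →
    ∃ u : A, u * σ u = 1 ∧ σ u * u = 1 ∧ ∀ (T : Type u) [CommRing T] [Algebra R T]
      (f : O →ₐ[R] T), DetOne A (baseMap A f (((1 : O) ⊗ₜ[R] u) * x))

def S_NSt : Prop :=
  ∀ (R A Ω : Type u) [CommRing R] [Ring A] [Algebra R A] [StarRing A] [SA R A] [Field Ω]
    [Algebra R Ω] (n : ℕ) (Φ : A →ₐ[R] Matrix (Fin n) (Fin n) Ω), Setup R A Ω n Φ →
    ∀ x : A, (Φ (star x)).det = (Φ x).det

def S_IRk : Prop :=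
  ∀ (R A Ω : Type u) [CommRing R] [Ring A] [Algebra R A] [Field Ω] [Algebra R Ω] (n : ℕ)
    (Φ : A →ₐ[R] Matrix (Fin n) (Fin n) Ω), Setup R A Ω n Φ → ∀ e : A, e * e = e →
    Module.Free R (LinearMap.range (LinearMap.mulRight R e)) →
    ∃ r : ℕ, Module.finrank R (LinearMap.range (LinearMap.mulRight R e)) = n * r ∧
      (Φ (1 - 2 * e)).det = (-1) ^ r

def S_Fit : Prop :=
  ∀ (K A : Type u) [Field K] [Ring A] [Algebra K A] [StarRing A] [Module.Finite K A],
    (2 : K) ≠ 0 → ∀ g : A, g * star g = 1 → star g * g = 1 →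
    ∃ e : A, e * e = e ∧ star e = e ∧ e * g = g * e ∧ IsUnit (1 + g * (1 - 2 * e))

/-- an improper isometry over the fraction field gives a form of odd reduced rank -/
def S_Gen : Prop :=
  ∀ (R A Ω : Type u) [CommRing R] [IsDomain R] [Ring A] [Algebra R A] [StarRing A] [SA R A]
    [Field Ω] [Algebra R Ω] (n : ℕ) (Φ : A →ₐ[R] Matrix (Fin n) (Fin n) Ω) (τ : A →ₗ[R] R)
    (ε : ℤˣ) (c : A) (d : R), Setup R A Ω n Φ → Trc τ ε → d ≠ 0 →
    c * star c = algebraMap R A (d * d) → star c * c = algebraMap R A (d * d) →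
    (Φ c).det = -algebraMap R Ω d ^ n →
    PF R A ε (2 * n) (FractionRing R) ∧
      ∃ X : RM R A R, Module.Finite R X.M ∧ ¬ 2 * n ∣ Module.finrank R X.M

def S_Lat2 : Prop :=
  ∀ (R A D L : Type u) [CommRing R] [Ring A] [Algebra R A] [StarRing A] [SA R A] [CommRing D]
    [IsDomain D] [IsPrincipalIdealRing D] [Algebra R D] [Field L] [Algebra R L] [Algebra D L]
    [IsScalarTower R D L] [IsFractionRing D L] (ε : ℤˣ) (W : FM R A L L), W.Good ε → W.Perf →
    ∃ W' : FM R A D D, W'.Good ε ∧ Module.Free D W'.M ∧ Injective W'.b ∧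
      Module.finrank D W'.M = Module.finrank L W.M

def S_RkM : Prop :=
  ∀ (R A k : Type u) [CommRing R] [Ring A] [Algebra R A] [StarRing A] [SA R A] [Field k]
    [Algebra R k] (ι : Type) [Fintype ι] [DecidableEq ι] (ρ : MRep R A k ι) (δ : ℤˣ)
    (l : Matrix ι ι k), SymAdj δ ρ l →
    ∃ W : FM R A k k, W.Good δ ∧ W.Perf ∧ Module.finrank k W.M = l.rank

def S_Res2 : Prop :=
  ∀ (R A D k : Type u) [CommRing R] [Ring A] [Algebra R A] [StarRing A] [SA R A] [CommRing D]
    [IsDomain D] [IsDiscreteValuationRing D] [Algebra R D] [Field k] [Algebra R k]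
    (q : D →ₐ[R] k) (ε : ℤˣ) (m : ℕ) (W : FM R A D D), Surjective q →
    (∀ d, q d = 0 ↔ d ∈ maximalIdeal D) → W.Good ε → Module.Free D W.M → Injective W.b →
    ¬ m ∣ Module.finrank D W.M → PF R A ε m k

def S_Chain2 : Prop :=
  ∀ (R A : Type u) [CommRing R] [Ring A] [Algebra R A] [StarRing A] [SA R A] (ε : ℤˣ) (m : ℕ)
    (O L k : Type u) [CommRing O] [IsRegularLocalRing O] [Algebra R O] [Field L] [Algebra R L]
    [Algebra O L] [IsScalarTower R O L] [IsFractionRing O L] [Field k] [Algebra R k]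
    (q : O →ₐ[R] k), Surjective q → PF R A ε m L → PF R A ε m k

def S_Div : Prop :=
  ∀ (R A k : Type u) [CommRing R] [Ring A] [Algebra R A] [Module.Free R A] [Module.Finite R A]
    [Field k] [Algebra R k] (n : ℕ) (X : RM R A k), Az R A → Module.finrank R A = n ^ 2 →
    Module.Finite k X.M → n ∣ Module.finrank k X.M

/-- simple modules over the residue field are isomorphic -/
def S_Schur : Prop :=
  ∀ (R A k : Type u) [CommRing R] [Ring A] [Algebra R A] [Field k] [Algebra R k]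
    (X Y : RM R A k) (U : Submodule k X.M) (U' : Submodule k Y.M) (h : X.Min U) (h' : Y.Min U'),
    Az R A → Surjective (algebraMap R k) → (X.sub U h.1).Iso (Y.sub U' h'.1)

def S_Dg1 : Prop :=
  ∀ (R A k : Type u) [CommRing R] [Ring A] [Algebra R A] [StarRing A] [SA R A] [Field k]
    [Algebra R k] (ε : ℤˣ) (n : ℕ), Az R A → Surjective (algebraMap R k) →
    (∀ X : RM R A k, Module.Finite k X.M → n ∣ Module.finrank k X.M) →
    PF R A ε (2 * n) k → NAlt R A ε k

def S_Dg2 : Prop :=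
  ∀ (R A k : Type u) [CommRing R] [Ring A] [Algebra R A] [StarRing A] [SA R A] [Field k]
    [Algebra R k] (ε : ℤˣ) (X : RM R A k) (V : FM R A k k), Az R A →
    Surjective (algebraMap R k) → NAlt R A ε k → Module.Finite k X.M → V.Good ε → V.Perf →
    Module.finrank k X.M ≤ Module.finrank k V.M →
    ∃ f : X.M →ₗ[k] V.M, Eqv X V.toRM f ∧ ∀ x, (∀ x', V.b (f x) (f x') = 0) → x = 0

def S_K0 : Prop :=
  ∀ (R A : Type u) [CommRing R] [IsRegularLocalRing R] [Ring A] [Algebra R A] [StarRing A]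
    [SA R A] (m : ℕ) (X : RM R A R), m ∣ Module.finrank R A → Module.Finite R X.M →
    ¬ m ∣ Module.finrank R X.M → ∃ X' : RM R A R, X'.FF ∧ ¬ m ∣ Module.finrank R X'.M

def S_Euc : Prop :=
  ∀ (R A : Type u) [CommRing R] [IsLocalRing R] [IsNoetherianRing R] [Ring A] [Algebra R A]
    [StarRing A] [SA R A] (m : ℕ) (X : RM R A R), Az R A → m ∣ Module.finrank R A → X.FF →
    ¬ m ∣ Module.finrank R X.M → ∃ X' : RM R A R, X'.FF ∧ ¬ m ∣ Module.finrank R X'.M ∧
      Module.finrank R X'.M ≤ Module.finrank R A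

def S_LiftE : Prop :=
  ∀ (R A : Type u) [CommRing R] [IsLocalRing R] [Ring A] [Algebra R A] [StarRing A] [SA R A]
    (τ : A →ₗ[R] R) (ε : ℤˣ) (X : RM R A R)
    (f : (X.bc (ResidueField R)).M →ₗ[ResidueField R] ((HermP.Eh τ (1 : A)).bc (ResidueField R)).M),
    Trc τ ε → X.FF → Eqv (X.bc (ResidueField R)) ((HermP.Eh τ (1 : A)).bc (ResidueField R)).toRM f →
    (∀ x, (∀ x', ((HermP.Eh τ (1 : A)).bc (ResidueField R)).b (f x) (f x') = 0) → x = 0) →
    ∃ e : A, e * e = e ∧ star e = e ∧ Module.Free R (LinearMap.range (LinearMap.mulRight R e)) ∧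
      Module.finrank R (LinearMap.range (LinearMap.mulRight R e)) = Module.finrank R X.M

/-- an improper isometry over the fraction field gives one over the ring -/
def S_Imp : Prop :=
  ∀ (R A Ω : Type u) [CommRing R] [IsRegularLocalRing R] [Ring A] [Algebra R A] [StarRing A]
    [SA R A] [Field Ω] [Algebra R Ω] (n : ℕ) (Φ : A →ₐ[R] Matrix (Fin n) (Fin n) Ω)
    (τ : A →ₗ[R] R) (ε : ℤˣ) (c : A) (d : R), Setup R A Ω n Φ → Trc τ ε → d ≠ 0 →
    c * star c = algebraMap R A (d * d) → star c * c = algebraMap R A (d * d) →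
    (Φ c).det = -algebraMap R Ω d ^ n →
    ∃ u : A, u * star u = 1 ∧ star u * u = 1 ∧ (Φ u).det = -1

def S_AdjO : Prop :=
  ∀ (R A : Type u) [CommRing R] [IsRegularLocalRing R] [Ring A] [Algebra R A] [StarRing A]
    [SA R A] (σ : A →ₗ[R] A) (τ : A →ₗ[R] R) (ε : ℤˣ) (K : Type u) [Field K] [Algebra R K]
    [IsFractionRing R K], (∀ x, σ x = star x) → Az R A → Trc τ ε → Adj σ K

def S_AdjU : Prop :=
  ∀ (R S A : Type u) [CommRing R] [IsLocalRing R] [CommRing S] [Algebra R S] [Ring A]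
    [Algebra S A] [Algebra R A] [StarRing A], AzI R S A → ¬ Surjective (algebraMap R S) →
    ∀ (T : Type u) [CommRing T] [Algebra R T] (x : T ⊗[R] A), DetOne A x

def S_AzR : Prop :=
  ∀ (R S A : Type u) [CommRing R] [CommRing S] [Algebra R S] [Ring A] [Algebra S A]
    [Algebra R A] [IsScalarTower R S A], Surjective (algebraMap R S) → Az S A → Az R A

def S_Tor0 : Prop :=
  ∀ (R A : Type u) [CommRing R] [IsDomain R] [IsLocalRing R] [IsNoetherianRing R] [Ring A]
    [Algebra R A] [StarRing A] [SA R A] (σ : A →ₗ[R] A), (∀ x, σ x = star x) → Rk R A →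
    HermN R A → ∀ (K : Type u) [Field K] [Algebra R K] [IsFractionRing R K], Adj σ K →
    ∀ (O : Type u) [CommRing O] [Algebra R O], IsZTorsor σ O → Nonempty (O →ₐ[R] K) →
    Nonempty (O →ₐ[R] R)

end Pool.Agent.P.MP_46a8f8_ag.GU
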