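import Pool.Agent.P.MP_46a8f8_ag.GU.SpBase

/-!
Statements for the spin groups.
-/

namespace Pool.Agent.P.MP_46a8f8_ag.GU

open TensorProduct Function IsLocalRing Polynomial

universe u

/-! ### general tools -/

def S_Avm : Prop :=
  ∀ (D : Type u) [CommRing D] (ι : Type) [Finite ι] (κ : Type u) [Finite κ] (F : κ → Type u)
    [∀ k, CommRing (F k)] [∀ k, IsDomain (F k)] (φ : ∀ k, D →+* F k)
    (Ψ : ∀ k, MvPolynomial ι (F k)), Lam D → (∀ k, Ψ k ≠ 0) →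
    ∃ w : ι → D, ∀ k, MvPolynomial.eval (φ k ∘ w) (Ψ k) ≠ 0

def S_Av1 : Prop :=
  ∀ (D : Type u) [CommRing D] (κ : Type u) [Finite κ] (p : κ → Ideal D) (Ψ : κ → D[X]), Lam D →
    (∀ k, (p k).IsPrime) → (∀ k, ∃ i, (Ψ k).coeff i ∉ p k) → ∃ a : D, ∀ k, (Ψ k).eval a ∉ p k

def S_Uu : Prop :=
  ∀ (S : Type u) [CommRing S] [Finite (MaximalSpectrum S)] (n : ℕ) (c Y : Ix n → S) (α : S),
    Ok2 c → qv c Y = 0 → IsUnit α →
    Sn (Ideal.Quotient.mk (ct Y) ∘ c) (Ideal.Quotient.mk (ct Y) α) → Sn c α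

def S_Ap0 : Prop :=
  ∀ (D : Type u) [CommRing D] [IsNoetherianRing D] (n : ℕ) (c : Ix n → D), Ok2 c →
    (∀ p ∈ minimalPrimes D, IsoAt c p) → ∃ y, qv c y = 0 ∧ ∀ p ∈ minimalPrimes D, ¬ ct y ≤ p

def S_Rcp : Prop :=
  ∀ (R : Type u) [CommRing R] (f g : R[X]), f.Monic → g.Monic →
    Algebra.norm R (AdjoinRoot.mk f g) =
      (-1) ^ (f.natDegree * g.natDegree) * Algebra.norm R (AdjoinRoot.mk g f)

def S_Hn : Prop :=
  ∀ (R : Type u) [CommRing R] (G : R[X]) (s t : R), G.Monic →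
    Algebra.norm R (AdjoinRoot.mk G (Yp s t)) = (-1) ^ G.natDegree * hv s t G.natDegree G

def S_Loc : Prop :=
  ∀ (R O : Type u) [CommRing R] [CommRing O] [Algebra R O] (M : Submonoid R) [IsLocalization M O]
    (n : ℕ) (c : Ix n → R) (u : R), M ≤ nonZeroDivisors R →
    Sn (algebraMap R O ∘ c) (algebraMap R O u) → ∃ l, ∃ z ∈ M, vp c l = u * z ^ 2

def S_Nz : Prop :=
  ∀ (R S : Type u) [CommRing R] [CommRing S] [Algebra R S] [Module.Free R S] [Module.Finite R S]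
    (α : S), (IsUnit (Algebra.norm R α) → IsUnit α) ∧
      (Algebra.norm R α ∈ nonZeroDivisors R → α ∈ nonZeroDivisors S)

/-! ### the norm principle -/

def S_F2i : Prop :=
  ∀ (k : Type u) [Field k] (n : ℕ) (c : Ix n → k) (χ : k[X]), Ok2 c → Iso c → χ.Monic →
    2 ≤ χ.natDegree → χ.coeff 0 ≠ 0 → Gd c χ

def S_F2a : Prop :=
  ∀ (k : Type u) [Field k] [Infinite k] (n : ℕ) (c : Ix n → k) (χ : k[X]) (p : Ix n → k[X]),
    Ok2 c → ¬ Iso c → χ.Monic → 2 ≤ χ.natDegree → χ.coeff 0 ≠ 0 → χ ∣ vl (C ∘ c) p - X → Gd c χ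

def S_CW : Prop :=
  ∀ (k : Type u) [Field k] [Finite k] (n : ℕ) (c : Ix n → k), Ok2 c → Iso c

def S_F2 : Prop :=
  ∀ (k : Type u) [Field k] (n : ℕ) (c : Ix n → k) (χ : k[X]) (p : Ix n → k[X]),
    Ok2 c → χ.Monic → 2 ≤ χ.natDegree → χ.coeff 0 ≠ 0 → χ ∣ vl (C ∘ c) p - X → Gd c χ

def S_Wt : Prop :=
  ∀ (S : Type u) [CommRing S] [Finite (MaximalSpectrum S)] (n : ℕ) (c x z : Ix n → S)
    (I : Ideal S), Ok2 c → IsUnit (qv c x) → qv c z - qv c x ∈ I →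
    ∃ x', qv c x' = qv c x ∧ ∀ i, x' i - z i ∈ I

def S_Cl : Prop :=
  ∀ (R : Type u) [CommRing R] [Finite (MaximalSpectrum R)] (n : ℕ) (c : Ix n → R) (χ : R[X])
    (p : Ix n → R[X]), Ok2 c → χ.Monic → IsUnit (χ.coeff 0) → χ ∣ vl (C ∘ c) p - X →
    Sn c ((-1) ^ χ.natDegree * χ.coeff 0)

def S_NP0 : Prop :=
  ∀ (R S : Type u) [CommRing R] [Finite (MaximalSpectrum R)] [CommRing S] [Algebra R S]
    [Module.Free R S] [Module.Finite R S] (n : ℕ) (c : Ix n → R) (x : Ix n → S), Ok2 c →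
    IsUnit (qv (algebraMap R S ∘ c) x) → Algebra.adjoin R {vl (algebraMap R S ∘ c) x} = ⊤ →
    Sn c (Algebra.norm R (vl (algebraMap R S ∘ c) x))

def S_Gna : Prop :=
  ∀ (K : Type u) [Field K] [IsAlgClosed K] (f : K[X]) (α : AdjoinRoot f), (2 : K) ≠ 0 → f.Monic →
    IsUnit α → ∃ β, IsUnit β ∧ Algebra.adjoin K {α * β ^ 2} = ⊤

def S_Gn : Prop :=
  ∀ (R : Type u) [CommRing R] [Finite (MaximalSpectrum R)] (f : R[X]) (α : AdjoinRoot f), Lam R →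
    IsUnit (2 : R) → f.Monic → IsUnit α → ∃ β, IsUnit β ∧ Algebra.adjoin R {α * β ^ 2} = ⊤

def S_Gnp : Prop :=
  ∀ (R : Type u) [CommRing R] [IsLocalRing R] (f : R[X]) (α : AdjoinRoot f), f.Monic →
    f.natDegree.Prime → Odd f.natDegree → Irreducible (f.map (residue R)) → IsUnit α →
    ∃ β, IsUnit β ∧ Algebra.adjoin R {α * β ^ 2} = ⊤

/-- the norm principle for one algebra -/
def NPf {R : Type u} [CommRing R] {n : ℕ} (c : Ix n → R) (f : R[X]) : Prop :=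
  ∀ α : AdjoinRoot f, Sn (algebraMap R (AdjoinRoot f) ∘ c) α → Sn c (Algebra.norm R α)

def S_NPi : Prop :=
  ∀ (R : Type u) [CommRing R] [Finite (MaximalSpectrum R)] (n : ℕ) (c : Ix n → R) (f : R[X]),
    Lam R → Ok2 c → f.Monic → NPf c f

def S_NPo : Prop :=
  ∀ (R : Type u) [CommRing R] [IsLocalRing R] (n : ℕ) (c : Ix n → R) (f : R[X]), Ok2 c → f.Monic →
    f.natDegree.Prime → Odd f.natDegree → Irreducible (f.map (residue R)) → NPf c f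

def S_Dsc : Prop :=
  ∀ (R : Type u) [CommRing R] [IsLocalRing R] [Finite (ResidueField R)] (n : ℕ) (c : Ix n → R)
    (l : List (Ix n → R[X])) (u : R) (z : R[X]), Ok2 c → IsUnit u →
    z ∉ (maximalIdeal R).map (C : R →+* R[X]) → vp (C ∘ c) l = C u * z ^ 2 → Sn c u

/-! ### dimension two, the isotropic case -/

def S_Ap1 : Prop :=
  ∀ (D : Type u) [CommRing D] [IsNoetherianRing D] [Finite (MaximalSpectrum D)] (n : ℕ)
    (c y : Ix n → D), ringKrullDim D ≤ 1 → Lam D → Ok2 c →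
    (∀ m : Ideal D, m.IsMaximal → IsoAt c m) → qv c y = 0 →
    (∀ p ∈ minimalPrimes D, ¬ ct y ≤ p) → Iso c

def S_Ap2 : Prop :=
  ∀ (R : Type u) [CommRing R] [Finite (MaximalSpectrum R)] (n : ℕ) (c : Ix n → R) (P : R),
    Ok2 c → Iso (Ideal.Quotient.mk (Ideal.span {P}) ∘ c) →
    ∃ x w ε, IsUnit ε ∧ qv c x = P * ε ∧ IsUnit (bv c x w ^ 2 - 4 * qv c x * qv c w)

def S_Z1a : Prop :=
  ∀ (R : Type u) [CommRing R] [Finite (MaximalSpectrum R)] (A B D : R),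
    IsUnit (B ^ 2 - 4 * A * D) → A ∈ nonZeroDivisors R →
    ∃ ϖ : R → QuadraticAlgebra R (-(A * D)) B,
      (∀ d, d ∣ A → Ideal.span {ϖ d} = Ideal.span {algebraMap R _ d, QuadraticAlgebra.omega} ∧
        Associated (QuadraticAlgebra.norm (ϖ d)) d) ∧
      ∀ d d', d * d' ∣ A → Associated (ϖ d * ϖ d') (ϖ (d * d'))

def S_Z1 : Prop :=
  ∀ (R : Type u) [CommRing R] [Finite (MaximalSpectrum R)] (n : ℕ) (c x w : Ix n → R)
    (a : List R) (z : R), Ok2 c → IsUnit (bv c x w ^ 2 - 4 * qv c x * qv c w) →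
    qv c x ∈ nonZeroDivisors R → a.prod ∣ qv c x → Associated a.prod (z ^ 2) →
    ∃ l, List.Forall₂ (fun d y => ct y = ⊤ ∧ Associated d (qv c y)) a l ∧
      ∃ σ, Sn c σ ∧ vp c l = σ * z ^ 2

/-- the resultant of `q (y + X w₁)` and the linear polynomial `κ₀ + κ₁ X` -/
def rs {R : Type u} [CommRing R] {n : ℕ} (c x y w₁ w₂ : Ix n → R) (ε : R) : R :=
  qv c y * (qv c w₂ - ε * qv c w₁) ^ 2 -
    bv c y w₁ * (bv c x w₂ - ε * bv c y w₁) * (qv c w₂ - ε * qv c w₁) +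
    qv c w₁ * (bv c x w₂ - ε * bv c y w₁) ^ 2

def S_TwF : Prop :=
  ∀ (k : Type u) [Field k] [Infinite k] (n : ℕ) (c x y : Ix n → k) (ε : k), Ok2 c → x ≠ 0 →
    ε ≠ 0 → qv c x = ε * qv c y → ∃ w₁ w₂, qv c w₁ ≠ 0 ∧ w₁ 0 ≠ 0 ∧ qv c w₂ ≠ 0 ∧
      (y = 0 ∨ ¬ Pl y w₁ ⊥) ∧ ¬ Pl x w₂ ⊥ ∧ rs c x y w₁ w₂ ε ≠ 0

def S_Pert : Prop :=
  ∀ (R : Type u) [CommRing R] [IsNoetherianRing R] [Finite (MaximalSpectrum R)] (n : ℕ)
    (y w : Ix n → R), ringKrullDim R ≤ 2 → Lam R → Zd y → IsUnit (w 0) →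
    ∃ w' : Ix n → R, (∀ m : Ideal R, m.IsMaximal → ∀ i, w' i - w i ∈ m) ∧
      ∀ p : Ideal R, p.IsPrime → Pl y w' p → p.IsMaximal

def S_TwA : Prop :=
  ∀ (R : Type u) [CommRing R] [IsNoetherianRing R] [Finite (MaximalSpectrum R)] (n : ℕ)
    (c y w : Ix n → R) (g κ : R[X]), Lam R → Ok2 c → g.Monic → g ∣ qv (C ∘ c) (ln1 y w) →
    IsCoprime κ g → (∀ p : Ideal R, p.IsPrime → Pl y w p → p.IsMaximal ∧ IsoAt c p) →
    Sn c (Algebra.norm R (AdjoinRoot.mk g κ))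

def S_Two : Prop :=
  ∀ (R : Type u) [CommRing R] [IsNoetherianRing R] [Finite (MaximalSpectrum R)] (n : ℕ)
    (c x y : Ix n → R) (ε : R), ringKrullDim R ≤ 2 → Lam R → Ok2 c → ct x = ⊤ → IsUnit ε →
    qv c x = ε * qv c y → qv c y ∈ nonZeroDivisors R → Zd y →
    (∀ m : Ideal R, m.IsMaximal → ct y ≤ m → IsoAt c m) → Sn c ε

def S_Cs1 : Prop :=
  ∀ (R : Type u) [CommRing R] (n : ℕ) (c : Ix n → R) (l : List (Ix n → R)) (u z : R), Cf c l →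
    (∀ y ∈ l, Zd y) → (∀ m : Ideal R, m.IsMaximal → qp c l ∈ m → IsoAt c m) → IsUnit u →
    vp c l = u * z ^ 2 → Sn c u

/-! ### dimension two, the anisotropic case -/

def S_RS2 : Prop :=
  ∀ (R : Type u) [CommRing R] [IsNoetherianRing R] (m : Ideal R) (s t : R), PS m s t →
    RegAt R m 2 → Rq t s

def S_Prm : Prop :=
  ∀ (R : Type u) [CommRing R] [IsNoetherianRing R] [Finite (MaximalSpectrum R)] (n : ℕ)
    (m : Ideal R) (l : List (Ix n → R)), Lam R → m.IsMaximal → RegAt R m 2 →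
    (∀ y ∈ l, ∃ a ∈ ct y, a ∈ nonZeroDivisors R) → ∃ s t, PS m s t ∧
      ∀ y ∈ l, ∃ j, ct y ≤ m ^ j ∧ ¬ ct y ≤ Ideal.span {t} ⊔ m ^ (j + 1)

def S_LnA : Prop :=
  ∀ (R : Type u) [CommRing R] [Finite (MaximalSpectrum R)] (n : ℕ) (c y : Ix n → R) (m : Ideal R)
    (s t : R) (j : ℕ), Ok2 c → PS m s t → ¬ IsoAt c m → 0 < j → ct y ≤ m ^ j →
    ¬ ct y ≤ Ideal.span {t} ⊔ m ^ (j + 1) → ∃ p, Tp c p ∧ dg p = j ∧ hvv s t p = y

def S_LnB : Prop :=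
  ∀ (R : Type u) [CommRing R] (n : ℕ) (c : Ix n → R) (s t : R) (p : Ix n → R[X]), Ok2 c →
    Ideal.span {s, t} ≠ ⊤ → Rq t s → Tp c p → 0 < dg p → ln (hvv s t p) ≠ ⊤ →
    lp s t p < ln (hvv s t p)

def S_Trz : Prop :=
  ∀ (R : Type u) [CommRing R] [IsNoetherianRing R] [Finite (MaximalSpectrum R)] (n : ℕ)
    (c y : Ix n → R) (m : Ideal R) (s t : R), Lam R → Ok2 c → PS m s t → Rq t s → ¬ IsoAt c m →
    ¬ ct y ≤ m → ∃ p₁ p₂ σ ζ, Tp c p₁ ∧ Tp c p₂ ∧ Sn c σ ∧ ζ ∈ nonZeroDivisors R ∧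
      (∀ m' : Ideal R, m'.IsMaximal → ζ ∈ m' → m' = m) ∧
      vl c (hvv s t p₁) * vl c (hvv s t p₂) = vl c y * σ * ζ ^ 2 ∧ lp s t p₁ + lp s t p₂ ≤ ln y

def S_Rep : Prop :=
  ∀ (R : Type u) [CommRing R] [IsNoetherianRing R] [Finite (MaximalSpectrum R)] (n : ℕ)
    (c : Ix n → R) (l : List (Ix n → R)) (m : Ideal R) (s t : R), Lam R → Ok2 c → PS m s t →
    Rq t s → ¬ IsoAt c m → (l.map ln).sum ≠ ⊤ → qp c l ∈ m →
    (∀ y ∈ l, ∃ j, ct y ≤ m ^ j ∧ ¬ ct y ≤ Ideal.span {t} ⊔ m ^ (j + 1)) →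
    ∃ (L : List (Ix n → R[X])) (σ ζ : R), (∀ p ∈ L, Tp c p) ∧ 0 < (L.map dg).sum ∧ Sn c σ ∧
      ζ ∈ nonZeroDivisors R ∧ (∀ m' : Ideal R, m'.IsMaximal → ζ ∈ m' → m' = m) ∧
      vp c (L.map (hvv s t)) = vp c l * σ * ζ ^ 2 ∧ (L.map (lp s t)).sum < (l.map ln).sum

def S_BlR : Prop :=
  ∀ (R : Type u) [CommRing R] [IsNoetherianRing R] (m : Ideal R) (s t : R) (G : R[X]), PS m s t →
    Rq t s → G.Monic → 0 < G.natDegree →
    (∀ m' : Ideal R, m'.IsMaximal → hv s t G.natDegree G ∈ m' → RegAt R m' 2) →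
    ∀ N : Ideal (AdjoinRoot (G ^ 2 + Yp s t)), N.IsMaximal → AdjoinRoot.mk _ G ∈ N →
      RegAt (AdjoinRoot (G ^ 2 + Yp s t)) N 2

def S_BlZ : Prop :=
  ∀ (R : Type u) [CommRing R] (m : Ideal R) (s t w z : R) (G : R[X]) (e : ℕ)
    [Finite (MaximalSpectrum (AdjoinRoot (G ^ 2 + Yp s t)))], PS m s t → Rq t s →
    G.natDegree ≤ 2 * e → IsUnit w → hv s t (2 * e) G = w * z ^ 2 →
    AdjoinRoot.mk (G ^ 2 + Yp s t) G ∈ nonZeroDivisors (AdjoinRoot (G ^ 2 + Yp s t)) →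
    ∃ v ζ, IsUnit v ∧ AdjoinRoot.mk (G ^ 2 + Yp s t) G = v * ζ ^ 2

def S_BlL : Prop :=
  ∀ (R : Type u) [CommRing R] (n : ℕ) (s t : R) (f : R[X]) (p : Ix n → R[X]),
    f - Yp s t ∈ ct p → ln (AdjoinRoot.mk f ∘ p) ≤ lp s t p

def S_Nb : Prop :=
  ∀ (R : Type u) [CommRing R] [IsNoetherianRing R] (a b ε : R), IsUnit ε → a ^ 2 = ε * b ^ 2 →
    a ∈ nonZeroDivisors R → (∀ m : Ideal R, m.IsMaximal → a ∈ m → RegAt R m 2) → Associated a b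

def S_Cs2 : Prop :=
  ∀ (R : Type u) [CommRing R] (n : ℕ) (c : Ix n → R) (l : List (Ix n → R)) (u z : R)
    (m : Ideal R), Cf c l → (l.map ln).sum ≠ ⊤ → m.IsMaximal → qp c l ∈ m → ¬ IsoAt c m →
    IsUnit u → vp c l = u * z ^ 2 →
    (∀ (S : Type u) [CommRing S] (c' : Ix n → S) (l' : List (Ix n → S)) (u' z' : S), Cf c' l' →
      (l'.map ln).sum < (l.map ln).sum → IsUnit u' → vp c' l' = u' * z' ^ 2 → Sn c' u') → Sn c u

def S_Prim : Prop :=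
  ∀ (O : Type u) [CommRing O] [IsRegularLocalRing O] (n : ℕ) (c : Ix n → O)
    (l : List (Ix n → O)) (u z : O), ringKrullDim O ≤ 2 → Ok2 c → IsUnit u → z ≠ 0 →
    vp c l = u * z ^ 2 → ∃ l' z', z' ≠ 0 ∧ vp c l' = u * z' ^ 2 ∧ (l'.map ln).sum ≠ ⊤

/-! ### smooth algebras -/

def S_Pr1 : Prop :=
  ∀ (R T : Type u) [CommRing R] [IsLocalRing R] [CommRing T] [Algebra R T] (F : R) (g : T)
    (a : Localization (On g)), IsUnit (2 : R) → Prs F g → toW g g ∣ a - 1 →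
    ∃ (T' : Type u) (_ : CommRing T') (_ : Algebra R T') (g' : T')
      (φ : Localization (On g) →+* Localization (On g')) (ρ : Localization (On g')), Prs F g' ∧
      (∀ r, φ (toW g (algebraMap R T r)) = toW g' (algebraMap R T' r)) ∧
      toW g' g' ∣ φ (toW g g) ∧ ρ ^ 2 = φ a ∧ toW g' g' ∣ ρ - 1

def S_Pr0 : Prop :=
  ∀ (R T : Type u) [CommRing R] [IsLocalRing R] [CommRing T] [Algebra R T] (n : ℕ) (c : Ix n → R)
    (F : R) (g : T), Ok2 c → Prs F g → Sec F g →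
    ∃ (T' : Type u) (_ : CommRing T') (_ : Algebra R T') (g' : T')
      (j : R →+* Localization (On g')) (ρ : Ix n → Localization (On g')), Prq c F g' j ρ

def S_Pr2 : Prop :=
  ∀ (R T : Type u) [CommRing R] [Nontrivial R] [IsNoetherianRing R] [CommRing T] [Algebra R T]
    (F : R) (g : T), Prs F g → ∃ Q u₀ : R[X], Q.Monic ∧ Q.coeff 0 = F ∧ u₀.coeff 0 = 1 ∧
      aeval g Q = 0 ∧ (∀ P : R[X], toW g (aeval g P) = 0 → Q ∣ u₀ * P) ∧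
      ∀ A : Finset (Localization (On g)), ∃ σ : R[X], σ.coeff 0 = 1 ∧ ∀ w ∈ A, ∀ r : R,
        toW g g ∣ w - toW g (algebraMap R T r) →
        ∃ P : R[X], P.coeff 0 = r ∧ toW g (aeval g P) = toW g (aeval g σ) * w

def S_Pr3 : Prop :=
  ∀ (R T : Type u) [CommRing R] [IsDomain R] [IsNoetherianRing R] [CommRing T] [Algebra R T]
    (n : ℕ) (c : Ix n → R) (l : List (Ix n → R)) (u z : R) (g : T)
    (j : R →+* Localization (On g)) (ρ : Ix n → Localization (On g)), Ok2 c → z ≠ 0 →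
    vp c l = u * z ^ 2 → Prq c (z ^ 3) g j ρ →
    ∃ (L : List (Ix n → R[X])) (S ζ G : R[X]), (∀ p ∈ L, Tp c p) ∧ S.coeff 0 = 1 ∧
      G.coeff 0 = u ∧ ζ ≠ 0 ∧ S * vp (C ∘ c) L = ζ ^ 2 * G

def S_Fc : Prop :=
  ∀ (R : Type u) [CommRing R] [IsDomain R] [UniqueFactorizationMonoid R] (S P ζ G : R[X]),
    S.coeff 0 = 1 → ζ ≠ 0 → S * P = ζ ^ 2 * G →
    ∃ (H G' : R[X]) (v : R), IsUnit v ∧ P = H ^ 2 * G' ∧ G'.coeff 0 = G.coeff 0 * v ^ 2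

def S_Hom : Prop :=
  ∀ (R : Type u) [CommRing R] [IsDomain R] [IsLocalRing R] (n : ℕ) (c : Ix n → R)
    (L : List (Ix n → R[X])) (H G : R[X]), Lam R → Ok2 c → (∀ p ∈ L, Tp c p) →
    vp (C ∘ c) L = H ^ 2 * G → IsUnit (G.coeff 0) → Sn c (G.coeff 0)

/-! ### Clifford algebras -/

def S_OrB : Prop :=
  ∀ (R V : Type u) [CommRing R] [IsLocalRing R] [AddCommGroup V] [Module R V] [Module.Free R V]
    [Module.Finite R V] (Q : QuadraticForm R V) (m : ℕ), IsUnit (2 : R) →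
    Bijective Q.polarBilin → Module.finrank R V = m → ∃ b : Module.Basis (Fin m) R V,
      (∀ i, IsUnit (Q (b i))) ∧ ∀ i j, i ≠ j → QuadraticMap.polar Q (b i) (b j) = 0

def S_Cl0 : Prop :=
  ∀ (R V : Type u) [CommRing R] [AddCommGroup V] [Module R V] (Q : QuadraticForm R V) (n : ℕ)
    (b : Module.Basis (Ix n) R V), IsUnit (2 : R) → (∀ i, IsUnit (Q (b i))) →
    (∀ i j, i ≠ j → QuadraticMap.polar Q (b i) (b j) = 0) →
    ClD (fun i => Q (b i)) (fun i => CliffordAlgebra.ι Q (b i)) CliffordAlgebra.involute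
      CliffordAlgebra.reverse ∧
    SpinF Q = SpD (fun i => CliffordAlgebra.ι Q (b i)) CliffordAlgebra.involute
      CliffordAlgebra.reverse

def S_Ker : Prop :=
  ∀ (R E : Type u) [CommRing R] [Ring E] [Algebra R E] (n : ℕ) (c : Ix n → R) (e : Ix n → E)
    (α : E →ₐ[R] E) (ρ : E →ₗ[R] E) (x : E), ClD c e α ρ → (∀ i, e i * x = α x * e i) →
    ∃ r, x = algebraMap R E r

def S_CD : Prop :=
  ∀ (k : Type u) [Field k] (n : ℕ) (c : Ix n → k) (ψ : Matrix (Ix n) (Ix n) k), Ok2 c → Ort c ψ →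
    ∃ l : List (Ix n → k), (∀ w ∈ l, IsUnit (qv c w)) ∧ ∀ v, ψ.mulVec v = l.foldr (rf c) v

def S_TwE : Prop :=
  ∀ (k E : Type u) [Field k] [Ring E] [Algebra k E] (n : ℕ) (c : Ix n → k) (e : Ix n → E)
    (α : E →ₐ[k] E) (ρ : E →ₗ[k] E) (ψ : Matrix (Ix n) (Ix n) k), ClD c e α ρ → Ort c ψ →
    ∃ (ε : ℤˣ) (γ : E), γ ≠ 0 ∧ Tw e α γ (s0 k n ε * ψ) ∧
      ∀ y, Tw e α y (s0 k n ε * ψ) → y ≠ 0 → y * ρ y ≠ 0

def S_TwU : Prop :=
  ∀ (R E : Type u) [CommRing R] [Ring E] [Algebra R E] (n : ℕ) (c : Ix n → R) (e : Ix n → E)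
    (α : E →ₐ[R] E) (ρ : E →ₗ[R] E) (y : E) (ψ : Matrix (Ix n) (Ix n) R), ClD c e α ρ → Ort c ψ →
    Tw e α y ψ → ∃ u, y * ρ y = algebraMap R E u ∧ (IsUnit u → ρ y * y = algebraMap R E u)

def S_SnK : Prop :=
  ∀ (k E : Type u) [Field k] [Ring E] [Algebra k E] (n : ℕ) (c : Ix n → k) (e : Ix n → E)
    (α : E →ₐ[k] E) (ρ : E →ₗ[k] E) (y : E) (ψ : Matrix (Ix n) (Ix n) k) (u : k), ClD c e α ρ →
    Ort c ψ → Tw e α y ψ → u ≠ 0 → y * ρ y = algebraMap k E u → Sn c u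

def S_GrS : Prop :=
  ∀ (R E : Type u) [CommRing R] [Ring E] [Algebra R E] (n : ℕ) (c : Ix n → R) (e : Ix n → E)
    (α : E →ₐ[R] E) (ρ : E →ₗ[R] E), ClD c e α ρ → Grp (SpD e α ρ)

def S_PiS : Prop :=
  ∀ (R E O : Type u) [CommRing R] [Ring E] [Algebra R E] [CommRing O] [Algebra R O] (n : ℕ)
    (c : Ix n → R) (e : Ix n → E) (α : E →ₐ[R] E) (ρ : E →ₗ[R] E)
    (g : ∀ (T : Type u) [CommRing T] [Algebra R T], (O →ₐ[R] T) → (O →ₐ[R] T) → T ⊗[R] E),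
    ClD c e α ρ → Coc g →
    (∀ (T : Type u) [CommRing T] [Algebra R T] (p q : O →ₐ[R] T), SpD e α ρ T (g T p q)) →
    ∃ d : ∀ (T : Type u) [CommRing T] [Algebra R T], (O →ₐ[R] T) → (O →ₐ[R] T) →
      Matrix (Ix n) (Ix n) T, CocM d ∧
      ∀ (T : Type u) [CommRing T] [Algebra R T] (p q : O →ₐ[R] T),
        Ort (algebraMap R T ∘ c) (d T p q) ∧ Tw (eT e T) (aT α T) (g T p q) (d T p q)

def S_SOx : Prop :=
  ∀ (B R K : Type u) [CommRing B] [IsRegularLocalRing B] [CommRing R] [IsLocalRing R]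
    [Algebra B R] [IsLocalHom (algebraMap B R)] [Algebra.FormallySmooth B R]
    [Algebra.EssFiniteType B R] [Field K] [Algebra R K] [IsFractionRing R K] (n : ℕ)
    (c : Ix n → R), ringKrullDim B ≤ 2 → Ok2 c → SOP c K

def S_Avg : Prop :=
  ∀ (R κ M M' : Type u) [CommRing R] [CommRing κ] [AddCommGroup M] [Module R M] [AddCommGroup M']
    [Module κ M'] (J : Type) [Finite J] (τ : J → M →ₗ[R] M) (τ' : J → M' →ₗ[κ] M') (μ : M →+ M')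
    (N : Submodule R M) (γ : M'), IsUnit (2 : R) → IsUnit (2 : κ) →
    (∀ j y, τ j (τ j y) = y) → (∀ i j y, τ i (τ j y) = τ j (τ i y)) →
    (∀ j, ∀ y ∈ N, τ j y ∈ N) → (∀ j y, μ (τ j y) = τ' j (μ y)) → (∀ j, τ' j γ = γ) →
    γ ≠ 0 → γ ∈ Submodule.span κ (μ '' N) → ∃ y ∈ N, (∀ j, τ j y = y) ∧ μ y ≠ 0

def S_Lft : Prop :=
  ∀ (R E O : Type u) [CommRing R] [IsLocalRing R] [Ring E] [Algebra R E] [CommRing O]
    [Algebra R O] [Module.FaithfullyFlat R O] (n : ℕ) (c : Ix n → R) (e : Ix n → E)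
    (α : E →ₐ[R] E) (ρ : E →ₗ[R] E)
    (g : ∀ (T : Type u) [CommRing T] [Algebra R T], (O →ₐ[R] T) → (O →ₐ[R] T) → T ⊗[R] E)
    (d : Matrix (Ix n) (Ix n) (O ⊗[R] O)) (ψ : Matrix (Ix n) (Ix n) O), ClD c e α ρ → Coc g →
    IsUni ρ (g (O ⊗[R] O) (H90P.iL R O O) (H90P.iR R O O)) →
    Tw (eT e (O ⊗[R] O)) (aT α (O ⊗[R] O)) (g (O ⊗[R] O) (H90P.iL R O O) (H90P.iR R O O)) d →
    Ort (algebraMap R O ∘ c) ψ → ψ.map (H90P.iL R O O) = ψ.map (H90P.iR R O O) * d →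
    ∃ (y : O ⊗[R] E) (ψ' : Matrix (Ix n) (Ix n) O) (u : R), IsUnit u ∧
      Ort (algebraMap R O ∘ c) ψ' ∧ Tw (eT e O) (aT α O) y ψ' ∧
      y * conj ρ y = algebraMap O (O ⊗[R] E) (algebraMap R O u) ∧
      conj ρ y * y = algebraMap O (O ⊗[R] E) (algebraMap R O u) ∧
      mp E (H90P.iL R O O) y =
        mp E (H90P.iR R O O) y * g (O ⊗[R] O) (H90P.iL R O O) (H90P.iR R O O)

/-- normalising an element of the Clifford group -/
def S_Nrz : Prop :=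
  ∀ (R E O : Type u) [CommRing R] [Ring E] [Algebra R E] [CommRing O] [Algebra R O] (n : ℕ)
    (c : Ix n → R) (e : Ix n → E) (α : E →ₐ[R] E) (ρ : E →ₗ[R] E) (y : O ⊗[R] E)
    (ψ : Matrix (Ix n) (Ix n) O) (u : R), ClD c e α ρ → Sn c u → Ort (algebraMap R O ∘ c) ψ →
    Tw (eT e O) (aT α O) y ψ → y * conj ρ y = algebraMap O (O ⊗[R] E) (algebraMap R O u) →
    conj ρ y * y = algebraMap O (O ⊗[R] E) (algebraMap R O u) →
    ∃ a : E, SpD e α ρ O ((1 : O) ⊗ₜ[R] a * y)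

end Pool.Agent.P.MP_46a8f8_ag.GU
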