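import Pool.Agent.P.MP_46a8f8_ag.GU.Sp
import Pool.Agent.P.MP_46a8f8_ag.GU.Fin3
import Pool.Agent.P.MP_46a8f8_ag.GU.TorG

/-!
The spin groups from their packages.
-/

namespace Pool.Agent.P.MP_46a8f8_ag.GU

open TensorProduct Function IsLocalRing Polynomial

universe u

theorem glF2 (h1 : S_F2i.{u}) (h2 : S_F2a.{u}) (h3 : S_CW.{u}) : S_F2.{u} := by
  intro k _ n c χ p hc hm hd h0 hp
  by_cases hi : Iso c
  · exact h1 k n c χ hc hi hm hd h0
  · rcases finite_or_infinite k with hf | hf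
    · exact absurd (h3 k n c hc) hi
    · exact h2 k n c χ p hc hi hm hd h0 hp

theorem npf_of (h : S_NP0.{u}) {R : Type u} [CommRing R] [Finite (MaximalSpectrum R)] {n : ℕ}
    {c : Ix n → R} {f : R[X]} (hc : Ok2 c) (hf : f.Monic)
    (hg : ∀ α : AdjoinRoot f, IsUnit α → ∃ β, IsUnit β ∧ Algebra.adjoin R {α * β ^ 2} = ⊤) :
    NPf c f := by
  have := hf.free_adjoinRoot
  have := hf.finite_adjoinRoot
  rintro α ⟨l, hl, rfl⟩
  rw [vp, map_list_prod, List.map_map]
  refine Sn.list fun a ha => ?_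
  obtain ⟨x, hx, rfl⟩ := List.mem_map.1 ha
  have hc' := hc.map (algebraMap R (AdjoinRoot f))
  obtain ⟨β, hβ, hg'⟩ := hg (vl (algebraMap R (AdjoinRoot f) ∘ c) x) ((hc'.un 0).mul (hl x hx))
  have h1 := h R (AdjoinRoot f) n c (β • x) hc (by
    rw [qv_smul]
    exact (hβ.pow 2).mul (hl x hx)) (by rwa [vl_smul, mul_comm])
  rw [vl_smul, map_mul, map_pow] at h1
  exact (Sn.sq hc (hβ.map (Algebra.norm R))).cancel hc h1

theorem glNPi (h1 : S_NP0.{u}) (h2 : S_Gn.{u}) : S_NPi.{u} :=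
  fun R _ _ _ _ f hL hc hf => npf_of h1 hc hf fun α => h2 R f α hL hc.two hf

theorem glNPo (h1 : S_NP0.{u}) (h2 : S_Gnp.{u}) : S_NPo.{u} := fun R _ _ _ _ f hc hf hp ho hi =>
  have := finite_maximalSpectrum R R
  npf_of h1 hc hf fun α => h2 R f α hf hp ho hi

/-- dimension two -/
theorem glT2 (h1 : S_Cs1.{u}) (h2 : S_Cs2.{u}) (N : ℕ) :
    ∀ (R : Type u) [CommRing R] (n : ℕ) (c : Ix n → R) (l : List (Ix n → R)) (u z : R), Cf c l →
      (l.map ln).sum < N → IsUnit u → vp c l = u * z ^ 2 → Sn c u := by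
  induction N with
  | zero => exact fun R _ n c l u z _ h => absurd h (by simp)
  | succ N ih =>
    intro R _ n c l u z hC hN hu e
    have hfin : (l.map ln).sum ≠ ⊤ := ne_top_of_lt hN
    by_cases hi : ∀ m : Ideal R, m.IsMaximal → qp c l ∈ m → IsoAt c m
    · refine h1 R n c l u z hC (fun y hy => zd_of_ln fun e => hfin ?_) hi hu e
      exact top_le_iff.1 (e ▸ List.le_sum_of_mem (List.mem_map_of_mem hy))
    · push Not at hi
      obtain ⟨m, hm, hP, hi⟩ := hi
      refine h2 R n c l u z m hC hfin hm hP hi hu e fun S _ c' l' u' z' hC' hlt hu' e' =>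
        ih S n c' l' u' z' hC' (hlt.trans_le ?_) hu' e'
      rw [Nat.cast_succ] at hN
      exact Order.le_of_lt_add_one hN

theorem SnI.down {R O : Type u} [CommRing R] [CommRing O] [Algebra R O] {n : ℕ} {c : Ix n → R}
    (ev : O →ₐ[R] R) (h : SnI (algebraMap R O ∘ c)) : SnI c := by
  intro l u z hu hz e
  have hev : ∀ r, ev (algebraMap R O r) = r := ev.commutes
  have := (h (l.map (algebraMap R O ∘ ·)) (algebraMap R O u) (algebraMap R O z) (hu.map _)
    (fun e0 => hz (by rw [← hev z, e0, map_zero]))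
    (by rw [← map_vp, e, map_mul, map_pow])).map ev
  rw [hev] at this
  convert this using 1
  exact funext fun i => (hev _).symm

/-- dimension at most two -/
theorem glLow (h1 : S_Cs1.{u}) (h2 : S_Cs2.{u}) (h3 : S_Prim.{u}) (k : ℕ) :
    ∀ (R : Type u) [CommRing R] [IsRegularLocalRing R] (n : ℕ) (c : Ix n → R) (e : ℕ),
      ringKrullDim R = e → e + k = 2 → Lam R → Ok2 c → SnI c := by
  induction k with
  | zero =>
    intro R _ _ n c e he hk hL hc l u z hu hz h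
    obtain rfl : e = 2 := hk
    have : IsDomain R := rDom R
    obtain ⟨l', z', hz', h', hfin⟩ := h3 R n c l u z he.le hc hu hz h
    obtain ⟨N, hN⟩ := ENat.ne_top_iff_exists.1 hfin
    have := RegBP.selfLoc R
    refine glT2 h1 h2 (N + 1) R n c l' u z' ⟨inferInstance, finite_maximalSpectrum R R, he.le, hL,
      hc, mem_nonZeroDivisors_of_ne_zero fun e0 => ?_, fun m hm _ => ?_⟩ ?_ hu h'
    · rw [vp_eq, e0, mul_zero] at h'
      exact mul_ne_zero hu.ne_zero (pow_ne_zero 2 hz') h'.symm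
    · rw [eq_maximalIdeal hm]
      exact (regAt R R (maximalIdeal R) 2).2 ⟨inferInstance, he⟩
    · rw [← hN]
      exact_mod_cast Nat.lt_succ_self N
  | succ k ih =>
    intro R _ _ n c e he hk hL hc
    let O := Localization.AtPrime ((maximalIdeal R).comap (evalRingHom (0 : R)))
    obtain ⟨hreg, hdim⟩ := pRegUp R e he O
    exact SnI.down (ev0 R) (ih O n _ (e + 1) hdim (by omega) (hL.map (algebraMap R O)) (hc.map _))

/-- the statements used for the spinor norm -/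
structure SnPk : Prop where
  cs1 : S_Cs1.{u}
  cs2 : S_Cs2.{u}
  prim : S_Prim.{u}
  loc : S_Loc.{u}
  pr0 : S_Pr0.{u}
  pr3 : S_Pr3.{u}
  fc : S_Fc.{u}
  hom : S_Hom.{u}
  dsc : S_Dsc.{u}

/-- essentially smooth algebras with many units -/
theorem glSm (H : SnPk.{u}) (B R : Type u) [CommRing B] [IsRegularLocalRing B]
    (hd : ringKrullDim B ≤ 2) [CommRing R] [IsLocalRing R] [Algebra B R]
    [IsLocalHom (algebraMap B R)] [Algebra.FormallySmooth B R] [Algebra.EssFiniteType B R]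
    (n : ℕ) (c : Ix n → R) (hL : Lam R) (hc : Ok2 c) : SnI c := by
  intro l u z hu hz h
  have := Algebra.EssFiniteType.isNoetherianRing B R
  obtain ⟨e, he⟩ : ∃ e : ℕ, ringKrullDim B = e :=
    ⟨_, ((isRegularLocalRing_iff B).1 inferInstance).symm⟩
  have he2 : e ≤ 2 := by
    rw [he] at hd
    exact_mod_cast hd
  obtain ⟨m, φ, hφ⟩ := struct B R
  have := RegBP.selfLoc B
  obtain ⟨hR, h𝔓, hreg⟩ := regB regAt regFlat rDom B R m e φ hφ
    ((regAt B B (maximalIdeal B) e).2 ⟨inferInstance, he⟩)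
  have : IsDomain R := rDom R
  have := pRegR pHt1 B R m φ hd hφ
  have := pUFD R
  set 𝔓 := (maximalIdeal B).map (algebraMap B R) with h𝔓def
  let O := Localization.AtPrime 𝔓
  obtain ⟨hO1, hO2⟩ := (regAt R O 𝔓 e).1 hreg
  have hinj : Injective (algebraMap R O) :=
    IsLocalization.injective O 𝔓.primeCompl_le_nonZeroDivisors
  obtain ⟨l, z, hz, h⟩ := H.loc R O 𝔓.primeCompl n c u 𝔓.primeCompl_le_nonZeroDivisors
    (glLow H.cs1 H.cs2 H.prim (2 - e) O n _ e hO2 (by omega) (hL.map (algebraMap R O)) (hc.map _)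
      (l.map (algebraMap R O ∘ ·)) _ (algebraMap R O z) (hu.map _)
      ((map_ne_zero_iff _ hinj).2 hz) (by rw [← map_vp, h, map_mul, map_pow]))
  by_cases hzu : IsUnit z
  · exact (Sn.sq hc hzu).of_eq hc (Sn.of_vp (c := c) (l := l) (h ▸ hu.mul (hzu.pow 2)))
      (by rw [h, mul_comm])
  have hF : z ^ 3 ∈ maximalIdeal R := Ideal.pow_mem_of_mem _ hzu 3 (by norm_num)
  obtain ⟨R', _, _, φ', hφ', Q, N, hQ, hQN⟩ := pG1 B R m φ (z ^ 3) hφ h𝔓 hF
    fun hh => hz (h𝔓.mem_of_pow_mem 3 hh)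
  obtain ⟨T, _, _, _, g, g1, g2, g3, g4⟩ := pG2 R R' φ' _ Q N hφ' hF hQ hQN
  obtain ⟨T', _, _, g', j, ρ, hP⟩ := H.pr0 R T n c _ g hc ⟨inferInstance, g1, g2, g3⟩ g4
  obtain ⟨L, S, ζ, G, hT, hS, hG, hζ, e1⟩ := H.pr3 R T' n c l u z g' j ρ hc
    (fun e0 => hz (e0 ▸ 𝔓.zero_mem)) h hP
  obtain ⟨H', G', v, hv, e2, e3⟩ := H.fc R S _ ζ G hS hζ e1
  rw [hG] at e3
  exact (Sn.sq hc hv).of_eq hc (H.hom R n c L H' G' hL hc hT e2 (e3 ▸ hu.mul (hv.pow 2)))
    (by rw [e3, mul_comm])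

/-- essentially smooth algebras -/
theorem glSn (H : SnPk.{u}) (B R : Type u) [CommRing B] [IsRegularLocalRing B]
    (hd : ringKrullDim B ≤ 2) [CommRing R] [IsDomain R] [IsLocalRing R] [Algebra B R]
    [IsLocalHom (algebraMap B R)] [Algebra.FormallySmooth B R] [Algebra.EssFiniteType B R]
    (n : ℕ) (c : Ix n → R) (hc : Ok2 c) : SnI c := by
  rcases finite_or_infinite (ResidueField R) with hf | hf
  swap
  · exact glSm H B R hd n c Lam.of_inf hc
  intro l u z hu hz h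
  let 𝔮 := (maximalIdeal R).map (C : R →+* R[X])
  let O := Localization.AtPrime 𝔮
  have : Algebra.EssFiniteType R O := Algebra.EssFiniteType.comp R R[X] O
  have : Algebra.EssFiniteType B O := Algebra.EssFiniteType.comp B R O
  have : Algebra.FormallySmooth R O := inferInstance
  have : Algebra.FormallySmooth B O := Algebra.FormallySmooth.comp B R O
  have : IsLocalHom (algebraMap B O) := ⟨fun b hb => by
    by_contra hn
    rw [IsScalarTower.algebraMap_apply B R[X] O,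
      IsLocalization.AtPrime.isUnit_to_map_iff O 𝔮] at hb
    exact hb (Ideal.mem_map_of_mem _ (map_nonunit (algebraMap B R) b hn))⟩
  have hL : Lam O := ⟨fun i => algebraMap R[X] O (X ^ i), fun i j hij => by
    rw [← map_sub, IsLocalization.AtPrime.isUnit_to_map_iff O 𝔮]
    intro hm
    have := Ideal.mem_map_C_iff.1 hm i
    rw [coeff_sub, coeff_X_pow, coeff_X_pow, if_pos rfl, if_neg hij, sub_zero] at this
    exact this isUnit_one⟩
  have hinj : Injective (algebraMap R O) := by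
    rw [IsScalarTower.algebraMap_eq R R[X] O]
    exact (IsLocalization.injective O 𝔮.primeCompl_le_nonZeroDivisors).comp C_injective
  obtain ⟨l', z', hz', h'⟩ := H.loc R[X] O 𝔮.primeCompl n (C ∘ c) (C u)
    𝔮.primeCompl_le_nonZeroDivisors
    (glSm H B O hd n _ hL (hc.map (algebraMap R O)) (l.map (algebraMap R O ∘ ·))
      (algebraMap R O u) (algebraMap R O z) (hu.map _) ((map_ne_zero_iff _ hinj).2 hz)
      (by rw [← map_vp, h, map_mul, map_pow]))
  exact H.dsc R n c l' u z' hc hu hz' h'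

/-- the statements used for torsors -/
structure ClPk : Prop where
  orb : S_OrB.{u}
  cl0 : S_Cl0.{u}
  grs : S_GrS.{u}
  pis : S_PiS.{u}
  sox : S_SOx.{u}
  lft : S_Lft.{u}
  snk : S_SnK.{u}
  nrz : S_Nrz.{u}

theorem glTor (H : ClPk.{u}) (hLoc : S_Loc.{u}) {R E K O : Type u} [CommRing R] [IsDomain R]
    [IsLocalRing R] [Ring E] [Algebra R E] [Field K] [Algebra R K] [IsFractionRing R K]
    [CommRing O] [Algebra R O] {n : ℕ} {c : Ix n → R} {e : Ix n → E} {α : E →ₐ[R] E}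
    {ρ : E →ₗ[R] E} (hC : ClD c e α ρ) (hS : SnI c) (hP : SOP c K)
    (hO : IsGTorsor (SpD e α ρ) O) (hK : Nonempty (O →ₐ[R] K)) : Nonempty (O →ₐ[R] R) := by
  have := hO.1
  obtain ⟨g, hg, hG, hfin⟩ := pTorG R E O _ (H.grs R E n c e α ρ hC) hO
  obtain ⟨d, hd, hd'⟩ := H.pis R E O n c e α ρ g hC hg hG
  obtain ⟨ψ, hψ, hψ'⟩ := hP O d hd (fun T _ _ p q => (hd' T p q).1) hK
  obtain ⟨y, ψ, u, hu, hψ, hy, e1, e2, e3⟩ := H.lft R E O n c e α ρ g _ ψ hC hg (hG _ _ _).2.1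
    (hd' _ _ _).2 hψ hψ'
  obtain ⟨p⟩ := hK
  have hc : (p ∘ algebraMap R O ∘ c) = algebraMap R K ∘ c := funext fun i => p.commutes _
  have h1 : Sn (algebraMap R K ∘ c) (algebraMap R K u) := by
    refine H.snk K (K ⊗[R] E) n _ _ _ _ (mp E p y) (ψ.map p) _ (hC.bc K) (hc ▸ hψ.map p) (hy.mp p)
      (hu.map _).ne_zero ?_
    rw [← mp_bc, ← map_mul, ← conj_eq, e1, mp_alg, p.commutes]
  obtain ⟨l, z, hz, h2⟩ := hLoc R K (nonZeroDivisors R) n c u le_rfl h1
  obtain ⟨a, ha⟩ := H.nrz R E O n c e α ρ y ψ u hC (hS l u z hu (nonZeroDivisors.ne_zero hz) h2)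
    hψ hy e1 e2
  refine hfin _ ha ?_
  rw [map_mul, map_mul, e3, H90P.mp_tmul, H90P.mp_tmul, map_one, map_one, mul_assoc]

theorem topSp (H : SnPk.{u}) (H' : ClPk.{u}) (B R : Type u) [CommRing B] [IsRegularLocalRing B]
    (hd : ringKrullDim B ≤ 2) [CommRing R] [IsLocalRing R] [Algebra B R]
    [IsLocalHom (algebraMap B R)] [Algebra.FormallySmooth B R] [Algebra.EssFiniteType B R]
    (h2 : IsUnit (2 : R)) (V : Type u) [AddCommGroup V] [Module R V] [Module.Free R V]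
    [Module.Finite R V] (Q : QuadraticForm R V) (hQ : Bijective Q.polarBilin)
    (h3 : 3 ≤ Module.finrank R V) (K : Type u) [Field K] [Algebra R K] [IsFractionRing R K]
    (O : Type u) [CommRing O] [Algebra R O] (hO : IsGTorsor (SpinF Q) O)
    (hK : Nonempty (O →ₐ[R] K)) : Nonempty (O →ₐ[R] R) := by
  have : IsDomain R := (IsFractionRing.injective R K).isDomain _
  obtain ⟨n, hn⟩ := Nat.exists_eq_add_of_le' h3
  obtain ⟨b, hb, hb'⟩ := H'.orb R V Q (n + 3) h2 hQ hn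
  obtain ⟨hC, e⟩ := H'.cl0 R V Q n b h2 hb hb'
  exact glTor H' H.loc hC (glSn H B R hd n _ hC.ok) (H'.sox B R K n _ hd hC.ok) (e ▸ hO) hK

end Pool.Agent.P.MP_46a8f8_ag.GU
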