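import Pool.Agent.P.MP_46a8f8_ag.Tor2

/-!
The unitary group of an algebra with involution, and torsors under it.
-/

namespace Pool.Agent.P.MP_46a8f8_ag.GU

open TensorProduct

universe u

variable {R A : Type u} [CommRing R] [Ring A] [Algebra R A]

/-- The set `U(A,σ)(T)`: the elements `g` of `T ⊗ A` with `g σ(g) = σ(g) g = 1`. -/
def Uni (σ : A →ₗ[R] A) (T : Type u) [CommRing T] [Algebra R T] : Type u :=
  {g : T ⊗[R] A // g * σ.lTensor T g = 1 ∧ σ.lTensor T g * g = 1}

/-- For each commutative `R`-algebra `T`, a map `U(A,σ)(T) × (Spec O)(T) → (Spec O)(T)`. -/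
def UAction (σ : A →ₗ[R] A) (O : Type u) [CommRing O] [Algebra R O] : Type (u + 1) :=
  ∀ (T : Type u) [CommRing T] [Algebra R T], Uni σ T → (O →ₐ[R] T) → (O →ₐ[R] T)

variable {σ : A →ₗ[R] A} {O : Type u} [CommRing O] [Algebra R O]

/-- `1 • p = p` -/
def UAction.One (a : UAction σ O) : Prop :=
  ∀ (T : Type u) [CommRing T] [Algebra R T] (g : Uni σ T) (p : O →ₐ[R] T), g.1 = 1 → a T g p = p

/-- `(g h) • p = g • h • p` -/
def UAction.Mul (a : UAction σ O) : Prop :=
  ∀ (T : Type u) [CommRing T] [Algebra R T] (g h k : Uni σ T) (p : O →ₐ[R] T),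
    k.1 = g.1 * h.1 → a T k p = a T g (a T h p)

/-- the action is natural in `T` -/
def UAction.Natural (a : UAction σ O) : Prop :=
  ∀ (T T' : Type u) [CommRing T] [Algebra R T] [CommRing T'] [Algebra R T'] (f : T →ₐ[R] T')
    (g : Uni σ T) (g' : Uni σ T') (p : O →ₐ[R] T),
    g'.1 = baseMap A f g.1 → f.comp (a T g p) = a T' g' (f.comp p)

/-- the action is simply transitive -/
def UAction.SimplyTransitive (a : UAction σ O) : Prop :=
  ∀ (T : Type u) [CommRing T] [Algebra R T] (p q : O →ₐ[R] T), ∃! g : Uni σ T, a T g p = q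

variable (σ O) in
/-- `Spec O` is a `U(A,σ)`-torsor over `R`: `O` is faithfully flat over `R`, and for every
commutative `R`-algebra `T` the group `U(A,σ)(T)` acts simply transitively on the set of
`T`-points of `Spec O`, naturally in `T`. -/
def IsUTorsor : Prop :=
  Module.FaithfullyFlat R O ∧
    ∃ a : UAction σ O, a.One ∧ a.Mul ∧ a.Natural ∧ a.SimplyTransitive

end Pool.Agent.P.MP_46a8f8_ag.GU
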