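import Pool.Agent.P.MP_46a8f8_ag.GU.Defs
import Pool.Agent.P.MP_46a8f8_ag.GU.Tor

/-!
Statements of the packages for the unitary case.
-/

namespace Pool.Agent.P.MP_46a8f8_ag.GU

open TensorProduct Function Matrix IsLocalRing

universe u

/-! ### commutative algebra -/

def S_Z : Prop :=
  ∀ (R : Type u) [CommRing R] [IsRegularLocalRing R], ringKrullDim R = 3 → ∀ (F G : R)
    (I : Ideal R), RS F G → ¬ maximalIdeal R ≤ I →
    ∃ z ∈ maximalIdeal R, z ∉ I ∧ IsSMulRegular (BQ F G) z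

def S_Av : Prop :=
  ∀ (R : Type u) [CommRing R] [IsDomain R] [IsNoetherianRing R] (𝔟 : Ideal R) (F G r : R),
    F ∈ 𝔟 → G ∈ 𝔟 → RS F G → r ≠ 0 → ∃ f ∈ 𝔟, RS r f

def S_DVR : Prop :=
  ∀ (R : Type u) [CommRing R] [IsRegularLocalRing R], ringKrullDim R = 3 →
    ∀ (F y : R) (p : Ideal R) [p.IsPrime], F ≠ 0 → (∀ r, r ∈ p ↔ F ∣ r * y) →
      IsPrincipalIdealRing (Localization.AtPrime p)

def S_C1 : Prop :=
  ∀ (R : Type u) [CommRing R] [IsRegularLocalRing R], ringKrullDim R = 3 →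
    ∀ (E Y : Type u) [AddCommGroup E] [Module R E] [AddCommGroup Y] [Module R Y]
      [Module.Finite R Y] (w : E →ₗ[R] Y), Surjective w →
      (∀ (r : R) (y : Y), r ≠ 0 → r • y = 0 → y = 0) →
      ∃ F G : R, RS F G ∧ (∃ s : Y →ₗ[R] E, ∀ y, w (s y) = F • y) ∧
        ∃ s : Y →ₗ[R] E, ∀ y, w (s y) = G • y

def S_Inj : Prop :=
  ∀ (R : Type u) [CommRing R] [IsRegularLocalRing R], ringKrullDim R = 3 → ∀ F G z : R, RS F G →
    z ∈ maximalIdeal R → z ∉ maximalIdeal R ^ 2 →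
    ∀ (M : Type u) [AddCommGroup M] [Module R M] [Module.Finite R M] (N : Submodule R M),
      (∀ m : M, F • m = 0) → (∀ m : M, G • m = 0) → (∀ m : M, z • m ∈ N → m ∈ N) →
      ∀ ψ : N →ₗ[R] BQ F G, ∃ ψ' : M →ₗ[R] BQ F G, ∀ y : N, ψ' y = ψ y

def S_Hered : Prop :=
  ∀ (T : Type u) [CommRing T] [IsNoetherianRing T],
    (∀ 𝔫 : Ideal T, 𝔫.IsMaximal → RegAt T 𝔫 1) →
    (∀ (M : Type u) [AddCommGroup M] [Module T M] [Module.Finite T M], PD T M 1) ∧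
      ∀ f : T, IsSMulRegular T f → ParH f

def S_ParH2 : Prop :=
  ∀ (T : Type u) [CommRing T] [IsNoetherianRing T],
    (∀ 𝔫 : Ideal T, 𝔫.IsMaximal → RegAt T 𝔫 2) → ∀ f : T, IsSMulRegular T f → ParH f

def S_Primes : Prop :=
  ∀ (R : Type u) [CommRing R] [IsRegularLocalRing R], ringKrullDim R = 3 → ∀ x F G : R,
    x ∈ maximalIdeal R → RS F G → ∃ (P : Finset (Ideal R)) (N : ℕ),
      (∀ p ∈ P, Crv x p ∧ F ∈ p ∧ G ∈ p ∧ ringKrullDim (R ⧸ p) = 1) ∧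
      (Ideal.span {x} * ∏ p ∈ P, p) ^ N ≤ Ideal.span {F, G}

def S_Nrm : Prop :=
  ∀ (R : Type u) [CommRing R] [IsNoetherianRing R] [IsLocalRing R] (p : Ideal R) [p.IsPrime],
    ringKrullDim (R ⧸ p) = 1 →
    Module.Finite (R ⧸ p) (integralClosure (R ⧸ p) (FractionRing (R ⧸ p))) →
    ∃ (S : Type u) (_ : CommRing S) (_ : Algebra R S), Nrm p S

def S_Tri : Prop :=
  ∀ (R : Type u) [CommRing R] [Nontrivial R] (n : ℕ) (g : Fin n → MvPolynomial (Fin n) R)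
    (N : Fin n → ℕ), (∀ i, (g i - MvPolynomial.X i ^ N i).totalDegree < N i) →
    Module.Free R (MvPolynomial (Fin n) R ⧸ Ideal.span (Set.range g)) ∧
    Module.Finite R (MvPolynomial (Fin n) R ⧸ Ideal.span (Set.range g)) ∧
    ∃ τ : (MvPolynomial (Fin n) R ⧸ Ideal.span (Set.range g)) →ₗ[R] R, PerfTr τ

def S_ModA : Prop :=
  ∀ (R : Type u) [CommRing R] [IsRegularLocalRing R], ringKrullDim R = 3 → ∀ x : R,
    x ∈ maximalIdeal R → x ∉ maximalIdeal R ^ 2 →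
    ∀ (S : Type u) [CommRing S] [Algebra R S] [Module.Finite R S] [IsPrincipalIdealRing S],
    ∃ (n : ℕ) (σ : MvPolynomial (Fin n) R →ₐ[R] S) (g : Fin n → MvPolynomial (Fin n) R)
      (N : Fin n → ℕ), Surjective σ ∧ (∀ i, σ (g i) = 0) ∧
      (∀ i, (g i - MvPolynomial.X i ^ N i).totalDegree < N i) ∧
      ∀ 𝔫 : Ideal S, 𝔫.IsMaximal →
        RegAt (MvPolynomial (Fin n) R ⧸ (Ideal.span (Set.range g) ⊔ Ideal.span {MvPolynomial.C x}))
          ((𝔫.comap σ).map (Ideal.Quotient.mk _)) 2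

def S_ModB : Prop :=
  ∀ (R : Type u) [CommRing R] [IsNoetherianRing R] [IsLocalRing R] (x : R),
    x ∈ maximalIdeal R → ∀ (S C : Type u) [CommRing S] [IsDomain S] [IsPrincipalIdealRing S]
      [CommRing C] [Algebra R C] [Algebra C S] [Module.Finite R C], ¬ IsField S →
      Surjective (algebraMap C S) → IsSMulRegular C (algebraMap R C x) →
      (∀ 𝔫 : Ideal S, 𝔫.IsMaximal → RegAt (C ⧸ Ideal.span {algebraMap R C x})
        ((𝔫.comap (algebraMap C S)).map (Ideal.Quotient.mk _)) 2) →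
      ∃ g t : C, (∀ c, algebraMap C S c = 0 ↔ c ∈ Ideal.span {g, t}) ∧
        (∀ 𝔫 : Ideal (C ⧸ Ideal.span {g}), 𝔫.IsMaximal → RegAt _ 𝔫 2) ∧
        (∀ 𝔫 : Ideal ((C ⧸ Ideal.span {g}) ⧸ Ideal.span {algebraMap R (C ⧸ Ideal.span {g}) x}),
          𝔫.IsMaximal → RegAt _ 𝔫 1) ∧
        ∀ c : C, algebraMap R C x ∣ g * c → algebraMap R C x ∣ c

def S_Mod : Prop :=
  ∀ (R : Type u) [CommRing R] [IsRegularLocalRing R], ringKrullDim R = 3 → ∀ (x : R)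
    (p : Ideal R), x ∈ maximalIdeal R → x ∉ maximalIdeal R ^ 2 → x ∉ p →
    ∀ (S : Type u) [CommRing S] [Algebra R S], Nrm p S →
    ∃ (C : Type u) (_ : CommRing C) (_ : Algebra R C) (_ : Algebra C S) (_ : IsScalarTower R C S)
      (τ : C →ₗ[R] R) (g t : C) (G : R), Mod x S C τ g t ∧ ¬ x ∣ G ∧ g ∣ algebraMap R C G

def S_Dual : Prop :=
  ∀ (R C S : Type u) [CommRing R] [IsDomain R] [CommRing C] [Algebra R C] [Module.Free R C]
    [Module.Finite R C] [CommRing S] [Algebra R S] [Algebra C S] [IsScalarTower R C S]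
    (τ : C →ₗ[R] R) (F G : R) (g g' t w u : C), PerfTr τ → RS F G →
    Surjective (algebraMap C S) → (∀ c, algebraMap C S c = 0 ↔ c ∈ Ideal.span {g, t}) →
    algebraMap R C G = g * g' → algebraMap R C F = w * t + u * g →
    ∃ τS : S →ₗ[R] BQ F G,
      (∀ c, τS (algebraMap C S c) = Ideal.Quotient.mk _ (τ (w * g' * c))) ∧
      Bijective ((LinearMap.mul R S).compr₂ τS)

/-! ### forms and complexes -/

def S_Proj : Prop :=
  ∀ (R A C : Type u) [CommRing R] [Ring A] [Algebra R A] [StarRing A] [SA R A] [CommRing C]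
    [Algebra R C] (E : FM R A C C) (ε : ℤˣ) (N : Submodule C E.M), E.Good ε → E.Perf →
    E.IsLag N → Module.Finite C N → Module.Projective C N →
    (∀ ψ : Module.Dual C N, ∃ x, ∀ y : N, E.b x y = ψ y) →
    ∃ e, E.IsProj e ∧ LinearMap.range e = N

def S_Cover : Prop :=
  ∀ (R A C : Type u) [CommRing R] [Ring A] [Algebra R A] [StarRing A] [SA R A] [CommRing C]
    [Algebra R C] (X : RM R A C), Module.Finite C X.M →
    ∃ (ι : Type) (_ : Fintype ι) (_ : DecidableEq ι) (ρ : MRep R A R ι)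
      (π : (ι → C) →ₗ[C] X.M), Surjective π ∧ Eqv (ρ.map (Algebra.ofId R C)).rm X π ∧
      Module.finrank R A ∣ Fintype.card ι

def S_LiftM : Prop :=
  ∀ (R A C : Type u) [CommRing R] [Ring A] [Algebra R A] [StarRing A] [SA R A] [CommRing C]
    [Algebra R C] (ι : Type) [Fintype ι] [DecidableEq ι] (ρ : MRep R A C ι) (δ : ℤˣ)
    (l₀ : Matrix ι ι C), ∃ l : Matrix ι ι C, SymAdj δ ρ l ∧
      ∀ (V : Type u) [CommRing V] [Algebra R V] (q : C →ₐ[R] V),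
        SymAdj δ (ρ.map q) (l₀.map q) → l.map q = l₀.map q

def S_Pair : Prop :=
  ∀ (R A : Type u) [CommRing R] [IsDomain R] [Ring A] [Algebra R A] [StarRing A] [SA R A]
    (E : FM R A R R) (ε : ℤˣ) (D : Dat E) (F G : R), E.Sp ε → RS F G → D.Kil F → D.Kil G →
    ∃ Y : FM R A R (BQ F G), Y.Good (-ε) ∧ D.Real F G Y

def S_Uni : Prop :=
  ∀ (R A : Type u) [CommRing R] [IsDomain R] [Ring A] [Algebra R A] [StarRing A] [SA R A]
    (E : FM R A R R) (ε : ℤˣ) (D : Dat E) (F G : R) (Y : FM R A R (BQ F G)), E.Sp ε → RS F G →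
    Y.Good (-ε) → D.Real F G Y → Y.Perf

def S_Sum : Prop :=
  ∀ (R A : Type u) [CommRing R] [Ring A] [Algebra R A] [StarRing A] [SA R A]
    (E E' : FM R A R R) (D : Dat E) (D' : Dat E') (F G : R) (Y Y' : FM R A R (BQ F G)),
    D.Real F G Y → D'.Real F G Y' → ∃ D'' : Dat (E.sum E'), D''.Real F G (Y.sum Y')

/-- the first half of the construction of a complex from a Lagrangian -/
def S_Step0a : Prop :=
  ∀ (R A : Type u) [CommRing R] [IsDomain R] [Ring A] [Algebra R A] [StarRing A] [SA R A]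
    (E : FM R A R R) (ε : ℤˣ) (L : Submodule R E.M) (hL : E.IsLag L) (G₀ G₁ : RM R A R)
    (d : G₁.M →ₗ[R] G₀.M) (p : G₀.M →ₗ[R] Module.Dual R L) (F' G' : R), E.Sp ε →
    G₀.FF → G₁.FF → Eqv G₁ G₀ d → Eqv G₀ (E.toRM.sub L hL.1).dual p → Injective d →
    Exact d p → Surjective p → RS F' G' →
    (∃ r : G₀.M →ₗ[R] G₁.M, ∀ y, r (d y) = F' • y) →
    (∃ r : G₀.M →ₗ[R] G₁.M, ∀ y, r (d y) = G' • y) →
    ∃ (β : E.M →ₗ[R] G₀.M) (j : Module.Dual R G₀.M →ₗ[R] E.M)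
      (κ : Module.Dual R G₀.M →ₗ[R] G₁.M), Eqv G₀.dual E.toRM j ∧ Eqv G₀.dual G₁ κ ∧
      (∀ e (l : L), p (β e) l = E.b e l) ∧ (∀ e ξ, E.b e (j ξ) = ξ (β e)) ∧
      ∀ ξ ξ', E.b (j ξ) (j ξ') + (ξ (d (κ ξ')) + ε • ξ' (d (κ ξ))) = 0

def S_Step0 : Prop :=
  ∀ (R A : Type u) [CommRing R] [IsRegularLocalRing R] [Ring A] [Algebra R A] [StarRing A]
    [SA R A], ringKrullDim R = 3 → ∀ (E : FM R A R R) (ε : ℤˣ), E.Sp ε → E.HasLag →
    ∃ (H : FM R A R R) (D : Dat (E.sum H)) (F G : R), H.Sp ε ∧ H.Hyp ∧ RS F G ∧ D.Kil F ∧ D.Kil G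

/-- the first half of the surgery -/
def S_Surga : Prop :=
  ∀ (R A : Type u) [CommRing R] [IsDomain R] [Ring A] [Algebra R A] [StarRing A] [SA R A]
    (E : FM R A R R) (ε : ℤˣ) (D : Dat E) (F G : R) (X : RM R A R)
    (α : X.M →ₗ[R] Module.Dual R D.Q.M), E.Sp ε → RS F G → D.Kil F → D.Kil G → X.FF →
    Eqv X D.Q.dual α →
    (∀ x x' p p', D.β p = F • α x → D.β p' = G • α x' → E.b p' p ∈ Ideal.span {F, G}) →
    ∃ κ : LinearMap.ker (D.β.coprod (-α)) →ₗ[R] Module.Dual R X.M,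
      (∀ (a : A) (z z' : LinearMap.ker (D.β.coprod (-α))), z'.1 = (E.ρ a z.1.1, X.ρ a z.1.2) →
        κ z' = X.dual.ρ a (κ z)) ∧
      (∀ z z' : LinearMap.ker (D.β.coprod (-α)),
        E.b z.1.1 z'.1.1 + (κ z z'.1.2 + ε • κ z' z.1.2) = 0) ∧
      ∀ (z : LinearMap.ker (D.β.coprod (-α))) (q : D.Q.M), z.1 = (D.i q, 0) →
        ∀ x, κ z x = -(ε • α x q)

def S_Surg : Prop :=
  ∀ (R A : Type u) [CommRing R] [IsRegularLocalRing R] [Ring A] [Algebra R A] [StarRing A]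
    [SA R A], ringKrullDim R = 3 → ∀ (E : FM R A R R) (ε : ℤˣ) (D : Dat E) (F G : R)
    (Y : FM R A R (BQ F G)), E.Sp ε → RS F G → Y.Good (-ε) → D.Real F G Y → Y.HasLag → E.WNull ε

def S_Red : Prop :=
  ∀ (R A : Type u) [CommRing R] [IsRegularLocalRing R] [Ring A] [Algebra R A] [StarRing A]
    [SA R A], ringKrullDim R = 3 → ∀ (F G : R) (δ : ℤˣ) (Y : FM R A R (BQ F G))
    (N : Submodule R Y.M), RS F G → Y.Good δ → Y.Perf → Y.Stab N → Y.Isot N →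
    ∃ Y₁ : FM R A R (BQ F G), Y₁.Good δ ∧ Y₁.Perf ∧ Y₁.Aniso ∧
      (∀ r : R, (∀ x ∈ Y.perp N, r • x ∈ N) → Y₁.Kil r) ∧
      ∀ Z : FM R A R (BQ F G), (Y₁.sum Z).HasLag → (Y.sum Z).HasLag

/-! ### presentations by symmetric matrices -/

def S_Par : Prop :=
  ∀ (R A D κ : Type u) [CommRing R] [Ring A] [Algebra R A] [StarRing A] [SA R A] [CommRing D]
    [IsDomain D] [IsDiscreteValuationRing D] [Algebra R D] [Field κ] [Algebra R κ]
    (q : D →ₐ[R] κ) (ι : Type) [Fintype ι] [DecidableEq ι] (ρ : MRep R A D ι) (δ : ℤˣ)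
    (Λ : Submodule D ((ι → D) × (ι → D))) (f : D), Surjective q →
    (∀ d, q d = 0 ↔ d ∈ maximalIdeal D) → MLag δ ρ Λ → f ≠ 0 → (∀ x : ι → D, ∃ ξ, (f • x, ξ) ∈ Λ) →
    ∃ ω : Matrix ι ι κ, SymAdj δ (ρ.map q) ω ∧
      ∀ u ∈ Λ, q ∘ u.1 = 0 → (∀ v ∈ Λ, q ∘ v.1 = 0 → (q ∘ v.2) ⬝ᵥ ω *ᵥ (q ∘ u.2) = 0) →
        q ∘ u.2 = 0

def S_Fld : Prop :=
  ∀ (R A κ : Type u) [CommRing R] [Ring A] [Algebra R A] [StarRing A] [SA R A] [Field κ]
    [Algebra R κ] (ι : Type) [Fintype ι] [DecidableEq ι] (ρ : MRep R A κ ι) (δ : ℤˣ)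
    (Λ : Submodule κ ((ι → κ) × (ι → κ))) (ω : Matrix ι ι κ), MLag δ ρ Λ → SymAdj δ ρ ω →
    (∀ ξ, (0, ξ) ∈ Λ → (∀ η, (0, η) ∈ Λ → η ⬝ᵥ ω *ᵥ ξ = 0) → ξ = 0) →
    ∃ μ : Matrix (ι ⊕ ι) (ι ⊕ ι) κ, SymAdj δ (ρ.sum ρ.dual).dual μ ∧
      ∀ ζ : ι ⊕ ι → κ, ∃ u ∈ Λ, ∃ η : ι → κ, Sum.elim u.2 0 - μ *ᵥ Sum.elim u.1 η = ζ

def S_W1loc : Prop :=
  ∀ (R A T : Type u) [CommRing R] [Ring A] [Algebra R A] [StarRing A] [SA R A] [CommRing T]
    [Algebra R T] (ι : Type) [Fintype ι] [DecidableEq ι] (ρ : MRep R A T ι) (δ : ℤˣ)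
    (Λ : Submodule T ((ι → T) × (ι → T))) (f : T), MLag δ ρ Λ → MProj δ Λ → ParH f →
    (∀ x : ι → T, ∃ ξ, (f • x, ξ) ∈ Λ) → ∀ 𝔫 : Ideal T, 𝔫.IsMaximal →
    ∃ μ : Matrix (ι ⊕ ι) (ι ⊕ ι) T,
      SymAdj δ ((ρ.sum ρ.dual).dual.map (Ideal.Quotient.mkₐ R 𝔫)) (μ.map (Ideal.Quotient.mkₐ R 𝔫)) ∧
      ∀ ζ : ι ⊕ ι → T, ∃ u ∈ Λ, ∃ η : ι → T,
        ∀ i, Sum.elim u.2 0 i - (μ *ᵥ Sum.elim u.1 η) i - ζ i ∈ 𝔫

def S_W1A : Prop :=
  ∀ (R A T V : Type u) [CommRing R] [Ring A] [Algebra R A] [StarRing A] [SA R A] [CommRing T]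
    [IsNoetherianRing T] [Algebra R T] [CommRing V] [Algebra T V] (ι : Type) [Fintype ι]
    [DecidableEq ι] (ρ : MRep R A T ι) (δ : ℤˣ) (f : T) (Y : FM R A T V)
    (π : (ι → T) →ₗ[T] Y.M), IsSMulRegular T f → Quo f V → Y.Good δ → Y.Perf → PD T Y.M 1 →
    Surjective π → Eqv ρ.rm Y.toRM π →
    ∃ (Φ : Matrix ι ι T) (Λ : Submodule T ((ι → T) × (ι → T))), Φᵀ = δ • Φ ∧
      (∀ x y, Y.b (π x) (π y) = algebraMap T V ((Φ *ᵥ x) ⬝ᵥ y)) ∧
      (∀ u, u ∈ Λ ↔ Φ *ᵥ u.1 = f • u.2) ∧ MLag δ ρ Λ ∧ MProj δ Λ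

def S_W1 : Prop :=
  ∀ (R A T V : Type u) [CommRing R] [Ring A] [Algebra R A] [StarRing A] [SA R A] [CommRing T]
    [IsNoetherianRing T] [Finite (MaximalSpectrum T)] [Algebra R T] [CommRing V] [Algebra T V]
    (δ : ℤˣ) (f : T) (Y : FM R A T V), IsSMulRegular T f → Quo f V → ParH f → Y.Good δ →
    Y.Perf → PD T Y.M 1 →
    ∃ (ι : Type) (_ : Fintype ι) (_ : DecidableEq ι) (ρ : MRep R A R ι) (l : Matrix ι ι T),
      SymAdj δ (ρ.map (Algebra.ofId R T)) l ∧ Pres (ρ.map (Algebra.ofId R T)) l f Y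

def S_Neutral : Prop :=
  ∀ (R A C T V : Type u) [CommRing R] [IsDomain R] [Ring A] [Algebra R A] [StarRing A] [SA R A]
    [CommRing C] [Algebra R C] [Module.Free R C] [Module.Finite R C] [CommRing T] [Algebra R T]
    [Algebra C T] [IsScalarTower R C T] [CommRing V] [Algebra T V] (τ : C →ₗ[R] R) (F G : R)
    (g f u u' v v' : C) (δ : ℤˣ) (Y : FM R A T V) (ι : Type) [Fintype ι] [DecidableEq ι]
    (ρ : MRep R A R ι) (l : Matrix ι ι T) (κ : V →+ BQ F G)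
    (hκ : ∀ (r : R) (y : V), κ (algebraMap R T r • y) = r • κ y),
    PerfTr τ → IsSMulRegular C g → Quo g T → IsSMulRegular T (algebraMap C T f) →
    algebraMap R C F = u * f + u' * g → algebraMap R C G = v' * f + v * g →
    (∀ c : C, κ (algebraMap T V (algebraMap C T c)) =
      Ideal.Quotient.mk _ (τ ((u * v - u' * v') * c))) →
    SymAdj δ (ρ.map (Algebra.ofId R T)) l →
    Pres (ρ.map (Algebra.ofId R T)) l (algebraMap C T f) Y → Neut (-δ) F G (Y.tr R κ hκ).neg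

/-! ### moving a curve -/

def S_B1 : Prop :=
  ∀ (R A S B : Type u) [CommRing R] [IsNoetherianRing R] [Ring A] [Algebra R A] [StarRing A]
    [SA R A] [CommRing S] [Algebra R S] [AddCommGroup B] [Module R B] (p : Ideal R) (z : R)
    (τS : S →ₗ[R] B) (δ : ℤˣ) (Y : FM R A R B), Nrm p S →
    Bijective ((LinearMap.mul R S).compr₂ τS) → IsSMulRegular B z →
    (∀ c, c ∉ p → ∃ k : ℕ, z ^ k ∈ p ⊔ Ideal.span {c}) → Y.Good δ → Y.Aniso →
    ∃ (W : FM R A S S) (j : W.M →+ Y.M) (c : R), W.Good δ ∧ Module.Free S W.M ∧ Injective W.b ∧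
      (∀ (r : R) (w : W.M), j (algebraMap R S r • w) = r • j w) ∧
      Eqv W.toRM Y.toRM j ∧ (∀ w w', Y.b (j w) (j w') = τS (W.b w w')) ∧ c ∉ p ∧
      ∀ y : Y.M, (∀ r ∈ p, r • y = 0) → ∃ w, j w = c • y

def S_B2 : Prop :=
  ∀ (R A S : Type u) [CommRing R] [Ring A] [Algebra R A] [StarRing A] [SA R A] [CommRing S]
    [IsDomain S] [IsPrincipalIdealRing S] [Algebra R S] (x : S) (δ : ℤˣ) (W : FM R A S S),
    x ≠ 0 → (∀ 𝔫 : Ideal S, 𝔫.IsMaximal → x ∈ 𝔫) → W.Good δ → Module.Free S W.M →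
    Injective W.b →
    ∃ (ι : Type) (_ : Fintype ι) (_ : DecidableEq ι) (ρ : MRep R A S ι) (l : Matrix ι ι S)
      (θ : W.M →ₗ[S] (ι → S)) (k : ℕ), SymAdj δ ρ l ∧ (∀ ξ, ∃ w, l *ᵥ w = x • ξ) ∧
      Eqv W.toRM ρ.dual.rm θ ∧ (∀ w w', W.b w w' = θ w ⬝ᵥ l *ᵥ θ w') ∧
      ∀ v, ∃ w, θ w = x ^ k • v

def S_B3 : Prop :=
  ∀ (R A S V : Type u) [CommRing R] [Ring A] [Algebra R A] [StarRing A] [SA R A] [CommRing S]
    [Algebra R S] [CommRing V] [Algebra R V] [Algebra S V] [IsScalarTower R S V] (ι : Type)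
    [Fintype ι] [DecidableEq ι] (ρ : MRep R A S ι) (l : Matrix ι ι S) (x : S) (δ : ℤˣ),
    IsSMulRegular S x → Quo x V → SymAdj δ ρ l → (∀ ξ, ∃ w, l *ᵥ w = x • ξ) →
    ∃ N : FM R A V V, N.Good δ ∧ N.Perf ∧ Pres ρ l x (N.res S)

def S_Glue : Prop :=
  ∀ (R A T S D V W : Type u) [CommRing R] [Ring A] [Algebra R A] [StarRing A] [SA R A]
    [CommRing T] [IsNoetherianRing T] [Algebra R T] [CommRing S] [Algebra R S] [Algebra T S]
    [IsScalarTower R T S] [CommRing D] [Algebra R D] [Algebra T D] [IsScalarTower R T D]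
    [CommRing V] [Algebra R V] [Algebra S V] [IsScalarTower R S V] [Algebra D V]
    [IsScalarTower R D V] [CommRing W] [Algebra T W] (x t : T) (δ : ℤˣ) (N : FM R A V V)
    (ι ι' : Type) [Fintype ι] [DecidableEq ι] [Fintype ι'] [DecidableEq ι'] (ρ : MRep R A S ι)
    (l : Matrix ι ι S) (ρ' : MRep R A D ι') (l' : Matrix ι' ι' D),
    IsSMulRegular T x → IsSMulRegular T t → IsSMulRegular S (algebraMap T S x) →
    IsSMulRegular D (algebraMap T D t) → Quo t S → Quo x D → Quo (algebraMap T S x) V →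
    Quo (algebraMap T D t) V →
    (∀ c, algebraMap S V (algebraMap T S c) = algebraMap D V (algebraMap T D c)) →
    Quo (x * t) W → N.Good δ → N.Perf → SymAdj δ ρ l → SymAdj δ ρ' l' →
    Pres ρ l (algebraMap T S x) (N.res S) → Pres ρ' l' (algebraMap T D t) (N.res D) →
    ∃ (M : FM R A T W) (θ : (ι → S) →+ M.M), M.Good δ ∧ M.Perf ∧ PD T M.M 1 ∧
      (∀ (c : T) (w : ι → S), θ (algebraMap T S c • w) = c • θ w) ∧ Eqv ρ.dual.rm M.toRM θ ∧
      (∀ (w w' : ι → S) (c : T), algebraMap T S c = w ⬝ᵥ l *ᵥ w' →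
        M.b (θ w) (θ w') = algebraMap T W (x * c)) ∧ ∀ m : M.M, ∃ w, θ w = x • m

/-- a neutral form which agrees with a given form along the curve -/
def S_B4 : Prop :=
  ∀ (R A S C : Type u) [CommRing R] [IsDomain R] [IsNoetherianRing R] [IsLocalRing R] [Ring A]
    [Algebra R A] [StarRing A] [SA R A] [CommRing S] [Algebra R S] [CommRing C] [Algebra R C]
    [Algebra C S] [IsScalarTower R C S] (x F G : R) (τ : C →ₗ[R] R) (g g' t w u : C) (δ : ℤˣ)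
    (ι : Type) [Fintype ι] [DecidableEq ι] (ρ : MRep R A S ι) (l : Matrix ι ι S),
    x ≠ 0 → IsSMulRegular S (algebraMap R S x) → Mod x S C τ g t → RS F G →
    algebraMap R C G = g * g' → algebraMap R C F = w * (algebraMap R C x * t) + u * g →
    SymAdj δ ρ l → (∀ ξ, ∃ v, l *ᵥ v = algebraMap R S x • ξ) →
    ∃ (Y : FM R A R (BQ F G)) (θ : (ι → S) →+ Y.M), Y.Good δ ∧ Neut (-δ) F G Y ∧
      (∀ (r : R) (v : ι → S), θ (algebraMap R S r • v) = r • θ v) ∧ Eqv ρ.dual.rm Y.toRM θ ∧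
      (∀ (v v' : ι → S) (c : C), algebraMap C S c = v ⬝ᵥ l *ᵥ v' →
        Y.b (θ v) (θ v') = -Ideal.Quotient.mk _ (τ (w * algebraMap R C x * g' * c))) ∧
      ∀ y : Y.M, ∃ v, θ v = x • y

def S_StepB : Prop :=
  ∀ (R A S C : Type u) [CommRing R] [IsDomain R] [IsNoetherianRing R] [IsLocalRing R] [Ring A]
    [Algebra R A] [StarRing A] [SA R A] [CommRing S] [Algebra R S] [CommRing C] [Algebra R C]
    [Algebra C S] [IsScalarTower R C S] (x f G z : R) (p 𝔞 : Ideal R) (τ : C →ₗ[R] R) (g t : C)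
    (δ : ℤˣ) (Y : FM R A R (BQ (x * f) G)), x ∈ maximalIdeal R → z ∈ maximalIdeal R → Crv x p →
    Nrm p S → Mod x S C τ g t → f ∈ p → g ∣ algebraMap R C G → RS (x * f) G →
    IsSMulRegular (BQ (x * f) G) z → 𝔞 ≤ Ideal.span {x} → Y.Good δ → Y.Aniso →
    (∀ r ∈ p * 𝔞, Y.Kil r) →
    ∃ (Y' : FM R A R (BQ (x * f) G)) (N : Submodule R (Y.sum Y').M) (c : R), Y'.Good δ ∧
      Neut (-δ) (x * f) G Y' ∧ (∀ r ∈ p * 𝔞, Y'.Kil r) ∧ (Y.sum Y').Stab N ∧ (Y.sum Y').Isot N ∧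
      c ∉ p ∧ ∀ a ∈ 𝔞, ∀ v ∈ (Y.sum Y').perp N, (c * a) • v ∈ N

def S_Last : Prop :=
  ∀ (R A : Type u) [CommRing R] [IsRegularLocalRing R] [Ring A] [Algebra R A] [StarRing A]
    [SA R A], ringKrullDim R = 3 → ∀ (x f G : R) (δ : ℤˣ) (Y : FM R A R (BQ (x * f) G)),
    x ∈ maximalIdeal R → x ∉ maximalIdeal R ^ 2 → RS (x * f) G → Y.Good δ → Y.Perf → Y.Kil x →
    Neut (-δ) (x * f) G Y

/-- finiteness of the normalisations of the curves -/
def FinN (R : Type u) [CommRing R] : Prop :=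
  ∀ (p : Ideal R) [p.IsPrime], ringKrullDim (R ⧸ p) = 1 →
    Module.Finite (R ⧸ p) (integralClosure (R ⧸ p) (FractionRing (R ⧸ p)))

def S_Core : Prop :=
  ∀ (R A : Type u) [CommRing R] [IsRegularLocalRing R] [Ring A] [Algebra R A] [StarRing A]
    [SA R A], ringKrullDim R = 3 → FinN R → ∀ (E : FM R A R R) (ε : ℤˣ), E.Sp ε → E.HasLag →
    E.WNull ε

/-! ### cancellation -/

def S_SSC : Prop :=
  ∀ (A U V V' : Type u) [Ring A] [AddCommGroup U] [Module A U] [AddCommGroup V] [Module A V]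
    [AddCommGroup V'] [Module A V'] [IsSemisimpleModule A U] [IsSemisimpleModule A V']
    [IsNoetherian A U], Nonempty ((U × V) ≃ₗ[A] (U × V')) → Nonempty (V ≃ₗ[A] V')

def S_KC : Prop :=
  ∀ (R A k : Type u) [CommRing R] [Ring A] [Algebra R A] [StarRing A] [SA R A] [Field k]
    [Algebra R k] (X X' : RM R A k) (f : X.M →ₗ[k] X'.M) (N : Submodule k X'.M),
    Surjective (algebraMap R k) → Module.Finite k X.M → X.Iso X' → Eqv X X' f → X'.Stab N →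
    IsCompl (LinearMap.range f) N →
    ∃ g : X.M →ₗ[k] X'.M, Eqv X X' g ∧ (∀ x, f x = 0 → g x = 0 → x = 0) ∧
      (LinearMap.ker f).map g = N

def S_FT : Prop :=
  ∀ (R A k : Type u) [CommRing R] [Ring A] [Algebra R A] [StarRing A] [SA R A] [Field k]
    [Algebra R k] (E : FM R A k k) (ε : ℤˣ) (Λ Λ' : Submodule k E.M)
    (θ : E.M →ₗ[k] E.M →ₗ[k] k) (pJ pJ' : E.M →ₗ[k] E.M), E.Good ε → E.Perf → E.IsLag Λ →
    E.IsLag Λ' → IsCompl Λ Λ' → Eqv E.toRM E.toRM pJ → Eqv E.toRM E.toRM pJ' →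
    (∀ a x y, θ (E.ρ a x) y = θ x (E.ρ (star a) y)) → (∀ x ∈ Λ', pJ x = 0 ∧ pJ' x = 0) →
    ∃ (n : E.M →ₗ[k] E.M), (∀ x, n x ∈ Λ') ∧
      (∀ x y, E.b (n x) y = θ (pJ x) (pJ' y) - ε • θ (pJ y) (pJ' x)) ∧
      E.IsLag (Λ.map (LinearMap.id + n)) ∧ IsCompl (Λ.map (LinearMap.id + n)) Λ'

def S_Cmpl : Prop :=
  ∀ (R A k : Type u) [CommRing R] [Ring A] [Algebra R A] [StarRing A] [SA R A] [Field k]
    [Algebra R k] (E : FM R A k k) (ε : ℤˣ) (Λ Y : Submodule k E.M), E.Good ε → E.Perf →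
    E.IsLag Λ → E.Stab Y → E.Isot Y → Disjoint Λ Y →
    ∃ Λ', E.IsLag Λ' ∧ IsCompl Λ Λ' ∧ Y ≤ Λ'

def S_Fi : Prop :=
  ∀ (R A k : Type u) [CommRing R] [Ring A] [Algebra R A] [StarRing A] [SA R A] [Field k]
    [Algebra R k] (E : FM R A k k) (ε : ℤˣ) (Λ : Submodule k E.M) (hΛ : E.IsLag Λ)
    (X Y : RM R A k) (i : X.M →ₗ[k] E.M), Surjective (algebraMap R k) → E.Good ε → E.Perf →
    Eqv X E.toRM i → Injective i → E.Isot (LinearMap.range i) →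
    (E.toRM.sub Λ hΛ.1).Iso (Y.prod (X.prod X.dual)) →
    ∃ Λ' Λ₁, E.IsLag Λ' ∧ E.IsLag Λ₁ ∧ IsCompl Λ Λ' ∧ IsCompl Λ₁ Λ' ∧
      Disjoint Λ₁ (LinearMap.range i)

def S_Fii : Prop :=
  ∀ (R A k : Type u) [CommRing R] [Ring A] [Algebra R A] [StarRing A] [SA R A] [Field k]
    [Algebra R k] (E : FM R A k k) (ε : ℤˣ) (Λ P P' : Submodule k E.M) (hΛ : E.IsLag Λ)
    (hP : E.Stab P), Surjective (algebraMap R k) → E.Good ε → E.Perf → E.Stab P' →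
    IsCompl P P' → (∀ x ∈ P, ∀ y ∈ P', E.b x y = 0) →
    (E.toRM.sub Λ hΛ.1).Iso (E.toRM.sub P hP) →
    ∃ Λ' Λ₁, E.IsLag Λ' ∧ E.IsLag Λ₁ ∧ IsCompl Λ Λ' ∧ IsCompl Λ₁ Λ' ∧ IsCompl Λ₁ P ∧
      IsCompl Λ₁ P'

def S_Lift : Prop :=
  ∀ (R A : Type u) [CommRing R] [IsLocalRing R] [Ring A] [Algebra R A] [StarRing A] [SA R A]
    (E : FM R A R R) (ε : ℤˣ) (e : E.M →ₗ[R] E.M), E.Sp ε → E.IsProj e →
    (E.bc (ResidueField R)).Good ε ∧ (E.bc (ResidueField R)).Perf ∧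
    (E.bc (ResidueField R)).IsLag (LinearMap.range (e.baseChange (ResidueField R))) ∧
    ∀ Λ', (E.bc (ResidueField R)).IsLag Λ' →
      IsCompl (LinearMap.range (e.baseChange (ResidueField R))) Λ' →
      ∃ e', E.IsProj e' ∧ LinearMap.range (e'.baseChange (ResidueField R)) = Λ'

def S_Bc : Prop :=
  ∀ (R A k : Type u) [CommRing R] [Ring A] [Algebra R A] [StarRing A] [SA R A] [CommRing k]
    [Algebra R k] (X Y : RM R A R), (X.Iso Y → (X.bc k).Iso (Y.bc k)) ∧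
    ((X.prod Y).bc k).Iso ((X.bc k).prod (Y.bc k)) ∧
    (X.FF → (X.dual.bc k).Iso (X.bc k).dual) ∧
    ∀ (e : X.M →ₗ[R] X.M) (h : X.Stab (LinearMap.range e))
      (h' : (X.bc k).Stab (LinearMap.range (e.baseChange k))), (∀ x, e (e x) = e x) →
      ((X.sub _ h).bc k).Iso ((X.bc k).sub _ h')

def S_HypIso : Prop :=
  ∀ (R A : Type u) [CommRing R] [IsLocalRing R] [Ring A] [Algebra R A] [StarRing A] [SA R A]
    (ε : ℤˣ), (∀ (E : FM R A R R) (e : E.M →ₗ[R] E.M) (h : E.Stab (LinearMap.range e)),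
      E.Sp ε → E.IsProj e → (E.toRM.sub _ h).FF ∧ E.Iso ((E.toRM.sub _ h).hyp ε) ∧
        Module.finrank R E.M = 2 * Module.finrank R (LinearMap.range e)) ∧
    (∀ X Y : RM R A R, X.Iso Y → (X.hyp ε).Iso (Y.hyp ε)) ∧
    ∀ X Y : RM R A R, ((X.prod Y).hyp ε).Iso ((X.hyp ε).sum (Y.hyp ε))

def S_HC : Prop :=
  ∀ (R A : Type u) [CommRing R] [IsLocalRing R] [IsNoetherianRing R] [Ring A] [Algebra R A]
    [StarRing A] [SA R A] (E : FM R A R R) (ε : ℤˣ) (X Y : RM R A R), Rk R A → E.Sp ε → X.FF →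
    Y.FF → Module.finrank R E.M = 2 * (Module.finrank R X.M + Module.finrank R Y.M) →
    (E.sum (X.hyp ε)).Hyp → E.Hyp

def S_HC2 : Prop :=
  ∀ (R A : Type u) [CommRing R] [IsLocalRing R] [IsNoetherianRing R] [Ring A] [Algebra R A]
    [StarRing A] [SA R A] (E : FM R A R R) (ε : ℤˣ), Rk R A → E.Sp ε →
    Module.finrank R E.M = 2 * Module.finrank R A → E.WNull ε → E.Hyp

def S_Graph : Prop :=
  ∀ (R A : Type u) [CommRing R] [IsLocalRing R] [IsNoetherianRing R] [Ring A] [Algebra R A]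
    [StarRing A] [SA R A] (E E' : FM R A R R) (ε : ℤˣ), Rk R A → E.Sp ε → E'.Sp ε →
    Module.finrank R E.M = Module.finrank R E'.M → (E.sum E'.neg).Hyp → E.Iso E'

/-! ### Azumaya algebras with involution -/

/-- the hypotheses on the algebra with involution -/
structure AzI (R S A : Type u) [CommRing R] [CommRing S] [Algebra R S] [Ring A] [Algebra S A]
    [Algebra R A] [StarRing A] : Prop where
  tower : IsScalarTower R S A
  dom : IsDomain S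
  fin : Module.Finite R S
  et : Algebra.Etale R S
  az : IsAzumaya S A
  st : ∀ r : R, star (algebraMap R A r) = algebraMap R A r
  fix : ∀ s : S, star (algebraMap S A s) = algebraMap S A s → ∃ r, algebraMap R S r = s
  two : IsUnit (2 : R)

/-- a separability idempotent over the centre -/
def S_AzS : Prop :=
  ∀ (S A : Type u) [CommRing S] [Ring A] [Algebra S A] [IsAzumaya S A],
    ∃ (τ : A →ₗ[S] S) (k : ℕ) (a b : Fin k → A), τ 1 = 1 ∧
      (∀ x, ∑ i, a i * x * b i = algebraMap S A (τ x)) ∧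
      ∀ c : A, ∑ i, (c * a i) ⊗ₜ[S] b i = ∑ i, a i ⊗ₜ[S] (b i * c)

def S_FreeS : Prop :=
  ∀ (S M : Type u) [CommRing S] [IsDomain S] [Finite (MaximalSpectrum S)] [AddCommGroup M]
    [Module S M] [Module.Finite S M] [Module.Projective S M], Module.Free S M

def S_Sep : Prop :=
  ∀ (R S A : Type u) [CommRing R] [IsLocalRing R] [CommRing S] [Algebra R S] [Ring A]
    [Algebra S A] [Algebra R A] [StarRing A], AzI R S A → SA R A

def S_Tr0 : Prop :=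
  ∀ (S A : Type u) [CommRing S] [Finite (MaximalSpectrum S)] [Ring A] [Algebra S A]
    [IsAzumaya S A] [Module.Free S A],
    ∃ τ : A →ₗ[S] S, (∀ x y, τ (x * y) = τ (y * x)) ∧ PerfTr τ

def S_Tr : Prop :=
  ∀ (R S A : Type u) [CommRing R] [IsLocalRing R] [CommRing S] [Algebra R S] [Ring A]
    [Algebra S A] [Algebra R A] [StarRing A], AzI R S A →
    ∃ (τ : A →ₗ[R] R) (ε : ℤˣ), (∀ x y, τ (x * y) = τ (y * x)) ∧ PerfTr τ ∧
      ∀ x, τ (star x) = ε • τ x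

def S_Rk : Prop :=
  ∀ (R S A : Type u) [CommRing R] [IsLocalRing R] [IsNoetherianRing R] [CommRing S] [Algebra R S]
    [Ring A] [Algebra S A] [Algebra R A] [StarRing A], AzI R S A → Rk R A

/-- hermitian units which are norms over the fraction field are norms -/
def HermN (R A : Type u) [CommRing R] [Ring A] [Algebra R A] [StarRing A] : Prop :=
  ∀ (h : Aˣ) (c c' : A) (d d' : R), star (h : A) = h → d ≠ 0 → d' ≠ 0 →
    c * star c = (d * d) • (h : A) → c' * c = algebraMap R A d' → c * c' = algebraMap R A d' →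
    ∃ a : Aˣ, (a : A) * star (a : A) = h

def S_Herm : Prop :=
  ∀ (R A : Type u) [CommRing R] [IsDomain R] [IsLocalRing R] [IsNoetherianRing R] [Ring A]
    [Algebra R A] [StarRing A] [SA R A] (τ : A →ₗ[R] R) (ε : ℤˣ), (∀ x y, τ (x * y) = τ (y * x)) →
    PerfTr τ → (∀ x, τ (star x) = ε • τ x) → Rk R A →
    (∀ E : FM R A R R, E.Sp ε → E.HasLag → E.WNull ε) → HermN R A

def S_Tor : Prop :=
  ∀ (R A : Type u) [CommRing R] [IsDomain R] [IsLocalRing R] [IsNoetherianRing R] [Ring A]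
    [Algebra R A] [StarRing A] [SA R A] (σ : A →ₗ[R] A), (∀ x, σ x = star x) → Rk R A →
    HermN R A → ∀ (K : Type u) [Field K] [Algebra R K] [IsFractionRing R K] (O : Type u)
    [CommRing O] [Algebra R O], IsUTorsor σ O → Nonempty (O →ₐ[R] K) → Nonempty (O →ₐ[R] R)

end Pool.Agent.P.MP_46a8f8_ag.GU
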