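import Pool.Agent.P.MP_46a8f8_ag.GU.Qc

/-!
The reduced norm for a split centre.
-/

namespace Pool.Agent.P.MP_46a8f8_ag.GU

open TensorProduct Function

universe u

namespace SplNP

section one

variable {R A₁ : Type u} [CommRing R] [Ring A₁] [Algebra R A₁] {n : ℕ} {N : NFam R R A₁}
  {T : Type u} [CommRing T] [Algebra R T]

theorem ov_self (x : T ⊗[R] A₁) : ov R R A₁ T x = x := by
  induction x using TensorProduct.induction_on with
  | zero => simp
  | tmul t a => rfl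
  | add x y hx hy => rw [map_add, hx, hy]

theorem det_one (h : NF n N) {y : T ⊗[R] A₁} (hy : N T y = 1) (T' : Type u) [CommRing T']
    [Algebra R T'] (f : T →ₐ[R] T') (m : ℕ) (Ψ : T' ⊗[R] A₁ ≃ₐ[T'] Matrix (Fin m) (Fin m) T') :
    (Ψ (mp A₁ f y)).det = 1 := by
  have e := h.det T' m Ψ (mp A₁ f y)
  rw [← h.nat, hy, map_one, map_one, ov_self] at e
  exact e.symm

theorem alg_eq {T' : Type u} [CommRing T'] (i j : Algebra R T')
    (h : @IsScalarTower R R T' _ j.toSMul i.toSMul) : i = j := by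
  refine Algebra.algebra_ext _ _ fun r => ?_
  have e := @IsScalarTower.smul_assoc R R T' _ j.toSMul i.toSMul h r 1 1
  rw [@Algebra.smul_def R T' _ _ j, @Algebra.smul_def R T' _ _ j, @Algebra.smul_def R T' _ _ i,
    smul_eq_mul, mul_one, mul_one, map_one, mul_one, mul_one] at e
  exact e.symm

theorem of_det (h : NF n N) {y : T ⊗[R] A₁}
    (hy : ∀ (T' : Type u) [CommRing T'] [Algebra R T'] (f : T →ₐ[R] T') (m : ℕ)
      (Ψ : T' ⊗[R] A₁ ≃ₐ[T'] Matrix (Fin m) (Fin m) T'), (Ψ (mp A₁ f y)).det = 1) :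
    N T y = 1 := by
  refine h.sep T _ _ fun T' _ i j k f hΨ => ?_
  obtain rfl : i = j := alg_eq i j k
  obtain ⟨Ψ⟩ := hΨ
  rw [h.nat, h.det T' n Ψ, ov_self, hy T' f n Ψ, map_one, map_one]

end one

section two

variable {R S A A₁ : Type u} [CommRing R] [CommRing S] [Algebra R S] [Ring A] [Algebra S A]
  [Algebra R A] [IsScalarTower R S A] [Ring A₁] [Algebra R A₁] {T T' : Type u} [CommRing T]
  [Algebra R T] [CommRing T'] [Algebra R T']

omit [Algebra S A] in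
theorem bcA_mp (π : A →ₐ[R] A₁) (f : T →ₐ[R] T') (x : T ⊗[R] A) :
    bcA π T' (mp A f x) = mp A₁ f (bcA π T x) := by
  induction x using TensorProduct.induction_on with
  | zero => simp
  | tmul t a => rfl
  | add x y hx hy => simp only [map_add, hx, hy]

theorem conj_mp (σ : A →ₗ[R] A) (f : T →ₐ[R] T') (x : T ⊗[R] A) :
    conj σ (mp A f x) = mp A f (conj σ x) := by
  unfold conj
  induction x using TensorProduct.induction_on with
  | zero => simp
  | tmul t a => rfl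
  | add x y hx hy => simp only [map_add, hx, hy]

/-- a splitting of the opposite algebra gives a splitting -/
theorem op_split {B C : Type u} [Ring B] [Algebra T B] [Ring C] [Algebra T C] {m : ℕ}
    (Θ : C ≃ₐ[T] Bᵐᵒᵖ) (Φ : C ≃ₐ[T] Matrix (Fin m) (Fin m) T) :
    ∃ Ψ : B ≃ₐ[T] Matrix (Fin m) (Fin m) T,
      ∀ y, Ψ y = (Φ (Θ.symm (MulOpposite.op y))).transpose :=
  ⟨((AlgEquiv.opOp T B).trans (AlgEquiv.op (Θ.symm.trans Φ))).trans
    (Matrix.transposeAlgEquiv (Fin m) T T).symm, fun _ => rfl⟩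

variable {σ : A →ₗ[R] A} {ι : S →ₐ[R] S} {e : S} {pr : S →ₐ[R] R} {π : A →ₐ[R] A₁}
  {s : A₁ →ₗ[R] A} {n : ℕ} {N : NFam R R A₁} {g : T ⊗[R] A}

theorem half (h2 : S_SplC.{u}) (hs : SD σ ι e pr π s) (h : NF n N) (hg : IsUni σ g)
    (hN : N T (bcA π T g) = 1) [Algebra S T'] [IsScalarTower R S T']
    (he : algebraMap S T' e = 1 ∨ algebraMap S T' e = 0) (f : T →ₐ[R] T') (m : ℕ)
    (Φ : T' ⊗[S] A ≃ₐ[T'] Matrix (Fin m) (Fin m) T') :
    (Φ (ov R S A T' (mp A f g))).det = 1 := by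
  obtain ⟨c1, c0⟩ := h2 R S A A₁ T' σ ι e pr π s hs
  rcases he with he | he
  · obtain ⟨Θ, hΘ⟩ := c1 he
    have := det_one h hN T' f m (Θ.symm.trans Φ)
    rwa [← bcA_mp, ← hΘ, AlgEquiv.trans_apply, AlgEquiv.symm_apply_apply] at this
  · obtain ⟨Θ, hΘ⟩ := c0 he
    obtain ⟨Ψ, hΨ⟩ := op_split Θ Φ
    have hN' : N T (bcA π T (conj σ g)) = 1 := by
      rw [← one_mul (N T _), ← hN, ← map_mul, ← map_mul, hg.1, map_one, map_one, hN]
    have := det_one h hN' T' f m Ψ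
    rwa [← bcA_mp, ← conj_mp, hΨ, ← hΘ, AlgEquiv.symm_apply_apply, Matrix.det_transpose] at this

theorem quot (h1 : S_SplB.{u}) (h2 : S_SplC.{u}) (hs : SD σ ι e pr π s) (h : NF n N)
    (hg : IsUni σ g) (hN : N T (bcA π T g) = 1) [Algebra S T'] [IsScalarTower R S T']
    (I : Ideal T') (he : 1 - algebraMap S T' e ∈ I ∨ algebraMap S T' e ∈ I) (f : T →ₐ[R] T')
    (m : ℕ) (Φ : T' ⊗[S] A ≃ₐ[T'] Matrix (Fin m) (Fin m) T') :
    (Φ (ov R S A T' (mp A f g))).det - 1 ∈ I := by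
  obtain ⟨Φ', hΦ⟩ := h1 S A T' (T' ⧸ I) (Ideal.Quotient.mkₐ S I) m Φ
  have he' : algebraMap S (T' ⧸ I) e = 1 ∨ algebraMap S (T' ⧸ I) e = 0 :=
    he.imp (fun he => (Ideal.Quotient.eq.2 he).symm) fun he => Ideal.Quotient.eq_zero_iff_mem.2 he
  have := half h2 hs h hg hN he' (((Ideal.Quotient.mkₐ S I).restrictScalars R).comp f) m Φ'
  rw [← H90P.mp_mp, ← NFeP.ov_nat, hΦ] at this
  refine Ideal.Quotient.eq.1 ?_
  rw [map_one, ← this]
  exact (Ideal.Quotient.mk I).map_det _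

end two

end SplNP

theorem pSplN (h1 : S_SplB.{u}) (h2 : S_SplC.{u}) : S_SplN.{u} := by
  intro R S A A₁ T _ _ _ _ _ _ _ _ _ _ _ σ ι e pr π s n N g hs h hg
  constructor
  · refine fun hx => SplNP.of_det h fun T' _ _ f m Ψ => ?_
    let : Algebra S T' := ((algebraMap R T').comp pr.toRingHom).toAlgebra
    have ea : ∀ x : S, algebraMap S T' x = algebraMap R T' (pr x) := fun _ => rfl
    have : IsScalarTower R S T' :=
      IsScalarTower.of_algebraMap_eq fun r => by rw [ea, pr.commutes]; rfl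
    obtain ⟨Θ, hΘ⟩ := (h2 R S A A₁ T' σ ι e pr π s hs).1 (by rw [ea, hs.pe, map_one])
    have e1 : ((Θ.trans Ψ) (ov R S A T' (mp A f g))).det = f 1 := hx T' f m (Θ.trans Ψ)
    rwa [AlgEquiv.trans_apply, hΘ, SplNP.bcA_mp, map_one] at e1
  · intro hN T' _ _ _ _ f m Φ
    have ee : algebraMap S T' e * (1 - algebraMap S T' e) = 0 := by
      rw [mul_sub, ← map_mul, hs.em, hs.pe, one_smul, mul_one, sub_self]
    obtain ⟨a, ha⟩ := Ideal.mem_span_singleton'.1 (SplNP.quot h1 h2 hs h hg hN _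
      (Or.inl (Ideal.mem_span_singleton_self _)) f m Φ)
    obtain ⟨b, hb⟩ := Ideal.mem_span_singleton'.1 (SplNP.quot h1 h2 hs h hg hN _
      (Or.inr (Ideal.mem_span_singleton_self _)) f m Φ)
    change (Φ (ov R S A T' (mp A f g))).det = f 1
    rw [map_one]
    linear_combination (-algebraMap S T' e) * ha - (1 - algebraMap S T' e) * hb + (a + b) * ee

end Pool.Agent.P.MP_46a8f8_ag.GU
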