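import Pool.Agent.P.MP_46a8f8_ag.GU.Base2

/-!
Moving one curve: an anisotropic form is compared with a neutral form along the curve.
-/

namespace Pool.Agent.P.MP_46a8f8_ag.GU

open TensorProduct Function Matrix IsLocalRing

universe u

namespace StepBP

/-- a power of an element of the maximal ideal lies in `p + (c)` -/
theorem pow_mem {R : Type u} [CommRing R] [IsLocalRing R] {x z : R} {p : Ideal R} (h : Crv x p)
    (hz : z ∈ maximalIdeal R) (c : R) (hc : c ∉ p) : ∃ k : ℕ, z ^ k ∈ p ⊔ Ideal.span {c} := by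
  have : z ∈ (p ⊔ Ideal.span {c}).radical := by
    rw [Ideal.radical_eq_sInf, Submodule.mem_sInf]
    rintro q ⟨hq, hq'⟩
    have hlt : p < q := lt_of_le_of_ne (le_sup_left.trans hq) fun e =>
      hc (e ▸ hq (Ideal.mem_sup_right (Ideal.mem_span_singleton_self c)))
    rw [h.one q hq' hlt]
    exact hz
  exact this

/-- every maximal ideal of a finite algebra contains the maximal ideal of the local base -/
theorem mem_max {R S : Type u} [CommRing R] [IsLocalRing R] [CommRing S] [Algebra R S]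
    [Module.Finite R S] {x : R} (hx : x ∈ maximalIdeal R) (𝔫 : Ideal S) (h : 𝔫.IsMaximal) :
    algebraMap R S x ∈ 𝔫 := by
  have := Ideal.isMaximal_comap_of_isIntegral_of_isMaximal (R := R) 𝔫
  rw [← Ideal.mem_comap, IsLocalRing.eq_maximalIdeal this]
  exact hx

section

variable {R A S B : Type u} [CommRing R] [Ring A] [Algebra R A] [CommRing S] [Algebra R S]
  [AddCommGroup B] [Module R B]

/-- the graph of a pair of additive maps compatible with scalars -/
def gr (W : FM R A S S) (Y Y' : FM R A R B) (j : W.M →+ Y.M) (j' : W.M →+ Y'.M)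
    (hj : ∀ (r : R) (w : W.M), j (algebraMap R S r • w) = r • j w)
    (hj' : ∀ (r : R) (w : W.M), j' (algebraMap R S r • w) = r • j' w) :
    Submodule R (Y.sum Y').M where
  carrier := {v | ∃ w, (j w, j' w) = v}
  add_mem' := by
    rintro _ _ ⟨w, rfl⟩ ⟨w', rfl⟩
    exact ⟨w + w', Prod.ext (map_add j w w') (map_add j' w w')⟩
  zero_mem' := ⟨0, Prod.ext (map_zero j) (map_zero j')⟩
  smul_mem' := by
    rintro r _ ⟨w, rfl⟩
    exact ⟨algebraMap R S r • w, Prod.ext (hj r w) (hj' r w)⟩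

/-- the comparison of two forms which agree up to sign on a common lattice -/
theorem core (W : FM R A S S) (Y Y' : FM R A R B) (j : W.M →+ Y.M) (j' : W.M →+ Y'.M)
    (τS : S →ₗ[R] B) (hτ : Injective ((LinearMap.mul R S).compr₂ τS)) (hW : Injective W.b)
    (hj : ∀ (r : R) (w : W.M), j (algebraMap R S r • w) = r • j w)
    (hj' : ∀ (r : R) (w : W.M), j' (algebraMap R S r • w) = r • j' w)
    (he : Eqv W.toRM Y.toRM j) (he' : Eqv W.toRM Y'.toRM j')
    (hb : ∀ w w', Y.b (j w) (j w') = τS (W.b w w'))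
    (hb' : ∀ w w', Y'.b (j' w) (j' w') = -τS (W.b w w')) :
    ∃ N : Submodule R (Y.sum Y').M, (Y.sum Y').Stab N ∧ (Y.sum Y').Isot N ∧
      ∀ (a c d : R) (v : (Y.sum Y').M), v ∈ (Y.sum Y').perp N → (∃ w, j w = c • a • v.1) →
        (∃ w, j' w = d • a • v.2) → (c * d * a) • v ∈ N := by
  refine ⟨gr W Y Y' j j' hj hj', ?_, ?_, ?_⟩
  · rintro a _ ⟨w, rfl⟩
    exact ⟨W.ρ a w, Prod.ext (he a w) (he' a w)⟩
  · rintro _ ⟨w, rfl⟩ _ ⟨w', rfl⟩
    change Y.b (j w) (j w') + Y'.b (j' w) (j' w') = 0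
    rw [hb, hb', add_neg_cancel]
  · rintro a c d ⟨m, m'⟩ hv ⟨w₁, h1⟩ ⟨w₂, h2⟩
    have h1' : j w₁ = c • a • m := h1
    have h2' : j' w₂ = d • a • m' := h2
    have h3 : ∀ w, τS (W.b (algebraMap R S d • w₁ - algebraMap R S c • w₂) w) = 0 := by
      intro w
      have h4 : Y.b m (j w) + Y'.b m' (j' w) = 0 := hv _ ⟨w, rfl⟩
      have h5 := hb (algebraMap R S d • w₁) w
      have h6 := hb' (algebraMap R S c • w₂) w
      rw [hj, h1'] at h5
      rw [hj', h2'] at h6
      rw [map_sub, LinearMap.sub_apply, map_sub, ← h5, sub_eq_add_neg, ← h6]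
      simp only [map_smul, LinearMap.smul_apply]
      rw [smul_comm d c, ← smul_add, ← smul_add, ← smul_add, h4, smul_zero, smul_zero, smul_zero]
    have h7 : algebraMap R S d • w₁ - algebraMap R S c • w₂ = 0 := by
      refine hW (LinearMap.ext fun w => ?_)
      rw [map_zero, LinearMap.zero_apply]
      refine hτ (LinearMap.ext fun s => ?_)
      have := h3 (s • w)
      rw [map_smul, smul_eq_mul, mul_comm] at this
      rw [map_zero, LinearMap.zero_apply]
      exact this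
    refine ⟨algebraMap R S d • w₁, Prod.ext ?_ ?_⟩
    · change j _ = (c * d * a) • m
      rw [hj, h1', smul_smul, smul_smul, mul_comm d c]
    · change j' _ = (c * d * a) • m'
      rw [sub_eq_zero.1 h7, hj', h2', smul_smul, smul_smul]

end

end StepBP

theorem pStepB (h1 : S_Dual.{u}) (h2 : S_B1.{u}) (h3 : S_B2.{u}) (h4 : S_B4.{u}) :
    S_StepB.{u} := by
  intro R A S C _ _ _ _ _ _ _ _ _ _ _ _ _ _ x f G z p 𝔞 τ g t δ Y hx hz hcrv hN hM hf hg hRS hzr
    ha hY hani hkil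
  have := hM.free
  have := hM.fin
  have := hN.dom
  have := hN.pid
  have := hN.fin
  have hp := hcrv.prime
  obtain ⟨g', hg'⟩ := hg
  have hf0 : algebraMap R C f ∈ Ideal.span {g, t} := by
    rw [← hM.ker, ← IsScalarTower.algebraMap_apply]
    exact (hN.ker f).2 hf
  obtain ⟨u₀, f'', hf''⟩ := Ideal.mem_span_pair.1 hf0
  have hxS : algebraMap R S x ≠ 0 := fun e => hcrv.nx ((hN.ker x).1 e)
  have hx0 : x ≠ 0 := fun e => hcrv.nx (e ▸ p.zero_mem)
  obtain ⟨τS, hτ1, hτ2⟩ := h1 R C S τ (x * f) G g g' t (f'' * algebraMap R C x)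
    (algebraMap R C x * u₀) hM.perf hRS hM.surj hM.ker hg' (by rw [map_mul, ← hf'']; ring)
  obtain ⟨W, j, c, hW, hWf, hWi, hj, hje, hjb, hc, hjs⟩ := h2 R A S (BQ (x * f) G) p z τS δ Y hN
    hτ2 hzr (StepBP.pow_mem hcrv hz) hY hani
  obtain ⟨ι, _, _, ρ, l, θ, k, hl, hl', hθe, hθb, hθs⟩ := h3 R A S (algebraMap R S x) δ W hxS
    (StepBP.mem_max hx) hW hWf hWi
  obtain ⟨Y', θ', hY', hneut, hθ'l, hθ'e, hθ'b, hθ's⟩ := h4 R A S C x (x * f) G τ g g' t f''
    (algebraMap R C x * u₀) δ ι ρ l hx0 (fun a b hab => mul_left_cancel₀ hxS hab) hM hRS hg'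
    (by rw [map_mul, ← hf'']; ring) hl hl'
  let j' : W.M →+ Y'.M := θ'.comp θ.toAddMonoidHom
  have hj' : ∀ (r : R) (w : W.M), j' (algebraMap R S r • w) = r • j' w := fun r w => by
    change θ' (θ _) = r • θ' (θ w)
    rw [map_smul, hθ'l]
  have hj'b : ∀ w w', Y'.b (j' w) (j' w') = -τS (W.b w w') := fun w w' => by
    obtain ⟨e, he⟩ := hM.surj (W.b w w')
    rw [← he, hτ1]
    exact hθ'b _ _ e (he.trans (hθb w w'))
  obtain ⟨N, hN1, hN2, hN3⟩ := StepBP.core W Y Y' j j' τS hτ2.1 hWi hj hj' hje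
    (hθ'e.comp hθe) hjb hj'b
  refine ⟨Y', N, c * x ^ k, hY', hneut, fun r hr => ?_, hN1, hN2, fun e => ?_,
    fun a haa v hv => hN3 a c (x ^ k) v hv (hjs _ fun r hr => ?_) ?_⟩
  · refine Submodule.mul_induction_on hr (fun r hr a haa y => ?_) fun r r' e e' y => ?_
    · obtain ⟨a', rfl⟩ := Ideal.mem_span_singleton'.1 (ha haa)
      obtain ⟨v, hv⟩ := hθ's y
      rw [mul_left_comm, mul_smul, mul_smul, ← hv, ← hθ'l, (hN.ker r).2 hr, zero_smul, map_zero,
        smul_zero]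
    · rw [add_smul, e y, e' y, add_zero]
  · exact (hp.mem_or_mem e).elim hc fun e' => hcrv.nx (hp.mem_of_pow_mem k e')
  · rw [smul_smul]
    exact hkil _ (Ideal.mul_mem_mul hr haa) _
  · obtain ⟨a', rfl⟩ := Ideal.mem_span_singleton'.1 (ha haa)
    obtain ⟨v₀, hv₀⟩ := hθ's v.2
    obtain ⟨w, hw⟩ := hθs (algebraMap R S a' • v₀)
    refine ⟨w, ?_⟩
    change θ' (θ w) = _
    rw [hw, ← map_pow, hθ'l, hθ'l, hv₀, mul_smul]

end Pool.Agent.P.MP_46a8f8_ag.GU
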