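import Pool.Agent.P.MP_46a8f8_ag.GU.SuBase

/-!
Statements for the groups given by the reduced norm.
-/

namespace Pool.Agent.P.MP_46a8f8_ag.GU

open TensorProduct Function Matrix IsLocalRing Polynomial

universe u

/-! ### the reduced norm -/

def S_GB0 : Prop :=
  ∀ (R S A : Type u) [CommRing R] [IsLocalRing R] [CommRing S] [IsDomain S] [Algebra R S]
    [Module.Finite R S] [Algebra.Etale R S] [Ring A] [Algebra S A] [IsAzumaya S A] [Algebra R A]
    [IsScalarTower R S A], GB R S A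

def S_GBbc : Prop :=
  ∀ (R S A O : Type u) [CommRing R] [CommRing S] [Algebra R S] [Ring A] [Algebra S A]
    [Algebra R A] [IsScalarTower R S A] [CommRing O] [Algebra R O], GB R S A →
    IsDomain (O ⊗[R] S) → letI := GAP.alg R S A O
    GB O (O ⊗[R] S) (O ⊗[R] A) ∧ Module.finrank (O ⊗[R] S) (O ⊗[R] A) = Module.finrank S A

def S_RkS : Prop :=
  ∀ (R S A : Type u) [CommRing R] [IsLocalRing R] [CommRing S] [Algebra R S] [Ring A]
    [Algebra S A] [Algebra R A], GB R S A → Rk R A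

def S_SplS : Prop :=
  ∀ (S A : Type u) [CommRing S] [IsDomain S] [IsNoetherianRing S] [Finite (MaximalSpectrum S)]
    [Ring A] [Algebra S A] [Module.Free S A] [Module.Finite S A], Az S A →
    ∃ (O : Type u) (_ : CommRing O) (_ : Algebra S O) (n : ℕ), Module.FaithfullyFlat S O ∧
      Nonempty (O ⊗[S] A ≃ₐ[O] Matrix (Fin n) (Fin n) O) ∧ Module.finrank S A = n ^ 2

def S_NFe : Prop :=
  ∀ (R S A : Type u) [CommRing R] [IsLocalRing R] [IsNoetherianRing R] [CommRing S] [Algebra R S]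
    [Ring A] [Algebra S A] [Algebra R A] [IsScalarTower R S A], GB R S A →
    ∃ (n : ℕ) (N : NFam R S A), NF n N

def S_SetN : Prop :=
  ∀ (R S A C : Type u) [CommRing R] [CommRing S] [Algebra R S] [Ring A] [Algebra S A]
    [Algebra R A] [IsScalarTower R S A] [CommRing C] [Algebra R C] (n : ℕ) (N : NFam R S A),
    GB R S A → NF n N → IsDomain (C ⊗[R] S) → letI := GAP.alg R S A C
    ∃ (Ω : Type u) (_ : Field Ω) (_ : Algebra (C ⊗[R] S) Ω)
      (Φ : C ⊗[R] A →ₐ[C ⊗[R] S] Matrix (Fin n) (Fin n) Ω),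
      Setup (C ⊗[R] S) (C ⊗[R] A) Ω n Φ ∧ ∀ x, (Φ x).det = algebraMap (C ⊗[R] S) Ω (N C x)

def S_NFs : Prop :=
  ∀ (R S A : Type u) [CommRing R] [CommRing S] [Algebra R S] [Ring A] [Algebra S A]
    [Algebra R A] [IsScalarTower R S A] [StarRing A] [SA R A] (n : ℕ) (N : NFam R S A),
    GB R S A → NF n N → ∀ (T : Type u) [CommRing T] [Algebra R T] (x : T ⊗[R] A),
      GAP.sm R S A T (N T (cj R A T x)) = cj R A T (GAP.sm R S A T (N T x))

/-! ### units which are reduced norms -/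

def S_BassS : Prop :=
  ∀ (R A : Type u) [CommRing R] [IsLocalRing R] [IsNoetherianRing R] [Ring A] [Algebra R A],
    Sep R A → Bass A

def S_ChiS : Prop :=
  ∀ (R S A Ω : Type u) [CommRing R] [IsRegularLocalRing R] [CommRing S] [Algebra R S] [Ring A]
    [Algebra S A] [Algebra R A] [Field Ω] [Algebra S Ω] (n : ℕ)
    (Φ : A →ₐ[S] Matrix (Fin n) (Fin n) Ω), GB R S A → Setup S A Ω n Φ →
    ∃ χ : Inv A (Ωˣ ⧸ nrdU Φ), IsAdd R χ ∧ ∀ (a : A) (x : Ωˣ), (Φ a).det = x →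
      χ (A ⧸ Submodule.span A {a}) = QuotientGroup.mk x

/-- gluing of maps which are onto modulo a maximal ideal -/
def S_BNg : Prop :=
  ∀ (R A D : Type u) [CommRing R] [Ring A] [Algebra R A] [CommRing D] [Nontrivial D]
    [Finite (MaximalSpectrum D)] [Algebra R D] (X Y : RM R A D), X.FF → Y.FF →
    Module.finrank D X.M = Module.finrank D Y.M →
    (∀ 𝔪 : Ideal D, 𝔪.IsMaximal → ∃ F : X.M →ₗ[D] Y.M, Eqv X Y F ∧
      ∀ y, ∃ x, F x - y ∈ (𝔪 • ⊤ : Submodule D Y.M)) → X.Iso Y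

/-- commensurable lattices are isomorphic -/
def S_BN : Prop :=
  ∀ (R A D : Type u) [CommRing R] [Ring A] [Algebra R A] [CommRing D] [IsDomain D]
    [IsPrincipalIdealRing D] [Finite (MaximalSpectrum D)] [Algebra R D] (Y : RM R A D)
    (N : Submodule D Y.M) (h : Y.Stab N) (d : D), Sep R A → Y.FF → d ≠ 0 → (∀ y : Y.M, d • y ∈ N) →
    (Y.sub N h).Iso Y

def S_ClosedS : Prop :=
  ∀ (R A Γ : Type u) [CommRing R] [IsRegularLocalRing R] [Ring A] [Algebra R A] [CommGroup Γ]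
    (ψ : Inv A Γ), 2 ≤ ringKrullDim R → Sep R A → IsAdd R ψ → Van ψ (maximalIdeal R)

def S_QVS : Prop :=
  ∀ (B R A Γ : Type u) [CommRing B] [IsNoetherianRing B] [IsLocalRing B] [CommRing R]
    [IsDomain R] [IsNoetherianRing R] [IsLocalRing R] [Algebra B R] [IsLocalHom (algebraMap B R)]
    [Ring A] [Algebra R A] [CommGroup Γ] (ψ : Inv A Γ)
    (m : ℕ) (φ : MvPolynomial (Fin m) B →ₐ[B] R) (𝔭 : Ideal R),
    EE (φ : MvPolynomial (Fin m) B →+* R) → ((maximalIdeal B).map (algebraMap B R)).IsPrime →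
    Sep R A → IsAdd R ψ → 𝔭.IsPrime → 2 ≤ 𝔭.height →
    ¬ 𝔭 ≤ (maximalIdeal B).map (algebraMap B R) → Van ψ 𝔭

def S_CmpS : Prop :=
  ∀ (R S A Ω : Type u) [CommRing R] [IsRegularLocalRing R] [CommRing S] [Algebra R S] [Ring A]
    [Algebra S A] [Algebra R A] [Field Ω] [Algebra S Ω] (n : ℕ)
    (Φ : A →ₐ[S] Matrix (Fin n) (Fin n) Ω) (v : Sˣ) (a : A) (f : R), GB R S A →
    Setup S A Ω n Φ → f ≠ 0 → (Φ a).det = algebraMap S Ω (v * algebraMap R S f ^ n) →
    (∀ (Γ : Type u) [CommGroup Γ] (ψ : Inv A Γ), IsAdd R ψ → ∀ 𝔭 : Ideal R, 𝔭.IsPrime →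
      f ∈ 𝔭 → 2 ≤ 𝔭.height → Van ψ 𝔭) → ∃ y : Aˣ, (Φ y).det = algebraMap S Ω v

def S_CmpN : Prop :=
  ∀ (R S A O : Type u) [CommRing R] [CommRing S] [Algebra R S] [Ring A] [Algebra S A]
    [Algebra R A] [IsScalarTower R S A] [CommRing O] [IsRegularLocalRing O] [Algebra R O]
    (n : ℕ) (N : NFam R S A) (v : (O ⊗[R] S)ˣ) (a : O ⊗[R] A) (f : O), GB R S A → NF n N →
    IsDomain (O ⊗[R] S) → f ≠ 0 → N O a = v * algebraMap O (O ⊗[R] S) (f ^ n) →
    (∀ (Γ : Type u) [CommGroup Γ] (ψ : Inv (O ⊗[R] A) Γ), IsAdd O ψ → ∀ 𝔭 : Ideal O, 𝔭.IsPrime →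
      f ∈ 𝔭 → 2 ≤ 𝔭.height → Van ψ 𝔭) → NK N O v

def S_GNs : Prop :=
  ∀ (R S A B O K : Type u) [CommRing R] [CommRing S] [Algebra R S] [Ring A] [Algebra S A]
    [Algebra R A] [IsScalarTower R S A] [CommRing B] [IsRegularLocalRing B] [CommRing O]
    [IsLocalRing O] [Algebra B O] [IsLocalHom (algebraMap B O)] [Algebra.FormallySmooth B O]
    [Algebra.EssFiniteType B O] [Algebra R O] [Field K] [Algebra R K] [Algebra O K]
    [IsScalarTower R O K] [IsFractionRing O K] (n : ℕ) (N : NFam R S A), ringKrullDim B ≤ 2 →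
    GB R S A → NF n N → IsDomain (K ⊗[R] S) → GN N O K

/-! ### neighbourhoods -/

def S_LiftH0 : Prop :=
  ∀ (R A R₀ A₀ C C' : Type u) [CommRing R] [Ring A] [Algebra R A] [Module.Free R A]
    [Module.Finite R A] [CommRing R₀] [Ring A₀] [Algebra R₀ A₀] [CommRing C] [Algebra R C]
    [CommRing C'] [Algebra R C'] (q : C →ₐ[R] C') (j : R₀ →+* C) (φ' : A₀ →+* C' ⊗[R] A),
    Sep R₀ A₀ → Surjective q → (∀ x y, q x = 0 → q y = 0 → x * y = 0) →
    SH0 R A C' ((q : C →+* C').comp j) φ' → ∃ φ, SH0 R A C j φ ∧ ∀ a, mp A q (φ a) = φ' a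

def S_HomQ0 : Prop :=
  ∀ (R A R₀ A₀ T : Type u) [CommRing R] [Ring A] [Algebra R A] [Module.Free R A]
    [Module.Finite R A] [CommRing R₀] [Ring A₀] [Algebra R₀ A₀] [CommRing T] [Algebra R T]
    (j : R₀ →+* T), Sep R₀ A₀ →
    ∃ (Q : Type u) (_ : CommRing Q) (_ : Algebra T Q) (_ : Algebra R Q)
      (_ : IsScalarTower R T Q) (φ : A₀ →+* Q ⊗[R] A), Algebra.FiniteType T Q ∧
      Algebra.FormallySmooth T Q ∧ SH0 R A Q ((algebraMap T Q).comp j) φ ∧
      ∀ (C : Type u) [CommRing C] [Algebra T C] [Algebra R C] [IsScalarTower R T C]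
        (φ' : A₀ →+* C ⊗[R] A), SH0 R A C ((algebraMap T C).comp j) φ' → Nonempty (Q →ₐ[T] C)

def S_Nbh0 : Prop :=
  ∀ (R A R₀ A₀ T D : Type u) [CommRing R] [Ring A] [Algebra R A] [Module.Free R A]
    [Module.Finite R A] [CommRing R₀] [Ring A₀] [Algebra R₀ A₀] [CommRing T]
    [IsNoetherianRing T] [Algebra R T] [CommRing D] [IsDomain D] [Finite (MaximalSpectrum D)]
    [Algebra T D] [Algebra R D] [IsScalarTower R T D] (y : T) (j : R₀ →+* T)
    (φ' : A₀ →+* D ⊗[R] A), Sep R₀ A₀ → IsSMulRegular T y → Quo y D →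
    SH0 R A D ((algebraMap T D).comp j) φ' →
    ∃ (W : Type u) (_ : CommRing W) (_ : IsDomain W) (_ : Algebra T W) (_ : Algebra R W)
      (_ : IsScalarTower R T W) (q : W →ₐ[T] D) (φ : A₀ →+* W ⊗[R] A),
      Algebra.EssFiniteType T W ∧ Algebra.FormallyUnramified T W ∧ Module.Flat T W ∧
      (∀ w, IsUnit (1 + algebraMap T W y * w)) ∧ (∀ w, q w = 0 ↔ algebraMap T W y ∣ w) ∧
      SH0 R A W ((algebraMap T W).comp j) φ

def S_PPa0 : Prop :=
  ∀ (R A O K : Type u) [CommRing R] [Ring A] [Algebra R A] [CommRing O]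
    [IsDomain O] [IsLocalRing O] [IsNoetherianRing O] [UniqueFactorizationMonoid O]
    [Algebra R O] [Field K] [Algebra R K] [Algebra O K] [IsScalarTower R O K]
    [IsFractionRing O K] (n m : ℕ) (π : O), Sep R A → Prime π → Geo π → MPt R A n m π →
    NHm R A n m K π

/-- matrix units and homomorphisms from a matrix algebra -/
def S_MUh : Prop :=
  ∀ (R A : Type u) [CommRing R] [Ring A] [Algebra R A] (n m : ℕ), 0 < n →
    Sep R (Matrix (Fin n) (Fin n) R) ∧ ∀ (C : Type u) [CommRing C] [Algebra R C],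
      MS R A n m C ↔ ∃ φ : Matrix (Fin n) (Fin n) R →+* C ⊗[R] Matrix (Fin m) (Fin m) A,
        SH0 R (Matrix (Fin m) (Fin m) A) C (algebraMap R C) φ

def S_PPm0 : Prop :=
  ∀ (R A O T D K : Type u) [CommRing R] [Ring A] [Algebra R A] [CommRing O]
    [IsDomain O] [IsLocalRing O] [IsNoetherianRing O] [UniqueFactorizationMonoid O]
    [Algebra R O] [CommRing T] [IsDomain T] [Algebra O T] [Module.Finite O T] [CommRing D]
    [IsDomain D] [Algebra T D] [Algebra O D] [Algebra R D] [IsScalarTower O T D]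
    [IsScalarTower R O D] [Field K] [Algebra R K] [Algebra O K] [IsScalarTower R O K]
    [IsFractionRing O K] (n m : ℕ) (π : O) (z : T), 0 < n → Sep R A → Prime π →
    Injective (algebraMap O T) → z ≠ 0 → Quo z D → (∀ r, algebraMap O D r = 0 ↔ π ∣ r) →
    (∀ d : D, ∃ r r' : O, ¬ π ∣ r' ∧ r' • d = algebraMap O D r) → MS R A n m D →
    NHm R A n m K π

def S_LatS : Prop :=
  ∀ (R A D F : Type u) [CommRing R] [Ring A] [Algebra R A] [CommRing D] [IsDomain D]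
    [IsPrincipalIdealRing D] [Finite (MaximalSpectrum D)] [Algebra R D] [Field F] [Algebra R F]
    [Algebra D F] [IsScalarTower R D F] [IsFractionRing D F] (n m : ℕ), Sep R A →
    MS R A n m F → MS R A n m D

def S_PPb0 : Prop :=
  ∀ (R A O K : Type u) [CommRing R] [Ring A] [Algebra R A] [CommRing O]
    [IsRegularLocalRing O] [IsDomain O] [UniqueFactorizationMonoid O]
    [Infinite (ResidueField O)] [Algebra R O] [Field K] [Algebra R K] [Algebra O K]
    [IsScalarTower R O K] [IsFractionRing O K] (n m : ℕ) (π : O), 0 < n → Sep R A →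
    ringKrullDim O ≤ 2 → Prime π → MPt R A n m π → NHm R A n m K π

/-! ### the norm principle -/

def S_LA : Prop :=
  ∀ (F : Type u) [Field F] (ι : Type) [Fintype ι] [DecidableEq ι] (n : ℕ)
    (e : Fin n → Fin n → Matrix ι ι F) (f : Matrix ι ι F) (Q : F[X]) (i₀ : Fin n),
    (∀ i j k l, e i j * e k l = if j = k then e i l else 0) → ∑ i, e i i = 1 →
    (∀ i j, f * e i j = e i j * f) → Q.Monic → f.charpoly = Q ^ n →
    (1 - e i₀ i₀ + f * e i₀ i₀).det = (-1) ^ Q.natDegree * Q.coeff 0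

def S_MN2 : Prop :=
  ∀ (R A Ω : Type u) [CommRing R] [Ring A] [Algebra R A] [Field Ω] [Algebra R Ω] (n : ℕ)
    (Φ : A →ₐ[R] Matrix (Fin n) (Fin n) Ω) (ι : Type) [Fintype ι] [DecidableEq ι]
    (M : Matrix ι ι A), Bass A → IsUnit M →
    ∃ y : Aˣ, (Matrix.comp ι ι (Fin n) (Fin n) Ω (M.map Φ)).det = (Φ y).det

def S_NPN : Prop :=
  ∀ (R S A K L : Type u) [CommRing R] [CommRing S] [Algebra R S] [Ring A] [Algebra S A]
    [Algebra R A] [IsScalarTower R S A] [Field K] [Algebra R K] [Field L] [Algebra R L]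
    [Algebra K L] [IsScalarTower R K L] [Module.Finite K L] (n m : ℕ) (N : NFam R S A) (f : L),
    GB R S A → NF n N → IsDomain (K ⊗[R] S) → MS R A n m L → f ≠ 0 →
    NK N K (algebraMap K (K ⊗[R] S) (Algebra.norm K f ^ m))

/-! ### purity -/

def S_ResN : Prop :=
  ∀ (D A E : Type u) [CommRing D] [IsDomain D] [IsDiscreteValuationRing D] [Ring A] [Algebra D A]
    [Module.Free D A] [Module.Finite D A] [Ring E] (n m : ℕ) (π : D) (c : A) (φ : A →+* E),
    0 < n → Irreducible π → Az D A → Module.finrank D A = n ^ 2 →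
    Associated (LinearMap.det (LinearMap.mulRight D c)) ((π ^ m) ^ n) →
    φ (algebraMap D A π) = 0 → MU n (Matrix (Fin m) (Fin m) E)

def S_ResQ : Prop :=
  ∀ (O S A Z E : Type u) [CommRing O] [IsDomain O] [IsNoetherianRing O] [CommRing S]
    [Algebra O S] [Ring A] [Algebra S A] [Algebra O A] [Field Z] [Ring E] [Algebra Z E]
    (n m : ℕ) (π F : O) (c : A) (j : S →+* Z) (φ : A →+* E), 0 < n → GB O S A →
    Module.finrank S A = n ^ 2 → Prime π → ¬ π ∣ F →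
    Associated (LinearMap.det (LinearMap.mulRight S c)) (algebraMap O S (π ^ m * F) ^ n) →
    (∀ s, φ (algebraMap S A s) = algebraMap Z E (j s)) →
    (∀ r, j (algebraMap O S r) = 0 ↔ π ∣ r) → MU n (Matrix (Fin m) (Fin m) E)

def S_ResG : Prop :=
  ∀ (Z E : Type u) [CommRing Z] [IsArtinianRing Z] [IsReduced Z] [Ring E] [Algebra Z E]
    (n m : ℕ), (∀ 𝔫 : Ideal Z, 𝔫.IsMaximal → MU n (Matrix (Fin m) (Fin m) ((Z ⧸ 𝔫) ⊗[Z] E))) →
    MU n (Matrix (Fin m) (Fin m) E)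

def S_ResO : Prop :=
  ∀ (R S A O : Type u) [CommRing R] [CommRing S] [Algebra R S] [Ring A] [Algebra S A]
    [Algebra R A] [IsScalarTower R S A] [CommRing O] [IsDomain O] [IsNoetherianRing O]
    [Algebra R O] (n m : ℕ) (N : NFam R S A) (π F : O) (c : O ⊗[R] A) (s : (O ⊗[R] S)ˣ),
    GB R S A → NF n N → IsDomain (O ⊗[R] S) → Prime π → ¬ π ∣ F →
    N O c = s * algebraMap O (O ⊗[R] S) (π ^ m * F) → MPt R A n m π

def S_PF0 : Prop :=
  ∀ (O K : Type u) [CommRing O] [IsDomain O] [UniqueFactorizationMonoid O] [Field K]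
    [Algebra O K] [IsFractionRing O K] (H : Subgroup Kˣ) (n e : ℕ) (F μ₁ μ₂ : O) (μ ν : Kˣ),
    (∀ x : Kˣ, x ^ n ∈ H) → μ₂ ≠ 0 → algebraMap O K μ₂ * μ = algebraMap O K μ₁ →
    algebraMap O K F = (μ : K) ^ e * (ν : K) ^ n →
    (∀ (π F' : O) (m : ℕ), Prime π → π ∣ μ₁ * μ₂ → ¬ π ∣ F' → F = π ^ m * F' →
      ∃ (v : Oˣ) (x : Kˣ), x ∈ H ∧ (x : K) = algebraMap O K (v * π) ^ m) →
    ∃ (v : Oˣ) (x : Kˣ), x ∈ H ∧ (x : K) = (algebraMap O K v * μ) ^ e

def S_PFN : Prop :=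
  ∀ (R S A O K : Type u) [CommRing R] [CommRing S] [Algebra R S] [Ring A] [Algebra S A]
    [Algebra R A] [IsScalarTower R S A] [CommRing O] [IsDomain O] [IsNoetherianRing O]
    [UniqueFactorizationMonoid O] [Algebra R O] [Field K] [Algebra R K] [Algebra O K]
    [IsScalarTower R O K] [IsFractionRing O K] (n e : ℕ) (N : NFam R S A) (s : (O ⊗[R] S)ˣ)
    (μ : Kˣ) (μ₁ μ₂ : O), GB R S A → NF n N → IsDomain (K ⊗[R] S) → μ₂ ≠ 0 →
    algebraMap O K μ₂ * μ = algebraMap O K μ₁ →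
    NK N K (mp S (IsScalarTower.toAlgHom R O K) s * algebraMap K (K ⊗[R] S) ((μ : K) ^ e)) →
    (∀ (π : O) (m : ℕ), Prime π → π ∣ μ₁ * μ₂ → MPt R A n m π → NPw N K m π) →
    ∃ v : Oˣ, NK N K (algebraMap K (K ⊗[R] S) ((algebraMap O K v * μ) ^ e))

def S_PSN : Prop :=
  ∀ (R S A B O K : Type u) [CommRing R] [CommRing S] [Algebra R S] [Ring A] [Algebra S A]
    [Algebra R A] [IsScalarTower R S A] [CommRing B] [IsRegularLocalRing B] [CommRing O]
    [IsLocalRing O] [Algebra B O] [IsLocalHom (algebraMap B O)] [Algebra.FormallySmooth B O]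
    [Algebra.EssFiniteType B O] [Algebra R O] [Field K] [Algebra R K] [Algebra O K]
    [IsScalarTower R O K] [IsFractionRing O K] (n e : ℕ) (N : NFam R S A), ringKrullDim B ≤ 2 →
    GB R S A → NF n N → IsDomain (K ⊗[R] S) →
    Infinite (O ⧸ (maximalIdeal B).map (algebraMap B O)) → PurN N e O K

def S_FNd : Prop :=
  ∀ (R S A B K : Type u) [CommRing R] [IsLocalRing R] [CommRing S] [Algebra R S] [Ring A]
    [Algebra S A] [Algebra R A] [IsScalarTower R S A] [CommRing B] [IsRegularLocalRing B]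
    [Algebra B R] [IsLocalHom (algebraMap B R)] [Algebra.FormallySmooth B R]
    [Algebra.EssFiniteType B R] [Field K] [Algebra R K] [IsFractionRing R K] (n e : ℕ)
    (N : NFam R S A), ringKrullDim B ≤ 2 → GB R S A → NF n N → FN N e R K

/-! ### norms of unitary elements -/

def S_Cay : Prop :=
  ∀ (K L E : Type u) [Field K] [Infinite K] [CommRing L] [IsDomain L] [Algebra K L]
    [Module.Finite K L] [Ring E] [Algebra L E] [Module.Finite L E] (κ : L) (x : E),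
    (2 : K) ≠ 0 → κ ≠ 0 →
    ∃ c : K, IsUnit (1 + x + algebraMap L E (algebraMap K L c * κ) * (1 - x))

def S_SyU : Prop :=
  ∀ (k E : Type u) [Field k] [Ring E] [Algebra k E] [StarRing E] [SA k E] (e : E),
    star e = e → e * e = e → (∀ p, star p = p → p * p = p → Cn e p → p = 0 ∨ p = e) →
    ∀ s, star s = s → Cn e s → s = 0 ∨ Un e s

def S_Ly0 : Prop :=
  ∀ (k E : Type u) [Field k] [Ring E] [Algebra k E] [StarRing E] [SA k E] (e κ : E)
    (H : Subgroup Eˣ), Kap κ → Big κ H → star e = e → e * e = e →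
    (∀ s, star s = s → Cn e s → s = 0 ∨ Un e s) → ∀ g, Ex e g → g ∈ H

def S_Blk : Prop :=
  ∀ (E : Type u) [Ring E] (e₁ e₂ : E) (H : Subgroup Eˣ), Bass E → IsUnit (2 : E) →
    e₁ * e₁ = e₁ → e₂ * e₂ = e₂ → e₁ * e₂ = 0 → e₂ * e₁ = 0 →
    (∀ x y : Eˣ, x * y * x⁻¹ * y⁻¹ ∈ H) → (∀ g, Ex e₁ g → g ∈ H) → (∀ g, Ex e₂ g → g ∈ H) →
    ∀ g, Ex (e₁ + e₂) g → g ∈ H

def S_Ly1 : Prop :=
  ∀ (k E : Type u) [Field k] [Ring E] [Algebra k E] [StarRing E] [SA k E] (κ : E)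
    (H : Subgroup Eˣ), Kap κ → Big κ H → ∀ g, g ∈ H

def S_Ly2 : Prop :=
  ∀ (R A : Type u) [CommRing R] [IsLocalRing R] [Ring A] [Algebra R A] [StarRing A] [SA R A]
    (κ : A) (H : Subgroup Aˣ), Kap κ → Big κ H → ∀ g, g ∈ H

def S_LyN : Prop :=
  ∀ (R A M : Type u) [CommRing R] [IsLocalRing R] [Ring A] [Algebra R A] [StarRing A] [SA R A]
    [CommMonoid M] (ν : A →* M) (κ : A), Kap κ → ∀ a : Aˣ,
    ∃ u : A, u * star u = 1 ∧ star u * u = 1 ∧ ν u * ν (star (a : A)) = ν a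

def S_NU : Prop :=
  ∀ (R S A K : Type u) [CommRing R] [IsDomain R] [IsLocalRing R] [CommRing S] [Algebra R S]
    [Ring A] [Algebra S A] [Algebra R A] [IsScalarTower R S A] [StarRing A] [SA R A] [Field K]
    [Infinite K] [Algebra R K] [IsFractionRing R K] (n : ℕ) (N : NFam R S A), AzI R S A →
    GB R S A → NF n N → ¬ Surjective (algebraMap R S) → FN N 1 R K → NUp N K

/-! ### torsors -/

def S_TorG : Prop :=
  ∀ (R E O : Type u) [CommRing R] [Ring E] [Algebra R E] [CommRing O] [Algebra R O]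
    (G : Fam R E), Grp G → IsGTorsor G O →
    ∃ c : ∀ (T : Type u) [CommRing T] [Algebra R T], (O →ₐ[R] T) → (O →ₐ[R] T) → T ⊗[R] E,
      Coc c ∧ (∀ (T : Type u) [CommRing T] [Algebra R T] (p q : O →ₐ[R] T), G T (c T p q)) ∧
      ∀ z : O ⊗[R] E, G O z → mp E (H90P.iL R O O) z =
        mp E (H90P.iR R O O) z * c (O ⊗[R] O) (H90P.iL R O O) (H90P.iR R O O) →
        Nonempty (O →ₐ[R] R)

def S_TorD : Prop :=
  ∀ (R S A K O : Type u) [CommRing R] [IsDomain R] [IsLocalRing R] [CommRing S] [Algebra R S]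
    [Ring A] [Algebra S A] [Algebra R A] [IsScalarTower R S A] [Field K] [Algebra R K]
    [IsFractionRing R K] [CommRing O] [Algebra R O] (n e : ℕ) (N : NFam R S A), GB R S A →
    NF n N → FN N e R K → IsGTorsor (NrdPow R S A e) O → Nonempty (O →ₐ[R] K) →
    Nonempty (O →ₐ[R] R)

/-- a unitary trivialisation of a unitary cocycle -/
def S_UniX : Prop :=
  ∀ (R A K O : Type u) [CommRing R] [IsDomain R] [IsLocalRing R] [Ring A] [Algebra R A]
    [StarRing A] [SA R A] [Field K] [Algebra R K] [IsFractionRing R K] [CommRing O] [Algebra R O]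
    [Module.FaithfullyFlat R O]
    (c : ∀ (T : Type u) [CommRing T] [Algebra R T], (O →ₐ[R] T) → (O →ₐ[R] T) → T ⊗[R] A),
    Rk R A → HermN R A → Coc c →
    (∀ (T : Type u) [CommRing T] [Algebra R T] (p q : O →ₐ[R] T),
      c T p q * cj R A T (c T p q) = 1) → Nonempty (O →ₐ[R] K) →
    ∃ x : O ⊗[R] A, x * cj R A O x = 1 ∧ cj R A O x * x = 1 ∧ mp A (H90P.iL R O O) x =
      mp A (H90P.iR R O O) x * c (O ⊗[R] O) (H90P.iL R O O) (H90P.iR R O O)

def S_TorSU : Prop :=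
  ∀ (R S A K O : Type u) [CommRing R] [IsDomain R] [IsLocalRing R] [CommRing S] [Algebra R S]
    [Ring A] [Algebra S A] [Algebra R A] [IsScalarTower R S A] [StarRing A] [SA R A] [Field K]
    [Algebra R K] [IsFractionRing R K] [CommRing O] [Algebra R O] (n : ℕ) (N : NFam R S A)
    (σ : A →ₗ[R] A), (∀ x, σ x = star x) → GB R S A → NF n N → HermN R A → NUp N K →
    IsGTorsor (SpecU S σ) O → Nonempty (O →ₐ[R] K) → Nonempty (O →ₐ[R] R)

end Pool.Agent.P.MP_46a8f8_ag.GU
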