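import Pool.Agent.P.MP_46a8f8_ag.GU.Tor3

/-!
Groups of units cut out by equations, torsors under them, and the groups given by the reduced
norm.
-/

namespace Pool.Agent.P.MP_46a8f8_ag.GU

open TensorProduct

universe u

/-- For each commutative `R`-algebra `T`, a property of elements of `T ⊗ E`. -/
def Fam (R E : Type u) [CommRing R] [Ring E] [Algebra R E] : Type (u + 1) :=
  ∀ (T : Type u) [CommRing T] [Algebra R T], T ⊗[R] E → Prop

section torsor

variable {R E : Type u} [CommRing R] [Ring E] [Algebra R E]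

/-- The set `G(T)` of the elements of `T ⊗ E` with the property `G`. -/
def Pts (G : Fam R E) (T : Type u) [CommRing T] [Algebra R T] : Type u :=
  {g : T ⊗[R] E // G T g}

/-- For each commutative `R`-algebra `T`, a map `G(T) × (Spec O)(T) → (Spec O)(T)`. -/
def GAction (G : Fam R E) (O : Type u) [CommRing O] [Algebra R O] : Type (u + 1) :=
  ∀ (T : Type u) [CommRing T] [Algebra R T], Pts G T → (O →ₐ[R] T) → (O →ₐ[R] T)

variable {G : Fam R E} {O : Type u} [CommRing O] [Algebra R O]

/-- `1 • p = p` -/
def GAction.One (a : GAction G O) : Prop :=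
  ∀ (T : Type u) [CommRing T] [Algebra R T] (g : Pts G T) (p : O →ₐ[R] T), g.1 = 1 → a T g p = p

/-- `(g h) • p = g • h • p` -/
def GAction.Mul (a : GAction G O) : Prop :=
  ∀ (T : Type u) [CommRing T] [Algebra R T] (g h k : Pts G T) (p : O →ₐ[R] T),
    k.1 = g.1 * h.1 → a T k p = a T g (a T h p)

/-- the action is natural in `T` -/
def GAction.Natural (a : GAction G O) : Prop :=
  ∀ (T T' : Type u) [CommRing T] [Algebra R T] [CommRing T'] [Algebra R T'] (f : T →ₐ[R] T')
    (g : Pts G T) (g' : Pts G T') (p : O →ₐ[R] T),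
    g'.1 = baseMap E f g.1 → f.comp (a T g p) = a T' g' (f.comp p)

/-- the action is simply transitive -/
def GAction.SimplyTransitive (a : GAction G O) : Prop :=
  ∀ (T : Type u) [CommRing T] [Algebra R T] (p q : O →ₐ[R] T), ∃! g : Pts G T, a T g p = q

variable (G O) in
/-- `Spec O` is a `G`-torsor over `R`: `O` is faithfully flat over `R`, and for every commutative
`R`-algebra `T` the group `G(T)` acts simply transitively on the set of `T`-points of `Spec O`,
naturally in `T`. -/
def IsGTorsor : Prop :=
  Module.FaithfullyFlat R O ∧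
    ∃ a : GAction G O, a.One ∧ a.Mul ∧ a.Natural ∧ a.SimplyTransitive

end torsor

variable {R : Type u} (S : Type u) {A : Type u} [CommRing R] [CommRing S] [Algebra R S] [Ring A]
  [Algebra S A] [Algebra R A] [IsScalarTower R S A]

/-- the map `T ⊗[R] A → T ⊗[S] A` for a commutative `S`-algebra `T` -/
noncomputable def overS {T : Type u} [CommRing T] [Algebra R T] [Algebra S T]
    [IsScalarTower R S T] (x : T ⊗[R] A) : T ⊗[S] A :=
  Algebra.TensorProduct.mapOfCompatibleSMul S R T T A x

/-- `x` has determinant `c` in every splitting `T ⊗[S] A ≃ Mₙ(T)`. -/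
def DetIs {A T : Type u} [Ring A] [Algebra S A] [CommRing T] [Algebra S T] (x : T ⊗[S] A)
    (c : T) : Prop :=
  ∀ (n : ℕ) (Φ : T ⊗[S] A ≃ₐ[T] Matrix (Fin n) (Fin n) T), (Φ x).det = c

/-- The reduced norm of `x` is `c`: for every commutative `S`-algebra `T'` and every map
`f : T → T'` the image of `x` in `T' ⊗[S] A` has determinant `f c` in every splitting. -/
def NrdIs {T : Type u} [CommRing T] [Algebra R T] (x : T ⊗[R] A) (c : T) : Prop :=
  ∀ (T' : Type u) [CommRing T'] [Algebra R T'] [Algebra S T'] [IsScalarTower R S T']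
    (f : T →ₐ[R] T'), DetIs S (overS S (baseMap A f x)) (f c)

/-- the special unitary group `SU(A,σ)`: unitary elements of reduced norm one -/
def SpecU (σ : A →ₗ[R] A) : Fam R A :=
  fun _ _ _ g => IsUni σ g ∧ NrdIs S g 1

/-- the map `1 ⊗ φ : T ⊗ M → T ⊗ M'` -/
noncomputable def onT {M M' T : Type u} [AddCommGroup M] [Module R M] [AddCommGroup M']
    [Module R M'] [CommRing T] [Algebra R T] (φ : M →ₗ[R] M') (x : T ⊗[R] M) : T ⊗[R] M' :=
  φ.lTensor T x

/-- the map `T ⊗ R → T` -/
noncomputable def unT {T : Type u} [CommRing T] [Algebra R T] (x : T ⊗[R] R) : T :=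
  TensorProduct.rid R T x

/-- the first component of an element of `T ⊗ (A × R)` -/
noncomputable def fstT {T : Type u} [CommRing T] [Algebra R T] (g : T ⊗[R] (A × R)) : T ⊗[R] A :=
  onT (LinearMap.fst R A R) g

/-- the second component of an element of `T ⊗ (A × R)` -/
noncomputable def sndT {T : Type u} [CommRing T] [Algebra R T] (g : T ⊗[R] (A × R)) : T :=
  unT (onT (LinearMap.snd R A R) g)

variable (R A) in
/-- the group of pairs of units `(a, t)` such that the reduced norm of `a` is `t ^ e` -/
def NrdPow (e : ℕ) : Fam R (A × R) :=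
  fun _ _ _ g => IsUnit g ∧ NrdIs S (fstT g) (sndT g ^ e)

end Pool.Agent.P.MP_46a8f8_ag.GU
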