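import Pool.Agent.P.MP_46a8f8_ag.GU.Ad
import Pool.Agent.P.MP_46a8f8_ag.GU.GA
import Pool.Agent.P.MP_46a8f8_ag.GU.Tor5

/-!
Definitions and basic facts for the groups given by the reduced norm.
-/

namespace Pool.Agent.P.MP_46a8f8_ag.GU

open TensorProduct Function IsLocalRing

universe u

/-- finite, free and separable -/
structure Sep (R A : Type u) [CommRing R] [Ring A] [Algebra R A] : Prop where
  free : Module.Free R A
  fin : Module.Finite R A
  sep : ∃ (k : ℕ) (a b : Fin k → A), ∑ i, a i * b i = 1 ∧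
    ∀ c : A, ∑ i, (c * a i) ⊗ₜ[R] b i = ∑ i, a i ⊗ₜ[R] (b i * c)

/-- an Azumaya algebra over a finite etale domain -/
structure GB (R S A : Type u) [CommRing R] [CommRing S] [Algebra R S] [Ring A] [Algebra S A]
    [Algebra R A] : Prop extends GA R S A where
  et : Algebra.Etale R S
  finA : Module.Finite S A
  pos : 0 < Module.finrank S A
  sep : Sep R A

/-- stable range one -/
def Bass (A : Type u) [Ring A] : Prop :=
  ∀ (c : A) (L : Submodule A A), Submodule.span A {c} ⊔ L = ⊤ → ∃ l ∈ L, IsUnit (c + l)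

/-- a system of `n × n` matrix units -/
def MU (n : ℕ) (E : Type u) [Ring E] : Prop :=
  ∃ e : Fin n → Fin n → E, (∀ i j k l, e i j * e k l = if j = k then e i l else 0) ∧
    ∑ i, e i i = 1

theorem MU.map {n : ℕ} {E E' : Type u} [Ring E] [Ring E'] (h : MU n E) (φ : E →+* E') :
    MU n E' := by
  obtain ⟨e, h1, h2⟩ := h
  refine ⟨fun i j => φ (e i j), fun i j k l => ?_, by rw [← map_sum, h2, map_one]⟩
  rw [← map_mul, h1]
  split_ifs
  · rfl
  · exact map_zero φ

theorem SA.toSep (R A : Type u) [CommRing R] [Ring A] [Algebra R A] [StarRing A] [SA R A] :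
    Sep R A := ⟨SA.free, SA.fin, SA.sep⟩

section sep

variable {R A : Type u} [CommRing R] [Ring A] [Algebra R A]
  {V W : Type u} [AddCommGroup V] [Module A V] [Module R V] [IsScalarTower R A V]
  [AddCommGroup W] [Module A W] [Module R W] [IsScalarTower R A W]

theorem Az.toSep [Module.Free R A] [Module.Finite R A] (h : Az R A) : Sep R A := by
  obtain ⟨k, a, b, h1, hc, -⟩ := h
  exact ⟨inferInstance, inferInstance, k, a, b, h1, hc⟩

/-- a lifting problem solvable over `R` is solvable over `A` -/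
theorem Sep.lift (h : Sep R A) {W' : Type u} [AddCommGroup W'] [Module A W'] (p : W →ₗ[A] W')
    (g : V →ₗ[A] W') (f : V →ₗ[R] W) (hf : ∀ v, p (f v) = g v) :
    ∃ f' : V →ₗ[A] W, ∀ v, p (f' v) = g v := by
  obtain ⟨k, a, b, h1, hc⟩ := h.sep
  refine ⟨avg a b hc f, fun v => ?_⟩
  simp only [avg_apply, map_sum, map_smul, hf, smul_smul]
  rw [← Finset.sum_smul, h1, one_smul]

/-- an extension problem solvable over `R` is solvable over `A` -/
theorem Sep.extend (h : Sep R A) {V' : Type u} [AddCommGroup V'] [Module A V'] (i : V' →ₗ[A] V)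
    (g : V' →ₗ[A] W) (f : V →ₗ[R] W) (hf : ∀ v, f (i v) = g v) :
    ∃ f' : V →ₗ[A] W, ∀ v, f' (i v) = g v := by
  obtain ⟨k, a, b, h1, hc⟩ := h.sep
  refine ⟨avg a b hc f, fun v => ?_⟩
  have e : ∀ j, a j • f (b j • i v) = (a j * b j) • g v := fun j => by
    rw [← map_smul i, hf, map_smul, smul_smul]
  rw [avg_apply, Finset.sum_congr rfl fun j _ => e j, ← Finset.sum_smul, h1, one_smul]

variable {C : Type u} [CommRing C] [Algebra R C]

/-- equivariant lifting -/
theorem Sep.rlift (h : Sep R A) {X Y Z : RM R A C} {p : Y.M →ₗ[C] Z.M} {g : X.M →ₗ[C] Z.M}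
    (hp : Eqv Y Z p) (hg : Eqv X Z g) (f : X.M →ₗ[C] Y.M) (hf : ∀ x, p (f x) = g x) :
    ∃ f' : X.M →ₗ[C] Y.M, Eqv X Y f' ∧ ∀ x, p (f' x) = g x := by
  obtain ⟨k, a, b, h1, hc⟩ := h.sep
  refine ⟨av a b X Y f, av_eqv hc X Y f, fun x => ?_⟩
  rw [av_apply, map_sum, Finset.sum_congr rfl fun i _ => by rw [hp, hf, hg], sum_rho h1]

/-- equivariant extension -/
theorem Sep.rextend (h : Sep R A) {X X' Y : RM R A C} {i : X'.M →ₗ[C] X.M} {g : X'.M →ₗ[C] Y.M}
    (hi : Eqv X' X i) (hg : Eqv X' Y g) (f : X.M →ₗ[C] Y.M) (hf : ∀ x, f (i x) = g x) :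
    ∃ f' : X.M →ₗ[C] Y.M, Eqv X Y f' ∧ ∀ x, f' (i x) = g x := by
  obtain ⟨k, a, b, h1, hc⟩ := h.sep
  refine ⟨av a b X Y f, av_eqv hc X Y f, fun x => ?_⟩
  rw [av_apply, Finset.sum_congr rfl fun j _ => by rw [← hi, hf, hg], sum_rho h1]

/-- base change -/
theorem Sep.bc (h : Sep R A) (C : Type u) [CommRing C] [Algebra R C] : Sep C (C ⊗[R] A) := by
  have := h.free
  have := h.fin
  obtain ⟨k, a, b, h1, hc⟩ := h.sep
  let j : A →ₗ[R] C ⊗[R] A := TensorProduct.mk R C A 1
  let T : A ⊗[R] A →ₗ[R] (C ⊗[R] A) ⊗[C] (C ⊗[R] A) :=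
    (TensorProduct.mapOfCompatibleSMul C R R (C ⊗[R] A) (C ⊗[R] A)) ∘ₗ TensorProduct.map j j
  have hT : ∀ p q : A, T (p ⊗ₜ[R] q) = ((1 : C) ⊗ₜ[R] p) ⊗ₜ[C] ((1 : C) ⊗ₜ[R] q) :=
    fun p q => rfl
  refine ⟨inferInstance, inferInstance, k, fun i => 1 ⊗ₜ[R] a i, fun i => 1 ⊗ₜ[R] b i, ?_,
    fun c => ?_⟩
  · simp only [Algebra.TensorProduct.tmul_mul_tmul, one_mul]
    rw [← TensorProduct.tmul_sum, h1, Algebra.TensorProduct.one_def]
  · induction c using TensorProduct.induction_on with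
    | zero => simp
    | add c c' hc1 hc2 =>
      simp only [add_mul, mul_add, TensorProduct.add_tmul, TensorProduct.tmul_add,
        Finset.sum_add_distrib, hc1, hc2]
    | tmul o c =>
      have e := congrArg T (hc c)
      simp only [map_sum, hT] at e
      simp only [Algebra.TensorProduct.tmul_mul_tmul, one_mul, mul_one]
      have e1 : ∀ p : A, o ⊗ₜ[R] p = o • ((1 : C) ⊗ₜ[R] p) := fun p => by
        rw [smul_tmul', smul_eq_mul, mul_one]
      have e2 := congrArg (fun t => o • t) e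
      simp only [Finset.smul_sum] at e2
      refine Eq.trans (Finset.sum_congr rfl fun i _ => ?_)
        (e2.trans (Finset.sum_congr rfl fun i _ => ?_))
      · rw [TensorProduct.smul_tmul', ← e1]
      · rw [← TensorProduct.tmul_smul, ← e1]

end sep

section gb

variable {R S A : Type u} [CommRing R] [CommRing S] [Algebra R S] [Ring A] [Algebra S A]
  [Algebra R A]

theorem GB.inj (h : GB R S A) : Injective (algebraMap R S) := by
  have := h.dom
  have := h.free
  exact FaithfulSMul.algebraMap_injective R S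

theorem GB.injA (h : GB R S A) : Injective (algebraMap S A) := by
  have := h.dom
  have := h.freeA
  have : Nontrivial A := Module.nontrivial_of_finrank_pos h.pos
  exact FaithfulSMul.algebraMap_injective S A

theorem GB.tors (h : GB R S A) {M : Type u} [AddCommGroup M] [Module A M] :
    Tors R A M ↔ Tors S A M := by
  have := h.dom
  have := h.fin
  have := h.tower
  constructor
  · rintro ⟨h1, r, hr, h2⟩
    refine ⟨h1, algebraMap R S r, (map_ne_zero_iff _ h.inj).2 hr, fun m => ?_⟩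
    rw [← IsScalarTower.algebraMap_apply, h2]
  · rintro ⟨h1, s, hs, h2⟩
    have : Nontrivial R := (algebraMap R S).domain_nontrivial
    obtain ⟨a, ha, ha0⟩ := (Submodule.ne_bot_iff _).1 (Ideal.comap_ne_bot_of_integral_mem (R := R)
      hs (Ideal.mem_span_singleton_self s) (Algebra.IsIntegral.isIntegral s))
    obtain ⟨t, ht⟩ := Ideal.mem_span_singleton'.1 (Ideal.mem_comap.1 ha)
    refine ⟨h1, a, ha0, fun m => ?_⟩
    rw [IsScalarTower.algebraMap_apply R S A, ← ht, map_mul, mul_smul, h2, smul_zero]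

end gb

section nrd

variable (R S A : Type u) [CommRing R] [CommRing S] [Algebra R S] [Ring A] [Algebra S A]
  [Algebra R A]

/-- families of multiplicative maps -/
def NFam : Type (u + 1) :=
  ∀ (T : Type u) [CommRing T] [Algebra R T], T ⊗[R] A →* T ⊗[R] S

/-- the multiplication map -/
noncomputable def evS (T : Type u) [CommRing T] [Algebra R T] [Algebra S T]
    [IsScalarTower R S T] : T ⊗[R] S →ₐ[R] T :=
  H90P.pr (AlgHom.id R T) (IsScalarTower.toAlgHom R S T)

theorem evS_tmul (T : Type u) [CommRing T] [Algebra R T] [Algebra S T] [IsScalarTower R S T]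
    (t : T) (s : S) : evS R S T (t ⊗ₜ[R] s) = t * algebraMap S T s := rfl

theorem evS_alg (T : Type u) [CommRing T] [Algebra R T] [Algebra S T] [IsScalarTower R S T]
    (t : T) : evS R S T (algebraMap T (T ⊗[R] S) t) = t := by
  rw [Algebra.TensorProduct.algebraMap_apply, evS_tmul, map_one, mul_one]
  rfl

variable [IsScalarTower R S A]

/-- the map to the tensor product over the centre -/
noncomputable def ov (T : Type u) [CommRing T] [Algebra R T] [Algebra S T]
    [IsScalarTower R S T] : T ⊗[R] A →ₐ[T] T ⊗[S] A :=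
  Algebra.TensorProduct.mapOfCompatibleSMul S R T T A

theorem ov_tmul (T : Type u) [CommRing T] [Algebra R T] [Algebra S T] [IsScalarTower R S T]
    (t : T) (a : A) : ov R S A T (t ⊗ₜ[R] a) = t ⊗ₜ[S] a := rfl

variable {R S A}

/-- the reduced norm -/
structure NF (n : ℕ) (N : NFam R S A) : Prop where
  pos : 0 < n
  rank : Module.finrank S A = n ^ 2
  nat : ∀ (T T' : Type u) [CommRing T] [Algebra R T] [CommRing T'] [Algebra R T']
    (f : T →ₐ[R] T') (x : T ⊗[R] A), mp S f (N T x) = N T' (mp A f x)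
  det : ∀ (T : Type u) [CommRing T] [Algebra R T] [Algebra S T] [IsScalarTower R S T] (m : ℕ)
    (Ψ : T ⊗[S] A ≃ₐ[T] Matrix (Fin m) (Fin m) T) (x : T ⊗[R] A),
    evS R S T (N T x) = (Ψ (ov R S A T x)).det
  sep : ∀ (T : Type u) [CommRing T] [Algebra R T] (c c' : T ⊗[R] S),
    (∀ (T' : Type u) [CommRing T'] [Algebra R T'] [Algebra S T'] [IsScalarTower R S T']
      (f : T →ₐ[R] T'), Nonempty (T' ⊗[S] A ≃ₐ[T'] Matrix (Fin n) (Fin n) T') →
      evS R S T' (mp S f c) = evS R S T' (mp S f c')) → c = c'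
  cen : ∀ (T : Type u) [CommRing T] [Algebra R T] (c : T ⊗[R] S),
    N T (GAP.sm R S A T c) = c ^ n

variable {n : ℕ} {N : NFam R S A} {T : Type u} [CommRing T] [Algebra R T]

theorem NF.alg (h : NF n N) (c : T) :
    N T (algebraMap T (T ⊗[R] A) c) = algebraMap T (T ⊗[R] S) (c ^ n) := by
  rw [← (GAP.sm R S A T).commutes, h.cen, map_pow]

theorem NF.smul (h : NF n N) (c : T) (x : T ⊗[R] A) :
    N T (c • x) = algebraMap T (T ⊗[R] S) (c ^ n) * N T x := by
  rw [Algebra.smul_def, map_mul, h.alg]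

theorem NF.nrdIs (h : NF n N) (x : T ⊗[R] A) (c : T) :
    NrdIs S x c ↔ N T x = algebraMap T (T ⊗[R] S) c := by
  constructor
  · refine fun hx => h.sep T _ _ fun T' _ _ _ _ f ⟨Ψ⟩ => ?_
    rw [h.nat, h.det T' n Ψ, mp_alg, evS_alg]
    exact hx T' f n Ψ
  · intro hx T' _ _ _ _ f m Ψ
    have := h.det T' m Ψ (mp A f x)
    rw [← h.nat, hx, mp_alg, evS_alg] at this
    exact this.symm

omit [Algebra S A] [IsScalarTower R S A] in
variable (N T) in
/-- reduced norms of units -/
def NK (x : T ⊗[R] S) : Prop := ∃ g : (T ⊗[R] A)ˣ, N T g = x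

omit [Algebra S A] [IsScalarTower R S A] in
theorem NK.mul {x y : T ⊗[R] S} (h : NK N T x) (h' : NK N T y) : NK N T (x * y) := by
  obtain ⟨g, rfl⟩ := h
  obtain ⟨g', rfl⟩ := h'
  exact ⟨g * g', map_mul _ _ _⟩

omit [Algebra S A] [IsScalarTower R S A] in
theorem NK.inv {x y : T ⊗[R] S} (h : NK N T x) (e : x * y = 1) : NK N T y := by
  obtain ⟨g, rfl⟩ := h
  refine ⟨g⁻¹, left_inv_eq_right_inv ?_ e⟩
  rw [← map_mul, Units.inv_mul, map_one]

theorem NF.nk_map (h : NF n N) {T' : Type u} [CommRing T'] [Algebra R T'] (f : T →ₐ[R] T')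
    {x : T ⊗[R] S} (hx : NK N T x) : NK N T' (mp S f x) := by
  obtain ⟨g, rfl⟩ := hx
  exact ⟨um f g, (h.nat T T' f g).symm⟩

theorem NF.nk_pow (h : NF n N) {c : T} (hc : IsUnit c) :
    NK N T (algebraMap T (T ⊗[R] S) (c ^ n)) := by
  obtain ⟨v, rfl⟩ := hc
  exact ⟨Units.map (algebraMap T (T ⊗[R] A) : T →* T ⊗[R] A) v, h.alg (v : T)⟩

end nrd

section props

variable {R S A : Type u} [CommRing R] [CommRing S] [Algebra R S] [Ring A] [Algebra R A]
  (N : NFam R S A) (e : ℕ) (O K : Type u) [CommRing O] [Algebra R O] [Field K] [Algebra R K]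
  [Algebra O K]

/-- up to a unit, a power of `π` is a reduced norm -/
def NPw (m : ℕ) {O : Type u} [CommRing O] [Algebra O K] (π : O) : Prop :=
  ∃ v : Oˣ, NK N K (algebraMap K (K ⊗[R] S) (algebraMap O K (v * π) ^ m))

variable [IsScalarTower R O K]

/-- a unit which is a reduced norm over `K` is a reduced norm over `O` -/
def GN : Prop :=
  ∀ v : (O ⊗[R] S)ˣ, NK N K (mp S (IsScalarTower.toAlgHom R O K) v) → NK N O v

/-- purity -/
def PurN : Prop :=
  ∀ (s : (O ⊗[R] S)ˣ) (μ : Kˣ),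
    NK N K (mp S (IsScalarTower.toAlgHom R O K) s * algebraMap K (K ⊗[R] S) (μ ^ e)) →
    ∃ v : Oˣ, NK N K (algebraMap K (K ⊗[R] S) ((algebraMap O K v * μ) ^ e))

/-- the norm statement -/
def FN : Prop :=
  ∀ (s : (O ⊗[R] S)ˣ) (μ : Kˣ),
    NK N K (mp S (IsScalarTower.toAlgHom R O K) s * algebraMap K (K ⊗[R] S) (μ ^ e)) →
    ∃ v : Oˣ, NK N O (s * algebraMap O (O ⊗[R] S) (v ^ e))

end props

section units

variable (R A : Type u) [CommRing R] [Ring A] [Algebra R A] (n m : ℕ)

/-- matrix units over `C` -/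
def MS (C : Type u) [CommRing C] [Algebra R C] : Prop :=
  MU n (Matrix (Fin m) (Fin m) (C ⊗[R] A))

/-- matrix units over every field containing `O ⧸ π` -/
def MPt {O : Type u} [CommRing O] [Algebra R O] (π : O) : Prop :=
  ∀ (F E : Type u) [Field F] [Ring E] [Algebra F E] (j : O →+* F) (φ : A →+* E),
    (∀ c, j c = 0 ↔ π ∣ c) →
    (∀ r, φ (algebraMap R A r) = algebraMap F E (j (algebraMap R O r))) →
    MU n (Matrix (Fin m) (Fin m) E)

/-- up to a unit, `π` is a norm from an extension with matrix units -/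
def NHm (K : Type u) [Field K] [Algebra R K] {O : Type u} [CommRing O] [Algebra O K] (π : O) :
    Prop :=
  ∃ (L : Type u) (_ : Field L) (_ : Algebra R L) (_ : Algebra K L) (_ : IsScalarTower R K L),
    Module.Finite K L ∧ MS R A n m L ∧
      ∃ (f : L) (v : Oˣ), f ≠ 0 ∧ Algebra.norm K f = algebraMap O K (v * π)

/-- a homomorphism of rings over `j` -/
def SH0 (C : Type u) [CommRing C] [Algebra R C] {R₀ A₀ : Type u} [CommRing R₀] [Ring A₀]
    [Algebra R₀ A₀] (j : R₀ →+* C) (φ : A₀ →+* C ⊗[R] A) : Prop :=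
  ∀ r, φ (algebraMap R₀ A₀ r) = algebraMap C (C ⊗[R] A) (j r)

variable {R A n m}

theorem MS.map {C C' : Type u} [CommRing C] [Algebra R C] [CommRing C'] [Algebra R C']
    (h : MS R A n m C) (f : C →ₐ[R] C') : MS R A n m C' :=
  MU.map h (mp A f).toRingHom.mapMatrix

end units

/-- a subgroup functor of the units -/
structure Grp {R E : Type u} [CommRing R] [Ring E] [Algebra R E] (G : Fam R E) : Prop where
  one : ∀ (T : Type u) [CommRing T] [Algebra R T], G T 1
  mul : ∀ (T : Type u) [CommRing T] [Algebra R T] (g h : T ⊗[R] E), G T g → G T h → G T (g * h)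
  map : ∀ (T T' : Type u) [CommRing T] [Algebra R T] [CommRing T'] [Algebra R T']
    (f : T →ₐ[R] T') (g : T ⊗[R] E), G T g → G T' (mp E f g)

/-- a cocycle -/
structure Coc {R E O : Type u} [CommRing R] [Ring E] [Algebra R E] [CommRing O] [Algebra R O]
    (c : ∀ (T : Type u) [CommRing T] [Algebra R T], (O →ₐ[R] T) → (O →ₐ[R] T) → T ⊗[R] E) :
    Prop where
  nat : ∀ (T T' : Type u) [CommRing T] [Algebra R T] [CommRing T'] [Algebra R T']
    (f : T →ₐ[R] T') (p q : O →ₐ[R] T), mp E f (c T p q) = c T' (f.comp p) (f.comp q)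
  one : ∀ (T : Type u) [CommRing T] [Algebra R T] (p : O →ₐ[R] T), c T p p = 1
  mul : ∀ (T : Type u) [CommRing T] [Algebra R T] (p q r : O →ₐ[R] T),
    c T q r * c T p q = c T p r

section ly

variable {E : Type u} [Ring E]

/-- `x` lies in the corner of `e` -/
def Cn (e x : E) : Prop := e * x = x ∧ x * e = x

/-- `x` is invertible in the corner of `e` -/
def Un (e x : E) : Prop := ∃ y, Cn e y ∧ x * y = e ∧ y * x = e

/-- `g` is a unit of the corner of `e` extended by the identity -/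
def Ex (e : E) (g : Eˣ) : Prop := ∃ d, Cn e d ∧ (g : E) = d + (1 - e)

variable [StarRing E]

/-- `H` contains the obvious generators -/
structure Big (κ : E) (H : Subgroup Eˣ) : Prop where
  comm : ∀ x y : Eˣ, x * y * x⁻¹ * y⁻¹ ∈ H
  sym : ∀ g : Eˣ, star (g : E) = g → g ∈ H
  skew : ∀ (g : Eˣ) (s : E), star s = s → (g : E) = 1 + κ * s → g ∈ H
  mix : ∀ (g : Eˣ) (s : E), star s = s → (g : E) = 1 - s + κ * s → g ∈ H

/-- a central skew unit -/
structure Kap (κ : E) : Prop where
  unit : IsUnit κ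
  cen : ∀ x, κ * x = x * κ
  skew : star κ = -κ

end ly

/-- norms of unitary elements -/
def NUp {R S A : Type u} [CommRing R] [CommRing S] [Algebra R S] [Ring A] [Algebra R A]
    [StarRing A] [SA R A] (N : NFam R S A) (K : Type u) [CommRing K] [Algebra R K] : Prop :=
  ∀ (s : S) (x : K ⊗[R] A), x * cj R A K x = 1 → cj R A K x * x = 1 →
    N K x = (1 : K) ⊗ₜ[R] s →
    ∃ u : A, u * star u = 1 ∧ star u * u = 1 ∧ N R ((1 : R) ⊗ₜ[R] u) = (1 : R) ⊗ₜ[R] s

end Pool.Agent.P.MP_46a8f8_ag.GU
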