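import Pool.Agent.P.MP_46a8f8_ag.GU.Su
import Pool.Agent.P.MP_46a8f8_ag.GU.Fin3

/-!
The groups given by the reduced norm from their packages.
-/

namespace Pool.Agent.P.MP_46a8f8_ag.GU

open TensorProduct Function IsLocalRing

universe u

theorem pt_of_finite (R K O : Type u) [CommRing R] [IsDomain R] [Field K] [Algebra R K]
    [IsFractionRing R K] [Finite K] [CommRing O] [Algebra R O] (hK : Nonempty (O →ₐ[R] K)) :
    Nonempty (O →ₐ[R] R) := by
  obtain ⟨p⟩ := hK
  have : Finite R := Finite.of_injective _ (IsFractionRing.injective R K)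
  have hb : Bijective (Algebra.ofId R K) := by
    refine ⟨IsFractionRing.injective R K, fun x => ?_⟩
    obtain ⟨a, b, hb, rfl⟩ := IsFractionRing.div_surjective (A := R) x
    obtain ⟨c, hc⟩ := (Finite.isField_of_domain R).mul_inv_cancel (nonZeroDivisors.ne_zero hb)
    refine ⟨a * c, ?_⟩
    have h0 : algebraMap R K b ≠ 0 :=
      (map_ne_zero_iff _ (IsFractionRing.injective R K)).2 (nonZeroDivisors.ne_zero hb)
    rw [eq_div_iff h0]
    change algebraMap R K (a * c) * _ = _
    rw [← map_mul, mul_assoc, mul_comm c, hc, mul_one]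
  exact ⟨(AlgEquiv.ofBijective _ hb).symm.toAlgHom.comp p⟩

theorem topN (hG : S_GB0.{u}) (hN : S_NFe.{u}) (hF : S_FNd.{u}) (hD : S_TorD.{u})
    (hU : S_NU.{u}) (hT : S_TorSU.{u})
    (B R : Type u) [CommRing B] [IsRegularLocalRing B] (hd : ringKrullDim B ≤ 2) [CommRing R]
    [IsLocalRing R] [Algebra B R] [IsLocalHom (algebraMap B R)] [Algebra.FormallySmooth B R]
    [Algebra.EssFiniteType B R]
    (S : Type u) [CommRing S] [IsDomain S] [Algebra R S] [Module.Finite R S] [Algebra.Etale R S]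
    (A : Type u) [Ring A] [Algebra S A] [IsAzumaya S A] [Algebra R A] [IsScalarTower R S A]
    (K : Type u) [Field K] [Algebra R K] [IsFractionRing R K]
    (O : Type u) [CommRing O] [Algebra R O] (hK : Nonempty (O →ₐ[R] K)) :
    (∀ e : ℕ, IsGTorsor (NrdPow R S A e) O → Nonempty (O →ₐ[R] R)) ∧
    ∀ σ : A →ₗ[R] A, IsUnit (2 : R) → IsInvol σ →
      (∀ s : S, σ (algebraMap S A s) = algebraMap S A s → ∃ r, algebraMap R S r = s) →
      ¬ Surjective (algebraMap R S) → IsGTorsor (SpecU S σ) O → Nonempty (O →ₐ[R] R) := by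
  have := Algebra.EssFiniteType.isNoetherianRing B R
  obtain ⟨e, he⟩ : ∃ e : ℕ, ringKrullDim B = e :=
    ⟨_, ((isRegularLocalRing_iff B).1 inferInstance).symm⟩
  obtain ⟨m, φ, hφ⟩ := struct B R
  have := RegBP.selfLoc B
  obtain ⟨hR, -, -⟩ := regB regAt regFlat rDom B R m e φ hφ
    ((regAt B B (maximalIdeal B) e).2 ⟨inferInstance, he⟩)
  have : IsDomain R := rDom R
  have hGB := hG R S A
  obtain ⟨n, N, hNF⟩ := hN R S A hGB
  refine ⟨fun e hO => hD R S A K O n e N hGB hNF (hF R S A B K n e N hd hGB hNF) hO hK,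
    fun σ ht hσ hfix hsu hO => ?_⟩
  rcases finite_or_infinite K with hfin | hinf
  · exact pt_of_finite R K O hK
  let : StarRing A := starOf σ hσ.1 hσ.2
  have h1 : σ 1 = 1 := star_one A
  have hA : AzI R S A :=
    { tower := inferInstance
      dom := inferInstance
      fin := inferInstance
      et := inferInstance
      az := inferInstance
      st := fun r => by
        change σ (algebraMap R A r) = _
        rw [Algebra.algebraMap_eq_smul_one, map_smul, h1]
      fix := hfix
      two := ht }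
  have : SA R A := allSep R S A hA
  obtain ⟨τ, ε, hτ, hp, hs⟩ := allTr R S A hA
  have hOk : Ok R A := ⟨⟨τ, ε, ⟨hτ, hp, hs⟩⟩, S, _, _, _, hGB.toGA⟩
  exact hT R S A K O n N σ (fun _ => rfl) hGB hNF (smooth2 allStep2 pUp B R hd A hOk)
    (hU R S A K n N hA hGB hNF hsu (hF R S A B K n 1 N hd hGB hNF)) hO hK

end Pool.Agent.P.MP_46a8f8_ag.GU
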