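import Pool.Agent.P.MP_46a8f8_ag.GU.Base2

/-!
The theorem on torsors from the main steps.
-/

namespace Pool.Agent.P.MP_46a8f8_ag.GU

universe u

/-- the star ring structure given by an involution -/
@[reducible] def starOf {R A : Type u} [CommRing R] [Ring A] [Algebra R A] (σ : A →ₗ[R] A)
    (hmul : ∀ x y, σ (x * y) = σ y * σ x) (hinv : ∀ x, σ (σ x) = x) : StarRing A where
  star := σ
  star_involutive := hinv
  star_mul := hmul
  star_add := map_add σ

theorem top (hC : S_Core.{u}) (hH : S_Herm.{u}) (hT : S_Tor.{u}) (hS : S_Sep.{u})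
    (hTr : S_Tr.{u}) (hRk : S_Rk.{u})
    (R : Type u) [CommRing R] [IsRegularLocalRing R] (hd : ringKrullDim R = 3)
    (h2 : IsUnit (2 : R)) (hN : FinN R)
    (S : Type u) [CommRing S] [IsDomain S] [Algebra R S] [Module.Finite R S] [Algebra.Etale R S]
    (A : Type u) [Ring A] [Algebra S A] [IsAzumaya S A] [Algebra R A] [IsScalarTower R S A]
    (σ : A →ₗ[R] A) (hmul : ∀ x y, σ (x * y) = σ y * σ x) (hinv : ∀ x, σ (σ x) = x)
    (hfix : ∀ s : S, σ (algebraMap S A s) = algebraMap S A s → ∃ r, algebraMap R S r = s)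
    (K : Type u) [Field K] [Algebra R K] [IsFractionRing R K]
    (O : Type u) [CommRing O] [Algebra R O] (hO : IsUTorsor σ O) (hK : Nonempty (O →ₐ[R] K)) :
    Nonempty (O →ₐ[R] R) := by
  letI : StarRing A := starOf σ hmul hinv
  haveI : IsDomain R := rDom R
  have h1 : σ 1 = 1 := star_one A
  have hA : AzI R S A :=
    { tower := inferInstance
      dom := inferInstance
      fin := inferInstance
      et := inferInstance
      az := inferInstance
      st := fun r => by
        change σ (algebraMap R A r) = _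
        rw [Algebra.algebraMap_eq_smul_one, map_smul, h1]
      fix := hfix
      two := h2 }
  haveI : SA R A := hS R S A hA
  obtain ⟨τ, ε, hτ, hp, hs⟩ := hTr R S A hA
  have hrk : Rk R A := hRk R S A hA
  exact hT R A σ (fun _ => rfl) hrk
    (hH R A τ ε hτ hp hs hrk fun E hE hL => hC R A hd hN E ε hE hL) K O hO hK

end Pool.Agent.P.MP_46a8f8_ag.GU
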