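import Pool.Agent.P.MP_46a8f8_ag.GU.Qc

/-!
Unique factorisation in localised and polynomial tensor products.
-/

namespace Pool.Agent.P.MP_46a8f8_ag.GU

open TensorProduct Function IsLocalRing Polynomial

universe u

theorem pUFL : S_UFL.{u} := by
  intro R S O O' _ _ _ _ _ _ _ _ _ M _ _ _ h
  let : Algebra (O ⊗[R] S) (O' ⊗[R] S) :=
    (mp S (IsScalarTower.toAlgHom R O O')).toRingHom.toAlgebra
  have : IsScalarTower O (O ⊗[R] S) (O' ⊗[R] S) := IsScalarTower.of_algebraMap_eq fun x => rfl
  have := IsLocalization.tensorProduct_tensorProduct R S M O' (by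
    ext s
    change mp S (IsScalarTower.toAlgHom R O O') (1 ⊗ₜ s) = 1 ⊗ₜ s
    rw [NrdP.mp_tmul, map_one])
  exact UniqueFactorizationMonoid.of_isLocalization (Algebra.algebraMapSubmonoid (O ⊗[R] S) M) _

namespace UFLP

variable (R S K : Type u) [CommRing R] [CommRing S] [Algebra R S] [Field K] [Algebra R K]

/-- polynomials over the tensor product -/
noncomputable def eqv : (K ⊗[R] S)[X] ≃ₐ[K] K[X] ⊗[R] S :=
  ((polyEquivTensor K (K ⊗[R] S)).trans (Algebra.TensorProduct.comm K _ _)).trans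
    (Algebra.TensorProduct.cancelBaseChange R K K K[X] S)

theorem eqv_C (s : K ⊗[R] S) : eqv R S K (C s) = mp S (IsScalarTower.toAlgHom R K K[X]) s := by
  induction s using TensorProduct.induction_on with
  | zero => simp
  | tmul k s =>
    rw [NrdP.mp_tmul]
    simp [eqv, Algebra.smul_def]
  | add x y hx hy => rw [map_add, map_add, map_add, hx, hy]

end UFLP

open UFLP

theorem pUFX : S_UFX.{u} := by
  intro R S K _ _ _ _ _ _ _
  let := (IsField.of_isDomain_of_finite K (K ⊗[R] S)).toField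
  refine ⟨(eqv R S K).toMulEquiv.uniqueFactorizationMonoid inferInstance, fun s => ?_⟩
  obtain ⟨r, hr, h⟩ := Polynomial.isUnit_iff.1 (s.isUnit.map (eqv R S K).symm)
  exact ⟨hr.unit, by rw [← eqv_C, IsUnit.unit_spec, h, AlgEquiv.apply_symm_apply]⟩

end Pool.Agent.P.MP_46a8f8_ag.GU
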